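import Pool.Agent.RLT40.SpaceB

/-!
# Module SPACE: the space `H¹₀(a,b)` and the counting function `nneg`.

`deriv f = g` a.e. for `f x = ∫_a^x g` (Lebesgue differentiation; see `IntervalIntegrable...ae_hasDerivAt` /
`AbsolutelyContinuousOnInterval` in Mathlib).
-/

open MeasureTheory Set
open scoped ENNReal NNReal

namespace Pool.Agent.RLT40

/-- a symmetric form all of whose negative subspaces have dimension at most `n` is non-negative on a
subspace of codimension at most `n` -/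
theorem spc_codim {E : Type*} [AddCommGroup E] [Module ℝ E] [FiniteDimensional ℝ E]
    (B : LinearMap.BilinForm ℝ E) (hB : ∀ u v, B u v = B v u) (n : ℕ)
    (h : ∀ N : Submodule ℝ E, (∀ v ∈ N, v ≠ 0 → B v v < 0) → Module.finrank ℝ N ≤ n) :
    ∃ K : Submodule ℝ E, (∀ v ∈ K, 0 ≤ B v v) ∧ Module.finrank ℝ E ≤ Module.finrank ℝ K + n := by
  classical
  let P : ℕ → Prop := fun m =>
    ∃ N : Submodule ℝ E, (∀ v ∈ N, v ≠ 0 → B v v < 0) ∧ Module.finrank ℝ N = m
  obtain ⟨m, hm, hmax⟩ : ∃ m, P m ∧ ∀ k, P k → k ≤ m := by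
    have hP0 : P 0 := ⟨⊥, fun v hv hv0 => absurd ((Submodule.mem_bot ℝ).1 hv) hv0, finrank_bot ℝ E⟩
    refine ⟨Nat.findGreatest P n, Nat.findGreatest_spec (Nat.zero_le n) hP0, fun k hk => ?_⟩
    obtain ⟨N, hN, hk'⟩ := hk
    exact Nat.le_findGreatest (hk' ▸ h N hN) ⟨N, hN, hk'⟩
  obtain ⟨N, hN, hNm⟩ := hm
  have hmn : m ≤ n := hNm ▸ h N hN
  let φ : E →ₗ[ℝ] (N →ₗ[ℝ] ℝ) := (LinearMap.lcomp ℝ ℝ N.subtype) ∘ₗ B
  have hφ : ∀ (v : E) (u : N), φ v u = B v u := fun v u => rfl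
  refine ⟨LinearMap.ker φ, ?_, ?_⟩
  · intro v hv
    by_contra hneg
    rw [not_le] at hneg
    have horth : ∀ u ∈ N, B v u = 0 := by
      intro u hu
      have h1 := congrArg (fun ψ : N →ₗ[ℝ] ℝ => ψ ⟨u, hu⟩) (LinearMap.mem_ker.1 hv)
      exact h1
    have hvN : v ∉ N := fun hvN => by
      rw [horth v hvN] at hneg
      exact lt_irrefl _ hneg
    have hN' : ∀ w ∈ N ⊔ Submodule.span ℝ {v}, w ≠ 0 → B w w < 0 := by
      intro w hw hw0
      obtain ⟨u, hu, z, hz, rfl⟩ := Submodule.mem_sup.1 hw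
      obtain ⟨t, rfl⟩ := Submodule.mem_span_singleton.1 hz
      have h1 : B (u + t • v) (u + t • v) = B u u + t ^ 2 * B v v := by
        simp only [map_add, map_smul, LinearMap.add_apply, LinearMap.smul_apply, smul_eq_mul]
        rw [hB u v, horth u hu]
        ring
      rw [h1]
      by_cases hu0 : u = 0
      · have ht : t ≠ 0 := by
          rintro rfl
          apply hw0
          rw [hu0, zero_smul, add_zero]
        rw [hu0, map_zero, zero_add]
        exact mul_neg_of_pos_of_neg (by positivity) hneg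
      · have h2 := hN u hu hu0
        have h3 : t ^ 2 * B v v ≤ 0 := mul_nonpos_of_nonneg_of_nonpos (sq_nonneg t) hneg.le
        linarith
    have h4 : N < N ⊔ Submodule.span ℝ {v} := by
      refine lt_of_le_of_ne le_sup_left fun he => hvN ?_
      rw [he]
      exact Submodule.mem_sup_right (Submodule.mem_span_singleton_self v)
    have h5 := Submodule.finrank_lt_finrank_of_lt h4
    have h6 := hmax _ ⟨_, hN', rfl⟩
    omega
  · have h1 := LinearMap.finrank_range_add_finrank_ker φ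
    have h2 : Module.finrank ℝ (LinearMap.range φ) ≤ Module.finrank ℝ (N →ₗ[ℝ] ℝ) :=
      Submodule.finrank_le _
    have h3 : Module.finrank ℝ (N →ₗ[ℝ] ℝ) = Module.finrank ℝ N := Subspace.dual_finrank_eq
    omega

theorem spc_int {a b : ℝ} {V f g : ℝ → ℝ} (hV : IntegrableOn V (Ioo a b)) (hf : f ∈ H10 a b)
    (hg : g ∈ H10 a b) :
    Integrable (fun x => deriv f x * deriv g x + V x * (f x * g x)) := by
  have h1 : Integrable (fun x => deriv f x * deriv g x) :=
    (H10_deriv_memLp hf).integrable_mul (H10_deriv_memLp hg)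
  have h2 : Integrable (fun x => V x * (f x * g x)) := by
    have h3 := (q_integrable hV ((H10 a b).add_mem hf hg)).1
    have h4 := (q_integrable hV hf).1
    have h5 := (q_integrable hV hg).1
    refine (((h3.sub h4).sub h5).div_const 2).congr (Filter.Eventually.of_forall fun x => ?_)
    simp only [Pi.sub_apply, Pi.add_apply]
    ring
  exact h1.add h2

theorem spc_deriv_add {a b : ℝ} {f g : ℝ → ℝ} (hf : f ∈ H10 a b) (hg : g ∈ H10 a b) :
    ∀ᵐ x, deriv (f + g) x = deriv f x + deriv g x := by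
  filter_upwards [H10_ae_deriv hf, H10_ae_deriv hg] with x h1 h2
  exact (h1.add h2).deriv

theorem spc_deriv_smul (c : ℝ) (f : ℝ → ℝ) (x : ℝ) : deriv (c • f) x = c * deriv f x := by
  have h : (c • f : ℝ → ℝ) = fun x => c * f x := rfl
  rw [h, deriv_const_mul_field]

theorem spc_add {a b : ℝ} {V f f' g : ℝ → ℝ} (hV : IntegrableOn V (Ioo a b)) (hf : f ∈ H10 a b)
    (hf' : f' ∈ H10 a b) (hg : g ∈ H10 a b) :
    (∫ x, (deriv (f + f') x * deriv g x + V x * ((f + f') x * g x))) =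
      (∫ x, (deriv f x * deriv g x + V x * (f x * g x))) +
        ∫ x, (deriv f' x * deriv g x + V x * (f' x * g x)) := by
  rw [← integral_add (spc_int hV hf hg) (spc_int hV hf' hg)]
  refine integral_congr_ae ?_
  filter_upwards [spc_deriv_add hf hf'] with x hx
  rw [hx, Pi.add_apply]
  ring

theorem spc_smul {V g : ℝ → ℝ} (c : ℝ) (f : ℝ → ℝ) :
    (∫ x, (deriv (c • f) x * deriv g x + V x * ((c • f) x * g x))) =
      c * ∫ x, (deriv f x * deriv g x + V x * (f x * g x)) := by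
  rw [← integral_const_mul]
  refine integral_congr_ae (Filter.Eventually.of_forall fun x => ?_)
  simp only [spc_deriv_smul, Pi.smul_apply, smul_eq_mul]
  ring

/-- the bilinear form of `q V` on `H¹₀(a,b)` -/
noncomputable def spcB {a b : ℝ} {V : ℝ → ℝ} (hV : IntegrableOn V (Ioo a b)) :
    LinearMap.BilinForm ℝ (H10 a b) :=
  LinearMap.mk₂ ℝ (fun f g => ∫ x, (deriv (f : ℝ → ℝ) x * deriv (g : ℝ → ℝ) x +
      V x * ((f : ℝ → ℝ) x * (g : ℝ → ℝ) x)))
    (fun f f' g => spc_add hV f.2 f'.2 g.2)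
    (fun c f g => spc_smul c _)
    (fun f g g' => by
      have h := spc_add hV g.2 g'.2 f.2
      simp only [mul_comm (deriv (f : ℝ → ℝ) _) _, mul_comm ((f : ℝ → ℝ) _) _]
      exact h)
    (fun c f g => by
      have h := spc_smul (V := V) (g := f) c g
      simp only [mul_comm (deriv (f : ℝ → ℝ) _) _, mul_comm ((f : ℝ → ℝ) _) _]
      exact h)

theorem spcB_apply {a b : ℝ} {V : ℝ → ℝ} (hV : IntegrableOn V (Ioo a b)) (f g : H10 a b) :
    spcB hV f g = ∫ x, (deriv (f : ℝ → ℝ) x * deriv (g : ℝ → ℝ) x +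
      V x * ((f : ℝ → ℝ) x * (g : ℝ → ℝ) x)) := rfl

theorem spcB_comm {a b : ℝ} {V : ℝ → ℝ} (hV : IntegrableOn V (Ioo a b)) (f g : H10 a b) :
    spcB hV f g = spcB hV g f := by
  rw [spcB_apply, spcB_apply]
  congr 1
  ext x
  ring

theorem spcB_self {a b : ℝ} {V : ℝ → ℝ} (hV : IntegrableOn V (Ioo a b)) (f : H10 a b) :
    spcB hV f f = q V f := by
  rw [spcB_apply, q]
  congr 1
  ext x
  ring

theorem le_nneg {a b : ℝ} {V : ℝ → ℝ} {F : Submodule ℝ (ℝ → ℝ)} (h1 : F ≤ H10 a b) (h2 : FiniteDimensional ℝ F)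
    (h3 : ∀ f ∈ F, f ≠ 0 → q V f < 0) : (Module.finrank ℝ F : ℕ∞) ≤ nneg a b V :=
  le_iSup₂_of_le F ⟨h1, h2, h3⟩ le_rfl

/-- if `n ≤ nneg` there is a negative subspace of dimension exactly `n` -/
theorem exists_of_le_nneg {a b : ℝ} {V : ℝ → ℝ} {n : ℕ} (h : (n : ℕ∞) ≤ nneg a b V) :
    ∃ F : Submodule ℝ (ℝ → ℝ), F ≤ H10 a b ∧ FiniteDimensional ℝ F ∧ (∀ f ∈ F, f ≠ 0 → q V f < 0) ∧
      Module.finrank ℝ F = n := by
  obtain ⟨F, h1, h2, h3, h4⟩ : ∃ F : Submodule ℝ (ℝ → ℝ), F ≤ H10 a b ∧ FiniteDimensional ℝ F ∧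
      (∀ f ∈ F, f ≠ 0 → q V f < 0) ∧ n ≤ Module.finrank ℝ F := by
    rcases n with _ | m
    · exact ⟨⊥, bot_le, inferInstance, fun f hf h => absurd ((Submodule.mem_bot ℝ).1 hf) h,
        Nat.zero_le _⟩
    · have hlt : (m : ℕ∞) < nneg a b V :=
        lt_of_lt_of_le (by exact_mod_cast Nat.lt_succ_self m) h
      unfold nneg at hlt
      rw [lt_iSup_iff] at hlt
      obtain ⟨F, hF⟩ := hlt
      rw [lt_iSup_iff] at hF
      obtain ⟨⟨h1, h2, h3⟩, h4⟩ := hF
      refine ⟨F, h1, h2, h3, ?_⟩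
      have h5 : m < Module.finrank ℝ F := by exact_mod_cast h4
      exact h5
  obtain ⟨f, hf⟩ := exists_linearIndependent_of_le_finrank h4
  have hf' : LinearIndependent ℝ (fun i => (f i : ℝ → ℝ)) :=
    hf.map' F.subtype (Submodule.ker_subtype F)
  have hle : Submodule.span ℝ (range fun i => (f i : ℝ → ℝ)) ≤ F := by
    rw [Submodule.span_le]
    rintro _ ⟨i, rfl⟩
    exact (f i).2
  refine ⟨Submodule.span ℝ (range fun i => (f i : ℝ → ℝ)), hle.trans h1, ?_,
    fun g hg hg0 => h3 g (hle hg) hg0, ?_⟩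
  · exact FiniteDimensional.span_of_finite ℝ (finite_range _)
  · rw [finrank_span_eq_card hf', Fintype.card_fin]

theorem nneg_le_iff {a b : ℝ} {V : ℝ → ℝ} {n : ℕ} :
    nneg a b V ≤ n ↔ ∀ F : Submodule ℝ (ℝ → ℝ), F ≤ H10 a b → FiniteDimensional ℝ F → (∀ f ∈ F, f ≠ 0 → q V f < 0) →
      Module.finrank ℝ F ≤ n := by
  unfold nneg
  rw [iSup₂_le_iff]
  constructor
  · intro h F h1 h2 h3
    exact_mod_cast h F ⟨h1, h2, h3⟩
  · rintro h F ⟨h1, h2, h3⟩
    exact_mod_cast h F h1 h2 h3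

theorem nneg_mono_pot {a b : ℝ} {V V' : ℝ → ℝ} (hV : IntegrableOn V (Ioo a b)) (hV' : IntegrableOn V' (Ioo a b))
    (h : ∀ x ∈ Ioo a b, V x ≤ V' x) : nneg a b V' ≤ nneg a b V := by
  refine iSup₂_le fun F hF => le_nneg hF.1 hF.2.1 fun f hf h0 =>
    lt_of_le_of_lt ?_ (hF.2.2 f hf h0)
  refine integral_mono (q_integrable hV (hF.1 hf)).2 (q_integrable hV' (hF.1 hf)).2 fun x => ?_
  by_cases hx : x ∈ Ioo a b
  · exact add_le_add_right (mul_le_mul_of_nonneg_right (h x hx) (sq_nonneg _)) _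
  · have h1 := H10_zero (hF.1 hf) hx
    simp only [h1]
    simp

theorem spc_q_congr {a b : ℝ} {V V' : ℝ → ℝ} (h : ∀ᵐ x, x ∈ Ioo a b → V x = V' x) {f : ℝ → ℝ}
    (hf : f ∈ H10 a b) : q V f = q V' f := by
  unfold q
  refine integral_congr_ae ?_
  filter_upwards [h] with x hx
  by_cases hx' : x ∈ Ioo a b
  · rw [hx hx']
  · rw [H10_zero hf hx']
    simp

/-- only the values of the potential a.e. on `(a,b)` matter -/
theorem nneg_congr {a b : ℝ} {V V' : ℝ → ℝ} (h : ∀ᵐ x, x ∈ Ioo a b → V x = V' x) : nneg a b V = nneg a b V' := by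
  refine le_antisymm ?_ ?_
  · refine iSup₂_le fun F hF => le_nneg hF.1 hF.2.1 fun f hf h0 => ?_
    rw [← spc_q_congr h (hF.1 hf)]
    exact hF.2.2 f hf h0
  · refine iSup₂_le fun F hF => le_nneg hF.1 hF.2.1 fun f hf h0 => ?_
    rw [spc_q_congr h (hF.1 hf)]
    exact hF.2.2 f hf h0

theorem nneg_mono_dom {a b a' b' : ℝ} {V : ℝ → ℝ} (ha : a' ≤ a) (hb : b ≤ b') : nneg a b V ≤ nneg a' b' V :=
  iSup₂_le fun _ hF => le_nneg (hF.1.trans (H10_mono ha hb)) hF.2.1 hF.2.2

theorem nneg_empty {a b : ℝ} {V : ℝ → ℝ} (hab : b ≤ a) : nneg a b V = 0 := by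
  have h : nneg a b V ≤ (0 : ℕ) := by
    rw [nneg_le_iff]
    intro F h1 h2 h3
    have h4 : F = ⊥ := by
      rw [eq_bot_iff]
      intro f hf
      rw [Submodule.mem_bot]
      funext x
      exact H10_zero (h1 hf) (by rw [Ioo_eq_empty (not_lt.2 hab)]; exact notMem_empty x)
    rw [h4, finrank_bot]
  exact le_antisymm h bot_le

/-- a finite dimensional negative subspace survives small `L¹` changes of the potential -/
theorem nneg_approx {a b : ℝ} {V : ℝ → ℝ} (hV : IntegrableOn V (Ioo a b)) {n : ℕ} (h : (n : ℕ∞) ≤ nneg a b V) :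
    ∃ δ > 0, ∀ V' : ℝ → ℝ, IntegrableOn V' (Ioo a b) → (∫ x in Ioo a b, |V' x - V x|) < δ → (n : ℕ∞) ≤ nneg a b V' := by
  rcases le_total b a with hab | hab
  · rw [nneg_empty hab] at h
    exact ⟨1, one_pos, fun V' _ _ => h.trans bot_le⟩
  obtain ⟨F, hF, hfd, hneg, hn⟩ := exists_of_le_nneg h
  -- an orthogonal basis
  let ι : F →ₗ[ℝ] H10 a b := Submodule.inclusion hF
  let B : LinearMap.BilinForm ℝ F := LinearMap.BilinForm.comp (spcB hV) ι ι
  have hBapply : ∀ f g : F, B f g = spcB hV (ι f) (ι g) := fun f g => rfl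
  have hBself : ∀ f : F, B f f = q V f := fun f => by
    rw [hBapply, spcB_self]
    rfl
  have : Invertible (2 : ℝ) := invertibleOfNonzero two_ne_zero
  obtain ⟨N, v, hv, hN⟩ : ∃ (N : ℕ) (v : Module.Basis (Fin N) ℝ F),
      (∀ i j, i ≠ j → B (v i) (v j) = 0) ∧ N = Module.finrank ℝ F := by
    obtain ⟨v, hv⟩ := LinearMap.BilinForm.exists_orthogonal_basis (B := B)
      ⟨fun f g => by
        rw [RingHom.id_apply, hBapply, hBapply]
        exact spcB_comm hV _ _⟩
    rw [LinearMap.isOrthoᵢ_def] at hv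
    exact ⟨_, v, hv, rfl⟩
  set Q : Fin N → ℝ := fun i => -q V (v i) with hQ
  have hQpos : ∀ i, 0 < Q i := fun i => by
    have h1 : (v i : ℝ → ℝ) ≠ 0 := by
      intro h0
      exact v.ne_zero i (Subtype.ext h0)
    have := hneg _ (v i).2 h1
    simp only [hQ]
    linarith
  set M : Fin N → ℝ := fun i => N * ((b - a) * ∫ t, deriv (v i : ℝ → ℝ) t ^ 2) with hM
  have hMnn : ∀ i, 0 ≤ M i := fun i =>
    mul_nonneg (Nat.cast_nonneg _) (mul_nonneg (sub_nonneg.2 hab)
      (integral_nonneg fun _ => sq_nonneg _))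
  set s : ℝ := ∑ i, M i / Q i with hs
  have hs0 : 0 ≤ s := Finset.sum_nonneg fun i _ => div_nonneg (hMnn i) (hQpos i).le
  refine ⟨1 / (1 + s), by positivity, fun V' hV' hlt => ?_⟩
  have hkey : ∀ f ∈ F, f ≠ 0 → q V' f < 0 := by
    intro f hf hf0
    set c : Fin N → ℝ := fun i => v.repr ⟨f, hf⟩ i with hc
    have hsum : (⟨f, hf⟩ : F) = ∑ i, c i • v i := (v.sum_repr ⟨f, hf⟩).symm
    -- the form
    have h1 : q V f = -∑ i, c i ^ 2 * Q i := by
      have h2 : q V f = B ⟨f, hf⟩ ⟨f, hf⟩ := (hBself ⟨f, hf⟩).symm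
      rw [h2, hsum, ← Finset.sum_neg_distrib]
      simp only [map_sum, LinearMap.sum_apply, map_smul, LinearMap.smul_apply, smul_eq_mul]
      refine Finset.sum_congr rfl fun i _ => ?_
      rw [Finset.sum_eq_single i]
      · rw [hBself]
        simp only [hQ]
        ring
      · intro j _ hji
        rw [hv j i hji]
        ring
      · intro hi
        exact absurd (Finset.mem_univ i) hi
    -- the sup bound
    have h3 : ∀ x, f x ^ 2 ≤ ∑ i, c i ^ 2 * M i := by
      intro x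
      have h4 : f x = ∑ i, c i * (v i : ℝ → ℝ) x := by
        have h5 := congrArg (fun g : F => (g : ℝ → ℝ) x) hsum
        simp only [Submodule.coe_sum, Submodule.coe_smul, Finset.sum_apply, Pi.smul_apply,
          smul_eq_mul] at h5
        exact h5
      rw [h4]
      calc (∑ i, c i * (v i : ℝ → ℝ) x) ^ 2
          ≤ (Finset.univ : Finset (Fin N)).card * ∑ i, (c i * (v i : ℝ → ℝ) x) ^ 2 :=
            sq_sum_le_card_mul_sum_sq
        _ = ∑ i, c i ^ 2 * (N * (v i : ℝ → ℝ) x ^ 2) := by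
            rw [Finset.card_univ, Fintype.card_fin, Finset.mul_sum]
            refine Finset.sum_congr rfl fun i _ => ?_
            ring
        _ ≤ ∑ i, c i ^ 2 * M i := by
            refine Finset.sum_le_sum fun i _ => mul_le_mul_of_nonneg_left ?_ (sq_nonneg _)
            exact mul_le_mul_of_nonneg_left (H10_sup_sq hab (hF (v i).2) x) (Nat.cast_nonneg _)
    have hfH := hF hf
    set I : ℝ := ∫ x in Ioo a b, |V' x - V x| with hI
    have hI0 : 0 ≤ I := integral_nonneg fun _ => abs_nonneg _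
    have h6 : q V' f ≤ q V f + (∑ i, c i ^ 2 * M i) * I := by
      have h7 : q V' f - q V f = ∫ x, (V' x - V x) * f x ^ 2 := by
        rw [q_eq hV' hfH, q_eq hV hfH, add_sub_add_left_eq_sub,
          ← integral_sub (q_integrable hV' hfH).1 (q_integrable hV hfH).1]
        refine integral_congr_ae (Filter.Eventually.of_forall fun x => ?_)
        simp only
        ring
      have h8 : ∫ x, (V' x - V x) * f x ^ 2 = ∫ x in Ioo a b, (V' x - V x) * f x ^ 2 := by
        refine (setIntegral_eq_integral_of_forall_compl_eq_zero fun x hx => ?_).symm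
        rw [H10_zero hfH hx]
        simp
      have h9 : (∫ x in Ioo a b, (V' x - V x) * f x ^ 2) ≤ (∑ i, c i ^ 2 * M i) * I := by
        rw [hI, ← integral_const_mul]
        refine integral_mono ?_ ((hV'.sub hV).abs.const_mul _) fun x => ?_
        · have h10 := ((q_integrable hV' hfH).1.sub (q_integrable hV hfH).1).integrableOn
            (s := Ioo a b)
          refine h10.congr (Filter.Eventually.of_forall fun x => ?_)
          simp only [Pi.sub_apply]
          ring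
        · have h11 : (V' x - V x) * f x ^ 2 ≤ |V' x - V x| * f x ^ 2 :=
            mul_le_mul_of_nonneg_right (le_abs_self _) (sq_nonneg _)
          have h12 : |V' x - V x| * f x ^ 2 ≤ |V' x - V x| * ∑ i, c i ^ 2 * M i :=
            mul_le_mul_of_nonneg_left (h3 x) (abs_nonneg _)
          calc _ ≤ _ := h11
            _ ≤ _ := h12
            _ = _ := mul_comm _ _
      linarith
    have h13 : q V f + (∑ i, c i ^ 2 * M i) * I = ∑ i, c i ^ 2 * (M i * I - Q i) := by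
      rw [h1, Finset.sum_mul, ← Finset.sum_neg_distrib, ← Finset.sum_add_distrib]
      refine Finset.sum_congr rfl fun i _ => ?_
      ring
    have h14 : ∀ i, M i * I - Q i < 0 := by
      intro i
      have h15 : M i / Q i ≤ s :=
        Finset.single_le_sum (f := fun i => M i / Q i)
          (fun j _ => div_nonneg (hMnn j) (hQpos j).le) (Finset.mem_univ i)
      rw [div_le_iff₀ (hQpos i)] at h15
      have h16 : M i * I ≤ s * Q i * (1 / (1 + s)) :=
        mul_le_mul h15 hlt.le hI0 (mul_nonneg hs0 (hQpos i).le)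
      have h17 : s * Q i * (1 / (1 + s)) < Q i := by
        rw [mul_one_div, div_lt_iff₀ (by linarith)]
        nlinarith [hQpos i]
      linarith
    obtain ⟨i₀, hi₀⟩ : ∃ i, c i ≠ 0 := by
      by_contra hcon
      push Not at hcon
      apply hf0
      have h18 : (⟨f, hf⟩ : F) = 0 := by
        rw [hsum]
        exact Finset.sum_eq_zero fun i _ => by rw [hcon i, zero_smul]
      exact congrArg Subtype.val h18
    refine h6.trans_lt ?_
    rw [h13]
    refine Finset.sum_neg' (fun i _ => ?_) ⟨i₀, Finset.mem_univ _, ?_⟩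
    · exact mul_nonpos_of_nonneg_of_nonpos (sq_nonneg _) (h14 i).le
    · exact mul_neg_of_pos_of_neg (by positivity) (h14 i₀)
  have h19 := le_nneg hF hfd hkey
  rwa [hn] at h19

/-- general subadditivity principle: linear maps `T₁, T₂` with `q V₁ (T₁ f) + q V₂ (T₂ f) ≤ q V f` -/
theorem nneg_split {a b a₁ b₁ a₂ b₂ : ℝ} {V V₁ V₂ : ℝ → ℝ} (T₁ T₂ : (ℝ → ℝ) →ₗ[ℝ] (ℝ → ℝ))
    (h₁ : ∀ f ∈ H10 a b, T₁ f ∈ H10 a₁ b₁) (h₂ : ∀ f ∈ H10 a b, T₂ f ∈ H10 a₂ b₂)
    (hV₁ : IntegrableOn V₁ (Ioo a₁ b₁)) (hV₂ : IntegrableOn V₂ (Ioo a₂ b₂))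
    (h : ∀ f ∈ H10 a b, q V₁ (T₁ f) + q V₂ (T₂ f) ≤ q V f) : nneg a b V ≤ nneg a₁ b₁ V₁ + nneg a₂ b₂ V₂ := by
  rcases eq_or_ne (nneg a₁ b₁ V₁) ⊤ with ht1 | ht1
  · rw [ht1, top_add]; exact le_top
  rcases eq_or_ne (nneg a₂ b₂ V₂) ⊤ with ht2 | ht2
  · rw [ht2, add_top]; exact le_top
  obtain ⟨n₁, hn₁⟩ := ENat.ne_top_iff_exists.1 ht1
  obtain ⟨n₂, hn₂⟩ := ENat.ne_top_iff_exists.1 ht2
  rw [← hn₁, ← hn₂, ← Nat.cast_add, nneg_le_iff]
  intro F hF hfd hneg
  have key : ∀ (a' b' : ℝ) (V' : ℝ → ℝ) (T : (ℝ → ℝ) →ₗ[ℝ] (ℝ → ℝ))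
      (_ : ∀ f ∈ H10 a b, T f ∈ H10 a' b') (_ : IntegrableOn V' (Ioo a' b')) (m : ℕ)
      (_ : nneg a' b' V' ≤ m), ∃ K : Submodule ℝ F, (∀ f ∈ K, 0 ≤ q V' (T (f : ℝ → ℝ))) ∧
        Module.finrank ℝ F ≤ Module.finrank ℝ K + m := by
    intro a' b' V' T hT hV' m hm
    let ι : F →ₗ[ℝ] H10 a' b' :=
      (T ∘ₗ F.subtype).codRestrict (H10 a' b') (fun f => hT _ (hF f.2))
    let B : LinearMap.BilinForm ℝ F := LinearMap.BilinForm.comp (spcB hV') ι ι
    have hBapply : ∀ f g : F, B f g = spcB hV' (ι f) (ι g) := fun f g => rfl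
    have hBself : ∀ f : F, B f f = q V' (T (f : ℝ → ℝ)) := fun f => by
      rw [hBapply, spcB_self]
      rfl
    obtain ⟨K, hK1, hK2⟩ := spc_codim B (fun f g => by
      rw [hBapply, hBapply]
      exact spcB_comm hV' _ _) m (by
      intro N hN
      let ψ : N →ₗ[ℝ] (ℝ → ℝ) := (T ∘ₗ F.subtype) ∘ₗ N.subtype
      have hψ : ∀ f : N, ψ f = T ((f : F) : ℝ → ℝ) := fun f => rfl
      have hinj : Function.Injective ψ := by
        intro f g hfg
        by_contra hne
        have h3 := hN ((f : F) - (g : F)) (N.sub_mem f.2 g.2)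
          (fun h0 => hne (Subtype.ext (sub_eq_zero.1 h0)))
        rw [hψ, hψ] at hfg
        have h30 : T (((f : F) - (g : F) : F) : ℝ → ℝ) = 0 := by
          rw [Submodule.coe_sub, map_sub, hfg, sub_self]
        rw [hBself, h30] at h3
        have h4 : q V' 0 = 0 := by
          unfold q
          simp
        rw [h4] at h3
        exact lt_irrefl _ h3
      have h5 := nneg_le_iff.1 hm (LinearMap.range ψ) (by
        rintro _ ⟨f, rfl⟩
        exact hT _ (hF (f : F).2)) inferInstance (by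
        rintro _ ⟨f, rfl⟩ hf0
        have hf1 : (f : F) ≠ 0 := by
          intro h0
          apply hf0
          rw [hψ, h0]
          simp
        rw [hψ, ← hBself]
        exact hN f f.2 hf1)
      rwa [LinearMap.finrank_range_of_inj hinj] at h5)
    exact ⟨K, fun f hf => by rw [← hBself]; exact hK1 f hf, hK2⟩
  obtain ⟨K₁, hK₁, hd₁⟩ := key a₁ b₁ V₁ T₁ h₁ hV₁ n₁ hn₁.symm.le
  obtain ⟨K₂, hK₂, hd₂⟩ := key a₂ b₂ V₂ T₂ h₂ hV₂ n₂ hn₂.symm.le
  by_contra hcon
  rw [not_le] at hcon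
  have h3 := Submodule.finrank_sup_add_finrank_inf_eq K₁ K₂
  have h4 : Module.finrank ℝ ↥(K₁ ⊔ K₂) ≤ Module.finrank ℝ F := Submodule.finrank_le _
  have h5 : K₁ ⊓ K₂ ≠ ⊥ := by
    intro h0
    rw [h0, finrank_bot] at h3
    omega
  obtain ⟨f, hf, hf0⟩ := Submodule.exists_mem_ne_zero_of_ne_bot h5
  have h6 := hneg f f.2 (fun h0 => hf0 (Subtype.ext h0))
  have h7 := h f (hF f.2)
  have h8 := hK₁ f hf.1
  have h9 := hK₂ f hf.2
  linarith

end Pool.Agent.RLT40
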