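import Pool.Agent.RLT40.OdeA
import Pool.Agent.RLT40.SpaceC

/-!
# Module NODAL (paper 1.2): zeros of a solution give negative directions for a smaller potential.

Proof.  `φ` solution of `φ'' = V φ` with zeros `z 0 < ... < z m` in `[a,b]`.  The pieces `f_i = φ 1_{(z i, z (i+1))}` lie in `H10 a b`,
have disjoint supports, `∫ f_i'² + V f_i² = 0` (integrate `(φ φ')' = φ'² + V φ²`), so for `W < V` on `(a,b)`,
`q W (Σ c_i f_i) = Σ c_i² ∫ (W - V) f_i² < 0`.  Second statement: the first piece is glued: on `(s-1, s)` the linear function `x - s + 1`,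
then the solution with `φ s = 1`, `φ' s = 2`, up to its first zero.  The potential there is `V` on `(s,b)` and `V₀ ≤ 2` on `(s-1,s)`, so the form
of the first piece is `∫_{s-1}^s 1 + V₀ (x-s+1)² dx - 2 ≤ 1 + 2/3 - 2 < 0`.
-/

open MeasureTheory Set
open scoped ENNReal NNReal

namespace Pool.Agent.RLT40

lemma Nodal_sq_sum {m : ℕ} (c t : Fin m → ℝ) (h : ∀ i j, i ≠ j → t i * t j = 0) :
    (∑ i, c i * t i) ^ 2 = ∑ i, c i ^ 2 * t i ^ 2 := by
  rw [sq, Finset.sum_mul_sum]
  refine Finset.sum_congr rfl fun i _ => ?_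
  rw [Finset.sum_eq_single i]
  · ring
  · intro j _ hj
    have := h i j hj.symm
    linear_combination c i * c j * this
  · intro h; exact absurd (Finset.mem_univ i) h

/-- pieces with disjoint supports on which the form is negative -/
lemma Nodal_count {a b : ℝ} {W : ℝ → ℝ} (hW : IntegrableOn W (Ioo a b)) {m : ℕ} (I : Fin m → Set ℝ)
    (hI : ∀ i j, i ≠ j → Disjoint (I i) (I j)) (f g : Fin m → ℝ → ℝ)
    (hf : ∀ i, f i ∈ H10 a b) (hout : ∀ i, ∀ x, x ∉ I i → f i x = 0)
    (hd : ∀ i, ∀ᵐ x, deriv (f i) x = (I i).indicator (g i) x)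
    (hneg : ∀ i, q W (f i) < 0) : (m : ℕ∞) ≤ nneg a b W := by
  have key : ∀ c : Fin m → ℝ, q W (∑ i, c i • f i) = ∑ i, c i ^ 2 * q W (f i) := by
    intro c
    have h1 : ∀ᵐ x, deriv (∑ i, c i • f i) x ^ 2 + W x * (∑ i, c i • f i) x ^ 2 =
        ∑ i, c i ^ 2 * (deriv (f i) x ^ 2 + W x * f i x ^ 2) := by
      have h2 : ∀ᵐ x, ∀ i, HasDerivAt (f i) (deriv (f i) x) x :=
        ae_all_iff.2 fun i => H10_ae_deriv (hf i)
      have h3 : ∀ᵐ x, ∀ i, deriv (f i) x = (I i).indicator (g i) x := ae_all_iff.2 hd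
      filter_upwards [h2, h3] with x h2 h3
      have h4 : HasDerivAt (∑ i, c i • f i) (∑ i, c i * deriv (f i) x) x := by
        have := HasDerivAt.sum (u := Finset.univ) (fun i _ => (h2 i).const_smul (c i))
        simpa [smul_eq_mul] using this
      have hdis : ∀ i j, i ≠ j → ∀ F G : ℝ → ℝ, (I i).indicator F x * (I j).indicator G x = 0 := by
        intro i j hij F G
        by_cases hx : x ∈ I i
        · rw [indicator_of_notMem (disjoint_left.1 (hI i j hij) hx), mul_zero]
        · rw [indicator_of_notMem hx, zero_mul]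
      have hfi : ∀ i, f i x = (I i).indicator (f i) x := by
        intro i
        by_cases hx : x ∈ I i
        · rw [indicator_of_mem hx]
        · rw [indicator_of_notMem hx, hout i x hx]
      rw [h4.deriv]
      have e1 := Nodal_sq_sum c (fun i => deriv (f i) x) (fun i j hij => by
        simp only [h3]; exact hdis i j hij _ _)
      have e2 := Nodal_sq_sum c (fun i => f i x) (fun i j hij => by
        rw [hfi i, hfi j]; exact hdis i j hij _ _)
      have e3 : (∑ i, c i • f i) x = ∑ i, c i * f i x := by simp [Finset.sum_apply]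
      rw [e3, e1, e2, Finset.mul_sum, ← Finset.sum_add_distrib]
      exact Finset.sum_congr rfl fun i _ => by ring
    unfold q
    rw [integral_congr_ae h1, integral_finsetSum]
    · exact Finset.sum_congr rfl fun i _ => by rw [integral_const_mul]
    · intro i _
      exact (q_integrable hW (hf i)).2.const_mul _
  have hli : LinearIndependent ℝ f := by
    rw [Fintype.linearIndependent_iff]
    intro c hc i
    have h1 := key c
    rw [hc] at h1
    have h0 : q W (0 : ℝ → ℝ) = 0 := by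
      unfold q
      have : ∀ x : ℝ, deriv (0 : ℝ → ℝ) x = 0 := fun x => by
        have : (0 : ℝ → ℝ) = fun _ => (0 : ℝ) := rfl
        rw [this]; simp
      simp [this]
    rw [h0] at h1
    have h2 : ∀ i ∈ Finset.univ, c i ^ 2 * q W (f i) ≤ 0 := fun i _ =>
      mul_nonpos_of_nonneg_of_nonpos (sq_nonneg _) (hneg i).le
    have h3 := (Finset.sum_eq_zero_iff_of_nonpos h2).1 h1.symm i (Finset.mem_univ i)
    rcases mul_eq_zero.1 h3 with h4 | h4
    · exact pow_eq_zero_iff (two_ne_zero) |>.1 h4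
    · exact absurd h4 (hneg i).ne
  have hfr : Module.finrank ℝ (Submodule.span ℝ (range f)) = m := by
    rw [finrank_span_eq_card hli, Fintype.card_fin]
  have h5 := le_nneg (a := a) (b := b) (V := W) (F := Submodule.span ℝ (range f)) ?_ ?_ ?_
  · rwa [hfr] at h5
  · rw [Submodule.span_le]
    rintro _ ⟨i, rfl⟩
    exact hf i
  · exact FiniteDimensional.span_of_finite ℝ (finite_range f)
  · intro u hu hne
    obtain ⟨c, rfl⟩ := (Submodule.mem_span_range_iff_exists_fun ℝ).1 hu
    rw [key]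
    have h2 : ∀ i ∈ Finset.univ, c i ^ 2 * q W (f i) ≤ 0 := fun i _ =>
      mul_nonpos_of_nonneg_of_nonpos (sq_nonneg _) (hneg i).le
    have h6 : ∃ i, c i ≠ 0 := by
      by_contra hcon
      push Not at hcon
      apply hne
      simp [hcon]
    obtain ⟨i, hi⟩ := h6
    refine Finset.sum_neg' h2 ⟨i, Finset.mem_univ i, ?_⟩
    exact mul_neg_of_pos_of_neg (by positivity) (hneg i)

lemma Nodal_int {V φ ψ W : ℝ → ℝ} (hV : Continuous V) (h : Sol V φ ψ) (hne : ∃ x, φ x ≠ 0) {s y : ℝ}
    (hsy : s < y) (hW : IntegrableOn W (Ioo s y)) (hlt : ∀ x ∈ Ioo s y, W x < V x) :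
    IntegrableOn (fun x => ψ x ^ 2 + W x * φ x ^ 2) (Ioo s y) ∧
      ∫ x in Ioo s y, (ψ x ^ 2 + W x * φ x ^ 2) < φ y * ψ y - φ s * ψ s := by
  have hφ := h.continuous_left
  have hψ := h.continuous_right
  have hc1 : Continuous fun x => ψ x ^ 2 + V x * φ x ^ 2 := by fun_prop
  have hint1 : IntegrableOn (fun x => ψ x ^ 2 + V x * φ x ^ 2) (Ioo s y) :=
    (hc1.integrableOn_Icc (a := s) (b := y)).mono_set Ioo_subset_Icc_self
  -- integrability of `W φ²`
  have hWφ : IntegrableOn (fun x => W x * φ x ^ 2) (Ioo s y) := by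
    obtain ⟨M, hM⟩ := (isCompact_Icc (a := s) (b := y)).exists_bound_of_continuousOn
      ((hφ.pow 2).continuousOn)
    refine Integrable.mul_bdd (c := M) hW ?_ ?_
    · exact (hφ.pow 2).aestronglyMeasurable
    · refine (ae_restrict_iff' measurableSet_Ioo).2 (Filter.Eventually.of_forall fun x hx => ?_)
      exact hM x (Ioo_subset_Icc_self hx)
  have hψ2 : IntegrableOn (fun x => ψ x ^ 2) (Ioo s y) :=
    ((hψ.pow 2).integrableOn_Icc (a := s) (b := y)).mono_set Ioo_subset_Icc_self
  have hint2 : IntegrableOn (fun x => ψ x ^ 2 + W x * φ x ^ 2) (Ioo s y) := hψ2.add hWφ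
  have hVφ : IntegrableOn (fun x => V x * φ x ^ 2) (Ioo s y) :=
    ((hV.mul (hφ.pow 2)).integrableOn_Icc (a := s) (b := y)).mono_set Ioo_subset_Icc_self
  refine ⟨hint2, ?_⟩
  have hFTC : ∫ x in Ioo s y, (ψ x ^ 2 + V x * φ x ^ 2) = φ y * ψ y - φ s * ψ s := by
    rw [← integral_Ioc_eq_integral_Ioo, ← intervalIntegral.integral_of_le hsy.le]
    refine intervalIntegral.integral_eq_sub_of_hasDerivAt (f := fun x => φ x * ψ x) ?_
      (hc1.intervalIntegrable _ _)
    intro x _
    exact ((h.d1 x).mul (h.d2 x)).congr_deriv (by ring)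
  rw [← hFTC, ← sub_pos, ← integral_sub hint1 hint2]
  have hpos : 0 < ∫ x in Ioo s y, (V x - W x) * φ x ^ 2 := by
    rw [integral_pos_iff_support_of_nonneg_ae]
    · have hfin := h.zeros_finite hV hne s y
      have hsub : Ioo s y \ {x | x ∈ Icc s y ∧ φ x = 0} ⊆
          Function.support fun x => (V x - W x) * φ x ^ 2 := by
        rintro x ⟨hx, hx'⟩
        rw [Function.mem_support]
        have h1 : φ x ≠ 0 := fun h0 => hx' ⟨Ioo_subset_Icc_self hx, h0⟩
        have h2 : V x - W x ≠ 0 := (sub_pos.2 (hlt x hx)).ne'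
        exact mul_ne_zero h2 (pow_ne_zero 2 h1)
      refine lt_of_lt_of_le ?_ (measure_mono hsub)
      rw [measure_sdiff_null (hfin.measure_zero _), Measure.restrict_apply_self]
      simp [hsy]
    · refine (ae_restrict_iff' measurableSet_Ioo).2 (Filter.Eventually.of_forall fun x hx => ?_)
      exact mul_nonneg (sub_pos.2 (hlt x hx)).le (sq_nonneg _)
    · have := hVφ.sub hWφ
      refine this.congr (Filter.Eventually.of_forall fun x => ?_)
      simp only [Pi.sub_apply]; ring
  refine hpos.trans_eq (integral_congr_ae (Filter.Eventually.of_forall fun x => ?_))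
  ring

/-- the piece of a solution between two zeros -/
lemma Nodal_piece {V φ ψ W : ℝ → ℝ} (hV : Continuous V) (h : Sol V φ ψ) (hne : ∃ x, φ x ≠ 0) {a b x y : ℝ}
    (hxy : x < y) (hax : a ≤ x) (hyb : y ≤ b) (hx : φ x = 0) (hy : φ y = 0)
    (hW : IntegrableOn W (Ioo a b)) (hlt : ∀ t ∈ Ioo x y, W t < V t) :
    (Ioo x y).indicator φ ∈ H10 a b ∧
      (∀ᵐ t, deriv ((Ioo x y).indicator φ) t = (Ioo x y).indicator ψ t) ∧
      q W ((Ioo x y).indicator φ) < 0 := by
  obtain ⟨h1, h2⟩ := H10_of_C1 hxy.le (f := φ) (g := ψ) (fun t _ => h.d1 t)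
    h.continuous_right.continuousOn hx hy
  refine ⟨H10_mono hax hyb h1, h2, ?_⟩
  obtain ⟨h3, h4⟩ := Nodal_int hV h hne hxy (hW.mono_set (Ioo_subset_Ioo hax hyb)) hlt
  rw [hx, hy, zero_mul, zero_mul, sub_zero] at h4
  refine lt_of_eq_of_lt ?_ h4
  unfold q
  rw [← integral_indicator measurableSet_Ioo]
  refine integral_congr_ae ?_
  filter_upwards [h2] with t ht
  rw [ht]
  by_cases htI : t ∈ Ioo x y
  · simp only [indicator_of_mem htI]
  · simp only [indicator_of_notMem htI]; ring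

theorem le_nneg_of_zeros {V φ ψ : ℝ → ℝ} (hV : Continuous V) (h : Sol V φ ψ) (hne : ∃ x, φ x ≠ 0) {a b : ℝ}
    {m : ℕ} (z : ℕ → ℝ) (hz : ∀ i ≤ m, z i ∈ Icc a b ∧ φ (z i) = 0) (hmono : ∀ i < m, z i < z (i + 1))
    {W : ℝ → ℝ} (hW : IntegrableOn W (Ioo a b)) (hlt : ∀ x ∈ Ioo a b, W x < V x) : (m : ℕ∞) ≤ nneg a b W := by
  have hz' : ∀ i j, i ≤ j → j ≤ m → z i ≤ z j := by
    intro i j hij
    induction j, hij using Nat.le_induction with
    | base => intro _; exact le_rfl
    | succ j hj ih => intro hjm; exact (ih (by omega)).trans (hmono j (by omega)).le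
  have hp : ∀ i : Fin m, _ := fun i => Nodal_piece hV h hne (hmono i i.2) (hz i i.2.le).1.1
    (hz (i + 1) i.2).1.2 (hz i i.2.le).2 (hz (i + 1) i.2).2 hW
    (fun t ht => hlt t ⟨(hz i i.2.le).1.1.trans_lt ht.1, ht.2.trans_le (hz (i + 1) i.2).1.2⟩)
  refine Nodal_count hW (fun i : Fin m => Ioo (z i) (z (i + 1))) ?_
    (fun i => (Ioo (z i) (z (i + 1))).indicator φ) (fun _ => ψ) (fun i => (hp i).1)
    (fun i x hx => indicator_of_notMem hx _) (fun i => (hp i).2.1) (fun i => (hp i).2.2)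
  have hlt' : ∀ i j : Fin m, i < j → Disjoint (Ioo (z i) (z (i + 1))) (Ioo (z j) (z (j + 1))) := by
    intro i j hij
    rw [disjoint_left]
    rintro x ⟨_, h2⟩ ⟨h3, _⟩
    have := hz' (i + 1) j (by have : (i : ℕ) < j := hij; omega) j.2.le
    linarith
  intro i j hij
  rcases lt_or_gt_of_ne hij with h1 | h1
  · exact hlt' i j h1
  · exact (hlt' j i h1).symm

/-- the glued first piece -/
lemma Nodal_glue {V φ ψ W : ℝ → ℝ} (hV : Continuous V) (h : Sol V φ ψ) {a b s z0 : ℝ} (has : a ≤ s - 1)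
    (hs : φ s = 1) (hs' : ψ s = 2) (hsz : s < z0) (hzb : z0 ≤ b) (hz : φ z0 = 0)
    (hW : IntegrableOn W (Ioo a b)) (hlt : ∀ x ∈ Ioo s z0, W x < V x) (hle : ∀ x ∈ Ioo (s - 1) s, W x ≤ 2) :
    ∃ f g : ℝ → ℝ, f ∈ H10 a b ∧ (∀ x, x ∉ Ioo (s - 1) z0 → f x = 0) ∧
      (∀ᵐ t, deriv f t = (Ioo (s - 1) z0).indicator g t) ∧ q W f < 0 := by
  have hφ := h.continuous_left
  have hψ := h.continuous_right
  obtain ⟨F, hF⟩ : ∃ F : ℝ → ℝ, F = fun x => if x ≤ s then x - s + 1 else φ x := ⟨_, rfl⟩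
  obtain ⟨g, hg⟩ : ∃ g : ℝ → ℝ, g = fun x => if x ≤ s then 1 else ψ x := ⟨_, rfl⟩
  have hFc : Continuous F := by
    rw [hF]
    refine Continuous.if_le (by fun_prop) hφ continuous_id continuous_const ?_
    intro x hx
    rw [hx, hs]; ring
  have hgm : Measurable g := by
    rw [hg]
    exact Measurable.ite measurableSet_Iic measurable_const hψ.measurable
  have hFd : ∀ x, x ≠ s → HasDerivAt F (g x) x := by
    intro x hx
    rcases lt_or_gt_of_ne hx with h1 | h1
    · have e : g x = 1 := by rw [hg]; simp [h1.le]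
      rw [e]
      have h2 : HasDerivAt (fun x : ℝ => x - s + 1) 1 x := by
        simpa using ((hasDerivAt_id x).sub_const s).add_const (1 : ℝ)
      refine h2.congr_of_eventuallyEq ?_
      filter_upwards [Iio_mem_nhds h1] with t ht
      rw [hF]; simp [le_of_lt (mem_Iio.1 ht)]
    · have e : g x = ψ x := by rw [hg]; simp [not_le.2 h1]
      rw [e]
      refine (h.d1 x).congr_of_eventuallyEq ?_
      filter_upwards [Ioi_mem_nhds h1] with t ht
      rw [hF]; simp [not_le.2 (mem_Ioi.1 ht)]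
  obtain ⟨M, hM⟩ := (isCompact_Icc (a := s - 1) (b := z0)).exists_bound_of_continuousOn hψ.continuousOn
  have hgb : ∀ x ∈ Icc (s - 1) z0, ‖g x‖ ≤ max 1 M := by
    intro x hx
    rw [hg]
    simp only []
    split_ifs
    · simp
    · exact (hM x hx).trans (le_max_right _ _)
  have hgL : MemLp g 2 (volume.restrict (Ioo (s - 1) z0)) := by
    refine MemLp.of_bound hgm.aestronglyMeasurable (max 1 M) ?_
    refine (ae_restrict_iff' measurableSet_Ioo).2 (Filter.Eventually.of_forall fun x hx => ?_)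
    exact hgb x (Ioo_subset_Icc_self hx)
  have hgi : ∀ x ∈ Icc (s - 1) z0, IntervalIntegrable g volume (s - 1) x := by
    intro x hx
    rw [intervalIntegrable_iff_integrableOn_Ioc_of_le hx.1]
    refine IntegrableOn.of_bound (by simp) hgm.aestronglyMeasurable (max 1 M) ?_
    refine (ae_restrict_iff' measurableSet_Ioc).2 (Filter.Eventually.of_forall fun t ht => ?_)
    exact hgb t ⟨ht.1.le, ht.2.trans hx.2⟩
  have hF0 : F (s - 1) = 0 := by rw [hF]; simp
  have hFz : F z0 = 0 := by rw [hF]; simp [not_le.2 hsz, hz]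
  have hint : ∀ x ∈ Icc (s - 1) z0, F x = ∫ t in (s - 1)..x, g t := by
    intro x hx
    have := integral_eq_of_hasDerivAt_off_countable F g (a := s - 1) (b := x) (s := {s})
      (countable_singleton s) hFc.continuousOn (fun t ht => hFd t (by
        intro h0; exact ht.2 (by simp [h0]))) (hgi x hx)
    rw [this, hF0, sub_zero]
  have hfF : ∀ x ∈ Icc (s - 1) z0, (Ioo (s - 1) z0).indicator F x = F x := by
    intro x hx
    by_cases hx' : x ∈ Ioo (s - 1) z0
    · rw [indicator_of_mem hx']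
    · rw [indicator_of_notMem hx']
      rcases eq_endpoints_or_mem_Ioo_of_mem_Icc hx with h1 | h1 | h1
      · rw [h1, hF0]
      · rw [h1, hFz]
      · exact absurd h1 hx'
  obtain ⟨m1, m2⟩ := H10_of_integral (a := s - 1) (b := z0) (f := (Ioo (s - 1) z0).indicator F) (g := g)
    (fun x hx => indicator_of_notMem hx _) hgL (fun x hx => by rw [hfF x hx]; exact hint x hx)
  have hder : ∀ᵐ t, deriv ((Ioo (s - 1) z0).indicator F) t = (Ioo (s - 1) z0).indicator g t := by
    have hn : ∀ᵐ t : ℝ, t ∉ ({s - 1, z0} : Set ℝ) :=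
      ((toFinite ({s - 1, z0} : Set ℝ)).countable).ae_notMem volume
    filter_upwards [m2, hn] with t ht hnt
    by_cases htI : t ∈ Ioo (s - 1) z0
    · rw [indicator_of_mem htI]; exact ht htI
    · rw [indicator_of_notMem htI]
      refine H10_deriv_zero m1 fun hcc => ?_
      rcases eq_endpoints_or_mem_Ioo_of_mem_Icc hcc with h1 | h1 | h1
      · exact hnt (by simp [h1])
      · exact hnt (by simp [h1])
      · exact htI h1
  refine ⟨(Ioo (s - 1) z0).indicator F, g, H10_mono has hzb m1,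
    fun x hx => indicator_of_notMem hx _, hder, ?_⟩
  have hne : ∃ x, φ x ≠ 0 := ⟨s, by rw [hs]; exact one_ne_zero⟩
  have hWs : IntegrableOn W (Ioo s z0) := hW.mono_set (Ioo_subset_Ioo (by linarith) hzb)
  obtain ⟨n1, n2⟩ := Nodal_int hV h hne hsz hWs hlt
  rw [hz, zero_mul, hs, hs'] at n2
  have hWl : IntegrableOn W (Ioo (s - 1) s) := hW.mono_set (Ioo_subset_Ioo has (by linarith))
  have k1 : IntegrableOn (fun x => 1 + W x * (x - s + 1) ^ 2) (Ioo (s - 1) s) := by
    refine Integrable.add (by simp) ?_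
    refine Integrable.mul_bdd (c := 1) hWl (by fun_prop) ?_
    refine (ae_restrict_iff' measurableSet_Ioo).2 (Filter.Eventually.of_forall fun x hx => ?_)
    rw [Real.norm_eq_abs, abs_of_nonneg (sq_nonneg _)]
    have h1 := hx.1
    have h2 := hx.2
    nlinarith
  have hcl : Continuous fun x : ℝ => 1 + 2 * (x - s + 1) ^ 2 := by fun_prop
  have k2 : ∫ x in Ioo (s - 1) s, (1 + W x * (x - s + 1) ^ 2) ≤ 5 / 3 := by
    have e1 : ∫ x in Ioo (s - 1) s, (1 + 2 * (x - s + 1) ^ 2) = 5 / 3 := by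
      rw [← integral_Ioc_eq_integral_Ioo, ← intervalIntegral.integral_of_le (by linarith)]
      rw [intervalIntegral.integral_eq_sub_of_hasDerivAt
        (f := fun x => x + 2 / 3 * (x - s + 1) ^ 3) ?_ (hcl.intervalIntegrable _ _)]
      · ring
      · intro x _
        have h1 : HasDerivAt (fun x : ℝ => x - s + 1) 1 x := by
          simpa using ((hasDerivAt_id x).sub_const s).add_const (1 : ℝ)
        have h2 := (hasDerivAt_id x).add ((h1.pow 3).const_mul (2 / 3))
        exact h2.congr_deriv (by simp; ring)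
    rw [← e1]
    refine setIntegral_mono_on k1 ?_ measurableSet_Ioo fun x hx => ?_
    · exact (hcl.integrableOn_Icc (a := s - 1) (b := s)).mono_set Ioo_subset_Icc_self
    · have := mul_le_mul_of_nonneg_right (hle x hx) (sq_nonneg (x - s + 1))
      linarith
  have hq : q W ((Ioo (s - 1) z0).indicator F) = (∫ x in Ioo (s - 1) s, (1 + W x * (x - s + 1) ^ 2)) +
      ∫ x in Ioo s z0, (ψ x ^ 2 + W x * φ x ^ 2) := by
    rw [← integral_indicator measurableSet_Ioo, ← integral_indicator measurableSet_Ioo,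
      ← integral_add (k1.integrable_indicator measurableSet_Ioo)
        (n1.integrable_indicator measurableSet_Ioo)]
    unfold q
    refine integral_congr_ae ?_
    have hn : ∀ᵐ t : ℝ, t ≠ s := by
      have := (countable_singleton s).ae_notMem volume
      filter_upwards [this] with t ht
      simpa using ht
    filter_upwards [hder, hn] with t ht hts
    rw [ht]
    rcases lt_or_gt_of_ne hts with h1 | h1
    · have e2 : t ∉ Ioo s z0 := fun hh => absurd hh.1 (not_lt.2 h1.le)
      rw [indicator_of_notMem e2, add_zero]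
      by_cases h2 : s - 1 < t
      · have e3 : t ∈ Ioo (s - 1) z0 := ⟨h2, h1.trans hsz⟩
        have e4 : t ∈ Ioo (s - 1) s := ⟨h2, h1⟩
        rw [indicator_of_mem e3, indicator_of_mem e3, indicator_of_mem e4, hg, hF]
        simp [h1.le]
      · have e3 : t ∉ Ioo (s - 1) z0 := fun hh => h2 hh.1
        have e4 : t ∉ Ioo (s - 1) s := fun hh => h2 hh.1
        rw [indicator_of_notMem e3, indicator_of_notMem e3, indicator_of_notMem e4]
        ring
    · have e2 : t ∉ Ioo (s - 1) s := fun hh => absurd hh.2 (not_lt.2 h1.le)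
      rw [indicator_of_notMem e2, zero_add]
      by_cases h2 : t < z0
      · have e3 : t ∈ Ioo (s - 1) z0 := ⟨by linarith, h2⟩
        have e4 : t ∈ Ioo s z0 := ⟨h1, h2⟩
        rw [indicator_of_mem e3, indicator_of_mem e3, indicator_of_mem e4, hg, hF]
        simp [not_le.2 h1]
      · have e3 : t ∉ Ioo (s - 1) z0 := fun hh => h2 hh.2
        have e4 : t ∉ Ioo s z0 := fun hh => h2 hh.2
        rw [indicator_of_notMem e3, indicator_of_notMem e3, indicator_of_notMem e4]
        ring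
  rw [hq]
  linarith

/-- version with a first piece glued at `s` (used in 5.8 (J1)); zeros `s < z 0 < ... < z (m-1) ≤ b`. -/
theorem le_nneg_glued {V φ ψ : ℝ → ℝ} (hV : Continuous V) (h : Sol V φ ψ) {a b s : ℝ} (has : a ≤ s - 1) (hsb : s < b)
    (hs : φ s = 1) (hs' : ψ s = 2) {m : ℕ} (z : ℕ → ℝ) (hz : ∀ i < m, z i ∈ Ioc s b ∧ φ (z i) = 0)
    (hmono : ∀ i, i + 1 < m → z i < z (i + 1))
    {W : ℝ → ℝ} (hW : IntegrableOn W (Ioo a b)) (hlt : ∀ x ∈ Ioo s b, W x < V x) (hle : ∀ x ∈ Ioo (s - 1) s, W x ≤ 2) :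
    (m : ℕ∞) ≤ nneg a b W := by
  rcases Nat.eq_zero_or_pos m with rfl | hm
  · simp
  have hne : ∃ x, φ x ≠ 0 := ⟨s, by rw [hs]; exact one_ne_zero⟩
  obtain ⟨w, hw⟩ : ∃ w : ℕ → ℝ, w = fun i => if i = 0 then s - 1 else z (i - 1) := ⟨_, rfl⟩
  have hw0 : w 0 = s - 1 := by rw [hw]; simp
  have hws : ∀ i, w (i + 1) = z i := by intro i; rw [hw]; simp
  have hwm : ∀ i < m, w i < w (i + 1) := by
    intro i hi
    rcases i with _ | i
    · rw [hw0, hws]
      have := (hz 0 hm).1.1
      linarith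
    · rw [hws, hws]
      exact hmono i hi
  have hwle : ∀ i j, i ≤ j → j ≤ m → w i ≤ w j := by
    intro i j hij
    induction j, hij using Nat.le_induction with
    | base => intro _; exact le_rfl
    | succ j hj ih => intro hjm; exact (ih (by omega)).trans (hwm j (by omega)).le
  have hpieces : ∀ i : Fin m, ∃ f g : ℝ → ℝ, f ∈ H10 a b ∧
      (∀ x, x ∉ Ioo (w i) (w (i + 1)) → f x = 0) ∧
      (∀ᵐ t, deriv f t = (Ioo (w i) (w (i + 1))).indicator g t) ∧ q W f < 0 := by
    rintro ⟨i, hi⟩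
    rcases i with _ | i
    · simp only []
      rw [hws, hw0]
      obtain ⟨h1, h2⟩ := hz 0 hm
      exact Nodal_glue hV h has hs hs' h1.1 h1.2 h2 hW
        (fun x hx => hlt x ⟨hx.1, hx.2.trans_le h1.2⟩) hle
    · simp only []
      rw [hws, hws]
      obtain ⟨h1, h2⟩ := hz i (by omega)
      obtain ⟨h3, h4⟩ := hz (i + 1) hi
      obtain ⟨h5, h6, h7⟩ := Nodal_piece hV h hne (hmono i hi) (by linarith [h1.1]) h3.2 h2 h4 hW
        (fun t ht => hlt t ⟨h1.1.trans ht.1, ht.2.trans_le h3.2⟩)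
      exact ⟨_, ψ, h5, fun x hx => indicator_of_notMem hx _, h6, h7⟩
  choose f g k1 k2 k3 k4 using hpieces
  refine Nodal_count hW (fun i : Fin m => Ioo (w i) (w (i + 1))) ?_ f g k1 k2 k3 k4
  have hlt' : ∀ i j : Fin m, i < j → Disjoint (Ioo (w i) (w (i + 1))) (Ioo (w j) (w (j + 1))) := by
    intro i j hij
    rw [disjoint_left]
    rintro x ⟨_, h2⟩ ⟨h3, _⟩
    have := hwle (i + 1) j (by have : (i : ℕ) < j := hij; omega) j.2.le
    linarith
  intro i j hij
  rcases lt_or_gt_of_ne hij with h1 | h1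
  · exact hlt' i j h1
  · exact (hlt' j i h1).symm

end Pool.Agent.RLT40
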