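import Pool.Agent.RLT40.OneD

/-!
# Module SPACE: the space `H¹₀(a,b)` and the counting function `nneg`.

`deriv f = g` a.e. for `f x = ∫_a^x g` (Lebesgue differentiation; see `IntervalIntegrable...ae_hasDerivAt` /
`AbsolutelyContinuousOnInterval` in Mathlib).
-/

open MeasureTheory Set
open scoped ENNReal NNReal

namespace Pool.Agent.RLT40

/-! ### auxiliary lemmas -/

theorem SpaceA_ii {g : ℝ → ℝ} (hg : MemLp g 2 volume) (x y : ℝ) : IntervalIntegrable g volume x y :=
  ((hg.locallyIntegrable (by norm_num)).integrableOn_isCompact isCompact_uIcc).intervalIntegrable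

theorem SpaceA_data {a b : ℝ} {f : ℝ → ℝ} (hf : f ∈ H10 a b) :
    ∃ g : ℝ → ℝ, MemLp g 2 volume ∧ (∀ x, x ∉ Ioo a b → g x = 0) ∧ (∀ x, f x = ∫ t in a..x, g t) ∧
      ∀ᵐ x, HasDerivAt f (g x) x := by
  obtain ⟨_, g, hg, hg0, hfg⟩ := hf
  refine ⟨g, hg, hg0, hfg, ?_⟩
  have h := LocallyIntegrable.ae_hasDerivAt_integral (hg.locallyIntegrable (by norm_num))
  filter_upwards [h] with x hx
  have e : f = fun x => ∫ t in a..x, g t := funext hfg
  rw [e]
  exact hx a

theorem SpaceA_deriv_ae {a b : ℝ} {f : ℝ → ℝ} (hf : f ∈ H10 a b) :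
    ∃ g : ℝ → ℝ, MemLp g 2 volume ∧ (∀ x, f x = ∫ t in a..x, g t) ∧ deriv f =ᵐ[volume] g := by
  obtain ⟨g, hg, _, hfg, h⟩ := SpaceA_data hf
  exact ⟨g, hg, hfg, h.mono fun x hx => hx.deriv⟩

theorem SpaceA_ac {a b : ℝ} {f : ℝ → ℝ} (hf : f ∈ H10 a b) (x y : ℝ) : AbsolutelyContinuousOnInterval f x y := by
  obtain ⟨g, hg, _, hfg, _⟩ := SpaceA_data hf
  have e : f = fun x => ∫ t in a..x, g t := funext hfg
  rw [e]
  have h := (SpaceA_ii hg (min a (min x y)) (max a (max x y))).absolutelyContinuousOnInterval_intervalIntegral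
    (c := a) (by
      rw [uIcc_of_le (le_trans (min_le_left _ _) (le_max_left _ _))]
      exact ⟨min_le_left _ _, le_max_left _ _⟩)
  refine h.mono ?_
  rw [uIcc_of_le (a := min a (min x y)) (b := max a (max x y)) (le_trans (min_le_left _ _) (le_max_left _ _))]
  intro z hz
  exact ⟨le_trans (min_le_right _ _) hz.1, le_trans hz.2 (le_max_right _ _)⟩

theorem SpaceA_ae_ne (c : ℝ) : ∀ᵐ x : ℝ, x ≠ c := by
  simp [ae_iff, measure_singleton]

/-! ### the API -/

theorem H10_zero {a b : ℝ} {f : ℝ → ℝ} (hf : f ∈ H10 a b) {x : ℝ} (hx : x ∉ Ioo a b) : f x = 0 := hf.1 x hx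

theorem H10_continuous {a b : ℝ} {f : ℝ → ℝ} (hf : f ∈ H10 a b) : Continuous f := by
  obtain ⟨g, hg, _, hfg, _⟩ := SpaceA_data hf
  have e : f = fun x => ∫ t in a..x, g t := funext hfg
  rw [e]
  exact intervalIntegral.continuous_primitive (fun x y => SpaceA_ii hg x y) a

theorem H10_deriv_memLp {a b : ℝ} {f : ℝ → ℝ} (hf : f ∈ H10 a b) : MemLp (deriv f) 2 volume := by
  obtain ⟨g, hg, _, h⟩ := SpaceA_deriv_ae hf
  exact hg.ae_eq h.symm

theorem H10_deriv_zero {a b : ℝ} {f : ℝ → ℝ} (hf : f ∈ H10 a b) {x : ℝ} (hx : x ∉ Icc a b) : deriv f x = 0 := by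
  have h : f =ᶠ[nhds x] fun _ => 0 := by
    filter_upwards [isClosed_Icc.isOpen_compl.mem_nhds hx] with y hy
    exact hf.1 y fun h => hy (Ioo_subset_Icc_self h)
  rw [h.deriv_eq, deriv_const]

theorem H10_integral {a b : ℝ} {f : ℝ → ℝ} (hf : f ∈ H10 a b) (x y : ℝ) : ∫ t in x..y, deriv f t = f y - f x :=
  (SpaceA_ac hf x y).integral_deriv_eq_sub

theorem H10_ae_deriv {a b : ℝ} {f : ℝ → ℝ} (hf : f ∈ H10 a b) : ∀ᵐ x, HasDerivAt f (deriv f x) x := by
  obtain ⟨g, _, _, _, h⟩ := SpaceA_data hf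
  filter_upwards [h] with x hx
  rw [hx.deriv]
  exact hx

/-- membership via an explicit `g` -/
theorem H10_of_integral {a b : ℝ} {f g : ℝ → ℝ} (h0 : ∀ x, x ∉ Ioo a b → f x = 0) (hg : MemLp g 2 (volume.restrict (Ioo a b)))
    (hfg : ∀ x ∈ Icc a b, f x = ∫ t in a..x, g t) : f ∈ H10 a b ∧ ∀ᵐ x, x ∈ Ioo a b → deriv f x = g x := by
  rcases le_or_gt b a with hab | hab
  · have e : Ioo a b = ∅ := Ioo_eq_empty (not_lt.2 hab)
    have e2 : f = 0 := funext fun x => h0 x (by rw [e]; exact Set.notMem_empty x)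
    refine ⟨e2 ▸ (H10 a b).zero_mem, ?_⟩
    rw [e]
    exact Filter.Eventually.of_forall fun x hx => absurd hx (Set.notMem_empty x)
  set g' : ℝ → ℝ := (Ioo a b).indicator g with hg'
  have m : MemLp g' 2 volume := (memLp_indicator_iff_restrict measurableSet_Ioo).2 hg
  have z : ∀ x, x ∉ Ioo a b → g' x = 0 := fun x hx => Set.indicator_of_notMem hx g
  have key : ∀ x, f x = ∫ t in a..x, g' t := by
    have k1 : ∀ x ∈ Icc a b, f x = ∫ t in a..x, g' t := by
      intro x hx
      rw [hfg x hx]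
      refine intervalIntegral.integral_congr_ae ?_
      filter_upwards [SpaceA_ae_ne b] with t ht htt
      rw [uIoc_of_le hx.1] at htt
      have : t ∈ Ioo a b := ⟨htt.1, lt_of_le_of_ne (htt.2.trans hx.2) ht⟩
      rw [hg', Set.indicator_of_mem this]
    intro x
    rcases lt_or_ge x a with hx | hx
    · rw [h0 x (fun h => by have := h.1; linarith)]
      symm
      refine intervalIntegral.integral_zero_ae (Filter.Eventually.of_forall fun t ht => z t fun h => ?_)
      rw [uIoc_of_ge hx.le] at ht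
      have := h.1; have := ht.2; linarith
    rcases le_or_gt x b with hx' | hx'
    · exact k1 x ⟨hx, hx'⟩
    rw [← intervalIntegral.integral_add_adjacent_intervals (SpaceA_ii m a b) (SpaceA_ii m b x), ← k1 b ⟨hab.le, le_refl b⟩,
      h0 b (fun h => lt_irrefl b h.2), h0 x (fun h => by have := h.2; linarith), zero_add]
    symm
    refine intervalIntegral.integral_zero_ae (Filter.Eventually.of_forall fun t ht => z t fun h => ?_)
    rw [uIoc_of_le hx'.le] at ht
    have := h.2; have := ht.1; linarith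
  refine ⟨⟨h0, g', m, z, key⟩, ?_⟩
  have h := LocallyIntegrable.ae_hasDerivAt_integral (m.locallyIntegrable (by norm_num))
  filter_upwards [h] with x hx hxx
  have e : f = fun x => ∫ t in a..x, g' t := funext key
  rw [e, (hx a).deriv, hg', Set.indicator_of_mem hxx]

theorem SpaceA_of_ac {a b : ℝ} {f : ℝ → ℝ} (h0 : ∀ x, x ∉ Ioo a b → f x = 0) (hf : AbsolutelyContinuousOnInterval f a b)
    (hm : MemLp (deriv f) 2 (volume.restrict (Ioo a b))) : f ∈ H10 a b := by
  refine (H10_of_integral h0 hm ?_).1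
  intro x hx
  have h1 := (hf.mono (c := a) (d := x) (by
    rw [uIcc_of_le hx.1, uIcc_of_le (hx.1.trans hx.2)]
    exact Icc_subset_Icc_right hx.2)).integral_deriv_eq_sub
  rw [h1, h0 a (fun h => lt_irrefl a h.1), sub_zero]

/-- Lipschitz functions vanishing outside `(a,b)` are members. -/
theorem H10_of_lipschitz {a b : ℝ} {f : ℝ → ℝ} {K : ℝ≥0} (hf : LipschitzWith K f) (h0 : ∀ x, x ∉ Ioo a b → f x = 0) :
    f ∈ H10 a b := by
  refine SpaceA_of_ac h0 hf.lipschitzOnWith.absolutelyContinuousOnInterval ?_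
  refine MemLp.of_bound (measurable_deriv f).aestronglyMeasurable (K : ℝ) (Filter.Eventually.of_forall fun x => ?_)
  exact norm_deriv_le_of_lipschitz hf

/-- a `C¹` function cut to an interval at the ends of which it vanishes -/
theorem H10_of_C1 {a b : ℝ} (hab : a ≤ b) {f g : ℝ → ℝ} (hf : ∀ x ∈ Icc a b, HasDerivAt f (g x) x) (hg : ContinuousOn g (Icc a b))
    (ha : f a = 0) (hb : f b = 0) :
    (Ioo a b).indicator f ∈ H10 a b ∧ ∀ᵐ x, deriv ((Ioo a b).indicator f) x = (Ioo a b).indicator g x := by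
  have h0 : ∀ x, x ∉ Ioo a b → (Ioo a b).indicator f x = 0 := fun x hx => Set.indicator_of_notMem hx f
  obtain ⟨C, hC⟩ := isCompact_Icc.exists_bound_of_continuousOn hg
  have hm : MemLp g 2 (volume.restrict (Ioo a b)) := by
    refine MemLp.of_bound ((hg.mono Ioo_subset_Icc_self).aestronglyMeasurable measurableSet_Ioo) C ?_
    exact (ae_restrict_mem measurableSet_Ioo).mono fun x hx => hC x (Ioo_subset_Icc_self hx)
  have key : ∀ x ∈ Icc a b, (Ioo a b).indicator f x = ∫ t in a..x, g t := by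
    intro x hx
    have h1 : ∫ t in a..x, g t = f x - f a := by
      refine intervalIntegral.integral_eq_sub_of_hasDerivAt (fun t ht => ?_) ?_
      · rw [uIcc_of_le hx.1] at ht
        exact hf t ⟨ht.1, ht.2.trans hx.2⟩
      · refine ContinuousOn.intervalIntegrable (hg.mono ?_)
        rw [uIcc_of_le hx.1]
        exact Icc_subset_Icc_right hx.2
    rw [h1, ha, sub_zero]
    by_cases h : x ∈ Ioo a b
    · rw [Set.indicator_of_mem h]
    · rw [Set.indicator_of_notMem h]
      rcases eq_or_lt_of_le hx.1 with h2 | h2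
      · rw [← h2, ha]
      rcases eq_or_lt_of_le hx.2 with h3 | h3
      · rw [h3, hb]
      exact absurd ⟨h2, h3⟩ h
  obtain ⟨h1, h2⟩ := H10_of_integral h0 hm key
  refine ⟨h1, ?_⟩
  filter_upwards [h2, SpaceA_ae_ne a, SpaceA_ae_ne b] with x hx hxa hxb
  by_cases h : x ∈ Ioo a b
  · rw [hx h, Set.indicator_of_mem h]
  · rw [Set.indicator_of_notMem h]
    refine H10_deriv_zero h1 fun h3 => h ⟨lt_of_le_of_ne h3.1 hxa.symm, lt_of_le_of_ne h3.2 hxb⟩

theorem H10_mono {a b a' b' : ℝ} (ha : a' ≤ a) (hb : b ≤ b') : H10 a b ≤ H10 a' b' := by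
  intro f hf
  obtain ⟨g, hg, hg0, hfg, _⟩ := SpaceA_data hf
  have sub : ∀ x, x ∉ Ioo a' b' → x ∉ Ioo a b := fun x hx h => hx ⟨lt_of_le_of_lt ha h.1, lt_of_lt_of_le h.2 hb⟩
  refine ⟨fun x hx => hf.1 x (sub x hx), g, hg, fun x hx => hg0 x (sub x hx), fun x => ?_⟩
  rw [hfg x, ← intervalIntegral.integral_add_adjacent_intervals (SpaceA_ii hg a' a) (SpaceA_ii hg a x)]
  have : ∫ t in a'..a, g t = 0 := by
    refine intervalIntegral.integral_zero_ae (Filter.Eventually.of_forall fun t ht => hg0 t fun h => ?_)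
    rw [uIoc_of_le ha] at ht
    have := h.1; have := ht.2; linarith
  rw [this, zero_add]

/-- multiplication by a `C¹` function -/
theorem H10_mul {a b : ℝ} {f χ χ' : ℝ → ℝ} (hf : f ∈ H10 a b) (hχ : ∀ x, HasDerivAt χ (χ' x) x) (hχ' : Continuous χ') :
    (fun x => χ x * f x) ∈ H10 a b ∧
      ∀ᵐ x, deriv (fun x => χ x * f x) x = χ' x * f x + χ x * deriv f x := by
  have hd : ∀ᵐ x, deriv (fun x => χ x * f x) x = χ' x * f x + χ x * deriv f x := by
    filter_upwards [H10_ae_deriv hf] with x hx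
    exact ((hχ x).mul hx).deriv
  refine ⟨?_, hd⟩
  have hχc : ContDiff ℝ 1 χ := by
    rw [contDiff_one_iff_deriv]
    refine ⟨fun x => (hχ x).differentiableAt, ?_⟩
    have : deriv χ = χ' := funext fun x => (hχ x).deriv
    rw [this]; exact hχ'
  refine SpaceA_of_ac (fun x hx => by simp [hf.1 x hx]) ?_ ?_
  · exact (hχc.contDiffOn.absolutelyContinuousOnInterval).fun_mul (SpaceA_ac hf a b)
  · have e : deriv (fun x => χ x * f x) =ᵐ[volume.restrict (Ioo a b)] fun x => χ' x * f x + χ x * deriv f x :=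
      ae_restrict_of_ae hd
    refine MemLp.ae_eq e.symm ?_
    refine MemLp.add ?_ ?_
    · obtain ⟨C, hC⟩ := isCompact_Icc.exists_bound_of_continuousOn (s := Icc a b)
        ((hχ'.mul (H10_continuous hf)).continuousOn)
      refine MemLp.of_bound (hχ'.mul (H10_continuous hf)).aestronglyMeasurable C ?_
      exact (ae_restrict_mem measurableSet_Ioo).mono fun x hx => hC x (Ioo_subset_Icc_self hx)
    · obtain ⟨C, hC⟩ := isCompact_Icc.exists_bound_of_continuousOn (s := Icc a b) hχc.continuous.continuousOn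
      refine MemLp.of_le_mul (c := C) (g := deriv f) ((H10_deriv_memLp hf).restrict _)
        (hχc.continuous.aestronglyMeasurable.mul (measurable_deriv f).aestronglyMeasurable) ?_
      refine (ae_restrict_mem measurableSet_Ioo).mono fun x hx => ?_
      rw [norm_mul]
      exact mul_le_mul_of_nonneg_right (hC x (Ioo_subset_Icc_self hx)) (norm_nonneg _)

/-- shrink the interval when the function vanishes there -/
theorem H10_shrink {a b a' b' : ℝ} {f : ℝ → ℝ} (hf : f ∈ H10 a b) (h0 : ∀ x, x ∉ Ioo a' b' → f x = 0) : f ∈ H10 a' b' :=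
  SpaceA_of_ac h0 (SpaceA_ac hf a' b') ((H10_deriv_memLp hf).restrict _)

/-- a member vanishing at interior points splits -/
theorem H10_indicator {a b c d : ℝ} {f : ℝ → ℝ} (hf : f ∈ H10 a b) (hc : f c = 0) (hd : f d = 0) (hcd : c ≤ d) :
    (Ioo c d).indicator f ∈ H10 c d ∧ ∀ᵐ x, deriv ((Ioo c d).indicator f) x = (Ioo c d).indicator (deriv f) x := by
  have h0 : ∀ x, x ∉ Ioo c d → (Ioo c d).indicator f x = 0 := fun x hx => Set.indicator_of_notMem hx f
  have key : ∀ x ∈ Icc c d, (Ioo c d).indicator f x = ∫ t in c..x, deriv f t := by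
    intro x hx
    rw [H10_integral hf, hc, sub_zero]
    by_cases h : x ∈ Ioo c d
    · rw [Set.indicator_of_mem h]
    · rw [Set.indicator_of_notMem h]
      rcases eq_or_lt_of_le hx.1 with h2 | h2
      · rw [← h2, hc]
      rcases eq_or_lt_of_le hx.2 with h3 | h3
      · rw [h3, hd]
      exact absurd ⟨h2, h3⟩ h
  obtain ⟨h1, h2⟩ := H10_of_integral h0 ((H10_deriv_memLp hf).restrict _) key
  refine ⟨h1, ?_⟩
  filter_upwards [h2, SpaceA_ae_ne c, SpaceA_ae_ne d] with x hx hxa hxb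
  by_cases h : x ∈ Ioo c d
  · rw [hx h, Set.indicator_of_mem h]
  · rw [Set.indicator_of_notMem h]
    refine H10_deriv_zero h1 fun h3 => h ⟨lt_of_le_of_ne h3.1 hxa.symm, lt_of_le_of_ne h3.2 hxb⟩

end Pool.Agent.RLT40
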