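import Pool.Agent.RLT40.OdeA
import Pool.Agent.RLT40.SpaceA

/-!
# Module REG (paper 3.3): weak solutions with continuous potential are classical.

`f ∈ H10`, `∫ f'g' + W f g = 0` for all `g ∈ H10`: then `f' - ∫_a^x W f` is a.e. constant on `(a,b)` (du Bois-Reymond), so `f` is `C²` on `[a,b]`; extend by
`exists_sol` with the data `(0, f'(a+))` at `a` (uniqueness on `[a,b]`).
-/

open MeasureTheory Set
open scoped ENNReal NNReal

namespace Pool.Agent.RLT40

/-- uniqueness on `[a,b]` -/
theorem Reg_unique {W F G φ ψ : ℝ → ℝ} (hW : Continuous W) {a b : ℝ} (dF : ∀ x ∈ Icc a b, HasDerivAt F (G x) x)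
    (dG : ∀ x ∈ Icc a b, HasDerivAt G (W x * F x) x) (h : Sol W φ ψ) (h0 : F a = φ a) (h1 : G a = ψ a) :
    ∀ x ∈ Icc a b, F x = φ x := by
  obtain ⟨M, hM⟩ := (isCompact_Icc (a := a) (b := b)).exists_bound_of_continuousOn hW.continuousOn
  intro x hx
  have hM0 : 0 ≤ M := le_trans (norm_nonneg _) (hM x hx)
  have hlip : ∀ t ∈ Ico a b, LipschitzOnWith (max 1 M.toNNReal)
      ((fun t (p : ℝ × ℝ) => ((p.2, W t * p.1) : ℝ × ℝ)) t) univ := by
    intro t ht
    refine LipschitzOnWith.of_dist_le_mul fun p _ q _ => ?_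
    have hVt : |W t| ≤ M := hM t ⟨ht.1, ht.2.le⟩
    have hmx : ((max 1 M.toNNReal : ℝ≥0) : ℝ) = max 1 M := by
      push_cast; rw [Real.coe_toNNReal M hM0]
    rw [hmx, Prod.dist_eq, Prod.dist_eq]
    have a1 : dist p.1 q.1 ≤ max (dist p.1 q.1) (dist p.2 q.2) := le_max_left _ _
    have a2 : dist p.2 q.2 ≤ max (dist p.1 q.1) (dist p.2 q.2) := le_max_right _ _
    have a3 : 0 ≤ max (dist p.1 q.1) (dist p.2 q.2) := le_trans dist_nonneg a1
    refine max_le ?_ ?_
    · calc dist p.2 q.2 ≤ 1 * max (dist p.1 q.1) (dist p.2 q.2) := by rw [one_mul]; exact a2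
        _ ≤ max 1 M * max (dist p.1 q.1) (dist p.2 q.2) := by
          gcongr; exact le_max_left _ _
    · show dist (W t * p.1) (W t * q.1) ≤ _
      rw [Real.dist_eq, ← mul_sub, abs_mul, ← Real.dist_eq]
      exact mul_le_mul (hVt.trans (le_max_right _ _)) a1 dist_nonneg (by positivity)
  have cF : ContinuousOn F (Icc a b) := fun t ht => (dF t ht).continuousAt.continuousWithinAt
  have cG : ContinuousOn G (Icc a b) := fun t ht => (dG t ht).continuousAt.continuousWithinAt
  have := ODE_solution_unique_of_mem_Icc_right (v := fun t (p : ℝ × ℝ) => ((p.2, W t * p.1) : ℝ × ℝ))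
    (s := fun _ => univ) (f := fun t => (F t, G t)) (g := fun t => (φ t, ψ t)) hlip
    (cF.prodMk cG) (fun t ht => ((dF t ⟨ht.1, ht.2.le⟩).prodMk (dG t ⟨ht.1, ht.2.le⟩)).hasDerivWithinAt)
    (fun t _ => mem_univ _) ((h.continuous_left.prodMk h.continuous_right).continuousOn)
    (fun t _ => ((h.d1 t).prodMk (h.d2 t)).hasDerivWithinAt) (fun t _ => mem_univ _) (by simp [h0, h1]) hx
  exact congrArg Prod.fst this

/-- du Bois-Reymond -/
theorem Reg_dbr {a b : ℝ} (hab : a < b) {W f : ℝ → ℝ} (hW : Continuous W) (hf : f ∈ H10 a b)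
    (hweak : ∀ g ∈ H10 a b, (∫ x, (deriv f x * deriv g x + W x * (f x * g x))) = 0) :
    ∃ c : ℝ, ∀ᵐ x, x ∈ Ioo a b → deriv f x = (∫ t in a..x, W t * f t) + c := by
  have cf := H10_continuous hf
  have cWf : Continuous fun t => W t * f t := hW.mul cf
  set P : ℝ → ℝ := fun x => ∫ t in a..x, W t * f t with hP
  have dP : ∀ x, HasDerivAt P (W x * f x) x := fun x => (cWf.integral_hasStrictDerivAt a x).hasDerivAt
  have cP : Continuous P := continuous_iff_continuousAt.2 fun x => (dP x).continuousAt
  have hfin : IsFiniteMeasure (volume.restrict (Ioo a b)) := ⟨by simp⟩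
  have mP : MemLp P 2 (volume.restrict (Ioo a b)) := by
    obtain ⟨C, hC⟩ := isCompact_Icc.exists_bound_of_continuousOn (s := Icc a b) cP.continuousOn
    refine MemLp.of_bound cP.aestronglyMeasurable C ?_
    exact (ae_restrict_mem measurableSet_Ioo).mono fun x hx => hC x (Ioo_subset_Icc_self hx)
  have mf : MemLp (deriv f) 2 (volume.restrict (Ioo a b)) := (H10_deriv_memLp hf).restrict _
  -- the weak equation integrated by parts
  have hw2 : ∀ g ∈ H10 a b, ∫ x in Ioo a b, (deriv f x - P x) * deriv g x = 0 := by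
    intro g hg
    have mg : MemLp (deriv g) 2 (volume.restrict (Ioo a b)) := (H10_deriv_memLp hg).restrict _
    have cg := H10_continuous hg
    obtain ⟨h1, h2⟩ := H10_mul hg dP cWf
    have h3 := H10_integral h1 a b
    rw [H10_zero hg (x := b) (fun h => lt_irrefl b h.2), H10_zero hg (x := a) (fun h => lt_irrefl a h.1)] at h3
    rw [mul_zero, mul_zero, sub_zero, intervalIntegral.integral_of_le hab.le, integral_Ioc_eq_integral_Ioo] at h3
    have h4 : ∫ x in Ioo a b, (W x * f x * g x + P x * deriv g x) = 0 := by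
      rw [← h3]
      refine integral_congr_ae ?_
      filter_upwards [ae_restrict_of_ae h2] with x hx
      rw [hx]
    have h5 := hweak g hg
    have h6 : ∫ x in Ioo a b, (deriv f x * deriv g x + W x * (f x * g x)) = 0 := by
      rw [← h5]
      rw [← integral_Icc_eq_integral_Ioo]
      refine setIntegral_eq_integral_of_forall_compl_eq_zero fun x hx => ?_
      rw [H10_deriv_zero hf hx, H10_zero hf (fun h => hx (Ioo_subset_Icc_self h))]
      ring
    have i1 : Integrable (fun x => deriv f x * deriv g x) (volume.restrict (Ioo a b)) := mf.integrable_mul mg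
    have i2 : Integrable (fun x => P x * deriv g x) (volume.restrict (Ioo a b)) := mP.integrable_mul mg
    have i3 : Integrable (fun x => W x * (f x * g x)) (volume.restrict (Ioo a b)) :=
      ((by fun_prop : Continuous fun x => W x * (f x * g x)).integrableOn_Icc (a := a) (b := b)).mono_set
        Ioo_subset_Icc_self
    have i4 : Integrable (fun x => W x * f x * g x) (volume.restrict (Ioo a b)) :=
      ((by fun_prop : Continuous fun x => W x * f x * g x).integrableOn_Icc (a := a) (b := b)).mono_set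
        Ioo_subset_Icc_self
    rw [integral_add i1 i3] at h6
    rw [integral_add i4 i2] at h4
    have e1 : (fun x => (deriv f x - P x) * deriv g x) = fun x => deriv f x * deriv g x - P x * deriv g x := by
      funext x; ring
    have e2 : ∫ x in Ioo a b, W x * (f x * g x) = ∫ x in Ioo a b, W x * f x * g x := by
      congr 1; funext x; ring
    rw [e1, integral_sub i1 i2]
    linarith
  -- the test function
  set c : ℝ := (∫ x in Ioo a b, (deriv f x - P x)) / (b - a) with hc
  refine ⟨c, ?_⟩
  set h : ℝ → ℝ := fun x => deriv f x - P x - c with hh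
  have mh : MemLp h 2 (volume.restrict (Ioo a b)) := (mf.sub mP).sub (memLp_const c)
  have ih : Integrable h (volume.restrict (Ioo a b)) := mh.integrable (by norm_num)
  have hint : ∫ x in Ioo a b, h x = 0 := by
    have i5 : Integrable (fun x => deriv f x - P x) (volume.restrict (Ioo a b)) :=
      (mf.sub mP).integrable (by norm_num)
    rw [hh, integral_sub i5 (integrable_const c), setIntegral_const, smul_eq_mul, Real.volume_real_Ioo_of_le hab.le, hc]
    have : b - a ≠ 0 := by linarith
    field_simp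
    ring
  obtain ⟨hgm, hgd⟩ := H10_of_integral (a := a) (b := b) (f := (Ioo a b).indicator fun x => ∫ t in a..x, h t) (g := h)
    (fun x hx => Set.indicator_of_notMem hx _) mh (by
      intro x hx
      by_cases hxx : x ∈ Ioo a b
      · rw [Set.indicator_of_mem hxx]
      · rw [Set.indicator_of_notMem hxx]
        rcases eq_or_lt_of_le hx.1 with h2 | h2
        · rw [← h2, intervalIntegral.integral_same]
        rcases eq_or_lt_of_le hx.2 with h3 | h3
        · rw [h3, intervalIntegral.integral_of_le hab.le, integral_Ioc_eq_integral_Ioo, hint]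
        exact absurd ⟨h2, h3⟩ hxx)
  have h7 := hw2 _ hgm
  have h8 : ∫ x in Ioo a b, (deriv f x - P x) * h x = 0 := by
    rw [← h7]
    refine integral_congr_ae ?_
    filter_upwards [ae_restrict_of_ae hgd, ae_restrict_mem measurableSet_Ioo] with x hx hxx
    rw [hx hxx]
  have h9 : ∫ x in Ioo a b, h x ^ 2 = 0 := by
    have i6 : Integrable (fun x => (deriv f x - P x) * h x) (volume.restrict (Ioo a b)) :=
      (mf.sub mP).integrable_mul mh
    have e3 : (fun x => h x ^ 2) = fun x => (deriv f x - P x) * h x - c * h x := by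
      funext x; simp only [hh]; ring
    rw [e3, integral_sub i6 (ih.const_mul c), h8, integral_const_mul, hint]
    ring
  have h10 : (fun x => h x ^ 2) =ᵐ[volume.restrict (Ioo a b)] 0 := by
    refine (integral_eq_zero_iff_of_nonneg (fun x => sq_nonneg _) ?_).1 h9
    have h13 : Integrable (fun x => h x * h x) (volume.restrict (Ioo a b)) := mh.integrable_mul mh
    simpa only [sq] using h13
  rw [Filter.EventuallyEq, ae_restrict_iff' measurableSet_Ioo] at h10
  filter_upwards [h10] with x hx hxx
  have h11 : h x ^ 2 = 0 := hx hxx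
  have h12 : h x = 0 := by simpa using h11
  simp only [hh] at h12
  linarith

theorem weak_classical {a b : ℝ} (hab : a < b) {W f : ℝ → ℝ} (hW : Continuous W) (hf : f ∈ H10 a b) (hne : f ≠ 0)
    (hweak : ∀ g ∈ H10 a b, (∫ x, (deriv f x * deriv g x + W x * (f x * g x))) = 0) :
    ∃ φ ψ : ℝ → ℝ, Sol W φ ψ ∧ φ a = 0 ∧ φ b = 0 ∧ ψ a ≠ 0 ∧ ∀ x ∈ Icc a b, f x = φ x := by
  obtain ⟨c, hc⟩ := Reg_dbr hab hW hf hweak
  have cf := H10_continuous hf
  have cWf : Continuous fun t => W t * f t := hW.mul cf
  set P : ℝ → ℝ := fun x => ∫ t in a..x, W t * f t with hP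
  have dP : ∀ x, HasDerivAt P (W x * f x) x := fun x => (cWf.integral_hasStrictDerivAt a x).hasDerivAt
  have cP : Continuous P := continuous_iff_continuousAt.2 fun x => (dP x).continuousAt
  have cPc : Continuous fun x => P x + c := cP.add continuous_const
  set F : ℝ → ℝ := fun x => ∫ t in a..x, (P t + c) with hF
  have dF : ∀ x, HasDerivAt F (P x + c) x := fun x => (cPc.integral_hasStrictDerivAt a x).hasDerivAt
  have hfa : f a = 0 := H10_zero hf fun h => lt_irrefl a h.1
  have hfb : f b = 0 := H10_zero hf fun h => lt_irrefl b h.2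
  have hfF : ∀ x ∈ Icc a b, f x = F x := by
    intro x hx
    have h1 := H10_integral hf a x
    rw [hfa, sub_zero] at h1
    rw [← h1, hF]
    refine intervalIntegral.integral_congr_ae ?_
    filter_upwards [hc, SpaceA_ae_ne b] with t ht htb htt
    rw [uIoc_of_le hx.1] at htt
    exact ht ⟨htt.1, lt_of_le_of_ne (htt.2.trans hx.2) htb⟩
  obtain ⟨φ, ψ, hs, hφ, hψ⟩ := exists_sol hW a 0 c
  have hFφ : ∀ x ∈ Icc a b, F x = φ x := by
    refine Reg_unique hW (G := fun x => P x + c) (fun x _ => dF x) (fun x hx => ?_) hs ?_ ?_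
    · rw [← hfF x hx]
      exact (dP x).add_const c
    · rw [hφ, hF]
      simp
    · rw [hψ, hP]
      simp
  have hall : ∀ x ∈ Icc a b, f x = φ x := fun x hx => (hfF x hx).trans (hFφ x hx)
  refine ⟨φ, ψ, hs, hφ, ?_, ?_, hall⟩
  · rw [← hall b (right_mem_Icc.2 hab.le), hfb]
  · intro h0
    apply hne
    have hz : Sol W (fun _ => 0) (fun _ => 0) :=
      ⟨fun x => hasDerivAt_const x 0, fun x => by simpa using hasDerivAt_const x (0 : ℝ)⟩
    have hφ0 : φ = fun _ => 0 := (Sol.unique hW hs hz (x0 := a) hφ h0).1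
    funext x
    by_cases hx : x ∈ Icc a b
    · rw [hall x hx, hφ0]; rfl
    · exact H10_zero hf fun h => hx (Ioo_subset_Icc_self h)

end Pool.Agent.RLT40
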