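import Pool.Agent.RLT40.SpaceB

/-!
# Module SPEC: the bilinear forms on `H¹₀(a,b)`
-/

open MeasureTheory Set
open scoped ENNReal NNReal

namespace Pool.Agent.RLT40.SpB

variable {a b : ℝ}

lemma ae_deriv_add {f g : ℝ → ℝ} (hf : f ∈ H10 a b) (hg : g ∈ H10 a b) :
    ∀ᵐ x, deriv (f + g) x = deriv f x + deriv g x := by
  filter_upwards [H10_ae_deriv hf, H10_ae_deriv hg] with x h1 h2
  exact (h1.add h2).deriv

lemma deriv_smul' (c : ℝ) (f : ℝ → ℝ) (x : ℝ) : deriv (c • f) x = c * deriv f x := by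
  have h : (c • f) = fun y => c * f y := by funext y; simp
  rw [h, deriv_const_mul_field]

lemma int_dd {f g : ℝ → ℝ} (hf : f ∈ H10 a b) (hg : g ∈ H10 a b) :
    Integrable (fun x => deriv f x * deriv g x) :=
  (H10_deriv_memLp hf).integrable_mul (H10_deriv_memLp hg)

lemma int_Vfg {V f g : ℝ → ℝ} (hV : IntegrableOn V (Ioo a b)) (hf : f ∈ H10 a b) (hg : g ∈ H10 a b) :
    Integrable (fun x => V x * (f x * g x)) := by
  have h1 := (q_integrable hV (Submodule.add_mem _ hf hg)).1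
  have h2 := (q_integrable hV hf).1
  have h3 := (q_integrable hV hg).1
  have h4 := ((h1.sub h2).sub h3).const_mul (1 / 2)
  refine h4.congr (ae_of_all _ fun x => ?_)
  simp only [Pi.sub_apply, Pi.add_apply]
  ring

lemma int_B {V f g : ℝ → ℝ} (hV : IntegrableOn V (Ioo a b)) (hf : f ∈ H10 a b) (hg : g ∈ H10 a b) :
    Integrable (fun x => deriv f x * deriv g x + V x * (f x * g x)) :=
  (int_dd hf hg).add (int_Vfg hV hf hg)

/-- the bilinear form -/
noncomputable def Bf (V f g : ℝ → ℝ) : ℝ := ∫ x, (deriv f x * deriv g x + V x * (f x * g x))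

/-- the weighted scalar product -/
noncomputable def Wf (f g : ℝ → ℝ) : ℝ := ∫ x, om x * (f x * g x)

lemma Bf_comm (V f g : ℝ → ℝ) : Bf V f g = Bf V g f := by
  unfold Bf
  congr 1
  funext x
  ring

lemma Wf_comm (f g : ℝ → ℝ) : Wf f g = Wf g f := by
  unfold Wf
  congr 1
  funext x
  ring

lemma q_eq_Bf (V f : ℝ → ℝ) : q V f = Bf V f f := by
  unfold q Bf
  congr 1
  funext x
  ring

lemma om_cont : Continuous om := by unfold om; fun_prop

lemma om_pos (x : ℝ) : 0 < om x := Real.exp_pos _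

lemma om_int : IntegrableOn om (Ioo a b) :=
  (om_cont.integrableOn_Icc (a := a) (b := b)).mono_set Ioo_subset_Icc_self

lemma Bf_add {V f f' g : ℝ → ℝ} (hV : IntegrableOn V (Ioo a b)) (hf : f ∈ H10 a b)
    (hf' : f' ∈ H10 a b) (hg : g ∈ H10 a b) : Bf V (f + f') g = Bf V f g + Bf V f' g := by
  unfold Bf
  rw [← integral_add (int_B hV hf hg) (int_B hV hf' hg)]
  apply integral_congr_ae
  filter_upwards [ae_deriv_add hf hf'] with x hx
  rw [hx, Pi.add_apply]
  ring

lemma Bf_smul (V f g : ℝ → ℝ) (c : ℝ) : Bf V (c • f) g = c * Bf V f g := by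
  unfold Bf
  rw [← integral_const_mul]
  congr 1
  funext x
  rw [deriv_smul', Pi.smul_apply, smul_eq_mul]
  ring

lemma Wf_add {f f' g : ℝ → ℝ} (hf : f ∈ H10 a b) (hf' : f' ∈ H10 a b) (hg : g ∈ H10 a b) :
    Wf (f + f') g = Wf f g + Wf f' g := by
  unfold Wf
  rw [← integral_add (int_Vfg om_int hf hg) (int_Vfg om_int hf' hg)]
  congr 1
  funext x
  rw [Pi.add_apply]
  ring

lemma Wf_smul (f g : ℝ → ℝ) (c : ℝ) : Wf (c • f) g = c * Wf f g := by
  unfold Wf
  rw [← integral_const_mul]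
  congr 1
  funext x
  rw [Pi.smul_apply, smul_eq_mul]
  ring

/-- the form as a bilinear map on `H¹₀(a,b)` -/
noncomputable def BL {V : ℝ → ℝ} (hV : IntegrableOn V (Ioo a b)) :
    H10 a b →ₗ[ℝ] H10 a b →ₗ[ℝ] ℝ :=
  LinearMap.mk₂ ℝ (fun f g => Bf V f g)
    (fun f f' g => Bf_add hV f.2 f'.2 g.2)
    (fun c f g => Bf_smul V f g c)
    (fun f g g' => by
      rw [Bf_comm V f, Bf_comm V f, Bf_comm V f]
      exact Bf_add hV g.2 g'.2 f.2)
    (fun c f g => by
      rw [Bf_comm V f, Bf_comm V f]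
      exact Bf_smul V g f c)

lemma BL_apply {V : ℝ → ℝ} (hV : IntegrableOn V (Ioo a b)) (f g : H10 a b) :
    BL hV f g = Bf V f g := rfl

/-- the scalar product as a bilinear map on `H¹₀(a,b)` -/
noncomputable def WL (a b : ℝ) : H10 a b →ₗ[ℝ] H10 a b →ₗ[ℝ] ℝ :=
  LinearMap.mk₂ ℝ (fun f g => Wf f g)
    (fun f f' g => Wf_add f.2 f'.2 g.2)
    (fun c f g => Wf_smul f g c)
    (fun f g g' => by
      rw [Wf_comm f, Wf_comm f, Wf_comm f]
      exact Wf_add g.2 g'.2 f.2)
    (fun c f g => by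
      rw [Wf_comm f, Wf_comm f]
      exact Wf_smul g f c)

lemma WL_apply (f g : H10 a b) : WL a b f g = Wf f g := rfl

lemma pot_int {U : ℝ → ℝ} (hU : IntegrableOn U (Ioo a b)) (k τ : ℝ) :
    IntegrableOn (pot k τ U) (Ioo a b) := by
  unfold pot
  refine IntegrableOn.add (IntegrableOn.sub ?_ hU) (om_int.const_mul τ)
  exact integrableOn_const (by simp)

lemma Bf_pot {U f g : ℝ → ℝ} (hU : IntegrableOn U (Ioo a b)) (k τ : ℝ) (hf : f ∈ H10 a b)
    (hg : g ∈ H10 a b) : Bf (pot k τ U) f g = Bf (pot k 0 U) f g + τ * Wf f g := by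
  unfold Bf Wf
  rw [← integral_const_mul, ← integral_add (int_B (pot_int hU k 0) hf hg)
    ((int_Vfg om_int hf hg).const_mul τ)]
  congr 1
  funext x
  unfold pot
  ring

lemma H10_compact {f : ℝ → ℝ} (hf : f ∈ H10 a b) : HasCompactSupport f := by
  refine HasCompactSupport.intro (K := Icc a b) isCompact_Icc fun x hx => ?_
  exact H10_zero hf fun h => hx (Ioo_subset_Icc_self h)

lemma Wf_pos {f : ℝ → ℝ} (hf : f ∈ H10 a b) (h0 : f ≠ 0) : 0 < Wf f f := by
  obtain ⟨x, hx⟩ := Function.ne_iff.1 h0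
  unfold Wf
  refine Continuous.integral_pos_of_hasCompactSupport_nonneg_nonzero (x := x) ?_ ?_ ?_ ?_
  · have := H10_continuous hf
    exact om_cont.mul (this.mul this)
  · exact ((H10_compact hf).mul_right).mul_left
  · intro y
    exact mul_nonneg (om_pos y).le (mul_self_nonneg _)
  · exact mul_ne_zero (om_pos x).ne' (mul_ne_zero hx hx)

lemma Wf_nonneg (f : ℝ → ℝ) : 0 ≤ Wf f f :=
  integral_nonneg fun x => mul_nonneg (om_pos x).le (mul_self_nonneg _)

/-- `pot` depends on `k²` only -/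
lemma pot_abs (k τ : ℝ) (U : ℝ → ℝ) : pot |k| τ U = pot k τ U := by
  unfold pot
  funext x
  rw [sq_abs]

/-- the lower order term is controlled by the sup norm -/
lemma abs_int_V_le {V f : ℝ → ℝ} (hV : IntegrableOn V (Ioo a b)) (hf : f ∈ H10 a b) {S : ℝ}
    (hS : ∀ x, f x ^ 2 ≤ S) : |∫ x, V x * f x ^ 2| ≤ (∫ x in Ioo a b, |V x|) * S := by
  have h1 : ∫ x, V x * f x ^ 2 = ∫ x in Ioo a b, V x * f x ^ 2 := by
    symm
    refine setIntegral_eq_integral_of_forall_compl_eq_zero fun x hx => ?_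
    rw [H10_zero hf hx]; ring
  rw [h1]
  refine (abs_integral_le_integral_abs).trans ?_
  rw [← integral_mul_const]
  refine integral_mono_of_nonneg (ae_of_all _ fun x => abs_nonneg _) (hV.abs.mul_const S)
    (ae_of_all _ fun x => ?_)
  simp only [abs_mul]
  exact mul_le_mul_of_nonneg_left (by rw [abs_of_nonneg (sq_nonneg _)]; exact hS x) (abs_nonneg _)

end Pool.Agent.RLT40.SpB
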