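import Pool.Agent.RLT40.SpecA
import Pool.Agent.RLT40.SpecB1

/-!
# Module SPEC: existence of maximisers (weak compactness in `L²`)
-/

open MeasureTheory Set Filter Topology
open scoped ENNReal NNReal

namespace Pool.Agent.RLT40.SpB

/-- bounded sequences in a separable Hilbert space have weakly convergent subsequences -/
lemma weak_subseq {H : Type*} [NormedAddCommGroup H] [InnerProductSpace ℝ H] [CompleteSpace H]
    [TopologicalSpace.SeparableSpace H] (x : ℕ → H) {C : ℝ} (hx : ∀ n, ‖x n‖ ≤ C) :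
    ∃ (y : H) (ψ : ℕ → ℕ), StrictMono ψ ∧
      ∀ z, Tendsto (fun n => inner ℝ (x (ψ n)) z) atTop (𝓝 (inner ℝ y z)) := by
  have h1 := WeakDual.isSeqCompact_closedBall ℝ H (0 : StrongDual ℝ H) C
  obtain ⟨y', hy', ψ, hψ, hlim⟩ := h1
    (x := fun n => StrongDual.toWeakDual (InnerProductSpace.toDual ℝ H (x n))) (fun n => by
      rw [mem_preimage, mem_closedBall_zero_iff, StrongDual.toStrongDual_toWeakDual,
        LinearIsometryEquiv.norm_map]
      exact hx n)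
  refine ⟨(InnerProductSpace.toDual ℝ H).symm (WeakDual.toStrongDual y'), ψ, hψ, fun z => ?_⟩
  have h2 := ((WeakDual.eval_continuous z).tendsto y').comp hlim
  rw [InnerProductSpace.toDual_symm_apply]
  exact h2

lemma norm_sq_toLp {f : ℝ → ℝ} (hf : MemLp f 2 volume) : ‖hf.toLp f‖ ^ 2 = ∫ x, f x ^ 2 := by
  rw [← real_inner_self_eq_norm_sq, L2.inner_def]
  apply integral_congr_ae
  filter_upwards [hf.coeFn_toLp] with x hx
  simp [hx, pow_two]

lemma norm_sq_Lp (Y : Lp ℝ 2 (volume : Measure ℝ)) : ‖Y‖ ^ 2 = ∫ x, Y x ^ 2 := by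
  rw [← real_inner_self_eq_norm_sq, L2.inner_def]
  apply integral_congr_ae
  filter_upwards with x
  simp [pow_two]

lemma weak_limit {a b : ℝ} (hab : a < b) {f : ℕ → ℝ → ℝ} (hf : ∀ n, f n ∈ H10 a b) {D : ℝ}
    (hD : ∀ n, ∫ x, deriv (f n) x ^ 2 ≤ D) :
    ∃ (g : ℝ → ℝ) (ψ : ℕ → ℕ), StrictMono ψ ∧ g ∈ H10 a b ∧
      (∀ x, Tendsto (fun n => f (ψ n) x) atTop (𝓝 (g x))) ∧
      ∀ L, Tendsto (fun n => ∫ x, deriv (f (ψ n)) x ^ 2) atTop (𝓝 L) →
        ∫ x, deriv g x ^ 2 ≤ L := by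
  obtain ⟨G, hG⟩ : ∃ G : ℕ → Lp ℝ 2 (volume : Measure ℝ),
      ∀ n, G n = (H10_deriv_memLp (hf n)).toLp (deriv (f n)) := ⟨fun n => _, fun n => rfl⟩
  have hGn : ∀ n, ‖G n‖ ^ 2 = ∫ x, deriv (f n) x ^ 2 := by
    intro n
    rw [hG, norm_sq_toLp]
  have hGae : ∀ n, ∀ᵐ x, G n x = deriv (f n) x := by
    intro n
    rw [hG]
    exact (H10_deriv_memLp (hf n)).coeFn_toLp
  have hfa : ∀ n, f n a = 0 := fun n => H10_zero (hf n) (fun h => lt_irrefl _ h.1)
  have : Fact ((2 : ℝ≥0∞) ≠ ∞) := ⟨by norm_num⟩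
  have : TopologicalSpace.SeparableSpace (Lp ℝ 2 (volume : Measure ℝ)) := inferInstance
  obtain ⟨Y, ψ, hψ, hlim⟩ := weak_subseq G (C := √D) (fun n => by
    apply Real.le_sqrt_of_sq_le
    rw [hGn]
    exact hD n)
  -- the values through the scalar product
  have hval : ∀ n x, x ∈ Icc a b → f n x = inner ℝ (G n)
      (indicatorConstLp 2 (measurableSet_Ioc (a := a) (b := x)) (by simp) (1 : ℝ)) := by
    intro n x hx
    rw [real_inner_comm, L2.inner_indicatorConstLp_one]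
    have h1 := H10_integral (hf n) a x
    rw [hfa, sub_zero, intervalIntegral.integral_of_le hx.1] at h1
    rw [← h1]
    refine setIntegral_congr_ae measurableSet_Ioc ?_
    filter_upwards [hGae n] with t ht _
    rw [ht]
  have hlimx : ∀ x ∈ Icc a b, Tendsto (fun n => f (ψ n) x) atTop (𝓝 (∫ t in a..x, Y t)) := by
    intro x hx
    have h1 := hlim (indicatorConstLp 2 (measurableSet_Ioc (a := a) (b := x)) (by simp) (1 : ℝ))
    rw [real_inner_comm, L2.inner_indicatorConstLp_one,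
      ← intervalIntegral.integral_of_le hx.1] at h1
    refine h1.congr fun n => ?_
    rw [hval (ψ n) x hx]
  classical
  obtain ⟨g, hg⟩ : ∃ g : ℝ → ℝ, ∀ x, g x = if x ∈ Ioo a b then ∫ t in a..x, Y t else 0 :=
    ⟨fun x => _, fun x => rfl⟩
  have hg0 : ∀ x, x ∉ Ioo a b → g x = 0 := fun x hx => by rw [hg, if_neg hx]
  have hfb : ∀ n, f n b = 0 := fun n => H10_zero (hf n) (fun h => lt_irrefl _ h.2)
  have hYb : ∫ t in a..b, Y t = 0 := by
    have h1 := hlimx b ⟨hab.le, le_rfl⟩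
    simp only [hfb] at h1
    exact (tendsto_nhds_unique h1 tendsto_const_nhds)
  have hgI : ∀ x ∈ Icc a b, g x = ∫ t in a..x, Y t := by
    intro x hx
    by_cases hx' : x ∈ Ioo a b
    · rw [hg, if_pos hx']
    · rw [hg, if_neg hx']
      rcases eq_or_lt_of_le hx.1 with h1 | h1
      · rw [← h1, intervalIntegral.integral_same]
      · rcases eq_or_lt_of_le hx.2 with h2 | h2
        · rw [h2, hYb]
        · exact absurd ⟨h1, h2⟩ hx'
  obtain ⟨hgH, hgd⟩ := H10_of_integral hg0 ((Lp.memLp Y).restrict (Ioo a b)) hgI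
  refine ⟨g, ψ, hψ, hgH, fun x => ?_, fun L hL => ?_⟩
  · by_cases hx : x ∈ Ioo a b
    · rw [hgI x (Ioo_subset_Icc_self hx)]
      exact hlimx x (Ioo_subset_Icc_self hx)
    · rw [hg0 x hx]
      have : ∀ n, f (ψ n) x = 0 := fun n => H10_zero (hf _) hx
      simp only [this]
      exact tendsto_const_nhds
  · have h1 : ∫ x, deriv g x ^ 2 ≤ ‖Y‖ ^ 2 := by
      rw [norm_sq_Lp]
      refine integral_mono_ae (H10_deriv_memLp hgH).integrable_sq (Lp.memLp Y).integrable_sq ?_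
      have ha : ∀ᵐ x : ℝ, x ≠ a := by simp [ae_iff]
      have hb : ∀ᵐ x : ℝ, x ≠ b := by simp [ae_iff]
      filter_upwards [hgd, ha, hb] with x h1 h2 h3
      by_cases hx : x ∈ Ioo a b
      · rw [h1 hx]
      · have h4 : x ∉ Icc a b := fun h => hx ⟨lt_of_le_of_ne h.1 (Ne.symm h2),
          lt_of_le_of_ne h.2 h3⟩
        rw [H10_deriv_zero hgH h4, zero_pow two_ne_zero]
        exact sq_nonneg _
    refine h1.trans ?_
    have h2 : ∀ n, 2 * inner ℝ (G (ψ n)) Y - ‖Y‖ ^ 2 ≤ ∫ x, deriv (f (ψ n)) x ^ 2 := by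
      intro n
      rw [← hGn]
      have h3 := norm_sub_sq_real (G (ψ n)) Y
      have h4 := sq_nonneg ‖G (ψ n) - Y‖
      linarith
    have h3 : Tendsto (fun n => 2 * inner ℝ (G (ψ n)) Y - ‖Y‖ ^ 2) atTop
        (𝓝 (2 * inner ℝ Y Y - ‖Y‖ ^ 2)) := ((hlim Y).const_mul 2).sub_const _
    have h4 := le_of_tendsto_of_tendsto' h3 hL h2
    rw [real_inner_self_eq_norm_sq] at h4
    linarith

/-- dominated convergence for the lower order terms -/
lemma dct {a b : ℝ} {V : ℝ → ℝ} (hV : IntegrableOn V (Ioo a b)) {p : ℕ → ℝ → ℝ} {p' : ℝ → ℝ} {R : ℝ}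
    (hi : ∀ n, AEStronglyMeasurable (fun x => V x * p n x) volume)
    (h0 : ∀ n x, x ∉ Ioo a b → p n x = 0) (hR : ∀ n x, |p n x| ≤ R)
    (hlim : ∀ x, Tendsto (fun n => p n x) atTop (𝓝 (p' x))) :
    Tendsto (fun n => ∫ x, V x * p n x) atTop (𝓝 (∫ x, V x * p' x)) := by
  refine tendsto_integral_of_dominated_convergence ((Ioo a b).indicator fun x => |V x| * R) hi ?_ ?_ ?_
  · rw [integrable_indicator_iff measurableSet_Ioo]
    exact hV.abs.mul_const R
  · intro n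
    refine ae_of_all _ fun x => ?_
    by_cases hx : x ∈ Ioo a b
    · rw [indicator_of_mem hx, Real.norm_eq_abs, abs_mul]
      exact mul_le_mul_of_nonneg_left (hR n x) (abs_nonneg _)
    · rw [indicator_of_notMem hx, h0 n x hx, mul_zero, norm_zero]
  · exact ae_of_all _ fun x => (hlim x).const_mul _

/-- existence of a maximiser -/
theorem attain {a b : ℝ} (hab : a < b) {U : ℝ → ℝ} (hU : IntegrableOn U (Ioo a b)) (k : ℝ)
    (m : ℕ) (φ : ℕ → H10 a b)
    (hf : ∃ f : H10 a b, (∀ i < m, WL a b f (φ i) = 0) ∧ BL (pot_int hU k 0) f f < 0) :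
    ∃ e > 0, ∃ ψ : H10 a b, ψ ≠ 0 ∧ (∀ i < m, WL a b ψ (φ i) = 0) ∧
      BL (pot_int hU k 0) ψ ψ + e * WL a b ψ ψ = 0 ∧
      ∀ f : H10 a b, (∀ i < m, WL a b f (φ i) = 0) →
        0 ≤ BL (pot_int hU k 0) f f + e * WL a b f f := by
  have hV := pot_int hU k 0
  obtain ⟨Cs, hCs, hcoer⟩ := coercive hab (∫ x in Ioo a b, |U x|)
  have hco : ∀ f ∈ H10 a b, q (pot k 0 U) f ≤ 0 → ∫ x, deriv f x ^ 2 ≤ Cs * Wf f f := by
    intro f hf h
    have h1 := hcoer U hU le_rfl k f hf h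
    have h2 : Wf f f = ∫ x, om x * f x ^ 2 := by
      unfold Wf
      congr 1
      funext x
      ring
    rw [h2]; exact h1
  obtain ⟨M₁, hM₁⟩ : ∃ M₁ : ℝ, M₁ = ∫ x in Ioo a b, |pot k 0 U x| := ⟨_, rfl⟩
  have hM₁0 : 0 ≤ M₁ := by rw [hM₁]; exact integral_nonneg fun x => abs_nonneg _
  have hba : 0 ≤ b - a := by linarith
  have hbd : ∀ f ∈ H10 a b, q (pot k 0 U) f ≤ 0 →
      -q (pot k 0 U) f ≤ M₁ * ((b - a) * (Cs * Wf f f)) := by
    intro f hf h
    have h1 := hco f hf h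
    have h2 : ∀ x, f x ^ 2 ≤ (b - a) * (Cs * Wf f f) := fun x =>
      (H10_sup_sq hab.le hf x).trans (mul_le_mul_of_nonneg_left h1 hba)
    have h3 := abs_int_V_le hV hf h2
    rw [← hM₁] at h3
    have h4 := q_eq hV hf
    have h5 : 0 ≤ ∫ x, deriv f x ^ 2 := integral_nonneg fun x => sq_nonneg _
    have h6 := neg_abs_le (∫ x, pot k 0 U x * f x ^ 2)
    linarith
  -- the set of values
  obtain ⟨S, hS⟩ : ∃ S : Set ℝ, S = {s : ℝ | ∃ f : H10 a b, (∀ i < m, WL a b f (φ i) = 0) ∧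
      Wf (f : ℝ → ℝ) f = 1 ∧ q (pot k 0 U) (f : ℝ → ℝ) ≤ 0 ∧ s = -q (pot k 0 U) (f : ℝ → ℝ)} :=
    ⟨_, rfl⟩
  have hSb : BddAbove S := by
    refine ⟨M₁ * ((b - a) * (Cs * 1)), ?_⟩
    rw [hS]
    rintro s ⟨f, -, h2, h3, rfl⟩
    have := hbd f f.2 h3
    rwa [h2] at this
  have hnorm : ∀ f : H10 a b, (∀ i < m, WL a b f (φ i) = 0) → BL hV f f < 0 →
      -BL hV f f / WL a b f f ∈ S := by
    intro f hfX hfn
    have hf0 : (f : ℝ → ℝ) ≠ 0 := by
      intro h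
      have : f = 0 := Subtype.ext h
      rw [this, map_zero] at hfn
      exact lt_irrefl _ hfn
    have hW : 0 < Wf (f : ℝ → ℝ) f := Wf_pos f.2 hf0
    obtain ⟨c, hc⟩ : ∃ c : ℝ, c = (√(Wf (f : ℝ → ℝ) f))⁻¹ := ⟨_, rfl⟩
    have hc2 : c ^ 2 = (Wf (f : ℝ → ℝ) f)⁻¹ := by
      rw [hc, inv_pow, Real.sq_sqrt hW.le]
    have h1 : BL hV (c • f) (c • f) = c ^ 2 * BL hV f f := by
      simp only [map_smul, LinearMap.smul_apply, smul_eq_mul]; ring
    have h2 : WL a b (c • f) (c • f) = c ^ 2 * WL a b f f := by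
      simp only [map_smul, LinearMap.smul_apply, smul_eq_mul]; ring
    rw [hS]
    refine ⟨c • f, ?_, ?_, ?_, ?_⟩
    · intro i hi
      rw [map_smul, LinearMap.smul_apply, hfX i hi, smul_zero]
    · change WL a b (c • f) (c • f) = 1
      rw [h2, hc2, WL_apply, inv_mul_cancel₀ hW.ne']
    · rw [q_eq_Bf]
      change BL hV (c • f) (c • f) ≤ 0
      rw [h1]
      exact mul_nonpos_of_nonneg_of_nonpos (sq_nonneg _) hfn.le
    · rw [q_eq_Bf]
      change _ = -BL hV (c • f) (c • f)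
      rw [h1, hc2, WL_apply]
      ring
  obtain ⟨f₀, hf₀X, hf₀n⟩ := hf
  have hs₀ := hnorm f₀ hf₀X hf₀n
  have hSn : S.Nonempty := ⟨_, hs₀⟩
  have hWf₀ : 0 < WL a b f₀ f₀ := by
    apply Wf_pos f₀.2
    intro h
    have : f₀ = 0 := Subtype.ext h
    rw [this, map_zero] at hf₀n
    exact lt_irrefl _ hf₀n
  obtain ⟨e, he⟩ : ∃ e : ℝ, e = sSup S := ⟨_, rfl⟩
  have he0 : 0 < e := by
    rw [he]
    refine lt_of_lt_of_le ?_ (le_csSup hSb hs₀)
    exact div_pos (by linarith) hWf₀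
  have hmax : ∀ f : H10 a b, (∀ i < m, WL a b f (φ i) = 0) → 0 ≤ BL hV f f + e * WL a b f f := by
    intro f hfX
    have hW0 : 0 ≤ WL a b f f := Wf_nonneg f
    rcases le_or_gt 0 (BL hV f f) with h | h
    · have := mul_nonneg he0.le hW0
      linarith
    · have h1 := le_csSup hSb (hnorm f hfX h)
      rw [← he] at h1
      have hWp : 0 < WL a b f f := by
        apply Wf_pos f.2
        intro h'
        have : f = 0 := Subtype.ext h'
        rw [this, map_zero] at h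
        exact lt_irrefl _ h
      rw [div_le_iff₀ hWp] at h1
      linarith
  -- the maximising sequence
  obtain ⟨u, -, hu1, hu2⟩ := exists_seq_tendsto_sSup hSn hSb
  rw [← he] at hu1
  rw [hS] at hu2
  choose f hfX hfW hfq hfu using hu2
  have hfH : ∀ n, (f n : ℝ → ℝ) ∈ H10 a b := fun n => (f n).2
  have hD : ∀ n, ∫ x, deriv (f n : ℝ → ℝ) x ^ 2 ≤ Cs := by
    intro n
    have := hco _ (hfH n) (hfq n)
    rwa [hfW, mul_one] at this
  obtain ⟨g, ψ, hψ, hgH, hglim, hgL⟩ := weak_limit hab hfH hD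
  obtain ⟨R, hR⟩ : ∃ R : ℝ, R = (b - a) * Cs := ⟨_, rfl⟩
  have hfR : ∀ n x, (f n : ℝ → ℝ) x ^ 2 ≤ R := by
    intro n x
    rw [hR]
    exact (H10_sup_sq hab.le (hfH n) x).trans (mul_le_mul_of_nonneg_left (hD n) hba)
  have hsq : ∀ (V : ℝ → ℝ), IntegrableOn V (Ioo a b) →
      Tendsto (fun n => ∫ x, V x * (f (ψ n) : ℝ → ℝ) x ^ 2) atTop (𝓝 (∫ x, V x * g x ^ 2)) := by
    intro V hV
    refine dct (R := R) hV (fun n => (q_integrable hV (hfH _)).1.aestronglyMeasurable) ?_ ?_ ?_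
    · intro n x hx
      rw [H10_zero (hfH _) hx]; ring
    · intro n x
      rw [abs_of_nonneg (sq_nonneg _)]
      exact hfR _ x
    · intro x
      exact (hglim x).pow 2
  have hWsq : ∀ h : ℝ → ℝ, Wf h h = ∫ x, om x * h x ^ 2 := by
    intro h
    unfold Wf
    congr 1
    funext x
    ring
  have hgW : Wf g g = 1 := by
    have h1 := hsq om (om_int (a := a) (b := b))
    simp only [← hWsq, hfW] at h1
    exact (tendsto_nhds_unique tendsto_const_nhds h1).symm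
  have hgX : ∀ i < m, Wf g (φ i) = 0 := by
    intro i hi
    obtain ⟨R', hR'⟩ : ∃ R' : ℝ, R' = (b - a) * ∫ t, deriv (φ i : ℝ → ℝ) t ^ 2 := ⟨_, rfl⟩
    have h1 : Tendsto (fun n => ∫ x, om x * ((f (ψ n) : ℝ → ℝ) x * (φ i : ℝ → ℝ) x)) atTop
        (𝓝 (∫ x, om x * (g x * (φ i : ℝ → ℝ) x))) := by
      refine dct (a := a) (b := b) (R := R + R') om_int
        (fun n => (int_Vfg om_int (hfH _) (φ i).2).aestronglyMeasurable) ?_ ?_ ?_
      · intro n x hx
        rw [H10_zero (hfH _) hx, zero_mul]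
      · intro n x
        have h2 := hfR (ψ n) x
        have h3 := H10_sup_sq hab.le (φ i).2 x
        rw [← hR'] at h3
        rw [abs_le]
        constructor <;> nlinarith [sq_nonneg ((f (ψ n) : ℝ → ℝ) x + (φ i : ℝ → ℝ) x),
          sq_nonneg ((f (ψ n) : ℝ → ℝ) x - (φ i : ℝ → ℝ) x)]
      · intro x
        exact (hglim x).mul_const _
    have h2 : ∀ n, ∫ x, om x * ((f (ψ n) : ℝ → ℝ) x * (φ i : ℝ → ℝ) x) = 0 := fun n =>
      hfX (ψ n) i hi
    simp only [h2] at h1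
    exact (tendsto_nhds_unique tendsto_const_nhds h1).symm
  have hgq : q (pot k 0 U) g ≤ -e := by
    have h1 := hsq _ hV
    have h2 : Tendsto (fun n => ∫ x, deriv (f (ψ n) : ℝ → ℝ) x ^ 2) atTop
        (𝓝 (-e - ∫ x, pot k 0 U x * g x ^ 2)) := by
      have h3 : ∀ n, ∫ x, deriv (f (ψ n) : ℝ → ℝ) x ^ 2 =
          -u (ψ n) - ∫ x, pot k 0 U x * (f (ψ n) : ℝ → ℝ) x ^ 2 := by
        intro n
        have h4 := q_eq hV (hfH (ψ n))
        have h5 := hfu (ψ n)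
        linarith
      simp only [h3]
      exact ((hu1.comp hψ.tendsto_atTop).neg).sub h1
    have h3 := hgL _ h2
    have h4 := q_eq hV hgH
    linarith
  refine ⟨e, he0, ⟨g, hgH⟩, ?_, hgX, ?_, hmax⟩
  · intro h
    have h1 : g = 0 := congrArg Subtype.val h
    rw [h1] at hgW
    simp [Wf] at hgW
  · refine le_antisymm ?_ (hmax ⟨g, hgH⟩ hgX)
    rw [q_eq_Bf] at hgq
    change Bf (pot k 0 U) g g + e * Wf g g ≤ 0
    rw [hgW]
    linarith

end Pool.Agent.RLT40.SpB
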