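import Pool.Agent.RLT40.SpecB1

/-!
# Module SPEC: regularity of weak solutions and simplicity of the eigenvalues
-/

open MeasureTheory Set Filter Topology
open scoped ENNReal NNReal

namespace Pool.Agent.RLT40.SpB

variable {a b : ℝ}

lemma memLp_ii {g : ℝ → ℝ} (hg : MemLp g 2 (volume : Measure ℝ)) (x y : ℝ) :
    IntervalIntegrable g volume x y :=
  ((hg.locallyIntegrable (by norm_num)).integrableOn_isCompact isCompact_uIcc).intervalIntegrable

lemma H10_left {f : ℝ → ℝ} (hf : f ∈ H10 a b) : f a = 0 := H10_zero hf (fun h => lt_irrefl _ h.1)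

lemma H10_right {f : ℝ → ℝ} (hf : f ∈ H10 a b) : f b = 0 := H10_zero hf (fun h => lt_irrefl _ h.2)

lemma H10_ac {f : ℝ → ℝ} (hf : f ∈ H10 a b) : AbsolutelyContinuousOnInterval f a b := by
  have h1 := (memLp_ii (H10_deriv_memLp hf) a b).absolutelyContinuousOnInterval_intervalIntegral
    (left_mem_uIcc)
  have h2 : (fun x => ∫ v in a..x, deriv f v) = f := by
    funext x
    rw [H10_integral hf, H10_left hf, sub_zero]
  rwa [h2] at h1

lemma Bf_interval (hab : a < b) {V φ f : ℝ → ℝ} (hφ : φ ∈ H10 a b) :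
    Bf V φ f = ∫ x in a..b, (deriv φ x * deriv f x + V x * (φ x * f x)) := by
  unfold Bf
  rw [intervalIntegral.integral_of_le hab.le, ← integral_Icc_eq_integral_Ioc]
  symm
  refine setIntegral_eq_integral_of_forall_compl_eq_zero fun x hx => ?_
  rw [H10_deriv_zero hφ hx, H10_zero hφ (fun h => hx (Ioo_subset_Icc_self h))]
  ring

lemma V_ii (hab : a < b) {V : ℝ → ℝ} (hV : IntegrableOn V (Ioo a b)) :
    IntervalIntegrable V volume a b :=
  (intervalIntegrable_iff_integrableOn_Ioo_of_le hab.le).2 hV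

lemma Vf_ii (hab : a < b) {V φ : ℝ → ℝ} (hV : IntegrableOn V (Ioo a b)) (hφ : φ ∈ H10 a b) :
    IntervalIntegrable (fun t => V t * φ t) volume a b :=
  (V_ii hab hV).mul_continuousOn (H10_continuous hφ).continuousOn

/-- integrated form of the weak equation -/
lemma regular (hab : a < b) {V φ : ℝ → ℝ} (hV : IntegrableOn V (Ioo a b)) (hφ : φ ∈ H10 a b)
    (hw : ∀ f ∈ H10 a b, Bf V φ f = 0) :
    ∃ c : ℝ, ∀ᵐ x, x ∈ Ioo a b → deriv φ x = c + ∫ t in a..x, V t * φ t := by
  have hVi := Vf_ii hab hV hφ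
  obtain ⟨P, hP⟩ : ∃ P : ℝ → ℝ, P = fun x => ∫ t in a..x, V t * φ t := ⟨_, rfl⟩
  have hPac : AbsolutelyContinuousOnInterval P a b := by
    rw [hP]
    exact hVi.absolutelyContinuousOnInterval_intervalIntegral left_mem_uIcc
  have hPd : ∀ᵐ x, x ∈ uIcc a b → HasDerivAt P (V x * φ x) x := by
    filter_upwards [hVi.ae_hasDerivAt_integral] with x hx hx'
    rw [hP]
    exact hx hx' a left_mem_uIcc
  have hPc : ContinuousOn P (uIcc a b) := hPac.continuousOn
  have hPa : P a = 0 := by rw [hP]; simp
  -- first formula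
  have key : ∀ f ∈ H10 a b, ∫ x in a..b, (deriv φ x - P x) * deriv f x = 0 := by
    intro f hf
    have hfac := H10_ac hf
    have h1 := hPac.integral_mul_deriv_eq_deriv_mul hfac
    rw [H10_left hf, H10_right hf, mul_zero, mul_zero, sub_zero, zero_sub] at h1
    have h2 : ∫ x in a..b, deriv P x * f x = ∫ x in a..b, V x * (φ x * f x) := by
      apply intervalIntegral.integral_congr_ae
      filter_upwards [hPd] with x hx hx'
      rw [(hx (uIoc_subset_uIcc hx')).deriv]
      ring
    rw [h2] at h1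
    have h3 := hw f hf
    rw [Bf_interval hab hφ] at h3
    have i1 : IntervalIntegrable (fun x => deriv φ x * deriv f x) volume a b :=
      (int_dd hφ hf).intervalIntegrable
    have i2 : IntervalIntegrable (fun x => V x * (φ x * f x)) volume a b :=
      (int_Vfg hV hφ hf).intervalIntegrable
    have i3 : IntervalIntegrable (fun x => P x * deriv f x) volume a b :=
      (memLp_ii (H10_deriv_memLp hf) a b).continuousOn_mul hPc
    rw [intervalIntegral.integral_add i1 i2] at h3
    have h4 : ∫ x in a..b, (deriv φ x - P x) * deriv f x =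
        (∫ x in a..b, deriv φ x * deriv f x) - ∫ x in a..b, P x * deriv f x := by
      rw [← intervalIntegral.integral_sub i1 i3]
      congr 1
      funext x
      ring
    rw [h4, h1]
    linarith
  -- the test function
  have iφ := memLp_ii (H10_deriv_memLp hφ) a b
  have iP : IntervalIntegrable P volume a b := hPc.intervalIntegrable
  obtain ⟨c, hc⟩ : ∃ c : ℝ, c = (∫ x in a..b, (deriv φ x - P x)) / (b - a) := ⟨_, rfl⟩
  obtain ⟨g, hg⟩ : ∃ g : ℝ → ℝ, g = fun x => deriv φ x - P x - c := ⟨_, rfl⟩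
  have hba : b - a ≠ 0 := by intro h; linarith
  have hg0 : ∫ x in a..b, g x = 0 := by
    rw [hg, intervalIntegral.integral_sub (iφ.sub iP) intervalIntegrable_const,
      intervalIntegral.integral_const, smul_eq_mul, hc]
    field_simp
    ring
  have hgm : MemLp g 2 (volume.restrict (Ioo a b)) := by
    obtain ⟨CP, hCP⟩ := (isCompact_uIcc (a := a) (b := b)).exists_bound_of_continuousOn hPc
    have m1 : MemLp P 2 (volume.restrict (Ioo a b)) := by
      refine MemLp.of_bound ?_ CP ?_
      · refine (hPc.mono ?_).aestronglyMeasurable measurableSet_Ioo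
        rw [uIcc_of_le hab.le]
        exact Ioo_subset_Icc_self
      · rw [ae_restrict_iff' measurableSet_Ioo]
        refine ae_of_all _ fun x hx => hCP x ?_
        rw [uIcc_of_le hab.le]
        exact Ioo_subset_Icc_self hx
    rw [hg]
    exact (((H10_deriv_memLp hφ).restrict _).sub m1).sub (memLp_const c)
  classical
  obtain ⟨f, hf⟩ : ∃ f : ℝ → ℝ, ∀ x, f x = if x ∈ Ioo a b then ∫ t in a..x, g t else 0 :=
    ⟨fun x => _, fun x => rfl⟩
  have hf0 : ∀ x, x ∉ Ioo a b → f x = 0 := fun x hx => by rw [hf, if_neg hx]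
  have hfI : ∀ x ∈ Icc a b, f x = ∫ t in a..x, g t := by
    intro x hx
    by_cases hx' : x ∈ Ioo a b
    · rw [hf, if_pos hx']
    · rw [hf, if_neg hx']
      rcases eq_or_lt_of_le hx.1 with h1 | h1
      · rw [← h1, intervalIntegral.integral_same]
      · rcases eq_or_lt_of_le hx.2 with h2 | h2
        · rw [h2, hg0]
        · exact absurd ⟨h1, h2⟩ hx'
  obtain ⟨hfH, hfd⟩ := H10_of_integral hf0 hgm hfI
  have h1 := key f hfH
  have hb : ∀ᵐ x : ℝ, x ≠ b := by simp [ae_iff]
  have ig : IntervalIntegrable g volume a b := by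
    rw [hg]
    exact (iφ.sub iP).sub intervalIntegrable_const
  have hgsq : IntervalIntegrable (fun x => g x ^ 2) volume a b :=
    (intervalIntegrable_iff_integrableOn_Ioo_of_le hab.le).2 hgm.integrable_sq
  have h2 : ∫ x in a..b, (deriv φ x - P x) * deriv f x = ∫ x in a..b, (g x ^ 2 + c * g x) := by
    apply intervalIntegral.integral_congr_ae
    filter_upwards [hfd, hb] with x hx hxb hx'
    rw [uIoc_of_le hab.le] at hx'
    rw [hx ⟨hx'.1, lt_of_le_of_ne hx'.2 hxb⟩, hg]
    ring
  rw [h2, intervalIntegral.integral_add hgsq (ig.const_mul c), intervalIntegral.integral_const_mul,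
    hg0, mul_zero, add_zero, intervalIntegral.integral_of_le hab.le] at h1
  rw [integral_eq_zero_iff_of_nonneg (fun x => sq_nonneg _)
    ((intervalIntegrable_iff_integrableOn_Ioc_of_le hab.le).1 hgsq)] at h1
  rw [EventuallyEq, ae_restrict_iff' measurableSet_Ioc] at h1
  refine ⟨c, ?_⟩
  filter_upwards [h1] with x hx hx'
  have h3 := hx (Ioo_subset_Ioc_self hx')
  have h4 : g x = 0 := by simpa using h3
  rw [hg] at h4
  have h5 : P x = ∫ t in a..x, V t * φ t := by rw [hP]
  rw [← h5]
  linarith

/-- uniqueness for the initial value problem -/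
lemma ivp_unique (hab : a < b) {V χ : ℝ → ℝ} (hV : IntegrableOn V (Ioo a b)) (hχ : χ ∈ H10 a b)
    (hd : ∀ᵐ x, x ∈ Ioo a b → deriv χ x = ∫ t in a..x, V t * χ t) : χ = 0 := by
  have hVi := V_ii hab hV
  obtain ⟨A, hA⟩ : ∃ A : ℝ, A = ∫ t in a..b, |V t| := ⟨_, rfl⟩
  have hA0 : 0 ≤ A := by
    rw [hA]
    exact intervalIntegral.integral_nonneg hab.le fun x _ => abs_nonneg _
  obtain ⟨δ, hδ⟩ : ∃ δ : ℝ, δ = 1 / (2 * (A + 1)) := ⟨_, rfl⟩
  have hδ0 : 0 < δ := by rw [hδ]; positivity
  have hδA : δ * A ≤ 1 / 2 := by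
    rw [hδ, div_mul_eq_mul_div, div_le_iff₀ (by positivity)]
    linarith
  have hcont := H10_continuous hχ
  have key : ∀ n : ℕ, ∀ x ∈ Icc a b, x ≤ a + n * δ → χ x = 0 := by
    intro n
    induction n with
    | zero =>
      intro x hx hx'
      rw [Nat.cast_zero, zero_mul, add_zero] at hx'
      rw [le_antisymm hx' hx.1, H10_left hχ]
    | succ n ih =>
      intro x hx hx'
      obtain ⟨d, hd'⟩ : ∃ d : ℝ, d = min b (a + ((n + 1 : ℕ) : ℝ) * δ) := ⟨_, rfl⟩
      have hxd : x ∈ Icc a d := ⟨hx.1, by rw [hd']; exact le_min hx.2 hx'⟩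
      obtain ⟨x₀, hx₀, hmax⟩ := (isCompact_Icc (a := a) (b := d)).exists_isMaxOn ⟨x, hxd⟩
        (hcont.abs.continuousOn)
      have hmax' : ∀ y ∈ Icc a d, |χ y| ≤ |χ x₀| := fun y hy => hmax hy
      have hx₀b : x₀ ≤ b := hx₀.2.trans (by rw [hd']; exact min_le_left _ _)
      have hx₀n : x₀ ≤ a + ((n + 1 : ℕ) : ℝ) * δ := hx₀.2.trans (by rw [hd']; exact min_le_right _ _)
      have hM : |χ x₀| = 0 := by
        rcases le_or_gt x₀ (a + n * δ) with h | h
        · rw [ih x₀ ⟨hx₀.1, hx₀b⟩ h, abs_zero]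
        · obtain ⟨c, hc⟩ : ∃ c : ℝ, c = a + n * δ := ⟨_, rfl⟩
          rw [← hc] at h
          have hac : a ≤ c := by
            rw [hc]
            have : 0 ≤ (n : ℝ) * δ := by positivity
            linarith
          have hχc : χ c = 0 := ih c ⟨hac, h.le.trans hx₀b⟩ hc.le
          have h1 := H10_integral hχ c x₀
          rw [hχc, sub_zero] at h1
          have hbound : ∀ᵐ s, s ∈ uIoc c x₀ → ‖deriv χ s‖ ≤ A * |χ x₀| := by
            have hb : ∀ᵐ x : ℝ, x ≠ b := by simp [ae_iff]
            filter_upwards [hd, hb] with s hs hsb hs'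
            rw [uIoc_of_le h.le] at hs'
            have has : a < s := lt_of_le_of_lt hac hs'.1
            have hsb' : s < b := lt_of_le_of_ne (hs'.2.trans hx₀b) hsb
            rw [hs ⟨has, hsb'⟩]
            have hV1 : IntervalIntegrable (fun t => |V t| * |χ x₀|) volume a b :=
              (hVi.abs).mul_const _
            have hsub : uIcc a s ⊆ uIcc a b := by
              rw [uIcc_of_le has.le, uIcc_of_le hab.le]
              exact Icc_subset_Icc_right hsb'.le
            have hV2 : IntervalIntegrable (fun t => |V t| * |χ x₀|) volume a s :=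
              hV1.mono_set hsub
            calc ‖∫ t in a..s, V t * χ t‖ ≤ ∫ t in a..s, |V t| * |χ x₀| := by
                  refine intervalIntegral.norm_integral_le_of_norm_le has.le ?_ hV2
                  refine ae_of_all _ fun t ht => ?_
                  rw [Real.norm_eq_abs, abs_mul]
                  refine mul_le_mul_of_nonneg_left ?_ (abs_nonneg _)
                  exact hmax' t ⟨ht.1.le, ht.2.trans (hs'.2.trans hx₀.2)⟩
              _ ≤ ∫ t in a..b, |V t| * |χ x₀| := by
                  refine intervalIntegral.integral_mono_interval le_rfl has.le hsb'.le ?_ hV1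
                  exact ae_of_all _ fun t => by positivity
              _ = A * |χ x₀| := by
                  rw [intervalIntegral.integral_mul_const, hA]
          have h2 := intervalIntegral.norm_integral_le_of_norm_le_const_ae hbound
          rw [h1, Real.norm_eq_abs] at h2
          have h3 : |x₀ - c| ≤ δ := by
            rw [abs_of_nonneg (by linarith)]
            rw [hc]
            push_cast at hx₀n
            linarith
          have h4 : 0 ≤ |χ x₀| := abs_nonneg _
          have h5 : A * |χ x₀| * |x₀ - c| ≤ A * |χ x₀| * δ :=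
            mul_le_mul_of_nonneg_left h3 (mul_nonneg hA0 h4)
          nlinarith
      have := hmax' x hxd
      rw [hM] at this
      exact abs_eq_zero.1 (le_antisymm this (abs_nonneg _))
  funext x
  by_cases hx : x ∈ Ioo a b
  · obtain ⟨n, hn⟩ := exists_nat_ge ((b - a) / δ)
    rw [div_le_iff₀ hδ0] at hn
    exact key n x (Ioo_subset_Icc_self hx) (by linarith [hx.2])
  · exact H10_zero hχ hx

/-- simplicity -/
theorem simple (hab : a < b) {V φ ψ : ℝ → ℝ} (hV : IntegrableOn V (Ioo a b)) (hφ : φ ∈ H10 a b)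
    (hψ : ψ ∈ H10 a b) (h1 : φ ≠ 0) (h2 : ψ ≠ 0) (hw1 : ∀ f ∈ H10 a b, Bf V φ f = 0)
    (hw2 : ∀ f ∈ H10 a b, Bf V ψ f = 0) : Wf φ ψ ≠ 0 := by
  obtain ⟨c, hc⟩ := regular hab hV hφ hw1
  obtain ⟨d, hd⟩ := regular hab hV hψ hw2
  have hd0 : d ≠ 0 := by
    rintro rfl
    apply h2
    refine ivp_unique hab hV hψ ?_
    filter_upwards [hd] with x hx hx'
    rw [hx hx', zero_add]
  have hc0 : c ≠ 0 := by
    rintro rfl
    apply h1
    refine ivp_unique hab hV hφ ?_
    filter_upwards [hc] with x hx hx'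
    rw [hx hx', zero_add]
  -- the combination `d φ - c ψ`
  have hcomb : d • φ + (-c) • ψ = 0 := by
    have hm : d • φ + (-c) • ψ ∈ H10 a b :=
      Submodule.add_mem _ (Submodule.smul_mem _ _ hφ) (Submodule.smul_mem _ _ hψ)
    refine ivp_unique hab hV hm ?_
    filter_upwards [hc, hd, ae_deriv_add (Submodule.smul_mem _ d hφ) (Submodule.smul_mem _ (-c) hψ)]
      with x h3 h4 h5 hx
    rw [h5, deriv_smul', deriv_smul', h3 hx, h4 hx]
    have hsub : uIcc a x ⊆ uIcc a b := by
      rw [uIcc_of_le hx.1.le, uIcc_of_le hab.le]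
      exact Icc_subset_Icc_right hx.2.le
    have i1 := ((Vf_ii hab hV hφ).mono_set hsub).const_mul d
    have i2 := ((Vf_ii hab hV hψ).mono_set hsub).const_mul (-c)
    have h6 : ∫ t in a..x, V t * (d • φ + (-c) • ψ) t =
        d * (∫ t in a..x, V t * φ t) + (-c) * ∫ t in a..x, V t * ψ t := by
      rw [← intervalIntegral.integral_const_mul, ← intervalIntegral.integral_const_mul,
        ← intervalIntegral.integral_add i1 i2]
      congr 1
      funext t
      simp only [Pi.add_apply, Pi.smul_apply, smul_eq_mul]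
      ring
    rw [h6]
    ring
  have h3 : φ = (c / d) • ψ := by
    funext x
    have := congrFun hcomb x
    simp only [Pi.add_apply, Pi.smul_apply, smul_eq_mul, Pi.zero_apply] at this
    rw [Pi.smul_apply, smul_eq_mul]
    field_simp
    linarith
  rw [h3, Wf_smul]
  exact mul_ne_zero (div_ne_zero hc0 hd0) (Wf_pos hψ h2).ne'

end Pool.Agent.RLT40.SpB
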