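import Pool.Agent.RLT40.OneD

/-!
# Module SPEC (paper 3.3): spectral theory of `-f'' + (k² - U) f = -e ω f` in `H¹₀(a,b)`, `U ∈ L¹(a,b)`.

Direct method, no operators.  Coercivity: by H10_sup_young, `∫ |U| f² ≤ ‖U‖₁ sup f² ≤ ½ ∫ f'² + C_* ∫ ω f²` (`ω ≥ e^{2a}` on the interval).
Suppose `φ_1..φ_m` found.  On `X_m = {f ∈ H10 : ∫ ω f φ_i = 0}` let `e = sup -q(pot k 0 U) f / ∫ ω f²`; if `e > 0`: maximising sequence with `∫ ω f_n² = 1`,
`∫ f_n'²` bounded; by H10_holder and Arzela-Ascoli a subsequence is uniformly Cauchy; `Q(f) = q (pot k 0 U) f + e ∫ ω f² ≥ 0` on `X_m`,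
`Q(f_n) → 0`, so `Q(f_n - f_p) ≤ 2 Q(f_n) + 2 Q(f_p) → 0` and `∫ (f_n' - f_p')² = Q(f_n-f_p) - (lower order, → 0 by uniform convergence)`: Cauchy in
`H10`; the limit is the maximiser `φ_{m+1}`; first variation gives the weak equation on `X_m`, hence on `H10` (test with `φ_i`: weak equation of `φ_i`).
The process stops because `nneg a b (pot k 0 U) < ⊤`: on the span of `φ_1..φ_m` the form is negative.  Simplicity: two weak solutions with the same `e`:
the Wronskian `f g' - f' g` is constant (both derivatives are absolutely continuous), zero at `a`; so the `e_j` are strictly decreasing.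
`cnt`: `≥` by the span of the `φ_j` with `e_j > τ`; `≤`: a negative space of larger dimension contains `f ≠ 0` in `X_m` (`m` = number of `e_j > τ`),
on which `q(pot k τ U) ≥ (τ - e_{m+1}) ∫ ω f² ≥ 0` (or `≥ τ ∫ωf²` if there is no `e_{m+1}`).
-/

open MeasureTheory Set
open scoped ENNReal NNReal

namespace Pool.Agent.RLT40

/-- weak eigenfunctions of channel `k` (in decreasing order of `e`) -/
structure WeakSpec (a b : ℝ) (U : ℝ → ℝ) (k : ℝ) (m : ℕ) (e : ℕ → ℝ) (φ : ℕ → ℝ → ℝ) : Prop where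
  mem : ∀ j < m, φ j ∈ H10 a b
  ne : ∀ j < m, φ j ≠ 0
  pos : ∀ j < m, 0 < e j
  anti : ∀ i j, i < j → j < m → e j < e i
  weak : ∀ j < m, ∀ f ∈ H10 a b,
    (∫ x, (deriv (φ j) x * deriv f x + pot k (e j) U x * (φ j x * f x))) = 0
  orth : ∀ i < m, ∀ j < m, i ≠ j → ∫ x, om x * (φ i x * φ j x) = 0
  cnt : ∀ τ : ℝ, 0 ≤ τ → nneg a b (pot k τ U) = (((Finset.range m).filter fun j => τ < e j).card : ℕ∞)

end Pool.Agent.RLT40
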