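import Pool.Agent.RLT40.SpecB0
import Pool.Agent.RLT40.SpecB2
import Pool.Agent.RLT40.SpecB3
import Pool.Agent.RLT40.SpecDefs

/-!
# Module SPEC (paper 3.3): spectral theory of `-f'' + (k² - U) f = -e ω f` in `H¹₀(a,b)`, `U ∈ L¹(a,b)`.

Direct method, no operators.  Coercivity: by H10_sup_young, `∫ |U| f² ≤ ‖U‖₁ sup f² ≤ ½ ∫ f'² + C_* ∫ ω f²` (`ω ≥ e^{2a}` on the interval).
Suppose `φ_1..φ_m` found.  On `X_m = {f ∈ H10 : ∫ ω f φ_i = 0}` let `e = sup -q(pot k 0 U) f / ∫ ω f²`; if `e > 0`: maximising sequence with `∫ ω f_n² = 1`,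
`∫ f_n'²` bounded; by H10_holder and Arzela-Ascoli a subsequence is uniformly Cauchy; `Q(f) = q (pot k 0 U) f + e ∫ ω f² ≥ 0` on `X_m`,
`Q(f_n) → 0`, so `Q(f_n - f_p) ≤ 2 Q(f_n) + 2 Q(f_p) → 0` and `∫ (f_n' - f_p')² = Q(f_n-f_p) - (lower order, → 0 by uniform convergence)`: Cauchy in
`H10`; the limit is the maximiser `φ_{m+1}`; first variation gives the weak equation on `X_m`, hence on `H10` (test with `φ_i`: weak equation of `φ_i`).
The process stops because `nneg a b (pot k 0 U) < ⊤`: on the span of `φ_1..φ_m` the form is negative.  Simplicity: two weak solutions with the same `e`: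
the Wronskian `f g' - f' g` is constant (both derivatives are absolutely continuous), zero at `a`; so the `e_j` are strictly decreasing.
`cnt`: `≥` by the span of the `φ_j` with `e_j > τ`; `≤`: a negative space of larger dimension contains `f ≠ 0` in `X_m` (`m` = number of `e_j > τ`),
on which `q(pot k τ U) ≥ (τ - e_{m+1}) ∫ ω f² ≥ 0` (or `≥ τ ∫ωf²` if there is no `e_{m+1}`).
-/

open MeasureTheory Set
open scoped ENNReal NNReal

namespace Pool.Agent.RLT40

open SpB in
theorem exists_weakSpec {a b : ℝ} (hab : a < b) {U : ℝ → ℝ} (hU : IntegrableOn U (Ioo a b)) (k : ℝ) :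
    ∃ (m : ℕ) (e : ℕ → ℝ) (φ : ℕ → ℝ → ℝ), WeakSpec a b U k m e φ := by
  classical
  have hB : ∀ f g : H10 a b, BL (pot_int hU k 0) f g = BL (pot_int hU k 0) g f := fun f g =>
    Bf_comm _ _ _
  have hW : ∀ f g : H10 a b, WL a b f g = WL a b g f := fun f g => Wf_comm _ _
  have hWp : ∀ f : H10 a b, f ≠ 0 → 0 < WL a b f f := by
    intro f hf
    refine Wf_pos f.2 fun h => hf ?_
    exact Subtype.ext h
  have hne : ∀ f : H10 a b, f ≠ 0 → (f : ℝ → ℝ) ≠ 0 := fun f hf h => hf (Subtype.ext h)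
  have hq : ∀ (τ : ℝ) (f : H10 a b), q (pot k τ U) f = BL (pot_int hU k 0) f f + τ * WL a b f f := by
    intro τ f
    rw [q_eq_Bf, Bf_pot hU k τ f.2 f.2, BL_apply, WL_apply]
  -- transfer of subspaces
  have hmap : ∀ (τ : ℝ) (F : Submodule ℝ (H10 a b)), FiniteDimensional ℝ F →
      (∀ f ∈ F, f ≠ 0 → BL (pot_int hU k 0) f f + τ * WL a b f f < 0) →
      (Module.finrank ℝ F : ℕ∞) ≤ nneg a b (pot k τ U) := by
    intro τ F hF h
    have h1 : Module.finrank ℝ (F.map (H10 a b).subtype) = Module.finrank ℝ F :=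
      Submodule.finrank_map_subtype_eq _ _
    rw [← h1]
    refine le_nneg ?_ ?_ ?_
    · exact Submodule.map_subtype_le _ _
    · infer_instance
    · rintro f hf hf0
      obtain ⟨g, hg, rfl⟩ := Submodule.mem_map.1 hf
      rw [Submodule.subtype_apply, hq]
      refine h g hg ?_
      rintro rfl
      exact hf0 rfl
  have hNtop : nneg a b (pot k 0 U) < ⊤ := by
    rw [← pot_abs]
    exact nneg_pot_lt_top hU |k| 0 (abs_nonneg k) le_rfl
  obtain ⟨N, hN⟩ := ENat.ne_top_iff_exists.1 hNtop.ne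
  have hfin : ∀ F : Submodule ℝ (H10 a b), FiniteDimensional ℝ F →
      (∀ f ∈ F, f ≠ 0 → BL (pot_int hU k 0) f f < 0) → Module.finrank ℝ F ≤ N := by
    intro F hF h
    have h1 := hmap 0 F hF (fun f hf hf0 => by rw [zero_mul, add_zero]; exact h f hf hf0)
    rw [← hN] at h1
    exact_mod_cast h1
  have hsimple : ∀ (e : ℝ) (φ ψ : H10 a b), φ ≠ 0 → ψ ≠ 0 →
      (∀ f, BL (pot_int hU k 0) φ f + e * WL a b φ f = 0) →
      (∀ f, BL (pot_int hU k 0) ψ f + e * WL a b ψ f = 0) → WL a b φ ψ ≠ 0 := by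
    intro e φ ψ hφ hψ h1 h2
    refine simple hab (pot_int hU k e) φ.2 ψ.2 (hne φ hφ) (hne ψ hψ) ?_ ?_
    · intro f hf
      rw [Bf_pot hU k e φ.2 hf]
      exact h1 ⟨f, hf⟩
    · intro f hf
      rw [Bf_pot hU k e ψ.2 hf]
      exact h2 ⟨f, hf⟩
  obtain ⟨m, e, φ, h, hstop⟩ := exists_ASpec hB hW hWp (fun m φ hf => attain hab hU k m φ hf)
    hsimple hfin
  refine ⟨m, e, fun j => (φ j : ℝ → ℝ), ?_, ?_, ?_, ?_, ?_, ?_, ?_⟩
  · intro j _
    exact (φ j).2
  · intro j hj
    exact hne _ (h.ne j hj)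
  · exact h.pos
  · exact h.anti
  · intro j hj f hf
    have h1 := h.weak j hj ⟨f, hf⟩
    have h2 := Bf_pot hU k (e j) (φ j).2 hf
    unfold Bf at h2
    rw [h2]
    exact h1
  · intro i hi j hj hij
    exact h.orth i hi j hj hij
  · intro τ hτ
    apply le_antisymm
    · rw [nneg_le_iff]
      intro F hF1 hF2 hF3
      have h1 : Module.finrank ℝ (F.comap (H10 a b).subtype) = Module.finrank ℝ F :=
        (Submodule.comapSubtypeEquivOfLe hF1).finrank_eq
      have h2 : FiniteDimensional ℝ (F.comap (H10 a b).subtype) :=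
        Module.Finite.equiv (Submodule.comapSubtypeEquivOfLe hF1).symm
      rw [← h1]
      refine h.neg_bound hWp hstop hτ _ ?_
      intro f hf hf0
      rw [← hq]
      exact hF3 f hf (hne f hf0)
    · obtain ⟨F, hF1, hF2, hF3⟩ := h.neg_space hWp τ
      rw [← hF2]
      exact hmap τ F hF1 hF3

end Pool.Agent.RLT40
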