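import Pool.Agent.RLT40.OneD

/-!
# Module VARY (paper 3.3): first variation of `G` from below, and the Euler-Lagrange equation a.e.

`G = Σ k² Σ_j e_j^γ` for the finite spectrum (WeakSpec.cnt and `∫_0^e γ τ^{γ-1} = e^γ`).
`eig_lower`: on `span(φ_0..φ_j)` (ω-orthogonal, weak equations) `-q(pot k 0 (U+εη)) f = Σ e_i c_i² n_i + ε ∫ η f²`; with `g = e_{j-1} - e_j > 0` the minimum over
the ω-unit sphere is `≥ e_j + ε ∫ηφ_j²/∫ωφ_j² - C ε²`, so `N_k(τ; U+εη) ≥ j+1` for `τ <` this number.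
`el_ae`: `G(U+εη) ≤ C J(U+εη)`, `J(U + εη) = J(U) + ε (2+γ) ∫ U^{1+γ} η w + o(ε)`; `η ≥ 0` bounded, or `η = -U h` with `0 ≤ h ≤ 1`;
hence a.e. `γ Σ α_i φ_i² ≤ C (2+γ) U^{1+γ} w` with equality on `{U > 0}`, and `U > 0` a.e. (on `{U=0}` the left side would be `≤ 0`, but a ground state
`φ` is nonzero a.e.: a weak solution vanishing on a set of positive measure has a point with `f = f' = 0`.)
Channels are enumerated by `Fin n`; only finitely many have bound states (`nneg a b (pot k 0 U) = 0` for `k` large since `Ntot < ⊤`).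
-/

open MeasureTheory Set
open scoped ENNReal NNReal

namespace Pool.Agent.RLT40

/-- `∫_0^e γ τ^{γ-1} dτ = e^γ` as a lower integral -/
theorem lint_pow {γ e : ℝ} (hγ : 0 < γ) (he : 0 < e) :
    ∫⁻ τ in Ioi (0 : ℝ), ENNReal.ofReal (γ * τ ^ (γ - 1)) * (if τ < e then 1 else 0) = ENNReal.ofReal (e ^ γ) := by
  have h1 : ∀ τ : ℝ, ENNReal.ofReal (γ * τ ^ (γ - 1)) * (if τ < e then 1 else 0) =
      (Iio e).indicator (fun τ => ENNReal.ofReal (γ * τ ^ (γ - 1))) τ := by
    intro τ
    by_cases h : τ < e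
    · rw [if_pos h, indicator_of_mem (mem_Iio.2 h), mul_one]
    · rw [if_neg h, indicator_of_notMem (by simpa using h), mul_zero]
  simp_rw [h1]
  rw [lintegral_indicator measurableSet_Iio, Measure.restrict_restrict measurableSet_Iio]
  have hs : Iio e ∩ Ioi (0 : ℝ) = Ioo 0 e := by
    ext x
    simp only [mem_inter_iff, mem_Iio, mem_Ioi, mem_Ioo]
    tauto
  rw [hs, restrict_Ioo_eq_restrict_Ioc]
  have hint : IntervalIntegrable (fun τ : ℝ => γ * τ ^ (γ - 1)) volume 0 e :=
    (intervalIntegral.intervalIntegrable_rpow' (by linarith)).const_mul γ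
  rw [← ofReal_integral_eq_lintegral_ofReal]
  · congr 1
    rw [← intervalIntegral.integral_of_le he.le, intervalIntegral.integral_const_mul, integral_rpow (Or.inl (by linarith))]
    rw [Real.zero_rpow (by linarith)]
    have : γ - 1 + 1 = γ := by ring
    rw [this]
    field_simp
    ring
  · exact (intervalIntegrable_iff_integrableOn_Ioc_of_le he.le).1 hint
  · filter_upwards [ae_restrict_mem measurableSet_Ioc] with τ hτ
    exact mul_nonneg hγ.le (Real.rpow_nonneg hτ.1.le _)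

theorem card_filter_sum {n : ℕ} {k : Fin n → ℕ} {e : Fin n → ℝ} (κ : ℕ) (τ : ℝ) :
    (((((Finset.univ.filter fun i => k i = κ ∧ τ < e i).card : ℕ∞)) : ℝ≥0∞)) =
      ∑ i : Fin n, (if k i = κ ∧ τ < e i then 1 else 0 : ℝ≥0∞) := by
  rw [Finset.sum_ite, Finset.sum_const_zero, add_zero, Finset.sum_const, nsmul_eq_mul, mul_one]
  rfl

/-- `G` from the spectrum -/
theorem G_eq_sum {γ a b : ℝ} (hγ : 0 < γ) {U : ℝ → ℝ} {n : ℕ} {k : Fin n → ℕ} {e : Fin n → ℝ} (hk : ∀ i, 1 ≤ k i) (he : ∀ i, 0 < e i)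
    (cnt : ∀ κ : ℕ, 1 ≤ κ → ∀ τ : ℝ, 0 ≤ τ →
      nneg a b (pot κ τ U) = ((Finset.univ.filter fun i => k i = κ ∧ τ < e i).card : ℕ∞)) :
    Gf γ a b U = ENNReal.ofReal (∑ i, (k i : ℝ) ^ 2 * e i ^ γ) := by
  have hN : ∀ τ : ℝ, 0 ≤ τ → Ntot a b U τ = ∑ i, (k i : ℝ≥0∞) ^ 2 * (if τ < e i then 1 else 0) := by
    intro τ hτ
    unfold Ntot
    have h1 : ∀ κ : ℕ, ((κ : ℝ≥0∞) + 1) ^ 2 * ((nneg a b (pot (κ + 1) τ U) : ℕ∞) : ℝ≥0∞) =
        ∑ i : Fin n, (if κ = k i - 1 then (k i : ℝ≥0∞) ^ 2 * (if τ < e i then 1 else 0) else 0) := by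
      intro κ
      have h2 := cnt (κ + 1) (by omega) τ hτ
      push_cast at h2
      rw [h2, card_filter_sum, Finset.mul_sum]
      refine Finset.sum_congr rfl fun i _ => ?_
      have hi := hk i
      by_cases h : k i = κ + 1
      · have h3 : κ = k i - 1 := by omega
        rw [if_pos h3]
        have h4 : ((k i : ℕ) : ℝ≥0∞) = (κ : ℝ≥0∞) + 1 := by rw [h]; push_cast; rfl
        rw [h4]
        by_cases h5 : τ < e i
        · simp [h, h5]
        · simp [h5]
      · have h3 : ¬ (κ = k i - 1) := by omega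
        rw [if_neg h3, if_neg (fun h6 => h h6.1), mul_zero]
    simp_rw [h1]
    rw [Summable.tsum_finsetSum (fun _ _ => ENNReal.summable)]
    refine Finset.sum_congr rfl fun i _ => ?_
    rw [tsum_ite_eq]
  unfold Gf
  rw [setLIntegral_congr_fun measurableSet_Ioi (g := fun τ => ∑ i, (k i : ℝ≥0∞) ^ 2 *
    (ENNReal.ofReal (γ * τ ^ (γ - 1)) * (if τ < e i then 1 else 0)))]
  · rw [lintegral_finsetSum']
    · rw [ENNReal.ofReal_sum_of_nonneg]
      · refine Finset.sum_congr rfl fun i _ => ?_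
        rw [lintegral_const_mul' _ _ (by simp), lint_pow hγ (he i), ENNReal.ofReal_mul (by positivity)]
        congr 1
        rw [ENNReal.ofReal_pow (by positivity), ENNReal.ofReal_natCast]
      · intro i _
        exact mul_nonneg (by positivity) (Real.rpow_nonneg (he i).le _)
    · intro i _
      refine AEMeasurable.const_mul ?_ _
      refine AEMeasurable.mul ?_ ?_
      · exact (ENNReal.measurable_ofReal.comp (measurable_const.mul (measurable_id.pow_const _))).aemeasurable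
      · exact (Measurable.ite measurableSet_Iio measurable_const measurable_const).aemeasurable
  · intro τ hτ
    simp only
    rw [hN τ (le_of_lt hτ), Finset.mul_sum]
    refine Finset.sum_congr rfl fun i _ => ?_
    ring

end Pool.Agent.RLT40
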