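import Pool.Agent.RLT40.SpaceC
import Pool.Agent.RLT40.SpecDefs

/-!
# Module VARY: auxiliary file for VaryB, the quadratic form on the span of eigenfunctions
-/

open MeasureTheory Set
open scoped ENNReal NNReal

namespace Pool.Agent.RLT40

namespace VaryX

lemma om_pos (x : ℝ) : 0 < om x := Real.exp_pos _

lemma om_cont : Continuous om := by unfold om; fun_prop

lemma int_om {a b : ℝ} : IntegrableOn om (Ioo a b) :=
  (om_cont.integrableOn_Icc).mono_set Ioo_subset_Icc_self

/-- products of members are integrable against `L¹` weights -/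
lemma int_mul {a b : ℝ} {w f g : ℝ → ℝ} (hw : IntegrableOn w (Ioo a b)) (hf : f ∈ H10 a b)
    (hg : g ∈ H10 a b) : Integrable (fun x => w x * (f x * g x)) := by
  have h1 := (q_integrable hw ((H10 a b).add_mem hf hg)).1
  have h2 := (q_integrable hw ((H10 a b).sub_mem hf hg)).1
  have h3 := (h1.sub h2).const_mul (1 / 4)
  refine h3.congr (ae_of_all _ fun x => ?_)
  simp only [Pi.sub_apply, Pi.add_apply]
  ring

lemma int_deriv {a b : ℝ} {f g : ℝ → ℝ} (hf : f ∈ H10 a b) (hg : g ∈ H10 a b) :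
    Integrable (fun x => deriv f x * deriv g x) :=
  (H10_deriv_memLp hf).integrable_mul (H10_deriv_memLp hg)

/-- the span map -/
noncomputable def T {n : ℕ} (φ : Fin n → ℝ → ℝ) : (Fin n → ℝ) →ₗ[ℝ] (ℝ → ℝ) where
  toFun c := ∑ i, c i • φ i
  map_add' c d := by
    simp only [Pi.add_apply, add_smul, Finset.sum_add_distrib]
  map_smul' r c := by
    simp only [Pi.smul_apply, smul_eq_mul, RingHom.id_apply, Finset.smul_sum, mul_smul]

lemma T_apply {n : ℕ} (φ : Fin n → ℝ → ℝ) (c : Fin n → ℝ) (x : ℝ) :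
    T φ c x = ∑ i, c i * φ i x := by
  simp [T, Finset.sum_apply]

lemma T_mem {a b : ℝ} {n : ℕ} {φ : Fin n → ℝ → ℝ} (hφ : ∀ i, φ i ∈ H10 a b) (c : Fin n → ℝ) :
    T φ c ∈ H10 a b := by
  show (∑ i, c i • φ i) ∈ H10 a b
  exact Submodule.sum_mem _ fun i _ => Submodule.smul_mem _ _ (hφ i)

lemma T_deriv {a b : ℝ} {n : ℕ} {φ : Fin n → ℝ → ℝ} (hφ : ∀ i, φ i ∈ H10 a b) (c : Fin n → ℝ) :
    ∀ᵐ x, deriv (T φ c) x = ∑ i, c i * deriv (φ i) x := by
  have h : ∀ᵐ x, ∀ i, HasDerivAt (φ i) (deriv (φ i) x) x :=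
    ae_all_iff.2 fun i => H10_ae_deriv (hφ i)
  filter_upwards [h] with x hx
  have h1 : HasDerivAt (fun y => ∑ i, c i * φ i y) (∑ i, c i * deriv (φ i) x) x :=
    HasDerivAt.fun_sum fun i _ => (hx i).const_mul (c i)
  have h2 : (fun y => ∑ i, c i * φ i y) = T φ c := by
    funext y
    rw [T_apply]
  rw [h2] at h1
  exact h1.deriv

/-- the form on the span of weak eigenfunctions -/
lemma q_span {a b k τ ε : ℝ} {U η : ℝ → ℝ} {n : ℕ} {e : Fin n → ℝ} {φ : Fin n → ℝ → ℝ}
    (hU : IntegrableOn U (Ioo a b)) (hη : IntegrableOn η (Ioo a b)) (hφ : ∀ i, φ i ∈ H10 a b)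
    (hw : ∀ i, ∀ f ∈ H10 a b,
      (∫ x, (deriv (φ i) x * deriv f x + pot k (e i) U x * (φ i x * f x))) = 0)
    (ho : ∀ i j, i ≠ j → ∫ x, om x * (φ i x * φ j x) = 0) (c : Fin n → ℝ) :
    q (pot k τ (fun x => U x + ε * η x)) (T φ c) =
      (∑ i, (τ - e i) * (c i ^ 2 * ∫ x, om x * (φ i x * φ i x))) -
        ε * ∫ x, η x * (T φ c x * T φ c x) := by
  have hf := T_mem hφ c
  have hpot : ∀ t, IntegrableOn (pot k t U) (Ioo a b) := by
    intro t
    have h0 : IntegrableOn (fun _ : ℝ => k ^ 2) (Ioo a b) :=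
      integrableOn_const (by simp) (by simp)
    exact (h0.sub hU).add (int_om.const_mul t)
  have h1 : ∀ᵐ x, deriv (T φ c) x ^ 2 + pot k τ (fun x => U x + ε * η x) x * T φ c x ^ 2 =
      (∑ i, c i * (deriv (φ i) x * deriv (T φ c) x + pot k (e i) U x * (φ i x * T φ c x))) +
      (∑ i, (τ - e i) * (c i * (om x * (φ i x * T φ c x)))) - ε * (η x * (T φ c x * T φ c x)) := by
    filter_upwards [T_deriv hφ c] with x hx
    have e1 : (∑ i, c i * (deriv (φ i) x * deriv (T φ c) x + pot k (e i) U x * (φ i x * T φ c x))) +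
      (∑ i, (τ - e i) * (c i * (om x * (φ i x * T φ c x)))) =
      (∑ i, c i * deriv (φ i) x) * deriv (T φ c) x + pot k τ U x * (∑ i, c i * φ i x) * T φ c x := by
      rw [Finset.sum_mul, Finset.mul_sum, Finset.sum_mul, ← Finset.sum_add_distrib,
        ← Finset.sum_add_distrib]
      refine Finset.sum_congr rfl fun i _ => ?_
      unfold pot
      ring
    rw [e1, ← hx, ← T_apply]
    unfold pot
    ring
  have i1 : ∀ i, Integrable (fun x => c i * (deriv (φ i) x * deriv (T φ c) x +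
      pot k (e i) U x * (φ i x * T φ c x))) := fun i =>
    ((int_deriv (hφ i) hf).add (int_mul (hpot _) (hφ i) hf)).const_mul _
  have i2 : ∀ i, Integrable (fun x => (τ - e i) * (c i * (om x * (φ i x * T φ c x)))) := fun i =>
    ((int_mul int_om (hφ i) hf).const_mul _).const_mul _
  have i3 : Integrable (fun x => ε * (η x * (T φ c x * T φ c x))) := (int_mul hη hf hf).const_mul _
  unfold q
  rw [integral_congr_ae h1, integral_sub _ i3, integral_add, integral_finsetSum, integral_finsetSum]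
  · congr 1
    · have z1 : ∑ i, ∫ x, c i * (deriv (φ i) x * deriv (T φ c) x +
          pot k (e i) U x * (φ i x * T φ c x)) = 0 := by
        refine Finset.sum_eq_zero fun i _ => ?_
        rw [integral_const_mul, hw i _ hf, mul_zero]
      rw [z1, zero_add]
      refine Finset.sum_congr rfl fun i _ => ?_
      rw [integral_const_mul, integral_const_mul]
      have z2 : ∫ x, om x * (φ i x * T φ c x) = c i * ∫ x, om x * (φ i x * φ i x) := by
        have e2 : ∀ x, om x * (φ i x * T φ c x) = ∑ j, c j * (om x * (φ i x * φ j x)) := by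
          intro x
          rw [T_apply, Finset.mul_sum, Finset.mul_sum]
          exact Finset.sum_congr rfl fun j _ => by ring
        simp only [e2]
        rw [integral_finsetSum]
        · rw [Finset.sum_eq_single i]
          · rw [integral_const_mul]
          · intro j _ hji
            rw [integral_const_mul, ho i j (Ne.symm hji), mul_zero]
          · simp
        · intro j _
          exact (int_mul int_om (hφ i) (hφ j)).const_mul _
      rw [z2]
      ring
    · rw [integral_const_mul]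
  · exact fun i _ => i2 i
  · exact fun i _ => i1 i
  · exact integrable_finsetSum _ fun i _ => i1 i
  · exact integrable_finsetSum _ fun i _ => i2 i
  · exact (integrable_finsetSum _ fun i _ => i1 i).add (integrable_finsetSum _ fun i _ => i2 i)

lemma om_span {a b : ℝ} {n : ℕ} {φ : Fin n → ℝ → ℝ} (hφ : ∀ i, φ i ∈ H10 a b)
    (ho : ∀ i j, i ≠ j → ∫ x, om x * (φ i x * φ j x) = 0) (c : Fin n → ℝ) :
    ∫ x, om x * (T φ c x * T φ c x) = ∑ i, c i ^ 2 * ∫ x, om x * (φ i x * φ i x) := by
  have e1 : ∀ x, om x * (T φ c x * T φ c x) =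
      ∑ i, ∑ j, (c i * c j) * (om x * (φ i x * φ j x)) := by
    intro x
    rw [T_apply, Finset.sum_mul_sum, Finset.mul_sum]
    refine Finset.sum_congr rfl fun i _ => ?_
    rw [Finset.mul_sum]
    exact Finset.sum_congr rfl fun j _ => by ring
  have i1 : ∀ i j, Integrable (fun x => (c i * c j) * (om x * (φ i x * φ j x))) := fun i j =>
    (int_mul int_om (hφ i) (hφ j)).const_mul _
  simp only [e1]
  rw [integral_finsetSum _ fun i _ => integrable_finsetSum _ fun j _ => i1 i j]
  refine Finset.sum_congr rfl fun i _ => ?_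
  rw [integral_finsetSum _ fun j _ => i1 i j, Finset.sum_eq_single i]
  · rw [integral_const_mul]
    ring
  · intro j _ hji
    rw [integral_const_mul, ho i j (Ne.symm hji), mul_zero]
  · simp

lemma n_pos {a b : ℝ} {f : ℝ → ℝ} (hf : f ∈ H10 a b) (hne : f ≠ 0) :
    0 < ∫ x, om x * (f x * f x) := by
  obtain ⟨x, hx⟩ := Function.ne_iff.1 hne
  refine Continuous.integral_pos_of_hasCompactSupport_nonneg_nonzero (x := x) ?_ ?_ ?_ ?_
  · exact om_cont.mul ((H10_continuous hf).mul (H10_continuous hf))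
  · refine HasCompactSupport.intro (K := Icc a b) isCompact_Icc fun y hy => ?_
    have : f y = 0 := H10_zero hf fun h => hy (Ioo_subset_Icc_self h)
    rw [this, mul_zero, mul_zero]
  · intro y
    exact mul_nonneg (om_pos y).le (mul_self_nonneg _)
  · exact mul_ne_zero (om_pos x).ne' (mul_ne_zero hx hx)

/-- bound of the perturbation by the weight -/
lemma eta_le {a b B : ℝ} {η : ℝ → ℝ} (hB : ∀ x, |η x| ≤ B) :
    ∃ M > 0, ∀ x ∈ Ioo a b, |η x| ≤ M * om x := by
  have hB0 : 0 ≤ B := (abs_nonneg _).trans (hB 0)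
  refine ⟨(B + 1) * Real.exp (-(2 * a)), by positivity, fun x hx => ?_⟩
  have h1 : 1 ≤ Real.exp (-(2 * a)) * om x := by
    unfold om
    rw [← Real.exp_add]
    exact Real.one_le_exp (by linarith [hx.1])
  calc |η x| ≤ B := hB x
    _ ≤ (B + 1) * 1 := by linarith
    _ ≤ (B + 1) * (Real.exp (-(2 * a)) * om x) := by
        exact mul_le_mul_of_nonneg_left h1 (by linarith)
    _ = _ := by ring

lemma eta_int {a b B : ℝ} {η : ℝ → ℝ} (hm : AEStronglyMeasurable η (volume.restrict (Ioo a b)))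
    (hB : ∀ x, |η x| ≤ B) : IntegrableOn η (Ioo a b) := by
  refine Integrable.mono' (g := fun _ => B) (integrableOn_const (by simp) (by simp)) hm
    (ae_of_all _ fun x => ?_)
  rw [Real.norm_eq_abs]
  exact hB x

lemma bd1 {a b M : ℝ} {η f : ℝ → ℝ} (hη : IntegrableOn η (Ioo a b))
    (hM : ∀ x ∈ Ioo a b, |η x| ≤ M * om x) (hf : f ∈ H10 a b) :
    |∫ x, η x * (f x * f x)| ≤ M * ∫ x, om x * (f x * f x) := by
  rw [← integral_const_mul, ← Real.norm_eq_abs]
  refine norm_integral_le_of_norm_le ((int_mul int_om hf hf).const_mul _) (ae_of_all _ fun x => ?_)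
  by_cases hx : x ∈ Ioo a b
  · rw [Real.norm_eq_abs, abs_mul, abs_mul_self]
    have := mul_le_mul_of_nonneg_right (hM x hx) (mul_self_nonneg (f x))
    linarith
  · rw [H10_zero hf hx]
    simp

lemma bd2 {a b M s : ℝ} {η f g : ℝ → ℝ} (hs : 0 < s) (hη : IntegrableOn η (Ioo a b))
    (hM : ∀ x ∈ Ioo a b, |η x| ≤ M * om x) (hf : f ∈ H10 a b) (hg : g ∈ H10 a b) :
    -(M * (s * (∫ x, om x * (f x * f x)) + s⁻¹ * ∫ x, om x * (g x * g x))) ≤
      2 * ∫ x, η x * (f x * g x) := by
  have h1 := (((int_mul int_om hf hf).const_mul s).add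
    ((int_mul int_om hg hg).const_mul s⁻¹)).const_mul M
  have h2 : 2 * ∫ x, η x * (f x * g x) = ∫ x, 2 * (η x * (f x * g x)) := by
    rw [integral_const_mul]
  have h3 : -(M * (s * (∫ x, om x * (f x * f x)) + s⁻¹ * ∫ x, om x * (g x * g x))) =
      ∫ x, -(M * (s * (om x * (f x * f x)) + s⁻¹ * (om x * (g x * g x)))) := by
    rw [integral_neg, integral_const_mul, integral_add ((int_mul int_om hf hf).const_mul s)
      ((int_mul int_om hg hg).const_mul s⁻¹), integral_const_mul, integral_const_mul]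
  rw [h2, h3]
  refine integral_mono h1.neg ((int_mul hη hf hg).const_mul 2) fun x => ?_
  show -(M * (s * (om x * (f x * f x)) + s⁻¹ * (om x * (g x * g x)))) ≤ 2 * (η x * (f x * g x))
  by_cases hx : x ∈ Ioo a b
  · have h4 : 2 * |f x * g x| ≤ s * (f x * f x) + s⁻¹ * (g x * g x) := by
      have h5 := sq_nonneg (Real.sqrt s * |f x| - (Real.sqrt s)⁻¹ * |g x|)
      have h6 : Real.sqrt s * (Real.sqrt s)⁻¹ = 1 := mul_inv_cancel₀ (Real.sqrt_pos.2 hs).ne'
      have h7 : Real.sqrt s ^ 2 = s := Real.sq_sqrt hs.le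
      have h8 : (Real.sqrt s)⁻¹ ^ 2 = s⁻¹ := by rw [inv_pow, h7]
      rw [abs_mul]
      have h9 : |f x| ^ 2 = f x * f x := by rw [sq_abs, sq]
      have h10 : |g x| ^ 2 = g x * g x := by rw [sq_abs, sq]
      have h11 : (Real.sqrt s * |f x| - (Real.sqrt s)⁻¹ * |g x|) ^ 2 =
          Real.sqrt s ^ 2 * |f x| ^ 2 + (Real.sqrt s)⁻¹ ^ 2 * |g x| ^ 2 -
            2 * (Real.sqrt s * (Real.sqrt s)⁻¹) * (|f x| * |g x|) := by ring
      rw [h11, h6, h7, h8, h9, h10] at h5
      linarith
    have h5 : |2 * (η x * (f x * g x))| ≤ (M * om x) * (2 * |f x * g x|) := by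
      rw [abs_mul, abs_mul, abs_two]
      have := mul_le_mul_of_nonneg_right (hM x hx) (abs_nonneg (f x * g x))
      linarith
    have h6 : 0 ≤ M * om x := (abs_nonneg _).trans (hM x hx)
    have h7 := mul_le_mul_of_nonneg_left h4 h6
    have h8 := (abs_le.1 (h5.trans h7)).1
    linarith
  · rw [H10_zero hf hx, H10_zero hg hx]
    simp

/-- a lower bound for the gap below an eigenvalue -/
lemma exists_gap {e : ℕ → ℝ} {m : ℕ} (he : ∀ i j, i < j → j < m → e j < e i) {j : ℕ} (hj : j < m) :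
    ∃ g > 0, ∀ i < j, g ≤ e i - e j := by
  rcases j with _ | j
  · exact ⟨1, one_pos, fun i hi => absurd hi (Nat.not_lt_zero _)⟩
  · refine ⟨e j - e (j + 1), by linarith [he j (j + 1) (Nat.lt_succ_self _) hj], fun i hi => ?_⟩
    rcases Nat.lt_succ_iff_lt_or_eq.1 hi with h | h
    · linarith [he i j h (by omega)]
    · rw [h]

/-- first order perturbation of an eigenvalue, from below -/
lemma nneg_ge {a b k B : ℝ} {U η : ℝ → ℝ} (hU : IntegrableOn U (Ioo a b))
    (hm : AEStronglyMeasurable η (volume.restrict (Ioo a b))) (hB : ∀ x, |η x| ≤ B)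
    {m : ℕ} {e : ℕ → ℝ} {φ : ℕ → ℝ → ℝ} (S : WeakSpec a b U k m e φ) {j : ℕ} (hj : j < m)
    {δ : ℝ} (hδ : 0 < δ) : ∃ ε₀ > 0, ∀ ε, 0 < ε → ε < ε₀ → ∀ τ,
      τ ≤ e j + ε * ((∫ x, η x * (φ j x * φ j x)) / (∫ x, om x * (φ j x * φ j x)) - δ) →
      ((j + 1 : ℕ) : ℕ∞) ≤ nneg a b (pot k τ (fun x => U x + ε * η x)) := by
  have hη : IntegrableOn η (Ioo a b) := eta_int hm hB
  obtain ⟨M, hM0, hM⟩ := eta_le (a := a) (b := b) hB
  obtain ⟨g, hg, hgap⟩ := exists_gap S.anti hj
  set nn : ℕ → ℝ := fun i => ∫ x, om x * (φ i x * φ i x) with hnn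
  set h : ℝ := (∫ x, η x * (φ j x * φ j x)) / nn j with hh
  have hn : ∀ i < m, 0 < nn i := fun i hi => n_pos (S.mem i hi) (S.ne i hi)
  have hh1 : ∫ x, η x * (φ j x * φ j x) = h * nn j := by
    rw [hh, div_mul_cancel₀ _ (hn j hj).ne']
  have hh2 : h ≤ M := by
    have := bd1 hη hM (S.mem j hj)
    rw [hh1, abs_le] at this
    exact le_of_mul_le_mul_right this.2 (hn j hj)
  have hM2 : 0 < 2 * M + 2 * M ^ 2 / δ := by positivity
  refine ⟨g / (2 * M + 2 * M ^ 2 / δ), div_pos hg hM2, fun ε hε hε0 τ hτ => ?_⟩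
  have hε1 : ε * (2 * M + 2 * M ^ 2 / δ) < g := (lt_div_iff₀ hM2).1 hε0
  -- the family
  set φ' : Fin (j + 1) → ℝ → ℝ := fun i => φ i with hφ'
  have hlt : ∀ i : Fin (j + 1), (i : ℕ) < m := fun i => by omega
  have hmem : ∀ i, φ' i ∈ H10 a b := fun i => S.mem _ (hlt i)
  have horth : ∀ i l : Fin (j + 1), i ≠ l → ∫ x, om x * (φ' i x * φ' l x) = 0 := fun i l hil =>
    S.orth _ (hlt i) _ (hlt l) fun h => hil (Fin.ext h)
  have hneg : ∀ c : Fin (j + 1) → ℝ, c ≠ 0 →
      q (pot k τ (fun x => U x + ε * η x)) (T φ' c) < 0 := by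
    intro c hc
    rw [q_span (e := fun i => e i) hU hη hmem (fun i => S.weak _ (hlt i)) horth c]
    -- decomposition
    set u : ℝ → ℝ := T (fun i : Fin j => φ' i.castSucc) (fun i => c i.castSucc) with hu
    set t : ℝ := c (Fin.last j) with ht
    have humem : u ∈ H10 a b := T_mem (fun i => hmem _) _
    have hfu : ∀ x, T φ' c x = u x + t * φ j x := by
      intro x
      rw [T_apply, Fin.sum_univ_castSucc, hu, T_apply]
      simp [hφ', ht]
    have hS : ∫ x, om x * (u x * u x) = ∑ i : Fin j, c i.castSucc ^ 2 * nn i := by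
      rw [hu, om_span (fun i => hmem _) (fun i l hil => horth _ _ fun h => hil (by
        simpa using h))]
      rfl
    set S' : ℝ := ∫ x, om x * (u x * u x) with hS'
    have hηf : ∫ x, η x * (T φ' c x * T φ' c x) = (∫ x, η x * (u x * u x)) +
        (t * (2 * ∫ x, η x * (u x * φ j x)) + t ^ 2 * ∫ x, η x * (φ j x * φ j x)) := by
      have e1 : ∀ x, η x * (T φ' c x * T φ' c x) = η x * (u x * u x) +
          (t * (2 * (η x * (u x * φ j x))) + t ^ 2 * (η x * (φ j x * φ j x))) := by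
        intro x
        rw [hfu]
        ring
      simp only [e1]
      have j1 := int_mul hη humem humem
      have j2 := ((int_mul hη humem (S.mem j hj)).const_mul 2).const_mul t
      have j3 := (int_mul hη (S.mem j hj) (S.mem j hj)).const_mul (t ^ 2)
      have j23 : Integrable (fun x => t * (2 * (η x * (u x * φ j x))) +
          t ^ 2 * (η x * (φ j x * φ j x))) := j2.add j3
      rw [integral_add j1 j23, integral_add j2 j3, integral_const_mul, integral_const_mul,
        integral_const_mul]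
    have b1 := (abs_le.1 (bd1 hη hM humem)).1
    have b2 : -(M * ((δ / (2 * M)) * (t ^ 2 * nn j) + (δ / (2 * M))⁻¹ * S')) ≤
        t * (2 * ∫ x, η x * (u x * φ j x)) := by
      have hs : 0 < δ / (2 * M) := by positivity
      have h1 := bd2 hs hη hM ((H10 a b).smul_mem t (S.mem j hj)) humem
      have e1 : ∫ x, om x * ((t • φ j) x * (t • φ j) x) = t ^ 2 * nn j := by
        rw [hnn, ← integral_const_mul]
        refine integral_congr_ae (ae_of_all _ fun x => ?_)
        simp only [Pi.smul_apply, smul_eq_mul]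
        ring
      have e2 : ∫ x, η x * ((t • φ j) x * u x) = t * ∫ x, η x * (u x * φ j x) := by
        rw [← integral_const_mul]
        refine integral_congr_ae (ae_of_all _ fun x => ?_)
        simp only [Pi.smul_apply, smul_eq_mul]
        ring
      rw [e1, e2] at h1
      linarith
    have e3 : M * ((δ / (2 * M)) * (t ^ 2 * nn j) + (δ / (2 * M))⁻¹ * S') =
        δ / 2 * (t ^ 2 * nn j) + 2 * M ^ 2 / δ * S' := by
      field_simp
    rw [e3] at b2
    -- the sum
    have hsum : ∑ i : Fin (j + 1), (τ - e i) * (c i ^ 2 * ∫ x, om x * (φ' i x * φ' i x)) ≤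
        (-g + ε * M) * S' + ε * (h - δ) * (t ^ 2 * nn j) := by
      rw [Fin.sum_univ_castSucc, hS, Finset.mul_sum]
      refine add_le_add (Finset.sum_le_sum fun i _ => ?_) ?_
      · have h1 : 0 ≤ c i.castSucc ^ 2 * nn i := mul_nonneg (sq_nonneg _) (hn i (by omega)).le
        have h2 : τ - e i ≤ -g + ε * M := by
          have h3 := hgap i i.2
          have h4 : ε * (h - δ) ≤ ε * M := mul_le_mul_of_nonneg_left (by linarith) hε.le
          linarith
        exact mul_le_mul_of_nonneg_right h2 h1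
      · have h1 : 0 ≤ t ^ 2 * nn j := mul_nonneg (sq_nonneg _) (hn j hj).le
        have h2 : τ - e j ≤ ε * (h - δ) := by linarith
        exact mul_le_mul_of_nonneg_right h2 h1
    have hT0 : 0 ≤ t ^ 2 * nn j := mul_nonneg (sq_nonneg _) (hn j hj).le
    have hS0 : 0 ≤ S' := by
      rw [hS]
      exact Finset.sum_nonneg fun i _ => mul_nonneg (sq_nonneg _) (hn i (by omega)).le
    have hpos : 0 < S' ∨ 0 < t ^ 2 * nn j := by
      by_cases ht0 : t = 0
      · left
        obtain ⟨i, hi⟩ := Function.ne_iff.1 hc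
        rw [hS]
        have hil : i ≠ Fin.last j := by
          rintro rfl
          exact hi ht0
        obtain ⟨i', rfl⟩ := Fin.exists_castSucc_eq.2 hil
        refine Finset.sum_pos' (fun i _ => mul_nonneg (sq_nonneg _) (hn i (by omega)).le)
          ⟨i', Finset.mem_univ _, mul_pos ?_ (hn i' (by omega))⟩
        exact lt_of_le_of_ne (sq_nonneg _) (Ne.symm (pow_ne_zero 2 hi))
      · right
        exact mul_pos (lt_of_le_of_ne (sq_nonneg _) (Ne.symm (pow_ne_zero 2 ht0))) (hn j hj)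
    rw [hηf, hh1]
    have key : (∑ i : Fin (j + 1), (τ - e i) * (c i ^ 2 * ∫ x, om x * (φ' i x * φ' i x))) -
        ε * ((∫ x, η x * (u x * u x)) + (t * (2 * ∫ x, η x * (u x * φ j x)) + t ^ 2 * (h * nn j))) ≤
        -((g - ε * (2 * M + 2 * M ^ 2 / δ)) * S' + ε * (δ / 2) * (t ^ 2 * nn j)) := by
      have h1 : -(M * S') + (-(δ / 2 * (t ^ 2 * nn j) + 2 * M ^ 2 / δ * S') + t ^ 2 * (h * nn j)) ≤
          (∫ x, η x * (u x * u x)) + (t * (2 * ∫ x, η x * (u x * φ j x)) + t ^ 2 * (h * nn j)) := by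
        linarith
      have h2 := mul_le_mul_of_nonneg_left h1 hε.le
      have h3 : (-g + ε * M) * S' + ε * (h - δ) * (t ^ 2 * nn j) -
          ε * (-(M * S') + (-(δ / 2 * (t ^ 2 * nn j) + 2 * M ^ 2 / δ * S') + t ^ 2 * (h * nn j))) =
          -((g - ε * (2 * M + 2 * M ^ 2 / δ)) * S' + ε * (δ / 2) * (t ^ 2 * nn j)) := by ring
      linarith
    refine lt_of_le_of_lt key ?_
    rw [neg_lt_zero]
    rcases hpos with h1 | h1
    · have h2 : 0 < (g - ε * (2 * M + 2 * M ^ 2 / δ)) * S' := mul_pos (by linarith) h1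
      have h3 : 0 ≤ ε * (δ / 2) * (t ^ 2 * nn j) := by positivity
      linarith
    · have h2 : 0 ≤ (g - ε * (2 * M + 2 * M ^ 2 / δ)) * S' := mul_nonneg (by linarith) hS0
      have h3 : 0 < ε * (δ / 2) * (t ^ 2 * nn j) := by positivity
      linarith
  have hinj : Function.Injective (T φ') := by
    rw [← LinearMap.ker_eq_bot, LinearMap.ker_eq_bot']
    intro c hc
    by_contra hne
    have := hneg c hne
    rw [hc] at this
    unfold q at this
    simp at this
  have hfin : Module.finrank ℝ (LinearMap.range (T φ')) = j + 1 := by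
    rw [LinearMap.finrank_range_of_inj hinj]
    simp
  rw [← hfin]
  refine le_nneg ?_ inferInstance ?_
  · rintro f ⟨c, rfl⟩
    exact T_mem hmem c
  · rintro f ⟨c, rfl⟩ hne
    refine hneg c ?_
    rintro rfl
    exact hne (map_zero _)

end VaryX

end Pool.Agent.RLT40
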