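import Pool.Agent.RLT40.OneD

/-!
# Module VARY: auxiliary file for VaryB, variational inequality
-/

open MeasureTheory Set Filter Topology
open scoped ENNReal NNReal

namespace Pool.Agent.RLT40

namespace VaryX

/-- the real version of `J` -/
noncomputable def Jr (γ a b : ℝ) (U : ℝ → ℝ) : ℝ :=
  ∫ x in Ioo a b, U x ^ (2 + γ) * Real.exp (-(2 * γ * x))

lemma exp_le {γ a b : ℝ} (hγ : 0 < γ) {x : ℝ} (hx : x ∈ Ioo a b) :
    Real.exp (-(2 * γ * x)) ≤ Real.exp (-(2 * γ * a)) := by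
  apply Real.exp_le_exp.2
  have := mul_le_mul_of_nonneg_left hx.1.le (by positivity : 0 ≤ 2 * γ)
  linarith

lemma int_pow_top {γ a b : ℝ} (hγ : 0 < γ) {U : ℝ → ℝ} (hU : Adm1 γ a b U) :
    IntegrableOn (fun x => U x ^ (2 + γ)) (Ioo a b) := by
  have h1 := hU.2.integrable_norm_rpow (by simp; linarith) (by simp)
  rw [ENNReal.toReal_ofReal (by linarith)] at h1
  refine h1.congr (ae_of_all _ fun x => ?_)
  simp only [Real.norm_eq_abs, abs_of_nonneg (hU.1 x)]

lemma rpow_le_one_add {u s p : ℝ} (hu : 0 ≤ u) (hs : 0 ≤ s) (hsp : s ≤ p) :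
    u ^ s ≤ 1 + u ^ p := by
  by_cases h : u ≤ 1
  · have h1 : u ^ s ≤ 1 := Real.rpow_le_one hu h hs
    have h2 : 0 ≤ u ^ p := Real.rpow_nonneg hu p
    linarith
  · push Not at h
    have h1 : u ^ s ≤ u ^ p := Real.rpow_le_rpow_of_exponent_le h.le hsp
    linarith

lemma meas_w {γ a b s : ℝ} {U : ℝ → ℝ}
    (hU : AEStronglyMeasurable U (volume.restrict (Ioo a b))) :
    AEStronglyMeasurable (fun x => U x ^ s * Real.exp (-(2 * γ * x)))
      (volume.restrict (Ioo a b)) := by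
  refine (hU.aemeasurable.pow_const s).aestronglyMeasurable.mul ?_
  exact (Continuous.aestronglyMeasurable (by fun_prop))

lemma int_w {γ a b s : ℝ} (hγ : 0 < γ) (hs : 0 ≤ s) (hs2 : s ≤ 2 + γ) {U : ℝ → ℝ}
    (hU : Adm1 γ a b U) :
    IntegrableOn (fun x => U x ^ s * Real.exp (-(2 * γ * x))) (Ioo a b) := by
  have h0 : IntegrableOn (fun x => (1 + U x ^ (2 + γ)) * Real.exp (-(2 * γ * a))) (Ioo a b) :=
    ((integrableOn_const (by simp) (by simp)).add (int_pow_top hγ hU)).mul_const _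
  refine Integrable.mono' h0 (meas_w hU.2.aestronglyMeasurable) ?_
  refine (ae_restrict_iff' measurableSet_Ioo).2 (ae_of_all _ fun x hx => ?_)
  rw [Real.norm_eq_abs, abs_of_nonneg (mul_nonneg (Real.rpow_nonneg (hU.1 x) _)
    (Real.exp_pos _).le)]
  exact mul_le_mul (rpow_le_one_add (hU.1 x) hs hs2) (exp_le hγ hx) (Real.exp_pos _).le
    (by have := Real.rpow_nonneg (hU.1 x) (2 + γ); linarith)

lemma Jf_eq {γ a b : ℝ} (hγ : 0 < γ) {U : ℝ → ℝ} (hU : Adm1 γ a b U) :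
    Jf γ a b U = ENNReal.ofReal (Jr γ a b U) := by
  unfold Jf Jr
  rw [ofReal_integral_eq_lintegral_ofReal (int_w hγ (by linarith) le_rfl hU)]
  exact ae_of_all _ fun x => mul_nonneg (Real.rpow_nonneg (hU.1 x) _) (Real.exp_pos _).le

lemma Jr_nonneg {γ a b : ℝ} {U : ℝ → ℝ} (hU : Adm1 γ a b U) : 0 ≤ Jr γ a b U :=
  integral_nonneg fun x => mul_nonneg (Real.rpow_nonneg (hU.1 x) _) (Real.exp_pos _).le

lemma L1 {γ a b : ℝ} (hγ : 0 < γ) {U : ℝ → ℝ} (hU : Adm1 γ a b U) :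
    IntegrableOn U (Ioo a b) := by
  refine MemLp.integrable ?_ hU.2
  rw [← ENNReal.ofReal_one]
  exact ENNReal.ofReal_le_ofReal (by linarith)

lemma adm_add {γ a b B : ℝ} {U η : ℝ → ℝ} (hU : Adm1 γ a b U)
    (hm : AEStronglyMeasurable η (volume.restrict (Ioo a b))) (hB : ∀ x, |η x| ≤ B) {ε : ℝ}
    (hpos : ∀ x, 0 ≤ U x + ε * η x) : Adm1 γ a b (fun x => U x + ε * η x) := by
  refine ⟨hpos, hU.2.add (MemLp.const_mul ?_ ε)⟩
  exact MemLp.of_bound hm B (ae_of_all _ fun x => by rw [Real.norm_eq_abs]; exact hB x)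

/-- tangent inequality for `t ↦ t^p` -/
lemma tangent {u v p : ℝ} (hu : 0 ≤ u) (hv : 0 ≤ v) (hp : 1 < p) :
    v ^ p - u ^ p ≤ p * v ^ (p - 1) * (v - u) := by
  rcases hv.eq_or_lt with rfl | hv
  · rw [Real.zero_rpow (by linarith), Real.zero_rpow (by linarith : p - 1 ≠ 0)]
    have := Real.rpow_nonneg hu p
    linarith
  · have h1 := one_add_mul_self_le_rpow_one_add (s := u / v - 1)
      (by have := div_nonneg hu hv.le; linarith) hp.le
    have h2 : 1 + (u / v - 1) = u / v := by ring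
    rw [h2, Real.div_rpow hu hv.le, le_div_iff₀ (Real.rpow_pos_of_pos hv p)] at h1
    have h3 : v ^ p = v ^ (p - 1) * v := by
      rw [← Real.rpow_add_one hv.ne']
      ring_nf
    have h4 : (1 + p * (u / v - 1)) * v ^ p = v ^ p + p * v ^ (p - 1) * (u - v) := by
      rw [h3]
      field_simp
    rw [h4] at h1
    linarith

lemma Jr_sub_le {γ a b B : ℝ} (hγ : 0 < γ) {U η : ℝ → ℝ} (hU : Adm1 γ a b U)
    (hm : AEStronglyMeasurable η (volume.restrict (Ioo a b))) (hB : ∀ x, |η x| ≤ B) {ε : ℝ}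
    (hpos : ∀ x, 0 ≤ U x + ε * η x) :
    Jr γ a b (fun x => U x + ε * η x) - Jr γ a b U ≤
      ε * ((2 + γ) * ∫ x in Ioo a b, (U x + ε * η x) ^ (1 + γ) * Real.exp (-(2 * γ * x)) * η x) := by
  have hU' := adm_add hU hm hB hpos
  have i1 := int_w hγ (by linarith) le_rfl hU'
  have i2 := int_w hγ (by linarith) le_rfl hU
  have i3 : IntegrableOn (fun x => (U x + ε * η x) ^ (1 + γ) * Real.exp (-(2 * γ * x)) * η x)
      (Ioo a b) :=
    (int_w (s := 1 + γ) hγ (by linarith) (by linarith) hU').mul_bdd (c := B) hm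
      (ae_of_all _ fun x => by rw [Real.norm_eq_abs]; exact hB x)
  unfold Jr
  rw [← integral_sub i1 i2, ← integral_const_mul, ← integral_const_mul]
  refine integral_mono (i1.sub i2) ((i3.const_mul _).const_mul _) fun x => ?_
  have h1 := tangent (hU.1 x) (hpos x) (show 1 < 2 + γ by linarith)
  have h2 : (2 + γ) - 1 = 1 + γ := by ring
  rw [h2] at h1
  have h3 := mul_le_mul_of_nonneg_right h1 (Real.exp_pos (-(2 * γ * x))).le
  simp only
  linarith

lemma tendsto_R {γ a b B : ℝ} (hγ : 0 < γ) {U η : ℝ → ℝ} (hU : Adm1 γ a b U)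
    (hm : AEStronglyMeasurable η (volume.restrict (Ioo a b))) (hB : ∀ x, |η x| ≤ B)
    (hpos : ∀ ε, 0 ≤ ε → ε ≤ 1 → ∀ x, 0 ≤ U x + ε * η x) :
    Tendsto (fun ε => ∫ x in Ioo a b, (U x + ε * η x) ^ (1 + γ) * Real.exp (-(2 * γ * x)) * η x)
      (𝓝[>] 0) (𝓝 (∫ x in Ioo a b, U x ^ (1 + γ) * Real.exp (-(2 * γ * x)) * η x)) := by
  have hB0 : 0 ≤ B := (abs_nonneg _).trans (hB 0)
  have hUB : Adm1 γ a b (fun x => U x + 1 * (fun _ => B) x) :=
    adm_add (B := B) hU aestronglyMeasurable_const (fun _ => (abs_of_nonneg hB0).le) fun x => by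
      have := hU.1 x
      linarith
  refine tendsto_integral_filter_of_dominated_convergence
    (fun x => (U x + 1 * B) ^ (1 + γ) * Real.exp (-(2 * γ * x)) * B) ?_ ?_ ?_ ?_
  · refine Eventually.of_forall fun ε => (meas_w ?_).mul hm
    exact hU.2.aestronglyMeasurable.add (hm.const_mul ε)
  · have h1 : ∀ᶠ ε in 𝓝[>] (0 : ℝ), ε ∈ Ioo (0 : ℝ) 1 := Ioo_mem_nhdsGT one_pos
    filter_upwards [h1] with ε hε
    refine ae_of_all _ fun x => ?_
    have h2 := hpos ε hε.1.le hε.2.le x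
    rw [norm_mul, Real.norm_eq_abs, Real.norm_eq_abs,
      abs_of_nonneg (mul_nonneg (Real.rpow_nonneg h2 _) (Real.exp_pos _).le)]
    refine mul_le_mul (mul_le_mul_of_nonneg_right (Real.rpow_le_rpow h2 ?_ (by linarith))
      (Real.exp_pos _).le) (hB x) (abs_nonneg _) (mul_nonneg (Real.rpow_nonneg
        (by have := hU.1 x; linarith) _) (Real.exp_pos _).le)
    have h3 := (abs_le.1 (hB x)).2
    have h4 : ε * η x ≤ 1 * B := by
      calc ε * η x ≤ ε * B := mul_le_mul_of_nonneg_left h3 hε.1.le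
        _ ≤ 1 * B := mul_le_mul_of_nonneg_right hε.2.le hB0
    linarith
  · exact (int_w (s := 1 + γ) hγ (by linarith) (by linarith) hUB).mul_const B
  · refine ae_of_all _ fun x => ?_
    have h1 : Tendsto (fun ε : ℝ => U x + ε * η x) (𝓝[>] 0) (𝓝 (U x)) := by
      have : Tendsto (fun ε : ℝ => U x + ε * η x) (𝓝 0) (𝓝 (U x + 0 * η x)) :=
        (continuous_const.add (continuous_id.mul continuous_const)).tendsto 0
      rw [zero_mul, add_zero] at this
      exact this.mono_left nhdsWithin_le_nhds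
    exact ((h1.rpow_const (Or.inr (by linarith))).mul_const _).mul_const _

/-! ### the lower bound of `G` -/

lemma lint_pow {γ e : ℝ} (hγ : 0 < γ) (he : 0 < e) :
    ∫⁻ τ in Ioo 0 e, ENNReal.ofReal (γ * τ ^ (γ - 1)) = ENNReal.ofReal (e ^ γ) := by
  have h1 : IntervalIntegrable (fun τ : ℝ => γ * τ ^ (γ - 1)) volume 0 e :=
    (intervalIntegral.intervalIntegrable_rpow' (by linarith)).const_mul γ
  have h2 : IntegrableOn (fun τ : ℝ => γ * τ ^ (γ - 1)) (Ioo 0 e) :=
    ((intervalIntegrable_iff_integrableOn_Ioc_of_le he.le).1 h1).mono_set Ioo_subset_Ioc_self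
  rw [← ofReal_integral_eq_lintegral_ofReal h2]
  · congr 1
    rw [← integral_Ioc_eq_integral_Ioo, ← intervalIntegral.integral_of_le he.le,
      intervalIntegral.integral_const_mul, integral_rpow (Or.inl (by linarith))]
    rw [show γ - 1 + 1 = γ by ring, Real.zero_rpow hγ.ne', sub_zero]
    field_simp
  · refine (ae_restrict_iff' measurableSet_Ioo).2 (ae_of_all _ fun x hx => ?_)
    exact mul_nonneg hγ.le (Real.rpow_nonneg hx.1.le _)

lemma count_le {a b : ℝ} {U : ℝ → ℝ} {n : ℕ} {k j : Fin n → ℕ} {e : Fin n → ℝ}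
    (hk : ∀ i, 1 ≤ k i) (hinj : ∀ i i', k i = k i' → j i = j i' → i = i')
    (hN : ∀ i, ∀ τ ≤ e i, ((j i + 1 : ℕ) : ℕ∞) ≤ nneg a b (pot (k i) τ U)) (τ : ℝ) :
    ∑ i, ((k i : ℝ≥0∞)) ^ 2 * (if τ < e i then 1 else 0) ≤ Ntot a b U τ := by
  classical
  unfold Ntot
  refine le_trans ?_ (ENNReal.sum_le_tsum (Finset.univ.image fun i => k i - 1))
  rw [← Finset.sum_fiberwise_of_maps_to (s := Finset.univ)
    (t := Finset.univ.image fun i => k i - 1) (g := fun i => k i - 1)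
    (fun i _ => Finset.mem_image_of_mem _ (Finset.mem_univ i))]
  refine Finset.sum_le_sum fun κ _ => ?_
  have h1 : ∑ i ∈ Finset.univ.filter (fun i => k i - 1 = κ),
      ((k i : ℝ≥0∞)) ^ 2 * (if τ < e i then 1 else 0) =
      ((κ : ℝ≥0∞) + 1) ^ 2 *
        ((Finset.univ.filter (fun i => k i - 1 = κ)).filter (fun i => τ < e i)).card := by
    rw [Finset.card_filter, Nat.cast_sum, Finset.mul_sum]
    refine Finset.sum_congr rfl fun i hi => ?_
    rw [Finset.mem_filter] at hi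
    have h2 := hk i
    have h3 : k i = κ + 1 := by omega
    rw [h3]
    push_cast
    split_ifs <;> simp
  rw [h1]
  refine mul_le_mul_right ?_ _
  set s := (Finset.univ.filter (fun i => k i - 1 = κ)).filter (fun i => τ < e i) with hs
  rcases s.eq_empty_or_nonempty with h0 | hne
  · rw [h0]
    simp
  · obtain ⟨i₀, hi₀, hmax⟩ := s.exists_max_image j hne
    have hk0 : ∀ i ∈ s, k i = κ + 1 := by
      intro i hi
      rw [hs, Finset.mem_filter, Finset.mem_filter] at hi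
      have := hk i
      omega
    have hcard : s.card ≤ j i₀ + 1 := by
      rw [← Finset.card_range (j i₀ + 1)]
      refine Finset.card_le_card_of_injOn j (fun i hi => ?_) fun i hi i' hi' h => ?_
      · rw [Finset.mem_coe, Finset.mem_range]
        have := hmax i hi
        omega
      · exact hinj i i' (by rw [hk0 i hi, hk0 i' hi']) h
    have hτ : τ ≤ e i₀ := by
      rw [hs, Finset.mem_filter] at hi₀
      exact hi₀.2.le
    have h2 := hN i₀ τ hτ
    rw [hk0 i₀ hi₀] at h2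
    have h3 : ((s.card : ℕ) : ℕ∞) ≤ nneg a b (pot ((κ : ℝ) + 1) τ U) := by
      refine le_trans (Nat.cast_le.2 hcard) ?_
      push_cast at h2 ⊢
      exact h2
    have h4 := ENat.toENNReal_le.2 h3
    simpa using h4

lemma G_ge {γ a b : ℝ} (hγ : 0 < γ) {U : ℝ → ℝ} {n : ℕ} {k j : Fin n → ℕ} {e : Fin n → ℝ}
    (hk : ∀ i, 1 ≤ k i) (he : ∀ i, 0 < e i) (hinj : ∀ i i', k i = k i' → j i = j i' → i = i')
    (hN : ∀ i, ∀ τ ≤ e i, ((j i + 1 : ℕ) : ℕ∞) ≤ nneg a b (pot (k i) τ U)) :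
    ENNReal.ofReal (∑ i, (k i : ℝ) ^ 2 * e i ^ γ) ≤ Gf γ a b U := by
  classical
  have h1 : ∫⁻ τ in Ioi (0 : ℝ), ENNReal.ofReal (γ * τ ^ (γ - 1)) *
      ∑ i, ((k i : ℝ≥0∞)) ^ 2 * (if τ < e i then 1 else 0) ≤ Gf γ a b U :=
    lintegral_mono fun τ => mul_le_mul_right (count_le hk hinj hN τ) _
  refine le_trans (le_of_eq ?_) h1
  have hmeas : Measurable fun τ : ℝ => ENNReal.ofReal (γ * τ ^ (γ - 1)) := by fun_prop
  have e1 : ∀ τ : ℝ, ENNReal.ofReal (γ * τ ^ (γ - 1)) *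
      ∑ i, ((k i : ℝ≥0∞)) ^ 2 * (if τ < e i then 1 else 0) =
      ∑ i, ((k i : ℝ≥0∞)) ^ 2 * (Iio (e i)).indicator (fun τ => ENNReal.ofReal (γ * τ ^ (γ - 1))) τ := by
    intro τ
    rw [Finset.mul_sum]
    refine Finset.sum_congr rfl fun i _ => ?_
    by_cases h : τ < e i
    · rw [if_pos h, Set.indicator_of_mem (by exact h)]
      ring
    · rw [if_neg h, Set.indicator_of_notMem (by exact h)]
      ring
  simp only [e1]
  rw [lintegral_finsetSum _ fun i _ => (hmeas.indicator measurableSet_Iio).const_mul _]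
  rw [ENNReal.ofReal_sum_of_nonneg fun i _ =>
    mul_nonneg (sq_nonneg _) (Real.rpow_nonneg (he i).le _)]
  refine Finset.sum_congr rfl fun i _ => ?_
  rw [lintegral_const_mul _ (hmeas.indicator measurableSet_Iio),
    lintegral_indicator measurableSet_Iio, Measure.restrict_restrict measurableSet_Iio,
    Iio_inter_Ioi, lint_pow hγ (he i), ENNReal.ofReal_mul (sq_nonneg _)]
  congr 1
  rw [← Nat.cast_pow, ENNReal.ofReal_natCast, Nat.cast_pow]

end VaryX

end Pool.Agent.RLT40
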