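import Pool.Agent.RLT40.OneD

/-!
# Module VARY (paper 3.3): first variation of `G` from below, and the Euler-Lagrange equation a.e.

`G = Σ k² Σ_j e_j^γ` for the finite spectrum (WeakSpec.cnt and `∫_0^e γ τ^{γ-1} = e^γ`).
`eig_lower`: on `span(φ_0..φ_j)` (ω-orthogonal, weak equations) `-q(pot k 0 (U+εη)) f = Σ e_i c_i² n_i + ε ∫ η f²`; with `g = e_{j-1} - e_j > 0` the minimum over
the ω-unit sphere is `≥ e_j + ε ∫ηφ_j²/∫ωφ_j² - C ε²`, so `N_k(τ; U+εη) ≥ j+1` for `τ <` this number.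
`el_ae`: `G(U+εη) ≤ C J(U+εη)`, `J(U + εη) = J(U) + ε (2+γ) ∫ U^{1+γ} η w + o(ε)`; `η ≥ 0` bounded, or `η = -U h` with `0 ≤ h ≤ 1`;
hence a.e. `γ Σ α_i φ_i² ≤ C (2+γ) U^{1+γ} w` with equality on `{U > 0}`, and `U > 0` a.e. (on `{U=0}` the left side would be `≤ 0`, but a ground state
`φ` is nonzero a.e.: a weak solution vanishing on a set of positive measure has a point with `f = f' = 0`.)
Channels are enumerated by `Fin n`; only finitely many have bound states (`nneg a b (pot k 0 U) = 0` for `k` large since `Ntot < ⊤`).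
-/

open MeasureTheory Set
open scoped ENNReal NNReal

namespace Pool.Agent.RLT40

/-- weak Euler-Lagrange data (a.e. version) -/
structure WeakEL (γ a b C : ℝ) (U : ℝ → ℝ) (n : ℕ) (k : Fin n → ℕ) (e α : Fin n → ℝ) (φ : Fin n → ℝ → ℝ) : Prop where
  hk : ∀ i, 1 ≤ k i
  he : ∀ i, 0 < e i
  hα : ∀ i, 0 < α i
  mem : ∀ i, φ i ∈ H10 a b
  ne : ∀ i, φ i ≠ 0
  weak : ∀ i, ∀ f ∈ H10 a b, (∫ x, (deriv (φ i) x * deriv f x + pot (k i) (e i) U x * (φ i x * f x))) = 0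
  inj : ∀ i j, k i = k j → e i = e j → i = j
  norm : ∀ i, α i * (∫ x, om x * φ i x ^ 2) = (k i : ℝ) ^ 2 * e i ^ (γ - 1)
  cnt : ∀ κ : ℕ, 1 ≤ κ → ∀ τ : ℝ, 0 ≤ τ →
    nneg a b (pot κ τ U) = ((Finset.univ.filter fun i => k i = κ ∧ τ < e i).card : ℕ∞)
  el : ∀ᵐ x, x ∈ Ioo a b → γ * ∑ i, α i * φ i x ^ 2 = C * (2 + γ) * U x ^ (1 + γ) * Real.exp (-(2 * γ * x))

end Pool.Agent.RLT40
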