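import Pool.Agent.RLT40.Layer
import Pool.Agent.RLT40.SpecB
import Pool.Agent.RLT40.VaryA
import Pool.Agent.RLT40.VaryB1
import Pool.Agent.RLT40.VaryB2
import Pool.Agent.RLT40.VaryDefs

/-!
# Module VARY (paper 3.3): first variation of `G` from below, and the Euler-Lagrange equation a.e.

`G = Σ k² Σ_j e_j^γ` for the finite spectrum (WeakSpec.cnt and `∫_0^e γ τ^{γ-1} = e^γ`).
`eig_lower`: on `span(φ_0..φ_j)` (ω-orthogonal, weak equations) `-q(pot k 0 (U+εη)) f = Σ e_i c_i² n_i + ε ∫ η f²`; with `g = e_{j-1} - e_j > 0` the minimum over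
the ω-unit sphere is `≥ e_j + ε ∫ηφ_j²/∫ωφ_j² - C ε²`, so `N_k(τ; U+εη) ≥ j+1` for `τ <` this number.
`el_ae`: `G(U+εη) ≤ C J(U+εη)`, `J(U + εη) = J(U) + ε (2+γ) ∫ U^{1+γ} η w + o(ε)`; `η ≥ 0` bounded, or `η = -U h` with `0 ≤ h ≤ 1`;
hence a.e. `γ Σ α_i φ_i² ≤ C (2+γ) U^{1+γ} w` with equality on `{U > 0}`, and `U > 0` a.e. (on `{U=0}` the left side would be `≤ 0`, but a ground state
`φ` is nonzero a.e.: a weak solution vanishing on a set of positive measure has a point with `f = f' = 0`.)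
Channels are enumerated by `Fin n`; only finitely many have bound states (`nneg a b (pot k 0 U) = 0` for `k` large since `Ntot < ⊤`).
-/

open MeasureTheory Set Filter Topology
open scoped ENNReal NNReal

namespace Pool.Agent.RLT40

namespace VaryX

/-- variational inequality, up to `δ` -/
lemma var_ineq_delta {γ a b C B : ℝ} (hγ : 0 < γ) (hC : 0 < C) {U η : ℝ → ℝ} (hU : Adm1 γ a b U)
    (hG : Gf γ a b U = ENNReal.ofReal C * Jf γ a b U)
    (hmax : ∀ U' : ℝ → ℝ, Adm1 γ a b U' → Gf γ a b U' ≤ ENNReal.ofReal C * Jf γ a b U')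
    {n : ℕ} {k j : Fin n → ℕ} (hk : ∀ i, 1 ≤ k i)
    (hinj : ∀ i i', k i = k i' → j i = j i' → i = i')
    {m : ℕ → ℕ} {e : ℕ → ℕ → ℝ} {φ : ℕ → ℕ → ℝ → ℝ}
    (S : ∀ κ : ℕ, WeakSpec a b U κ (m κ) (e κ) (φ κ)) (hj : ∀ i, j i < m (k i))
    (hcnt : ∀ κ : ℕ, 1 ≤ κ → ∀ τ : ℝ, 0 ≤ τ → nneg a b (pot κ τ U) =
      ((Finset.univ.filter fun i => k i = κ ∧ τ < e (k i) (j i)).card : ℕ∞))
    (hm : AEStronglyMeasurable η (volume.restrict (Ioo a b))) (hB : ∀ x, |η x| ≤ B)
    (hpos : ∀ ε, 0 ≤ ε → ε ≤ 1 → ∀ x, 0 ≤ U x + ε * η x) {δ : ℝ} (hδ : 0 < δ) :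
    ∑ i, (k i : ℝ) ^ 2 * (((∫ x, η x * (φ (k i) (j i) x * φ (k i) (j i) x)) /
      (∫ x, om x * (φ (k i) (j i) x * φ (k i) (j i) x)) - δ) * γ * e (k i) (j i) ^ (γ - 1)) ≤
      C * ((2 + γ) * ∫ x in Ioo a b, U x ^ (1 + γ) * Real.exp (-(2 * γ * x)) * η x) := by
  set h : Fin n → ℝ := fun i => (∫ x, η x * (φ (k i) (j i) x * φ (k i) (j i) x)) /
      (∫ x, om x * (φ (k i) (j i) x * φ (k i) (j i) x)) with hh
  set ee : Fin n → ℝ := fun i => e (k i) (j i) with hee
  have he : ∀ i, 0 < ee i := fun i => (S (k i)).pos _ (hj i)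
  set F : ℝ → ℝ := fun ε => ∑ i, (k i : ℝ) ^ 2 * (ee i + ε * (h i - δ)) ^ γ with hF
  have hF0 : F 0 = C * Jr γ a b U := by
    have h1 : Gf γ a b U = ENNReal.ofReal (∑ i, (k i : ℝ) ^ 2 * ee i ^ γ) :=
      G_eq_sum hγ hk he hcnt
    rw [hG, Jf_eq hγ hU, ← ENNReal.ofReal_mul hC.le, ENNReal.ofReal_eq_ofReal_iff
      (mul_nonneg hC.le (Jr_nonneg hU)) (Finset.sum_nonneg fun i _ => mul_nonneg (sq_nonneg _)
        (Real.rpow_nonneg (he i).le _))] at h1
    rw [h1, hF]
    simp only [zero_mul, add_zero]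
  have hderiv : HasDerivAt F (∑ i, (k i : ℝ) ^ 2 * ((h i - δ) * γ * ee i ^ (γ - 1))) 0 := by
    refine HasDerivAt.fun_sum fun i _ => ?_
    have h1 : HasDerivAt (fun ε : ℝ => ee i + ε * (h i - δ)) (h i - δ) 0 := by
      have := ((hasDerivAt_id (0 : ℝ)).mul_const (h i - δ)).const_add (ee i)
      simpa using this
    have h2 := (h1.rpow_const (p := γ) (Or.inl (by simpa using (he i).ne'))).const_mul
      ((k i : ℝ) ^ 2)
    simpa using h2
  have hslope := hderiv.tendsto_slope_zero_right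
  have hR := (tendsto_R hγ hU hm hB hpos).const_mul (2 + γ) |>.const_mul C
  refine le_of_tendsto_of_tendsto hslope hR ?_
  -- the pointwise inequality
  have ev1 : ∀ᶠ ε in 𝓝[>] (0 : ℝ), ε ∈ Ioo (0 : ℝ) 1 := Ioo_mem_nhdsGT one_pos
  have ev2 : ∀ᶠ ε in 𝓝[>] (0 : ℝ), ∀ i, 0 < ee i + ε * (h i - δ) := by
    rw [eventually_all]
    intro i
    have h1 : Tendsto (fun ε : ℝ => ee i + ε * (h i - δ)) (𝓝 0) (𝓝 (ee i + 0 * (h i - δ))) :=
      (continuous_const.add (continuous_id.mul continuous_const)).tendsto 0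
    rw [zero_mul, add_zero] at h1
    exact (h1.eventually_const_lt (he i)).filter_mono nhdsWithin_le_nhds
  have ev3 : ∀ᶠ ε in 𝓝[>] (0 : ℝ), ∀ i, ∀ τ ≤ ee i + ε * (h i - δ),
      ((j i + 1 : ℕ) : ℕ∞) ≤ nneg a b (pot (k i) τ (fun x => U x + ε * η x)) := by
    rw [eventually_all]
    intro i
    obtain ⟨ε₀, hε₀, h1⟩ := nneg_ge (L1 hγ hU) hm hB (S (k i)) (hj i) hδ
    filter_upwards [Ioo_mem_nhdsGT hε₀] with ε hε
    exact h1 ε hε.1 hε.2
  filter_upwards [ev1, ev2, ev3] with ε h1 h2 h3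
  have hU' := adm_add hU hm hB (hpos ε h1.1.le h1.2.le)
  have h4 : F ε ≤ C * Jr γ a b (fun x => U x + ε * η x) := by
    have h5 := (G_ge hγ hk h2 hinj h3).trans (hmax _ hU')
    rw [Jf_eq hγ hU', ← ENNReal.ofReal_mul hC.le,
      ENNReal.ofReal_le_ofReal_iff (mul_nonneg hC.le (Jr_nonneg hU'))] at h5
    exact h5
  have h5 := mul_le_mul_of_nonneg_left (Jr_sub_le hγ hU hm hB (hpos ε h1.1.le h1.2.le)) hC.le
  rw [zero_add, hF0, smul_eq_mul, inv_mul_le_iff₀ h1.1]
  linarith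

lemma var_ineq {γ a b C B : ℝ} (hγ : 0 < γ) (hC : 0 < C) {U η : ℝ → ℝ} (hU : Adm1 γ a b U)
    (hG : Gf γ a b U = ENNReal.ofReal C * Jf γ a b U)
    (hmax : ∀ U' : ℝ → ℝ, Adm1 γ a b U' → Gf γ a b U' ≤ ENNReal.ofReal C * Jf γ a b U')
    {n : ℕ} {k j : Fin n → ℕ} (hk : ∀ i, 1 ≤ k i)
    (hinj : ∀ i i', k i = k i' → j i = j i' → i = i')
    {m : ℕ → ℕ} {e : ℕ → ℕ → ℝ} {φ : ℕ → ℕ → ℝ → ℝ}
    (S : ∀ κ : ℕ, WeakSpec a b U κ (m κ) (e κ) (φ κ)) (hj : ∀ i, j i < m (k i))
    (hcnt : ∀ κ : ℕ, 1 ≤ κ → ∀ τ : ℝ, 0 ≤ τ → nneg a b (pot κ τ U) =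
      ((Finset.univ.filter fun i => k i = κ ∧ τ < e (k i) (j i)).card : ℕ∞))
    (hm : AEStronglyMeasurable η (volume.restrict (Ioo a b))) (hB : ∀ x, |η x| ≤ B)
    (hpos : ∀ ε, 0 ≤ ε → ε ≤ 1 → ∀ x, 0 ≤ U x + ε * η x) :
    ∑ i, (k i : ℝ) ^ 2 * ((∫ x, η x * (φ (k i) (j i) x * φ (k i) (j i) x)) /
      (∫ x, om x * (φ (k i) (j i) x * φ (k i) (j i) x)) * γ * e (k i) (j i) ^ (γ - 1)) ≤
      C * ((2 + γ) * ∫ x in Ioo a b, U x ^ (1 + γ) * Real.exp (-(2 * γ * x)) * η x) := by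
  have key := fun δ (hδ : (0 : ℝ) < δ) =>
    var_ineq_delta hγ hC hU hG hmax hk hinj S hj hcnt hm hB hpos hδ
  set K : ℝ := ∑ i, (k i : ℝ) ^ 2 * (γ * e (k i) (j i) ^ (γ - 1)) with hK
  have hK0 : 0 ≤ K := Finset.sum_nonneg fun i _ => mul_nonneg (sq_nonneg _)
    (mul_nonneg hγ.le (Real.rpow_nonneg ((S (k i)).pos _ (hj i)).le _))
  refine le_of_forall_pos_le_add fun r hr => ?_
  have h1 := key (r / (K + 1)) (by positivity)
  have h2 : ∑ i, (k i : ℝ) ^ 2 * (((∫ x, η x * (φ (k i) (j i) x * φ (k i) (j i) x)) /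
      (∫ x, om x * (φ (k i) (j i) x * φ (k i) (j i) x)) - r / (K + 1)) * γ *
        e (k i) (j i) ^ (γ - 1)) =
      (∑ i, (k i : ℝ) ^ 2 * ((∫ x, η x * (φ (k i) (j i) x * φ (k i) (j i) x)) /
      (∫ x, om x * (φ (k i) (j i) x * φ (k i) (j i) x)) * γ * e (k i) (j i) ^ (γ - 1))) -
      r / (K + 1) * K := by
    rw [hK, Finset.mul_sum, ← Finset.sum_sub_distrib]
    refine Finset.sum_congr rfl fun i _ => ?_
    ring
  rw [h2] at h1
  have h3 : r / (K + 1) * K ≤ r := by
    rw [div_mul_eq_mul_div, div_le_iff₀ (by linarith)]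
    nlinarith
  linarith

/-- enumeration of the spectrum of all channels -/
lemma enum {m : ℕ → ℕ} (hfin : ∃ K, ∀ κ, K ≤ κ → m (κ + 1) = 0) :
    ∃ (n : ℕ) (k j : Fin n → ℕ), (∀ i, 1 ≤ k i) ∧ (∀ i i', k i = k i' → j i = j i' → i = i') ∧
      (∀ i, j i < m (k i)) ∧ ∀ κ, 1 ≤ κ → ∀ l < m κ, ∃ i, k i = κ ∧ j i = l := by
  obtain ⟨K, hK⟩ := hfin
  let ι := Σ κ : Fin K, Fin (m (κ + 1))
  let E : ι ≃ Fin (Fintype.card ι) := Fintype.equivFin ι
  refine ⟨Fintype.card ι, fun i => (E.symm i).1 + 1, fun i => (E.symm i).2,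
    fun i => Nat.le_add_left 1 _, ?_, fun i => (E.symm i).2.2, ?_⟩
  · intro i i' h1 h2
    apply E.symm.injective
    simp only at h1 h2
    generalize E.symm i = p at h1 h2 ⊢
    generalize E.symm i' = p' at h1 h2 ⊢
    obtain ⟨κ, x⟩ := p
    obtain ⟨κ', x'⟩ := p'
    simp only at h1 h2
    obtain rfl : κ = κ' := Fin.ext (by omega)
    obtain rfl : x = x' := Fin.ext h2
    rfl
  · intro κ hκ l hl
    obtain ⟨κ, rfl⟩ : ∃ κ', κ = κ' + 1 := ⟨κ - 1, by omega⟩
    have h1 : κ < K := by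
      by_contra hlt
      rw [hK κ (by omega)] at hl
      exact Nat.not_lt_zero _ hl
    refine ⟨E ⟨⟨κ, h1⟩, ⟨l, hl⟩⟩, ?_, ?_⟩
    · simp
    · show ((E.symm (E ⟨⟨κ, h1⟩, ⟨l, hl⟩⟩)).2 : ℕ) = l
      rw [E.symm_apply_apply]

end VaryX

open VaryX in
theorem exists_weakEL {γ a b C : ℝ} (hab : a < b) (hγ : 0 < γ) (hγ1 : γ ≤ 1) (hC : 0 < C) {U : ℝ → ℝ} (hU : Adm1 γ a b U)
    (hJ : 0 < Jf γ a b U) (hG : Gf γ a b U = ENNReal.ofReal C * Jf γ a b U)
    (hmax : ∀ U' : ℝ → ℝ, Adm1 γ a b U' → Gf γ a b U' ≤ ENNReal.ofReal C * Jf γ a b U') :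
    ∃ (n : ℕ) (k : Fin n → ℕ) (e α : Fin n → ℝ) (φ : Fin n → ℝ → ℝ), 0 < n ∧ WeakEL γ a b C U n k e α φ := by
  classical
  have hspec : ∀ κ : ℕ, ∃ (m : ℕ) (e : ℕ → ℝ) (φ : ℕ → ℝ → ℝ), WeakSpec a b U κ m e φ :=
    fun κ => exists_weakSpec hab (L1 hγ hU) κ
  choose m e φ S using hspec
  have hm0 : ∀ κ : ℕ, nneg a b (pot κ 0 U) = (m κ : ℕ∞) := by
    intro κ
    rw [(S κ).cnt 0 le_rfl, Finset.filter_true_of_mem, Finset.card_range]
    exact fun l hl => (S κ).pos l (Finset.mem_range.1 hl)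
  -- finitely many channels
  have hfin : ∃ K, ∀ κ, K ≤ κ → m (κ + 1) = 0 := by
    have h1 : Ntot a b U 0 ≠ ⊤ := by
      refine ne_top_of_le_ne_top ?_ (Ntot_le hγ hU le_rfl)
      unfold Atau
      have h2 : IntegrableOn (fun x => 3 / 16 * max (U x - 0 * om x) 0 ^ 2) (Ioo a b) := by
        have h3 : MemLp U 2 (volume.restrict (Ioo a b)) := by
          refine hU.2.mono_exponent ?_
          rw [show (2 : ℝ≥0∞) = ENNReal.ofReal 2 by simp]
          exact ENNReal.ofReal_le_ofReal (by linarith)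
        refine (h3.integrable_sq.const_mul (3 / 16)).congr (ae_of_all _ fun x => ?_)
        simp only [zero_mul, sub_zero, max_eq_left (hU.1 x)]
      exact (h2.lintegral_lt_top).ne
    unfold Ntot at h1
    have h2 := ENNReal.finite_const_le_of_tsum_ne_top h1 one_ne_zero
    obtain ⟨K, hK⟩ := h2.bddAbove
    refine ⟨K + 1, fun κ hκ => ?_⟩
    by_contra hne
    have h3 : κ ∈ {i : ℕ | 1 ≤ ((i : ℝ≥0∞) + 1) ^ 2 *
        ((nneg a b (pot (i + 1) 0 U) : ℕ∞) : ℝ≥0∞)} := by
      rw [Set.mem_setOf_eq]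
      have h4 := hm0 (κ + 1)
      push_cast at h4
      rw [h4]
      have h5 : (1 : ℝ≥0∞) ≤ ((κ : ℝ≥0∞) + 1) ^ 2 := one_le_pow_of_one_le' (by simp) 2
      have h6 : (1 : ℝ≥0∞) ≤ (((m (κ + 1) : ℕ) : ℕ∞) : ℝ≥0∞) := by
        rw [ENat.toENNReal_coe]
        exact_mod_cast Nat.one_le_iff_ne_zero.2 hne
      calc (1 : ℝ≥0∞) = 1 * 1 := (one_mul 1).symm
        _ ≤ _ := mul_le_mul' h5 h6
    have := hK h3
    omega
  obtain ⟨n, k, j, hk, hinj, hj, hsurj⟩ := enum hfin
  have hcnt : ∀ κ : ℕ, 1 ≤ κ → ∀ τ : ℝ, 0 ≤ τ → nneg a b (pot κ τ U) =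
      ((Finset.univ.filter fun i => k i = κ ∧ τ < e (k i) (j i)).card : ℕ∞) := by
    intro κ hκ τ hτ
    rw [(S κ).cnt τ hτ]
    congr 1
    symm
    refine Finset.card_nbij j ?_ ?_ ?_
    · intro i hi
      rw [Finset.mem_coe, Finset.mem_filter] at hi
      rw [Finset.mem_coe, Finset.mem_filter, Finset.mem_range]
      obtain ⟨-, rfl, h2⟩ := hi
      exact ⟨hj i, h2⟩
    · intro i hi i' hi' h
      rw [Finset.mem_coe, Finset.mem_filter] at hi hi'
      exact hinj i i' (by rw [hi.2.1, hi'.2.1]) h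
    · intro l hl
      rw [Finset.mem_coe, Finset.mem_filter, Finset.mem_range] at hl
      obtain ⟨i, rfl, rfl⟩ := hsurj κ hκ l hl.1
      exact ⟨i, by simp [hl.2], rfl⟩
  -- names
  set ee : Fin n → ℝ := fun i => e (k i) (j i) with hee
  set pp : Fin n → ℝ → ℝ := fun i => φ (k i) (j i) with hpp
  have he : ∀ i, 0 < ee i := fun i => (S (k i)).pos _ (hj i)
  have hmem : ∀ i, pp i ∈ H10 a b := fun i => (S (k i)).mem _ (hj i)
  have hne : ∀ i, pp i ≠ 0 := fun i => (S (k i)).ne _ (hj i)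
  have hN : ∀ i, 0 < ∫ x, om x * (pp i x * pp i x) := fun i => n_pos (hmem i) (hne i)
  set α : Fin n → ℝ := fun i => (k i : ℝ) ^ 2 * ee i ^ (γ - 1) / ∫ x, om x * (pp i x * pp i x)
    with hα
  have hk0 : ∀ i, (0 : ℝ) < k i := fun i => by exact_mod_cast hk i
  have hα0 : ∀ i, 0 < α i := fun i =>
    div_pos (mul_pos (pow_pos (hk0 i) 2) (Real.rpow_pos_of_pos (he i) _)) (hN i)
  refine ⟨n, k, ee, α, pp, ?_, ?_⟩
  · rcases Nat.eq_zero_or_pos n with h0 | h0
    · exfalso
      subst h0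
      have h1 : Gf γ a b U = ENNReal.ofReal (∑ i, (k i : ℝ) ^ 2 * ee i ^ γ) :=
        G_eq_sum hγ hk he hcnt
      rw [Finset.univ_eq_empty, Finset.sum_empty, ENNReal.ofReal_zero, hG] at h1
      exact (ENNReal.mul_pos (by simpa using hC) hJ.ne').ne' h1
    · exact h0
  · refine ⟨hk, he, hα0, hmem, hne, fun i => (S (k i)).weak _ (hj i), ?_, ?_, hcnt, ?_⟩
    · intro i i' h1 h2
      refine hinj i i' h1 ?_
      rcases lt_trichotomy (j i) (j i') with h | h | h
      · have h3 := (S (k i')).anti _ _ h (hj i')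
        rw [← h1] at h3
        have h4 : e (k i) (j i) = e (k i) (j i') := by
          have h5 : e (k i) (j i) = e (k i') (j i') := h2
          rw [h5, h1]
        linarith
      · exact h
      · have h3 := (S (k i)).anti _ _ h (hj i)
        have h4 : e (k i) (j i) = e (k i) (j i') := by
          have h5 : e (k i) (j i) = e (k i') (j i') := h2
          rw [h5, h1]
        linarith
    · intro i
      have h1 : ∫ x, om x * pp i x ^ 2 = ∫ x, om x * (pp i x * pp i x) :=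
        integral_congr_ae (ae_of_all _ fun x => by simp only [sq])
      rw [h1, hα]
      simp only
      rw [div_mul_cancel₀ _ (hN i).ne']
    · -- the Euler-Lagrange equation
      have hmain : ∀ (η : ℝ → ℝ) (B : ℝ), AEStronglyMeasurable η (volume.restrict (Ioo a b)) →
          (∀ x, |η x| ≤ B) → (∀ ε, 0 ≤ ε → ε ≤ 1 → ∀ x, 0 ≤ U x + ε * η x) →
          ∫ x in Ioo a b, η x * (γ * ∑ i, α i * pp i x ^ 2) ≤
            ∫ x in Ioo a b, η x * (C * (2 + γ) * U x ^ (1 + γ) * Real.exp (-(2 * γ * x))) := by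
        intro η B hm hB hpos
        have h1 := var_ineq hγ hC hU hG hmax hk hinj S hj hcnt hm hB hpos
        have h2 : ∫ x in Ioo a b, η x * (γ * ∑ i, α i * pp i x ^ 2) =
            ∑ i, (k i : ℝ) ^ 2 * ((∫ x, η x * (φ (k i) (j i) x * φ (k i) (j i) x)) /
            (∫ x, om x * (φ (k i) (j i) x * φ (k i) (j i) x)) * γ * e (k i) (j i) ^ (γ - 1)) := by
          have e1 : ∀ x, η x * (γ * ∑ i, α i * pp i x ^ 2) =
              ∑ i, (γ * α i) * (η x * (pp i x * pp i x)) := by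
            intro x
            rw [Finset.mul_sum, Finset.mul_sum]
            exact Finset.sum_congr rfl fun i _ => by ring
          simp only [e1]
          rw [integral_finsetSum _ fun i _ =>
            ((int_mul (eta_int hm hB) (hmem i) (hmem i)).integrableOn).const_mul _]
          refine Finset.sum_congr rfl fun i _ => ?_
          rw [integral_const_mul, setIntegral_eq_integral_of_forall_compl_eq_zero]
          · rw [hα]
            simp only [hee, hpp]
            ring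
          · intro x hx
            rw [H10_zero (hmem i) hx]
            simp
        have h3 : ∫ x in Ioo a b, η x * (C * (2 + γ) * U x ^ (1 + γ) * Real.exp (-(2 * γ * x))) =
            C * ((2 + γ) * ∫ x in Ioo a b, U x ^ (1 + γ) * Real.exp (-(2 * γ * x)) * η x) := by
          rw [← integral_const_mul, ← integral_const_mul]
          exact integral_congr_ae (ae_of_all _ fun x => by simp only; ring)
        rw [h2, h3]
        exact h1
      have hf1 : Integrable (fun x => γ * ∑ i, α i * pp i x ^ 2) (volume.restrict (Ioo a b)) := by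
        refine Integrable.const_mul (integrable_finsetSum _ fun i _ => ?_) _
        refine Integrable.const_mul ?_ _
        exact ((H10_continuous (hmem i)).pow 2).integrableOn_Icc.mono_set Ioo_subset_Icc_self
      have hf2 : Integrable (fun x => C * (2 + γ) * U x ^ (1 + γ) * Real.exp (-(2 * γ * x)))
          (volume.restrict (Ioo a b)) := by
        refine ((int_w (s := 1 + γ) hγ (by linarith) (by linarith) hU).const_mul
          (C * (2 + γ))).congr (ae_of_all _ fun x => ?_)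
        simp only
        ring
      have hρ0 : ∀ x, 0 ≤ γ * ∑ i, α i * pp i x ^ 2 := fun x =>
        mul_nonneg hγ.le (Finset.sum_nonneg fun i _ => mul_nonneg (hα0 i).le (sq_nonneg _))
      have hle1 : (fun x => γ * ∑ i, α i * pp i x ^ 2) ≤ᵐ[volume.restrict (Ioo a b)]
          fun x => C * (2 + γ) * U x ^ (1 + γ) * Real.exp (-(2 * γ * x)) := by
        refine ae_le_of_forall_setIntegral_le hf1 hf2 fun s hs _ => ?_
        have h1 := hmain (s.indicator fun _ => 1) 1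
          (aestronglyMeasurable_const.indicator hs) (fun x => ?_) (fun ε h0 _ x => ?_)
        · rw [← integral_indicator hs, ← integral_indicator hs]
          refine le_trans (le_of_eq ?_) (h1.trans (le_of_eq ?_))
          · refine integral_congr_ae (ae_of_all _ fun x => ?_)
            by_cases hx : x ∈ s <;> simp [hx]
          · refine integral_congr_ae (ae_of_all _ fun x => ?_)
            by_cases hx : x ∈ s <;> simp [hx]
        · by_cases hx : x ∈ s <;> simp [hx]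
        · have := hU.1 x
          by_cases hx : x ∈ s
          · simp [hx]; linarith
          · simp [hx]; linarith
      have hmin : ∀ x, 0 ≤ min (U x) 1 := fun x => le_min (hU.1 x) zero_le_one
      have hmeasmin : AEStronglyMeasurable (fun x => min (U x) 1) (volume.restrict (Ioo a b)) :=
        hU.2.aestronglyMeasurable.inf aestronglyMeasurable_const
      have hb1 : ∀ x, ‖min (U x) 1‖ ≤ 1 := fun x => by
        rw [Real.norm_eq_abs, abs_of_nonneg (hmin x)]
        exact min_le_right _ _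
      have hle2 : (fun x => min (U x) 1 * (C * (2 + γ) * U x ^ (1 + γ) * Real.exp (-(2 * γ * x))))
          ≤ᵐ[volume.restrict (Ioo a b)] fun x => min (U x) 1 * (γ * ∑ i, α i * pp i x ^ 2) := by
        refine ae_le_of_forall_setIntegral_le (hf2.bdd_mul (c := 1) hmeasmin (ae_of_all _ hb1))
          (hf1.bdd_mul (c := 1) hmeasmin (ae_of_all _ hb1)) fun s hs _ => ?_
        have h1 := hmain (s.indicator fun x => -min (U x) 1) 1
          (hmeasmin.neg.indicator hs) (fun x => ?_) (fun ε h0 h1 x => ?_)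
        · rw [← integral_indicator hs, ← integral_indicator hs]
          have e1 : ∀ f : ℝ → ℝ, ∫ x in Ioo a b, (s.indicator fun x => -min (U x) 1) x * f x =
              -∫ x in Ioo a b, s.indicator (fun x => min (U x) 1 * f x) x := by
            intro f
            rw [← integral_neg]
            refine integral_congr_ae (ae_of_all _ fun x => ?_)
            by_cases hx : x ∈ s <;> simp [hx]
          rw [e1, e1] at h1
          linarith
        · by_cases hx : x ∈ s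
          · simp only [hx, Set.indicator_of_mem, abs_neg]
            exact hb1 x
          · simp [hx]
        · have h2 := hU.1 x
          by_cases hx : x ∈ s
          · simp only [hx, Set.indicator_of_mem]
            have h3 : ε * min (U x) 1 ≤ 1 * U x :=
              mul_le_mul h1 (min_le_left _ _) (hmin x) zero_le_one
            linarith
          · simp [hx]; linarith
      have h4 := (ae_restrict_iff' measurableSet_Ioo).1 hle1
      have h5 := (ae_restrict_iff' measurableSet_Ioo).1 hle2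
      filter_upwards [h4, h5] with x h6 h7 hx
      have h8 := h6 hx
      have h9 := h7 hx
      refine le_antisymm h8 ?_
      rcases (hU.1 x).eq_or_lt with h0 | h0
      · rw [← h0, Real.zero_rpow (by linarith), mul_zero, zero_mul]
        exact hρ0 x
      · exact le_of_mul_le_mul_left h9 (lt_min h0 one_pos)

end Pool.Agent.RLT40
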