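import Pool.Agent.RLT40.MaxEx
import Pool.Agent.RLT40.Nodal
import Pool.Agent.RLT40.Reg
import Pool.Agent.RLT40.VaryB

/-!
# Module BOXOPT (paper 3.2-3.3): existence of a box optimiser with all its structure.

Take the maximiser of exists_max and its weak EL data; replace `U` by the continuous representative
`U x = (γ Σ α_i φ_i² e^{2γx} / (C(2+γ)))^{1/(1+γ)}` on `(a,b)`, `0` outside (continuous since `φ_i ∈ H10` are continuous and vanish at the ends; a.e. equal to the
old `U`, so `nneg`, `G`, `J` do not change); weak_classical; `U > 0` inside: if `Σ α_i φ_i²(x) = 0` then all `φ_i(x) = 0`; but the function with the largest `e` in a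
channel has no interior zero (else `nneg a b (pot k e U) ≥ 1`, by le_nneg_of_zeros with zeros `a < x < b`... contradiction with `cnt`).
-/

open MeasureTheory Set
open scoped ENNReal NNReal

namespace Pool.Agent.RLT40

theorem Jf_congr {γ a b : ℝ} {U U' : ℝ → ℝ} (h : ∀ᵐ x, x ∈ Ioo a b → U x = U' x) : Jf γ a b U = Jf γ a b U' := by
  unfold Jf
  refine lintegral_congr_ae ?_
  have h' : ∀ᵐ x ∂(volume.restrict (Ioo a b)), U x = U' x := by
    rw [ae_restrict_iff' measurableSet_Ioo]; exact h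
  filter_upwards [h'] with x hx
  rw [hx]

theorem Gf_congr {γ a b : ℝ} {U U' : ℝ → ℝ} (h : ∀ᵐ x, x ∈ Ioo a b → U x = U' x) : Gf γ a b U = Gf γ a b U' := by
  unfold Gf Ntot
  have key : ∀ (k τ : ℝ), nneg a b (pot k τ U) = nneg a b (pot k τ U') := by
    intro k τ
    refine nneg_congr ?_
    filter_upwards [h] with x hx hx'
    simp only [pot, hx hx']
  simp only [key]

theorem exists_opt {γ a b : ℝ} (hab : a < b) (hγ : 0 < γ) (hγ1 : γ ≤ 1) {C₀ : ℝ} (hC₀ : 3 / 4 * (3 / 16) * kap γ ≤ C₀)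
    (hex : ∃ U : ℝ → ℝ, Adm1 γ a b U ∧ 0 < Jf γ a b U ∧ ENNReal.ofReal C₀ * Jf γ a b U ≤ Gf γ a b U) :
    ∃ (C : ℝ) (U : ℝ → ℝ), C₀ ≤ C ∧ C ≤ 3 / 16 * kap γ ∧ Opt γ a b C U := by
  obtain ⟨C, U, hC0, hCle, hU, hJ0, hJt, hG, hmax⟩ := exists_max hab hγ hγ1 hC₀ hex
  have hkap : 0 < kap γ := by unfold kap; positivity
  have hC : 0 < C := lt_of_lt_of_le (by positivity) (hC₀.trans hC0)
  obtain ⟨n, k, e, α, φ, hn, W⟩ := exists_weakEL hab hγ hγ1 hC hU hJ0 hG hmax
  have g1 : 0 < 1 + γ := by linarith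
  have g2 : 0 < 2 + γ := by linarith
  -- continuous representative
  set S : ℝ → ℝ := fun x => γ * (∑ i, α i * φ i x ^ 2) * Real.exp (2 * γ * x) / (C * (2 + γ)) with hS
  set Ut : ℝ → ℝ := fun x => S x ^ (1 / (1 + γ)) with hUt
  have hsum0 : ∀ x, 0 ≤ ∑ i, α i * φ i x ^ 2 := fun x =>
    Finset.sum_nonneg fun i _ => mul_nonneg (W.hα i).le (sq_nonneg _)
  have hS0 : ∀ x, 0 ≤ S x := fun x => by
    have := hsum0 x
    simp only [hS]; positivity
  have hScont : Continuous S := by
    have : ∀ i, Continuous (φ i) := fun i => H10_continuous (W.mem i)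
    simp only [hS]
    fun_prop
  have hUtcont : Continuous Ut := hScont.rpow_const fun x => Or.inr (by positivity)
  have hUtpow : ∀ x, Ut x ^ (1 + γ) = S x := by
    intro x
    simp only [hUt]
    rw [← Real.rpow_mul (hS0 x), one_div, inv_mul_cancel₀ g1.ne', Real.rpow_one]
  have hSout : ∀ x, x ∉ Ioo a b → S x = 0 := by
    intro x hx
    have : ∀ i, φ i x = 0 := fun i => H10_zero (W.mem i) hx
    simp [hS, this]
  have hUtout : ∀ x, x ∉ Ioo a b → Ut x = 0 := by
    intro x hx
    simp only [hUt, hSout x hx]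
    exact Real.zero_rpow (by positivity)
  have hae : ∀ᵐ x, x ∈ Ioo a b → U x = Ut x := by
    filter_upwards [W.el] with x hx hx'
    have h1 := hx hx'
    have h2 : S x = U x ^ (1 + γ) := by
      simp only [hS]
      rw [h1, div_eq_iff (by positivity), Real.exp_neg]
      have := Real.exp_pos (2 * γ * x)
      field_simp
    simp only [hUt]
    rw [h2, ← Real.rpow_mul (hU.1 x), one_div, mul_inv_cancel₀ g1.ne', Real.rpow_one]
  have hnn : ∀ (κ τ : ℝ), nneg a b (pot κ τ Ut) = nneg a b (pot κ τ U) := by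
    intro κ τ
    refine nneg_congr ?_
    filter_upwards [hae] with x hx hx'
    simp only [pot, hx hx']
  have hcnt : ∀ κ : ℕ, 1 ≤ κ → ∀ τ : ℝ, 0 ≤ τ →
      nneg a b (pot κ τ Ut) = ((Finset.univ.filter fun i => k i = κ ∧ τ < e i).card : ℕ∞) := by
    intro κ hκ τ hτ
    rw [hnn]; exact W.cnt κ hκ τ hτ
  have hpotc : ∀ κ τ : ℝ, Continuous (pot κ τ Ut) := by
    intro κ τ
    unfold pot om
    fun_prop
  -- classical solutions
  have hcl : ∀ i, ∃ φc ψc : ℝ → ℝ, Sol (pot (k i) (e i) Ut) φc ψc ∧ φc a = 0 ∧ φc b = 0 ∧ ψc a ≠ 0 ∧ ∀ x ∈ Icc a b, φ i x = φc x := by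
    intro i
    refine weak_classical hab (hpotc _ _) (W.mem i) (W.ne i) ?_
    intro f hf
    rw [← W.weak i f hf]
    refine integral_congr_ae ?_
    filter_upwards [hae] with x hx
    by_cases hx' : x ∈ Ioo a b
    · simp only [pot, hx hx']
    · simp only [H10_zero (W.mem i) hx', zero_mul, mul_zero]
  choose φc ψc hsol ha hb hnz heq using hcl
  refine ⟨C, Ut, hC0, hCle, ⟨hab, hC, hUtcont, hUtout, ?_, hmax, ?_, ?_⟩⟩
  · -- positivity
    intro x hx
    rcases (hS0 x).lt_or_eq with h | h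
    · exact Real.rpow_pos_of_pos h _
    exfalso
    have hφ0 : ∀ i, φ i x = 0 := by
      have h1 : ∑ i, α i * φ i x ^ 2 = 0 := by
        by_contra hne
        have hpos : 0 < ∑ i, α i * φ i x ^ 2 := lt_of_le_of_ne (hsum0 x) (Ne.symm hne)
        have : 0 < S x := by simp only [hS]; positivity
        linarith
      intro i
      rw [Finset.sum_eq_zero_iff_of_nonneg (fun i _ => mul_nonneg (W.hα i).le (sq_nonneg _))] at h1
      have := h1 i (Finset.mem_univ _)
      rcases mul_eq_zero.1 this with h2 | h2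
      · exact absurd h2 (W.hα i).ne'
      · exact pow_eq_zero_iff (two_ne_zero) |>.1 h2
    -- the index with the largest `e` in the channel of `0`
    let i₁ : Fin n := ⟨0, hn⟩
    obtain ⟨i₀, hi₀, hmaxe⟩ := Finset.exists_max_image (Finset.univ.filter fun i => k i = k i₁) e ⟨i₁, by simp⟩
    have hk₀ : k i₀ = k i₁ := by simpa using hi₀
    have hm : ∀ i, k i = k i₀ → e i ≤ e i₀ := fun i hi => hmaxe i (by simp [hi, hk₀])
    -- a level between
    obtain ⟨τ, hτ0, hτe, hτ⟩ : ∃ τ, 0 ≤ τ ∧ τ < e i₀ ∧ ∀ i, k i = k i₀ → τ < e i → i = i₀ := by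
      by_cases hex2 : (Finset.univ.filter fun i => k i = k i₀ ∧ i ≠ i₀).Nonempty
      · obtain ⟨j, hj, hjm⟩ := Finset.exists_max_image _ e hex2
        simp only [Finset.mem_filter, Finset.mem_univ, true_and] at hj hjm
        refine ⟨e j, (W.he j).le, ?_, ?_⟩
        · exact lt_of_le_of_ne (hm j hj.1) fun hh => hj.2 (W.inj j i₀ hj.1 hh)
        · intro i hi hlt
          by_contra hne
          exact absurd (hjm i ⟨hi, hne⟩) (not_le.2 hlt)
      · refine ⟨0, le_rfl, W.he i₀, fun i hi _ => ?_⟩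
        by_contra hne
        exact hex2 ⟨i, by simp [hi, hne]⟩
    have hcard : (Finset.univ.filter fun i => k i = k i₀ ∧ τ < e i).card = 1 := by
      rw [Finset.card_eq_one]
      refine ⟨i₀, ?_⟩
      ext i
      simp only [Finset.mem_filter, Finset.mem_univ, true_and, Finset.mem_singleton]
      exact ⟨fun h => hτ i h.1 h.2, fun h => by subst h; exact ⟨rfl, hτe⟩⟩
    have hx0 : φc i₀ x = 0 := by rw [← heq i₀ x (Ioo_subset_Icc_self hx)]; exact hφ0 i₀
    have hW : IntegrableOn (pot (k i₀) τ Ut) (Ioo a b) :=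
      ((hpotc _ _).continuousOn.integrableOn_Icc).mono_set Ioo_subset_Icc_self
    have hne : ∃ y, φc i₀ y ≠ 0 := by
      by_contra hcon
      push Not at hcon
      have hd : HasDerivAt (φc i₀) 0 a := by
        have : φc i₀ = fun _ => 0 := funext hcon
        rw [this]; exact hasDerivAt_const _ _
      exact hnz i₀ ((hsol i₀).d1 a |>.unique hd)
    let z : ℕ → ℝ := fun i => if i = 0 then a else if i = 1 then x else b
    have h2 : ((2 : ℕ) : ℕ∞) ≤ nneg a b (pot (k i₀) τ Ut) := by
      refine le_nneg_of_zeros (hpotc _ _) (hsol i₀) hne z ?_ ?_ hW ?_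
      · intro i hi
        interval_cases i
        · simp [z, ha, hab.le]
        · simp [z, hx0, hx.1.le, hx.2.le]
        · simp [z, hb, hab.le]
      · intro i hi
        interval_cases i
        · simp [z, hx.1]
        · simp [z, hx.2]
      · intro y _
        simp only [pot]
        have : τ * om y < e i₀ * om y := mul_lt_mul_of_pos_right hτe (Real.exp_pos _)
        linarith
    rw [hcnt (k i₀) (W.hk i₀) τ hτ0, hcard] at h2
    norm_num at h2
  · rw [← Gf_congr hae, ← Jf_congr hae]; exact hG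
  · refine ⟨n, k, e, α, φc, ψc, hn, ⟨W.hk, W.he, W.hα, hsol, ha, hb, hnz, W.inj, ?_, ?_, hcnt⟩⟩
    · intro i
      rw [← W.norm i]
      congr 1
      rw [intervalIntegral.integral_of_le hab.le, integral_Ioc_eq_integral_Ioo,
        ← integral_indicator measurableSet_Ioo]
      congr 1
      ext x
      by_cases hx : x ∈ Ioo a b
      · rw [Set.indicator_of_mem hx, heq i x (Ioo_subset_Icc_self hx)]
      · rw [Set.indicator_of_notMem hx, H10_zero (W.mem i) hx]; simp
    · intro x hx
      have h1 : ∀ i, φc i x = φ i x := fun i => (heq i x hx).symm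
      simp only [h1]
      rw [hUtpow x]
      simp only [hS]
      rw [Real.exp_neg]
      have := Real.exp_pos (2 * γ * x)
      field_simp

end Pool.Agent.RLT40
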