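import Pool.Agent.RLT40.Defs

/-!
# Module CLR (paper 2.A2): Cwikel-Lieb-Rozenblum bound in `ℝ⁴` (Rumin / Frank).

`F` negative for `form4 W τ`, dim `N`; basis `u_j` with `∫ ∇u_i·∇u_j = δ_ij` (the form `∫|∇u|²` is positive definite on test functions).  `N = Σ∫|∇u_j|² < ∫ (W-τ)_+ ρ`, `ρ = Σu_j²`.
Fourier (Mathlib normalisation `e^{-2πi<x,ξ>}`): `∫|∇u|² = (2π)²∫|ξ|²|û|²`; `v_j = 2π|ξ|û_j` orthonormal in `L²(ℝ⁴;ℂ)`.  For `E > 0` split `û = û1_{|ξ|≤E} + û1_{|ξ|>E}`: Bessel: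
`Σ_j|∫_{|ξ|≤E} e^{2πixξ}û_j|² ≤ ∫_{|ξ|≤E} (2π|ξ|)^{-2} = c²E²`; so `Σ_j|u_j^{>E}(x)|² ≥ (sqrt ρ(x) - cE)_+²` and by Plancherel
`N = Σ∫(2π)²|ξ|²|û_j|² = (2π)²∫_0^∞ 2E dE Σ∫|u_j^{>E}(x)|²dx ≥ (2π)²∫dx∫_0^∞2E(sqrt ρ - cE)_+²dE = c'∫ρ²`.  So `N ≤ (∫(W-τ)_+²)^{1/2}(N/c')^{1/2}`.
clr_riesz: `∫_0^∞ γτ^{γ-1}(W-τ)_+² dτ = κ_γ W^{2+γ}`.
-/

open MeasureTheory Set SchwartzMap
open scoped ENNReal NNReal FourierTransform SchwartzMap LineDeriv

namespace Pool.Agent.RLT40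

/-- complexification of a test function -/
noncomputable def CLRa_f (u : En 4 → ℝ) (hu : u ∈ Test 4) : 𝓢(En 4, ℂ) :=
  HasCompactSupport.toSchwartzMap (f := fun x => (u x : ℂ)) (hu.2.comp_left Complex.ofReal_zero)
    (Complex.ofRealCLM.contDiff.comp hu.1)

theorem CLRa_f_apply {u : En 4 → ℝ} (hu : u ∈ Test 4) (x : En 4) : CLRa_f u hu x = (u x : ℂ) := rfl

theorem CLRa_f_deriv {u : En 4 → ℝ} (hu : u ∈ Test 4) (m x : En 4) :
    ∂_{m} (CLRa_f u hu) x = ((fderiv ℝ u x m : ℝ) : ℂ) := by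
  rw [lineDerivOp_apply_eq_fderiv]
  have h1 : HasFDerivAt u (fderiv ℝ u x) x := (hu.1.differentiable (by simp) x).hasFDerivAt
  have h2 : HasFDerivAt (fun x => (u x : ℂ)) (Complex.ofRealCLM.comp (fderiv ℝ u x)) x :=
    Complex.ofRealCLM.hasFDerivAt.comp x h1
  have h3 : fderiv ℝ (CLRa_f u hu) x = Complex.ofRealCLM.comp (fderiv ℝ u x) := h2.fderiv
  rw [h3]
  rfl

theorem CLRa_int (f g : 𝓢(En 4, ℂ)) : Integrable fun ξ => inner ℂ (f ξ) (g ξ) := by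
  have h1 : MemLp (fun ξ => (starRingEnd ℂ) (f ξ)) 2 (volume : Measure (En 4)) := (f.memLp 2 volume).star
  have h2 : MemLp (g : En 4 → ℂ) 2 volume := g.memLp 2 volume
  have h3 := h2.integrable_mul h1
  refine h3.congr (Filter.Eventually.of_forall fun ξ => ?_)
  simp [inner]

theorem CLRa_fourier_deriv (f : 𝓢(En 4, ℂ)) (m ξ : En 4) :
    𝓕 (∂_{m} f) ξ = (2 * Real.pi * Complex.I) * ((inner ℝ ξ m : ℝ) : ℂ) * 𝓕 f ξ := by
  rw [fourier_lineDerivOp_eq]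
  have h : (inner ℝ · m : En 4 → ℝ).HasTemperateGrowth := by fun_prop
  rw [smul_apply, smulLeftCLM_apply_apply h]
  simp [mul_assoc]

theorem CLRa_plancherel {u v : En 4 → ℝ} (hu : u ∈ Test 4) (hv : v ∈ Test 4) :
    ((∫ x, inner ℝ (gradient u x) (gradient v x) : ℝ) : ℂ) =
      ∫ ξ : En 4, (((2 * Real.pi) ^ 2 * ‖ξ‖ ^ 2 : ℝ) : ℂ) * inner ℂ (𝓕 (CLRa_f u hu) ξ) (𝓕 (CLRa_f v hv) ξ) := by
  set b := EuclideanSpace.basisFun (Fin 4) ℝ with hb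
  have h1 : ∀ x, ((inner ℝ (gradient u x) (gradient v x) : ℝ) : ℂ) =
      ∑ m, inner ℂ (∂_{b m} (CLRa_f u hu) x) (∂_{b m} (CLRa_f v hv) x) := by
    intro x
    rw [← b.sum_inner_mul_inner (gradient u x) (gradient v x)]
    push_cast
    refine Finset.sum_congr rfl fun m _ => ?_
    rw [CLRa_f_deriv, CLRa_f_deriv, inner_gradient_left, real_inner_comm, inner_gradient_left]
    simp [inner, mul_comm]
  have h2 : ∀ ξ : En 4, (((2 * Real.pi) ^ 2 * ‖ξ‖ ^ 2 : ℝ) : ℂ) * inner ℂ (𝓕 (CLRa_f u hu) ξ) (𝓕 (CLRa_f v hv) ξ) =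
      ∑ m, inner ℂ (𝓕 (∂_{b m} (CLRa_f u hu)) ξ) (𝓕 (∂_{b m} (CLRa_f v hv)) ξ) := by
    intro ξ
    rw [← b.sum_sq_inner_left ξ]
    push_cast
    rw [Finset.mul_sum, Finset.sum_mul]
    refine Finset.sum_congr rfl fun m _ => ?_
    rw [CLRa_fourier_deriv, CLRa_fourier_deriv, RCLike.inner_apply, RCLike.inner_apply]
    simp only [map_mul, Complex.conj_ofReal, Complex.conj_I, map_ofNat]
    ring_nf
    rw [Complex.I_sq]
    ring
  rw [← integral_complex_ofReal]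
  simp_rw [h1, h2]
  rw [integral_finsetSum _ (fun m _ => CLRa_int _ _), integral_finsetSum _ (fun m _ => CLRa_int _ _)]
  refine Finset.sum_congr rfl fun m _ => ?_
  exact (integral_inner_fourier_fourier _ _).symm


/-- the weighted form -/
noncomputable def CLRa_Q (f g : 𝓢(En 4, ℂ)) : ℂ :=
  ∫ ξ : En 4, (((2 * Real.pi) ^ 2 * ‖ξ‖ ^ 2 : ℝ) : ℂ) * inner ℂ (f ξ) (g ξ)

theorem CLRa_Q_int (f g : 𝓢(En 4, ℂ)) :
    Integrable fun ξ : En 4 => (((2 * Real.pi) ^ 2 * ‖ξ‖ ^ 2 : ℝ) : ℂ) * inner ℂ (f ξ) (g ξ) := by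
  have h : (fun ξ : En 4 => ‖ξ‖ ^ 2).HasTemperateGrowth := Function.hasTemperateGrowth_norm_sq _
  have h1 := (CLRa_int f (smulLeftCLM ℂ (fun ξ : En 4 => ‖ξ‖ ^ 2) g)).const_mul ((((2 * Real.pi) ^ 2 : ℝ)) : ℂ)
  refine h1.congr (Filter.Eventually.of_forall fun ξ => ?_)
  simp only
  rw [smulLeftCLM_apply_apply h, inner_smul_right_eq_smul]
  push_cast
  rw [Complex.real_smul]
  push_cast
  ring

theorem CLRa_Q_sum {N : ℕ} (F : Fin N → 𝓢(En 4, ℂ)) (hF : ∀ i j, CLRa_Q (F i) (F j) = if i = j then 1 else 0) (a : Fin N → ℂ) :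
    CLRa_Q (∑ j, a j • F j) (∑ j, a j • F j) = ∑ j, ((‖a j‖ ^ 2 : ℝ) : ℂ) := by
  have h1 : ∀ ξ : En 4, (((2 * Real.pi) ^ 2 * ‖ξ‖ ^ 2 : ℝ) : ℂ) * inner ℂ ((∑ j, a j • F j : 𝓢(En 4, ℂ)) ξ) ((∑ j, a j • F j : 𝓢(En 4, ℂ)) ξ) =
      ∑ i, ∑ j, (starRingEnd ℂ (a i) * a j) * ((((2 * Real.pi) ^ 2 * ‖ξ‖ ^ 2 : ℝ) : ℂ) * inner ℂ (F i ξ) (F j ξ)) := by
    intro ξ
    rw [sum_apply, sum_inner, Finset.mul_sum]
    refine Finset.sum_congr rfl fun i _ => ?_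
    rw [inner_sum, Finset.mul_sum]
    refine Finset.sum_congr rfl fun j _ => ?_
    rw [smul_apply, smul_apply, inner_smul_left, inner_smul_right]
    ring
  unfold CLRa_Q
  simp_rw [h1]
  rw [integral_finsetSum _ (fun i _ => integrable_finsetSum _ fun j _ => (CLRa_Q_int (F i) (F j)).const_mul _)]
  refine Finset.sum_congr rfl fun i _ => ?_
  rw [integral_finsetSum _ (fun j _ => (CLRa_Q_int (F i) (F j)).const_mul _)]
  simp_rw [integral_const_mul]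
  have h2 : ∀ j, (∫ ξ : En 4, (((2 * Real.pi) ^ 2 * ‖ξ‖ ^ 2 : ℝ) : ℂ) * inner ℂ (F i ξ) (F j ξ)) = if i = j then 1 else 0 := hF i
  simp_rw [h2]
  rw [Finset.sum_eq_single i]
  · rw [if_pos rfl, mul_one, ← Complex.normSq_eq_norm_sq, mul_comm, Complex.mul_conj]
  · intro j _ hj
    rw [if_neg (Ne.symm hj), mul_zero]
  · intro h
    exact absurd (Finset.mem_univ i) h

theorem CLRa_Q_self (f : 𝓢(En 4, ℂ)) : CLRa_Q f f = ((∫ ξ : En 4, (2 * Real.pi) ^ 2 * ‖ξ‖ ^ 2 * ‖f ξ‖ ^ 2 : ℝ) : ℂ) := by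
  unfold CLRa_Q
  rw [← integral_complex_ofReal]
  congr 1
  funext ξ
  rw [inner_self_eq_norm_sq_to_K]
  push_cast
  rfl

theorem CLRa_Q_int' (f : 𝓢(En 4, ℂ)) : Integrable fun ξ : En 4 => (2 * Real.pi) ^ 2 * ‖ξ‖ ^ 2 * ‖f ξ‖ ^ 2 := by
  have h := (CLRa_Q_int f f).re
  refine h.congr (Filter.Eventually.of_forall fun ξ => ?_)
  simp only
  rw [inner_self_eq_norm_sq_to_K]
  have : ((((2 * Real.pi) ^ 2 * ‖ξ‖ ^ 2 : ℝ) : ℂ) * ((‖f ξ‖ : ℂ) ^ 2)) = (((2 * Real.pi) ^ 2 * ‖ξ‖ ^ 2 * ‖f ξ‖ ^ 2 : ℝ) : ℂ) := by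
    push_cast
    ring
  change RCLike.re ((((2 * Real.pi) ^ 2 * ‖ξ‖ ^ 2 : ℝ) : ℂ) * ((‖f ξ‖ : ℂ) ^ 2)) = _
  rw [this]
  exact Complex.ofReal_re _


/-- the local integral of `|ξ|^{-2}` in dimension 4 -/
theorem CLRa_ball {r : ℝ} (hr : 0 < r) :
    Integrable (fun ξ : En 4 => (Iio r).indicator (fun y : ℝ => (y ^ 2)⁻¹) ‖ξ‖) ∧
      ∫ ξ : En 4, (Iio r).indicator (fun y : ℝ => (y ^ 2)⁻¹) ‖ξ‖ = 2 * volume.real (Metric.ball (0 : En 4) 1) * r ^ 2 := by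
  have hd : Module.finrank ℝ (En 4) = 4 := by simp
  have h1 : ∀ y ∈ Ioi (0 : ℝ), y ^ (Module.finrank ℝ (En 4) - 1) • (Iio r).indicator (fun y : ℝ => (y ^ 2)⁻¹) y =
      (Iio r).indicator (fun y : ℝ => y) y := by
    intro y hy
    have hy' : 0 < y := hy
    rw [hd]
    by_cases h : y < r
    · rw [Set.indicator_of_mem (show y ∈ Iio r from h), Set.indicator_of_mem (show y ∈ Iio r from h), smul_eq_mul]
      field_simp
    · rw [Set.indicator_of_notMem (show y ∉ Iio r from h), Set.indicator_of_notMem (show y ∉ Iio r from h), smul_zero]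
  have h2 : IntegrableOn (fun y : ℝ => y) (Ioi 0 ∩ Iio r) := by
    rw [Ioi_inter_Iio]
    exact (continuous_id.integrableOn_Icc (a := 0) (b := r)).mono_set Ioo_subset_Icc_self
  constructor
  · rw [integrable_fun_norm_addHaar volume (f := (Iio r).indicator (fun y : ℝ => (y ^ 2)⁻¹)),
      integrableOn_congr_fun h1 measurableSet_Ioi, IntegrableOn, integrable_indicator_iff measurableSet_Iio, IntegrableOn,
      Measure.restrict_restrict measurableSet_Iio, Set.inter_comm]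
    exact h2
  · rw [integral_fun_norm_addHaar volume ((Iio r).indicator (fun y : ℝ => (y ^ 2)⁻¹)),
      setIntegral_congr_fun measurableSet_Ioi h1, integral_indicator measurableSet_Iio,
      Measure.restrict_restrict measurableSet_Iio, Set.inter_comm, Ioi_inter_Iio, ← integral_Ioc_eq_integral_Ioo,
      ← intervalIntegral.integral_of_le hr.le, integral_id, hd]
    simp only [nsmul_eq_mul, smul_eq_mul]
    push_cast
    ring

theorem CLRa_bessel {N : ℕ} (F : Fin N → 𝓢(En 4, ℂ)) (hF : ∀ i j, CLRa_Q (F i) (F j) = if i = j then 1 else 0)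
    {w : En 4 → ℂ} (hw : Continuous w) {r : ℝ} (hr : 0 < r) (hw1 : ∀ ξ, ‖w ξ‖ ≤ 1) (hw0 : ∀ ξ, r ≤ ‖ξ‖ → w ξ = 0) :
    ∑ j, ‖∫ ξ, w ξ * F j ξ‖ ^ 2 ≤ ((2 * Real.pi) ^ 2)⁻¹ * (2 * volume.real (Metric.ball (0 : En 4) 1) * r ^ 2) := by
  set L : Fin N → ℂ := fun j => ∫ ξ, w ξ * F j ξ with hL
  set G : 𝓢(En 4, ℂ) := ∑ j, (starRingEnd ℂ (L j)) • F j with hG
  have hπ : 0 < 2 * Real.pi := by positivity
  obtain ⟨hi, hv⟩ := CLRa_ball hr
  have hwint : ∀ g : 𝓢(En 4, ℂ), Integrable fun ξ => w ξ * g ξ := by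
    intro g
    exact g.integrable.bdd_mul hw.aestronglyMeasurable (Filter.Eventually.of_forall hw1)
  have hS : ∑ j, ((‖L j‖ ^ 2 : ℝ) : ℂ) = ∫ ξ, w ξ * G ξ := by
    have h1 : ∀ ξ, w ξ * G ξ = ∑ j, starRingEnd ℂ (L j) * (w ξ * F j ξ) := by
      intro ξ
      rw [hG, sum_apply, Finset.mul_sum]
      refine Finset.sum_congr rfl fun j _ => ?_
      rw [smul_apply, smul_eq_mul]
      ring
    simp_rw [h1]
    rw [integral_finsetSum _ (fun j _ => (hwint (F j)).const_mul _)]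
    refine Finset.sum_congr rfl fun j _ => ?_
    rw [integral_const_mul]
    change _ = starRingEnd ℂ (L j) * L j
    rw [← Complex.normSq_eq_norm_sq, mul_comm, Complex.mul_conj]
  have hQ : ∑ j, ‖L j‖ ^ 2 = ∫ ξ : En 4, (2 * Real.pi) ^ 2 * ‖ξ‖ ^ 2 * ‖G ξ‖ ^ 2 := by
    have h1 := CLRa_Q_sum F hF fun j => starRingEnd ℂ (L j)
    rw [CLRa_Q_self] at h1
    have h2 : ∑ j, (((‖starRingEnd ℂ (L j)‖ ^ 2 : ℝ)) : ℂ) = ((∑ j, ‖L j‖ ^ 2 : ℝ) : ℂ) := by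
      push_cast
      refine Finset.sum_congr rfl fun j _ => ?_
      rw [RCLike.norm_conj]
    rw [h2] at h1
    exact (Complex.ofReal_inj.1 h1).symm
  have hbound : ∑ j, ‖L j‖ ^ 2 ≤ ∫ ξ : En 4, (1 / 2 * ((2 * Real.pi) ^ 2)⁻¹ * (Iio r).indicator (fun y : ℝ => (y ^ 2)⁻¹) ‖ξ‖ +
      1 / 2 * ((2 * Real.pi) ^ 2 * ‖ξ‖ ^ 2 * ‖G ξ‖ ^ 2)) := by
    have h1 : ∑ j, ‖L j‖ ^ 2 = ‖∫ ξ, w ξ * G ξ‖ := by
      rw [← hS]
      have h3 : ∑ j, (((‖L j‖ ^ 2 : ℝ)) : ℂ) = ((∑ j, ‖L j‖ ^ 2 : ℝ) : ℂ) := by push_cast; rfl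
      rw [h3, Complex.norm_real, Real.norm_of_nonneg (Finset.sum_nonneg fun j _ => sq_nonneg _)]
    rw [h1]
    refine (norm_integral_le_integral_norm _).trans ?_
    apply integral_mono_ae (hwint G).norm ((hi.const_mul _).add ((CLRa_Q_int' G).const_mul _))
    have h0 : ∀ᵐ ξ : En 4, ξ ≠ 0 := by
      simp [ae_iff]
    filter_upwards [h0] with ξ hξ
    have hξ' : 0 < ‖ξ‖ := norm_pos_iff.2 hξ
    rw [norm_mul]
    simp only [Pi.add_apply]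
    by_cases h : ‖ξ‖ < r
    · rw [Set.indicator_of_mem (show ‖ξ‖ ∈ Iio r from h)]
      have h2 : ‖w ξ‖ * ‖G ξ‖ ≤ ‖G ξ‖ := mul_le_of_le_one_left (norm_nonneg _) (hw1 ξ)
      have h3 : ‖G ξ‖ = (2 * Real.pi * ‖ξ‖)⁻¹ * (2 * Real.pi * ‖ξ‖ * ‖G ξ‖) := by
        field_simp
      have h4 : (2 * Real.pi * ‖ξ‖)⁻¹ * (2 * Real.pi * ‖ξ‖ * ‖G ξ‖) ≤
          1 / 2 * ((2 * Real.pi * ‖ξ‖)⁻¹) ^ 2 + 1 / 2 * (2 * Real.pi * ‖ξ‖ * ‖G ξ‖) ^ 2 := by
        nlinarith [sq_nonneg ((2 * Real.pi * ‖ξ‖)⁻¹ - 2 * Real.pi * ‖ξ‖ * ‖G ξ‖)]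
      have h5 : ((2 * Real.pi * ‖ξ‖)⁻¹) ^ 2 = ((2 * Real.pi) ^ 2)⁻¹ * (‖ξ‖ ^ 2)⁻¹ := by
        rw [inv_pow, mul_pow, mul_inv]
      rw [h5] at h4
      have h6 : (2 * Real.pi * ‖ξ‖ * ‖G ξ‖) ^ 2 = (2 * Real.pi) ^ 2 * ‖ξ‖ ^ 2 * ‖G ξ‖ ^ 2 := by ring
      rw [h6] at h4
      calc ‖w ξ‖ * ‖G ξ‖ ≤ ‖G ξ‖ := h2
        _ = _ := h3
        _ ≤ _ := h4
        _ = _ := by ring
    · rw [Set.indicator_of_notMem (show ‖ξ‖ ∉ Iio r from h), hw0 ξ (not_lt.1 h), norm_zero, zero_mul]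
      positivity
  rw [integral_add (hi.const_mul _) ((CLRa_Q_int' G).const_mul _), integral_const_mul, integral_const_mul, ← hQ, hv] at hbound
  change ∑ j, ‖L j‖ ^ 2 ≤ _
  linarith


/-- smooth cutoff at frequency `2^k` -/
noncomputable def CLRa_bump (k : ℤ) : ContDiffBump (0 : En 4) where
  rIn := 2 ^ k
  rOut := 2 ^ (k + 1)
  rIn_pos := by positivity
  rIn_lt_rOut := by
    rw [zpow_add_one₀ (by norm_num)]
    have : (0 : ℝ) < 2 ^ k := by positivity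
    linarith

theorem CLRa_temp (k : ℤ) : (CLRa_bump k : En 4 → ℝ).HasTemperateGrowth :=
  (CLRa_bump k).hasCompactSupport.hasTemperateGrowth (CLRa_bump k).contDiff

/-- low frequency part -/
noncomputable def CLRa_L (k : ℤ) (f : 𝓢(En 4, ℂ)) : 𝓢(En 4, ℂ) :=
  𝓕⁻ (smulLeftCLM ℂ (CLRa_bump k : En 4 → ℝ) (𝓕 f))

theorem CLRa_L_eq (k : ℤ) (f : 𝓢(En 4, ℂ)) (x : En 4) :
    CLRa_L k f x = ∫ ξ : En 4, (Complex.exp (↑(2 * Real.pi * inner ℝ ξ x) * Complex.I) * (CLRa_bump k ξ : ℂ)) * 𝓕 f ξ := by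
  unfold CLRa_L
  rw [fourierInv_coe, Real.fourierInv_eq']
  congr 1
  funext ξ
  rw [smulLeftCLM_apply_apply (CLRa_temp k), smul_eq_mul, Complex.real_smul]
  ring

theorem CLRa_low {N : ℕ} (f : Fin N → 𝓢(En 4, ℂ)) (hF : ∀ i j, CLRa_Q (𝓕 (f i)) (𝓕 (f j)) = if i = j then 1 else 0)
    (k : ℤ) (x : En 4) :
    ∑ j, ‖CLRa_L k (f j) x‖ ^ 2 ≤ ((2 * Real.pi) ^ 2)⁻¹ * (8 * volume.real (Metric.ball (0 : En 4) 1)) * 4 ^ k := by
  have h := CLRa_bessel (fun j => 𝓕 (f j)) hF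
    (w := fun ξ => Complex.exp (↑(2 * Real.pi * inner ℝ ξ x) * Complex.I) * (CLRa_bump k ξ : ℂ)) ?_
    (r := 2 ^ (k + 1)) (by positivity) ?_ ?_
  · simp_rw [← CLRa_L_eq] at h
    refine h.trans (le_of_eq ?_)
    have h5 : (4 : ℝ) ^ k = ((2 : ℝ) ^ k) ^ 2 := by
      rw [show (4 : ℝ) = 2 ^ 2 by norm_num, ← zpow_natCast, ← zpow_natCast, ← zpow_mul, ← zpow_mul, mul_comm]
    rw [h5, zpow_add_one₀ (by norm_num)]
    ring
  · have := (CLRa_bump k).continuous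
    fun_prop
  · intro ξ
    rw [norm_mul, Complex.norm_exp_ofReal_mul_I, one_mul, Complex.norm_real, Real.norm_of_nonneg (CLRa_bump k).nonneg]
    exact (CLRa_bump k).le_one
  · intro ξ hξ
    rw [(CLRa_bump k).zero_of_le_dist (by rw [dist_zero_right]; exact hξ)]
    simp

theorem CLRa_high (k : ℤ) (f : 𝓢(En 4, ℂ)) :
    ∫⁻ x, ENNReal.ofReal (‖f x - CLRa_L k f x‖ ^ 2) ≤
      ∫⁻ ξ : En 4, ENNReal.ofReal (‖𝓕 f ξ‖ ^ 2) * (if (2 : ℝ) ^ k < ‖ξ‖ then 1 else 0) := by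
  set g : 𝓢(En 4, ℂ) := f - CLRa_L k f with hg
  have h1 : 𝓕 g = 𝓕 f - smulLeftCLM ℂ (CLRa_bump k : En 4 → ℝ) (𝓕 f) := by
    rw [hg, sub_eq_add_neg, FourierTransform.fourier_add, FourierTransform.fourier_neg, ← sub_eq_add_neg]
    unfold CLRa_L
    rw [FourierTransform.fourier_fourierInv_eq]
  have hint : ∀ h : 𝓢(En 4, ℂ), Integrable fun ξ => ‖h ξ‖ ^ 2 := fun h => (h.memLp 2 volume).integrable_norm_pow (by norm_num)
  have h2 : ∫⁻ x, ENNReal.ofReal (‖f x - CLRa_L k f x‖ ^ 2) = ∫⁻ ξ, ENNReal.ofReal (‖𝓕 g ξ‖ ^ 2) := by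
    rw [← ofReal_integral_eq_lintegral_ofReal (hint (𝓕 g)) (Filter.Eventually.of_forall fun _ => sq_nonneg _),
      integral_norm_sq_fourier, ofReal_integral_eq_lintegral_ofReal (hint g) (Filter.Eventually.of_forall fun _ => sq_nonneg _)]
    rfl
  rw [h2]
  apply lintegral_mono
  intro ξ
  simp only
  rw [h1, sub_apply, smulLeftCLM_apply_apply (CLRa_temp k)]
  split_ifs with h
  · rw [mul_one]
    apply ENNReal.ofReal_le_ofReal
    have h3 : 𝓕 f ξ - (CLRa_bump k) ξ • 𝓕 f ξ = (1 - (CLRa_bump k) ξ) • 𝓕 f ξ := by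
      rw [sub_smul, one_smul]
    rw [h3, norm_smul, mul_pow, Real.norm_of_nonneg (by have := (CLRa_bump k).le_one (x := ξ); linarith)]
    have h4 := (CLRa_bump k).le_one (x := ξ)
    have h5 := (CLRa_bump k).nonneg (x := ξ)
    have h6 : (1 - (CLRa_bump k) ξ) ^ 2 ≤ 1 := by nlinarith
    exact mul_le_of_le_one_left (sq_nonneg _) h6
  · rw [(CLRa_bump k).one_of_mem_closedBall (by
      rw [mem_closedBall_zero_iff]; exact not_lt.1 h)]
    simp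

theorem CLRa_geom {r : ℝ} (hr : 0 ≤ r) :
    ∑' k : ℤ, ENNReal.ofReal ((4 : ℝ) ^ k) * (if (2 : ℝ) ^ k < r then 1 else 0) ≤ ENNReal.ofReal (4 / 3 * r ^ 2) := by
  rcases hr.eq_or_lt with rfl | hr'
  · have : ∀ k : ℤ, ¬ (2 : ℝ) ^ k < 0 := fun k => not_lt.2 (by positivity)
    simp [this]
  obtain ⟨n, hn1, hn2⟩ := exists_mem_Ioc_zpow hr' (one_lt_two)
  have hinj : Function.Injective (fun m : ℕ => n - (m : ℤ)) := by
    intro a b hab
    simp only at hab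
    omega
  have hsupp : Function.support (fun k : ℤ => ENNReal.ofReal ((4 : ℝ) ^ k) * (if (2 : ℝ) ^ k < r then (1 : ℝ≥0∞) else 0)) ⊆
      Set.range (fun m : ℕ => n - (m : ℤ)) := by
    intro k hk
    by_contra hcon
    apply hk
    have hkn : n + 1 ≤ k := by
      by_contra h
      apply hcon
      refine ⟨(n - k).toNat, ?_⟩
      simp only
      omega
    have h1 : ¬ (2 : ℝ) ^ k < r := by
      have : (2 : ℝ) ^ (n + 1) ≤ 2 ^ k := zpow_le_zpow_right₀ (by norm_num) hkn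
      linarith
    simp only
    rw [if_neg h1, mul_zero]
  rw [← hinj.tsum_eq hsupp]
  have h2 : ∀ m : ℕ, ENNReal.ofReal ((4 : ℝ) ^ (n - (m : ℤ))) * (if (2 : ℝ) ^ (n - (m : ℤ)) < r then (1 : ℝ≥0∞) else 0) ≤
      ENNReal.ofReal ((4 : ℝ) ^ n * (1 / 4) ^ m) := by
    intro m
    have h3 : (4 : ℝ) ^ (n - (m : ℤ)) = (4 : ℝ) ^ n * (1 / 4) ^ m := by
      rw [zpow_sub₀ (by norm_num), zpow_natCast, one_div, inv_pow, div_eq_mul_inv]
    rw [h3]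
    split_ifs
    · rw [mul_one]
    · rw [mul_zero]; exact bot_le
  refine (ENNReal.tsum_le_tsum h2).trans ?_
  have hs : Summable fun m : ℕ => (4 : ℝ) ^ n * (1 / 4) ^ m :=
    (summable_geometric_of_lt_one (by norm_num) (by norm_num)).mul_left _
  rw [← ENNReal.ofReal_tsum_of_nonneg (fun m => by positivity) hs]
  apply ENNReal.ofReal_le_ofReal
  rw [tsum_mul_left, tsum_geometric_of_lt_one (by norm_num) (by norm_num)]
  have h4 : (4 : ℝ) ^ n ≤ r ^ 2 := by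
    have h5 : (4 : ℝ) ^ n = ((2 : ℝ) ^ n) ^ 2 := by
      rw [show (4 : ℝ) = 2 ^ 2 by norm_num, ← zpow_natCast, ← zpow_natCast, ← zpow_mul, ← zpow_mul, mul_comm]
    rw [h5]
    have : (0 : ℝ) < 2 ^ n := by positivity
    gcongr
  norm_num
  linarith


theorem CLRa_point {A ρ : ℝ} (hA : 0 < A) (hρ : 0 < ρ) {H Lo : ℤ → ℝ} (hLo : ∀ k, Lo k ≤ A * 4 ^ k)
    (h : ∀ k, ρ ≤ 2 * Lo k + 2 * H k) :
    ∃ k : ℤ, ρ ^ 2 ≤ 64 * A * (4 ^ k * H k) := by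
  obtain ⟨k, hk1, hk2⟩ := exists_mem_Ioc_zpow (x := ρ / (4 * A)) (y := (4 : ℝ)) (by positivity) (by norm_num)
  refine ⟨k, ?_⟩
  have h4 : (0 : ℝ) < 4 ^ k := by positivity
  rw [lt_div_iff₀ (by positivity)] at hk1
  rw [div_le_iff₀ (by positivity), zpow_add_one₀ (by norm_num)] at hk2
  have h5 := hLo k
  have h6 := h k
  have h7 : ρ / 4 ≤ H k := by linarith
  calc ρ ^ 2 = ρ * ρ := by ring
    _ ≤ (4 ^ k * 4 * (4 * A)) * (4 * H k) := by
      apply mul_le_mul hk2 (by linarith) hρ.le (by positivity)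
    _ = 64 * A * (4 ^ k * H k) := by ring

/-- the inequality for densities -/
theorem rumin : ∃ c > 0, ∀ (N : ℕ) (u : Fin N → En 4 → ℝ), (∀ j, u j ∈ Test 4) →
    (∀ i j, ∫ x, inner ℝ (gradient (u i) x) (gradient (u j) x) = if i = j then (1 : ℝ) else 0) →
      c * ∫ x, (∑ j, u j x ^ 2) ^ 2 ≤ N := by
  set V : ℝ := volume.real (Metric.ball (0 : En 4) 1) with hV
  have hVpos : 0 < V := by
    rw [hV, Measure.real]
    exact ENNReal.toReal_pos (Metric.measure_ball_pos _ _ one_pos).ne' measure_ball_lt_top.ne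
  set A : ℝ := ((2 * Real.pi) ^ 2)⁻¹ * (8 * V) with hAdef
  have hA : 0 < A := by positivity
  set D : ℝ := 64 * A * (4 / 3 * ((2 * Real.pi) ^ 2)⁻¹) with hD
  have hDpos : 0 < D := by positivity
  refine ⟨D⁻¹, by positivity, ?_⟩
  intro N u hu ho
  set f : Fin N → 𝓢(En 4, ℂ) := fun j => CLRa_f (u j) (hu j) with hf
  have hF : ∀ i j, CLRa_Q (𝓕 (f i)) (𝓕 (f j)) = if i = j then 1 else 0 := by
    intro i j
    have h1 := CLRa_plancherel (hu i) (hu j)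
    rw [ho i j] at h1
    unfold CLRa_Q
    rw [← h1]
    split_ifs <;> simp
  set H : ℤ → En 4 → ℝ := fun k x => ∑ j, ‖f j x - CLRa_L k (f j) x‖ ^ 2 with hH
  have hHnn : ∀ k x, 0 ≤ H k x := fun k x => Finset.sum_nonneg fun _ _ => sq_nonneg _
  -- pointwise bound
  have hpt : ∀ x, ENNReal.ofReal ((∑ j, u j x ^ 2) ^ 2) ≤
      ENNReal.ofReal (64 * A) * ∑' k : ℤ, ENNReal.ofReal ((4 : ℝ) ^ k) * ENNReal.ofReal (H k x) := by
    intro x
    have hρ0 : 0 ≤ ∑ j, u j x ^ 2 := Finset.sum_nonneg fun _ _ => sq_nonneg _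
    rcases hρ0.eq_or_lt with h0 | hpos
    · rw [← h0]
      simp
    obtain ⟨k, hk⟩ := CLRa_point hA hpos (H := fun k => H k x) (Lo := fun k => ∑ j, ‖CLRa_L k (f j) x‖ ^ 2)
      (fun k => CLRa_low f hF k x) (by
        intro k
        simp only [hH]
        rw [Finset.mul_sum, Finset.mul_sum, ← Finset.sum_add_distrib]
        refine Finset.sum_le_sum fun j _ => ?_
        have h1 : ‖f j x‖ ≤ ‖CLRa_L k (f j) x‖ + ‖f j x - CLRa_L k (f j) x‖ := by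
          have := norm_add_le (CLRa_L k (f j) x) (f j x - CLRa_L k (f j) x)
          rwa [add_sub_cancel] at this
        have h2 : ‖f j x‖ ^ 2 = u j x ^ 2 := by
          rw [hf]
          simp only
          rw [CLRa_f_apply, Complex.norm_real, Real.norm_eq_abs, sq_abs]
        rw [← h2]
        have h3 := norm_nonneg (f j x)
        nlinarith [sq_nonneg (‖CLRa_L k (f j) x‖ - ‖f j x - CLRa_L k (f j) x‖)])
    calc ENNReal.ofReal ((∑ j, u j x ^ 2) ^ 2) ≤ ENNReal.ofReal (64 * A * (4 ^ k * H k x)) := ENNReal.ofReal_le_ofReal hk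
      _ = ENNReal.ofReal (64 * A) * (ENNReal.ofReal ((4 : ℝ) ^ k) * ENNReal.ofReal (H k x)) := by
        rw [ENNReal.ofReal_mul (p := 64 * A) (by positivity), ENNReal.ofReal_mul (p := (4 : ℝ) ^ k) (by positivity)]
      _ ≤ _ := by
        gcongr
        exact ENNReal.le_tsum (f := fun k : ℤ => ENNReal.ofReal ((4 : ℝ) ^ k) * ENNReal.ofReal (H k x)) k
  have hHc : ∀ k, Continuous (H k) := by
    intro k
    apply continuous_finsetSum
    intro j _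
    have h1 := (f j).continuous
    have h2 := (CLRa_L k (f j)).continuous
    fun_prop
  have hFc : ∀ j, Continuous fun ξ : En 4 => ‖𝓕 (f j) ξ‖ ^ 2 := by
    intro j
    have h1 := (𝓕 (f j)).continuous
    fun_prop
  -- the high parts
  have hhigh : ∀ k : ℤ, ∫⁻ x, ENNReal.ofReal (H k x) ≤
      ∫⁻ ξ : En 4, ∑ j, ENNReal.ofReal (‖𝓕 (f j) ξ‖ ^ 2) * (if (2 : ℝ) ^ k < ‖ξ‖ then 1 else 0) := by
    intro k
    have hmeas : ∀ j, Measurable fun ξ : En 4 => ENNReal.ofReal (‖𝓕 (f j) ξ‖ ^ 2) * (if (2 : ℝ) ^ k < ‖ξ‖ then (1 : ℝ≥0∞) else 0) := by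
      intro j
      apply ((hFc j).measurable.ennreal_ofReal).mul
      exact Measurable.ite (measurableSet_lt measurable_const measurable_norm) measurable_const measurable_const
    rw [lintegral_finsetSum _ fun j _ => hmeas j]
    simp only [hH]
    have h1 : ∀ x, ENNReal.ofReal (∑ j, ‖f j x - CLRa_L k (f j) x‖ ^ 2) = ∑ j, ENNReal.ofReal (‖f j x - CLRa_L k (f j) x‖ ^ 2) :=
      fun x => ENNReal.ofReal_sum_of_nonneg fun _ _ => sq_nonneg _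
    simp_rw [h1]
    rw [lintegral_finsetSum _ fun j _ => by
      have h1 := (f j).continuous
      have h2 := (CLRa_L k (f j)).continuous
      have h3 : Continuous fun x => ‖f j x - CLRa_L k (f j) x‖ ^ 2 := by fun_prop
      exact h3.measurable.ennreal_ofReal]
    exact Finset.sum_le_sum fun j _ => CLRa_high k (f j)
  have hmain : ∫⁻ x, ENNReal.ofReal ((∑ j, u j x ^ 2) ^ 2) ≤ ENNReal.ofReal (D * N) := by
    calc ∫⁻ x, ENNReal.ofReal ((∑ j, u j x ^ 2) ^ 2)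
        ≤ ∫⁻ x, ENNReal.ofReal (64 * A) * ∑' k : ℤ, ENNReal.ofReal ((4 : ℝ) ^ k) * ENNReal.ofReal (H k x) := lintegral_mono hpt
      _ = ENNReal.ofReal (64 * A) * ∑' k : ℤ, ENNReal.ofReal ((4 : ℝ) ^ k) * ∫⁻ x, ENNReal.ofReal (H k x) := by
        rw [lintegral_const_mul' _ _ ENNReal.ofReal_ne_top, lintegral_tsum fun k => ?_]
        · congr 2
          funext k
          rw [lintegral_const_mul' _ _ ENNReal.ofReal_ne_top]
        · exact ((hHc k).measurable.ennreal_ofReal.const_mul _).aemeasurable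
      _ ≤ ENNReal.ofReal (64 * A) * ∑' k : ℤ, ENNReal.ofReal ((4 : ℝ) ^ k) *
          ∫⁻ ξ : En 4, ∑ j, ENNReal.ofReal (‖𝓕 (f j) ξ‖ ^ 2) * (if (2 : ℝ) ^ k < ‖ξ‖ then 1 else 0) := by
        refine mul_le_mul_right (ENNReal.tsum_le_tsum fun k => mul_le_mul_right (hhigh k) _) _
      _ = ENNReal.ofReal (64 * A) * ∫⁻ ξ : En 4, ∑' k : ℤ, ENNReal.ofReal ((4 : ℝ) ^ k) *
          ∑ j, ENNReal.ofReal (‖𝓕 (f j) ξ‖ ^ 2) * (if (2 : ℝ) ^ k < ‖ξ‖ then 1 else 0) := by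
        rw [lintegral_tsum fun k => ?_]
        · congr 2
          funext k
          rw [lintegral_const_mul' _ _ ENNReal.ofReal_ne_top]
        · apply Measurable.aemeasurable
          apply Measurable.const_mul
          apply Finset.measurable_sum
          intro j _
          apply ((hFc j).measurable.ennreal_ofReal).mul
          exact Measurable.ite (measurableSet_lt measurable_const measurable_norm) measurable_const measurable_const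
      _ ≤ ENNReal.ofReal (64 * A) * ∫⁻ ξ : En 4, ∑ j, ENNReal.ofReal (4 / 3 * ((2 * Real.pi) ^ 2)⁻¹ * ((2 * Real.pi) ^ 2 * ‖ξ‖ ^ 2 * ‖𝓕 (f j) ξ‖ ^ 2)) := by
        gcongr with ξ
        have h1 : ∀ k : ℤ, ENNReal.ofReal ((4 : ℝ) ^ k) * ∑ j, ENNReal.ofReal (‖𝓕 (f j) ξ‖ ^ 2) * (if (2 : ℝ) ^ k < ‖ξ‖ then (1 : ℝ≥0∞) else 0) =
            (∑ j, ENNReal.ofReal (‖𝓕 (f j) ξ‖ ^ 2)) * (ENNReal.ofReal ((4 : ℝ) ^ k) * (if (2 : ℝ) ^ k < ‖ξ‖ then (1 : ℝ≥0∞) else 0)) := by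
          intro k
          rw [← Finset.sum_mul]
          ring
        simp_rw [h1]
        rw [ENNReal.tsum_mul_left]
        calc (∑ j, ENNReal.ofReal (‖𝓕 (f j) ξ‖ ^ 2)) * ∑' k : ℤ, (ENNReal.ofReal ((4 : ℝ) ^ k) * (if (2 : ℝ) ^ k < ‖ξ‖ then (1 : ℝ≥0∞) else 0))
            ≤ (∑ j, ENNReal.ofReal (‖𝓕 (f j) ξ‖ ^ 2)) * ENNReal.ofReal (4 / 3 * ‖ξ‖ ^ 2) := by
              gcongr
              exact CLRa_geom (norm_nonneg ξ)
          _ = ∑ j, ENNReal.ofReal (4 / 3 * ((2 * Real.pi) ^ 2)⁻¹ * ((2 * Real.pi) ^ 2 * ‖ξ‖ ^ 2 * ‖𝓕 (f j) ξ‖ ^ 2)) := by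
              rw [Finset.sum_mul]
              refine Finset.sum_congr rfl fun j _ => ?_
              rw [← ENNReal.ofReal_mul (sq_nonneg _)]
              congr 1
              have hπ : (2 * Real.pi) ^ 2 ≠ 0 := by positivity
              field_simp
      _ = ENNReal.ofReal (64 * A) * ENNReal.ofReal (4 / 3 * ((2 * Real.pi) ^ 2)⁻¹ * N) := by
        congr 1
        rw [lintegral_finsetSum]
        · have h1 : ∀ j, ∫⁻ ξ : En 4, ENNReal.ofReal (4 / 3 * ((2 * Real.pi) ^ 2)⁻¹ * ((2 * Real.pi) ^ 2 * ‖ξ‖ ^ 2 * ‖𝓕 (f j) ξ‖ ^ 2)) =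
              ENNReal.ofReal (4 / 3 * ((2 * Real.pi) ^ 2)⁻¹) := by
            intro j
            rw [← ofReal_integral_eq_lintegral_ofReal ((CLRa_Q_int' (𝓕 (f j))).const_mul _)
              (Filter.Eventually.of_forall fun ξ => by positivity), integral_const_mul]
            have h2 := CLRa_Q_self (𝓕 (f j))
            rw [hF j j, if_pos rfl] at h2
            have h3 : ∫ ξ : En 4, (2 * Real.pi) ^ 2 * ‖ξ‖ ^ 2 * ‖𝓕 (f j) ξ‖ ^ 2 = 1 := by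
              exact_mod_cast h2.symm
            rw [h3, mul_one]
          simp_rw [h1]
          rw [Finset.sum_const, Finset.card_univ, Fintype.card_fin, nsmul_eq_mul, mul_comm,
            ENNReal.ofReal_mul (p := 4 / 3 * ((2 * Real.pi) ^ 2)⁻¹) (by positivity), ENNReal.ofReal_natCast]
        · intro j _
          have h1 := (𝓕 (f j)).continuous
          have h2 : Continuous fun ξ : En 4 => 4 / 3 * ((2 * Real.pi) ^ 2)⁻¹ * ((2 * Real.pi) ^ 2 * ‖ξ‖ ^ 2 * ‖𝓕 (f j) ξ‖ ^ 2) := by fun_prop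
          exact h2.measurable.ennreal_ofReal
      _ = ENNReal.ofReal (D * N) := by
        rw [← ENNReal.ofReal_mul (by positivity)]
        congr 1
        rw [hD]
        ring
  have huc : Continuous fun x => (∑ j, u j x ^ 2) ^ 2 := by
    have h1 : ∀ j, Continuous (u j) := fun j => (hu j).1.continuous
    fun_prop
  have hfin : ∫ x, (∑ j, u j x ^ 2) ^ 2 ≤ D * N := by
    rw [integral_eq_lintegral_of_nonneg_ae (Filter.Eventually.of_forall fun _ => sq_nonneg _) huc.aestronglyMeasurable]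
    refine (ENNReal.toReal_mono ENNReal.ofReal_ne_top hmain).trans ?_
    rw [ENNReal.toReal_ofReal (by positivity)]
  rw [inv_mul_le_iff₀ hDpos]
  exact hfin

end Pool.Agent.RLT40
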