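import Pool.Agent.RLT40.Defs

/-!
# Four dimensional counting function (definitions, part A).  DO NOT CHANGE.
-/

open MeasureTheory Set
open scoped ENNReal NNReal

namespace Pool.Agent.RLT40

/-- `∫ |∇u|² - W u² + τ u²` -/
noncomputable def form4 (W : En 4 → ℝ) (τ : ℝ) (u : En 4 → ℝ) : ℝ :=
  ∫ x, (‖gradient u x‖ ^ 2 - W x * u x ^ 2 + τ * u x ^ 2)

/-- number of eigenvalues of `-Δ - W` below `-τ`: largest dimension of a space of test functions on which `form4 W τ` is negative -/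
noncomputable def N4 (W : En 4 → ℝ) (τ : ℝ) : ℕ∞ :=
  ⨆ (F : Submodule ℝ (En 4 → ℝ)) (_ : F ≤ Test 4 ∧ FiniteDimensional ℝ F ∧ ∀ u ∈ F, u ≠ 0 → form4 W τ u < 0),
    (Module.finrank ℝ F : ℕ∞)

/-- the open annulus `e^{-L} < |x| < e^L` -/
def Ann (L : ℝ) : Set (En 4) := {x | Real.exp (-L) < ‖x‖ ∧ ‖x‖ < Real.exp L}

/-- the same with test functions supported in the annulus -/
noncomputable def N4ann (L : ℝ) (W : En 4 → ℝ) (τ : ℝ) : ℕ∞ :=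
  ⨆ (F : Submodule ℝ (En 4 → ℝ)) (_ : F ≤ Test 4 ∧ FiniteDimensional ℝ F ∧ (∀ u ∈ F, tsupport u ⊆ Ann L) ∧
    ∀ u ∈ F, u ≠ 0 → form4 W τ u < 0), (Module.finrank ℝ F : ℕ∞)

/-- classical constant `L = 1/(16π²(γ+1)(γ+2))` -/
noncomputable def Lcl (γ : ℝ) : ℝ := 1 / (16 * Real.pi ^ 2 * (γ + 1) * (γ + 2))

/-- class of the potentials `W = V_-` -/
def Adm4 (γ : ℝ) (W : En 4 → ℝ) : Prop := (∀ x, 0 ≤ W x) ∧ MemLp W (ENNReal.ofReal (2 + γ)) ∧ ¬ (∀ᵐ x, W x = 0)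

end Pool.Agent.RLT40
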