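import Pool.Agent.RLT40.CLRa
import Pool.Agent.RLT40.FourD

/-!
# Module CLR (paper 2.A2): Cwikel-Lieb-Rozenblum bound in `ℝ⁴` (Rumin / Frank).

`F` negative for `form4 W τ`, dim `N`; basis `u_j` with `∫ ∇u_i·∇u_j = δ_ij` (the form `∫|∇u|²` is positive definite on test functions).  `N = Σ∫|∇u_j|² < ∫ (W-τ)_+ ρ`, `ρ = Σu_j²`.
Fourier (Mathlib normalisation `e^{-2πi<x,ξ>}`): `∫|∇u|² = (2π)²∫|ξ|²|û|²`; `v_j = 2π|ξ|û_j` orthonormal in `L²(ℝ⁴;ℂ)`.  For `E > 0` split `û = û1_{|ξ|≤E} + û1_{|ξ|>E}`: Bessel: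
`Σ_j|∫_{|ξ|≤E} e^{2πixξ}û_j|² ≤ ∫_{|ξ|≤E} (2π|ξ|)^{-2} = c²E²`; so `Σ_j|u_j^{>E}(x)|² ≥ (sqrt ρ(x) - cE)_+²` and by Plancherel
`N = Σ∫(2π)²|ξ|²|û_j|² = (2π)²∫_0^∞ 2E dE Σ∫|u_j^{>E}(x)|²dx ≥ (2π)²∫dx∫_0^∞2E(sqrt ρ - cE)_+²dE = c'∫ρ²`.  So `N ≤ (∫(W-τ)_+²)^{1/2}(N/c')^{1/2}`.
clr_riesz: `∫_0^∞ γτ^{γ-1}(W-τ)_+² dτ = κ_γ W^{2+γ}`.
-/

open MeasureTheory Set
open scoped ENNReal NNReal

namespace Pool.Agent.RLT40

/-- gradients of test functions are continuous -/
theorem CLRb_grad_cont {u : En 4 → ℝ} (hu : u ∈ Test 4) : Continuous (gradient u) := by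
  have h1 : Continuous (fderiv ℝ u) := hu.1.continuous_fderiv (by simp)
  exact (InnerProductSpace.toDual ℝ (En 4)).symm.continuous.comp h1

/-- gradients of test functions have compact support -/
theorem CLRb_grad_supp {u : En 4 → ℝ} (hu : u ∈ Test 4) : HasCompactSupport (gradient u) := by
  have h1 : HasCompactSupport (fderiv ℝ u) := hu.2.fderiv ℝ
  have : gradient u = (fun L => (InnerProductSpace.toDual ℝ (En 4)).symm L) ∘ (fderiv ℝ u) := by
    ext x; rfl
  rw [this]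
  exact h1.comp_left (by simp)

theorem CLRb_diff {u : En 4 → ℝ} (hu : u ∈ Test 4) : Differentiable ℝ u :=
  hu.1.differentiable (by simp)

theorem CLRb_grad_add {u v : En 4 → ℝ} (hu : u ∈ Test 4) (hv : v ∈ Test 4) (x : En 4) :
    gradient (u + v) x = gradient u x + gradient v x := by
  unfold gradient
  rw [fderiv_add (CLRb_diff hu x) (CLRb_diff hv x), map_add]

theorem CLRb_grad_smul {u : En 4 → ℝ} (c : ℝ) (hu : u ∈ Test 4) (x : En 4) :
    gradient (c • u) x = c • gradient u x := by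
  unfold gradient
  rw [fderiv_const_smul (CLRb_diff hu x)]
  simp

theorem CLRb_int_grad {u v : En 4 → ℝ} (hu : u ∈ Test 4) (hv : v ∈ Test 4) :
    Integrable (fun x => inner ℝ (gradient u x) (gradient v x)) := by
  refine Continuous.integrable_of_hasCompactSupport ?_ ?_
  · exact (CLRb_grad_cont hu).inner (CLRb_grad_cont hv)
  · exact (CLRb_grad_supp hu).comp₂_left (CLRb_grad_supp hv) (by simp)

theorem CLRb_int_sq {u : En 4 → ℝ} (hu : u ∈ Test 4) {W : En 4 → ℝ} (hW : LocallyIntegrable W) :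
    Integrable (fun x => W x * u x ^ 2) := by
  have h1 : Continuous (fun x => u x ^ 2) := hu.1.continuous.pow 2
  have h2 : HasCompactSupport (fun x => u x ^ 2) :=
    hu.2.comp_left (g := fun t : ℝ => t ^ 2) (by simp)
  have := hW.integrable_smul_right_of_hasCompactSupport h1 h2
  simpa [smul_eq_mul] using this

/-- definiteness -/
theorem CLRb_definite {u : En 4 → ℝ} (hu : u ∈ Test 4)
    (h : ∫ x, inner ℝ (gradient u x) (gradient u x) = 0) : u = 0 := by
  have hc : Continuous (fun x => inner ℝ (gradient u x) (gradient u x)) :=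
    (CLRb_grad_cont hu).inner (CLRb_grad_cont hu)
  have h0 : (fun x => inner ℝ (gradient u x) (gradient u x)) =ᵐ[volume] (0 : En 4 → ℝ) := by
    rwa [integral_eq_zero_iff_of_nonneg (fun x => real_inner_self_nonneg) (CLRb_int_grad hu hu)] at h
  have h1 : (fun x => inner ℝ (gradient u x) (gradient u x)) = (0 : En 4 → ℝ) :=
    Measure.eq_of_ae_eq h0 hc continuous_zero
  have h2 : ∀ x, gradient u x = 0 := fun x => by
    have := congrFun h1 x
    simpa using this
  have h3 : ∀ x, fderiv ℝ u x = 0 := fun x => by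
    have h4 := h2 x
    unfold gradient at h4
    simpa using h4
  have h4 : ∀ x y, u x = u y := fun x y => is_const_of_fderiv_eq_zero (CLRb_diff hu) h3 x y
  -- some point outside the support
  have h5 : ∃ x, u x = 0 := by
    by_contra hcon
    push Not at hcon
    have : tsupport u = univ := by
      apply eq_univ_of_forall
      intro x
      exact subset_tsupport u (hcon x)
    have hcomp : IsCompact (univ : Set (En 4)) := by rw [← this]; exact hu.2
    exact noncompact_univ (En 4) hcomp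
  obtain ⟨x₀, hx₀⟩ := h5
  ext x
  rw [h4 x x₀, hx₀]
  rfl

/-- orthonormal basis of a finite dimensional space of test functions for `∫ ∇u·∇v` -/
theorem CLRb_basis (F : Submodule ℝ (En 4 → ℝ)) (hF : F ≤ Test 4) [FiniteDimensional ℝ F] :
    ∃ u : Fin (Module.finrank ℝ F) → En 4 → ℝ, (∀ j, u j ∈ F) ∧
      ∀ i j, ∫ x, inner ℝ (gradient (u i) x) (gradient (u j) x) = if i = j then (1 : ℝ) else 0 := by
  classical
  let cd : InnerProductSpace.Core ℝ F :=
    { inner := fun u v => ∫ x, inner ℝ (gradient (u : En 4 → ℝ) x) (gradient (v : En 4 → ℝ) x)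
      conj_inner_symm := by
        intro x y
        simp only [conj_trivial]
        congr 1
        ext z
        exact real_inner_comm _ _
      re_inner_nonneg := by
        intro x
        simp only [RCLike.re_to_real]
        exact integral_nonneg fun z => real_inner_self_nonneg
      add_left := by
        intro x y z
        rw [← integral_add (CLRb_int_grad (hF x.2) (hF z.2)) (CLRb_int_grad (hF y.2) (hF z.2))]
        congr 1
        ext w
        rw [← inner_add_left, Submodule.coe_add, CLRb_grad_add (hF x.2) (hF y.2)]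
      smul_left := by
        intro x y r
        simp only [conj_trivial]
        rw [← integral_const_mul]
        congr 1
        ext w
        rw [Submodule.coe_smul, CLRb_grad_smul r (hF x.2), real_inner_smul_left]
      definite := by
        intro x hx
        exact Subtype.ext (CLRb_definite (hF x.2) hx) }
  letI : NormedAddCommGroup F := cd.toNormedAddCommGroup
  letI : InnerProductSpace ℝ F := InnerProductSpace.ofCore cd.toCore
  let b := stdOrthonormalBasis ℝ F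
  refine ⟨fun j => (b j : En 4 → ℝ), fun j => (b j).2, ?_⟩
  intro i j
  have := (orthonormal_iff_ite.1 b.orthonormal) i j
  exact this

theorem CLRb_core {c : ℝ} (hc : 0 < c) {W : En 4 → ℝ} (hW : LocallyIntegrable W) {τ : ℝ}
    (hint : Integrable (fun x => max (W x - τ) 0 ^ 2)) {N : ℕ} (u : Fin N → En 4 → ℝ)
    (hu : ∀ j, u j ∈ Test 4) (hneg : ∀ j, u j ≠ 0 → form4 W τ (u j) < 0)
    (hon : ∀ i j, ∫ x, inner ℝ (gradient (u i) x) (gradient (u j) x) = if i = j then (1 : ℝ) else 0)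
    (hrum : c * ∫ x, (∑ j, u j x ^ 2) ^ 2 ≤ N) :
    (N : ℝ) ≤ 1 / c * ∫ x, max (W x - τ) 0 ^ 2 := by
  have hcont : ∀ j, Continuous (u j) := fun j => (hu j).1.continuous
  have iW : LocallyIntegrable (fun x => max (W x - τ) 0) := by
    have : LocallyIntegrable (fun x => W x - τ) := hW.sub (locallyIntegrable_const τ)
    intro x
    obtain ⟨s, hs, hsi⟩ := this x
    exact ⟨s, hs, Integrable.pos_part hsi⟩
  -- one function
  have key : ∀ j, (1 : ℝ) ≤ ∫ x, max (W x - τ) 0 * u j x ^ 2 := by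
    intro j
    have hne : u j ≠ 0 := by
      intro h0
      have := hon j j
      rw [h0] at this
      simp [gradient] at this
    have h1 := hneg j hne
    have h2 : ∫ x, inner ℝ (gradient (u j) x) (gradient (u j) x) = (1 : ℝ) := by simpa using hon j j
    have iA := CLRb_int_grad (hu j) (hu j)
    have iB := CLRb_int_sq (hu j) hW
    have iC : Integrable (fun x => τ * u j x ^ 2) :=
      CLRb_int_sq (hu j) (locallyIntegrable_const τ)
    have iD : Integrable (fun x => max (W x - τ) 0 * u j x ^ 2) := CLRb_int_sq (hu j) iW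
    have h3 : form4 W τ (u j) = (∫ x, inner ℝ (gradient (u j) x) (gradient (u j) x)) -
        (∫ x, W x * u j x ^ 2) + ∫ x, τ * u j x ^ 2 := by
      have iAB : Integrable (fun x => inner ℝ (gradient (u j) x) (gradient (u j) x) - W x * u j x ^ 2) :=
        iA.sub iB
      unfold form4
      rw [← integral_sub iA iB, ← integral_add iAB iC]
      congr 1
      ext x
      rw [real_inner_self_eq_norm_sq]
    have h4 : ∫ x, (W x * u j x ^ 2 - τ * u j x ^ 2) ≤ ∫ x, max (W x - τ) 0 * u j x ^ 2 := by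
      refine integral_mono (iB.sub iC) iD ?_
      intro x
      have : (W x - τ) * u j x ^ 2 ≤ max (W x - τ) 0 * u j x ^ 2 :=
        mul_le_mul_of_nonneg_right (le_max_left _ _) (sq_nonneg _)
      simp only []
      linarith
    rw [integral_sub iB iC] at h4
    linarith
  -- the density
  have hρc : Continuous (fun x => ∑ j, u j x ^ 2) := continuous_finsetSum _ fun j _ => (hcont j).pow 2
  have hρs : HasCompactSupport (fun x => (∑ j, u j x ^ 2) ^ 2) := by
    have hK : IsCompact (⋃ j, tsupport (u j)) := isCompact_iUnion fun j => (hu j).2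
    refine HasCompactSupport.intro hK ?_
    intro x hx
    simp only [mem_iUnion, not_exists] at hx
    have : ∀ j, u j x = 0 := fun j => image_eq_zero_of_notMem_tsupport (hx j)
    simp [this]
  have iρ : Integrable (fun x => (∑ j, u j x ^ 2) ^ 2) :=
    (hρc.pow 2).integrable_of_hasCompactSupport hρs
  have hsum : (N : ℝ) ≤ ∫ x, max (W x - τ) 0 * ∑ j, u j x ^ 2 := by
    have e1 : ∫ x, max (W x - τ) 0 * ∑ j, u j x ^ 2 = ∑ j, ∫ x, max (W x - τ) 0 * u j x ^ 2 := by
      simp only [Finset.mul_sum]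
      rw [integral_finsetSum]
      intro j _
      exact CLRb_int_sq (hu j) iW
    rw [e1]
    calc (N : ℝ) = ∑ _j : Fin N, (1 : ℝ) := by simp
      _ ≤ _ := Finset.sum_le_sum fun j _ => key j
  have hamgm : ∫ x, max (W x - τ) 0 * ∑ j, u j x ^ 2 ≤
      ∫ x, (1 / (2 * c) * max (W x - τ) 0 ^ 2 + c / 2 * (∑ j, u j x ^ 2) ^ 2) := by
    refine integral_mono_of_nonneg ?_ ((hint.const_mul _).add (iρ.const_mul _)) ?_
    · refine Filter.Eventually.of_forall fun x => ?_
      exact mul_nonneg (le_max_right _ _) (Finset.sum_nonneg fun j _ => sq_nonneg _)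
    · refine Filter.Eventually.of_forall fun x => ?_
      simp only []
      have h := sq_nonneg (max (W x - τ) 0 - c * ∑ j, u j x ^ 2)
      have h2 : 1 / (2 * c) * max (W x - τ) 0 ^ 2 + c / 2 * (∑ j, u j x ^ 2) ^ 2 -
          max (W x - τ) 0 * ∑ j, u j x ^ 2 =
          1 / (2 * c) * (max (W x - τ) 0 - c * ∑ j, u j x ^ 2) ^ 2 := by
        field_simp
        ring
      have h3 : 0 ≤ 1 / (2 * c) * (max (W x - τ) 0 - c * ∑ j, u j x ^ 2) ^ 2 := by positivity
      linarith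
  rw [integral_add (hint.const_mul _) (iρ.const_mul _), integral_const_mul, integral_const_mul] at hamgm
  have h5 : (N : ℝ) ≤ 1 / (2 * c) * (∫ x, max (W x - τ) 0 ^ 2) + N / 2 := by
    have : c / 2 * ∫ x, (∑ j, u j x ^ 2) ^ 2 = (c * ∫ x, (∑ j, u j x ^ 2) ^ 2) / 2 := by ring
    rw [this] at hamgm
    linarith
  have h6 : 1 / (2 * c) * (∫ x, max (W x - τ) 0 ^ 2) = (1 / c * ∫ x, max (W x - τ) 0 ^ 2) / 2 := by
    field_simp
  linarith

theorem CLRb_real : ∃ C > 0, ∀ W : En 4 → ℝ, LocallyIntegrable W → ∀ τ : ℝ, 0 < τ →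
    Integrable (fun x => max (W x - τ) 0 ^ 2) →
    ∀ F : Submodule ℝ (En 4 → ℝ), F ≤ Test 4 → FiniteDimensional ℝ F → (∀ u ∈ F, u ≠ 0 → form4 W τ u < 0) →
      (Module.finrank ℝ F : ℝ) ≤ C * ∫ x, max (W x - τ) 0 ^ 2 := by
  obtain ⟨c, hc, hr⟩ := rumin
  refine ⟨1 / c, by positivity, ?_⟩
  intro W hW τ hτ hint F hF hfin hneg
  obtain ⟨u, huF, hon⟩ := CLRb_basis F hF
  exact CLRb_core hc hW hint u (fun j => hF (huF j)) (fun j hj => hneg _ (huF j) hj) hon
    (hr _ u (fun j => hF (huF j)) hon)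

theorem CLRb_enat {ι : Sort*} {p : ι → Prop} (f : ι → ℕ) {X : ℝ≥0∞} (h : ∀ i, p i → (f i : ℝ≥0∞) ≤ X) :
    (((⨆ (i : ι) (_ : p i), (f i : ℕ∞)) : ℕ∞) : ℝ≥0∞) ≤ X := by
  rcases eq_or_ne X ⊤ with rfl | hX
  · exact le_top
  have h1 : (⨆ (i : ι) (_ : p i), (f i : ℕ∞)) ≤ ((⌊X.toReal⌋₊ : ℕ) : ℕ∞) := by
    refine iSup₂_le fun i hi => ?_
    rw [Nat.cast_le]
    refine Nat.le_floor ?_
    have h2 := ENNReal.toReal_mono hX (h i hi)
    simpa using h2
  calc (((⨆ (i : ι) (_ : p i), (f i : ℕ∞)) : ℕ∞) : ℝ≥0∞) ≤ (((⌊X.toReal⌋₊ : ℕ) : ℕ∞) : ℝ≥0∞) :=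
        ENat.toENNReal_mono h1
    _ = ((⌊X.toReal⌋₊ : ℕ) : ℝ≥0∞) := by simp
    _ = ENNReal.ofReal (⌊X.toReal⌋₊ : ℝ) := by simp
    _ ≤ ENNReal.ofReal X.toReal := ENNReal.ofReal_le_ofReal (Nat.floor_le ENNReal.toReal_nonneg)
    _ = X := ENNReal.ofReal_toReal hX

theorem clr : ∃ C > 0, ∀ γ : ℝ, 0 < γ → ∀ W : En 4 → ℝ, Adm4 γ W → ∀ τ : ℝ, 0 < τ →
    ((N4 W τ : ℕ∞) : ℝ≥0∞) ≤ ENNReal.ofReal C * ∫⁻ x, ENNReal.ofReal (max (W x - τ) 0 ^ 2) := by
  obtain ⟨C, hC, hr⟩ := CLRb_real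
  refine ⟨C, hC, ?_⟩
  intro γ hγ W hW τ hτ
  have hloc : LocallyIntegrable W := hW.2.1.locallyIntegrable (by
    rw [ENNReal.one_le_ofReal]; linarith)
  have hmeas : AEStronglyMeasurable (fun x => max (W x - τ) 0 ^ 2) volume := by
    have := hW.2.1.1.aemeasurable
    exact (((this.sub_const τ).max aemeasurable_const).pow_const 2).aestronglyMeasurable
  by_cases hfin : ∫⁻ x, ENNReal.ofReal (max (W x - τ) 0 ^ 2) = ⊤
  · rw [hfin, ENNReal.mul_top (by simpa using hC)]
    exact le_top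
  have hint : Integrable (fun x => max (W x - τ) 0 ^ 2) := by
    refine ⟨hmeas, ?_⟩
    rw [hasFiniteIntegral_iff_ofReal (Filter.Eventually.of_forall fun x => by positivity)]
    exact lt_top_iff_ne_top.2 hfin
  unfold N4
  refine CLRb_enat (fun F : Submodule ℝ (En 4 → ℝ) => Module.finrank ℝ F) ?_
  intro F hF
  have h1 := hr W hloc τ hτ hint F hF.1 hF.2.1 hF.2.2
  rw [← ofReal_integral_eq_lintegral_ofReal hint (Filter.Eventually.of_forall fun x => by positivity),
    ← ENNReal.ofReal_mul hC.le]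
  calc ((Module.finrank ℝ F : ℕ) : ℝ≥0∞) = ENNReal.ofReal (Module.finrank ℝ F : ℝ) := by simp
    _ ≤ _ := ENNReal.ofReal_le_ofReal h1

/-- `∫_0^∞ γ τ^{γ-1} (w - τ)_+² dτ ≤ w^{2+γ}` -/
theorem CLRb_layer {γ w : ℝ} (hγ : 0 < γ) (hw : 0 ≤ w) :
    ∫⁻ τ in Ioi (0 : ℝ), ENNReal.ofReal (γ * τ ^ (γ - 1)) * ENNReal.ofReal (max (w - τ) 0 ^ 2) ≤
      ENNReal.ofReal (w ^ (2 + γ)) := by
  have h1 : ∀ τ ∈ Ioi (0 : ℝ), ENNReal.ofReal (γ * τ ^ (γ - 1)) * ENNReal.ofReal (max (w - τ) 0 ^ 2) ≤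
      (Ioc 0 w).indicator (fun τ => ENNReal.ofReal (γ * τ ^ (γ - 1)) * ENNReal.ofReal (w ^ 2)) τ := by
    intro τ hτ
    have hτ' : 0 < τ := hτ
    by_cases hτw : τ ≤ w
    · rw [indicator_of_mem (show τ ∈ Ioc 0 w from ⟨hτ', hτw⟩)]
      gcongr
      rw [max_eq_left (by linarith)]
      linarith
    · rw [max_eq_right (by linarith)]
      simp
  calc ∫⁻ τ in Ioi (0 : ℝ), ENNReal.ofReal (γ * τ ^ (γ - 1)) * ENNReal.ofReal (max (w - τ) 0 ^ 2)
      ≤ ∫⁻ τ in Ioi (0 : ℝ), (Ioc 0 w).indicator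
          (fun τ => ENNReal.ofReal (γ * τ ^ (γ - 1)) * ENNReal.ofReal (w ^ 2)) τ :=
        setLIntegral_mono' measurableSet_Ioi h1
    _ = ∫⁻ τ in Ioc 0 w, ENNReal.ofReal (γ * τ ^ (γ - 1)) * ENNReal.ofReal (w ^ 2) := by
        have hsub : Ioc 0 w ∩ Ioi 0 = Ioc 0 w := inter_eq_left.2 (fun x hx => hx.1)
        rw [setLIntegral_indicator measurableSet_Ioc, hsub]
    _ = (∫⁻ τ in Ioc 0 w, ENNReal.ofReal (γ * τ ^ (γ - 1))) * ENNReal.ofReal (w ^ 2) := by
        rw [lintegral_mul_const _ (by fun_prop)]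
    _ = ENNReal.ofReal (w ^ γ) * ENNReal.ofReal (w ^ 2) := by
        congr 1
        have hi : IntervalIntegrable (fun τ : ℝ => γ * τ ^ (γ - 1)) volume 0 w :=
          (intervalIntegral.intervalIntegrable_rpow' (by linarith)).const_mul _
        rw [← ofReal_integral_eq_lintegral_ofReal]
        · rw [← intervalIntegral.integral_of_le hw, intervalIntegral.integral_const_mul,
            integral_rpow (Or.inl (by linarith))]
          congr 1
          rw [sub_add_cancel, Real.zero_rpow hγ.ne']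
          field_simp
          ring
        · exact (intervalIntegrable_iff_integrableOn_Ioc_of_le hw).1 hi
        · refine (ae_restrict_iff' measurableSet_Ioc).2 (Filter.Eventually.of_forall fun x hx => ?_)
          have : 0 < x := hx.1
          simp only [Pi.zero_apply]
          positivity
    _ = ENNReal.ofReal (w ^ (2 + γ)) := by
        rw [← ENNReal.ofReal_mul (by positivity)]
        congr 1
        rcases hw.eq_or_lt with rfl | hw'
        · rw [Real.zero_rpow hγ.ne', Real.zero_rpow (by linarith)]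
          ring
        · rw [add_comm, Real.rpow_add hw']
          norm_num

theorem clr_riesz : ∃ C > 0, ∀ γ : ℝ, 0 < γ → ∀ W : En 4 → ℝ, Adm4 γ W →
    (∫⁻ τ in Ioi (0 : ℝ), ENNReal.ofReal (γ * τ ^ (γ - 1)) * ((N4 W τ : ℕ∞) : ℝ≥0∞)) ≤
      ENNReal.ofReal C * ∫⁻ x, ENNReal.ofReal (W x ^ (2 + γ)) := by
  obtain ⟨C, hC, hr⟩ := clr
  refine ⟨C, hC, ?_⟩
  intro γ hγ W hW
  have hWm : AEMeasurable W := hW.2.1.1.aemeasurable
  have hmeas : AEMeasurable (Function.uncurry fun (τ : ℝ) (x : En 4) =>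
      ENNReal.ofReal (γ * τ ^ (γ - 1)) * ENNReal.ofReal (max (W x - τ) 0 ^ 2))
      ((volume.restrict (Ioi (0 : ℝ))).prod volume) := by
    have h1 : AEMeasurable (fun z : ℝ × En 4 => W z.2) ((volume.restrict (Ioi (0 : ℝ))).prod volume) :=
      hWm.comp_quasiMeasurePreserving Measure.quasiMeasurePreserving_snd
    have h2 : AEMeasurable (fun z : ℝ × En 4 => max (W z.2 - z.1) 0 ^ 2)
        ((volume.restrict (Ioi (0 : ℝ))).prod volume) :=
      ((h1.sub measurable_fst.aemeasurable).max aemeasurable_const).pow_const 2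
    have h3 : Measurable (fun z : ℝ × En 4 => γ * z.1 ^ (γ - 1)) := by fun_prop
    exact (h3.aemeasurable.ennreal_ofReal).mul h2.ennreal_ofReal
  calc (∫⁻ τ in Ioi (0 : ℝ), ENNReal.ofReal (γ * τ ^ (γ - 1)) * ((N4 W τ : ℕ∞) : ℝ≥0∞))
      ≤ ∫⁻ τ in Ioi (0 : ℝ), ENNReal.ofReal C * ∫⁻ x, ENNReal.ofReal (γ * τ ^ (γ - 1)) *
          ENNReal.ofReal (max (W x - τ) 0 ^ 2) := by
        refine setLIntegral_mono' measurableSet_Ioi fun τ hτ => ?_
        have h1 : AEMeasurable (fun x => ENNReal.ofReal (max (W x - τ) 0 ^ 2)) :=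
          (((hWm.sub_const τ).max aemeasurable_const).pow_const 2).ennreal_ofReal
        rw [lintegral_const_mul'' _ h1, mul_left_comm]
        gcongr
        exact hr γ hγ W hW τ hτ
    _ ≤ ENNReal.ofReal C * ∫⁻ τ in Ioi (0 : ℝ), ∫⁻ x, ENNReal.ofReal (γ * τ ^ (γ - 1)) *
          ENNReal.ofReal (max (W x - τ) 0 ^ 2) := by
        rw [lintegral_const_mul' _ _ (by simp)]
    _ = ENNReal.ofReal C * ∫⁻ x, ∫⁻ τ in Ioi (0 : ℝ), ENNReal.ofReal (γ * τ ^ (γ - 1)) *
          ENNReal.ofReal (max (W x - τ) 0 ^ 2) := by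
        rw [lintegral_lintegral_swap hmeas]
    _ ≤ ENNReal.ofReal C * ∫⁻ x, ENNReal.ofReal (W x ^ (2 + γ)) := by
        gcongr with x
        exact CLRb_layer hγ (hW.1 x)

end Pool.Agent.RLT40
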