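import Pool.Agent.RLT40.Jacobi
import Pool.Agent.RLT40.SpaceC

/-!
# Module CAL (paper 1.4): calibration of the zero energy s-wave equation.

Proof of `calib`: `π(q) = ∫_q^∞ (3/4)(1-s²)_+ ds ∈ [0,1]` (explicit cubic on `[-1,1]`).  Between consecutive zeros of `f`,
`d/dx π(g/f) = (3/4) xq (V - xq)`; `π → 0` right of a zero, `π → 1` left of a zero.  Sum over the nodal intervals, last piece `≥ 0`.
`bargmann`: same with `π(q) = (1/2)∫_q^∞ 1_{|s|<1}`: the zeros number `≤ ½ ∫ V`; then pass to `L¹` potentials by nneg_approx.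
-/

open MeasureTheory Set Filter Topology
open scoped ENNReal NNReal

namespace Pool.Agent.RLT40

theorem xq_continuous {V f g : ℝ → ℝ} (hV : Continuous V) (h : Sol V f g) (hne : ∃ x, f x ≠ 0) : Continuous (xq f g) := by
  have hfc := h.continuous_left
  have hgc := h.continuous_right
  rw [continuous_iff_continuousAt]
  intro x
  by_cases hx : f x = 0
  · have hg : g x ≠ 0 := h.deriv_ne_zero hV hne hx
    have h1 : ∀ᶠ t in 𝓝 x, f t ^ 2 - g t ^ 2 < 0 := by
      have hc : ContinuousAt (fun t => f t ^ 2 - g t ^ 2) x :=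
        ((hfc.pow 2).sub (hgc.pow 2)).continuousAt
      have h0 : f x ^ 2 - g x ^ 2 < 0 := by
        rw [hx]
        have : 0 < g x ^ 2 := by positivity
        linarith
      exact hc.eventually_lt continuousAt_const h0
    have h2 : (fun _ : ℝ => (0 : ℝ)) =ᶠ[𝓝 x] xq f g := by
      filter_upwards [h1] with t ht
      rw [xq, max_eq_left ht.le, zero_div]
    exact continuousAt_const.congr h2
  · have : ContinuousAt (fun t => max 0 (f t ^ 2 - g t ^ 2) / f t ^ 2) x := by
      apply ContinuousAt.div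
      · exact (continuous_const.max ((hfc.pow 2).sub (hgc.pow 2))).continuousAt
      · exact (hfc.pow 2).continuousAt
      · exact pow_ne_zero 2 hx
    exact this

theorem xq_nonneg (f g : ℝ → ℝ) (x : ℝ) : 0 ≤ xq f g x :=
  div_nonneg (le_max_left _ _) (sq_nonneg _)

theorem xq_le_one (f g : ℝ → ℝ) (x : ℝ) : xq f g x ≤ 1 := by
  rw [xq]
  apply div_le_one_of_le₀ _ (sq_nonneg _)
  apply max_le (sq_nonneg _)
  nlinarith [sq_nonneg (g x)]

theorem cal_xq_eq {f g : ℝ → ℝ} {x : ℝ} (hx : f x ≠ 0) : xq f g x = max 0 (1 - (g x / f x) ^ 2) := by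
  have h2 : (0 : ℝ) < f x ^ 2 := by positivity
  rw [xq]
  rcases le_total (f x ^ 2 - g x ^ 2) 0 with h | h
  · rw [max_eq_left h, zero_div, max_eq_left]
    rw [div_pow, sub_nonpos, one_le_div h2]
    linarith
  · rw [max_eq_right h, max_eq_right]
    · field_simp
    · rw [div_pow, sub_nonneg, div_le_one h2]
      linarith

theorem cal_q_deriv {V f g : ℝ → ℝ} (h : Sol (fun x => 1 - V x) f g) {x : ℝ} (hx : f x ≠ 0) :
    HasDerivAt (fun x => g x / f x) (1 - V x - (g x / f x) ^ 2) x := by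
  refine ((h.d2 x).div (h.d1 x) hx).congr_deriv ?_
  field_simp

/-- the calibration function -/
noncomputable def cal_pi (s : ℝ) : ℝ := ∫ t in s..1, 3 / 4 * max 0 (1 - t ^ 2)

theorem cal_cont : Continuous (fun t : ℝ => 3 / 4 * max 0 (1 - t ^ 2)) := by fun_prop

theorem cal_pi_deriv (s : ℝ) : HasDerivAt cal_pi (-(3 / 4 * max 0 (1 - s ^ 2))) s :=
  intervalIntegral.integral_hasDerivAt_left (cal_cont.intervalIntegrable _ _)
    (cal_cont.stronglyMeasurableAtFilter _ _) cal_cont.continuousAt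

theorem cal_pi_zero {s : ℝ} (hs : 1 ≤ s) : cal_pi s = 0 := by
  rw [cal_pi, intervalIntegral.integral_symm, neg_eq_zero]
  have : ∫ t in (1 : ℝ)..s, 3 / 4 * max 0 (1 - t ^ 2) = ∫ t in (1 : ℝ)..s, (0 : ℝ) := by
    apply intervalIntegral.integral_congr
    intro t ht
    rw [uIcc_of_le hs] at ht
    have : 1 - t ^ 2 ≤ 0 := by nlinarith [ht.1]
    simp only [max_eq_left this, mul_zero]
  rw [this]
  simp

theorem cal_pi_one {s : ℝ} (hs : s ≤ -1) : cal_pi s = 1 := by
  rw [cal_pi, ← intervalIntegral.integral_add_adjacent_intervals (b := -1)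
    (cal_cont.intervalIntegrable _ _) (cal_cont.intervalIntegrable _ _)]
  have h1 : ∫ t in s..(-1), 3 / 4 * max 0 (1 - t ^ 2) = 0 := by
    have : ∫ t in s..(-1), 3 / 4 * max 0 (1 - t ^ 2) = ∫ t in s..(-1), (0 : ℝ) := by
      apply intervalIntegral.integral_congr
      intro t ht
      rw [uIcc_of_le hs] at ht
      have : 1 - t ^ 2 ≤ 0 := by nlinarith [ht.2]
      simp only [max_eq_left this, mul_zero]
    rw [this]
    simp
  have h2 : ∫ t in (-1 : ℝ)..1, 3 / 4 * max 0 (1 - t ^ 2) = 1 := by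
    have e : ∫ t in (-1 : ℝ)..1, 3 / 4 * max 0 (1 - t ^ 2)
        = ∫ t in (-1 : ℝ)..1, 3 / 4 * (1 - t ^ 2) := by
      apply intervalIntegral.integral_congr
      intro t ht
      rw [uIcc_of_le (by norm_num)] at ht
      have : 0 ≤ 1 - t ^ 2 := by nlinarith [ht.1, ht.2]
      simp only [max_eq_right this]
    rw [e, intervalIntegral.integral_const_mul, intervalIntegral.integral_sub (by simp) (by
      exact (continuous_pow 2).intervalIntegrable _ _), integral_pow]
    simp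
    norm_num
  rw [h1, h2, zero_add]

theorem cal_pi_nonneg (s : ℝ) : 0 ≤ cal_pi s := by
  rcases le_total s 1 with hs | hs
  · exact intervalIntegral.integral_nonneg hs fun t _ => by positivity
  · rw [cal_pi_zero hs]

/-- near a zero -/
theorem cal_near {V f g : ℝ → ℝ} (h : Sol V f g) {c : ℝ} (hc : f c = 0) (hg : g c ≠ 0) :
    (∀ᶠ x in 𝓝[>] c, f x ≠ 0 ∧ 1 ≤ g x / f x) ∧ (∀ᶠ x in 𝓝[<] c, f x ≠ 0 ∧ g x / f x ≤ -1) := by
  have h1 : Tendsto (fun x => (x - c)⁻¹ * f x) (𝓝[≠] c) (𝓝 (g c)) := by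
    have := (hasDerivAt_iff_tendsto_slope.1 (h.d1 c))
    refine this.congr' ?_
    filter_upwards with x
    simp [slope_def_field, hc, div_eq_inv_mul]
  have h2 : Tendsto g (𝓝[≠] c) (𝓝 (g c)) := (h.continuous_right.tendsto c).mono_left nhdsWithin_le_nhds
  have h3 : Tendsto f (𝓝[≠] c) (𝓝 0) := by
    have := h.continuous_left.tendsto c
    rw [hc] at this
    exact this.mono_left nhdsWithin_le_nhds
  have h4 : ∀ᶠ x in 𝓝[≠] c, |(x - c)⁻¹ * f x * f x| < (x - c)⁻¹ * f x * g x := by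
    have hL := h1.mul h2
    have hR := (h1.mul h3).abs
    rw [mul_zero, abs_zero] at hR
    refine hR.eventually_lt hL ?_
    rcases lt_or_gt_of_ne hg with h0 | h0
    · exact mul_pos_of_neg_of_neg h0 h0
    · exact mul_pos h0 h0
  have key : ∀ x, x ≠ c → |(x - c)⁻¹ * f x * f x| < (x - c)⁻¹ * f x * g x →
      f x ≠ 0 ∧ (c < x → 1 ≤ g x / f x) ∧ (x < c → g x / f x ≤ -1) := by
    intro x hx hlt
    have hf0 : f x ≠ 0 := by
      intro h0
      rw [h0] at hlt
      simp at hlt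
    have hf2 : 0 < f x ^ 2 := by positivity
    have hq : g x / f x = (f x * g x) / f x ^ 2 := by field_simp
    refine ⟨hf0, fun hcx => ?_, fun hxc => ?_⟩
    · have hp : 0 < x - c := by linarith
      have h5 : (x - c)⁻¹ * f x * f x < (x - c)⁻¹ * f x * g x := (le_abs_self _).trans_lt hlt
      have h6 : f x * f x < f x * g x := by
        have := mul_lt_mul_of_pos_left h5 hp
        have e1 : (x - c) * ((x - c)⁻¹ * f x * f x) = f x * f x := by field_simp
        have e2 : (x - c) * ((x - c)⁻¹ * f x * g x) = f x * g x := by field_simp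
        rwa [e1, e2] at this
      rw [hq, one_le_div hf2]
      nlinarith
    · have hp : x - c < 0 := by linarith
      have h5 : -((x - c)⁻¹ * f x * f x) < (x - c)⁻¹ * f x * g x := (neg_le_abs _).trans_lt hlt
      have h6 : f x * g x < -(f x * f x) := by
        have := mul_lt_mul_of_neg_left h5 hp
        have e1 : (x - c) * -((x - c)⁻¹ * f x * f x) = -(f x * f x) := by
          have : x - c ≠ 0 := hp.ne
          field_simp
        have e2 : (x - c) * ((x - c)⁻¹ * f x * g x) = f x * g x := by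
          have : x - c ≠ 0 := hp.ne
          field_simp
        rwa [e1, e2] at this
      rw [hq, div_le_iff₀ hf2]
      nlinarith
  constructor
  · have : 𝓝[>] c ≤ 𝓝[≠] c := nhdsWithin_mono _ fun t ht => ne_of_gt ht
    filter_upwards [this h4, self_mem_nhdsWithin] with x hx hcx
    exact ⟨(key x (ne_of_gt hcx) hx).1, (key x (ne_of_gt hcx) hx).2.1 hcx⟩
  · have : 𝓝[<] c ≤ 𝓝[≠] c := nhdsWithin_mono _ fun t ht => ne_of_lt ht
    filter_upwards [this h4, self_mem_nhdsWithin] with x hx hcx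
    exact ⟨(key x (ne_of_lt hcx) hx).1, (key x (ne_of_lt hcx) hx).2.2 hcx⟩

theorem cal_core {V f g : ℝ → ℝ} (hV : Continuous V) (h : Sol (fun x => 1 - V x) f g) {x y : ℝ} (hxy : x ≤ y)
    (hne : ∃ x, f x ≠ 0) (hnz : ∀ t ∈ Icc x y, f t ≠ 0) :
    ∫ t in x..y, 3 / 4 * xq f g t * (V t - xq f g t) = cal_pi (g y / f y) - cal_pi (g x / f x) := by
  have hxc := xq_continuous (V := fun x => 1 - V x) (by fun_prop) h hne
  have hK : Continuous (fun t => 3 / 4 * xq f g t * (V t - xq f g t)) := by fun_prop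
  have hd : ∀ t ∈ uIcc x y, HasDerivAt (fun t => cal_pi (g t / f t))
      (3 / 4 * xq f g t * (V t - xq f g t)) t := by
    intro t ht
    rw [uIcc_of_le hxy] at ht
    have hn := hnz t ht
    have := (cal_pi_deriv (g t / f t)).comp t (cal_q_deriv h hn)
    refine this.congr_deriv ?_
    rw [cal_xq_eq hn]
    rcases le_total (1 - (g t / f t) ^ 2) 0 with h0 | h0
    · rw [max_eq_left h0]
      ring
    · rw [max_eq_right h0]
      ring
  exact intervalIntegral.integral_eq_sub_of_hasDerivAt hd (hK.intervalIntegrable _ _)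

theorem cal_half {V f g : ℝ → ℝ} (hV : Continuous V) (h : Sol (fun x => 1 - V x) f g) {c d : ℝ} (hne : ∃ x, f x ≠ 0)
    (hc : f c = 0) (hnz : ∀ t ∈ Ioo c d, f t ≠ 0) :
    ∀ y ∈ Ioo c d, ∫ t in c..y, 3 / 4 * xq f g t * (V t - xq f g t) = cal_pi (g y / f y) := by
  intro y hy
  have hVc : Continuous (fun x => 1 - V x) := by fun_prop
  have hxc := xq_continuous hVc h hne
  have hK : Continuous (fun t => 3 / 4 * xq f g t * (V t - xq f g t)) := by fun_prop
  have h1 : Tendsto (fun x => ∫ t in x..y, 3 / 4 * xq f g t * (V t - xq f g t)) (𝓝[>] c)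
      (𝓝 (∫ t in c..y, 3 / 4 * xq f g t * (V t - xq f g t))) := by
    have hcont : Continuous (fun x => ∫ t in y..x, 3 / 4 * xq f g t * (V t - xq f g t)) :=
      intervalIntegral.continuous_primitive (fun u v => hK.intervalIntegrable u v) y
    have h2 := (hcont.neg).tendsto c
    have h3 : (fun x => ∫ t in x..y, 3 / 4 * xq f g t * (V t - xq f g t))
        = fun x => -∫ t in y..x, 3 / 4 * xq f g t * (V t - xq f g t) := by
      funext x
      rw [intervalIntegral.integral_symm]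
    rw [h3, intervalIntegral.integral_symm y c]
    exact h2.mono_left nhdsWithin_le_nhds
  have h4 : Tendsto (fun x => ∫ t in x..y, 3 / 4 * xq f g t * (V t - xq f g t)) (𝓝[>] c)
      (𝓝 (cal_pi (g y / f y))) := by
    refine tendsto_const_nhds.congr' ?_
    filter_upwards [Ioo_mem_nhdsGT hy.1, (cal_near h hc (h.deriv_ne_zero hVc hne hc)).1] with x hx hx1
    rw [cal_core hV h hx.2.le hne fun t ht => hnz t ⟨lt_of_lt_of_le hx.1 ht.1, lt_of_le_of_lt ht.2 hy.2⟩,
      cal_pi_zero hx1.2, sub_zero]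
  exact tendsto_nhds_unique h1 h4

theorem cal_last {V f g : ℝ → ℝ} (hV : Continuous V) (h : Sol (fun x => 1 - V x) f g) {c d : ℝ} (hne : ∃ x, f x ≠ 0)
    (hcd : c ≤ d) (hc : f c = 0) (hnz : ∀ t ∈ Ioo c d, f t ≠ 0) :
    0 ≤ ∫ t in c..d, 3 / 4 * xq f g t * (V t - xq f g t) := by
  rcases hcd.eq_or_lt with rfl | hlt
  · simp
  have hVc : Continuous (fun x => 1 - V x) := by fun_prop
  have hxc := xq_continuous hVc h hne
  have hK : Continuous (fun t => 3 / 4 * xq f g t * (V t - xq f g t)) := by fun_prop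
  have h1 : Tendsto (fun y => ∫ t in c..y, 3 / 4 * xq f g t * (V t - xq f g t)) (𝓝[<] d)
      (𝓝 (∫ t in c..d, 3 / 4 * xq f g t * (V t - xq f g t))) :=
    ((intervalIntegral.continuous_primitive (fun u v => hK.intervalIntegrable u v) c).tendsto d).mono_left
      nhdsWithin_le_nhds
  refine ge_of_tendsto h1 ?_
  filter_upwards [Ioo_mem_nhdsLT hlt] with y hy
  rw [cal_half hV h hne hc hnz y hy]
  exact cal_pi_nonneg _

theorem cal_full {V f g : ℝ → ℝ} (hV : Continuous V) (h : Sol (fun x => 1 - V x) f g) {c d : ℝ} (hne : ∃ x, f x ≠ 0)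
    (hlt : c < d) (hc : f c = 0) (hd : f d = 0) (hnz : ∀ t ∈ Ioo c d, f t ≠ 0) :
    1 ≤ ∫ t in c..d, 3 / 4 * xq f g t * (V t - xq f g t) := by
  have hVc : Continuous (fun x => 1 - V x) := by fun_prop
  have hxc := xq_continuous hVc h hne
  have hK : Continuous (fun t => 3 / 4 * xq f g t * (V t - xq f g t)) := by fun_prop
  have h1 : Tendsto (fun y => ∫ t in c..y, 3 / 4 * xq f g t * (V t - xq f g t)) (𝓝[<] d)
      (𝓝 (∫ t in c..d, 3 / 4 * xq f g t * (V t - xq f g t))) :=
    ((intervalIntegral.continuous_primitive (fun u v => hK.intervalIntegrable u v) c).tendsto d).mono_left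
      nhdsWithin_le_nhds
  refine ge_of_tendsto h1 ?_
  filter_upwards [Ioo_mem_nhdsLT hlt, (cal_near h hd (h.deriv_ne_zero hVc hne hd)).2] with y hy hy1
  rw [cal_half hV h hne hc hnz y hy, cal_pi_one hy1.2]

/-- induction over the zeros -/
theorem cal_ind {f K : ℝ → ℝ} {a b : ℝ} (hK : ∀ u v, IntervalIntegrable K volume u v)
    (P1 : ∀ c d, a ≤ c → c < d → d ≤ b → f c = 0 → f d = 0 → (∀ t ∈ Ioo c d, f t ≠ 0) → 1 ≤ ∫ t in c..d, K t)
    (P2 : ∀ c, a ≤ c → c ≤ b → f c = 0 → (∀ t ∈ Ioo c b, f t ≠ 0) → 0 ≤ ∫ t in c..b, K t)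
    (hfin : {x | x ∈ Icc a b ∧ f x = 0}.Finite) (n : ℕ) :
    ∀ c, a ≤ c → c ≤ b → f c = 0 → {x | x ∈ Ioo c b ∧ f x = 0}.ncard = n →
      ∀ Z : Finset ℝ, (∀ x ∈ Z, x ∈ Ioo c b ∧ f x = 0) → (Z.card : ℝ) ≤ ∫ t in c..b, K t := by
  induction n using Nat.strong_induction_on with
  | _ n ih =>
    intro c hac hcb hc hn Z hZ
    have hfin' : {x | x ∈ Ioo c b ∧ f x = 0}.Finite :=
      hfin.subset fun x hx => ⟨⟨hac.trans hx.1.1.le, hx.1.2.le⟩, hx.2⟩
    by_cases hex : {x | x ∈ Ioo c b ∧ f x = 0}.Nonempty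
    · obtain ⟨z, hz, hmin⟩ := Set.exists_min_image _ (fun x => x) hfin' hex
      have hs : {x | x ∈ Ioo z b ∧ f x = 0} ⊂ {x | x ∈ Ioo c b ∧ f x = 0} := by
        refine ⟨fun x hx => ⟨⟨hz.1.1.trans hx.1.1, hx.1.2⟩, hx.2⟩, fun hsub => ?_⟩
        exact lt_irrefl _ (hsub hz).1.1
      have h1 := ih _ (by rw [← hn]; exact Set.ncard_lt_ncard hs hfin') z (hac.trans hz.1.1.le) hz.1.2.le
        hz.2 rfl (Z.erase z) (by
          intro x hx
          have hx1 := Finset.ne_of_mem_erase hx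
          have hx2 := hZ x (Finset.mem_of_mem_erase hx)
          have hx3 := hmin x hx2
          exact ⟨⟨lt_of_le_of_ne hx3 hx1.symm, hx2.1.2⟩, hx2.2⟩)
      have h2 := P1 c z hac hz.1.1 hz.1.2.le hc hz.2 (by
        intro t ht h0
        have := hmin t ⟨⟨ht.1, ht.2.trans hz.1.2⟩, h0⟩
        exact absurd ht.2 (not_lt.2 this))
      have h3 : (Z.card : ℝ) ≤ (Z.erase z).card + 1 := by
        have := Finset.pred_card_le_card_erase (s := Z) (a := z)
        have h9 : Z.card ≤ (Z.erase z).card + 1 := by omega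
        exact_mod_cast h9
      rw [← intervalIntegral.integral_add_adjacent_intervals (hK c z) (hK z b)]
      linarith
    · have hZe : Z = ∅ := by
        rw [Finset.eq_empty_iff_forall_notMem]
        intro x hx
        exact hex ⟨x, hZ x hx⟩
      rw [hZe]
      simp only [Finset.card_empty, Nat.cast_zero]
      exact P2 c hac hcb hc fun t ht h0 => hex ⟨t, ht, h0⟩

theorem cal_nontriv {V f g : ℝ → ℝ} (h : Sol V f g) {a : ℝ} (hga : g a ≠ 0) : ∃ x, f x ≠ 0 := by
  by_contra hcon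
  push Not at hcon
  have h1 : f = fun _ => 0 := funext hcon
  have h2 := h.d1 a
  rw [h1] at h2
  exact hga (h2.unique (hasDerivAt_const a 0))

theorem calib {V f g : ℝ → ℝ} (hV : Continuous V) (h : Sol (fun x => 1 - V x) f g) {a b : ℝ} (hab : a ≤ b) (ha : f a = 0)
    (hga : g a ≠ 0) (Z : Finset ℝ) (hZ : ∀ x ∈ Z, x ∈ Ioo a b ∧ f x = 0) :
    (Z.card : ℝ) ≤ ∫ x in a..b, 3 / 4 * xq f g x * (V x - xq f g x) := by
  have hne := cal_nontriv h hga
  have hVc : Continuous (fun x => 1 - V x) := by fun_prop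
  have hxc := xq_continuous hVc h hne
  have hK : Continuous (fun t => 3 / 4 * xq f g t * (V t - xq f g t)) := by fun_prop
  exact cal_ind (fun u v => hK.intervalIntegrable u v)
    (fun c d _ hcd _ hc hd hnz => cal_full hV h hne hcd hc hd hnz)
    (fun c _ hcb hc hnz => cal_last hV h hne hcb hc hnz)
    (h.zeros_finite hVc hne a b) _ a le_rfl hab ha rfl Z hZ

/-- consequence: `(3/16) ∫ (V - 2x)² ≤ (3/16) ∫ V² - nneg` -/
theorem calib_nneg {V f g : ℝ → ℝ} (hV : Continuous V) (h : Sol (fun x => 1 - V x) f g) {a b : ℝ} (hab : a ≤ b) (ha : f a = 0)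
    (hga : g a ≠ 0) :
    ENNReal.ofReal (3 / 16 * ∫ x in a..b, (V x - 2 * xq f g x) ^ 2) + ((nneg a b (fun x => 1 - V x) : ℕ∞) : ℝ≥0∞)
      ≤ ENNReal.ofReal (3 / 16 * ∫ x in a..b, V x ^ 2) := by
  have hne := cal_nontriv h hga
  have hVc : Continuous (fun x => 1 - V x) := by fun_prop
  have hxc := xq_continuous hVc h hne
  have hfin := h.zeros_finite hVc hne a b
  have hfin' : {x | x ∈ Ioo a b ∧ f x = 0}.Finite := hfin.subset fun x hx => ⟨Ioo_subset_Icc_self hx.1, hx.2⟩
  set Z := hfin'.toFinset with hZd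
  have hZ : ∀ x ∈ Z, x ∈ Ioo a b ∧ f x = 0 := fun x hx => by simpa [hZd] using hx
  have h1 := calib hV h hab ha hga Z hZ
  have h2 : nneg a b (fun x => 1 - V x) ≤ Z.card :=
    nneg_le_card hVc h hne Z fun x hx h0 => by simp [hZd, h0, hx.1, hx.2]
  have h3 : ((nneg a b (fun x => 1 - V x) : ℕ∞) : ℝ≥0∞) ≤ ENNReal.ofReal (Z.card : ℝ) := by
    rw [ENNReal.ofReal_natCast]
    exact_mod_cast h2
  have h4 : 0 ≤ 3 / 16 * ∫ x in a..b, (V x - 2 * xq f g x) ^ 2 := by
    apply mul_nonneg (by norm_num)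
    exact intervalIntegral.integral_nonneg hab fun t _ => sq_nonneg _
  refine (add_le_add_right h3 _).trans ?_
  rw [← ENNReal.ofReal_add h4 (Nat.cast_nonneg _)]
  apply ENNReal.ofReal_le_ofReal
  have h5 : ∫ x in a..b, 3 / 4 * xq f g x * (V x - xq f g x)
      = 3 / 16 * (∫ x in a..b, V x ^ 2) - 3 / 16 * ∫ x in a..b, (V x - 2 * xq f g x) ^ 2 := by
    have hi1 : Continuous (fun x => V x ^ 2) := by fun_prop
    have hi2 : Continuous (fun x => (V x - 2 * xq f g x) ^ 2) := by fun_prop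
    rw [← mul_sub, ← intervalIntegral.integral_sub (hi1.intervalIntegrable _ _)
      (hi2.intervalIntegrable _ _), ← intervalIntegral.integral_const_mul]
    apply intervalIntegral.integral_congr
    intro t _
    simp only
    ring
  linarith

/-- one nodal interval -/
theorem cal_barg {V f g : ℝ → ℝ} (hV : Continuous V) (h : Sol (fun x => 1 - V x) f g) {c d : ℝ} (hne : ∃ x, f x ≠ 0)
    (hlt : c < d) (hc : f c = 0) (hd : f d = 0) (hnz : ∀ t ∈ Ioo c d, f t ≠ 0) :
    1 ≤ ∫ t in c..d, 1 / 2 * max (V t) 0 := by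
  have hVc : Continuous (fun x => 1 - V x) := by fun_prop
  obtain ⟨c', hc'1, hc'2⟩ := ((cal_near h hc (h.deriv_ne_zero hVc hne hc)).1.and
    (Ioo_mem_nhdsGT (show c < (c + d) / 2 by linarith))).exists
  obtain ⟨d', hd'1, hd'2⟩ := ((cal_near h hd (h.deriv_ne_zero hVc hne hd)).2.and
    (Ioo_mem_nhdsLT (show (c + d) / 2 < d by linarith))).exists
  have hcd' : c' ≤ d' := by linarith [hc'2.2, hd'2.1]
  set qq : ℝ → ℝ := fun t => g t / f t with hqq
  have hsub : Icc c' d' ⊆ Ioo c d := fun t ht => ⟨lt_of_lt_of_le hc'2.1 ht.1, lt_of_le_of_lt ht.2 hd'2.2⟩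
  have hqc : ContinuousOn qq (Icc c' d') := fun t ht =>
    (cal_q_deriv h (hnz t (hsub ht))).continuousAt.continuousWithinAt
  have hcl1 : IsCompact {x | x ∈ Icc c' d' ∧ qq x ≤ -1} := by
    have : IsClosed (Icc c' d' ∩ qq ⁻¹' (Iic (-1))) := hqc.preimage_isClosed_of_isClosed isClosed_Icc isClosed_Iic
    exact isCompact_Icc.of_isClosed_subset this fun x hx => hx.1
  obtain ⟨x2, hx2, hx2min⟩ := hcl1.exists_isLeast ⟨d', ⟨hcd', le_rfl⟩, hd'1.2⟩
  have hqc2 : ContinuousOn qq (Icc c' x2) := hqc.mono (Icc_subset_Icc_right hx2.1.2)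
  have hcl2 : IsCompact {x | x ∈ Icc c' x2 ∧ 1 ≤ qq x} := by
    have : IsClosed (Icc c' x2 ∩ qq ⁻¹' (Ici 1)) := hqc2.preimage_isClosed_of_isClosed isClosed_Icc isClosed_Ici
    exact isCompact_Icc.of_isClosed_subset this fun x hx => hx.1
  obtain ⟨x1, hx1, hx1max⟩ := hcl2.exists_isGreatest ⟨c', ⟨le_rfl, hx2.1.1⟩, hc'1.2⟩
  have h12 : x1 ≤ x2 := hx1.1.2
  have hmid : ∀ t ∈ Ioo x1 x2, -1 < qq t ∧ qq t < 1 := by
    intro t ht
    constructor
    · by_contra hcon
      rw [not_lt] at hcon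
      have := hx2min (show t ∈ {x | x ∈ Icc c' d' ∧ qq x ≤ -1} from
        ⟨⟨hx1.1.1.trans ht.1.le, ht.2.le.trans hx2.1.2⟩, hcon⟩)
      exact absurd ht.2 (not_lt.2 this)
    · by_contra hcon
      rw [not_lt] at hcon
      have := hx1max (show t ∈ {x | x ∈ Icc c' x2 ∧ 1 ≤ qq x} from
        ⟨⟨hx1.1.1.trans ht.1.le, ht.2.le⟩, hcon⟩)
      exact absurd ht.1 (not_lt.2 this)
  have hsub2 : Icc x1 x2 ⊆ Icc c' d' := Icc_subset_Icc hx1.1.1 hx2.1.2
  have hqc3 : ContinuousOn (fun t => 1 - V t - qq t ^ 2) (Icc x1 x2) :=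
    (hVc.continuousOn).sub ((hqc.mono hsub2).pow 2)
  have hint : ∫ t in x1..x2, (1 - V t - qq t ^ 2) = qq x2 - qq x1 := by
    apply intervalIntegral.integral_eq_sub_of_hasDerivAt
    · intro t ht
      rw [uIcc_of_le h12] at ht
      exact cal_q_deriv h (hnz t (hsub (hsub2 ht)))
    · apply ContinuousOn.intervalIntegrable
      rw [uIcc_of_le h12]
      exact hqc3
  have hVi : ∀ u v : ℝ, IntervalIntegrable (fun t => 1 / 2 * max (V t) 0) volume u v := fun u v =>
    Continuous.intervalIntegrable (by fun_prop) u v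
  have h5 : (1 : ℝ) ≤ ∫ t in x1..x2, 1 / 2 * max (V t) 0 := by
    have hle : ∫ t in x1..x2, -(1 / 2) * (1 - V t - qq t ^ 2) ≤ ∫ t in x1..x2, 1 / 2 * max (V t) 0 := by
      apply intervalIntegral.integral_mono_on_of_le_Ioo h12
      · apply ContinuousOn.intervalIntegrable
        rw [uIcc_of_le h12]
        exact continuousOn_const.mul hqc3
      · exact hVi _ _
      · intro t ht
        have hm := hmid t ht
        have : qq t ^ 2 ≤ 1 := by nlinarith
        have h6 : V t ≤ max (V t) 0 := le_max_left _ _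
        nlinarith
    rw [intervalIntegral.integral_const_mul, hint] at hle
    have h7 : qq x2 ≤ -1 := hx2.2
    have h8 : 1 ≤ qq x1 := hx1.2
    linarith
  have h9 : 0 ≤ ∫ t in c..x1, 1 / 2 * max (V t) 0 :=
    intervalIntegral.integral_nonneg (hsub (hsub2 ⟨le_rfl, h12⟩)).1.le fun t _ => by positivity
  have h10 : 0 ≤ ∫ t in x2..d, 1 / 2 * max (V t) 0 :=
    intervalIntegral.integral_nonneg (hsub (hsub2 ⟨h12, le_rfl⟩)).2.le fun t _ => by positivity
  rw [← intervalIntegral.integral_add_adjacent_intervals (hVi c x1) (hVi x1 d),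
    ← intervalIntegral.integral_add_adjacent_intervals (hVi x1 x2) (hVi x2 d)]
  linarith

theorem cal_barg_cont {a b : ℝ} (hab : a ≤ b) {V : ℝ → ℝ} (hV : Continuous V) {n : ℕ}
    (hn : (n : ℕ∞) ≤ nneg a b (fun x => 1 - V x)) : (n : ℝ) ≤ 1 / 2 * ∫ x in Ioo a b, max (V x) 0 := by
  have hVc : Continuous (fun x => 1 - V x) := by fun_prop
  obtain ⟨f, g, h, hfa, hga⟩ := exists_sol hVc a 0 1
  have hga' : g a ≠ 0 := by rw [hga]; norm_num
  have hne := cal_nontriv h hga'
  have hfin := h.zeros_finite hVc hne a b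
  have hfin' : {x | x ∈ Ioo a b ∧ f x = 0}.Finite := hfin.subset fun x hx => ⟨Ioo_subset_Icc_self hx.1, hx.2⟩
  set Z := hfin'.toFinset with hZd
  have hZ : ∀ x ∈ Z, x ∈ Ioo a b ∧ f x = 0 := fun x hx => by simpa [hZd] using hx
  have h2 : nneg a b (fun x => 1 - V x) ≤ Z.card :=
    nneg_le_card hVc h hne Z fun x hx h0 => by simp [hZd, h0, hx.1, hx.2]
  have h3 : n ≤ Z.card := by exact_mod_cast hn.trans h2
  have h4 : (Z.card : ℝ) ≤ ∫ t in a..b, 1 / 2 * max (V t) 0 :=
    cal_ind (fun u v => Continuous.intervalIntegrable (by fun_prop) u v)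
      (fun c d _ hcd _ hc hd hnz => cal_barg hV h hne hcd hc hd hnz)
      (fun c _ hcb _ _ => intervalIntegral.integral_nonneg hcb fun t _ => by positivity)
      hfin _ a le_rfl hab hfa rfl Z hZ
  rw [intervalIntegral.integral_const_mul, intervalIntegral.integral_of_le hab, integral_Ioc_eq_integral_Ioo] at h4
  have h5 : (n : ℝ) ≤ Z.card := by exact_mod_cast h3
  linarith

theorem bargmann {a b : ℝ} {V : ℝ → ℝ} (hV : IntegrableOn V (Ioo a b)) :
    ((nneg a b (fun x => 1 - V x) : ℕ∞) : ℝ≥0∞) ≤ ENNReal.ofReal (1 / 2 * ∫ x in Ioo a b, max (V x) 0) := by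
  by_cases hab : a ≤ b
  swap
  · rw [nneg_empty (le_of_not_ge hab)]
    simp
  have hI0 : 0 ≤ 1 / 2 * ∫ x in Ioo a b, max (V x) 0 :=
    mul_nonneg (by norm_num) (integral_nonneg fun x => le_max_right _ _)
  have key : ∀ n : ℕ, (n : ℕ∞) ≤ nneg a b (fun x => 1 - V x) → (n : ℝ) ≤ 1 / 2 * ∫ x in Ioo a b, max (V x) 0 := by
    intro n hn
    have hV1 : IntegrableOn (fun x => 1 - V x) (Ioo a b) :=
      (integrableOn_const (by simp)).sub hV
    obtain ⟨δ, hδ, hap⟩ := nneg_approx hV1 hn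
    apply le_of_forall_pos_le_add
    intro ε hε
    obtain ⟨W, hWs, hWle, hWc, hWi⟩ := hV.exists_hasCompactSupport_integral_sub_le
      (show 0 < min (δ / 2) ε by positivity)
    have hWle' : ∫ x in Ioo a b, |V x - W x| ≤ min (δ / 2) ε := by simpa [Real.norm_eq_abs] using hWle
    have h1 : (n : ℕ∞) ≤ nneg a b (fun x => 1 - W x) := by
      apply hap
      · exact (integrableOn_const (by simp)).sub hWi
      · have e : (fun x => |(1 - W x) - (1 - V x)|) = fun x => |V x - W x| := by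
          funext x
          congr 1
          ring
        rw [e]
        have := min_le_left (δ / 2) ε
        linarith
    have h2 := cal_barg_cont hab hWc h1
    have h3 : ∫ x in Ioo a b, max (W x) 0 ≤ (∫ x in Ioo a b, max (V x) 0) + ∫ x in Ioo a b, |V x - W x| := by
      have hi3 : Integrable (fun x => |V x - W x|) (volume.restrict (Ioo a b)) := (hV.sub hWi).abs
      have hi4 : Integrable (fun x => max (V x) 0) (volume.restrict (Ioo a b)) := hV.pos_part
      rw [← integral_add hi4 hi3]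
      apply integral_mono hWi.pos_part (hi4.add hi3)
      intro x
      simp only [Pi.add_apply]
      have h4 : W x ≤ V x + |V x - W x| := by
        have := neg_abs_le (V x - W x)
        linarith
      apply max_le
      · exact h4.trans (add_le_add_left (le_max_left _ _) _)
      · exact add_nonneg (le_max_right _ _) (abs_nonneg _)
    have := min_le_right (δ / 2) ε
    linarith
  by_cases htop : nneg a b (fun x => 1 - V x) = ⊤
  · exfalso
    obtain ⟨n, hn⟩ := exists_nat_gt (1 / 2 * ∫ x in Ioo a b, max (V x) 0)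
    have := key n (by rw [htop]; exact le_top)
    linarith
  · obtain ⟨n, hn⟩ := ENat.ne_top_iff_exists.1 htop
    rw [← hn]
    have := key n hn.le
    rw [show (((n : ℕ∞)) : ℝ≥0∞) = ENNReal.ofReal (n : ℝ) by simp]
    exact ENNReal.ofReal_le_ofReal this

end Pool.Agent.RLT40
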