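import Mathlib

/-!
# One dimensional definitions (Part B of MP_d5a362_mp)

All definitions used by the one dimensional modules.  DO NOT CHANGE.
-/

open MeasureTheory Set
open scoped ENNReal NNReal

namespace Pool.Agent.RLT40

/-- The Sobolev space `H¹₀(a,b)`: functions on `ℝ`, zero outside `(a,b)`, that are primitives of square integrable functions. -/
def IsH10 (a b : ℝ) (f : ℝ → ℝ) : Prop :=
  (∀ x, x ∉ Ioo a b → f x = 0) ∧
    ∃ g : ℝ → ℝ, MemLp g 2 volume ∧ (∀ x, x ∉ Ioo a b → g x = 0) ∧ ∀ x, f x = ∫ t in a..x, g t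

theorem IsH10.add {a b : ℝ} {f f' : ℝ → ℝ} (h : IsH10 a b f) (h' : IsH10 a b f') : IsH10 a b (f + f') := by
  obtain ⟨h0, g, hg, hg0, hfg⟩ := h
  obtain ⟨h0', g', hg', hg0', hfg'⟩ := h'
  refine ⟨fun x hx => by simp [h0 x hx, h0' x hx], g + g', hg.add hg', fun x hx => by simp [hg0 x hx, hg0' x hx], ?_⟩
  intro x
  have i1 : IntervalIntegrable g volume a x :=
    ((hg.locallyIntegrable (by norm_num)).integrableOn_isCompact isCompact_uIcc).intervalIntegrable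
  have i2 : IntervalIntegrable g' volume a x :=
    ((hg'.locallyIntegrable (by norm_num)).integrableOn_isCompact isCompact_uIcc).intervalIntegrable
  simp only [Pi.add_apply, hfg x, hfg' x]
  rw [intervalIntegral.integral_add i1 i2]

theorem IsH10.smul {a b : ℝ} {f : ℝ → ℝ} (c : ℝ) (h : IsH10 a b f) : IsH10 a b (c • f) := by
  obtain ⟨h0, g, hg, hg0, hfg⟩ := h
  refine ⟨fun x hx => by simp [h0 x hx], c • g, hg.const_smul c, fun x hx => by simp [hg0 x hx], ?_⟩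
  intro x
  simp only [Pi.smul_apply, smul_eq_mul, hfg x]
  rw [intervalIntegral.integral_const_mul]

/-- `H¹₀(a,b)` as a subspace of the space of functions. -/
def H10 (a b : ℝ) : Submodule ℝ (ℝ → ℝ) where
  carrier := {f | IsH10 a b f}
  add_mem' := fun h h' => h.add h'
  zero_mem' := ⟨fun _ _ => rfl, 0, MemLp.zero, fun _ _ => rfl, fun x => by simp⟩
  smul_mem' := fun c _ h => h.smul c

/-- the quadratic form `∫ f'² + V f²` -/
noncomputable def q (V f : ℝ → ℝ) : ℝ := ∫ x, (deriv f x ^ 2 + V x * f x ^ 2)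

/-- the largest dimension of a subspace of `H¹₀(a,b)` on which `q V` is negative definite
(= number of negative Dirichlet eigenvalues of `-d² + V` on `(a,b)`) -/
noncomputable def nneg (a b : ℝ) (V : ℝ → ℝ) : ℕ∞ :=
  ⨆ (F : Submodule ℝ (ℝ → ℝ)) (_ : F ≤ H10 a b ∧ FiniteDimensional ℝ F ∧ ∀ f ∈ F, f ≠ 0 → q V f < 0),
    (Module.finrank ℝ F : ℕ∞)

/-- `ω(x) = e^{2x}` -/
noncomputable def om (x : ℝ) : ℝ := Real.exp (2 * x)

/-- the potential `k² - U + τ ω` of channel `k` -/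
noncomputable def pot (k τ : ℝ) (U : ℝ → ℝ) : ℝ → ℝ := fun x => k ^ 2 - U x + τ * om x

/-- `∑_{k ≥ 1} k² N_k(τ; U; (a,b))` -/
noncomputable def Ntot (a b : ℝ) (U : ℝ → ℝ) (τ : ℝ) : ℝ≥0∞ :=
  ∑' k : ℕ, ((k : ℝ≥0∞) + 1) ^ 2 * ((nneg a b (pot (k + 1) τ U) : ℕ∞) : ℝ≥0∞)

/-- `G(U) = ∫_0^∞ γ τ^{γ-1} N_τ(U) dτ` -/
noncomputable def Gf (γ a b : ℝ) (U : ℝ → ℝ) : ℝ≥0∞ :=
  ∫⁻ τ in Ioi (0 : ℝ), ENNReal.ofReal (γ * τ ^ (γ - 1)) * Ntot a b U τ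

/-- `J(U) = ∫_a^b U^{2+γ} e^{-2γx} dx` -/
noncomputable def Jf (γ a b : ℝ) (U : ℝ → ℝ) : ℝ≥0∞ :=
  ∫⁻ x in Ioo a b, ENNReal.ofReal (U x ^ (2 + γ) * Real.exp (-(2 * γ * x)))

/-- admissible competitors on `(a,b)` -/
def Adm1 (γ a b : ℝ) (U : ℝ → ℝ) : Prop :=
  (∀ x, 0 ≤ U x) ∧ MemLp U (ENNReal.ofReal (2 + γ)) (volume.restrict (Ioo a b))

/-- `κ_γ = 2/((γ+1)(γ+2))` -/
noncomputable def kap (γ : ℝ) : ℝ := 2 / ((γ + 1) * (γ + 2))

/-- `f` solves `f'' = V f` on the whole line, `g = f'`. -/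
structure Sol (V f g : ℝ → ℝ) : Prop where
  d1 : ∀ x, HasDerivAt f (g x) x
  d2 : ∀ x, HasDerivAt g (V x * f x) x

/-- `x = (1 - q²)_+`, `q = g/f`; zero where `f = 0`. -/
noncomputable def xq (f g : ℝ → ℝ) (x : ℝ) : ℝ := max 0 (f x ^ 2 - g x ^ 2) / f x ^ 2

/-- smooth step: `0` for `t ≤ 0`, `1` for `t ≥ 1` -/
noncomputable def sstep (t : ℝ) : ℝ :=
  if t ≤ 0 then 0 else if 1 ≤ t then 1 else t - Real.sin (2 * Real.pi * t) / (2 * Real.pi)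

/-- derivative of `sstep` (lies in `[0,2]`) -/
noncomputable def sstepd (t : ℝ) : ℝ := if t ≤ 0 ∨ 1 ≤ t then 0 else 1 - Real.cos (2 * Real.pi * t)

/-- the angle `θ` of a window `[α,β]` with end zones of length `ℓ`: `0` outside, `π/2` on the core -/
noncomputable def th (α β ℓ x : ℝ) : ℝ := Real.pi / 2 * (sstep ((x - α) / ℓ) - sstep ((x - β + ℓ) / ℓ))

/-- `θ'` -/
noncomputable def thd (α β ℓ x : ℝ) : ℝ := Real.pi / (2 * ℓ) * (sstepd ((x - α) / ℓ) - sstepd ((x - β + ℓ) / ℓ))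

/-- the window potential `U + θ'²` -/
noncomputable def Um (U : ℝ → ℝ) (α β ℓ : ℝ) : ℝ → ℝ := fun x => U x + thd α β ℓ x ^ 2

/-- `C` is an upper bound in the one-state problem. -/
def OneState (γ C : ℝ) : Prop :=
  ∀ a b : ℝ, ∀ U : ℝ → ℝ, Adm1 γ a b U → ∀ f ∈ H10 a b, f ≠ 0 → ∀ e : ℝ, 0 < e → q (pot 1 e U) f ≤ 0 →
    ENNReal.ofReal (e ^ γ) ≤ ENNReal.ofReal C * Jf γ a b U

/-- Euler-Lagrange data of a box optimiser: finitely many (channel, eigenvalue) pairs. -/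
structure EL (γ a b C : ℝ) (U : ℝ → ℝ) (n : ℕ) (k : Fin n → ℕ) (e α : Fin n → ℝ) (φ ψ : Fin n → ℝ → ℝ) : Prop where
  hk : ∀ i, 1 ≤ k i
  he : ∀ i, 0 < e i
  hα : ∀ i, 0 < α i
  sol : ∀ i, Sol (pot (k i) (e i) U) (φ i) (ψ i)
  bda : ∀ i, φ i a = 0
  bdb : ∀ i, φ i b = 0
  nz : ∀ i, ψ i a ≠ 0
  inj : ∀ i j, k i = k j → e i = e j → i = j
  norm : ∀ i, α i * (∫ x in a..b, om x * φ i x ^ 2) = (k i : ℝ) ^ 2 * e i ^ (γ - 1)
  el : ∀ x ∈ Icc a b, γ * ∑ i, α i * φ i x ^ 2 = C * (2 + γ) * U x ^ (1 + γ) * Real.exp (-(2 * γ * x))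
  cnt : ∀ κ : ℕ, 1 ≤ κ → ∀ τ : ℝ, 0 ≤ τ →
    nneg a b (pot κ τ U) = ((Finset.univ.filter fun i => k i = κ ∧ τ < e i).card : ℕ∞)

/-- `U` is an optimiser on the box `(a,b)` with optimal constant `C`. -/
structure Opt (γ a b C : ℝ) (U : ℝ → ℝ) : Prop where
  hab : a < b
  hC : 0 < C
  cont : Continuous U
  zero : ∀ x, x ∉ Ioo a b → U x = 0
  pos : ∀ x ∈ Ioo a b, 0 < U x
  max : ∀ U' : ℝ → ℝ, Adm1 γ a b U' → Gf γ a b U' ≤ ENNReal.ofReal C * Jf γ a b U'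
  eq : Gf γ a b U = ENNReal.ofReal C * Jf γ a b U
  el : ∃ (n : ℕ) (k : Fin n → ℕ) (e α : Fin n → ℝ) (φ ψ : Fin n → ℝ → ℝ), 0 < n ∧ EL γ a b C U n k e α φ ψ

end Pool.Agent.RLT40
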