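import Pool.Agent.RLT40.ChanDefs
import Pool.Agent.RLT40.FourD
import Pool.Agent.RLT40.OneD

/-!
# Modules CHAN1, CHAN2 (paper 2.A3): channel decomposition.

`comp u p t = ∫_S e^t u(e^t s) p(s) ds`.  CHAN1 `comp_props`: smooth, compactly supported in `(-L,L)`.
`grad_parseval`: `∫|∇u|² = -∫uΔu = -∫ r³dr∫_S u Δu`; Parseval on each sphere (uniformly bounded partial sums: `Σ|a_l b_l| ≤ ‖u(r·)‖‖Δu(r·)‖`, dominated convergence);
`(Δu)_{p}(r) = (∂_r² + (3/r)∂_r - l(l+2)/r²) u_p(r)`, `u_p(r) = ∫_S u(rs)p(s)ds`: test with `h ∈ C_c^∞(0,∞)`: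
`∫ h(r)(Δu)_p r³ dr = ∫ Δu · h(|x|)|x|^{-l}p(x) dx = ∫ u Δ(h(|x|)|x|^{-l}p) dx`, `Δ(f(|x|)p) = (f'' + (3+2l)f'/r)p` for harmonic homogeneous `p` (Euler `x·∇p = lp`);
then with `c(t) = e^t u_p(e^t)`: `-∫ u_p (Δu)_p r³dr = ∫ c'² + (l+1)²c² dt` (1D integration by parts).
`pot_parseval`: `∫ W u² dx = ∫ U(t) Σ c² dt` with `U(t) = e^{2t}w(e^t)` (Tonelli, polar coordinates), `∫u² = ∫ω Σc²`.
CHAN2 `channel`: in each channel `k = l+1 ≤ K` with `nneg = n_k`, maximal negative space `M_k`; the `q`-orthogonality to `M_k` of `comp u Y_{l,i}` is `n_k` linear conditions and implies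
`q(pot k τ U)(comp) ≥ 0` (else `M_k + span` is a larger negative space); for `k > K` `nneg = 0` (as `Ntot < ⊤`).  Total number of conditions `≤ Σk²n_k = Ntot`.
-/

open MeasureTheory Set
open scoped ENNReal NNReal

namespace Pool.Agent.RLT40

/-! ### integrals over the sphere depending smoothly on a parameter -/

theorem chanA_integrable {g : En 4 → ℝ} (hg : Continuous g) :
    Integrable (fun s : Metric.sphere (0 : En 4) 1 => g (s : En 4)) sph := by
  have hc : Continuous (fun s : Metric.sphere (0 : En 4) 1 => g (s : En 4)) :=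
    hg.comp continuous_subtype_val
  exact hc.integrable_of_hasCompactSupport (HasCompactSupport.of_compactSpace _)

theorem chanA_hasDerivAt {G : ℝ × En 4 → ℝ} (hG : ContDiff ℝ (⊤ : ℕ∞) G) (t : ℝ) :
    HasDerivAt (fun t => ∫ s : Metric.sphere (0 : En 4) 1, G (t, (s : En 4)) ∂sph)
      (∫ s : Metric.sphere (0 : En 4) 1, fderiv ℝ G (t, (s : En 4)) (1, 0) ∂sph) t := by
  have hG'c : Continuous (fun z : ℝ × En 4 => fderiv ℝ G z (1, 0)) :=
    (hG.continuous_fderiv (by simp)).clm_apply continuous_const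
  have hK : IsCompact (Icc (t - 1) (t + 1) ×ˢ Metric.sphere (0 : En 4) 1) :=
    isCompact_Icc.prod (isCompact_sphere _ _)
  obtain ⟨C, hC⟩ := hK.exists_bound_of_continuousOn hG'c.continuousOn
  refine (hasDerivAt_integral_of_dominated_loc_of_deriv_le (s := Icc (t - 1) (t + 1))
    (F := fun t (s : Metric.sphere (0 : En 4) 1) => G (t, (s : En 4)))
    (F' := fun t (s : Metric.sphere (0 : En 4) 1) => fderiv ℝ G (t, (s : En 4)) (1, 0))
    (bound := fun _ => C) (Icc_mem_nhds (by linarith) (by linarith)) ?_ ?_ ?_ ?_ ?_ ?_).2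
  · refine Filter.Eventually.of_forall fun x => ?_
    exact (chanA_integrable (g := fun y => G (x, y))
      (hG.continuous.comp (continuous_const.prodMk continuous_id))).aestronglyMeasurable
  · exact chanA_integrable (g := fun y => G (t, y))
      (hG.continuous.comp (continuous_const.prodMk continuous_id))
  · exact (chanA_integrable (g := fun y => fderiv ℝ G (t, y) (1, 0))
      (hG'c.comp (continuous_const.prodMk continuous_id))).aestronglyMeasurable
  · refine Filter.Eventually.of_forall fun s x hx => ?_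
    exact hC (x, (s : En 4)) ⟨hx, s.2⟩
  · exact integrable_const C
  · refine Filter.Eventually.of_forall fun s x _ => ?_
    have h1 : HasFDerivAt G (fderiv ℝ G (x, (s : En 4))) (x, (s : En 4)) :=
      (hG.differentiable (by simp) _).hasFDerivAt
    have h2 : HasDerivAt (fun x : ℝ => (x, (s : En 4))) ((1 : ℝ), (0 : En 4)) x :=
      (hasDerivAt_id x).prodMk (hasDerivAt_const x _)
    exact h1.comp_hasDerivAt x h2

theorem chanA_contDiff_nat (n : ℕ) : ∀ {G : ℝ × En 4 → ℝ}, ContDiff ℝ (⊤ : ℕ∞) G →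
    ContDiff ℝ n (fun t => ∫ s : Metric.sphere (0 : En 4) 1, G (t, (s : En 4)) ∂sph) := by
  induction n with
  | zero =>
    intro G hG
    have : Continuous (fun t => ∫ s : Metric.sphere (0 : En 4) 1, G (t, (s : En 4)) ∂sph) := by
      rw [continuous_iff_continuousAt]
      exact fun t => (chanA_hasDerivAt hG t).continuousAt
    exact contDiff_zero.2 this
  | succ n ih =>
    intro G hG
    have hd : deriv (fun t => ∫ s : Metric.sphere (0 : En 4) 1, G (t, (s : En 4)) ∂sph) =
        fun t => ∫ s : Metric.sphere (0 : En 4) 1, fderiv ℝ G (t, (s : En 4)) (1, 0) ∂sph := by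
      ext t
      exact (chanA_hasDerivAt hG t).deriv
    have hG' : ContDiff ℝ (⊤ : ℕ∞) (fun z : ℝ × En 4 => fderiv ℝ G z (1, 0)) :=
      (hG.fderiv_right (m := (⊤ : ℕ∞)) (by simp)).clm_apply contDiff_const
    have := ih hG'
    rw [show ((n + 1 : ℕ) : WithTop ℕ∞) = (n : WithTop ℕ∞) + 1 by norm_cast, contDiff_succ_iff_deriv]
    refine ⟨fun t => (chanA_hasDerivAt hG t).differentiableAt, by simp, ?_⟩
    rw [hd]
    exact this

theorem chanA_contDiff {G : ℝ × En 4 → ℝ} (hG : ContDiff ℝ (⊤ : ℕ∞) G) :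
    ContDiff ℝ (⊤ : ℕ∞) (fun t => ∫ s : Metric.sphere (0 : En 4) 1, G (t, (s : En 4)) ∂sph) :=
  contDiff_infty.2 fun n => chanA_contDiff_nat n hG

/-! ### polynomials -/

/-- unit vectors -/
noncomputable def chanA_e (i : Fin 4) : En 4 := EuclideanSpace.single i 1

theorem chanA_hasFDerivAt_ev (p : MvPolynomial (Fin 4) ℝ) (x : En 4) :
    HasFDerivAt (ev p) (∑ i, ev (MvPolynomial.pderiv i p) x • (EuclideanSpace.proj i : En 4 →L[ℝ] ℝ)) x := by
  induction p using MvPolynomial.induction_on with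
  | C a =>
    have h1 : ev (MvPolynomial.C a) = fun _ : En 4 => a := by
      ext y; simp [ev]
    have h2 : (∑ i, ev (MvPolynomial.pderiv i (MvPolynomial.C a)) x •
        (EuclideanSpace.proj i : En 4 →L[ℝ] ℝ)) = 0 := by
      simp [ev]
    rw [h1, h2]
    exact hasFDerivAt_const a x
  | add p q hp hq =>
    have h1 : ev (p + q) = fun y : En 4 => ev p y + ev q y := by
      ext y; simp [ev]
    have h2 : (∑ i, ev (MvPolynomial.pderiv i (p + q)) x • (EuclideanSpace.proj i : En 4 →L[ℝ] ℝ)) =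
        (∑ i, ev (MvPolynomial.pderiv i p) x • (EuclideanSpace.proj i : En 4 →L[ℝ] ℝ)) +
        (∑ i, ev (MvPolynomial.pderiv i q) x • (EuclideanSpace.proj i : En 4 →L[ℝ] ℝ)) := by
      rw [← Finset.sum_add_distrib]
      refine Finset.sum_congr rfl fun i _ => ?_
      simp [ev, add_smul]
    rw [h1, h2]
    exact hp.add hq
  | mul_X p n hp =>
    have h1 : ev (p * MvPolynomial.X n) = fun y : En 4 => ev p y * (EuclideanSpace.proj n : En 4 →L[ℝ] ℝ) y := by
      ext y; simp [ev]
    have h2 : (∑ i, ev (MvPolynomial.pderiv i (p * MvPolynomial.X n)) x •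
        (EuclideanSpace.proj i : En 4 →L[ℝ] ℝ)) =
        ev p x • (EuclideanSpace.proj n : En 4 →L[ℝ] ℝ) + (EuclideanSpace.proj n : En 4 →L[ℝ] ℝ) x •
        (∑ i, ev (MvPolynomial.pderiv i p) x • (EuclideanSpace.proj i : En 4 →L[ℝ] ℝ)) := by
      have h4 : ∀ i, ev (MvPolynomial.pderiv i (p * MvPolynomial.X n)) x =
          (if n = i then ev p x else 0) + x n * ev (MvPolynomial.pderiv i p) x := by
        intro i
        simp only [ev, Derivation.leibniz, MvPolynomial.pderiv_X, smul_eq_mul, map_add, map_mul,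
          MvPolynomial.eval_X]
        by_cases h : n = i
        · subst h
          simp
        · have h' : ¬ i = n := fun h'' => h h''.symm
          simp [h]
      rw [Finset.smul_sum]
      have h3 : ev p x • (EuclideanSpace.proj n : En 4 →L[ℝ] ℝ) =
          ∑ i, (if n = i then ev p x else 0) • (EuclideanSpace.proj i : En 4 →L[ℝ] ℝ) := by
        simp [ite_smul]
      rw [h3, ← Finset.sum_add_distrib]
      refine Finset.sum_congr rfl fun i _ => ?_
      rw [h4, add_smul, smul_smul]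
      rfl
    rw [h1, h2]
    exact hp.mul (EuclideanSpace.proj n : En 4 →L[ℝ] ℝ).hasFDerivAt

theorem chanA_contDiff_ev (p : MvPolynomial (Fin 4) ℝ) : ContDiff ℝ (⊤ : ℕ∞) (ev p) := by
  induction p using MvPolynomial.induction_on with
  | C a =>
    have h1 : ev (MvPolynomial.C a) = fun _ : En 4 => a := by
      ext y; simp [ev]
    rw [h1]
    exact contDiff_const
  | add p q hp hq =>
    have h1 : ev (p + q) = fun y : En 4 => ev p y + ev q y := by
      ext y; simp [ev]
    rw [h1]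
    exact hp.add hq
  | mul_X p n hp =>
    have h1 : ev (p * MvPolynomial.X n) = fun y : En 4 => ev p y * (EuclideanSpace.proj n : En 4 →L[ℝ] ℝ) y := by
      ext y; simp [ev]
    rw [h1]
    exact hp.mul (EuclideanSpace.proj n : En 4 →L[ℝ] ℝ).contDiff

theorem chanA_fderiv_ev (p : MvPolynomial (Fin 4) ℝ) (x : En 4) (i : Fin 4) :
    fderiv ℝ (ev p) x (chanA_e i) = ev (MvPolynomial.pderiv i p) x := by
  rw [(chanA_hasFDerivAt_ev p x).fderiv, sum_apply]
  simp [chanA_e]

theorem chanA_euler {l : ℕ} {p : MvPolynomial (Fin 4) ℝ} (hp : p ∈ HarmPoly l) (x : En 4) :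
    ∑ i, x i * ev (MvPolynomial.pderiv i p) x = l * ev p x := by
  have hhom : p.IsHomogeneous l := hp.1
  have h := congrArg (fun q => ev q x) hhom.sum_X_mul_pderiv
  simpa [ev] using h

theorem chanA_plap {l : ℕ} {p : MvPolynomial (Fin 4) ℝ} (hp : p ∈ HarmPoly l) (x : En 4) :
    ∑ i, ev (MvPolynomial.pderiv i (MvPolynomial.pderiv i p)) x = 0 := by
  have hlap : plap p = 0 := hp.2
  have h := congrArg (fun q => ev q x) hlap
  simpa [ev, plap] using h

/-- the Laplacian in coordinates -/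
theorem chanA_laplacian {u : En 4 → ℝ} (hu : ContDiff ℝ (⊤ : ℕ∞) u) (x : En 4) :
    Laplacian.laplacian u x = ∑ i, fderiv ℝ (fun y => fderiv ℝ u y (chanA_e i)) x (chanA_e i) := by
  rw [InnerProductSpace.laplacian_eq_iteratedFDeriv_orthonormalBasis u (EuclideanSpace.basisFun (Fin 4) ℝ)]
  refine Finset.sum_congr rfl fun i _ => ?_
  rw [iteratedFDeriv_two_apply]
  have h1 : DifferentiableAt ℝ (fderiv ℝ u) x :=
    (hu.fderiv_right (m := (⊤ : ℕ∞)) (by simp)).differentiable (by simp) x
  rw [fderiv_clm_apply h1 (differentiableAt_const _)]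
  simp [chanA_e]

theorem chanA_hom {l : ℕ} {p : MvPolynomial (Fin 4) ℝ} (hp : p ∈ HarmPoly l) (r : ℝ) (x : En 4) :
    ev p (r • x) = r ^ l * ev p x := by
  have hhom : p.IsHomogeneous l := hp.1
  unfold ev
  rw [MvPolynomial.eval_eq', MvPolynomial.eval_eq', Finset.mul_sum]
  refine Finset.sum_congr rfl fun d hd => ?_
  have h1 : ∑ i, d i = l := by
    have := hhom (MvPolynomial.mem_support_iff.1 hd)
    rw [Finsupp.weight_apply, Finsupp.sum_fintype] at this
    · simpa using this
    · simp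
  have h2 : ∏ i, ((r • x : En 4) i) ^ d i = r ^ l * ∏ i, (x i) ^ d i := by
    rw [← h1, ← Finset.prod_pow_eq_pow_sum, ← Finset.prod_mul_distrib]
    refine Finset.prod_congr rfl fun i _ => ?_
    rw [PiLp.smul_apply, smul_eq_mul, mul_pow]
  rw [h2]
  ring

/-- polar coordinates, logarithmic radius -/
theorem chanA_polar {f : En 4 → ℝ} (hf : Integrable f) :
    ∫ x, f x = ∫ t : ℝ, Real.exp (4 * t) * ∫ s : Metric.sphere (0 : En 4) 1, f (Real.exp t • (s : En 4)) ∂sph := by
  have hfr : Module.finrank ℝ (En 4) = 4 := by simp [En]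
  have hmp := (volume : Measure (En 4)).measurePreserving_homeomorphUnitSphereProd
  rw [hfr] at hmp
  set g : Metric.sphere (0 : En 4) 1 × Ioi (0 : ℝ) → ℝ := fun z => f ((z.2 : ℝ) • (z.1 : En 4)) with hg
  have hgcomp : ∀ x : ({0}ᶜ : Set (En 4)), g (homeomorphUnitSphereProd (En 4) x) = f x := by
    intro x
    have hx : (x : En 4) ≠ 0 := x.2
    have hx' : ‖(x : En 4)‖ ≠ 0 := norm_ne_zero_iff.2 hx
    simp only [hg, homeomorphUnitSphereProd_apply_snd_coe, homeomorphUnitSphereProd_apply_fst_coe]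
    rw [smul_smul, mul_inv_cancel₀ hx', one_smul]
  have h1 : ∫ x, f x = ∫ x : ({0}ᶜ : Set (En 4)), f x ∂((volume : Measure (En 4)).comap (↑)) := by
    rw [integral_subtype_comap (measurableSet_singleton _).compl fun x ↦ f x, restrict_compl_singleton]
  have h2 : ∫ x : ({0}ᶜ : Set (En 4)), f x ∂((volume : Measure (En 4)).comap (↑)) =
      ∫ z, g z ∂((volume : Measure (En 4)).toSphere.prod (Measure.volumeIoiPow (4 - 1))) := by
    rw [← hmp.integral_comp (Homeomorph.measurableEmbedding _) g]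
    exact integral_congr_ae (Filter.Eventually.of_forall fun x => (hgcomp x).symm)
  have hint : Integrable g ((volume : Measure (En 4)).toSphere.prod (Measure.volumeIoiPow (4 - 1))) := by
    rw [← hmp.integrable_comp_emb (Homeomorph.measurableEmbedding _)]
    have h3 : Integrable (fun x : ({0}ᶜ : Set (En 4)) => f x) ((volume : Measure (En 4)).comap (↑)) := by
      have := integrableOn_iff_comap_subtypeVal (μ := (volume : Measure (En 4))) (f := f)
        (measurableSet_singleton (0 : En 4)).compl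
      exact this.1 hf.integrableOn
    exact h3.congr (Filter.Eventually.of_forall fun x => (hgcomp x).symm)
  rw [h1, h2, integral_prod_symm g hint]
  have h4 : ∫ y : Ioi (0 : ℝ), ∫ s : Metric.sphere (0 : En 4) 1, g (s, y) ∂(volume : Measure (En 4)).toSphere ∂(Measure.volumeIoiPow (4 - 1)) =
      ∫ r in Ioi (0 : ℝ), r ^ 3 * ∫ s : Metric.sphere (0 : En 4) 1, f (r • (s : En 4)) ∂sph := by
    simp only [Measure.volumeIoiPow, ENNReal.ofReal]
    rw [integral_withDensity_eq_integral_smul,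
        integral_subtype_comap measurableSet_Ioi fun a ↦ Real.toNNReal (a ^ (4 - 1)) • ∫ s : Metric.sphere (0 : En 4) 1, f (a • (s : En 4)) ∂sph,
        setIntegral_congr_fun measurableSet_Ioi fun x hx ↦ ?_]
    · simp only [NNReal.smul_def, smul_eq_mul]
      rw [Real.coe_toNNReal _ (pow_nonneg (le_of_lt (mem_Ioi.1 hx)) _)]
    · exact (measurable_subtype_coe.pow_const _).real_toNNReal
  rw [h4]
  have h6 : ∫ t : ℝ, Real.exp (4 * t) * ∫ s : Metric.sphere (0 : En 4) 1, f (Real.exp t • (s : En 4)) ∂sph =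
     ∫ r in Real.exp '' univ, r ^ 3 * ∫ s : Metric.sphere (0 : En 4) 1, f (r • (s : En 4)) ∂sph := by
    rw [integral_image_eq_integral_abs_deriv_smul (f' := Real.exp) MeasurableSet.univ
      (fun x _ => (Real.hasDerivAt_exp x).hasDerivWithinAt) Real.exp_injective.injOn]
    rw [Measure.restrict_univ]
    refine integral_congr_ae (Filter.Eventually.of_forall fun t => ?_)
    simp only [abs_of_pos (Real.exp_pos t), smul_eq_mul]
    rw [← Real.exp_nat_mul, ← mul_assoc, ← Real.exp_add]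
    congr 2
    push_cast
    ring
  rw [h6, image_univ, Real.range_exp]

/-! ### Green's formula and test functions -/

theorem chanA_contDiff_D {u : En 4 → ℝ} (hu : ContDiff ℝ (⊤ : ℕ∞) u) (v : En 4) :
    ContDiff ℝ (⊤ : ℕ∞) (fun y => fderiv ℝ u y v) :=
  (hu.fderiv_right (m := (⊤ : ℕ∞)) (by simp)).clm_apply contDiff_const

theorem chanA_supp_D {u : En 4 → ℝ} (hc : HasCompactSupport u) (v : En 4) :
    HasCompactSupport (fun y => fderiv ℝ u y v) :=
  hc.fderiv_apply ℝ v

theorem chanA_int_mul {f g : En 4 → ℝ} (hf : Continuous f) (hg : Continuous g) (hc : HasCompactSupport f) :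
    Integrable (fun x => f x * g x) :=
  (hf.mul hg).integrable_of_hasCompactSupport hc.mul_right

/-- one direction of the Green formula -/
theorem chanA_green1 {u w : En 4 → ℝ} (hu : ContDiff ℝ (⊤ : ℕ∞) u) (hc : HasCompactSupport u)
    (hw : ContDiff ℝ (⊤ : ℕ∞) w) (v : En 4) :
    ∫ x, fderiv ℝ (fun y => fderiv ℝ u y v) x v * w x =
      ∫ x, u x * fderiv ℝ (fun y => fderiv ℝ w y v) x v := by
  have hDu := chanA_contDiff_D hu v
  have hDw := chanA_contDiff_D hw v
  have hDDu := chanA_contDiff_D hDu v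
  have hDDw := chanA_contDiff_D hDw v
  have hcDu := chanA_supp_D hc v
  have hcDDu := chanA_supp_D hcDu v
  have hdiff : ∀ {g : En 4 → ℝ}, ContDiff ℝ (⊤ : ℕ∞) g → ∀ x, DifferentiableAt ℝ g x :=
    fun h x => h.differentiable (by simp) x
  have h1 := integral_mul_fderiv_eq_neg_fderiv_mul_of_integrable (μ := (volume : Measure (En 4)))
    (f := fun y => fderiv ℝ u y v) (g := w) (v := v)
    (chanA_int_mul hDDu.continuous hw.continuous hcDDu)
    (chanA_int_mul hDu.continuous hDw.continuous hcDu)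
    (chanA_int_mul hDu.continuous hw.continuous hcDu)
    (fun x _ => hdiff hDu x) (fun x _ => hdiff hw x)
  have h2 := integral_mul_fderiv_eq_neg_fderiv_mul_of_integrable (μ := (volume : Measure (En 4)))
    (f := u) (g := fun y => fderiv ℝ w y v) (v := v)
    (chanA_int_mul hDu.continuous hDw.continuous hcDu)
    (chanA_int_mul hu.continuous hDDw.continuous hc)
    (chanA_int_mul hu.continuous hDw.continuous hc)
    (fun x _ => hdiff hu x) (fun x _ => hdiff hDw x)
  linarith

theorem chanA_green {u w : En 4 → ℝ} (hu : ContDiff ℝ (⊤ : ℕ∞) u) (hc : HasCompactSupport u)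
    (hw : ContDiff ℝ (⊤ : ℕ∞) w) :
    ∫ x, Laplacian.laplacian u x * w x = ∫ x, u x * Laplacian.laplacian w x := by
  have h1 : ∀ x, Laplacian.laplacian u x * w x =
      ∑ i, fderiv ℝ (fun y => fderiv ℝ u y (chanA_e i)) x (chanA_e i) * w x := by
    intro x
    rw [chanA_laplacian hu, Finset.sum_mul]
  have h2 : ∀ x, u x * Laplacian.laplacian w x =
      ∑ i, u x * fderiv ℝ (fun y => fderiv ℝ w y (chanA_e i)) x (chanA_e i) := by
    intro x
    rw [chanA_laplacian hw, Finset.mul_sum]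
  simp only [h1, h2]
  rw [integral_finsetSum, integral_finsetSum]
  · exact Finset.sum_congr rfl fun i _ => chanA_green1 hu hc hw _
  · intro i _
    exact chanA_int_mul hu.continuous (chanA_contDiff_D (chanA_contDiff_D hw _) _).continuous hc
  · intro i _
    exact chanA_int_mul (chanA_contDiff_D (chanA_contDiff_D hu _) _).continuous hw.continuous
      (chanA_supp_D (chanA_supp_D hc _) _)

/-- the test function `Φ(|x|²) p(x)` -/
noncomputable def chanA_W (Φ : ℝ → ℝ) (p : MvPolynomial (Fin 4) ℝ) (x : En 4) : ℝ := Φ (‖x‖ ^ 2) * ev p x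

theorem chanA_contDiff_W {Φ : ℝ → ℝ} (hΦ : ContDiff ℝ (⊤ : ℕ∞) Φ) (p : MvPolynomial (Fin 4) ℝ) :
    ContDiff ℝ (⊤ : ℕ∞) (chanA_W Φ p) :=
  (hΦ.comp (contDiff_norm_sq ℝ)).mul (chanA_contDiff_ev p)

theorem chanA_fderiv_W {Φ : ℝ → ℝ} (hΦ : ContDiff ℝ (⊤ : ℕ∞) Φ) (p : MvPolynomial (Fin 4) ℝ) (x : En 4) (i : Fin 4) :
    fderiv ℝ (chanA_W Φ p) x (chanA_e i) =
      chanA_W (deriv Φ) (MvPolynomial.C 2 * MvPolynomial.X i * p) x + chanA_W Φ (MvPolynomial.pderiv i p) x := by
  have h1 : HasFDerivAt (fun y : En 4 => ‖y‖ ^ 2) (2 • (innerSL ℝ x)) x :=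
    (hasStrictFDerivAt_norm_sq x).hasFDerivAt
  have h2 : HasDerivAt Φ (deriv Φ (‖x‖ ^ 2)) (‖x‖ ^ 2) :=
    (hΦ.differentiable (by simp) _).hasDerivAt
  have h3 := (h2.comp_hasFDerivAt x h1).mul (chanA_hasFDerivAt_ev p x)
  have h4 : chanA_W Φ p = (Φ ∘ fun y : En 4 => ‖y‖ ^ 2) * ev p := rfl
  rw [h4, h3.fderiv]
  have h5 : (∑ j, ev (MvPolynomial.pderiv j p) x • (EuclideanSpace.proj j : En 4 →L[ℝ] ℝ)) (chanA_e i) =
      ev (MvPolynomial.pderiv i p) x := by
    rw [← chanA_fderiv_ev, (chanA_hasFDerivAt_ev p x).fderiv]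
  rw [add_apply, smul_apply, h5]
  have h6 : inner ℝ x (chanA_e i) = x i := by
    simp [chanA_e, EuclideanSpace.inner_single_right]
  simp only [smul_apply, chanA_W, innerSL_apply_apply, ev, map_mul, MvPolynomial.eval_X,
    MvPolynomial.eval_C, h6]
  simp
  ring

theorem chanA_lap_W {Φ : ℝ → ℝ} (hΦ : ContDiff ℝ (⊤ : ℕ∞) Φ) {l : ℕ} {p : MvPolynomial (Fin 4) ℝ}
    (hp : p ∈ HarmPoly l) (x : En 4) :
    Laplacian.laplacian (chanA_W Φ p) x =
      (4 * ‖x‖ ^ 2 * deriv (deriv Φ) (‖x‖ ^ 2) + (8 + 4 * l) * deriv Φ (‖x‖ ^ 2)) * ev p x := by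
  have hΦ' : ContDiff ℝ (⊤ : ℕ∞) (deriv Φ) := (contDiff_infty_iff_deriv.1 hΦ).2
  rw [chanA_laplacian (chanA_contDiff_W hΦ p)]
  have h1 : ∀ i, fderiv ℝ (fun y => fderiv ℝ (chanA_W Φ p) y (chanA_e i)) x (chanA_e i) =
      4 * x i ^ 2 * deriv (deriv Φ) (‖x‖ ^ 2) * ev p x + 2 * deriv Φ (‖x‖ ^ 2) * ev p x +
        4 * deriv Φ (‖x‖ ^ 2) * (x i * ev (MvPolynomial.pderiv i p) x) +
        Φ (‖x‖ ^ 2) * ev (MvPolynomial.pderiv i (MvPolynomial.pderiv i p)) x := by
    intro i
    have h2 : (fun y => fderiv ℝ (chanA_W Φ p) y (chanA_e i)) =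
        chanA_W (deriv Φ) (MvPolynomial.C 2 * MvPolynomial.X i * p) + chanA_W Φ (MvPolynomial.pderiv i p) := by
      ext y
      rw [chanA_fderiv_W hΦ]
      rfl
    rw [h2, fderiv_add ((chanA_contDiff_W hΦ' _).differentiable (by simp) x)
      ((chanA_contDiff_W hΦ _).differentiable (by simp) x), add_apply,
      chanA_fderiv_W hΦ', chanA_fderiv_W hΦ]
    simp only [chanA_W, ev, Derivation.leibniz, MvPolynomial.pderiv_X_self, map_mul, map_add, smul_eq_mul,
      MvPolynomial.eval_X, MvPolynomial.eval_C, MvPolynomial.pderiv_C]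
    simp
    ring
  simp only [h1]
  have h3 : ∑ i, x i ^ 2 = ‖x‖ ^ 2 := by
    rw [EuclideanSpace.norm_sq_eq]
    simp
  have h4 : ∑ i : Fin 4, (4 * x i ^ 2 * deriv (deriv Φ) (‖x‖ ^ 2) * ev p x + 2 * deriv Φ (‖x‖ ^ 2) * ev p x +
        4 * deriv Φ (‖x‖ ^ 2) * (x i * ev (MvPolynomial.pderiv i p) x) +
        Φ (‖x‖ ^ 2) * ev (MvPolynomial.pderiv i (MvPolynomial.pderiv i p)) x) =
      4 * (∑ i, x i ^ 2) * deriv (deriv Φ) (‖x‖ ^ 2) * ev p x + 4 * (2 * deriv Φ (‖x‖ ^ 2) * ev p x) +
        4 * deriv Φ (‖x‖ ^ 2) * (∑ i, x i * ev (MvPolynomial.pderiv i p) x) +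
        Φ (‖x‖ ^ 2) * ∑ i, ev (MvPolynomial.pderiv i (MvPolynomial.pderiv i p)) x := by
    simp only [Finset.sum_add_distrib, ← Finset.mul_sum, ← Finset.sum_mul]
    simp
    ring
  rw [h4, h3, chanA_euler hp, chanA_plap hp]
  ring

/-! ### the components -/

theorem chanA_contDiff_comp {u : En 4 → ℝ} (hu : ContDiff ℝ (⊤ : ℕ∞) u) (p : MvPolynomial (Fin 4) ℝ) :
    ContDiff ℝ (⊤ : ℕ∞) (comp u p) := by
  have hG : ContDiff ℝ (⊤ : ℕ∞) (fun z : ℝ × En 4 => Real.exp z.1 * u (Real.exp z.1 • z.2) * ev p z.2) := by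
    have h1 : ContDiff ℝ (⊤ : ℕ∞) (fun z : ℝ × En 4 => Real.exp z.1) :=
      Real.contDiff_exp.comp contDiff_fst
    exact (h1.mul (hu.comp (h1.smul contDiff_snd))).mul ((chanA_contDiff_ev p).comp contDiff_snd)
  exact chanA_contDiff hG

theorem chanA_contDiff_sphint {g : En 4 → ℝ} (hg : ContDiff ℝ (⊤ : ℕ∞) g) (p : MvPolynomial (Fin 4) ℝ) :
    ContDiff ℝ (⊤ : ℕ∞) (fun t => ∫ s : Metric.sphere (0 : En 4) 1, g (Real.exp t • (s : En 4)) * ev p s ∂sph) := by
  have hG : ContDiff ℝ (⊤ : ℕ∞) (fun z : ℝ × En 4 => g (Real.exp z.1 • z.2) * ev p z.2) := by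
    have h1 : ContDiff ℝ (⊤ : ℕ∞) (fun z : ℝ × En 4 => Real.exp z.1) :=
      Real.contDiff_exp.comp contDiff_fst
    exact (hg.comp (h1.smul contDiff_snd)).mul ((chanA_contDiff_ev p).comp contDiff_snd)
  exact chanA_contDiff hG

theorem chanA_contDiff_lap {u : En 4 → ℝ} (hu : ContDiff ℝ (⊤ : ℕ∞) u) :
    ContDiff ℝ (⊤ : ℕ∞) (Laplacian.laplacian u) := by
  have h1 : Laplacian.laplacian u = fun x => ∑ i, fderiv ℝ (fun y => fderiv ℝ u y (chanA_e i)) x (chanA_e i) := by
    ext x
    exact chanA_laplacian hu x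
  rw [h1]
  exact ContDiff.sum fun i _ => chanA_contDiff_D (chanA_contDiff_D hu _) _

theorem chanA_supp_lap {u : En 4 → ℝ} (hu : ContDiff ℝ (⊤ : ℕ∞) u) (hc : HasCompactSupport u) :
    HasCompactSupport (Laplacian.laplacian u) := by
  refine HasCompactSupport.intro hc fun x hx => ?_
  rw [chanA_laplacian hu]
  refine Finset.sum_eq_zero fun i _ => ?_
  have h1 : tsupport (fun y => fderiv ℝ (fun y => fderiv ℝ u y (chanA_e i)) y (chanA_e i)) ⊆ tsupport u :=
    (tsupport_fderiv_apply_subset ℝ _).trans (tsupport_fderiv_apply_subset ℝ _)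
  exact image_eq_zero_of_notMem_tsupport
    (f := fun y => fderiv ℝ (fun y => fderiv ℝ u y (chanA_e i)) y (chanA_e i)) fun h => hx (h1 h)

theorem chanA_norm_exp_smul (t : ℝ) (s : Metric.sphere (0 : En 4) 1) : ‖Real.exp t • (s : En 4)‖ = Real.exp t := by
  rw [norm_smul, Real.norm_eq_abs, abs_of_pos (Real.exp_pos t), norm_eq_of_mem_sphere, mul_one]

theorem chanA_comp_zero {L : ℝ} {u : En 4 → ℝ} (hs : tsupport u ⊆ Ann L) (p : MvPolynomial (Fin 4) ℝ)
    (t : ℝ) (ht : t ∉ Ioo (-L) L) : comp u p t = 0 := by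
  unfold comp
  have h : ∀ s : Metric.sphere (0 : En 4) 1, Real.exp t * u (Real.exp t • (s : En 4)) * ev p s = 0 := by
    intro s
    have h1 : Real.exp t • (s : En 4) ∉ tsupport u := by
      intro h
      have h2 := hs h
      simp only [Ann, mem_ofPred_eq, chanA_norm_exp_smul, Real.exp_lt_exp] at h2
      exact ht h2
    rw [image_eq_zero_of_notMem_tsupport h1]
    ring
  simp [h]

theorem chanA_mem_H10 {L : ℝ} {f : ℝ → ℝ} (hf : ContDiff ℝ (⊤ : ℕ∞) f) (h0 : ∀ t, t ∉ Ioo (-L) L → f t = 0) :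
    f ∈ H10 (-L) L := by
  have hf' : Continuous (deriv f) := hf.continuous_deriv (by simp)
  have hd0 : ∀ t, t ∉ Ioo (-L) L → deriv f t = 0 := by
    intro t ht
    have hcl : ∀ x ∈ Iio (-L) ∪ Ioi L, deriv f x = 0 := by
      intro x hx
      have hopen : IsOpen (Iio (-L) ∪ Ioi L) := isOpen_Iio.union isOpen_Ioi
      have : f =ᶠ[nhds x] fun _ => 0 := by
        filter_upwards [hopen.mem_nhds hx] with y hy
        refine h0 y ?_
        rcases hy with hy | hy
        · exact fun h => absurd h.1 (not_lt.2 (le_of_lt hy))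
        · exact fun h => absurd h.2 (not_lt.2 (le_of_lt hy))
      rw [this.deriv_eq]
      simp
    have hcl' : ∀ x ∈ closure (Iio (-L) ∪ Ioi L), deriv f x = 0 :=
      fun x hx => closure_minimal (s := Iio (-L) ∪ Ioi L) (t := {x | deriv f x = 0}) hcl
        (isClosed_eq hf' continuous_const) hx
    refine hcl' t ?_
    rw [closure_union, closure_Iio, closure_Ioi]
    by_cases h : t ≤ -L
    · exact Or.inl h
    · right
      by_contra h'
      exact ht ⟨not_le.1 h, not_le.1 h'⟩
  refine ⟨h0, deriv f, ?_, hd0, ?_⟩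
  · have hcs : HasCompactSupport (deriv f) := by
      refine HasCompactSupport.intro (isCompact_Icc (a := -L) (b := L)) fun x hx => hd0 x fun h => hx ?_
      exact Ioo_subset_Icc_self h
    exact hf'.memLp_of_hasCompactSupport hcs
  · intro x
    rw [intervalIntegral.integral_eq_sub_of_hasDerivAt (f := f)
      (fun y _ => (hf.differentiable (by simp) y).hasDerivAt) (hf'.intervalIntegrable _ _),
      h0 (-L) (fun h => lt_irrefl _ h.1), sub_zero]

theorem comp_mem {L : ℝ} {u : En 4 → ℝ} (hu : u ∈ Test 4) (hs : tsupport u ⊆ Ann L) (p : MvPolynomial (Fin 4) ℝ) :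
    ContDiff ℝ (⊤ : ℕ∞) (comp u p) ∧ (∀ t, t ∉ Ioo (-L) L → comp u p t = 0) ∧ comp u p ∈ H10 (-L) L :=
  ⟨chanA_contDiff_comp hu.1 p, chanA_comp_zero hs p,
    chanA_mem_H10 (chanA_contDiff_comp hu.1 p) (chanA_comp_zero hs p)⟩

/-- test functions of the logarithmic radius -/
noncomputable def chanA_Φ (H : ℝ → ℝ) (s : ℝ) : ℝ := if 0 < s then H (Real.log s / 2) else 0

theorem chanA_contDiff_Φ {H : ℝ → ℝ} (hH : ContDiff ℝ (⊤ : ℕ∞) H) (hc : HasCompactSupport H) :
    ContDiff ℝ (⊤ : ℕ∞) (chanA_Φ H) := by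
  obtain ⟨M, hM⟩ : ∃ M : ℝ, ∀ t, t < M → H t = 0 := by
    obtain ⟨M, hM⟩ := hc.isCompact.bddBelow
    refine ⟨M, fun t ht => image_eq_zero_of_notMem_tsupport fun h => ?_⟩
    exact absurd (hM h) (not_le.2 ht)
  rw [contDiff_iff_contDiffAt]
  intro s
  rcases lt_or_ge 0 s with hs | hs
  · have h1 : chanA_Φ H =ᶠ[nhds s] fun s => H (Real.log s / 2) := by
      filter_upwards [lt_mem_nhds hs] with y hy
      simp [chanA_Φ, hy]
    refine ContDiffAt.congr_of_eventuallyEq ?_ h1
    exact hH.contDiffAt.comp s ((Real.contDiffAt_log.2 (ne_of_gt hs)).div_const 2)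
  · have h1 : chanA_Φ H =ᶠ[nhds s] fun _ => 0 := by
      have h2 : s < Real.exp (2 * M) := lt_of_le_of_lt hs (Real.exp_pos _)
      filter_upwards [gt_mem_nhds h2] with y hy
      unfold chanA_Φ
      split_ifs with h3
      · apply hM
        have : Real.log y < 2 * M := by
          rw [Real.log_lt_iff_lt_exp h3]
          exact hy
        linarith
      · rfl
    exact contDiffAt_const.congr_of_eventuallyEq h1

theorem chanA_Φ_exp (H : ℝ → ℝ) (t : ℝ) : chanA_Φ H (Real.exp t ^ 2) = H t := by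
  have h : 0 < Real.exp t ^ 2 := by positivity
  simp [chanA_Φ, h, Real.log_pow]

theorem chanA_1d {c H : ℝ → ℝ} (hc : ContDiff ℝ (⊤ : ℕ∞) c) (hcs : HasCompactSupport c) (hH : ContDiff ℝ (⊤ : ℕ∞) H) (k : ℝ) :
    ∫ t, Real.exp (k * t) * ((deriv (deriv H) t + 2 * k * deriv H t) * c t) =
      ∫ t, Real.exp (k * t) * ((deriv (deriv c) t - k ^ 2 * c t) * H t) := by
  have hc1 : ContDiff ℝ (⊤ : ℕ∞) (deriv c) := (contDiff_infty_iff_deriv.1 hc).2
  have hc2 : ContDiff ℝ (⊤ : ℕ∞) (deriv (deriv c)) := (contDiff_infty_iff_deriv.1 hc1).2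
  have hH1 : ContDiff ℝ (⊤ : ℕ∞) (deriv H) := (contDiff_infty_iff_deriv.1 hH).2
  have hH2 : ContDiff ℝ (⊤ : ℕ∞) (deriv (deriv H)) := (contDiff_infty_iff_deriv.1 hH1).2
  have dd : ∀ {g : ℝ → ℝ}, ContDiff ℝ (⊤ : ℕ∞) g → ∀ x, HasDerivAt g (deriv g x) x :=
    fun h x => (h.differentiable (by simp) x).hasDerivAt
  have hE : Continuous fun t : ℝ => Real.exp (k * t) := by fun_prop
  have hcs1 : HasCompactSupport (deriv c) := hcs.deriv
  have hcs2 : HasCompactSupport (deriv (deriv c)) := hcs1.deriv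
  have i1 : Integrable (fun t => Real.exp (k * t) * ((deriv (deriv H) t + 2 * k * deriv H t) * c t)) := by
    refine Continuous.integrable_of_hasCompactSupport ?_ (HasCompactSupport.mul_left (HasCompactSupport.mul_left hcs))
    exact hE.mul ((hH2.continuous.add (continuous_const.mul hH1.continuous)).mul hc.continuous)
  have i2 : Integrable (fun t => Real.exp (k * t) * ((deriv (deriv c) t - k ^ 2 * c t) * H t)) := by
    refine Continuous.integrable_of_hasCompactSupport ?_ (HasCompactSupport.mul_left (HasCompactSupport.mul_right ?_))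
    · exact hE.mul ((hc2.continuous.sub (continuous_const.mul hc.continuous)).mul hH.continuous)
    · exact hcs2.sub (HasCompactSupport.mul_left hcs)
  rw [← sub_eq_zero, ← integral_sub i1 i2]
  have key : ∀ t, HasDerivAt (fun t => Real.exp (k * t) * (c t * deriv H t - deriv c t * H t + k * c t * H t))
      (Real.exp (k * t) * ((deriv (deriv H) t + 2 * k * deriv H t) * c t) -
        Real.exp (k * t) * ((deriv (deriv c) t - k ^ 2 * c t) * H t)) t := by
    intro t
    have h1 : HasDerivAt (fun t : ℝ => Real.exp (k * t)) (Real.exp (k * t) * k) t := by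
      have := ((hasDerivAt_id t).const_mul k).exp
      simpa using this
    have h2 := h1.mul ((((dd hc t).mul (dd hH1 t)).sub ((dd hc1 t).mul (dd hH t))).add
      (((dd hc t).const_mul k).mul (dd hH t)))
    refine h2.congr_deriv ?_
    simp only [Pi.mul_apply, Pi.sub_apply, Pi.add_apply]
    ring
  refine integral_eq_zero_of_hasDerivAt_of_integrable key (i1.sub i2) ?_
  refine Continuous.integrable_of_hasCompactSupport ?_ ?_
  · exact hE.mul (((hc.continuous.mul hH1.continuous).sub (hc1.continuous.mul hH.continuous)).add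
      ((continuous_const.mul hc.continuous).mul hH.continuous))
  · refine HasCompactSupport.mul_left ?_
    exact ((hcs.mul_right).sub (hcs1.mul_right)).add (HasCompactSupport.mul_right (HasCompactSupport.mul_left hcs))

/-- the Laplace operator in a channel (integrated form) -/
theorem lap_channel {L : ℝ} {u : En 4 → ℝ} (hu : u ∈ Test 4) (hs : tsupport u ⊆ Ann L) {l : ℕ} {p : MvPolynomial (Fin 4) ℝ} (hp : p ∈ HarmPoly l)
    (t : ℝ) :
    (∫ s : Metric.sphere (0 : En 4) 1, Laplacian.laplacian u (Real.exp t • (s : En 4)) * ev p s ∂sph) =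
      Real.exp (-(3 * t)) * (deriv (deriv (comp u p)) t - ((l : ℝ) + 1) ^ 2 * comp u p t) := by
  obtain ⟨hu1, huc⟩ := hu
  set c := comp u p with hcdef
  have hc : ContDiff ℝ (⊤ : ℕ∞) c := chanA_contDiff_comp hu1 p
  have hcs : HasCompactSupport c := by
    refine HasCompactSupport.intro (isCompact_Icc (a := -L) (b := L)) fun x hx => ?_
    exact chanA_comp_zero hs p x fun h => hx (Ioo_subset_Icc_self h)
  have hlap := chanA_contDiff_lap hu1
  have hlapc := chanA_supp_lap hu1 huc
  have hc1 : ContDiff ℝ (⊤ : ℕ∞) (deriv c) := (contDiff_infty_iff_deriv.1 hc).2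
  have hc2 : ContDiff ℝ (⊤ : ℕ∞) (deriv (deriv c)) := (contDiff_infty_iff_deriv.1 hc1).2
  set b : ℝ → ℝ := fun t => ∫ s : Metric.sphere (0 : En 4) 1, Laplacian.laplacian u (Real.exp t • (s : En 4)) * ev p s ∂sph
    with hb
  have hbc : Continuous b := (chanA_contDiff_sphint hlap p).continuous
  set k : ℝ := (l : ℝ) + 1 with hk
  set Q : ℝ → ℝ := fun t => Real.exp ((4 + l) * t) * b t - Real.exp (k * t) * (deriv (deriv c) t - k ^ 2 * c t) with hQ
  have hQc : Continuous Q := by
    have h1 : Continuous fun t : ℝ => Real.exp ((4 + (l : ℝ)) * t) := by fun_prop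
    have h2 : Continuous fun t : ℝ => Real.exp (k * t) := by fun_prop
    exact (h1.mul hbc).sub (h2.mul (hc2.continuous.sub (continuous_const.mul hc.continuous)))
  have key : ∀ H : ℝ → ℝ, ContDiff ℝ (⊤ : ℕ∞) H → HasCompactSupport H → ∫ t, H t • Q t = 0 := by
    intro H hH hHc
    set Φ := chanA_Φ H with hΦdef
    have hΦ : ContDiff ℝ (⊤ : ℕ∞) Φ := chanA_contDiff_Φ hH hHc
    have hΦ1 : ContDiff ℝ (⊤ : ℕ∞) (deriv Φ) := (contDiff_infty_iff_deriv.1 hΦ).2
    have hW := chanA_contDiff_W hΦ p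
    have hg := chanA_green hu1 huc hW
    rw [chanA_polar (chanA_int_mul hlap.continuous hW.continuous hlapc),
      chanA_polar (chanA_int_mul hu1.continuous (chanA_contDiff_lap hW).continuous huc)] at hg
    -- left-hand side
    have hL : ∀ t, Real.exp (4 * t) * (∫ s : Metric.sphere (0 : En 4) 1,
        Laplacian.laplacian u (Real.exp t • (s : En 4)) * chanA_W Φ p (Real.exp t • (s : En 4)) ∂sph) =
        Real.exp ((4 + l) * t) * b t * H t := by
      intro t
      have h1 : ∀ s : Metric.sphere (0 : En 4) 1,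
          Laplacian.laplacian u (Real.exp t • (s : En 4)) * chanA_W Φ p (Real.exp t • (s : En 4)) =
          (H t * Real.exp t ^ l) * (Laplacian.laplacian u (Real.exp t • (s : En 4)) * ev p s) := by
        intro s
        rw [chanA_W, chanA_norm_exp_smul, hΦdef, chanA_Φ_exp, chanA_hom hp]
        ring
      simp only [h1]
      rw [integral_const_mul]
      have h2 : Real.exp ((4 + l) * t) = Real.exp (4 * t) * Real.exp t ^ l := by
        rw [← Real.exp_nat_mul, ← Real.exp_add]
        congr 1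
        ring
      rw [h2]
      ring
    have hH1 : ∀ t, HasDerivAt H (2 * Real.exp t ^ 2 * deriv Φ (Real.exp t ^ 2)) t := by
      intro t
      have h1 : HasDerivAt (fun t : ℝ => Real.exp t ^ 2) (2 * Real.exp t ^ 2) t := by
        have := (Real.hasDerivAt_exp t).pow 2
        refine this.congr_deriv ?_
        ring
      have h2 := ((hΦ.differentiable (by simp) (Real.exp t ^ 2)).hasDerivAt).comp t h1
      have h3 : (Φ ∘ fun t : ℝ => Real.exp t ^ 2) = H := by
        ext t
        exact chanA_Φ_exp H t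
      rw [h3] at h2
      refine h2.congr_deriv ?_
      ring
    have hH1' : deriv H = fun t => 2 * Real.exp t ^ 2 * deriv Φ (Real.exp t ^ 2) := by
      ext t
      exact (hH1 t).deriv
    have hH2 : ∀ t, HasDerivAt (deriv H) (4 * Real.exp t ^ 2 * deriv Φ (Real.exp t ^ 2) +
        4 * Real.exp t ^ 4 * deriv (deriv Φ) (Real.exp t ^ 2)) t := by
      intro t
      rw [hH1']
      have h1 : HasDerivAt (fun t : ℝ => Real.exp t ^ 2) (2 * Real.exp t ^ 2) t := by
        have := (Real.hasDerivAt_exp t).pow 2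
        refine this.congr_deriv ?_
        ring
      have h2 := ((hΦ1.differentiable (by simp) (Real.exp t ^ 2)).hasDerivAt).comp t h1
      have h3 := (h1.const_mul 2).mul h2
      refine h3.congr_deriv ?_
      simp only [Function.comp]
      ring
    have hR : ∀ t, Real.exp (4 * t) * (∫ s : Metric.sphere (0 : En 4) 1,
        u (Real.exp t • (s : En 4)) * Laplacian.laplacian (chanA_W Φ p) (Real.exp t • (s : En 4)) ∂sph) =
        Real.exp (k * t) * ((deriv (deriv H) t + 2 * k * deriv H t) * c t) := by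
      intro t
      have h1 : ∀ s : Metric.sphere (0 : En 4) 1,
          u (Real.exp t • (s : En 4)) * Laplacian.laplacian (chanA_W Φ p) (Real.exp t • (s : En 4)) =
          (Real.exp t ^ l * (Real.exp t)⁻¹ * (4 * Real.exp t ^ 2 * deriv (deriv Φ) (Real.exp t ^ 2) +
            (8 + 4 * l) * deriv Φ (Real.exp t ^ 2))) * (Real.exp t * u (Real.exp t • (s : En 4)) * ev p s) := by
        intro s
        rw [chanA_lap_W hΦ hp, chanA_norm_exp_smul, chanA_hom hp]
        have : Real.exp t ≠ 0 := (Real.exp_pos t).ne'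
        field_simp
      simp only [h1]
      rw [integral_const_mul]
      have h2 : (∫ s : Metric.sphere (0 : En 4) 1, Real.exp t * u (Real.exp t • (s : En 4)) * ev p s ∂sph) = c t := rfl
      rw [h2, (hH2 t).deriv, (hH1 t).deriv]
      have h3 : Real.exp (4 * t) = Real.exp t ^ 4 := by
        rw [← Real.exp_nat_mul]
        norm_num
      have h4 : Real.exp (k * t) = Real.exp t ^ l * Real.exp t := by
        rw [← Real.exp_nat_mul, ← Real.exp_add]
        congr 1
        rw [hk]
        ring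
      rw [h3, h4, hk]
      have : Real.exp t ≠ 0 := (Real.exp_pos t).ne'
      field_simp
      ring
    simp only [hL, hR] at hg
    rw [chanA_1d hc hcs hH k] at hg
    have e1 : ∀ t, H t • Q t = Real.exp ((4 + l) * t) * b t * H t -
        Real.exp (k * t) * ((deriv (deriv c) t - k ^ 2 * c t) * H t) := by
      intro t
      simp only [hQ, smul_eq_mul]
      ring
    simp only [e1]
    rw [integral_sub, hg, sub_self]
    · refine Continuous.integrable_of_hasCompactSupport ?_ (HasCompactSupport.mul_left hHc)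
      have h1 : Continuous fun t : ℝ => Real.exp ((4 + (l : ℝ)) * t) := by fun_prop
      exact (h1.mul hbc).mul hH.continuous
    · refine Continuous.integrable_of_hasCompactSupport ?_ (HasCompactSupport.mul_left (HasCompactSupport.mul_left hHc))
      have h2 : Continuous fun t : ℝ => Real.exp (k * t) := by fun_prop
      exact h2.mul ((hc2.continuous.sub (continuous_const.mul hc.continuous)).mul hH.continuous)
  have hae := ae_eq_zero_of_integral_contDiff_smul_eq_zero (hQc.locallyIntegrable (μ := volume)) key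
  have hQ0 : Q = 0 := (Continuous.ae_eq_iff_eq (μ := volume) hQc continuous_const).1 hae
  have h1 : Q t = 0 := congrFun hQ0 t
  simp only [hQ] at h1
  have h2 : Real.exp ((4 + l) * t) = Real.exp (k * t) * Real.exp (3 * t) := by
    rw [← Real.exp_add]
    congr 1
    rw [hk]
    ring
  rw [h2, mul_assoc, ← mul_sub] at h1
  have h3 := (mul_eq_zero.1 h1).resolve_left (Real.exp_pos _).ne'
  have h4 : Real.exp (-(3 * t)) * Real.exp (3 * t) = 1 := by
    rw [← Real.exp_add]
    simp
  show b t = _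
  calc b t = Real.exp (-(3 * t)) * (Real.exp (3 * t) * b t) := by rw [← mul_assoc, h4, one_mul]
    _ = _ := by rw [sub_eq_zero.1 h3]

end Pool.Agent.RLT40
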