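import Pool.Agent.RLT40.ChanA

/-!
# Modules CHAN1, CHAN2 (paper 2.A3): channel decomposition.

`comp u p t = ∫_S e^t u(e^t s) p(s) ds`.  CHAN1 `comp_props`: smooth, compactly supported in `(-L,L)`.
`grad_parseval`: `∫|∇u|² = -∫uΔu = -∫ r³dr∫_S u Δu`; Parseval on each sphere (uniformly bounded partial sums: `Σ|a_l b_l| ≤ ‖u(r·)‖‖Δu(r·)‖`, dominated convergence);
`(Δu)_{p}(r) = (∂_r² + (3/r)∂_r - l(l+2)/r²) u_p(r)`, `u_p(r) = ∫_S u(rs)p(s)ds`: test with `h ∈ C_c^∞(0,∞)`:
`∫ h(r)(Δu)_p r³ dr = ∫ Δu · h(|x|)|x|^{-l}p(x) dx = ∫ u Δ(h(|x|)|x|^{-l}p) dx`, `Δ(f(|x|)p) = (f'' + (3+2l)f'/r)p` for harmonic homogeneous `p` (Euler `x·∇p = lp`);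
then with `c(t) = e^t u_p(e^t)`: `-∫ u_p (Δu)_p r³dr = ∫ c'² + (l+1)²c² dt` (1D integration by parts).
`pot_parseval`: `∫ W u² dx = ∫ U(t) Σ c² dt` with `U(t) = e^{2t}w(e^t)` (Tonelli, polar coordinates), `∫u² = ∫ω Σc²`.
CHAN2 `channel`: in each channel `k = l+1 ≤ K` with `nneg = n_k`, maximal negative space `M_k`; the `q`-orthogonality to `M_k` of `comp u Y_{l,i}` is `n_k` linear conditions and implies
`q(pot k τ U)(comp) ≥ 0` (else `M_k + span` is a larger negative space); for `k > K` `nneg = 0` (as `Ntot < ⊤`).  Total number of conditions `≤ Σk²n_k = Ntot`.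
-/

open MeasureTheory Set
open scoped ENNReal NNReal

namespace Pool.Agent.RLT40

/-- logarithmic polar coordinates -/
theorem ChanB_polar {F : En 4 → ℝ} (hF : Integrable F) :
    Integrable (fun t : ℝ => Real.exp (4 * t) *
      ∫ s : Metric.sphere (0 : En 4) 1, F (Real.exp t • (s : En 4)) ∂sph) ∧
    ∫ x, F x = ∫ t : ℝ, Real.exp (4 * t) *
      ∫ s : Metric.sphere (0 : En 4) 1, F (Real.exp t • (s : En 4)) ∂sph := by
  have hd : Module.finrank ℝ (En 4) - 1 = 3 := by simp
  have hmp := (volume : Measure (En 4)).measurePreserving_homeomorphUnitSphereProd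
  rw [hd] at hmp
  have hme : MeasurableEmbedding (homeomorphUnitSphereProd (En 4)) := Homeomorph.measurableEmbedding _
  set G : Metric.sphere (0 : En 4) 1 × Ioi (0 : ℝ) → ℝ := fun y => F ((y.2 : ℝ) • (y.1 : En 4)) with hG
  have hGF : (G ∘ homeomorphUnitSphereProd (En 4)) = fun x : ({(0)}ᶜ : Set (En 4)) => F x := by
    ext x
    have hx : (x : En 4) ≠ 0 := x.2
    have hn : ‖(x : En 4)‖ ≠ 0 := norm_ne_zero_iff.mpr hx
    simp [hG, smul_smul, hn]
  have hGi : Integrable G (sph.prod (Measure.volumeIoiPow 3)) := by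
    rw [← hmp.integrable_comp_emb hme, hGF]
    exact (integrableOn_iff_comap_subtypeVal (measurableSet_singleton _).compl).mp hF.integrableOn
  have hGint : ∫ x, F x = ∫ y, G y ∂(sph.prod (Measure.volumeIoiPow 3)) := by
    rw [← hmp.integral_comp hme]
    have h0 : (fun x => G (homeomorphUnitSphereProd (En 4) x)) =
        fun x : ({(0)}ᶜ : Set (En 4)) => F x := hGF
    rw [h0, integral_subtype_comap (measurableSet_singleton _).compl F, restrict_compl_singleton]
  set H : ℝ → ℝ := fun r => ∫ s : Metric.sphere (0 : En 4) 1, F (r • (s : En 4)) ∂sph with hH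
  have h1 : Integrable (fun r : Ioi (0 : ℝ) => H r) (Measure.volumeIoiPow 3) :=
    hGi.integral_prod_right
  have h2 : ∫ y, G y ∂(sph.prod (Measure.volumeIoiPow 3)) =
      ∫ r : Ioi (0 : ℝ), H r ∂(Measure.volumeIoiPow 3) := integral_prod_symm _ hGi
  have h3 : IntegrableOn (fun r : ℝ => r ^ 3 • H r) (Ioi 0) := by
    rw [integrableOn_iff_comap_subtypeVal (by measurability)]
    rw [Measure.volumeIoiPow, integrable_withDensity_iff_integrable_smul'] at h1
    · refine h1.congr (Filter.Eventually.of_forall ?_)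
      rintro ⟨x, hx⟩
      have hx' : (0 : ℝ) < x := hx
      simp (disch := positivity) [ENNReal.toReal_ofReal]
    · fun_prop
    · simp
  have h4 : ∫ r : Ioi (0 : ℝ), H r ∂(Measure.volumeIoiPow 3) = ∫ r in Ioi (0 : ℝ), r ^ 3 • H r := by
    simp only [Measure.volumeIoiPow, ENNReal.ofReal]
    rw [integral_withDensity_eq_integral_smul,
      integral_subtype_comap measurableSet_Ioi fun a ↦ Real.toNNReal (a ^ 3) • H a,
      setIntegral_congr_fun measurableSet_Ioi fun x hx ↦ ?_]
    · rw [NNReal.smul_def, Real.coe_toNNReal _ (pow_nonneg hx.out.le _)]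
    · exact (measurable_subtype_coe.pow_const _).real_toNNReal
  have h5 : Real.exp '' univ = Ioi 0 := by rw [image_univ, Real.range_exp]
  have h6 : ∀ x ∈ (univ : Set ℝ), HasDerivWithinAt Real.exp (Real.exp x) univ x :=
    fun x _ => (Real.hasDerivAt_exp x).hasDerivWithinAt
  have h7 : ∀ t : ℝ, |Real.exp t| • ((Real.exp t) ^ 3 • H (Real.exp t)) =
      Real.exp (4 * t) * H (Real.exp t) := by
    intro t
    rw [abs_of_pos (Real.exp_pos t), smul_eq_mul, smul_eq_mul, ← mul_assoc, ← pow_succ',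
      ← Real.exp_nat_mul]
    norm_num
  constructor
  · rw [← h5, integrableOn_image_iff_integrableOn_abs_deriv_smul MeasurableSet.univ h6
      Real.exp_injective.injOn, integrableOn_univ] at h3
    exact h3.congr (Filter.Eventually.of_forall h7)
  · rw [hGint, h2, h4, ← h5, integral_image_eq_integral_abs_deriv_smul MeasurableSet.univ h6
      Real.exp_injective.injOn, setIntegral_univ]
    exact integral_congr_ae (Filter.Eventually.of_forall h7)


/-- the directional derivative along the `i`-th basis vector -/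
noncomputable def ChanB_d (i : Fin 4) (u : En 4 → ℝ) (x : En 4) : ℝ :=
  fderiv ℝ u x (EuclideanSpace.single i 1)

theorem ChanB_d_test {u : En 4 → ℝ} (hu : u ∈ Test 4) (i : Fin 4) : ChanB_d i u ∈ Test 4 := by
  refine ⟨?_, ?_⟩
  · exact (hu.1.fderiv_right (m := (⊤ : ℕ∞)) (by norm_cast)).clm_apply contDiff_const
  · have := hu.2.fderiv (𝕜 := ℝ)
    exact this.comp_left (g := fun L : En 4 →L[ℝ] ℝ => L (EuclideanSpace.single i 1)) rfl

theorem ChanB_test_int {u v : En 4 → ℝ} (hu : u ∈ Test 4) (hv : v ∈ Test 4) :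
    Integrable (fun x => u x * v x) :=
  (hu.1.continuous.mul hv.1.continuous).integrable_of_hasCompactSupport (hu.2.mul_right)

theorem ChanB_ibp {u v : En 4 → ℝ} (hu : u ∈ Test 4) (hv : v ∈ Test 4) (i : Fin 4) :
    ∫ x, u x * ChanB_d i v x = -∫ x, ChanB_d i u x * v x := by
  exact integral_mul_fderiv_eq_neg_fderiv_mul_of_integrable (μ := (volume : Measure (En 4)))
    (ChanB_test_int (ChanB_d_test hu i) hv) (ChanB_test_int hu (ChanB_d_test hv i))
    (ChanB_test_int hu hv) (fun x _ => (hu.1.differentiable (by simp)).differentiableAt)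
    (fun x _ => (hv.1.differentiable (by simp)).differentiableAt)

theorem ChanB_lap {u : En 4 → ℝ} (hu : u ∈ Test 4) (x : En 4) :
    Laplacian.laplacian u x = ∑ i : Fin 4, ChanB_d i (ChanB_d i u) x := by
  rw [InnerProductSpace.laplacian_eq_iteratedFDeriv_orthonormalBasis u (EuclideanSpace.basisFun (Fin 4) ℝ)]
  apply Finset.sum_congr rfl
  intro i _
  rw [iteratedFDeriv_two_apply]
  simp only [Matrix.cons_val_zero, Matrix.cons_val_one, EuclideanSpace.basisFun_apply]
  unfold ChanB_d
  have h1 : DifferentiableAt ℝ (fderiv ℝ u) x :=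
    ((hu.1.fderiv_right (m := (⊤ : ℕ∞)) (by norm_cast)).differentiable (by simp)).differentiableAt
  have h2 := (h1.hasFDerivAt.clm_apply (hasFDerivAt_const (EuclideanSpace.single i (1 : ℝ)) x)).fderiv
  rw [h2]
  simp

theorem ChanB_lap_test {u : En 4 → ℝ} (hu : u ∈ Test 4) : Laplacian.laplacian u ∈ Test 4 := by
  have : Laplacian.laplacian u = ∑ i : Fin 4, ChanB_d i (ChanB_d i u) := by
    ext x
    rw [ChanB_lap hu x, Finset.sum_apply]
  rw [this]
  exact Submodule.sum_mem _ (fun i _ => ChanB_d_test (ChanB_d_test hu i) i)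

theorem ChanB_grad (u : En 4 → ℝ) (x : En 4) :
    ‖gradient u x‖ ^ 2 = ∑ i : Fin 4, ChanB_d i u x * ChanB_d i u x := by
  rw [EuclideanSpace.real_norm_sq_eq]
  apply Finset.sum_congr rfl
  intro i _
  have : (gradient u x) i = ChanB_d i u x := by
    unfold ChanB_d gradient
    have h1 := InnerProductSpace.toDual_symm_apply (𝕜 := ℝ) (x := EuclideanSpace.single i (1 : ℝ))
      (y := fderiv ℝ u x)
    rw [← h1, EuclideanSpace.inner_single_right]
    simp
  rw [this, sq]

theorem ChanB_green {u : En 4 → ℝ} (hu : u ∈ Test 4) :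
    ∫ x, ‖gradient u x‖ ^ 2 = -∫ x, u x * Laplacian.laplacian u x := by
  have h1 : ∀ i : Fin 4, ∫ x, ChanB_d i u x * ChanB_d i u x = -∫ x, u x * ChanB_d i (ChanB_d i u) x := by
    intro i
    rw [ChanB_ibp hu (ChanB_d_test hu i) i, neg_neg]
  simp only [ChanB_grad]
  rw [integral_finsetSum _ (fun i _ => ChanB_test_int (ChanB_d_test hu i) (ChanB_d_test hu i))]
  simp only [h1]
  rw [Finset.sum_neg_distrib, ← integral_finsetSum _ (fun i _ =>
    ChanB_test_int hu (ChanB_d_test (ChanB_d_test hu i) i))]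
  congr 2
  ext x
  rw [ChanB_lap hu x, Finset.mul_sum]


/-- component of `v` on the sphere of radius `e^t` -/
noncomputable def ChanB_a (v : En 4 → ℝ) (p : MvPolynomial (Fin 4) ℝ) (t : ℝ) : ℝ :=
  ∫ s : Metric.sphere (0 : En 4) 1, v (Real.exp t • (s : En 4)) * ev p s ∂sph

theorem ChanB_comp (u : En 4 → ℝ) (p : MvPolynomial (Fin 4) ℝ) (t : ℝ) :
    comp u p t = Real.exp t * ChanB_a u p t := by
  unfold comp ChanB_a
  rw [← integral_const_mul]
  congr 1
  ext s
  ring

theorem ChanB_norm (s : Metric.sphere (0 : En 4) 1) (t : ℝ) :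
    ‖Real.exp t • (s : En 4)‖ = Real.exp t := by
  rw [norm_smul, norm_eq_of_mem_sphere, mul_one, Real.norm_eq_abs, abs_of_pos (Real.exp_pos t)]

theorem ChanB_U {W : En 4 → ℝ} {U : ℝ → ℝ}
    (hU : ∀ x : En 4, x ≠ 0 → U (Real.log ‖x‖) = ‖x‖ ^ 2 * W x)
    (s : Metric.sphere (0 : En 4) 1) (t : ℝ) :
    U t = Real.exp t ^ 2 * W (Real.exp t • (s : En 4)) := by
  have h0 : Real.exp t • (s : En 4) ≠ 0 := by
    rw [← norm_ne_zero_iff, ChanB_norm]
    exact (Real.exp_pos t).ne'
  have := hU _ h0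
  rw [ChanB_norm, Real.log_exp] at this
  exact this

theorem ChanB_pU {W : En 4 → ℝ} {U : ℝ → ℝ}
    (hU : ∀ x : En 4, x ≠ 0 → U (Real.log ‖x‖) = ‖x‖ ^ 2 * W x) (v : En 4 → ℝ) (t : ℝ) :
    Real.exp (4 * t) * ∫ s : Metric.sphere (0 : En 4) 1,
        W (Real.exp t • (s : En 4)) * v (Real.exp t • (s : En 4)) ∂sph =
      Real.exp (2 * t) * U t * ∫ s : Metric.sphere (0 : En 4) 1, v (Real.exp t • (s : En 4)) ∂sph := by
  rw [← integral_const_mul, ← integral_const_mul]
  congr 1
  ext s
  rw [ChanB_U hU s t]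
  have h4 : Real.exp (4 * t) = Real.exp t ^ 4 := by rw [← Real.exp_nat_mul]; norm_num
  have h2 : Real.exp (2 * t) = Real.exp t ^ 2 := by rw [← Real.exp_nat_mul]; norm_num
  rw [h4, h2]
  ring

theorem ChanB_W_loc {γ : ℝ} (hγ : 0 < γ) {W : En 4 → ℝ} (hW : Adm4 γ W) :
    LocallyIntegrable W := by
  apply hW.2.1.locallyIntegrable
  rw [ENNReal.one_le_ofReal]
  linarith

theorem ChanB_Wv {γ : ℝ} (hγ : 0 < γ) {W : En 4 → ℝ} (hW : Adm4 γ W) {v : En 4 → ℝ}
    (hv : Continuous v) (hv' : HasCompactSupport v) : Integrable (fun x => W x * v x) := by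
  have := (ChanB_W_loc hγ hW).integrable_smul_left_of_hasCompactSupport hv hv'
  simpa only [smul_eq_mul, mul_comm] using this

theorem ChanB_U_int {γ : ℝ} (hγ : 0 < γ) {W : En 4 → ℝ} (hW : Adm4 γ W) {U : ℝ → ℝ}
    (hU : ∀ x : En 4, x ≠ 0 → U (Real.log ‖x‖) = ‖x‖ ^ 2 * W x) (L : ℝ) :
    IntegrableOn U (Ioo (-L) L) := by
  have hA : MeasurableSet (Ann L) := by
    unfold Ann
    exact (measurableSet_lt measurable_const measurable_norm).inter
      (measurableSet_lt measurable_norm measurable_const)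
  have h1 : Integrable ((Ann L).indicator W) := by
    rw [integrable_indicator_iff hA]
    apply ((ChanB_W_loc hγ hW).integrableOn_isCompact
      (isCompact_closedBall (0 : En 4) (Real.exp L))).mono_set
    intro x hx
    rw [mem_closedBall_zero_iff]
    exact hx.2.le
  have h2 := (ChanB_polar h1).1
  have hS : 0 < sph.real (univ : Set (Metric.sphere (0 : En 4) 1)) := by
    rw [measureReal_def]
    apply ENNReal.toReal_pos
    · rw [Measure.measure_univ_ne_zero]
      exact Measure.toSphere_ne_zero _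
    · exact measure_ne_top _ _
  have h3 : ∀ t : ℝ, Real.exp (4 * t) * ∫ s : Metric.sphere (0 : En 4) 1,
      (Ann L).indicator W (Real.exp t • (s : En 4)) ∂sph =
      (sph.real (univ : Set (Metric.sphere (0 : En 4) 1)) * Real.exp (2 * t)) *
        (Ioo (-L) L).indicator U t := by
    intro t
    by_cases ht : t ∈ Ioo (-L) L
    · rw [indicator_of_mem ht]
      have h4 : ∀ s : Metric.sphere (0 : En 4) 1,
          (Ann L).indicator W (Real.exp t • (s : En 4)) = Real.exp (-(2 * t)) * U t := by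
        intro s
        have hm : Real.exp t • (s : En 4) ∈ Ann L := by
          constructor
          · rw [ChanB_norm]; exact Real.exp_lt_exp.mpr ht.1
          · rw [ChanB_norm]; exact Real.exp_lt_exp.mpr ht.2
        rw [indicator_of_mem hm, ChanB_U hU s t, ← mul_assoc, ← Real.exp_nat_mul, ← Real.exp_add]
        norm_num
      simp only [h4]
      rw [integral_const, smul_eq_mul]
      have h5 : Real.exp (4 * t) * Real.exp (-(2 * t)) = Real.exp (2 * t) := by
        rw [← Real.exp_add]; congr 1; ring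
      calc _ = (Real.exp (4 * t) * Real.exp (-(2 * t))) * (sph.real univ * U t) := by ring
        _ = _ := by rw [h5]; ring
    · rw [indicator_of_notMem ht, mul_zero]
      have h4 : ∀ s : Metric.sphere (0 : En 4) 1,
          (Ann L).indicator W (Real.exp t • (s : En 4)) = 0 := by
        intro s
        apply indicator_of_notMem
        rintro ⟨ha, hb⟩
        rw [ChanB_norm] at ha hb
        exact ht ⟨Real.exp_lt_exp.mp ha, Real.exp_lt_exp.mp hb⟩
      simp [h4]
  simp only [h3] at h2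
  rw [← integrable_indicator_iff measurableSet_Ioo]
  -- divide by the continuous factor, bounded on the support
  have h6 : Integrable (fun t : ℝ => (sph.real (univ : Set (Metric.sphere (0 : En 4) 1)))⁻¹ *
      ((Ioo (-L) L).indicator (fun t => Real.exp (-(2 * t))) t *
      ((sph.real (univ : Set (Metric.sphere (0 : En 4) 1)) * Real.exp (2 * t)) *
        (Ioo (-L) L).indicator U t))) := by
    apply Integrable.const_mul
    apply Integrable.bdd_mul (c := Real.exp (2 * L)) h2
    · exact (Measurable.indicator (by fun_prop) measurableSet_Ioo).aestronglyMeasurable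
    · refine Filter.Eventually.of_forall fun t => ?_
      by_cases ht : t ∈ Ioo (-L) L
      · rw [indicator_of_mem ht, Real.norm_eq_abs, abs_of_pos (Real.exp_pos _)]
        apply Real.exp_le_exp.mpr
        linarith [ht.1]
      · rw [indicator_of_notMem ht, norm_zero]
        exact (Real.exp_pos _).le
  refine h6.congr (Filter.Eventually.of_forall fun t => ?_)
  by_cases ht : t ∈ Ioo (-L) L
  · simp only [indicator_of_mem ht]
    have h5 : Real.exp (-(2 * t)) * Real.exp (2 * t) = 1 := by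
      rw [← Real.exp_add, neg_add_cancel, Real.exp_zero]
    have h7 := hS.ne'
    field_simp
    linear_combination (U t) * h5
  · simp only [indicator_of_notMem ht, mul_zero]

/-- compactly supported continuous functions on the line -/
theorem ChanB_cs {L : ℝ} {f : ℝ → ℝ} (h0 : ∀ t, t ∉ Ioo (-L) L → f t = 0) :
    HasCompactSupport f := by
  apply HasCompactSupport.of_support_subset_isCompact (isCompact_Icc (a := -L) (b := L))
  intro t ht
  by_contra h
  apply ht
  apply h0
  intro h'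
  exact h (Ioo_subset_Icc_self h')

theorem ChanB_Uf {γ : ℝ} (hγ : 0 < γ) {W : En 4 → ℝ} (hW : Adm4 γ W) {U : ℝ → ℝ}
    (hU : ∀ x : En 4, x ≠ 0 → U (Real.log ‖x‖) = ‖x‖ ^ 2 * W x) {L : ℝ} {f : ℝ → ℝ}
    (hf : Continuous f) (h0 : ∀ t, t ∉ Ioo (-L) L → f t = 0) : Integrable (fun t => f t * U t) := by
  have h1 := ChanB_U_int hγ hW hU L
  rw [← integrable_indicator_iff measurableSet_Ioo] at h1
  obtain ⟨C, hC⟩ := (ChanB_cs h0).exists_bound_of_continuous hf
  have h2 := h1.bdd_mul (c := C) hf.aestronglyMeasurable (Filter.Eventually.of_forall hC)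
  refine h2.congr (Filter.Eventually.of_forall fun t => ?_)
  by_cases ht : t ∈ Ioo (-L) L
  · simp only [indicator_of_mem ht]
  · simp only [indicator_of_notMem ht, h0 t ht, mul_zero, zero_mul]

theorem ChanB_q {L : ℝ} {u : En 4 → ℝ} (hu : u ∈ Test 4) (hs : tsupport u ⊆ Ann L) {γ : ℝ}
    (hγ : 0 < γ) {W : En 4 → ℝ} (hW : Adm4 γ W) {U : ℝ → ℝ}
    (hU : ∀ x : En 4, x ≠ 0 → U (Real.log ‖x‖) = ‖x‖ ^ 2 * W x) (τ : ℝ) {l : ℕ}
    {p : MvPolynomial (Fin 4) ℝ} (hp : p ∈ HarmPoly l) :
    Integrable (fun t => -(Real.exp (4 * t) * (ChanB_a u p t * ChanB_a (Laplacian.laplacian u) p t)) +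
      (-(Real.exp (2 * t) * U t) + τ * Real.exp (4 * t)) * (ChanB_a u p t * ChanB_a u p t)) ∧
    q (pot ((l : ℝ) + 1) τ U) (comp u p) =
      ∫ t, (-(Real.exp (4 * t) * (ChanB_a u p t * ChanB_a (Laplacian.laplacian u) p t)) +
      (-(Real.exp (2 * t) * U t) + τ * Real.exp (4 * t)) * (ChanB_a u p t * ChanB_a u p t)) := by
  obtain ⟨hc, h0, -⟩ := comp_mem hu hs p
  set c := comp u p with hcdef
  have hcs : HasCompactSupport c := ChanB_cs h0
  have hd : ContDiff ℝ (⊤ : ℕ∞) (deriv c) := by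
    exact (contDiff_infty_iff_deriv.mp hc).2
  have hdd : ContDiff ℝ (⊤ : ℕ∞) (deriv (deriv c)) := by
    exact (contDiff_infty_iff_deriv.mp hd).2
  have hds : HasCompactSupport (deriv c) := hcs.deriv
  have i1 : Integrable (fun t => c t * deriv (deriv c) t) :=
    (hc.continuous.mul hdd.continuous).integrable_of_hasCompactSupport hcs.mul_right
  have i2 : Integrable (fun t => deriv c t * deriv c t) :=
    (hd.continuous.mul hd.continuous).integrable_of_hasCompactSupport hds.mul_right
  have i3 : Integrable (fun t => c t * deriv c t) :=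
    (hc.continuous.mul hd.continuous).integrable_of_hasCompactSupport hcs.mul_right
  have i4 : Integrable (fun t => c t ^ 2 * U t) := by
    apply ChanB_Uf hγ hW hU (hc.continuous.pow 2) (L := L)
    intro t ht
    simp [h0 t ht]
  have i5 : Integrable (fun t => (((l : ℝ) + 1) ^ 2 + τ * om t) * c t ^ 2) := by
    apply Continuous.integrable_of_hasCompactSupport
    · unfold om; fun_prop
    · apply HasCompactSupport.mul_left
      exact ChanB_cs (L := L) (fun t ht => by rw [h0 t ht]; norm_num)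
  have ibp : ∫ t, c t * deriv (deriv c) t = -∫ t, deriv c t * deriv c t :=
    integral_mul_deriv_eq_deriv_mul_of_integrable
      (fun t _ => (hc.differentiable (by simp) t).hasDerivAt)
      (fun t _ => (hd.differentiable (by simp) t).hasDerivAt) i1 i2 i3
  have i6 : Integrable (fun t => pot ((l : ℝ) + 1) τ U t * c t ^ 2) := by
    refine (i5.sub i4).congr (Filter.Eventually.of_forall fun t => ?_)
    simp only [Pi.sub_apply, pot]
    ring
  have key : ∀ t, -(c t * deriv (deriv c) t) + pot ((l : ℝ) + 1) τ U t * c t ^ 2 =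
      (-(Real.exp (4 * t) * (ChanB_a u p t * ChanB_a (Laplacian.laplacian u) p t)) +
      (-(Real.exp (2 * t) * U t) + τ * Real.exp (4 * t)) * (ChanB_a u p t * ChanB_a u p t)) := by
    intro t
    have h1 := lap_channel hu hs hp t
    have h2 : ChanB_a (Laplacian.laplacian u) p t =
      Real.exp (-(3 * t)) * (deriv (deriv c) t - ((l : ℝ) + 1) ^ 2 * c t) := h1
    have h3 : c t = Real.exp t * ChanB_a u p t := ChanB_comp u p t
    have e4 : Real.exp (4 * t) = Real.exp t ^ 4 := by rw [← Real.exp_nat_mul]; norm_num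
    have e2 : Real.exp (2 * t) = Real.exp t ^ 2 := by rw [← Real.exp_nat_mul]; norm_num
    have e3 : Real.exp t ^ 3 * Real.exp (-(3 * t)) = 1 := by
      rw [← Real.exp_nat_mul, ← Real.exp_add]
      norm_num
    have h4 : deriv (deriv c) t - ((l : ℝ) + 1) ^ 2 * c t =
        Real.exp t ^ 3 * ChanB_a (Laplacian.laplacian u) p t := by
      rw [h2, ← mul_assoc, e3, one_mul]
    have h5 : deriv (deriv c) t = ((l : ℝ) + 1) ^ 2 * c t +
        Real.exp t ^ 3 * ChanB_a (Laplacian.laplacian u) p t := by linarith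
    unfold pot om
    rw [h5, h3, e4, e2]
    ring
  have i7 : Integrable (fun t => -(c t * deriv (deriv c) t) + pot ((l : ℝ) + 1) τ U t * c t ^ 2) :=
    i1.neg.add i6
  constructor
  · exact i7.congr (Filter.Eventually.of_forall key)
  · rw [← integral_congr_ae (Filter.Eventually.of_forall key)]
    have s1 : q (pot ((l : ℝ) + 1) τ U) c =
        (∫ t, deriv c t * deriv c t) + ∫ t, pot ((l : ℝ) + 1) τ U t * c t ^ 2 := by
      unfold q
      simp only [sq (deriv c _)]
      exact integral_add i2 i6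
    have s2 : ∫ t, (-(c t * deriv (deriv c) t) + pot ((l : ℝ) + 1) τ U t * c t ^ 2) =
        (∫ t, -(c t * deriv (deriv c) t)) + ∫ t, pot ((l : ℝ) + 1) τ U t * c t ^ 2 :=
      integral_add i1.neg i6
    rw [s1, s2, integral_neg, ibp, neg_neg]


theorem ChanB_cont {v : En 4 → ℝ} (hv : Continuous v) (t : ℝ) :
    Continuous (fun s : Metric.sphere (0 : En 4) 1 => v (Real.exp t • (s : En 4))) :=
  hv.comp (by fun_prop)

theorem ChanB_int3 {X : Type} [MeasurableSpace X] {μ : Measure X} {A B C : X → ℝ} (τ : ℝ)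
    (hA : Integrable A μ) (hB : Integrable B μ) (hC : Integrable C μ) :
    ∫ t, (A t + (-(B t) + τ * C t)) ∂μ = (∫ t, A t ∂μ) + (-(∫ t, B t ∂μ) + τ * ∫ t, C t ∂μ) := by
  have h1 : ∫ t, (A t + (-(B t) + τ * C t)) ∂μ = (∫ t, A t ∂μ) + ∫ t, (-(B t) + τ * C t) ∂μ :=
    integral_add hA (hB.neg.add (hC.const_mul τ))
  have h2 : ∫ t, (-(B t) + τ * C t) ∂μ = (∫ t, -(B t) ∂μ) + ∫ t, τ * C t ∂μ :=
    integral_add hB.neg (hC.const_mul τ)
  rw [h1, h2, integral_neg, integral_const_mul]

/-- Parseval for the full form, `W` radial -/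
theorem form_parseval {L : ℝ} {u : En 4 → ℝ} (hu : u ∈ Test 4) (hs : tsupport u ⊆ Ann L) {γ : ℝ} (hγ : 0 < γ) {W : En 4 → ℝ} (hW : Adm4 γ W)
    {U : ℝ → ℝ} (hU : ∀ x : En 4, x ≠ 0 → U (Real.log ‖x‖) = ‖x‖ ^ 2 * W x) (τ : ℝ)
    {d : ℕ → ℕ} {Y : ℕ → ℕ → MvPolynomial (Fin 4) ℝ} (hY : ∀ l i, i < d l → Y l i ∈ HarmPoly l)
    (hpars : ∀ f g : C(Metric.sphere (0 : En 4) 1, ℝ),
      HasSum (fun l => ∑ i ∈ Finset.range (d l), (∫ s, f s * ev (Y l i) s ∂sph) * (∫ s, g s * ev (Y l i) s ∂sph)) (∫ s, f s * g s ∂sph)) :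
    HasSum (fun l : ℕ => ∑ i ∈ Finset.range (d l), q (pot ((l : ℝ) + 1) τ U) (comp u (Y l i))) (form4 W τ u) := by
  have hv : Laplacian.laplacian u ∈ Test 4 := ChanB_lap_test hu
  set v := Laplacian.laplacian u with hvdef
  set au : ℕ → ℕ → ℝ → ℝ := fun l i t => ChanB_a u (Y l i) t with hau
  set av : ℕ → ℕ → ℝ → ℝ := fun l i t => ChanB_a v (Y l i) t with hav
  set S : (En 4 → ℝ) → ℝ → ℝ := fun f t =>
    ∫ s : Metric.sphere (0 : En 4) 1, f (Real.exp t • (s : En 4)) ∂sph with hS
  -- pointwise Parseval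
  have P1 : ∀ t, HasSum (fun l => ∑ i ∈ Finset.range (d l), au l i t * av l i t)
      (S (fun x => u x * v x) t) := fun t =>
    hpars ⟨_, ChanB_cont hu.1.continuous t⟩ ⟨_, ChanB_cont hv.1.continuous t⟩
  have P2 : ∀ t, HasSum (fun l => ∑ i ∈ Finset.range (d l), au l i t * au l i t)
      (S (fun x => u x * u x) t) := fun t =>
    hpars ⟨_, ChanB_cont hu.1.continuous t⟩ ⟨_, ChanB_cont hu.1.continuous t⟩
  have P3 : ∀ t, HasSum (fun l => ∑ i ∈ Finset.range (d l), av l i t * av l i t)
      (S (fun x => v x * v x) t) := fun t =>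
    hpars ⟨_, ChanB_cont hv.1.continuous t⟩ ⟨_, ChanB_cont hv.1.continuous t⟩
  -- integrability
  have Iuu := ChanB_test_int hu hu
  have Iuv := ChanB_test_int hu hv
  have Ivv := ChanB_test_int hv hv
  have IW : Integrable (fun x => W x * (u x * u x)) :=
    ChanB_Wv hγ hW (hu.1.continuous.mul hu.1.continuous) hu.2.mul_right
  obtain ⟨J1, K1⟩ := ChanB_polar Iuv
  obtain ⟨J2, K2⟩ := ChanB_polar Iuu
  obtain ⟨J3, K3⟩ := ChanB_polar Ivv
  obtain ⟨J4, K4⟩ := ChanB_polar IW
  have hWS : ∀ t, Real.exp (4 * t) * ∫ s : Metric.sphere (0 : En 4) 1,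
      W (Real.exp t • (s : En 4)) * (u (Real.exp t • (s : En 4)) * u (Real.exp t • (s : En 4))) ∂sph =
      Real.exp (2 * t) * U t * S (fun x => u x * u x) t := fun t =>
    ChanB_pU hU (fun x => u x * u x) t
  simp only [hWS] at J4 K4
  have hU0 : ∀ t, 0 ≤ U t := by
    intro t
    obtain ⟨s⟩ : Nonempty (Metric.sphere (0 : En 4) 1) := ⟨⟨EuclideanSpace.single 0 1, by simp⟩⟩
    rw [ChanB_U hU s t]
    exact mul_nonneg (sq_nonneg _) (hW.1 _)
  -- the integrands
  set F : ℕ → ℝ → ℝ := fun l t => ∑ i ∈ Finset.range (d l),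
    (-(Real.exp (4 * t) * (au l i t * av l i t)) +
      (-(Real.exp (2 * t) * U t) + τ * Real.exp (4 * t)) * (au l i t * au l i t)) with hF
  have hFq : ∀ l, ∑ i ∈ Finset.range (d l), q (pot ((l : ℝ) + 1) τ U) (comp u (Y l i)) =
      ∫ t, F l t := by
    intro l
    rw [hF]
    rw [integral_finsetSum _ (fun i hi => (ChanB_q hu hs hγ hW hU τ (hY l i (Finset.mem_range.mp hi))).1)]
    apply Finset.sum_congr rfl
    intro i hi
    exact (ChanB_q hu hs hγ hW hU τ (hY l i (Finset.mem_range.mp hi))).2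
  have hFi : ∀ l, Integrable (F l) := by
    intro l
    rw [hF]
    exact integrable_finsetSum _ (fun i hi =>
      (ChanB_q hu hs hγ hW hU τ (hY l i (Finset.mem_range.mp hi))).1)
  set f : ℝ → ℝ := fun t => -(Real.exp (4 * t) * S (fun x => u x * v x) t) +
    (-(Real.exp (2 * t) * U t * S (fun x => u x * u x) t) +
      τ * (Real.exp (4 * t) * S (fun x => u x * u x) t)) with hf
  have hff : form4 W τ u = ∫ t, f t := by
    have e1 : ∫ t, f t = -(∫ x, u x * v x) + (-(∫ x, W x * (u x * u x)) + τ * ∫ x, u x * u x) := by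
      rw [K1, K2, K4, ← integral_neg]
      exact ChanB_int3 τ J1.neg J4 J2
    rw [e1]
    unfold form4
    have e2 : ∀ x, ‖gradient u x‖ ^ 2 - W x * u x ^ 2 + τ * u x ^ 2 =
        ‖gradient u x‖ ^ 2 + (-(W x * (u x * u x)) + τ * (u x * u x)) := by
      intro x; ring
    simp only [e2]
    have i0 : Integrable (fun x => ‖gradient u x‖ ^ 2) := by
      simp only [ChanB_grad]
      exact integrable_finsetSum _ (fun i _ => ChanB_test_int (ChanB_d_test hu i) (ChanB_d_test hu i))
    rw [ChanB_int3 τ i0 IW Iuu, ChanB_green hu]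
  rw [hff]
  simp only [hFq]
  -- dominated convergence
  apply hasSum_integral_of_dominated_convergence (fun l t =>
    Real.exp (4 * t) * ((1 / 2) * ∑ i ∈ Finset.range (d l), au l i t * au l i t +
      (1 / 2) * ∑ i ∈ Finset.range (d l), av l i t * av l i t) +
    (Real.exp (2 * t) * U t + |τ| * Real.exp (4 * t)) * ∑ i ∈ Finset.range (d l), au l i t * au l i t)
  · exact fun l => (hFi l).aestronglyMeasurable
  · intro l
    refine Filter.Eventually.of_forall fun t => ?_
    rw [Real.norm_eq_abs]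
    refine (Finset.abs_sum_le_sum_abs _ _).trans ?_
    rw [Finset.mul_sum, Finset.mul_sum, Finset.mul_sum, ← Finset.sum_add_distrib, Finset.mul_sum,
      ← Finset.sum_add_distrib]
    apply Finset.sum_le_sum
    intro i _
    have g1 : |au l i t * av l i t| ≤ 1 / 2 * (au l i t * au l i t) + 1 / 2 * (av l i t * av l i t) := by
      rw [abs_le]
      constructor <;> nlinarith [sq_nonneg (au l i t + av l i t), sq_nonneg (au l i t - av l i t)]
    have g2 : 0 ≤ au l i t * au l i t := mul_self_nonneg _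
    have g3 : |-(Real.exp (2 * t) * U t) + τ * Real.exp (4 * t)| ≤
        Real.exp (2 * t) * U t + |τ| * Real.exp (4 * t) := by
      refine (abs_add_le _ _).trans ?_
      rw [abs_neg, abs_mul, abs_mul, abs_of_pos (Real.exp_pos _), abs_of_pos (Real.exp_pos _),
        abs_of_nonneg (hU0 t)]
    refine (abs_add_le _ _).trans ?_
    rw [abs_neg, abs_mul, abs_of_pos (Real.exp_pos _), abs_mul (-(Real.exp (2 * t) * U t) + τ * Real.exp (4 * t)),
      abs_of_nonneg g2]
    exact add_le_add (mul_le_mul_of_nonneg_left g1 (Real.exp_pos _).le) (mul_le_mul_of_nonneg_right g3 g2)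
  · refine Filter.Eventually.of_forall fun t => ?_
    exact ((((P2 t).mul_left _).add ((P3 t).mul_left _)).mul_left _).add ((P2 t).mul_left _) |>.summable
  · have hts : ∀ t, ∑' l, (Real.exp (4 * t) * ((1 / 2) * ∑ i ∈ Finset.range (d l), au l i t * au l i t +
      (1 / 2) * ∑ i ∈ Finset.range (d l), av l i t * av l i t) +
      (Real.exp (2 * t) * U t + |τ| * Real.exp (4 * t)) * ∑ i ∈ Finset.range (d l), au l i t * au l i t) =
      (1 / 2) * (Real.exp (4 * t) * S (fun x => u x * u x) t) +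
      (1 / 2) * (Real.exp (4 * t) * S (fun x => v x * v x) t) +
      (Real.exp (2 * t) * U t * S (fun x => u x * u x) t +
        |τ| * (Real.exp (4 * t) * S (fun x => u x * u x) t)) := by
      intro t
      rw [(((((P2 t).mul_left (1 / 2)).add ((P3 t).mul_left (1 / 2))).mul_left (Real.exp (4 * t))).add
        ((P2 t).mul_left (Real.exp (2 * t) * U t + |τ| * Real.exp (4 * t)))).tsum_eq]
      ring
    simp only [hts]
    exact ((J2.const_mul _).add (J3.const_mul _)).add (J4.add (J2.const_mul _))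
  · refine Filter.Eventually.of_forall fun t => ?_
    have h1 := ((P1 t).mul_left (-Real.exp (4 * t))).add
      ((P2 t).mul_left (-(Real.exp (2 * t) * U t) + τ * Real.exp (4 * t)))
    have h2 : -Real.exp (4 * t) * S (fun x => u x * v x) t +
        (-(Real.exp (2 * t) * U t) + τ * Real.exp (4 * t)) * S (fun x => u x * u x) t = f t := by
      rw [hf]; ring
    rw [h2] at h1
    have h3 : (fun l => F l t) = fun l => -Real.exp (4 * t) * ∑ i ∈ Finset.range (d l), au l i t * av l i t +
        (-(Real.exp (2 * t) * U t) + τ * Real.exp (4 * t)) * ∑ i ∈ Finset.range (d l), au l i t * au l i t := by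
      ext l
      rw [hF]
      simp only [Finset.mul_sum]
      rw [← Finset.sum_add_distrib]
      apply Finset.sum_congr rfl
      intro i _
      ring
    rw [h3]
    exact h1

end Pool.Agent.RLT40
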