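import Pool.Agent.RLT40.FourD

/-!
# Module RED (paper 0): reduction to `V = -W ≤ 0`, phase space integral, layer cake for the Riesz mean.

`phase_eq`: for fixed `x` with `W = V_-(x)`: `∫_{|p|²<W} (W-|p|²)^γ dp = W^{2+γ} ∫_{|p|<1}(1-|p|²)^γ dp = W^{2+γ} · 2π² ∫_0^1 (1-r²)^γ r³ dr = W^{2+γ} π²/((γ+1)(γ+2))` (polar coordinates:
`integral_fun_norm_addHaar` / lintegral version, volume of the unit ball of `ℝ⁴` is `π²/2`; if `V x ≥ 0` both sides vanish).  `(2π)^{-4} π² = 1/(16π²)`.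
-/

open MeasureTheory Set
open scoped ENNReal NNReal

namespace Pool.Agent.RLT40

namespace RedB

theorem negPow_coe {γ : ℝ} (hγ : 0 < γ) (t : ℝ) :
    negPow γ (t : EReal) = ENNReal.ofReal (max (-t) 0 ^ γ) := by
  unfold negPow
  split_ifs with h
  · have ht : t < 0 := by exact_mod_cast h
    rw [max_eq_left (by linarith), ← ENNReal.ofReal_rpow_of_nonneg (by linarith) hγ.le]
    congr 1
  · have ht : 0 ≤ t := by
      have : ¬ t < 0 := by exact_mod_cast h
      linarith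
    rw [max_eq_right (by linarith), Real.zero_rpow hγ.ne', ENNReal.ofReal_zero]

theorem int1 {γ w : ℝ} (hγ : 0 < γ) (hw : 0 ≤ w) :
    ∫ r in (0 : ℝ)..(Real.sqrt w), r ^ 3 * (w - r ^ 2) ^ γ
      = w ^ (2 + γ) / (2 * (γ + 1) * (γ + 2)) := by
  have hs : Real.sqrt w ^ 2 = w := Real.sq_sqrt hw
  have hs0 : 0 ≤ Real.sqrt w := Real.sqrt_nonneg w
  have hd : ∀ r ∈ uIcc 0 (Real.sqrt w), HasDerivAt
      (fun r => -(w / (2 * (γ + 1))) * (w - r ^ 2) ^ (γ + 1) + 1 / (2 * (γ + 2)) * (w - r ^ 2) ^ (γ + 2))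
      (r ^ 3 * (w - r ^ 2) ^ γ) r := by
    intro r hr
    rw [uIcc_of_le hs0] at hr
    have hb : 0 ≤ w - r ^ 2 := by
      have : r ^ 2 ≤ Real.sqrt w ^ 2 := pow_le_pow_left₀ hr.1 hr.2 2
      linarith
    have h1 : HasDerivAt (fun r : ℝ => w - r ^ 2) (-(2 * r)) r := by
      have := (hasDerivAt_pow 2 r).const_sub w
      simpa using this
    have h2 := (h1.rpow_const (p := γ + 1) (Or.inr (by linarith))).const_mul (-(w / (2 * (γ + 1))))
    have h3 := (h1.rpow_const (p := γ + 2) (Or.inr (by linarith))).const_mul (1 / (2 * (γ + 2)))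
    refine (h2.add h3).congr_deriv ?_
    have e1 : (w - r ^ 2) ^ (γ + 1 - 1) = (w - r ^ 2) ^ γ := by congr 1; ring
    have e2 : (w - r ^ 2) ^ (γ + 2 - 1) = (w - r ^ 2) ^ γ * (w - r ^ 2) := by
      rw [show γ + 2 - 1 = γ + 1 by ring, Real.rpow_add_one' hb (by linarith)]
    rw [e1, e2]
    have g1 : γ + 1 ≠ 0 := by linarith
    have g2 : γ + 2 ≠ 0 := by linarith
    field_simp
    ring
  have hc : ContinuousOn (fun r : ℝ => r ^ 3 * (w - r ^ 2) ^ γ) (uIcc 0 (Real.sqrt w)) := by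
    apply Continuous.continuousOn
    exact (continuous_pow 3).mul ((continuous_const.sub (continuous_pow 2)).rpow_const
      fun x => Or.inr hγ.le)
  rw [intervalIntegral.integral_eq_sub_of_hasDerivAt hd hc.intervalIntegrable]
  rw [hs, sub_self, Real.zero_rpow (by linarith), Real.zero_rpow (by linarith)]
  have e3 : (w - (0 : ℝ) ^ 2) = w := by ring
  rw [e3]
  have e4 : w ^ (γ + 2) = w ^ (γ + 1) * w := by
    rw [show γ + 2 = (γ + 1) + 1 by ring, Real.rpow_add_one' hw (by linarith)]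
  rw [show (2 + γ) = γ + 2 by ring, e4]
  have g1 : γ + 1 ≠ 0 := by linarith
  have g2 : γ + 2 ≠ 0 := by linarith
  field_simp
  ring

theorem int_Ioi {γ w : ℝ} (hγ : 0 < γ) (hw : 0 ≤ w) :
    ∫ r in Ioi (0 : ℝ), r ^ 3 * (max (w - r ^ 2) 0) ^ γ = w ^ (2 + γ) / (2 * (γ + 1) * (γ + 2)) := by
  rw [← int1 hγ hw, intervalIntegral.integral_of_le (Real.sqrt_nonneg w)]
  have h1 : ∫ r in Ioi (0 : ℝ), r ^ 3 * (max (w - r ^ 2) 0) ^ γ
      = ∫ r in Ioc (0 : ℝ) (Real.sqrt w), r ^ 3 * (max (w - r ^ 2) 0) ^ γ := by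
    refine (setIntegral_eq_of_subset_of_forall_sdiff_eq_zero measurableSet_Ioi
      (fun x hx => hx.1) fun x hx => ?_)
    have hx1 : 0 < x := hx.1
    have hx2 : Real.sqrt w < x := by
      by_contra hcon
      exact hx.2 ⟨hx1, not_lt.1 hcon⟩
    have : w ≤ x ^ 2 := by
      rw [← Real.sqrt_le_left hx1.le]
      exact hx2.le
    rw [max_eq_right (by linarith), Real.zero_rpow hγ.ne', mul_zero]
  rw [h1]
  refine setIntegral_congr_fun measurableSet_Ioc fun x hx => ?_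
  have : x ^ 2 ≤ w := by
    have := pow_le_pow_left₀ hx.1.le hx.2 2
    rwa [Real.sq_sqrt hw] at this
  show x ^ 3 * (max (w - x ^ 2) 0) ^ γ = x ^ 3 * (w - x ^ 2) ^ γ
  rw [max_eq_left (by linarith)]

theorem vol4 : (volume : Measure (En 4)).real (Metric.ball 0 1) = Real.pi ^ 2 / 2 := by
  rw [Measure.real, EuclideanSpace.volume_ball]
  simp only [Fintype.card_fin, ENNReal.ofReal_one, one_pow, one_mul]
  rw [ENNReal.toReal_ofReal (by positivity)]
  have h1 : Real.sqrt Real.pi ^ 4 = Real.pi ^ 2 := by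
    rw [show (4 : ℕ) = 2 * 2 by norm_num, pow_mul, Real.sq_sqrt Real.pi_pos.le]
  have h2 : Real.Gamma (((4 : ℕ) : ℝ) / 2 + 1) = 2 := by
    rw [show (((4 : ℕ) : ℝ) / 2 + 1) = ((2 : ℕ) : ℝ) + 1 by norm_num, Real.Gamma_nat_eq_factorial]
    norm_num [Nat.factorial]
  rw [h1, h2]

theorem inner_int {γ : ℝ} (hγ : 0 < γ) (v : ℝ) :
    ∫⁻ p : En 4, negPow γ (((‖p‖ ^ 2 + v : ℝ)) : EReal)
      = ENNReal.ofReal (Real.pi ^ 2 / ((γ + 1) * (γ + 2)) * max (-v) 0 ^ (2 + γ)) := by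
  have h1 : ∀ p : En 4, negPow γ (((‖p‖ ^ 2 + v : ℝ)) : EReal)
      = ENNReal.ofReal (max (-v - ‖p‖ ^ 2) 0 ^ γ) := by
    intro p
    rw [negPow_coe hγ]
    congr 3
    ring
  simp_rw [h1]
  rcases le_or_gt 0 v with hv | hv
  · have h2 : ∀ p : En 4, ENNReal.ofReal (max (-v - ‖p‖ ^ 2) 0 ^ γ) = 0 := by
      intro p
      rw [max_eq_right (by nlinarith [sq_nonneg ‖p‖]), Real.zero_rpow hγ.ne', ENNReal.ofReal_zero]
    simp_rw [h2]
    rw [max_eq_right (by linarith), Real.zero_rpow (by linarith)]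
    simp
  · set w : ℝ := -v with hw
    have hw0 : 0 < w := by rw [hw]; linarith
    have hcont : Continuous fun p : En 4 => max (w - ‖p‖ ^ 2) 0 ^ γ :=
      ((continuous_const.sub (continuous_norm.pow 2)).max continuous_const).rpow_const
        fun x => Or.inr hγ.le
    have hsupp : HasCompactSupport fun p : En 4 => max (w - ‖p‖ ^ 2) 0 ^ γ := by
      apply HasCompactSupport.of_support_subset_isCompact (isCompact_closedBall (0 : En 4) (Real.sqrt w))
      intro p hp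
      rw [Function.mem_support] at hp
      rw [mem_closedBall_zero_iff]
      by_contra hcon
      rw [not_le] at hcon
      apply hp
      have : w ≤ ‖p‖ ^ 2 := by
        rw [← Real.sqrt_le_left (norm_nonneg p)]
        exact hcon.le
      rw [max_eq_right (by linarith), Real.zero_rpow hγ.ne']
    have hint : Integrable (fun p : En 4 => max (w - ‖p‖ ^ 2) 0 ^ γ) :=
      hcont.integrable_of_hasCompactSupport hsupp
    rw [← ofReal_integral_eq_lintegral_ofReal hint (Filter.Eventually.of_forall fun p => by positivity)]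
    congr 1
    have h3 := integral_fun_norm_addHaar (volume : Measure (En 4)) (fun r : ℝ => max (w - r ^ 2) 0 ^ γ)
    rw [h3, vol4, finrank_euclideanSpace, Fintype.card_fin]
    simp only [smul_eq_mul, nsmul_eq_mul]
    rw [show ((4 : ℕ) - 1) = 3 by norm_num, int_Ioi hγ hw0.le, max_eq_left hw0.le]
    have g1 : γ + 1 ≠ 0 := by linarith
    have g2 : γ + 2 ≠ 0 := by linarith
    field_simp
    norm_num

end RedB

theorem phase_eq {γ : ℝ} (hγ : 0 < γ) {V : En 4 → ℝ} (h : Adm γ V) :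
    phase γ V = ENNReal.ofReal (Lcl γ) * ∫⁻ x, ENNReal.ofReal (max (-V x) 0 ^ (2 + γ)) := by
  unfold phase
  simp_rw [RedB.inner_int hγ]
  have e : ∀ x : En 4, ENNReal.ofReal (Real.pi ^ 2 / ((γ + 1) * (γ + 2)) * max (-V x) 0 ^ (2 + γ))
      = ENNReal.ofReal (Real.pi ^ 2 / ((γ + 1) * (γ + 2)))
        * ENNReal.ofReal (max (-V x) 0 ^ (2 + γ)) := fun x => by
    rw [ENNReal.ofReal_mul (by positivity)]
  simp_rw [e]
  rw [lintegral_const_mul' _ _ ENNReal.ofReal_ne_top, ← mul_assoc,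
    ← ENNReal.ofReal_mul (by positivity)]
  congr 2
  unfold Lcl
  rw [show (-((4 : ℕ) : ℝ)) = ((-4 : ℤ) : ℝ) by norm_num, Real.rpow_intCast]
  have g1 : γ + 1 ≠ 0 := by linarith
  have g2 : γ + 2 ≠ 0 := by linarith
  have hp := Real.pi_ne_zero
  rw [zpow_neg]
  norm_num
  field_simp
  norm_num

end Pool.Agent.RLT40
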