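import Pool.Agent.RLT40.OneD
import Pool.Agent.RLT40.RedB

/-!
# Modules CHAN1, CHAN2 (paper 2.A3): channel decomposition.

`comp u p t = ∫_S e^t u(e^t s) p(s) ds`.  CHAN1 `comp_props`: smooth, compactly supported in `(-L,L)`.
`grad_parseval`: `∫|∇u|² = -∫uΔu = -∫ r³dr∫_S u Δu`; Parseval on each sphere (uniformly bounded partial sums: `Σ|a_l b_l| ≤ ‖u(r·)‖‖Δu(r·)‖`, dominated convergence);
`(Δu)_{p}(r) = (∂_r² + (3/r)∂_r - l(l+2)/r²) u_p(r)`, `u_p(r) = ∫_S u(rs)p(s)ds`: test with `h ∈ C_c^∞(0,∞)`: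
`∫ h(r)(Δu)_p r³ dr = ∫ Δu · h(|x|)|x|^{-l}p(x) dx = ∫ u Δ(h(|x|)|x|^{-l}p) dx`, `Δ(f(|x|)p) = (f'' + (3+2l)f'/r)p` for harmonic homogeneous `p` (Euler `x·∇p = lp`);
then with `c(t) = e^t u_p(e^t)`: `-∫ u_p (Δu)_p r³dr = ∫ c'² + (l+1)²c² dt` (1D integration by parts).
`pot_parseval`: `∫ W u² dx = ∫ U(t) Σ c² dt` with `U(t) = e^{2t}w(e^t)` (Tonelli, polar coordinates), `∫u² = ∫ω Σc²`.
CHAN2 `channel`: in each channel `k = l+1 ≤ K` with `nneg = n_k`, maximal negative space `M_k`; the `q`-orthogonality to `M_k` of `comp u Y_{l,i}` is `n_k` linear conditions and implies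
`q(pot k τ U)(comp) ≥ 0` (else `M_k + span` is a larger negative space); for `k > K` `nneg = 0` (as `Ntot < ⊤`).  Total number of conditions `≤ Σk²n_k = Ntot`.
-/

open MeasureTheory Set
open scoped ENNReal NNReal

namespace Pool.Agent.RLT40

namespace ChanC

/-- `w(r)^{2+γ}` -/
noncomputable def fr (γ : ℝ) (U : ℝ → ℝ) (r : ℝ) : ℝ := (U (Real.log r) / r ^ 2) ^ (2 + γ)

theorem image_exp : Real.exp '' univ = Ioi (0 : ℝ) := by
  rw [image_univ, Real.range_exp]

theorem exp_factor {γ : ℝ} {U : ℝ → ℝ} (hU0 : ∀ t, 0 ≤ U t) (t : ℝ) :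
    |Real.exp t| • (Real.exp t ^ (4 - 1) • fr γ U (Real.exp t))
      = U t ^ (2 + γ) * Real.exp (-(2 * γ * t)) := by
  unfold fr
  rw [Real.log_exp, Real.div_rpow (hU0 t) (by positivity), abs_of_pos (Real.exp_pos t)]
  have h1 : (Real.exp t ^ 2) ^ (2 + γ) = Real.exp (2 * t * (2 + γ)) := by
    rw [← Real.exp_nat_mul, ← Real.exp_mul]
    norm_num
  rw [h1]
  simp only [smul_eq_mul]
  rw [div_eq_mul_inv, ← Real.exp_neg, ← Real.exp_nat_mul]
  have h2 : Real.exp t * (Real.exp (((4 - 1 : ℕ) : ℝ) * t) * (U t ^ (2 + γ)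
      * Real.exp (-(2 * t * (2 + γ)))))
      = U t ^ (2 + γ) * (Real.exp t * Real.exp (((4 - 1 : ℕ) : ℝ) * t)
        * Real.exp (-(2 * t * (2 + γ)))) := by ring
  rw [h2, ← Real.exp_add, ← Real.exp_add]
  congr 2
  norm_num
  ring

end ChanC

/-- the class and the integral: polar coordinates -/
theorem radial_J {γ : ℝ} (hγ : 0 < γ) {W : En 4 → ℝ} (hW : Adm4 γ W) {U : ℝ → ℝ} (hU0 : ∀ t, 0 ≤ U t)
    (hU : ∀ x : En 4, x ≠ 0 → U (Real.log ‖x‖) = ‖x‖ ^ 2 * W x) {L : ℝ} (hL : 0 < L) :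
    Adm1 γ (-L) L U ∧ ENNReal.ofReal (2 * Real.pi ^ 2) * Jf γ (-L) L U ≤ ∫⁻ x, ENNReal.ofReal (W x ^ (2 + γ)) := by
  have hp : 0 < 2 + γ := by linarith
  obtain ⟨hW0, hWp, -⟩ := hW
  -- `W^{2+γ}` is a radial integrable function
  have i0 : Integrable (fun x => W x ^ (2 + γ)) := by
    have := (integrable_norm_rpow_iff hWp.1 (by simpa using hp) ENNReal.ofReal_ne_top).2 hWp
    rw [ENNReal.toReal_ofReal hp.le] at this
    refine this.congr (Filter.Eventually.of_forall fun x => ?_)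
    show ‖W x‖ ^ (2 + γ) = W x ^ (2 + γ)
    rw [Real.norm_of_nonneg (hW0 x)]
  have hae : (fun x => W x ^ (2 + γ)) =ᵐ[volume] fun x : En 4 => ChanC.fr γ U ‖x‖ := by
    have h0 : ∀ᵐ x : En 4, x ≠ 0 := by
      rw [ae_iff]
      simp
    filter_upwards [h0] with x hx
    unfold ChanC.fr
    have hn : ‖x‖ ^ 2 ≠ 0 := by
      have : ‖x‖ ≠ 0 := norm_ne_zero_iff.2 hx
      positivity
    rw [hU x hx, mul_comm, mul_div_assoc, div_self hn, mul_one]
  have i1 : Integrable (fun x : En 4 => ChanC.fr γ U ‖x‖) := i0.congr hae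
  have i2 := (integrable_fun_norm_addHaar (volume : Measure (En 4)) (f := ChanC.fr γ U)).1 i1
  have e2 := integral_fun_norm_addHaar (volume : Measure (En 4)) (ChanC.fr γ U)
  rw [RedB.vol4] at e2
  simp only [finrank_euclideanSpace, Fintype.card_fin] at i2 e2
  -- change of variables
  have hd : ∀ x ∈ (univ : Set ℝ), HasDerivWithinAt Real.exp (Real.exp x) univ x := fun x _ =>
    (Real.hasDerivAt_exp x).hasDerivWithinAt
  have hinj : InjOn Real.exp univ := Real.exp_injective.injOn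
  have c1 := integrableOn_image_iff_integrableOn_abs_deriv_smul MeasurableSet.univ hd hinj
    (fun y : ℝ => y ^ (4 - 1) • ChanC.fr γ U y)
  have c2 := integral_image_eq_integral_abs_deriv_smul MeasurableSet.univ hd hinj
    (fun y : ℝ => y ^ (4 - 1) • ChanC.fr γ U y)
  rw [ChanC.image_exp] at c1 c2
  have i3 := c1.1 i2
  simp only [ChanC.exp_factor hU0] at i3 c2
  rw [integrableOn_univ] at i3
  rw [Measure.restrict_univ] at c2
  rw [c2] at e2
  -- measurability of `U`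
  have hmeas : AEStronglyMeasurable U volume := by
    have m1 : AEMeasurable (fun t => U t ^ (2 + γ) * Real.exp (-(2 * γ * t))) volume := i3.1.aemeasurable
    have m2 : AEMeasurable (fun t : ℝ => (U t ^ (2 + γ) * Real.exp (-(2 * γ * t)))
        * Real.exp (2 * γ * t)) volume :=
      m1.mul (Real.measurable_exp.comp (measurable_const.mul measurable_id)).aemeasurable
    have m3 := m2.pow_const ((2 + γ)⁻¹)
    refine (m3.congr (Filter.Eventually.of_forall fun t => ?_)).aestronglyMeasurable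
    show ((U t ^ (2 + γ) * Real.exp (-(2 * γ * t))) * Real.exp (2 * γ * t)) ^ (2 + γ)⁻¹ = U t
    rw [mul_assoc, ← Real.exp_add, neg_add_cancel, Real.exp_zero, mul_one,
      Real.rpow_rpow_inv (hU0 t) hp.ne']
  refine ⟨⟨hU0, ?_⟩, ?_⟩
  · have hm := hmeas.restrict (s := Ioo (-L) L)
    rw [← integrable_norm_rpow_iff hm (by simpa using hp) ENNReal.ofReal_ne_top,
      ENNReal.toReal_ofReal hp.le]
    have j1 : IntegrableOn (fun t => (U t ^ (2 + γ) * Real.exp (-(2 * γ * t))) * Real.exp (2 * γ * t))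
        (Icc (-L) L) := i3.integrableOn.mul_continuousOn
          (Real.continuous_exp.comp (continuous_const.mul continuous_id)).continuousOn isCompact_Icc
    refine (j1.mono_set Ioo_subset_Icc_self).congr (Filter.Eventually.of_forall fun t => ?_)
    show (U t ^ (2 + γ) * Real.exp (-(2 * γ * t))) * Real.exp (2 * γ * t) = ‖U t‖ ^ (2 + γ)
    rw [mul_assoc, ← Real.exp_add, neg_add_cancel, Real.exp_zero, mul_one,
      Real.norm_of_nonneg (hU0 t)]
  · have k1 : ∫⁻ x, ENNReal.ofReal (W x ^ (2 + γ)) = ENNReal.ofReal (∫ x, W x ^ (2 + γ)) :=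
      (ofReal_integral_eq_lintegral_ofReal i0 (Filter.Eventually.of_forall fun x =>
        Real.rpow_nonneg (hW0 x) _)).symm
    have k2 : Jf γ (-L) L U ≤ ENNReal.ofReal (∫ t, U t ^ (2 + γ) * Real.exp (-(2 * γ * t))) := by
      unfold Jf
      rw [ofReal_integral_eq_lintegral_ofReal i3 (Filter.Eventually.of_forall fun t =>
        mul_nonneg (Real.rpow_nonneg (hU0 t) _) (Real.exp_pos _).le)]
      exact setLIntegral_le_lintegral _ _
    rw [k1, integral_congr_ae hae, e2]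
    have k3 : (4 • (Real.pi ^ 2 / 2) • ∫ t, U t ^ (2 + γ) * Real.exp (-(2 * γ * t)) : ℝ)
        = (2 * Real.pi ^ 2) * ∫ t, U t ^ (2 + γ) * Real.exp (-(2 * γ * t)) := by
      simp only [smul_eq_mul, nsmul_eq_mul]
      push_cast
      ring
    rw [k3, ENNReal.ofReal_mul (p := 2 * Real.pi ^ 2) (by positivity)]
    exact mul_le_mul_right k2 _

end Pool.Agent.RLT40
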