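import Pool.Agent.RLT40.HarmC

/-!
# Modules HARM1, HARM2 (paper 2.A3): spherical harmonics on `S³`.

`HarmPoly l` : real harmonic homogeneous polynomial functions of degree `l` on `ℝ⁴`.
HARM1 `finrank_harm_le`: `dim ≤ (l+1)²`: a harmonic homogeneous polynomial is determined by its restriction and the restriction of its `x₃`-derivative to `{x₃ = 0}`
(`C(l+2,2) + C(l+1,2) = (l+1)²`).
`harm_orth`: for `l ≠ m`: `∫_S p q = 0` (Green on the ball, or: `∫ (p Δq - q Δp) g(|x|) dx = 0` and Euler `x·∇p = l p`: with `g` a radial test function,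
`0 = ∫ g (pΔq - qΔp) = -∫ g'(|x|)/|x| (p x·∇q - q x·∇p) = -(m-l)∫ g'/|x| p q`, polar coordinates).
HARM2 `harm_dense`: finite sums of harmonic polynomials restricted to the sphere are dense in `C(S³)`: Stone-Weierstrass for polynomials, and every homogeneous polynomial `p` of degree `l` is on the
sphere a sum of harmonic ones: `T q = Δ(|x|²q)` on degree `l-2` is injective (if `Δ(|x|²q) = 0`, then `h = |x|²q` is harmonic of degree `l`, and by induction `h = q` on the sphere is a sum of harmonics of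
degree `≤ l-2`, orthogonal to `h`, so `h = 0`), hence onto: `Δp = Δ(|x|²q)`, `p = (p - |x|²q) + |x|²q`.
-/

open MeasureTheory Set
open scoped ENNReal NNReal

namespace Pool.Agent.RLT40

namespace HarmAux

open scoped InnerProductSpace

/-- the class in `L²(S³)` of a continuous function -/
noncomputable abbrev toE : C(Metric.sphere (0 : En 4) 1, ℝ) →L[ℝ] Lp ℝ 2 sph :=
  ContinuousMap.toLp 2 sph ℝ

theorem inner_toE (f g : C(Metric.sphere (0 : En 4) 1, ℝ)) :
    ⟪toE f, toE g⟫_ℝ = ∫ s, f s * g s ∂sph := by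
  rw [toE, ContinuousMap.inner_toLp]
  refine integral_congr_ae (Filter.Eventually.of_forall fun s => ?_)
  simp [mul_comm]

/-- the class in `L²(S³)` of a polynomial -/
noncomputable def polE : MvPolynomial (Fin 4) ℝ →ₗ[ℝ] Lp ℝ 2 sph :=
  toE.toLinearMap ∘ₗ
    (MvPolynomial.aeval coord : MvPolynomial (Fin 4) ℝ →ₐ[ℝ] C(Metric.sphere (0 : En 4) 1, ℝ)).toLinearMap

theorem polE_apply (p : MvPolynomial (Fin 4) ℝ) :
    polE p = toE (MvPolynomial.aeval coord p : C(Metric.sphere (0 : En 4) 1, ℝ)) := rfl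

theorem inner_toE_polE (f : C(Metric.sphere (0 : En 4) 1, ℝ)) (p : MvPolynomial (Fin 4) ℝ) :
    ⟪toE f, polE p⟫_ℝ = ∫ s, f s * ev p s ∂sph := by
  rw [polE_apply, inner_toE]
  refine integral_congr_ae (Filter.Eventually.of_forall fun s => ?_)
  simp only [aeval_coord]

theorem inner_polE (p q : MvPolynomial (Fin 4) ℝ) :
    ⟪polE p, polE q⟫_ℝ = ∫ s, ev p s * ev q s ∂sph := by
  rw [polE_apply, inner_toE_polE]
  refine integral_congr_ae (Filter.Eventually.of_forall fun s => ?_)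
  simp only [aeval_coord]

/-- the spherical harmonics of degree `l` in `L²(S³)` -/
noncomputable def WE (l : ℕ) : Submodule ℝ (Lp ℝ 2 sph) := (HarmPoly l).map polE

theorem WE_finite (l : ℕ) : FiniteDimensional ℝ (WE l) := by
  have := (finrank_harm_le l).1
  unfold WE
  infer_instance

theorem WE_finrank (l : ℕ) : Module.finrank ℝ (WE l) ≤ (l + 1) ^ 2 := by
  have h1 := (finrank_harm_le l).1
  exact (Submodule.finrank_map_le polE (HarmPoly l)).trans (finrank_harm_le l).2

theorem closure_sup_WE : (⨆ l, WE l).topologicalClosure = ⊤ := by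
  rw [eq_top_iff]
  intro x _
  have hd : DenseRange (toE : C(Metric.sphere (0 : En 4) 1, ℝ) → Lp ℝ 2 sph) :=
    ContinuousMap.toLp_denseRange ℝ sph ℝ (by norm_num)
  have hsub : Set.range (toE : C(Metric.sphere (0 : En 4) 1, ℝ) → Lp ℝ 2 sph) ⊆
      ((⨆ l, WE l).topologicalClosure : Set (Lp ℝ 2 sph)) := by
    rintro _ ⟨f, rfl⟩
    rw [Submodule.topologicalClosure_coe, Metric.mem_closure_iff]
    intro ε hε
    have hN : 0 ≤ ‖toE‖ := ContinuousLinearMap.opNorm_nonneg _
    obtain ⟨n, p, hp, hs⟩ := harm_dense f (ε := ε / (2 * (‖toE‖ + 1))) (by positivity)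
    refine ⟨polE (∑ l ∈ Finset.range n, p l), ?_, ?_⟩
    · rw [map_sum]
      refine Submodule.sum_mem _ fun l _ => ?_
      exact Submodule.mem_iSup_of_mem l (Submodule.mem_map_of_mem (hp l))
    · rw [polE_apply, dist_eq_norm, ← map_sub]
      refine (toE.le_opNorm _).trans_lt ?_
      have h1 : ‖f - (MvPolynomial.aeval coord (∑ l ∈ Finset.range n, p l) :
          C(Metric.sphere (0 : En 4) 1, ℝ))‖ ≤ ε / (2 * (‖toE‖ + 1)) := by
        rw [ContinuousMap.norm_le _ (by positivity)]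
        intro s
        rw [ContinuousMap.sub_apply, aeval_coord, Real.norm_eq_abs]
        have h2 : ev (∑ l ∈ Finset.range n, p l) s = ∑ l ∈ Finset.range n, ev (p l) s := by
          unfold ev
          rw [map_sum]
        rw [h2]
        exact hs s
      calc ‖toE‖ * _ ≤ ‖toE‖ * (ε / (2 * (‖toE‖ + 1))) := mul_le_mul_of_nonneg_left h1 hN
        _ ≤ (‖toE‖ + 1) * (ε / (2 * (‖toE‖ + 1))) := by
            refine mul_le_mul_of_nonneg_right (by linarith) (by positivity)
        _ = ε / 2 := by field_simp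
        _ < ε := by linarith
  have h3 : closure (Set.range (toE : C(Metric.sphere (0 : En 4) 1, ℝ) → Lp ℝ 2 sph)) ⊆
      ((⨆ l, WE l).topologicalClosure : Set (Lp ℝ 2 sph)) :=
    closure_minimal hsub (Submodule.isClosed_topologicalClosure _)
  exact h3 (hd x)

instance WE_fin (l : ℕ) : FiniteDimensional ℝ (WE l) := WE_finite l

/-- an orthonormal basis of the spherical harmonics of degree `l` -/
noncomputable def bE (l : ℕ) : OrthonormalBasis (Fin (Module.finrank ℝ (WE l))) ℝ (WE l) :=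
  stdOrthonormalBasis ℝ (WE l)

/-- the family of all basis elements -/
noncomputable def vE (a : Σ l, Fin (Module.finrank ℝ (WE l))) : Lp ℝ 2 sph := (bE a.1 a.2 : Lp ℝ 2 sph)

theorem vE_inner_ne {l m : ℕ} (h : l ≠ m) (i : Fin (Module.finrank ℝ (WE l)))
    (j : Fin (Module.finrank ℝ (WE m))) : ⟪vE ⟨l, i⟩, vE ⟨m, j⟩⟫_ℝ = 0 := by
  obtain ⟨p, hp, hpe⟩ : ∃ p ∈ HarmPoly l, polE p = vE ⟨l, i⟩ := (bE l i).2
  obtain ⟨q, hq, hqe⟩ : ∃ p ∈ HarmPoly m, polE p = vE ⟨m, j⟩ := (bE m j).2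
  rw [← hpe, ← hqe, inner_polE]
  exact harm_orth h hp hq

theorem vE_inner_eq {l : ℕ} {i j : Fin (Module.finrank ℝ (WE l))} (h : i ≠ j) :
    ⟪vE ⟨l, i⟩, vE ⟨l, j⟩⟫_ℝ = 0 := by
  have h1 : ⟪(bE l) i, (bE l) j⟫_ℝ = 0 := (bE l).orthonormal.2 h
  rw [Submodule.coe_inner] at h1
  exact h1

theorem vE_norm (a : Σ l, Fin (Module.finrank ℝ (WE l))) : ‖vE a‖ = 1 := by
  have h1 := (bE a.1).orthonormal.1 a.2
  rw [Submodule.coe_norm] at h1
  exact h1

theorem vE_orthonormal : Orthonormal ℝ vE := by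
  refine ⟨vE_norm, ?_⟩
  rintro ⟨l, i⟩ ⟨m, j⟩ hne
  by_cases h : l = m
  · subst h
    exact vE_inner_eq fun e => hne (by rw [e])
  · exact vE_inner_ne h i j

theorem vE_span : ⊤ ≤ (Submodule.span ℝ (Set.range vE)).topologicalClosure := by
  rw [← closure_sup_WE]
  refine Submodule.topologicalClosure_mono (iSup_le fun l => ?_)
  intro x hx
  have h1 : (⟨x, hx⟩ : WE l) ∈ Submodule.span ℝ (Set.range (bE l)) := by
    rw [← OrthonormalBasis.coe_toBasis, (bE l).toBasis.span_eq]
    trivial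
  have h2 : x ∈ (Submodule.span ℝ (Set.range (bE l))).map (WE l).subtype :=
    ⟨⟨x, hx⟩, h1, rfl⟩
  rw [Submodule.map_span] at h2
  refine Submodule.span_mono ?_ h2
  rintro _ ⟨_, ⟨i, rfl⟩, rfl⟩
  exact ⟨⟨l, i⟩, rfl⟩

/-- the Hilbert basis -/
noncomputable def hilE : HilbertBasis (Σ l, Fin (Module.finrank ℝ (WE l))) ℝ (Lp ℝ 2 sph) :=
  HilbertBasis.mk vE_orthonormal vE_span

theorem hilE_apply (a : Σ l, Fin (Module.finrank ℝ (WE l))) : hilE a = vE a := by
  unfold hilE
  rw [HilbertBasis.coe_mk]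

theorem exists_pre (l : ℕ) (i : Fin (Module.finrank ℝ (WE l))) :
    ∃ p ∈ HarmPoly l, polE p = vE ⟨l, i⟩ := (bE l i).2

/-- polynomial preimages of the basis elements -/
noncomputable def preE (l : ℕ) (i : Fin (Module.finrank ℝ (WE l))) : MvPolynomial (Fin 4) ℝ :=
  (exists_pre l i).choose

theorem preE_mem (l : ℕ) (i : Fin (Module.finrank ℝ (WE l))) : preE l i ∈ HarmPoly l :=
  (exists_pre l i).choose_spec.1

theorem polE_preE (l : ℕ) (i : Fin (Module.finrank ℝ (WE l))) : polE (preE l i) = vE ⟨l, i⟩ :=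
  (exists_pre l i).choose_spec.2

theorem parseval (f g : C(Metric.sphere (0 : En 4) 1, ℝ)) :
    HasSum (fun a : Σ l, Fin (Module.finrank ℝ (WE l)) =>
      (∫ s, f s * ev (preE a.1 a.2) s ∂sph) * (∫ s, g s * ev (preE a.1 a.2) s ∂sph))
      (∫ s, f s * g s ∂sph) := by
  have hsum := hilE.hasSum_inner_mul_inner (toE f) (toE g)
  rw [inner_toE] at hsum
  refine hsum.congr_fun fun a => ?_
  rw [hilE_apply, real_inner_comm (toE g) (vE a)]
  have h : vE a = polE (preE a.1 a.2) := (polE_preE a.1 a.2).symm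
  rw [h, inner_toE_polE, inner_toE_polE]

end HarmAux

open HarmAux in
/-- HARM3: an orthonormal basis `Y l i`, `i < d l ≤ (l+1)²`, and Parseval for continuous functions (HilbertBasis from harm_orth, Gram-Schmidt in each `HarmPoly l`, harm_dense). -/
theorem exists_basis : ∃ (d : ℕ → ℕ) (Y : ℕ → ℕ → MvPolynomial (Fin 4) ℝ), (∀ l, d l ≤ (l + 1) ^ 2) ∧ (∀ l i, i < d l → Y l i ∈ HarmPoly l) ∧
    ∀ f g : C(Metric.sphere (0 : En 4) 1, ℝ),
      HasSum (fun l => ∑ i ∈ Finset.range (d l), (∫ s, f s * ev (Y l i) s ∂sph) * (∫ s, g s * ev (Y l i) s ∂sph)) (∫ s, f s * g s ∂sph) := by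
  refine ⟨fun l => Module.finrank ℝ (WE l), fun l i => if h : i < Module.finrank ℝ (WE l) then preE l ⟨i, h⟩ else 0,
    fun l => WE_finrank l, fun l i hi => ?_, fun f g => ?_⟩
  · simp only
    rw [dif_pos hi]
    exact preE_mem _ _
  · have hs := (parseval f g).sigma (fun l => hasSum_fintype _)
    refine hs.congr_fun fun l => ?_
    rw [Finset.sum_range]
    refine Finset.sum_congr rfl fun i _ => ?_
    have hi : (i : ℕ) < Module.finrank ℝ (WE l) := i.2
    simp only [hi, dif_pos]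

end Pool.Agent.RLT40
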