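import Pool.Agent.RLT40.ChanB
import Pool.Agent.RLT40.ChanC
import Pool.Agent.RLT40.HarmD
import Pool.Agent.RLT40.SpaceC

/-!
# Modules CHAN1, CHAN2 (paper 2.A3): channel decomposition.

`comp u p t = ∫_S e^t u(e^t s) p(s) ds`.  CHAN1 `comp_props`: smooth, compactly supported in `(-L,L)`.
`grad_parseval`: `∫|∇u|² = -∫uΔu = -∫ r³dr∫_S u Δu`; Parseval on each sphere (uniformly bounded partial sums: `Σ|a_l b_l| ≤ ‖u(r·)‖‖Δu(r·)‖`, dominated convergence);
`(Δu)_{p}(r) = (∂_r² + (3/r)∂_r - l(l+2)/r²) u_p(r)`, `u_p(r) = ∫_S u(rs)p(s)ds`: test with `h ∈ C_c^∞(0,∞)`: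
`∫ h(r)(Δu)_p r³ dr = ∫ Δu · h(|x|)|x|^{-l}p(x) dx = ∫ u Δ(h(|x|)|x|^{-l}p) dx`, `Δ(f(|x|)p) = (f'' + (3+2l)f'/r)p` for harmonic homogeneous `p` (Euler `x·∇p = lp`);
then with `c(t) = e^t u_p(e^t)`: `-∫ u_p (Δu)_p r³dr = ∫ c'² + (l+1)²c² dt` (1D integration by parts).
`pot_parseval`: `∫ W u² dx = ∫ U(t) Σ c² dt` with `U(t) = e^{2t}w(e^t)` (Tonelli, polar coordinates), `∫u² = ∫ω Σc²`.
CHAN2 `channel`: in each channel `k = l+1 ≤ K` with `nneg = n_k`, maximal negative space `M_k`; the `q`-orthogonality to `M_k` of `comp u Y_{l,i}` is `n_k` linear conditions and implies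
`q(pot k τ U)(comp) ≥ 0` (else `M_k + span` is a larger negative space); for `k > K` `nneg = 0` (as `Ntot < ⊤`).  Total number of conditions `≤ Σk²n_k = Ntot`.
-/

open MeasureTheory Set
open scoped ENNReal NNReal

namespace Pool.Agent.RLT40

/-- the integrand of the bilinear form of `q V` -/
theorem ChanD_integrable {a b : ℝ} {V : ℝ → ℝ} (hV : IntegrableOn V (Ioo a b)) {f g : ℝ → ℝ} (hf : f ∈ H10 a b) (hg : g ∈ H10 a b) :
    Integrable (fun x => deriv f x * deriv g x + V x * (f x * g x)) := by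
  have h1 : Integrable (fun x => deriv f x * deriv g x) := (H10_deriv_memLp hf).integrable_mul (H10_deriv_memLp hg)
  have h2 := (q_integrable hV ((H10 a b).add_mem hf hg)).1
  have h3 := (q_integrable hV hf).1
  have h4 := (q_integrable hV hg).1
  have h5 : (fun x => V x * (f x * g x)) = fun x => (1 / 2 : ℝ) * ((V x * (f + g) x ^ 2 - V x * f x ^ 2) - V x * g x ^ 2) := by
    funext x
    simp only [Pi.add_apply]
    ring
  refine h1.add ?_
  rw [h5]
  exact ((h2.sub h3).sub h4).const_mul _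

theorem ChanD_deriv_add {a b : ℝ} {f g : ℝ → ℝ} (hf : f ∈ H10 a b) (hg : g ∈ H10 a b) :
    ∀ᵐ x, deriv (f + g) x = deriv f x + deriv g x := by
  filter_upwards [H10_ae_deriv hf, H10_ae_deriv hg] with x h1 h2
  exact (h1.add h2).deriv

theorem ChanD_deriv_smul {a b : ℝ} {f : ℝ → ℝ} (hf : f ∈ H10 a b) (c : ℝ) :
    ∀ᵐ x, deriv (c • f) x = c * deriv f x := by
  filter_upwards [H10_ae_deriv hf] with x h1
  have h2 := (h1.const_mul c).deriv
  exact h2

/-- the bilinear form of `q V` on `H10 a b` -/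
noncomputable def ChanD_bil (a b : ℝ) (V : ℝ → ℝ) (hV : IntegrableOn V (Ioo a b)) : ↥(H10 a b) →ₗ[ℝ] ↥(H10 a b) →ₗ[ℝ] ℝ :=
  LinearMap.mk₂ ℝ (fun f g => ∫ x, (deriv (f : ℝ → ℝ) x * deriv (g : ℝ → ℝ) x + V x * ((f : ℝ → ℝ) x * (g : ℝ → ℝ) x)))
    (by
      rintro ⟨f, hf⟩ ⟨f', hf'⟩ ⟨g, hg⟩
      change ∫ x, (deriv (f + f') x * deriv g x + V x * ((f + f') x * g x)) = _
      rw [← integral_add (ChanD_integrable hV hf hg) (ChanD_integrable hV hf' hg)]
      refine integral_congr_ae ?_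
      filter_upwards [ChanD_deriv_add hf hf'] with x hx
      rw [hx, Pi.add_apply]
      ring)
    (by
      rintro c ⟨f, hf⟩ ⟨g, hg⟩
      change ∫ x, (deriv (c • f) x * deriv g x + V x * ((c • f) x * g x)) = c • _
      rw [smul_eq_mul, ← integral_const_mul]
      refine integral_congr_ae ?_
      filter_upwards [ChanD_deriv_smul hf c] with x hx
      rw [hx, Pi.smul_apply, smul_eq_mul]
      ring)
    (by
      rintro ⟨f, hf⟩ ⟨g, hg⟩ ⟨g', hg'⟩
      change ∫ x, (deriv f x * deriv (g + g') x + V x * (f x * (g + g') x)) = _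
      rw [← integral_add (ChanD_integrable hV hf hg) (ChanD_integrable hV hf hg')]
      refine integral_congr_ae ?_
      filter_upwards [ChanD_deriv_add hg hg'] with x hx
      rw [hx, Pi.add_apply]
      ring)
    (by
      rintro c ⟨f, hf⟩ ⟨g, hg⟩
      change ∫ x, (deriv f x * deriv (c • g) x + V x * (f x * (c • g) x)) = c • _
      rw [smul_eq_mul, ← integral_const_mul]
      refine integral_congr_ae ?_
      filter_upwards [ChanD_deriv_smul hg c] with x hx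
      rw [hx, Pi.smul_apply, smul_eq_mul]
      ring)

theorem ChanD_bil_self {a b : ℝ} {V : ℝ → ℝ} (hV : IntegrableOn V (Ioo a b)) (f : ↥(H10 a b)) :
    ChanD_bil a b V hV f f = q V f := by
  change ∫ x, _ = ∫ x, _
  refine integral_congr_ae (Filter.Eventually.of_forall fun x => ?_)
  change deriv (f : ℝ → ℝ) x * deriv (f : ℝ → ℝ) x + V x * ((f : ℝ → ℝ) x * (f : ℝ → ℝ) x) = _
  ring

theorem ChanD_bil_comm {a b : ℝ} {V : ℝ → ℝ} (hV : IntegrableOn V (Ioo a b)) (f g : ↥(H10 a b)) :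
    ChanD_bil a b V hV f g = ChanD_bil a b V hV g f := by
  change ∫ x, _ = ∫ x, _
  refine integral_congr_ae (Filter.Eventually.of_forall fun x => ?_)
  change deriv (f : ℝ → ℝ) x * deriv (g : ℝ → ℝ) x + V x * ((f : ℝ → ℝ) x * (g : ℝ → ℝ) x) =
    deriv (g : ℝ → ℝ) x * deriv (f : ℝ → ℝ) x + V x * ((g : ℝ → ℝ) x * (f : ℝ → ℝ) x)
  ring

/-- orthogonality to a maximal negative space -/
theorem ChanD_nonneg {a b : ℝ} {V : ℝ → ℝ} (hV : IntegrableOn V (Ioo a b)) {n : ℕ} (hn : nneg a b V ≤ n)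
    {M : Submodule ℝ (ℝ → ℝ)} (hM : M ≤ H10 a b) (hfin : FiniteDimensional ℝ M) (hneg : ∀ f ∈ M, f ≠ 0 → q V f < 0)
    (hdim : Module.finrank ℝ M = n) (f : ↥(H10 a b))
    (horth : ∀ m (hm : m ∈ M), ChanD_bil a b V hV f ⟨m, hM hm⟩ = 0) : 0 ≤ q V f := by
  by_contra hcon
  rw [not_le] at hcon
  have hfM : (f : ℝ → ℝ) ∉ M := by
    intro h
    have h1 := horth _ h
    have h2 := ChanD_bil_self hV f
    rw [show (⟨(f : ℝ → ℝ), hM h⟩ : ↥(H10 a b)) = f from rfl, h2] at h1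
    exact hcon.ne h1
  have hf0 : (f : ℝ → ℝ) ≠ 0 := fun h => hfM (h ▸ M.zero_mem)
  -- the sum is negative
  have hexp : ∀ (m : ℝ → ℝ) (hm : m ∈ M) (c : ℝ), q V (m + c • (f : ℝ → ℝ)) = q V m + c ^ 2 * q V f := by
    intro m hm c
    have h1 := ChanD_bil_self hV (⟨m, hM hm⟩ + c • f)
    have h2 : q V (m + c • (f : ℝ → ℝ)) = ChanD_bil a b V hV (⟨m, hM hm⟩ + c • f) (⟨m, hM hm⟩ + c • f) := by
      rw [h1]; rfl
    rw [h2]
    simp only [map_add, map_smul, LinearMap.add_apply, LinearMap.smul_apply, smul_eq_mul]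
    rw [ChanD_bil_comm hV ⟨m, hM hm⟩ f, horth m hm, ChanD_bil_self hV f, ChanD_bil_self hV ⟨m, hM hm⟩]
    ring
  set M' : Submodule ℝ (ℝ → ℝ) := M ⊔ Submodule.span ℝ {(f : ℝ → ℝ)} with hM'
  have hM'le : M' ≤ H10 a b := by
    refine sup_le hM ?_
    rw [Submodule.span_singleton_le_iff_mem]
    exact f.2
  have hfin' : FiniteDimensional ℝ M' := by
    rw [hM']
    infer_instance
  have hneg' : ∀ g ∈ M', g ≠ 0 → q V g < 0 := by
    intro g hg hg0
    obtain ⟨m, hm, w, hw, rfl⟩ := Submodule.mem_sup.1 hg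
    obtain ⟨c, rfl⟩ := Submodule.mem_span_singleton.1 hw
    rw [hexp m hm c]
    rcases eq_or_ne m 0 with rfl | hm0
    · have hc : c ≠ 0 := by
        rintro rfl
        exact hg0 (by simp)
      have h0 : q V (0 : ℝ → ℝ) = 0 := by
        have h1 := ChanD_bil_self hV (0 : ↥(H10 a b))
        have h2 : ((0 : ↥(H10 a b)) : ℝ → ℝ) = 0 := rfl
        rw [map_zero, h2] at h1
        exact h1.symm
      rw [h0, zero_add]
      exact mul_neg_of_pos_of_neg (by positivity) hcon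
    · have h1 := hneg m hm hm0
      have h2 : c ^ 2 * q V f ≤ 0 := mul_nonpos_of_nonneg_of_nonpos (sq_nonneg _) hcon.le
      linarith
  have hdim' : Module.finrank ℝ M' = n + 1 := by
    have h1 := Submodule.finrank_sup_add_finrank_inf_eq M (Submodule.span ℝ {(f : ℝ → ℝ)})
    have h2 : M ⊓ Submodule.span ℝ {(f : ℝ → ℝ)} = ⊥ := by
      rw [Submodule.eq_bot_iff]
      rintro x ⟨hx1, hx2⟩
      obtain ⟨c, rfl⟩ := Submodule.mem_span_singleton.1 hx2
      by_contra hc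
      have hc0 : c ≠ 0 := by
        rintro rfl
        exact hc (by simp)
      apply hfM
      have := M.smul_mem c⁻¹ hx1
      rwa [smul_smul, inv_mul_cancel₀ hc0, one_smul] at this
    rw [h2, finrank_bot, add_zero, hdim, finrank_span_singleton hf0] at h1
    exact h1
  have := (nneg_le_iff.1 hn) M' hM'le hfin' hneg'
  omega

theorem ChanD_continuous_ev (p : MvPolynomial (Fin 4) ℝ) : Continuous (ev p) := by
  have h : Continuous fun x : En 4 => MvPolynomial.eval (fun i => x i) p := by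
    have h1 : Continuous fun f : Fin 4 → ℝ => MvPolynomial.eval f p := MvPolynomial.continuous_eval p
    exact h1.comp (continuous_pi fun i => by fun_prop)
  exact h

theorem ChanD_comp_integrable {u : En 4 → ℝ} (hu : u ∈ Test 4) (p : MvPolynomial (Fin 4) ℝ) (t : ℝ) :
    Integrable (fun s : Metric.sphere (0 : En 4) 1 => Real.exp t * u (Real.exp t • (s : En 4)) * ev p s) sph := by
  have hc : Continuous u := hu.1.continuous
  have he := ChanD_continuous_ev p
  have h : Continuous (fun s : Metric.sphere (0 : En 4) 1 => Real.exp t * u (Real.exp t • (s : En 4)) * ev p s) := by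
    have h1 : Continuous (fun s : Metric.sphere (0 : En 4) 1 => Real.exp t • (s : En 4)) := by fun_prop
    have h2 : Continuous (fun s : Metric.sphere (0 : En 4) 1 => u (Real.exp t • (s : En 4))) := hc.comp h1
    have h3 : Continuous (fun s : Metric.sphere (0 : En 4) 1 => ev p s) := he.comp continuous_subtype_val
    exact (continuous_const.mul h2).mul h3
  exact h.integrable_of_hasCompactSupport (HasCompactSupport.of_compactSpace _)

theorem ChanD_comp_add {u v : En 4 → ℝ} (hu : u ∈ Test 4) (hv : v ∈ Test 4) (p : MvPolynomial (Fin 4) ℝ) :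
    comp (u + v) p = comp u p + comp v p := by
  funext t
  change ∫ s : Metric.sphere (0 : En 4) 1, Real.exp t * (u + v) (Real.exp t • (s : En 4)) * ev p s ∂sph =
    (∫ s : Metric.sphere (0 : En 4) 1, Real.exp t * u (Real.exp t • (s : En 4)) * ev p s ∂sph) +
      ∫ s : Metric.sphere (0 : En 4) 1, Real.exp t * v (Real.exp t • (s : En 4)) * ev p s ∂sph
  rw [← integral_add (ChanD_comp_integrable hu p t) (ChanD_comp_integrable hv p t)]
  refine integral_congr_ae (Filter.Eventually.of_forall fun s => ?_)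
  simp only [Pi.add_apply]
  ring

theorem ChanD_comp_smul (c : ℝ) (u : En 4 → ℝ) (p : MvPolynomial (Fin 4) ℝ) :
    comp (c • u) p = c • comp u p := by
  funext t
  change ∫ s : Metric.sphere (0 : En 4) 1, Real.exp t * (c • u) (Real.exp t • (s : En 4)) * ev p s ∂sph =
    c * (∫ s : Metric.sphere (0 : En 4) 1, Real.exp t * u (Real.exp t • (s : En 4)) * ev p s ∂sph)
  rw [← integral_const_mul]
  refine integral_congr_ae (Filter.Eventually.of_forall fun s => ?_)
  simp only [Pi.smul_apply, smul_eq_mul]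
  ring

/-- the component as a linear map -/
noncomputable def ChanD_comp {L : ℝ} (F : Submodule ℝ (En 4 → ℝ)) (hF : F ≤ Test 4) (hs : ∀ u ∈ F, tsupport u ⊆ Ann L)
    (p : MvPolynomial (Fin 4) ℝ) : ↥F →ₗ[ℝ] ↥(H10 (-L) L) where
  toFun u := ⟨comp u p, (comp_mem (hF u.2) (hs _ u.2) p).2.2⟩
  map_add' u v := Subtype.ext (ChanD_comp_add (hF u.2) (hF v.2) p)
  map_smul' c u := Subtype.ext (ChanD_comp_smul c u p)

theorem ChanD_pot_integrable {γ a b : ℝ} (hγ : 0 < γ) {U : ℝ → ℝ} (hU : Adm1 γ a b U) (k τ : ℝ) :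
    IntegrableOn (pot k τ U) (Ioo a b) := by
  have h1 : IntegrableOn U (Ioo a b) := by
    refine MemLp.integrable ?_ hU.2
    rw [← ENNReal.ofReal_one]
    exact ENNReal.ofReal_le_ofReal (by linarith)
  have h2 : IntegrableOn om (Ioo a b) := by
    have hc : Continuous om := by unfold om; fun_prop
    exact (hc.integrableOn_Icc).mono_set Ioo_subset_Icc_self
  have h3 : IntegrableOn (fun _ : ℝ => k ^ 2) (Ioo a b) := by
    rw [integrableOn_const_iff]
    right
    rw [Real.volume_Ioo]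
    exact ENNReal.ofReal_lt_top
  exact (h3.sub h1).add (h2.const_mul τ)

theorem channel {L : ℝ} (hL : 0 < L) {γ : ℝ} (hγ : 0 < γ) {W : En 4 → ℝ} (hW : Adm4 γ W) {U : ℝ → ℝ} (hU0 : ∀ t, 0 ≤ U t)
    (hU : ∀ x : En 4, x ≠ 0 → U (Real.log ‖x‖) = ‖x‖ ^ 2 * W x) {τ : ℝ} (hτ : 0 ≤ τ) :
    ((N4ann L W τ : ℕ∞) : ℝ≥0∞) ≤ Ntot (-L) L U τ := by
  obtain ⟨d, Y, hd, hY, hpars⟩ := exists_basis
  rcases eq_or_ne (Ntot (-L) L U τ) ⊤ with hT | hT
  · rw [hT]; exact le_top
  have hadm := (radial_J hγ hW hU0 hU hL).1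
  have hint : ∀ k : ℝ, IntegrableOn (pot k τ U) (Ioo (-L) L) := fun k => ChanD_pot_integrable hγ hadm k τ
  -- the numbers of negative eigenvalues are finite
  have hterm : ∀ l : ℕ, ((l : ℝ≥0∞) + 1) ^ 2 * ((nneg (-L) L (pot (l + 1) τ U) : ℕ∞) : ℝ≥0∞) ≤ Ntot (-L) L U τ :=
    fun l => ENNReal.le_tsum l
  have hnn : ∀ l : ℕ, ∃ n : ℕ, nneg (-L) L (pot (l + 1) τ U) = n := by
    intro l
    have h1 : nneg (-L) L (pot (l + 1) τ U) ≠ ⊤ := by
      intro h
      have h2 := hterm l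
      rw [h, ENat.toENNReal_top, ENNReal.mul_top (by positivity), top_le_iff] at h2
      exact hT h2
    obtain ⟨n, hn⟩ := ENat.ne_top_iff_exists.1 h1
    exact ⟨n, hn.symm⟩
  choose n hn using hnn
  have hTn : Ntot (-L) L U τ = ∑' l : ℕ, ((l : ℝ≥0∞) + 1) ^ 2 * (n l : ℝ≥0∞) := by
    unfold Ntot
    congr 1
    funext l
    rw [hn l]
    simp
  obtain ⟨K, hK⟩ : ∃ K : ℕ, ∀ l, K ≤ l → n l = 0 := by
    have h1 := ENNReal.tendsto_atTop_zero_of_tsum_ne_top (hTn ▸ hT)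
    have h2 := h1.eventually (gt_mem_nhds (show (0 : ℝ≥0∞) < 1 by norm_num))
    obtain ⟨K, hK⟩ := Filter.eventually_atTop.1 h2
    refine ⟨K, fun l hl => ?_⟩
    by_contra hne
    have h3 := hK l hl
    have h4 : (1 : ℝ≥0∞) ≤ ((l : ℝ≥0∞) + 1) ^ 2 * (n l : ℝ≥0∞) := by
      have h5 : (1 : ℝ≥0∞) ≤ (n l : ℝ≥0∞) := by
        exact_mod_cast Nat.one_le_iff_ne_zero.2 hne
      have h6 : (1 : ℝ≥0∞) ≤ ((l : ℝ≥0∞) + 1) ^ 2 := one_le_pow₀ le_add_self
      calc (1 : ℝ≥0∞) = 1 * 1 := (mul_one 1).symm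
        _ ≤ _ := mul_le_mul' h6 h5
    exact absurd h3 (not_lt.2 h4)
  -- maximal negative spaces
  have hM := fun l : ℕ => exists_of_le_nneg (a := -L) (b := L) (V := pot (l + 1) τ U) (n := n l) (hn l).ge
  choose M hM1 hM2 hM3 hM4 using hM
  have key : ∀ F : Submodule ℝ (En 4 → ℝ), (F ≤ Test 4 ∧ FiniteDimensional ℝ F ∧ (∀ u ∈ F, tsupport u ⊆ Ann L) ∧
      ∀ u ∈ F, u ≠ 0 → form4 W τ u < 0) → ((Module.finrank ℝ F : ℕ) : ℝ≥0∞) ≤ Ntot (-L) L U τ := by
    rintro F ⟨hF1, hF2, hF3, hF4⟩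
    by_contra hcon
    rw [not_le] at hcon
    set Ψ : ↥F →ₗ[ℝ] ((l : Fin K) → (i : Fin (d l)) → Module.Dual ℝ ↥(M l)) :=
      LinearMap.pi fun l => LinearMap.pi fun i =>
        (LinearMap.lcomp ℝ ℝ (Submodule.inclusion (hM1 l))) ∘ₗ
          ((ChanD_bil (-L) L (pot ((l : ℕ) + 1) τ U) (hint _)) ∘ₗ (ChanD_comp F hF1 hF3 (Y l i))) with hΨ
    have hfin : ∀ l : ℕ, Module.finrank ℝ (Module.Dual ℝ ↥(M l)) = n l := by
      intro l
      haveI := hM2 l
      rw [Subspace.dual_finrank_eq, hM4]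
    haveI : ∀ l : ℕ, FiniteDimensional ℝ ↥(M l) := hM2
    have hcod : Module.finrank ℝ ((l : Fin K) → (i : Fin (d l)) → Module.Dual ℝ ↥(M l)) < Module.finrank ℝ ↥F := by
      rw [Module.finrank_pi_fintype]
      have h1 : ∀ l : Fin K, Module.finrank ℝ ((i : Fin (d l)) → Module.Dual ℝ ↥(M l)) = d l * n l := by
        intro l
        rw [Module.finrank_pi_fintype]
        simp only [hfin, Finset.sum_const, Finset.card_univ, Fintype.card_fin, smul_eq_mul]
      have h2 : ∑ l : Fin K, Module.finrank ℝ ((i : Fin (d l)) → Module.Dual ℝ ↥(M l)) ≤ ∑ l ∈ Finset.range K, (l + 1) ^ 2 * n l := by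
        rw [← Fin.sum_univ_eq_sum_range (fun l => (l + 1) ^ 2 * n l) K]
        refine Finset.sum_le_sum fun l _ => ?_
        rw [h1 l]
        exact Nat.mul_le_mul_right _ (hd l)
      have h3 : ((∑ l ∈ Finset.range K, (l + 1) ^ 2 * n l : ℕ) : ℝ≥0∞) ≤ Ntot (-L) L U τ := by
        rw [hTn]
        push_cast
        exact ENNReal.sum_le_tsum _
      have h4 := h3.trans_lt hcon
      have h5 : (∑ l ∈ Finset.range K, (l + 1) ^ 2 * n l : ℕ) < Module.finrank ℝ ↥F := by exact_mod_cast h4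
      exact h2.trans_lt h5
    have hker := LinearMap.ker_ne_bot_of_finrank_lt (f := Ψ) hcod
    obtain ⟨u, hu, hu0⟩ := Submodule.exists_mem_ne_zero_of_ne_bot hker
    have hΨu : Ψ u = 0 := hu
    have hq : ∀ l i, i < d l → 0 ≤ q (pot ((l : ℝ) + 1) τ U) (comp u (Y l i)) := by
      intro l i hi
      have hc := ChanD_nonneg (hint ((l : ℝ) + 1)) (hn l).le (hM1 l) (hM2 l) (hM3 l) (hM4 l)
        (ChanD_comp F hF1 hF3 (Y l i) u)
      apply hc
      intro m hm
      rcases lt_or_ge l K with hl | hl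
      · have h1 := congrFun (congrFun hΨu ⟨l, hl⟩) ⟨i, hi⟩
        have h2 := LinearMap.congr_fun h1 ⟨m, hm⟩
        exact h2
      · have h1 : Module.finrank ℝ ↥(M l) = 0 := by rw [hM4, hK l hl]
        haveI := hM2 l
        have h2 : M l = ⊥ := Submodule.finrank_eq_zero.1 h1
        have h3 : m = 0 := by
          rw [h2] at hm
          exact (Submodule.mem_bot ℝ).1 hm
        subst h3
        have h4 : (⟨0, hM1 l hm⟩ : ↥(H10 (-L) L)) = 0 := rfl
        rw [h4, map_zero]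
    have hsum := form_parseval (hF1 u.2) (hF3 _ u.2) hγ hW hU τ hY hpars
    have h0 : 0 ≤ form4 W τ u := hsum.nonneg fun l => Finset.sum_nonneg fun i hi => hq l i (Finset.mem_range.1 hi)
    have h1 := hF4 u u.2 (fun h => hu0 (Subtype.ext h))
    linarith
  -- conclusion
  have hfl : N4ann L W τ ≤ ((⌊(Ntot (-L) L U τ).toReal⌋₊ : ℕ) : ℕ∞) := by
    refine iSup₂_le fun F hF => ?_
    have h1 := key F hF
    have h2 : ((Module.finrank ℝ F : ℕ) : ℝ) ≤ (Ntot (-L) L U τ).toReal := by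
      have := ENNReal.toReal_mono hT h1
      simpa using this
    exact_mod_cast Nat.le_floor h2
  have h2 : ((N4ann L W τ : ℕ∞) : ℝ≥0∞) ≤ ((⌊(Ntot (-L) L U τ).toReal⌋₊ : ℕ) : ℝ≥0∞) := by
    have := ENat.toENNReal_mono hfl
    simpa using this
  refine h2.trans ?_
  have h3 : (((⌊(Ntot (-L) L U τ).toReal⌋₊ : ℕ) : ℝ)) ≤ (Ntot (-L) L U τ).toReal := Nat.floor_le ENNReal.toReal_nonneg
  calc ((⌊(Ntot (-L) L U τ).toReal⌋₊ : ℕ) : ℝ≥0∞) = ENNReal.ofReal ((⌊(Ntot (-L) L U τ).toReal⌋₊ : ℕ) : ℝ) := (ENNReal.ofReal_natCast _).symm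
    _ ≤ ENNReal.ofReal (Ntot (-L) L U τ).toReal := ENNReal.ofReal_le_ofReal h3
    _ = Ntot (-L) L U τ := ENNReal.ofReal_toReal hT

end Pool.Agent.RLT40
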