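import Pool.Agent.RLT40.HarmDefs

/-!
# Modules CHAN1, CHAN2 (paper 2.A3): channel decomposition.

`comp u p t = ∫_S e^t u(e^t s) p(s) ds`.  CHAN1 `comp_props`: smooth, compactly supported in `(-L,L)`.
`grad_parseval`: `∫|∇u|² = -∫uΔu = -∫ r³dr∫_S u Δu`; Parseval on each sphere (uniformly bounded partial sums: `Σ|a_l b_l| ≤ ‖u(r·)‖‖Δu(r·)‖`, dominated convergence);
`(Δu)_{p}(r) = (∂_r² + (3/r)∂_r - l(l+2)/r²) u_p(r)`, `u_p(r) = ∫_S u(rs)p(s)ds`: test with `h ∈ C_c^∞(0,∞)`: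
`∫ h(r)(Δu)_p r³ dr = ∫ Δu · h(|x|)|x|^{-l}p(x) dx = ∫ u Δ(h(|x|)|x|^{-l}p) dx`, `Δ(f(|x|)p) = (f'' + (3+2l)f'/r)p` for harmonic homogeneous `p` (Euler `x·∇p = lp`);
then with `c(t) = e^t u_p(e^t)`: `-∫ u_p (Δu)_p r³dr = ∫ c'² + (l+1)²c² dt` (1D integration by parts).
`pot_parseval`: `∫ W u² dx = ∫ U(t) Σ c² dt` with `U(t) = e^{2t}w(e^t)` (Tonelli, polar coordinates), `∫u² = ∫ω Σc²`.
CHAN2 `channel`: in each channel `k = l+1 ≤ K` with `nneg = n_k`, maximal negative space `M_k`; the `q`-orthogonality to `M_k` of `comp u Y_{l,i}` is `n_k` linear conditions and implies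
`q(pot k τ U)(comp) ≥ 0` (else `M_k + span` is a larger negative space); for `k > K` `nneg = 0` (as `Ntot < ⊤`).  Total number of conditions `≤ Σk²n_k = Ntot`.
-/

open MeasureTheory Set
open scoped ENNReal NNReal

namespace Pool.Agent.RLT40

/-- component of `u` along the polynomial `p` in logarithmic radial coordinates -/
noncomputable def comp (u : En 4 → ℝ) (p : MvPolynomial (Fin 4) ℝ) (t : ℝ) : ℝ :=
  ∫ s : Metric.sphere (0 : En 4) 1, Real.exp t * u (Real.exp t • (s : En 4)) * ev p s ∂sph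

end Pool.Agent.RLT40
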