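import Mathlib

/-!
# MP_d5a362_mp : definitions of the problem

`Rn n γ` and `Rrad n γ` are the suprema `R_n(γ)` and `R_n^rad(γ)` of the problem.  The eigenvalues `e_0 ≤ e_1 ≤ ...` of `-Δ + V`
below the essential spectrum are the Courant-Fischer min-max values over the form core of test functions.
-/

open MeasureTheory Set
open scoped ENNReal NNReal

namespace Pool.Agent.RLT40

/-- Euclidean space `ℝ^n`. -/
abbrev En (n : ℕ) := EuclideanSpace ℝ (Fin n)

/-- Test functions: smooth real functions with compact support. -/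
def Test (n : ℕ) : Submodule ℝ (En n → ℝ) where
  carrier := {u | ContDiff ℝ (⊤ : ℕ∞) u ∧ HasCompactSupport u}
  add_mem' := fun ha hb => ⟨ha.1.add hb.1, ha.2.add hb.2⟩
  zero_mem' := ⟨contDiff_const, HasCompactSupport.zero⟩
  smul_mem' := fun c _ hu => ⟨contDiff_const.smul hu.1, hu.2.smul_left (f := fun _ => c)⟩

/-- The quadratic form `∫ |∇u|² + V u²` of the Schrödinger operator `-Δ + V` at a test function. -/
noncomputable def energy {n : ℕ} (V : En n → ℝ) (u : En n → ℝ) : ℝ :=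
  ∫ x, (‖gradient u x‖ ^ 2 + V x * u x ^ 2)

/-- The `j`-th eigenvalue `e_j(V)` (`j = 0, 1, ...`, counted with multiplicity) of `-Δ + V`, given by the Courant-Fischer
min-max principle: infimum over the `(j+1)`-dimensional spaces of test functions of the maximum of the energy over the unit
sphere of `L²`.  (For the potentials considered, the essential spectrum lies in `[0, ∞)`; the negative values of `eig V j` are
exactly the negative eigenvalues.) -/
noncomputable def eig {n : ℕ} (V : En n → ℝ) (j : ℕ) : EReal :=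
  ⨅ (F : Submodule ℝ (En n → ℝ)) (_ : F ≤ Test n ∧ Module.finrank ℝ F = j + 1),
    ⨆ (u : En n → ℝ) (_ : u ∈ F ∧ ∫ x, u x ^ 2 = 1), ((energy V u : ℝ) : EReal)

/-- `|t|_-^γ` for `t ∈ [-∞, ∞]`; it is `0` for `t ≥ 0` also when `γ = 0`. -/
noncomputable def negPow (γ : ℝ) (t : EReal) : ℝ≥0∞ :=
  if t < 0 then (-t).toENNReal ^ γ else 0

/-- Numerator `∑_j |e_j(V)|_-^γ`. -/
noncomputable def riesz {n : ℕ} (γ : ℝ) (V : En n → ℝ) : ℝ≥0∞ := ∑' j : ℕ, negPow γ (eig V j)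

/-- Denominator: the phase space integral `∫ (2π)^{-n} dx dp |p² + V(x)|_-^γ`. -/
noncomputable def phase {n : ℕ} (γ : ℝ) (V : En n → ℝ) : ℝ≥0∞ :=
  ENNReal.ofReal ((2 * Real.pi) ^ (-(n : ℝ))) *
    ∫⁻ x : En n, ∫⁻ p : En n, negPow γ (((‖p‖ ^ 2 + V x : ℝ)) : EReal)

/-- The class of potentials: `V_+ ∈ L¹_loc`, `V_- ∈ L^{γ+n/2}`, `V_- ≢ 0`. -/
def Adm {n : ℕ} (γ : ℝ) (V : En n → ℝ) : Prop :=
  LocallyIntegrable (fun x => max (V x) 0) ∧
    MemLp (fun x => max (-V x) 0) (ENNReal.ofReal (γ + n / 2)) ∧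
    ¬ (∀ᵐ x, max (-V x) 0 = 0)

/-- `R_n(γ, V)`. -/
noncomputable def ratio {n : ℕ} (γ : ℝ) (V : En n → ℝ) : ℝ≥0∞ := riesz γ V / phase γ V

/-- `R_n(γ)`. -/
noncomputable def Rn (n : ℕ) (γ : ℝ) : ℝ≥0∞ := ⨆ (V : En n → ℝ) (_ : Adm γ V), ratio γ V

/-- `R_n^rad(γ)`: supremum over the radial potentials (`n = 1`: even potentials). -/
noncomputable def Rrad (n : ℕ) (γ : ℝ) : ℝ≥0∞ :=
  ⨆ (V : En n → ℝ) (_ : Adm γ V ∧ ∀ x y, ‖x‖ = ‖y‖ → V x = V y), ratio γ V

end Pool.Agent.RLT40
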