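import Pool.Agent.RLT40.OneD

/-!
# Module ODE: linear second order equations `f'' = V f`, `V` continuous, on the whole line.

Proofs.  `exists_sol`: rewrite as a first order system in `ℝ × ℝ`, Picard-Lindeloef on `[-n,n]` (linear, so global Lipschitz
constant; or Picard iteration / Volterra), glue by uniqueness.  `unique`: Gronwall.  The rest is elementary.
-/

open MeasureTheory Set
open scoped ENNReal NNReal

namespace Pool.Agent.RLT40

open Filter Topology in
theorem OdeB_gron {a b K δ ε : ℝ} (hK : 1 ≤ K) {V V' f g f' g' : ℝ → ℝ} (h : Sol V f g)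
    (h' : Sol V' f' g') (hV : ∀ t ∈ Icc a b, |V t| ≤ K)
    (hVV : ∀ t ∈ Icc a b, |V' t - V t| * |f' t| ≤ ε) (h0 : |f' a - f a| ≤ δ)
    (h1 : |g' a - g a| ≤ δ) :
    ∀ t ∈ Icc a b, |f' t - f t| ≤ (δ + ε) * Real.exp (K * (b - a)) ∧
      |g' t - g t| ≤ (δ + ε) * Real.exp (K * (b - a)) := by
  intro t ht
  have hab : a ≤ b := ht.1.trans ht.2
  have hK0 : 0 ≤ K := zero_le_one.trans hK
  have hδ : 0 ≤ δ := (abs_nonneg _).trans h0
  have hε : 0 ≤ ε := le_trans (by positivity) (hVV t ht)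
  let v : ℝ → ℝ × ℝ → ℝ × ℝ := fun t z => (z.2, V t * z.1)
  let KK : ℝ≥0 := ⟨K, hK0⟩
  have hv : ∀ t ∈ Ico a b, LipschitzOnWith KK (v t) univ := by
    intro s hs
    refine LipschitzOnWith.of_dist_le_mul fun z _ w _ => ?_
    rw [Prod.dist_eq, Prod.dist_eq]
    have hKK : (KK : ℝ) = K := rfl
    rw [hKK]
    refine max_le ?_ ?_
    · change dist z.2 w.2 ≤ _
      calc dist z.2 w.2 ≤ max (dist z.1 w.1) (dist z.2 w.2) := le_max_right _ _
        _ ≤ K * max (dist z.1 w.1) (dist z.2 w.2) :=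
          le_mul_of_one_le_left (le_max_of_le_left dist_nonneg) hK
    · change dist (V s * z.1) (V s * w.1) ≤ _
      rw [Real.dist_eq, ← mul_sub, abs_mul]
      exact mul_le_mul (hV s ⟨hs.1, hs.2.le⟩) (le_max_left _ _) (abs_nonneg _) hK0
  have hd : ∀ (W : ℝ → ℝ) (p q : ℝ → ℝ), Sol W p q → ∀ s,
      HasDerivAt (fun s => (p s, q s)) (q s, W s * p s) s :=
    fun W p q hs s => (hs.d1 s).prodMk (hs.d2 s)
  have key := dist_le_of_approx_trajectories_ODE_of_mem (v := v) (K := KK) (s := fun _ => univ)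
    (f := fun s => (f' s, g' s)) (g := fun s => (f s, g s)) (f' := fun s => (g' s, V' s * f' s))
    (g' := fun s => (g s, V s * f s)) (a := a) (b := b) (εf := ε) (εg := 0) (δ := δ) hv
    (fun s _ => (hd _ _ _ h' s).continuousAt.continuousWithinAt)
    (fun s _ => (hd _ _ _ h' s).hasDerivWithinAt)
    (fun s hs => by
      rw [Prod.dist_eq]
      refine max_le ?_ ?_
      · change dist (g' s) (g' s) ≤ ε
        rw [dist_self]; exact hε
      · change dist (V' s * f' s) (V s * f' s) ≤ ε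
        rw [Real.dist_eq, ← sub_mul, abs_mul]
        exact hVV s ⟨hs.1, hs.2.le⟩)
    (fun s _ => trivial)
    (fun s _ => (hd _ _ _ h s).continuousAt.continuousWithinAt)
    (fun s _ => (hd _ _ _ h s).hasDerivWithinAt)
    (fun s hs => by
      change dist (g s, V s * f s) (g s, V s * f s) ≤ 0
      rw [dist_self])
    (fun s _ => trivial)
    (by
      rw [Prod.dist_eq]
      exact max_le h0 h1) t ht
  have hb : gronwallBound δ KK (ε + 0) (t - a) ≤ (δ + ε) * Real.exp (K * (b - a)) := by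
    have hKK : (KK : ℝ) = K := rfl
    rw [gronwallBound_of_K_ne_0 (by rw [hKK]; linarith), hKK, add_zero]
    have e1 : Real.exp (K * (t - a)) ≤ Real.exp (K * (b - a)) :=
      Real.exp_le_exp.2 (mul_le_mul_of_nonneg_left (by linarith [ht.2]) hK0)
    have e2 : 1 ≤ Real.exp (K * (t - a)) :=
      Real.one_le_exp (mul_nonneg hK0 (by linarith [ht.1]))
    have e3 : ε / K ≤ ε := div_le_self hε hK
    calc δ * Real.exp (K * (t - a)) + ε / K * (Real.exp (K * (t - a)) - 1)
        ≤ δ * Real.exp (K * (b - a)) + ε * Real.exp (K * (b - a)) := by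
          refine add_le_add (mul_le_mul_of_nonneg_left e1 hδ) ?_
          exact mul_le_mul e3 (by linarith) (by linarith) hε
      _ = _ := by ring
  rw [Prod.dist_eq] at key
  exact ⟨(le_max_left _ _).trans (key.trans hb), (le_max_right _ _).trans (key.trans hb)⟩

/-- two-sided version -/
theorem OdeB_gron2 {x0 R K δ ε : ℝ} (hK : 1 ≤ K) {V V' f g f' g' : ℝ → ℝ} (h : Sol V f g)
    (h' : Sol V' f' g') (hV : ∀ t ∈ Icc (x0 - R) (x0 + R), |V t| ≤ K)
    (hVV : ∀ t ∈ Icc (x0 - R) (x0 + R), |V' t - V t| * |f' t| ≤ ε) (h0 : |f' x0 - f x0| ≤ δ)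
    (h1 : |g' x0 - g x0| ≤ δ) :
    ∀ t ∈ Icc (x0 - R) (x0 + R), |f' t - f t| ≤ (δ + ε) * Real.exp (K * R) ∧
      |g' t - g t| ≤ (δ + ε) * Real.exp (K * R) := by
  intro t ht
  have hR : 0 ≤ R := by linarith [ht.1, ht.2]
  rcases le_total x0 t with hx | hx
  · have := OdeB_gron (a := x0) (b := x0 + R) hK h h'
      (fun s hs => hV s ⟨by linarith [hs.1], hs.2⟩) (fun s hs => hVV s ⟨by linarith [hs.1], hs.2⟩)
      h0 h1 t ⟨hx, ht.2⟩
    rwa [add_sub_cancel_left] at this
  · have refl : ∀ (W p q : ℝ → ℝ), Sol W p q →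
        Sol (fun s => W (-s)) (fun s => p (-s)) (fun s => -q (-s)) := by
      intro W p q hs
      refine ⟨fun s => ?_, fun s => ?_⟩
      · have h3 : HasDerivAt (fun s => p (-s)) (q (-s) * (-1)) s :=
          HasDerivAt.comp s (hs.d1 (-s)) (hasDerivAt_neg s)
        rwa [mul_neg_one] at h3
      · have h3 : HasDerivAt (fun s => q (-s)) (W (-s) * p (-s) * (-1)) s :=
          HasDerivAt.comp s (hs.d2 (-s)) (hasDerivAt_neg s)
        have h4 : HasDerivAt (fun s => -q (-s)) (-(W (-s) * p (-s) * (-1))) s := h3.neg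
        rwa [mul_neg_one, neg_neg] at h4
    have := OdeB_gron (a := -x0) (b := -x0 + R) hK (refl _ _ _ h) (refl _ _ _ h')
      (fun s hs => hV (-s) ⟨by linarith [hs.2], by linarith [hs.1]⟩)
      (fun s hs => hVV (-s) ⟨by linarith [hs.2], by linarith [hs.1]⟩)
      (δ := δ) (by simpa using h0)
      (by
        rw [neg_neg]
        rwa [show -g' x0 - -g x0 = -(g' x0 - g x0) by ring, abs_neg]) (-t)
      ⟨by linarith, by linarith [ht.1]⟩
    rw [add_sub_cancel_left, neg_neg] at this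
    refine ⟨this.1, ?_⟩
    rw [show g' t - g t = -(-g' t - -g t) by ring, abs_neg]
    exact this.2

open Filter Topology in
/-- continuity in a parameter: Gronwall -/
theorem sol_param {V : ℝ → ℝ → ℝ} (hV : Continuous (Function.uncurry V)) {f g : ℝ → ℝ → ℝ}
    (h : ∀ κ, Sol (V κ) (f κ) (g κ)) (x0 : ℝ) (h0 : Continuous fun κ => f κ x0) (h1 : Continuous fun κ => g κ x0) :
    Continuous (Function.uncurry f) ∧ Continuous (Function.uncurry g) := by
  -- uniform closeness on compact sets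
  have key : ∀ (κ0 R η : ℝ), 0 < R → 0 < η → ∀ᶠ κ in 𝓝 κ0, ∀ t ∈ Icc (x0 - R) (x0 + R),
      |f κ t - f κ0 t| ≤ η ∧ |g κ t - g κ0 t| ≤ η := by
    intro κ0 R η hR hη
    obtain ⟨K0, hK0⟩ : ∃ K0, ∀ z ∈ Icc (κ0 - 1) (κ0 + 1) ×ˢ Icc (x0 - R) (x0 + R),
        |Function.uncurry V z| ≤ K0 := by
      obtain ⟨C, hC⟩ := ((isCompact_Icc (a := κ0 - 1) (b := κ0 + 1)).prod
        (isCompact_Icc (a := x0 - R) (b := x0 + R))).exists_bound_of_continuousOn hV.continuousOn
      exact ⟨C, fun z hz => by simpa using hC z hz⟩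
    obtain ⟨B0, hB0⟩ : ∃ B0, ∀ t ∈ Icc (x0 - R) (x0 + R), |f κ0 t| ≤ B0 := by
      have hc : Continuous (f κ0) := continuous_iff_continuousAt.2 fun x => ((h κ0).d1 x).continuousAt
      obtain ⟨C, hC⟩ := (isCompact_Icc (a := x0 - R) (b := x0 + R)).exists_bound_of_continuousOn
        hc.continuousOn
      exact ⟨C, fun z hz => by simpa using hC z hz⟩
    set K := max 1 K0 with hKdef
    set B := max 1 B0 with hBdef
    have hK1 : 1 ≤ K := le_max_left _ _
    have hB1 : 1 ≤ B := le_max_left _ _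
    set δ := η / (2 * Real.exp (K * R)) with hδdef
    have hδ : 0 < δ := by positivity
    have hprod : (δ + δ) * Real.exp (K * R) = η := by
      rw [hδdef]; field_simp; norm_num
    have e1 : ∀ᶠ κ in 𝓝 κ0, |f κ x0 - f κ0 x0| < δ := by
      have := (h0.tendsto κ0).sub_const (f κ0 x0)
      rw [sub_self] at this
      have := this.abs
      rw [abs_zero] at this
      exact this.eventually_lt_const hδ
    have e2 : ∀ᶠ κ in 𝓝 κ0, |g κ x0 - g κ0 x0| < δ := by
      have := (h1.tendsto κ0).sub_const (g κ0 x0)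
      rw [sub_self] at this
      have := this.abs
      rw [abs_zero] at this
      exact this.eventually_lt_const hδ
    have e3 : ∀ᶠ κ in 𝓝 κ0, ∀ t ∈ Icc (x0 - R) (x0 + R), |V κ t - V κ0 t| * B < δ := by
      apply isCompact_Icc.eventually_forall_of_forall_eventually
      intro t _
      have hcont : Continuous fun z : ℝ × ℝ => |V z.1 z.2 - V κ0 z.2| * B := by
        have c1 : Continuous fun z : ℝ × ℝ => V z.1 z.2 := hV
        have c2 : Continuous fun z : ℝ × ℝ => V κ0 z.2 :=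
          hV.comp (continuous_const.prodMk continuous_snd)
        exact (c1.sub c2).abs.mul continuous_const
      have := hcont.tendsto (κ0, t)
      simp only [sub_self, abs_zero, zero_mul] at this
      exact this.eventually_lt_const hδ
    have e4 : ∀ᶠ κ in 𝓝 κ0, κ ∈ Icc (κ0 - 1) (κ0 + 1) :=
      Icc_mem_nhds (by linarith) (by linarith)
    filter_upwards [e1, e2, e3, e4] with κ w1 w2 w3 w4
    have := OdeB_gron2 (x0 := x0) (R := R) (K := K) (δ := δ) (ε := δ) hK1 (h κ) (h κ0)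
      (fun t ht => (hK0 (κ, t) ⟨w4, ht⟩).trans (le_max_right _ _))
      (fun t ht => by
        have a1 := w3 t ht
        rw [abs_sub_comm] at a1
        exact (mul_le_mul_of_nonneg_left ((hB0 t ht).trans (le_max_right _ _))
          (abs_nonneg _)).trans a1.le)
      (by rw [abs_sub_comm]; exact w1.le) (by rw [abs_sub_comm]; exact w2.le)
    intro t ht
    have ha := this t ht
    rw [hprod, abs_sub_comm, abs_sub_comm (g κ0 t)] at ha
    exact ha
  have fin : ∀ (F : ℝ → ℝ → ℝ), (∀ κ, Continuous (F κ)) →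
      (∀ (κ0 R η : ℝ), 0 < R → 0 < η → ∀ᶠ κ in 𝓝 κ0, ∀ t ∈ Icc (x0 - R) (x0 + R),
        |F κ t - F κ0 t| ≤ η) → Continuous (Function.uncurry F) := by
    intro F hc hF
    rw [continuous_iff_continuousAt]
    rintro ⟨κ0, x1⟩
    rw [ContinuousAt, Metric.tendsto_nhds]
    intro η hη
    have hR : 0 < |x1 - x0| + 1 := by positivity
    have a1 := hF κ0 (|x1 - x0| + 1) (η / 2) hR (by positivity)
    have a2 : ∀ᶠ x in 𝓝 x1, dist (F κ0 x) (F κ0 x1) < η / 2 :=
      Metric.tendsto_nhds.1 ((hc κ0).tendsto x1) _ (by positivity)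
    have a3 : ∀ᶠ x in 𝓝 x1, x ∈ Icc (x0 - (|x1 - x0| + 1)) (x0 + (|x1 - x0| + 1)) := by
      apply Icc_mem_nhds
      · linarith [neg_abs_le (x1 - x0)]
      · linarith [le_abs_self (x1 - x0)]
    rw [nhds_prod_eq]
    filter_upwards [a1.prod_mk (a2.and a3)] with z hz
    obtain ⟨b1, b2, b3⟩ := hz
    have b4 := b1 z.2 b3
    change dist (F z.1 z.2) (F κ0 x1) < η
    calc dist (F z.1 z.2) (F κ0 x1) ≤ dist (F z.1 z.2) (F κ0 z.2) + dist (F κ0 z.2) (F κ0 x1) :=
          dist_triangle _ _ _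
      _ < η / 2 + η / 2 := add_lt_add_of_le_of_lt b4 b2
      _ = η := by ring
  refine ⟨fin f (fun κ => continuous_iff_continuousAt.2 fun x => ((h κ).d1 x).continuousAt)
    fun κ0 R η hR hη => (key κ0 R η hR hη).mono fun κ hκ t ht => (hκ t ht).1,
    fin g (fun κ => continuous_iff_continuousAt.2 fun x => ((h κ).d2 x).continuousAt)
    fun κ0 R η hR hη => (key κ0 R η hR hη).mono fun κ hκ t ht => (hκ t ht).2⟩

open Filter Topology in
/-- comparison: `u'' ≥ c u`, `w'' ≤ c w`, `c > 0` inside, `u ≤ w` at the ends, so `u ≤ w`.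
(At a negative minimum of `w - u` the second derivative would be negative.) -/
theorem comparison {x y : ℝ} (hxy : x ≤ y) {c u u1 u2 w w1 w2 : ℝ → ℝ}
    (hu : ContinuousOn u (Icc x y)) (hw : ContinuousOn w (Icc x y))
    (hu1 : ∀ t ∈ Ioo x y, HasDerivAt u (u1 t) t) (hu2 : ∀ t ∈ Ioo x y, HasDerivAt u1 (u2 t) t)
    (hw1 : ∀ t ∈ Ioo x y, HasDerivAt w (w1 t) t) (hw2 : ∀ t ∈ Ioo x y, HasDerivAt w1 (w2 t) t)
    (hc : ∀ t ∈ Ioo x y, 0 < c t) (h1 : ∀ t ∈ Ioo x y, c t * u t ≤ u2 t) (h2 : ∀ t ∈ Ioo x y, w2 t ≤ c t * w t)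
    (hx : u x ≤ w x) (hy : u y ≤ w y) : ∀ t ∈ Icc x y, u t ≤ w t := by
  by_contra hcon
  push Not at hcon
  obtain ⟨t0, ht0, hlt⟩ := hcon
  obtain ⟨s, hs, hmin⟩ := (isCompact_Icc (a := x) (b := y)).exists_isMinOn ⟨t0, ht0⟩ (hw.sub hu)
  have hle : w s - u s ≤ w t0 - u t0 := hmin ht0
  have hneg : w s - u s < 0 := by linarith
  have hsx : s ≠ x := by
    rintro rfl
    linarith
  have hsy : s ≠ y := by
    rintro rfl
    linarith
  have hs' : s ∈ Ioo x y := ⟨lt_of_le_of_ne hs.1 (Ne.symm hsx), lt_of_le_of_ne hs.2 hsy⟩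
  have hnhds : Ioo x y ∈ 𝓝 s := isOpen_Ioo.mem_nhds hs'
  have hlocmin : IsLocalMin (fun t => w t - u t) s :=
    hmin.isLocalMin (Icc_mem_nhds hs'.1 hs'.2)
  have hd1 : ∀ t ∈ Ioo x y, HasDerivAt (fun t => w t - u t) (w1 t - u1 t) t :=
    fun t ht => (hw1 t ht).sub (hu1 t ht)
  have hd2 : HasDerivAt (fun t => w1 t - u1 t) (w2 s - u2 s) s := (hw2 s hs').sub (hu2 s hs')
  have hzero : deriv (fun t => w t - u t) s = 0 := hlocmin.deriv_eq_zero
  have hevd : deriv (fun t => w t - u t) =ᶠ[𝓝 s] fun t => w1 t - u1 t := by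
    filter_upwards [hnhds] with t ht
    exact (hd1 t ht).deriv
  have hdd : deriv (deriv fun t => w t - u t) s = w2 s - u2 s := by
    rw [hevd.deriv_eq]
    exact hd2.deriv
  have hlt2 : w2 s - u2 s < 0 := by
    have a1 := h1 s hs'
    have a2 := h2 s hs'
    have a3 := mul_neg_of_pos_of_neg (hc s hs') hneg
    nlinarith
  have hlocmax : IsLocalMax (fun t => w t - u t) s :=
    isLocalMax_of_deriv_deriv_neg (by rw [hdd]; exact hlt2) hzero (hd1 s hs').continuousAt
  -- constant near `s`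
  have hconst : (fun t => w t - u t) =ᶠ[𝓝 s] fun _ => w s - u s := by
    filter_upwards [hlocmin, hlocmax] with t a1 a2
    exact le_antisymm a2 a1
  have hder : deriv (fun t => w t - u t) =ᶠ[𝓝 s] fun _ => 0 := by
    have := hconst.eventuallyEq_nhds
    filter_upwards [this] with t ht
    rw [ht.deriv_eq]
    simp
  have : deriv (deriv fun t => w t - u t) s = 0 := by
    rw [hder.deriv_eq]
    simp
  rw [hdd] at this
  linarith

/-- 1.7: if `f'' ≥ ν² f` on `(x,y)`, `f(x), f(y) ≥ 0`, then `f(t) ≤ f(x) e^{-ν(t-x)} + f(y) e^{-ν(y-t)}`. -/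
theorem max_principle {x y ν : ℝ} (hxy : x ≤ y) (hν : 0 < ν) {f f1 f2 : ℝ → ℝ} (hf : ContinuousOn f (Icc x y))
    (hf1 : ∀ t ∈ Ioo x y, HasDerivAt f (f1 t) t) (hf2 : ∀ t ∈ Ioo x y, HasDerivAt f1 (f2 t) t)
    (h : ∀ t ∈ Ioo x y, ν ^ 2 * f t ≤ f2 t) (hx : 0 ≤ f x) (hy : 0 ≤ f y) :
    ∀ t ∈ Icc x y, f t ≤ f x * Real.exp (-(ν * (t - x))) + f y * Real.exp (-(ν * (y - t))) := by
  have e1 : ∀ t, HasDerivAt (fun t => Real.exp (-(ν * (t - x)))) (-ν * Real.exp (-(ν * (t - x)))) t := by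
    intro t
    have a1 : HasDerivAt (fun t => t - x) 1 t := (hasDerivAt_id' t).sub_const x
    have a2 : HasDerivAt (fun t => -(ν * (t - x))) (-(ν * 1)) t := (a1.const_mul ν).fun_neg
    have a3 := a2.exp
    rwa [mul_one, mul_comm] at a3
  have e2 : ∀ t, HasDerivAt (fun t => Real.exp (-(ν * (y - t)))) (ν * Real.exp (-(ν * (y - t)))) t := by
    intro t
    have a1 : HasDerivAt (fun t => y - t) (-1) t := (hasDerivAt_id' t).const_sub y
    have a2 : HasDerivAt (fun t => -(ν * (y - t))) (-(ν * (-1))) t := (a1.const_mul ν).fun_neg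
    have a3 := a2.exp
    rwa [mul_neg_one, neg_neg, mul_comm] at a3
  have d1 : ∀ t, HasDerivAt (fun t => f x * Real.exp (-(ν * (t - x))) + f y * Real.exp (-(ν * (y - t))))
      (-ν * (f x * Real.exp (-(ν * (t - x)))) + ν * (f y * Real.exp (-(ν * (y - t))))) t := by
    intro t
    have a1 := ((e1 t).const_mul (f x)).fun_add ((e2 t).const_mul (f y))
    have a2 : f x * (-ν * Real.exp (-(ν * (t - x)))) + f y * (ν * Real.exp (-(ν * (y - t)))) =
      -ν * (f x * Real.exp (-(ν * (t - x)))) + ν * (f y * Real.exp (-(ν * (y - t)))) := by ring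
    rwa [a2] at a1
  have d2 : ∀ t, HasDerivAt (fun t => -ν * (f x * Real.exp (-(ν * (t - x)))) +
      ν * (f y * Real.exp (-(ν * (y - t)))))
      (ν ^ 2 * (f x * Real.exp (-(ν * (t - x))) + f y * Real.exp (-(ν * (y - t))))) t := by
    intro t
    have a1 := (((e1 t).const_mul (f x)).const_mul (-ν)).fun_add (((e2 t).const_mul (f y)).const_mul ν)
    have a2 : -ν * (f x * (-ν * Real.exp (-(ν * (t - x))))) + ν * (f y * (ν * Real.exp (-(ν * (y - t))))) =
      ν ^ 2 * (f x * Real.exp (-(ν * (t - x))) + f y * Real.exp (-(ν * (y - t)))) := by ring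
    rwa [a2] at a1
  refine comparison hxy hf (fun t _ => (d1 t).continuousAt.continuousWithinAt) hf1 hf2
    (fun t _ => d1 t) (fun t _ => d2 t) (c := fun _ => ν ^ 2) (fun t _ => by positivity) h
    (fun t _ => le_refl _) ?_ ?_
  · have : 0 ≤ f y * Real.exp (-(ν * (y - x))) := by positivity
    simp only [sub_self, mul_zero, neg_zero, Real.exp_zero, mul_one]
    linarith
  · have : 0 ≤ f x * Real.exp (-(ν * (y - x))) := by positivity
    simp only [sub_self, mul_zero, neg_zero, Real.exp_zero, mul_one]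
    linarith

end Pool.Agent.RLT40
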