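import Pool.Agent.RLT40.OdeA
import Pool.Agent.RLT40.OdeB

/-!
# Modules GN1, GN2, GN3 (paper 2.A5): the one-state problem.

GN3, `t → -∞`: `f` is bounded, `U ≤ 3/4` far left, so `f ≤ C e^{t/2}` by max_principle;
`A = ½e^t(f-g)`, `A' = ½e^t(U-ω)f`, `B = ½e^{-t}(f+g)`, `B' = ½e^{-t}(ω-U)f`, `f = Ae^{-t} + Be^t`:
`B` is bounded, `|A| ≤ Ce^{5t/2}`, hence `f ≤ Ce^t`, `U ≤ Ce^{2t}` and `|A| ≤ Ce^{4t}`.
-/

open MeasureTheory Set Filter Topology
open scoped ENNReal NNReal

namespace Pool.Agent.RLT40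

/-- a function with small derivative is bounded to the left -/
theorem gnd_bdd {F F' : ℝ → ℝ} {K c : ℝ} (hc : 0 < c) (h : ∀ t, HasDerivAt F (F' t) t)
    (hF : ∀ t ≤ 0, |F' t| ≤ K * c * Real.exp (c * t)) {x t : ℝ} (hxt : x ≤ t) (ht : t ≤ 0) :
    |F t - F x| ≤ K * Real.exp (c * t) - K * Real.exp (c * x) := by
  have hE : ∀ s, HasDerivAt (fun s => K * Real.exp (c * s)) (K * c * Real.exp (c * s)) s := by
    intro s
    have h1 : HasDerivAt (fun s => c * s) c s := by simpa using (hasDerivAt_id s).const_mul c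
    have h2 := (h1.exp).const_mul K
    refine h2.congr_deriv ?_
    ring
  have h1 : MonotoneOn (fun s => K * Real.exp (c * s) + F s) (Icc x t) := by
    refine monotoneOn_of_deriv_nonneg (convex_Icc _ _) ?_ ?_ ?_
    · exact fun s _ => ((hE s).add (h s)).continuousAt.continuousWithinAt
    · exact fun s _ => ((hE s).add (h s)).differentiableAt.differentiableWithinAt
    · intro s hs
      rw [interior_Icc] at hs
      have h5 : HasDerivAt (fun s => K * Real.exp (c * s) + F s)
        (K * c * Real.exp (c * s) + F' s) s := (hE s).add (h s)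
      rw [h5.deriv]
      have := (abs_le.1 (hF s (hs.2.le.trans ht))).1
      linarith
  have h2 : MonotoneOn (fun s => K * Real.exp (c * s) - F s) (Icc x t) := by
    refine monotoneOn_of_deriv_nonneg (convex_Icc _ _) ?_ ?_ ?_
    · exact fun s _ => ((hE s).sub (h s)).continuousAt.continuousWithinAt
    · exact fun s _ => ((hE s).sub (h s)).differentiableAt.differentiableWithinAt
    · intro s hs
      rw [interior_Icc] at hs
      have h5 : HasDerivAt (fun s => K * Real.exp (c * s) - F s)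
        (K * c * Real.exp (c * s) - F' s) s := (hE s).sub (h s)
      rw [h5.deriv]
      have := (abs_le.1 (hF s (hs.2.le.trans ht))).2
      linarith
  have h3 := h1 (left_mem_Icc.2 hxt) (right_mem_Icc.2 hxt) hxt
  have h4 := h2 (left_mem_Icc.2 hxt) (right_mem_Icc.2 hxt) hxt
  simp only at h3 h4
  rw [abs_le]
  constructor <;> linarith

/-- a function with small derivative and limit `0` -/
theorem gnd_zero {F F' : ℝ → ℝ} {K c : ℝ} (hc : 0 < c) (hK : 0 ≤ K) (h : ∀ t, HasDerivAt F (F' t) t)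
    (hF : ∀ t ≤ 0, |F' t| ≤ K * c * Real.exp (c * t)) (h0 : Tendsto F atBot (𝓝 0)) {t : ℝ}
    (ht : t ≤ 0) : |F t| ≤ K * Real.exp (c * t) := by
  have h1 : Tendsto (fun x => |F t - F x|) atBot (𝓝 |F t - 0|) :=
    (tendsto_const_nhds.sub h0).abs
  rw [sub_zero] at h1
  refine le_of_tendsto h1 ?_
  filter_upwards [eventually_le_atBot t] with x hx
  have h2 := gnd_bdd hc h hF hx ht
  have h3 : 0 ≤ K * Real.exp (c * x) := by positivity
  linarith

/-- from the equation for `U`: a bound of `f` gives a bound of `U` -/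
theorem gnd_U {γ C₁ : ℝ} (hγ : 0 < γ) (hC : 0 < C₁) {f U : ℝ → ℝ} (hf : ∀ x, 0 < f x)
    (hU : ∀ x, 0 < U x)
    (he : ∀ x, (2 + γ) * C₁ * U x ^ (1 + γ) = 2 * Real.pi ^ 2 * γ * f x ^ 2 * Real.exp (2 * γ * x))
    {M c : ℝ} (hM : 0 ≤ M) {t : ℝ} (h : f t ^ 2 * Real.exp (2 * γ * t) ≤ M * Real.exp (c * (1 + γ) * t)) :
    U t ≤ (2 * Real.pi ^ 2 * γ * M / ((2 + γ) * C₁)) ^ (1 / (1 + γ)) * Real.exp (c * t) := by
  have hγ1 : 0 < 1 + γ := by linarith
  have hD : 0 < (2 + γ) * C₁ := by positivity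
  have h1 : U t ^ (1 + γ) ≤ 2 * Real.pi ^ 2 * γ * M / ((2 + γ) * C₁) * Real.exp (c * (1 + γ) * t) := by
    rw [div_mul_eq_mul_div, le_div_iff₀ hD, mul_comm, he t]
    have := mul_le_mul_of_nonneg_left h (by positivity : 0 ≤ 2 * Real.pi ^ 2 * γ)
    linarith
  have h2 := Real.rpow_le_rpow (Real.rpow_nonneg (hU t).le _) h1 (by positivity : 0 ≤ 1 / (1 + γ))
  rw [← Real.rpow_mul (hU t).le, mul_one_div_cancel hγ1.ne', Real.rpow_one,
    Real.mul_rpow (by positivity) (Real.exp_pos _).le, ← Real.exp_mul] at h2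
  have e : c * (1 + γ) * t * (1 / (1 + γ)) = c * t := by field_simp
  rwa [e] at h2

/-- `f` is bounded -/
theorem gnd_f_bdd {W f g : ℝ → ℝ} (hs : Sol W f g) (h2 : MemLp f 2 volume)
    (h2' : MemLp g 2 volume) : ∃ M > 0, ∀ x, |f x| ≤ M := by
  have i1 : Integrable (fun x => f x ^ 2) := h2.integrable_sq
  have i2 : Integrable (fun x => g x ^ 2) := h2'.integrable_sq
  have cf := hs.continuous_left
  have cg := hs.continuous_right
  have hd : ∀ x, HasDerivAt (fun x => f x ^ 2) (2 * f x * g x) x := by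
    intro x
    have := (hs.d1 x).pow 2
    refine this.congr_deriv ?_
    simp
  have hint : ∀ x y, f y ^ 2 - f x ^ 2 = ∫ t in x..y, 2 * f t * g t := by
    intro x y
    rw [intervalIntegral.integral_eq_sub_of_hasDerivAt (fun t _ => hd t)]
    exact (by fun_prop : Continuous fun t => 2 * f t * g t).intervalIntegrable _ _
  have i3 : Integrable (fun x => f x ^ 2 + g x ^ 2) := i1.add i2
  have hb : ∀ x, f x ^ 2 ≤ f 0 ^ 2 + ∫ t, (f t ^ 2 + g t ^ 2) := by
    intro x
    have h3 : |∫ t in (0 : ℝ)..x, 2 * f t * g t| ≤ ∫ t, (f t ^ 2 + g t ^ 2) := by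
      rw [← Real.norm_eq_abs]
      refine (intervalIntegral.norm_integral_le_integral_norm_uIoc).trans ?_
      calc _ ≤ ∫ t in uIoc 0 x, (f t ^ 2 + g t ^ 2) := by
            refine setIntegral_mono_on ?_ i3.integrableOn measurableSet_uIoc ?_
            · exact ((by fun_prop : Continuous fun t => ‖2 * f t * g t‖).integrableOn_uIcc).mono_set
                uIoc_subset_uIcc
            · intro t _
              rw [Real.norm_eq_abs, abs_le]
              constructor <;> nlinarith [sq_nonneg (f t + g t), sq_nonneg (f t - g t)]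
        _ ≤ _ := setIntegral_le_integral i3 (Eventually.of_forall fun t => by positivity)
    have h4 := hint 0 x
    have h5 := (abs_le.1 h3).2
    linarith
  have hI : 0 ≤ ∫ t, (f t ^ 2 + g t ^ 2) := integral_nonneg fun t => by positivity
  refine ⟨f 0 ^ 2 + (∫ t, (f t ^ 2 + g t ^ 2)) + 1, by positivity, fun x => ?_⟩
  have h6 := hb x
  set M := f 0 ^ 2 + (∫ t, (f t ^ 2 + g t ^ 2)) + 1 with hM
  have hM1 : 1 ≤ M := by
    rw [hM]
    nlinarith [sq_nonneg (f 0)]
  refine abs_le_of_sq_le_sq ?_ (by linarith)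
  nlinarith

/-- GN3: asymptotics at `-∞` -/
theorem gn_left {γ C₁ : ℝ} (hγ : 0 < γ) (hγ1 : γ ≤ 1) (hC : 0 < C₁) {f g U : ℝ → ℝ} (hs : Sol (fun x => 1 - U x + om x) f g) (hf : ∀ x, 0 < f x)
    (hU : ∀ x, 0 < U x) (cU : Continuous U) (he : ∀ x, (2 + γ) * C₁ * U x ^ (1 + γ) = 2 * Real.pi ^ 2 * γ * f x ^ 2 * Real.exp (2 * γ * x))
    (h2 : MemLp f 2 volume) (h2' : MemLp g 2 volume) :
    ∃ C, ∀ t ≤ 0, f t ≤ C * Real.exp t ∧ |g t - f t| ≤ C * Real.exp (3 * t) := by
  have hγ' : 0 < 1 + γ := by linarith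
  obtain ⟨M, hM0, hM⟩ := gnd_f_bdd hs h2 h2'
  have hfM : ∀ x, f x ≤ M := fun x => (le_abs_self _).trans (hM x)
  have hfM2 : ∀ x, f x ^ 2 ≤ M ^ 2 := fun x => pow_le_pow_left₀ (hf x).le (hfM x) 2
  -- U → 0
  set K₀ := (2 * Real.pi ^ 2 * γ * M ^ 2 / ((2 + γ) * C₁)) ^ (1 / (1 + γ)) with hK₀
  have hU0 : ∀ t, U t ≤ K₀ * Real.exp (2 * γ / (1 + γ) * t) := by
    intro t
    refine gnd_U hγ hC hf hU he (by positivity) ?_
    have e : 2 * γ / (1 + γ) * (1 + γ) * t = 2 * γ * t := by field_simp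
    rw [e]
    exact mul_le_mul_of_nonneg_right (hfM2 t) (Real.exp_pos _).le
  have hT : Tendsto (fun t => K₀ * Real.exp (2 * γ / (1 + γ) * t)) atBot (𝓝 0) := by
    have h1 : Tendsto (fun t : ℝ => 2 * γ / (1 + γ) * t) atBot atBot :=
      tendsto_id.const_mul_atBot (by positivity)
    have h3 := (Real.tendsto_exp_atBot.comp h1).const_mul K₀
    rwa [mul_zero] at h3
  obtain ⟨t₀, ht₀⟩ := (((hT.eventually (gt_mem_nhds (by norm_num : (0 : ℝ) < 3 / 4)))).and
    (eventually_le_atBot (0 : ℝ))).exists_forall_of_atBot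
  have ht₀0 : t₀ ≤ 0 := (ht₀ t₀ le_rfl).2
  have hU34 : ∀ t ≤ t₀, U t ≤ 3 / 4 := fun t ht => (hU0 t).trans (ht₀ t ht).1.le
  have hom : ∀ t, 0 < om t := fun t => Real.exp_pos _
  -- f ≤ C e^{t/2}
  have hmax : ∀ t ≤ t₀, f t ≤ f t₀ * Real.exp (-(1 / 2 * (t₀ - t))) := by
    intro t ht
    have hlim : Tendsto (fun x => M * Real.exp (-(1 / 2 * (t - x))) +
        f t₀ * Real.exp (-(1 / 2 * (t₀ - t)))) atBot
        (𝓝 (0 + f t₀ * Real.exp (-(1 / 2 * (t₀ - t))))) := by
      refine Tendsto.add ?_ tendsto_const_nhds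
      have h1 : Tendsto (fun x : ℝ => -(1 / 2 * (t - x))) atBot atBot := by
        have h3 : Tendsto (fun x : ℝ => 1 / 2 * x + -(1 / 2 * t)) atBot atBot :=
          tendsto_atBot_add_const_right _ _ (tendsto_id.const_mul_atBot (by norm_num))
        refine h3.congr fun x => ?_
        ring
      have h3 := (Real.tendsto_exp_atBot.comp h1).const_mul M
      rwa [mul_zero] at h3
    rw [zero_add] at hlim
    refine ge_of_tendsto hlim ?_
    filter_upwards [eventually_le_atBot t] with x hx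
    have h4 := max_principle (x := x) (y := t₀) (ν := 1 / 2) (hx.trans ht) (by norm_num)
      (f := f) (f1 := g) (f2 := fun t => (1 - U t + om t) * f t)
      hs.continuous_left.continuousOn (fun s _ => hs.d1 s) (fun s _ => hs.d2 s)
      (fun s hs' => ?_) (hf x).le (hf t₀).le t ⟨hx, ht⟩
    · refine h4.trans ?_
      have := mul_le_mul_of_nonneg_right (hfM x) (Real.exp_pos (-(1 / 2 * (t - x)))).le
      linarith
    · have h5 := hU34 s hs'.2.le
      have h6 := hom s
      have h7 := hf s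
      refine mul_le_mul_of_nonneg_right ?_ h7.le
      norm_num
      linarith
  have hf1 : ∀ t ≤ 0, f t ≤ M * Real.exp (-(1 / 2 * t₀)) * Real.exp (1 / 2 * t) := by
    intro t ht
    rw [mul_assoc, ← Real.exp_add]
    have e : -(1 / 2 * t₀) + 1 / 2 * t = -(1 / 2 * (t₀ - t)) := by ring
    rw [e]
    rcases le_total t t₀ with h | h
    · exact (hmax t h).trans (mul_le_mul_of_nonneg_right (hfM t₀) (Real.exp_pos _).le)
    · refine (hfM t).trans ?_
      refine le_mul_of_one_le_right hM0.le ?_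
      rw [Real.one_le_exp_iff]
      linarith
  set C₂ := M * Real.exp (-(1 / 2 * t₀)) with hC₂
  have hC₂0 : 0 < C₂ := by positivity
  -- U ≤ K e^t
  set K₁ := (2 * Real.pi ^ 2 * γ * C₂ ^ 2 / ((2 + γ) * C₁)) ^ (1 / (1 + γ)) with hK₁
  have hK₁0 : 0 ≤ K₁ := by positivity
  have hU1 : ∀ t ≤ 0, U t ≤ K₁ * Real.exp (1 * t) := by
    intro t ht
    refine gnd_U hγ hC hf hU he (by positivity) ?_
    have h3 : f t ^ 2 ≤ C₂ ^ 2 * Real.exp (1 * t) := by
      have := pow_le_pow_left₀ (hf t).le (hf1 t ht) 2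
      rw [mul_pow, ← Real.exp_nat_mul] at this
      have e : ((2 : ℕ) : ℝ) * (1 / 2 * t) = 1 * t := by push_cast; ring
      rwa [e] at this
    calc f t ^ 2 * Real.exp (2 * γ * t) ≤ C₂ ^ 2 * Real.exp (1 * t) * Real.exp (2 * γ * t) :=
          mul_le_mul_of_nonneg_right h3 (Real.exp_pos _).le
      _ = C₂ ^ 2 * Real.exp (1 * t + 2 * γ * t) := by rw [mul_assoc, Real.exp_add]
      _ ≤ C₂ ^ 2 * Real.exp (1 * (1 + γ) * t) := by
          refine mul_le_mul_of_nonneg_left (Real.exp_le_exp.2 ?_) (by positivity)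
          nlinarith
  -- g is bounded on the left
  have hgmono : MonotoneOn g (Iic t₀) := by
    refine monotoneOn_of_deriv_nonneg (convex_Iic _) hs.continuous_right.continuousOn ?_ ?_
    · exact fun s _ => (hs.d2 s).differentiableAt.differentiableWithinAt
    · intro s hs'
      rw [interior_Iic] at hs'
      rw [(hs.d2 s).deriv]
      have h5 := hU34 s (le_of_lt hs')
      have h6 := hom s
      exact mul_nonneg (by linarith) (hf s).le
  have hg0 : ∀ t ≤ t₀, 0 ≤ g t := by
    intro t ht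
    by_contra hneg
    push Not at hneg
    -- f is large far left
    have h3 : ∀ x ≤ t, f t - g t * (t - x) ≤ f x := by
      intro x hx
      have h4 : AntitoneOn (fun s => f s - g t * s) (Icc x t) := by
        refine antitoneOn_of_deriv_nonpos (convex_Icc _ _) ?_ ?_ ?_
        · exact ((hs.continuous_left).sub (continuous_const.mul continuous_id)).continuousOn
        · intro s _
          exact ((hs.d1 s).sub ((hasDerivAt_id s).const_mul (g t))).differentiableAt.differentiableWithinAt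
        · intro s hs'
          rw [interior_Icc] at hs'
          have h5 : deriv (fun s => f s - g t * s) s = g s - g t * 1 :=
            ((hs.d1 s).sub ((hasDerivAt_id s).const_mul (g t))).deriv
          rw [h5]
          have := hgmono (mem_Iic.2 (hs'.2.le.trans ht)) (mem_Iic.2 ht) hs'.2.le
          linarith
      have h5 := h4 (left_mem_Icc.2 hx) (right_mem_Icc.2 hx) hx
      simp only at h5
      linarith
    have h6 := h3 (t - (M + 1) / (-g t)) (by
      have : 0 ≤ (M + 1) / (-g t) := div_nonneg (by linarith) (by linarith)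
      linarith)
    have h7 : g t * (t - (t - (M + 1) / (-g t))) = -(M + 1) := by
      have : g t ≠ 0 := hneg.ne
      field_simp
      ring
    rw [h7] at h6
    have := hfM (t - (M + 1) / (-g t))
    have := hf t
    linarith
  have hgb : ∀ t ≤ t₀, |g t| ≤ g t₀ := by
    intro t ht
    rw [abs_of_nonneg (hg0 t ht)]
    exact hgmono (mem_Iic.2 ht) (mem_Iic.2 le_rfl) ht
  -- A and B
  have hexp : ∀ t, HasDerivAt Real.exp (Real.exp t) t := Real.hasDerivAt_exp
  have hexpn : ∀ t, HasDerivAt (fun t => Real.exp (-t)) (-Real.exp (-t)) t := by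
    intro t
    have := (hasDerivAt_neg t).exp
    simpa using this
  have hA : ∀ t, HasDerivAt (fun t => 1 / 2 * (Real.exp t * (f t - g t)))
      (1 / 2 * (Real.exp t * ((U t - om t) * f t))) t := by
    intro t
    refine (((hexp t).mul ((hs.d1 t).sub (hs.d2 t))).const_mul (1 / 2)).congr_deriv ?_
    simp only [Pi.sub_apply]
    ring
  have hB : ∀ t, HasDerivAt (fun t => 1 / 2 * (Real.exp (-t) * (f t + g t)))
      (1 / 2 * (Real.exp (-t) * ((om t - U t) * f t))) t := by
    intro t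
    refine (((hexpn t).mul ((hs.d1 t).add (hs.d2 t))).const_mul (1 / 2)).congr_deriv ?_
    simp only [Pi.add_apply]
    ring
  have hA0 : Tendsto (fun t => 1 / 2 * (Real.exp t * (f t - g t))) atBot (𝓝 0) := by
    have h3 : Tendsto (fun t => Real.exp t * (M + g t₀)) atBot (𝓝 0) := by
      have := Real.tendsto_exp_atBot.mul_const (M + g t₀)
      rwa [zero_mul] at this
    refine squeeze_zero_norm' ?_ h3
    filter_upwards [eventually_le_atBot t₀] with t ht
    rw [norm_mul, norm_mul, Real.norm_eq_abs, Real.norm_eq_abs, Real.norm_eq_abs,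
      abs_of_pos (Real.exp_pos t)]
    have h4 : |f t - g t| ≤ M + g t₀ := (abs_sub _ _).trans (add_le_add (hM t) (hgb t ht))
    have h5 := mul_le_mul_of_nonneg_left h4 (Real.exp_pos t).le
    have h6 : 0 ≤ Real.exp t * |f t - g t| := by positivity
    have h7 : |(1 : ℝ) / 2| = 1 / 2 := abs_of_pos (by norm_num)
    rw [h7]
    linarith
  have homexp : ∀ t, om t = Real.exp (2 * t) := fun t => rfl
  have hdiff : ∀ t ≤ 0, |(U t - om t) * f t| ≤ (K₁ + 1) * C₂ * Real.exp (3 / 2 * t) := by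
    intro t ht
    rw [abs_mul, abs_of_pos (hf t)]
    have h3 : |U t - om t| ≤ (K₁ + 1) * Real.exp (1 * t) := by
      have h4 := hU1 t ht
      have h5 : om t ≤ Real.exp (1 * t) := by
        rw [homexp, Real.exp_le_exp]
        linarith
      have h6 := hom t
      have h7 := hU t
      have h8 := Real.exp_pos (1 * t)
      rw [abs_le]
      constructor <;> nlinarith
    have e : (K₁ + 1) * C₂ * Real.exp (3 / 2 * t) =
        (K₁ + 1) * Real.exp (1 * t) * (C₂ * Real.exp (1 / 2 * t)) := by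
      have : (3 : ℝ) / 2 * t = 1 * t + 1 / 2 * t := by ring
      rw [this, Real.exp_add]
      ring
    rw [e]
    exact mul_le_mul h3 (hf1 t ht) (hf t).le (by positivity)
  -- B is bounded
  have hBb : ∀ t ≤ 0, |1 / 2 * (Real.exp (-t) * (f t + g t))| ≤
      |1 / 2 * (Real.exp (-0) * (f 0 + g 0))| + (K₁ + 1) * C₂ := by
    intro t ht
    have h3 := gnd_bdd (K := (K₁ + 1) * C₂) (c := 1 / 2) (by norm_num) hB (fun s hs' => ?_) ht le_rfl
    · have h4 : 0 ≤ (K₁ + 1) * C₂ * Real.exp (1 / 2 * t) := by positivity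
      rw [mul_zero, Real.exp_zero, mul_one] at h3
      have h5 := (abs_le.1 h3)
      have h6 := abs_sub_abs_le_abs_sub (1 / 2 * (Real.exp (-t) * (f t + g t)))
        (1 / 2 * (Real.exp (-0) * (f 0 + g 0)))
      rw [abs_sub_comm] at h6
      linarith
    · have h4 := hdiff s hs'
      have e1 : |1 / 2 * (Real.exp (-s) * ((om s - U s) * f s))| =
          1 / 2 * Real.exp (-s) * |(U s - om s) * f s| := by
        have : (om s - U s) * f s = -((U s - om s) * f s) := by ring
        rw [this, abs_mul, abs_mul, abs_neg, abs_of_pos (Real.exp_pos _),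
          abs_of_pos (by norm_num : (0 : ℝ) < 1 / 2)]
        ring
      rw [e1]
      have h5 := mul_le_mul_of_nonneg_left h4 (by positivity : 0 ≤ 1 / 2 * Real.exp (-s))
      refine h5.trans (le_of_eq ?_)
      have : (1 : ℝ) / 2 * s = -s + 3 / 2 * s := by ring
      rw [this, Real.exp_add]
      ring
  set K₂ := |1 / 2 * (Real.exp (-0) * (f 0 + g 0))| + (K₁ + 1) * C₂ with hK₂
  have hK₂0 : 0 ≤ K₂ := by positivity
  -- first bound of A
  have hA1 : ∀ t ≤ 0, |1 / 2 * (Real.exp t * (f t - g t))| ≤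
      1 / 5 * ((K₁ + 1) * C₂) * Real.exp (5 / 2 * t) := by
    intro t ht
    refine gnd_zero (by norm_num) (by positivity) hA (fun s hs' => ?_) hA0 ht
    have h4 := hdiff s hs'
    rw [abs_mul, abs_mul, abs_of_pos (Real.exp_pos s), abs_of_pos (by norm_num : (0 : ℝ) < 1 / 2)]
    have h5 := mul_le_mul_of_nonneg_left h4 (by positivity : 0 ≤ 1 / 2 * Real.exp s)
    have e : (5 : ℝ) / 2 * s = s + 3 / 2 * s := by ring
    rw [e, Real.exp_add]
    linarith
  -- f ≤ C e^t
  set C₃ := 1 / 5 * ((K₁ + 1) * C₂) + K₂ with hC₃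
  have hC₃0 : 0 ≤ C₃ := by positivity
  have hf2 : ∀ t ≤ 0, f t ≤ C₃ * Real.exp t := by
    intro t ht
    have h3 := (abs_le.1 (hA1 t ht)).2
    have h4 := (abs_le.1 (hBb t ht)).2
    have e : f t = Real.exp (-t) * (1 / 2 * (Real.exp t * (f t - g t))) +
        Real.exp t * (1 / 2 * (Real.exp (-t) * (f t + g t))) := by
      have : Real.exp (-t) * Real.exp t = 1 := by rw [← Real.exp_add]; simp
      linear_combination (-f t) * this
    have h5 := mul_le_mul_of_nonneg_left h3 (Real.exp_pos (-t)).le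
    have h6 := mul_le_mul_of_nonneg_left h4 (Real.exp_pos t).le
    have h7 : Real.exp (-t) * (1 / 5 * ((K₁ + 1) * C₂) * Real.exp (5 / 2 * t)) ≤
        1 / 5 * ((K₁ + 1) * C₂) * Real.exp t := by
      have e2 : Real.exp (-t) * (1 / 5 * ((K₁ + 1) * C₂) * Real.exp (5 / 2 * t)) =
          1 / 5 * ((K₁ + 1) * C₂) * Real.exp (3 / 2 * t) := by
        have : (3 : ℝ) / 2 * t = -t + 5 / 2 * t := by ring
        rw [this, Real.exp_add]
        ring
      rw [e2]
      refine mul_le_mul_of_nonneg_left (Real.exp_le_exp.2 ?_) (by positivity)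
      linarith
    rw [e, hC₃]
    linarith
  -- U ≤ K e^{2t}
  set K₃ := (2 * Real.pi ^ 2 * γ * C₃ ^ 2 / ((2 + γ) * C₁)) ^ (1 / (1 + γ)) with hK₃
  have hK₃0 : 0 ≤ K₃ := by positivity
  have hU2 : ∀ t ≤ 0, U t ≤ K₃ * Real.exp (2 * t) := by
    intro t ht
    refine gnd_U hγ hC hf hU he (by positivity) ?_
    have h3 : f t ^ 2 ≤ C₃ ^ 2 * Real.exp (2 * t) := by
      have := pow_le_pow_left₀ (hf t).le (hf2 t ht) 2
      rw [mul_pow, ← Real.exp_nat_mul] at this
      have e : ((2 : ℕ) : ℝ) * t = 2 * t := by push_cast; ring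
      rwa [e] at this
    calc f t ^ 2 * Real.exp (2 * γ * t) ≤ C₃ ^ 2 * Real.exp (2 * t) * Real.exp (2 * γ * t) :=
          mul_le_mul_of_nonneg_right h3 (Real.exp_pos _).le
      _ = C₃ ^ 2 * Real.exp (2 * t + 2 * γ * t) := by rw [mul_assoc, Real.exp_add]
      _ = C₃ ^ 2 * Real.exp (2 * (1 + γ) * t) := by
          have : 2 * t + 2 * γ * t = 2 * (1 + γ) * t := by ring
          rw [this]
  have hA2 : ∀ t ≤ 0, |1 / 2 * (Real.exp t * (f t - g t))| ≤
      1 / 8 * ((K₃ + 1) * C₃) * Real.exp (4 * t) := by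
    intro t ht
    refine gnd_zero (by norm_num) (by positivity) hA (fun s hs' => ?_) hA0 ht
    rw [abs_mul, abs_mul, abs_of_pos (Real.exp_pos s), abs_of_pos (by norm_num : (0 : ℝ) < 1 / 2),
      abs_mul, abs_of_pos (hf s)]
    have h3 : |U s - om s| ≤ (K₃ + 1) * Real.exp (2 * s) := by
      have h4 := hU2 s hs'
      have h5 := homexp s
      have h6 := hom s
      have h7 := hU s
      have h8 := Real.exp_pos (2 * s)
      rw [abs_le]
      constructor <;> nlinarith
    have h4 := mul_le_mul h3 (hf2 s hs') (hf s).le (by positivity)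
    have h5 := mul_le_mul_of_nonneg_left h4 (by positivity : 0 ≤ 1 / 2 * Real.exp s)
    have e : (4 : ℝ) * s = s + (2 * s + s) := by ring
    rw [e, Real.exp_add, Real.exp_add (2 * s)]
    linarith
  refine ⟨C₃ + 1 / 4 * ((K₃ + 1) * C₃), fun t ht => ⟨?_, ?_⟩⟩
  · refine (hf2 t ht).trans (mul_le_mul_of_nonneg_right ?_ (Real.exp_pos t).le)
    have : 0 ≤ 1 / 4 * ((K₃ + 1) * C₃) := by positivity
    linarith
  · have h3 := hA2 t ht
    rw [abs_mul, abs_mul, abs_of_pos (Real.exp_pos t), abs_of_pos (by norm_num : (0 : ℝ) < 1 / 2)]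
      at h3
    have h4 : |g t - f t| = Real.exp (-t) * (Real.exp t * |f t - g t|) := by
      rw [abs_sub_comm, ← mul_assoc, ← Real.exp_add]
      simp
    have h5 := mul_le_mul_of_nonneg_left h3 (Real.exp_pos (-t)).le
    have e : Real.exp (-t) * (1 / 8 * ((K₃ + 1) * C₃) * Real.exp (4 * t)) =
        1 / 8 * ((K₃ + 1) * C₃) * Real.exp (3 * t) := by
      have : (3 : ℝ) * t = -t + 4 * t := by ring
      rw [this, Real.exp_add]
      ring
    rw [e] at h5
    have h6 : 0 ≤ C₃ * Real.exp (3 * t) := by positivity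
    rw [h4]
    linarith

end Pool.Agent.RLT40
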