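import Pool.Agent.RLT40.OdeA

/-!
# Modules GN1, GN2, GN3 (paper 2.A5): the one-state problem.

GN1 `gn_exists`: maximise `Xi` on `{En ≤ 1, Om ≤ 1}` (scale `f → f/sqrt En`, shift `f(·-a)`: `Om → e^{2a}Om`, `Xi → e^{2γa/(1+γ)}Xi`; the quotient `Xi^{1+γ}/(Om^γ En²)` is invariant).
`f(x)² ≤ En`, Hölder 1/2: Arzela-Ascoli on compacts (diagonal sequence), derivative: weak `L²` limit (WeakDual.isSeqCompact_closedBall in `L²(ℝ)`, or ultrafilter), lower semicontinuity of `En`, `Om` (Fatou);
tails: `x < -T`: `∫|f|^{2p'} e^{2γx/(1+γ)} ≤ e^{-2γT/(1+γ)}∫f²`; `x > T`: `≤ ∫ f² e^{2γx/(1+γ)} ≤ e^{-T}∫ωf²` (`|f| ≤ 1`).  Replace `f` by `|f|`.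
GN2 `gn_bubble`: first variation in direction `η` (H1om): `(1+γ)2p' ∫f^{2p'-1}e^{..}η/Xi = 2γ∫ωfη/Om + 2·2∫(f'η'+fη)/En`, i.e. weakly `-f'' + f + e ω f = λ (f² e^{2γx})^{1/(1+γ)} f`, `e = γEn/(2Om)`, `λ = (2+γ)En/(2Xi)`;
shift so that `e = 1`, scale so that `Om = 1/(2π²)`; `C₁ = K(γ/2)^γ(2/(2+γ))^{2+γ}`, `K` the optimal constant.  `C²` regularity (du Bois-Reymond), positivity by ODE uniqueness.
one-state: Hölder `∫Uf² ≤ J^{1/p}Xi^{1/p'}`; `(eOm + En)^p ≤ J K Om^γ En²`; `x = eOm/En`: `e^γ ≤ JK x^γ/(1+x)^p`, maximum at `x = γ/2`.  Members of `H10 a b` are in H1om.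
GN3 asymptotics: `t → +∞`: `q = g/f`, `q' = 1+ω-U-q²`, `f ∈ L²(ω)` positive: `q → -∞`, `q/e^t → -1` (barriers `-(1±ε)e^t`), `U → 0`.  `t → -∞`: `q → 1` (`q' = 1+ω-U-q²`, `f ∈ L²` excludes `q ≤ -1+`), `f ≤ Ce^t`
(`∫(U+|1-q|) < ∞`), `A = ½e^t(f-g)`, `A' = ½e^t(U-ω)f`, `|A| ≤ Ce^{4t}` with `U ≤ C e^{2t}`.
-/

open MeasureTheory Set Filter Topology
open scoped ENNReal NNReal

namespace Pool.Agent.RLT40

/-- minimum principle on a half line -/
theorem GNe_minp {T : ℝ} {w w1 w2 V : ℝ → ℝ} (h1 : ∀ t, T ≤ t → HasDerivAt w (w1 t) t)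
    (h2 : ∀ t, T ≤ t → HasDerivAt w1 (w2 t) t) (hV : ∀ t, T ≤ t → 0 < V t)
    (h3 : ∀ t, T ≤ t → w2 t ≤ V t * w t) (hT : 0 ≤ w T) (hlim : Tendsto w atTop (𝓝 0)) :
    ∀ t, T ≤ t → 0 ≤ w t := by
  by_contra hc
  push Not at hc
  obtain ⟨t0, ht0, hw0⟩ := hc
  obtain ⟨R, hR⟩ := eventually_atTop.1 (hlim.eventually (lt_mem_nhds hw0))
  set R' := max R (t0 + 1) with hR'
  have hTR : T ≤ R' := by
    have := le_max_right R (t0 + 1)
    linarith
  have hcont : ContinuousOn w (Icc T R') := fun t ht => (h1 t ht.1).continuousAt.continuousWithinAt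
  obtain ⟨t1, ht1, hmin⟩ := isCompact_Icc.exists_isMinOn (nonempty_Icc.2 hTR) hcont
  have ht0R : t0 ∈ Icc T R' := ⟨ht0, by have := le_max_right R (t0 + 1); linarith⟩
  have h10 : w t1 ≤ w t0 := hmin ht0R
  have hneg : w t1 < 0 := lt_of_le_of_lt h10 hw0
  have hne1 : t1 ≠ T := by
    rintro rfl
    linarith
  have hne2 : t1 ≠ R' := by
    intro h
    have := hR R' (le_max_left _ _)
    rw [← h] at this
    linarith
  have hint : t1 ∈ Ioo T R' := ⟨lt_of_le_of_ne ht1.1 (Ne.symm hne1), lt_of_le_of_ne ht1.2 hne2⟩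
  have hloc : IsLocalMin w t1 := hmin.isLocalMin (Icc_mem_nhds hint.1 hint.2)
  have hw1 : w1 t1 = 0 := hloc.hasDerivAt_eq_zero (h1 t1 ht1.1)
  have hev : deriv w =ᶠ[𝓝 t1] w1 := by
    filter_upwards [Ioo_mem_nhds hint.1 hint.2] with t ht
    exact (h1 t ht.1.le).deriv
  have hd2 : deriv (deriv w) t1 = w2 t1 := by
    rw [hev.deriv_eq]
    exact (h2 t1 ht1.1).deriv
  have hw2 : w2 t1 < 0 := lt_of_le_of_lt (h3 t1 ht1.1) (mul_neg_of_pos_of_neg (hV t1 ht1.1) hneg)
  -- `-w` has a local minimum as well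
  have hmx : IsLocalMin (fun t => -w t) t1 := by
    apply isLocalMin_of_deriv_deriv_pos
    · have e1 : deriv (fun t => -w t) = fun t => -deriv w t := by
        funext t
        exact deriv.neg
      rw [e1]
      have : deriv (fun t => -deriv w t) t1 = -deriv (deriv w) t1 := deriv.neg
      rw [this, hd2]
      linarith
    · have : deriv (fun t => -w t) t1 = -deriv w t1 := deriv.neg
      rw [this, (h1 t1 ht1.1).deriv, hw1, neg_zero]
    · exact (h1 t1 ht1.1).continuousAt.neg
  have hconst : w =ᶠ[𝓝 t1] fun _ => w t1 := by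
    filter_upwards [hloc, hmx] with t ha hb
    simp only [neg_le_neg_iff] at hb
    exact le_antisymm hb ha
  have hd0 : deriv w =ᶠ[𝓝 t1] fun _ => 0 := by
    have := hconst.deriv
    refine this.trans (Eventually.of_forall fun t => ?_)
    simp
  have : deriv (deriv w) t1 = 0 := by
    rw [hd0.deriv_eq]
    simp
  rw [hd2] at this
  linarith

/-- a positive `H¹` function is bounded on the right half line -/
theorem GNe_bdd {f g : ℝ → ℝ} (hd : ∀ x, HasDerivAt f (g x) x) (cg : Continuous g)
    (h2 : MemLp f 2 volume) (h2' : MemLp g 2 volume) : ∃ B, 0 < B ∧ ∀ t, 0 ≤ t → f t ^ 2 ≤ B := by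
  have cf : Continuous f := continuous_iff_continuousAt.2 fun x => (hd x).continuousAt
  have i1 : Integrable (fun x => f x ^ 2 + g x ^ 2) := h2.integrable_sq.add h2'.integrable_sq
  refine ⟨f 0 ^ 2 + (∫ x, (f x ^ 2 + g x ^ 2)) + 1, ?_, ?_⟩
  · have : 0 ≤ ∫ x, (f x ^ 2 + g x ^ 2) := integral_nonneg fun x => by positivity
    positivity
  intro t ht
  have e : ∫ x in (0 : ℝ)..t, 2 * f x * g x = f t ^ 2 - f 0 ^ 2 := by
    apply intervalIntegral.integral_eq_sub_of_hasDerivAt
    · intro x _
      exact ((hd x).fun_pow 2).congr_deriv (by norm_num)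
    · exact (by fun_prop : Continuous fun x => 2 * f x * g x).intervalIntegrable _ _
  have e2 : ∫ x in (0 : ℝ)..t, 2 * f x * g x ≤ ∫ x in (0 : ℝ)..t, (f x ^ 2 + g x ^ 2) := by
    apply intervalIntegral.integral_mono_on ht
    · exact (by fun_prop : Continuous fun x => 2 * f x * g x).intervalIntegrable _ _
    · exact (by fun_prop : Continuous fun x => f x ^ 2 + g x ^ 2).intervalIntegrable _ _
    · intro x _
      nlinarith [sq_nonneg (f x - g x)]
  have e3 : ∫ x in (0 : ℝ)..t, (f x ^ 2 + g x ^ 2) ≤ ∫ x, (f x ^ 2 + g x ^ 2) := by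
    rw [intervalIntegral.integral_of_le ht]
    exact setIntegral_le_integral i1 (Eventually.of_forall fun x => by positivity)
  linarith

/-- the potential of the bubble is `o(ω)` -/
theorem GNe_Usmall {γ C₁ : ℝ} (hγ : 0 < γ) (hC : 0 < C₁) {f U : ℝ → ℝ} (hU : ∀ x, 0 < U x)
    (he : ∀ x, (2 + γ) * C₁ * U x ^ (1 + γ) = 2 * Real.pi ^ 2 * γ * f x ^ 2 * Real.exp (2 * γ * x))
    {B : ℝ} (hB : 0 < B) (hf : ∀ t, 0 ≤ t → f t ^ 2 ≤ B) {δ : ℝ} (hδ : 0 < δ) :
    ∃ T, 0 ≤ T ∧ ∀ t, T ≤ t → U t ≤ δ * om t := by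
  set K := 2 * Real.pi ^ 2 * γ * B / ((2 + γ) * C₁ * δ ^ (1 + γ)) with hK
  have hδp : 0 < δ ^ (1 + γ) := Real.rpow_pos_of_pos hδ _
  have hKp : 0 < K := by positivity
  refine ⟨max 0 K, le_max_left _ _, fun t ht => ?_⟩
  have ht0 : 0 ≤ t := le_trans (le_max_left _ _) ht
  have htK : K ≤ t := le_trans (le_max_right _ _) ht
  by_contra hc
  push Not at hc
  have h1 : (δ * om t) ^ (1 + γ) < U t ^ (1 + γ) :=
    Real.rpow_lt_rpow (by unfold om; positivity) hc (by linarith)
  have h2 : (δ * om t) ^ (1 + γ) = δ ^ (1 + γ) * (Real.exp (2 * γ * t) * Real.exp (2 * t)) := by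
    unfold om
    rw [Real.mul_rpow hδ.le (Real.exp_pos _).le, ← Real.exp_mul, ← Real.exp_add]
    congr 2
    ring
  have h3 : (2 + γ) * C₁ * U t ^ (1 + γ) ≤ 2 * Real.pi ^ 2 * γ * B * Real.exp (2 * γ * t) := by
    rw [he t]
    have := hf t ht0
    gcongr
  have h4 : (2 + γ) * C₁ * (δ ^ (1 + γ) * (Real.exp (2 * γ * t) * Real.exp (2 * t))) <
      2 * Real.pi ^ 2 * γ * B * Real.exp (2 * γ * t) := by
    refine lt_of_lt_of_le ?_ h3
    rw [← h2]
    exact mul_lt_mul_of_pos_left h1 (by positivity)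
  have h5 : (2 + γ) * C₁ * δ ^ (1 + γ) * Real.exp (2 * t) < 2 * Real.pi ^ 2 * γ * B := by
    have e : (2 + γ) * C₁ * (δ ^ (1 + γ) * (Real.exp (2 * γ * t) * Real.exp (2 * t))) =
        ((2 + γ) * C₁ * δ ^ (1 + γ) * Real.exp (2 * t)) * Real.exp (2 * γ * t) := by ring
    rw [e] at h4
    exact lt_of_mul_lt_mul_right h4 (Real.exp_pos _).le
  have h6 : Real.exp (2 * t) < K := by
    rw [hK, lt_div_iff₀ (by positivity)]
    linarith
  have h7 : t < Real.exp (2 * t) := by
    have := Real.add_one_le_exp (2 * t)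
    linarith
  linarith

theorem GNe_barrier (a : ℝ) (t : ℝ) :
    HasDerivAt (fun t => Real.exp (-(a * Real.exp t))) (-(a * Real.exp t) * Real.exp (-(a * Real.exp t))) t := by
  exact ((Real.hasDerivAt_exp t).const_mul a).fun_neg.exp.congr_deriv (by ring)

theorem GNe_barrier2 (a : ℝ) (t : ℝ) :
    HasDerivAt (fun t => -(a * Real.exp t) * Real.exp (-(a * Real.exp t)))
      ((a ^ 2 * om t - a * Real.exp t) * Real.exp (-(a * Real.exp t))) t := by
  have h := ((Real.hasDerivAt_exp t).const_mul a).fun_neg.fun_mul (GNe_barrier a t)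
  refine h.congr_deriv ?_
  have : om t = Real.exp t * Real.exp t := by
    unfold om
    rw [← Real.exp_add]
    congr 1
    ring
  rw [this]
  ring

theorem GNe_barrier_lim {a : ℝ} (ha : 0 < a) :
    Tendsto (fun t => Real.exp (-(a * Real.exp t))) atTop (𝓝 0) :=
  Real.tendsto_exp_neg_atTop_nhds_zero.comp (Real.tendsto_exp_atTop.const_mul_atTop ha)

/-- `f` is decreasing to `0` and convex near `+∞` -/
theorem GNe_dec {V f g : ℝ → ℝ} (hs : Sol V f g) (hf : ∀ x, 0 < f x) {T : ℝ} (hV : ∀ t, T ≤ t → 0 < V t)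
    (h2 : MemLp f 2 volume) : (∀ t, T ≤ t → g t < 0) ∧ Tendsto f atTop (𝓝 0) := by
  have cf := hs.continuous_left
  have cg := hs.continuous_right
  have gmono : StrictMonoOn g (Ici T) := by
    apply strictMonoOn_of_deriv_pos (convex_Ici T) cg.continuousOn
    intro x hx
    rw [interior_Ici] at hx
    rw [(hs.d2 x).deriv]
    exact mul_pos (hV x (le_of_lt hx)) (hf x)
  have i2 : Integrable (fun x => f x ^ 2) := h2.integrable_sq
  -- a lower bound on a half line is impossible
  have key : ∀ t c : ℝ, 0 < c → (∀ s, t ≤ s → c ≤ f s) → False := by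
    intro t c hc h
    have h1 : IntegrableOn (fun _ : ℝ => c ^ 2) (Ici t) volume := by
      refine Integrable.mono (i2.integrableOn (s := Ici t)) aestronglyMeasurable_const ?_
      filter_upwards [ae_restrict_mem measurableSet_Ici] with s hs
      rw [Real.norm_of_nonneg (by positivity), Real.norm_of_nonneg (by positivity)]
      have := h s hs
      gcongr
    rw [integrableOn_const_iff] at h1
    rcases h1 with h1 | h1
    · have : c ^ 2 = 0 := by simpa using h1
      have : (0 : ℝ) < c ^ 2 := by positivity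
      linarith
    · simp at h1
  have gneg : ∀ t, T ≤ t → g t < 0 := by
    intro t ht
    by_contra hc
    push Not at hc
    refine key t (f t) (hf t) fun s hs' => ?_
    have hm : MonotoneOn f (Ici t) := by
      apply monotoneOn_of_deriv_nonneg (convex_Ici t) cf.continuousOn
      · exact fun x _ => (hs.d1 x).differentiableAt.differentiableWithinAt
      · intro x hx
        rw [interior_Ici] at hx
        rw [(hs.d1 x).deriv]
        have : g t ≤ g x := gmono.monotoneOn (mem_Ici.2 ht) (mem_Ici.2 (ht.trans (le_of_lt hx))) (le_of_lt hx)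
        linarith
    exact hm (mem_Ici.2 le_rfl) (mem_Ici.2 hs') hs'
  refine ⟨gneg, ?_⟩
  have hanti : AntitoneOn f (Ici T) := by
    apply antitoneOn_of_deriv_nonpos (convex_Ici T) cf.continuousOn
    · exact fun x _ => (hs.d1 x).differentiableAt.differentiableWithinAt
    · intro x hx
      rw [interior_Ici] at hx
      rw [(hs.d1 x).deriv]
      exact (gneg x (le_of_lt hx)).le
  rw [Metric.tendsto_atTop]
  intro ε hε
  by_contra hc
  push Not at hc
  refine key T ε hε fun s hs' => ?_
  obtain ⟨n, hn, hn'⟩ := hc s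
  rw [Real.dist_eq, sub_zero, abs_of_pos (hf n)] at hn'
  exact hn'.trans (hanti (mem_Ici.2 hs') (mem_Ici.2 (hs'.trans hn)) hn)

/-- GN3': asymptotics at `+∞` -/
theorem gn_right {γ C₁ : ℝ} (hγ : 0 < γ) (hγ1 : γ ≤ 1) (hC : 0 < C₁) {f g U : ℝ → ℝ} (hs : Sol (fun x => 1 - U x + om x) f g) (hf : ∀ x, 0 < f x)
    (hU : ∀ x, 0 < U x) (cU : Continuous U) (he : ∀ x, (2 + γ) * C₁ * U x ^ (1 + γ) = 2 * Real.pi ^ 2 * γ * f x ^ 2 * Real.exp (2 * γ * x))
    (h2 : MemLp f 2 volume) (h2' : MemLp g 2 volume) (h3 : Integrable (fun x => om x * f x ^ 2)) :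
    (∀ ε > 0, ∃ C, ∀ t ≥ 0, f t + |g t| ≤ C * Real.exp (-((1 - ε) * Real.exp t))) ∧
      ∀ ε > 0, ∃ c > 0, ∀ t ≥ 0, c * Real.exp (-((1 + ε) * Real.exp t)) ≤ f t := by
  have cf := hs.continuous_left
  have cg := hs.continuous_right
  obtain ⟨B, hB, hfB⟩ := GNe_bdd hs.d1 cg h2 h2'
  have omp : ∀ t, 0 < om t := fun t => Real.exp_pos _
  have ome : ∀ t, om t = Real.exp t * Real.exp t := by
    intro t
    unfold om
    rw [← Real.exp_add]
    congr 1
    ring
  obtain ⟨T0, hT0, hU0⟩ := GNe_Usmall hγ hC hU he hB hfB (δ := 1 / 2) (by norm_num)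
  have hV0 : ∀ t, T0 ≤ t → 0 < 1 - U t + om t := by
    intro t ht
    have := hU0 t ht
    have := omp t
    linarith
  obtain ⟨gneg, flim⟩ := GNe_dec hs hf hV0 h2
  constructor
  · -- upper bound for `f` first, `0 < ε < 1`
    have upf : ∀ ε, 0 < ε → ε < 1 → ∃ C, 0 < C ∧ ∀ t, 0 ≤ t → f t ≤ C * Real.exp (-((1 - ε) * Real.exp t)) := by
      intro ε h0 h1
      have hδ : 0 < 1 - (1 - ε) ^ 2 := by nlinarith
      obtain ⟨T1, hT1, hU1⟩ := GNe_Usmall hγ hC hU he hB hfB hδ
      set T := max T0 T1 with hT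
      have hT0' : T0 ≤ T := le_max_left _ _
      have hT1' : T1 ≤ T := le_max_right _ _
      have hTpos : 0 ≤ T := hT0.trans hT0'
      set C := f T * Real.exp ((1 - ε) * Real.exp T) with hCdef
      have hCpos : 0 < C := mul_pos (hf T) (Real.exp_pos _)
      have main : ∀ t, T ≤ t → 0 ≤ C * Real.exp (-((1 - ε) * Real.exp t)) - f t := by
        apply GNe_minp (w := fun t => C * Real.exp (-((1 - ε) * Real.exp t)) - f t)
          (w1 := fun t => C * (-((1 - ε) * Real.exp t) * Real.exp (-((1 - ε) * Real.exp t))) - g t)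
          (w2 := fun t => C * ((((1 - ε) ^ 2 * om t - (1 - ε) * Real.exp t) * Real.exp (-((1 - ε) * Real.exp t)))) -
            (1 - U t + om t) * f t) (V := fun t => 1 - U t + om t)
        · intro t _
          exact ((GNe_barrier (1 - ε) t).const_mul C).sub (hs.d1 t)
        · intro t _
          exact ((GNe_barrier2 (1 - ε) t).const_mul C).sub (hs.d2 t)
        · exact fun t ht => hV0 t (hT0'.trans ht)
        · intro t ht
          have a1 := hU1 t (hT1'.trans ht)
          have a2 : (1 - ε) ^ 2 * om t - (1 - ε) * Real.exp t ≤ 1 - U t + om t := by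
            have : 0 < (1 - ε) * Real.exp t := mul_pos (by linarith) (Real.exp_pos _)
            nlinarith
          have a3 : C * (((1 - ε) ^ 2 * om t - (1 - ε) * Real.exp t) * Real.exp (-((1 - ε) * Real.exp t))) ≤
              C * ((1 - U t + om t) * Real.exp (-((1 - ε) * Real.exp t))) := by
            gcongr
          have a4 : (1 - U t + om t) * (C * Real.exp (-((1 - ε) * Real.exp t)) - f t) =
              C * ((1 - U t + om t) * Real.exp (-((1 - ε) * Real.exp t))) - (1 - U t + om t) * f t := by ring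
          change _ - (1 - U t + om t) * f t ≤ (1 - U t + om t) * (C * Real.exp (-((1 - ε) * Real.exp t)) - f t)
          rw [a4]
          linarith
        · have : C * Real.exp (-((1 - ε) * Real.exp T)) = f T := by
            rw [hCdef, mul_assoc, ← Real.exp_add]
            simp
          change 0 ≤ C * Real.exp (-((1 - ε) * Real.exp T)) - f T
          rw [this, sub_self]
        · have := ((GNe_barrier_lim (a := 1 - ε) (by linarith)).const_mul C).sub flim
          simpa using this
      obtain ⟨M, hM⟩ := isCompact_Icc.exists_bound_of_continuousOn (s := Icc (0 : ℝ) T) cf.continuousOn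
      refine ⟨C + |M| * Real.exp ((1 - ε) * Real.exp T), by positivity, fun t ht => ?_⟩
      rcases le_total T t with h | h
      · have h5 := main t h
        have : 0 ≤ |M| * Real.exp ((1 - ε) * Real.exp T) * Real.exp (-((1 - ε) * Real.exp t)) := by positivity
        nlinarith
      · have h5 := hM t ⟨ht, h⟩
        rw [Real.norm_of_nonneg (hf t).le] at h5
        have h6 : 1 ≤ Real.exp ((1 - ε) * Real.exp T) * Real.exp (-((1 - ε) * Real.exp t)) := by
          rw [← Real.exp_add]
          apply Real.one_le_exp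
          have : Real.exp t ≤ Real.exp T := Real.exp_le_exp.2 h
          nlinarith
        have h7 : f t ≤ |M| := h5.trans (le_abs_self M)
        have h8 : |M| * 1 ≤ |M| * (Real.exp ((1 - ε) * Real.exp T) * Real.exp (-((1 - ε) * Real.exp t))) :=
          mul_le_mul_of_nonneg_left h6 (abs_nonneg M)
        have h9 : 0 ≤ C * Real.exp (-((1 - ε) * Real.exp t)) := by positivity
        calc f t ≤ |M| * 1 := by linarith
          _ ≤ |M| * (Real.exp ((1 - ε) * Real.exp T) * Real.exp (-((1 - ε) * Real.exp t))) := h8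
          _ ≤ (C + |M| * Real.exp ((1 - ε) * Real.exp T)) * Real.exp (-((1 - ε) * Real.exp t)) := by linarith
    -- both, `0 < ε < 1`
    have up2 : ∀ ε, 0 < ε → ε < 1 → ∃ C, 0 < C ∧ ∀ t, 0 ≤ t → f t + |g t| ≤ C * Real.exp (-((1 - ε) * Real.exp t)) := by
      intro ε h0 h1
      obtain ⟨C1, hC1, hup⟩ := upf (ε / 2) (by linarith) (by linarith)
      -- the step
      set r := (1 - ε) / (1 - ε / 2) with hr
      have hr0 : 0 < r := div_pos (by linarith) (by linarith)
      have hr1 : r < 1 := by rw [hr, div_lt_one (by linarith)]; linarith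
      set d := -Real.log r with hd
      have hd0 : 0 < d := by
        have := Real.log_neg hr0 hr1
        linarith
      have hdr : Real.exp (-d) = r := by rw [hd, neg_neg, Real.exp_log hr0]
      set T := T0 + d with hT
      have hTpos : 0 ≤ T := by linarith
      have gb : ∀ t, T ≤ t → |g t| ≤ C1 / d * Real.exp (-((1 - ε) * Real.exp t)) := by
        intro t ht
        have ht1 : T0 ≤ t - d := by linarith
        -- mean value theorem
        obtain ⟨c, hc, hce⟩ := exists_hasDerivAt_eq_slope f g (by linarith : t - d < t) cf.continuousOn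
          (fun x _ => hs.d1 x)
        have gmono : StrictMonoOn g (Ici T0) := by
          apply strictMonoOn_of_deriv_pos (convex_Ici T0) cg.continuousOn
          intro x hx
          rw [interior_Ici] at hx
          rw [(hs.d2 x).deriv]
          exact mul_pos (hV0 x (le_of_lt hx)) (hf x)
        have h4 : g c ≤ g t := gmono.monotoneOn (mem_Ici.2 (ht1.trans hc.1.le))
          (mem_Ici.2 (by linarith)) hc.2.le
        rw [hce] at h4
        have h5 : (f t - f (t - d)) / d ≤ g t := by
          have : t - (t - d) = d := by ring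
          rwa [this] at h4
        rw [div_le_iff₀ hd0] at h5
        have h6 := gneg t (by linarith)
        rw [abs_of_neg h6]
        have h7 : -g t ≤ f (t - d) / d := by
          rw [le_div_iff₀ hd0]
          have := hf t
          linarith
        have h8 : f (t - d) ≤ C1 * Real.exp (-((1 - ε) * Real.exp t)) := by
          have := hup (t - d) (by linarith)
          have e : (1 - ε / 2) * Real.exp (t - d) = (1 - ε) * Real.exp t := by
            rw [sub_eq_add_neg t d, Real.exp_add, hdr, hr]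
            have h0 : (1 - ε / 2) ≠ 0 := by linarith
            calc (1 - ε / 2) * (Real.exp t * ((1 - ε) / (1 - ε / 2))) =
                (1 - ε) * Real.exp t * ((1 - ε / 2) / (1 - ε / 2)) := by ring
              _ = (1 - ε) * Real.exp t := by rw [div_self h0, mul_one]
          rwa [e] at this
        calc -g t ≤ f (t - d) / d := h7
          _ ≤ C1 * Real.exp (-((1 - ε) * Real.exp t)) / d := by gcongr
          _ = C1 / d * Real.exp (-((1 - ε) * Real.exp t)) := by ring
      obtain ⟨C2, hC2, hup2⟩ := upf ε h0 h1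
      obtain ⟨M, hM⟩ := isCompact_Icc.exists_bound_of_continuousOn (s := Icc (0 : ℝ) T) cg.continuousOn
      refine ⟨C2 + C1 / d + |M| * Real.exp ((1 - ε) * Real.exp T), by positivity, fun t ht => ?_⟩
      have hf5 := hup2 t ht
      rcases le_total T t with h | h
      · have h5 := gb t h
        have : 0 ≤ |M| * Real.exp ((1 - ε) * Real.exp T) * Real.exp (-((1 - ε) * Real.exp t)) := by positivity
        nlinarith
      · have h5 := hM t ⟨ht, h⟩
        rw [Real.norm_eq_abs] at h5
        have h6 : 1 ≤ Real.exp ((1 - ε) * Real.exp T) * Real.exp (-((1 - ε) * Real.exp t)) := by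
          rw [← Real.exp_add]
          apply Real.one_le_exp
          have : Real.exp t ≤ Real.exp T := Real.exp_le_exp.2 h
          nlinarith
        have h7 : |g t| ≤ |M| := h5.trans (le_abs_self M)
        have h8 : |M| * 1 ≤ |M| * (Real.exp ((1 - ε) * Real.exp T) * Real.exp (-((1 - ε) * Real.exp t))) :=
          mul_le_mul_of_nonneg_left h6 (abs_nonneg M)
        have h9 : 0 ≤ C1 / d * Real.exp (-((1 - ε) * Real.exp t)) := by positivity
        have e : (C2 + C1 / d + |M| * Real.exp ((1 - ε) * Real.exp T)) * Real.exp (-((1 - ε) * Real.exp t)) =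
            C2 * Real.exp (-((1 - ε) * Real.exp t)) + C1 / d * Real.exp (-((1 - ε) * Real.exp t)) +
            |M| * (Real.exp ((1 - ε) * Real.exp T) * Real.exp (-((1 - ε) * Real.exp t))) := by ring
        rw [e]
        linarith
    intro ε hε
    obtain ⟨C, hC0, h⟩ := up2 (min ε (1 / 2)) (lt_min hε (by norm_num)) (lt_of_le_of_lt (min_le_right _ _) (by norm_num))
    refine ⟨C, fun t ht => (h t ht).trans ?_⟩
    have : min ε (1 / 2) ≤ ε := min_le_left _ _
    gcongr
  · intro ε hε
    -- lower bound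
    obtain ⟨T1, hT1⟩ : ∃ T1, ∀ t, T1 ≤ t → 1 + om t ≤ (1 + ε) ^ 2 * om t - (1 + ε) * Real.exp t := by
      refine ⟨Real.log (max 1 ((2 + ε) / ε)), fun t ht => ?_⟩
      have hpos : 0 < max 1 ((2 + ε) / ε) := lt_of_lt_of_le one_pos (le_max_left _ _)
      have h4 : max 1 ((2 + ε) / ε) ≤ Real.exp t := by
        rw [← Real.log_le_iff_le_exp hpos]
        exact ht
      have h5 : 1 ≤ Real.exp t := (le_max_left _ _).trans h4
      have h6 : 2 + ε ≤ Real.exp t * ε := by
        rw [← div_le_iff₀ hε]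
        exact (le_max_right _ _).trans h4
      rw [ome t]
      set E := Real.exp t
      nlinarith [mul_nonneg (sub_nonneg.2 h5) hε.le, mul_le_mul_of_nonneg_left h6 (by linarith : (0 : ℝ) ≤ E)]
    set T := max T0 T1 with hT
    have hT0' : T0 ≤ T := le_max_left _ _
    have hT1' : T1 ≤ T := le_max_right _ _
    have hTpos : 0 ≤ T := hT0.trans hT0'
    set c := f T * Real.exp ((1 + ε) * Real.exp T) with hcdef
    have hcpos : 0 < c := mul_pos (hf T) (Real.exp_pos _)
    have main : ∀ t, T ≤ t → 0 ≤ f t - c * Real.exp (-((1 + ε) * Real.exp t)) := by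
      apply GNe_minp (w := fun t => f t - c * Real.exp (-((1 + ε) * Real.exp t)))
        (w1 := fun t => g t - c * (-((1 + ε) * Real.exp t) * Real.exp (-((1 + ε) * Real.exp t))))
        (w2 := fun t => (1 - U t + om t) * f t -
          c * ((((1 + ε) ^ 2 * om t - (1 + ε) * Real.exp t) * Real.exp (-((1 + ε) * Real.exp t)))))
        (V := fun t => 1 - U t + om t)
      · intro t _
        exact (hs.d1 t).sub ((GNe_barrier (1 + ε) t).const_mul c)
      · intro t _
        exact (hs.d2 t).sub ((GNe_barrier2 (1 + ε) t).const_mul c)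
      · exact fun t ht => hV0 t (hT0'.trans ht)
      · intro t ht
        have a1 := hT1 t (hT1'.trans ht)
        have a2 : 1 - U t + om t ≤ (1 + ε) ^ 2 * om t - (1 + ε) * Real.exp t := by
          have := hU t
          linarith
        have a3 : c * ((1 - U t + om t) * Real.exp (-((1 + ε) * Real.exp t))) ≤
            c * (((1 + ε) ^ 2 * om t - (1 + ε) * Real.exp t) * Real.exp (-((1 + ε) * Real.exp t))) := by
          gcongr
        have a4 : (1 - U t + om t) * (f t - c * Real.exp (-((1 + ε) * Real.exp t))) =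
            (1 - U t + om t) * f t - c * ((1 - U t + om t) * Real.exp (-((1 + ε) * Real.exp t))) := by ring
        change (1 - U t + om t) * f t - _ ≤ (1 - U t + om t) * (f t - c * Real.exp (-((1 + ε) * Real.exp t)))
        rw [a4]
        linarith
      · have : c * Real.exp (-((1 + ε) * Real.exp T)) = f T := by
          rw [hcdef, mul_assoc, ← Real.exp_add]
          simp
        change 0 ≤ f T - c * Real.exp (-((1 + ε) * Real.exp T))
        rw [this, sub_self]
      · have := flim.sub ((GNe_barrier_lim (a := 1 + ε) (by linarith)).const_mul c)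
        simpa using this
    obtain ⟨t2, ht2, hmin⟩ := isCompact_Icc.exists_isMinOn (nonempty_Icc.2 hTpos) cf.continuousOn
    refine ⟨min c (f t2), lt_min hcpos (hf t2), fun t ht => ?_⟩
    have hexp : Real.exp (-((1 + ε) * Real.exp t)) ≤ 1 := by
      rw [Real.exp_le_one_iff]
      have : 0 < (1 + ε) * Real.exp t := by positivity
      linarith
    rcases le_total T t with h | h
    · have h5 := main t h
      have h6 : min c (f t2) * Real.exp (-((1 + ε) * Real.exp t)) ≤ c * Real.exp (-((1 + ε) * Real.exp t)) := by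
        gcongr
        exact min_le_left _ _
      linarith
    · have h5 : f t2 ≤ f t := hmin ⟨ht, h⟩
      calc min c (f t2) * Real.exp (-((1 + ε) * Real.exp t)) ≤ min c (f t2) * 1 := by
            gcongr
            exact le_min hcpos.le (hf t2).le
        _ ≤ f t2 := by rw [mul_one]; exact min_le_right _ _
        _ ≤ f t := h5

end Pool.Agent.RLT40
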