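import Pool.Agent.RLT40.GNc
import Pool.Agent.RLT40.GNd
import Pool.Agent.RLT40.GNe

/-!
# Modules GN1, GN2, GN3 (paper 2.A5): the one-state problem.

GN1 `gn_exists`: maximise `Xi` on `{En ≤ 1, Om ≤ 1}` (scale `f → f/sqrt En`, shift `f(·-a)`: `Om → e^{2a}Om`, `Xi → e^{2γa/(1+γ)}Xi`; the quotient `Xi^{1+γ}/(Om^γ En²)` is invariant).
`f(x)² ≤ En`, Hölder 1/2: Arzela-Ascoli on compacts (diagonal sequence), derivative: weak `L²` limit (WeakDual.isSeqCompact_closedBall in `L²(ℝ)`, or ultrafilter), lower semicontinuity of `En`, `Om` (Fatou);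
tails: `x < -T`: `∫|f|^{2p'} e^{2γx/(1+γ)} ≤ e^{-2γT/(1+γ)}∫f²`; `x > T`: `≤ ∫ f² e^{2γx/(1+γ)} ≤ e^{-T}∫ωf²` (`|f| ≤ 1`).  Replace `f` by `|f|`.
GN2 `gn_bubble`: first variation in direction `η` (H1om): `(1+γ)2p' ∫f^{2p'-1}e^{..}η/Xi = 2γ∫ωfη/Om + 2·2∫(f'η'+fη)/En`, i.e. weakly `-f'' + f + e ω f = λ (f² e^{2γx})^{1/(1+γ)} f`, `e = γEn/(2Om)`, `λ = (2+γ)En/(2Xi)`;
shift so that `e = 1`, scale so that `Om = 1/(2π²)`; `C₁ = K(γ/2)^γ(2/(2+γ))^{2+γ}`, `K` the optimal constant.  `C²` regularity (du Bois-Reymond), positivity by ODE uniqueness.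
one-state: Hölder `∫Uf² ≤ J^{1/p}Xi^{1/p'}`; `(eOm + En)^p ≤ J K Om^γ En²`; `x = eOm/En`: `e^γ ≤ JK x^γ/(1+x)^p`, maximum at `x = γ/2`.  Members of `H10 a b` are in H1om.
GN3 asymptotics: `t → +∞`: `q = g/f`, `q' = 1+ω-U-q²`, `f ∈ L²(ω)` positive: `q → -∞`, `q/e^t → -1` (barriers `-(1±ε)e^t`), `U → 0`.  `t → -∞`: `q → 1` (`q' = 1+ω-U-q²`, `f ∈ L²` excludes `q ≤ -1+`), `f ≤ Ce^t`
(`∫(U+|1-q|) < ∞`), `A = ½e^t(f-g)`, `A' = ½e^t(U-ω)f`, `|A| ≤ Ce^{4t}` with `U ≤ C e^{2t}`.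
-/

open MeasureTheory Set
open scoped ENNReal NNReal

namespace Pool.Agent.RLT40

theorem exists_bubble {γ : ℝ} (hγ : 0 < γ) (hγ1 : γ ≤ 1) :
    ∃ (C₁ : ℝ) (f g U : ℝ → ℝ), OneState γ C₁ ∧ Bubble γ C₁ f g U := by
  obtain ⟨C₁, f, g, U, hC, hO, hs, hf, hU, cU, he, h2, h2', h3, h4, h5, h6⟩ := gn_euler hγ hγ1
  obtain ⟨hup, hlow⟩ := gn_right hγ hγ1 hC hs hf hU cU he h2 h2' h3
  exact ⟨C₁, f, g, U, hO, ⟨hC, hs, hf, hU, he, h3, h4, h5, h6, gn_left hγ hγ1 hC hs hf hU cU he h2 h2', hup, hlow⟩⟩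

end Pool.Agent.RLT40
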