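import Pool.Agent.RLT40.SDef

/-!
# Module SC (paper 5.3): the pressure identity.

`P_j' = -2 U φ_j φ_j' - 2 e_j ω φ_j²`; on `(-Lm, Lp)` `U = (γ ρ e^{2γt}/(C(2+γ)))^{1/(1+γ)}` is differentiable and
`(1+γ) C (U^{2+γ} e^{-2γt})' = γ U ρ' + 2γ C U^{2+γ} e^{-2γt}`; so `Z' = 2γ C U^{2+γ} e^{-2γt} - 2γ ω Σ α_j e_j φ_j²`.  `Z(-Lm) = Wl`, `Z(Lp) = Wr`, and `sum_eq`, `norm` give `Wl = Wr`.
`U1`: the same computation for `ρ_1 = α_0 φ_0²` (used in SN).
-/

open MeasureTheory Set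
open scoped ENNReal NNReal

namespace Pool.Agent.RLT40

variable {K₁ C₀ R : ℝ}

theorem SCa_om (x : ℝ) : HasDerivAt om (2 * om x) x := by
  have h : HasDerivAt (fun x : ℝ => 2 * x) 2 x := by simpa using (hasDerivAt_id x).const_mul 2
  have h2 := h.exp
  refine h2.congr_deriv ?_
  rw [om]; ring

theorem SCa_Cpos (S : SD K₁ C₀ R) : 0 < S.C := lt_of_lt_of_le (by norm_num) S.hC

theorem SCa_U_nonneg (S : SD K₁ C₀ R) (x : ℝ) : 0 ≤ S.U x := by
  by_cases hx : x ∈ Ioo (-S.Lm) S.Lp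
  · exact (S.U_pos x hx).le
  · rw [S.U_zero x hx]

theorem SCa_P (S : SD K₁ C₀ R) {j : ℕ} (hj : j < S.N) (x : ℝ) :
    HasDerivAt (S.P j) (-(2 * S.U x * (S.φ j x * S.dφ j x)) -
      2 * S.e j * (om x * S.φ j x ^ 2)) x := by
  have h1 := (S.sol j hj).d1 x
  have h2 := (S.sol j hj).d2 x
  have h3 := SCa_om x
  have h4 : HasDerivAt (fun t => S.dφ j t ^ 2 - (1 + S.e j * om t) * S.φ j t ^ 2) _ x :=
    (h2.pow 2).sub (((h3.const_mul (S.e j)).const_add 1).mul (h1.pow 2))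
  refine h4.congr_deriv ?_
  simp only [pot]
  push_cast
  ring

theorem SCa_rho (S : SD K₁ C₀ R) (x : ℝ) :
    HasDerivAt (fun t => ∑ j ∈ Finset.range S.N, S.α j * S.φ j t ^ 2)
      (∑ j ∈ Finset.range S.N, 2 * S.α j * (S.φ j x * S.dφ j x)) x := by
  refine HasDerivAt.fun_sum fun j hj => ?_
  have h1 := (S.sol j (Finset.mem_range.1 hj)).d1 x
  refine ((h1.pow 2).const_mul (S.α j)).congr_deriv ?_
  push_cast
  ring

theorem SCa_F (S : SD K₁ C₀ R) {x : ℝ} (hx : x ∈ Ioo (-S.Lm) S.Lp) :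
    HasDerivAt (fun t => (1 + S.γ) * S.C * S.U t ^ (2 + S.γ) * Real.exp (-(2 * S.γ * t)))
      (S.γ * S.U x * (∑ j ∈ Finset.range S.N, 2 * S.α j * (S.φ j x * S.dφ j x)) +
        2 * S.γ * (S.C * (S.U x ^ (2 + S.γ) * Real.exp (-(2 * S.γ * x))))) x := by
  have hC := SCa_Cpos S
  have hγ := S.hγ
  set ρ : ℝ → ℝ := fun t => ∑ j ∈ Finset.range S.N, S.α j * S.φ j t ^ 2 with hρ
  set ρ' : ℝ := ∑ j ∈ Finset.range S.N, 2 * S.α j * (S.φ j x * S.dφ j x) with hρ'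
  set Q : ℝ → ℝ := fun t => S.γ * ρ t * Real.exp (2 * S.γ * t) / (S.C * (2 + S.γ)) with hQ
  have hQU : ∀ t ∈ Ioo (-S.Lm) S.Lp, Q t = S.U t ^ (1 + S.γ) := by
    intro t ht
    have h := S.el t (Ioo_subset_Icc_self ht)
    have hE : Real.exp (-(2 * S.γ * t)) * Real.exp (2 * S.γ * t) = 1 := by
      rw [← Real.exp_add]; simp
    rw [hQ, hρ]
    simp only
    rw [h, div_eq_iff (by positivity)]
    linear_combination (S.C * (2 + S.γ) * S.U t ^ (1 + S.γ)) * hE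
  have hUx := S.U_pos x hx
  have hQx : 0 < Q x := by rw [hQU x hx]; positivity
  have hQd : HasDerivAt Q (S.γ * Real.exp (2 * S.γ * x) * (ρ' + 2 * S.γ * ρ x) /
      (S.C * (2 + S.γ))) x := by
    have h1 := SCa_rho S x
    have h2 : HasDerivAt (fun t : ℝ => Real.exp (2 * S.γ * t))
        (Real.exp (2 * S.γ * x) * (2 * S.γ)) x := by
      have h : HasDerivAt (fun t : ℝ => 2 * S.γ * t) (2 * S.γ) x := by
        simpa using (hasDerivAt_id x).const_mul (2 * S.γ)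
      exact h.exp
    have h3 := ((h1.const_mul S.γ).mul h2).div_const (S.C * (2 + S.γ))
    refine h3.congr_deriv ?_
    ring
  have hpow : HasDerivAt (fun t => Q t ^ ((2 + S.γ) / (1 + S.γ)))
      (S.γ * Real.exp (2 * S.γ * x) * (ρ' + 2 * S.γ * ρ x) / (S.C * (2 + S.γ)) *
        ((2 + S.γ) / (1 + S.γ)) * Q x ^ ((2 + S.γ) / (1 + S.γ) - 1)) x :=
    hQd.rpow_const (Or.inl hQx.ne')
  have hUQ : ∀ t ∈ Ioo (-S.Lm) S.Lp, S.U t ^ (2 + S.γ) = Q t ^ ((2 + S.γ) / (1 + S.γ)) := by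
    intro t ht
    rw [hQU t ht, ← Real.rpow_mul (S.U_pos t ht).le, mul_div_cancel₀]
    linarith
  have hU1 : Q x ^ ((2 + S.γ) / (1 + S.γ) - 1) = S.U x := by
    rw [hQU x hx, ← Real.rpow_mul hUx.le]
    have : (1 + S.γ) * ((2 + S.γ) / (1 + S.γ) - 1) = 1 := by
      field_simp; ring
    rw [this, Real.rpow_one]
  have hd : HasDerivAt (fun t => S.U t ^ (2 + S.γ))
      (S.γ * Real.exp (2 * S.γ * x) * (ρ' + 2 * S.γ * ρ x) / (S.C * (2 + S.γ)) *
        ((2 + S.γ) / (1 + S.γ)) * S.U x) x := by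
    rw [hU1] at hpow
    refine hpow.congr_of_eventuallyEq ?_
    filter_upwards [Ioo_mem_nhds hx.1 hx.2] with t ht
    exact hUQ t ht
  have hw : HasDerivAt (fun t : ℝ => Real.exp (-(2 * S.γ * t)))
      (Real.exp (-(2 * S.γ * x)) * (-(2 * S.γ))) x := by
    have h0 : HasDerivAt (fun t : ℝ => -(2 * S.γ) * t) (-(2 * S.γ)) x := by
      simpa using (hasDerivAt_id x).const_mul (-(2 * S.γ))
    have h : HasDerivAt (fun t : ℝ => -(2 * S.γ * t)) (-(2 * S.γ)) x := by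
      simpa only [neg_mul] using h0
    exact h.exp
  have hfin := (hd.const_mul ((1 + S.γ) * S.C)).mul hw
  refine hfin.congr_deriv ?_
  have hE : Real.exp (-(2 * S.γ * x)) * Real.exp (2 * S.γ * x) = 1 := by
    rw [← Real.exp_add]; simp
  have hel : S.γ * ρ x = S.C * (2 + S.γ) * S.U x ^ (1 + S.γ) * Real.exp (-(2 * S.γ * x)) :=
    S.el x (Ioo_subset_Icc_self hx)
  have hUU : S.U x ^ (2 + S.γ) = S.U x * S.U x ^ (1 + S.γ) := by
    rw [show (2 : ℝ) + S.γ = 1 + (1 + S.γ) by ring, Real.rpow_add hUx, Real.rpow_one]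
  have h1γ : (1 + S.γ) ≠ 0 := by linarith
  have h2γ : (2 + S.γ) ≠ 0 := by linarith
  have e1 : (1 + S.γ) * S.C * (S.γ * Real.exp (2 * S.γ * x) * (ρ' + 2 * S.γ * ρ x) /
      (S.C * (2 + S.γ)) * ((2 + S.γ) / (1 + S.γ)) * S.U x) * Real.exp (-(2 * S.γ * x)) =
      S.γ * S.U x * (ρ' + 2 * S.γ * ρ x) *
        (Real.exp (-(2 * S.γ * x)) * Real.exp (2 * S.γ * x)) := by
    field_simp
  rw [hE, mul_one] at e1
  rw [e1, hUU]
  linear_combination (2 * S.γ * S.U x) * hel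

/-- the derivative of `Z` -/
noncomputable def SCa_dZ (S : SD K₁ C₀ R) (x : ℝ) : ℝ :=
  2 * S.γ * (S.C * (S.U x ^ (2 + S.γ) * Real.exp (-(2 * S.γ * x))) -
    ∑ j ∈ Finset.range S.N, S.α j * S.e j * (om x * S.φ j x ^ 2))

theorem SCa_Z (S : SD K₁ C₀ R) {x : ℝ} (hx : x ∈ Ioo (-S.Lm) S.Lp) :
    HasDerivAt S.Z (SCa_dZ S x) x := by
  have h1 : HasDerivAt (fun t => S.γ * ∑ j ∈ Finset.range S.N, S.α j * S.P j t)
      (S.γ * ∑ j ∈ Finset.range S.N, S.α j * (-(2 * S.U x * (S.φ j x * S.dφ j x)) -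
      2 * S.e j * (om x * S.φ j x ^ 2))) x := by
    refine (HasDerivAt.fun_sum fun j hj => ?_).const_mul S.γ
    exact (SCa_P S (Finset.mem_range.1 hj) x).const_mul (S.α j)
  have h2 := h1.add (SCa_F S hx)
  refine h2.congr_deriv ?_
  rw [SCa_dZ]
  have e1 : ∑ j ∈ Finset.range S.N, S.α j * (-(2 * S.U x * (S.φ j x * S.dφ j x)) -
      2 * S.e j * (om x * S.φ j x ^ 2)) =
      -(S.U x * ∑ j ∈ Finset.range S.N, 2 * S.α j * (S.φ j x * S.dφ j x)) -
      2 * ∑ j ∈ Finset.range S.N, S.α j * S.e j * (om x * S.φ j x ^ 2) := by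
    rw [Finset.mul_sum, Finset.mul_sum, ← Finset.sum_neg_distrib, ← Finset.sum_sub_distrib]
    exact Finset.sum_congr rfl fun j _ => by ring
  rw [e1]
  ring

theorem SCa_om_cont : Continuous om := by
  unfold om
  fun_prop

theorem SCa_cU (S : SD K₁ C₀ R) : Continuous fun x => S.U x ^ (2 + S.γ) := by
  have hγ := S.hγ
  exact S.cU.rpow_const fun x => Or.inr (by linarith)

theorem SCa_cmass (S : SD K₁ C₀ R) :
    Continuous fun x => S.U x ^ (2 + S.γ) * Real.exp (-(2 * S.γ * x)) :=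
  (SCa_cU S).mul (by fun_prop)

theorem SCa_cφ (S : SD K₁ C₀ R) {j : ℕ} (hj : j < S.N) : Continuous (S.φ j) :=
  continuous_iff_continuousAt.2 fun x => ((S.sol j hj).d1 x).continuousAt

theorem SCa_cdφ (S : SD K₁ C₀ R) {j : ℕ} (hj : j < S.N) : Continuous (S.dφ j) :=
  continuous_iff_continuousAt.2 fun x => ((S.sol j hj).d2 x).continuousAt

theorem SCa_cterm (S : SD K₁ C₀ R) {j : ℕ} (hj : j < S.N) :
    Continuous fun x => om x * S.φ j x ^ 2 :=
  SCa_om_cont.mul ((SCa_cφ S hj).pow 2)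

theorem SCa_cZ (S : SD K₁ C₀ R) : Continuous S.Z := by
  have h1 : Continuous fun t => ∑ j ∈ Finset.range S.N, S.α j * S.P j t := by
    refine continuous_finsetSum _ fun j hj => ?_
    have hj' := Finset.mem_range.1 hj
    refine continuous_const.mul ?_
    exact ((SCa_cdφ S hj').pow 2).sub
      ((continuous_const.add (continuous_const.mul SCa_om_cont)).mul ((SCa_cφ S hj').pow 2))
  exact (continuous_const.mul h1).add
    ((continuous_const.mul (SCa_cU S)).mul (by fun_prop))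

theorem SCa_cdZ (S : SD K₁ C₀ R) : Continuous (SCa_dZ S) := by
  have h1 : Continuous fun x => ∑ j ∈ Finset.range S.N, S.α j * S.e j * (om x * S.φ j x ^ 2) :=
    continuous_finsetSum _ fun j hj => continuous_const.mul (SCa_cterm S (Finset.mem_range.1 hj))
  exact continuous_const.mul ((continuous_const.mul (SCa_cmass S)).sub h1)

theorem SCa_int (S : SD K₁ C₀ R) {s t : ℝ} (hs : -S.Lm ≤ s) (hst : s ≤ t) (ht : t ≤ S.Lp) :
    S.Z t - S.Z s = 2 * S.γ * (S.C * S.m s t - S.gm (Finset.range S.N) s t) := by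
  have h1 := intervalIntegral.integral_eq_sub_of_hasDerivAt_of_le hst (SCa_cZ S).continuousOn
    (fun x hx => SCa_Z S (x := x) ⟨lt_of_le_of_lt hs hx.1, lt_of_lt_of_le hx.2 ht⟩)
    ((SCa_cdZ S).intervalIntegrable s t)
  rw [← h1]
  unfold SCa_dZ
  rw [intervalIntegral.integral_const_mul, intervalIntegral.integral_sub,
    intervalIntegral.integral_const_mul, intervalIntegral.integral_finsetSum]
  · rw [SD.m, SD.gm]
    congr 2
    refine Finset.sum_congr rfl fun j _ => ?_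
    rw [intervalIntegral.integral_const_mul]
  · intro j hj
    exact (continuous_const.mul (SCa_cterm S (Finset.mem_range.1 hj))).intervalIntegrable s t
  · exact (continuous_const.mul (SCa_cmass S)).intervalIntegrable s t
  · exact (continuous_finsetSum _ fun j hj =>
      continuous_const.mul (SCa_cterm S (Finset.mem_range.1 hj))).intervalIntegrable s t

theorem SCa_lt (S : SD K₁ C₀ R) : -S.Lm < S.Lp := by
  by_contra hcon
  push Not at hcon
  have h1 := S.norm 0 S.hN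
  have h2 : 0 < S.e 0 ^ (S.γ - 1) := Real.rpow_pos_of_pos (S.e_pos 0 S.hN) _
  have h3 : (∫ x in (-S.Lm)..S.Lp, om x * S.φ 0 x ^ 2) ≤ 0 := by
    rw [intervalIntegral.integral_symm]
    have : 0 ≤ ∫ x in S.Lp..(-S.Lm), om x * S.φ 0 x ^ 2 :=
      intervalIntegral.integral_nonneg hcon fun x _ =>
        mul_nonneg (Real.exp_pos _).le (sq_nonneg _)
    linarith
  have h4 := S.α_pos 0 S.hN
  have h5 : S.α 0 * (∫ x in (-S.Lm)..S.Lp, om x * S.φ 0 x ^ 2) ≤ 0 :=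
    mul_nonpos_of_nonneg_of_nonpos h4.le h3
  linarith

theorem SCa_Z_end (S : SD K₁ C₀ R) {x : ℝ} (hx : x ∉ Ioo (-S.Lm) S.Lp)
    (hφ : ∀ j < S.N, S.φ j x = 0) :
    S.Z x = S.γ * ∑ j ∈ Finset.range S.N, S.α j * S.dφ j x ^ 2 := by
  have hγ := S.hγ
  rw [SD.Z, S.U_zero x hx, Real.zero_rpow (by linarith), mul_zero, zero_mul, add_zero]
  congr 1
  refine Finset.sum_congr rfl fun j hj => ?_
  rw [SD.P, hφ j (Finset.mem_range.1 hj)]
  ring

theorem SCa_Z_Lm (S : SD K₁ C₀ R) : S.Z (-S.Lm) = S.Wl :=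
  SCa_Z_end S (fun h => lt_irrefl _ h.1) S.φ_left

theorem SCa_Z_Lp (S : SD K₁ C₀ R) : S.Z S.Lp = S.Wr :=
  SCa_Z_end S (fun h => lt_irrefl _ h.2) S.φ_right

theorem SD.Z_left (S : SD K₁ C₀ R) {s : ℝ} (hs : s ∈ Icc (-S.Lm) S.Lp) :
    S.Z s = S.Wl + 2 * S.γ * (S.C * S.m (-S.Lm) s - S.gm (Finset.range S.N) (-S.Lm) s) := by
  have h := SCa_int S le_rfl hs.1 hs.2
  rw [SCa_Z_Lm] at h
  linarith

theorem SD.Z_right (S : SD K₁ C₀ R) {s : ℝ} (hs : s ∈ Icc (-S.Lm) S.Lp) :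
    S.Z s = S.Wr + 2 * S.γ * (S.gm (Finset.range S.N) s S.Lp - S.C * S.m s S.Lp) := by
  have h := SCa_int S hs.1 hs.2 le_rfl
  rw [SCa_Z_Lp] at h
  linarith

theorem SD.walls_eq (S : SD K₁ C₀ R) : S.Wl = S.Wr := by
  have h := S.Z_left (right_mem_Icc.2 (SCa_lt S).le)
  rw [SCa_Z_Lp] at h
  have e1 : S.gm (Finset.range S.N) (-S.Lm) S.Lp = S.C * S.m (-S.Lm) S.Lp := by
    rw [SD.gm, SD.m, ← S.sum_eq]
    refine Finset.sum_congr rfl fun j hj => ?_
    have hj' := Finset.mem_range.1 hj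
    have h1 := S.norm j hj'
    have h2 : S.e j ^ S.γ = S.e j ^ (S.γ - 1) * S.e j := by
      rw [Real.rpow_sub_one (S.e_pos j hj').ne', div_mul_cancel₀ _ (S.e_pos j hj').ne']
    rw [h2, ← h1]
    ring
  rw [e1] at h
  linarith

end Pool.Agent.RLT40
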