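import Pool.Agent.RLT40.SGdefs

/-!
# Module SK (paper 5.7 (iii)): the first zeros of the excited states.

`j ≥ 1`: `φ_j(z)|g₀(z)| = e_j ∫_{-Lm}^z ω φ_j f₀ ≤ C e_j e^{0.03z}` (`φ_j ≤ C e^{-0.99t}` on `[0,z_j]`, max_principle), so `φ_j(z) ≤ C e_j e^{1.03z}`; `A_j(z) ≥ 0.45`, so `φ_j'(z) ≤ -0.8e^{-z}`; hence
`z_j - z ≤ C e_j e^{2.03z} ≤ C K₁ e^{-2T+1.83T} ≤ η`, and `φ_j'(z_j) ≤ -0.7 e^{-z}`.  A supporter is some `j ≥ 1` (ground_bound), `c e^{-γT} ≤ |φ_j(T)| ≤ C e^{T-1.99z_j}`: `z_j ≤ 0.6T`; so `N ≥ 2`.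
`s` = first zero of `φ 1` (`≥ z_j` for all `j ≥ 1` by first_mono).  For `j ≥ 1`: on `[z_j,s]` `φ_j ≤ 0`, `|φ_j'|` nondecreasing, so `|φ_j(s)| ≤ (s - z_j)|φ_j'(s)|`.
-/

open MeasureTheory Set
open scoped ENNReal NNReal

namespace Pool.Agent.RLT40

variable {K₁ C₀ R : ℝ}

/-- everything known at the first zero `s` of `φ 1` -/
structure SD.IsS (S : SD K₁ C₀ R) (T z s : ℝ) : Prop where
  two : 2 ≤ S.N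
  first : S.IsFirst 1 s
  zs : z < s
  close : s ≤ z + 1 / 100
  sT : s ≤ 0.61 * T
  slope : ∀ j, 1 ≤ j → j < S.N → S.dφ j s < 0 ∧ S.φ j s ≤ 0 ∧ |S.φ j s| ≤ 1 / 10 * |S.dφ j s| ∧ (∀ x ∈ Ioc s T, S.φ j x < 0)
  zeros : ∀ j, 1 ≤ j → j < S.N → ∃ zj, S.IsFirst j zj ∧ zj ≤ s ∧ ∀ x ∈ Ioo zj s, S.φ j x ≠ 0
  e0 : Real.exp (-(2.06 * s)) ≤ S.e 0
  ej : ∀ j, 1 ≤ j → j < S.N → S.e j * om T ≤ K₁
  eT : K₁ + 1 ≤ S.e 0 * om T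

end Pool.Agent.RLT40
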