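import Pool.Agent.RLT40.OdeA
import Pool.Agent.RLT40.SCa
import Pool.Agent.RLT40.SKdefs

/-!
# Module SO (paper 5.9): conclusion of section 5.

`N = 1` (N_eq_one): `C J = e_0^γ ≤ C₁ J` by OneState applied to `f = φ_0` on the box.  Otherwise `T` exists; wall_lower, wall_left, walls_eq, wall_right: `(1+γ)T ≥ Lm - C`, `Lm ≥ γ Lp - C`, so `T ≥ c(γ)(Lm+Lp) - C`.
Spacing: for `j ≥ 2` (third state on) consecutive zeros of `φ_j` beyond `T` are at distance `≥ π/sqrt K₁` and the interval between the last two zeros meets `{e_jω ≤ K₁}`: `e_j ≤ K₁ exp(-2T - 2(j-2)π/sqrt K₁)`; so `Σ_{j≥1} e_j^γ ≤ C(γ,K₁) e^{-2γT}`.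
`J(U) ≥ c` (`∫_{-1}^1 U² ` large).  `C J = e_0^γ + Σ_{j≥1}e_j^γ ≤ C₁J + C(γ)e^{-2γT}`.
-/

open MeasureTheory Set
open scoped ENNReal NNReal

namespace Pool.Agent.RLT40

variable {K₁ C₀ : ℝ}

/-- the form vanishes on a Dirichlet solution (first form) -/
theorem dir_form {a b : ℝ} (hab : a ≤ b) {V φ ψ : ℝ → ℝ} (hV : Continuous V) (h : Sol V φ ψ) (ha : φ a = 0) (hb : φ b = 0) :
    ∫ x in a..b, (ψ x ^ 2 + V x * φ x ^ 2) = 0 := by
  have hcφ := h.continuous_left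
  have hcψ := h.continuous_right
  have h4 : ∀ x ∈ uIcc a b, HasDerivAt (fun x => φ x * ψ x) (ψ x * ψ x + φ x * (V x * φ x)) x := fun x _ => (h.d1 x).mul (h.d2 x)
  have h5 := intervalIntegral.integral_eq_sub_of_hasDerivAt h4 (Continuous.intervalIntegrable (by fun_prop) _ _)
  rw [ha, hb] at h5
  simp only [zero_mul, sub_zero] at h5
  rw [← h5]
  refine intervalIntegral.integral_congr fun x _ => ?_
  show ψ x ^ 2 + V x * φ x ^ 2 = ψ x * ψ x + φ x * (V x * φ x)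
  ring

/-- `φ(t)² ≤ (b-a) ∫ ψ²` for a function vanishing at `a` -/
theorem sup_sq_C1 {a b : ℝ} {φ ψ : ℝ → ℝ} (h : ∀ x, HasDerivAt φ (ψ x) x) (hψ : Continuous ψ) (ha : φ a = 0) {t : ℝ} (ht : t ∈ Icc a b) :
    φ t ^ 2 ≤ (b - a) * ∫ x in a..b, ψ x ^ 2 := by
  have h1 : φ t = ∫ x in a..t, ψ x := by
    rw [intervalIntegral.integral_eq_sub_of_hasDerivAt (fun x _ => h x) (hψ.intervalIntegrable _ _), ha, sub_zero]
  have h2 : (∫ x in a..t, ψ x) ^ 2 ≤ (t - a) * ∫ x in a..t, ψ x ^ 2 := by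
    have hc : ∀ c : ℝ, 0 ≤ ∫ x in a..t, (ψ x - c) ^ 2 := fun c =>
      intervalIntegral.integral_nonneg ht.1 fun x _ => sq_nonneg _
    have he : ∀ c : ℝ, ∫ x in a..t, (ψ x - c) ^ 2 = (∫ x in a..t, ψ x ^ 2) - 2 * c * (∫ x in a..t, ψ x) + c ^ 2 * (t - a) := by
      intro c
      have i1 : IntervalIntegrable (fun x => ψ x ^ 2) volume a t := (hψ.pow 2).intervalIntegrable _ _
      have i2 : IntervalIntegrable (fun x => 2 * c * ψ x) volume a t := (continuous_const.mul hψ).intervalIntegrable _ _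
      have i3 : IntervalIntegrable (fun _ : ℝ => c ^ 2) volume a t := intervalIntegrable_const
      have e1 : (fun x => (ψ x - c) ^ 2) = fun x => ψ x ^ 2 - 2 * c * ψ x + c ^ 2 := by ext x; ring
      rw [e1, intervalIntegral.integral_add (i1.sub i2) i3, intervalIntegral.integral_sub i1 i2, intervalIntegral.integral_const_mul,
        intervalIntegral.integral_const, smul_eq_mul]
      ring
    rcases ht.1.eq_or_lt with h0 | h0
    · subst h0; simp
    · have h3 := hc ((∫ x in a..t, ψ x) / (t - a))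
      rw [he] at h3
      have h4 : 0 < t - a := sub_pos.2 h0
      have h5 : (∫ x in a..t, ψ x ^ 2) - 2 * ((∫ x in a..t, ψ x) / (t - a)) * (∫ x in a..t, ψ x) + ((∫ x in a..t, ψ x) / (t - a)) ^ 2 * (t - a)
          = (∫ x in a..t, ψ x ^ 2) - (∫ x in a..t, ψ x) ^ 2 / (t - a) := by
        field_simp
        ring
      rw [h5, sub_nonneg, div_le_iff₀ h4] at h3
      linarith
  have h3 : (∫ x in a..t, ψ x ^ 2) ≤ ∫ x in a..b, ψ x ^ 2 :=
    intervalIntegral.integral_mono_interval le_rfl ht.1 ht.2 (Filter.Eventually.of_forall fun x => sq_nonneg _) ((hψ.pow 2).intervalIntegrable _ _)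
  have h4 : 0 ≤ ∫ x in a..t, ψ x ^ 2 := intervalIntegral.integral_nonneg ht.1 fun x _ => sq_nonneg _
  rw [h1]
  refine h2.trans ?_
  have h5 : t - a ≤ b - a := by linarith [ht.2]
  have h6 : 0 ≤ t - a := by linarith [ht.1]
  exact mul_le_mul h5 h3 h4 (h6.trans h5)

/-- two zeros are at distance `≥ 1/sqrt K` -/
theorem zero_dist {V φ ψ : ℝ → ℝ} (hV : Continuous V) (h : Sol V φ ψ) (hne : ∃ x, φ x ≠ 0) {K : ℝ} (hK : 0 < K) (hVK : ∀ x, -K ≤ V x) {x y : ℝ}
    (hxy : x < y) (hx : φ x = 0) (hy : φ y = 0) : 1 ≤ K * (y - x) ^ 2 := by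
  by_contra hcon
  push Not at hcon
  have hcφ := h.continuous_left
  have hcψ := h.continuous_right
  have h1 := dir_form hxy.le hV h hx hy
  set I := ∫ t in x..y, ψ t ^ 2 with hI
  have hI0 : 0 ≤ I := intervalIntegral.integral_nonneg hxy.le fun t _ => sq_nonneg _
  have i1 : IntervalIntegrable (fun t => ψ t ^ 2) volume x y := (hcψ.pow 2).intervalIntegrable _ _
  have i2 : IntervalIntegrable (fun t => V t * φ t ^ 2) volume x y := (hV.mul (hcφ.pow 2)).intervalIntegrable _ _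
  rw [intervalIntegral.integral_add i1 i2] at h1
  have h2 : -(K * ((y - x) * ((y - x) * I))) ≤ ∫ t in x..y, V t * φ t ^ 2 := by
    have h3 : ∫ t in x..y, (-(K * ((y - x) * I)) : ℝ) ≤ ∫ t in x..y, V t * φ t ^ 2 := by
      refine intervalIntegral.integral_mono_on hxy.le intervalIntegrable_const i2 fun t ht => ?_
      have h4 := sup_sq_C1 h.d1 hcψ hx ht
      have h5 := hVK t
      have h6 : -(K * φ t ^ 2) ≤ V t * φ t ^ 2 := by nlinarith [sq_nonneg (φ t)]
      have h7 : K * φ t ^ 2 ≤ K * ((y - x) * I) := by gcongr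
      linarith
    rw [intervalIntegral.integral_const, smul_eq_mul] at h3
    linarith
  have h3 : I * (1 - K * (y - x) ^ 2) ≤ 0 := by nlinarith
  have h4 : I = 0 := by
    have : 0 < 1 - K * (y - x) ^ 2 := by linarith
    nlinarith
  -- so `φ = 0` on `[x,y]`
  have h5 : ∀ t ∈ Icc x y, φ t = 0 := by
    intro t ht
    have h6 := sup_sq_C1 h.d1 hcψ hx ht
    rw [← hI, h4, mul_zero] at h6
    exact pow_eq_zero_iff two_ne_zero |>.1 (le_antisymm h6 (sq_nonneg _))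
  have h6 := h.deriv_ne_zero hV hne (h5 ((x + y) / 2) ⟨by linarith, by linarith⟩)
  refine h6 ?_
  have h7 : φ =ᶠ[nhds ((x + y) / 2)] fun _ => 0 := by
    filter_upwards [Ioo_mem_nhds (show x < (x + y) / 2 by linarith) (show (x + y) / 2 < y by linarith)] with t ht
    exact h5 t ⟨ht.1.le, ht.2.le⟩
  exact (h.d1 _).unique ((hasDerivAt_const _ (0 : ℝ)).congr_of_eventuallyEq h7)

/-- a positive potential has at most one zero -/
theorem no_two_zeros {V φ ψ : ℝ → ℝ} (hV : Continuous V) (h : Sol V φ ψ) (hne : ∃ x, φ x ≠ 0) {x y : ℝ}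
    (hxy : x < y) (hx : φ x = 0) (hy : φ y = 0) (hpos : ∀ t ∈ Icc x y, 0 ≤ V t) : False := by
  have hcφ := h.continuous_left
  have hcψ := h.continuous_right
  have h1 := dir_form hxy.le hV h hx hy
  set I := ∫ t in x..y, ψ t ^ 2 with hI
  have hI0 : 0 ≤ I := intervalIntegral.integral_nonneg hxy.le fun t _ => sq_nonneg _
  have i1 : IntervalIntegrable (fun t => ψ t ^ 2) volume x y := (hcψ.pow 2).intervalIntegrable _ _
  have i2 : IntervalIntegrable (fun t => V t * φ t ^ 2) volume x y := (hV.mul (hcφ.pow 2)).intervalIntegrable _ _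
  rw [intervalIntegral.integral_add i1 i2] at h1
  have h2 : 0 ≤ ∫ t in x..y, V t * φ t ^ 2 := intervalIntegral.integral_nonneg hxy.le fun t ht => mul_nonneg (hpos t ht) (sq_nonneg _)
  have h4 : I = 0 := by linarith
  have h5 : ∀ t ∈ Icc x y, φ t = 0 := by
    intro t ht
    have h6 := sup_sq_C1 h.d1 hcψ hx ht
    rw [← hI, h4, mul_zero] at h6
    exact pow_eq_zero_iff two_ne_zero |>.1 (le_antisymm h6 (sq_nonneg _))
  have h6 := h.deriv_ne_zero hV hne (h5 ((x + y) / 2) ⟨by linarith, by linarith⟩)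
  refine h6 ?_
  have h7 : φ =ᶠ[nhds ((x + y) / 2)] fun _ => 0 := by
    filter_upwards [Ioo_mem_nhds (show x < (x + y) / 2 by linarith) (show (x + y) / 2 < y by linarith)] with t ht
    exact h5 t ⟨ht.1.le, ht.2.le⟩
  exact (h.d1 _).unique ((hasDerivAt_const _ (0 : ℝ)).congr_of_eventuallyEq h7)

/-- a finite set of `n + 1` numbers `> T` with gaps `≥ d` has an element `≥ T + n d` -/
theorem spaced {d T : ℝ} : ∀ (n : ℕ) (Z : Finset ℝ), n + 1 ≤ Z.card → (∀ x ∈ Z, T < x) →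
    (∀ x ∈ Z, ∀ y ∈ Z, x < y → d ≤ y - x) → ∃ y ∈ Z, T + n * d ≤ y ∧ ∀ x ∈ Z, x ≤ y := by
  intro n
  induction n with
  | zero =>
    intro Z hZ hT _
    have hne : Z.Nonempty := Finset.card_pos.1 (by omega)
    obtain ⟨y, hy, hmax⟩ := Z.exists_max_image id hne
    exact ⟨y, hy, by simpa using (hT y hy).le, hmax⟩
  | succ n ih =>
    intro Z hZ hT hd
    have hne : Z.Nonempty := Finset.card_pos.1 (by omega)
    obtain ⟨y, hy, hmax⟩ := Z.exists_max_image id hne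
    obtain ⟨y', hy', hy'2, _⟩ := ih (Z.erase y) (by rw [Finset.card_erase_of_mem hy]; omega)
      (fun x hx => hT x (Finset.mem_of_mem_erase hx))
      (fun x hx w hw => hd x (Finset.mem_of_mem_erase hx) w (Finset.mem_of_mem_erase hw))
    have h1 := Finset.mem_erase.1 hy'
    have h2 : y' < y := lt_of_le_of_ne (hmax y' h1.2) h1.1
    have h3 := hd y' h1.2 y hy h2
    refine ⟨y, hy, ?_, hmax⟩
    push_cast
    nlinarith

theorem ev_neg_right {φ : ℝ → ℝ} {d x : ℝ} (h : HasDerivAt φ d x) (h0 : φ x = 0) (hd : d < 0) : ∀ᶠ y in nhdsWithin x (Ioi x), φ y < 0 := by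
  have e1 := (hasDerivAt_iff_tendsto_slope.1 h).mono_left
    (nhdsWithin_mono x (fun y (hy : y ∈ Ioi x) => (ne_of_gt hy : y ≠ x)))
  filter_upwards [e1.eventually (gt_mem_nhds hd), self_mem_nhdsWithin] with y hy hyx
  rw [slope_def_field, h0, sub_zero] at hy
  by_contra hcon
  push Not at hcon
  exact absurd hy (not_lt.2 (div_nonneg hcon (sub_pos.2 hyx).le))

theorem ev_pos_left {φ : ℝ → ℝ} {d x : ℝ} (h : HasDerivAt φ d x) (h0 : φ x = 0) (hd : d < 0) : ∀ᶠ y in nhdsWithin x (Iio x), 0 < φ y := by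
  have e1 := (hasDerivAt_iff_tendsto_slope.1 h).mono_left
    (nhdsWithin_mono x (fun y (hy : y ∈ Iio x) => (ne_of_lt hy : y ≠ x)))
  filter_upwards [e1.eventually (gt_mem_nhds hd), self_mem_nhdsWithin] with y hy hyx
  rw [slope_def_field, h0, sub_zero] at hy
  by_contra hcon
  push Not at hcon
  exact absurd hy (not_lt.2 (div_nonneg_of_nonpos hcon (sub_neg.2 hyx).le))

theorem deriv_nonpos_of_pos_left {φ : ℝ → ℝ} {a d x : ℝ} (h : HasDerivAt φ d x) (h0 : φ x = 0) (ha : a < x) (hp : ∀ y ∈ Ioo a x, 0 < φ y) : d ≤ 0 := by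
  by_contra hcon
  push Not at hcon
  have h1 := ev_pos_left (φ := fun y => -φ y) h.neg (by simp [h0]) (by linarith)
  have h2 : Ioo a x ∈ nhdsWithin x (Iio x) := Ioo_mem_nhdsLT ha
  obtain ⟨y, hy1, hy2⟩ := (h1.and (Filter.eventually_of_mem h2 fun y hy => hp y hy)).exists
  linarith

theorem SD.spacing {R : ℝ} (S : SD K₁ C₀ R) (hK : 0 < K₁) {T z s : ℝ} (hT : S.IsT T) (hs : S.IsS T z s) {j : ℕ} (hj : 2 ≤ j)
    (hjN : j < S.N) : S.e j ≤ K₁ * Real.exp (-(2 * (T + ((j - 2 : ℕ) : ℝ) * (1 / Real.sqrt K₁)))) := by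
  have hsol := S.sol j hjN
  have hVc : Continuous (pot 1 (S.e j) S.U) := by have := S.cU; unfold pot om; fun_prop
  have hne : ∃ x, S.φ j x ≠ 0 := ⟨0, by rw [S.φ_zero j hjN]; norm_num⟩
  have he := S.e_pos j hjN
  obtain ⟨Z, hZc, hZ⟩ := S.nodes j hjN
  obtain ⟨zj, hzj, hzjs, hbtw⟩ := hs.zeros j (by omega) hjN
  obtain ⟨hsl1, hsl2, -, hsl4⟩ := hs.slope j (by omega) hjN
  -- at most one zero before `T`
  have huniq : ∀ x ∈ Z, ∀ y ∈ Z, x < y → y ≤ T → False := by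
    intro x hx y hy hxy hyT
    obtain ⟨hxI, hx0⟩ := hZ x hx
    obtain ⟨hyI, hy0⟩ := hZ y hy
    have hys : y ≤ s := by
      by_contra hc
      push Not at hc
      exact absurd hy0 (hsl4 y ⟨hc, hyT⟩).ne
    have hxzj : x = zj := by
      rcases lt_trichotomy x zj with h | h | h
      · exact absurd hx0 (hzj.pos x ⟨hxI.1, h⟩).ne'
      · exact h
      · exact absurd hx0 (hbtw x ⟨h, hxy.trans_le hys⟩)
    have hys' : y = s := by
      rcases hys.lt_or_eq with h | h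
      · exact absurd hy0 (hbtw y ⟨by rw [← hxzj]; exact hxy, h⟩)
      · exact h
    rw [hys'] at hy0 hxy
    rw [hxzj] at hx0 hxy hxI
    have hneg : S.dφ j zj < 0 :=
      lt_of_le_of_ne (deriv_nonpos_of_pos_left (hsol.d1 zj) hx0 hxI.1 hzj.pos) (hsol.deriv_ne_zero hVc hne hx0)
    obtain ⟨u, hu1, hu2⟩ := ((ev_neg_right (hsol.d1 zj) hx0 hneg).and
      (Filter.eventually_of_mem (Ioo_mem_nhdsGT hxy) fun y hy => hy)).exists
    obtain ⟨v, hv1, hv2⟩ := ((ev_pos_left (hsol.d1 s) hy0 hsl1).and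
      (Filter.eventually_of_mem (Ioo_mem_nhdsLT hu2.2) fun y hy => hy)).exists
    obtain ⟨w, hw, hw0⟩ := intermediate_value_Ioo hv2.1.le hsol.continuous_left.continuousOn (show (0 : ℝ) ∈ Ioo (S.φ j u) (S.φ j v) from ⟨hu1, hv1⟩)
    exact hbtw w ⟨hu2.1.trans hw.1, hw.2.trans hv2.2⟩ hw0
  set Z' := Z.filter fun x => T < x with hZ'
  have hcard : (j - 2) + 1 ≤ Z'.card := by
    have h1 := Finset.card_filter_add_card_filter_not (s := Z) (fun x => T < x)
    have h2 : (Z.filter fun x => ¬ T < x).card ≤ 1 := by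
      rw [Finset.card_le_one]
      intro x hx y hy
      simp only [Finset.mem_filter, not_lt] at hx hy
      rcases lt_trichotomy x y with h | h | h
      · exact (huniq x hx.1 y hy.1 h hy.2).elim
      · exact h
      · exact (huniq y hy.1 x hx.1 h hx.2).elim
    have h3 : Z'.card + (Z.filter fun x => ¬ T < x).card = Z.card := h1
    omega
  have hVK : ∀ x, -K₁ ≤ pot 1 (S.e j) S.U x := by
    intro x
    have h1 := S.U_le x
    have h2 : 0 < S.e j * om x := mul_pos he (Real.exp_pos _)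
    simp only [pot]; linarith
  obtain ⟨y, hyZ, hyT, -⟩ := spaced (d := 1 / Real.sqrt K₁) (T := T) (j - 2) Z' hcard
    (fun x hx => (Finset.mem_filter.1 hx).2) (by
      intro x hx w hw hxw
      have h1 := zero_dist hVc hsol hne hK hVK hxw (hZ x (Finset.mem_filter.1 hx).1).2 (hZ w (Finset.mem_filter.1 hw).1).2
      have h2 : 0 < w - x := sub_pos.2 hxw
      have h3 : 0 < Real.sqrt K₁ := Real.sqrt_pos.2 hK
      rw [div_le_iff₀ h3]
      have h4 : 1 ≤ ((w - x) * Real.sqrt K₁) ^ 2 := by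
        rw [mul_pow, Real.sq_sqrt hK.le]; linarith
      have h5 : 0 < (w - x) * Real.sqrt K₁ := by positivity
      nlinarith)
  obtain ⟨hyI, hy0⟩ := hZ y (Finset.mem_filter.1 hyZ).1
  -- `e_j ω(y) ≤ K₁`
  have hey : S.e j * om y ≤ K₁ := by
    by_contra hcon
    push Not at hcon
    refine no_two_zeros hVc hsol hne hyI.2 hy0 (S.φ_right j hjN) fun t ht => ?_
    have h1 := S.U_le t
    have h2 : om y ≤ om t := Real.exp_le_exp.2 (by linarith [ht.1])
    have h3 : S.e j * om y ≤ S.e j * om t := by gcongr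
    simp only [pot]; linarith
  have h1 : Real.exp (-(2 * y)) ≤ Real.exp (-(2 * (T + ((j - 2 : ℕ) : ℝ) * (1 / Real.sqrt K₁)))) := Real.exp_le_exp.2 (by linarith)
  have h2 : S.e j = S.e j * om y * Real.exp (-(2 * y)) := by
    rw [mul_assoc, om, ← Real.exp_add]; simp
  rw [h2]
  have h3 := Real.exp_pos (-(2 * y))
  calc S.e j * om y * Real.exp (-(2 * y)) ≤ K₁ * Real.exp (-(2 * y)) := by gcongr
    _ ≤ _ := by gcongr

/-- size of the excited energies -/
theorem excited_small (hK : 0 < K₁) (hC₀ : 0 < C₀) : ∃ R₀ ≥ C₀, ∀ γ > 0, ∃ C > 0, ∀ R ≥ R₀, ∀ S : SD K₁ C₀ R, S.γ = γ → ∀ T z s, S.IsT T → S.IsZ z →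
    S.IsS T z s → ∑ j ∈ Finset.Ico 1 S.N, S.e j ^ γ ≤ C * Real.exp (-(2 * γ * T)) := by
  refine ⟨C₀, le_rfl, fun γ hγ => ?_⟩
  set r : ℝ := Real.exp (-(2 * γ * (1 / Real.sqrt K₁))) with hr
  have hsq : 0 < Real.sqrt K₁ := Real.sqrt_pos.2 hK
  have hr0 : 0 < r := Real.exp_pos _
  have hr1 : r < 1 := by
    rw [hr, Real.exp_lt_one_iff]
    have : 0 < 2 * γ * (1 / Real.sqrt K₁) := by positivity
    linarith
  have h1r : 0 < 1 - r := by linarith
  refine ⟨K₁ ^ γ * (r ^ 2)⁻¹ * (1 - r)⁻¹, by positivity, ?_⟩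
  intro R hR S hSγ T z s hT hz hs
  have hterm : ∀ j ∈ Finset.Ico 1 S.N, S.e j ^ γ ≤ K₁ ^ γ * Real.exp (-(2 * γ * T)) * (r ^ 2)⁻¹ * r ^ j := by
    intro j hj
    rw [Finset.mem_Ico] at hj
    have he := S.e_pos j hj.2
    have hbase : ∀ n : ℕ, S.e j ≤ K₁ * Real.exp (-(2 * (T + (n : ℝ) * (1 / Real.sqrt K₁)))) → S.e j ^ γ ≤ K₁ ^ γ * Real.exp (-(2 * γ * T)) * r ^ n := by
      intro n hn
      have h1 : S.e j ^ γ ≤ (K₁ * Real.exp (-(2 * (T + (n : ℝ) * (1 / Real.sqrt K₁))))) ^ γ := Real.rpow_le_rpow he.le hn hγ.le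
      refine h1.trans (le_of_eq ?_)
      rw [Real.mul_rpow hK.le (Real.exp_pos _).le, ← Real.exp_mul, mul_assoc]
      congr 1
      rw [hr, ← Real.exp_nat_mul, ← Real.exp_add]
      congr 1
      ring
    rcases Nat.lt_or_ge j 2 with h2 | h2
    · have hj1 : j = 1 := by omega
      subst hj1
      have h3 := hs.ej 1 le_rfl hj.2
      have h4 : S.e 1 ≤ K₁ * Real.exp (-(2 * (T + ((0 : ℕ) : ℝ) * (1 / Real.sqrt K₁)))) := by
        have h5 : S.e 1 = S.e 1 * om T * Real.exp (-(2 * T)) := by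
          rw [mul_assoc, om, ← Real.exp_add]; simp
        rw [h5]
        simp only [Nat.cast_zero, zero_mul, add_zero]
        gcongr
      refine (hbase 0 h4).trans ?_
      rw [mul_assoc (K₁ ^ γ * _)]
      refine mul_le_mul_of_nonneg_left ?_ (by positivity)
      rw [pow_zero, pow_one]
      have : (r ^ 2)⁻¹ * r = r⁻¹ := by field_simp
      rw [this]
      exact (one_le_inv₀ hr0).2 hr1.le
    · refine (hbase (j - 2) (S.spacing hK hT hs h2 hj.2)).trans (le_of_eq ?_)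
      have h6 : r ^ j = r ^ 2 * r ^ (j - 2) := by rw [← pow_add]; congr 1; omega
      rw [h6]
      field_simp
  calc ∑ j ∈ Finset.Ico 1 S.N, S.e j ^ γ ≤ ∑ j ∈ Finset.Ico 1 S.N, K₁ ^ γ * Real.exp (-(2 * γ * T)) * (r ^ 2)⁻¹ * r ^ j := Finset.sum_le_sum hterm
    _ = K₁ ^ γ * Real.exp (-(2 * γ * T)) * (r ^ 2)⁻¹ * ∑ j ∈ Finset.Ico 1 S.N, r ^ j := by rw [Finset.mul_sum]
    _ ≤ K₁ ^ γ * Real.exp (-(2 * γ * T)) * (r ^ 2)⁻¹ * (1 - r)⁻¹ := by
        gcongr
        have h7 : ∑ j ∈ Finset.Ico 1 S.N, r ^ j ≤ ∑' j : ℕ, r ^ j :=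
          (summable_geometric_of_lt_one hr0.le hr1).sum_le_tsum _ fun i _ => by positivity
        rwa [tsum_geometric_of_lt_one hr0.le hr1] at h7
    _ = K₁ ^ γ * (r ^ 2)⁻¹ * (1 - r)⁻¹ * Real.exp (-(2 * γ * T)) := by ring

end Pool.Agent.RLT40
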