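import Pool.Agent.RLT40.SBb
import Pool.Agent.RLT40.SCa

/-!
# Module SW (paper 5.3): bounds on the wall pressures.

Left: left_bounds for each `φ_j` (`e_j ≤ e_0 ≤ cl`) and `weights`.  Right: with `x₀ = π/(2 sqrt K₁)`: `|φ_j(Lp - x₀)| ≥ |φ_j'(Lp)|/sqrt K₁` (comparison with the sine: as long as
`|φ_j| > 0`, `|φ_j|'' ≥ -K₁|φ_j|` since `1 + e_j ω - U ≥ -K₁`), and the field `el` at `Lp - x₀` with `U ≤ K₁`: `γ Σ α_j φ_j² ≤ C(2+γ) K₁^{1+γ} e^{-2γ(Lp - x₀)}`.
-/

open MeasureTheory Set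
open scoped ENNReal NNReal

namespace Pool.Agent.RLT40

variable {K₁ C₀ : ℝ}

theorem SW_aux {k : ℝ} (hk : 0 < k) {c u u1 : ℝ → ℝ} (hu : ∀ t, HasDerivAt u (u1 t) t)
    (hu1 : ∀ t, HasDerivAt u1 (c t * u t) t) (hc : ∀ t, -k ^ 2 ≤ c t) (h0 : u 0 = 0)
    {m' : ℝ} (hm' : 0 < m') (hm : m' < u1 0) : m' / k ≤ u (Real.pi / (2 * k)) := by
  set x₀ : ℝ := Real.pi / (2 * k) with hx₀
  have hx0 : 0 < x₀ := by positivity
  by_contra hcon
  push Not at hcon
  have hkx : k * x₀ = Real.pi / 2 := by rw [hx₀]; field_simp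
  set S : ℝ → ℝ := fun t => m' / k * Real.sin (k * t) with hS
  set S1 : ℝ → ℝ := fun t => m' * Real.cos (k * t) with hS1
  have hSd : ∀ t, HasDerivAt S (S1 t) t := by
    intro t
    have h1 : HasDerivAt (fun t : ℝ => k * t) k t := by simpa using (hasDerivAt_id t).const_mul k
    have h2 := (h1.sin).const_mul (m' / k)
    refine h2.congr_deriv ?_
    rw [hS1]; field_simp
  have hS1d : ∀ t, HasDerivAt S1 (-k ^ 2 * S t) t := by
    intro t
    have h1 : HasDerivAt (fun t : ℝ => k * t) k t := by simpa using (hasDerivAt_id t).const_mul k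
    have h2 := (h1.cos).const_mul m'
    refine h2.congr_deriv ?_
    rw [hS]; field_simp
  have hSpos : ∀ t, 0 < t → t ≤ x₀ → 0 < S t := by
    intro t ht ht'
    have h1 : 0 < k * t := by positivity
    have h2 : k * t < Real.pi := by
      have : k * t ≤ k * x₀ := by gcongr
      rw [hkx] at this
      linarith [Real.pi_pos]
    exact mul_pos (by positivity) (Real.sin_pos_of_pos_of_lt_pi h1 h2)
  have hSx : S x₀ = m' / k := by
    rw [hS]; simp only; rw [hkx, Real.sin_pi_div_two, mul_one]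
  have cu : Continuous u := continuous_iff_continuousAt.2 fun x => (hu x).continuousAt
  have cS : Continuous S := continuous_iff_continuousAt.2 fun x => (hSd x).continuousAt
  -- positivity near zero
  have hv : ∀ᶠ t in nhdsWithin (0 : ℝ) (Ioi 0), S t < u t := by
    have h1 : HasDerivAt (fun t => u t - S t) (u1 0 - S1 0) 0 := (hu 0).sub (hSd 0)
    have h2 : S1 0 = m' := by rw [hS1]; simp
    rw [h2] at h1
    have h3 := hasDerivAt_iff_tendsto_slope.1 h1
    have h4 : ∀ᶠ t in nhdsWithin (0 : ℝ) {0}ᶜ, 0 < slope (fun t => u t - S t) 0 t :=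
      h3.eventually (lt_mem_nhds (sub_pos.2 hm))
    have h5 : nhdsWithin (0 : ℝ) (Ioi 0) ≤ nhdsWithin (0 : ℝ) {0}ᶜ :=
      nhdsWithin_mono _ fun t ht => ne_of_gt ht
    filter_upwards [h5 h4, self_mem_nhdsWithin] with t ht ht0
    have ht0' : (0 : ℝ) < t := ht0
    have hS0 : S 0 = 0 := by rw [hS]; simp
    rw [slope_def_field] at ht
    simp only [h0, hS0, sub_zero] at ht
    have := (div_pos_iff_of_pos_right ht0').1 ht
    linarith
  obtain ⟨ε, hε0, hε⟩ : ∃ ε > 0, ∀ t, 0 < t → t < ε → S t < u t := by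
    rw [eventually_nhdsWithin_iff, Metric.eventually_nhds_iff] at hv
    obtain ⟨ε, hε, h⟩ := hv
    exact ⟨ε, hε, fun t ht ht' => h (by rw [Real.dist_eq, sub_zero, abs_of_pos ht]; exact ht') ht⟩
  have hεx : ε ≤ x₀ := by
    by_contra h
    push Not at h
    have := hε x₀ hx0 h
    rw [hSx] at this
    linarith
  -- first crossing
  have hcomp : IsCompact {t | t ∈ Icc ε x₀ ∧ u t ≤ S t} := by
    have : {t | t ∈ Icc ε x₀ ∧ u t ≤ S t} = Icc ε x₀ ∩ {t | u t ≤ S t} := rfl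
    rw [this]
    exact isCompact_Icc.inter_right (isClosed_le cu cS)
  obtain ⟨t1, ht1, hmin⟩ := hcomp.exists_isLeast ⟨x₀, ⟨hεx, le_rfl⟩, by rw [hSx]; exact hcon.le⟩
  have ht1' : ε ≤ t1 ∧ t1 ≤ x₀ := ht1.1
  have ht1p : 0 < t1 := lt_of_lt_of_le hε0 ht1'.1
  have habove : ∀ t, 0 < t → t < t1 → S t < u t := by
    intro t ht ht'
    by_cases h : t < ε
    · exact hε t ht h
    · push Not at h
      by_contra h2
      push Not at h2
      exact absurd (hmin ⟨⟨h, (ht'.trans_le ht1'.2).le⟩, h2⟩) (not_le.2 ht')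
  -- Wronskian
  have hWd : ∀ t, HasDerivAt (fun t => u1 t * S t - u t * S1 t) ((c t + k ^ 2) * (u t * S t)) t := by
    intro t
    refine (((hu1 t).mul (hSd t)).sub ((hu t).mul (hS1d t))).congr_deriv ?_
    ring
  have hWmono : MonotoneOn (fun t => u1 t * S t - u t * S1 t) (Icc 0 t1) := by
    refine monotoneOn_of_deriv_nonneg (convex_Icc _ _) ?_ ?_ ?_
    · exact fun t _ => (hWd t).continuousAt.continuousWithinAt
    · exact fun t _ => (hWd t).differentiableAt.differentiableWithinAt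
    · intro t ht
      rw [interior_Icc] at ht
      rw [(hWd t).deriv]
      have h1 := hSpos t ht.1 (ht.2.le.trans ht1'.2)
      have h2 := habove t ht.1 ht.2
      have h3 := hc t
      have h4 : 0 < u t := h1.trans h2
      have h5 : 0 ≤ c t + k ^ 2 := by linarith
      positivity
  have hW0 : ∀ t ∈ Icc 0 t1, 0 ≤ u1 t * S t - u t * S1 t := by
    intro t ht
    have h1 := hWmono (left_mem_Icc.2 ht1p.le) ht ht.1
    have hS0 : S 0 = 0 := by rw [hS]; simp
    simp only [h0, hS0, mul_zero, zero_mul, sub_zero] at h1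
    exact h1
  have hrmono : MonotoneOn (fun t => u t / S t) (Icc (t1 / 2) t1) := by
    have hne : ∀ t ∈ Icc (t1 / 2) t1, 0 < S t := fun t ht =>
      hSpos t (by linarith [ht.1]) (ht.2.trans ht1'.2)
    have hd : ∀ t ∈ Icc (t1 / 2) t1, HasDerivAt (fun t => u t / S t)
        ((u1 t * S t - u t * S1 t) / S t ^ 2) t := fun t ht =>
      (hu t).div (hSd t) (hne t ht).ne'
    refine monotoneOn_of_deriv_nonneg (convex_Icc _ _) ?_ ?_ ?_
    · exact fun t ht => (hd t ht).continuousAt.continuousWithinAt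
    · intro t ht
      rw [interior_Icc] at ht
      exact (hd t (Ioo_subset_Icc_self ht)).differentiableAt.differentiableWithinAt
    · intro t ht
      rw [interior_Icc] at ht
      rw [(hd t (Ioo_subset_Icc_self ht)).deriv]
      exact div_nonneg (hW0 t ⟨by linarith [ht.1], ht.2.le⟩) (sq_nonneg _)
  have h1 := hrmono (left_mem_Icc.2 (by linarith)) (right_mem_Icc.2 (by linarith)) (by linarith : t1 / 2 ≤ t1)
  simp only at h1
  have h2 : u t1 / S t1 ≤ 1 := by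
    rw [div_le_one (hSpos t1 ht1p ht1'.2)]; exact ht1.2
  have h3 : 1 < u (t1 / 2) / S (t1 / 2) := by
    rw [one_lt_div (hSpos _ (by linarith) (by linarith))]
    exact habove _ (by linarith) (by linarith)
  linarith

theorem SW_sine' {k : ℝ} (hk : 0 < k) {c u u1 : ℝ → ℝ} (hu : ∀ t, HasDerivAt u (u1 t) t)
    (hu1 : ∀ t, HasDerivAt u1 (c t * u t) t) (hc : ∀ t, -k ^ 2 ≤ c t) (h0 : u 0 = 0)
    (hm : 0 < u1 0) : u1 0 / k ≤ u (Real.pi / (2 * k)) := by
  refine le_of_forall_lt fun y hy => ?_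
  rcases le_or_gt y 0 with h | h
  · have h1 := SW_aux hk hu hu1 hc h0 (half_pos hm) (half_lt_self hm)
    have h2 : 0 < u1 0 / 2 / k := by positivity
    linarith
  · obtain ⟨z, hz1, hz2⟩ := exists_between hy
    have h1 := SW_aux hk hu hu1 hc h0 (m' := z * k) (mul_pos (h.trans hz1) hk)
      ((lt_div_iff₀ hk).1 hz2)
    rw [mul_div_cancel_right₀ _ hk.ne'] at h1
    linarith

/-- comparison with the sine -/
theorem SW_sine {K : ℝ} (hK : 0 < K) {V f g : ℝ → ℝ} (h : Sol V f g) (hV : ∀ t, -K ≤ V t)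
    {b : ℝ} (hb : f b = 0) : |g b| / √K ≤ |f (b - Real.pi / (2 * √K))| := by
  have hk : 0 < √K := Real.sqrt_pos.2 hK
  have hk2 : √K ^ 2 = K := Real.sq_sqrt hK.le
  have hf : ∀ t, HasDerivAt (fun t => f (b - t)) (-g (b - t)) t := fun t =>
    (h.d1 (b - t)).comp_const_sub b t
  have hg : ∀ t, HasDerivAt (fun t => g (b - t)) (-(V (b - t) * f (b - t))) t := fun t =>
    (h.d2 (b - t)).comp_const_sub b t
  rcases lt_trichotomy (g b) 0 with hg0 | hg0 | hg0
  · have key := SW_sine' hk (c := fun t => V (b - t)) (u := fun t => f (b - t))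
      (u1 := fun t => -g (b - t)) hf (fun t => ((hg t).neg).congr_deriv (by ring))
      (fun t => by rw [hk2]; exact hV _) (by simp [hb]) (by simpa using hg0)
    simp only [sub_zero] at key
    rw [abs_of_neg hg0]
    exact key.trans (le_abs_self _)
  · rw [hg0]; simp
  · have key := SW_sine' hk (c := fun t => V (b - t)) (u := fun t => -f (b - t))
      (u1 := fun t => g (b - t)) (fun t => ((hf t).neg).congr_deriv (by ring))
      (fun t => (hg t).congr_deriv (by ring))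
      (fun t => by rw [hk2]; exact hV _) (by simp [hb]) (by simpa using hg0)
    simp only [sub_zero] at key
    rw [abs_of_pos hg0]
    exact key.trans (neg_le_abs _)

theorem wall_left (hK : 0 < K₁) (hC₀ : 0 < C₀) : ∃ c > 0, ∃ C > 0, ∃ cl > 0, ∃ R₀ ≥ C₀, ∀ R ≥ R₀, ∀ S : SD K₁ C₀ R, S.e 0 ≤ cl →
    c * Real.exp (-(2 * S.Lm)) ≤ S.Wl ∧ S.Wl ≤ C * Real.exp (-(2 * S.Lm)) := by
  obtain ⟨Cl, hCl, cl, hcl, -, R₁, hR₁, h1⟩ := left_bounds hK hC₀
  obtain ⟨c, hc, C, hC, R₂, hR₂, h2⟩ := weights hK hC₀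
  refine ⟨c / 4, by positivity, Cl ^ 2 * C, by positivity, cl, hcl, max R₁ R₂,
    le_trans hR₁ (le_max_left _ _), fun R hR S he => ?_⟩
  have hR1 : R ≥ R₁ := le_trans (le_max_left _ _) hR
  have hR2 : R ≥ R₂ := le_trans (le_max_right _ _) hR
  obtain ⟨w1, w2⟩ := h2 R hR2 S
  have hγ := S.hγ
  have hb : ∀ j < S.N, 1 / 2 * Real.exp (-S.Lm) ≤ S.dφ j (-S.Lm) ∧
      S.dφ j (-S.Lm) ≤ Cl * Real.exp (-S.Lm) := by
    intro j hj
    have hej : S.e j ≤ cl := by
      rcases Nat.eq_zero_or_pos j with rfl | h0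
      · exact he
      · exact (S.e_anti 0 j h0 hj).le.trans he
    exact ((h1 R hR1 S (S.e j) (S.e_pos j hj).le _ _ (S.sol j hj) (S.φ_left j hj)
      (S.φ_zero j hj)).2.2.2 hej)
  have hexp : Real.exp (-(2 * S.Lm)) = Real.exp (-S.Lm) ^ 2 := by
    rw [← Real.exp_nat_mul]; congr 1; push_cast; ring
  have hE := Real.exp_pos (-S.Lm)
  constructor
  · have h3 : S.γ * (∑ j ∈ Finset.range S.N, S.α j) * (1 / 4 * Real.exp (-S.Lm) ^ 2) ≤ S.Wl := by
      rw [SD.Wl, mul_assoc, Finset.sum_mul]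
      refine mul_le_mul_of_nonneg_left (Finset.sum_le_sum fun j hj => ?_) hγ.le
      have hj' := Finset.mem_range.1 hj
      refine mul_le_mul_of_nonneg_left ?_ (S.α_pos j hj').le
      have h4 := (hb j hj').1
      calc 1 / 4 * Real.exp (-S.Lm) ^ 2 = (1 / 2 * Real.exp (-S.Lm)) ^ 2 := by ring
        _ ≤ _ := by gcongr
    rw [hexp]
    refine le_trans ?_ h3
    have : 0 ≤ 1 / 4 * Real.exp (-S.Lm) ^ 2 := by positivity
    nlinarith
  · have h3 : S.Wl ≤ S.γ * (∑ j ∈ Finset.range S.N, S.α j) * (Cl ^ 2 * Real.exp (-S.Lm) ^ 2) := by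
      rw [SD.Wl, mul_assoc, Finset.sum_mul]
      refine mul_le_mul_of_nonneg_left (Finset.sum_le_sum fun j hj => ?_) hγ.le
      have hj' := Finset.mem_range.1 hj
      refine mul_le_mul_of_nonneg_left ?_ (S.α_pos j hj').le
      have h4 := (hb j hj').2
      have h5 : 0 ≤ S.dφ j (-S.Lm) := le_trans (by positivity) (hb j hj').1
      calc S.dφ j (-S.Lm) ^ 2 ≤ (Cl * Real.exp (-S.Lm)) ^ 2 := by gcongr
        _ = _ := by ring
    rw [hexp]
    refine h3.trans ?_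
    have : 0 ≤ Cl ^ 2 * Real.exp (-S.Lm) ^ 2 := by positivity
    nlinarith

theorem wall_right (hK : 0 < K₁) (hC₀ : 0 < C₀) : ∃ C > 0, ∃ R₀ ≥ C₀, ∀ R ≥ R₀, ∀ S : SD K₁ C₀ R,
    S.Wr ≤ C * Real.exp (-(2 * S.γ * S.Lp)) := by
  set x₀ : ℝ := Real.pi / (2 * √K₁) with hx₀
  have hk : 0 < √K₁ := Real.sqrt_pos.2 hK
  have hx0 : 0 < x₀ := by positivity
  refine ⟨K₁ * (3 / 16 * 3 * (1 + K₁) ^ (2 : ℝ) * Real.exp (2 * x₀)), by positivity,
    max C₀ x₀, le_max_left _ _, fun R hR S => ?_⟩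
  have hR1 : x₀ ≤ R := le_trans (le_max_right _ _) hR
  have hγ := S.hγ
  have hγ' := S.hγ'
  have hC := SCa_Cpos S
  have hC' := S.hC'
  have hLm := S.hLm
  have hLp := S.hLp
  have hmem : S.Lp - x₀ ∈ Icc (-S.Lm) S.Lp := ⟨by linarith, by linarith⟩
  have hel := S.el _ hmem
  have h1 : S.Wr ≤ K₁ * (S.γ * ∑ j ∈ Finset.range S.N, S.α j * S.φ j (S.Lp - x₀) ^ 2) := by
    rw [SD.Wr, mul_left_comm, Finset.mul_sum _ _ K₁]
    refine mul_le_mul_of_nonneg_left (Finset.sum_le_sum fun j hj => ?_) hγ.le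
    have hj' := Finset.mem_range.1 hj
    have h2 := SW_sine hK (S.sol j hj') (fun t => by
      have h3 := S.U_le t
      have h4 : 0 ≤ S.e j * om t := mul_nonneg (S.e_pos j hj').le (Real.exp_pos _).le
      simp only [pot]
      linarith) (S.φ_right j hj')
    rw [← hx₀, div_le_iff₀ hk] at h2
    have h3 : S.dφ j S.Lp ^ 2 ≤ K₁ * S.φ j (S.Lp - x₀) ^ 2 := by
      calc S.dφ j S.Lp ^ 2 = |S.dφ j S.Lp| ^ 2 := (sq_abs _).symm
        _ ≤ (|S.φ j (S.Lp - x₀)| * √K₁) ^ 2 := by gcongr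
        _ = K₁ * S.φ j (S.Lp - x₀) ^ 2 := by
            rw [mul_pow, sq_abs, Real.sq_sqrt hK.le]; ring
    have h4 := (S.α_pos j hj').le
    calc S.α j * S.dφ j S.Lp ^ 2 ≤ S.α j * (K₁ * S.φ j (S.Lp - x₀) ^ 2) := by gcongr
      _ = _ := by ring
  rw [hel] at h1
  refine h1.trans ?_
  rw [mul_assoc K₁]
  refine mul_le_mul_of_nonneg_left ?_ hK.le
  have hU0 := SCa_U_nonneg S (S.Lp - x₀)
  have hU1 : S.U (S.Lp - x₀) ^ (1 + S.γ) ≤ (1 + K₁) ^ (2 : ℝ) := by
    calc S.U (S.Lp - x₀) ^ (1 + S.γ) ≤ (1 + K₁) ^ (1 + S.γ) :=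
          Real.rpow_le_rpow hU0 ((S.U_le _).trans (by linarith)) (by linarith)
      _ ≤ (1 + K₁) ^ (2 : ℝ) := Real.rpow_le_rpow_of_exponent_le (by linarith) (by linarith)
  have hexp : Real.exp (-(2 * S.γ * (S.Lp - x₀))) ≤
      Real.exp (2 * x₀) * Real.exp (-(2 * S.γ * S.Lp)) := by
    rw [← Real.exp_add]
    apply Real.exp_le_exp.2
    nlinarith
  have hU2 : 0 ≤ S.U (S.Lp - x₀) ^ (1 + S.γ) := Real.rpow_nonneg hU0 _
  have h3 : S.C * (2 + S.γ) ≤ 3 / 16 * 3 := by nlinarith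
  calc S.C * (2 + S.γ) * S.U (S.Lp - x₀) ^ (1 + S.γ) * Real.exp (-(2 * S.γ * (S.Lp - x₀)))
      ≤ (3 / 16 * 3) * (1 + K₁) ^ (2 : ℝ) * (Real.exp (2 * x₀) * Real.exp (-(2 * S.γ * S.Lp))) := by
        gcongr
    _ = _ := by ring

end Pool.Agent.RLT40
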