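import Pool.Agent.RLT40.SNb
import Pool.Agent.RLT40.SOa
import Pool.Agent.RLT40.SW

/-!
# Module SO (paper 5.9): conclusion of section 5.

`N = 1` (N_eq_one): `C J = e_0^γ ≤ C₁ J` by OneState applied to `f = φ_0` on the box.  Otherwise `T` exists; wall_lower, wall_left, walls_eq, wall_right: `(1+γ)T ≥ Lm - C`, `Lm ≥ γ Lp - C`, so `T ≥ c(γ)(Lm+Lp) - C`.
Spacing: for `j ≥ 2` (third state on) consecutive zeros of `φ_j` beyond `T` are at distance `≥ π/sqrt K₁` and the interval between the last two zeros meets `{e_jω ≤ K₁}`: `e_j ≤ K₁ exp(-2T - 2(j-2)π/sqrt K₁)`; so `Σ_{j≥1} e_j^γ ≤ C(γ,K₁) e^{-2γT}`.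
`J(U) ≥ c` (`∫_{-1}^1 U² ` large).  `C J = e_0^γ + Σ_{j≥1}e_j^γ ≤ C₁J + C(γ)e^{-2γT}`.
-/

open MeasureTheory Set
open scoped ENNReal NNReal

namespace Pool.Agent.RLT40

variable {K₁ C₀ : ℝ}

/-- `∫ U^{2+γ} e^{-2γx}` over the box -/
noncomputable def SD.J {R : ℝ} (S : SD K₁ C₀ R) : ℝ := ∫ x in (-S.Lm)..S.Lp, S.U x ^ (2 + S.γ) * Real.exp (-(2 * S.γ * x))

theorem SD.U_nn {R : ℝ} (S : SD K₁ C₀ R) (x : ℝ) : 0 ≤ S.U x := by
  by_cases hx : x ∈ Ioo (-S.Lm) S.Lp
  · exact (S.U_pos x hx).le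
  · exact (S.U_zero x hx).ge

theorem SD.J_cont {R : ℝ} (S : SD K₁ C₀ R) : Continuous fun x => S.U x ^ (2 + S.γ) * Real.exp (-(2 * S.γ * x)) := by
  have h1 : Continuous fun x => S.U x ^ (2 + S.γ) := S.cU.rpow_const fun x => Or.inr (by linarith [S.hγ])
  have h2 : Continuous fun x : ℝ => Real.exp (-(2 * S.γ * x)) := by fun_prop
  exact h1.mul h2

theorem SD.J_nn {R : ℝ} (S : SD K₁ C₀ R) (x : ℝ) : 0 ≤ S.U x ^ (2 + S.γ) * Real.exp (-(2 * S.γ * x)) :=
  mul_nonneg (Real.rpow_nonneg (S.U_nn x) _) (Real.exp_pos _).le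

theorem SD.Jf_eq {R : ℝ} (S : SD K₁ C₀ R) (hR : 0 < R) : Jf S.γ (-S.Lm) S.Lp S.U = ENNReal.ofReal S.J := by
  unfold Jf SD.J
  have hle : -S.Lm ≤ S.Lp := by linarith [S.hLm, S.hLp]
  rw [intervalIntegral.integral_of_le hle, integral_Ioc_eq_integral_Ioo,
    ofReal_integral_eq_lintegral_ofReal]
  · exact S.J_cont.integrableOn_Icc.mono_set Ioo_subset_Icc_self
  · exact Filter.Eventually.of_forall fun x => S.J_nn x

theorem SD.J_lower {R : ℝ} (S : SD K₁ C₀ R) (hR : 10 ≤ R) : 1 / 20 ≤ S.J := by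
  have hγ := S.hγ
  have hγ' := S.hγ'
  have h1 : (∫ x in (-1 : ℝ)..1, S.U x ^ (2 + S.γ) * Real.exp (-(2 * S.γ * x))) ≤ S.J :=
    intervalIntegral.integral_mono_interval (by linarith [S.hLm]) (by norm_num) (by linarith [S.hLp])
      (Filter.Eventually.of_forall fun x => S.J_nn x) (S.J_cont.intervalIntegrable _ _)
  have hcosh : Continuous fun x : ℝ => 2 / Real.cosh x ^ 2 :=
    continuous_const.div (Real.continuous_cosh.pow 2) fun x => by have := Real.cosh_pos x; positivity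
  have hci : ∀ s t : ℝ, IntervalIntegrable (fun x => (S.U x - 2 / Real.cosh x ^ 2) ^ 2) volume s t :=
    fun s t => ((S.cU.sub hcosh).pow 2).intervalIntegrable s t
  have h2 : (∫ x in (-1 : ℝ)..1, (S.U x - 2 / Real.cosh x ^ 2) ^ 2) ≤ 1 / 10 := by
    refine le_trans (intervalIntegral.integral_mono_interval (c := -R) (d := R) (by linarith) (by norm_num) (by linarith)
      (Filter.Eventually.of_forall fun x => sq_nonneg _) (hci _ _)) (S.core2.trans ?_)
    exact one_div_le_one_div_of_le (by norm_num) hR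
  -- pointwise
  have hpt : ∀ x ∈ Icc (-1 : ℝ) 1, 1 / 8 - 1 / 2 * (S.U x - 2 / Real.cosh x ^ 2) ^ 2 - 1 / 32 ≤
      S.U x ^ (2 + S.γ) * Real.exp (-(2 * S.γ * x)) := by
    intro x hx
    have hU := S.U_nn x
    have e1 : 98 / 100 ≤ Real.exp (-(2 * S.γ * x)) := by
      have := Real.add_one_le_exp (-(2 * S.γ * x))
      nlinarith [hx.1, hx.2]
    have e2 : 1 / 2 * (S.U x ^ 2 - 1 / 16) ≤ S.U x ^ (2 + S.γ) * Real.exp (-(2 * S.γ * x)) := by
      rcases le_or_gt (S.U x) (1 / 4) with hc | hc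
      · have : S.U x ^ 2 ≤ 1 / 16 := by nlinarith
        have := S.J_nn x
        linarith
      · have e3 : (S.U x) ^ (2 + S.γ) = S.U x ^ 2 * S.U x ^ S.γ := by
          rw [Real.rpow_add (by linarith), Real.rpow_two]
        have e4 : 3 / 4 ≤ S.U x ^ S.γ := by
          have e5 : (1 / 4 : ℝ) ^ S.γ ≤ S.U x ^ S.γ := Real.rpow_le_rpow (by norm_num) hc.le hγ.le
          refine le_trans ?_ e5
          have e6 : (1 / 4 : ℝ) ^ (1 / 10 : ℝ) ≤ (1 / 4 : ℝ) ^ S.γ :=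
            Real.rpow_le_rpow_of_exponent_ge (by norm_num) (by norm_num) (by linarith)
          refine le_trans ?_ e6
          have e7 : (3 / 4 : ℝ) = ((3 / 4 : ℝ) ^ (10 : ℝ)) ^ (1 / 10 : ℝ) := by
            rw [← Real.rpow_mul (by norm_num)]; norm_num
          rw [e7]
          refine Real.rpow_le_rpow (by positivity) ?_ (by norm_num)
          rw [show (10 : ℝ) = ((10 : ℕ) : ℝ) by norm_num, Real.rpow_natCast]
          norm_num
        rw [e3]
        have e8 : 0 < S.U x ^ 2 := by positivity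
        have e9 : S.U x ^ 2 * (3 / 4) ≤ S.U x ^ 2 * S.U x ^ S.γ := by gcongr
        have e10 : S.U x ^ 2 * (3 / 4) * (98 / 100) ≤ S.U x ^ 2 * S.U x ^ S.γ * Real.exp (-(2 * S.γ * x)) := by gcongr
        nlinarith
    have e11 : 1 / 2 ≤ (2 / Real.cosh x ^ 2) ^ 2 := by
      have c1 : Real.cosh x ≤ 1.6 := by
        have c2 : Real.cosh x ≤ Real.cosh 1 := by
          rw [Real.cosh_le_cosh, abs_le, abs_one]; exact hx
        refine c2.trans ?_
        rw [Real.cosh_eq]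
        have c3 := Real.exp_one_lt_d9
        have c4 : Real.exp (-1) ≤ 0.4 := by
          rw [Real.exp_neg, inv_le_comm₀ (Real.exp_pos _) (by norm_num)]
          have := Real.exp_one_gt_d9
          norm_num
          linarith
        linarith
      have c5 := Real.cosh_pos x
      have c6 : Real.cosh x ^ 2 ≤ 2.6 := by nlinarith
      have c7 : 0.75 ≤ 2 / Real.cosh x ^ 2 := by
        rw [le_div_iff₀ (by positivity)]
        nlinarith
      nlinarith
    nlinarith [sq_nonneg (2 * S.U x - 2 / Real.cosh x ^ 2), sq_nonneg (S.U x - 2 / Real.cosh x ^ 2)]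
  have hi1 : IntervalIntegrable (fun _ : ℝ => (1 / 8 : ℝ)) volume (-1) 1 := intervalIntegrable_const
  have hi2 : IntervalIntegrable (fun x => 1 / 2 * (S.U x - 2 / Real.cosh x ^ 2) ^ 2) volume (-1) 1 := (hci _ _).const_mul _
  have hi3 : IntervalIntegrable (fun _ : ℝ => (1 / 32 : ℝ)) volume (-1) 1 := intervalIntegrable_const
  have h3 := intervalIntegral.integral_mono_on (by norm_num : (-1 : ℝ) ≤ 1) ((hi1.sub hi2).sub hi3) (S.J_cont.intervalIntegrable _ _) hpt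
  rw [intervalIntegral.integral_sub (hi1.sub hi2) hi3, intervalIntegral.integral_sub hi1 hi2, intervalIntegral.integral_const_mul,
    intervalIntegral.integral_const, intervalIntegral.integral_const, smul_eq_mul, smul_eq_mul] at h3
  linarith

/-- the form vanishes on a Dirichlet solution -/
theorem q_sol_zero {a b : ℝ} (hab : a ≤ b) {V φ ψ : ℝ → ℝ} (hV : Continuous V) (h : Sol V φ ψ) (ha : φ a = 0) (hb : φ b = 0) :
    (Ioo a b).indicator φ ∈ H10 a b ∧ q V ((Ioo a b).indicator φ) = 0 := by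
  have hcφ := h.continuous_left
  have hcψ := h.continuous_right
  obtain ⟨h1, h2⟩ := H10_of_C1 hab (f := φ) (g := ψ) (fun x _ => h.d1 x) hcψ.continuousOn ha hb
  refine ⟨h1, ?_⟩
  unfold q
  have h3 : (∫ x, (deriv ((Ioo a b).indicator φ) x ^ 2 + V x * (Ioo a b).indicator φ x ^ 2)) =
      ∫ x, (Ioo a b).indicator (fun x => ψ x * ψ x + φ x * (V x * φ x)) x := by
    refine integral_congr_ae ?_
    filter_upwards [h2] with x hx
    rw [hx]
    by_cases hxm : x ∈ Ioo a b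
    · simp only [Set.indicator_of_mem hxm]; ring
    · simp only [Set.indicator_of_notMem hxm]; ring
  rw [h3, integral_indicator measurableSet_Ioo, ← integral_Ioc_eq_integral_Ioo, ← intervalIntegral.integral_of_le hab]
  have h4 : ∀ x ∈ uIcc a b, HasDerivAt (fun x => φ x * ψ x) (ψ x * ψ x + φ x * (V x * φ x)) x := fun x _ => (h.d1 x).mul (h.d2 x)
  rw [intervalIntegral.integral_eq_sub_of_hasDerivAt h4 (Continuous.intervalIntegrable (by fun_prop) _ _), ha, hb]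
  ring

/-- the one-state bound for the ground state of a box optimiser -/
theorem SD.one_state {R : ℝ} (S : SD K₁ C₀ R) (hR : 0 < R) {C₁ : ℝ} (hC₁ : 0 < C₁) (h : OneState S.γ C₁) : S.e 0 ^ S.γ ≤ C₁ * S.J := by
  have hle : -S.Lm ≤ S.Lp := by linarith [S.hLm, S.hLp]
  have hpc : Continuous (pot 1 (S.e 0) S.U) := by have := S.cU; unfold pot om; fun_prop
  obtain ⟨h1, h2⟩ := q_sol_zero hle hpc (S.sol 0 S.hN) (S.φ_left 0 S.hN) (S.φ_right 0 S.hN)
  have hadm : Adm1 S.γ (-S.Lm) S.Lp S.U := by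
    refine ⟨S.U_nn, ?_⟩
    have hcs : HasCompactSupport S.U := HasCompactSupport.of_support_subset_isCompact (isCompact_Icc (a := -S.Lm) (b := S.Lp)) (by
      intro x hx
      by_contra hcon
      exact hx (S.U_zero x fun hh => hcon ⟨hh.1.le, hh.2.le⟩))
    exact (S.cU.memLp_of_hasCompactSupport hcs).restrict _
  have hne : (Ioo (-S.Lm) S.Lp).indicator (S.φ 0) ≠ 0 := by
    intro hcon
    have h0 : (0 : ℝ) ∈ Ioo (-S.Lm) S.Lp := ⟨by linarith [S.hLm], by linarith [S.hLp]⟩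
    have := congrFun hcon 0
    rw [Set.indicator_of_mem h0, S.φ_zero 0 S.hN] at this
    norm_num at this
  have h3 := h (-S.Lm) S.Lp S.U hadm _ h1 hne (S.e 0) (S.e_pos 0 S.hN) h2.le
  rw [S.Jf_eq hR, ← ENNReal.ofReal_mul hC₁.le] at h3
  have hJ : 0 ≤ S.J := intervalIntegral.integral_nonneg hle fun x _ => S.J_nn x
  exact (ENNReal.ofReal_le_ofReal_iff (by positivity)).1 h3

theorem section5 (hK : 0 < K₁) (hC₀ : 0 < C₀) : ∃ R₀ > 0, ∀ γ > 0, ∀ ε > 0, ∃ L₀ > 0, ∀ R ≥ R₀, ∀ S : SD K₁ C₀ R, S.γ = γ → L₀ ≤ S.Lm + S.Lp →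
    ∀ C₁ : ℝ, 0 < C₁ → OneState γ C₁ → S.C ≤ C₁ + ε := by
  obtain ⟨Ra, hRa, hexS⟩ := exists_S hK hC₀
  obtain ⟨Rb, hRb, hexc⟩ := excited_small hK hC₀
  obtain ⟨c1, hc1, Rc, hRc, hlow⟩ := wall_lower hK hC₀
  obtain ⟨c2, hc2, C2, hC2, cl, hcl, Rd, hRd, hwl⟩ := wall_left hK hC₀
  obtain ⟨C3, hC3, Re, hRe, hwr⟩ := wall_right hK hC₀
  obtain ⟨C4, hC4, Rf, hRf, he0⟩ := e0_small hK hC₀
  -- `e 0 ≤ cl`
  obtain ⟨Rg, hRg, hRg2⟩ : ∃ Rg > 0, ∀ R ≥ Rg, C4 * Real.exp (-(1.9 * R)) ≤ cl := by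
    refine ⟨C4 / cl, by positivity, fun R hR => ?_⟩
    have hR0 : 0 < R := lt_of_lt_of_le (by positivity) hR
    have h1 : 1.9 * R + 1 ≤ Real.exp (1.9 * R) := Real.add_one_le_exp _
    rw [Real.exp_neg, ← div_eq_mul_inv, div_le_iff₀ (Real.exp_pos _)]
    rw [ge_iff_le, div_le_iff₀ hcl] at hR
    nlinarith
  set R₀ : ℝ := 10 + C₀ + (Ra + Rb + Rc + Rd + Re + Rf) + Rg with hR₀
  have p1 : 0 < Ra := by linarith
  have p2 : 0 < Rb := by linarith
  have p3 : 0 < Rc := by linarith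
  have p4 : 0 < Rd := by linarith
  have p5 : 0 < Re := by linarith
  have p6 : 0 < Rf := by linarith
  refine ⟨R₀, by positivity, fun γ hγ ε hε => ?_⟩
  obtain ⟨Cg, hCg, hexc⟩ := hexc γ hγ
  -- size of the box
  obtain ⟨T₀, hT₀, hT₀2⟩ : ∃ T₀ > 0, ∀ T ≥ T₀, 20 * (Cg * Real.exp (-(2 * γ * T))) ≤ ε := by
    refine ⟨20 * Cg / (2 * γ * ε), by positivity, fun T hT => ?_⟩
    have hT0 : 0 < T := lt_of_lt_of_le (by positivity) hT
    have h1 : 2 * γ * T + 1 ≤ Real.exp (2 * γ * T) := Real.add_one_le_exp _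
    rw [Real.exp_neg, ← div_eq_mul_inv, mul_div_assoc', div_le_iff₀ (Real.exp_pos _)]
    rw [ge_iff_le, div_le_iff₀ (by positivity)] at hT
    nlinarith
  set M1 : ℝ := |Real.log (C2 / c1)| with hM1
  set M2 : ℝ := |Real.log (C3 / c2)| with hM2
  refine ⟨(1 + 1 / γ) * ((1 + γ) * T₀ + M1) + M2 / γ + 1, by positivity, ?_⟩
  intro R hR S hSγ hL C₁ hC₁ hone
  subst hSγ
  have hR10 : 10 ≤ R := by linarith
  have hRC : C₀ ≤ R := by linarith
  have hJ := S.J_lower hR10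
  have hos := S.one_state (by linarith) hC₁ hone
  have hsum : ∑ j ∈ Finset.range S.N, S.e j ^ S.γ = S.C * S.J := S.sum_eq
  have hsplit : ∑ j ∈ Finset.range S.N, S.e j ^ S.γ = S.e 0 ^ S.γ + ∑ j ∈ Finset.Ico 1 S.N, S.e j ^ S.γ := by
    rw [Finset.range_eq_Ico, Finset.sum_eq_sum_Ico_succ_bot S.hN]
  by_cases hsm : ∀ x ∈ Icc C₀ S.Lp, S.U x ≤ 1 / 100
  · have hN := S.N_eq_one hC₀ hRC hsm
    rw [hN] at hsum
    simp only [Finset.sum_range_one] at hsum
    have : S.C * S.J ≤ C₁ * S.J := by linarith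
    have := le_of_mul_le_mul_right this (by linarith)
    linarith
  · obtain ⟨T, hT⟩ := S.exists_T hC₀ hRC hsm
    obtain ⟨z, hz⟩ := S.exists_Z (by linarith)
    obtain ⟨s, hs⟩ := hexS R (by linarith) S T z hT hz
    have hw1 := hlow R (by linarith) S T z s hT hz hs
    have hecl : S.e 0 ≤ cl := (he0 R (by linarith) S T hT).trans (hRg2 R (by linarith))
    obtain ⟨hw2, hw3⟩ := hwl R (by linarith) S hecl
    have hw4 := hwr R (by linarith) S
    have hex := hexc R (by linarith) S rfl T z s hT hz hs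
    have hWW := S.walls_eq
    -- `Lm ≤ (1+γ) T + M1`
    have hlog : ∀ {A B x y : ℝ}, 0 < A → 0 < B → A * Real.exp (-x) ≤ B * Real.exp (-y) → y ≤ x + |Real.log (B / A)| := by
      intro A B x y hA hB hle
      have h1 := Real.log_le_log (by positivity) hle
      rw [Real.log_mul hA.ne' (Real.exp_pos _).ne', Real.log_mul hB.ne' (Real.exp_pos _).ne', Real.log_exp, Real.log_exp] at h1
      have h2 : Real.log B - Real.log A = Real.log (B / A) := (Real.log_div hB.ne' hA.ne').symm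
      have h3 := le_abs_self (Real.log (B / A))
      linarith
    have hLm : 2 * S.Lm ≤ 2 * (1 + S.γ) * T + M1 := hlog hc1 hC2 (hw1.trans (hWW.symm.le.trans hw3))
    have hLp : 2 * S.γ * S.Lp ≤ 2 * S.Lm + M2 := hlog hc2 hC3 (hw2.trans (hWW.le.trans hw4))
    have hTT : T₀ ≤ T := by
      by_contra hcon
      push Not at hcon
      have hM1n : 0 ≤ M1 := abs_nonneg _
      have hM2n : 0 ≤ M2 := abs_nonneg _
      have q1 : S.Lm ≤ (1 + S.γ) * T₀ + M1 := by nlinarith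
      have q2 : S.Lp ≤ 1 / S.γ * ((1 + S.γ) * T₀ + M1) + M2 / S.γ := by
        rw [div_mul_eq_mul_div, one_mul, ← add_div, le_div_iff₀ hγ]
        nlinarith
      linarith
    have hfin := hT₀2 T hTT
    have h1 : S.C * S.J ≤ C₁ * S.J + Cg * Real.exp (-(2 * S.γ * T)) := by linarith
    have h2 : Cg * Real.exp (-(2 * S.γ * T)) ≤ ε * S.J := by nlinarith
    have h3 : S.C * S.J ≤ (C₁ + ε) * S.J := by linarith
    exact le_of_mul_le_mul_right h3 (by linarith)

end Pool.Agent.RLT40
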