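import Pool.Agent.RLT40.QuietB

/-!
# Module QUIET (paper 4.5, 4.6): quiet zones and good windows.

`calib_window`: on a window `w' = (a', b')` (Dirichlet ends), `V = Um`, `f` the zero energy solution with `f a' = 0`: if `A ≤ Ntot(0) + ε` then (lt_nneg) `(3/5) Σ_{k≥2} k² N_k ≤ ε`,
so `(3/16)∫(V-2xq)² ≤ A - N_1 ≤ (8/3) ε` (calib_nneg).
`quiet_zone`: window of length `B` starting at `c`, `ℓ = 1`, deficit bound `ε = 1` (after a shift to the origin): `∫_{w'}(Um-2xq)² ≤ C₈(K)`; inside the core (length `B-2`) there are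
`≥ (B-2)/(3b) - 1` disjoint intervals of length `3b` (those not inside `(a,b)`: if an interval of length `b` lies outside `(a,b)`, `U = 0` there and we are done; else apply quiet_third);
one has `∫ ≤ c₄`.
-/

open MeasureTheory Set
open scoped ENNReal NNReal

namespace Pool.Agent.RLT40

theorem thd_shift (α β ℓ c x : ℝ) : thd (α - c) (β - c) ℓ x = thd α β ℓ (x + c) := by
  unfold thd
  rw [show x - (α - c) = x + c - α by ring, show x - (β - c) + ℓ = x + c - β + ℓ by ring]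

theorem Ntot_shift0 {a b : ℝ} (U : ℝ → ℝ) (c : ℝ) : Ntot (a - c) (b - c) (fun x => U (x + c)) 0 = Ntot a b U 0 := by
  unfold Ntot
  refine tsum_congr fun k => ?_
  rw [← nneg_shift (pot (k + 1) 0 U) c]
  congr 4
  ext x
  simp [pot]

/-- good windows: long, quiet ends, containing `[c - R, c + R]` in the core, with tiny deficit. -/
theorem good_window {K R ε : ℝ} (hK : 0 < K) (hR : 0 < R) (hε : 0 < ε) :
    ∃ B > 0, ∃ γ₁ > 0, ∃ δ₁ > 0, ∀ γ a b C : ℝ, ∀ U : ℝ → ℝ, 0 < γ → γ < γ₁ → Opt γ a b C U → 3 / 16 * (1 - δ₁) * kap γ ≤ C →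
      C ≤ 3 / 16 * kap γ → (∀ x, U x ≤ K) → ∀ c : ℝ, ∃ α β ℓ : ℝ, 1 / ε ≤ ℓ ∧ α + ℓ ≤ c - R ∧ c + R ≤ β - ℓ ∧ β - α ≤ B ∧
        ENNReal.ofReal (3 / 16 * ∫ x in Ioo (max a α) (min b β), Um U α β ℓ x ^ 2) ≤
          Ntot (max a α) (min b β) (Um U α β ℓ) 0 + ENNReal.ofReal ε := by
  obtain ⟨b₀, hb₀, hq⟩ := quiet_zone hK (by positivity : 0 < ε / 8)
  set ℓ : ℝ := max b₀ (max (1 / ε) (max 1 (800 / ε))) with hℓdef
  have hℓb : b₀ ≤ ℓ := le_max_left _ _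
  have hℓε : 1 / ε ≤ ℓ := (le_max_left _ _).trans (le_max_right _ _)
  have hℓ1 : 1 ≤ ℓ := (le_max_left _ _).trans ((le_max_right _ _).trans (le_max_right _ _))
  have hℓ8 : 800 / ε ≤ ℓ := (le_max_right _ _).trans ((le_max_right _ _).trans (le_max_right _ _))
  have hℓ0 : 0 < ℓ := by linarith
  obtain ⟨B, hB, γq, hγq, δq, hδq, hquiet⟩ := hq ℓ hℓb
  obtain ⟨γd, hγd, δd, hδd, hdef⟩ := deficit (R := R + ℓ + B) hK (by positivity) (by positivity : 0 < ε / 4)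
  refine ⟨2 * (R + ℓ + B), by positivity, min γq γd, lt_min hγq hγd, min δq δd, lt_min hδq hδd, ?_⟩
  intro γ a b C U hγ hγlt O hClo hChi hUK c
  have hkap : 0 < kap γ := by unfold kap; positivity
  have hdm : ∀ δ, min δq δd ≤ δ → 3 / 16 * (1 - δ) * kap γ ≤ C := by
    intro δ hδ
    refine le_trans ?_ hClo
    have : 3 / 16 * (1 - δ) ≤ 3 / 16 * (1 - min δq δd) := by linarith
    exact mul_le_mul_of_nonneg_right this hkap.le
  have h1 := hquiet γ a b C U hγ (hγlt.trans_le (min_le_left _ _)) O (hdm _ (min_le_left _ _)) hChi hUK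
  obtain ⟨x₁, hx₁, hq₁⟩ := h1 (c - R - ℓ - B)
  obtain ⟨x₂, hx₂, hq₂⟩ := h1 (c + R)
  have e1 := hx₁.1
  have e2 := hx₁.2
  have e3 := hx₂.1
  have e4 := hx₂.2
  refine ⟨x₁, x₂ + ℓ, ℓ, hℓε, by linarith, by linarith, by linarith, ?_⟩
  have h2 := hdef γ (a - c) (b - c) C (fun x => U (x + c)) hγ (hγlt.trans_le (min_le_right _ _)) (O.shift hγ c) (hdm _ (min_le_right _ _)) hChi
    (fun x => hUK _) (x₁ - c) (x₂ + ℓ - c) ℓ (by linarith) (by linarith) hℓ1 (by linarith)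
  have hUm : Um (fun x => U (x + c)) (x₁ - c) (x₂ + ℓ - c) ℓ = fun x => Um U x₁ (x₂ + ℓ) ℓ (x + c) := by
    ext x
    simp only [Um, thd_shift]
  have hmax : max (a - c) (x₁ - c) = max a x₁ - c := max_sub_sub_right a x₁ c
  have hmin : min (b - c) (x₂ + ℓ - c) = min b (x₂ + ℓ) - c := min_sub_sub_right b (x₂ + ℓ) c
  rw [hUm, hmax, hmin, Ntot_shift0] at h2
  have hint : (∫ x in Ioo (max a x₁ - c) (min b (x₂ + ℓ) - c), Um U x₁ (x₂ + ℓ) ℓ (x + c) ^ 2) =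
      ∫ x in Ioo (max a x₁) (min b (x₂ + ℓ)), Um U x₁ (x₂ + ℓ) ℓ x ^ 2 := by
    have := (measurePreserving_add_right volume c).setIntegral_preimage_emb (measurableEmbedding_addRight c)
      (fun x => Um U x₁ (x₂ + ℓ) ℓ x ^ 2) (Ioo (max a x₁) (min b (x₂ + ℓ)))
    rw [← this]
    congr 2
    ext x
    simp [sub_lt_iff_lt_add, lt_sub_iff_add_lt]
  rw [hint] at h2
  refine h2.trans ?_
  gcongr
  -- the two quiet zones
  have hU2 : ∀ s t : ℝ, IntegrableOn (fun x => U x ^ 2) (Ioo s t) := fun s t =>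
    ((O.cont.pow 2).integrableOn_Icc).mono_set Ioo_subset_Icc_self
  have hsub : (∫ x in Ioo (a - c) (b - c) ∩ Oz (x₁ - c) (x₂ + ℓ - c) ℓ, U (x + c) ^ 2) ≤ ε / 4 := by
    have hcu : Continuous fun x => U (x + c) ^ 2 := by have := O.cont; fun_prop
    have hz : ∀ s : ℝ, (∫ x in s..(s + ℓ), U x ^ 2) ≤ ε / 8 → (∫ x in Ioo (s - c) (s - c + ℓ), U (x + c) ^ 2) ≤ ε / 8 := by
      intro s hs
      rw [← integral_Ioc_eq_integral_Ioo, ← intervalIntegral.integral_of_le (by linarith),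
        intervalIntegral.integral_comp_add_right (fun x => U x ^ 2)]
      rw [show s - c + c = s by ring, show s - c + ℓ + c = s + ℓ by ring]
      exact hs
    have hI : ∀ s t : ℝ, IntegrableOn (fun x => U (x + c) ^ 2) (Ioo s t) := fun s t =>
      hcu.integrableOn_Icc.mono_set Ioo_subset_Icc_self
    have hOz : Oz (x₁ - c) (x₂ + ℓ - c) ℓ = Ioo (x₁ - c) (x₁ - c + ℓ) ∪ Ioo (x₂ - c) (x₂ - c + ℓ) := by
      unfold Oz
      rw [show x₂ + ℓ - c - ℓ = x₂ - c by ring, show x₂ + ℓ - c = x₂ - c + ℓ by ring]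
    rw [hOz]
    have hd : Disjoint (Ioo (x₁ - c) (x₁ - c + ℓ)) (Ioo (x₂ - c) (x₂ - c + ℓ)) := by
      rw [Set.disjoint_left]
      intro y hy hy'
      linarith [hy.2, hy'.1]
    calc (∫ x in Ioo (a - c) (b - c) ∩ (Ioo (x₁ - c) (x₁ - c + ℓ) ∪ Ioo (x₂ - c) (x₂ - c + ℓ)), U (x + c) ^ 2)
        ≤ ∫ x in Ioo (x₁ - c) (x₁ - c + ℓ) ∪ Ioo (x₂ - c) (x₂ - c + ℓ), U (x + c) ^ 2 :=
          setIntegral_mono_set ((hI _ _).union (hI _ _)) (Filter.Eventually.of_forall fun x => sq_nonneg _)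
            (Filter.Eventually.of_forall fun x hx => hx.2)
      _ = (∫ x in Ioo (x₁ - c) (x₁ - c + ℓ), U (x + c) ^ 2) + ∫ x in Ioo (x₂ - c) (x₂ - c + ℓ), U (x + c) ^ 2 :=
          setIntegral_union hd measurableSet_Ioo (hI _ _) (hI _ _)
      _ ≤ ε / 8 + ε / 8 := add_le_add (hz _ hq₁) (hz _ hq₂)
      _ = ε / 4 := by ring
  have hpi : 2 * Real.pi ^ 4 / ℓ ^ 3 ≤ ε / 4 := by
    have h100 : Real.pi ^ 4 ≤ 100 := by
      have h1 := Real.pi_lt_d2
      have h0 := Real.pi_pos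
      have h2 : Real.pi ^ 2 ≤ 10 := by nlinarith
      nlinarith [sq_nonneg (Real.pi ^ 2)]
    have h3 : ℓ ≤ ℓ ^ 3 := by nlinarith [sq_nonneg ℓ, mul_self_nonneg (ℓ - 1)]
    have h4 : 800 ≤ ℓ * ε := by rwa [div_le_iff₀ hε] at hℓ8
    rw [div_le_div_iff₀ (by positivity) (by norm_num)]
    nlinarith
  linarith

end Pool.Agent.RLT40
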