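import Pool.Agent.RLT40.QuietB

/-!
# Module S0 (paper 4.7): no bound states in the channels `k ≥ 2`.

Choose by quiet_zone (with `η`, `ℓ` such that every window between two consecutive zones has deficit `< 2`, by `deficit`) quiet zones `[x_i, x_i + ℓ]`, `x_i ∈ [i B', i B' + B]`,
`B' = 2B + 2ℓ + 1`, `i : ℤ` (finitely many meet `(a,b)`).  One angle function `θ` increasing by `π/2` on each zone (`θ(x) = (π/2) Σ_i sstep((x-x_i)/ℓ)`), ims_formula:
`q V f = q (V-θ'²)(sin θ f) + q (V-θ'²)(cos θ f)`; `sin θ · f` is a sum of members of `H¹₀` of the disjoint windows `(x_i, x_{i+1}+ℓ)`, `i` even (or odd), on which the window form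
is `≥ 0` (calib_window: `nneg = 0`).  So `q (pot k 0 U) ≥ 0` on `H10 a b`.
-/

open MeasureTheory Set
open scoped ENNReal NNReal

namespace Pool.Agent.RLT40

/-! ### one-sided cuts -/

/-- rising angle on the zone `(x, x+ℓ)` -/
noncomputable def s0_th (x ℓ t : ℝ) : ℝ := Real.pi / 2 * sstep ((t - x) / ℓ)

noncomputable def s0_thd (x ℓ t : ℝ) : ℝ := Real.pi / (2 * ℓ) * sstepd ((t - x) / ℓ)

theorem s0_th_hasDerivAt {x ℓ : ℝ} (hℓ : 0 < ℓ) (t : ℝ) : HasDerivAt (s0_th x ℓ) (s0_thd x ℓ t) t := by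
  have h1 : HasDerivAt (fun t : ℝ => (t - x) / ℓ) (1 / ℓ) t :=
    ((hasDerivAt_id t).sub_const x).div_const ℓ
  have h2 := ((sstep_hasDerivAt ((t - x) / ℓ)).comp t h1).const_mul (Real.pi / 2)
  have e : s0_thd x ℓ t = Real.pi / 2 * (sstepd ((t - x) / ℓ) * (1 / ℓ)) := by
    unfold s0_thd; field_simp
  rw [e]
  exact h2

theorem s0_thd_continuous {x ℓ : ℝ} : Continuous (s0_thd x ℓ) := by
  unfold s0_thd
  have := sstepd_continuous
  fun_prop

theorem s0_th_left {x ℓ t : ℝ} (hℓ : 0 < ℓ) (h : t ≤ x) : s0_th x ℓ t = 0 := by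
  rw [s0_th, ims_sstep_zero (div_nonpos_of_nonpos_of_nonneg (by linarith) hℓ.le), mul_zero]

theorem s0_th_right {x ℓ t : ℝ} (hℓ : 0 < ℓ) (h : x + ℓ ≤ t) : s0_th x ℓ t = Real.pi / 2 := by
  rw [s0_th, ims_sstep_one (by rw [le_div_iff₀ hℓ]; linarith), mul_one]

theorem s0_thd_zero {x ℓ t : ℝ} (hℓ : 0 < ℓ) (h : t ≤ x ∨ x + ℓ ≤ t) : s0_thd x ℓ t = 0 := by
  rw [s0_thd, ims_sstepd_zero, mul_zero]
  rcases h with h | h
  · left; exact div_nonpos_of_nonpos_of_nonneg (by linarith) hℓ.le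
  · right; rw [le_div_iff₀ hℓ]; linarith

theorem s0_thd_eq (α β ℓ t : ℝ) : thd α β ℓ t = s0_thd α ℓ t - s0_thd (β - ℓ) ℓ t := by
  unfold thd s0_thd
  rw [show t - (β - ℓ) = t - β + ℓ by ring]
  ring

theorem s0_thd_sq {α β ℓ : ℝ} (hℓ : 0 < ℓ) (h : α + 2 * ℓ ≤ β) (t : ℝ) :
    thd α β ℓ t ^ 2 = s0_thd α ℓ t ^ 2 + s0_thd (β - ℓ) ℓ t ^ 2 := by
  rw [s0_thd_eq]
  have : s0_thd α ℓ t * s0_thd (β - ℓ) ℓ t = 0 := by
    rcases le_total t (β - ℓ) with h1 | h1
    · rw [s0_thd_zero (x := β - ℓ) hℓ (Or.inl h1), mul_zero]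
    · rw [s0_thd_zero (x := α) hℓ (Or.inr (by linarith)), zero_mul]
  nlinarith

/-- cutting at one zone -/
theorem s0_cut {a b x ℓ : ℝ} (hℓ : 0 < ℓ) {V : ℝ → ℝ} (hV : IntegrableOn V (Ioo a b)) :
    nneg a b V ≤ nneg a (min b (x + ℓ)) (fun t => V t - s0_thd x ℓ t ^ 2) +
      nneg (max a x) b (fun t => V t - s0_thd x ℓ t ^ 2) := by
  have hth := s0_th_hasDerivAt (x := x) hℓ
  have hthc : Continuous (s0_th x ℓ) := continuous_iff_continuousAt.2 fun t => (hth t).continuousAt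
  have hthd := s0_thd_continuous (x := x) (ℓ := ℓ)
  have hV' : IntegrableOn (fun t => V t - s0_thd x ℓ t ^ 2) (Ioo a b) :=
    hV.sub (ims_cont_integrableOn (hthd.pow 2))
  have hs : ∀ f ∈ H10 a b, (fun t => Real.sin (s0_th x ℓ t) * f t) ∈ H10 a b := fun f hf =>
    (H10_mul hf (χ := fun t => Real.sin (s0_th x ℓ t))
      (χ' := fun t => Real.cos (s0_th x ℓ t) * s0_thd x ℓ t)
      (fun t => (hth t).sin) (by fun_prop)).1
  have hc : ∀ f ∈ H10 a b, (fun t => Real.cos (s0_th x ℓ t) * f t) ∈ H10 a b := fun f hf =>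
    (H10_mul hf (χ := fun t => Real.cos (s0_th x ℓ t))
      (χ' := fun t => -Real.sin (s0_th x ℓ t) * s0_thd x ℓ t)
      (fun t => (hth t).cos) (by fun_prop)).1
  refine nneg_split (LinearMap.mulLeft ℝ (fun t => Real.cos (s0_th x ℓ t)))
    (LinearMap.mulLeft ℝ (fun t => Real.sin (s0_th x ℓ t))) ?_ ?_ ?_ ?_ ?_
  · intro f hf
    refine H10_shrink (hc f hf) fun t ht => ?_
    change Real.cos (s0_th x ℓ t) * f t = 0
    by_cases ht' : t ∈ Ioo a b
    · have : x + ℓ ≤ t := by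
        by_contra hcon
        exact ht ⟨ht'.1, lt_min ht'.2 (not_le.1 hcon)⟩
      rw [s0_th_right hℓ this, Real.cos_pi_div_two, zero_mul]
    · rw [H10_zero hf ht', mul_zero]
  · intro f hf
    refine H10_shrink (hs f hf) fun t ht => ?_
    change Real.sin (s0_th x ℓ t) * f t = 0
    by_cases ht' : t ∈ Ioo a b
    · have : t ≤ x := by
        by_contra hcon
        exact ht ⟨max_lt ht'.1 (not_le.1 hcon), ht'.2⟩
      rw [s0_th_left hℓ this, Real.sin_zero, zero_mul]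
    · rw [H10_zero hf ht', mul_zero]
  · refine hV'.mono_set fun t ht => ?_
    exact ⟨ht.1, ht.2.trans_le (min_le_left _ _)⟩
  · refine hV'.mono_set fun t ht => ?_
    exact ⟨(le_max_left _ _).trans_lt ht.1, ht.2⟩
  · intro f hf
    rw [ims_formula hV hf hth hthd, add_comm]
    exact le_rfl

/-! ### windows -/

theorem s0_Um_shift (U : ℝ → ℝ) (α β ℓ c : ℝ) :
    Um (fun x => U (x + c)) (α - c) (β - c) ℓ = fun x => Um U α β ℓ (x + c) := by
  funext x
  unfold Um thd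
  rw [show x - (α - c) = x + c - α by ring, show x - (β - c) + ℓ = x + c - β + ℓ by ring]

theorem s0_pot_integrable {a b : ℝ} {U : ℝ → ℝ} (hU : Continuous U) (k τ : ℝ) :
    IntegrableOn (pot k τ U) (Ioo a b) := by
  refine ims_cont_integrableOn ?_
  unfold pot om
  fun_prop

theorem s0_nonneg {γ a b C : ℝ} {U : ℝ → ℝ} (O : Opt γ a b C U) (x : ℝ) : 0 ≤ U x := by
  by_cases hx : x ∈ Ioo a b
  · exact (O.pos x hx).le
  · rw [O.zero x hx]

/-- a window with quiet ends has no bound states in the channels `k ≥ 2` -/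
theorem s0_window {K Λ : ℝ} (hK : 0 < K) (hΛ : 0 < Λ) :
    ∃ γ₁ > 0, ∃ δ₁ > 0, ∀ γ a b C : ℝ, ∀ U : ℝ → ℝ, 0 < γ → γ < γ₁ → Opt γ a b C U →
      3 / 16 * (1 - δ₁) * kap γ ≤ C → C ≤ 3 / 16 * kap γ → (∀ x, U x ≤ K) →
      ∀ α β ℓ : ℝ, β - α ≤ Λ → 10 ≤ ℓ → α + 2 * ℓ ≤ β → (∫ t in α..(α + ℓ), U t ^ 2) ≤ 1 / 4 →
        (∫ t in (β - ℓ)..β, U t ^ 2) ≤ 1 / 4 → ∀ k : ℕ, 2 ≤ k →
          nneg (max a α) (min b β) (pot k 0 (Um U α β ℓ)) = 0 := by
  obtain ⟨γ₁, hγ₁, δ₁, hδ₁, H⟩ := deficit (K := K) (R := Λ) (ε := 1 / 2) hK hΛ (by norm_num)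
  refine ⟨γ₁, hγ₁, δ₁, hδ₁, fun γ a b C U hγ hγ' O hC1 hC2 hUK α β ℓ hlen hℓ hαβ hq1 hq2 k hk => ?_⟩
  have hℓ0 : 0 < ℓ := by linarith
  have O' := O.shift hγ α
  have hUK' : ∀ x, (fun x => U (x + α)) x ≤ K := fun x => hUK _
  have h1 := H γ (a - α) (b - α) C _ hγ hγ' O' hC1 hC2 hUK' 0 (β - α) ℓ (by linarith) hlen
    (by linarith) (by linarith)
  -- the empty case
  rcases le_or_gt (min b β) (max a α) with hemp | hab
  · exact nneg_empty hemp
  have em : max (a - α) 0 = max a α - α := by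
    rw [← max_sub_sub_right, sub_self]
  have en : min (b - α) (β - α) = min b β - α := (min_sub_sub_right _ _ _)
  have eU : Um (fun x => U (x + α)) 0 (β - α) ℓ = fun x => Um U α β ℓ (x + α) := by
    have := s0_Um_shift U α β ℓ α
    rwa [sub_self] at this
  rw [em, en, eU] at h1
  -- bound of the error terms
  have hcont : Continuous fun x => U (x + α) ^ 2 := (O.cont.comp (continuous_add_const α)).pow 2
  have hz : (∫ x in Ioo (a - α) (b - α) ∩ Oz 0 (β - α) ℓ, U (x + α) ^ 2) ≤ 1 / 2 := by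
    have i1 : IntegrableOn (fun x => U (x + α) ^ 2) (Ioo (0 : ℝ) (0 + ℓ)) :=
      ims_cont_integrableOn hcont
    have i2 : IntegrableOn (fun x => U (x + α) ^ 2) (Ioo (β - α - ℓ) (β - α)) :=
      ims_cont_integrableOn hcont
    calc (∫ x in Ioo (a - α) (b - α) ∩ Oz 0 (β - α) ℓ, U (x + α) ^ 2)
        ≤ ∫ x in Oz 0 (β - α) ℓ, U (x + α) ^ 2 := by
          refine setIntegral_mono_set (i1.union i2) (ae_of_all _ fun x => sq_nonneg _) ?_
          exact (inter_subset_right).eventuallyLE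
      _ ≤ (∫ x in Ioo (0 : ℝ) (0 + ℓ), U (x + α) ^ 2) +
            ∫ x in Ioo (β - α - ℓ) (β - α), U (x + α) ^ 2 := by
          rw [Oz, setIntegral_union _ measurableSet_Ioo i1 i2]
          refine Set.disjoint_left.2 fun x hx hx' => ?_
          linarith [hx.2, hx'.1]
      _ = (∫ t in α..(α + ℓ), U t ^ 2) + ∫ t in (β - ℓ)..β, U t ^ 2 := by
          congr 1
          · rw [← integral_Ioc_eq_integral_Ioo, ← intervalIntegral.integral_of_le (by linarith),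
              intervalIntegral.integral_comp_add_right (fun t => U t ^ 2) α]
            congr 1 <;> ring
          · rw [← integral_Ioc_eq_integral_Ioo, ← intervalIntegral.integral_of_le (by linarith),
              intervalIntegral.integral_comp_add_right (fun t => U t ^ 2) α]
            congr 1 <;> ring
      _ ≤ 1 / 2 := by linarith
  have hpi : 2 * Real.pi ^ 4 / ℓ ^ 3 ≤ 1 / 4 := by
    have h2 : Real.pi ≤ 3.15 := Real.pi_lt_d2.le
    have h3 : Real.pi ^ 4 ≤ 3.15 ^ 4 := pow_le_pow_left₀ Real.pi_pos.le h2 4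
    have h4 : (10 : ℝ) ^ 3 ≤ ℓ ^ 3 := pow_le_pow_left₀ (by norm_num) hℓ 3
    rw [div_le_iff₀ (by positivity)]
    norm_num at h3 h4 ⊢
    linarith
  have hpi0 : 0 ≤ 2 * Real.pi ^ 4 / ℓ ^ 3 := by positivity
  -- zero energy solution on the window
  set a' := max a α - α with ha'
  set b' := min b β - α with hb'
  have hab' : a' < b' := by rw [ha', hb']; linarith
  have hUmc : Continuous fun x => Um U α β ℓ (x + α) :=
    (win_Um_continuous O.cont α β ℓ).comp (continuous_add_const α)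
  obtain ⟨f, g, hfg, hf0, hg0⟩ := exists_sol (V := fun x => 1 - Um U α β ℓ (x + α))
    (continuous_const.sub hUmc) a' 0 1
  have hnn : ∀ x, 0 ≤ Um U α β ℓ (x + α) := fun x => add_nonneg (s0_nonneg O _) (sq_nonneg _)
  have h2 := (calib_window (ε := 5 / 4) hab' hUmc hnn hfg hf0 (by rw [hg0]; norm_num) (by norm_num)
    (h1.trans (by
      refine add_le_add le_rfl (ENNReal.ofReal_le_ofReal ?_)
      linarith))).2 (by norm_num) k hk
  have h3 := nneg_pot_shift (a := max a α) (b := min b β) (k : ℝ) 0 (Um U α β ℓ) α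
  rw [zero_mul] at h3
  rw [← h3]
  exact h2

/-! ### the chain of windows -/

theorem s0_chain {a b B ℓ : ℝ} {U : ℝ → ℝ} (hU : Continuous U) (hℓ : 0 < ℓ) (k : ℕ) (Q : ℝ → Prop)
    (hQ : ∀ c, ∃ x ∈ Icc c (c + B), Q x)
    (hw : ∀ x x', Q x → Q x' → x + ℓ ≤ x' → x' ≤ x + ℓ + B →
      nneg (max a x) (min b (x' + ℓ)) (pot k 0 (Um U x (x' + ℓ) ℓ)) = 0) (n : ℕ) :
    ∀ x, Q x → b ≤ x + n * ℓ → nneg (max a x) b (pot k 0 (fun t => U t + s0_thd x ℓ t ^ 2)) = 0 := by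
  induction n with
  | zero =>
    intro x _ hb
    refine nneg_empty ?_
    rw [Nat.cast_zero, zero_mul, add_zero] at hb
    exact hb.trans (le_max_right _ _)
  | succ n ih =>
    intro x hx hb
    obtain ⟨x', hx', hQx'⟩ := hQ (x + ℓ)
    have hb' : b ≤ x' + n * ℓ := by
      push_cast at hb
      linarith [hx'.1]
    have hc1 : Continuous fun t => U t + s0_thd x ℓ t ^ 2 := hU.add (s0_thd_continuous.pow 2)
    have hcut := s0_cut (a := max a x) (b := b) (x := x') hℓ (s0_pot_integrable hc1 (k : ℝ) 0)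
    have e1 : nneg (max a x) (min b (x' + ℓ))
        (fun t => pot k 0 (fun t => U t + s0_thd x ℓ t ^ 2) t - s0_thd x' ℓ t ^ 2) = 0 := by
      rw [← hw x x' hx hQx' hx'.1 hx'.2]
      refine nneg_congr (ae_of_all _ fun t _ => ?_)
      have := s0_thd_sq (α := x) (β := x' + ℓ) hℓ (by linarith [hx'.1]) t
      rw [add_sub_cancel_right] at this
      simp only [pot, Um, this]
      ring
    have e2 : nneg (max (max a x) x') b
        (fun t => pot k 0 (fun t => U t + s0_thd x ℓ t ^ 2) t - s0_thd x' ℓ t ^ 2) = 0 := by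
      have hm : max (max a x) x' = max a x' := by
        rw [max_assoc, max_eq_right (show x ≤ x' by linarith [hx'.1])]
      rw [hm, ← ih x' hQx' hb']
      refine nneg_congr (ae_of_all _ fun t ht => ?_)
      have ht' : x + ℓ ≤ t := by
        have := (le_max_right a x').trans_lt ht.1
        linarith [hx'.1]
      simp only [pot, s0_thd_zero hℓ (Or.inr ht')]
      ring
    rw [e1, e2, add_zero] at hcut
    exact le_antisymm hcut zero_le

theorem swave_only {K : ℝ} (hK : 0 < K) :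
    ∃ γ₁ > 0, ∃ δ₁ > 0, ∀ γ a b C : ℝ, ∀ U : ℝ → ℝ, 0 < γ → γ < γ₁ → Opt γ a b C U → 3 / 16 * (1 - δ₁) * kap γ ≤ C →
      C ≤ 3 / 16 * kap γ → (∀ x, U x ≤ K) → ∀ k : ℕ, 2 ≤ k → nneg a b (pot k 0 U) = 0 := by
  obtain ⟨b₀, hb₀, hb⟩ := quiet_zone (K := K) (η := 1 / 4) hK (by norm_num)
  set ℓ := max b₀ 10 with hℓdef
  have hℓ10 : 10 ≤ ℓ := le_max_right _ _
  have hℓ0 : 0 < ℓ := by linarith
  obtain ⟨B, hB, γ₁, hγ₁, δ₁, hδ₁, HQ⟩ := hb ℓ (le_max_left _ _)
  obtain ⟨γ₂, hγ₂, δ₂, hδ₂, HW⟩ := s0_window (K := K) (Λ := 2 * ℓ + B) hK (by linarith)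
  refine ⟨min γ₁ γ₂, lt_min hγ₁ hγ₂, min δ₁ δ₂, lt_min hδ₁ hδ₂,
    fun γ a b C U hγ hγ' O hC1 hC2 hUK k hk => ?_⟩
  have hkap : 0 < kap γ := by unfold kap; positivity
  have hCa : 3 / 16 * (1 - δ₁) * kap γ ≤ C := by
    refine le_trans ?_ hC1
    have := min_le_left δ₁ δ₂
    gcongr
  have hCb : 3 / 16 * (1 - δ₂) * kap γ ≤ C := by
    refine le_trans ?_ hC1
    have := min_le_right δ₁ δ₂
    gcongr
  have hq := HQ γ a b C U hγ (hγ'.trans_le (min_le_left _ _)) O hCa hC2 hUK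
  have hw := HW γ a b C U hγ (hγ'.trans_le (min_le_right _ _)) O hCb hC2 hUK
  set Q : ℝ → Prop := fun x => (∫ t in x..(x + ℓ), U t ^ 2) ≤ 1 / 4 with hQdef
  have hchain := s0_chain (a := a) (b := b) (B := B) O.cont hℓ0 k Q hq (by
    intro x x' hx hx' h1 h2
    refine hw x (x' + ℓ) ℓ (by linarith) hℓ10 (by linarith) hx ?_ k hk
    rw [add_sub_cancel_right]
    exact hx')
  obtain ⟨x, hx, hQx⟩ := hq (a - ℓ - B)
  have hxa : x + ℓ ≤ a := by linarith [hx.2]
  obtain ⟨n, hn⟩ := exists_nat_ge ((b - x) / ℓ)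
  have hbn : b ≤ x + n * ℓ := by
    rw [div_le_iff₀ hℓ0] at hn
    linarith
  have h0 := hchain n x hQx hbn
  rw [max_eq_left (by linarith)] at h0
  rw [← h0]
  refine nneg_congr (ae_of_all _ fun t ht => ?_)
  simp only [pot, s0_thd_zero hℓ0 (Or.inr (show x + ℓ ≤ t by linarith [ht.1]))]
  ring

end Pool.Agent.RLT40
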