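import Pool.Agent.RLT40.OneD

/-!
# The s-wave data of a normalised box optimiser (conclusion of section 4, hypothesis of section 5).

`SD K₁ C₀ R`: optimiser on `(-Lm, Lp)` (first bubble at `0`), only s-wave bound states `φ 0, ..., φ (N-1)`, energies `e 0 > e 1 > ... > 0`,
`dφ j = (φ j)'`, normalised by `φ j 0 = 1`; `f₀` = zero energy solution, `f₀(0) = 1`, `g₀(0) = 0`.  DO NOT CHANGE.
-/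

open MeasureTheory Set
open scoped ENNReal NNReal

namespace Pool.Agent.RLT40

structure SD (K₁ C₀ R : ℝ) where
  γ : ℝ
  C : ℝ
  Lm : ℝ
  Lp : ℝ
  U : ℝ → ℝ
  N : ℕ
  e : ℕ → ℝ
  α : ℕ → ℝ
  φ : ℕ → ℝ → ℝ
  dφ : ℕ → ℝ → ℝ
  f₀ : ℝ → ℝ
  g₀ : ℝ → ℝ
  hγ : 0 < γ
  hγ' : γ ≤ 1 / 100
  hC : 1 / 8 ≤ C
  hC' : C ≤ 3 / 16
  hLm : R ≤ Lm
  hLp : R < Lp
  cU : Continuous U
  U_zero : ∀ x, x ∉ Ioo (-Lm) Lp → U x = 0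
  U_pos : ∀ x ∈ Ioo (-Lm) Lp, 0 < U x
  U_le : ∀ x, U x ≤ K₁
  U_left : ∀ x, x ≤ -C₀ → U x ≤ 1 / 100
  U_mid : ∀ x, C₀ ≤ x → x ≤ R → U x ≤ 1 / 100
  hN : 0 < N
  e_pos : ∀ j < N, 0 < e j
  e_anti : ∀ i j, i < j → j < N → e j < e i
  sol : ∀ j < N, Sol (pot 1 (e j) U) (φ j) (dφ j)
  φ_left : ∀ j < N, φ j (-Lm) = 0
  φ_right : ∀ j < N, φ j Lp = 0
  φ_zero : ∀ j < N, φ j 0 = 1
  φ_pos : ∀ x ∈ Ioo (-Lm) Lp, 0 < φ 0 x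
  /-- `φ j` has at least `j` zeros in the interior -/
  nodes : ∀ j < N, ∃ Z : Finset ℝ, Z.card = j ∧ ∀ z ∈ Z, z ∈ Ioo (-Lm) Lp ∧ φ j z = 0
  sol₀ : Sol (fun x => 1 - U x) f₀ g₀
  f₀_left : f₀ (-Lm) = 0
  f₀_zero : f₀ 0 = 1
  g₀_zero : g₀ 0 = 0
  f₀_pos : ∀ x ∈ Ioo (-Lm) 0, 0 < f₀ x ∧ 0 < g₀ x
  /-- the zero energy solution has a zero in the box -/
  f₀_node : ∃ x ∈ Ioo 0 Lp, f₀ x = 0
  core : ∀ x ∈ Icc (-R) R, 0 < f₀ x ∧ |g₀ x / f₀ x + Real.tanh x| ≤ 1 / R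
  core2 : (∫ x in (-R)..R, (U x - 2 / Real.cosh x ^ 2) ^ 2) ≤ 1 / R
  α_pos : ∀ j < N, 0 < α j
  norm : ∀ j < N, α j * (∫ x in (-Lm)..Lp, om x * φ j x ^ 2) = e j ^ (γ - 1)
  el : ∀ x ∈ Icc (-Lm) Lp,
    γ * ∑ j ∈ Finset.range N, α j * φ j x ^ 2 = C * (2 + γ) * U x ^ (1 + γ) * Real.exp (-(2 * γ * x))
  /-- `Σ e_j^γ = C J(U)` -/
  sum_eq : ∑ j ∈ Finset.range N, e j ^ γ = C * ∫ x in (-Lm)..Lp, U x ^ (2 + γ) * Real.exp (-(2 * γ * x))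
  max : ∀ U' : ℝ → ℝ, Adm1 γ (-Lm) Lp U' → Gf γ (-Lm) Lp U' ≤ ENNReal.ofReal C * Jf γ (-Lm) Lp U'

/-- `T` is the first point after the bubble with `U = 1/100`. -/
structure SD.IsT {K₁ C₀ R : ℝ} (S : SD K₁ C₀ R) (T : ℝ) : Prop where
  hR : R ≤ T
  hLp : T < S.Lp
  le : ∀ x ∈ Icc C₀ T, S.U x ≤ 1 / 100
  eq : S.U T = 1 / 100

/-- `ρ`-components: `A`, `B` coefficients of `e^{-t}`, `e^t` -/
noncomputable def Aco (f g : ℝ → ℝ) (t : ℝ) : ℝ := 1 / 2 * Real.exp t * (f t - g t)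
noncomputable def Bco (f g : ℝ → ℝ) (t : ℝ) : ℝ := 1 / 2 * Real.exp (-t) * (f t + g t)

/-- pressure of the state `j` -/
noncomputable def SD.P {K₁ C₀ R : ℝ} (S : SD K₁ C₀ R) (j : ℕ) (t : ℝ) : ℝ :=
  S.dφ j t ^ 2 - (1 + S.e j * om t) * S.φ j t ^ 2

/-- total pressure `Z` -/
noncomputable def SD.Z {K₁ C₀ R : ℝ} (S : SD K₁ C₀ R) (t : ℝ) : ℝ :=
  S.γ * (∑ j ∈ Finset.range S.N, S.α j * S.P j t) + (1 + S.γ) * S.C * S.U t ^ (2 + S.γ) * Real.exp (-(2 * S.γ * t))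

/-- wall pressures -/
noncomputable def SD.Wl {K₁ C₀ R : ℝ} (S : SD K₁ C₀ R) : ℝ := S.γ * ∑ j ∈ Finset.range S.N, S.α j * S.dφ j (-S.Lm) ^ 2
noncomputable def SD.Wr {K₁ C₀ R : ℝ} (S : SD K₁ C₀ R) : ℝ := S.γ * ∑ j ∈ Finset.range S.N, S.α j * S.dφ j S.Lp ^ 2

/-- mass of `U` on `(s, t)` -/
noncomputable def SD.m {K₁ C₀ R : ℝ} (S : SD K₁ C₀ R) (s t : ℝ) : ℝ :=
  ∫ x in s..t, S.U x ^ (2 + S.γ) * Real.exp (-(2 * S.γ * x))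

/-- `g_i(s,t) = Σ α_j e_j ∫_s^t ω φ_j²` restricted to `j ∈ J` -/
noncomputable def SD.gm {K₁ C₀ R : ℝ} (S : SD K₁ C₀ R) (J : Finset ℕ) (s t : ℝ) : ℝ :=
  ∑ j ∈ J, S.α j * S.e j * ∫ x in s..t, om x * S.φ j x ^ 2

end Pool.Agent.RLT40
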