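import Pool.Agent.RLT40.Jacobi
import Pool.Agent.RLT40.Nodal
import Pool.Agent.RLT40.VaryA

/-!
# Modules STRUCT1, STRUCT2 (paper 4.8): normalisation and Prop S.

STRUCT1 `swave_data`: pure bookkeeping from `Opt` + `swave_only`: all `k i = 1` (an eigenfunction with `k i ≥ 2` would give `nneg ≥ 1` by `cnt`), sort the finitely many distinct energies
in decreasing order; `nneg a b (pot 1 (e j) U) = j` by `cnt`, so `φ j` has at least `j` zeros (nneg_le_card), and `φ 0` has none (le_nneg_of_zeros with the zeros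
`a < z < b` would give `nneg a b (pot 1 τ U) ≥ 2` for `τ < e 0` close to `e 0`).  Zero energy solution `f₀ a = 0`, `g₀ a = 1` has a zero in `(a,b)` (else `nneg a b (pot 1 0 U) = 0`).
STRUCT2 `exists_SD`: first zero `t₁` of `g₀` in `(a,b)` (Rolle); shift by `t₁`.  For every `c ≤ 0` take the good window at `c`, apply first_left (with `a' = max a α`), so
`∫_{c-1}^{c+1} U² ≤ η` for `c ≤ -C₀'`, then mean_value: `U(c)^{1+γ} ≤ ∫ (U^{1+γ} + U^{2+γ}) ≤ (1+K) ∫ U ≤ ...`, small.  Window at `0`: first_core, and `U ≤ 1/100` on `[C₀, R]`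
from `core2` and mean_value.  `φ_j(0) > 0` (Sturm comparison with `f₀`), normalise `φ_j(0) = 1` (`α_j` changes by the square).
Constants: `K₁` from sup_bound, `C₀` absolute (from first_left with `η` absolute and `8 e^{-2C₀}` small), `R` arbitrary.
-/

open MeasureTheory Set
open scoped ENNReal NNReal

namespace Pool.Agent.RLT40

/-- the largest energies come first -/
theorem structA_sort {n : ℕ} (e : Fin n → ℝ) (he : Function.Injective e) :
    ∃ σ : Equiv.Perm (Fin n), ∀ i j, i < j → e (σ j) < e (σ i) := by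
  refine ⟨Tuple.sort fun i => -e i, fun i j hij => ?_⟩
  have h1 := Tuple.monotone_sort (fun i => -e i) hij.le
  simp only [Function.comp] at h1
  refine lt_of_le_of_ne (by linarith) fun h => ?_
  have h2 := (Tuple.sort fun i => -e i).injective (he h)
  exact absurd h2 (ne_of_gt hij)

theorem structA_count {n : ℕ} (e : Fin n → ℝ) (σ : Equiv.Perm (Fin n)) (hσ : ∀ i j, i < j → e (σ j) < e (σ i))
    (j : Fin n) : (Finset.univ.filter fun i => e (σ j) < e i).card = j := by
  have h1 : (Finset.univ.filter fun i => e (σ j) < e i) = (Finset.Iio j).map σ.toEmbedding := by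
    ext i
    simp only [Finset.mem_filter, Finset.mem_univ, true_and, Finset.mem_map, Finset.mem_Iio, Equiv.coe_toEmbedding]
    constructor
    · intro h
      refine ⟨σ.symm i, ?_, by simp⟩
      by_contra h'
      rw [not_lt] at h'
      rcases h'.lt_or_eq with h'' | h''
      · have := hσ _ _ h''
        rw [Equiv.apply_symm_apply] at this
        exact absurd this (not_lt.2 h.le)
      · rw [h'', Equiv.apply_symm_apply] at h
        exact lt_irrefl _ h
    · rintro ⟨m, hm, rfl⟩
      exact hσ _ _ hm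
  rw [h1, Finset.card_map, Fin.card_Iio]

/-- STRUCT1 -/
theorem swave_data {γ a b C : ℝ} (hγ : 0 < γ) {U : ℝ → ℝ} (O : Opt γ a b C U) (h2 : ∀ k : ℕ, 2 ≤ k → nneg a b (pot k 0 U) = 0) :
    ∃ (N : ℕ) (e α : ℕ → ℝ) (φ dφ : ℕ → ℝ → ℝ) (f₀ g₀ : ℝ → ℝ), 0 < N ∧ (∀ j < N, 0 < e j) ∧ (∀ i j, i < j → j < N → e j < e i) ∧
      (∀ j < N, Sol (pot 1 (e j) U) (φ j) (dφ j)) ∧ (∀ j < N, φ j a = 0) ∧ (∀ j < N, φ j b = 0) ∧ (∀ j < N, 0 < dφ j a) ∧
      (∀ x ∈ Ioo a b, 0 < φ 0 x) ∧ (∀ j < N, ∃ Z : Finset ℝ, Z.card = j ∧ ∀ z ∈ Z, z ∈ Ioo a b ∧ φ j z = 0) ∧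
      Sol (fun x => 1 - U x) f₀ g₀ ∧ f₀ a = 0 ∧ 0 < g₀ a ∧ (∃ x ∈ Ioo a b, f₀ x = 0) ∧
      (∀ j < N, 0 < α j) ∧ (∀ j < N, α j * (∫ x in a..b, om x * φ j x ^ 2) = e j ^ (γ - 1)) ∧
      (∀ x ∈ Icc a b, γ * ∑ j ∈ Finset.range N, α j * φ j x ^ 2 = C * (2 + γ) * U x ^ (1 + γ) * Real.exp (-(2 * γ * x))) ∧
      (∑ j ∈ Finset.range N, e j ^ γ = C * ∫ x in a..b, U x ^ (2 + γ) * Real.exp (-(2 * γ * x))) := by
  obtain ⟨n, k, e, α, φ, ψ, hn, E⟩ := O.el
  have hab := O.hab
  have hk1 : ∀ i, k i = 1 := by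
    intro i
    by_contra hne
    have h1 := E.hk i
    have h3 := E.cnt (k i) h1 0 le_rfl
    rw [h2 (k i) (by omega)] at h3
    have h4 : (Finset.univ.filter fun j => k j = k i ∧ 0 < e j).card = 0 := by exact_mod_cast h3.symm
    rw [Finset.card_eq_zero, Finset.filter_eq_empty_iff] at h4
    exact h4 (Finset.mem_univ i) ⟨rfl, E.he i⟩
  have hinj : Function.Injective e := fun i j h => E.inj i j (by rw [hk1, hk1]) h
  obtain ⟨σ, hσ⟩ := structA_sort e hinj
  have hcnt : ∀ τ : ℝ, 0 ≤ τ → nneg a b (pot 1 τ U) = ((Finset.univ.filter fun i => τ < e i).card : ℕ∞) := by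
    intro τ hτ
    have := E.cnt 1 le_rfl τ hτ
    simpa [hk1] using this
  have hcont : ∀ τ : ℝ, Continuous (pot 1 τ U) := by
    intro τ
    have hU := O.cont
    unfold pot om
    fun_prop
  have hsol : ∀ i, Sol (pot 1 (e i) U) (φ i) (ψ i) := by
    intro i
    have := E.sol i
    rw [hk1 i, Nat.cast_one] at this
    exact this
  -- signs
  set s : Fin n → ℝ := fun i => if 0 < ψ i a then 1 else -1 with hs
  have hs2 : ∀ i, s i ^ 2 = 1 := by
    intro i
    simp only [hs]
    split_ifs <;> norm_num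
  have hs0 : ∀ i, s i ≠ 0 := by
    intro i h
    have := hs2 i
    rw [h] at this
    norm_num at this
  have hspos : ∀ i, 0 < s i * ψ i a := by
    intro i
    simp only [hs]
    split_ifs with h
    · simpa using h
    · have h1 : ψ i a < 0 := lt_of_le_of_ne (not_lt.1 h) (E.nz i)
      linarith
  set idx : ℕ → Fin n := fun j => σ ⟨j % n, Nat.mod_lt _ hn⟩ with hidx
  have hidx' : ∀ (j : ℕ) (hj : j < n), idx j = σ ⟨j, hj⟩ := by
    intro j hj
    simp only [hidx, Nat.mod_eq_of_lt hj]
  have hidxc : ∀ i : Fin n, idx (i : ℕ) = σ i := fun i => hidx' i i.2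
  have hsum : ∀ F : Fin n → ℝ, ∑ j ∈ Finset.range n, F (idx j) = ∑ i, F i := by
    intro F
    rw [Finset.sum_range]
    simp only [hidxc]
    exact Equiv.sum_comp σ F
  have hsol' : ∀ i, Sol (pot 1 (e i) U) (fun x => s i * φ i x) (fun x => s i * ψ i x) := fun i => (hsol i).smul (s i)
  have hne : ∀ i, ∃ x, s i * φ i x ≠ 0 := by
    intro i
    by_contra hcon
    push Not at hcon
    have h1 : (fun x => s i * φ i x) = fun _ => 0 := funext hcon
    have h3 := (hsol' i).d1 a
    rw [h1] at h3
    have h4 := h3.unique (hasDerivAt_const a 0)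
    have := hspos i
    rw [h4] at this
    exact lt_irrefl _ this
  have hcount : ∀ j (hj : j < n), nneg a b (pot 1 (e (idx j)) U) = (j : ℕ∞) := by
    intro j hj
    rw [hcnt _ (E.he _).le, hidx' j hj, structA_count e σ hσ]
  -- zero energy solution
  have hc0 : Continuous fun x => 1 - U x := continuous_const.sub O.cont
  obtain ⟨f₀, g₀, hf₀, hfa, hga⟩ := exists_sol hc0 a 0 1
  refine ⟨n, fun j => e (idx j), fun j => α (idx j), fun j x => s (idx j) * φ (idx j) x,
    fun j x => s (idx j) * ψ (idx j) x, f₀, g₀, hn, fun j _ => E.he _, ?_, fun j _ => hsol' _, ?_, ?_,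
    fun j _ => hspos _, ?_, ?_, hf₀, hfa, by rw [hga]; exact one_pos, ?_, fun j _ => E.hα _, ?_, ?_, ?_⟩
  · intro i j hij hj
    show e (idx j) < e (idx i)
    rw [hidx' j hj, hidx' i (hij.trans hj)]
    exact hσ _ _ hij
  · intro j _
    simp only [E.bda, mul_zero]
  · intro j _
    simp only [E.bdb, mul_zero]
  · -- positivity of the ground state
    have hnz : ∀ x ∈ Ioo a b, s (idx 0) * φ (idx 0) x ≠ 0 := by
      intro x hx h0
      have key : ∀ τ : ℝ, τ < e (idx 0) → (2 : ℕ∞) ≤ nneg a b (pot 1 τ U) := by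
        intro τ hτ
        have hz : ∀ i ≤ 2, (if i = 0 then a else if i = 1 then x else b) ∈ Icc a b ∧
            s (idx 0) * φ (idx 0) (if i = 0 then a else if i = 1 then x else b) = 0 := by
          intro i _
          split_ifs
          · exact ⟨left_mem_Icc.2 hab.le, by simp [E.bda]⟩
          · exact ⟨Ioo_subset_Icc_self hx, h0⟩
          · exact ⟨right_mem_Icc.2 hab.le, by simp [E.bdb]⟩
        have hmono : ∀ i < 2, (if i = 0 then a else if i = 1 then x else b) <
            (if i + 1 = 0 then a else if i + 1 = 1 then x else b) := by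
          intro i hi
          interval_cases i
          · simpa using hx.1
          · simpa using hx.2
        have := le_nneg_of_zeros (hcont (e (idx 0))) (hsol' (idx 0)) (hne (idx 0)) (m := 2)
          (fun i : ℕ => if i = 0 then a else if i = 1 then x else b) hz hmono
          (W := pot 1 τ U) (((hcont τ).continuousOn.integrableOn_Icc (a := a) (b := b)).mono_set Ioo_subset_Icc_self) ?_
        · exact_mod_cast this
        · intro y _
          unfold pot
          have : 0 < om y := Real.exp_pos _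
          nlinarith
      by_cases h1 : 1 < n
      · have h3 : e (idx 1) < e (idx 0) := by
          rw [hidx' 1 h1, hidx' 0 hn]
          refine hσ _ _ ?_
          exact Nat.zero_lt_one
        have h4 := key _ h3
        rw [hcount 1 h1] at h4
        exact absurd h4 (by norm_num)
      · have h3 := key 0 (E.he _)
        rw [hcnt 0 le_rfl] at h3
        have h4 : (Finset.univ.filter fun i => 0 < e i).card ≤ 1 := by
          refine (Finset.card_le_univ _).trans ?_
          rw [Fintype.card_fin]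
          omega
        have h5 : (2 : ℕ∞) ≤ 1 := h3.trans (by exact_mod_cast h4)
        exact absurd h5 (by norm_num)
    have hc : Continuous fun x => s (idx 0) * φ (idx 0) x := (hsol' (idx 0)).continuous_left
    obtain ⟨x₁, hx₁, hpos₁⟩ : ∃ x₁ ∈ Ioo a b, 0 < s (idx 0) * φ (idx 0) x₁ := by
      have h1 := (hsol' (idx 0)).d1 a
      have h3 := hasDerivAt_iff_tendsto_slope.1 h1
      have h4 : ∀ᶠ y in nhdsWithin a {a}ᶜ, 0 < slope (fun x => s (idx 0) * φ (idx 0) x) a y :=
        h3.eventually (lt_mem_nhds (hspos (idx 0)))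
      have h5 : ∀ᶠ y in nhdsWithin a (Ioi a), 0 < slope (fun x => s (idx 0) * φ (idx 0) x) a y :=
        h4.filter_mono (nhdsWithin_mono a fun y hy => ne_of_gt hy)
      obtain ⟨y, hy1, hy2⟩ := (h5.and (Ioo_mem_nhdsGT hab)).exists
      refine ⟨y, hy2, ?_⟩
      rw [slope_def_field, E.bda, mul_zero, sub_zero] at hy1
      have h6 : 0 < y - a := sub_pos.2 hy2.1
      exact (div_pos_iff_of_pos_right h6).1 hy1
    intro x hx
    by_contra hcon
    rw [not_lt] at hcon
    have h1 : (0 : ℝ) ∈ (fun x => s (idx 0) * φ (idx 0) x) '' uIcc x x₁ := by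
      have := intermediate_value_uIcc (hc.continuousOn (s := uIcc x x₁))
      refine this ?_
      rw [mem_uIcc]
      exact Or.inl ⟨hcon, hpos₁.le⟩
    obtain ⟨y, hy, hy0⟩ := h1
    refine hnz y ?_ hy0
    exact (ordConnected_Ioo.uIcc_subset hx hx₁) hy
  · -- number of zeros
    intro j hj
    have hfin := (hsol' (idx j)).zeros_finite (hcont _) (hne _) a b
    have hZ : ∀ x ∈ Ioo a b, s (idx j) * φ (idx j) x = 0 → x ∈ hfin.toFinset.filter fun x => x ∈ Ioo a b := by
      intro x hx h0
      simp only [Finset.mem_filter, Set.Finite.mem_toFinset]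
      exact ⟨⟨Ioo_subset_Icc_self hx, h0⟩, hx⟩
    have h1 := nneg_le_card (hcont _) (hsol' (idx j)) (hne _) _ hZ
    rw [hcount j hj] at h1
    have h3 : j ≤ (hfin.toFinset.filter fun x => x ∈ Ioo a b).card := by exact_mod_cast h1
    obtain ⟨Z, hZs, hZc⟩ := Finset.exists_subset_card_eq h3
    refine ⟨Z, hZc, fun z hz => ?_⟩
    have h4 := hZs hz
    simp only [Finset.mem_filter, Set.Finite.mem_toFinset] at h4
    exact ⟨h4.2, h4.1.2⟩
  · -- a zero of the zero energy solution
    by_contra hcon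
    push Not at hcon
    have hne0 : ∃ x, f₀ x ≠ 0 := by
      by_contra h
      push Not at h
      have h1 : f₀ = fun _ => 0 := funext h
      have h3 := hf₀.d1 a
      rw [h1] at h3
      have h4 := h3.unique (hasDerivAt_const a 0)
      rw [hga] at h4
      exact one_ne_zero h4
    have h1 := nneg_le_card hc0 hf₀ hne0 (a := a) (b := b) ∅ (fun x hx h0 => absurd h0 (hcon x hx))
    have h3 : pot 1 0 U = fun x => 1 - U x := by
      ext x
      simp [pot]
    rw [← h3, hcnt 0 le_rfl] at h1
    have h4 : (Finset.univ.filter fun i => 0 < e i).card = 0 := by simpa using h1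
    rw [Finset.card_eq_zero, Finset.filter_eq_empty_iff] at h4
    exact h4 (Finset.mem_univ ⟨0, hn⟩) (E.he _)
  · intro j _
    have h1 := E.norm (idx j)
    rw [hk1] at h1
    have h3 : ∀ x, om x * (s (idx j) * φ (idx j) x) ^ 2 = om x * φ (idx j) x ^ 2 := by
      intro x
      rw [mul_pow, hs2, one_mul]
    simp only [h3]
    rw [h1]
    simp
  · intro x hx
    have h1 : ∀ j, α (idx j) * (s (idx j) * φ (idx j) x) ^ 2 = (fun i => α i * φ i x ^ 2) (idx j) := by
      intro j
      simp only [mul_pow, hs2, one_mul]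
    rw [Finset.sum_congr rfl fun j _ => h1 j, hsum (fun i => α i * φ i x ^ 2)]
    exact E.el x hx
  · -- the energy identity
    rw [hsum fun i => e i ^ γ]
    have h1 := O.eq
    rw [G_eq_sum hγ E.hk E.he E.cnt] at h1
    have hUn : ∀ x, 0 ≤ U x := by
      intro x
      by_cases hx : x ∈ Ioo a b
      · exact (O.pos x hx).le
      · rw [O.zero x hx]
    have hcont2 : Continuous fun x => U x ^ (2 + γ) * Real.exp (-(2 * γ * x)) := by
      have : Continuous fun x => U x ^ (2 + γ) := O.cont.rpow_const fun x => Or.inr (by linarith)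
      fun_prop
    have hnn : ∀ x, 0 ≤ U x ^ (2 + γ) * Real.exp (-(2 * γ * x)) := fun x =>
      mul_nonneg (Real.rpow_nonneg (hUn x) _) (Real.exp_pos _).le
    have hJ : Jf γ a b U = ENNReal.ofReal (∫ x in a..b, U x ^ (2 + γ) * Real.exp (-(2 * γ * x))) := by
      unfold Jf
      rw [intervalIntegral.integral_of_le hab.le, integral_Ioc_eq_integral_Ioo,
        ofReal_integral_eq_lintegral_ofReal]
      · exact ((hcont2.continuousOn.integrableOn_Icc (a := a) (b := b)).mono_set Ioo_subset_Icc_self)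
      · exact Filter.Eventually.of_forall hnn
    have hI : 0 ≤ ∫ x in a..b, U x ^ (2 + γ) * Real.exp (-(2 * γ * x)) :=
      intervalIntegral.integral_nonneg hab.le fun x _ => hnn x
    rw [hJ, ← ENNReal.ofReal_mul O.hC.le, ENNReal.ofReal_eq_ofReal_iff
      (Finset.sum_nonneg fun i _ => mul_nonneg (sq_nonneg _) (Real.rpow_nonneg (E.he i).le _)) (mul_nonneg O.hC.le hI)] at h1
    rw [← h1]
    refine Finset.sum_congr rfl fun i _ => ?_
    rw [hk1]
    simp

end Pool.Agent.RLT40
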