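import Pool.Agent.RLT40.OneD

/-!
# Module SUP (paper 4.2): mean value inequality and uniform sup bound.

`ρ(x) = Σ α_i φ_i(x)²` on `[a,b]`, extended by `0`: `C¹` (as `φ_i = 0` at the ends), `ρ'' = 2Σα(ψ² + (k²+eω-U)φ²) ≥ -2Uρ` inside, and `γρ = C(2+γ) U^{1+γ} e^{-2γx}`.
`ρ(t) ≤ ½(ρ(t-s)+ρ(t+s)) + ∫_{|x-t|<s} (s-|x-t|) U ρ dx`; average over `s ∈ (0,1)`:
`ρ(t) ≤ ½∫_{|x-t|<1} ρ + ½∫_{|x-t|<1} Uρ`.  Multiply by `γ e^{2γt}/(C(2+γ))`; `e^{2γ} ≤ 2`.
-/

open MeasureTheory Set
open scoped ENNReal NNReal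

namespace Pool.Agent.RLT40

private theorem half_right {ρ ρ' ρ'' U : ℝ → ℝ} {t d : ℝ} (htd : t ≤ d) (hd : d ≤ t + 1)
    (h1 : ∀ x, HasDerivAt ρ (ρ' x) x) (h2 : ∀ x, HasDerivAt ρ' (ρ'' x) x) (hc : Continuous ρ'')
    (hU : Continuous U) (hb : d = t + 1 ∨ (ρ d = 0 ∧ ρ' d = 0)) (hρ : ∀ x, 0 ≤ ρ x)
    (hU0 : ∀ x, 0 ≤ U x) (h3 : ∀ x, -ρ'' x ≤ 2 * U x * ρ x) :
    ρ t + ρ' t / 2 ≤ ∫ x in t..d, (ρ x + U x * ρ x) := by
  have cρ : Continuous ρ := continuous_iff_continuousAt.2 fun x => (h1 x).continuousAt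
  have hF : ∀ x, HasDerivAt (fun x => (t + 1 - x) ^ 2 / 2 * ρ' x + (t + 1 - x) * ρ x)
      ((t + 1 - x) ^ 2 / 2 * ρ'' x - ρ x) x := by
    intro x
    have e1 : HasDerivAt (fun x : ℝ => t + 1 - x) (-1) x := by
      simpa using (hasDerivAt_id x).const_sub (t + 1)
    have e2 := ((e1.pow 2).div_const 2).mul (h2 x)
    have e3 := e1.mul (h1 x)
    refine (e2.add e3).congr_deriv ?_
    simp only [Pi.pow_apply]
    push_cast
    ring
  have hint := intervalIntegral.integral_eq_sub_of_hasDerivAt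
    (f := fun x => (t + 1 - x) ^ 2 / 2 * ρ' x + (t + 1 - x) * ρ x)
    (f' := fun x => (t + 1 - x) ^ 2 / 2 * ρ'' x - ρ x) (a := t) (b := d)
    (fun x _ => hF x) ((by fun_prop : Continuous _).intervalIntegrable _ _)
  have hFd : (t + 1 - d) ^ 2 / 2 * ρ' d + (t + 1 - d) * ρ d = 0 := by
    rcases hb with h | ⟨h, h'⟩
    · rw [h]; ring
    · rw [h, h']; ring
  have hle : ∫ x in t..d, -((t + 1 - x) ^ 2 / 2 * ρ'' x - ρ x) ≤ ∫ x in t..d, (ρ x + U x * ρ x) := by
    apply intervalIntegral.integral_mono_on htd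
    · exact (by fun_prop : Continuous _).intervalIntegrable _ _
    · exact (by fun_prop : Continuous _).intervalIntegrable _ _
    · intro x hx
      have a1 : 0 ≤ t + 1 - x := by linarith [hx.2]
      have a2 : t + 1 - x ≤ 1 := by linarith [hx.1]
      have a3 : (t + 1 - x) ^ 2 ≤ 1 := by nlinarith
      have a4 : 0 ≤ U x * ρ x := mul_nonneg (hU0 x) (hρ x)
      have a5 := h3 x
      have a6 : (t + 1 - x) ^ 2 / 2 * (-ρ'' x) ≤ (t + 1 - x) ^ 2 / 2 * (2 * U x * ρ x) :=
        mul_le_mul_of_nonneg_left a5 (by positivity)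
      nlinarith
  rw [intervalIntegral.integral_neg, hint, hFd] at hle
  have : (t + 1 - t) ^ 2 / 2 * ρ' t + (t + 1 - t) * ρ t = ρ t + ρ' t / 2 := by ring
  linarith

private theorem half_left {ρ ρ' ρ'' U : ℝ → ℝ} {t c : ℝ} (htc : c ≤ t) (hc1 : t - 1 ≤ c)
    (h1 : ∀ x, HasDerivAt ρ (ρ' x) x) (h2 : ∀ x, HasDerivAt ρ' (ρ'' x) x) (hc : Continuous ρ'')
    (hU : Continuous U) (hb : c = t - 1 ∨ (ρ c = 0 ∧ ρ' c = 0)) (hρ : ∀ x, 0 ≤ ρ x)
    (hU0 : ∀ x, 0 ≤ U x) (h3 : ∀ x, -ρ'' x ≤ 2 * U x * ρ x) :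
    ρ t - ρ' t / 2 ≤ ∫ x in c..t, (ρ x + U x * ρ x) := by
  have cρ : Continuous ρ := continuous_iff_continuousAt.2 fun x => (h1 x).continuousAt
  have hF : ∀ x, HasDerivAt (fun x => (x - t + 1) ^ 2 / 2 * ρ' x - (x - t + 1) * ρ x)
      ((x - t + 1) ^ 2 / 2 * ρ'' x - ρ x) x := by
    intro x
    have e1 : HasDerivAt (fun x : ℝ => x - t + 1) 1 x := by
      simpa using ((hasDerivAt_id x).sub_const t).add_const 1
    have e2 := ((e1.pow 2).div_const 2).mul (h2 x)
    have e3 := e1.mul (h1 x)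
    refine (e2.sub e3).congr_deriv ?_
    simp only [Pi.pow_apply]
    push_cast
    ring
  have hint := intervalIntegral.integral_eq_sub_of_hasDerivAt
    (f := fun x => (x - t + 1) ^ 2 / 2 * ρ' x - (x - t + 1) * ρ x)
    (f' := fun x => (x - t + 1) ^ 2 / 2 * ρ'' x - ρ x) (a := c) (b := t)
    (fun x _ => hF x) ((by fun_prop : Continuous _).intervalIntegrable _ _)
  have hFc : (c - t + 1) ^ 2 / 2 * ρ' c - (c - t + 1) * ρ c = 0 := by
    rcases hb with h | ⟨h, h'⟩
    · rw [h]; ring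
    · rw [h, h']; ring
  have hle : ∫ x in c..t, -((x - t + 1) ^ 2 / 2 * ρ'' x - ρ x) ≤ ∫ x in c..t, (ρ x + U x * ρ x) := by
    apply intervalIntegral.integral_mono_on htc
    · exact (by fun_prop : Continuous _).intervalIntegrable _ _
    · exact (by fun_prop : Continuous _).intervalIntegrable _ _
    · intro x hx
      have a1 : 0 ≤ x - t + 1 := by linarith [hx.1]
      have a2 : x - t + 1 ≤ 1 := by linarith [hx.2]
      have a3 : (x - t + 1) ^ 2 ≤ 1 := by nlinarith
      have a4 : 0 ≤ U x * ρ x := mul_nonneg (hU0 x) (hρ x)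
      have a5 := h3 x
      have a6 : (x - t + 1) ^ 2 / 2 * (-ρ'' x) ≤ (x - t + 1) ^ 2 / 2 * (2 * U x * ρ x) :=
        mul_le_mul_of_nonneg_left a5 (by positivity)
      nlinarith
  rw [intervalIntegral.integral_neg, hint, hFc] at hle
  have : (t - t + 1) ^ 2 / 2 * ρ' t - (t - t + 1) * ρ t = ρ' t / 2 - ρ t := by ring
  linarith

theorem mean_value {γ a b C : ℝ} (hγ : 0 < γ) (hγ1 : γ ≤ 1 / 20) {U : ℝ → ℝ} (O : Opt γ a b C U) (t : ℝ) :
    U t ^ (1 + γ) ≤ ∫ x in (t - 1)..(t + 1), (U x ^ (1 + γ) + U x ^ (2 + γ)) := by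
  have hU0 : ∀ x, 0 ≤ U x := by
    intro x
    by_cases hx : x ∈ Ioo a b
    · exact (O.pos x hx).le
    · rw [O.zero x hx]
  have cU := O.cont
  have c1 : Continuous fun x => U x ^ (1 + γ) := cU.rpow_const fun x => Or.inr (by linarith)
  have c2 : Continuous fun x => U x ^ (2 + γ) := cU.rpow_const fun x => Or.inr (by linarith)
  have hnn : ∀ x, 0 ≤ U x ^ (1 + γ) + U x ^ (2 + γ) := fun x =>
    add_nonneg (Real.rpow_nonneg (hU0 x) _) (Real.rpow_nonneg (hU0 x) _)
  by_cases ht : t ∈ Ioo a b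
  swap
  · rw [O.zero t ht, Real.zero_rpow (by linarith)]
    exact intervalIntegral.integral_nonneg (by linarith) fun x _ => hnn x
  obtain ⟨n, k, e, α, φ, ψ, hn, E⟩ := O.el
  have cφ : ∀ i, Continuous (φ i) := fun i =>
    continuous_iff_continuousAt.2 fun x => ((E.sol i).d1 x).continuousAt
  have cψ : ∀ i, Continuous (ψ i) := fun i =>
    continuous_iff_continuousAt.2 fun x => ((E.sol i).d2 x).continuousAt
  have cp : ∀ i, Continuous (pot (k i) (e i) U) := by
    intro i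
    unfold pot om
    fun_prop
  set ρ : ℝ → ℝ := fun x => ∑ i, α i * φ i x ^ 2 with hρdef
  set ρ' : ℝ → ℝ := fun x => ∑ i, α i * (2 * φ i x * ψ i x) with hρ'def
  set ρ'' : ℝ → ℝ := fun x => ∑ i, α i * (2 * (ψ i x ^ 2 + pot (k i) (e i) U x * φ i x ^ 2)) with hρ''def
  have h1 : ∀ x, HasDerivAt ρ (ρ' x) x := by
    intro x
    apply HasDerivAt.fun_sum
    intro i _
    have := (((E.sol i).d1 x).pow 2).const_mul (α i)
    refine this.congr_deriv ?_
    push_cast
    ring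
  have h2 : ∀ x, HasDerivAt ρ' (ρ'' x) x := by
    intro x
    apply HasDerivAt.fun_sum
    intro i _
    have := ((((E.sol i).d1 x).const_mul 2).mul ((E.sol i).d2 x)).const_mul (α i)
    refine this.congr_deriv ?_
    ring
  have hc : Continuous ρ'' := by
    apply continuous_finsetSum
    intro i _
    exact continuous_const.mul (continuous_const.mul (((cψ i).pow 2).add ((cp i).mul ((cφ i).pow 2))))
  have hρ0 : ∀ x, 0 ≤ ρ x := fun x =>
    Finset.sum_nonneg fun i _ => mul_nonneg (E.hα i).le (sq_nonneg _)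
  have h3 : ∀ x, -ρ'' x ≤ 2 * U x * ρ x := by
    intro x
    rw [hρ''def, hρdef]
    simp only
    rw [← Finset.sum_neg_distrib, Finset.mul_sum]
    apply Finset.sum_le_sum
    intro i _
    have hα := (E.hα i).le
    have hom : 0 < om x := Real.exp_pos _
    have he := (E.he i).le
    unfold pot
    have a1 : 0 ≤ α i * (ψ i x ^ 2 + ((k i : ℝ) ^ 2 + e i * om x) * φ i x ^ 2) := by positivity
    nlinarith
  have hab := O.hab
  -- boundary
  have hbb : ρ b = 0 ∧ ρ' b = 0 := by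
    constructor
    · rw [hρdef]; exact Finset.sum_eq_zero fun i _ => by rw [E.bdb i]; ring
    · rw [hρ'def]; exact Finset.sum_eq_zero fun i _ => by rw [E.bdb i]; ring
  have hba : ρ a = 0 ∧ ρ' a = 0 := by
    constructor
    · rw [hρdef]; exact Finset.sum_eq_zero fun i _ => by rw [E.bda i]; ring
    · rw [hρ'def]; exact Finset.sum_eq_zero fun i _ => by rw [E.bda i]; ring
  set d := min b (t + 1) with hd
  set c := max a (t - 1) with hcdef
  have htd : t ≤ d := le_min ht.2.le (by linarith)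
  have hct : c ≤ t := max_le ht.1.le (by linarith)
  have hR := half_right (U := U) htd (min_le_right _ _) h1 h2 hc cU (by
    rcases min_choice b (t + 1) with h | h
    · right; rw [hd, h]; exact hbb
    · left; rw [hd, h]) hρ0 hU0 h3
  have hL := half_left (U := U) hct (le_max_right _ _) h1 h2 hc cU (by
    rcases max_choice a (t - 1) with h | h
    · right; rw [hcdef, h]; exact hba
    · left; rw [hcdef, h]) hρ0 hU0 h3
  have cρ : Continuous ρ := continuous_iff_continuousAt.2 fun x => (h1 x).continuousAt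
  have cI : Continuous fun x => ρ x + U x * ρ x := by fun_prop
  have hsum : 2 * ρ t ≤ ∫ x in c..d, (ρ x + U x * ρ x) := by
    rw [← intervalIntegral.integral_add_adjacent_intervals (cI.intervalIntegrable c t)
      (cI.intervalIntegrable t d)]
    linarith
  have hD : 0 < C * (2 + γ) / γ := by
    have := O.hC
    positivity
  set D := C * (2 + γ) / γ with hDdef
  have hel : ∀ x ∈ Icc a b, ρ x = D * U x ^ (1 + γ) * Real.exp (-(2 * γ * x)) := by
    intro x hx
    have := E.el x hx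
    rw [hDdef]
    field_simp
    rw [hρdef]
    linarith
  have hcd : c ≤ d := hct.trans htd
  have hmono : ∫ x in c..d, (ρ x + U x * ρ x) ≤
      ∫ x in c..d, (D * Real.exp (-(2 * γ * (t - 1)))) * (U x ^ (1 + γ) + U x ^ (2 + γ)) := by
    apply intervalIntegral.integral_mono_on hcd
    · exact cI.intervalIntegrable _ _
    · exact (by fun_prop : Continuous _).intervalIntegrable _ _
    · intro x hx
      have hx1 : x ∈ Icc a b := ⟨(le_max_left _ _).trans hx.1, hx.2.trans (min_le_left _ _)⟩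
      have hx2 : t - 1 ≤ x := (le_max_right _ _).trans hx.1
      rw [hel x hx1]
      have e1 : U x * (D * U x ^ (1 + γ) * Real.exp (-(2 * γ * x))) =
          D * Real.exp (-(2 * γ * x)) * U x ^ (2 + γ) := by
        have e3 : U x ^ (2 + γ) = U x * U x ^ (1 + γ) := by
          rw [show (2 + γ) = 1 + (1 + γ) by ring,
            Real.rpow_add_of_nonneg (hU0 x) (by norm_num) (by linarith), Real.rpow_one]
        rw [e3]
        ring
      rw [e1]
      have e2 : D * U x ^ (1 + γ) * Real.exp (-(2 * γ * x)) + D * Real.exp (-(2 * γ * x)) * U x ^ (2 + γ) =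
          (D * Real.exp (-(2 * γ * x))) * (U x ^ (1 + γ) + U x ^ (2 + γ)) := by ring
      rw [e2]
      apply mul_le_mul_of_nonneg_right _ (hnn x)
      apply mul_le_mul_of_nonneg_left _ hD.le
      apply Real.exp_le_exp.2
      nlinarith
  rw [intervalIntegral.integral_const_mul] at hmono
  have hI : ∫ x in c..d, (U x ^ (1 + γ) + U x ^ (2 + γ)) ≤
      ∫ x in (t - 1)..(t + 1), (U x ^ (1 + γ) + U x ^ (2 + γ)) := by
    apply intervalIntegral.integral_mono_interval (le_max_right _ _) hcd (min_le_right _ _)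
    · exact Filter.Eventually.of_forall fun x => hnn x
    · exact (c1.add c2).intervalIntegrable _ _
  have hI0 : 0 ≤ ∫ x in (t - 1)..(t + 1), (U x ^ (1 + γ) + U x ^ (2 + γ)) :=
    intervalIntegral.integral_nonneg (by linarith) fun x _ => hnn x
  have htI : t ∈ Icc a b := ⟨ht.1.le, ht.2.le⟩
  have hexp : Real.exp (-(2 * γ * (t - 1))) = Real.exp (2 * γ) * Real.exp (-(2 * γ * t)) := by
    rw [← Real.exp_add]; congr 1; ring
  have h2g : Real.exp (2 * γ) ≤ 2 := by
    have h4 : Real.exp (2 * γ) ≤ Real.exp (1 / 2) := Real.exp_le_exp.2 (by linarith)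
    have h5 : Real.exp (1 / 2) ^ 2 = Real.exp 1 := by rw [← Real.exp_nat_mul]; norm_num
    have h6 := Real.exp_one_lt_d9
    nlinarith [Real.exp_pos (1 / 2)]
  rw [hel t htI] at hsum
  rw [hexp] at hmono
  have hEt : 0 < D * Real.exp (-(2 * γ * t)) := mul_pos hD (Real.exp_pos _)
  have key : (D * Real.exp (-(2 * γ * t))) * (2 * U t ^ (1 + γ)) ≤
      (D * Real.exp (-(2 * γ * t))) *
        (2 * ∫ x in (t - 1)..(t + 1), (U x ^ (1 + γ) + U x ^ (2 + γ))) := by
    calc (D * Real.exp (-(2 * γ * t))) * (2 * U t ^ (1 + γ))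
        = 2 * (D * U t ^ (1 + γ) * Real.exp (-(2 * γ * t))) := by ring
      _ ≤ D * (Real.exp (2 * γ) * Real.exp (-(2 * γ * t))) *
            ∫ x in c..d, (U x ^ (1 + γ) + U x ^ (2 + γ)) := hsum.trans hmono
      _ ≤ D * (Real.exp (2 * γ) * Real.exp (-(2 * γ * t))) *
            ∫ x in (t - 1)..(t + 1), (U x ^ (1 + γ) + U x ^ (2 + γ)) :=
          mul_le_mul_of_nonneg_left hI (by positivity)
      _ = (D * Real.exp (-(2 * γ * t))) *
            (Real.exp (2 * γ) * ∫ x in (t - 1)..(t + 1), (U x ^ (1 + γ) + U x ^ (2 + γ))) := by ring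
      _ ≤ _ := by
          apply mul_le_mul_of_nonneg_left _ hEt.le
          exact mul_le_mul_of_nonneg_right h2g hI0
  have := le_of_mul_le_mul_left key hEt
  linarith

end Pool.Agent.RLT40
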