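import Pool.Agent.RLT40.Mass
import Pool.Agent.RLT40.SupA

/-!
# Module SUP (paper 4.2): mean value inequality and uniform sup bound.

`ρ(x) = Σ α_i φ_i(x)²` on `[a,b]`, extended by `0`: `C¹` (as `φ_i = 0` at the ends), `ρ'' = 2Σα(ψ² + (k²+eω-U)φ²) ≥ -2Uρ` inside, and `γρ = C(2+γ) U^{1+γ} e^{-2γx}`.
`ρ(t) ≤ ½(ρ(t-s)+ρ(t+s)) + ∫_{|x-t|<s} (s-|x-t|) U ρ dx`; average over `s ∈ (0,1)`:
`ρ(t) ≤ ½∫_{|x-t|<1} ρ + ½∫_{|x-t|<1} Uρ`.  Multiply by `γ e^{2γt}/(C(2+γ))`; `e^{2γ} ≤ 2`.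
-/

open MeasureTheory Set
open scoped ENNReal NNReal

namespace Pool.Agent.RLT40

theorem sup_bound : ∃ K > 0, ∃ γ₁ > 0, γ₁ ≤ 1 / 20 ∧ ∀ γ a b C : ℝ, ∀ U : ℝ → ℝ, 0 < γ → γ < γ₁ → Opt γ a b C U →
    3 / 4 * (3 / 16) * kap γ ≤ C → C ≤ 3 / 16 * kap γ → ∀ x : ℝ, U x ≤ K := by
  obtain ⟨K, hK, γ₁, hγ₁, hγ₁', hmass⟩ := mass_bound
  refine ⟨2 + 4 * K, by positivity, γ₁, hγ₁, hγ₁', ?_⟩
  intro γ a b C U hγ hγ2 O hC1 hC2 t
  have hU0 : ∀ x, 0 ≤ U x := by
    intro x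
    by_cases hx : x ∈ Ioo a b
    · exact (O.pos x hx).le
    · exact (O.zero x hx).ge
  have h := mean_value hγ (by linarith) O t
  have c1 : Continuous fun x => U x ^ (1 + γ) :=
    O.cont.rpow_const fun _ => Or.inr (by linarith)
  have c2 : Continuous fun x => U x ^ (2 + γ) :=
    O.cont.rpow_const fun _ => Or.inr (by linarith)
  have h1 : ∫ x in (t - 1)..(t + 1), (U x ^ (1 + γ) + U x ^ (2 + γ)) ≤
      ∫ x in (t - 1)..(t + 1), (1 + 2 * U x ^ (2 + γ)) := by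
    apply intervalIntegral.integral_mono_on (by linarith)
    · exact (c1.add c2).intervalIntegrable _ _
    · exact (continuous_const.add (continuous_const.mul c2)).intervalIntegrable _ _
    · intro x _
      have : U x ^ (1 + γ) ≤ 1 + U x ^ (2 + γ) := by
        rcases le_total (U x) 1 with h1 | h1
        · have a1 : U x ^ (1 + γ) ≤ 1 := Real.rpow_le_one (hU0 x) h1 (by linarith)
          have a2 : 0 ≤ U x ^ (2 + γ) := Real.rpow_nonneg (hU0 x) _
          linarith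
        · have : U x ^ (1 + γ) ≤ U x ^ (2 + γ) :=
            Real.rpow_le_rpow_of_exponent_le h1 (by linarith)
          linarith
      linarith
  have h2 : ∫ x in (t - 1)..(t + 1), (1 + 2 * U x ^ (2 + γ)) =
      2 + 2 * ((∫ x in (t - 1)..t, U x ^ (2 + γ)) + ∫ x in t..(t + 1), U x ^ (2 + γ)) := by
    have i2 : IntervalIntegrable (fun x => 2 * U x ^ (2 + γ)) volume (t - 1) (t + 1) :=
      (continuous_const.mul c2).intervalIntegrable _ _
    rw [intervalIntegral.integral_add_adjacent_intervals (c2.intervalIntegrable _ _)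
      (c2.intervalIntegrable _ _),
      intervalIntegral.integral_add (continuous_const.intervalIntegrable _ _) i2,
      intervalIntegral.integral_const_mul]
    simp
    ring
  have h3 := hmass γ a b C U hγ hγ2 O hC1 hC2 (t - 1)
  have h4 := hmass γ a b C U hγ hγ2 O hC1 hC2 t
  rw [sub_add_cancel] at h3
  have h5 : U t ^ (1 + γ) ≤ 2 + 4 * K := by linarith
  rcases le_total (U t) 1 with h6 | h6
  · linarith
  · calc U t = U t ^ (1 : ℝ) := (Real.rpow_one _).symm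
      _ ≤ U t ^ (1 + γ) := Real.rpow_le_rpow_of_exponent_le h6 (by linarith)
      _ ≤ 2 + 4 * K := h5

end Pool.Agent.RLT40
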