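import Pool.Agent.RLT40.FirstB
import Pool.Agent.RLT40.QuietC
import Pool.Agent.RLT40.S0
import Pool.Agent.RLT40.SDef
import Pool.Agent.RLT40.StructA
import Pool.Agent.RLT40.SupB

/-!
# Modules STRUCT1, STRUCT2 (paper 4.8): normalisation and Prop S.

STRUCT1 `swave_data`: pure bookkeeping from `Opt` + `swave_only`: all `k i = 1` (an eigenfunction with `k i ≥ 2` would give `nneg ≥ 1` by `cnt`), sort the finitely many distinct energies
in decreasing order; `nneg a b (pot 1 (e j) U) = j` by `cnt`, so `φ j` has at least `j` zeros (nneg_le_card), and `φ 0` has none (le_nneg_of_zeros with the zeros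
`a < z < b` would give `nneg a b (pot 1 τ U) ≥ 2` for `τ < e 0` close to `e 0`).  Zero energy solution `f₀ a = 0`, `g₀ a = 1` has a zero in `(a,b)` (else `nneg a b (pot 1 0 U) = 0`).
STRUCT2 `exists_SD`: first zero `t₁` of `g₀` in `(a,b)` (Rolle); shift by `t₁`.  For every `c ≤ 0` take the good window at `c`, apply first_left (with `a' = max a α`), so
`∫_{c-1}^{c+1} U² ≤ η` for `c ≤ -C₀'`, then mean_value: `U(c)^{1+γ} ≤ ∫ (U^{1+γ} + U^{2+γ}) ≤ (1+K) ∫ U ≤ ...`, small.  Window at `0`: first_core, and `U ≤ 1/100` on `[C₀, R]`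
from `core2` and mean_value.  `φ_j(0) > 0` (Sturm comparison with `f₀`), normalise `φ_j(0) = 1` (`α_j` changes by the square).
Constants: `K₁` from sup_bound, `C₀` absolute (from first_left with `η` absolute and `8 e^{-2C₀}` small), `R` arbitrary.
-/

open MeasureTheory Set
open scoped ENNReal NNReal

namespace Pool.Agent.RLT40

theorem Opt.nonneg {γ a b C : ℝ} {U : ℝ → ℝ} (O : Opt γ a b C U) (x : ℝ) : 0 ≤ U x := by
  by_cases hx : x ∈ Ioo a b
  · exact (O.pos x hx).le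
  · exact (O.zero x hx).ge

/-- small local `L²` norm gives a small value -/
theorem sb_small {γ a b C K : ℝ} (hγ : 0 < γ) (hγ1 : γ ≤ 1 / 100) {U : ℝ → ℝ} (O : Opt γ a b C U) (hK0 : 0 < K) (hK : ∀ x, U x ≤ K) {t : ℝ}
    (h : (∫ x in (t - 1)..(t + 1), U x ^ 2) ≤ 1 / (2000 * (5001 + K))) : U t ≤ 1 / 100 := by
  have hU0 := O.nonneg
  have hmv := mean_value hγ (by linarith : γ ≤ 1 / 20) O t
  have hpt : ∀ x, U x ^ (1 + γ) + U x ^ (2 + γ) ≤ 1 / 5000 + (5001 + K) * U x ^ 2 := by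
    intro x
    have h0 := hU0 x
    have h1 : U x ^ (1 + γ) ≤ 1 / 5000 + 5000 * U x ^ 2 := by
      rcases le_or_gt (U x) (1 / 5000) with hc | hc
      · have : U x ^ (1 + γ) ≤ U x ^ (1 : ℝ) :=
          Real.rpow_le_rpow_of_exponent_ge' h0 (by linarith) (by norm_num) (by linarith)
        rw [Real.rpow_one] at this
        nlinarith [sq_nonneg (U x)]
      · rcases le_or_gt (U x) 1 with hd | hd
        · have : U x ^ (1 + γ) ≤ U x ^ (1 : ℝ) :=
            Real.rpow_le_rpow_of_exponent_ge' h0 hd (by norm_num) (by linarith)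
          rw [Real.rpow_one] at this
          nlinarith [sq_nonneg (U x)]
        · have : U x ^ (1 + γ) ≤ U x ^ (2 : ℝ) := Real.rpow_le_rpow_of_exponent_le hd.le (by linarith)
          rw [Real.rpow_two] at this
          nlinarith [sq_nonneg (U x)]
    have h2 : U x ^ (2 + γ) ≤ (1 + K) * U x ^ 2 := by
      rw [Real.rpow_add_of_nonneg h0 (by norm_num) hγ.le, Real.rpow_two, mul_comm]
      have : U x ^ γ ≤ 1 + K := by
        rcases le_or_gt (U x) 1 with hd | hd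
        · have := Real.rpow_le_one h0 hd hγ.le
          linarith
        · have h3 : U x ^ γ ≤ U x ^ (1 : ℝ) := Real.rpow_le_rpow_of_exponent_le hd.le (by linarith)
          rw [Real.rpow_one] at h3
          have := hK x
          linarith
      exact mul_le_mul_of_nonneg_right this (sq_nonneg _)
    nlinarith
  have hc1 : Continuous fun x => U x ^ (1 + γ) + U x ^ (2 + γ) :=
    (O.cont.rpow_const fun x => Or.inr (by linarith)).add (O.cont.rpow_const fun x => Or.inr (by linarith))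
  have hc2 : Continuous fun x => 1 / 5000 + (5001 + K) * U x ^ 2 :=
    continuous_const.add (continuous_const.mul (O.cont.pow 2))
  have hI : (∫ x in (t - 1)..(t + 1), (U x ^ (1 + γ) + U x ^ (2 + γ))) ≤ ∫ x in (t - 1)..(t + 1), (1 / 5000 + (5001 + K) * U x ^ 2) :=
    intervalIntegral.integral_mono_on (by linarith) (hc1.intervalIntegrable _ _) (hc2.intervalIntegrable _ _) fun x _ => hpt x
  have hI2 : (∫ x in (t - 1)..(t + 1), (1 / 5000 + (5001 + K) * U x ^ 2)) = 1 / 2500 + (5001 + K) * ∫ x in (t - 1)..(t + 1), U x ^ 2 := by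
    have i1 : IntervalIntegrable (fun _ : ℝ => (1 / 5000 : ℝ)) volume (t - 1) (t + 1) := intervalIntegrable_const
    have i2 : IntervalIntegrable (fun x : ℝ => (5001 + K) * U x ^ 2) volume (t - 1) (t + 1) :=
      Continuous.intervalIntegrable (continuous_const.mul (O.cont.pow 2)) _ _
    rw [intervalIntegral.integral_add i1 i2, intervalIntegral.integral_const_mul]
    congr 1
    rw [intervalIntegral.integral_const, smul_eq_mul]
    ring
  have hfin : U t ^ (1 + γ) ≤ 9 / 10000 := by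
    refine hmv.trans (hI.trans (hI2.le.trans ?_))
    have h5 : (5001 + K) * (∫ x in (t - 1)..(t + 1), U x ^ 2) ≤ (5001 + K) * (1 / (2000 * (5001 + K))) := by gcongr
    have h6 : (5001 + K) * (1 / (2000 * (5001 + K))) = 1 / 2000 := by field_simp
    linarith
  by_contra hcon
  push Not at hcon
  have h7 : (1 / 100 : ℝ) ^ (3 / 2 : ℝ) ≤ U t ^ (1 + γ) := by
    calc (1 / 100 : ℝ) ^ (3 / 2 : ℝ) ≤ (1 / 100 : ℝ) ^ (1 + γ) :=
          Real.rpow_le_rpow_of_exponent_ge (by norm_num) (by norm_num) (by linarith)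
      _ ≤ U t ^ (1 + γ) := Real.rpow_le_rpow (by norm_num) hcon.le (by linarith)
  have h8 : (1 / 100 : ℝ) ^ (3 / 2 : ℝ) = 1 / 1000 := by
    rw [show (1 / 100 : ℝ) = (1 / 10) ^ (2 : ℝ) by norm_num, ← Real.rpow_mul (by norm_num)]
    norm_num
  rw [h8] at h7
  linarith

theorem Um_continuous {U : ℝ → ℝ} (hU : Continuous U) {α β ℓ : ℝ} : Continuous (Um U α β ℓ) :=
  hU.add (thd_continuous.pow 2)

theorem thd_int {α β ℓ s t : ℝ} (hst : s ≤ t) (hℓ : 0 < ℓ) (h : α + 2 * ℓ ≤ β) :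
    (∫ x in s..t, thd α β ℓ x ^ 2) ≤ 20 / ℓ ∧ (∫ x in s..t, (thd α β ℓ x ^ 2) ^ 2) ≤ 200 / ℓ ^ 3 := by
  have hpi : Real.pi ^ 2 ≤ 10 := by
    have := Real.pi_lt_d2
    have h0 := Real.pi_pos
    nlinarith
  have hO : MeasurableSet (Ioo α (α + ℓ) ∪ Ioo (β - ℓ) β) := measurableSet_Ioo.union measurableSet_Ioo
  have hvol : volume (Ioo α (α + ℓ) ∪ Ioo (β - ℓ) β) ≤ ENNReal.ofReal (2 * ℓ) := by
    refine (measure_union_le _ _).trans ?_
    rw [Real.volume_Ioo, Real.volume_Ioo, ← ENNReal.ofReal_add (by linarith) (by linarith)]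
    exact ENNReal.ofReal_le_ofReal (by linarith)
  have hvt : volume (Ioo α (α + ℓ) ∪ Ioo (β - ℓ) β) < ⊤ := lt_of_le_of_lt hvol ENNReal.ofReal_lt_top
  have gen : ∀ (F : ℝ → ℝ) (M : ℝ), 0 ≤ M → Continuous F → (∀ x, 0 ≤ F x) →
      (∀ x, F x ≤ (Ioo α (α + ℓ) ∪ Ioo (β - ℓ) β).indicator (fun _ => M) x) → (∫ x in s..t, F x) ≤ M * (2 * ℓ) := by
    intro F M hM hF hF0 hFle
    have hint : Integrable ((Ioo α (α + ℓ) ∪ Ioo (β - ℓ) β).indicator fun _ => M) :=
      (integrable_indicator_iff hO).2 (integrableOn_const hvt.ne)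
    have hFi : Integrable F := by
      refine hint.mono' hF.aestronglyMeasurable (Filter.Eventually.of_forall fun x => ?_)
      rw [Real.norm_of_nonneg (hF0 x)]; exact hFle x
    rw [intervalIntegral.integral_of_le hst]
    calc (∫ x in Ioc s t, F x) ≤ ∫ x, F x :=
          setIntegral_le_integral hFi (Filter.Eventually.of_forall hF0)
      _ ≤ ∫ x, (Ioo α (α + ℓ) ∪ Ioo (β - ℓ) β).indicator (fun _ => M) x := integral_mono hFi hint hFle
      _ = (volume (Ioo α (α + ℓ) ∪ Ioo (β - ℓ) β)).toReal * M := by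
          rw [integral_indicator hO, setIntegral_const, smul_eq_mul, Measure.real]
      _ ≤ (2 * ℓ) * M := by
          gcongr
          exact ENNReal.toReal_le_of_le_ofReal (by linarith) hvol
      _ = M * (2 * ℓ) := mul_comm _ _
  constructor
  · refine (gen _ (Real.pi ^ 2 / ℓ ^ 2) (by positivity) (thd_continuous.pow 2) (fun x => sq_nonneg _) (thd_sq_le hℓ h)).trans ?_
    rw [div_mul_eq_mul_div, div_le_div_iff₀ (by positivity) hℓ]
    nlinarith [pow_pos hℓ 2]
  · refine (gen (fun x => (thd α β ℓ x ^ 2) ^ 2) ((Real.pi ^ 2 / ℓ ^ 2) ^ 2) (by positivity) ((thd_continuous.pow 2).pow 2) (fun x => sq_nonneg _) ?_).trans ?_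
    · intro x
      have h1 := thd_sq_le hℓ h x
      have h0 : 0 ≤ thd α β ℓ x ^ 2 := sq_nonneg _
      by_cases hx : x ∈ Ioo α (α + ℓ) ∪ Ioo (β - ℓ) β
      · rw [Set.indicator_of_mem hx] at h1 ⊢
        exact pow_le_pow_left₀ h0 h1 2
      · rw [Set.indicator_of_notMem hx] at h1 ⊢
        have : thd α β ℓ x ^ 2 = 0 := le_antisymm h1 h0
        rw [this]; norm_num
    · have h100 : (Real.pi ^ 2) ^ 2 ≤ 100 := by nlinarith [sq_nonneg (Real.pi ^ 2), Real.pi_pos]
      rw [div_pow, div_mul_eq_mul_div, div_le_div_iff₀ (by positivity) (by positivity)]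
      have : 0 < ℓ ^ 4 := by positivity
      nlinarith

theorem Ntot_mono_dom {a b a' b' : ℝ} {U : ℝ → ℝ} {τ : ℝ} (ha : a' ≤ a) (hb : b ≤ b') : Ntot a b U τ ≤ Ntot a' b' U τ := by
  unfold Ntot
  refine ENNReal.tsum_le_tsum fun k => ?_
  gcongr
  exact nneg_mono_dom ha hb

/-- window comparison data from a window with small deficit -/
theorem sb_wincmp {ε : ℝ} {εw : ℝ} (hw0 : 0 < εw) (hw1 : εw ≤ 1) (hw : 1000 * εw ≤ ε) {γ a b C : ℝ} {U : ℝ → ℝ} (O : Opt γ a b C U)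
    (ha : a < 0) (hb : 0 < b) {f₀ g₀ : ℝ → ℝ} (hs : Sol (fun x => 1 - U x) f₀ g₀) (hf : f₀ a = 0) (hg : g₀ 0 = 0)
    (hpos : ∀ x ∈ Ioo a 0, 0 < f₀ x ∧ 0 < g₀ x) {α β ℓ : ℝ} (hℓ : 1 / εw ≤ ℓ) (hαβ : α + 2 * ℓ ≤ β) (hα : α < 0) (haβ : a < β)
    (hdef : ENNReal.ofReal (3 / 16 * ∫ x in Ioo (max a α) (min b β), Um U α β ℓ x ^ 2) ≤
          Ntot (max a α) (min b β) (Um U α β ℓ) 0 + ENNReal.ofReal εw) :
    ∃ fm gm, WinCmp ε a (max a α) β U (Um U α β ℓ) f₀ g₀ fm gm := by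
  have hℓ0 : 0 < ℓ := lt_of_lt_of_le (by positivity) hℓ
  have hℓi : 1 / ℓ ≤ εw := by
    rw [div_le_iff₀ hℓ0]
    rw [div_le_iff₀ hw0] at hℓ
    linarith
  have hℓ1 : 1 ≤ ℓ := le_trans (by rw [le_div_iff₀ hw0]; linarith) hℓ
  have hVc : Continuous (Um U α β ℓ) := Um_continuous O.cont
  have hV0 : ∀ x, 0 ≤ Um U α β ℓ x := fun x => add_nonneg (O.nonneg x) (sq_nonneg _)
  have hab' : max a α < β := max_lt haβ (by linarith)
  have ha'b : max a α ≤ b := (max_lt O.hab (by linarith)).le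
  obtain ⟨fm, gm, hsol, h0, h1⟩ := exists_sol (V := fun x => 1 - Um U α β ℓ x) (by fun_prop) (max a α) 0 1
  have hD : ENNReal.ofReal (3 / 16 * ∫ x in Ioo (max a α) β, Um U α β ℓ x ^ 2) ≤
      Ntot (max a α) β (Um U α β ℓ) 0 + ENNReal.ofReal (38.5 * εw) := by
    rcases le_total β b with hβ | hβ
    · rw [min_eq_right hβ] at hdef
      refine hdef.trans ?_
      gcongr
      linarith
    · rw [min_eq_left hβ] at hdef
      have hi : ∀ s t : ℝ, IntervalIntegrable (fun x => Um U α β ℓ x ^ 2) volume s t := fun s t => (hVc.pow 2).intervalIntegrable s t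
      have e1 : (∫ x in Ioo (max a α) β, Um U α β ℓ x ^ 2) =
          (∫ x in Ioo (max a α) b, Um U α β ℓ x ^ 2) + ∫ x in b..β, (thd α β ℓ x ^ 2) ^ 2 := by
        rw [← integral_Ioc_eq_integral_Ioo, ← integral_Ioc_eq_integral_Ioo, ← intervalIntegral.integral_of_le hab'.le,
          ← intervalIntegral.integral_of_le ha'b, ← intervalIntegral.integral_add_adjacent_intervals (hi _ b) (hi b _)]
        congr 1
        refine intervalIntegral.integral_congr fun x hx => ?_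
        rw [uIcc_of_le hβ] at hx
        have : U x = 0 := O.zero x fun h => absurd h.2 (not_lt.2 hx.1)
        simp only [Um, this, zero_add]
      have e2 := (thd_int (s := b) (t := β) hβ hℓ0 hαβ).2
      have e3 : 200 / ℓ ^ 3 ≤ 200 * εw := by
        rw [div_le_iff₀ (by positivity)]
        have h3 : 1 ≤ εw * ℓ := by
          rw [div_le_iff₀ hw0] at hℓ
          linarith
        have h4 : ℓ ≤ ℓ ^ 3 := by nlinarith [sq_nonneg ℓ, mul_self_nonneg (ℓ - 1)]
        nlinarith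
      calc ENNReal.ofReal (3 / 16 * ∫ x in Ioo (max a α) β, Um U α β ℓ x ^ 2)
          ≤ ENNReal.ofReal ((3 / 16 * ∫ x in Ioo (max a α) b, Um U α β ℓ x ^ 2) + 37.5 * εw) := by
            refine ENNReal.ofReal_le_ofReal ?_
            rw [e1]; linarith
        _ ≤ ENNReal.ofReal (3 / 16 * ∫ x in Ioo (max a α) b, Um U α β ℓ x ^ 2) + ENNReal.ofReal (37.5 * εw) := ENNReal.ofReal_add_le
        _ ≤ (Ntot (max a α) b (Um U α β ℓ) 0 + ENNReal.ofReal εw) + ENNReal.ofReal (37.5 * εw) := by gcongr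
        _ ≤ Ntot (max a α) β (Um U α β ℓ) 0 + ENNReal.ofReal (38.5 * εw) := by
            rw [add_assoc, ← ENNReal.ofReal_add hw0.le (by positivity)]
            gcongr
            · exact Ntot_mono_dom le_rfl hβ
            · linarith
  have hcal := (calib_window hab' hVc hV0 hsol h0 (by rw [h1]; norm_num) (by positivity) hD).1
  refine ⟨fm, gm, ⟨le_max_left _ _, hab', ha, O.cont, hVc, O.nonneg, fun x => ?_, hs, hf, hpos, hg, hsol, h0, by rw [h1]; norm_num, ?_, ?_⟩⟩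
  · simp only [Um]; nlinarith [sq_nonneg (thd α β ℓ x)]
  · have : (∫ x in (max a α)..β, (Um U α β ℓ x - U x)) = ∫ x in (max a α)..β, thd α β ℓ x ^ 2 := by
      refine intervalIntegral.integral_congr fun x _ => ?_
      simp [Um]
    rw [this]
    refine (thd_int hab'.le hℓ0 hαβ).1.trans ?_
    have : 20 / ℓ = 20 * (1 / ℓ) := by ring
    rw [this]; linarith
  · refine hcal.trans ?_
    nlinarith

/-- first zero of a function that is positive immediately to the right of `a` -/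
theorem first_zero_aux {h : ℝ → ℝ} (hc : Continuous h) {a x : ℝ} (hax : a < x) (hpos : ∀ᶠ y in nhdsWithin a (Ioi a), 0 < h y) (hx : h x ≤ 0) :
    ∃ x₀ ∈ Ioc a x, h x₀ = 0 ∧ ∀ y ∈ Ioo a x₀, 0 < h y := by
  obtain ⟨u, hu, hsub⟩ := mem_nhdsGT_iff_exists_Ioo_subset.1 hpos
  have hu' : a < u := hu
  set d := min ((a + u) / 2) ((a + x) / 2) with hd
  have hda : a < d := lt_min (by linarith) (by linarith)
  have hdu : d < u := lt_of_le_of_lt (min_le_left _ _) (by linarith)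
  have hdx : d < x := lt_of_le_of_lt (min_le_right _ _) (by linarith)
  have hpd : ∀ y ∈ Ioc a d, 0 < h y := fun y hy => hsub ⟨hy.1, hy.2.trans_lt hdu⟩
  have hK : IsCompact (Icc d x ∩ {y | h y ≤ 0}) := isCompact_Icc.inter_right (isClosed_le hc continuous_const)
  obtain ⟨x₀, hx₀, hleast⟩ := hK.exists_isLeast ⟨x, ⟨hdx.le, le_rfl⟩, hx⟩
  have hdx₀ : d < x₀ := by
    refine lt_of_le_of_ne hx₀.1.1 fun hh => ?_
    have := hpd d ⟨hda, le_rfl⟩
    rw [hh] at this
    exact absurd hx₀.2 (not_le.2 this)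
  have hposx : ∀ y ∈ Ioo a x₀, 0 < h y := by
    intro y hy
    rcases le_or_gt y d with h1 | h1
    · exact hpd y ⟨hy.1, h1⟩
    · by_contra hcon
      push Not at hcon
      exact absurd (hleast ⟨⟨h1.le, hy.2.le.trans hx₀.1.2⟩, hcon⟩) (not_le.2 hy.2)
  refine ⟨x₀, ⟨hda.trans hdx₀, hx₀.1.2⟩, le_antisymm hx₀.2 ?_, hposx⟩
  have ht : Filter.Tendsto h (nhdsWithin x₀ (Iio x₀)) (nhds (h x₀)) := (hc.tendsto x₀).mono_left nhdsWithin_le_nhds
  refine ge_of_tendsto ht ?_
  have : Ioo a x₀ ∈ nhdsWithin x₀ (Iio x₀) := Ioo_mem_nhdsLT (hda.trans hdx₀)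
  filter_upwards [this] with y hy using (hposx y hy).le

theorem pos_right_of_deriv {h h' : ℝ → ℝ} {a : ℝ} (hd : HasDerivAt h (h' a) a) (ha : h a = 0) (hpos : 0 < h' a) :
    ∀ᶠ y in nhdsWithin a (Ioi a), 0 < h y := by
  have h1 := (hasDerivAt_iff_tendsto_slope.1 hd).mono_left (nhdsWithin_mono a (fun y (hy : y ∈ Ioi a) => (ne_of_gt hy : y ≠ a)))
  have h2 := h1.eventually (lt_mem_nhds hpos)
  filter_upwards [h2, self_mem_nhdsWithin] with y hy hya
  rw [slope_def_field, ha, sub_zero] at hy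
  have : 0 < y - a := sub_pos.2 hya
  have := mul_pos hy this
  rwa [div_mul_cancel₀] at this
  exact (sub_pos.2 hya).ne'

/-- Sturm comparison: positivity to the right of a common zero -/
theorem sb_pos {a c : ℝ} {V W f g φ ψ : ℝ → ℝ} (hW : Continuous W) (hs : Sol V f g) (hs' : Sol W φ ψ)
    (hVW : ∀ x, V x ≤ W x) (hfa : f a = 0) (hφa : φ a = 0) (hψa : 0 < ψ a) (hf : ∀ x ∈ Ioc a c, 0 < f x) : ∀ x ∈ Ioc a c, 0 < φ x := by
  intro x hx
  by_contra hcon
  push Not at hcon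
  have hφc : Continuous φ := hs'.continuous_left
  obtain ⟨x₀, hx₀, hz, hpos⟩ := first_zero_aux hφc hx.1 (pos_right_of_deriv (hs'.d1 a) hφa hψa) hcon
  have hne : ∃ y, φ y ≠ 0 := by
    obtain ⟨y, hy⟩ := (pos_right_of_deriv (hs'.d1 a) hφa hψa).exists
    exact ⟨y, hy.ne'⟩
  have hψ0 : ψ x₀ ≠ 0 := hs'.deriv_ne_zero hW hne hz
  -- the Wronskian is nondecreasing
  have hX : MonotoneOn (fun x => f x * ψ x - g x * φ x) (Icc a x₀) := by
    refine monotoneOn_of_deriv_nonneg (convex_Icc _ _) ?_ ?_ ?_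
    · exact fun y _ => (wronskian_hasDerivAt hs hs' y).continuousAt.continuousWithinAt
    · exact fun y _ => (wronskian_hasDerivAt hs hs' y).differentiableAt.differentiableWithinAt
    · intro y hy
      rw [interior_Icc] at hy
      rw [(wronskian_hasDerivAt hs hs' y).deriv]
      have h1 := hVW y
      have h2 := hf y ⟨hy.1, (hy.2.le.trans hx₀.2).trans hx.2⟩
      have h3 := hpos y hy
      exact mul_nonneg (by linarith) (mul_pos h2 h3).le
  have h1 := hX (left_mem_Icc.2 hx₀.1.le) (right_mem_Icc.2 hx₀.1.le) hx₀.1.le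
  simp only [hfa, hφa, hz, zero_mul, mul_zero, sub_zero] at h1
  have h2 := hf x₀ ⟨hx₀.1, hx₀.2.trans hx.2⟩
  have h3 : 0 ≤ ψ x₀ := by
    by_contra hneg
    push Not at hneg
    nlinarith
  have h4 : 0 < ψ x₀ := lt_of_le_of_ne h3 (Ne.symm hψ0)
  -- but `φ` comes from positive values
  have h5 : ∀ᶠ y in nhdsWithin x₀ (Iio x₀), φ y < 0 := by
    have e1 := (hasDerivAt_iff_tendsto_slope.1 (hs'.d1 x₀)).mono_left
      (nhdsWithin_mono x₀ (fun y (hy : y ∈ Iio x₀) => (ne_of_lt hy : y ≠ x₀)))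
    have e2 := e1.eventually (lt_mem_nhds h4)
    filter_upwards [e2, self_mem_nhdsWithin] with y hy hya
    rw [slope_def_field, hz, sub_zero] at hy
    have hn : y - x₀ < 0 := sub_neg.2 hya
    by_contra hcc
    push Not at hcc
    exact absurd hy (not_lt.2 (div_nonpos_of_nonneg_of_nonpos hcc hn.le))
  have h6 : Ioo a x₀ ∈ nhdsWithin x₀ (Iio x₀) := Ioo_mem_nhdsLT hx₀.1
  obtain ⟨y, hy1, hy2⟩ := (h5.and (Filter.eventually_of_mem h6 fun y hy => hpos y hy)).exists
  linarith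

theorem sb_cosh {y : ℝ} (hy : 1 ≤ y) : (2 / Real.cosh y ^ 2) ^ 2 ≤ 4 / y := by
  have h1 : y ≤ Real.cosh y := by
    have h2 := Real.quadratic_le_exp_of_nonneg (by linarith : (0 : ℝ) ≤ y)
    have h3 := Real.exp_pos (-y)
    rw [Real.cosh_eq]
    nlinarith [sq_nonneg (y - 1)]
  have h0 : 0 < y := by linarith
  have h4 : y ^ 2 ≤ Real.cosh y ^ 2 := by gcongr
  have h5 : 2 / Real.cosh y ^ 2 ≤ 2 / y ^ 2 := by gcongr
  have h6 : 0 ≤ 2 / Real.cosh y ^ 2 := by positivity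
  calc (2 / Real.cosh y ^ 2) ^ 2 ≤ (2 / y ^ 2) ^ 2 := by gcongr
    _ = 4 / y ^ 4 := by rw [div_pow, ← pow_mul]; norm_num
    _ ≤ 4 / y := by
        gcongr
        calc y = y ^ 1 := (pow_one y).symm
          _ ≤ y ^ 4 := pow_le_pow_right₀ hy (by norm_num)

theorem sb_aux1 {η R : ℝ} (hη : 0 < η) (h : 4 / η ≤ R) : 1 / R ≤ η / 4 := by
  have h4 : 0 < 4 / η := by positivity
  rw [div_le_div_iff₀ (by linarith) (by norm_num)]
  have : η * (4 / η) = 4 := by field_simp
  nlinarith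

theorem sb_aux2 {η y : ℝ} (hη : 0 < η) (h : 128 / η ≤ y) : 4 / y ≤ η / 32 := by
  have h4 : 0 < 128 / η := by positivity
  rw [div_le_div_iff₀ (by linarith) (by norm_num)]
  have : η * (128 / η) = 128 := by field_simp
  nlinarith

theorem sb_aux3 {v s η : ℝ} (h : s ^ 2 ≤ η / 32) : v ^ 2 ≤ 2 * (v - s) ^ 2 + η / 16 := by
  nlinarith [sq_nonneg (v - 2 * s)]

/-- STRUCT2 -/
theorem exists_SD : ∃ K₁ > 0, ∃ C₀ > 0, ∀ R > 0, ∃ γ₁ > 0, ∃ δ₁ > 0, ∀ γ a b C : ℝ, ∀ U : ℝ → ℝ, 0 < γ → γ < γ₁ →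
    Opt γ a b C U → 3 / 16 * (1 - δ₁) * kap γ ≤ C → C ≤ 3 / 16 * kap γ →
      ∃ S : SD K₁ C₀ R, S.γ = γ ∧ S.C = C ∧ S.Lm + S.Lp = b - a := by
  obtain ⟨K, hK, γs, hγs, hγs1, hsup⟩ := sup_bound
  set η : ℝ := 1 / (2000 * (5001 + K)) with hη
  have hη0 : 0 < η := by positivity
  obtain ⟨C₁, hC₁, ε₁, hε₁, hleft⟩ := first_left hη0
  set C₀ : ℝ := C₁ + 4 + 128 / η with hC₀def
  have h128 : 0 < 128 / η := by positivity
  have hC₀ : 0 < C₀ := by positivity
  refine ⟨K, hK, C₀, hC₀, fun R hR => ?_⟩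
  set R₁ : ℝ := R + C₀ + 1 + 4 / η with hR₁def
  have h4η : 0 < 4 / η := by positivity
  have hR₁ : 0 < R₁ := by positivity
  obtain ⟨R', hR', ε₂, hε₂, hcore⟩ := first_core hR₁
  set εw : ℝ := min 1 (min (ε₁ / 1000) (ε₂ / 1000)) with hεwdef
  have hεw : 0 < εw := by positivity
  have hεw1 : εw ≤ 1 := min_le_left _ _
  have hεwa : 1000 * εw ≤ ε₁ := by
    have : εw ≤ ε₁ / 1000 := (min_le_right _ _).trans (min_le_left _ _)
    linarith
  have hεwb : 1000 * εw ≤ ε₂ := by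
    have : εw ≤ ε₂ / 1000 := (min_le_right _ _).trans (min_le_right _ _)
    linarith
  set Rw : ℝ := R' + C₁ + 1 with hRwdef
  have hR'0 : 0 < R' := hR₁.trans hR'
  have hRw : 0 < Rw := by positivity
  obtain ⟨B, hB, γw, hγw, δw, hδw, hwin⟩ := good_window hK hRw hεw
  obtain ⟨γ0, hγ0, δ0, hδ0, hsw⟩ := swave_only hK
  refine ⟨min (1 / 100) (min γs (min γw γ0)), by positivity, min (1 / 4) (min δw δ0), by positivity, ?_⟩
  intro γ a b C U hγ hγlt O hClo hChi
  have g1 : γ < 1 / 100 := hγlt.trans_le (min_le_left _ _)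
  have g2 : γ < γs := hγlt.trans_le ((min_le_right _ _).trans (min_le_left _ _))
  have g3 : γ < γw := hγlt.trans_le ((min_le_right _ _).trans ((min_le_right _ _).trans (min_le_left _ _)))
  have g4 : γ < γ0 := hγlt.trans_le ((min_le_right _ _).trans ((min_le_right _ _).trans (min_le_right _ _)))
  have hkap : 0 < kap γ := by unfold kap; positivity
  have hdm : ∀ δ, min (1 / 4) (min δw δ0) ≤ δ → 3 / 16 * (1 - δ) * kap γ ≤ C := by
    intro δ hδ
    refine le_trans ?_ hClo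
    have : 3 / 16 * (1 - δ) ≤ 3 / 16 * (1 - min (1 / 4) (min δw δ0)) := by linarith
    exact mul_le_mul_of_nonneg_right this hkap.le
  have hC34 : 3 / 4 * (3 / 16) * kap γ ≤ C := by
    have := hdm (1 / 4) (min_le_left _ _)
    linarith
  have hCw := hdm δw ((min_le_right _ _).trans (min_le_left _ _))
  have hCs := hdm δ0 ((min_le_right _ _).trans (min_le_right _ _))
  have hUK : ∀ x, U x ≤ K := hsup γ a b C U hγ g2 O hC34 hChi
  have h2 := hsw γ a b C U hγ g4 O hCs hChi hUK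
  -- the shift
  obtain ⟨N', e', α', φ', dφ', f₁, g₁, -, -, -, -, -, -, -, -, -, hsol₁, hf₁a, hg₁a, ⟨x₁, hx₁, hf₁x⟩, -⟩ := swave_data hγ O h2
  have cV₁ : Continuous fun x => 1 - U x := by have := O.cont; fun_prop
  obtain ⟨t₁, ht₁, hg₁t, hg₁pos⟩ : ∃ t ∈ Ioo a b, g₁ t = 0 ∧ ∀ y ∈ Ioo a t, 0 < g₁ y := by
    obtain ⟨c, hc, hc0⟩ := exists_hasDerivAt_eq_zero hx₁.1 hsol₁.continuous_left.continuousOn (hf₁a.trans hf₁x.symm)
      (fun x _ => hsol₁.d1 x)
    have hev : ∀ᶠ y in nhdsWithin a (Ioi a), 0 < g₁ y :=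
      (hsol₁.continuous_right.tendsto a).mono_left nhdsWithin_le_nhds |>.eventually (lt_mem_nhds hg₁a)
    obtain ⟨t, ht, h0, hp⟩ := first_zero_aux hsol₁.continuous_right hc.1 hev hc0.le
    exact ⟨t, ⟨ht.1, ht.2.trans_lt (hc.2.trans hx₁.2)⟩, h0, hp⟩
  have hf₁pos : ∀ y ∈ Ioc a t₁, 0 < f₁ y := by
    intro y hy
    have hm : StrictMonoOn f₁ (Icc a t₁) := by
      refine strictMonoOn_of_deriv_pos (convex_Icc _ _) hsol₁.continuous_left.continuousOn ?_
      intro z hz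
      rw [interior_Icc] at hz
      rw [(hsol₁.d1 z).deriv]
      exact hg₁pos z hz
    have := hm (left_mem_Icc.2 (hy.1.le.trans hy.2)) ⟨hy.1.le, hy.2⟩ hy.1
    rwa [hf₁a] at this
  -- shifted optimiser
  set a' : ℝ := a - t₁ with ha'def
  set b' : ℝ := b - t₁ with hb'def
  set V : ℝ → ℝ := fun x => U (x + t₁) with hVdef
  have ha' : a' < 0 := by have := ht₁.1; linarith
  have hb' : 0 < b' := by have := ht₁.2; linarith
  have O' : Opt γ a' b' C V := O.shift hγ t₁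
  have hVK : ∀ x, V x ≤ K := fun x => hUK _
  have h2' := hsw γ a' b' C V hγ g4 O' hCs hChi hVK
  obtain ⟨N, e, α, φ, dφ, f₀, g₀, hN, he, hanti, hsol, hφa, hφb, hdφa, hφ0pos, hnodes, hsol₀, hf₀a, hg₀a, hf₀node, hα, hnorm, hel, hsum⟩ :=
    swave_data hγ O' h2'
  have cV : Continuous fun x => 1 - V x := by have := O'.cont; fun_prop
  -- identification of the zero energy solutions
  have hsh : Sol (fun x => 1 - V x) (fun x => f₁ (x + t₁)) (fun x => g₁ (x + t₁)) :=
    ⟨fun x => (hsol₁.d1 (x + t₁)).comp_add_const x t₁, fun x => (hsol₁.d2 (x + t₁)).comp_add_const x t₁⟩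
  obtain ⟨hfeq, hgeq⟩ := Sol.unique (x0 := a') cV hsol₀ (hsh.smul (g₀ a' / g₁ a)) (by
      simp [ha'def, hf₁a]; exact hf₀a) (by
      simp only [ha'def, sub_add_cancel]
      rw [div_mul_cancel₀ _ hg₁a.ne'])
  have hcpos : 0 < g₀ a' / g₁ a := div_pos hg₀a hg₁a
  have hg₀0 : g₀ 0 = 0 := by rw [hgeq]; simp [hg₁t]
  have hf₀pos' : ∀ x ∈ Ioc a' 0, 0 < f₀ x := by
    intro x hx
    rw [hfeq]
    exact mul_pos hcpos (hf₁pos _ ⟨by linarith [hx.1], by linarith [hx.2]⟩)
  have hg₀pos' : ∀ x ∈ Ioo a' 0, 0 < g₀ x := by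
    intro x hx
    rw [hgeq]
    exact mul_pos hcpos (hg₁pos _ ⟨by linarith [hx.1], by linarith [hx.2]⟩)
  have hposI : ∀ x ∈ Ioo a' 0, 0 < f₀ x ∧ 0 < g₀ x := fun x hx => ⟨hf₀pos' x ⟨hx.1, hx.2.le⟩, hg₀pos' x hx⟩
  have hf₀0 : 0 < f₀ 0 := hf₀pos' 0 ⟨ha', le_rfl⟩
  -- windows
  have window : ∀ c : ℝ, c ≤ 0 → a' < c + 1 → ∀ ε : ℝ, 1000 * εw ≤ ε → ∃ α β ℓ : ℝ, ∃ fm gm : ℝ → ℝ, 0 < ℓ ∧ α + ℓ ≤ c - Rw ∧ c + Rw ≤ β - ℓ ∧
      WinCmp ε a' (max a' α) β V (Um V α β ℓ) f₀ g₀ fm gm := by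
    intro c hc hac ε hε
    obtain ⟨α, β, ℓ, hℓ, hα1, hβ1, -, hdef⟩ := hwin γ a' b' C V hγ g3 O' hCw hChi hVK c
    have hℓ0 : 0 < ℓ := lt_of_lt_of_le (by positivity) hℓ
    obtain ⟨fm, gm, W⟩ := sb_wincmp hεw hεw1 hε O' ha' hb' hsol₀ hf₀a hg₀0 hposI hℓ (by linarith) (by linarith) (by linarith) hdef
    exact ⟨α, β, ℓ, fm, gm, hℓ0, hα1, hβ1, W⟩
  have hsqi : ∀ s t : ℝ, IntervalIntegrable (fun x => V x ^ 2) volume s t := fun s t => (O'.cont.pow 2).intervalIntegrable s t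
  -- small on the left
  have hUleft : ∀ x, x ≤ -C₀ → V x ≤ 1 / 100 := by
    intro x hx
    rcases le_or_gt x a' with hxa | hxa
    · rw [O'.zero x fun h => absurd h.1 (not_lt.2 hxa)]; norm_num
    refine sb_small hγ g1.le O' hK hVK ?_
    set c := max x (a' + 1) with hc
    have hcx : x ≤ c := le_max_left _ _
    have hca : a' + 1 ≤ c := le_max_right _ _
    have hc2 : c ≤ x + 1 := max_le (by linarith) (by linarith)
    obtain ⟨α, β, ℓ, fm, gm, hℓ0, hα1, hβ1, W⟩ := window c (by linarith) (by linarith) ε₁ hεwa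
    have h3 := (hleft _ _ _ _ _ _ _ _ _ W).2 c (max_le (by linarith) (by linarith)) (by linarith) (by linarith)
    refine le_trans ?_ h3
    rcases le_or_gt (a' + 1) x with h4 | h4
    · have : c = x := max_eq_left h4
      rw [this]
    · have hce : c = a' + 1 := max_eq_right h4.le
      rw [hce]
      have e1 : (∫ y in (x - 1)..(x + 1), V y ^ 2) = (∫ y in (x - 1)..a', V y ^ 2) + ∫ y in a'..(x + 1), V y ^ 2 :=
        (intervalIntegral.integral_add_adjacent_intervals (hsqi _ _) (hsqi _ _)).symm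
      have e2 : (∫ y in (x - 1)..a', V y ^ 2) = 0 := by
        have : (∫ y in (x - 1)..a', V y ^ 2) = ∫ y in (x - 1)..a', (0 : ℝ) := by
          refine intervalIntegral.integral_congr fun y hy => ?_
          rw [uIcc_of_le (by linarith)] at hy
          show V y ^ 2 = 0
          rw [O'.zero y fun h => absurd h.1 (not_lt.2 hy.2)]; norm_num
        rw [this]; simp
      have e3 : (∫ y in a'..(x + 1), V y ^ 2) ≤ ∫ y in a'..(a' + 1 + 1), V y ^ 2 := by
        rw [← intervalIntegral.integral_add_adjacent_intervals (hsqi a' (x + 1)) (hsqi (x + 1) (a' + 1 + 1))]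
        have : 0 ≤ ∫ y in (x + 1)..(a' + 1 + 1), V y ^ 2 :=
          intervalIntegral.integral_nonneg (by linarith) fun y _ => sq_nonneg _
        linarith
      rw [e1, e2, zero_add]
      have e4 : a' + 1 - 1 = a' := by ring
      rw [e4]
      exact e3
  -- the core
  obtain ⟨hR₁a, hcore1, hcore2⟩ : a' ≤ -R₁ ∧ (∀ x ∈ Icc (-R₁) R₁, 0 < f₀ x ∧ |g₀ x / f₀ x + Real.tanh x| ≤ 1 / R₁) ∧
          (∫ x in (-R₁)..R₁, (V x - 2 / Real.cosh x ^ 2) ^ 2) ≤ 1 / R₁ := by
    obtain ⟨α, β, ℓ, fm, gm, hℓ0, hα1, hβ1, W⟩ := window 0 le_rfl (by linarith) ε₂ hεwb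
    refine hcore _ _ _ _ _ _ _ _ _ W ?_ (by linarith) ?_
    · rcases le_total α a' with h | h
      · left; exact (max_eq_left h).symm
      · right; rw [max_eq_right h]; linarith
    · intro x hx
      have h3 := thd_sq_le hℓ0 (by linarith : α + 2 * ℓ ≤ β) x
      have hnot : x ∉ Ioo α (α + ℓ) ∪ Ioo (β - ℓ) β := by
        rintro (h | h)
        · linarith [h.2, hx.1]
        · linarith [h.1, hx.2]
      rw [Set.indicator_of_notMem hnot] at h3
      have h4 : thd α β ℓ x ^ 2 = 0 := le_antisymm h3 (sq_nonneg _)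
      simp [Um, h4]
  have hR₁R : R ≤ R₁ := by linarith
  have hb'R : R₁ < b' := by
    obtain ⟨x, hx, hx0⟩ := hf₀node
    by_contra hcon
    push Not at hcon
    rcases le_or_gt x 0 with h | h
    · exact absurd hx0 (hf₀pos' x ⟨hx.1, h⟩).ne'
    · exact absurd hx0 (hcore1 x ⟨by linarith, hx.2.le.trans hcon⟩).1.ne'
  have hcosh : Continuous fun x : ℝ => 2 / Real.cosh x ^ 2 :=
    continuous_const.div (Real.continuous_cosh.pow 2) fun x => by have := Real.cosh_pos x; positivity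
  have hci : ∀ s t : ℝ, IntervalIntegrable (fun x => (V x - 2 / Real.cosh x ^ 2) ^ 2) volume s t :=
    fun s t => ((O'.cont.sub hcosh).pow 2).intervalIntegrable s t
  have hsub : ∀ s t : ℝ, -R₁ ≤ s → s ≤ t → t ≤ R₁ → (∫ x in s..t, (V x - 2 / Real.cosh x ^ 2) ^ 2) ≤ 1 / R₁ := by
    intro s t hs hst ht
    refine le_trans ?_ hcore2
    refine intervalIntegral.integral_mono_interval hs hst ht (Filter.Eventually.of_forall fun x => sq_nonneg _) (hci _ _)
  have hUmid : ∀ x, C₀ ≤ x → x ≤ R → V x ≤ 1 / 100 := by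
    intro x hx hxR
    refine sb_small hγ g1.le O' hK hVK ?_
    have h3 := hsub (x - 1) (x + 1) (by linarith) (by linarith) (by linarith)
    have h4 : 1 / R₁ ≤ η / 4 := sb_aux1 hη0 (by linarith)
    have hpt : ∀ y ∈ Icc (x - 1) (x + 1), V y ^ 2 ≤ 2 * (V y - 2 / Real.cosh y ^ 2) ^ 2 + η / 16 := by
      intro y hy
      have hy1 : 128 / η ≤ y := by linarith [hy.1]
      have hy2 : 1 ≤ y := by linarith [hy.1]
      have h5 := sb_cosh hy2
      have h6 : 4 / y ≤ η / 32 := sb_aux2 hη0 hy1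
      exact sb_aux3 (h5.trans h6)
    have hi2 : IntervalIntegrable (fun y => 2 * (V y - 2 / Real.cosh y ^ 2) ^ 2) volume (x - 1) (x + 1) := (hci _ _).const_mul 2
    have hi3 : IntervalIntegrable (fun _ : ℝ => η / 16) volume (x - 1) (x + 1) := intervalIntegrable_const
    calc (∫ y in (x - 1)..(x + 1), V y ^ 2) ≤ ∫ y in (x - 1)..(x + 1), (2 * (V y - 2 / Real.cosh y ^ 2) ^ 2 + η / 16) :=
          intervalIntegral.integral_mono_on (by linarith) (hsqi _ _) (hi2.add hi3) hpt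
      _ = 2 * (∫ y in (x - 1)..(x + 1), (V y - 2 / Real.cosh y ^ 2) ^ 2) + η / 8 := by
          rw [intervalIntegral.integral_add hi2 hi3, intervalIntegral.integral_const_mul, intervalIntegral.integral_const, smul_eq_mul]
          ring
      _ ≤ η := by linarith
  -- positivity of the bound states at `0`
  have hφpos : ∀ j < N, 0 < φ j 0 := by
    intro j hj
    refine sb_pos (V := fun x => 1 - V x) ?_ hsol₀ (hsol j hj) ?_ hf₀a (hφa j hj) (hdφa j hj) hf₀pos' 0 ⟨ha', le_rfl⟩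
    · have := O'.cont
      unfold pot om
      fun_prop
    · intro x
      have := mul_pos (he j hj) (Real.exp_pos (2 * x))
      simp only [pot, om]
      linarith
  have hCval : 1 / 8 ≤ C := by
    refine le_trans ?_ hC34
    unfold kap
    rw [show (3 : ℝ) / 4 * (3 / 16) * (2 / ((γ + 1) * (γ + 2))) = (9 / 32) / ((γ + 1) * (γ + 2)) by ring]
    rw [div_le_div_iff₀ (by norm_num) (by positivity)]
    nlinarith
  have hCval' : C ≤ 3 / 16 := by
    refine hChi.trans ?_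
    have : kap γ ≤ 1 := by
      unfold kap
      rw [div_le_one (by positivity)]
      nlinarith
    linarith
  have hcn : ∀ j < N, (φ j 0)⁻¹ ≠ 0 := fun j hj => inv_ne_zero (hφpos j hj).ne'
  refine ⟨{ γ := γ, C := C, Lm := -a', Lp := b', U := V, N := N, e := e,
            α := fun j => α j * φ j 0 ^ 2,
            φ := fun j x => (φ j 0)⁻¹ * φ j x,
            dφ := fun j x => (φ j 0)⁻¹ * dφ j x,
            f₀ := fun x => (f₀ 0)⁻¹ * f₀ x,
            g₀ := fun x => (f₀ 0)⁻¹ * g₀ x,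
            hγ := hγ, hγ' := g1.le, hC := hCval, hC' := hCval', hLm := by linarith, hLp := by linarith,
            cU := O'.cont, U_zero := ?_, U_pos := ?_, U_le := hVK, U_left := hUleft, U_mid := hUmid, hN := hN,
            e_pos := he, e_anti := hanti, sol := ?_, φ_left := ?_, φ_right := ?_, φ_zero := ?_, φ_pos := ?_, nodes := ?_,
            sol₀ := hsol₀.smul _, f₀_left := ?_, f₀_zero := ?_, g₀_zero := ?_, f₀_pos := ?_, f₀_node := ?_,
            core := ?_, core2 := ?_, α_pos := ?_, norm := ?_, el := ?_, sum_eq := ?_, max := ?_ }, rfl, rfl, by simp only; linarith⟩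
  · simpa using O'.zero
  · simpa using O'.pos
  · intro j hj; exact (hsol j hj).smul _
  · intro j hj; simp [hφa j hj]
  · intro j hj; simp [hφb j hj]
  · intro j hj; exact inv_mul_cancel₀ (hφpos j hj).ne'
  · intro x hx
    rw [neg_neg] at hx
    exact mul_pos (inv_pos.2 (hφpos 0 hN)) (hφ0pos x hx)
  · intro j hj
    obtain ⟨Z, hZ, hZ2⟩ := hnodes j hj
    refine ⟨Z, hZ, fun z hz => ⟨by rw [neg_neg]; exact (hZ2 z hz).1, by simp [(hZ2 z hz).2]⟩⟩
  · simp [hf₀a]
  · exact inv_mul_cancel₀ hf₀0.ne'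
  · simp [hg₀0]
  · intro x hx
    rw [neg_neg] at hx
    exact ⟨mul_pos (inv_pos.2 hf₀0) (hposI x hx).1, mul_pos (inv_pos.2 hf₀0) (hposI x hx).2⟩
  · obtain ⟨x, hx, hx0⟩ := hf₀node
    refine ⟨x, ⟨?_, hx.2⟩, by simp [hx0]⟩
    by_contra hcon
    push Not at hcon
    exact absurd hx0 (hf₀pos' x ⟨hx.1, hcon⟩).ne'
  · intro x hx
    obtain ⟨h3, h4⟩ := hcore1 x ⟨by linarith [hx.1], by linarith [hx.2]⟩
    refine ⟨mul_pos (inv_pos.2 hf₀0) h3, ?_⟩
    rw [mul_div_mul_left _ _ (inv_ne_zero hf₀0.ne')]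
    exact h4.trans (one_div_le_one_div_of_le hR hR₁R)
  · exact (hsub (-R) R (by linarith) (by linarith) hR₁R).trans (one_div_le_one_div_of_le hR hR₁R)
  · intro j hj
    exact mul_pos (hα j hj) (pow_pos (hφpos j hj) 2)
  · intro j hj
    simp only [neg_neg]
    rw [← hnorm j hj, mul_assoc]
    congr 1
    rw [← intervalIntegral.integral_const_mul]
    refine intervalIntegral.integral_congr fun x _ => ?_
    have := (hφpos j hj).ne'
    show φ j 0 ^ 2 * (om x * ((φ j 0)⁻¹ * φ j x) ^ 2) = om x * φ j x ^ 2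
    field_simp
  · intro x hx
    rw [neg_neg] at hx
    rw [← hel x hx]
    congr 1
    refine Finset.sum_congr rfl fun j hj => ?_
    have := (hφpos j (Finset.mem_range.1 hj)).ne'
    field_simp
  · simp only [neg_neg]; exact hsum
  · simp only [neg_neg]; exact O'.max

end Pool.Agent.RLT40
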