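import Pool.Agent.RLT40.Layer

/-!
# Module TRIAL (paper 3.1): lower bound for the box constant.

Trial potential `U = (1+ε) 2 / cosh² ` on `(-L,L)` (zero outside), trial function `f = (1/cosh t - 1/cosh r)_+` (`r < L`), Lipschitz.
With `s = 1/cosh`: `∫ s'² + s² - 2 s⁴ = 0` on `ℝ`, so `q (pot 1 e U) f ≤ -2 ε ∫ s⁴ + o_r(1) + e C(r) < 0` for `r` large, then `e` small:
`G(U) ≥ e^γ` (`N_1(τ) ≥ 1` for `τ < e`, `∫_0^e γ τ^{γ-1} = e^γ`), `J(U) ≤ ∫_ℝ ((1+ε)2s²)^{2+γ} e^{-2γt} → (1+ε)² 16/3` as `γ → 0` (dominated convergence),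
and `(3/16) κ_γ → 3/16`, `e^γ → 1`.
-/

open MeasureTheory Set
open scoped ENNReal NNReal

namespace Pool.Agent.RLT40

/-! ### hyperbolic functions -/

noncomputable def tr_s (x : ℝ) : ℝ := 1 / Real.cosh x

noncomputable def tr_T (x : ℝ) : ℝ := Real.sinh x / Real.cosh x

theorem tr_s_pos (x : ℝ) : 0 < tr_s x := by
  have := Real.cosh_pos x
  unfold tr_s; positivity

theorem tr_s_le_one (x : ℝ) : tr_s x ≤ 1 := by
  unfold tr_s
  rw [div_le_one (Real.cosh_pos x)]
  exact Real.one_le_cosh x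

theorem tr_s_continuous : Continuous tr_s := by
  unfold tr_s
  exact continuous_const.div Real.continuous_cosh fun x => (Real.cosh_pos x).ne'

theorem tr_T_hasDerivAt (x : ℝ) : HasDerivAt tr_T (tr_s x ^ 2) x := by
  have hc := Real.cosh_pos x
  have h := (Real.hasDerivAt_sinh x).div (Real.hasDerivAt_cosh x) hc.ne'
  have e : tr_s x ^ 2 = (Real.cosh x * Real.cosh x - Real.sinh x * Real.sinh x) / Real.cosh x ^ 2 := by
    have := Real.cosh_sq x
    unfold tr_s
    rw [div_pow, one_pow]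
    congr 1
    nlinarith
  rw [e]
  exact h

theorem tr_T_sq (x : ℝ) : tr_T x ^ 2 = 1 - tr_s x ^ 2 := by
  have hc := Real.cosh_pos x
  have := Real.cosh_sq x
  unfold tr_T tr_s
  rw [div_pow, div_pow, one_pow, eq_sub_iff_add_eq, ← add_div, div_eq_one_iff_eq (by positivity)]
  linarith

theorem tr_T_neg (x : ℝ) : tr_T (-x) = -tr_T x := by
  unfold tr_T; rw [Real.sinh_neg, Real.cosh_neg, neg_div]

theorem tr_T_pos {x : ℝ} (hx : 0 < x) : 0 < tr_T x := by
  unfold tr_T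
  exact div_pos (Real.sinh_pos_iff.2 hx) (Real.cosh_pos x)

theorem tr_T_le_one (x : ℝ) : tr_T x ≤ 1 := by
  have := tr_T_sq x
  have := sq_nonneg (tr_s x)
  nlinarith

theorem tr_T_cube (x : ℝ) : HasDerivAt (fun x => tr_T x - tr_T x ^ 3 / 3) (tr_s x ^ 4) x := by
  have h := tr_T_hasDerivAt x
  have h2 := h.sub ((h.pow 3).div_const 3)
  have e : tr_s x ^ 4 = tr_s x ^ 2 - (3 : ℕ) * tr_T x ^ (3 - 1) * tr_s x ^ 2 / 3 := by
    have := tr_T_sq x
    norm_num
    rw [this]; ring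
  rw [e]
  exact h2

theorem tr_int_s4 (r : ℝ) : ∫ x in (-r)..r, tr_s x ^ 4 = 2 * (tr_T r - tr_T r ^ 3 / 3) := by
  rw [intervalIntegral.integral_eq_sub_of_hasDerivAt (fun x _ => tr_T_cube x)
    ((tr_s_continuous.pow 4).intervalIntegrable _ _), tr_T_neg]
  ring

theorem tr_int_s2 (r : ℝ) : ∫ x in (-r)..r, tr_s x ^ 2 = 2 * tr_T r := by
  rw [intervalIntegral.integral_eq_sub_of_hasDerivAt (fun x _ => tr_T_hasDerivAt x)
    ((tr_s_continuous.pow 2).intervalIntegrable _ _), tr_T_neg]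
  ring

theorem tr_s_hasDerivAt (x : ℝ) : HasDerivAt tr_s (-(tr_s x * tr_T x)) x := by
  have hc := Real.cosh_pos x
  have h := (hasDerivAt_const x (1 : ℝ)).div (Real.hasDerivAt_cosh x) hc.ne'
  have e : -(tr_s x * tr_T x) = (0 * Real.cosh x - 1 * Real.sinh x) / Real.cosh x ^ 2 := by
    unfold tr_s tr_T
    field_simp
    ring
  rw [e]
  exact h

theorem tr_T_continuous : Continuous tr_T :=
  continuous_iff_continuousAt.2 fun x => (tr_T_hasDerivAt x).continuousAt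

/-! ### the trial function -/

/-- the trial function is negative for the form -/
theorem tr_form {ε τ r : ℝ} (hε : 0 < ε) (hr : 1 ≤ r) (hc : 4 * (1 + ε) * tr_s r ≤ ε / 3) (hτ : 0 ≤ τ)
    (hτ2 : τ * Real.exp (2 * r) ≤ ε / 3) {f : ℝ → ℝ}
    (hf : f = (Ioo (-r) r).indicator fun x => tr_s x - tr_s r)
    (hd : ∀ᵐ x, deriv f x = (Ioo (-r) r).indicator (fun x => -(tr_s x * tr_T x)) x) :
    q (pot 1 τ (fun x => (1 + ε) * (2 * tr_s x ^ 2))) f < 0 := by
  set c := tr_s r with hcdef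
  have hc0 : 0 < c := tr_s_pos r
  have hr0 : -r ≤ r := by linarith
  have hsc : Continuous tr_s := tr_s_continuous
  have hTc : Continuous tr_T := tr_T_continuous
  have homc : Continuous om := by unfold om; fun_prop
  have h1 : q (pot 1 τ (fun x => (1 + ε) * (2 * tr_s x ^ 2))) f =
      ∫ x in (-r)..r, ((-(tr_s x * tr_T x)) ^ 2 +
        (1 - (1 + ε) * (2 * tr_s x ^ 2) + τ * om x) * (tr_s x - c) ^ 2) := by
    rw [intervalIntegral.integral_of_le hr0, integral_Ioc_eq_integral_Ioo,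
      ← integral_indicator measurableSet_Ioo, q]
    refine integral_congr_ae ?_
    filter_upwards [hd] with x hx
    rw [hx, hf]
    by_cases hxr : x ∈ Ioo (-r) r
    · simp only [indicator_of_mem hxr, pot]
      ring
    · simp only [indicator_of_notMem hxr]
      ring
  rw [h1]
  set A := 2 + 4 * (1 + ε) * c + τ * Real.exp (2 * r) with hA
  have h2 : ∀ x ∈ Icc (-r) r, (-(tr_s x * tr_T x)) ^ 2 +
        (1 - (1 + ε) * (2 * tr_s x ^ 2) + τ * om x) * (tr_s x - c) ^ 2 ≤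
      A * tr_s x ^ 2 - (3 + 2 * ε) * tr_s x ^ 4 := by
    intro x hx
    have hs0 := tr_s_pos x
    have hs1 := tr_s_le_one x
    have hcs : c ≤ tr_s x := by
      rw [hcdef]
      unfold tr_s
      refine one_div_le_one_div_of_le (Real.cosh_pos x) ?_
      rw [Real.cosh_le_cosh, abs_of_nonneg (show (0 : ℝ) ≤ r by linarith)]
      exact abs_le.2 ⟨hx.1, hx.2⟩
    have hom : om x ≤ Real.exp (2 * r) := Real.exp_le_exp.2 (by linarith [hx.2])
    have hom0 : 0 < om x := Real.exp_pos _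
    have hT := tr_T_sq x
    have e1 : (-(tr_s x * tr_T x)) ^ 2 = tr_s x ^ 2 - tr_s x ^ 4 := by
      rw [neg_sq, mul_pow, hT]; ring
    rw [e1]
    generalize tr_s x = s at *
    have h3 : τ * om x * (s - c) ^ 2 ≤ τ * Real.exp (2 * r) * s ^ 2 := by
      have h4 : (s - c) ^ 2 ≤ s ^ 2 := pow_le_pow_left₀ (by linarith) (by linarith) 2
      have h5 : τ * om x ≤ τ * Real.exp (2 * r) := mul_le_mul_of_nonneg_left hom hτ
      exact mul_le_mul h5 h4 (sq_nonneg _) (by positivity)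
    have h6 : (1 + ε) * (2 * s ^ 2) * (2 * c * s - c ^ 2) ≤ 4 * (1 + ε) * c * s ^ 2 := by
      have h7 : (2 * c * s - c ^ 2) ≤ 2 * c := by nlinarith
      have h8 : 0 ≤ (1 + ε) * (2 * s ^ 2) := by positivity
      calc (1 + ε) * (2 * s ^ 2) * (2 * c * s - c ^ 2) ≤ (1 + ε) * (2 * s ^ 2) * (2 * c) :=
            mul_le_mul_of_nonneg_left h7 h8
        _ = 4 * (1 + ε) * c * s ^ 2 := by ring
    have h9 : 0 ≤ 2 * c * s - c ^ 2 := by nlinarith
    rw [hA]
    nlinarith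
  have hcont1 : Continuous fun x => (-(tr_s x * tr_T x)) ^ 2 +
        (1 - (1 + ε) * (2 * tr_s x ^ 2) + τ * om x) * (tr_s x - c) ^ 2 := by fun_prop
  have hcont2 : Continuous fun x => A * tr_s x ^ 2 - (3 + 2 * ε) * tr_s x ^ 4 := by fun_prop
  refine (intervalIntegral.integral_mono_on hr0 (hcont1.intervalIntegrable _ _)
    (hcont2.intervalIntegrable _ _) h2).trans_lt ?_
  have hi2 : IntervalIntegrable (fun x => A * tr_s x ^ 2) volume (-r) r :=
    Continuous.intervalIntegrable (by fun_prop) _ _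
  have hi4 : IntervalIntegrable (fun x => (3 + 2 * ε) * tr_s x ^ 4) volume (-r) r :=
    Continuous.intervalIntegrable (by fun_prop) _ _
  rw [intervalIntegral.integral_sub hi2 hi4, intervalIntegral.integral_const_mul,
    intervalIntegral.integral_const_mul, tr_int_s2, tr_int_s4]
  have ht0 := tr_T_pos (x := r) (by linarith)
  have ht1 := tr_T_le_one r
  generalize tr_T r = t at *
  have h10 : A * (2 * t) - (3 + 2 * ε) * (2 * (t - t ^ 3 / 3)) =
      2 * t * (A - (3 + 2 * ε) * (1 - t ^ 2 / 3)) := by ring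
  rw [h10]
  refine mul_neg_of_pos_of_neg (by linarith) ?_
  have h11 : t ^ 2 ≤ 1 := by nlinarith
  rw [hA]
  nlinarith

/-- `N_1(τ) ≥ 1` -/
theorem tr_nneg {ε : ℝ} (hε : 0 < ε) : ∃ r > 0, ∃ e > 0, ∀ L ≥ r, ∀ τ : ℝ, 0 ≤ τ → τ ≤ e →
    1 ≤ nneg (-L) L (pot 1 τ (fun x => (1 + ε) * (2 * tr_s x ^ 2))) := by
  set r := 24 * (1 + ε) / ε with hr
  have hr24 : 24 ≤ r := by
    rw [hr, le_div_iff₀ hε]; linarith
  have hc : 4 * (1 + ε) * tr_s r ≤ ε / 3 := by
    have h1 : r / 2 ≤ Real.cosh r := by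
      rw [Real.cosh_eq]
      have := Real.add_one_le_exp r
      have := Real.exp_pos (-r)
      linarith
    have h2 : tr_s r ≤ 1 / (r / 2) := by
      unfold tr_s
      exact one_div_le_one_div_of_le (by linarith) h1
    have h3 : 4 * (1 + ε) * (1 / (r / 2)) = ε / 3 := by
      rw [hr]; field_simp; norm_num
    calc 4 * (1 + ε) * tr_s r ≤ 4 * (1 + ε) * (1 / (r / 2)) :=
          mul_le_mul_of_nonneg_left h2 (by positivity)
      _ = ε / 3 := h3
  refine ⟨r, by linarith, ε / 3 / Real.exp (2 * r), by positivity, fun L hL τ hτ hτe => ?_⟩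
  have hτ2 : τ * Real.exp (2 * r) ≤ ε / 3 := by
    rwa [le_div_iff₀ (Real.exp_pos _)] at hτe
  obtain ⟨hf, hd⟩ := H10_of_C1 (a := -r) (b := r) (f := fun x => tr_s x - tr_s r)
    (g := fun x => -(tr_s x * tr_T x)) (by linarith)
    (fun x _ => (tr_s_hasDerivAt x).sub_const _)
    (tr_s_continuous.mul tr_T_continuous).neg.continuousOn
    (by simp [tr_s]) (by simp)
  have hneg := tr_form hε (by linarith) hc hτ hτ2 rfl hd
  set f := (Ioo (-r) r).indicator fun x => tr_s x - tr_s r with hfdef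
  have hfL : f ∈ H10 (-L) L := H10_mono (by linarith) hL hf
  have hf0 : f ≠ 0 := by
    intro h
    rw [h] at hneg
    simp [q] at hneg
  have hle := le_nneg (a := -L) (b := L) (V := pot 1 τ (fun x => (1 + ε) * (2 * tr_s x ^ 2)))
    (F := Submodule.span ℝ {f}) ?_ inferInstance ?_
  · rw [finrank_span_singleton hf0] at hle
    exact_mod_cast hle
  · rw [Submodule.span_singleton_le_iff_mem]
    exact hfL
  · intro v hv hv0
    obtain ⟨a, rfl⟩ := Submodule.mem_span_singleton.1 hv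
    have ha : a ≠ 0 := by
      rintro rfl
      exact hv0 (zero_smul _ _)
    have e : q (pot 1 τ (fun x => (1 + ε) * (2 * tr_s x ^ 2))) (a • f) =
        a ^ 2 * q (pot 1 τ (fun x => (1 + ε) * (2 * tr_s x ^ 2))) f := by
      unfold q
      rw [← integral_const_mul]
      refine integral_congr_ae (ae_of_all _ fun x => ?_)
      simp only [spc_deriv_smul, Pi.smul_apply, smul_eq_mul]
      ring
    rw [e]
    exact mul_neg_of_pos_of_neg (by positivity) hneg

/-- upper bound of the mass -/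
theorem tr_J {ε γ : ℝ} (hε : 0 < ε) (hγ : 0 < γ) (L : ℝ) (hL : 0 < L) :
    Jf γ (-L) L (fun x => (1 + ε) * (2 * tr_s x ^ 2)) ≤
      ENNReal.ofReal (16 / 3 * (1 + ε) ^ 2 * (8 * (1 + ε)) ^ γ) := by
  set M := 4 * (1 + ε) ^ 2 * (8 * (1 + ε)) ^ γ with hM
  have hM0 : 0 < M := by positivity
  have hpt : ∀ x, ((1 + ε) * (2 * tr_s x ^ 2)) ^ (2 + γ) * Real.exp (-(2 * γ * x)) ≤
      M * tr_s x ^ 4 := by
    intro x
    have hs := tr_s_pos x
    have h1 : ((1 + ε) * (2 * tr_s x ^ 2)) ^ (2 + γ) =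
        ((1 + ε) * (2 * tr_s x ^ 2)) ^ 2 * ((1 + ε) * (2 * tr_s x ^ 2)) ^ γ := by
      rw [Real.rpow_add (by positivity), Real.rpow_two]
    have h2 : Real.exp (-(2 * γ * x)) = (Real.exp (-(2 * x))) ^ γ := by
      rw [← Real.exp_mul]; congr 1; ring
    have h3 : (1 + ε) * (2 * tr_s x ^ 2) * Real.exp (-(2 * x)) ≤ 8 * (1 + ε) := by
      have h4 : tr_s x * Real.exp (-x) ≤ 2 := by
        unfold tr_s
        rw [Real.cosh_eq, one_div_mul_eq_div, div_le_iff₀ (by positivity)]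
        have := Real.exp_pos x
        have := Real.exp_pos (-x)
        linarith
      have h5 : 0 ≤ tr_s x * Real.exp (-x) := by positivity
      have h6 : (tr_s x * Real.exp (-x)) ^ 2 ≤ 4 := by nlinarith
      have h7 : (1 + ε) * (2 * tr_s x ^ 2) * Real.exp (-(2 * x)) =
          2 * (1 + ε) * (tr_s x * Real.exp (-x)) ^ 2 := by
        rw [mul_pow, ← Real.exp_nat_mul]
        have : ((2 : ℕ) : ℝ) * -x = -(2 * x) := by push_cast; ring
        rw [this]; ring
      rw [h7]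
      nlinarith
    rw [h1, h2, mul_assoc, ← Real.mul_rpow (by positivity) (by positivity)]
    have h8 : ((1 + ε) * (2 * tr_s x ^ 2) * Real.exp (-(2 * x))) ^ γ ≤ (8 * (1 + ε)) ^ γ :=
      Real.rpow_le_rpow (by positivity) h3 hγ.le
    calc ((1 + ε) * (2 * tr_s x ^ 2)) ^ 2 * ((1 + ε) * (2 * tr_s x ^ 2) * Real.exp (-(2 * x))) ^ γ
        ≤ ((1 + ε) * (2 * tr_s x ^ 2)) ^ 2 * (8 * (1 + ε)) ^ γ :=
          mul_le_mul_of_nonneg_left h8 (by positivity)
      _ = M * tr_s x ^ 4 := by rw [hM]; ring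
  have hi : IntegrableOn (fun x => M * tr_s x ^ 4) (Ioo (-L) L) :=
    ((continuous_const.mul (tr_s_continuous.pow 4)).integrableOn_Icc (a := -L) (b := L)).mono_set
      Ioo_subset_Icc_self
  have hLL : -L ≤ L := by linarith
  calc Jf γ (-L) L (fun x => (1 + ε) * (2 * tr_s x ^ 2))
      ≤ ∫⁻ x in Ioo (-L) L, ENNReal.ofReal (M * tr_s x ^ 4) :=
        lintegral_mono fun x => ENNReal.ofReal_le_ofReal (hpt x)
    _ = ENNReal.ofReal (∫ x in Ioo (-L) L, M * tr_s x ^ 4) :=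
        (ofReal_integral_eq_lintegral_ofReal hi (ae_of_all _ fun x => by positivity)).symm
    _ ≤ ENNReal.ofReal (16 / 3 * (1 + ε) ^ 2 * (8 * (1 + ε)) ^ γ) := by
        refine ENNReal.ofReal_le_ofReal ?_
        rw [← integral_Ioc_eq_integral_Ioo, ← intervalIntegral.integral_of_le hLL,
          intervalIntegral.integral_const_mul, tr_int_s4]
        have ht0 := tr_T_pos hL
        have ht1 := tr_T_le_one L
        generalize tr_T L = t at *
        have h1 : 2 * (t - t ^ 3 / 3) ≤ 4 / 3 := by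
          nlinarith [mul_nonneg (sq_nonneg (1 - t)) (by linarith : (0 : ℝ) ≤ 2 + t)]
        calc M * (2 * (t - t ^ 3 / 3)) ≤ M * (4 / 3) := mul_le_mul_of_nonneg_left h1 hM0.le
          _ = 16 / 3 * (1 + ε) ^ 2 * (8 * (1 + ε)) ^ γ := by rw [hM]; ring

/-- lower bound of `G` -/
theorem tr_G {γ e a b : ℝ} (hγ : 0 < γ) (he : 0 < e) {U : ℝ → ℝ}
    (h : ∀ τ : ℝ, 0 ≤ τ → τ ≤ e → 1 ≤ nneg a b (pot 1 τ U)) :
    ENNReal.ofReal (e ^ γ) ≤ Gf γ a b U := by
  obtain ⟨h1, h2⟩ := lay_pow hγ he.le 0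
  simp only [pow_zero, mul_one, Nat.cast_zero, add_zero] at h1 h2
  rw [div_self hγ.ne', one_mul] at h1
  rw [← h1, intervalIntegral.integral_of_le he.le]
  rw [ofReal_integral_eq_lintegral_ofReal h2.1 (by
    rw [Filter.EventuallyLE, ae_restrict_iff' measurableSet_Ioc]
    exact ae_of_all _ fun x hx => mul_nonneg hγ.le (Real.rpow_nonneg hx.1.le _))]
  unfold Gf
  refine (setLIntegral_mono' measurableSet_Ioc fun τ hτ => ?_).trans
    (lintegral_mono_set (Ioc_subset_Ioi_self))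
  have h3 : (1 : ℝ≥0∞) ≤ Ntot a b U τ := by
    rw [lay_Ntot_eq]
    refine le_trans ?_ le_self_add
    have := h τ hτ.1.le hτ.2
    exact_mod_cast ENat.toENNReal_mono this
  calc ENNReal.ofReal (γ * τ ^ (γ - 1)) = ENNReal.ofReal (γ * τ ^ (γ - 1)) * 1 := (mul_one _).symm
    _ ≤ _ := by gcongr

theorem trial {δ : ℝ} (hδ : 0 < δ) :
    ∃ γ₁ > 0, ∀ γ : ℝ, 0 < γ → γ < γ₁ → ∃ L₀ > 0, ∀ L ≥ L₀, ∃ U : ℝ → ℝ, Adm1 γ (-L) L U ∧ 0 < Jf γ (-L) L U ∧
      ENNReal.ofReal (3 / 16 * (1 - δ) * kap γ) * Jf γ (-L) L U ≤ Gf γ (-L) L U := by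
  -- choice of ε
  obtain ⟨ε, hε, hε2⟩ : ∃ ε > 0, (1 - δ) * (1 + ε) ^ 2 < 1 := by
    rcases le_or_gt 1 δ with h | h
    · exact ⟨1, one_pos, by nlinarith⟩
    · refine ⟨δ / 4, by positivity, ?_⟩
      nlinarith [mul_pos hδ hδ, mul_pos (mul_pos hδ hδ) hδ]
  obtain ⟨r, hr, e, he, hN⟩ := tr_nneg hε
  -- choice of γ₁
  obtain ⟨γ₁, hγ₁, hγ₁2⟩ : ∃ γ₁ > 0, ∀ γ : ℝ, 0 < γ → γ < γ₁ →
      (1 - δ) * (1 + ε) ^ 2 * (8 * (1 + ε)) ^ γ ≤ e ^ γ := by
    have hc : ContinuousAt (fun γ : ℝ => e ^ γ - (1 - δ) * (1 + ε) ^ 2 * (8 * (1 + ε)) ^ γ) 0 := by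
      have c1 : Continuous fun γ : ℝ => e ^ γ := Real.continuous_const_rpow he.ne'
      have c2 : Continuous fun γ : ℝ => (8 * (1 + ε)) ^ γ :=
        Real.continuous_const_rpow (by positivity)
      exact (c1.sub (continuous_const.mul c2)).continuousAt
    have hpos : 0 < (fun γ : ℝ => e ^ γ - (1 - δ) * (1 + ε) ^ 2 * (8 * (1 + ε)) ^ γ) 0 := by
      simp only [Real.rpow_zero, mul_one]
      linarith
    obtain ⟨γ₁, hγ₁, h⟩ := Metric.eventually_nhds_iff.1 (hc.eventually_const_lt hpos)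
    refine ⟨γ₁, hγ₁, fun γ h0 h1 => ?_⟩
    have := h (y := γ) (by rwa [Real.dist_eq, sub_zero, abs_of_pos h0])
    linarith
  refine ⟨γ₁, hγ₁, fun γ hγ hγ' => ⟨r, hr, fun L hL => ?_⟩⟩
  have hL0 : 0 < L := by linarith
  have hUc : Continuous fun x => (1 + ε) * (2 * tr_s x ^ 2) := by
    have := tr_s_continuous
    fun_prop
  have hU0 : ∀ x, 0 < (1 + ε) * (2 * tr_s x ^ 2) := fun x => by
    have := tr_s_pos x
    positivity
  refine ⟨fun x => (1 + ε) * (2 * tr_s x ^ 2), ⟨fun x => (hU0 x).le, ?_⟩, ?_, ?_⟩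
  · refine MemLp.of_bound hUc.aestronglyMeasurable ((1 + ε) * 2) (ae_of_all _ fun x => ?_)
    rw [Real.norm_of_nonneg (hU0 x).le]
    have h1 := tr_s_pos x
    have h2 := tr_s_le_one x
    have h3 : tr_s x ^ 2 ≤ 1 := by nlinarith
    nlinarith
  · unfold Jf
    rw [setLIntegral_pos_iff]
    · have hs : (Function.support fun x => ENNReal.ofReal
          (((1 + ε) * (2 * tr_s x ^ 2)) ^ (2 + γ) * Real.exp (-(2 * γ * x)))) ∩ Ioo (-L) L =
          Ioo (-L) L := by
        refine inter_eq_right.2 fun x _ => ?_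
        rw [Function.mem_support]
        have h1 : 0 < ((1 + ε) * (2 * tr_s x ^ 2)) ^ (2 + γ) * Real.exp (-(2 * γ * x)) :=
          mul_pos (Real.rpow_pos_of_pos (hU0 x) _) (Real.exp_pos _)
        exact (ENNReal.ofReal_pos.2 h1).ne'
      rw [hs, Real.volume_Ioo]
      exact ENNReal.ofReal_pos.2 (by linarith)
    · refine Measurable.ennreal_ofReal ?_
      refine Measurable.mul ?_ (by fun_prop)
      exact hUc.measurable.pow_const _
  · have hkap0 : 0 < kap γ := by unfold kap; positivity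
    have hkap : kap γ ≤ 1 := by
      unfold kap
      rw [div_le_one (by positivity)]
      nlinarith
    have hJ := tr_J (ε := ε) (γ := γ) hε hγ L hL0
    have hG := tr_G (γ := γ) (e := e) (a := -L) (b := L) hγ he (fun τ h0 h1 => hN L hL τ h0 h1)
    rcases le_or_gt 1 δ with h | h
    · have : ENNReal.ofReal (3 / 16 * (1 - δ) * kap γ) = 0 := by
        refine ENNReal.ofReal_eq_zero.2 ?_
        nlinarith
      rw [this, zero_mul]
      exact zero_le
    · calc ENNReal.ofReal (3 / 16 * (1 - δ) * kap γ) *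
            Jf γ (-L) L (fun x => (1 + ε) * (2 * tr_s x ^ 2))
          ≤ ENNReal.ofReal (3 / 16 * (1 - δ) * kap γ) *
            ENNReal.ofReal (16 / 3 * (1 + ε) ^ 2 * (8 * (1 + ε)) ^ γ) := by gcongr
        _ = ENNReal.ofReal (3 / 16 * (1 - δ) * kap γ *
            (16 / 3 * (1 + ε) ^ 2 * (8 * (1 + ε)) ^ γ)) := by
            have h0 : 0 < 1 - δ := by linarith
            exact (ENNReal.ofReal_mul (p := 3 / 16 * (1 - δ) * kap γ) (by positivity)).symm
        _ ≤ ENNReal.ofReal (e ^ γ) := by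
            refine ENNReal.ofReal_le_ofReal ?_
            have h1 := hγ₁2 γ hγ hγ'
            have h2 : 0 ≤ (1 - δ) * (1 + ε) ^ 2 * (8 * (1 + ε)) ^ γ := by
              have : 0 < 1 - δ := by linarith
              positivity
            calc 3 / 16 * (1 - δ) * kap γ * (16 / 3 * (1 + ε) ^ 2 * (8 * (1 + ε)) ^ γ)
                = kap γ * ((1 - δ) * (1 + ε) ^ 2 * (8 * (1 + ε)) ^ γ) := by ring
              _ ≤ 1 * ((1 - δ) * (1 + ε) ^ 2 * (8 * (1 + ε)) ^ γ) :=
                  mul_le_mul_of_nonneg_right hkap h2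
              _ ≤ e ^ γ := by rw [one_mul]; exact h1
        _ ≤ _ := hG

end Pool.Agent.RLT40
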