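import Pool.Agent.RLT40.BoxOpt
import Pool.Agent.RLT40.SOb
import Pool.Agent.RLT40.StructB
import Pool.Agent.RLT40.Trial

/-!
# PARTB: assembly of Part B (helper40).
-/

open MeasureTheory Set
open scoped ENNReal NNReal

namespace Pool.Agent.RLT40

theorem partB_adm {γ a b a' b' : ℝ} {U : ℝ → ℝ} (hU : Adm1 γ a b U) : Adm1 γ a' b' ((Ioo a b).indicator U) := by
  refine ⟨fun x => Set.indicator_nonneg (fun x _ => hU.1 x) x, ?_⟩
  have h1 : MemLp ((Ioo a b).indicator U) (ENNReal.ofReal (2 + γ)) volume := by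
    rw [memLp_indicator_iff_restrict measurableSet_Ioo]
    exact hU.2
  exact h1.restrict _

theorem partB_G {γ a b L : ℝ} (ha : -L ≤ a) (hb : b ≤ L) (U : ℝ → ℝ) :
    Gf γ a b U ≤ Gf γ (-L) L ((Ioo a b).indicator U) := by
  unfold Gf
  refine lintegral_mono fun τ => ?_
  gcongr
  unfold Ntot
  refine ENNReal.tsum_le_tsum fun k => ?_
  gcongr
  have h1 : nneg a b (pot (k + 1) τ U) = nneg a b (pot (k + 1) τ ((Ioo a b).indicator U)) := by
    refine nneg_congr (Filter.Eventually.of_forall fun x hx => ?_)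
    simp [pot, Set.indicator_of_mem hx]
  rw [h1]
  exact nneg_mono_dom ha hb

theorem partB_J {γ a b L : ℝ} (hγ : 0 < γ) (ha : -L ≤ a) (hb : b ≤ L) (U : ℝ → ℝ) :
    Jf γ (-L) L ((Ioo a b).indicator U) = Jf γ a b U := by
  unfold Jf
  have h1 : ∀ x, ENNReal.ofReal ((Ioo a b).indicator U x ^ (2 + γ) * Real.exp (-(2 * γ * x))) =
      (Ioo a b).indicator (fun x => ENNReal.ofReal (U x ^ (2 + γ) * Real.exp (-(2 * γ * x)))) x := by
    intro x
    by_cases hx : x ∈ Ioo a b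
    · simp [Set.indicator_of_mem hx]
    · rw [Set.indicator_of_notMem hx, Set.indicator_of_notMem hx, Real.zero_rpow (by linarith)]
      simp
  simp_rw [h1]
  rw [lintegral_indicator measurableSet_Ioo, Measure.restrict_restrict measurableSet_Ioo]
  congr 2
  rw [Set.inter_eq_left]
  exact Ioo_subset_Ioo ha hb

theorem partB : ∃ γ₀ > 0, ∀ γ : ℝ, 0 < γ → γ < γ₀ → ∀ C₁ : ℝ, 0 < C₁ → OneState γ C₁ → ∀ a b : ℝ, ∀ U : ℝ → ℝ, Adm1 γ a b U →
    Gf γ a b U ≤ ENNReal.ofReal C₁ * Jf γ a b U := by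
  obtain ⟨K₁, hK₁, C₀, hC₀, hSD⟩ := exists_SD
  obtain ⟨R₀, hR₀, h5⟩ := section5 hK₁ hC₀
  obtain ⟨γ₁, hγ₁, δ₁, hδ₁, hSD⟩ := hSD R₀ hR₀
  have hδt : 0 < min δ₁ (1 / 4) := lt_min hδ₁ (by norm_num)
  obtain ⟨γ₂, hγ₂, htr⟩ := trial hδt
  refine ⟨min γ₁ (min γ₂ 1), lt_min hγ₁ (lt_min hγ₂ one_pos), ?_⟩
  intro γ hγ hγlt C₁ hC₁ hone a b U hU
  have g1 : γ < γ₁ := lt_of_lt_of_le hγlt (min_le_left _ _)
  have g2 : γ < γ₂ := lt_of_lt_of_le hγlt ((min_le_right _ _).trans (min_le_left _ _))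
  have g3 : γ < 1 := lt_of_lt_of_le hγlt ((min_le_right _ _).trans (min_le_right _ _))
  have hkap : 0 < kap γ := by unfold kap; positivity
  -- it suffices to prove the bound with `C₁ + ε`
  have key : ∀ ε : ℝ, 0 < ε → Gf γ a b U ≤ ENNReal.ofReal (C₁ + ε) * Jf γ a b U := by
    intro ε hε
    obtain ⟨L₀, hL₀, h5⟩ := h5 γ hγ ε hε
    obtain ⟨Lt, hLt, htr⟩ := htr γ hγ g2
    set L : ℝ := max (max L₀ Lt) (max |a| |b|) with hL
    have l1 : L₀ ≤ L := (le_max_left _ _).trans (le_max_left _ _)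
    have l2 : Lt ≤ L := (le_max_right _ _).trans (le_max_left _ _)
    have l3 : |a| ≤ L := (le_max_left _ _).trans (le_max_right _ _)
    have l4 : |b| ≤ L := (le_max_right _ _).trans (le_max_right _ _)
    have lpos : 0 < L := lt_of_lt_of_le hL₀ l1
    obtain ⟨Ut, hUt, hJt, hGt⟩ := htr L l2
    have hC₀' : 3 / 4 * (3 / 16) * kap γ ≤ 3 / 16 * (1 - min δ₁ (1 / 4)) * kap γ := by
      have : min δ₁ (1 / 4) ≤ 1 / 4 := min_le_right _ _
      have h2 : 3 / 4 * (3 / 16 : ℝ) ≤ 3 / 16 * (1 - min δ₁ (1 / 4)) := by linarith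
      exact mul_le_mul_of_nonneg_right h2 hkap.le
    obtain ⟨C, V, hCC, hCle, hO⟩ := exists_opt (by linarith : -L < L) hγ g3.le hC₀' ⟨Ut, hUt, hJt, hGt⟩
    have hCC' : 3 / 16 * (1 - δ₁) * kap γ ≤ C := by
      refine le_trans ?_ hCC
      have : min δ₁ (1 / 4) ≤ δ₁ := min_le_left _ _
      have h2 : 3 / 16 * (1 - δ₁) ≤ 3 / 16 * (1 - min δ₁ (1 / 4)) := by linarith
      exact mul_le_mul_of_nonneg_right h2 hkap.le
    obtain ⟨S, hSγ, hSC, hSL⟩ := hSD γ (-L) L C V hγ g1 hO hCC' hCle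
    have hlen : L₀ ≤ S.Lm + S.Lp := by rw [hSL]; linarith
    have hfin : S.C ≤ C₁ + ε := h5 R₀ le_rfl S hSγ hlen C₁ hC₁ hone
    rw [hSC] at hfin
    have ha : -L ≤ a := by have := neg_abs_le a; linarith
    have hb : b ≤ L := by have := le_abs_self b; linarith
    calc Gf γ a b U ≤ Gf γ (-L) L ((Ioo a b).indicator U) := partB_G ha hb U
      _ ≤ ENNReal.ofReal C * Jf γ (-L) L ((Ioo a b).indicator U) := hO.max _ (partB_adm hU)
      _ = ENNReal.ofReal C * Jf γ a b U := by rw [partB_J hγ ha hb]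
      _ ≤ ENNReal.ofReal (C₁ + ε) * Jf γ a b U := by gcongr
  have hJ : Jf γ a b U ≠ ⊤ := (Jf_lt_top hγ hU).ne
  have lim : Filter.Tendsto (fun ε : ℝ => ENNReal.ofReal (C₁ + ε) * Jf γ a b U) (nhdsWithin 0 (Ioi 0))
      (nhds (ENNReal.ofReal C₁ * Jf γ a b U)) := by
    have h1 : Filter.Tendsto (fun ε : ℝ => ENNReal.ofReal (C₁ + ε)) (nhdsWithin 0 (Ioi 0)) (nhds (ENNReal.ofReal C₁)) := by
      have h2 : Filter.Tendsto (fun ε : ℝ => C₁ + ε) (nhdsWithin 0 (Ioi 0)) (nhds (C₁ + 0)) :=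
        (tendsto_const_nhds.add Filter.tendsto_id).mono_left nhdsWithin_le_nhds
      rw [add_zero] at h2
      exact ENNReal.tendsto_ofReal h2
    exact ENNReal.Tendsto.mul_const h1 (Or.inr hJ)
  exact ge_of_tendsto lim (eventually_nhdsWithin_of_forall fun ε hε => key ε hε)

end Pool.Agent.RLT40
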