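import Pool.Agent.RLT40.FourD

/-!
# Module RADB (paper 0): from boxes to `ℝ⁴`.

`annulus_exhaust`: a finite dimensional negative space `F` of test functions stays negative after multiplication by `η_n(x) = χ(n(x))` vanishing near `0` with `∫|∇η_n|² → 0` (logarithmic cutoff, smooth:
`η = g(log|x|/log ε)`), dimension preserved; the supports lie in `Ann L` for `L` large: `N4 W τ = ⨆_n N4ann n W τ`; monotone in `n`.
`rad_bound`: monotone convergence and `channel`: `∫γτ^{γ-1}N4 W τ = sup_n ∫γτ^{γ-1}N4ann n ≤ sup_n Gf γ (-n) n U ≤ C sup J ≤ (C/2π²) ∫W^{2+γ}`.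
-/

open MeasureTheory Set Filter Topology
open scoped ENNReal NNReal

namespace Pool.Agent.RLT40

/-- negative definite matrices are open -/
lemma RadA_neg {d : ℕ} (M : ℕ → Fin d → Fin d → ℝ) (M0 : Fin d → Fin d → ℝ)
    (h : ∀ i j, Tendsto (fun n => M n i j) atTop (𝓝 (M0 i j)))
    (hneg : ∀ c : Fin d → ℝ, c ≠ 0 → ∑ i, ∑ j, c i * c j * M0 i j < 0) :
    ∀ᶠ n in atTop, ∀ c : Fin d → ℝ, c ≠ 0 → ∑ i, ∑ j, c i * c j * M n i j < 0 := by
  rcases subsingleton_or_nontrivial (Fin d → ℝ) with hs | hs
  · exact Eventually.of_forall fun n c hc => absurd (Subsingleton.elim c 0) hc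
  have hcomp : IsCompact (Metric.sphere (0 : Fin d → ℝ) 1) := isCompact_sphere _ _
  have hne : (Metric.sphere (0 : Fin d → ℝ) 1).Nonempty := NormedSpace.sphere_nonempty.2 zero_le_one
  have hcont : Continuous fun c : Fin d → ℝ => ∑ i, ∑ j, c i * c j * M0 i j := by fun_prop
  obtain ⟨c0, hc0, hmax⟩ := hcomp.exists_isMaxOn hne hcont.continuousOn
  have hc0' : c0 ≠ 0 := by
    rintro rfl
    simp at hc0
  have hδ := hneg c0 hc0'
  have hlim : Tendsto (fun n => ∑ i, ∑ j, |M n i j - M0 i j|) atTop (𝓝 0) := by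
    have : (0 : ℝ) = ∑ _i : Fin d, ∑ _j : Fin d, (0 : ℝ) := by simp
    rw [this]
    refine tendsto_finsetSum _ fun i _ => tendsto_finsetSum _ fun j _ => ?_
    have h1 := ((h i j).sub_const (M0 i j)).abs
    simpa using h1
  filter_upwards [hlim.eventually (gt_mem_nhds (neg_pos.2 hδ))] with n hn c hc
  have hcn : 0 < ‖c‖ := norm_pos_iff.2 hc
  obtain ⟨e, he⟩ : ∃ e : Fin d → ℝ, e = ‖c‖⁻¹ • c := ⟨_, rfl⟩
  have hen : ‖e‖ = 1 := by
    rw [he, norm_smul, norm_inv, norm_norm, inv_mul_cancel₀ hcn.ne']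
  have hce : ∀ i, c i = ‖c‖ * e i := by
    intro i
    rw [he]
    simp only [Pi.smul_apply, smul_eq_mul]
    field_simp
  have h1 : ∑ i, ∑ j, e i * e j * M0 i j ≤ ∑ i, ∑ j, c0 i * c0 j * M0 i j :=
    hmax (by simp [hen])
  have h2 : ∑ i, ∑ j, e i * e j * M n i j ≤ ∑ i, ∑ j, e i * e j * M0 i j +
      ∑ i, ∑ j, |M n i j - M0 i j| := by
    rw [← Finset.sum_add_distrib]
    refine Finset.sum_le_sum fun i _ => ?_
    rw [← Finset.sum_add_distrib]
    refine Finset.sum_le_sum fun j _ => ?_
    have h3 : |e i| ≤ 1 := by rw [← hen]; exact norm_le_pi_norm e i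
    have h4 : |e j| ≤ 1 := by rw [← hen]; exact norm_le_pi_norm e j
    have h5 : e i * e j * (M n i j - M0 i j) ≤ |M n i j - M0 i j| := by
      refine (le_abs_self _).trans ?_
      rw [abs_mul, abs_mul]
      have : |e i| * |e j| ≤ 1 := mul_le_one₀ h3 (abs_nonneg _) h4
      exact mul_le_of_le_one_left (abs_nonneg _) this
    linarith
  have h6 : ∑ i, ∑ j, e i * e j * M n i j < 0 := by linarith
  have h7 : ∑ i, ∑ j, c i * c j * M n i j = ‖c‖ ^ 2 * ∑ i, ∑ j, e i * e j * M n i j := by
    rw [Finset.mul_sum]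
    refine Finset.sum_congr rfl fun i _ => ?_
    rw [Finset.mul_sum]
    refine Finset.sum_congr rfl fun j _ => ?_
    rw [hce i, hce j]; ring
  rw [h7]
  exact mul_neg_of_pos_of_neg (by positivity) h6

/-- the bilinear form -/
noncomputable def RadA_B (W : En 4 → ℝ) (τ : ℝ) (u v : En 4 → ℝ) : ℝ :=
  ∫ x, (inner ℝ (gradient u x) (gradient v x) - W x * (u x * v x) + τ * (u x * v x))

lemma RadA_int {W : En 4 → ℝ} (hW : LocallyIntegrable W) (τ : ℝ) {u v : En 4 → ℝ} (hu : u ∈ Test 4)
    (hv : v ∈ Test 4) :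
    Integrable (fun x => inner ℝ (gradient u x) (gradient v x) - W x * (u x * v x) + τ * (u x * v x)) := by
  have hgu : Continuous (gradient u) := by
    have := hu.1.continuous_fderiv (by simp)
    unfold gradient
    fun_prop
  have hgv : Continuous (gradient v) := by
    have := hv.1.continuous_fderiv (by simp)
    unfold gradient
    fun_prop
  have hcu := hu.1.continuous
  have hcv := hv.1.continuous
  have hgs : HasCompactSupport (gradient u) := by
    have := hu.2.fderiv (𝕜 := ℝ)
    exact this.comp_left (g := (InnerProductSpace.toDual ℝ (En 4)).symm) (by simp)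
  have h1 : Integrable (fun x => inner ℝ (gradient u x) (gradient v x)) := by
    refine (hgu.inner hgv).integrable_of_hasCompactSupport ?_
    refine hgs.mono ?_
    intro x hx h0
    apply hx
    simp only []
    have : gradient u x = 0 := h0
    rw [this, inner_zero_left]
  have h2 : HasCompactSupport fun x => u x * v x := hu.2.mul_right
  have h3 : Integrable (fun x => W x * (u x * v x)) := by
    have := hW.integrable_smul_right_of_hasCompactSupport (hcu.mul hcv) h2
    simpa [mul_comm] using this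
  have h4 : Integrable (fun x => u x * v x) := (hcu.mul hcv).integrable_of_hasCompactSupport h2
  exact (h1.sub h3).add (h4.const_mul τ)

lemma RadA_form {W : En 4 → ℝ} (τ : ℝ) (u : En 4 → ℝ) : form4 W τ u = RadA_B W τ u u := by
  unfold form4 RadA_B
  refine integral_congr_ae (Eventually.of_forall fun x => ?_)
  simp only [real_inner_self_eq_norm_sq]
  ring

lemma RadA_sum {W : En 4 → ℝ} (hW : LocallyIntegrable W) (τ : ℝ) {d : ℕ} (u : Fin d → En 4 → ℝ)
    (hu : ∀ i, u i ∈ Test 4) (c : Fin d → ℝ) :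
    form4 W τ (∑ i, c i • u i) = ∑ i, ∑ j, c i * c j * RadA_B W τ (u i) (u j) := by
  have hgrad : ∀ x, gradient (∑ i, c i • u i) x = ∑ i, c i • gradient (u i) x := by
    intro x
    have h1 : HasFDerivAt (∑ i, c i • u i) (∑ i, c i • fderiv ℝ (u i) x) x := by
      refine HasFDerivAt.sum fun i _ => ?_
      have hd : DifferentiableAt ℝ (u i) x := (hu i).1.differentiable (by simp) x
      exact hd.hasFDerivAt.const_smul (c i)
    unfold gradient
    rw [h1.fderiv, map_sum]
    refine Finset.sum_congr rfl fun i _ => ?_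
    simp
  have hint : ∀ i j, Integrable (fun x => c i * c j *
      (inner ℝ (gradient (u i) x) (gradient (u j) x) - W x * (u i x * u j x) + τ * (u i x * u j x))) :=
    fun i j => (RadA_int hW τ (hu i) (hu j)).const_mul _
  have h2 : form4 W τ (∑ i, c i • u i) = ∫ x, ∑ i, ∑ j, c i * c j *
      (inner ℝ (gradient (u i) x) (gradient (u j) x) - W x * (u i x * u j x) + τ * (u i x * u j x)) := by
    unfold form4
    refine integral_congr_ae (Eventually.of_forall fun x => ?_)
    simp only []
    rw [hgrad x, ← real_inner_self_eq_norm_sq, sum_inner]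
    have e1 : (∑ i, c i • u i) x = ∑ i, c i * u i x := by simp [Finset.sum_apply]
    rw [e1, sq, Finset.sum_mul_sum, Finset.mul_sum, Finset.mul_sum, ← Finset.sum_sub_distrib,
      ← Finset.sum_add_distrib]
    refine Finset.sum_congr rfl fun i _ => ?_
    rw [inner_sum, Finset.mul_sum, Finset.mul_sum, ← Finset.sum_sub_distrib,
      ← Finset.sum_add_distrib]
    refine Finset.sum_congr rfl fun j _ => ?_
    rw [real_inner_smul_left, real_inner_smul_right]
    ring
  rw [h2, integral_finsetSum _ fun i _ => integrable_finsetSum _ fun j _ => hint i j]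
  refine Finset.sum_congr rfl fun i _ => ?_
  rw [integral_finsetSum _ fun j _ => hint i j]
  refine Finset.sum_congr rfl fun j _ => ?_
  rw [integral_const_mul]
  rfl

/-- a fixed bump function -/
noncomputable def RadA_f : ContDiffBump (0 : En 4) := ⟨1, 2, one_pos, one_lt_two⟩

/-- the cutoff -/
noncomputable def RadA_eta (n : ℕ) (x : En 4) : ℝ := 1 - RadA_f ((n : ℝ) • x)

lemma RadA_eta_contDiff (n : ℕ) : ContDiff ℝ (⊤ : ℕ∞) (RadA_eta n) := by
  unfold RadA_eta
  have h1 : ContDiff ℝ (⊤ : ℕ∞) (RadA_f : En 4 → ℝ) := RadA_f.contDiff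
  have h2 : ContDiff ℝ (⊤ : ℕ∞) fun x : En 4 => (n : ℝ) • x := contDiff_const_smul _
  exact contDiff_const.sub (h1.comp h2)

lemma RadA_eta_nonneg (n : ℕ) (x : En 4) : 0 ≤ RadA_eta n x := by
  unfold RadA_eta
  have := RadA_f.le_one (x := (n : ℝ) • x)
  linarith

lemma RadA_eta_le (n : ℕ) (x : En 4) : RadA_eta n x ≤ 1 := by
  unfold RadA_eta
  have := RadA_f.nonneg (x := (n : ℝ) • x)
  linarith

lemma RadA_eta_zero {n : ℕ} {x : En 4} (h : (n : ℝ) * ‖x‖ ≤ 1) : RadA_eta n x = 0 := by
  unfold RadA_eta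
  rw [RadA_f.one_of_mem_closedBall, sub_self]
  rw [mem_closedBall_zero_iff, norm_smul]
  simpa [RadA_f] using h

lemma RadA_eta_one {n : ℕ} {x : En 4} (h : 2 ≤ (n : ℝ) * ‖x‖) : RadA_eta n x = 1 := by
  unfold RadA_eta
  rw [RadA_f.zero_of_le_dist, sub_zero]
  rw [dist_zero_right, norm_smul]
  simpa [RadA_f] using h

lemma RadA_eta_lim {x : En 4} (hx : x ≠ 0) : Tendsto (fun n => RadA_eta n x) atTop (𝓝 1) := by
  have hxn : 0 < ‖x‖ := norm_pos_iff.2 hx
  refine tendsto_const_nhds.congr' ?_
  have h1 : Tendsto (fun n : ℕ => (n : ℝ) * ‖x‖) atTop atTop :=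
    tendsto_natCast_atTop_atTop.atTop_mul_const hxn
  filter_upwards [h1.eventually_ge_atTop 2] with n hn
  exact (RadA_eta_one hn).symm

lemma RadA_eta_grad (n : ℕ) (x : En 4) :
    gradient (RadA_eta n) x = -((n : ℝ) • gradient (RadA_f : En 4 → ℝ) ((n : ℝ) • x)) := by
  have hd : DifferentiableAt ℝ (RadA_f : En 4 → ℝ) ((n : ℝ) • x) :=
    (RadA_f.contDiff (n := ⊤)).differentiable (by simp) _
  have h1 : HasFDerivAt (fun x : En 4 => (n : ℝ) • x) ((n : ℝ) • ContinuousLinearMap.id ℝ (En 4)) x :=
    (hasFDerivAt_id x).const_smul (n : ℝ)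
  have h2 : HasFDerivAt (fun x : En 4 => (RadA_f : En 4 → ℝ) ((n : ℝ) • x)) _ x := hd.hasFDerivAt.comp x h1
  have h3 : HasFDerivAt (RadA_eta n) _ x := h2.const_sub 1
  unfold gradient
  rw [h3.fderiv, map_neg]
  congr 1
  have : (fderiv ℝ (RadA_f : En 4 → ℝ) ((n : ℝ) • x)).comp ((n : ℝ) • ContinuousLinearMap.id ℝ (En 4)) =
      (n : ℝ) • fderiv ℝ (RadA_f : En 4 → ℝ) ((n : ℝ) • x) := by
    ext v; simp
  rw [this]
  simp

lemma RadA_grad_bound : ∃ K : ℝ, 0 ≤ K ∧ ∀ (n : ℕ) (x : En 4), ‖gradient (RadA_eta n) x‖ ≤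
    (Metric.closedBall (0 : En 4) (2 / n)).indicator (fun _ => K * n) x := by
  have hs : HasCompactSupport (fderiv ℝ (RadA_f : En 4 → ℝ)) := RadA_f.hasCompactSupport.fderiv (𝕜 := ℝ)
  have hc : Continuous (fderiv ℝ (RadA_f : En 4 → ℝ)) :=
    (RadA_f.contDiff (n := ⊤)).continuous_fderiv (by simp)
  obtain ⟨K, hK⟩ := hs.exists_bound_of_continuous hc
  have hK0 : 0 ≤ K := (norm_nonneg _).trans (hK 0)
  have hnorm : ∀ y, ‖gradient (RadA_f : En 4 → ℝ) y‖ ≤ K := by
    intro y
    unfold gradient
    rw [LinearIsometryEquiv.norm_map]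
    exact hK y
  refine ⟨K, hK0, fun n x => ?_⟩
  rw [RadA_eta_grad, norm_neg, norm_smul]
  by_cases hx : x ∈ Metric.closedBall (0 : En 4) (2 / n)
  · rw [indicator_of_mem hx, Real.norm_natCast, mul_comm]
    exact mul_le_mul_of_nonneg_right (hnorm _) (Nat.cast_nonneg n)
  · rw [indicator_of_notMem hx]
    rcases Nat.eq_zero_or_pos n with rfl | hn
    · simp
    · have hn' : (0 : ℝ) < n := by exact_mod_cast hn
      have h1 : (n : ℝ) • x ∉ tsupport (fderiv ℝ (RadA_f : En 4 → ℝ)) := by
        intro h2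
        have h3 := tsupport_fderiv_subset ℝ h2
        rw [RadA_f.tsupport_eq] at h3
        apply hx
        rw [mem_closedBall_zero_iff] at h3 ⊢
        rw [norm_smul, Real.norm_natCast] at h3
        rw [le_div_iff₀ hn', mul_comm]
        exact h3
      have h2 : fderiv ℝ (RadA_f : En 4 → ℝ) ((n : ℝ) • x) = 0 := image_eq_zero_of_notMem_tsupport h1
      unfold gradient
      rw [h2, map_zero, norm_zero, mul_zero]

lemma RadA_mul_mem (n : ℕ) {u : En 4 → ℝ} (hu : u ∈ Test 4) : (fun x => RadA_eta n x * u x) ∈ Test 4 :=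
  ⟨(RadA_eta_contDiff n).mul hu.1, hu.2.mul_left⟩

lemma RadA_mul_grad (n : ℕ) {u : En 4 → ℝ} (hu : u ∈ Test 4) (x : En 4) :
    gradient (fun x => RadA_eta n x * u x) x = RadA_eta n x • gradient u x + u x • gradient (RadA_eta n) x := by
  have h1 : DifferentiableAt ℝ (RadA_eta n) x := (RadA_eta_contDiff n).differentiable (by simp) x
  have h2 : DifferentiableAt ℝ u x := hu.1.differentiable (by simp) x
  have h3 := (h1.hasFDerivAt.mul h2.hasFDerivAt).fderiv
  unfold gradient
  change (InnerProductSpace.toDual ℝ (En 4)).symm (fderiv ℝ (RadA_eta n * u) x) = _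
  rw [h3, map_add]
  simp

lemma RadA_lim {W : En 4 → ℝ} (hW : LocallyIntegrable W) (τ : ℝ) {u : En 4 → ℝ} (hu : u ∈ Test 4) :
    Tendsto (fun n => form4 W τ (fun x => RadA_eta n x * u x)) atTop (𝓝 (form4 W τ u)) := by
  obtain ⟨K, hK0, hK⟩ := RadA_grad_bound
  have hgc : Continuous (gradient u) := by
    have := hu.1.continuous_fderiv (by simp)
    unfold gradient
    fun_prop
  have hgs : HasCompactSupport (gradient u) := by
    have := hu.2.fderiv (𝕜 := ℝ)
    exact this.comp_left (g := (InnerProductSpace.toDual ℝ (En 4)).symm) (by simp)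
  obtain ⟨G, hG⟩ := hgs.exists_bound_of_continuous hgc
  obtain ⟨S, hS⟩ := hu.2.exists_bound_of_continuous hu.1.continuous
  have hG0 : 0 ≤ G := (norm_nonneg _).trans (hG 0)
  have hS0 : 0 ≤ S := (norm_nonneg _).trans (hS 0)
  obtain ⟨g, hg⟩ : ∃ g : En 4 → ℝ, g = fun x => inner ℝ (gradient u x) (gradient u x) - W x * (u x * u x) +
    τ * (u x * u x) := ⟨_, rfl⟩
  have hgi : Integrable g := by rw [hg]; exact RadA_int hW τ hu hu
  have hgform : form4 W τ u = ∫ x, g x := by rw [RadA_form, hg]; rfl
  obtain ⟨r, hr⟩ : ∃ r : ℕ → En 4 → ℝ, r = fun n x => 2 * (RadA_eta n x * u x *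
    inner ℝ (gradient u x) (gradient (RadA_eta n) x)) + u x ^ 2 * ‖gradient (RadA_eta n) x‖ ^ 2 := ⟨_, rfl⟩
  have hsplit : ∀ n x, ‖gradient (fun x => RadA_eta n x * u x) x‖ ^ 2 - W x * (RadA_eta n x * u x) ^ 2 +
      τ * (RadA_eta n x * u x) ^ 2 = RadA_eta n x ^ 2 * g x + r n x := by
    intro n x
    rw [RadA_mul_grad n hu, ← real_inner_self_eq_norm_sq, inner_add_left, inner_add_right,
      inner_add_right, real_inner_smul_left, real_inner_smul_left, real_inner_smul_left,
      real_inner_smul_left, real_inner_smul_right, real_inner_smul_right, real_inner_smul_right,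
      real_inner_smul_right, real_inner_comm (gradient u x) (gradient (RadA_eta n) x), hg, hr]
    simp only [← real_inner_self_eq_norm_sq]
    ring
  have hηm : ∀ n, Continuous (RadA_eta n) := fun n => (RadA_eta_contDiff n).continuous
  have hi1 : ∀ n, Integrable fun x => RadA_eta n x ^ 2 * g x := by
    intro n
    refine hgi.bdd_mul (c := 1) ((hηm n).pow 2).aestronglyMeasurable (Eventually.of_forall fun x => ?_)
    rw [Real.norm_eq_abs, abs_of_nonneg (sq_nonneg _)]
    exact pow_le_one₀ (RadA_eta_nonneg n x) (RadA_eta_le n x)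
  have hi2 : ∀ n, Integrable fun x => ‖gradient (fun x => RadA_eta n x * u x) x‖ ^ 2 -
      W x * (RadA_eta n x * u x) ^ 2 + τ * (RadA_eta n x * u x) ^ 2 := by
    intro n
    have := RadA_int hW τ (RadA_mul_mem n hu) (RadA_mul_mem n hu)
    refine this.congr (Eventually.of_forall fun x => ?_)
    simp only [real_inner_self_eq_norm_sq]
    ring
  have hi3 : ∀ n, Integrable (r n) := by
    intro n
    have := (hi2 n).sub (hi1 n)
    refine this.congr (Eventually.of_forall fun x => ?_)
    simp only [Pi.sub_apply]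
    rw [hsplit n x]; ring
  have hform : ∀ n, form4 W τ (fun x => RadA_eta n x * u x) =
      (∫ x, RadA_eta n x ^ 2 * g x) + ∫ x, r n x := by
    intro n
    rw [← integral_add (hi1 n) (hi3 n)]
    unfold form4
    exact integral_congr_ae (Eventually.of_forall fun x => hsplit n x)
  simp only [hform]
  rw [hgform, ← add_zero (∫ x, g x)]
  refine Tendsto.add ?_ ?_
  · refine tendsto_integral_of_dominated_convergence (fun x => ‖g x‖) (fun n => (hi1 n).aestronglyMeasurable)
      hgi.norm (fun n => Eventually.of_forall fun x => ?_) ?_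
    · rw [norm_mul]
      refine mul_le_of_le_one_left (norm_nonneg _) ?_
      rw [Real.norm_eq_abs, abs_of_nonneg (sq_nonneg _)]
      exact pow_le_one₀ (RadA_eta_nonneg n x) (RadA_eta_le n x)
    · have h0 : ∀ᵐ x : En 4, x ≠ 0 := by
        have := (countable_singleton (0 : En 4)).ae_notMem volume
        filter_upwards [this] with t ht
        simpa using ht
      filter_upwards [h0] with x hx
      have := ((RadA_eta_lim hx).pow 2).mul_const (g x)
      simpa using this
  · -- the remainder
    obtain ⟨c, hc⟩ : ∃ c : ℝ, c = (volume (Metric.ball (0 : En 4) 1)).toReal := ⟨_, rfl⟩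
    have hc0 : 0 ≤ c := by rw [hc]; exact ENNReal.toReal_nonneg
    have hb : ∀ n : ℕ, 1 ≤ n → ‖∫ x, r n x‖ ≤ 16 * c * (2 * S * G * K + S ^ 2 * K ^ 2) * (1 / (n : ℝ)) := by
      intro n hn
      have hn' : (1 : ℝ) ≤ n := by exact_mod_cast hn
      have hn0 : (0 : ℝ) < n := by linarith
      have hr2 : (0 : ℝ) ≤ 2 / n := by positivity
      have hrb : ∀ x, ‖r n x‖ ≤ (Metric.closedBall (0 : En 4) (2 / n)).indicator
          (fun _ => (2 * S * G * K + S ^ 2 * K ^ 2) * (n : ℝ) ^ 2) x := by
        intro x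
        have hkx := hK n x
        rw [hr]
        by_cases hx : x ∈ Metric.closedBall (0 : En 4) (2 / n)
        · rw [indicator_of_mem hx] at hkx ⊢
          have i1 : |inner ℝ (gradient u x) (gradient (RadA_eta n) x)| ≤ G * (K * n) :=
            (abs_real_inner_le_norm _ _).trans (mul_le_mul (hG x) hkx (norm_nonneg _) hG0)
          have i2 : |RadA_eta n x| ≤ 1 := by
            rw [abs_of_nonneg (RadA_eta_nonneg n x)]; exact RadA_eta_le n x
          have i3 : |u x| ≤ S := hS x
          have i4 : |u x| ^ 2 ≤ S ^ 2 := pow_le_pow_left₀ (abs_nonneg _) i3 2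
          have i5 : ‖gradient (RadA_eta n) x‖ ^ 2 ≤ (K * n) ^ 2 := pow_le_pow_left₀ (norm_nonneg _) hkx 2
          have i6 : |RadA_eta n x * u x * inner ℝ (gradient u x) (gradient (RadA_eta n) x)| ≤
              1 * S * (G * (K * n)) := by
            rw [abs_mul, abs_mul]
            exact mul_le_mul (mul_le_mul i2 i3 (abs_nonneg _) zero_le_one) i1 (abs_nonneg _) (by positivity)
          have i7 : |u x ^ 2 * ‖gradient (RadA_eta n) x‖ ^ 2| ≤ S ^ 2 * (K * n) ^ 2 := by
            rw [abs_mul, abs_of_nonneg (sq_nonneg (‖gradient (RadA_eta n) x‖)), abs_pow]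
            exact mul_le_mul i4 i5 (by positivity) (by positivity)
          rw [Real.norm_eq_abs]
          refine (abs_add_le _ _).trans ?_
          rw [abs_mul, abs_two]
          have i8 : 0 ≤ 2 * S * G * K := by positivity
          have i9 : (n : ℝ) ≤ (n : ℝ) ^ 2 := by nlinarith
          nlinarith [mul_le_mul_of_nonneg_left i9 i8]
        · rw [indicator_of_notMem hx] at hkx ⊢
          have h0 : gradient (RadA_eta n) x = 0 := norm_le_zero_iff.1 hkx
          simp [h0]
      have hvol : (volume (Metric.closedBall (0 : En 4) (2 / n))).toReal = (2 / n) ^ 4 * c := by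
        rw [Measure.addHaar_closedBall _ _ hr2, ENNReal.toReal_mul, ENNReal.toReal_ofReal (by positivity),
          finrank_euclideanSpace_fin, hc]
      have hI : ∫ x, (Metric.closedBall (0 : En 4) (2 / n)).indicator
          (fun _ => (2 * S * G * K + S ^ 2 * K ^ 2) * (n : ℝ) ^ 2) x =
          (2 / n) ^ 4 * c * ((2 * S * G * K + S ^ 2 * K ^ 2) * (n : ℝ) ^ 2) := by
        rw [integral_indicator measurableSet_closedBall, setIntegral_const, smul_eq_mul, Measure.real, hvol]
      have h1 := norm_integral_le_of_norm_le (μ := volume) (f := r n)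
        (g := (Metric.closedBall (0 : En 4) (2 / n)).indicator
          (fun _ => (2 * S * G * K + S ^ 2 * K ^ 2) * (n : ℝ) ^ 2)) ?_ (Eventually.of_forall hrb)
      · refine h1.trans ?_
        rw [hI]
        have e1 : (2 / (n : ℝ)) ^ 4 * c * ((2 * S * G * K + S ^ 2 * K ^ 2) * (n : ℝ) ^ 2) =
            16 * c * (2 * S * G * K + S ^ 2 * K ^ 2) * (1 / (n : ℝ) * (1 / n)) := by
          field_simp; ring
        rw [e1]
        refine mul_le_mul_of_nonneg_left ?_ (by positivity)
        have : 1 / (n : ℝ) ≤ 1 := by rw [div_le_one hn0]; exact hn'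
        exact mul_le_of_le_one_right (by positivity) this
      · rw [integrable_indicator_iff measurableSet_closedBall]
        exact integrableOn_const (by exact (isCompact_closedBall _ _).measure_lt_top.ne)
    refine squeeze_zero_norm' (a := fun n : ℕ => 16 * c * (2 * S * G * K + S ^ 2 * K ^ 2) * (1 / (n : ℝ)))
      ?_ ?_
    · filter_upwards [eventually_ge_atTop 1] with n hn
      exact hb n hn
    · have := tendsto_one_div_atTop_nhds_zero_nat (𝕜 := ℝ)
      simpa using this.const_mul (16 * c * (2 * S * G * K + S ^ 2 * K ^ 2))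

lemma RadA_polar {W : En 4 → ℝ} (hW : LocallyIntegrable W) (τ : ℝ) {u v : En 4 → ℝ} (hu : u ∈ Test 4)
    (hv : v ∈ Test 4) :
    RadA_B W τ u v = (form4 W τ (u + v) - form4 W τ u - form4 W τ v) / 2 := by
  have h1 := RadA_sum hW τ ![u, v] (by intro i; fin_cases i <;> assumption) ![1, 1]
  simp only [Fin.sum_univ_two, Matrix.cons_val_zero, Matrix.cons_val_one, one_smul, one_mul] at h1
  have h2 : RadA_B W τ v u = RadA_B W τ u v := by
    unfold RadA_B
    refine integral_congr_ae (Eventually.of_forall fun x => ?_)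
    simp only [real_inner_comm (gradient u x) (gradient v x), mul_comm (v x) (u x)]
  rw [h2, ← RadA_form, ← RadA_form] at h1
  rw [h1]; ring

lemma RadA_zero (W : En 4 → ℝ) (τ : ℝ) : form4 W τ 0 = 0 := by
  unfold form4
  have h : ∀ x : En 4, gradient (0 : En 4 → ℝ) x = 0 := by
    intro x
    unfold gradient
    have : fderiv ℝ (0 : En 4 → ℝ) x = 0 := by
      have e : (0 : En 4 → ℝ) = fun _ => (0 : ℝ) := rfl
      rw [e]; simp
    rw [this, map_zero]
  simp [h]

/-- multiplication by the cutoff -/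
noncomputable def RadA_T (n : ℕ) : (En 4 → ℝ) →ₗ[ℝ] (En 4 → ℝ) where
  toFun u := fun x => RadA_eta n x * u x
  map_add' u v := by ext x; simp [mul_add]
  map_smul' c u := by ext x; simp [mul_left_comm]

theorem annulus_exhaust {γ : ℝ} (hγ : 0 < γ) {W : En 4 → ℝ} (hW : Adm4 γ W) (τ : ℝ) :
    N4 W τ = ⨆ n : ℕ, N4ann n W τ := by
  have hWl : LocallyIntegrable W := by
    refine hW.2.1.locallyIntegrable ?_
    rw [ENNReal.one_le_ofReal]
    linarith
  refine le_antisymm ?_ ?_
  · unfold N4
    refine iSup_le fun F => iSup_le fun hF => ?_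
    obtain ⟨hF1, hfd, hneg⟩ := hF
    let e := Module.finBasis ℝ F
    obtain ⟨u, hu⟩ : ∃ u : Fin (Module.finrank ℝ F) → En 4 → ℝ, u = fun i => (e i : En 4 → ℝ) := ⟨_, rfl⟩
    have huT : ∀ i, u i ∈ Test 4 := fun i => by rw [hu]; exact hF1 (e i).2
    have huF : ∀ c : Fin (Module.finrank ℝ F) → ℝ, ∑ i, c i • u i = ((∑ i, c i • e i : F) : En 4 → ℝ) := by
      intro c; rw [hu]; simp
    have hc0 : ∀ c : Fin (Module.finrank ℝ F) → ℝ, c ≠ 0 → ∑ i, c i • u i ≠ 0 := by
      intro c hc h0
      rw [huF] at h0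
      have h1 : (∑ i, c i • e i : F) = 0 := Subtype.ext h0
      have h2 := Fintype.linearIndependent_iff.1 e.linearIndependent c h1
      exact hc (funext h2)
    have hexp : ∀ w ∈ F, ∃ c : Fin (Module.finrank ℝ F) → ℝ, w = ∑ i, c i • u i := by
      intro w hw
      refine ⟨fun i => e.repr ⟨w, hw⟩ i, ?_⟩
      rw [huF, e.sum_repr]
    have hev := RadA_neg (fun n i j => RadA_B W τ (RadA_T n (u i)) (RadA_T n (u j)))
      (fun i j => RadA_B W τ (u i) (u j)) ?_ ?_
    · obtain ⟨N, hN1, hN⟩ := (hev.and (eventually_ge_atTop 1)).exists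
      have hmem : ∀ w ∈ Test 4, RadA_T N w ∈ Test 4 := fun w hw => RadA_mul_mem N hw
      have hnegT : ∀ c : Fin (Module.finrank ℝ F) → ℝ, c ≠ 0 → form4 W τ (RadA_T N (∑ i, c i • u i)) < 0 := by
        intro c hc
        have h1 : RadA_T N (∑ i, c i • u i) = ∑ i, c i • RadA_T N (u i) := by
          rw [map_sum]; exact Finset.sum_congr rfl fun i _ => map_smul _ _ _
        rw [h1, RadA_sum hWl τ _ (fun i => hmem _ (huT i))]
        exact hN1 c hc
      have hinj : ∀ w ∈ F, RadA_T N w = 0 → w = 0 := by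
        intro w hw h0
        obtain ⟨c, rfl⟩ := hexp w hw
        by_contra hne
        have hc : c ≠ 0 := by rintro rfl; simp at hne
        have := hnegT c hc
        rw [h0, RadA_zero] at this
        exact lt_irrefl _ this
      have hfr : Module.finrank ℝ (F.map (RadA_T N)) = Module.finrank ℝ F := by
        have h1 : Function.Injective ((RadA_T N).domRestrict F) := by
          rw [← LinearMap.ker_eq_bot, LinearMap.ker_eq_bot']
          intro w hw
          exact Subtype.ext (hinj w w.2 hw)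
        have h2 := LinearMap.finrank_range_of_inj h1
        rwa [LinearMap.range_domRestrict] at h2
      -- supports
      have hR : ∃ R : ℝ, ∀ w ∈ F, ∀ x, R < ‖x‖ → w x = 0 := by
        have h1 : ∀ i, ∃ R : ℝ, ∀ x, R < ‖x‖ → u i x = 0 := by
          intro i
          obtain ⟨R, hR⟩ := (huT i).2.isCompact.isBounded.subset_closedBall (0 : En 4)
          refine ⟨R, fun x hx => ?_⟩
          by_contra hne
          have := hR (subset_tsupport _ hne)
          rw [mem_closedBall_zero_iff] at this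
          linarith
        choose R hR using h1
        refine ⟨∑ i, |R i|, fun w hw x hx => ?_⟩
        obtain ⟨c, rfl⟩ := hexp w hw
        rw [Finset.sum_apply]
        refine Finset.sum_eq_zero fun i _ => ?_
        rw [Pi.smul_apply, hR i x, smul_zero]
        refine lt_of_le_of_lt ?_ hx
        exact (le_abs_self _).trans (Finset.single_le_sum (f := fun i => |R i|)
          (fun i _ => abs_nonneg _) (Finset.mem_univ i))
      obtain ⟨R, hR⟩ := hR
      have hN' : (0 : ℝ) < N := by exact_mod_cast hN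
      have hL : ∃ L : ℕ, Real.exp (-(L : ℝ)) < 1 / N ∧ R < Real.exp L := by
        have t1 : Tendsto (fun L : ℕ => Real.exp (-(L : ℝ))) atTop (𝓝 0) :=
          Real.tendsto_exp_neg_atTop_nhds_zero.comp tendsto_natCast_atTop_atTop
        have t2 : Tendsto (fun L : ℕ => Real.exp (L : ℝ)) atTop atTop :=
          Real.tendsto_exp_atTop.comp tendsto_natCast_atTop_atTop
        exact ((t1.eventually (gt_mem_nhds (by positivity : (0 : ℝ) < 1 / N))).and
          (t2.eventually_gt_atTop R)).exists
      obtain ⟨L, hL1, hL2⟩ := hL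
      have hsupp : ∀ w ∈ F, tsupport (RadA_T N w) ⊆ Ann L := by
        intro w hw
        have hcl : IsClosed {x : En 4 | 1 / (N : ℝ) ≤ ‖x‖ ∧ ‖x‖ ≤ R} :=
          (isClosed_le continuous_const continuous_norm).inter (isClosed_le continuous_norm continuous_const)
        have h1 : tsupport (RadA_T N w) ⊆ {x : En 4 | 1 / (N : ℝ) ≤ ‖x‖ ∧ ‖x‖ ≤ R} := by
          refine closure_minimal ?_ hcl
          intro x hx
          rw [Function.mem_support] at hx
          have h2 : RadA_eta N x * w x ≠ 0 := hx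
          constructor
          · by_contra hlt
            push Not at hlt
            apply h2
            rw [RadA_eta_zero, zero_mul]
            rw [lt_div_iff₀ hN'] at hlt
            linarith
          · by_contra hlt
            push Not at hlt
            apply h2
            rw [hR w hw x hlt, mul_zero]
        intro x hx
        obtain ⟨h3, h4⟩ := h1 hx
        exact ⟨hL1.trans_le h3, h4.trans_lt hL2⟩
      refine le_trans ?_ (le_iSup (fun n : ℕ => N4ann n W τ) L)
      rw [← hfr]
      unfold N4ann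
      refine le_iSup₂_of_le (F.map (RadA_T N)) ⟨?_, ?_, ?_, ?_⟩ le_rfl
      · rintro _ ⟨w, hw, rfl⟩
        exact hmem w (hF1 hw)
      · infer_instance
      · rintro _ ⟨w, hw, rfl⟩
        exact hsupp w hw
      · rintro _ ⟨w, hw, rfl⟩ hne
        obtain ⟨c, rfl⟩ := hexp w hw
        refine hnegT c ?_
        rintro rfl
        simp at hne
    · -- convergence
      intro i j
      have h1 : ∀ n, RadA_B W τ (RadA_T n (u i)) (RadA_T n (u j)) =
          (form4 W τ (fun x => RadA_eta n x * (u i + u j) x) - form4 W τ (fun x => RadA_eta n x * u i x) -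
            form4 W τ (fun x => RadA_eta n x * u j x)) / 2 := by
        intro n
        have hp := RadA_polar hWl τ (u := RadA_T n (u i)) (v := RadA_T n (u j))
          (RadA_mul_mem n (huT i)) (RadA_mul_mem n (huT j))
        rw [hp]
        have : RadA_T n (u i) + RadA_T n (u j) = fun x => RadA_eta n x * (u i + u j) x := by
          rw [← map_add]; rfl
        rw [this]
        rfl
      simp only [h1]
      rw [RadA_polar hWl τ (huT i) (huT j)]
      exact (((RadA_lim hWl τ ((Test 4).add_mem (huT i) (huT j))).sub (RadA_lim hWl τ (huT i))).sub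
        (RadA_lim hWl τ (huT j))).div_const 2
    · intro c hc
      rw [← RadA_sum hWl τ u huT c]
      refine hneg _ ?_ (hc0 c hc)
      rw [huF]
      exact Subtype.mem _
  · refine iSup_le fun n => ?_
    unfold N4 N4ann
    exact iSup_le fun F => iSup_le fun hF => le_iSup₂_of_le F ⟨hF.1, hF.2.1, hF.2.2.2⟩ le_rfl

end Pool.Agent.RLT40
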