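import Pool.Agent.RLT40.ChanD
import Pool.Agent.RLT40.RadA

/-!
# Module RADB (paper 0): from boxes to `ℝ⁴`.

`annulus_exhaust`: a finite dimensional negative space `F` of test functions stays negative after multiplication by `η_n(x) = χ(n(x))` vanishing near `0` with `∫|∇η_n|² → 0` (logarithmic cutoff, smooth:
`η = g(log|x|/log ε)`), dimension preserved; the supports lie in `Ann L` for `L` large: `N4 W τ = ⨆_n N4ann n W τ`; monotone in `n`.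
`rad_bound`: monotone convergence and `channel`: `∫γτ^{γ-1}N4 W τ = sup_n ∫γτ^{γ-1}N4ann n ≤ sup_n Gf γ (-n) n U ≤ C sup J ≤ (C/2π²) ∫W^{2+γ}`.
-/

open MeasureTheory Set
open scoped ENNReal NNReal

namespace Pool.Agent.RLT40

theorem RadB_gradient_eq (u : En 4 → ℝ) (x : En 4) : ‖gradient u x‖ = ‖fderiv ℝ u x‖ := by
  rw [gradient]
  exact LinearIsometryEquiv.norm_map _ _

theorem RadB_integrable_grad {u : En 4 → ℝ} (hu : u ∈ Test 4) : Integrable fun x => ‖gradient u x‖ ^ 2 := by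
  have h1 : Continuous fun x => fderiv ℝ u x := hu.1.continuous_fderiv (by simp)
  have h2 : HasCompactSupport fun x => fderiv ℝ u x := hu.2.fderiv ℝ
  have h3 : Continuous fun x => ‖fderiv ℝ u x‖ ^ 2 := h1.norm.pow 2
  have h4 : HasCompactSupport fun x => ‖fderiv ℝ u x‖ ^ 2 := by
    have := h2.comp_left (g := fun v => ‖v‖ ^ 2) (by simp)
    exact this
  simp only [RadB_gradient_eq]
  exact h3.integrable_of_hasCompactSupport h4

theorem RadB_integrable_sq {u : En 4 → ℝ} (hu : u ∈ Test 4) : Integrable fun x => u x ^ 2 := by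
  have h3 : Continuous fun x => u x ^ 2 := hu.1.continuous.pow 2
  have h4 : HasCompactSupport fun x => u x ^ 2 := by
    have := hu.2.comp_left (g := fun v : ℝ => v ^ 2) (by simp)
    exact this
  exact h3.integrable_of_hasCompactSupport h4

theorem RadB_integrable_pot {γ : ℝ} (hγ : 0 < γ) {W : En 4 → ℝ} (hW : Adm4 γ W) {u : En 4 → ℝ} (hu : u ∈ Test 4) :
    Integrable fun x => W x * u x ^ 2 := by
  have h1 : LocallyIntegrable W := by
    refine hW.2.1.locallyIntegrable ?_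
    rw [← ENNReal.ofReal_one]
    exact ENNReal.ofReal_le_ofReal (by linarith)
  have h3 : Continuous fun x => u x ^ 2 := hu.1.continuous.pow 2
  have h4 : HasCompactSupport fun x => u x ^ 2 := by
    have := hu.2.comp_left (g := fun v : ℝ => v ^ 2) (by simp)
    exact this
  have h5 := h1.integrable_smul_right_of_hasCompactSupport h3 h4
  exact h5

theorem RadB_form4_mono {γ : ℝ} (hγ : 0 < γ) {W : En 4 → ℝ} (hW : Adm4 γ W) {u : En 4 → ℝ} (hu : u ∈ Test 4) {τ τ' : ℝ}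
    (h : τ ≤ τ') : form4 W τ u ≤ form4 W τ' u := by
  unfold form4
  have h1 := ((RadB_integrable_grad hu).sub (RadB_integrable_pot hγ hW hu))
  refine integral_mono (h1.add ((RadB_integrable_sq hu).const_mul τ)) (h1.add ((RadB_integrable_sq hu).const_mul τ')) ?_
  intro x
  have h2 : τ * u x ^ 2 ≤ τ' * u x ^ 2 := mul_le_mul_of_nonneg_right h (sq_nonneg _)
  simp only [Pi.sub_apply, Pi.add_apply]
  linarith

theorem RadB_N4ann_anti {γ : ℝ} (hγ : 0 < γ) {W : En 4 → ℝ} (hW : Adm4 γ W) (L : ℝ) : Antitone fun τ => N4ann L W τ := by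
  intro τ τ' h
  refine iSup₂_le fun F hF => ?_
  refine le_iSup₂_of_le F ⟨hF.1, hF.2.1, hF.2.2.1, fun u hu hu0 => ?_⟩ le_rfl
  exact (RadB_form4_mono hγ hW (hF.1 hu) h).trans_lt (hF.2.2.2 u hu hu0)

theorem RadB_Ann_mono {L L' : ℝ} (h : L ≤ L') : Ann L ⊆ Ann L' := by
  intro x hx
  exact ⟨(Real.exp_le_exp.2 (neg_le_neg h)).trans_lt hx.1, hx.2.trans_le (Real.exp_le_exp.2 h)⟩

theorem RadB_N4ann_mono {W : En 4 → ℝ} {L L' : ℝ} (h : L ≤ L') (τ : ℝ) : N4ann L W τ ≤ N4ann L' W τ := by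
  refine iSup₂_le fun F hF => ?_
  exact le_iSup₂_of_le F ⟨hF.1, hF.2.1, fun u hu => (hF.2.2.1 u hu).trans (RadB_Ann_mono h), hF.2.2.2⟩ le_rfl

theorem RadB_meas {γ : ℝ} (hγ : 0 < γ) {W : En 4 → ℝ} (hW : Adm4 γ W) (L : ℝ) :
    Measurable fun τ : ℝ => ENNReal.ofReal (γ * τ ^ (γ - 1)) * ((N4ann L W τ : ℕ∞) : ℝ≥0∞) := by
  refine Measurable.mul ?_ ?_
  · exact ENNReal.measurable_ofReal.comp (measurable_const.mul (measurable_id.pow_const _))
  · have : Antitone fun τ : ℝ => ((N4ann L W τ : ℕ∞) : ℝ≥0∞) := fun τ τ' h => ENat.toENNReal_mono (RadB_N4ann_anti hγ hW L h)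
    exact this.measurable

/-- the bound on one annulus -/
theorem RadB_box {γ : ℝ} (hγ : 0 < γ) {C : ℝ} (hC : 0 < C)
    (hbox : ∀ a b : ℝ, ∀ U : ℝ → ℝ, Adm1 γ a b U → Gf γ a b U ≤ ENNReal.ofReal C * Jf γ a b U)
    {W : En 4 → ℝ} (hW : Adm4 γ W) (hrad : ∀ x y : En 4, ‖x‖ = ‖y‖ → W x = W y) {L : ℝ} (hL : 0 < L) :
    (∫⁻ τ in Ioi (0 : ℝ), ENNReal.ofReal (γ * τ ^ (γ - 1)) * ((N4ann L W τ : ℕ∞) : ℝ≥0∞)) ≤
      ENNReal.ofReal (C / (2 * Real.pi ^ 2)) * ∫⁻ x, ENNReal.ofReal (W x ^ (2 + γ)) := by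
  set e0 : En 4 := EuclideanSpace.single 0 1 with he0
  have he : ‖e0‖ = 1 := by simp [he0]
  set U : ℝ → ℝ := fun t => Real.exp t ^ 2 * W (Real.exp t • e0) with hUdef
  have hU0 : ∀ t, 0 ≤ U t := fun t => mul_nonneg (sq_nonneg _) (hW.1 _)
  have hU : ∀ x : En 4, x ≠ 0 → U (Real.log ‖x‖) = ‖x‖ ^ 2 * W x := by
    intro x hx
    have h1 : 0 < ‖x‖ := norm_pos_iff.2 hx
    simp only [hUdef, Real.exp_log h1]
    rw [hrad (‖x‖ • e0) x (by rw [norm_smul, he, mul_one, norm_norm])]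
  have hJ := radial_J hγ hW hU0 hU hL
  calc (∫⁻ τ in Ioi (0 : ℝ), ENNReal.ofReal (γ * τ ^ (γ - 1)) * ((N4ann L W τ : ℕ∞) : ℝ≥0∞))
      ≤ ∫⁻ τ in Ioi (0 : ℝ), ENNReal.ofReal (γ * τ ^ (γ - 1)) * Ntot (-L) L U τ := by
        refine setLIntegral_mono' measurableSet_Ioi fun τ hτ => ?_
        exact mul_le_mul_right (channel hL hγ hW hU0 hU (le_of_lt hτ)) _
    _ = Gf γ (-L) L U := rfl
    _ ≤ ENNReal.ofReal C * Jf γ (-L) L U := hbox _ _ _ hJ.1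
    _ = ENNReal.ofReal (C / (2 * Real.pi ^ 2)) * (ENNReal.ofReal (2 * Real.pi ^ 2) * Jf γ (-L) L U) := by
        rw [← mul_assoc, ← ENNReal.ofReal_mul (by positivity)]
        congr 2
        field_simp
    _ ≤ _ := mul_le_mul_right hJ.2 _

theorem rad_bound {γ : ℝ} (hγ : 0 < γ) {C : ℝ} (hC : 0 < C)
    (hbox : ∀ a b : ℝ, ∀ U : ℝ → ℝ, Adm1 γ a b U → Gf γ a b U ≤ ENNReal.ofReal C * Jf γ a b U)
    {W : En 4 → ℝ} (hW : Adm4 γ W) (hrad : ∀ x y : En 4, ‖x‖ = ‖y‖ → W x = W y) :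
    (∫⁻ τ in Ioi (0 : ℝ), ENNReal.ofReal (γ * τ ^ (γ - 1)) * ((N4 W τ : ℕ∞) : ℝ≥0∞)) ≤
      ENNReal.ofReal (C / (2 * Real.pi ^ 2)) * ∫⁻ x, ENNReal.ofReal (W x ^ (2 + γ)) := by
  have h1 : ∀ τ : ℝ, ENNReal.ofReal (γ * τ ^ (γ - 1)) * ((N4 W τ : ℕ∞) : ℝ≥0∞) =
      ⨆ n : ℕ, ENNReal.ofReal (γ * τ ^ (γ - 1)) * ((N4ann n W τ : ℕ∞) : ℝ≥0∞) := by
    intro τ
    rw [annulus_exhaust hγ hW τ, ENat.toENNReal_iSup, ENNReal.mul_iSup]
  simp only [h1]
  rw [lintegral_iSup (fun n => RadB_meas hγ hW n)]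
  · refine iSup_le fun n => ?_
    calc (∫⁻ τ in Ioi (0 : ℝ), ENNReal.ofReal (γ * τ ^ (γ - 1)) * ((N4ann n W τ : ℕ∞) : ℝ≥0∞))
        ≤ ∫⁻ τ in Ioi (0 : ℝ), ENNReal.ofReal (γ * τ ^ (γ - 1)) * ((N4ann (n + 1) W τ : ℕ∞) : ℝ≥0∞) := by
          refine lintegral_mono fun τ => ?_
          exact mul_le_mul_right (ENat.toENNReal_mono (RadB_N4ann_mono (by linarith) τ)) _
      _ ≤ _ := RadB_box hγ hC hbox hW hrad (by positivity)
  · intro n m hnm τ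
    exact mul_le_mul_right (ENat.toENNReal_mono (RadB_N4ann_mono (by exact_mod_cast hnm) τ)) _

end Pool.Agent.RLT40
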