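import Pool.Agent.RLT40.FourD

/-!
# Module RED (paper 0): reduction to `V = -W ≤ 0`, phase space integral, layer cake for the Riesz mean.

`riesz_le`: `V ≥ -V_-` pointwise so `energy V u ≥ energy (-V_-) u` (integrability of `V u²` for test functions), `eig` is monotone, `negPow` antitone.
`phase_eq`: for fixed `x` with `W = V_-(x)`: `∫_{|p|²<W} (W-|p|²)^γ dp = W^{2+γ} ∫_{|p|<1}(1-|p|²)^γ dp = W^{2+γ} · 2π² ∫_0^1 (1-r²)^γ r³ dr = W^{2+γ} π²/((γ+1)(γ+2))` (polar coordinates:
`integral_fun_norm_addHaar` / lintegral version, volume of the unit ball of `ℝ⁴` is `π²/2`; if `V x ≥ 0` both sides vanish).  `(2π)^{-4} π² = 1/(16π²)`.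
`riesz_eq`: `t_j = |e_j|_-`; `τ < t_j ⟹ j+1 ≤ N4 W τ ⟹ τ ≤ t_j` (a `(j+1)`-dimensional space with `sup energy < -τ`; conversely a negative space for `form4 W τ`); so
`#{j : t_j > τ} = N4 W τ` for a.e. `τ > 0` and `Σ_j t_j^γ = ∫ γτ^{γ-1} #{j : t_j > τ} dτ`.
-/

open MeasureTheory Set
open scoped ENNReal NNReal

namespace Pool.Agent.RLT40

theorem adm4_of_adm {γ : ℝ} {V : En 4 → ℝ} (h : Adm γ V) : Adm4 γ (fun x => max (-V x) 0) := by
  refine ⟨fun x => le_max_right _ _, ?_, h.2.2⟩
  have := h.2.1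
  rwa [show γ + ((4 : ℕ) : ℝ) / 2 = 2 + γ by norm_num; ring] at this

theorem adm_of_adm4 {γ : ℝ} {W : En 4 → ℝ} (h : Adm4 γ W) : Adm γ (fun x => -W x) := by
  have e1 : (fun x => max (-W x) 0) = fun _ => (0 : ℝ) := by
    funext x
    exact max_eq_right (by linarith [h.1 x])
  have e2 : (fun x => max (- -W x) 0) = W := by
    funext x
    rw [neg_neg]
    exact max_eq_left (h.1 x)
  refine ⟨?_, ?_, ?_⟩
  · show LocallyIntegrable (fun x => max (-W x) 0)
    rw [e1]
    exact locallyIntegrable_const 0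
  · show MemLp (fun x => max (- -W x) 0) _
    rw [e2, show γ + ((4 : ℕ) : ℝ) / 2 = 2 + γ by norm_num; ring]
    exact h.2.1
  · intro hc
    apply h.2.2
    filter_upwards [hc] with x hx
    rw [neg_neg, max_eq_left (h.1 x)] at hx
    exact hx

namespace RedA

theorem gradient_continuous {u : En 4 → ℝ} (hu : ContDiff ℝ (⊤ : ℕ∞) u) :
    Continuous fun x => gradient u x := by
  have h1 : Continuous (fderiv ℝ u) := hu.continuous_fderiv (by simp)
  exact (InnerProductSpace.toDual ℝ (En 4)).symm.continuous.comp h1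

theorem integrable_grad {u : En 4 → ℝ} (hu : u ∈ Test 4) :
    Integrable fun x => ‖gradient u x‖ ^ 2 := by
  obtain ⟨h1, h2⟩ := hu
  refine ((gradient_continuous h1).norm.pow 2).integrable_of_hasCompactSupport ?_
  have h3 : HasCompactSupport (fderiv ℝ u) := h2.fderiv ℝ
  refine h3.mono ?_
  intro x hx
  rw [Function.mem_support] at hx ⊢
  intro h0
  apply hx
  show ‖gradient u x‖ ^ 2 = 0
  unfold gradient
  rw [h0]
  simp

theorem integrable_mul_sq {u : En 4 → ℝ} (hu : u ∈ Test 4) {f : En 4 → ℝ}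
    (hf : LocallyIntegrable f) : Integrable fun x => f x * u x ^ 2 := by
  obtain ⟨h1, h2⟩ := hu
  have hc : Continuous fun x => u x ^ 2 := h1.continuous.pow 2
  have hs : HasCompactSupport fun x => u x ^ 2 := by
    refine h2.mono ?_
    intro x hx
    rw [Function.mem_support] at hx ⊢
    intro h0
    apply hx
    show u x ^ 2 = 0
    rw [h0]; ring
  have := hf.integrable_smul_left_of_hasCompactSupport hc hs
  refine this.congr (Filter.Eventually.of_forall fun x => ?_)
  simp only [smul_eq_mul]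
  ring

theorem locInt_neg {γ : ℝ} (hγ : 0 < γ) {V : En 4 → ℝ} (h : Adm γ V) :
    LocallyIntegrable fun x => max (-V x) 0 := by
  refine h.2.1.locallyIntegrable ?_
  rw [ENNReal.one_le_ofReal]
  push_cast
  linarith

theorem energy_mono {γ : ℝ} (hγ : 0 < γ) {V : En 4 → ℝ} (h : Adm γ V) {u : En 4 → ℝ}
    (hu : u ∈ Test 4) : energy (fun x => -(max (-V x) 0)) u ≤ energy V u := by
  unfold energy
  have i1 := integrable_grad hu
  have i2 := integrable_mul_sq hu (locInt_neg hγ h)
  have i3 := integrable_mul_sq hu h.1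
  refine integral_mono ?_ ?_ ?_
  · refine (i1.sub i2).congr (Filter.Eventually.of_forall fun x => ?_)
    simp only [Pi.sub_apply]
    ring
  · refine ((i1.add i3).sub i2).congr (Filter.Eventually.of_forall fun x => ?_)
    simp only [Pi.sub_apply, Pi.add_apply]
    rcases le_total 0 (V x) with hv | hv
    · rw [max_eq_left hv, max_eq_right (by linarith)]
      ring
    · rw [max_eq_right hv, max_eq_left (by linarith)]
      ring
  · intro x
    have h1 : -(max (-V x) 0) ≤ V x := by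
      have := le_max_left (-V x) 0
      linarith
    have h2 := mul_le_mul_of_nonneg_right h1 (sq_nonneg (u x))
    show ‖gradient u x‖ ^ 2 + -(max (-V x) 0) * u x ^ 2 ≤ ‖gradient u x‖ ^ 2 + V x * u x ^ 2
    linarith

theorem negPow_anti {γ : ℝ} (hγ : 0 < γ) {s t : EReal} (h : s ≤ t) : negPow γ t ≤ negPow γ s := by
  unfold negPow
  split_ifs with h1 h2
  · exact ENNReal.rpow_le_rpow (EReal.toENNReal_le_toENNReal (EReal.neg_le_neg_iff.2 h)) hγ.le
  · exact absurd (h.trans_lt h1) h2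
  · exact zero_le
  · exact le_rfl

end RedA

theorem riesz_le {γ : ℝ} (hγ : 0 < γ) {V : En 4 → ℝ} (h : Adm γ V) : riesz γ V ≤ riesz γ (fun x => -(max (-V x) 0)) := by
  unfold riesz
  refine ENNReal.tsum_le_tsum fun j => RedA.negPow_anti hγ ?_
  unfold eig
  refine iInf₂_mono fun F hF => ?_
  refine iSup₂_mono fun u hu => ?_
  exact EReal.coe_le_coe_iff.2 (RedA.energy_mono hγ h (hF.1 hu.1))

/-- positive and finite denominators -/
theorem lint_pos {γ : ℝ} (hγ : 0 < γ) {W : En 4 → ℝ} (h : Adm4 γ W) :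
    (∫⁻ x, ENNReal.ofReal (W x ^ (2 + γ))) ≠ 0 ∧ (∫⁻ x, ENNReal.ofReal (W x ^ (2 + γ))) ≠ ⊤ := by
  obtain ⟨h0, h1, h2⟩ := h
  have hp : 0 < 2 + γ := by linarith
  have e : ∀ x, ENNReal.ofReal (W x ^ (2 + γ)) = ‖W x‖ₑ ^ (2 + γ) := by
    intro x
    rw [Real.enorm_eq_ofReal (h0 x), ENNReal.ofReal_rpow_of_nonneg (h0 x) hp.le]
  simp_rw [e]
  constructor
  · intro hc
    rw [lintegral_eq_zero_iff' (h1.1.enorm.pow_const _)] at hc
    apply h2
    filter_upwards [hc] with x hx
    have : ‖W x‖ₑ ^ (2 + γ) = 0 := hx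
    rw [ENNReal.rpow_eq_zero_iff_of_pos hp] at this
    simpa using this
  · have := lintegral_rpow_enorm_lt_top_of_eLpNorm_lt_top
      (p := ENNReal.ofReal (2 + γ)) (by simpa using hp) ENNReal.ofReal_ne_top h1.2
    rw [ENNReal.toReal_ofReal hp.le] at this
    exact this.ne

end Pool.Agent.RLT40
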