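import Pool.Agent.RLT40.FourD

/-!
# Module RED (paper 0): reduction to `V = -W ≤ 0`, phase space integral, layer cake for the Riesz mean.

`riesz_le`: `V ≥ -V_-` pointwise so `energy V u ≥ energy (-V_-) u` (integrability of `V u²` for test functions), `eig` is monotone, `negPow` antitone.
`phase_eq`: for fixed `x` with `W = V_-(x)`: `∫_{|p|²<W} (W-|p|²)^γ dp = W^{2+γ} ∫_{|p|<1}(1-|p|²)^γ dp = W^{2+γ} · 2π² ∫_0^1 (1-r²)^γ r³ dr = W^{2+γ} π²/((γ+1)(γ+2))` (polar coordinates: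
`integral_fun_norm_addHaar` / lintegral version, volume of the unit ball of `ℝ⁴` is `π²/2`; if `V x ≥ 0` both sides vanish).  `(2π)^{-4} π² = 1/(16π²)`.
`riesz_eq`: `t_j = |e_j|_-`; `τ < t_j ⟹ j+1 ≤ N4 W τ ⟹ τ ≤ t_j` (a `(j+1)`-dimensional space with `sup energy < -τ`; conversely a negative space for `form4 W τ`); so
`#{j : t_j > τ} = N4 W τ` for a.e. `τ > 0` and `Σ_j t_j^γ = ∫ γτ^{γ-1} #{j : t_j > τ} dτ`.
-/

open MeasureTheory Set
open scoped ENNReal NNReal

namespace Pool.Agent.RLT40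

/-! ### test functions -/

theorem rc_norm_gradient {n : ℕ} (u : En n → ℝ) (x : En n) : ‖gradient u x‖ = ‖fderiv ℝ u x‖ := by
  unfold gradient
  exact LinearIsometryEquiv.norm_map _ _

theorem rc_int_grad {n : ℕ} {u : En n → ℝ} (hu : u ∈ Test n) :
    Integrable fun x => ‖gradient u x‖ ^ 2 := by
  have h1 : Continuous (fderiv ℝ u) := hu.1.continuous_fderiv (by simp)
  have h2 : HasCompactSupport (fderiv ℝ u) := hu.2.fderiv (𝕜 := ℝ)
  have h3 : Continuous fun x => ‖fderiv ℝ u x‖ ^ 2 := h1.norm.pow 2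
  have h4 : HasCompactSupport fun x => ‖fderiv ℝ u x‖ ^ 2 := by
    apply HasCompactSupport.intro h2
    intro x hx
    rw [image_eq_zero_of_notMem_tsupport hx, norm_zero]
    norm_num
  have h5 : (fun x => ‖gradient u x‖ ^ 2) = fun x => ‖fderiv ℝ u x‖ ^ 2 :=
    funext fun x => by rw [rc_norm_gradient]
  rw [h5]
  exact h3.integrable_of_hasCompactSupport h4

theorem rc_cont {n : ℕ} {u : En n → ℝ} (hu : u ∈ Test n) : Continuous u := hu.1.continuous

theorem rc_cpt_sq {n : ℕ} {u : En n → ℝ} (hu : u ∈ Test n) :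
    HasCompactSupport fun x => u x ^ 2 := hu.2.comp_left (g := fun y => y ^ 2) (by simp)

theorem rc_int_sq {n : ℕ} {u : En n → ℝ} (hu : u ∈ Test n) : Integrable fun x => u x ^ 2 :=
  ((rc_cont hu).pow 2).integrable_of_hasCompactSupport (rc_cpt_sq hu)

theorem rc_int_W {γ : ℝ} (hγ : 0 < γ) {W : En 4 → ℝ} (h : Adm4 γ W) {u : En 4 → ℝ}
    (hu : u ∈ Test 4) : Integrable fun x => W x * u x ^ 2 := by
  have h1 : LocallyIntegrable W := by
    refine h.2.1.locallyIntegrable ?_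
    rw [← ENNReal.ofReal_one]
    exact ENNReal.ofReal_le_ofReal (by linarith)
  exact h1.integrable_smul_right_of_hasCompactSupport ((rc_cont hu).pow 2) (rc_cpt_sq hu)

theorem rc_form {γ : ℝ} (hγ : 0 < γ) {W : En 4 → ℝ} (h : Adm4 γ W) (τ : ℝ) {u : En 4 → ℝ}
    (hu : u ∈ Test 4) :
    form4 W τ u = energy (fun x => -W x) u + τ * ∫ x, u x ^ 2 := by
  unfold form4 energy
  rw [← integral_const_mul, ← integral_add]
  · congr 1
    funext x
    ring
  · have := (rc_int_grad hu).sub (rc_int_W hγ h hu)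
    refine this.congr (Filter.Eventually.of_forall fun x => ?_)
    simp only [Pi.sub_apply]
    ring
  · exact (rc_int_sq hu).const_mul τ

theorem rc_pos {n : ℕ} {u : En n → ℝ} (hu : u ∈ Test n) (h0 : u ≠ 0) : 0 < ∫ x, u x ^ 2 := by
  obtain ⟨x, hx⟩ := Function.ne_iff.1 h0
  exact ((rc_cont hu).pow 2).integral_pos_of_hasCompactSupport_nonneg_nonzero (rc_cpt_sq hu)
    (fun y => sq_nonneg _) (x := x) (by simpa using hx)

theorem rc_energy_smul {n : ℕ} (V : En n → ℝ) (c : ℝ) (u : En n → ℝ) (hu : u ∈ Test n) :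
    energy V (c • u) = c ^ 2 * energy V u := by
  unfold energy
  rw [← integral_const_mul]
  congr 1
  funext x
  have h1 : fderiv ℝ (c • u) x = c • fderiv ℝ u x :=
    fderiv_const_smul (hu.1.differentiable (by simp) x) c
  rw [rc_norm_gradient, rc_norm_gradient, h1, norm_smul, mul_pow, Real.norm_eq_abs, sq_abs]
  simp only [Pi.smul_apply, smul_eq_mul]
  ring

/-! ### eigenvalues and counting function -/

theorem rc_sub {V : Type*} [AddCommGroup V] [Module ℝ V] (F : Submodule ℝ V)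
    [FiniteDimensional ℝ F] {k : ℕ} (hk : k ≤ Module.finrank ℝ F) :
    ∃ F' : Submodule ℝ V, F' ≤ F ∧ Module.finrank ℝ F' = k := by
  let b := Module.finBasis ℝ F
  let v : Fin k → V := fun i => ((b (Fin.castLE hk i) : F) : V)
  have hv : LinearIndependent ℝ v := by
    have h1 : LinearIndependent ℝ (fun i : Fin k => b (Fin.castLE hk i)) :=
      b.linearIndependent.comp _ (Fin.castLE_injective hk)
    exact h1.map' F.subtype (Submodule.ker_subtype F)
  refine ⟨Submodule.span ℝ (Set.range v), ?_, ?_⟩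
  · rw [Submodule.span_le]
    rintro _ ⟨i, rfl⟩
    exact (b (Fin.castLE hk i)).2
  · rw [finrank_span_eq_card hv, Fintype.card_fin]

theorem rc_A {γ : ℝ} (hγ : 0 < γ) {W : En 4 → ℝ} (h : Adm4 γ W) {τ : ℝ} {j : ℕ}
    (hj : eig (fun x => -W x) j < -(τ : EReal)) : ((j + 1 : ℕ) : ℕ∞) ≤ N4 W τ := by
  unfold eig at hj
  rw [iInf_lt_iff] at hj
  obtain ⟨F, hF⟩ := hj
  rw [iInf_lt_iff] at hF
  obtain ⟨⟨hF1, hF2⟩, hF3⟩ := hF
  have hfd : FiniteDimensional ℝ F := by
    apply Module.finite_of_finrank_pos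
    omega
  have hneg : ∀ u ∈ F, u ≠ 0 → form4 W τ u < 0 := by
    intro u hu h0
    have hT := hF1 hu
    have hp := rc_pos hT h0
    set S := ∫ x, u x ^ 2 with hS
    set c := (Real.sqrt S)⁻¹ with hc
    have hc2 : c ^ 2 * S = 1 := by
      rw [hc, inv_pow, Real.sq_sqrt hp.le]
      exact inv_mul_cancel₀ hp.ne'
    have hcpos : 0 < c := inv_pos.2 (Real.sqrt_pos.2 hp)
    have hn : ∫ x, (c • u) x ^ 2 = 1 := by
      have : (fun x => (c • u) x ^ 2) = fun x => c ^ 2 * u x ^ 2 := by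
        funext x
        simp only [Pi.smul_apply, smul_eq_mul]
        ring
      rw [this, integral_const_mul]
      exact hc2
    have hle : ((energy (fun x => -W x) (c • u) : ℝ) : EReal) ≤
        ⨆ (u : En 4 → ℝ) (_ : u ∈ F ∧ ∫ x, u x ^ 2 = 1), ((energy (fun x => -W x) u : ℝ) : EReal) :=
      le_iSup₂_of_le (c • u) ⟨F.smul_mem c hu, hn⟩ le_rfl
    have hlt := lt_of_le_of_lt hle hF3
    rw [← EReal.coe_neg, EReal.coe_lt_coe_iff, rc_energy_smul _ _ _ hT] at hlt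
    rw [rc_form hγ h τ hT, ← hS]
    have h1 : c ^ 2 * (energy (fun x => -W x) u + τ * S) < 0 := by
      have : c ^ 2 * (energy (fun x => -W x) u + τ * S) =
          c ^ 2 * energy (fun x => -W x) u + τ * (c ^ 2 * S) := by ring
      rw [this, hc2]
      linarith
    by_contra hge
    push Not at hge
    have := mul_nonneg (sq_nonneg c) hge
    linarith
  have h2 : (Module.finrank ℝ F : ℕ∞) ≤ N4 W τ := by
    unfold N4
    exact le_iSup₂_of_le F ⟨hF1, hfd, hneg⟩ le_rfl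
  rw [hF2] at h2
  exact h2

theorem rc_B {γ : ℝ} (hγ : 0 < γ) {W : En 4 → ℝ} (h : Adm4 γ W) {τ : ℝ} {j : ℕ}
    (hj : ((j + 1 : ℕ) : ℕ∞) ≤ N4 W τ) : eig (fun x => -W x) j ≤ -(τ : EReal) := by
  have h1 : (j : ℕ∞) < N4 W τ := lt_of_lt_of_le (by exact_mod_cast Nat.lt_succ_self j) hj
  unfold N4 at h1
  rw [lt_iSup_iff] at h1
  obtain ⟨F, hF⟩ := h1
  rw [lt_iSup_iff] at hF
  obtain ⟨⟨hF1, hF2, hF3⟩, hF4⟩ := hF
  have hF5 : j + 1 ≤ Module.finrank ℝ F := by exact_mod_cast hF4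
  obtain ⟨F', hF', hF'2⟩ := rc_sub F hF5
  have hT : F' ≤ Test 4 := hF'.trans hF1
  unfold eig
  refine iInf₂_le_of_le F' ⟨hT, hF'2⟩ ?_
  refine iSup₂_le fun u hu => ?_
  rw [← EReal.coe_neg, EReal.coe_le_coe_iff]
  have hne : u ≠ 0 := by
    rintro rfl
    have := hu.2
    simp at this
  have h2 := hF3 u (hF' hu.1) hne
  rw [rc_form hγ h τ (hT hu.1), hu.2] at h2
  linarith

/-! ### layer cake -/

theorem rc_negPow {γ : ℝ} (hγ : 0 < γ) (e : EReal) : negPow γ e = (-e).toENNReal ^ γ := by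
  unfold negPow
  split_ifs with h
  · rfl
  · rw [EReal.toENNReal_of_nonpos, ENNReal.zero_rpow_of_pos hγ]
    rw [EReal.neg_le, neg_zero]
    exact not_lt.1 h

theorem rc_lt {τ : ℝ} (e : EReal) (h : ENNReal.ofReal τ < (-e).toENNReal) :
    e < -(τ : EReal) := by
  by_contra h1
  push Not at h1
  have h2 : -e ≤ (τ : EReal) := by
    rw [EReal.neg_le]
    exact h1
  have h3 := EReal.toENNReal_le_toENNReal h2
  rw [EReal.toENNReal_of_ne_top (EReal.coe_ne_top τ), EReal.toReal_coe] at h3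
  exact absurd h (not_lt.2 h3)

theorem rc_le {τ : ℝ} (e : EReal) (h : e ≤ -(τ : EReal)) :
    ENNReal.ofReal τ ≤ (-e).toENNReal := by
  have h2 : (τ : EReal) ≤ -e := by
    rw [EReal.le_neg]
    exact h
  have h3 := EReal.toENNReal_le_toENNReal h2
  rwa [EReal.toENNReal_of_ne_top (EReal.coe_ne_top τ), EReal.toReal_coe] at h3

theorem rc_layer_real {γ : ℝ} (hγ : 0 < γ) {t : ℝ} (ht : 0 ≤ t) :
    ∫⁻ τ in Ioi (0 : ℝ), ENNReal.ofReal (γ * τ ^ (γ - 1)) *
      (if ENNReal.ofReal τ < ENNReal.ofReal t then 1 else 0) = ENNReal.ofReal t ^ γ := by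
  have h := lintegral_rpow_eq_lintegral_meas_lt_mul (Measure.dirac ()) (f := fun _ => t)
    (Filter.Eventually.of_forall fun _ => ht) measurable_const.aemeasurable hγ
  rw [lintegral_dirac, ← ENNReal.ofReal_rpow_of_nonneg ht hγ.le] at h
  rw [h, ← lintegral_const_mul' _ _ ENNReal.ofReal_ne_top]
  refine setLIntegral_congr_fun measurableSet_Ioi fun τ hτ => ?_
  have hτ' : (0 : ℝ) < τ := hτ
  rw [ENNReal.ofReal_mul hγ.le, mul_assoc]
  congr 1
  rw [mul_comm]
  congr 1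
  by_cases hc : τ < t
  · have h1 : ENNReal.ofReal τ < ENNReal.ofReal t :=
      (ENNReal.ofReal_lt_ofReal_iff (hτ'.trans hc)).2 hc
    rw [if_pos h1]
    simp [hc]
  · have h1 : ¬ ENNReal.ofReal τ < ENNReal.ofReal t := by
      rw [not_lt]
      exact ENNReal.ofReal_le_ofReal (not_lt.1 hc)
    rw [if_neg h1]
    simp [hc]

theorem rc_layer {γ : ℝ} (hγ : 0 < γ) (t : ℝ≥0∞) :
    ∫⁻ τ in Ioi (0 : ℝ), ENNReal.ofReal (γ * τ ^ (γ - 1)) *
      (if ENNReal.ofReal τ < t then 1 else 0) = t ^ γ := by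
  by_cases ht : t = ⊤
  · subst ht
    rw [ENNReal.top_rpow_of_pos hγ]
    rw [eq_top_iff]
    have h1 : ∀ n : ℕ, ((n : ℝ≥0∞)) ^ γ ≤ ∫⁻ τ in Ioi (0 : ℝ), ENNReal.ofReal (γ * τ ^ (γ - 1)) *
        (if ENNReal.ofReal τ < ⊤ then 1 else 0) := by
      intro n
      have h2 := rc_layer_real hγ (Nat.cast_nonneg (α := ℝ) n)
      rw [ENNReal.ofReal_natCast] at h2
      rw [← h2]
      refine lintegral_mono fun τ => ?_
      refine mul_le_mul' le_rfl ?_
      rw [if_pos ENNReal.ofReal_lt_top]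
      split_ifs
      · exact le_rfl
      · exact zero_le_one
    by_contra hlt
    push Not at hlt
    set I := ∫⁻ τ in Ioi (0 : ℝ), ENNReal.ofReal (γ * τ ^ (γ - 1)) *
        (if ENNReal.ofReal τ < ⊤ then 1 else 0) with hI
    have h3 : I ^ γ⁻¹ < ⊤ := ENNReal.rpow_lt_top_of_nonneg (inv_nonneg.2 hγ.le) hlt.ne
    obtain ⟨n, hn⟩ := ENNReal.exists_nat_gt h3.ne
    have h4 := h1 n
    have h5 : I < (n : ℝ≥0∞) ^ γ := by
      have := ENNReal.rpow_lt_rpow hn hγ
      rwa [← ENNReal.rpow_mul, inv_mul_cancel₀ hγ.ne', ENNReal.rpow_one] at this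
    exact absurd h5 (not_lt.2 h4)
  · have h1 := rc_layer_real hγ (t := t.toReal) ENNReal.toReal_nonneg
    rwa [ENNReal.ofReal_toReal ht] at h1

theorem rc_tsum (N : ℕ∞) :
    ∑' j : ℕ, (if (j : ℕ∞) < N then (1 : ℝ≥0∞) else 0) = (N : ℝ≥0∞) := by
  induction N using ENat.recTopCoe with
  | top =>
    have : ∀ j : ℕ, (if (j : ℕ∞) < ⊤ then (1 : ℝ≥0∞) else 0) = 1 := fun j =>
      if_pos (ENat.natCast_lt_top j)
    simp only [this, ENat.toENNReal_top]
    exact ENNReal.tsum_const_eq_top_of_ne_zero one_ne_zero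
  | coe n =>
    rw [tsum_eq_sum (s := Finset.range n)]
    · rw [Finset.sum_congr rfl (g := fun _ => (1 : ℝ≥0∞))]
      · simp
      · intro j hj
        rw [if_pos]
        exact_mod_cast Finset.mem_range.1 hj
    · intro j hj
      rw [if_neg]
      intro h
      apply hj
      rw [Finset.mem_range]
      exact_mod_cast h

theorem rc_meas {γ : ℝ} (t : ℝ≥0∞) : Measurable fun τ : ℝ =>
    ENNReal.ofReal (γ * τ ^ (γ - 1)) * (if ENNReal.ofReal τ < t then (1 : ℝ≥0∞) else 0) := by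
  refine Measurable.mul (by fun_prop) ?_
  exact Measurable.ite (measurableSet_lt ENNReal.measurable_ofReal measurable_const)
    measurable_const measurable_const

theorem riesz_eq {γ : ℝ} (hγ : 0 < γ) {W : En 4 → ℝ} (h : Adm4 γ W) : riesz γ (fun x => -W x) = ∫⁻ τ in Ioi (0 : ℝ), ENNReal.ofReal (γ * τ ^ (γ - 1)) * ((N4 W τ : ℕ∞) : ℝ≥0∞) := by
  unfold riesz
  set t : ℕ → ℝ≥0∞ := fun j => (-(eig (fun x => -W x) j)).toENNReal with ht
  have h1 : ∀ j, negPow γ (eig (fun x => -W x) j) = ∫⁻ τ in Ioi (0 : ℝ),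
      ENNReal.ofReal (γ * τ ^ (γ - 1)) * (if ENNReal.ofReal τ < t j then 1 else 0) := by
    intro j
    rw [rc_negPow hγ, rc_layer hγ]
  simp only [h1]
  rw [← lintegral_tsum (fun j => (rc_meas (t j)).aemeasurable)]
  have hc : (Set.range fun j => (t j).toReal).Countable := Set.countable_range _
  have hae : ∀ᵐ τ ∂(volume.restrict (Ioi (0 : ℝ))), τ ∉ Set.range fun j => (t j).toReal :=
    ae_restrict_of_ae (hc.ae_notMem volume)
  refine lintegral_congr_ae ?_
  filter_upwards [hae, ae_restrict_mem measurableSet_Ioi] with τ hτ1 hτ0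
  have hτ : 0 < τ := hτ0
  rw [ENNReal.tsum_mul_left, ← rc_tsum (N4 W τ)]
  congr 1
  refine tsum_congr fun j => ?_
  have hiff : ENNReal.ofReal τ < t j ↔ (j : ℕ∞) < N4 W τ := by
    constructor
    · intro hlt
      have := rc_A hγ h (rc_lt _ hlt)
      refine lt_of_lt_of_le ?_ this
      exact_mod_cast Nat.lt_succ_self j
    · intro hlt
      have h2 : ((j + 1 : ℕ) : ℕ∞) ≤ N4 W τ := by
        have := Order.add_one_le_of_lt hlt
        exact_mod_cast this
      have h3 : ENNReal.ofReal τ ≤ t j := rc_le _ (rc_B hγ h h2)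
      refine lt_of_le_of_ne h3 fun heq => hτ1 ⟨j, ?_⟩
      simp only
      rw [← heq, ENNReal.toReal_ofReal hτ.le]
  by_cases hj : (j : ℕ∞) < N4 W τ
  · rw [if_pos hj, if_pos (hiff.2 hj)]
  · rw [if_neg hj, if_neg (fun h => hj (hiff.1 h))]

end Pool.Agent.RLT40
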