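import Pool.Agent.RLT40.GNDef

/-!
# Modules TWO1, TWO2, TWO3 (paper 2.A6).

TWO1 `bub4_of_bubble`: `ψ(x) = f(log|x|)/|x|` for `x ≠ 0`, `ψ(0) = lim` (exists by Bubble.left: `(f e^{-t})' = (g-f)e^{-t} = O(e^{2t})`), `∇ψ(x) = (g-f)(log|x|) x/|x|³`, `∇ψ(0) = 0`; `V(x) = U(log|x|)/|x|²` = `Hd(ψ²)`.
weak: along each ray `∫_0^∞ ψ'(r) ∂_r h r³ dr = -∫ (r³ψ')' h dr`, `(r³ψ')' = r³(1-V)ψ`; polar coordinates.  norms: `∫ F(|x|)dx = 2π²∫F r³dr`.

Notation of the proof: `h = f e^{-t}`, `y = h' = (g-f) e^{-t}`, `y' = (ω-U) h - 2y`.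
-/

open MeasureTheory Set
open scoped ENNReal NNReal

namespace Pool.Agent.RLT40

/-- `h = f e^{-t}` -/
noncomputable def TwoA_h (f : ℝ → ℝ) (t : ℝ) : ℝ := f t * Real.exp (-t)

/-- `y = h' = (g - f) e^{-t}` -/
noncomputable def TwoA_y (f g : ℝ → ℝ) (t : ℝ) : ℝ := (g t - f t) * Real.exp (-t)

section one

variable {γ C₁ : ℝ} {f g U : ℝ → ℝ}

theorem TwoA_h_deriv (B : Bubble γ C₁ f g U) (t : ℝ) : HasDerivAt (TwoA_h f) (TwoA_y f g t) t := by
  have h1 := B.sol.d1 t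
  have h2 : HasDerivAt (fun t : ℝ => Real.exp (-t)) (-Real.exp (-t)) t := by
    simpa using (hasDerivAt_neg t).exp
  refine (h1.mul h2).congr_deriv ?_
  unfold TwoA_y; ring

theorem TwoA_y_deriv (B : Bubble γ C₁ f g U) (t : ℝ) :
    HasDerivAt (TwoA_y f g) ((om t - U t) * TwoA_h f t - 2 * TwoA_y f g t) t := by
  have h1 := B.sol.d1 t
  have h1' := B.sol.d2 t
  have h2 : HasDerivAt (fun t : ℝ => Real.exp (-t)) (-Real.exp (-t)) t := by
    simpa using (hasDerivAt_neg t).exp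
  refine ((h1'.sub h1).mul h2).congr_deriv ?_
  simp only [Pi.sub_apply]
  unfold TwoA_y TwoA_h; ring

theorem TwoA_h_pos (B : Bubble γ C₁ f g U) (t : ℝ) : 0 < TwoA_h f t := mul_pos (B.pos t) (Real.exp_pos _)

theorem TwoA_h_cont (B : Bubble γ C₁ f g U) : Continuous (TwoA_h f) :=
  continuous_iff_continuousAt.2 fun t => (TwoA_h_deriv B t).continuousAt

theorem TwoA_y_cont (B : Bubble γ C₁ f g U) : Continuous (TwoA_y f g) :=
  continuous_iff_continuousAt.2 fun t => (TwoA_y_deriv B t).continuousAt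

theorem TwoA_C'_pos (B : Bubble γ C₁ f g U) : 0 < C₁ / (2 * Real.pi ^ 2) := by
  have := B.C_pos; have := Real.pi_pos; positivity

theorem TwoA_U (hγ : 0 < γ) (B : Bubble γ C₁ f g U) (t : ℝ) :
    U t = Hd γ (C₁ / (2 * Real.pi ^ 2)) (TwoA_h f t ^ 2) * Real.exp (2 * t) := by
  have hC := B.C_pos
  have hpi := Real.pi_pos
  have hU := B.U_pos t
  have hf := B.pos t
  have e1 : U t ^ (1 + γ) = (γ * TwoA_h f t ^ 2 / ((2 + γ) * (C₁ / (2 * Real.pi ^ 2)))) * Real.exp (2 * t) ^ (1 + γ) := by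
    have h := B.U_eq t
    have h2 : Real.exp (2 * t) ^ (1 + γ) = Real.exp (2 * t) * Real.exp (2 * γ * t) := by
      rw [← Real.exp_mul, ← Real.exp_add]; congr 1; ring
    have h3 : TwoA_h f t ^ 2 * Real.exp (2 * t) = f t ^ 2 := by
      unfold TwoA_h
      rw [mul_pow, ← Real.exp_nat_mul, mul_assoc, ← Real.exp_add]
      have : ((2 : ℕ) : ℝ) * (-t) + 2 * t = 0 := by push_cast; ring
      rw [this, Real.exp_zero, mul_one]
    rw [h2]
    have h4 : γ * TwoA_h f t ^ 2 / ((2 + γ) * (C₁ / (2 * Real.pi ^ 2))) * (Real.exp (2 * t) * Real.exp (2 * γ * t)) =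
        γ * (TwoA_h f t ^ 2 * Real.exp (2 * t)) * Real.exp (2 * γ * t) / ((2 + γ) * (C₁ / (2 * Real.pi ^ 2))) := by ring
    rw [h4, h3]
    rw [eq_div_iff (by positivity)]
    have h5 : U t ^ (1 + γ) * ((2 + γ) * (C₁ / (2 * Real.pi ^ 2))) = ((2 + γ) * C₁ * U t ^ (1 + γ)) / (2 * Real.pi ^ 2) := by ring
    rw [h5, h]
    field_simp
  have e2 : U t = (U t ^ (1 + γ)) ^ (1 / (1 + γ)) := by
    rw [← Real.rpow_mul hU.le, mul_one_div_cancel (by linarith), Real.rpow_one]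
  have h6 : 0 ≤ γ * TwoA_h f t ^ 2 / ((2 + γ) * (C₁ / (2 * Real.pi ^ 2))) := by positivity
  rw [e2, e1, Real.mul_rpow h6 (Real.rpow_nonneg (Real.exp_pos _).le _), ← Real.rpow_mul (Real.exp_pos _).le,
    mul_one_div_cancel (by linarith), Real.rpow_one]
  rfl

theorem TwoA_Hd_mono (hγ : 0 < γ) {C' : ℝ} (hC : 0 < C') {s t : ℝ} (hs : 0 ≤ s) (hst : s ≤ t) : Hd γ C' s ≤ Hd γ C' t := by
  unfold Hd
  refine Real.rpow_le_rpow (by positivity) ?_ (by positivity)
  exact div_le_div_of_nonneg_right (mul_le_mul_of_nonneg_left hst hγ.le) (by positivity)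

theorem TwoA_Hd_cont (hγ : 0 < γ) {C' : ℝ} : Continuous (Hd γ C') := by
  unfold Hd
  refine Continuous.rpow_const (by fun_prop) fun x => Or.inr ?_
  positivity

/-- left bounds -/
theorem TwoA_left (B : Bubble γ C₁ f g U) :
    ∃ C, 0 < C ∧ ∀ t ≤ 0, TwoA_h f t ≤ C ∧ |TwoA_y f g t| ≤ C * Real.exp (2 * t) := by
  obtain ⟨C, hC⟩ := B.left
  have h0 : 0 < C := by
    have h := (hC 0 le_rfl).1
    rw [Real.exp_zero, mul_one] at h
    exact lt_of_lt_of_le (B.pos 0) h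
  refine ⟨C, h0, fun t ht => ?_⟩
  obtain ⟨h1, h2⟩ := hC t ht
  have hp := Real.exp_pos (-t)
  constructor
  · have h3 := mul_le_mul_of_nonneg_right h1 hp.le
    rw [mul_assoc, ← Real.exp_add, add_neg_cancel, Real.exp_zero, mul_one] at h3
    exact h3
  · unfold TwoA_y
    rw [abs_mul, abs_of_pos hp]
    have h3 := mul_le_mul_of_nonneg_right h2 hp.le
    rw [mul_assoc, ← Real.exp_add] at h3
    have e : 3 * t + -t = 2 * t := by ring
    rw [e] at h3
    exact h3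

/-- the limit `ℓ = h(-∞)`, with rate -/
theorem TwoA_lim (B : Bubble γ C₁ f g U) :
    ∃ ℓ, Filter.Tendsto (TwoA_h f) Filter.atBot (nhds ℓ) ∧ 0 ≤ ℓ ∧
      ∃ C, 0 < C ∧ ∀ t ≤ 0, |TwoA_h f t - ℓ| ≤ C * Real.exp (2 * t) := by
  obtain ⟨C, hC, hl⟩ := TwoA_left B
  have hint : IntegrableOn (TwoA_y f g) (Iic 0) := by
    have h1 : IntegrableOn (fun t : ℝ => C * Real.exp (2 * t)) (Iic 0) :=
      (integrableOn_exp_mul_Iic (by norm_num : (0 : ℝ) < 2) 0).const_mul C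
    refine Integrable.mono' h1 (TwoA_y_cont B).aestronglyMeasurable ?_
    exact (ae_restrict_mem measurableSet_Iic).mono fun t ht => (hl t ht).2
  have ht := tendsto_limUnder_of_hasDerivAt_of_integrableOn_Iic (fun x _ => TwoA_h_deriv B x) hint
  refine ⟨_, ht, ge_of_tendsto' ht fun t => (TwoA_h_pos B t).le, C, hC, fun t ht0 => ?_⟩
  set ℓ := Filter.atBot.limUnder (TwoA_h f) with hℓ
  have h2 : ∫ s in Iic t, TwoA_y f g s = TwoA_h f t - ℓ :=
    integral_Iic_of_hasDerivAt_of_tendsto' (fun x _ => TwoA_h_deriv B x) (hint.mono_set (Iic_subset_Iic.2 ht0)) ht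
  rw [← h2]
  have h3 : |∫ s in Iic t, TwoA_y f g s| ≤ ∫ s in Iic t, C * Real.exp (2 * s) := by
    rw [← Real.norm_eq_abs]
    refine norm_integral_le_of_norm_le ((integrableOn_exp_mul_Iic (by norm_num : (0 : ℝ) < 2) t).const_mul C) ?_
    exact (ae_restrict_mem measurableSet_Iic).mono fun s hs => (hl s (le_trans hs ht0)).2
  refine h3.trans ?_
  rw [integral_const_mul, integral_exp_mul_Iic (by norm_num : (0 : ℝ) < 2)]
  have := Real.exp_pos (2 * t)
  nlinarith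

/-- the limit is positive -/
theorem TwoA_lim_pos (hγ : 0 < γ) (B : Bubble γ C₁ f g U) {ℓ : ℝ} (hl : Filter.Tendsto (TwoA_h f) Filter.atBot (nhds ℓ))
    (h0 : 0 ≤ ℓ) : 0 < ℓ := by
  obtain ⟨C, hC, hb⟩ := TwoA_left B
  have hC' := TwoA_C'_pos B
  -- |ω - U| ≤ K e^{2t}
  set K := 1 + Hd γ (C₁ / (2 * Real.pi ^ 2)) (C ^ 2) with hK
  have hH0 : ∀ s, 0 ≤ s → 0 ≤ Hd γ (C₁ / (2 * Real.pi ^ 2)) s := fun s hs => Real.rpow_nonneg (by positivity) _
  have hK0 : 0 < K := by have := hH0 (C ^ 2) (sq_nonneg _); linarith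
  have hW : ∀ t ≤ 0, |om t - U t| ≤ K * Real.exp (2 * t) := by
    intro t ht
    have h1 := TwoA_Hd_mono hγ hC' (sq_nonneg (TwoA_h f t))
      (pow_le_pow_left₀ (TwoA_h_pos B t).le (hb t ht).1 2)
    have h2 := hH0 (TwoA_h f t ^ 2) (sq_nonneg _)
    have he := Real.exp_pos (2 * t)
    rw [TwoA_U hγ B t, om]
    have h3 := mul_le_mul_of_nonneg_right h1 he.le
    have h4 := mul_nonneg h2 he.le
    rw [abs_le]
    constructor
    · rw [hK]; nlinarith
    · rw [hK]; nlinarith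
  set F : ℝ → ℝ := fun t => (TwoA_h f t + TwoA_y f g t / 2) ^ 2 + TwoA_y f g t ^ 2 with hF
  set F' : ℝ → ℝ := fun t => (om t - U t) * TwoA_h f t * ((TwoA_h f t + TwoA_y f g t / 2) + 2 * TwoA_y f g t) -
    4 * TwoA_y f g t ^ 2 with hF'
  have hFd : ∀ t, HasDerivAt F (F' t) t := by
    intro t
    have h1 := TwoA_h_deriv B t
    have h2 := TwoA_y_deriv B t
    refine (((h1.add (h2.div_const 2)).pow 2).add (h2.pow 2)).congr_deriv ?_
    simp only [Pi.add_apply, hF']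
    push_cast
    ring
  have hF0 : ∀ t, 0 ≤ F t := fun t => by rw [hF]; positivity
  have hF'le : ∀ t ≤ 0, F' t ≤ 3 * K * Real.exp (2 * t) * F t := by
    intro t ht
    set H := TwoA_h f t + TwoA_y f g t / 2 with hH
    set y := TwoA_y f g t with hy
    have hh : TwoA_h f t = H - y / 2 := by rw [hH]; ring
    have h1 : F' t = (om t - U t) * ((H - y / 2) * (H + 2 * y)) - 4 * y ^ 2 := by
      rw [hF']; simp only []; rw [← hH, ← hy, hh]; ring
    have h2 : F t = H ^ 2 + y ^ 2 := by rw [hF]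
    rw [h1, h2]
    have h3 : (om t - U t) * ((H - y / 2) * (H + 2 * y)) ≤ |om t - U t| * |(H - y / 2) * (H + 2 * y)| := by
      rw [← abs_mul]; exact le_abs_self _
    have h4 : |(H - y / 2) * (H + 2 * y)| ≤ 3 * (H ^ 2 + y ^ 2) := by
      rw [abs_le]
      constructor
      · nlinarith [sq_nonneg (H + y), sq_nonneg (H - y)]
      · nlinarith [sq_nonneg (H + y), sq_nonneg (H - y)]
    have h5 : |om t - U t| * |(H - y / 2) * (H + 2 * y)| ≤ (K * Real.exp (2 * t)) * (3 * (H ^ 2 + y ^ 2)) :=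
      mul_le_mul (hW t ht) h4 (abs_nonneg _) (by positivity)
    nlinarith [sq_nonneg y]
  set G : ℝ → ℝ := fun t => F t * Real.exp (-(3 * K / 2 * Real.exp (2 * t))) with hG
  have hGd : ∀ t, HasDerivAt G ((F' t - 3 * K * Real.exp (2 * t) * F t) * Real.exp (-(3 * K / 2 * Real.exp (2 * t)))) t := by
    intro t
    have h1 : HasDerivAt (fun t : ℝ => Real.exp (2 * t)) (Real.exp (2 * t) * 2) t := by
      simpa using ((hasDerivAt_id t).const_mul 2).exp
    have h2 := ((h1.const_mul (3 * K / 2)).neg).exp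
    refine ((hFd t).mul h2).congr_deriv ?_
    simp only [Pi.neg_apply]
    ring
  have hanti : AntitoneOn G (Iic 0) := by
    refine antitoneOn_of_deriv_nonpos (convex_Iic 0) (fun t _ => (hGd t).continuousAt.continuousWithinAt)
      (fun t _ => (hGd t).differentiableAt.differentiableWithinAt) fun t ht => ?_
    rw [interior_Iic] at ht
    rw [(hGd t).deriv]
    refine mul_nonpos_of_nonpos_of_nonneg ?_ (Real.exp_pos _).le
    have := hF'le t (le_of_lt ht)
    linarith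
  have hG0 : 0 < G 0 := by
    refine mul_pos ?_ (Real.exp_pos _)
    rcases (hF0 0).eq_or_lt with h | h
    · exfalso
      have h1 : (TwoA_h f 0 + TwoA_y f g 0 / 2) ^ 2 + TwoA_y f g 0 ^ 2 = 0 := h.symm
      have h2 : TwoA_y f g 0 = 0 := by
        have := sq_nonneg (TwoA_h f 0 + TwoA_y f g 0 / 2)
        have h3 : TwoA_y f g 0 ^ 2 = 0 := by nlinarith [sq_nonneg (TwoA_y f g 0)]
        exact pow_eq_zero_iff (two_ne_zero) |>.1 h3
      rw [h2] at h1
      have h3 := TwoA_h_pos B 0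
      nlinarith
    · exact h
  have hGF : ∀ t, G t ≤ F t := fun t => by
    have h1 : Real.exp (-(3 * K / 2 * Real.exp (2 * t))) ≤ 1 := Real.exp_le_one_iff.2 (by
      have := Real.exp_pos (2 * t)
      have : 0 ≤ 3 * K / 2 * Real.exp (2 * t) := by positivity
      linarith)
    calc G t = F t * Real.exp (-(3 * K / 2 * Real.exp (2 * t))) := rfl
      _ ≤ F t * 1 := mul_le_mul_of_nonneg_left h1 (hF0 t)
      _ = F t := mul_one _
  have hy0 : Filter.Tendsto (TwoA_y f g) Filter.atBot (nhds 0) := by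
    refine squeeze_zero_norm' (a := fun t => C * Real.exp (2 * t)) ?_ ?_
    · filter_upwards [Filter.eventually_le_atBot 0] with t ht
      exact (hb t ht).2
    · have h1 : Filter.Tendsto (fun t : ℝ => Real.exp (2 * t)) Filter.atBot (nhds 0) :=
        Real.tendsto_exp_atBot.comp (Filter.tendsto_id.const_mul_atBot (by norm_num))
      simpa using h1.const_mul C
  have hFl : Filter.Tendsto F Filter.atBot (nhds (ℓ ^ 2)) := by
    have h1 := (((hl.add (hy0.div_const 2)).pow 2).add (hy0.pow 2))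
    simpa using h1
  have h1 : G 0 ≤ ℓ ^ 2 := by
    refine ge_of_tendsto hFl ?_
    filter_upwards [Filter.eventually_le_atBot 0] with t ht
    exact (hanti ht (mem_Iic.2 le_rfl) ht).trans (hGF t)
  rcases h0.eq_or_lt with h | h
  · rw [← h] at h1; norm_num at h1; linarith
  · exact h

end one


/-! ### polar coordinates -/

theorem TwoA_volIoi (G : ℝ → ℝ) :
    ∫ r : Ioi (0 : ℝ), G r ∂(Measure.volumeIoiPow 3) = ∫ r in Ioi (0 : ℝ), r ^ 3 * G r := by
  simp only [Measure.volumeIoiPow, ENNReal.ofReal]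
  rw [integral_withDensity_eq_integral_smul ((measurable_subtype_coe.pow_const _).real_toNNReal),
    integral_subtype_comap measurableSet_Ioi fun a ↦ Real.toNNReal (a ^ 3) • G a,
    setIntegral_congr_fun measurableSet_Ioi fun x hx ↦ ?_]
  have hx' : (0 : ℝ) < x := hx
  simp only [NNReal.smul_def, smul_eq_mul, Real.coe_toNNReal _ (pow_nonneg hx'.le 3)]

/-- if all ray integrals vanish, the integral vanishes -/
theorem TwoA_polar {F : En 4 → ℝ} (hF : Integrable F)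
    (h : ∀ θ : Metric.sphere (0 : En 4) 1, ∫ r in Ioi (0 : ℝ), r ^ 3 * F (r • (θ : En 4)) = 0) : ∫ x, F x = 0 := by
  have hmp := (volume : Measure (En 4)).measurePreserving_homeomorphUnitSphereProd
  have hdim : Module.finrank ℝ (En 4) - 1 = 3 := by simp
  rw [hdim] at hmp
  set G : Metric.sphere (0 : En 4) 1 × Ioi (0 : ℝ) → ℝ := fun p => F ((p.2 : ℝ) • (p.1 : En 4)) with hG
  have e1 : ∀ x : ({0}ᶜ : Set (En 4)), G (homeomorphUnitSphereProd (En 4) x) = F x := by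
    intro x
    have hx : ‖(x : En 4)‖ ≠ 0 := norm_ne_zero_iff.2 x.2
    simp only [hG]
    congr 1
    rw [homeomorphUnitSphereProd_apply_snd_coe, homeomorphUnitSphereProd_apply_fst_coe, smul_smul,
      mul_inv_cancel₀ hx, one_smul]
  have e2 : ∫ x, F x = ∫ x : ({0}ᶜ : Set (En 4)), F x ∂((volume : Measure (En 4)).comap (↑)) := by
    rw [integral_subtype_comap (measurableSet_singleton _).compl F, restrict_compl_singleton]
  have e3 : ∫ x : ({0}ᶜ : Set (En 4)), F x ∂((volume : Measure (En 4)).comap (↑)) =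
      ∫ p, G p ∂((volume : Measure (En 4)).toSphere.prod (Measure.volumeIoiPow 3)) := by
    rw [← hmp.integral_comp (Homeomorph.measurableEmbedding _) G]
    exact integral_congr_ae (Filter.Eventually.of_forall fun x => (e1 x).symm)
  have hi : Integrable G ((volume : Measure (En 4)).toSphere.prod (Measure.volumeIoiPow 3)) := by
    rw [← hmp.integrable_comp_emb (Homeomorph.measurableEmbedding _)]
    have h1 : IntegrableOn F ({0}ᶜ : Set (En 4)) volume := hF.integrableOn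
    rw [integrableOn_iff_comap_subtypeVal (measurableSet_singleton _).compl] at h1
    refine h1.congr (Filter.Eventually.of_forall fun x => ?_)
    exact (e1 x).symm
  rw [e2, e3, integral_prod _ hi]
  have : ∀ θ : Metric.sphere (0 : En 4) 1, ∫ r : Ioi (0 : ℝ), G (θ, r) ∂(Measure.volumeIoiPow 3) = 0 := by
    intro θ
    exact (TwoA_volIoi (fun r => F (r • (θ : En 4)))).trans (h θ)
  simp only [this, integral_zero]

theorem TwoA_volball : (volume : Measure (En 4)).real (Metric.ball 0 1) = Real.pi ^ 2 / 2 := by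
  rw [Measure.real, EuclideanSpace.volume_ball]
  have hcard : Fintype.card (Fin 4) = 4 := by simp
  rw [hcard]
  have hG : Real.Gamma (((4 : ℕ) : ℝ) / 2 + 1) = 2 := by
    have : (((4 : ℕ) : ℝ) / 2 + 1) = ((2 : ℕ) : ℝ) + 1 := by norm_num
    rw [this, Real.Gamma_nat_eq_factorial]
    norm_num
  rw [hG]
  have hpi : Real.sqrt Real.pi ^ 4 = Real.pi ^ 2 := by
    have : Real.sqrt Real.pi ^ 4 = (Real.sqrt Real.pi ^ 2) ^ 2 := by ring
    rw [this, Real.sq_sqrt Real.pi_pos.le]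
  rw [hpi, ENNReal.ofReal_one, one_pow, one_mul, ENNReal.toReal_ofReal (by positivity)]

/-- integrals of radial functions, in logarithmic coordinates -/
theorem TwoA_radial (G : ℝ → ℝ) :
    ∫ x : En 4, G ‖x‖ = 2 * Real.pi ^ 2 * ∫ t : ℝ, Real.exp (4 * t) * G (Real.exp t) := by
  rw [integral_fun_norm_addHaar (volume : Measure (En 4)) G, TwoA_volball]
  have h1 : ∫ y in Ioi (0 : ℝ), y ^ (Module.finrank ℝ (En 4) - 1) • G y = ∫ t : ℝ, Real.exp (4 * t) * G (Real.exp t) := by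
    have h2 := integral_image_eq_integral_abs_deriv_smul (s := (univ : Set ℝ)) (f := Real.exp) (f' := Real.exp) MeasurableSet.univ
      (fun x _ => (Real.hasDerivAt_exp x).hasDerivWithinAt) Real.exp_injective.injOn
      (fun y => y ^ (Module.finrank ℝ (En 4) - 1) • G y)
    rw [image_univ, Real.range_exp] at h2
    rw [h2, setIntegral_univ]
    refine integral_congr_ae (Filter.Eventually.of_forall fun t => ?_)
    have hdim : Module.finrank ℝ (En 4) - 1 = 3 := by simp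
    simp only [hdim, smul_eq_mul]
    rw [abs_of_pos (Real.exp_pos t), ← mul_assoc, ← Real.exp_nat_mul, ← Real.exp_add]
    congr 2; push_cast; ring
  rw [h1]
  have hdim : Module.finrank ℝ (En 4) = 4 := by simp
  rw [hdim, nsmul_eq_mul, smul_eq_mul]
  push_cast
  ring

/-! ### the bubble -/

section four

variable {γ C₁ : ℝ} {f g U : ℝ → ℝ}

/-- radial profile -/
noncomputable def TwoA_rad (f : ℝ → ℝ) (ℓ r : ℝ) : ℝ := if r = 0 then ℓ else TwoA_h f (Real.log r)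

/-- the bubble -/
noncomputable def TwoA_psi (f : ℝ → ℝ) (ℓ : ℝ) (x : En 4) : ℝ := TwoA_rad f ℓ ‖x‖

/-- its gradient -/
noncomputable def TwoA_gv (f g : ℝ → ℝ) (x : En 4) : En 4 := (TwoA_y f g (Real.log ‖x‖) / ‖x‖ ^ 2) • x

theorem TwoA_psi_ne (f : ℝ → ℝ) (ℓ : ℝ) {x : En 4} (hx : x ≠ 0) : TwoA_psi f ℓ x = TwoA_h f (Real.log ‖x‖) := by
  unfold TwoA_psi TwoA_rad
  rw [if_neg (norm_ne_zero_iff.2 hx)]

theorem TwoA_psi_zero (f : ℝ → ℝ) (ℓ : ℝ) : TwoA_psi f ℓ 0 = ℓ := by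
  unfold TwoA_psi TwoA_rad
  rw [norm_zero, if_pos rfl]

theorem TwoA_gv_norm (f g : ℝ → ℝ) {x : En 4} (hx : x ≠ 0) : ‖TwoA_gv f g x‖ = |TwoA_y f g (Real.log ‖x‖)| / ‖x‖ := by
  unfold TwoA_gv
  have h := norm_pos_iff.2 hx
  rw [norm_smul, Real.norm_eq_abs, abs_div, abs_of_pos (pow_pos h 2)]
  field_simp

theorem TwoA_grad (B : Bubble γ C₁ f g U) {ℓ C : ℝ} (hC : ∀ t ≤ 0, |TwoA_h f t - ℓ| ≤ C * Real.exp (2 * t)) (x : En 4) :
    HasGradientAt (TwoA_psi f ℓ) (TwoA_gv f g x) x := by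
  rw [hasGradientAt_iff_hasFDerivAt]
  by_cases hx : x = 0
  · subst hx
    have e : TwoA_gv f g 0 = 0 := by unfold TwoA_gv; simp
    rw [e, map_zero]
    have h1 : (fun z : En 4 => TwoA_psi f ℓ z - ℓ) =O[nhds 0] fun z => ‖z - 0‖ ^ 2 := by
      refine Asymptotics.IsBigO.of_bound C ?_
      filter_upwards [Metric.ball_mem_nhds (0 : En 4) one_pos] with z hz
      rw [mem_ball_zero_iff] at hz
      rw [sub_zero, Real.norm_of_nonneg (pow_nonneg (norm_nonneg z) 2), Real.norm_eq_abs]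
      by_cases hz0 : z = 0
      · subst hz0
        rw [TwoA_psi_zero]; simp
      · rw [TwoA_psi_ne f ℓ hz0]
        have hp := norm_pos_iff.2 hz0
        have h2 := hC (Real.log ‖z‖) (Real.log_nonpos hp.le hz.le)
        have h3 : Real.exp (2 * Real.log ‖z‖) = ‖z‖ ^ 2 := by
          rw [two_mul, Real.exp_add, Real.exp_log hp]; ring
        rwa [h3] at h2
    have h2 := h1.hasFDerivAt (𝕜 := ℝ) one_lt_two
    have h3 := h2.add_const ℓ
    simpa using h3
  · have hp := norm_pos_iff.2 hx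
    have h1 : HasFDerivAt (fun z : En 4 => ‖z‖ ^ 2) (2 • innerSL ℝ x) x := (hasStrictFDerivAt_norm_sq x).hasFDerivAt
    have h2 : HasDerivAt (fun s : ℝ => TwoA_h f (Real.log s / 2)) (TwoA_y f g (Real.log (‖x‖ ^ 2) / 2) * ((‖x‖ ^ 2)⁻¹ / 2)) (‖x‖ ^ 2) := by
      have h3 := (Real.hasDerivAt_log (pow_pos hp 2).ne').div_const 2
      exact (TwoA_h_deriv B (Real.log (‖x‖ ^ 2) / 2)).comp (‖x‖ ^ 2) h3
    have h4 := h2.comp_hasFDerivAt x h1
    have h5 : TwoA_psi f ℓ =ᶠ[nhds x] ((fun s : ℝ => TwoA_h f (Real.log s / 2)) ∘ fun z : En 4 => ‖z‖ ^ 2) := by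
      filter_upwards [isOpen_ne.mem_nhds hx] with z hz
      rw [TwoA_psi_ne f ℓ hz]
      simp only [Function.comp]
      rw [Real.log_pow]
      congr 1; push_cast; ring
    refine (h4.congr_of_eventuallyEq h5).congr_fderiv ?_
    ext z
    have h6 : Real.log (‖x‖ ^ 2) / 2 = Real.log ‖x‖ := by rw [Real.log_pow]; push_cast; ring
    rw [h6]
    simp only [ContinuousLinearMap.coe_smul', Pi.smul_apply, innerSL_apply_apply, InnerProductSpace.toDual_apply_apply, TwoA_gv, smul_eq_mul,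
      inner_smul_left, nsmul_eq_mul]
    simp
    ring

theorem TwoA_psi_cont (B : Bubble γ C₁ f g U) {ℓ C : ℝ} (hC : ∀ t ≤ 0, |TwoA_h f t - ℓ| ≤ C * Real.exp (2 * t)) :
    Continuous (TwoA_psi f ℓ) :=
  continuous_iff_continuousAt.2 fun x => (TwoA_grad B hC x).continuousAt

theorem TwoA_gv_cont (B : Bubble γ C₁ f g U) : Continuous (TwoA_gv f g) := by
  obtain ⟨C, hC, hb⟩ := TwoA_left B
  refine continuous_iff_continuousAt.2 fun x => ?_
  by_cases hx : x = 0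
  · subst hx
    have e : TwoA_gv f g 0 = 0 := by unfold TwoA_gv; simp
    rw [ContinuousAt, e]
    refine squeeze_zero_norm' (a := fun z : En 4 => C * ‖z‖) ?_ ?_
    · filter_upwards [Metric.ball_mem_nhds (0 : En 4) one_pos] with z hz
      rw [mem_ball_zero_iff] at hz
      by_cases hz0 : z = 0
      · subst hz0; rw [e]; simp
      · rw [TwoA_gv_norm f g hz0]
        have hp := norm_pos_iff.2 hz0
        have h2 := (hb (Real.log ‖z‖) (Real.log_nonpos hp.le hz.le)).2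
        have h3 : Real.exp (2 * Real.log ‖z‖) = ‖z‖ ^ 2 := by
          rw [two_mul, Real.exp_add, Real.exp_log hp]; ring
        rw [h3] at h2
        rw [div_le_iff₀ hp]
        calc _ ≤ C * ‖z‖ ^ 2 := h2
          _ = C * ‖z‖ * ‖z‖ := by ring
    · have h1 : Continuous fun z : En 4 => C * ‖z‖ := by fun_prop
      have h2 := h1.tendsto (0 : En 4)
      simpa using h2
  · have hp := norm_pos_iff.2 hx
    have c1 : ContinuousAt (fun z : En 4 => ‖z‖ ^ 2) x := by fun_prop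
    have c2 : ContinuousAt (fun z : En 4 => Real.log ‖z‖) x := continuousAt_id.norm.log hp.ne'
    have c3 : ContinuousAt (fun z : En 4 => TwoA_y f g (Real.log ‖z‖)) x :=
      ContinuousAt.comp (f := fun z : En 4 => Real.log ‖z‖) ((TwoA_y_cont B).continuousAt) c2
    exact (c3.div c1 (pow_pos hp 2).ne').smul continuousAt_id

end four


section five

variable {γ C₁ : ℝ} {f g U : ℝ → ℝ}

theorem TwoA_psi_pos (B : Bubble γ C₁ f g U) {ℓ : ℝ} (hℓ : 0 < ℓ) (x : En 4) : 0 < TwoA_psi f ℓ x := by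
  by_cases hx : x = 0
  · subst hx; rw [TwoA_psi_zero]; exact hℓ
  · rw [TwoA_psi_ne f ℓ hx]; exact TwoA_h_pos B _

theorem TwoA_rad_exp (f : ℝ → ℝ) (ℓ t : ℝ) : TwoA_rad f ℓ (Real.exp t) = TwoA_h f t := by
  unfold TwoA_rad
  rw [if_neg (Real.exp_pos t).ne', Real.log_exp]

theorem TwoA_norm (B : Bubble γ C₁ f g U) (ℓ : ℝ) : ∫ x, TwoA_psi f ℓ x ^ 2 = 1 := by
  have h := TwoA_radial (fun r => TwoA_rad f ℓ r ^ 2)
  have h2 : ∫ t : ℝ, Real.exp (4 * t) * TwoA_rad f ℓ (Real.exp t) ^ 2 = 1 / (2 * Real.pi ^ 2) := by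
    rw [← B.norm]
    refine integral_congr_ae (Filter.Eventually.of_forall fun t => ?_)
    simp only [TwoA_rad_exp, TwoA_h, om]
    rw [mul_pow, ← Real.exp_nat_mul, mul_left_comm, ← Real.exp_add, mul_comm]
    congr 2; push_cast; ring
  have h3 : ∫ x : En 4, TwoA_psi f ℓ x ^ 2 = ∫ x : En 4, (fun r => TwoA_rad f ℓ r ^ 2) ‖x‖ := rfl
  rw [h3, h, h2]
  have := Real.pi_pos
  field_simp

theorem TwoA_one (hγ : 0 < γ) (B : Bubble γ C₁ f g U) (ℓ : ℝ) :
    C₁ / (2 * Real.pi ^ 2) * ∫ x, Hd γ (C₁ / (2 * Real.pi ^ 2)) (TwoA_psi f ℓ x ^ 2) ^ (2 + γ) = 1 := by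
  have h := TwoA_radial (fun r => Hd γ (C₁ / (2 * Real.pi ^ 2)) (TwoA_rad f ℓ r ^ 2) ^ (2 + γ))
  have hC := TwoA_C'_pos B
  have h2 : ∫ t : ℝ, Real.exp (4 * t) * Hd γ (C₁ / (2 * Real.pi ^ 2)) (TwoA_rad f ℓ (Real.exp t) ^ 2) ^ (2 + γ) =
      ∫ x, U x ^ (2 + γ) * Real.exp (-(2 * γ * x)) := by
    refine integral_congr_ae (Filter.Eventually.of_forall fun t => ?_)
    simp only [TwoA_rad_exp]
    have h4 : Hd γ (C₁ / (2 * Real.pi ^ 2)) (TwoA_h f t ^ 2) = U t * Real.exp (-(2 * t)) := by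
      rw [TwoA_U hγ B t, mul_assoc, ← Real.exp_add, add_neg_cancel, Real.exp_zero, mul_one]
    rw [h4, Real.mul_rpow (B.U_pos t).le (Real.exp_pos _).le, ← Real.exp_mul, mul_left_comm, ← Real.exp_add]
    congr 2; ring
  have h3 : ∫ x : En 4, Hd γ (C₁ / (2 * Real.pi ^ 2)) (TwoA_psi f ℓ x ^ 2) ^ (2 + γ) =
    ∫ x : En 4, (fun r => Hd γ (C₁ / (2 * Real.pi ^ 2)) (TwoA_rad f ℓ r ^ 2) ^ (2 + γ)) ‖x‖ := rfl
  rw [h3, h, h2]
  have h5 := B.one
  have := Real.pi_pos
  calc C₁ / (2 * Real.pi ^ 2) * (2 * Real.pi ^ 2 * ∫ x, U x ^ (2 + γ) * Real.exp (-(2 * γ * x)))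
      = C₁ * ∫ x, U x ^ (2 + γ) * Real.exp (-(2 * γ * x)) := by field_simp
    _ = 1 := h5

theorem TwoA_up (B : Bubble γ C₁ f g U) {ℓ C : ℝ} (hC : ∀ t ≤ 0, |TwoA_h f t - ℓ| ≤ C * Real.exp (2 * t)) {ε : ℝ} (hε : 0 < ε) :
    ∃ K, ∀ x, TwoA_psi f ℓ x + ‖TwoA_gv f g x‖ ≤ K * Real.exp (-((1 - ε) * ‖x‖)) := by
  obtain ⟨C₂, hC₂⟩ := B.up ε hε
  have hc : Continuous fun x : En 4 => (TwoA_psi f ℓ x + ‖TwoA_gv f g x‖) * Real.exp ((1 - ε) * ‖x‖) :=
    ((TwoA_psi_cont B hC).add (TwoA_gv_cont B).norm).mul (by fun_prop)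
  obtain ⟨M, hM⟩ := (isCompact_closedBall (0 : En 4) 1).exists_bound_of_continuousOn hc.continuousOn
  refine ⟨max M (2 * C₂), fun x => ?_⟩
  have he := Real.exp_pos (-((1 - ε) * ‖x‖))
  rcases le_or_gt ‖x‖ 1 with hx | hx
  · have h1 := hM x (by simpa using hx)
    have h2 := (le_abs_self _).trans h1
    have h3 := mul_le_mul_of_nonneg_right h2 he.le
    rw [mul_assoc, ← Real.exp_add, add_neg_cancel, Real.exp_zero, mul_one] at h3
    exact h3.trans (mul_le_mul_of_nonneg_right (le_max_left _ _) he.le)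
  · have hp : 0 < ‖x‖ := by linarith
    have hx0 : x ≠ 0 := norm_pos_iff.1 hp
    have ht : 0 ≤ Real.log ‖x‖ := Real.log_nonneg hx.le
    have h1 := hC₂ (Real.log ‖x‖) ht
    rw [Real.exp_log hp] at h1
    have hf := B.pos (Real.log ‖x‖)
    have hE : Real.exp (-Real.log ‖x‖) ≤ 1 := Real.exp_le_one_iff.2 (by linarith)
    have hE0 := Real.exp_pos (-Real.log ‖x‖)
    have h2 : TwoA_psi f ℓ x ≤ f (Real.log ‖x‖) := by
      rw [TwoA_psi_ne f ℓ hx0, TwoA_h]
      calc _ ≤ f (Real.log ‖x‖) * 1 := mul_le_mul_of_nonneg_left hE hf.le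
        _ = _ := mul_one _
    have h3 : ‖TwoA_gv f g x‖ ≤ f (Real.log ‖x‖) + |g (Real.log ‖x‖)| := by
      rw [TwoA_gv_norm f g hx0, div_le_iff₀ hp, TwoA_y, abs_mul, abs_of_pos hE0]
      have h4 : |g (Real.log ‖x‖) - f (Real.log ‖x‖)| ≤ f (Real.log ‖x‖) + |g (Real.log ‖x‖)| := by
        rw [abs_le]
        constructor
        · have := neg_abs_le (g (Real.log ‖x‖)); linarith
        · have := le_abs_self (g (Real.log ‖x‖)); linarith
      have h5 : 0 ≤ f (Real.log ‖x‖) + |g (Real.log ‖x‖)| := (abs_nonneg _).trans h4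
      exact mul_le_mul h4 (hE.trans hx.le) hE0.le h5
    have h6 : TwoA_psi f ℓ x + ‖TwoA_gv f g x‖ ≤ 2 * C₂ * Real.exp (-((1 - ε) * ‖x‖)) := by
      have := abs_nonneg (g (Real.log ‖x‖))
      linarith
    exact h6.trans (mul_le_mul_of_nonneg_right (le_max_right _ _) he.le)

theorem TwoA_low (B : Bubble γ C₁ f g U) {ℓ C : ℝ} (hℓ : 0 < ℓ) (hC : ∀ t ≤ 0, |TwoA_h f t - ℓ| ≤ C * Real.exp (2 * t))
    {ε : ℝ} (hε : 0 < ε) : ∃ c > 0, ∀ x, c * Real.exp (-((1 + ε) * ‖x‖)) ≤ TwoA_psi f ℓ x := by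
  obtain ⟨c₂, hc₂, hl⟩ := B.low (ε / 2) (by linarith)
  have hc : Continuous fun x : En 4 => TwoA_psi f ℓ x * Real.exp ((1 + ε) * ‖x‖) :=
    (TwoA_psi_cont B hC).mul (by fun_prop)
  obtain ⟨x₀, _, hmin⟩ := (isCompact_closedBall (0 : En 4) 1).exists_isMinOn ⟨0, by simp⟩ hc.continuousOn
  set m := TwoA_psi f ℓ x₀ * Real.exp ((1 + ε) * ‖x₀‖) with hm
  have hm0 : 0 < m := mul_pos (TwoA_psi_pos B hℓ _) (Real.exp_pos _)
  refine ⟨min m (c₂ * (ε / 2)), lt_min hm0 (by positivity), fun x => ?_⟩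
  have he := Real.exp_pos (-((1 + ε) * ‖x‖))
  rcases le_or_gt ‖x‖ 1 with hx | hx
  · have h1 : m ≤ TwoA_psi f ℓ x * Real.exp ((1 + ε) * ‖x‖) := hmin (by simpa using hx)
    have h3 := mul_le_mul_of_nonneg_right ((min_le_left m (c₂ * (ε / 2))).trans h1) he.le
    rw [mul_assoc (TwoA_psi f ℓ x), ← Real.exp_add, add_neg_cancel, Real.exp_zero, mul_one] at h3
    exact h3
  · have hp : 0 < ‖x‖ := by linarith
    have hx0 : x ≠ 0 := norm_pos_iff.1 hp
    have h1 := hl (Real.log ‖x‖) (Real.log_nonneg hx.le)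
    rw [Real.exp_log hp] at h1
    have h2 : TwoA_psi f ℓ x = f (Real.log ‖x‖) / ‖x‖ := by
      rw [TwoA_psi_ne f ℓ hx0, TwoA_h, Real.exp_neg, Real.exp_log hp]; rfl
    rw [h2, le_div_iff₀ hp]
    refine le_trans ?_ h1
    have h3 : ε / 2 * ‖x‖ ≤ Real.exp (ε / 2 * ‖x‖) := by
      have := Real.add_one_le_exp (ε / 2 * ‖x‖); linarith
    have h4 := mul_le_mul_of_nonneg_right (min_le_right m (c₂ * (ε / 2))) he.le
    have h5 := mul_le_mul_of_nonneg_right h4 hp.le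
    refine h5.trans ?_
    calc c₂ * (ε / 2) * Real.exp (-((1 + ε) * ‖x‖)) * ‖x‖ = c₂ * ((ε / 2 * ‖x‖) * Real.exp (-((1 + ε) * ‖x‖))) := by ring
      _ ≤ c₂ * (Real.exp (ε / 2 * ‖x‖) * Real.exp (-((1 + ε) * ‖x‖))) :=
          mul_le_mul_of_nonneg_left (mul_le_mul_of_nonneg_right h3 he.le) hc₂.le
      _ = c₂ * Real.exp (-((1 + ε / 2) * ‖x‖)) := by rw [← Real.exp_add]; congr 2; ring

/-- `∫_0^∞ r³ e^{-r/2} < ∞` -/
theorem TwoA_int3 : IntegrableOn (fun r : ℝ => r ^ 3 * Real.exp (-(r / 2))) (Ioi 0) := by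
  have h2 := integrableOn_rpow_mul_exp_neg_mul_rpow (p := 1) (s := 3) (b := 1 / 2) (by norm_num) one_pos (by norm_num)
  refine h2.congr_fun (fun y hy => ?_) measurableSet_Ioi
  simp only [Real.rpow_one]
  congr 1
  · rw [show (3 : ℝ) = ((3 : ℕ) : ℝ) by norm_num, Real.rpow_natCast]
  · congr 1; ring

theorem TwoA_int_exp : Integrable (fun x : En 4 => Real.exp (-(‖x‖ / 2))) := by
  have h := (integrable_fun_norm_addHaar (E := En 4) (volume : Measure (En 4)) (f := fun r : ℝ => Real.exp (-(r / 2)))).2 ?_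
  · exact h
  · refine TwoA_int3.congr_fun (fun y hy => ?_) measurableSet_Ioi
    simp only [finrank_euclideanSpace_fin, smul_eq_mul]

theorem TwoA_tendsto3 (A : ℝ) : Filter.Tendsto (fun r : ℝ => A * (r ^ 3 * Real.exp (-(r / 2)))) Filter.atTop (nhds 0) := by
  have h1 := Real.tendsto_pow_mul_exp_neg_atTop_nhds_zero 3
  have h2 : Filter.Tendsto (fun r : ℝ => r / 2) Filter.atTop Filter.atTop := Filter.tendsto_id.atTop_div_const (by norm_num)
  have h3 := (h1.comp h2).const_mul (A * 8)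
  rw [mul_zero] at h3
  refine h3.congr fun r => ?_
  simp only [Function.comp]
  ring

theorem TwoA_weak (hγ : 0 < γ) (B : Bubble γ C₁ f g U) {ℓ C : ℝ} (hℓ : 0 < ℓ)
    (hC : ∀ t ≤ 0, |TwoA_h f t - ℓ| ≤ C * Real.exp (2 * t)) (k : En 4 → ℝ)
    (hk : ∀ x, HasGradientAt k (gradient k x) x) (hkc : Continuous (gradient k))
    (hkb : ∃ C, ∀ x, |k x| + ‖gradient k x‖ ≤ C * Real.exp (-(‖x‖ / 2))) :
    ∫ x, inner ℝ (TwoA_gv f g x) (gradient k x) =
      ∫ x, (Hd γ (C₁ / (2 * Real.pi ^ 2)) (TwoA_psi f ℓ x ^ 2) - 1) * (TwoA_psi f ℓ x * k x) := by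
  obtain ⟨Ck, hCk⟩ := hkb
  obtain ⟨Cu, hCu⟩ := TwoA_up B hC (ε := 1 / 2) (by norm_num)
  have hC' := TwoA_C'_pos B
  have hkcont : Continuous k := continuous_iff_continuousAt.2 fun x => (hk x).continuousAt
  have hψc := TwoA_psi_cont B hC
  have hgc := TwoA_gv_cont B
  have hψp := TwoA_psi_pos (γ := γ) (C₁ := C₁) (g := g) (U := U) B hℓ
  have eh : ∀ x : En 4, Real.exp (-((1 - 1 / 2) * ‖x‖)) = Real.exp (-(‖x‖ / 2)) := fun x => by congr 1; ring
  have hψb : ∀ x, TwoA_psi f ℓ x ≤ Cu * Real.exp (-(‖x‖ / 2)) := fun x => by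
    have h1 := hCu x; rw [eh] at h1; have := norm_nonneg (TwoA_gv f g x); linarith
  have hgb : ∀ x, ‖TwoA_gv f g x‖ ≤ Cu * Real.exp (-(‖x‖ / 2)) := fun x => by
    have h1 := hCu x; rw [eh] at h1; have := hψp x; linarith
  have hCu0 : 0 < Cu := by
    have h1 := hψb 0
    rw [norm_zero, zero_div, neg_zero, Real.exp_zero, mul_one] at h1
    exact lt_of_lt_of_le (hψp 0) h1
  have hE1 : ∀ x : En 4, Real.exp (-(‖x‖ / 2)) ≤ 1 := fun x => Real.exp_le_one_iff.2 (by have := norm_nonneg x; linarith)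
  have hψM : ∀ x, TwoA_psi f ℓ x ≤ Cu := fun x => (hψb x).trans (by
    have := mul_le_mul_of_nonneg_left (hE1 x) hCu0.le; linarith)
  have hgM : ∀ x, ‖TwoA_gv f g x‖ ≤ Cu := fun x => (hgb x).trans (by
    have := mul_le_mul_of_nonneg_left (hE1 x) hCu0.le; linarith)
  have hkb : ∀ x, |k x| ≤ Ck * Real.exp (-(‖x‖ / 2)) := fun x => by
    have h1 := hCk x; have := norm_nonneg (gradient k x); linarith
  have hgkb : ∀ x, ‖gradient k x‖ ≤ Ck * Real.exp (-(‖x‖ / 2)) := fun x => by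
    have h1 := hCk x; have := abs_nonneg (k x); linarith
  have hCk0 : 0 ≤ Ck := by
    have h1 := (abs_nonneg _).trans (hkb 0)
    rwa [norm_zero, zero_div, neg_zero, Real.exp_zero, mul_one] at h1
  have hkM : ∀ x, |k x| ≤ Ck := fun x => (hkb x).trans (by
    have := mul_le_mul_of_nonneg_left (hE1 x) hCk0; linarith)
  set V : En 4 → ℝ := fun x => Hd γ (C₁ / (2 * Real.pi ^ 2)) (TwoA_psi f ℓ x ^ 2) with hV
  have hVc : Continuous V := (TwoA_Hd_cont hγ).comp (hψc.pow 2)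
  set H₀ := Hd γ (C₁ / (2 * Real.pi ^ 2)) (Cu ^ 2) with hH₀
  have hH0 : 0 ≤ H₀ := Real.rpow_nonneg (by positivity) _
  have hV0 : ∀ x, 0 ≤ V x := fun x => Real.rpow_nonneg (by positivity) _
  have hVM : ∀ x, V x ≤ H₀ := fun x =>
    TwoA_Hd_mono hγ hC' (sq_nonneg _) (pow_le_pow_left₀ (hψp x).le (hψM x) 2)
  set F₁ : En 4 → ℝ := fun x => inner ℝ (TwoA_gv f g x) (gradient k x) with hF₁
  set F₂ : En 4 → ℝ := fun x => (V x - 1) * (TwoA_psi f ℓ x * k x) with hF₂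
  have c1 : Continuous F₁ := hgc.inner hkc
  have c2 : Continuous F₂ := (hVc.sub continuous_const).mul (hψc.mul hkcont)
  have b1 : ∀ x, |F₁ x| ≤ Cu * Ck * Real.exp (-(‖x‖ / 2)) := fun x => by
    have h1 := abs_real_inner_le_norm (TwoA_gv f g x) (gradient k x)
    calc |F₁ x| ≤ ‖TwoA_gv f g x‖ * ‖gradient k x‖ := h1
      _ ≤ Cu * (Ck * Real.exp (-(‖x‖ / 2))) := mul_le_mul (hgM x) (hgkb x) (norm_nonneg _) hCu0.le
      _ = _ := by ring
  have b2 : ∀ x, |F₂ x| ≤ (H₀ + 1) * Cu * Ck * Real.exp (-(‖x‖ / 2)) := fun x => by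
    have h1 : |V x - 1| ≤ H₀ + 1 := by
      rw [abs_le]; constructor
      · have := hV0 x; linarith
      · have := hVM x; linarith
    calc |F₂ x| = |V x - 1| * (TwoA_psi f ℓ x * |k x|) := by
          rw [hF₂]; simp only []; rw [abs_mul, abs_mul, abs_of_pos (hψp x)]
      _ ≤ (H₀ + 1) * (Cu * (Ck * Real.exp (-(‖x‖ / 2)))) :=
          mul_le_mul h1 (mul_le_mul (hψM x) (hkb x) (abs_nonneg _) hCu0.le)
            (mul_nonneg (hψp x).le (abs_nonneg _)) (by linarith)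
      _ = _ := by ring
  have i1 : Integrable F₁ := (TwoA_int_exp.const_mul (Cu * Ck)).mono' c1.aestronglyMeasurable
    (Filter.Eventually.of_forall fun x => by rw [Real.norm_eq_abs]; exact b1 x)
  have i2 : Integrable F₂ := (TwoA_int_exp.const_mul ((H₀ + 1) * Cu * Ck)).mono' c2.aestronglyMeasurable
    (Filter.Eventually.of_forall fun x => by rw [Real.norm_eq_abs]; exact b2 x)
  suffices hmain : ∫ x, (F₁ x - F₂ x) = 0 by
    rw [integral_sub i1 i2] at hmain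
    linarith
  refine TwoA_polar (i1.sub i2) fun θ => ?_
  have hθ : ‖(θ : En 4)‖ = 1 := by simpa using θ.2
  have hθ0 : (θ : En 4) ≠ 0 := by intro h; rw [h, norm_zero] at hθ; exact zero_ne_one hθ
  -- the primitive along the ray
  set Q : ℝ → ℝ := fun r => r ^ 2 * TwoA_y f g (Real.log r) * k (r • (θ : En 4)) with hQ
  have hnr : ∀ r : ℝ, 0 ≤ r → ‖r • (θ : En 4)‖ = r := fun r hr => by
    rw [norm_smul, hθ, mul_one, Real.norm_of_nonneg hr]
  have hQd : ∀ r ∈ Ioi (0 : ℝ), HasDerivAt Q (r ^ 3 * (F₁ (r • (θ : En 4)) - F₂ (r • (θ : En 4)))) r := by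
    intro r hr
    have hr0 : (0 : ℝ) < r := hr
    have hx0 : r • (θ : En 4) ≠ 0 := smul_ne_zero hr0.ne' hθ0
    have d1 : HasDerivAt (fun r : ℝ => TwoA_y f g (Real.log r))
        (((om (Real.log r) - U (Real.log r)) * TwoA_h f (Real.log r) - 2 * TwoA_y f g (Real.log r)) * r⁻¹) r :=
      (TwoA_y_deriv B (Real.log r)).comp r (Real.hasDerivAt_log hr0.ne')
    have d2 : HasDerivAt (fun r : ℝ => r • (θ : En 4)) (θ : En 4) r := by
      simpa using (hasDerivAt_id r).smul_const (θ : En 4)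
    have d3 : HasDerivAt (fun r : ℝ => k (r • (θ : En 4))) (inner ℝ (gradient k (r • (θ : En 4))) (θ : En 4)) r := by
      exact (hk (r • (θ : En 4))).hasFDerivAt.comp_hasDerivAt r d2
    have d4 : HasDerivAt (fun r : ℝ => r ^ 2) (2 * r) r := by simpa using hasDerivAt_pow 2 r
    refine ((d4.mul d1).mul d3).congr_deriv ?_
    have hexp : Real.exp (2 * Real.log r) = r ^ 2 := by
      rw [two_mul, Real.exp_add, Real.exp_log hr0]; ring
    have e1 : om (Real.log r) = r ^ 2 := hexp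
    have e2 : TwoA_psi f ℓ (r • (θ : En 4)) = TwoA_h f (Real.log r) := by
      rw [TwoA_psi_ne f ℓ hx0, hnr r hr0.le]
    have e3 : U (Real.log r) = V (r • (θ : En 4)) * r ^ 2 := by
      rw [TwoA_U hγ B, hV]
      simp only []
      rw [e2, hexp]
    have e4 : F₁ (r • (θ : En 4)) = TwoA_y f g (Real.log r) / r * inner ℝ (gradient k (r • (θ : En 4))) (θ : En 4) := by
      rw [hF₁]
      simp only []
      rw [TwoA_gv, hnr r hr0.le, inner_smul_left, inner_smul_left, real_inner_comm]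
      simp only [conj_trivial]
      field_simp
    rw [e4, hF₂]
    simp only []
    rw [e2, e1, e3]
    simp only [Pi.mul_apply]
    field_simp
    ring
  have hQb : ∀ r : ℝ, 0 ≤ r → ‖Q r‖ ≤ Cu * Ck * (r ^ 3 * Real.exp (-(r / 2))) := by
    intro r hr
    rcases hr.eq_or_lt with h | h
    · subst h
      rw [hQ]; simp
    · have hx0 : r • (θ : En 4) ≠ 0 := smul_ne_zero h.ne' hθ0
      have h1 := hgb (r • (θ : En 4))
      rw [TwoA_gv_norm f g hx0, hnr r hr, div_le_iff₀ h] at h1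
      have h2 := hkM (r • (θ : En 4))
      rw [Real.norm_eq_abs, hQ]
      simp only []
      rw [abs_mul, abs_mul, abs_of_pos (pow_pos h 2)]
      calc r ^ 2 * |TwoA_y f g (Real.log r)| * |k (r • (θ : En 4))|
          ≤ r ^ 2 * (Cu * Real.exp (-(r / 2)) * r) * Ck :=
            mul_le_mul (mul_le_mul_of_nonneg_left h1 (by positivity)) h2 (abs_nonneg _) (by positivity)
        _ = _ := by ring
  have hQ0 : Q 0 = 0 := by rw [hQ]; simp
  have hcont : ContinuousWithinAt Q (Ici 0) 0 := by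
    rw [ContinuousWithinAt, hQ0]
    refine squeeze_zero_norm' (a := fun r => Cu * Ck * (r ^ 3 * Real.exp (-(r / 2)))) ?_ ?_
    · filter_upwards [self_mem_nhdsWithin] with r hr
      exact hQb r hr
    · have h1 : Continuous fun r : ℝ => Cu * Ck * (r ^ 3 * Real.exp (-(r / 2))) := by fun_prop
      have h2 := (h1.tendsto 0).mono_left (nhdsWithin_le_nhds (s := Ici 0))
      simpa using h2
  have htop : Filter.Tendsto Q Filter.atTop (nhds 0) := by
    refine squeeze_zero_norm' (a := fun r => Cu * Ck * (r ^ 3 * Real.exp (-(r / 2)))) ?_ (TwoA_tendsto3 _)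
    filter_upwards [Filter.eventually_ge_atTop 0] with r hr
    exact hQb r hr
  have hint : IntegrableOn (fun r : ℝ => r ^ 3 * (F₁ (r • (θ : En 4)) - F₂ (r • (θ : En 4)))) (Ioi 0) := by
    refine Integrable.mono' (TwoA_int3.const_mul (Cu * Ck + (H₀ + 1) * Cu * Ck)) ?_ ?_
    · have h1 : Continuous fun r : ℝ => r • (θ : En 4) := by fun_prop
      exact (((continuous_id.pow 3)).mul ((c1.comp h1).sub (c2.comp h1))).aestronglyMeasurable
    · refine (ae_restrict_mem measurableSet_Ioi).mono fun r hr => ?_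
      have hr0 : (0 : ℝ) < r := hr
      rw [Real.norm_eq_abs, abs_mul, abs_of_pos (pow_pos hr0 3)]
      have h1 := b1 (r • (θ : En 4))
      have h2 := b2 (r • (θ : En 4))
      rw [hnr r hr0.le] at h1 h2
      have h3 : |F₁ (r • (θ : En 4)) - F₂ (r • (θ : En 4))| ≤
          (Cu * Ck + (H₀ + 1) * Cu * Ck) * Real.exp (-(r / 2)) := by
        have h4 := abs_sub (F₁ (r • (θ : En 4))) (F₂ (r • (θ : En 4)))
        linarith
      calc r ^ 3 * |F₁ (r • (θ : En 4)) - F₂ (r • (θ : En 4))|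
          ≤ r ^ 3 * ((Cu * Ck + (H₀ + 1) * Cu * Ck) * Real.exp (-(r / 2))) :=
            mul_le_mul_of_nonneg_left h3 (by positivity)
        _ = _ := by ring
  have hfin := integral_Ioi_of_hasDerivAt_of_tendsto hcont hQd hint htop
  rw [hfin, hQ0, sub_zero]

end five

theorem bub4_of_bubble {γ C₁ : ℝ} (hγ : 0 < γ) (hγ1 : γ ≤ 1) {f g U : ℝ → ℝ} (B : Bubble γ C₁ f g U) :
    ∃ ψ V : En 4 → ℝ, Bub4 γ (C₁ / (2 * Real.pi ^ 2)) ψ V := by
  obtain ⟨ℓ, hl, hℓ0, C, hCp, hC⟩ := TwoA_lim B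
  have hℓ := TwoA_lim_pos hγ B hl hℓ0
  have hC' := TwoA_C'_pos B
  have hgr := TwoA_grad B hC
  have hge : gradient (TwoA_psi f ℓ) = TwoA_gv f g := gradient_eq hgr
  refine ⟨TwoA_psi f ℓ, fun x => Hd γ (C₁ / (2 * Real.pi ^ 2)) (TwoA_psi f ℓ x ^ 2), ?_⟩
  refine
    { C_pos := hC'
      diff := fun x => by rw [hge]; exact hgr x
      cgrad := by rw [hge]; exact TwoA_gv_cont B
      cV := (TwoA_Hd_cont hγ).comp ((TwoA_psi_cont B hC).pow 2)
      pos := TwoA_psi_pos B hℓ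
      rad := fun x y h => by unfold TwoA_psi; rw [h]
      V_pos := fun x => ?_
      V_eq := fun x => ?_
      norm := TwoA_norm B ℓ
      one := TwoA_one hγ B ℓ
      up := fun ε hε => by rw [hge]; exact TwoA_up B hC hε
      low := fun ε hε => TwoA_low B hℓ hC hε
      weak := fun k hk hkc hkb => by rw [hge]; exact TwoA_weak hγ B hℓ hC k hk hkc hkb }
  · have hψ := TwoA_psi_pos B hℓ x
    exact Real.rpow_pos_of_pos (by positivity) _
  · have hψ := TwoA_psi_pos B hℓ x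
    have h1 : 0 ≤ γ * TwoA_psi f ℓ x ^ 2 / ((2 + γ) * (C₁ / (2 * Real.pi ^ 2))) := by positivity
    simp only [Hd]
    rw [← Real.rpow_mul h1, one_div, inv_mul_cancel₀ (by linarith), Real.rpow_one]
    have := B.C_pos
    have := Real.pi_pos
    field_simp

end Pool.Agent.RLT40
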