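import Pool.Agent.RLT40.GNDef

/-!
# Modules TWO1, TWO2, TWO3 (paper 2.A6).

TWO1 `bub4_of_bubble`: `ψ(x) = f(log|x|)/|x|` for `x ≠ 0`, `ψ(0) = lim` (exists by Bubble.left: `(f e^{-t})' = (g-f)e^{-t} = O(e^{2t})`), `∇ψ(x) = (g-f)(log|x|) x/|x|³`, `∇ψ(0) = 0`; `V(x) = U(log|x|)/|x|²` = `Hd(ψ²)`.
weak: along each ray `∫_0^∞ ψ'(r) ∂_r h r³ dr = -∫ (r³ψ')' h dr`, `(r³ψ')' = r³(1-V)ψ`; polar coordinates.  norms: `∫ F(|x|)dx = 2π²∫F r³dr`.
TWO2 `two_int`: the integrals: `S ≤ C e^{-(1-2ε)D}`, `b = ∫(V_D-V_+)ψ_+ψ_- ≤ C∫ψ_-^{1+2θ}ψ_+ ≤ Ce^{-(1-2ε)D}` (`Hd(s+t)-Hd(s) ≤ Hd(t)`, `θ = 1/(1+γ)`), `a ≤ C∫ψ_-^{2θ}ψ_+² → 0`, `a ≥ c e^{-(1+θ+4ε)D}` from `|x| ≤ 1`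
(`Hd(s+t)-Hd(s) ≥ t Hd'(s+t)`).  `ε = γ/40`.
TWO3 `two_trial`: exact: `C'∫V_D^{2+γ} = 2 + 2γa/(2+γ)`; form on `span(ψ_+,ψ_-)` (weak equation with `h = ψ_∓`): `-Q(ψ_+ ± ψ_-) = 2(1+a) ± 2(S+b)`, `‖ψ_+ ± ψ_-‖² = 2(1±S)`; approximation by test functions (cutoff + mollification, `V_D` bounded):
`N4 V_D τ ≥ 1` for `τ < λ_+`, `≥ 2` for `τ < min(λ_+,λ_-)`; so `∫γτ^{γ-1}N4 ≥ λ_+^γ + λ_-^γ`.
-/

open MeasureTheory Set
open scoped ENNReal NNReal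

namespace Pool.Agent.RLT40

/-- `exp(-c|x|)` is integrable on `ℝ⁴`. -/
theorem TwoB_int_exp {c : ℝ} (hc : 0 < c) : Integrable (fun x : En 4 => Real.exp (-(c * ‖x‖))) := by
  have h := (integrable_fun_norm_addHaar (E := En 4) (volume : Measure (En 4)) (f := fun r : ℝ => Real.exp (-(c * r)))).2 ?_
  · exact h
  · have h2 := integrableOn_rpow_mul_exp_neg_mul_rpow (p := 1) (s := 3) (b := c) (by norm_num) one_pos hc
    refine h2.congr_fun (fun y hy => ?_) measurableSet_Ioi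
    have hy' : (0 : ℝ) < y := hy
    simp only [finrank_euclideanSpace_fin, smul_eq_mul, Real.rpow_one]
    congr 1
    · rw [show (3 : ℝ) = ((3 : ℕ) : ℝ) by norm_num, Real.rpow_natCast]
    · congr 1; ring

theorem TwoB_norm_e (D : ℝ) (hD : 0 < D) : ‖(D / 2) • e0v‖ = D / 2 := by
  rw [norm_smul, e0v, PiLp.norm_single]
  simp only [Real.norm_eq_abs, norm_one, mul_one]
  exact abs_of_pos (by linarith)

theorem TwoB_tri (D : ℝ) (hD : 0 < D) (x : En 4) : D ≤ ‖x - (D / 2) • e0v‖ + ‖x + (D / 2) • e0v‖ := by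
  have h := norm_sub_le (x + (D / 2) • e0v) (x - (D / 2) • e0v)
  have e : (x + (D / 2) • e0v) - (x - (D / 2) • e0v) = (2 : ℝ) • ((D / 2) • e0v) := by
    rw [two_smul]; abel
  rw [e, norm_smul, TwoB_norm_e D hD, Real.norm_eq_abs, abs_of_pos (by norm_num : (0 : ℝ) < 2)] at h
  linarith

/-- concavity of `s^θ`: lower bound for the increment -/
theorem TwoB_inc_low {θ s t : ℝ} (h0 : 0 ≤ θ) (h1 : θ ≤ 1) (hs : 0 ≤ s) (ht : 0 < t) :
    θ * t * (s + t) ^ (θ - 1) ≤ (s + t) ^ θ - s ^ θ := by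
  have hu : 0 < s + t := by linarith
  have h2 : s ^ θ ≤ (s + t) ^ θ * (1 - θ * (t / (s + t))) := by
    have e : s = (s + t) * (1 + (-(t / (s + t)))) := by field_simp; ring
    have h3 : 0 ≤ 1 + (-(t / (s + t))) := by
      have : t / (s + t) ≤ 1 := by rw [div_le_one hu]; linarith
      linarith
    have h4 := rpow_one_add_le_one_add_mul_self (s := -(t / (s + t))) (by linarith) h0 h1
    calc s ^ θ = ((s + t) * (1 + (-(t / (s + t))))) ^ θ := by rw [← e]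
      _ = (s + t) ^ θ * (1 + (-(t / (s + t)))) ^ θ := Real.mul_rpow hu.le h3
      _ ≤ (s + t) ^ θ * (1 - θ * (t / (s + t))) := by
        refine mul_le_mul_of_nonneg_left ?_ (Real.rpow_nonneg hu.le _)
        linarith
  have h5 : (s + t) ^ (θ - 1) = (s + t) ^ θ / (s + t) := Real.rpow_sub_one hu.ne' θ
  rw [h5]
  have h6 : θ * t * ((s + t) ^ θ / (s + t)) = (s + t) ^ θ * (θ * (t / (s + t))) := by field_simp
  rw [h6]
  linarith

section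

variable {γ C' : ℝ}

theorem TwoB_Hd_eq (hγ : 0 < γ) (hC : 0 < C') {s : ℝ} (hs : 0 ≤ s) :
    Hd γ C' s = (γ / ((2 + γ) * C')) ^ (1 / (1 + γ)) * s ^ (1 / (1 + γ)) := by
  rw [Hd, ← Real.mul_rpow (by positivity) hs]
  congr 1
  ring

theorem TwoB_Hd_nonneg (hγ : 0 < γ) (hC : 0 < C') {s : ℝ} (hs : 0 ≤ s) : 0 ≤ Hd γ C' s :=
  Real.rpow_nonneg (by positivity) _

theorem TwoB_Hd_mono (hγ : 0 < γ) (hC : 0 < C') {s t : ℝ} (hs : 0 ≤ s) (hst : s ≤ t) : Hd γ C' s ≤ Hd γ C' t := by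
  rw [TwoB_Hd_eq hγ hC hs, TwoB_Hd_eq hγ hC (hs.trans hst)]
  exact mul_le_mul_of_nonneg_left (Real.rpow_le_rpow hs hst (by positivity)) (Real.rpow_nonneg (by positivity) _)

theorem TwoB_theta (hγ : 0 < γ) : 0 < 1 / (1 + γ) ∧ 1 / (1 + γ) ≤ 1 := by
  refine ⟨by positivity, ?_⟩
  rw [div_le_one (by linarith)]; linarith

theorem TwoB_Hd_sub (hγ : 0 < γ) (hC : 0 < C') {s t : ℝ} (hs : 0 ≤ s) (ht : 0 ≤ t) :
    Hd γ C' (s + t) - Hd γ C' s ≤ Hd γ C' t := by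
  obtain ⟨h0, h1⟩ := TwoB_theta hγ
  rw [TwoB_Hd_eq hγ hC hs, TwoB_Hd_eq hγ hC ht, TwoB_Hd_eq hγ hC (add_nonneg hs ht)]
  have h := NNReal.rpow_add_le_add_rpow ⟨s, hs⟩ ⟨t, ht⟩ h0.le h1
  have h' : (s + t) ^ (1 / (1 + γ)) ≤ s ^ (1 / (1 + γ)) + t ^ (1 / (1 + γ)) := by exact_mod_cast h
  have h2 : 0 ≤ (γ / ((2 + γ) * C')) ^ (1 / (1 + γ)) := Real.rpow_nonneg (by positivity) _
  nlinarith [mul_le_mul_of_nonneg_left h' h2]

theorem TwoB_Hd_cont (hγ : 0 < γ) : Continuous (Hd γ C') := by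
  unfold Hd
  refine Continuous.rpow_const (by fun_prop) fun x => Or.inr ?_
  positivity

/-- `Hd (m²) ≤ κ^θ M^{2θ-1} m` for `0 ≤ m ≤ M` -/
theorem TwoB_Hd_sq (hγ : 0 < γ) (hγ1 : γ ≤ 1) (hC : 0 < C') {m M : ℝ} (hm : 0 < m) (hM : m ≤ M) :
    Hd γ C' (m ^ 2) * M ≤ Hd γ C' (M ^ 2) * m := by
  obtain ⟨h0, h1⟩ := TwoB_theta hγ
  have hM0 : 0 < M := lt_of_lt_of_le hm hM
  rw [TwoB_Hd_eq hγ hC (sq_nonneg m), TwoB_Hd_eq hγ hC (sq_nonneg M)]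
  have h2 : 0 ≤ (γ / ((2 + γ) * C')) ^ (1 / (1 + γ)) := Real.rpow_nonneg (by positivity) _
  have e : ∀ y : ℝ, 0 < y → (y ^ 2) ^ (1 / (1 + γ)) = y ^ (2 * (1 / (1 + γ)) - 1) * y := by
    intro y hy
    rw [← Real.rpow_natCast y 2, ← Real.rpow_mul hy.le, Real.rpow_sub_one hy.ne']
    field_simp
    norm_num
  rw [e m hm, e M hM0]
  have h3 : 0 ≤ 2 * (1 / (1 + γ)) - 1 := by
    rw [mul_one_div, sub_nonneg, le_div_iff₀ (by linarith)]; linarith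
  have h4 : m ^ (2 * (1 / (1 + γ)) - 1) ≤ M ^ (2 * (1 / (1 + γ)) - 1) := Real.rpow_le_rpow hm.le hM h3
  have h5 : 0 ≤ m * M := by positivity
  calc (γ / ((2 + γ) * C')) ^ (1 / (1 + γ)) * (m ^ (2 * (1 / (1 + γ)) - 1) * m) * M
      = (γ / ((2 + γ) * C')) ^ (1 / (1 + γ)) * (m ^ (2 * (1 / (1 + γ)) - 1)) * (m * M) := by ring
    _ ≤ (γ / ((2 + γ) * C')) ^ (1 / (1 + γ)) * (M ^ (2 * (1 / (1 + γ)) - 1)) * (m * M) :=
        mul_le_mul_of_nonneg_right (mul_le_mul_of_nonneg_left h4 h2) h5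
    _ = (γ / ((2 + γ) * C')) ^ (1 / (1 + γ)) * (M ^ (2 * (1 / (1 + γ)) - 1) * M) * m := by ring

variable {ψ V : En 4 → ℝ}

theorem TwoB_cont (B : Bub4 γ C' ψ V) : Continuous ψ :=
  continuous_iff_continuousAt.2 fun x => (B.diff x).continuousAt

theorem TwoB_contP (B : Bub4 γ C' ψ V) (D : ℝ) : Continuous (psiP ψ D) := by
  unfold psiP; exact (TwoB_cont B).comp (by fun_prop)

theorem TwoB_contM (B : Bub4 γ C' ψ V) (D : ℝ) : Continuous (psiM ψ D) := by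
  unfold psiM; exact (TwoB_cont B).comp (by fun_prop)

theorem TwoB_contD (hγ : 0 < γ) (B : Bub4 γ C' ψ V) (D : ℝ) : Continuous (VD γ C' ψ D) := by
  unfold VD
  exact (TwoB_Hd_cont hγ).comp (((TwoB_contP B D).pow 2).add ((TwoB_contM B D).pow 2))

theorem TwoB_contVP (hγ : 0 < γ) (B : Bub4 γ C' ψ V) (D : ℝ) : Continuous (VP γ C' ψ D) := by
  unfold VP
  exact (TwoB_Hd_cont hγ).comp ((TwoB_contP B D).pow 2)

theorem TwoB_diff_nonneg (hγ : 0 < γ) (B : Bub4 γ C' ψ V) (D : ℝ) (x : En 4) :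
    0 ≤ VD γ C' ψ D x - VP γ C' ψ D x := by
  unfold VD VP
  have := TwoB_Hd_mono hγ B.C_pos (sq_nonneg (psiP ψ D x)) (le_add_of_nonneg_right (sq_nonneg (psiM ψ D x)))
  linarith

/-- pointwise bound of the product of the two bubbles -/
theorem TwoB_pm {ε Cu : ℝ} (hε : 0 < ε) (B : Bub4 γ C' ψ V)
    (hCu : ∀ x, ψ x + ‖gradient ψ x‖ ≤ Cu * Real.exp (-((1 - ε) * ‖x‖))) {D : ℝ} (hD : 0 < D) (hε1 : 2 * ε ≤ 1) (x : En 4) :
    psiP ψ D x * psiM ψ D x ≤ Cu ^ 2 * Real.exp (-((1 - 2 * ε) * D)) * Real.exp (-(ε * ‖x - (D / 2) • e0v‖)) := by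
  have hψ : ∀ y, ψ y ≤ Cu * Real.exp (-((1 - ε) * ‖y‖)) := fun y => by
    have := hCu y; have := norm_nonneg (gradient ψ y); linarith
  have h1 := hψ (x - (D / 2) • e0v)
  have h2 := hψ (x + (D / 2) • e0v)
  have hp := B.pos (x - (D / 2) • e0v)
  have hm := B.pos (x + (D / 2) • e0v)
  have h3 : psiP ψ D x * psiM ψ D x ≤ (Cu * Real.exp (-((1 - ε) * ‖x - (D / 2) • e0v‖))) *
      (Cu * Real.exp (-((1 - ε) * ‖x + (D / 2) • e0v‖))) := by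
    unfold psiP psiM
    exact mul_le_mul h1 h2 hm.le (hp.le.trans h1)
  refine h3.trans ?_
  have h4 : (Cu * Real.exp (-((1 - ε) * ‖x - (D / 2) • e0v‖))) * (Cu * Real.exp (-((1 - ε) * ‖x + (D / 2) • e0v‖))) =
      Cu ^ 2 * Real.exp (-((1 - ε) * (‖x - (D / 2) • e0v‖ + ‖x + (D / 2) • e0v‖))) := by
    rw [show -((1 - ε) * (‖x - (D / 2) • e0v‖ + ‖x + (D / 2) • e0v‖)) =
      -((1 - ε) * ‖x - (D / 2) • e0v‖) + -((1 - ε) * ‖x + (D / 2) • e0v‖) by ring, Real.exp_add]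
    ring
  rw [h4, mul_assoc, ← Real.exp_add]
  refine mul_le_mul_of_nonneg_left (Real.exp_le_exp.2 ?_) (sq_nonneg _)
  have h5 := TwoB_tri D hD x
  have h6 := norm_nonneg (x + (D / 2) • e0v)
  nlinarith

/-- integrals dominated by the product -/
theorem TwoB_bound {ε Cu : ℝ} (hε : 0 < ε) (B : Bub4 γ C' ψ V)
    (hCu : ∀ x, ψ x + ‖gradient ψ x‖ ≤ Cu * Real.exp (-((1 - ε) * ‖x‖))) {D : ℝ} (hD : 0 < D) (hε1 : 2 * ε ≤ 1)
    {F : En 4 → ℝ} (hF : Continuous F) (hF0 : ∀ x, 0 ≤ F x) {A : ℝ} (hA : 0 ≤ A)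
    (hFA : ∀ x, F x ≤ A * (psiP ψ D x * psiM ψ D x)) :
    Integrable F ∧ ∫ x, F x ≤ A * (Cu ^ 2 * ∫ x : En 4, Real.exp (-(ε * ‖x‖))) * Real.exp (-((1 - 2 * ε) * D)) := by
  have hint : Integrable (fun x : En 4 => A * (Cu ^ 2 * Real.exp (-((1 - 2 * ε) * D)) * Real.exp (-(ε * ‖x - (D / 2) • e0v‖)))) := by
    refine Integrable.const_mul (Integrable.const_mul ?_ _) _
    exact (TwoB_int_exp hε).comp_sub_right ((D / 2) • e0v)
  have hle : ∀ x, F x ≤ A * (Cu ^ 2 * Real.exp (-((1 - 2 * ε) * D)) * Real.exp (-(ε * ‖x - (D / 2) • e0v‖))) := fun x =>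
    (hFA x).trans (mul_le_mul_of_nonneg_left (TwoB_pm hε B hCu hD hε1 x) hA)
  have hFi : Integrable F := by
    refine hint.mono' hF.aestronglyMeasurable (Filter.Eventually.of_forall fun x => ?_)
    rw [Real.norm_of_nonneg (hF0 x)]
    exact hle x
  refine ⟨hFi, (integral_mono hFi hint hle).trans (le_of_eq ?_)⟩
  rw [integral_const_mul, integral_const_mul]
  have : ∫ x : En 4, Real.exp (-(ε * ‖x - (D / 2) • e0v‖)) = ∫ x : En 4, Real.exp (-(ε * ‖x‖)) :=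
    integral_sub_right_eq_self (fun x : En 4 => Real.exp (-(ε * ‖x‖))) ((D / 2) • e0v)
  rw [this]
  ring

/-- lower bound of the integrand of `a` near the origin -/
theorem TwoB_low (hγ : 0 < γ) (B : Bub4 γ C' ψ V) {ε Cu c : ℝ} (hε : 0 < ε) (hε1 : ε < 1) (hc : 0 < c)
    (hCu : ∀ x, ψ x + ‖gradient ψ x‖ ≤ Cu * Real.exp (-((1 - ε) * ‖x‖)))
    (hlow : ∀ x, c * Real.exp (-((1 + ε) * ‖x‖)) ≤ ψ x) {D : ℝ} (hD : 0 < D) {x : En 4} (hx : ‖x‖ ≤ 1) :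
    (γ / ((2 + γ) * C')) ^ (1 / (1 + γ)) * (1 / (1 + γ)) * c ^ 4 *
      ((2 * Cu ^ 2) ^ (1 / (1 + γ) - 1)) * Real.exp (-(4 * (1 + ε)) - 2 * ((1 - 1 / (1 + γ)) * (1 - ε))) *
      Real.exp (-((2 * (1 + ε) - (1 - 1 / (1 + γ)) * (1 - ε)) * D)) ≤
      (VD γ C' ψ D x - VP γ C' ψ D x) * psiP ψ D x ^ 2 := by
  obtain ⟨h0, h1⟩ := TwoB_theta hγ
  set θ := 1 / (1 + γ) with hθ
  set κ := (γ / ((2 + γ) * C')) ^ θ with hκ
  have hC := B.C_pos
  have hκ0 : 0 < κ := Real.rpow_pos_of_pos (by positivity) _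
  set p := psiP ψ D x with hp
  set m := psiM ψ D x with hm
  have hp0 : 0 < p := B.pos _
  have hm0 : 0 < m := B.pos _
  have hCu0 : 0 < Cu := by
    have := hCu 0
    have h2 := B.pos 0
    have h3 := norm_nonneg (gradient ψ 0)
    rw [norm_zero, mul_zero, neg_zero, Real.exp_zero, mul_one] at this
    linarith
  have hn : ‖(D / 2) • e0v‖ = D / 2 := TwoB_norm_e D hD
  have u1 : ‖x - (D / 2) • e0v‖ ≤ 1 + D / 2 := (norm_sub_le _ _).trans (by rw [hn]; linarith)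
  have u2 : ‖x + (D / 2) • e0v‖ ≤ 1 + D / 2 := (norm_add_le _ _).trans (by rw [hn]; linarith)
  have l1 : D / 2 - 1 ≤ ‖x - (D / 2) • e0v‖ := by
    have := norm_sub_norm_le ((D / 2) • e0v) x
    rw [hn, norm_sub_rev] at this; linarith
  have l2 : D / 2 - 1 ≤ ‖x + (D / 2) • e0v‖ := by
    have := norm_sub_norm_le ((D / 2) • e0v) (-x)
    rw [hn, norm_neg, sub_neg_eq_add, add_comm] at this; linarith
  have hψ : ∀ y, ψ y ≤ Cu * Real.exp (-((1 - ε) * ‖y‖)) := fun y => by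
    have := hCu y; have := norm_nonneg (gradient ψ y); linarith
  have plow : c * Real.exp (-((1 + ε) * (1 + D / 2))) ≤ p := by
    refine le_trans (mul_le_mul_of_nonneg_left (Real.exp_le_exp.2 ?_) hc.le) (hlow _)
    have := mul_le_mul_of_nonneg_left u1 (by linarith : (0 : ℝ) ≤ 1 + ε)
    linarith
  have mlow : c * Real.exp (-((1 + ε) * (1 + D / 2))) ≤ m := by
    refine le_trans (mul_le_mul_of_nonneg_left (Real.exp_le_exp.2 ?_) hc.le) (hlow _)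
    have := mul_le_mul_of_nonneg_left u2 (by linarith : (0 : ℝ) ≤ 1 + ε)
    linarith
  have pup : p ≤ Cu * Real.exp (-((1 - ε) * (D / 2 - 1))) := by
    refine le_trans (hψ _) (mul_le_mul_of_nonneg_left (Real.exp_le_exp.2 ?_) hCu0.le)
    have := mul_le_mul_of_nonneg_left l1 (by linarith : (0 : ℝ) ≤ 1 - ε)
    linarith
  have mup : m ≤ Cu * Real.exp (-((1 - ε) * (D / 2 - 1))) := by
    refine le_trans (hψ _) (mul_le_mul_of_nonneg_left (Real.exp_le_exp.2 ?_) hCu0.le)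
    have := mul_le_mul_of_nonneg_left l2 (by linarith : (0 : ℝ) ≤ 1 - ε)
    linarith
  have a0 : 0 < c * Real.exp (-((1 + ε) * (1 + D / 2))) := by positivity
  have p2 : c ^ 2 * Real.exp (-((1 + ε) * (2 + D))) ≤ p ^ 2 := by
    have := pow_le_pow_left₀ a0.le plow 2
    rw [mul_pow, ← Real.exp_nat_mul] at this
    refine le_trans (le_of_eq ?_) this
    congr 2; push_cast; ring
  have m2 : c ^ 2 * Real.exp (-((1 + ε) * (2 + D))) ≤ m ^ 2 := by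
    have := pow_le_pow_left₀ a0.le mlow 2
    rw [mul_pow, ← Real.exp_nat_mul] at this
    refine le_trans (le_of_eq ?_) this
    congr 2; push_cast; ring
  have s2 : p ^ 2 + m ^ 2 ≤ 2 * Cu ^ 2 * Real.exp (-((1 - ε) * (D - 2))) := by
    have e1 := pow_le_pow_left₀ hp0.le pup 2
    have e2 := pow_le_pow_left₀ hm0.le mup 2
    rw [mul_pow, ← Real.exp_nat_mul] at e1 e2
    have e3 : ((2 : ℕ) : ℝ) * (-((1 - ε) * (D / 2 - 1))) = -((1 - ε) * (D - 2)) := by push_cast; ring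
    rw [e3] at e1 e2
    linarith
  have s0 : 0 < p ^ 2 + m ^ 2 := by positivity
  have inc := TwoB_inc_low (θ := θ) (s := p ^ 2) (t := m ^ 2) h0.le h1 (sq_nonneg _) (by positivity)
  have r1 : (2 * Cu ^ 2) ^ (θ - 1) * Real.exp ((1 - θ) * ((1 - ε) * (D - 2))) ≤ (p ^ 2 + m ^ 2) ^ (θ - 1) := by
    have h2 : (2 * Cu ^ 2 * Real.exp (-((1 - ε) * (D - 2)))) ^ (θ - 1) ≤ (p ^ 2 + m ^ 2) ^ (θ - 1) :=
      Real.rpow_le_rpow_of_nonpos s0 s2 (by linarith)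
    refine le_trans (le_of_eq ?_) h2
    rw [Real.mul_rpow (by positivity) (Real.exp_pos _).le, ← Real.exp_mul]
    congr 2; ring
  have hVD : VD γ C' ψ D x - VP γ C' ψ D x = κ * ((p ^ 2 + m ^ 2) ^ θ - (p ^ 2) ^ θ) := by
    unfold VD VP
    rw [TwoB_Hd_eq hγ hC (sq_nonneg _), TwoB_Hd_eq hγ hC (add_nonneg (sq_nonneg _) (sq_nonneg _))]
    ring
  rw [hVD]
  have k1 : κ * (θ * m ^ 2 * (p ^ 2 + m ^ 2) ^ (θ - 1)) ≤ κ * ((p ^ 2 + m ^ 2) ^ θ - (p ^ 2) ^ θ) :=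
    mul_le_mul_of_nonneg_left inc hκ0.le
  have k2 : κ * (θ * (c ^ 2 * Real.exp (-((1 + ε) * (2 + D)))) *
      ((2 * Cu ^ 2) ^ (θ - 1) * Real.exp ((1 - θ) * ((1 - ε) * (D - 2))))) ≤
      κ * (θ * m ^ 2 * (p ^ 2 + m ^ 2) ^ (θ - 1)) := by
    refine mul_le_mul_of_nonneg_left ?_ hκ0.le
    exact mul_le_mul (mul_le_mul_of_nonneg_left m2 h0.le) r1
      (mul_nonneg (Real.rpow_nonneg (by positivity) _) (Real.exp_pos _).le) (by positivity)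
  have k3 := mul_le_mul (k2.trans k1) p2 (by positivity)
    (le_trans (by
      have : 0 ≤ (2 * Cu ^ 2) ^ (θ - 1) := Real.rpow_nonneg (by positivity) _
      positivity) (k2.trans k1))
  refine le_trans (le_of_eq ?_) k3
  have e4 : Real.exp (-(4 * (1 + ε)) - 2 * ((1 - θ) * (1 - ε))) * Real.exp (-((2 * (1 + ε) - (1 - θ) * (1 - ε)) * D)) =
      Real.exp (-((1 + ε) * (2 + D))) * Real.exp ((1 - θ) * ((1 - ε) * (D - 2))) * Real.exp (-((1 + ε) * (2 + D))) := by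
    rw [← Real.exp_add, ← Real.exp_add, ← Real.exp_add]
    congr 1; ring
  calc κ * θ * c ^ 4 * (2 * Cu ^ 2) ^ (θ - 1) * Real.exp (-(4 * (1 + ε)) - 2 * ((1 - θ) * (1 - ε))) *
      Real.exp (-((2 * (1 + ε) - (1 - θ) * (1 - ε)) * D))
      = κ * θ * c ^ 4 * (2 * Cu ^ 2) ^ (θ - 1) * (Real.exp (-(4 * (1 + ε)) - 2 * ((1 - θ) * (1 - ε))) *
      Real.exp (-((2 * (1 + ε) - (1 - θ) * (1 - ε)) * D))) := by ring
    _ = _ := by rw [e4]; ring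

end

theorem two_int {γ C' : ℝ} (hγ : 0 < γ) (hγ1 : γ ≤ 1) {ψ V : En 4 → ℝ} (B : Bub4 γ C' ψ V) :
    ∃ D > 0, 0 < aI γ C' ψ D ∧ aI γ C' ψ D ≤ 1 / 100 ∧ 0 ≤ bI γ C' ψ D ∧ bI γ C' ψ D ≤ 1 / 100 ∧ 0 ≤ SI ψ D ∧ SI ψ D ≤ 1 / 100 ∧
      1.1 * (bI γ C' ψ D * SI ψ D) + 3 * (aI γ C' ψ D + bI γ C' ψ D) ^ 2 < aI γ C' ψ D / 2 := by
  obtain ⟨h0, h1⟩ := TwoB_theta hγ
  have hC := B.C_pos
  have hε : 0 < γ / 40 := by positivity
  have hε1 : γ / 40 ≤ 1 / 40 := by linarith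
  obtain ⟨Cu, hCu⟩ := B.up (γ / 40) hε
  obtain ⟨c, hc, hlow⟩ := B.low (γ / 40) hε
  set ε := γ / 40 with hεd
  have hCu0 : 0 < Cu := by
    have := hCu 0
    have h2 := B.pos 0
    have h3 := norm_nonneg (gradient ψ 0)
    rw [norm_zero, mul_zero, neg_zero, Real.exp_zero, mul_one] at this
    linarith
  have hψM : ∀ y, ψ y ≤ Cu := fun y => by
    have h2 := hCu y; have h3 := norm_nonneg (gradient ψ y)
    have h4 : Real.exp (-((1 - ε) * ‖y‖)) ≤ 1 := Real.exp_le_one_iff.2 (by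
      have := norm_nonneg y
      have : 0 ≤ (1 - ε) * ‖y‖ := mul_nonneg (by linarith) this
      linarith)
    have h5 := mul_le_mul_of_nonneg_left h4 hCu0.le
    linarith
  set H₀ := Hd γ C' (Cu ^ 2) with hH0
  have hH : 0 ≤ H₀ := TwoB_Hd_nonneg hγ hC (sq_nonneg _)
  set I₀ := ∫ x : En 4, Real.exp (-(ε * ‖x‖)) with hI0
  have hI : 0 ≤ I₀ := integral_nonneg fun x => (Real.exp_pos _).le
  set K := Cu ^ 2 * I₀ with hK
  have hK0 : 0 ≤ K := by positivity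
  -- pointwise bounds
  have pa : ∀ D x, (VD γ C' ψ D x - VP γ C' ψ D x) * psiP ψ D x ^ 2 ≤ H₀ * (psiP ψ D x * psiM ψ D x) := by
    intro D x
    have hp0 : 0 < psiP ψ D x := B.pos _
    have hm0 : 0 < psiM ψ D x := B.pos _
    have h2 : VD γ C' ψ D x - VP γ C' ψ D x ≤ Hd γ C' (psiM ψ D x ^ 2) :=
      TwoB_Hd_sub hγ hC (sq_nonneg _) (sq_nonneg _)
    have h3 := TwoB_Hd_sq hγ hγ1 hC hm0 (hψM _)
    have h4 := TwoB_diff_nonneg hγ B D x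
    have hpM : psiP ψ D x ≤ Cu := hψM _
    have h5 : 0 ≤ Hd γ C' (psiM ψ D x ^ 2) := TwoB_Hd_nonneg hγ hC (sq_nonneg _)
    calc (VD γ C' ψ D x - VP γ C' ψ D x) * psiP ψ D x ^ 2
        ≤ Hd γ C' (psiM ψ D x ^ 2) * psiP ψ D x ^ 2 := mul_le_mul_of_nonneg_right h2 (sq_nonneg _)
      _ = (Hd γ C' (psiM ψ D x ^ 2) * psiP ψ D x) * psiP ψ D x := by ring
      _ ≤ (Hd γ C' (psiM ψ D x ^ 2) * Cu) * psiP ψ D x :=
          mul_le_mul_of_nonneg_right (mul_le_mul_of_nonneg_left hpM h5) hp0.le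
      _ ≤ (H₀ * psiM ψ D x) * psiP ψ D x := mul_le_mul_of_nonneg_right h3 hp0.le
      _ = H₀ * (psiP ψ D x * psiM ψ D x) := by ring
  have pb : ∀ D x, (VD γ C' ψ D x - VP γ C' ψ D x) * (psiP ψ D x * psiM ψ D x) ≤ H₀ * (psiP ψ D x * psiM ψ D x) := by
    intro D x
    have hp0 : 0 < psiP ψ D x := B.pos _
    have hm0 : 0 < psiM ψ D x := B.pos _
    have h2 : VD γ C' ψ D x - VP γ C' ψ D x ≤ Hd γ C' (psiM ψ D x ^ 2) :=
      TwoB_Hd_sub hγ hC (sq_nonneg _) (sq_nonneg _)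
    have h3 : Hd γ C' (psiM ψ D x ^ 2) ≤ H₀ :=
      TwoB_Hd_mono hγ hC (sq_nonneg _) (pow_le_pow_left₀ hm0.le (hψM _) 2)
    exact mul_le_mul_of_nonneg_right (h2.trans h3) (by positivity)
  have ha : ∀ D, 0 < D → Integrable (fun x => (VD γ C' ψ D x - VP γ C' ψ D x) * psiP ψ D x ^ 2) ∧
      aI γ C' ψ D ≤ H₀ * K * Real.exp (-((1 - 2 * ε) * D)) := fun D hD =>
    TwoB_bound hε B hCu hD (by linarith)
      (((TwoB_contD hγ B D).sub (TwoB_contVP hγ B D)).mul ((TwoB_contP B D).pow 2))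
      (fun x => mul_nonneg (TwoB_diff_nonneg hγ B D x) (sq_nonneg _)) hH (pa D)
  have hb : ∀ D, 0 < D → Integrable (fun x => (VD γ C' ψ D x - VP γ C' ψ D x) * (psiP ψ D x * psiM ψ D x)) ∧
      bI γ C' ψ D ≤ H₀ * K * Real.exp (-((1 - 2 * ε) * D)) := fun D hD =>
    TwoB_bound hε B hCu hD (by linarith)
      (((TwoB_contD hγ B D).sub (TwoB_contVP hγ B D)).mul ((TwoB_contP B D).mul (TwoB_contM B D)))
      (fun x => mul_nonneg (TwoB_diff_nonneg hγ B D x) (mul_pos (B.pos _) (B.pos _)).le) hH (pb D)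
  have hS : ∀ D, 0 < D → Integrable (fun x => psiP ψ D x * psiM ψ D x) ∧
      SI ψ D ≤ 1 * K * Real.exp (-((1 - 2 * ε) * D)) := fun D hD =>
    TwoB_bound (F := fun x => psiP ψ D x * psiM ψ D x) hε B hCu hD (by linarith)
      ((TwoB_contP B D).mul (TwoB_contM B D))
      (fun x => (mul_pos (B.pos _) (B.pos _)).le) zero_le_one (fun x => (one_mul _).ge)
  have hb0 : ∀ D, 0 ≤ bI γ C' ψ D := fun D =>
    integral_nonneg fun x => mul_nonneg (TwoB_diff_nonneg hγ B D x) (mul_pos (B.pos _) (B.pos _)).le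
  have hS0 : ∀ D, 0 ≤ SI ψ D := fun D => integral_nonneg fun x => (mul_pos (B.pos _) (B.pos _)).le
  -- lower bound
  set c₁ := (γ / ((2 + γ) * C')) ^ (1 / (1 + γ)) * (1 / (1 + γ)) * c ^ 4 *
      ((2 * Cu ^ 2) ^ (1 / (1 + γ) - 1)) * Real.exp (-(4 * (1 + ε)) - 2 * ((1 - 1 / (1 + γ)) * (1 - ε))) with hc1
  set ρ := 2 * (1 + ε) - (1 - 1 / (1 + γ)) * (1 - ε) with hρ
  have hc1p : 0 < c₁ := by
    have h2 : 0 < (γ / ((2 + γ) * C')) ^ (1 / (1 + γ)) := Real.rpow_pos_of_pos (by positivity) _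
    have h3 : 0 < (2 * Cu ^ 2) ^ (1 / (1 + γ) - 1) := Real.rpow_pos_of_pos (by positivity) _
    positivity
  set v := (volume : Measure (En 4)).real (Metric.closedBall 0 1) with hv
  have hv0 : 0 < v := by
    rw [hv, Measure.real]
    exact ENNReal.toReal_pos (Metric.measure_closedBall_pos volume (0 : En 4) one_pos).ne' measure_closedBall_lt_top.ne
  have hal : ∀ D, 0 < D → c₁ * v * Real.exp (-(ρ * D)) ≤ aI γ C' ψ D := by
    intro D hD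
    have hi := (ha D hD).1
    have h2 : ∫ x in Metric.closedBall (0 : En 4) 1, c₁ * Real.exp (-(ρ * D)) ≤
        ∫ x in Metric.closedBall (0 : En 4) 1, (VD γ C' ψ D x - VP γ C' ψ D x) * psiP ψ D x ^ 2 := by
      refine setIntegral_mono_on (integrableOn_const (hs := measure_closedBall_lt_top.ne)) hi.integrableOn
        Metric.isClosed_closedBall.measurableSet fun x hx => ?_
      refine TwoB_low hγ B hε (by linarith) hc hCu hlow hD ?_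
      simpa using hx
    have h3 : ∫ x in Metric.closedBall (0 : En 4) 1, (VD γ C' ψ D x - VP γ C' ψ D x) * psiP ψ D x ^ 2 ≤ aI γ C' ψ D :=
      setIntegral_le_integral hi (Filter.Eventually.of_forall fun x =>
        mul_nonneg (TwoB_diff_nonneg hγ B D x) (sq_nonneg _))
    refine le_trans (le_of_eq ?_) (h2.trans h3)
    rw [setIntegral_const, smul_eq_mul]
    ring
  -- choice of D
  have hρ2 : 0 < 2 * (1 - 2 * ε) - ρ := by
    have h2 : γ / 2 ≤ 1 - 1 / (1 + γ) := by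
      rw [le_sub_comm, div_le_iff₀ (by linarith)]
      nlinarith
    have h3 : γ / 2 * (39 / 40) ≤ (1 - 1 / (1 + γ)) * (1 - ε) := mul_le_mul h2 (by linarith) (by norm_num) (by linarith)
    rw [hρ]
    nlinarith
  have T1 : Filter.Tendsto (fun D : ℝ => (H₀ + 1) * K * Real.exp (-((1 - 2 * ε) * D))) Filter.atTop (nhds 0) := by
    have h2 : Filter.Tendsto (fun D : ℝ => Real.exp (-((1 - 2 * ε) * D))) Filter.atTop (nhds 0) := by
      refine Real.tendsto_exp_atBot.comp (Filter.tendsto_neg_atTop_atBot.comp ?_)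
      exact Filter.tendsto_id.const_mul_atTop (by linarith)
    simpa using h2.const_mul ((H₀ + 1) * K)
  have T2 : Filter.Tendsto (fun D : ℝ => (1.1 * H₀ + 6 * H₀ ^ 2) * K ^ 2 * Real.exp (-((2 * (1 - 2 * ε) - ρ) * D)))
      Filter.atTop (nhds 0) := by
    have h2 : Filter.Tendsto (fun D : ℝ => Real.exp (-((2 * (1 - 2 * ε) - ρ) * D))) Filter.atTop (nhds 0) := by
      refine Real.tendsto_exp_atBot.comp (Filter.tendsto_neg_atTop_atBot.comp ?_)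
      exact Filter.tendsto_id.const_mul_atTop hρ2
    simpa using h2.const_mul ((1.1 * H₀ + 6 * H₀ ^ 2) * K ^ 2)
  have E1 := T1.eventually (gt_mem_nhds (show (0 : ℝ) < 1 / 100 by norm_num))
  have E2 := T2.eventually (gt_mem_nhds (show (0 : ℝ) < c₁ * v / 4 by positivity))
  obtain ⟨D, hD1, hD2, hD⟩ := (E1.and (E2.and (Filter.eventually_gt_atTop (0 : ℝ)))).exists
  refine ⟨D, hD, ?_⟩
  obtain ⟨_, ha2⟩ := ha D hD
  obtain ⟨_, hb2⟩ := hb D hD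
  obtain ⟨_, hS2⟩ := hS D hD
  have hal2 := hal D hD
  have hbb := hb0 D
  have hSS := hS0 D
  set a := aI γ C' ψ D
  set b := bI γ C' ψ D
  set S := SI ψ D
  set X := Real.exp (-((1 - 2 * ε) * D)) with hX
  have hX0 : 0 < X := Real.exp_pos _
  have ha0 : 0 < a := lt_of_lt_of_le (by positivity) hal2
  have t1 : 0 ≤ K * X := by positivity
  have t2 : 0 ≤ H₀ * K * X := by positivity
  have t3 : (H₀ + 1) * K * X = H₀ * K * X + K * X := by ring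
  have a1 : a ≤ 1 / 100 := by linarith
  have b1 : b ≤ 1 / 100 := by linarith
  have S1 : S ≤ 1 / 100 := by linarith
  refine ⟨ha0, a1, hbb, b1, hSS, S1, ?_⟩
  -- main inequality
  have m1 : b * S ≤ (H₀ * K * X) * (K * X) := mul_le_mul hb2 (by linarith) hSS t2
  have m2 : b ^ 2 ≤ (H₀ * K * X) ^ 2 := pow_le_pow_left₀ hbb hb2 2
  have m3 : 1.1 * (b * S) + 6 * b ^ 2 ≤ (1.1 * H₀ + 6 * H₀ ^ 2) * K ^ 2 * X ^ 2 := by
    calc 1.1 * (b * S) + 6 * b ^ 2 ≤ 1.1 * ((H₀ * K * X) * (K * X)) + 6 * (H₀ * K * X) ^ 2 := by linarith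
      _ = (1.1 * H₀ + 6 * H₀ ^ 2) * K ^ 2 * X ^ 2 := by ring
  have m4 : X ^ 2 = Real.exp (-((2 * (1 - 2 * ε) - ρ) * D)) * Real.exp (-(ρ * D)) := by
    rw [hX, ← Real.exp_nat_mul, ← Real.exp_add]
    congr 1; push_cast; ring
  have m5 : (1.1 * H₀ + 6 * H₀ ^ 2) * K ^ 2 * X ^ 2 ≤ c₁ * v / 4 * Real.exp (-(ρ * D)) := by
    rw [m4, ← mul_assoc]
    exact mul_le_mul_of_nonneg_right hD2.le (Real.exp_pos _).le
  have m6 : 3 * (a + b) ^ 2 ≤ 6 * a ^ 2 + 6 * b ^ 2 := by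
    have := sq_nonneg (a - b)
    have e : 6 * a ^ 2 + 6 * b ^ 2 - 3 * (a + b) ^ 2 = 3 * (a - b) ^ 2 := by ring
    linarith
  have m7 : 6 * a ^ 2 ≤ 6 / 100 * a := by
    have := mul_nonneg ha0.le (sub_nonneg.2 a1)
    nlinarith
  linarith

end Pool.Agent.RLT40
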