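import Pool.Agent.RLT40.Defs
import Pool.Agent.RLT40.OneD

/-!
# Definitions for the radial one-state problem (paper 2.A5) and the two-bubble construction (2.A6).  DO NOT CHANGE.
-/

open MeasureTheory Set
open scoped ENNReal NNReal

namespace Pool.Agent.RLT40

/-- `H¹(ℝ)` with weight: `f, f' ∈ L²`, `∫ ω f² < ∞` -/
def H1om (f : ℝ → ℝ) : Prop :=
  MemLp f 2 volume ∧ Integrable (fun x => om x * f x ^ 2) ∧
    ∃ g : ℝ → ℝ, MemLp g 2 volume ∧ ∀ x y, f y - f x = ∫ t in x..y, g t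

noncomputable def EnF (f : ℝ → ℝ) : ℝ := ∫ x, (deriv f x ^ 2 + f x ^ 2)
noncomputable def OmF (f : ℝ → ℝ) : ℝ := ∫ x, om x * f x ^ 2
noncomputable def XiF (γ : ℝ) (f : ℝ → ℝ) : ℝ := ∫ x, |f x| ^ (2 * (2 + γ) / (1 + γ)) * Real.exp (2 * γ * x / (1 + γ))

/-- the optimiser of the one-state problem, normalised: eigenvalue `e = 1`, `∫ ω f² = 1/(2π²)` -/
structure Bubble (γ C₁ : ℝ) (f g U : ℝ → ℝ) : Prop where
  C_pos : 0 < C₁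
  sol : Sol (fun x => 1 - U x + om x) f g
  pos : ∀ x, 0 < f x
  U_pos : ∀ x, 0 < U x
  U_eq : ∀ x, (2 + γ) * C₁ * U x ^ (1 + γ) = 2 * Real.pi ^ 2 * γ * f x ^ 2 * Real.exp (2 * γ * x)
  int_om : Integrable (fun x => om x * f x ^ 2)
  norm : ∫ x, om x * f x ^ 2 = 1 / (2 * Real.pi ^ 2)
  int_U : Integrable (fun x => U x ^ (2 + γ) * Real.exp (-(2 * γ * x)))
  one : C₁ * ∫ x, U x ^ (2 + γ) * Real.exp (-(2 * γ * x)) = 1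
  left : ∃ C, ∀ t ≤ 0, f t ≤ C * Real.exp t ∧ |g t - f t| ≤ C * Real.exp (3 * t)
  up : ∀ ε > 0, ∃ C, ∀ t ≥ 0, f t + |g t| ≤ C * Real.exp (-((1 - ε) * Real.exp t))
  low : ∀ ε > 0, ∃ c > 0, ∀ t ≥ 0, c * Real.exp (-((1 + ε) * Real.exp t)) ≤ f t

/-- the bubble in `ℝ⁴`, `-Δψ - Vψ = -ψ` -/
structure Bub4 (γ C' : ℝ) (ψ V : En 4 → ℝ) : Prop where
  C_pos : 0 < C'
  diff : ∀ x, HasGradientAt ψ (gradient ψ x) x
  cgrad : Continuous (gradient ψ)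
  cV : Continuous V
  pos : ∀ x, 0 < ψ x
  rad : ∀ x y, ‖x‖ = ‖y‖ → ψ x = ψ y
  V_pos : ∀ x, 0 < V x
  V_eq : ∀ x, (2 + γ) * C' * V x ^ (1 + γ) = γ * ψ x ^ 2
  norm : ∫ x, ψ x ^ 2 = 1
  one : C' * ∫ x, V x ^ (2 + γ) = 1
  up : ∀ ε > 0, ∃ C, ∀ x, ψ x + ‖gradient ψ x‖ ≤ C * Real.exp (-((1 - ε) * ‖x‖))
  low : ∀ ε > 0, ∃ c > 0, ∀ x, c * Real.exp (-((1 + ε) * ‖x‖)) ≤ ψ x
  weak : ∀ h : En 4 → ℝ, (∀ x, HasGradientAt h (gradient h x) x) → Continuous (gradient h) →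
    (∃ C, ∀ x, |h x| + ‖gradient h x‖ ≤ C * Real.exp (-(‖x‖ / 2))) →
      ∫ x, inner ℝ (gradient ψ x) (gradient h x) = ∫ x, (V x - 1) * (ψ x * h x)

/-- potential generated by a density `s` -/
noncomputable def Hd (γ C' s : ℝ) : ℝ := (γ * s / ((2 + γ) * C')) ^ (1 / (1 + γ))

/-- a unit vector -/
noncomputable def e0v : En 4 := EuclideanSpace.single 0 1

/-- the two translated bubbles, and the two-bubble potential -/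
noncomputable def psiP (ψ : En 4 → ℝ) (D : ℝ) (x : En 4) : ℝ := ψ (x - (D / 2) • e0v)
noncomputable def psiM (ψ : En 4 → ℝ) (D : ℝ) (x : En 4) : ℝ := ψ (x + (D / 2) • e0v)
noncomputable def VD (γ C' : ℝ) (ψ : En 4 → ℝ) (D : ℝ) (x : En 4) : ℝ := Hd γ C' (psiP ψ D x ^ 2 + psiM ψ D x ^ 2)
noncomputable def VP (γ C' : ℝ) (ψ : En 4 → ℝ) (D : ℝ) (x : En 4) : ℝ := Hd γ C' (psiP ψ D x ^ 2)

noncomputable def aI (γ C' : ℝ) (ψ : En 4 → ℝ) (D : ℝ) : ℝ := ∫ x, (VD γ C' ψ D x - VP γ C' ψ D x) * psiP ψ D x ^ 2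
noncomputable def bI (γ C' : ℝ) (ψ : En 4 → ℝ) (D : ℝ) : ℝ := ∫ x, (VD γ C' ψ D x - VP γ C' ψ D x) * (psiP ψ D x * psiM ψ D x)
noncomputable def SI (ψ : En 4 → ℝ) (D : ℝ) : ℝ := ∫ x, psiP ψ D x * psiM ψ D x

end Pool.Agent.RLT40
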