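import Pool.Agent.RLT40.FourD
import Pool.Agent.RLT40.GNDef

/-!
# Modules TWO1, TWO2, TWO3 (paper 2.A6).

TWO1 `bub4_of_bubble`: `ψ(x) = f(log|x|)/|x|` for `x ≠ 0`, `ψ(0) = lim` (exists by Bubble.left: `(f e^{-t})' = (g-f)e^{-t} = O(e^{2t})`), `∇ψ(x) = (g-f)(log|x|) x/|x|³`, `∇ψ(0) = 0`; `V(x) = U(log|x|)/|x|²` = `Hd(ψ²)`.
weak: along each ray `∫_0^∞ ψ'(r) ∂_r h r³ dr = -∫ (r³ψ')' h dr`, `(r³ψ')' = r³(1-V)ψ`; polar coordinates.  norms: `∫ F(|x|)dx = 2π²∫F r³dr`.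
TWO2 `two_int`: the integrals: `S ≤ C e^{-(1-2ε)D}`, `b = ∫(V_D-V_+)ψ_+ψ_- ≤ C∫ψ_-^{1+2θ}ψ_+ ≤ Ce^{-(1-2ε)D}` (`Hd(s+t)-Hd(s) ≤ Hd(t)`, `θ = 1/(1+γ)`), `a ≤ C∫ψ_-^{2θ}ψ_+² → 0`, `a ≥ c e^{-(1+θ+4ε)D}` from `|x| ≤ 1`
(`Hd(s+t)-Hd(s) ≥ t Hd'(s+t)`).  `ε = γ/40`.
TWO3 `two_trial`: exact: `C'∫V_D^{2+γ} = 2 + 2γa/(2+γ)`; form on `span(ψ_+,ψ_-)` (weak equation with `h = ψ_∓`): `-Q(ψ_+ ± ψ_-) = 2(1+a) ± 2(S+b)`, `‖ψ_+ ± ψ_-‖² = 2(1±S)`; approximation by test functions (cutoff + mollification, `V_D` bounded):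
`N4 V_D τ ≥ 1` for `τ < λ_+`, `≥ 2` for `τ < min(λ_+,λ_-)`; so `∫γτ^{γ-1}N4 ≥ λ_+^γ + λ_-^γ`.
-/

open MeasureTheory Set
open scoped ENNReal NNReal

namespace Pool.Agent.RLT40

theorem TwoC_Hd_nonneg {γ C' s : ℝ} (hγ : 0 < γ) (hC : 0 < C') (hs : 0 ≤ s) : 0 ≤ Hd γ C' s := by
  unfold Hd; positivity

theorem TwoC_Hd_pos {γ C' s : ℝ} (hγ : 0 < γ) (hC : 0 < C') (hs : 0 < s) : 0 < Hd γ C' s := by
  unfold Hd; positivity

theorem TwoC_Hd_mono {γ C' s t : ℝ} (hγ : 0 < γ) (hC : 0 < C') (hs : 0 ≤ s) (hst : s ≤ t) :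
    Hd γ C' s ≤ Hd γ C' t := by
  unfold Hd
  apply Real.rpow_le_rpow (by positivity) _ (by positivity)
  gcongr

theorem TwoC_Hd_rpow {γ C' s : ℝ} (hγ : 0 < γ) (hC : 0 < C') (hs : 0 ≤ s) :
    Hd γ C' s ^ (1 + γ) = γ * s / ((2 + γ) * C') := by
  unfold Hd
  rw [← Real.rpow_mul (by positivity), one_div, inv_mul_cancel₀ (by positivity), Real.rpow_one]

theorem TwoC_Hd_rpow2 {γ C' s : ℝ} (hγ : 0 < γ) (hC : 0 < C') (hs : 0 ≤ s) :
    C' * Hd γ C' s ^ (2 + γ) = γ / (2 + γ) * (Hd γ C' s * s) := by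
  have h : Hd γ C' s ^ (2 + γ) = Hd γ C' s * (γ * s / ((2 + γ) * C')) := by
    rw [← TwoC_Hd_rpow hγ hC hs, show 2 + γ = 1 + (1 + γ) by ring,
      Real.rpow_add' (TwoC_Hd_nonneg hγ hC hs) (by positivity), Real.rpow_one]
  rw [h]
  field_simp

theorem TwoC_Hd_cont {γ C' : ℝ} (hγ : 0 < γ) : Continuous (Hd γ C') := by
  unfold Hd
  apply Continuous.rpow_const (by fun_prop)
  intro x
  right
  positivity

theorem TwoC_V_eq {γ C' : ℝ} (hγ : 0 < γ) {ψ V : En 4 → ℝ} (B : Bub4 γ C' ψ V) (x : En 4) :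
    Hd γ C' (ψ x ^ 2) = V x := by
  have hC := B.C_pos
  have h := B.V_eq x
  have h1 : γ * ψ x ^ 2 / ((2 + γ) * C') = V x ^ (1 + γ) := by
    rw [← h]; field_simp
  unfold Hd
  rw [h1, ← Real.rpow_mul (B.V_pos x).le, one_div, mul_inv_cancel₀ (by positivity), Real.rpow_one]

theorem two_mass {γ C' : ℝ} (hγ : 0 < γ) (hγ1 : γ ≤ 1) {ψ V : En 4 → ℝ} (B : Bub4 γ C' ψ V) (D : ℝ) :
    Adm4 γ (VD γ C' ψ D) ∧ ENNReal.ofReal C' * (∫⁻ x, ENNReal.ofReal (VD γ C' ψ D x ^ (2 + γ))) =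
      ENNReal.ofReal (2 + 2 * γ * aI γ C' ψ D / (2 + γ)) := by
  have hC := B.C_pos
  have hψc : Continuous ψ := continuous_iff_continuousAt.2 fun x => (B.diff x).hasFDerivAt.continuousAt
  obtain ⟨M, hM⟩ := B.up 1 one_pos
  have hψM : ∀ x, ψ x ≤ M := by
    intro x
    have h := hM x
    rw [sub_self, zero_mul, neg_zero, Real.exp_zero, mul_one] at h
    linarith [norm_nonneg (gradient ψ x)]
  have hψ2 : Integrable (fun x => ψ x ^ 2) := by
    by_contra h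
    have h1 := B.norm
    rw [integral_undef h] at h1
    exact zero_ne_one h1
  set e : En 4 := (D / 2) • e0v with he
  have hPc : Continuous (psiP ψ D) := by unfold psiP; fun_prop
  have hMc : Continuous (psiM ψ D) := by unfold psiM; fun_prop
  have hP2 : Integrable (fun x => psiP ψ D x ^ 2) := hψ2.comp_sub_right e
  have hM2 : Integrable (fun x => psiM ψ D x ^ 2) := hψ2.comp_add_right e
  have hs0 : ∀ x, 0 ≤ psiP ψ D x ^ 2 + psiM ψ D x ^ 2 := fun x => by positivity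
  have hspos : ∀ x, 0 < psiP ψ D x ^ 2 + psiM ψ D x ^ 2 := fun x => by
    have : 0 < psiP ψ D x := B.pos _
    positivity
  have hVDc : Continuous (VD γ C' ψ D) := by
    unfold VD
    exact (TwoC_Hd_cont hγ).comp (by fun_prop)
  have hVPc : Continuous (VP γ C' ψ D) := by
    unfold VP
    exact (TwoC_Hd_cont hγ).comp (by fun_prop)
  have hVD0 : ∀ x, 0 < VD γ C' ψ D x := fun x => TwoC_Hd_pos hγ hC (hspos x)
  have hVP0 : ∀ x, 0 ≤ VP γ C' ψ D x := fun x => TwoC_Hd_nonneg hγ hC (by positivity)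
  have hVDb : ∀ x, VD γ C' ψ D x ≤ Hd γ C' (2 * M ^ 2) := by
    intro x
    apply TwoC_Hd_mono hγ hC (hs0 x)
    have h1 : psiP ψ D x ^ 2 ≤ M ^ 2 := pow_le_pow_left₀ (B.pos _).le (hψM _) 2
    have h2 : psiM ψ D x ^ 2 ≤ M ^ 2 := pow_le_pow_left₀ (B.pos _).le (hψM _) 2
    linarith
  have hVPb : ∀ x, VP γ C' ψ D x ≤ Hd γ C' (2 * M ^ 2) := by
    intro x
    apply TwoC_Hd_mono hγ hC (by positivity)
    have h1 : psiP ψ D x ^ 2 ≤ M ^ 2 := pow_le_pow_left₀ (B.pos _).le (hψM _) 2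
    nlinarith [sq_nonneg M]
  have iDP : Integrable (fun x => VD γ C' ψ D x * psiP ψ D x ^ 2) :=
    hP2.bdd_mul hVDc.aestronglyMeasurable
      (Filter.Eventually.of_forall fun x => by rw [Real.norm_eq_abs, abs_of_pos (hVD0 x)]; exact hVDb x)
  have iDM : Integrable (fun x => VD γ C' ψ D x * psiM ψ D x ^ 2) :=
    hM2.bdd_mul hVDc.aestronglyMeasurable
      (Filter.Eventually.of_forall fun x => by rw [Real.norm_eq_abs, abs_of_pos (hVD0 x)]; exact hVDb x)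
  have iPP : Integrable (fun x => VP γ C' ψ D x * psiP ψ D x ^ 2) :=
    hP2.bdd_mul hVPc.aestronglyMeasurable
      (Filter.Eventually.of_forall fun x => by rw [Real.norm_eq_abs, abs_of_nonneg (hVP0 x)]; exact hVPb x)
  -- reflection
  have hrefl : (∫ x, VD γ C' ψ D x * psiM ψ D x ^ 2) = ∫ x, VD γ C' ψ D x * psiP ψ D x ^ 2 := by
    rw [← integral_neg_eq_self (fun x => VD γ C' ψ D x * psiM ψ D x ^ 2)]
    congr 1
    funext x
    have h1 : psiM ψ D (-x) = psiP ψ D x := by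
      unfold psiM psiP
      apply B.rad
      rw [← norm_neg]
      congr 1
      abel
    have h2 : psiP ψ D (-x) = psiM ψ D x := by
      unfold psiM psiP
      apply B.rad
      rw [← norm_neg]
      congr 1
      abel
    unfold VD
    rw [h1, h2, add_comm]
  have hPPint : (∫ x, VP γ C' ψ D x * psiP ψ D x ^ 2) = (2 + γ) / γ := by
    have h1 : (fun x => VP γ C' ψ D x * psiP ψ D x ^ 2) = fun x => (fun y => V y * ψ y ^ 2) (x - e) := by
      funext x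
      simp only [VP, psiP]
      rw [TwoC_V_eq hγ B]
    rw [h1, integral_sub_right_eq_self (fun y => V y * ψ y ^ 2) e]
    have h2 : (fun y => V y * ψ y ^ 2) = fun y => (2 + γ) / γ * (C' * V y ^ (2 + γ)) := by
      funext y
      have h3 := TwoC_Hd_rpow2 hγ hC (sq_nonneg (ψ y))
      rw [TwoC_V_eq hγ B] at h3
      rw [h3]
      field_simp
    rw [h2, integral_const_mul, integral_const_mul, B.one, mul_one]
  have hpow : ∀ x, C' * VD γ C' ψ D x ^ (2 + γ) =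
      γ / (2 + γ) * (VD γ C' ψ D x * psiP ψ D x ^ 2 + VD γ C' ψ D x * psiM ψ D x ^ 2) := by
    intro x
    have := TwoC_Hd_rpow2 hγ hC (hs0 x)
    unfold VD
    rw [this, mul_add]
  have iPow : Integrable (fun x => C' * VD γ C' ψ D x ^ (2 + γ)) := by
    rw [show (fun x => C' * VD γ C' ψ D x ^ (2 + γ)) = fun x => γ / (2 + γ) *
      (VD γ C' ψ D x * psiP ψ D x ^ 2 + VD γ C' ψ D x * psiM ψ D x ^ 2) from funext hpow]
    exact (iDP.add iDM).const_mul _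
  have iPow' : Integrable (fun x => VD γ C' ψ D x ^ (2 + γ)) := by
    have := iPow.const_mul C'⁻¹
    refine this.congr (Filter.Eventually.of_forall fun x => ?_)
    simp only
    rw [← mul_assoc, inv_mul_cancel₀ hC.ne', one_mul]
  refine ⟨⟨fun x => (hVD0 x).le, ?_, ?_⟩, ?_⟩
  · have h2γ : 0 < 2 + γ := by linarith
    rw [← integrable_norm_rpow_iff hVDc.aestronglyMeasurable (by simpa using h2γ) ENNReal.ofReal_ne_top]
    refine iPow'.congr (Filter.Eventually.of_forall fun x => ?_)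
    simp only
    rw [ENNReal.toReal_ofReal h2γ.le, Real.norm_eq_abs, abs_of_pos (hVD0 x)]
  · intro h
    obtain ⟨x, hx⟩ := h.exists
    exact (hVD0 x).ne' hx
  · have hnn : ∀ x, 0 ≤ VD γ C' ψ D x ^ (2 + γ) := fun x => Real.rpow_nonneg (hVD0 x).le _
    rw [← ofReal_integral_eq_lintegral_ofReal iPow' (Filter.Eventually.of_forall hnn),
      ← ENNReal.ofReal_mul hC.le, ← integral_const_mul]
    congr 1
    have ha : aI γ C' ψ D = (∫ x, VD γ C' ψ D x * psiP ψ D x ^ 2) - (2 + γ) / γ := by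
      unfold aI
      rw [← hPPint, ← integral_sub iDP iPP]
      congr 1
      funext x
      ring
    rw [show (fun x => C' * VD γ C' ψ D x ^ (2 + γ)) = fun x => γ / (2 + γ) *
      (VD γ C' ψ D x * psiP ψ D x ^ 2 + VD γ C' ψ D x * psiM ψ D x ^ 2) from funext hpow,
      integral_const_mul, integral_add iDP iDM, hrefl]
    have : (∫ x, VD γ C' ψ D x * psiP ψ D x ^ 2) = aI γ C' ψ D + (2 + γ) / γ := by rw [ha]; ring
    rw [this]
    field_simp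
    ring

end Pool.Agent.RLT40
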