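import Pool.Agent.RLT40.FourD
import Pool.Agent.RLT40.GNDef

/-!
# Modules TWO1, TWO2, TWO3 (paper 2.A6).

TWO1 `bub4_of_bubble`: `ψ(x) = f(log|x|)/|x|` for `x ≠ 0`, `ψ(0) = lim` (exists by Bubble.left: `(f e^{-t})' = (g-f)e^{-t} = O(e^{2t})`), `∇ψ(x) = (g-f)(log|x|) x/|x|³`, `∇ψ(0) = 0`; `V(x) = U(log|x|)/|x|²` = `Hd(ψ²)`.
weak: along each ray `∫_0^∞ ψ'(r) ∂_r h r³ dr = -∫ (r³ψ')' h dr`, `(r³ψ')' = r³(1-V)ψ`; polar coordinates.  norms: `∫ F(|x|)dx = 2π²∫F r³dr`.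
TWO2 `two_int`: the integrals: `S ≤ C e^{-(1-2ε)D}`, `b = ∫(V_D-V_+)ψ_+ψ_- ≤ C∫ψ_-^{1+2θ}ψ_+ ≤ Ce^{-(1-2ε)D}` (`Hd(s+t)-Hd(s) ≤ Hd(t)`, `θ = 1/(1+γ)`), `a ≤ C∫ψ_-^{2θ}ψ_+² → 0`, `a ≥ c e^{-(1+θ+4ε)D}` from `|x| ≤ 1`
(`Hd(s+t)-Hd(s) ≥ t Hd'(s+t)`).  `ε = γ/40`.
TWO3 `two_trial`: exact: `C'∫V_D^{2+γ} = 2 + 2γa/(2+γ)`; form on `span(ψ_+,ψ_-)` (weak equation with `h = ψ_∓`): `-Q(ψ_+ ± ψ_-) = 2(1+a) ± 2(S+b)`, `‖ψ_+ ± ψ_-‖² = 2(1±S)`; approximation by test functions (cutoff + mollification, `V_D` bounded):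
`N4 V_D τ ≥ 1` for `τ < λ_+`, `≥ 2` for `τ < min(λ_+,λ_-)`; so `∫γτ^{γ-1}N4 ≥ λ_+^γ + λ_-^γ`.
-/

open MeasureTheory Set
open scoped ENNReal NNReal

namespace Pool.Agent.RLT40

namespace TwoD

open Filter Topology

/-- `C¹` functions with exponential decay -/
structure Dec (h : En 4 → ℝ) : Prop where
  diff : ∀ x, HasGradientAt h (gradient h x) x
  cont : Continuous (gradient h)
  bd : ∃ C, ∀ x, |h x| + ‖gradient h x‖ ≤ C * Real.exp (-(‖x‖ / 2))

theorem grad_add {u v : En 4 → ℝ} {x : En 4} (hu : DifferentiableAt ℝ u x) (hv : DifferentiableAt ℝ v x) :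
    gradient (u + v) x = gradient u x + gradient v x := by
  simp [gradient, fderiv_add hu hv]

theorem grad_smul {u : En 4 → ℝ} {x : En 4} (c : ℝ) (hu : DifferentiableAt ℝ u x) :
    gradient (c • u) x = c • gradient u x := by
  simp [gradient, fderiv_const_smul hu]

theorem grad_trans (u : En 4 → ℝ) (a x : En 4) : gradient (fun y => u (y - a)) x = gradient u (x - a) := by
  unfold gradient
  rw [fderiv_comp_sub]

theorem norm_grad (u : En 4 → ℝ) (x : En 4) : ‖gradient u x‖ = ‖fderiv ℝ u x‖ := by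
  simp [gradient]

theorem Dec.da {h : En 4 → ℝ} (H : Dec h) (x : En 4) : DifferentiableAt ℝ h x := (H.diff x).differentiableAt

theorem Dec.c0 {h : En 4 → ℝ} (H : Dec h) : Continuous h :=
  continuous_iff_continuousAt.2 fun x => (H.diff x).continuousAt

theorem mk_dec {h : En 4 → ℝ} (h1 : ContDiff ℝ 1 h) (h2 : ∃ C, ∀ x, |h x| + ‖gradient h x‖ ≤ C * Real.exp (-(‖x‖ / 2))) :
    Dec h := by
  refine ⟨fun x => ((h1.differentiable (by norm_num)) x).hasGradientAt, ?_, h2⟩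
  have := h1.continuous_fderiv (by norm_num)
  exact (InnerProductSpace.toDual ℝ (En 4)).symm.continuous.comp this

theorem Dec.cd {h : En 4 → ℝ} (H : Dec h) : ContDiff ℝ 1 h := by
  rw [contDiff_one_iff_fderiv]
  refine ⟨fun x => H.da x, ?_⟩
  have := (InnerProductSpace.toDual ℝ (En 4)).continuous.comp H.cont
  refine this.congr fun x => ?_
  simp [gradient]

theorem Dec.add {u v : En 4 → ℝ} (hu : Dec u) (hv : Dec v) : Dec (u + v) := by
  refine mk_dec (hu.cd.add hv.cd) ?_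
  obtain ⟨C1, h1⟩ := hu.bd
  obtain ⟨C2, h2⟩ := hv.bd
  refine ⟨C1 + C2, fun x => ?_⟩
  rw [grad_add (hu.da x) (hv.da x)]
  have e1 := abs_add_le (u x) (v x)
  have e2 := norm_add_le (gradient u x) (gradient v x)
  have := h1 x
  have := h2 x
  simp only [Pi.add_apply]
  rw [add_mul]
  linarith

theorem Dec.smul {u : En 4 → ℝ} (c : ℝ) (hu : Dec u) : Dec (c • u) := by
  refine mk_dec (contDiff_const.smul hu.cd) ?_
  obtain ⟨C1, h1⟩ := hu.bd
  refine ⟨|c| * C1, fun x => ?_⟩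
  rw [grad_smul c (hu.da x)]
  simp only [Pi.smul_apply, smul_eq_mul, abs_mul, norm_smul, Real.norm_eq_abs]
  have := mul_le_mul_of_nonneg_left (h1 x) (abs_nonneg c)
  linarith

theorem Dec.trans {u : En 4 → ℝ} (hu : Dec u) (a : En 4) : Dec (fun x => u (x - a)) := by
  refine mk_dec (hu.cd.comp (contDiff_id.sub contDiff_const)) ?_
  obtain ⟨C1, h1⟩ := hu.bd
  have hC : 0 ≤ C1 := by
    have := h1 0
    simp only [norm_zero, zero_div, neg_zero, Real.exp_zero, mul_one] at this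
    exact le_trans (by positivity) this
  refine ⟨C1 * Real.exp (‖a‖ / 2), fun x => ?_⟩
  rw [grad_trans]
  refine (h1 (x - a)).trans ?_
  rw [mul_assoc, ← Real.exp_add]
  refine mul_le_mul_of_nonneg_left (Real.exp_le_exp.2 ?_) hC
  have := norm_sub_norm_le x a
  linarith

theorem test_dec {u : En 4 → ℝ} (hu : u ∈ Test 4) : Dec u := by
  obtain ⟨h1, h2⟩ := hu
  have h1' : ContDiff ℝ 1 u := h1.of_le (by exact_mod_cast le_top)
  refine mk_dec h1' ?_
  have c1 : Continuous fun x => (|u x| + ‖fderiv ℝ u x‖) * Real.exp (‖x‖ / 2) :=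
    ((h1'.continuous.abs).add (h1'.continuous_fderiv (by norm_num)).norm).mul (by fun_prop)
  have hs : HasCompactSupport fun x => (|u x| + ‖fderiv ℝ u x‖) * Real.exp (‖x‖ / 2) := by
    apply HasCompactSupport.mul_right
    exact (h2.comp_left (g := fun y => |y|) (by simp)).add ((h2.fderiv ℝ).norm)
  obtain ⟨C, hC⟩ := hs.exists_bound_of_continuous c1
  refine ⟨C, fun x => ?_⟩
  have := hC x
  rw [Real.norm_of_nonneg (by positivity)] at this
  rw [norm_grad, Real.exp_neg, ← div_eq_mul_inv, le_div_iff₀ (Real.exp_pos _)]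
  exact this

theorem int_exp : Integrable (fun x : En 4 => Real.exp (-‖x‖)) := by
  have h := (integrable_one_add_norm (E := En 4) (μ := volume) (r := 5)
    (by simp; norm_num)).const_mul (5 ^ 5)
  refine h.mono' (by fun_prop) (ae_of_all _ fun x => ?_)
  rw [Real.norm_of_nonneg (Real.exp_pos _).le]
  have hx : 0 ≤ ‖x‖ := norm_nonneg x
  have e1 : (1 + ‖x‖) / 5 ≤ Real.exp (‖x‖ / 5) := by
    have := Real.add_one_le_exp (‖x‖ / 5)
    linarith
  have e2 : ((1 + ‖x‖) / 5) ^ 5 ≤ Real.exp (‖x‖) := by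
    have := pow_le_pow_left₀ (by positivity) e1 5
    rw [← Real.exp_nat_mul] at this
    rw [show ((5 : ℕ) : ℝ) * (‖x‖ / 5) = ‖x‖ by push_cast; ring] at this
    exact this
  rw [Real.rpow_neg (by positivity), show (5 : ℝ) = ((5 : ℕ) : ℝ) by norm_num, Real.rpow_natCast,
    Real.exp_neg]
  have e3 : (1 + ‖x‖) ^ 5 ≤ 5 ^ 5 * Real.exp ‖x‖ := by
    rw [div_pow] at e2
    rw [div_le_iff₀ (by positivity)] at e2
    linarith
  rw [← div_eq_mul_inv, inv_eq_one_div, div_le_div_iff₀ (Real.exp_pos _) (by positivity)]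
  push_cast
  linarith

/-- the bilinear form -/
noncomputable def Bf (W : En 4 → ℝ) (τ : ℝ) (u v : En 4 → ℝ) : ℝ :=
  ∫ x, (inner ℝ (gradient u x) (gradient v x) - W x * (u x * v x) + τ * (u x * v x))

theorem form4_eq (W : En 4 → ℝ) (τ : ℝ) (u : En 4 → ℝ) : form4 W τ u = Bf W τ u u := by
  unfold form4 Bf
  congr 1
  funext x
  rw [real_inner_self_eq_norm_sq]
  ring

theorem Dec.bd' {u : En 4 → ℝ} (hu : Dec u) : ∃ C, 0 ≤ C ∧ ∀ x, |u x| ≤ C * Real.exp (-(‖x‖ / 2)) ∧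
    ‖gradient u x‖ ≤ C * Real.exp (-(‖x‖ / 2)) := by
  obtain ⟨C1, h1⟩ := hu.bd
  have hC : 0 ≤ C1 := by
    have := h1 0
    simp only [norm_zero, zero_div, neg_zero, Real.exp_zero, mul_one] at this
    exact le_trans (by positivity) this
  refine ⟨C1, hC, fun x => ⟨?_, ?_⟩⟩
  · have := h1 x
    have := norm_nonneg (gradient u x)
    linarith
  · have := h1 x
    have := abs_nonneg (u x)
    linarith

theorem exp_half_mul (x : En 4) : Real.exp (-(‖x‖ / 2)) * Real.exp (-(‖x‖ / 2)) = Real.exp (-‖x‖) := by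
  rw [← Real.exp_add]; congr 1; ring

theorem int_uv {u v W : En 4 → ℝ} (hu : Dec u) (hv : Dec v) (cW : Continuous W) {K : ℝ} (hW : ∀ x, |W x| ≤ K) :
    Integrable fun x => W x * (u x * v x) := by
  obtain ⟨C1, p1, h1⟩ := hu.bd'
  obtain ⟨C2, p2, h2⟩ := hv.bd'
  refine (int_exp.const_mul (K * (C1 * C2))).mono' ((cW.mul (hu.c0.mul hv.c0)).aestronglyMeasurable)
    (ae_of_all _ fun x => ?_)
  rw [Real.norm_eq_abs, abs_mul, abs_mul, ← exp_half_mul]
  have e := mul_le_mul (h1 x).1 (h2 x).1 (abs_nonneg _) (by positivity)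
  have hK : 0 ≤ K := (abs_nonneg _).trans (hW 0)
  have := mul_le_mul (hW x) e (by positivity) hK
  refine this.trans (le_of_eq (by ring))

theorem int_uv' {u v : En 4 → ℝ} (hu : Dec u) (hv : Dec v) : Integrable fun x => u x * v x := by
  have := int_uv hu hv (W := fun _ => 1) continuous_const (K := 1) (by simp)
  simpa using this

theorem int_gg {u v : En 4 → ℝ} (hu : Dec u) (hv : Dec v) :
    Integrable fun x => (inner ℝ (gradient u x) (gradient v x) : ℝ) := by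
  obtain ⟨C1, p1, h1⟩ := hu.bd'
  obtain ⟨C2, p2, h2⟩ := hv.bd'
  refine (int_exp.const_mul (C1 * C2)).mono' ((hu.cont.inner hv.cont).aestronglyMeasurable)
    (ae_of_all _ fun x => ?_)
  rw [Real.norm_eq_abs, ← exp_half_mul]
  have e := mul_le_mul (h1 x).2 (h2 x).2 (norm_nonneg _) (by positivity)
  refine (abs_real_inner_le_norm _ _).trans (e.trans (le_of_eq (by ring)))

theorem int_Bf {u v W : En 4 → ℝ} (hu : Dec u) (hv : Dec v) (cW : Continuous W) {K : ℝ} (hW : ∀ x, |W x| ≤ K) (τ : ℝ) :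
    Integrable fun x => (inner ℝ (gradient u x) (gradient v x) - W x * (u x * v x) + τ * (u x * v x) : ℝ) :=
  ((int_gg hu hv).sub (int_uv hu hv cW hW)).add ((int_uv' hu hv).const_mul τ)

theorem Bf_comb2 {u v W : En 4 → ℝ} (hu : Dec u) (hv : Dec v) (cW : Continuous W) {K : ℝ} (hW : ∀ x, |W x| ≤ K) (τ : ℝ)
    (c d c' d' : ℝ) : Bf W τ (c • u + d • v) (c' • u + d' • v) =
      c * c' * Bf W τ u u + (c * d' + d * c') * Bf W τ u v + d * d' * Bf W τ v v := by
  unfold Bf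
  rw [← integral_const_mul, ← integral_const_mul, ← integral_const_mul, ← integral_add, ← integral_add]
  · congr 1
    funext x
    rw [grad_add ((hu.smul c).da x) ((hv.smul d).da x), grad_smul c (hu.da x), grad_smul d (hv.da x),
      grad_add ((hu.smul c').da x) ((hv.smul d').da x), grad_smul c' (hu.da x), grad_smul d' (hv.da x)]
    simp only [Pi.add_apply, Pi.smul_apply, smul_eq_mul, inner_add_left, inner_add_right, real_inner_smul_left,
      real_inner_smul_right]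
    rw [real_inner_comm (gradient u x) (gradient v x)]
    ring
  · exact ((int_Bf hu hu cW hW τ).const_mul _).add ((int_Bf hu hv cW hW τ).const_mul _)
  · exact (int_Bf hv hv cW hW τ).const_mul _
  · exact (int_Bf hu hu cW hW τ).const_mul _
  · exact (int_Bf hu hv cW hW τ).const_mul _

theorem Bf_comb {u v W : En 4 → ℝ} (hu : Dec u) (hv : Dec v) (cW : Continuous W) {K : ℝ} (hW : ∀ x, |W x| ≤ K) (τ : ℝ)
    (c d : ℝ) : Bf W τ (c • u + d • v) (c • u + d • v) =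
      c ^ 2 * Bf W τ u u + 2 * (c * d) * Bf W τ u v + d ^ 2 * Bf W τ v v := by
  rw [Bf_comb2 hu hv cW hW τ c d c d]
  ring

theorem N4_ge_one {W : En 4 → ℝ} {τ : ℝ} {u : En 4 → ℝ} (hu : u ∈ Test 4) (h : Bf W τ u u < 0) (cW : Continuous W)
    {K : ℝ} (hW : ∀ x, |W x| ≤ K) : 1 ≤ N4 W τ := by
  have hu0 : u ≠ 0 := by
    rintro rfl
    simp [Bf, gradient] at h
  have hf : Module.finrank ℝ (Submodule.span ℝ {u}) = 1 := finrank_span_singleton hu0
  unfold N4
  refine le_iSup₂_of_le (Submodule.span ℝ {u}) ⟨?_, inferInstance, ?_⟩ ?_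
  · rw [Submodule.span_le]
    simpa using hu
  · intro f hf hf0
    obtain ⟨c, rfl⟩ := Submodule.mem_span_singleton.1 hf
    rw [form4_eq]
    have hd := test_dec hu
    have e := Bf_comb hd hd cW hW τ c 0
    have e2 : c • u + (0 : ℝ) • u = c • u := by simp
    rw [e2] at e
    rw [e]
    have hc : c ≠ 0 := by
      rintro rfl
      simp at hf0
    have : 0 < c ^ 2 := by positivity
    nlinarith
  · rw [hf]
    simp

theorem N4_ge_two {W : En 4 → ℝ} {τ : ℝ} {u v : En 4 → ℝ} (hu : u ∈ Test 4) (hv : v ∈ Test 4) (h1 : Bf W τ u u < 0)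
    (h2 : Bf W τ u v ^ 2 < Bf W τ u u * Bf W τ v v) (cW : Continuous W)
    {K : ℝ} (hW : ∀ x, |W x| ≤ K) : 2 ≤ N4 W τ := by
  have hdu := test_dec hu
  have hdv := test_dec hv
  have key : ∀ c d : ℝ, ¬ (c = 0 ∧ d = 0) → Bf W τ (c • u + d • v) (c • u + d • v) < 0 := by
    intro c d hcd
    rw [Bf_comb hdu hdv cW hW τ c d]
    set A := Bf W τ u u
    set B := Bf W τ u v
    set C := Bf W τ v v
    have e : A * (c ^ 2 * A + 2 * (c * d) * B + d ^ 2 * C) = (A * c + B * d) ^ 2 + (A * C - B ^ 2) * d ^ 2 := by ring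
    have hpos : 0 < (A * c + B * d) ^ 2 + (A * C - B ^ 2) * d ^ 2 := by
      by_cases hd : d = 0
      · subst hd
        have hc : c ≠ 0 := fun h => hcd ⟨h, rfl⟩
        have : 0 < (A * c) ^ 2 := by
          have : A * c ≠ 0 := mul_ne_zero h1.ne hc
          positivity
        simpa using this
      · have hd2 : 0 < d ^ 2 := by positivity
        have := mul_pos (sub_pos.2 h2) hd2
        have := sq_nonneg (A * c + B * d)
        linarith
    rw [← e] at hpos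
    by_contra hneg
    rw [not_lt] at hneg
    have := mul_nonpos_of_nonpos_of_nonneg h1.le hneg
    linarith
  have hli : LinearIndependent ℝ ![u, v] := by
    rw [LinearIndependent.pair_iff]
    intro c d hcd
    by_contra hne
    have := key c d hne
    rw [hcd] at this
    simp [Bf, gradient] at this
  have hf : Module.finrank ℝ (Submodule.span ℝ (Set.range ![u, v])) = 2 := by
    rw [finrank_span_eq_card hli]
    simp
  have hset : Set.range ![u, v] = {u, v} := by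
    simp [Matrix.range_cons, Set.pair_comm]
  rw [hset] at hf
  unfold N4
  refine le_iSup₂_of_le (Submodule.span ℝ {u, v}) ⟨?_, ?_, ?_⟩ ?_
  · rw [Submodule.span_le]
    intro f hf
    rcases hf with rfl | hf
    · exact hu
    · rw [Set.mem_singleton_iff] at hf
      subst hf
      exact hv
  · exact FiniteDimensional.span_of_finite ℝ (Set.toFinite _)
  · intro f hf hf0
    obtain ⟨c, d, rfl⟩ := Submodule.mem_span_pair.1 hf
    rw [form4_eq]
    apply key
    rintro ⟨rfl, rfl⟩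
    simp at hf0
  · rw [hf]
    simp

open scoped Convolution in
theorem conv_bd {F : Type*} [NormedAddCommGroup F] [NormedSpace ℝ F] [CompleteSpace F] {g : En 4 → F} (cg : Continuous g)
    {C : ℝ} (hC : ∀ y, ‖g y‖ ≤ C * Real.exp (-(‖y‖ / 2))) (φ : ContDiffBump (0 : En 4)) (hφ : φ.rOut ≤ 1) (x : En 4) :
    ‖(φ.normed volume ⋆[ContinuousLinearMap.lsmul ℝ ℝ, volume] g) x‖ ≤ 3 * (C * Real.exp 1) * Real.exp (-(‖x‖ / 2)) := by
  have hC0 : 0 ≤ C := by
    have := hC 0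
    simp only [norm_zero, zero_div, neg_zero, Real.exp_zero, mul_one] at this
    exact le_trans (by positivity) this
  have h1 : ∀ y ∈ Metric.ball x φ.rOut, dist (g y) (g x) ≤ 2 * (C * Real.exp 1) * Real.exp (-(‖x‖ / 2)) := by
    intro y hy
    rw [Metric.mem_ball, dist_eq_norm] at hy
    rw [dist_eq_norm]
    have e1 : ‖x‖ - 1 ≤ ‖y‖ := by
      have := norm_sub_norm_le x y
      rw [norm_sub_rev] at this
      linarith
    have e2 : Real.exp (-(‖y‖ / 2)) ≤ Real.exp 1 * Real.exp (-(‖x‖ / 2)) := by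
      rw [← Real.exp_add]
      exact Real.exp_le_exp.2 (by linarith)
    have e3 : Real.exp (-(‖x‖ / 2)) ≤ Real.exp 1 * Real.exp (-(‖x‖ / 2)) := by
      rw [← Real.exp_add]
      exact Real.exp_le_exp.2 (by linarith)
    have e4 := (hC y).trans (mul_le_mul_of_nonneg_left e2 hC0)
    have e5 := (hC x).trans (mul_le_mul_of_nonneg_left e3 hC0)
    have := norm_sub_le (g y) (g x)
    linarith
  have h2 := φ.dist_normed_convolution_le (μ := volume) cg.aestronglyMeasurable h1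
  rw [dist_eq_norm] at h2
  have e3 : Real.exp (-(‖x‖ / 2)) ≤ Real.exp 1 * Real.exp (-(‖x‖ / 2)) := by
    rw [← Real.exp_add]
    exact Real.exp_le_exp.2 (by linarith)
  have e5 := (hC x).trans (mul_le_mul_of_nonneg_left e3 hC0)
  have := norm_sub_norm_le ((φ.normed volume ⋆[ContinuousLinearMap.lsmul ℝ ℝ, volume] g) x) (g x)
  linarith

open scoped Convolution in
theorem conv_lim {F : Type*} [NormedAddCommGroup F] [NormedSpace ℝ F] [CompleteSpace F] {g : ℕ → En 4 → F}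
    {h : En 4 → F} (cg : ∀ n, Continuous (g n)) (ch : Continuous h) (hgh : ∀ (n : ℕ) (x : En 4), ‖x‖ < (n : ℝ) → g n x = h x)
    (φ : ℕ → ContDiffBump (0 : En 4)) (hφ : Tendsto (fun n => (φ n).rOut) atTop (𝓝 0)) (x : En 4) :
    Tendsto (fun n => ((φ n).normed volume ⋆[ContinuousLinearMap.lsmul ℝ ℝ, volume] (g n)) x) atTop (𝓝 (h x)) := by
  refine ContDiffBump.convolution_tendsto_right (k := fun _ => x) hφ
    (Eventually.of_forall fun n => (cg n).aestronglyMeasurable) ?_ tendsto_const_nhds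
  have h1 : Tendsto (fun p : ℕ × En 4 => h p.2) (atTop ×ˢ 𝓝 x) (𝓝 (h x)) := (ch.tendsto x).comp tendsto_snd
  refine h1.congr' ?_
  obtain ⟨N, hN⟩ := exists_nat_gt (‖x‖ + 1)
  have h2 : ∀ᶠ n : ℕ in atTop, N ≤ n := eventually_ge_atTop N
  have h3 : ∀ᶠ y in 𝓝 x, y ∈ Metric.ball x 1 := Metric.ball_mem_nhds x one_pos
  filter_upwards [h2.prod_mk h3] with p hp
  obtain ⟨p1, p2⟩ := hp
  simp only [Function.uncurry]
  refine (hgh p.1 p.2 ?_).symm
  rw [Metric.mem_ball, dist_eq_norm] at p2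
  have e1 : ‖p.2‖ ≤ ‖x‖ + 1 := by
    have := norm_sub_norm_le p.2 x
    linarith
  have e2 : (N : ℝ) ≤ p.1 := by exact_mod_cast p1
  linarith

theorem exists_cut : ∃ χ : ℕ → En 4 → ℝ, ∃ M : ℝ, (∀ n, ContDiff ℝ (⊤ : ℕ∞) (χ n)) ∧ (∀ n, HasCompactSupport (χ n)) ∧
    (∀ n x, |χ n x| ≤ 1) ∧ (∀ n x, ‖fderiv ℝ (χ n) x‖ ≤ M) ∧ ∀ n x, ‖x‖ < (n : ℕ) → χ n x = 1 := by
  let χ0 : ContDiffBump (0 : En 4) := ⟨1, 2, by norm_num, by norm_num⟩
  have cd0 : ContDiff ℝ (⊤ : ℕ∞) χ0 := χ0.contDiff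
  have hs0 : HasCompactSupport χ0 := χ0.hasCompactSupport
  obtain ⟨M, hM⟩ := (hs0.fderiv ℝ).exists_bound_of_continuous (cd0.continuous_fderiv (by simp))
  have hM0 : 0 ≤ M := (norm_nonneg _).trans (hM 0)
  have hpos : ∀ n : ℕ, (0 : ℝ) < (n : ℝ) + 1 := fun n => by positivity
  refine ⟨fun n x => χ0 (((n : ℝ) + 1)⁻¹ • x), M, fun n => ?_, fun n => ?_, fun n x => ?_, fun n x => ?_, fun n x hx => ?_⟩
  · exact cd0.comp (contDiff_const_smul ((n : ℝ) + 1)⁻¹)
  · exact hs0.comp_smul (inv_ne_zero (hpos n).ne')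
  · rw [abs_of_nonneg χ0.nonneg]
    exact χ0.le_one
  · have : (fun x => χ0 (((n : ℝ) + 1)⁻¹ • x)) = (χ0 <| ((n : ℝ) + 1)⁻¹ • ·) := rfl
    rw [fderiv_comp_smul, norm_smul, Real.norm_eq_abs, abs_of_pos (inv_pos.2 (hpos n))]
    have e1 : ((n : ℝ) + 1)⁻¹ ≤ 1 := inv_le_one_of_one_le₀ (by linarith [n.cast_nonneg (α := ℝ)])
    have := mul_le_mul e1 (hM (((n : ℝ) + 1)⁻¹ • x)) (norm_nonneg _) zero_le_one
    linarith
  · apply χ0.one_of_mem_closedBall
    rw [Metric.mem_closedBall, dist_zero_right, norm_smul, Real.norm_eq_abs, abs_of_pos (inv_pos.2 (hpos n)),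
      inv_mul_le_iff₀ (hpos n)]
    show ‖x‖ ≤ ((n : ℝ) + 1) * 1
    linarith

open scoped Convolution in
theorem fderiv_conv {f g : En 4 → ℝ} (hf : LocallyIntegrable f) (hg : ContDiff ℝ 1 g) (hs : HasCompactSupport g) (x : En 4) :
    fderiv ℝ (f ⋆[ContinuousLinearMap.lsmul ℝ ℝ, volume] g) x =
      (f ⋆[ContinuousLinearMap.lsmul ℝ ℝ, volume] (fderiv ℝ g)) x := by
  have h := hs.hasFDerivAt_convolution_right (ContinuousLinearMap.lsmul ℝ ℝ) hf hg x
  rw [h.fderiv]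
  simp only [convolution]
  congr 1

open scoped Convolution in
theorem approx {ψ : En 4 → ℝ} (H : Dec ψ) : ∃ u : ℕ → En 4 → ℝ, (∀ n, u n ∈ Test 4) ∧
    (∃ C, 0 ≤ C ∧ ∀ n x, |u n x| ≤ C * Real.exp (-(‖x‖ / 2)) ∧ ‖gradient (u n) x‖ ≤ C * Real.exp (-(‖x‖ / 2))) ∧
    (∀ x, Tendsto (fun n => u n x) atTop (𝓝 (ψ x))) ∧
    ∀ x, Tendsto (fun n => gradient (u n) x) atTop (𝓝 (gradient ψ x)) := by
  obtain ⟨χ, M, c1, c2, c3, c4, c5⟩ := exists_cut
  obtain ⟨C, hC0, hC⟩ := H.bd'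
  have hM0 : 0 ≤ M := (norm_nonneg _).trans (c4 0 0)
  let φ : ℕ → ContDiffBump (0 : En 4) := fun n => ⟨((n : ℝ) + 2)⁻¹, ((n : ℝ) + 1)⁻¹, by positivity, by
    apply inv_strictAnti₀ <;> [positivity; linarith]⟩
  have hφ1 : ∀ n, (φ n).rOut ≤ 1 := fun n => by
    show ((n : ℝ) + 1)⁻¹ ≤ 1
    exact inv_le_one_of_one_le₀ (by linarith [n.cast_nonneg (α := ℝ)])
  have hφ0 : Tendsto (fun n => (φ n).rOut) atTop (𝓝 0) := by
    show Tendsto (fun n : ℕ => ((n : ℝ) + 1)⁻¹) atTop (𝓝 0)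
    simpa using tendsto_one_div_add_atTop_nhds_zero_nat (𝕜 := ℝ)
  let g : ℕ → En 4 → ℝ := fun n x => χ n x * ψ x
  have cχ : ∀ n, ContDiff ℝ 1 (χ n) := fun n => (c1 n).of_le (by exact_mod_cast le_top)
  have cg : ∀ n, ContDiff ℝ 1 (g n) := fun n => (cχ n).mul H.cd
  have sg : ∀ n, HasCompactSupport (g n) := fun n => (c2 n).mul_right
  have fg : ∀ n x, fderiv ℝ (g n) x = χ n x • fderiv ℝ ψ x + ψ x • fderiv ℝ (χ n) x := fun n x =>
    fderiv_fun_mul ((cχ n).differentiable (by norm_num) x) (H.da x)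
  have bg : ∀ n x, ‖g n x‖ ≤ C * Real.exp (-(‖x‖ / 2)) := fun n x => by
    rw [Real.norm_eq_abs, abs_mul]
    have := mul_le_mul (c3 n x) (hC x).1 (abs_nonneg _) zero_le_one
    linarith
  have bfg : ∀ n x, ‖fderiv ℝ (g n) x‖ ≤ (C + C * M) * Real.exp (-(‖x‖ / 2)) := fun n x => by
    rw [fg]
    refine (norm_add_le _ _).trans ?_
    rw [norm_smul, norm_smul, Real.norm_eq_abs, Real.norm_eq_abs]
    have e1 := mul_le_mul (c3 n x) (hC x).2 (norm_nonneg _) zero_le_one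
    rw [norm_grad] at e1
    have e2 := mul_le_mul (hC x).1 (c4 n x) (norm_nonneg _) (by positivity)
    linarith
  have hfd : ∀ n x, fderiv ℝ ((φ n).normed volume ⋆[ContinuousLinearMap.lsmul ℝ ℝ, volume] (g n)) x =
      ((φ n).normed volume ⋆[ContinuousLinearMap.lsmul ℝ ℝ, volume] (fderiv ℝ (g n))) x := fun n x =>
    fderiv_conv (φ n).continuous_normed.locallyIntegrable (cg n) (sg n) x
  refine ⟨fun n => (φ n).normed volume ⋆[ContinuousLinearMap.lsmul ℝ ℝ, volume] (g n), fun n => ⟨?_, ?_⟩,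
    ⟨3 * ((C + C * M) * Real.exp 1), by positivity, fun n x => ⟨?_, ?_⟩⟩, fun x => ?_, fun x => ?_⟩
  · exact (φ n).hasCompactSupport_normed.contDiff_convolution_left _ (φ n).contDiff_normed
      (cg n).continuous.locallyIntegrable
  · exact HasCompactSupport.convolution _ (φ n).hasCompactSupport_normed (sg n)
  · refine (conv_bd (cg n).continuous (bg n) (φ n) (hφ1 n) x).trans ?_
    have : 0 ≤ 3 * (C * M * Real.exp 1) * Real.exp (-(‖x‖ / 2)) := by positivity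
    linarith
  · rw [norm_grad, hfd]
    exact conv_bd ((cg n).continuous_fderiv (by norm_num)) (bfg n) (φ n) (hφ1 n) x
  · exact conv_lim (fun n => (cg n).continuous) H.c0 (fun n y hy => by simp [g, c5 n y hy]) φ hφ0 x
  · unfold gradient
    refine ((InnerProductSpace.toDual ℝ (En 4)).symm.continuous.tendsto _).comp ?_
    simp_rw [hfd]
    refine conv_lim (fun n => (cg n).continuous_fderiv (by norm_num)) (H.cd.continuous_fderiv (by norm_num)) ?_ φ hφ0 x
    intro n y hy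
    have : g n =ᶠ[𝓝 y] ψ := by
      have ho : IsOpen {z : En 4 | ‖z‖ < (n : ℕ)} := isOpen_lt continuous_norm continuous_const
      filter_upwards [ho.mem_nhds hy] with z hz
      simp [g, c5 n z hz]
    exact this.fderiv_eq

theorem Bf_tendsto {u v : ℕ → En 4 → ℝ} {u0 v0 W : En 4 → ℝ} (hu : ∀ n, Dec (u n)) (hv : ∀ n, Dec (v n))
    (bu : ∃ C, 0 ≤ C ∧ ∀ n x, |u n x| ≤ C * Real.exp (-(‖x‖ / 2)) ∧ ‖gradient (u n) x‖ ≤ C * Real.exp (-(‖x‖ / 2)))
    (bv : ∃ C, 0 ≤ C ∧ ∀ n x, |v n x| ≤ C * Real.exp (-(‖x‖ / 2)) ∧ ‖gradient (v n) x‖ ≤ C * Real.exp (-(‖x‖ / 2)))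
    (tu : ∀ x, Tendsto (fun n => u n x) atTop (𝓝 (u0 x))) (tu' : ∀ x, Tendsto (fun n => gradient (u n) x) atTop (𝓝 (gradient u0 x)))
    (tv : ∀ x, Tendsto (fun n => v n x) atTop (𝓝 (v0 x))) (tv' : ∀ x, Tendsto (fun n => gradient (v n) x) atTop (𝓝 (gradient v0 x)))
    (cW : Continuous W) {K : ℝ} (hW : ∀ x, |W x| ≤ K) (τ : ℝ) :
    Tendsto (fun n => Bf W τ (u n) (v n)) atTop (𝓝 (Bf W τ u0 v0)) := by
  obtain ⟨C1, p1, h1⟩ := bu
  obtain ⟨C2, p2, h2⟩ := bv
  have hK : 0 ≤ K := (abs_nonneg _).trans (hW 0)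
  unfold Bf
  refine tendsto_integral_of_dominated_convergence (fun x => (C1 * C2 * (1 + K + |τ|)) * Real.exp (-‖x‖))
    (fun n => (int_Bf (hu n) (hv n) cW hW τ).aestronglyMeasurable) (int_exp.const_mul _) ?_ ?_
  · intro n
    refine ae_of_all _ fun x => ?_
    rw [Real.norm_eq_abs, ← exp_half_mul]
    set E := Real.exp (-(‖x‖ / 2)) with hE
    have hE0 : 0 ≤ E := (Real.exp_pos _).le
    have e1 : |(inner ℝ (gradient (u n) x) (gradient (v n) x) : ℝ)| ≤ C1 * E * (C2 * E) :=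
      (abs_real_inner_le_norm _ _).trans (mul_le_mul (h1 n x).2 (h2 n x).2 (norm_nonneg _) (by positivity))
    have e2 : |u n x * v n x| ≤ C1 * E * (C2 * E) := by
      rw [abs_mul]
      exact mul_le_mul (h1 n x).1 (h2 n x).1 (abs_nonneg _) (by positivity)
    have e3 : |W x * (u n x * v n x)| ≤ K * (C1 * E * (C2 * E)) := by
      rw [abs_mul]
      exact mul_le_mul (hW x) e2 (abs_nonneg _) hK
    have e4 : |τ * (u n x * v n x)| ≤ |τ| * (C1 * E * (C2 * E)) := by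
      rw [abs_mul]
      exact mul_le_mul_of_nonneg_left e2 (abs_nonneg _)
    have e5 := abs_add_le (inner ℝ (gradient (u n) x) (gradient (v n) x) - W x * (u n x * v n x)) (τ * (u n x * v n x))
    have e6 := abs_sub (inner ℝ (gradient (u n) x) (gradient (v n) x) : ℝ) (W x * (u n x * v n x))
    nlinarith
  · refine ae_of_all _ fun x => ?_
    exact (((tu' x).inner (tv' x)).sub (((tu x).mul (tv x)).const_mul _)).add (((tu x).mul (tv x)).const_mul _)

theorem N4_ge_one' {W : En 4 → ℝ} {τ : ℝ} {u : En 4 → ℝ} (hu : Dec u) (h : Bf W τ u u < 0) (cW : Continuous W)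
    {K : ℝ} (hW : ∀ x, |W x| ≤ K) : 1 ≤ N4 W τ := by
  obtain ⟨f, f1, f2, f3, f4⟩ := approx hu
  have t := Bf_tendsto (fun n => test_dec (f1 n)) (fun n => test_dec (f1 n)) f2 f2 f3 f4 f3 f4 cW hW τ
  obtain ⟨n, hn⟩ := (t.eventually_lt_const h).exists
  exact N4_ge_one (f1 n) hn cW hW

theorem N4_ge_two' {W : En 4 → ℝ} {τ : ℝ} {u v : En 4 → ℝ} (hu : Dec u) (hv : Dec v) (h1 : Bf W τ u u < 0)
    (h2 : Bf W τ u v ^ 2 < Bf W τ u u * Bf W τ v v) (cW : Continuous W)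
    {K : ℝ} (hW : ∀ x, |W x| ≤ K) : 2 ≤ N4 W τ := by
  obtain ⟨f, f1, f2, f3, f4⟩ := approx hu
  obtain ⟨g, g1, g2, g3, g4⟩ := approx hv
  have t1 := Bf_tendsto (fun n => test_dec (f1 n)) (fun n => test_dec (f1 n)) f2 f2 f3 f4 f3 f4 cW hW τ
  have t2 := Bf_tendsto (fun n => test_dec (f1 n)) (fun n => test_dec (g1 n)) f2 g2 f3 f4 g3 g4 cW hW τ
  have t3 := Bf_tendsto (fun n => test_dec (g1 n)) (fun n => test_dec (g1 n)) g2 g2 g3 g4 g3 g4 cW hW τ
  have t4 : Tendsto (fun n => Bf W τ (f n) (g n) ^ 2 - Bf W τ (f n) (f n) * Bf W τ (g n) (g n)) atTop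
      (𝓝 (Bf W τ u v ^ 2 - Bf W τ u u * Bf W τ v v)) := (t2.pow 2).sub (t1.mul t3)
  obtain ⟨n, hn, hn'⟩ := ((t1.eventually_lt_const h1).and (t4.eventually_lt_const (sub_neg.2 h2))).exists
  exact N4_ge_two (f1 n) (g1 n) hn (sub_neg.1 hn') cW hW

theorem weak_trans {γ C' : ℝ} {ψ V : En 4 → ℝ} (B : Bub4 γ C' ψ V) (a : En 4) {h : En 4 → ℝ} (H : Dec h) :
    ∫ x, (inner ℝ (gradient (fun y => ψ (y - a)) x) (gradient h x) : ℝ) = ∫ x, (V (x - a) - 1) * (ψ (x - a) * h x) := by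
  have H2 := H.trans (-a)
  have e := B.weak _ H2.diff H2.cont H2.bd
  rw [← integral_sub_right_eq_self _ a, ← integral_sub_right_eq_self (fun x => (V x - 1) * (ψ x * _)) a] at e
  simp only [grad_trans] at e ⊢
  simpa using e

theorem bub_dec {γ C' : ℝ} {ψ V : En 4 → ℝ} (B : Bub4 γ C' ψ V) : Dec ψ := by
  refine ⟨B.diff, B.cgrad, ?_⟩
  obtain ⟨C, hC⟩ := B.up (1 / 2) (by norm_num)
  refine ⟨C, fun x => ?_⟩
  rw [abs_of_pos (B.pos x)]
  refine (hC x).trans (le_of_eq ?_)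
  congr 2
  ring

theorem Hd_nonneg {γ C' s : ℝ} (hγ : 0 < γ) (hC : 0 < C') (hs : 0 ≤ s) : 0 ≤ Hd γ C' s := by
  unfold Hd
  positivity

theorem Hd_mono {γ C' s t : ℝ} (hγ : 0 < γ) (hC : 0 < C') (hs : 0 ≤ s) (hst : s ≤ t) : Hd γ C' s ≤ Hd γ C' t := by
  unfold Hd
  apply Real.rpow_le_rpow (by positivity) _ (by positivity)
  gcongr

theorem Hd_cont {γ C' : ℝ} (hγ : 0 < γ) : Continuous (Hd γ C') := by
  unfold Hd
  apply Continuous.rpow_const
  · fun_prop
  · intro x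
    right
    positivity

theorem V_Hd {γ C' : ℝ} (hγ : 0 < γ) {ψ V : En 4 → ℝ} (B : Bub4 γ C' ψ V) (x : En 4) : V x = Hd γ C' (ψ x ^ 2) := by
  have h1 := B.V_eq x
  have hC := B.C_pos
  have hV := B.V_pos x
  unfold Hd
  have e : γ * ψ x ^ 2 / ((2 + γ) * C') = V x ^ (1 + γ) := by
    rw [← h1]
    field_simp
  rw [e, ← Real.rpow_mul hV.le]
  rw [mul_one_div_cancel (by positivity), Real.rpow_one]

theorem Bf_bub {γ C' : ℝ} {ψ V W : En 4 → ℝ} (B : Bub4 γ C' ψ V) (a : En 4) {h : En 4 → ℝ} (H : Dec h)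
    {K : ℝ} (hV : ∀ x, |V x| ≤ K) (cW : Continuous W) (hW : ∀ x, |W x| ≤ K) (τ : ℝ) :
    Bf W τ (fun y => ψ (y - a)) h = -(∫ x, (W x - V (x - a)) * (ψ (x - a) * h x)) + (τ - 1) * ∫ x, ψ (x - a) * h x := by
  have H1 := (bub_dec B).trans a
  have cVa : Continuous fun x => V (x - a) := B.cV.comp (continuous_id.sub continuous_const)
  have i1 := int_uv H1 H cW hW
  have i2 := int_uv H1 H cVa (fun x => hV (x - a))
  have i3 := int_uv' H1 H
  have e1 : Bf W τ (fun y => ψ (y - a)) h = (∫ x, (inner ℝ (gradient (fun y => ψ (y - a)) x) (gradient h x) : ℝ)) -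
      (∫ x, W x * (ψ (x - a) * h x)) + τ * ∫ x, ψ (x - a) * h x := by
    have i4 : Integrable fun x => (inner ℝ (gradient (fun y => ψ (y - a)) x) (gradient h x) : ℝ) - W x * (ψ (x - a) * h x) :=
      (int_gg H1 H).sub i1
    unfold Bf
    rw [← integral_const_mul, ← integral_sub (int_gg H1 H) i1, ← integral_add i4 (i3.const_mul τ)]
  have e2 : ∫ x, (V (x - a) - 1) * (ψ (x - a) * h x) = (∫ x, V (x - a) * (ψ (x - a) * h x)) - ∫ x, ψ (x - a) * h x := by
    rw [← integral_sub i2 i3]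
    congr 1
    funext x
    ring
  have e3 : ∫ x, (W x - V (x - a)) * (ψ (x - a) * h x) = (∫ x, W x * (ψ (x - a) * h x)) - ∫ x, V (x - a) * (ψ (x - a) * h x) := by
    rw [← integral_sub i1 i2]
    congr 1
    funext x
    ring
  rw [e1, weak_trans B a H, e2, e3]
  ring

theorem lint_pow {γ lam : ℝ} (hγ : 0 < γ) (hl : 0 < lam) :
    ∫⁻ τ in Ioi (0 : ℝ), ENNReal.ofReal (γ * τ ^ (γ - 1)) * (Iio lam).indicator (fun _ => 1) τ = ENNReal.ofReal (lam ^ γ) := by
  have e1 : ∀ τ : ℝ, ENNReal.ofReal (γ * τ ^ (γ - 1)) * (Iio lam).indicator (fun _ => 1) τ =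
      (Iio lam).indicator (fun τ => ENNReal.ofReal (γ * τ ^ (γ - 1))) τ := by
    intro τ
    by_cases h : τ ∈ Iio lam
    · simp [Set.indicator_of_mem h]
    · simp [Set.indicator_of_notMem h]
  simp_rw [e1]
  rw [lintegral_indicator measurableSet_Iio, Measure.restrict_restrict measurableSet_Iio]
  have e2 : Iio lam ∩ Ioi 0 = Ioo 0 lam := by
    ext x
    simp [and_comm]
  rw [e2, ← ofReal_integral_eq_lintegral_ofReal]
  · rw [← integral_Ioc_eq_integral_Ioo, ← intervalIntegral.integral_of_le hl.le, intervalIntegral.integral_const_mul,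
      integral_rpow (Or.inl (by linarith))]
    rw [sub_add_cancel, Real.zero_rpow hγ.ne', sub_zero]
    congr 1
    field_simp
  · have := (intervalIntegral.intervalIntegrable_rpow' (a := 0) (b := lam) (r := γ - 1) (by linarith)).const_mul γ
    rw [intervalIntegrable_iff_integrableOn_Ioo_of_le hl.le] at this
    exact this
  · filter_upwards [ae_restrict_mem measurableSet_Ioo] with x hx
    have : 0 < x := hx.1
    positivity

end TwoD

open TwoD in
theorem two_trial {γ C' : ℝ} (hγ : 0 < γ) (hγ1 : γ ≤ 1) {ψ V : En 4 → ℝ} (B : Bub4 γ C' ψ V) {D : ℝ} (hS0 : 0 ≤ SI ψ D) (hS : SI ψ D ≤ 1 / 100)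
    (ha0 : 0 ≤ aI γ C' ψ D) (ha : aI γ C' ψ D ≤ 1 / 100) (hb0 : 0 ≤ bI γ C' ψ D) (hb : bI γ C' ψ D ≤ 1 / 100) :
    ENNReal.ofReal ((1 + (aI γ C' ψ D + bI γ C' ψ D) / (1 + SI ψ D)) ^ γ + (1 + (aI γ C' ψ D - bI γ C' ψ D) / (1 - SI ψ D)) ^ γ) ≤
      ∫⁻ τ in Ioi (0 : ℝ), ENNReal.ofReal (γ * τ ^ (γ - 1)) * ((N4 (VD γ C' ψ D) τ : ℕ∞) : ℝ≥0∞) := by
  have hC := B.C_pos
  have Hψ := bub_dec B
  set w : En 4 := (D / 2) • e0v with hw
  set p : En 4 → ℝ := fun x => ψ (x - w) with hp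
  set m : En 4 → ℝ := fun x => ψ (x - -w) with hm
  have Hp : Dec p := Hψ.trans w
  have Hm : Dec m := Hψ.trans (-w)
  have ep : ∀ x, psiP ψ D x = p x := fun x => rfl
  have em : ∀ x, psiM ψ D x = m x := fun x => by
    simp only [psiM, hm, sub_neg_eq_add]
    rfl
  set W : En 4 → ℝ := VD γ C' ψ D with hWdef
  have eW : ∀ x, W x = Hd γ C' (p x ^ 2 + m x ^ 2) := fun x => by
    simp only [hWdef, VD, ep, em]
  have cW : Continuous W := by
    have : W = fun x => Hd γ C' (p x ^ 2 + m x ^ 2) := funext eW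
    rw [this]
    exact (Hd_cont hγ).comp ((Hp.c0.pow 2).add (Hm.c0.pow 2))
  obtain ⟨C, hC0, hCb⟩ := Hψ.bd'
  have hψC : ∀ x, ψ x ^ 2 ≤ C ^ 2 := fun x => by
    have e1 : ψ x ≤ C := by
      have h1 := (hCb x).1
      have h2 : Real.exp (-(‖x‖ / 2)) ≤ 1 := Real.exp_le_one_iff.2 (by have := norm_nonneg x; linarith)
      have h3 := le_abs_self (ψ x)
      nlinarith
    exact pow_le_pow_left₀ (B.pos x).le e1 2
  set K : ℝ := Hd γ C' (C ^ 2 + C ^ 2) with hK
  have hWK : ∀ x, |W x| ≤ K := fun x => by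
    rw [eW, abs_of_nonneg (Hd_nonneg hγ hC (by positivity))]
    exact Hd_mono hγ hC (by positivity) (add_le_add (hψC _) (hψC _))
  have hVK : ∀ x, |V x| ≤ K := fun x => by
    rw [V_Hd hγ B, abs_of_nonneg (Hd_nonneg hγ hC (by positivity))]
    exact Hd_mono hγ hC (by positivity) ((hψC _).trans (by nlinarith [sq_nonneg C]))
  -- reflection
  have hrefl : ∀ x, m (-x) = p x := fun x => by
    simp only [hm, hp]
    apply B.rad
    rw [show -x - -w = -(x - w) by abel, norm_neg]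
  have hrefl' : ∀ x, p (-x) = m x := fun x => by
    have := hrefl (-x)
    rw [neg_neg] at this
    exact this.symm
  have hWr : ∀ x, W (-x) = W x := fun x => by
    rw [eW, eW, hrefl, hrefl', add_comm]
  have hVp : ∀ x, V (x - w) = Hd γ C' (p x ^ 2) := fun x => V_Hd hγ B _
  have hVm : ∀ x, V (x - -w) = Hd γ C' (m x ^ 2) := fun x => V_Hd hγ B _
  -- the integrals
  have ia : ∫ x, (W x - V (x - w)) * (p x * p x) = aI γ C' ψ D := by
    unfold aI
    congr 1
    funext x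
    rw [hVp, VP, ep]
    ring
  have ia' : ∫ x, (W x - V (x - -w)) * (m x * m x) = aI γ C' ψ D := by
    rw [← ia, ← integral_neg_eq_self]
    congr 1
    funext x
    rw [hVp, hVm, hWr, hrefl]
  have ib : ∫ x, (W x - V (x - w)) * (p x * m x) = bI γ C' ψ D := by
    unfold bI
    congr 1
    funext x
    rw [hVp, VP, ep, em]
  have iS : ∫ x, p x * m x = SI ψ D := by
    unfold SI
    congr 1
    funext x
    rw [ep, em]
  have ip : ∫ x, p x * p x = 1 := by
    rw [← B.norm, ← integral_sub_right_eq_self (fun x => ψ x ^ 2) w]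
    congr 1
    funext x
    simp only [hp]
    ring
  have im : ∫ x, m x * m x = 1 := by
    rw [← B.norm, ← integral_sub_right_eq_self (fun x => ψ x ^ 2) (-w)]
    congr 1
    funext x
    simp only [hm]
    ring
  set a := aI γ C' ψ D
  set b := bI γ C' ψ D
  set S := SI ψ D
  have qpp : ∀ τ, Bf W τ p p = -a + (τ - 1) := fun τ => by
    have := Bf_bub B w Hp hVK cW hWK τ
    rw [ia, ip, mul_one] at this
    exact this
  have qmm : ∀ τ, Bf W τ m m = -a + (τ - 1) := fun τ => by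
    have := Bf_bub B (-w) Hm hVK cW hWK τ
    rw [ia', im, mul_one] at this
    exact this
  have qpm : ∀ τ, Bf W τ p m = -b + (τ - 1) * S := fun τ => by
    have := Bf_bub B w Hm hVK cW hWK τ
    rw [ib, iS] at this
    exact this
  -- trial functions
  set u : En 4 → ℝ := (1 : ℝ) • p + (1 : ℝ) • m with hu
  set v : En 4 → ℝ := (1 : ℝ) • p + (-1 : ℝ) • m with hv
  have Hu : Dec u := (Hp.smul 1).add (Hm.smul 1)
  have Hv : Dec v := (Hp.smul 1).add (Hm.smul (-1))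
  have quu : ∀ τ, Bf W τ u u = 2 * ((τ - 1) * (1 + S) - (a + b)) := fun τ => by
    rw [hu, Bf_comb2 Hp Hm cW hWK, qpp, qmm, qpm]
    ring
  have qvv : ∀ τ, Bf W τ v v = 2 * ((τ - 1) * (1 - S) - (a - b)) := fun τ => by
    rw [hv, Bf_comb2 Hp Hm cW hWK, qpp, qmm, qpm]
    ring
  have quv : ∀ τ, Bf W τ u v = 0 := fun τ => by
    rw [hu, hv, Bf_comb2 Hp Hm cW hWK, qpp, qmm, qpm]
    ring
  set lp : ℝ := 1 + (a + b) / (1 + S) with hlp
  set lm : ℝ := 1 + (a - b) / (1 - S) with hlm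
  have hS1 : 0 < 1 + S := by linarith
  have hS2 : 0 < 1 - S := by linarith
  have hlp0 : 0 < lp := by positivity
  have hlm0 : 0 < lm := by
    have : -(1 / 2) ≤ (a - b) / (1 - S) := by
      rw [le_div_iff₀ hS2]
      nlinarith
    linarith
  have nu : ∀ τ, τ < lp → Bf W τ u u < 0 := fun τ hτ => by
    rw [quu]
    have : τ - 1 < (a + b) / (1 + S) := by linarith
    rw [lt_div_iff₀ hS1] at this
    linarith
  have nv : ∀ τ, τ < lm → Bf W τ v v < 0 := fun τ hτ => by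
    rw [qvv]
    have : τ - 1 < (a - b) / (1 - S) := by linarith
    rw [lt_div_iff₀ hS2] at this
    linarith
  have key : ∀ τ, ((Iio lp).indicator (fun _ => (1 : ℝ≥0∞)) τ + (Iio lm).indicator (fun _ => 1) τ) ≤
      ((N4 W τ : ℕ∞) : ℝ≥0∞) := by
    intro τ
    by_cases h1 : τ < lp
    · by_cases h2 : τ < lm
      · rw [Set.indicator_of_mem (Set.mem_Iio.2 h1), Set.indicator_of_mem (Set.mem_Iio.2 h2)]
        have h3 : 2 ≤ N4 W τ := N4_ge_two' Hu Hv (nu τ h1) (by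
          rw [quv]
          have := mul_pos_of_neg_of_neg (nu τ h1) (nv τ h2)
          simpa using this) cW hWK
        have h4 : ((2 : ℕ∞) : ℝ≥0∞) ≤ ((N4 W τ : ℕ∞) : ℝ≥0∞) := ENat.toENNReal_le.2 h3
        refine le_trans (le_of_eq ?_) h4
        norm_num
      · rw [Set.indicator_of_mem (Set.mem_Iio.2 h1), Set.indicator_of_notMem (by simpa using h2), add_zero]
        have h3 : 1 ≤ N4 W τ := N4_ge_one' Hu (nu τ h1) cW hWK
        have h4 : ((1 : ℕ∞) : ℝ≥0∞) ≤ ((N4 W τ : ℕ∞) : ℝ≥0∞) := ENat.toENNReal_le.2 h3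
        refine le_trans (le_of_eq ?_) h4
        norm_num
    · by_cases h2 : τ < lm
      · rw [Set.indicator_of_notMem (by simpa using h1), Set.indicator_of_mem (Set.mem_Iio.2 h2), zero_add]
        have h3 : 1 ≤ N4 W τ := N4_ge_one' Hv (nv τ h2) cW hWK
        have h4 : ((1 : ℕ∞) : ℝ≥0∞) ≤ ((N4 W τ : ℕ∞) : ℝ≥0∞) := ENat.toENNReal_le.2 h3
        refine le_trans (le_of_eq ?_) h4
        norm_num
      · rw [Set.indicator_of_notMem (by simpa using h1), Set.indicator_of_notMem (by simpa using h2), zero_add]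
        exact bot_le
  rw [ENNReal.ofReal_add (by positivity) (by positivity), ← lint_pow hγ hlp0, ← lint_pow hγ hlm0,
    ← lintegral_add_left]
  · refine lintegral_mono fun τ => ?_
    simp only
    rw [← mul_add]
    gcongr
    exact key τ
  · apply Measurable.mul
    · exact (Measurable.const_mul (by fun_prop) _).ennreal_ofReal
    · exact measurable_const.indicator measurableSet_Iio

end Pool.Agent.RLT40
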