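import Pool.Agent.RLT40.CLRb
import Pool.Agent.RLT40.GNf
import Pool.Agent.RLT40.PartB
import Pool.Agent.RLT40.RadB
import Pool.Agent.RLT40.RedA
import Pool.Agent.RLT40.RedC
import Pool.Agent.RLT40.TwoA
import Pool.Agent.RLT40.TwoB
import Pool.Agent.RLT40.TwoC
import Pool.Agent.RLT40.TwoD

/-!
# FINAL (helper40): the theorem.
-/

open MeasureTheory Set
open scoped ENNReal NNReal

namespace Pool.Agent.RLT40

theorem fin_bern {γ x : ℝ} (hγ : 0 < γ) (hx : |x| ≤ 1 / 30) : 1 + γ * (x - 1.04 * x ^ 2) ≤ (1 + x) ^ γ := by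
  have h1 := abs_le.1 hx
  have hpos : 0 < 1 + x := by linarith [h1.1]
  have h2 : x - 1.04 * x ^ 2 ≤ Real.log (1 + x) := by
    have h3 := Real.one_sub_inv_le_log_of_pos hpos
    refine le_trans ?_ h3
    have h4 : 1 - (1 + x)⁻¹ = x - x ^ 2 * (1 + x)⁻¹ := by field_simp; ring
    rw [h4]
    have h5 : (1 + x)⁻¹ ≤ 1.04 := by
      rw [inv_le_comm₀ hpos (by norm_num)]
      have : (1.04 : ℝ)⁻¹ ≤ 29 / 30 := by norm_num
      linarith [h1.1]
    nlinarith [sq_nonneg x]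
  rw [Real.rpow_def_of_pos hpos]
  have h6 := Real.add_one_le_exp (Real.log (1 + x) * γ)
  nlinarith

theorem fin_two {γ a b S : ℝ} (hγ : 0 < γ) (hS0 : 0 ≤ S) (hS : S ≤ 1 / 100)
    (ha0 : 0 < a) (ha : a ≤ 1 / 100) (hb0 : 0 ≤ b) (hb : b ≤ 1 / 100)
    (h : 1.1 * (b * S) + 3 * (a + b) ^ 2 < a / 2) :
    2 + 2 * γ * a / (2 + γ) < (1 + (a + b) / (1 + S)) ^ γ + (1 + (a - b) / (1 - S)) ^ γ := by
  have s1 : 0 < 1 + S := by linarith
  have s2 : 0 < 1 - S := by linarith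
  set x := (a + b) / (1 + S) with hx
  set y := (a - b) / (1 - S) with hy
  have hx0 : 0 ≤ x := by positivity
  have hx1 : x ≤ a + b := div_le_self (by positivity) (by linarith)
  have hy1 : |y| ≤ (a + b) * (1 / 0.99) := by
    rw [hy, abs_div, abs_of_pos s2, div_eq_mul_inv]
    have : |a - b| ≤ a + b := by
      rw [abs_le]; constructor <;> linarith
    have h3 : (1 - S)⁻¹ ≤ 1 / 0.99 := by
      rw [one_div]; exact inv_anti₀ (by norm_num) (by linarith)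
    have h4 : 0 ≤ (1 - S)⁻¹ := inv_nonneg.2 s2.le
    exact mul_le_mul this h3 h4 (by positivity)
  have hxb := fin_bern hγ (x := x) (by rw [abs_of_nonneg hx0]; linarith)
  have hyb := fin_bern hγ (x := y) (by
    refine hy1.trans ?_
    have : (a + b) ≤ 1 / 50 := by linarith
    calc (a + b) * (1 / 0.99) ≤ (1 / 50) * (1 / 0.99) := by gcongr
      _ ≤ 1 / 30 := by norm_num)
  have hx2 : x ^ 2 ≤ (a + b) ^ 2 := by gcongr
  have hy2 : y ^ 2 ≤ (a + b) ^ 2 * (1 / 0.99) ^ 2 := by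
    rw [← mul_pow, ← sq_abs y]; gcongr
  have hsum : 2 * a - 2.001 * (b * S) ≤ x + y := by
    have e1 : x + y = (2 * a - 2 * (b * S)) / (1 - S ^ 2) := by
      rw [hx, hy, show 1 - S ^ 2 = (1 + S) * (1 - S) by ring]
      field_simp
      ring
    have s3 : 0 < 1 - S ^ 2 := by nlinarith
    rw [e1, le_div_iff₀ s3]
    have hbS : 0 ≤ b * S := mul_nonneg hb0 hS0
    have hS2 : S ^ 2 ≤ 1 / 10000 := by nlinarith
    have : 0 ≤ a * S ^ 2 := by positivity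
    nlinarith [mul_nonneg hbS (sq_nonneg S)]
  have hfrac : 2 * γ * a / (2 + γ) ≤ γ * a := by
    rw [div_le_iff₀ (by linarith)]
    nlinarith [mul_pos hγ ha0, mul_pos hγ (mul_pos hγ ha0)]
  have hbS : 0 ≤ b * S := mul_nonneg hb0 hS0
  have hq : 0 ≤ (a + b) ^ 2 := sq_nonneg _
  have hk : a < (x + y) - 1.04 * (x ^ 2 + y ^ 2) := by
    have hz : ((1 : ℝ) / 0.99) ^ 2 ≤ 1.03 := by norm_num
    have hy3 : y ^ 2 ≤ 1.03 * (a + b) ^ 2 := by
      refine hy2.trans ?_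
      rw [mul_comm]
      gcongr
    nlinarith
  have hk2 := mul_lt_mul_of_pos_left hk hγ
  nlinarith

theorem Lcl_pos {γ : ℝ} (hγ : 0 < γ) : 0 < Lcl γ := by unfold Lcl; positivity

/-- upper bound of the ratio from a bound of the Riesz mean -/
theorem ratio_le_of {γ C : ℝ} (hγ : 0 < γ) {V : En 4 → ℝ} (h : Adm γ V)
    (hb : (∫⁻ τ in Ioi (0 : ℝ), ENNReal.ofReal (γ * τ ^ (γ - 1)) * ((N4 (fun x => max (-V x) 0) τ : ℕ∞) : ℝ≥0∞)) ≤
      ENNReal.ofReal C * ∫⁻ x, ENNReal.ofReal (max (-V x) 0 ^ (2 + γ))) :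
    ratio γ V ≤ ENNReal.ofReal C / ENNReal.ofReal (Lcl γ) := by
  have h4 := adm4_of_adm h
  obtain ⟨hX0, hXt⟩ := lint_pos hγ h4
  have hL : ENNReal.ofReal (Lcl γ) ≠ 0 := by simpa using Lcl_pos hγ
  unfold ratio
  rw [phase_eq hγ h]
  have h1 : riesz γ V ≤ ENNReal.ofReal C * ∫⁻ x, ENNReal.ofReal (max (-V x) 0 ^ (2 + γ)) :=
    (riesz_le hγ h).trans ((riesz_eq hγ h4).le.trans hb)
  refine (ENNReal.div_le_div_right h1 _).trans ?_
  rw [ENNReal.mul_div_mul_right _ _ hX0 hXt]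

/-- In dimension four, for all small `γ > 0`, the radial supremum is strictly smaller than the full (finite) supremum. -/
theorem main : ∃ γ₀ > 0, ∀ γ : ℝ, 0 < γ → γ < γ₀ → Rrad 4 γ < Rn 4 γ ∧ Rn 4 γ < ⊤ := by
  obtain ⟨γ₁, hγ₁, hB⟩ := partB
  obtain ⟨Cc, hCc, hclr⟩ := clr_riesz
  refine ⟨min γ₁ 1, lt_min hγ₁ one_pos, fun γ hγ hlt => ?_⟩
  have g1 : γ < γ₁ := hlt.trans_le (min_le_left _ _)
  have g2 : γ ≤ 1 := (hlt.trans_le (min_le_right _ _)).le
  have hL : ENNReal.ofReal (Lcl γ) ≠ 0 := by simpa using Lcl_pos hγ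
  have hLt : ENNReal.ofReal (Lcl γ) ≠ ⊤ := ENNReal.ofReal_ne_top
  constructor
  · obtain ⟨C₁, f, g, U, hO, B⟩ := exists_bubble hγ g2
    have hC₁ := B.C_pos
    obtain ⟨ψ, V, B4⟩ := bub4_of_bubble hγ g2 B
    set C' := C₁ / (2 * Real.pi ^ 2) with hC'
    have hC'pos : 0 < C' := by positivity
    have hbox := hB γ hγ g1 C₁ hC₁ hO
    -- radial side
    have hrad : Rrad 4 γ ≤ ENNReal.ofReal C' / ENNReal.ofReal (Lcl γ) := by
      unfold Rrad
      refine iSup₂_le fun V hV => ?_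
      refine ratio_le_of hγ hV.1 ?_
      refine rad_bound hγ hC₁ hbox (adm4_of_adm hV.1) ?_
      intro x y hxy
      simp only [hV.2 x y hxy]
    refine lt_of_le_of_lt hrad ?_
    -- the two-bubble potential
    obtain ⟨D, hD, ha0, ha, hb0, hb, hS0, hS, hint⟩ := two_int hγ g2 B4
    obtain ⟨hW, hmass⟩ := two_mass hγ g2 B4 D
    have htr := two_trial hγ g2 B4 hS0 hS ha0.le ha hb0 hb
    have hnum := fin_two hγ hS0 hS ha0 ha hb0 hb hint
    set W := VD γ C' ψ D with hWdef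
    have hadm : Adm γ (fun x => -W x) := adm_of_adm4 hW
    have hle : ratio γ (fun x => -W x) ≤ Rn 4 γ := le_iSup₂ (f := fun (V : En 4 → ℝ) (_ : Adm γ V) => ratio γ V) _ hadm
    refine lt_of_lt_of_le ?_ hle
    unfold ratio
    rw [riesz_eq hγ hW, phase_eq hγ hadm]
    have hmax : ∀ x, max (-(-W x)) 0 = W x := fun x => by
      rw [neg_neg]; exact max_eq_left (hW.1 x)
    simp only [hmax]
    obtain ⟨hX0, hXt⟩ := lint_pos hγ hW
    set X := ∫⁻ x, ENNReal.ofReal (W x ^ (2 + γ)) with hX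
    have hC0 : ENNReal.ofReal C' ≠ 0 := by simpa using hC'pos
    have key : ENNReal.ofReal C' * X < ∫⁻ τ in Ioi (0 : ℝ), ENNReal.ofReal (γ * τ ^ (γ - 1)) * ((N4 W τ : ℕ∞) : ℝ≥0∞) := by
      rw [hmass]
      refine lt_of_lt_of_le ?_ htr
      rw [ENNReal.ofReal_lt_ofReal_iff']
      refine ⟨hnum, ?_⟩
      refine lt_trans ?_ hnum
      positivity
    have e1 : ENNReal.ofReal C' / ENNReal.ofReal (Lcl γ) = (ENNReal.ofReal C' * X) / (ENNReal.ofReal (Lcl γ) * X) := by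
      rw [ENNReal.mul_div_mul_right _ _ hX0 hXt]
    rw [e1]
    refine ENNReal.div_lt_div_right ?_ ?_ key
    · exact mul_ne_zero hL hX0
    · exact ENNReal.mul_ne_top hLt hXt
  · have : Rn 4 γ ≤ ENNReal.ofReal Cc / ENNReal.ofReal (Lcl γ) := by
      unfold Rn
      refine iSup₂_le fun V hV => ?_
      exact ratio_le_of hγ hV (hclr γ hγ _ (adm4_of_adm hV))
    exact lt_of_le_of_lt this (ENNReal.div_lt_top ENNReal.ofReal_ne_top hL)

end Pool.Agent.RLT40
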