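import Pool.Agent.RLT40.OneD

/-!
# Module ODE: linear second order equations `f'' = V f`, `V` continuous, on the whole line.

Proofs.  `exists_sol`: explicit Picard series with factorial bounds.  `unique`: Gronwall.  The rest is elementary.
-/

open MeasureTheory Set
open scoped ENNReal NNReal

namespace Pool.Agent.RLT40

/-- Picard iterates (value, derivative) -/
private noncomputable def pic (V : ℝ → ℝ) (x0 y0 y1 : ℝ) : ℕ → (ℝ → ℝ) × (ℝ → ℝ)
  | 0 => (fun x => y0 + y1 * (x - x0), fun _ => y1)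
  | n + 1 => (fun x => ∫ t in x0..x, (∫ s in x0..t, V s * (pic V x0 y0 y1 n).1 s),
      fun x => ∫ s in x0..x, V s * (pic V x0 y0 y1 n).1 s)

private theorem pic_facts {V : ℝ → ℝ} (hV : Continuous V) (x0 y0 y1 : ℝ) (n : ℕ) :
    (∀ x, HasDerivAt (pic V x0 y0 y1 n).1 ((pic V x0 y0 y1 n).2 x) x) ∧
      Continuous (pic V x0 y0 y1 n).1 ∧ Continuous (pic V x0 y0 y1 n).2 := by
  have key : ∀ {h : ℝ → ℝ}, Continuous h → ∀ x, HasDerivAt (fun y => ∫ s in x0..y, h s) (h x) x := by
    intro h hh x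
    exact (hh.integral_hasStrictDerivAt x0 x).hasDerivAt
  induction n with
  | zero =>
    refine ⟨fun x => ?_, ?_, ?_⟩
    · have := (((hasDerivAt_id x).sub_const x0).const_mul y1).const_add y0
      simpa [pic] using this
    · simp only [pic]; fun_prop
    · simp only [pic]; fun_prop
  | succ n ih =>
    obtain ⟨h1, h2, h3⟩ := ih
    have c1 : Continuous fun s => V s * (pic V x0 y0 y1 n).1 s := hV.mul h2
    have c2 : Continuous (pic V x0 y0 y1 (n + 1)).2 :=
      continuous_iff_continuousAt.2 fun x => (key c1 x).continuousAt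
    have d1 : ∀ x, HasDerivAt (pic V x0 y0 y1 (n + 1)).1 ((pic V x0 y0 y1 (n + 1)).2 x) x := by
      intro x
      exact key c2 x
    exact ⟨d1, continuous_iff_continuousAt.2 fun x => (d1 x).continuousAt, c2⟩

private theorem pic_deriv2 {V : ℝ → ℝ} (hV : Continuous V) (x0 y0 y1 : ℝ) (n : ℕ) (x : ℝ) :
    HasDerivAt (pic V x0 y0 y1 (n + 1)).2 (V x * (pic V x0 y0 y1 n).1 x) x := by
  have c1 : Continuous fun s => V s * (pic V x0 y0 y1 n).1 s := hV.mul (pic_facts hV x0 y0 y1 n).2.1
  exact (c1.integral_hasStrictDerivAt x0 x).hasDerivAt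

private theorem int_bound {h : ℝ → ℝ} (hh : Continuous h) {x0 x c : ℝ} {n : ℕ}
    (hb : ∀ t ∈ uIcc x0 x, |h t| ≤ c * |t - x0| ^ n) :
    |∫ t in x0..x, h t| ≤ c * (|x - x0| ^ (n + 1) / (n + 1)) := by
  calc |∫ t in x0..x, h t| ≤ ∫ t in uIoc x0 x, ‖h t‖ := by
        rw [← Real.norm_eq_abs]
        exact intervalIntegral.norm_integral_le_integral_norm_uIoc
    _ ≤ ∫ t in uIoc x0 x, c * |t - x0| ^ n := by
        apply setIntegral_mono_on
        · exact (hh.norm.intervalIntegrable x0 x).def'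
        · exact ((by fun_prop : Continuous fun t : ℝ => c * |t - x0| ^ n).intervalIntegrable x0 x).def'
        · exact measurableSet_uIoc
        · intro t ht
          exact hb t (uIoc_subset_uIcc ht)
    _ = c * (|x - x0| ^ (n + 1) / (n + 1)) := by
        rw [integral_const_mul, integral_pow_abs_sub_uIoc]

private theorem pic_bound {V : ℝ → ℝ} (hV : Continuous V) (x0 y0 y1 : ℝ) {R M : ℝ} (hM : 0 ≤ M)
    (hb : ∀ t, |t - x0| ≤ R → |V t| ≤ M) (n : ℕ) :
    ∀ x, |x - x0| ≤ R →
      |(pic V x0 y0 y1 n).1 x| ≤ (|y0| + |y1| * R) * (M * R) ^ n / n.factorial * |x - x0| ^ n ∧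
      |(pic V x0 y0 y1 (n + 1)).2 x| ≤
        (|y0| + |y1| * R) * (M * R) ^ n / (n + 1).factorial * M * |x - x0| ^ (n + 1) := by
  induction n with
  | zero =>
    intro x hx
    have hR : 0 ≤ R := le_trans (abs_nonneg _) hx
    have e1 : ∀ t, |t - x0| ≤ R → |(pic V x0 y0 y1 0).1 t| ≤ |y0| + |y1| * R := by
      intro t ht
      simp only [pic]
      calc |y0 + y1 * (t - x0)| ≤ |y0| + |y1 * (t - x0)| := abs_add_le _ _
        _ = |y0| + |y1| * |t - x0| := by rw [abs_mul]
        _ ≤ |y0| + |y1| * R := by gcongr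
    constructor
    · simpa using e1 x hx
    · have := int_bound (hV.mul (pic_facts hV x0 y0 y1 0).2.1) (x0 := x0) (x := x)
        (c := (|y0| + |y1| * R) * M) (n := 0) (by
          intro t ht
          have ht' : |t - x0| ≤ R := le_trans (abs_sub_left_of_mem_uIcc ht) hx
          show |V t * (pic V x0 y0 y1 0).1 t| ≤ _
          rw [abs_mul, pow_zero, mul_one, mul_comm]
          exact mul_le_mul (e1 t ht') (hb t ht') (abs_nonneg _) (by positivity))
      have e2 : (pic V x0 y0 y1 (0 + 1)).2 x = ∫ t in x0..x, (V * (pic V x0 y0 y1 0).1) t := rfl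
      rw [e2]
      simpa using this
  | succ n ih =>
    intro x hx
    have hR : 0 ≤ R := le_trans (abs_nonneg _) hx
    have hn : (0 : ℝ) < ((n + 1).factorial : ℝ) := by positivity
    -- bound for the value of the next iterate
    have e1 : ∀ t, |t - x0| ≤ R → |(pic V x0 y0 y1 (n + 1)).1 t| ≤
        (|y0| + |y1| * R) * (M * R) ^ (n + 1) / (n + 1).factorial * |t - x0| ^ (n + 1) := by
      intro t ht
      have h1 := int_bound (pic_facts hV x0 y0 y1 (n + 1)).2.2 (x0 := x0) (x := t)
        (c := (|y0| + |y1| * R) * (M * R) ^ n / (n + 1).factorial * M * |t - x0| ^ (n + 1)) (n := 0) (by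
          intro s hs
          have hs1 : |s - x0| ≤ |t - x0| := abs_sub_left_of_mem_uIcc hs
          refine le_trans (ih s (hs1.trans ht)).2 ?_
          rw [pow_zero, mul_one]
          gcongr)
      have h2 : |(pic V x0 y0 y1 (n + 1)).1 t| ≤
          (|y0| + |y1| * R) * (M * R) ^ n / (n + 1).factorial * M * |t - x0| ^ (n + 1) * |t - x0| := by
        have e2 : (pic V x0 y0 y1 (n + 1)).1 t = ∫ s in x0..t, (pic V x0 y0 y1 (n + 1)).2 s := rfl
        rw [e2]
        simpa using h1
      refine le_trans h2 ?_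
      have h3 : (|y0| + |y1| * R) * (M * R) ^ n / (n + 1).factorial * M * |t - x0| ^ (n + 1) * |t - x0| ≤
          (|y0| + |y1| * R) * (M * R) ^ n / (n + 1).factorial * M * |t - x0| ^ (n + 1) * R := by
        gcongr
      refine le_trans h3 (le_of_eq ?_)
      rw [pow_succ (M * R)]
      ring
    constructor
    · exact e1 x hx
    · have := int_bound (hV.mul (pic_facts hV x0 y0 y1 (n + 1)).2.1) (x0 := x0) (x := x)
        (c := (|y0| + |y1| * R) * (M * R) ^ (n + 1) / (n + 1).factorial * M) (n := n + 1) (by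
          intro t ht
          have ht' : |t - x0| ≤ R := le_trans (abs_sub_left_of_mem_uIcc ht) hx
          show |V t * (pic V x0 y0 y1 (n + 1)).1 t| ≤ _
          rw [abs_mul, mul_comm]
          refine le_trans (mul_le_mul (e1 t ht') (hb t ht') (abs_nonneg _) (by positivity)) (le_of_eq ?_)
          ring)
      have e2 : (pic V x0 y0 y1 (n + 1 + 1)).2 x = ∫ t in x0..x, (V * (pic V x0 y0 y1 (n + 1)).1) t := rfl
      rw [e2]
      refine le_trans this (le_of_eq ?_)
      rw [Nat.factorial_succ (n + 1)]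
      push_cast
      field_simp

/-- the second derivatives of the Picard iterates -/
private noncomputable def pic2 (V : ℝ → ℝ) (x0 y0 y1 : ℝ) : ℕ → ℝ → ℝ
  | 0 => fun _ => 0
  | n + 1 => fun x => V x * (pic V x0 y0 y1 n).1 x

private theorem pic2_deriv {V : ℝ → ℝ} (hV : Continuous V) (x0 y0 y1 : ℝ) (n : ℕ) (x : ℝ) :
    HasDerivAt (pic V x0 y0 y1 n).2 (pic2 V x0 y0 y1 n x) x := by
  cases n with
  | zero => simpa [pic, pic2] using hasDerivAt_const x y1
  | succ n => exact pic_deriv2 hV x0 y0 y1 n x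

private theorem exists_bounds {V : ℝ → ℝ} (hV : Continuous V) (x0 y0 y1 : ℝ) {R : ℝ} (hR : 0 ≤ R) :
    ∃ u v w : ℕ → ℝ, Summable u ∧ Summable v ∧ Summable w ∧ ∀ n x, |x - x0| ≤ R →
      |(pic V x0 y0 y1 n).1 x| ≤ u n ∧ |(pic V x0 y0 y1 n).2 x| ≤ v n ∧ |pic2 V x0 y0 y1 n x| ≤ w n := by
  obtain ⟨M, hM⟩ := (isCompact_Icc (a := x0 - R) (b := x0 + R)).exists_bound_of_continuousOn hV.continuousOn
  have hx0 : |V x0| ≤ M := hM x0 ⟨by linarith, by linarith⟩
  have hM0 : 0 ≤ M := le_trans (abs_nonneg _) hx0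
  have hb : ∀ t, |t - x0| ≤ R → |V t| ≤ M := by
    intro t ht
    rw [abs_le] at ht
    exact hM t ⟨by linarith, by linarith⟩
  set A := |y0| + |y1| * R with hA
  have hA0 : 0 ≤ A := by positivity
  have hu : Summable fun n : ℕ => A * ((M * R * R) ^ n / n.factorial) :=
    (Real.summable_pow_div_factorial (M * R * R)).mul_left A
  refine ⟨fun n => A * ((M * R * R) ^ n / n.factorial),
    fun n => match n with | 0 => |y1| | k + 1 => M * R * (A * ((M * R * R) ^ k / k.factorial)),
    fun n => match n with | 0 => 0 | k + 1 => M * (A * ((M * R * R) ^ k / k.factorial)), hu, ?_, ?_, ?_⟩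
  · exact (summable_nat_add_iff 1).1 (hu.mul_left (M * R))
  · exact (summable_nat_add_iff 1).1 (hu.mul_left M)
  · intro n x hx
    have h1 : ∀ n, |(pic V x0 y0 y1 n).1 x| ≤ A * ((M * R * R) ^ n / n.factorial) := by
      intro n
      refine le_trans (pic_bound hV x0 y0 y1 hM0 hb n x hx).1 ?_
      have : A * (M * R) ^ n / n.factorial * |x - x0| ^ n ≤ A * (M * R) ^ n / n.factorial * R ^ n := by
        gcongr
      refine le_trans this (le_of_eq ?_)
      rw [mul_pow (M * R) R n]
      ring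
    refine ⟨h1 n, ?_, ?_⟩
    · cases n with
      | zero => simp [pic]
      | succ n =>
        refine le_trans (pic_bound hV x0 y0 y1 hM0 hb n x hx).2 ?_
        show A * (M * R) ^ n / (n + 1).factorial * M * |x - x0| ^ (n + 1) ≤
          M * R * (A * ((M * R * R) ^ n / n.factorial))
        have h2 : A * (M * R) ^ n / (n + 1).factorial * M * |x - x0| ^ (n + 1) ≤
            A * (M * R) ^ n / n.factorial * M * R ^ (n + 1) := by
          have : (n.factorial : ℝ) ≤ ((n + 1).factorial : ℝ) := by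
            exact_mod_cast Nat.factorial_le (Nat.le_succ n)
          gcongr
        refine le_trans h2 (le_of_eq ?_)
        rw [mul_pow (M * R) R n]
        ring
    · cases n with
      | zero => simp [pic2]
      | succ n =>
        show |V x * (pic V x0 y0 y1 n).1 x| ≤ M * (A * ((M * R * R) ^ n / n.factorial))
        rw [abs_mul]
        exact mul_le_mul (hb x hx) (h1 n) (abs_nonneg _) hM0

theorem exists_sol {V : ℝ → ℝ} (hV : Continuous V) (x0 y0 y1 : ℝ) :
    ∃ f g : ℝ → ℝ, Sol V f g ∧ f x0 = y0 ∧ g x0 = y1 := by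
  have hz : ∀ n, (pic V x0 y0 y1 (n + 1)).1 x0 = 0 ∧ (pic V x0 y0 y1 (n + 1)).2 x0 = 0 := by
    intro n
    simp [pic]
  refine ⟨fun x => ∑' n, (pic V x0 y0 y1 n).1 x, fun x => ∑' n, (pic V x0 y0 y1 n).2 x, ⟨?_, ?_⟩, ?_, ?_⟩
  · intro x
    obtain ⟨u, v, w, hu, hv, hw, hb⟩ := exists_bounds hV x0 y0 y1 (R := |x - x0| + 1) (by positivity)
    have hx : x ∈ Metric.ball x0 (|x - x0| + 1) := by
      rw [Metric.mem_ball, Real.dist_eq]; linarith
    exact hasDerivAt_tsum_of_isPreconnected hv Metric.isOpen_ball (convex_ball x0 _).isPreconnected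
      (fun n y _ => (pic_facts hV x0 y0 y1 n).1 y)
      (fun n y hy => (hb n y (by rw [Metric.mem_ball, Real.dist_eq] at hy; exact hy.le)).2.1) hx
      (Summable.of_norm_bounded hu fun n => (hb n x (by linarith)).1) hx
  · intro x
    obtain ⟨u, v, w, hu, hv, hw, hb⟩ := exists_bounds hV x0 y0 y1 (R := |x - x0| + 1) (by positivity)
    have hx : x ∈ Metric.ball x0 (|x - x0| + 1) := by
      rw [Metric.mem_ball, Real.dist_eq]; linarith
    have h1 := hasDerivAt_tsum_of_isPreconnected hw Metric.isOpen_ball (convex_ball x0 _).isPreconnected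
      (fun n y _ => pic2_deriv hV x0 y0 y1 n y)
      (fun n y hy => (hb n y (by rw [Metric.mem_ball, Real.dist_eq] at hy; exact hy.le)).2.2) hx
      (Summable.of_norm_bounded hv fun n => (hb n x (by linarith)).2.1) hx
    have h2 : ∑' n, pic2 V x0 y0 y1 n x = V x * ∑' n, (pic V x0 y0 y1 n).1 x := by
      have hs : Summable fun n => pic2 V x0 y0 y1 n x :=
        Summable.of_norm_bounded hw fun n => (hb n x (by linarith)).2.2
      rw [hs.tsum_eq_zero_add, ← tsum_mul_left]
      simp [pic2]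
    rw [h2] at h1
    exact h1
  · show ∑' n, (pic V x0 y0 y1 n).1 x0 = y0
    rw [tsum_eq_single 0]
    · simp [pic]
    · intro n hn
      obtain ⟨k, rfl⟩ := Nat.exists_eq_succ_of_ne_zero hn
      exact (hz k).1
  · show ∑' n, (pic V x0 y0 y1 n).2 x0 = y1
    rw [tsum_eq_single 0]
    · simp [pic]
    · intro n hn
      obtain ⟨k, rfl⟩ := Nat.exists_eq_succ_of_ne_zero hn
      exact (hz k).2

theorem Sol.unique {V f g f' g' : ℝ → ℝ} (hV : Continuous V) (h : Sol V f g) (h' : Sol V f' g') {x0 : ℝ}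
    (h0 : f x0 = f' x0) (h1 : g x0 = g' x0) : f = f' ∧ g = g' := by
  have key : ∀ x, f x = f' x ∧ g x = g' x := by
    intro x
    set R := |x - x0| + 1 with hR
    obtain ⟨M, hM⟩ := (isCompact_Icc (a := x0 - R) (b := x0 + R)).exists_bound_of_continuousOn hV.continuousOn
    have hR0 : 0 < R := by positivity
    have hM0 : 0 ≤ M := le_trans (norm_nonneg _) (hM x0 ⟨by linarith, by linarith⟩)
    have hlip : ∀ t ∈ Ioo (x0 - R) (x0 + R), LipschitzOnWith (max 1 M.toNNReal)
        ((fun t (p : ℝ × ℝ) => ((p.2, V t * p.1) : ℝ × ℝ)) t) univ := by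
      intro t ht
      refine LipschitzOnWith.of_dist_le_mul fun p _ q _ => ?_
      have hVt : |V t| ≤ M := hM t ⟨ht.1.le, ht.2.le⟩
      have hmx : ((max 1 M.toNNReal : ℝ≥0) : ℝ) = max 1 M := by
        push_cast; rw [Real.coe_toNNReal M hM0]
      rw [hmx, Prod.dist_eq, Prod.dist_eq]
      have a1 : dist p.1 q.1 ≤ max (dist p.1 q.1) (dist p.2 q.2) := le_max_left _ _
      have a2 : dist p.2 q.2 ≤ max (dist p.1 q.1) (dist p.2 q.2) := le_max_right _ _
      have a3 : 0 ≤ max (dist p.1 q.1) (dist p.2 q.2) := le_trans dist_nonneg a1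
      refine max_le ?_ ?_
      · calc dist p.2 q.2 ≤ 1 * max (dist p.1 q.1) (dist p.2 q.2) := by rw [one_mul]; exact a2
          _ ≤ max 1 M * max (dist p.1 q.1) (dist p.2 q.2) := by
            gcongr; exact le_max_left _ _
      · show dist (V t * p.1) (V t * q.1) ≤ _
        rw [Real.dist_eq, ← mul_sub, abs_mul, ← Real.dist_eq]
        exact mul_le_mul (hVt.trans (le_max_right _ _)) a1 dist_nonneg (by positivity)
    have hx : x ∈ Ioo (x0 - R) (x0 + R) := by
      have := abs_lt.1 (show |x - x0| < R by linarith)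
      exact ⟨by linarith, by linarith⟩
    have hx0 : x0 ∈ Ioo (x0 - R) (x0 + R) := ⟨by linarith, by linarith⟩
    have := ODE_solution_unique_of_mem_Ioo (v := fun t (p : ℝ × ℝ) => ((p.2, V t * p.1) : ℝ × ℝ))
      (s := fun _ => univ) (f := fun t => (f t, g t)) (g := fun t => (f' t, g' t)) hlip hx0
      (fun t _ => ⟨(h.d1 t).prodMk (h.d2 t), mem_univ _⟩)
      (fun t _ => ⟨(h'.d1 t).prodMk (h'.d2 t), mem_univ _⟩) (by simp [h0, h1]) hx
    simpa using this
  exact ⟨funext fun x => (key x).1, funext fun x => (key x).2⟩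

theorem Sol.continuous_left {V f g : ℝ → ℝ} (h : Sol V f g) : Continuous f :=
  continuous_iff_continuousAt.2 fun x => (h.d1 x).continuousAt

theorem Sol.continuous_right {V f g : ℝ → ℝ} (h : Sol V f g) : Continuous g :=
  continuous_iff_continuousAt.2 fun x => (h.d2 x).continuousAt

theorem Sol.lin {V f g f' g' : ℝ → ℝ} (h : Sol V f g) (h' : Sol V f' g') (c d : ℝ) :
    Sol V (fun x => c * f x + d * f' x) (fun x => c * g x + d * g' x) := by
  refine ⟨fun x => ((h.d1 x).const_mul c).add ((h'.d1 x).const_mul d), fun x => ?_⟩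
  exact (((h.d2 x).const_mul c).add ((h'.d2 x).const_mul d)).congr_deriv (by ring)

theorem Sol.smul {V f g : ℝ → ℝ} (h : Sol V f g) (c : ℝ) :
    Sol V (fun x => c * f x) (fun x => c * g x) := by
  refine ⟨fun x => (h.d1 x).const_mul c, fun x => ?_⟩
  exact ((h.d2 x).const_mul c).congr_deriv (by ring)

/-- simple zeros -/
theorem Sol.deriv_ne_zero {V f g : ℝ → ℝ} (hV : Continuous V) (h : Sol V f g) (hne : ∃ x, f x ≠ 0) {x : ℝ}
    (hx : f x = 0) : g x ≠ 0 := by
  intro hg
  obtain ⟨y, hy⟩ := hne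
  have h0 : Sol V (fun _ => 0) (fun _ => 0) :=
    ⟨fun x => hasDerivAt_const x 0, fun x => by simpa using hasDerivAt_const x (0 : ℝ)⟩
  exact hy (congrFun (Sol.unique hV h h0 hx hg).1 y)

theorem Sol.zeros_finite {V f g : ℝ → ℝ} (hV : Continuous V) (h : Sol V f g) (hne : ∃ x, f x ≠ 0) (a b : ℝ) :
    {x | x ∈ Icc a b ∧ f x = 0}.Finite := by
  by_contra hinf
  obtain ⟨x, hx, hacc⟩ := Set.Infinite.exists_accPt_of_subset_isCompact hinf isCompact_Icc
    (fun x hx => hx.1)
  have hcl : IsClosed {x | x ∈ Icc a b ∧ f x = 0} :=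
    isClosed_Icc.inter (isClosed_eq h.continuous_left continuous_const)
  have hfx : f x = 0 := (hcl.closure_eq ▸ mem_closure_iff_clusterPt.2 hacc.clusterPt :
    x ∈ {x | x ∈ Icc a b ∧ f x = 0}).2
  have hev := (h.d1 x).eventually_ne (c := 0) (h.deriv_ne_zero hV hne hfx)
  rw [accPt_iff_frequently_nhdsNE] at hacc
  exact hacc (hev.mono fun y hy hy' => hy hy'.2)

/-- Wronskian of two solutions -/
theorem wronskian_hasDerivAt {V₁ V₂ f₁ g₁ f₂ g₂ : ℝ → ℝ} (h₁ : Sol V₁ f₁ g₁) (h₂ : Sol V₂ f₂ g₂) (x : ℝ) :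
    HasDerivAt (fun x => f₁ x * g₂ x - g₁ x * f₂ x) ((V₂ x - V₁ x) * (f₁ x * f₂ x)) x := by
  exact (((h₁.d1 x).mul (h₂.d2 x)).sub ((h₁.d2 x).mul (h₂.d1 x))).congr_deriv (by ring)

/-- growth bound: `|f|+|g| ≤ (|f|+|g|)(s) exp ∫ (1 + |V - 1|...)`: here with a majorant `m ≥ max(1,|V|)`. -/
theorem growth {V f g : ℝ → ℝ} (h : Sol V f g) {s : ℝ} {m : ℝ → ℝ} (hm : Continuous m)
    (h1 : ∀ t, s ≤ t → 1 ≤ m t) (h2 : ∀ t, s ≤ t → |V t| ≤ m t) :
    ∀ t, s ≤ t → |f t| + |g t| ≤ (|f s| + |g s|) * Real.exp (∫ u in s..t, m u) := by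
  have cf := h.continuous_left
  have cg := h.continuous_right
  set D : ℝ → ℝ := fun t => |f t| + |g t| with hD
  have cD : Continuous D := by fun_prop
  have cmD : Continuous fun t => m t * D t := hm.mul cD
  set Φ : ℝ → ℝ := fun t => D s + ∫ u in s..t, m u * D u with hΦ
  have dΦ : ∀ t, HasDerivAt Φ (m t * D t) t := fun t =>
    ((cmD.integral_hasStrictDerivAt s t).hasDerivAt).const_add _
  -- D ≤ Φ
  have hDΦ : ∀ t, s ≤ t → D t ≤ Φ t := by
    intro t ht
    have cmf : Continuous fun t => m t * |f t| := by fun_prop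
    have b1 := image_norm_le_of_norm_deriv_right_le_deriv_boundary' (f := f) (f' := g) (a := s) (b := t)
      (B := fun x => |f s| + ∫ u in s..x, |g u|) (B' := fun x => |g x|) cf.continuousOn
      (fun x _ => (h.d1 x).hasDerivWithinAt) (by simp)
      (fun x _ => (((cg.abs.integral_hasStrictDerivAt s x).hasDerivAt).const_add
        |f s|).continuousAt.continuousWithinAt)
      (fun x _ => (((cg.abs.integral_hasStrictDerivAt s x).hasDerivAt).const_add |f s|).hasDerivWithinAt)
      (fun x _ => le_rfl) (right_mem_Icc.2 ht)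
    have b2 := image_norm_le_of_norm_deriv_right_le_deriv_boundary' (f := g) (f' := fun x => V x * f x)
      (a := s) (b := t) (B := fun x => |g s| + ∫ u in s..x, m u * |f u|) (B' := fun x => m x * |f x|)
      cg.continuousOn (fun x _ => (h.d2 x).hasDerivWithinAt) (by simp)
      (fun x _ => (((cmf.integral_hasStrictDerivAt s x).hasDerivAt).const_add
        |g s|).continuousAt.continuousWithinAt)
      (fun x _ => (((cmf.integral_hasStrictDerivAt s x).hasDerivAt).const_add |g s|).hasDerivWithinAt)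
      (fun x hx => by
        rw [Real.norm_eq_abs, abs_mul]
        exact mul_le_mul_of_nonneg_right (h2 x hx.1) (abs_nonneg _)) (right_mem_Icc.2 ht)
    have b3 : (∫ u in s..t, |g u|) + ∫ u in s..t, m u * |f u| ≤ ∫ u in s..t, m u * D u := by
      rw [← intervalIntegral.integral_add (cg.abs.intervalIntegrable _ _) (cmf.intervalIntegrable _ _)]
      refine intervalIntegral.integral_mono_on ht ((cg.abs.add cmf).intervalIntegrable _ _)
        (cmD.intervalIntegrable _ _) fun x hx => ?_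
      have := h1 x hx.1
      have h3 := abs_nonneg (g x)
      simp only [hD]
      nlinarith
    simp only [Real.norm_eq_abs] at b1 b2
    simp only [hD, hΦ] at *
    linarith
  -- Φ e^{-∫ m} is antitone
  have dE : ∀ t, HasDerivAt (fun t => Real.exp (-∫ u in s..t, m u))
      (Real.exp (-∫ u in s..t, m u) * (-m t)) t := fun t =>
    ((hm.integral_hasStrictDerivAt s t).hasDerivAt).neg.exp
  have dP : ∀ t, HasDerivAt (fun t => Φ t * Real.exp (-∫ u in s..t, m u))
      (m t * D t * Real.exp (-∫ u in s..t, m u) + Φ t * (Real.exp (-∫ u in s..t, m u) * (-m t))) t :=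
    fun t => (dΦ t).mul (dE t)
  have anti : AntitoneOn (fun t => Φ t * Real.exp (-∫ u in s..t, m u)) (Ici s) := by
    refine antitoneOn_of_deriv_nonpos (convex_Ici s)
      (fun x _ => (dP x).continuousAt.continuousWithinAt)
      (fun x _ => (dP x).differentiableAt.differentiableWithinAt) fun x hx => ?_
    rw [interior_Ici] at hx
    rw [(dP x).deriv]
    have e1 := hDΦ x (le_of_lt hx)
    have e2 : 0 < Real.exp (-∫ u in s..x, m u) := Real.exp_pos _
    have e3 : 1 ≤ m x := h1 x (le_of_lt hx)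
    have : m x * D x * Real.exp (-∫ u in s..x, m u) + Φ x * (Real.exp (-∫ u in s..x, m u) * (-m x)) =
        -(m x * (Φ x - D x) * Real.exp (-∫ u in s..x, m u)) := by ring
    rw [this, neg_nonpos]
    have e4 : 0 ≤ Φ x - D x := by linarith
    positivity
  intro t ht
  have a1 := anti (mem_Ici.2 le_rfl) (mem_Ici.2 ht) ht
  simp only [intervalIntegral.integral_same, neg_zero, Real.exp_zero, mul_one] at a1
  have a2 : Φ s = D s := by simp [hΦ]
  rw [a2] at a1
  have a3 := hDΦ t ht
  have a4 : 0 < Real.exp (∫ u in s..t, m u) := Real.exp_pos _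
  calc |f t| + |g t| ≤ Φ t := a3
    _ = (Φ t * Real.exp (-∫ u in s..t, m u)) * Real.exp (∫ u in s..t, m u) := by
      rw [mul_assoc, ← Real.exp_add, neg_add_cancel, Real.exp_zero, mul_one]
    _ ≤ D s * Real.exp (∫ u in s..t, m u) := by gcongr
    _ = (|f s| + |g s|) * Real.exp (∫ u in s..t, m u) := rfl

end Pool.Agent.RLT40
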