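import Pool.Agent.RLT40.FirstDefs
import Pool.Agent.RLT40.OdeA

/-!
# Modules FIRSTA, FIRSTB (paper 4.8): comparison of the global zero energy solution with window solutions.  Pure ODE statements.

Setting: `f₀ > 0, g₀ > 0` on `(a, 0)` (`0` = first zero of `g₀/f₀`); window solution `fm` for `1 - Vm`, `fm a' = 0`, `gm a' > 0`, `a ≤ a'`; `U ≤ Vm`, `∫_{a'}^{b'} (Vm - U) ≤ ε`,
`∫_{a'}^{b'} (Vm - 2 xq)² ≤ ε`.
FIRSTA proof: `X = g₀ fm - f₀ gm`, `X' = (Vm - U) f₀ fm`, `X(a') ≤ 0`.  Let `t'` be the first time with `qm = gm/fm < 1-κ`, suppose `t' ≤ min(b',0) - T_κ`.  Riccati with error `G = Vm - 2xq`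
(`∫|G| ≤ sqrt(ε T)` on intervals of length `T`): `qm` reaches `-1/2` at some `t'' ≤ t' + log(2/κ) + 3 < 0`, `fm` increases up to the zero of `qm` and loses at most a factor `2`
until `t''`; `f₀` increasing; so `q₀(t'') ≤ qm(t'') + 2 ∫(Vm-U) ≤ -1/2 + 2ε < 0`: contradiction.  So `qm ≥ 1-κ` on `(a', min(b',0) - T_κ]`, `Vm ≤ 4κ + |G|`.
FIRSTB proof: on `t ≤ -C₀`, `qm ≥ 0.9` (FIRSTA), so `fm(0) ≥ c gm(a') e^{0.9(-a'-C₀-1)}`; `X(0) ≥ X(a') = -f₀(a') gm(a')` gives `qm(0) ≤ C e^{-0.9 R'}`; `X(0) ≤ ε·max(f₀ fm)` gives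
`qm(0) ≥ -2ε`.  Then Gronwall for `d = qm + tanh` (`(-tanh)' = -(1 - tanh²)`): `|d'| ≤ 3|d| + |G|` while `|qm| ≤ 2`; similarly for `q₀ + tanh`:
`d₀' = -(q₀ - tanh) d₀ - (U - 2/cosh²)`.
-/

open MeasureTheory Set
open scoped ENNReal NNReal

namespace Pool.Agent.RLT40

/-- first zero of a continuous function that starts positive -/
theorem FirstA_exit {h : ℝ → ℝ} (hc : Continuous h) {s u : ℝ} (hs : 0 < h s) (hsu : s ≤ u)
    (hu : ∃ t ∈ Icc s u, h t ≤ 0) :
    ∃ t ∈ Ioc s u, h t = 0 ∧ ∀ x ∈ Ico s t, 0 < h x := by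
  set S : Set ℝ := {t | t ∈ Icc s u ∧ h t ≤ 0} with hS
  have hSc : IsCompact S := by
    have : S = Icc s u ∩ {t | h t ≤ 0} := rfl
    rw [this]
    exact isCompact_Icc.inter_right (isClosed_le hc continuous_const)
  obtain ⟨t0, ht0, h0⟩ := hu
  obtain ⟨t, ht, hmin⟩ := hSc.exists_isLeast ⟨t0, ht0, h0⟩
  have hst : s < t := lt_of_le_of_ne ht.1.1 (by rintro rfl; exact absurd ht.2 (not_le.2 hs))
  have hpos : ∀ x ∈ Ico s t, 0 < h x := by
    intro x hx
    by_contra hcon
    exact absurd (hmin ⟨⟨hx.1, hx.2.le.trans ht.1.2⟩, not_lt.1 hcon⟩) (not_le.2 hx.2)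
  refine ⟨t, ⟨hst, ht.1.2⟩, le_antisymm ht.2 ?_, hpos⟩
  have hcl : t ∈ closure (Ico s t) := by
    rw [closure_Ico hst.ne]
    exact right_mem_Icc.2 hst.le
  exact (isClosed_le continuous_const hc).closure_subset_iff.2 (fun x hx => (hpos x hx).le) hcl

theorem FirstA_deriv {V f g : ℝ → ℝ} (h : Sol V f g) (c x : ℝ) :
    HasDerivAt (fun t => f t * Real.exp (-c * t)) ((g x - c * f x) * Real.exp (-c * x)) x := by
  have h1 : HasDerivAt (fun t : ℝ => Real.exp (-c * t)) (Real.exp (-c * x) * (-c * 1)) x :=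
    ((hasDerivAt_id x).const_mul (-c)).exp
  refine ((h.d1 x).mul h1).congr_deriv ?_
  ring

theorem FirstA_mono {V f g : ℝ → ℝ} (h : Sol V f g) {c s u : ℝ}
    (hp : ∀ x ∈ Ico s u, 0 < g x - c * f x) : StrictMonoOn (fun t => f t * Real.exp (-c * t)) (Icc s u) := by
  apply strictMonoOn_of_deriv_pos (convex_Icc s u)
  · intro x _
    exact (FirstA_deriv h c x).continuousAt.continuousWithinAt
  · intro x hx
    rw [interior_Icc] at hx
    rw [(FirstA_deriv h c x).deriv]
    exact mul_pos (hp x ⟨hx.1.le, hx.2⟩) (Real.exp_pos _)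

theorem FirstA_xq_meas {V f g : ℝ → ℝ} (h : Sol V f g) : Measurable (xq f g) := by
  have hf : Measurable f := (continuous_iff_continuousAt.2 fun x => (h.d1 x).continuousAt).measurable
  have hg : Measurable g := (continuous_iff_continuousAt.2 fun x => (h.d2 x).continuousAt).measurable
  unfold xq
  exact (measurable_const.max ((hf.pow_const 2).sub (hg.pow_const 2))).div (hf.pow_const 2)

theorem FirstA_xq_bd (f g : ℝ → ℝ) (x : ℝ) : 0 ≤ xq f g x ∧ xq f g x ≤ 1 := by
  unfold xq
  refine ⟨div_nonneg (le_max_left _ _) (sq_nonneg _), ?_⟩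
  apply div_le_one_of_le₀ _ (sq_nonneg _)
  exact max_le (sq_nonneg _) (by nlinarith [sq_nonneg (g x)])

theorem FirstA_int {V f g W : ℝ → ℝ} (h : Sol V f g) (hW : Continuous W) (s u : ℝ) :
    IntervalIntegrable (fun x => (W x - 2 * xq f g x) ^ 2) volume s u ∧
      IntervalIntegrable (fun x => |W x - 2 * xq f g x|) volume s u := by
  obtain ⟨C, hC⟩ := (isCompact_uIcc (a := s) (b := u)).exists_bound_of_continuousOn hW.continuousOn
  have hb : ∀ x ∈ uIcc s u, |W x - 2 * xq f g x| ≤ C + 2 := by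
    intro x hx
    have h1 := hC x hx
    rw [Real.norm_eq_abs] at h1
    have h2 := FirstA_xq_bd f g x
    calc |W x - 2 * xq f g x| ≤ |W x| + |2 * xq f g x| := abs_sub _ _
      _ ≤ C + 2 := by
        refine add_le_add h1 ?_
        rw [abs_of_nonneg (by linarith [h2.1])]
        linarith [h2.2]
  have hm : Measurable fun x => W x - 2 * xq f g x :=
    hW.measurable.sub ((FirstA_xq_meas h).const_mul 2)
  constructor
  · rw [intervalIntegrable_iff]
    refine Measure.integrableOn_of_bounded (M := (C + 2) ^ 2) (by simp) (hm.pow_const 2).aestronglyMeasurable ?_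
    refine (ae_restrict_iff' measurableSet_uIoc).2 (Filter.Eventually.of_forall fun x hx => ?_)
    have := hb x (uIoc_subset_uIcc hx)
    rw [Real.norm_eq_abs, abs_pow]
    exact pow_le_pow_left₀ (abs_nonneg _) this 2
  · rw [intervalIntegrable_iff]
    refine Measure.integrableOn_of_bounded (M := (C + 2)) (by simp) (hm.abs).aestronglyMeasurable ?_
    refine (ae_restrict_iff' measurableSet_uIoc).2 (Filter.Eventually.of_forall fun x hx => ?_)
    have := hb x (uIoc_subset_uIcc hx)
    rw [Real.norm_eq_abs, abs_abs]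
    exact this

/-- the Riccati step: `q` cannot stay above `-1/2` for a long time. -/
theorem FirstA_riccati {κ T ε : ℝ} (hκ0 : 0 < κ) (hκ1 : κ < 1) (hT : T = 12 / κ) (hε : ε ≤ κ ^ 2 / (1024 * T))
    {V f g : ℝ → ℝ} (hV : Continuous V) (h : Sol (fun x => 1 - V x) f g) {s : ℝ} (hs : g s = (1 - κ) * f s)
    (hpos : ∀ x ∈ Icc s (s + T), 0 < f x ∧ 0 < g x + f x / 2)
    (hG : (∫ x in s..(s + T), (V x - 2 * xq f g x) ^ 2) ≤ ε) : False := by
  have hTpos : 0 < T := by rw [hT]; positivity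
  have hsT : s ≤ s + T := by linarith
  have hfc := h.continuous_left
  have hgc := h.continuous_right
  set y : ℝ → ℝ := fun x => (f x - g x) / (f x + g x) with hy
  set y' : ℝ → ℝ := fun x => 2 * (g x ^ 2 - f x ^ 2 + V x * f x ^ 2) / (f x + g x) ^ 2 with hy'
  have hfg : ∀ x ∈ Icc s (s + T), 0 < f x + g x := by
    intro x hx
    have := hpos x hx
    linarith [this.1, this.2]
  have hyd : ∀ x ∈ Icc s (s + T), HasDerivAt y (y' x) x := by
    intro x hx
    have hn := (hfg x hx).ne'
    have := ((h.d1 x).sub (h.d2 x)).div ((h.d1 x).add (h.d2 x)) hn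
    refine this.congr_deriv ?_
    simp only [hy']
    simp only [Pi.add_apply, Pi.sub_apply]
    congr 1
    ring
  set F : ℝ → ℝ := fun x => Real.exp (-2 * (x - s)) * y x with hF
  set F' : ℝ → ℝ := fun x => Real.exp (-2 * (x - s)) * (y' x - 2 * y x) with hF'
  have hFd : ∀ x ∈ Icc s (s + T), HasDerivAt F (F' x) x := by
    intro x hx
    have h1 : HasDerivAt (fun t : ℝ => Real.exp (-2 * (t - s))) (Real.exp (-2 * (x - s)) * (-2 * 1)) x :=
      (((hasDerivAt_id x).sub_const s).const_mul (-2)).exp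
    refine (h1.mul (hyd x hx)).congr_deriv ?_
    simp only [hF']
    ring
  have hF'c : ContinuousOn F' (Icc s (s + T)) := by
    have c1 : ContinuousOn y (Icc s (s + T)) := fun x hx => (hyd x hx).continuousAt.continuousWithinAt
    have c2 : ContinuousOn y' (Icc s (s + T)) := by
      apply ContinuousOn.div
      · exact (continuous_const.mul (((hgc.pow 2).sub (hfc.pow 2)).add (hV.mul (hfc.pow 2)))).continuousOn
      · exact ((hfc.add hgc).pow 2).continuousOn
      · intro x hx
        exact pow_ne_zero 2 (hfg x hx).ne'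
    apply ContinuousOn.mul
    · exact (Real.continuous_exp.comp (continuous_const.mul (continuous_id.sub continuous_const))).continuousOn
    · exact c2.sub (continuousOn_const.mul c1)
  have hFi : IntervalIntegrable F' volume s (s + T) := by
    apply ContinuousOn.intervalIntegrable
    rwa [uIcc_of_le hsT]
  have hFTC : ∫ x in s..(s + T), F' x = F (s + T) - F s := by
    apply intervalIntegral.integral_eq_sub_of_hasDerivAt _ hFi
    intro x hx
    rw [uIcc_of_le hsT] at hx
    exact hFd x hx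
  obtain ⟨hi1, hi2⟩ := FirstA_int h hV s (s + T)
  -- pointwise bound
  have hpt : ∀ x ∈ Icc s (s + T), -8 * |V x - 2 * xq f g x| ≤ F' x := by
    intro x hx
    obtain ⟨hf0, hg0⟩ := hpos x hx
    have hfg0 := hfg x hx
    have e0 : Real.exp (-2 * (x - s)) ≤ 1 := by
      rw [Real.exp_le_one_iff]
      nlinarith [hx.1]
    have e1 : 0 < Real.exp (-2 * (x - s)) := Real.exp_pos _
    have hxq : xq f g x * f x ^ 2 = max 0 (f x ^ 2 - g x ^ 2) := by
      unfold xq
      rw [div_mul_cancel₀]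
      exact pow_ne_zero 2 hf0.ne'
    set G := V x - 2 * xq f g x with hG'
    have hVf : V x * f x ^ 2 = 2 * max 0 (f x ^ 2 - g x ^ 2) + G * f x ^ 2 := by
      rw [← hxq, hG']
      ring
    have hk : y' x - 2 * y x ≥ -8 * |G| := by
      have h1 : y' x - 2 * y x = 2 * (g x ^ 2 - f x ^ 2 + V x * f x ^ 2 - (f x - g x) * (f x + g x)) / (f x + g x) ^ 2 := by
        simp only [hy', hy]
        field_simp
        try ring
      rw [h1, hVf, ge_iff_le, le_div_iff₀ (by positivity)]
      have h2 : (f x) ^ 2 ≤ 4 * (f x + g x) ^ 2 := by nlinarith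
      have h3 : -(|G| * f x ^ 2) ≤ G * f x ^ 2 := by
        have := neg_abs_le G
        nlinarith [sq_nonneg (f x)]
      have h4 : |G| * f x ^ 2 ≤ |G| * (4 * (f x + g x) ^ 2) := mul_le_mul_of_nonneg_left h2 (abs_nonneg _)
      have h5 : f x ^ 2 - g x ^ 2 ≤ max 0 (f x ^ 2 - g x ^ 2) := le_max_right _ _
      nlinarith
    have : F' x = Real.exp (-2 * (x - s)) * (y' x - 2 * y x) := rfl
    rw [this]
    have hGn := abs_nonneg G
    calc -8 * |G| ≤ Real.exp (-2 * (x - s)) * (-8 * |G|) := by nlinarith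
      _ ≤ _ := mul_le_mul_of_nonneg_left hk e1.le
  have hint : ∫ x in s..(s + T), (-8 * |V x - 2 * xq f g x|) ≤ ∫ x in s..(s + T), F' x :=
    intervalIntegral.integral_mono_on hsT (hi2.const_mul _) hFi hpt
  -- bound of `∫ |G|`
  set μ := κ / (32 * T) with hμ
  have hμ0 : 0 < μ := by positivity
  have hintG : ∫ x in s..(s + T), |V x - 2 * xq f g x| ≤ κ / 32 := by
    have h1 : ∫ x in s..(s + T), |V x - 2 * xq f g x| ≤
        ∫ x in s..(s + T), (μ / 2 + (1 / (2 * μ)) * (V x - 2 * xq f g x) ^ 2) := by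
      apply intervalIntegral.integral_mono_on hsT hi2
      · exact intervalIntegrable_const.add (hi1.const_mul _)
      · intro x _
        set G := V x - 2 * xq f g x
        have : 0 ≤ (|G| - μ) ^ 2 := sq_nonneg _
        have h2 : |G| ^ 2 = G ^ 2 := sq_abs G
        have h3 : μ / 2 + 1 / (2 * μ) * G ^ 2 - |G| = (|G| - μ) ^ 2 / (2 * μ) := by
          field_simp
          rw [← h2]
          ring
        have h4 : 0 ≤ (|G| - μ) ^ 2 / (2 * μ) := by positivity
        linarith
    have h2 : ∫ x in s..(s + T), (μ / 2 + (1 / (2 * μ)) * (V x - 2 * xq f g x) ^ 2) =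
        T * (μ / 2) + (1 / (2 * μ)) * ∫ x in s..(s + T), (V x - 2 * xq f g x) ^ 2 := by
      rw [intervalIntegral.integral_add intervalIntegrable_const (hi1.const_mul _)]
      rw [intervalIntegral.integral_const, intervalIntegral.integral_const_mul]
      simp
    have h3 : T * (μ / 2) = κ / 64 := by
      rw [hμ]; field_simp; norm_num
    have h4 : (1 / (2 * μ)) * ∫ x in s..(s + T), (V x - 2 * xq f g x) ^ 2 ≤ κ / 64 := by
      calc (1 / (2 * μ)) * ∫ x in s..(s + T), (V x - 2 * xq f g x) ^ 2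
          ≤ (1 / (2 * μ)) * (κ ^ 2 / (1024 * T)) := by
            apply mul_le_mul_of_nonneg_left (hG.trans hε) (by positivity)
        _ = κ / 64 := by
            rw [hμ]; field_simp; norm_num
    linarith
  have hkey : F s - κ / 4 ≤ F (s + T) := by
    rw [intervalIntegral.integral_const_mul] at hint
    linarith
  have hFs : κ / 2 ≤ F s := by
    have hf0 := (hpos s (left_mem_Icc.2 hsT)).1
    have : F s = κ / (2 - κ) := by
      simp only [hF, hy, hs, sub_self, mul_zero, Real.exp_zero, one_mul]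
      have h2 : (2 - κ) ≠ 0 := by linarith
      rw [div_eq_div_iff (by nlinarith) h2]
      ring
    rw [this]
    apply div_le_div_of_nonneg_left hκ0.le (by linarith) (by linarith)
  have hyT : y (s + T) ≤ 3 := by
    have hp := hpos (s + T) (right_mem_Icc.2 hsT)
    have hfg0 := hfg (s + T) (right_mem_Icc.2 hsT)
    simp only [hy]
    rw [div_le_iff₀ hfg0]
    linarith [hp.2]
  have hFT : F (s + T) ≤ Real.exp (-2 * T) * 3 := by
    simp only [hF]
    rw [show s + T - s = T by ring]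
    exact mul_le_mul_of_nonneg_left hyT (Real.exp_pos _).le
  have hexp : Real.exp (-2 * T) * (1 + 2 * T) ≤ 1 := by
    have h1 : 2 * T + 1 ≤ Real.exp (2 * T) := Real.add_one_le_exp _
    have h2 : Real.exp (-2 * T) * Real.exp (2 * T) = 1 := by
      rw [← Real.exp_add]; simp
    calc Real.exp (-2 * T) * (1 + 2 * T) ≤ Real.exp (-2 * T) * Real.exp (2 * T) :=
          mul_le_mul_of_nonneg_left (by linarith) (Real.exp_pos _).le
      _ = 1 := h2
  have h12 : T * κ = 12 := by
    rw [hT]; field_simp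
  have hE := Real.exp_pos (-2 * T)
  have h5 : κ / 4 ≤ Real.exp (-2 * T) * 3 := by linarith
  -- multiply by `1 + 2T`
  have h6 : κ / 4 * (1 + 2 * T) ≤ 3 := by
    have := mul_le_mul_of_nonneg_right h5 (by linarith : (0:ℝ) ≤ 1 + 2 * T)
    nlinarith
  nlinarith

/-- FIRSTA -/
theorem first_left {η : ℝ} (hη : 0 < η) :
    ∃ C₀ > 0, ∃ ε > 0, ∀ (a a' b' : ℝ) (U Vm f₀ g₀ fm gm : ℝ → ℝ), WinCmp ε a a' b' U Vm f₀ g₀ fm gm →
      (∀ x ∈ Ioc a' (min b' 0 - C₀), 0 < fm x ∧ (1 - η) * fm x ≤ gm x) ∧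
      ∀ c : ℝ, a' ≤ c - 1 → c + 1 ≤ b' - C₀ → c + 1 ≤ -C₀ → (∫ x in (c - 1)..(c + 1), U x ^ 2) ≤ η := by
  set κ : ℝ := min 1 η / 16 with hκ
  have hm0 : 0 < min 1 η := lt_min one_pos hη
  have hκ0 : 0 < κ := by positivity
  have hκ1 : κ ≤ 1 / 16 := by
    rw [hκ]; linarith [min_le_left 1 η]
  have hκη : κ ≤ η / 16 := by
    rw [hκ]; linarith [min_le_right 1 η]
  set T : ℝ := 12 / κ with hT
  have hT0 : 0 < T := by positivity
  set ε : ℝ := min (κ ^ 2 / (1024 * T)) (min (Real.exp (-(1 / 2) * T) / 4) (η / 4)) with hε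
  have hε0 : 0 < ε := by
    refine lt_min (by positivity) (lt_min (by positivity) (by positivity))
  have hε1 : ε ≤ κ ^ 2 / (1024 * T) := min_le_left _ _
  have hε2 : ε ≤ Real.exp (-(1 / 2) * T) / 4 := (min_le_right _ _).trans (min_le_left _ _)
  have hε3 : ε ≤ η / 4 := (min_le_right _ _).trans (min_le_right _ _)
  clear_value ε
  clear_value T
  clear_value κ
  refine ⟨T + 1, by positivity, ε, hε0, ?_⟩
  intro a a' b' U Vm f₀ g₀ fm gm W
  obtain ⟨haa, hab, ha0, cU, cV, U0, hle, s0, f₀a, hpos0, g0, sm, fma, gma, d1, d2⟩ := W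
  have hfc := sm.continuous_left
  have hgc := sm.continuous_right
  have hf0c := s0.continuous_left
  obtain ⟨hi1, hi2⟩ := FirstA_int sm cV a' b'
  -- integral of `G²` over subintervals
  have hsub : ∀ s u, a' ≤ s → s ≤ u → u ≤ b' → (∫ x in s..u, (Vm x - 2 * xq fm gm x) ^ 2) ≤ ε := by
    intro s u h1 h2 h3
    refine le_trans ?_ d2
    exact intervalIntegral.integral_mono_interval h1 h2 h3
      (Filter.Eventually.of_forall fun x => sq_nonneg _) hi1
  -- main claim
  have main : ∀ x ∈ Ioc a' (min b' 0 - (T + 1)), 0 < fm x ∧ (1 - κ) * fm x ≤ gm x := by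
    intro x hx
    have hxb : x + T + 1 ≤ b' := by
      have := min_le_left b' 0
      linarith [hx.2]
    have hx0 : x + T + 1 ≤ 0 := by
      have := min_le_right b' 0
      linarith [hx.2]
    by_contra hcon
    -- first zero of `gm - (1-κ) fm`
    have hex : ∃ t ∈ Icc a' x, gm t - (1 - κ) * fm t ≤ 0 := by
      by_contra hno
      push Not at hno
      have hmono := FirstA_mono sm (c := 1 - κ) (s := a') (u := x)
        (fun t ht => hno t ⟨ht.1, ht.2.le⟩)
      have h1 := hmono (left_mem_Icc.2 hx.1.le) (right_mem_Icc.2 hx.1.le) hx.1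
      simp only [fma, zero_mul] at h1
      have h2 : 0 < fm x := (mul_pos_iff_of_pos_right (Real.exp_pos _)).1 h1
      exact hcon ⟨h2, by linarith [hno x (right_mem_Icc.2 hx.1.le)]⟩
    obtain ⟨t', ht', hz', hp'⟩ := FirstA_exit (h := fun t => gm t - (1 - κ) * fm t)
      (hgc.sub (continuous_const.mul hfc)) (s := a') (u := x) (by simp [fma, gma]) hx.1.le hex
    have hmono1 := FirstA_mono sm (c := 1 - κ) (s := a') (u := t') hp'
    have hfm1 : ∀ t ∈ Ioc a' t', 0 < fm t := by
      intro t ht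
      have h1 := hmono1 (left_mem_Icc.2 ht'.1.le) ⟨ht.1.le, ht.2⟩ ht.1
      simp only [fma, zero_mul] at h1
      exact (mul_pos_iff_of_pos_right (Real.exp_pos _)).1 h1
    have hft' : 0 < fm t' := hfm1 t' (right_mem_Ioc.2 ht'.1)
    have hgt' : gm t' = (1 - κ) * fm t' := by
      have : gm t' - (1 - κ) * fm t' = 0 := hz'
      linarith
    -- first zero of `gm + fm/2` after `t'`
    have hstart : 0 < gm t' - (-(1 / 2)) * fm t' := by
      rw [hgt']; nlinarith
    have hex2 : ∃ t ∈ Icc t' (t' + T), gm t - (-(1 / 2)) * fm t ≤ 0 := by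
      by_contra hno
      push Not at hno
      have hmono := FirstA_mono sm (c := -(1 / 2)) (s := t') (u := t' + T)
        (fun t ht => hno t ⟨ht.1, ht.2.le⟩)
      have hfp : ∀ t ∈ Icc t' (t' + T), 0 < fm t := by
        intro t ht
        rcases eq_or_lt_of_le ht.1 with h | h
        · rw [← h]; exact hft'
        · have h1 := hmono (left_mem_Icc.2 (by linarith)) ht h
          have h2 : 0 < fm t * Real.exp (-(-(1 / 2)) * t) :=
            lt_trans (mul_pos hft' (Real.exp_pos _)) h1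
          exact (mul_pos_iff_of_pos_right (Real.exp_pos _)).1 h2
      exact FirstA_riccati hκ0 (by linarith) hT hε1 cV sm hgt'
        (fun t ht => ⟨hfp t ht, by linarith [hno t ht]⟩)
        (hsub t' (t' + T) ht'.1.le (by linarith) (by linarith [ht'.2]))
    obtain ⟨t'', ht'', hz'', hp''⟩ := FirstA_exit (h := fun t => gm t - (-(1 / 2)) * fm t)
      (hgc.sub (continuous_const.mul hfc)) (s := t') (u := t' + T) hstart (by linarith) hex2
    have hmono2 := FirstA_mono sm (c := -(1 / 2)) (s := t') (u := t'') hp''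
    have hft'' : 0 < fm t'' := by
      have h1 := hmono2 (left_mem_Icc.2 ht''.1.le) (right_mem_Icc.2 ht''.1.le) ht''.1
      have h2 : 0 < fm t'' * Real.exp (-(-(1 / 2)) * t'') :=
        lt_trans (mul_pos hft' (Real.exp_pos _)) h1
      exact (mul_pos_iff_of_pos_right (Real.exp_pos _)).1 h2
    have hgt'' : gm t'' = -(1 / 2) * fm t'' := by
      have : gm t'' - (-(1 / 2)) * fm t'' = 0 := hz''
      linarith
    -- bounds of `fm` on `[a', t'']`
    set E : ℝ := Real.exp (1 / 2 * T) with hE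
    have hE1 : 1 ≤ E := Real.one_le_exp (by positivity)
    have hb2 : ∀ t ∈ Icc t' t'', fm t ≤ E * fm t'' := by
      intro t ht
      have h1 := hmono2.monotoneOn ht (right_mem_Icc.2 ht''.1.le) ht.2
      simp only [neg_neg] at h1
      have h2 : fm t ≤ fm t'' * Real.exp (1 / 2 * (t'' - t)) := by
        have h3 := mul_le_mul_of_nonneg_right h1 (Real.exp_pos (-(1 / 2 * t))).le
        rw [mul_assoc, mul_assoc, ← Real.exp_add, ← Real.exp_add] at h3
        rw [show (1 / 2 * t + -(1 / 2 * t) : ℝ) = 0 by ring, Real.exp_zero, mul_one] at h3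
        rwa [show (1 / 2 * t'' + -(1 / 2 * t) : ℝ) = 1 / 2 * (t'' - t) by ring] at h3
      refine h2.trans ?_
      rw [mul_comm]
      apply mul_le_mul_of_nonneg_right _ hft''.le
      apply Real.exp_le_exp.2
      linarith [ht.1, ht''.2]
    have hb1 : ∀ t ∈ Icc a' t'', 0 ≤ fm t ∧ fm t ≤ E * fm t'' := by
      intro t ht
      rcases le_or_gt t t' with h | h
      · rcases eq_or_lt_of_le ht.1 with h' | h'
        · rw [← h', fma]
          exact ⟨le_rfl, by positivity⟩
        · refine ⟨(hfm1 t ⟨h', h⟩).le, ?_⟩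
          have h1 := hmono1.monotoneOn ⟨ht.1, h⟩ (right_mem_Icc.2 ht'.1.le) h
          have h2 : fm t ≤ fm t' * Real.exp (-(1 - κ) * (t' - t)) := by
            have h3 := mul_le_mul_of_nonneg_right h1 (Real.exp_pos ((1 - κ) * t)).le
            rw [mul_assoc, mul_assoc, ← Real.exp_add, ← Real.exp_add] at h3
            rw [show (-(1 - κ) * t + (1 - κ) * t : ℝ) = 0 by ring, Real.exp_zero, mul_one] at h3
            rwa [show (-(1 - κ) * t' + (1 - κ) * t : ℝ) = -(1 - κ) * (t' - t) by ring] at h3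
          have h4 : Real.exp (-(1 - κ) * (t' - t)) ≤ 1 := by
            rw [Real.exp_le_one_iff]
            have : 0 ≤ (1 - κ) * (t' - t) := mul_nonneg (by linarith) (by linarith)
            linarith
          calc fm t ≤ fm t' * Real.exp (-(1 - κ) * (t' - t)) := h2
            _ ≤ fm t' * 1 := mul_le_mul_of_nonneg_left h4 hft'.le
            _ = fm t' := mul_one _
            _ ≤ E * fm t'' := hb2 t' (left_mem_Icc.2 ht''.1.le)
      · refine ⟨?_, hb2 t ⟨h.le, ht.2⟩⟩
        have h1 := hmono2.monotoneOn (left_mem_Icc.2 ht''.1.le) ⟨h.le, ht.2⟩ h.le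
        have h2 : 0 ≤ fm t * Real.exp (-(-(1 / 2)) * t) :=
          le_trans (mul_pos hft' (Real.exp_pos _)).le h1
        exact nonneg_of_mul_nonneg_left h2 (Real.exp_pos _)
    -- `f₀` is increasing on `[a, 0]`
    have ht''0 : t'' < 0 := by linarith [ht''.2, ht'.2]
    have hat'' : a' < t'' := ht'.1.trans ht''.1
    have hf0mono : MonotoneOn f₀ (Icc a 0) := by
      apply monotoneOn_of_deriv_nonneg (convex_Icc a 0) hf0c.continuousOn
      · intro t _
        exact (s0.d1 t).differentiableAt.differentiableWithinAt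
      · intro t ht
        rw [interior_Icc] at ht
        rw [(s0.d1 t).deriv]
        exact (hpos0 t ht).2.le
    have hf0b : ∀ t ∈ Icc a' t'', 0 ≤ f₀ t ∧ f₀ t ≤ f₀ t'' := by
      intro t ht
      have hta : a ≤ t := haa.trans ht.1
      have ht0 : t ≤ 0 := ht.2.trans ht''0.le
      refine ⟨?_, hf0mono ⟨hta, ht0⟩ ⟨haa.trans hat''.le, ht''0.le⟩ ht.2⟩
      have := hf0mono (left_mem_Icc.2 ha0.le) ⟨hta, ht0⟩ hta
      rwa [f₀a] at this
    have hp0 := hpos0 t'' ⟨lt_of_le_of_lt haa hat'', ht''0⟩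
    -- Wronskian
    have hX : ∀ t, HasDerivAt (fun t => g₀ t * fm t - f₀ t * gm t) ((Vm t - U t) * (f₀ t * fm t)) t := by
      intro t
      refine (((s0.d2 t).mul (sm.d1 t)).sub ((s0.d1 t).mul (sm.d2 t))).congr_deriv ?_
      ring
    have hXi : ∀ u v, IntervalIntegrable (fun t => (Vm t - U t) * (f₀ t * fm t)) volume u v :=
      fun u v => ((cV.sub cU).mul (hf0c.mul hfc)).intervalIntegrable u v
    have hXint : ∫ t in a'..t'', (Vm t - U t) * (f₀ t * fm t) =
        (g₀ t'' * fm t'' - f₀ t'' * gm t'') - (g₀ a' * fm a' - f₀ a' * gm a') :=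
      intervalIntegral.integral_eq_sub_of_hasDerivAt (fun t _ => hX t) (hXi _ _)
    have hXle : ∫ t in a'..t'', (Vm t - U t) * (f₀ t * fm t) ≤
        ∫ t in a'..t'', (Vm t - U t) * (f₀ t'' * (E * fm t'')) := by
      apply intervalIntegral.integral_mono_on hat''.le (hXi _ _)
      · exact ((cV.sub cU).mul continuous_const).intervalIntegrable _ _
      · intro t ht
        apply mul_le_mul_of_nonneg_left _ (by linarith [hle t])
        exact mul_le_mul (hf0b t ht).2 (hb1 t ht).2 (hb1 t ht).1 hp0.1.le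
    have hd1 : ∫ t in a'..t'', (Vm t - U t) ≤ ε := by
      refine le_trans ?_ d1
      apply intervalIntegral.integral_mono_interval le_rfl hat''.le (by linarith [ht''.2, ht'.2])
      · exact Filter.Eventually.of_forall fun t => by
          have := hle t
          simpa using this
      · exact (cV.sub cU).intervalIntegrable _ _
    rw [intervalIntegral.integral_mul_const] at hXle
    have hM : 0 < f₀ t'' * (E * fm t'') := by
      have := hp0.1
      positivity
    have hX2 : (∫ t in a'..t'', (Vm t - U t)) * (f₀ t'' * (E * fm t'')) ≤ ε * (f₀ t'' * (E * fm t'')) :=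
      mul_le_mul_of_nonneg_right hd1 hM.le
    have hX3 : (g₀ t'' * fm t'' - f₀ t'' * gm t'') - (g₀ a' * fm a' - f₀ a' * gm a') ≤
        ε * (f₀ t'' * (E * fm t'')) := by
      rw [← hXint]; linarith
    rw [fma, hgt''] at hX3
    have hfa := (hf0b a' (left_mem_Icc.2 hat''.le)).1
    have hEe : ε * E ≤ 1 / 4 := by
      have h1 : Real.exp (-(1 / 2) * T) * E = 1 := by
        rw [hE, ← Real.exp_add]
        rw [show (-(1 / 2) * T + 1 / 2 * T : ℝ) = 0 by ring, Real.exp_zero]
      calc ε * E ≤ Real.exp (-(1 / 2) * T) / 4 * E := mul_le_mul_of_nonneg_right hε2 (by linarith)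
        _ = 1 / 4 := by rw [div_mul_eq_mul_div, h1]
    have hP : 0 < f₀ t'' * fm t'' := mul_pos hp0.1 hft''
    have h7 : ε * (f₀ t'' * (E * fm t'')) ≤ 1 / 4 * (f₀ t'' * fm t'') := by
      calc ε * (f₀ t'' * (E * fm t'')) = (ε * E) * (f₀ t'' * fm t'') := by ring
        _ ≤ _ := mul_le_mul_of_nonneg_right hEe hP.le
    have h8 : 0 ≤ g₀ t'' * fm t'' := mul_nonneg hp0.2.le hft''.le
    have h9 : 0 ≤ f₀ a' * gm a' := mul_nonneg hfa gma.le
    nlinarith
  refine ⟨fun x hx => ?_, ?_⟩
  · obtain ⟨h1, h2⟩ := main x hx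
    refine ⟨h1, le_trans ?_ h2⟩
    apply mul_le_mul_of_nonneg_right _ h1.le
    linarith
  · intro c hc1 hc2 hc3
    have hU2 : ∀ x ∈ Ioo (c - 1) (c + 1), U x ^ 2 ≤ 32 * κ ^ 2 + 2 * (Vm x - 2 * xq fm gm x) ^ 2 := by
      intro x hx
      obtain ⟨h1, h2⟩ := main x ⟨lt_of_le_of_lt hc1 hx.1, by
        have h3 : x ≤ b' - (T + 1) := by linarith [hx.2]
        have h4 : x ≤ 0 - (T + 1) := by linarith [hx.2]
        rcases le_total b' 0 with h | h
        · rw [min_eq_left h]; exact h3
        · rw [min_eq_right h]; exact h4⟩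
      have hx1 : xq fm gm x ≤ 2 * κ := by
        unfold xq
        rw [div_le_iff₀ (by positivity)]
        apply max_le (by positivity)
        have h5 : ((1 - κ) * fm x) ^ 2 ≤ gm x ^ 2 :=
          pow_le_pow_left₀ (mul_nonneg (by linarith) h1.le) h2 2
        nlinarith [sq_nonneg (κ * fm x)]
      have hx0 := (FirstA_xq_bd fm gm x).1
      set G := Vm x - 2 * xq fm gm x with hG
      have hUV : U x ≤ 4 * κ + |G| := by
        have := hle x
        have h6 := le_abs_self G
        linarith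
      calc U x ^ 2 ≤ (4 * κ + |G|) ^ 2 := pow_le_pow_left₀ (U0 x) hUV 2
        _ ≤ 32 * κ ^ 2 + 2 * G ^ 2 := by
          rw [← sq_abs G]
          nlinarith [sq_nonneg (4 * κ - |G|)]
    have hcc : c - 1 ≤ c + 1 := by linarith
    have hi := (FirstA_int sm cV (c - 1) (c + 1)).1
    have h1 : ∫ x in (c - 1)..(c + 1), U x ^ 2 ≤
        ∫ x in (c - 1)..(c + 1), (32 * κ ^ 2 + 2 * (Vm x - 2 * xq fm gm x) ^ 2) := by
      apply intervalIntegral.integral_mono_on_of_le_Ioo hcc ((cU.pow 2).intervalIntegrable _ _)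
      · exact intervalIntegrable_const.add (hi.const_mul _)
      · exact hU2
    rw [intervalIntegral.integral_add intervalIntegrable_const (hi.const_mul _),
      intervalIntegral.integral_const, intervalIntegral.integral_const_mul] at h1
    have h2 := hsub (c - 1) (c + 1) hc1 hcc (by linarith)
    rw [smul_eq_mul, show c + 1 - (c - 1) = 2 by ring] at h1
    have h3 : κ ^ 2 ≤ η / 256 := by
      have : κ * κ ≤ 1 / 16 * (η / 16) := mul_le_mul hκ1 hκη hκ0.le (by norm_num)
      nlinarith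
    linarith

end Pool.Agent.RLT40
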