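import Pool.Agent.RLT40.FirstA

/-!
# Modules FIRSTA, FIRSTB (paper 4.8): comparison of the global zero energy solution with window solutions.  Pure ODE statements.

Setting: `f₀ > 0, g₀ > 0` on `(a, 0)` (`0` = first zero of `g₀/f₀`); window solution `fm` for `1 - Vm`, `fm a' = 0`, `gm a' > 0`, `a ≤ a'`; `U ≤ Vm`, `∫_{a'}^{b'} (Vm - U) ≤ ε`,
`∫_{a'}^{b'} (Vm - 2 xq)² ≤ ε`.
FIRSTA proof: `X = g₀ fm - f₀ gm`, `X' = (Vm - U) f₀ fm`, `X(a') ≤ 0`.  Let `t'` be the first time with `qm = gm/fm < 1-κ`, suppose `t' ≤ min(b',0) - T_κ`.  Riccati with error `G = Vm - 2xq`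
(`∫|G| ≤ sqrt(ε T)` on intervals of length `T`): `qm` reaches `-1/2` at some `t'' ≤ t' + log(2/κ) + 3 < 0`, `fm` increases up to the zero of `qm` and loses at most a factor `2`
until `t''`; `f₀` increasing; so `q₀(t'') ≤ qm(t'') + 2 ∫(Vm-U) ≤ -1/2 + 2ε < 0`: contradiction.  So `qm ≥ 1-κ` on `(a', min(b',0) - T_κ]`, `Vm ≤ 4κ + |G|`.
FIRSTB proof: on `t ≤ -C₀`, `qm ≥ 0.9` (FIRSTA), so `fm(0) ≥ c gm(a') e^{0.9(-a'-C₀-1)}`; `X(0) ≥ X(a') = -f₀(a') gm(a')` gives `qm(0) ≤ C e^{-0.9 R'}`; `X(0) ≤ ε·max(f₀ fm)` gives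
`qm(0) ≥ -2ε`.  Then Gronwall for `d = qm + tanh` (`(-tanh)' = -(1 - tanh²)`): `|d'| ≤ 3|d| + |G|` while `|qm| ≤ 2`; similarly for `q₀ + tanh`:
`d₀' = -(q₀ - tanh) d₀ - (U - 2/cosh²)`.
-/

open MeasureTheory Set Filter Topology
open scoped ENNReal NNReal

namespace Pool.Agent.RLT40

namespace FirstBX

lemma hasDerivAt_tanh (x : ℝ) : HasDerivAt Real.tanh (1 - Real.tanh x ^ 2) x := by
  have h := (Real.hasDerivAt_sinh x).div (Real.hasDerivAt_cosh x) (Real.cosh_pos x).ne'
  have e : (fun y => Real.sinh y / Real.cosh y) = Real.tanh := by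
    funext y; rw [Real.tanh_eq_sinh_div_cosh]
  have e' : (Real.sinh / Real.cosh) = Real.tanh := by
    funext y; rw [Pi.div_apply, Real.tanh_eq_sinh_div_cosh]
  rw [e'] at h
  refine h.congr_deriv ?_
  rw [Real.tanh_eq_sinh_div_cosh]
  have := (Real.cosh_pos x).ne'
  field_simp

lemma continuous_tanh : Continuous Real.tanh :=
  continuous_iff_continuousAt.2 fun x => (hasDerivAt_tanh x).continuousAt

lemma two_div_cosh_sq (x : ℝ) : 2 / Real.cosh x ^ 2 = 2 * (1 - Real.tanh x ^ 2) := by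
  rw [Real.tanh_eq_sinh_div_cosh]
  have h := (Real.cosh_pos x).ne'
  have h2 := Real.cosh_sq x
  field_simp
  linarith

lemma xq_of_le {f g : ℝ → ℝ} {x : ℝ} (hf : 0 < f x) (h : g x ^ 2 ≤ f x ^ 2) :
    xq f g x = 1 - (g x / f x) ^ 2 := by
  unfold xq
  rw [max_eq_right (by linarith)]
  field_simp

lemma xq_of_ge {f g : ℝ → ℝ} {x : ℝ} (h : f x ^ 2 ≤ g x ^ 2) : xq f g x = 0 := by
  unfold xq
  rw [max_eq_left (by linarith), zero_div]

lemma xq_cont {V f g : ℝ → ℝ} (hV : Continuous V) (h : Sol V f g) (hne : ∃ x, f x ≠ 0) :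
    Continuous (xq f g) := by
  rw [continuous_iff_continuousAt]
  intro x
  have hf := h.continuous_left
  have hg := h.continuous_right
  by_cases hx : f x = 0
  · have hgx := h.deriv_ne_zero hV hne hx
    have h1 : f x ^ 2 < g x ^ 2 := by
      rw [hx]
      have : 0 < g x ^ 2 := by positivity
      simpa using this
    have h2 : ∀ᶠ y in 𝓝 x, f y ^ 2 < g y ^ 2 :=
      (hf.pow 2).continuousAt.eventually_lt (hg.pow 2).continuousAt h1
    have h3 : xq f g =ᶠ[𝓝 x] fun _ => (0 : ℝ) := by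
      filter_upwards [h2] with y hy
      exact xq_of_ge hy.le
    exact continuousAt_const.congr h3.symm
  · have h1 : ContinuousAt (fun y => max 0 (f y ^ 2 - g y ^ 2) / f y ^ 2) x := by
      refine ContinuousAt.div ?_ (hf.pow 2).continuousAt (by positivity)
      exact (continuous_const.max ((hf.pow 2).sub (hg.pow 2))).continuousAt
    exact h1

/-- a Gronwall estimate with a square integrable error -/
lemma gron {t δ : ℝ} (hδ : 0 < δ) {D D' h : ℝ → ℝ} (hh : Continuous h)
    (hD : ∀ s ∈ Icc 0 t, HasDerivAt D (D' s) s)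
    (hle : ∀ s ∈ Icc 0 t, D' s ≤ 7 * D s + h s ^ 2) (h0 : D 0 ≤ δ)
    (hint : (∫ s in (0 : ℝ)..t, h s ^ 2) ≤ δ) :
    ∀ s ∈ Icc 0 t, D s ≤ 2 * δ * Real.exp (8 * s) := by
  have hh2 : Continuous fun s => h s ^ 2 := hh.pow 2
  have hm : ∀ s, HasDerivAt (fun s => ∫ r in (0 : ℝ)..s, h r ^ 2) (h s ^ 2) s := fun s =>
    intervalIntegral.integral_hasDerivAt_right (hh2.intervalIntegrable _ _)
      (hh2.stronglyMeasurableAtFilter _ _) hh2.continuousAt
  have hm0 : ∀ s, 0 ≤ s → 0 ≤ ∫ r in (0 : ℝ)..s, h r ^ 2 := fun s hs =>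
    intervalIntegral.integral_nonneg hs fun r _ => sq_nonneg _
  have hB : ∀ s, HasDerivAt (fun s => (δ + ∫ r in (0 : ℝ)..s, h r ^ 2) * Real.exp (8 * s))
      (h s ^ 2 * Real.exp (8 * s) + 8 * ((δ + ∫ r in (0 : ℝ)..s, h r ^ 2) * Real.exp (8 * s))) s := by
    intro s
    have h1 := ((hm s).const_add δ).mul (((hasDerivAt_id s).const_mul 8).exp)
    refine h1.congr_deriv ?_
    simp only [id]
    ring
  intro s hs
  have key := image_le_of_deriv_right_lt_deriv_boundary (f := D) (f' := D') (a := 0) (b := t)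
    (fun r hr => (hD r hr).continuousAt.continuousWithinAt)
    (fun r hr => (hD r ⟨hr.1, hr.2.le⟩).hasDerivWithinAt) (by simpa using h0) hB
    (fun r hr he => by
      have h2 := hle r ⟨hr.1, hr.2.le⟩
      have h3 := hm0 r hr.1
      have h4 : 1 ≤ Real.exp (8 * r) := Real.one_le_exp (by linarith [hr.1])
      have h5 : 0 < D r := by
        rw [he]
        positivity
      have h6 : h r ^ 2 ≤ h r ^ 2 * Real.exp (8 * r) := le_mul_of_one_le_right (sq_nonneg _) h4
      rw [← he]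
      linarith) hs
  refine key.trans ?_
  have h7 : (∫ r in (0 : ℝ)..s, h r ^ 2) ≤ ∫ r in (0 : ℝ)..t, h r ^ 2 := by
    rw [← intervalIntegral.integral_add_adjacent_intervals (hh2.intervalIntegrable 0 s)
      (hh2.intervalIntegrable s t)]
    have : 0 ≤ ∫ r in s..t, h r ^ 2 :=
      intervalIntegral.integral_nonneg hs.2 fun r _ => sq_nonneg _
    linarith
  have h8 := Real.exp_pos (8 * s)
  nlinarith

lemma mono_of_deriv {c d : ℝ} {F F' : ℝ → ℝ} (hF : ∀ s ∈ Icc c d, HasDerivAt F (F' s) s)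
    (h : ∀ s ∈ Ioo c d, 0 ≤ F' s) {x y : ℝ} (hx : c ≤ x) (hxy : x ≤ y) (hy : y ≤ d) : F x ≤ F y := by
  have h1 : MonotoneOn F (Icc c d) := by
    refine monotoneOn_of_deriv_nonneg (convex_Icc c d)
      (fun s hs => (hF s hs).continuousAt.continuousWithinAt) ?_ ?_
    · rw [interior_Icc]
      exact fun s hs => (hF s ⟨hs.1.le, hs.2.le⟩).differentiableAt.differentiableWithinAt
    · rw [interior_Icc]
      intro s hs
      rw [(hF s ⟨hs.1.le, hs.2.le⟩).deriv]
      exact h s hs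
  exact h1 ⟨hx, hxy.trans hy⟩ ⟨hx.trans hxy, hy⟩ hxy

/-- the core estimate, to the right of `0` -/
lemma core {T δ : ℝ} (hT : 0 ≤ T) (hδ : 0 < δ) (hsmall : 2 * δ * Real.exp (8 * T) < 1)
    {V f g h : ℝ → ℝ} (hs : Sol (fun x => 1 - V x) f g) (hh : Continuous h) (hf : 0 < f 0)
    (h0 : (g 0 / f 0) ^ 2 ≤ δ) (hint : (∫ s in (0 : ℝ)..T, h s ^ 2) ≤ δ)
    (hder : ∀ s ∈ Icc 0 T, 0 < f s → |g s / f s| ≤ 2 →
      |1 - V s - (g s / f s) ^ 2 + (1 - Real.tanh s ^ 2)| ≤ 3 * |g s / f s + Real.tanh s| + |h s|) :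
    ∀ t ∈ Icc 0 T, 0 < f t ∧ (g t / f t + Real.tanh t) ^ 2 ≤ 2 * δ * Real.exp (8 * T) := by
  have hfc := hs.continuous_left
  have hgc := hs.continuous_right
  have hh2 : Continuous fun s => h s ^ 2 := hh.pow 2
  set P : Set ℝ := {s | f 0 / 2 * Real.exp (-(2 * s)) ≤ f s ∧ |g s + Real.tanh s * f s| ≤ f s} with hP
  have hPc : IsClosed P := by
    refine (isClosed_le ?_ hfc).inter (isClosed_le ?_ hfc)
    · exact continuous_const.mul (Real.continuous_exp.comp (by fun_prop))
    · exact (hgc.add (continuous_tanh.mul hfc)).abs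
  have key : ∀ t, 0 ≤ t → t ≤ T → (∀ s ∈ Icc 0 t, s ∈ P) → ∀ s ∈ Icc 0 t,
      f 0 * Real.exp (-(2 * s)) ≤ f s ∧
        (g s / f s + Real.tanh s) ^ 2 ≤ 2 * δ * Real.exp (8 * s) := by
    intro t ht htT hPt s hs'
    have hfpos : ∀ r ∈ Icc 0 t, 0 < f r := fun r hr =>
      lt_of_lt_of_le (by positivity) (hPt r hr).1
    have hd1 : ∀ r ∈ Icc 0 t, |g r / f r + Real.tanh r| ≤ 1 := by
      intro r hr
      have h1 := hfpos r hr
      have h2 : g r / f r + Real.tanh r = (g r + Real.tanh r * f r) / f r := by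
        field_simp
      rw [h2, abs_div, abs_of_pos h1, div_le_one h1]
      exact (hPt r hr).2
    have hq2 : ∀ r ∈ Icc 0 t, |g r / f r| ≤ 2 := by
      intro r hr
      have h1 := abs_le.1 (hd1 r hr)
      have h2 := Real.tanh_lt_one r
      have h3 := Real.neg_one_lt_tanh r
      rw [abs_le]
      constructor <;> linarith
    constructor
    · have h1 := mono_of_deriv (c := 0) (d := t) (F := fun r => f r * Real.exp (2 * r))
        (F' := fun r => (g r + 2 * f r) * Real.exp (2 * r))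
        (fun r _ => by
          have := (hs.d1 r).mul (((hasDerivAt_id r).const_mul 2).exp)
          refine this.congr_deriv ?_
          simp only [id]
          ring)
        (fun r hr => by
          have h2 := abs_le.1 (hPt r ⟨hr.1.le, hr.2.le⟩).2
          have h3 := Real.tanh_lt_one r
          have h4 := hfpos r ⟨hr.1.le, hr.2.le⟩
          have h5 := Real.exp_pos (2 * r)
          have h6 : 0 ≤ g r + 2 * f r := by nlinarith [h2.1]
          positivity) le_rfl hs'.1 hs'.2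
      simp only [mul_zero, Real.exp_zero, mul_one] at h1
      calc f 0 * Real.exp (-(2 * s)) ≤ f s * Real.exp (2 * s) * Real.exp (-(2 * s)) :=
            mul_le_mul_of_nonneg_right h1 (Real.exp_pos _).le
        _ = f s := by rw [mul_assoc, ← Real.exp_add, add_neg_cancel, Real.exp_zero, mul_one]
    · have hder' : ∀ r ∈ Icc 0 t, HasDerivAt (fun r => (g r / f r + Real.tanh r) ^ 2)
          (2 * (g r / f r + Real.tanh r) *
            (1 - V r - (g r / f r) ^ 2 + (1 - Real.tanh r ^ 2))) r := by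
        intro r hr
        have h1 := hfpos r hr
        have h2 := (((hs.d2 r).div (hs.d1 r) h1.ne').add (hasDerivAt_tanh r)).pow 2
        refine h2.congr_deriv ?_
        have e : ((1 - V r) * f r * f r - g r * g r) / f r ^ 2 = 1 - V r - (g r / f r) ^ 2 := by
          field_simp
        rw [e, Pi.add_apply, Pi.div_apply]
        push_cast
        ring
      refine gron (t := t) hδ hh hder' ?_ ?_ ?_ s hs'
      · intro r hr
        have h1 := hder r ⟨hr.1, hr.2.trans htT⟩ (hfpos r hr) (hq2 r hr)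
        set d := g r / f r + Real.tanh r with hd
        set e := 1 - V r - (g r / f r) ^ 2 + (1 - Real.tanh r ^ 2) with he
        calc 2 * d * e ≤ |2 * d * e| := le_abs_self _
          _ = 2 * |d| * |e| := by rw [abs_mul, abs_mul, abs_two]
          _ ≤ 2 * |d| * (3 * |d| + |h r|) := mul_le_mul_of_nonneg_left h1 (by positivity)
          _ ≤ 7 * d ^ 2 + h r ^ 2 := by
            rw [← sq_abs d, ← sq_abs (h r)]
            nlinarith [sq_nonneg (|d| - |h r|)]
      · simpa using h0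
      · refine le_trans ?_ hint
        rw [← intervalIntegral.integral_add_adjacent_intervals (hh2.intervalIntegrable 0 t)
          (hh2.intervalIntegrable t T)]
        have : 0 ≤ ∫ r in t..T, h r ^ 2 :=
          intervalIntegral.integral_nonneg htT fun r _ => sq_nonneg _
        linarith
  have exple : ∀ s, s ≤ T → Real.exp (8 * s) ≤ Real.exp (8 * T) := fun s hs =>
    Real.exp_le_exp.2 (by linarith)
  have h0P : (0 : ℝ) ∈ P := by
    refine ⟨?_, ?_⟩
    · simp only [mul_zero, neg_zero, Real.exp_zero, mul_one]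
      linarith
    · simp only [Real.tanh_zero, zero_mul, add_zero]
      have h1 : (g 0 / f 0) ^ 2 < 1 := by
        have h2 := exple 0 hT
        simp only [mul_zero, Real.exp_zero] at h2
        nlinarith
      have h2 : |g 0 / f 0| < 1 := (sq_lt_one_iff_abs_lt_one _).1 h1
      rw [abs_div, abs_of_pos hf, div_lt_one hf] at h2
      exact h2.le
  have hall : Icc 0 T ⊆ P := by
    refine IsClosed.Icc_subset_of_forall_mem_nhdsGT_of_Icc_subset (hPc.inter isClosed_Icc) h0P ?_
    intro t ht hsub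
    have h1 := key t ht.1 ht.2.le (fun s hs => hsub hs) t ⟨ht.1, le_rfl⟩
    have h2 : f 0 / 2 * Real.exp (-(2 * t)) < f t := by
      have : 0 < f 0 / 2 * Real.exp (-(2 * t)) := by positivity
      linarith [h1.1]
    have hft : 0 < f t := lt_trans (by positivity) h2
    have h3 : |g t + Real.tanh t * f t| < f t := by
      have h4 : (g t / f t + Real.tanh t) ^ 2 < 1 := by
        have h5 := exple t ht.2.le
        nlinarith [h1.2]
      have h6 := (sq_lt_one_iff_abs_lt_one _).1 h4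
      have h7 : g t / f t + Real.tanh t = (g t + Real.tanh t * f t) / f t := by
        field_simp
      rw [h7, abs_div, abs_of_pos hft, div_lt_one hft] at h6
      exact h6
    have c1 : Continuous fun s => f 0 / 2 * Real.exp (-(2 * s)) :=
      continuous_const.mul (Real.continuous_exp.comp (by fun_prop))
    have c2 : Continuous fun s => |g s + Real.tanh s * f s| :=
      (hgc.add (continuous_tanh.mul hfc)).abs
    have e1 : ∀ᶠ s in 𝓝 t, f 0 / 2 * Real.exp (-(2 * s)) < f s :=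
      c1.continuousAt.eventually_lt hfc.continuousAt h2
    have e2 : ∀ᶠ s in 𝓝 t, |g s + Real.tanh s * f s| < f s :=
      c2.continuousAt.eventually_lt hfc.continuousAt h3
    refine mem_nhdsWithin_of_mem_nhds ?_
    filter_upwards [e1, e2] with s hs1 hs2
    exact ⟨hs1.le, hs2.le⟩
  intro t ht
  have h1 := key T hT le_rfl (fun s hs => hall hs) t ht
  refine ⟨lt_of_lt_of_le (by positivity) h1.1, h1.2.trans ?_⟩
  exact mul_le_mul_of_nonneg_left (exple t ht.2) (by positivity)

lemma reflect {V f g : ℝ → ℝ} (hs : Sol (fun x => 1 - V x) f g) :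
    Sol (fun x => 1 - V (-x)) (fun x => f (-x)) (fun x => -g (-x)) := by
  refine ⟨fun x => ?_, fun x => ?_⟩
  · have h1 := (hs.d1 (-x)).comp x (hasDerivAt_neg x)
    refine h1.congr_deriv ?_
    ring
  · have h1 := ((hs.d2 (-x)).comp x (hasDerivAt_neg x)).neg
    refine h1.congr_deriv ?_
    ring

/-- the core estimate, to the left of `0` -/
lemma core_left {T δ : ℝ} (hT : 0 ≤ T) (hδ : 0 < δ) (hsmall : 2 * δ * Real.exp (8 * T) < 1)
    {V f g h : ℝ → ℝ} (hs : Sol (fun x => 1 - V x) f g) (hh : Continuous h) (hf : 0 < f 0)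
    (h0 : (g 0 / f 0) ^ 2 ≤ δ) (hint : (∫ s in (-T)..0, h s ^ 2) ≤ δ)
    (hder : ∀ s ∈ Icc (-T) 0, 0 < f s → |g s / f s| ≤ 2 →
      |1 - V s - (g s / f s) ^ 2 + (1 - Real.tanh s ^ 2)| ≤ 3 * |g s / f s + Real.tanh s| + |h s|) :
    ∀ t ∈ Icc (-T) 0, 0 < f t ∧ (g t / f t + Real.tanh t) ^ 2 ≤ 2 * δ * Real.exp (8 * T) := by
  have hs' := reflect hs
  intro t ht
  have := core hT hδ hsmall hs' (h := fun s => h (-s)) (hh.comp continuous_neg) (by simpa using hf)
    (by simpa [neg_div] using h0) (by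
      rw [intervalIntegral.integral_comp_neg (fun s => h s ^ 2)]
      simpa using hint) (fun s hs1 hs2 hs3 => by
      have h1 := hder (-s) ⟨by linarith [hs1.2], by linarith [hs1.1]⟩ hs2 (by
        rw [neg_div, abs_neg] at hs3
        exact hs3)
      simp only [Real.tanh_neg, neg_sq, neg_div] at h1 ⊢
      have e : -(g (-s) / f (-s)) + Real.tanh s = -(g (-s) / f (-s) + -Real.tanh s) := by ring
      rw [e, abs_neg]
      exact h1) (-t) ⟨by linarith [ht.2], by linarith [ht.1]⟩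
  simp only [neg_neg, Real.tanh_neg, neg_div] at this
  refine ⟨this.1, ?_⟩
  have e : (-(g t / f t) + -Real.tanh t) ^ 2 = (g t / f t + Real.tanh t) ^ 2 := by ring
  rw [← e]
  exact this.2

/-- two-sided version -/
lemma core_two {T δ : ℝ} (hT : 0 ≤ T) (hδ : 0 < δ) (hsmall : 2 * δ * Real.exp (8 * T) < 1)
    {V f g h : ℝ → ℝ} (hs : Sol (fun x => 1 - V x) f g) (hh : Continuous h) (hf : 0 < f 0)
    (h0 : (g 0 / f 0) ^ 2 ≤ δ) (hint : (∫ s in (-T)..T, h s ^ 2) ≤ δ)
    (hder : ∀ s ∈ Icc (-T) T, 0 < f s → |g s / f s| ≤ 2 →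
      |1 - V s - (g s / f s) ^ 2 + (1 - Real.tanh s ^ 2)| ≤ 3 * |g s / f s + Real.tanh s| + |h s|) :
    ∀ t ∈ Icc (-T) T, 0 < f t ∧ (g t / f t + Real.tanh t) ^ 2 ≤ 2 * δ * Real.exp (8 * T) := by
  have hh2 : Continuous fun s => h s ^ 2 := hh.pow 2
  have hsum := intervalIntegral.integral_add_adjacent_intervals (hh2.intervalIntegrable (-T) 0)
    (hh2.intervalIntegrable (μ := volume) 0 T)
  have i1 : 0 ≤ ∫ r in (-T)..0, h r ^ 2 :=
    intervalIntegral.integral_nonneg (by linarith) fun r _ => sq_nonneg _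
  have i2 : 0 ≤ ∫ r in (0 : ℝ)..T, h r ^ 2 :=
    intervalIntegral.integral_nonneg hT fun r _ => sq_nonneg _
  intro t ht
  rcases le_total 0 t with h1 | h1
  · exact core hT hδ hsmall hs hh hf h0 (by linarith)
      (fun s hs1 => hder s ⟨by linarith [hs1.1], hs1.2⟩) t ⟨h1, ht.2⟩
  · exact core_left hT hδ hsmall hs hh hf h0 (by linarith)
      (fun s hs1 => hder s ⟨hs1.1, by linarith [hs1.2]⟩) t ⟨ht.1, h1⟩

/-- the derivative bound for a window solution -/
lemma der_window {V f g : ℝ → ℝ} {s : ℝ} (hf : 0 < f s) (hq : |g s / f s| ≤ 2) :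
    |1 - V s - (g s / f s) ^ 2 + (1 - Real.tanh s ^ 2)| ≤
      3 * |g s / f s + Real.tanh s| + |V s - 2 * xq f g s| := by
  set q := g s / f s with hqd
  set τ := Real.tanh s with hτd
  have h1 : τ < 1 := Real.tanh_lt_one s
  have h2 : -1 < τ := Real.neg_one_lt_tanh s
  have h3 := abs_le.1 hq
  have h4 : |q - τ| ≤ 3 := by rw [abs_le]; constructor <;> linarith
  have h5 : |q ^ 2 - τ ^ 2| ≤ 3 * |q + τ| := by
    have : q ^ 2 - τ ^ 2 = (q - τ) * (q + τ) := by ring
    rw [this, abs_mul]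
    exact mul_le_mul_of_nonneg_right h4 (abs_nonneg _)
  have h6 : τ ^ 2 ≤ 1 := by nlinarith
  by_cases hc : g s ^ 2 ≤ f s ^ 2
  · rw [xq_of_le hf hc, ← hqd]
    have e : 1 - V s - q ^ 2 + (1 - τ ^ 2) = (q ^ 2 - τ ^ 2) - (V s - 2 * (1 - q ^ 2)) := by ring
    rw [e]
    exact (abs_sub _ _).trans (add_le_add_left h5 _)
  · rw [not_le] at hc
    rw [xq_of_ge hc.le]
    have hq1 : 1 < q ^ 2 := by
      rw [hqd, div_pow, lt_div_iff₀ (by positivity), one_mul]
      exact hc
    have e : 1 - V s - q ^ 2 + (1 - τ ^ 2) = (2 - q ^ 2 - τ ^ 2) - (V s - 2 * 0) := by ring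
    rw [e]
    refine (abs_sub _ _).trans (add_le_add_left ?_ _)
    refine le_trans ?_ h5
    rw [abs_of_pos (by linarith : 0 < q ^ 2 - τ ^ 2), abs_le]
    constructor <;> linarith

/-- the derivative bound for the global solution -/
lemma der_global {U f g : ℝ → ℝ} {s : ℝ} (hq : |g s / f s| ≤ 2) :
    |1 - U s - (g s / f s) ^ 2 + (1 - Real.tanh s ^ 2)| ≤
      3 * |g s / f s + Real.tanh s| + |U s - 2 / Real.cosh s ^ 2| := by
  rw [two_div_cosh_sq]
  set q := g s / f s with hqd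
  set τ := Real.tanh s with hτd
  have h1 : τ < 1 := Real.tanh_lt_one s
  have h2 : -1 < τ := Real.neg_one_lt_tanh s
  have h3 := abs_le.1 hq
  have h4 : |q - τ| ≤ 3 := by rw [abs_le]; constructor <;> linarith
  have h5 : |q ^ 2 - τ ^ 2| ≤ 3 * |q + τ| := by
    have : q ^ 2 - τ ^ 2 = (q - τ) * (q + τ) := by ring
    rw [this, abs_mul]
    exact mul_le_mul_of_nonneg_right h4 (abs_nonneg _)
  have e : 1 - U s - q ^ 2 + (1 - τ ^ 2) = -(q ^ 2 - τ ^ 2) - (U s - 2 * (1 - τ ^ 2)) := by ring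
  rw [e]
  refine (abs_sub _ _).trans (add_le_add_left ?_ _)
  rw [abs_neg]
  exact h5

/-- pointwise inequalities for `Y = g + τ f` -/
lemma win_alg {V f g : ℝ → ℝ} {s τ : ℝ} (hf : 0 < f s) (hτ0 : 0 ≤ τ) (hτ1 : τ ≤ 1)
    (hY : 0 ≤ g s + τ * f s) :
    -3 * (g s + τ * f s) - |V s - 2 * xq f g s| * f s ≤
        (1 - V s) * f s + (1 - τ ^ 2) * f s + τ * g s ∧
      (1 - V s) * f s + (1 - τ ^ 2) * f s + τ * g s + g s ≤
        (3 + |V s - 2 * xq f g s|) * (g s + τ * f s + f s) := by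
  have hab := abs_nonneg (V s - 2 * xq f g s)
  by_cases hc : g s ^ 2 ≤ f s ^ 2
  · have hx := xq_of_le hf hc
    obtain ⟨q, hq⟩ : ∃ q, q = g s / f s := ⟨_, rfl⟩
    have hg : g s = q * f s := by rw [hq]; field_simp
    rw [← hq] at hx
    obtain ⟨G, hG⟩ : ∃ G, G = V s - 2 * xq f g s := ⟨_, rfl⟩
    have hV : V s = 2 * (1 - q ^ 2) + G := by rw [hG, hx]; ring
    rw [← hG] at hab ⊢
    have hG1 := le_abs_self G
    have hG2 := neg_abs_le G
    have hq1 : q ^ 2 ≤ 1 := by
      rw [hg, mul_pow] at hc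
      have h1 : 0 < f s ^ 2 := by positivity
      exact (mul_le_iff_le_one_left h1).1 hc
    have hq2 : -1 ≤ q ∧ q ≤ 1 := abs_le.1 ((sq_le_one_iff_abs_le_one q).1 hq1)
    have hqt : 0 ≤ q + τ := by
      rw [hg, ← add_mul] at hY
      exact (mul_nonneg_iff_of_pos_right hf).1 hY
    rw [hV, hg]
    constructor
    · have e1 : (1 - (2 * (1 - q ^ 2) + G)) * f s + (1 - τ ^ 2) * f s + τ * (q * f s) -
          (-3 * (q * f s + τ * f s) - |G| * f s) =
          f s * ((2 * q - τ + 3) * (q + τ) + (|G| - G)) := by ring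
      have e2 : 0 ≤ f s * ((2 * q - τ + 3) * (q + τ) + (|G| - G)) := by
        refine mul_nonneg hf.le (add_nonneg (mul_nonneg (by linarith [hq2.1]) hqt) (by linarith))
      linarith
    · have e1 : (3 + |G|) * (q * f s + τ * f s + f s) -
          ((1 - (2 * (1 - q ^ 2) + G)) * f s + (1 - τ ^ 2) * f s + τ * (q * f s) + q * f s) =
          f s * ((5 - (2 * q - τ) - 2) * (q + τ) + (3 - q) + |G| * (q + τ) + (|G| + G)) := by ring
      have e2 : 0 ≤ f s * ((5 - (2 * q - τ) - 2) * (q + τ) + (3 - q) + |G| * (q + τ) + (|G| + G)) := by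
        refine mul_nonneg hf.le (add_nonneg (add_nonneg (add_nonneg
          (mul_nonneg (by linarith [hq2.2]) hqt) (by linarith [hq2.2])) (mul_nonneg hab hqt))
          (by linarith))
      linarith
  · rw [not_le] at hc
    have hx := xq_of_ge hc.le
    rw [hx] at hab ⊢
    have hV : V s - 2 * 0 = V s := by ring
    rw [hV] at hab ⊢
    have hG1 := le_abs_self (V s)
    have hG2 := neg_abs_le (V s)
    have hτf : τ * f s ≤ f s := mul_le_of_le_one_left hf.le hτ1
    have hgf : f s < g s := by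
      by_contra hcon
      rw [not_lt] at hcon
      nlinarith
    have h1 : 0 ≤ 1 - τ ^ 2 := by nlinarith
    have h2 : 0 ≤ (1 - τ ^ 2) * f s := mul_nonneg h1 hf.le
    have h3 : 0 ≤ τ * (g s + τ * f s) := mul_nonneg hτ0 hY
    have h4 : 0 ≤ τ * f s := mul_nonneg hτ0 hf.le
    have h5 : V s * f s ≤ |V s| * f s := mul_le_mul_of_nonneg_right hG1 hf.le
    have h6 : -|V s| * f s ≤ V s * f s := mul_le_mul_of_nonneg_right hG2 hf.le
    have h7 : τ * (g s + τ * f s) ≤ g s + τ * f s := mul_le_of_le_one_left hY hτ1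
    have h8 : 0 ≤ |V s| * (g s + τ * f s) := mul_nonneg hab hY
    constructor
    · nlinarith
    · nlinarith

/-- from the time where `g ≥ 0.9 f` to time `C` later -/
lemma bridge {C μ : ℝ} (hC : 0 ≤ C) {V f g : ℝ → ℝ} (hG : Continuous fun s => V s - 2 * xq f g s)
    (hs : Sol (fun x => 1 - V x) f g) (hf : 0 < f 0) (hg : 9 / 10 * f 0 ≤ g 0)
    (hμ : (∫ s in (0 : ℝ)..C, |V s - 2 * xq f g s|) ≤ μ)
    (hμ' : μ ≤ Real.exp (-(6 * C + 1)) / 6) :
    (∀ s ∈ Icc 0 C, 0 < f s ∧ f s ≤ 3 * Real.exp (3 * C + 1) * g 0) ∧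
      C / 2 * Real.exp (-(3 * C)) * g 0 ≤ f C := by
  have hfc := hs.continuous_left
  have hgc := hs.continuous_right
  have hg0 : 0 < g 0 := by linarith
  have hGa : Continuous fun s => |V s - 2 * xq f g s| := hG.abs
  set m : ℝ → ℝ := fun s => ∫ r in (0 : ℝ)..s, |V r - 2 * xq f g r| with hm
  have hmd : ∀ s, HasDerivAt m (|V s - 2 * xq f g s|) s := fun s =>
    intervalIntegral.integral_hasDerivAt_right (hGa.intervalIntegrable _ _)
      (hGa.stronglyMeasurableAtFilter _ _) hGa.continuousAt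
  have hm0 : m 0 = 0 := intervalIntegral.integral_same
  have hmle : ∀ s ∈ Icc 0 C, m s ≤ μ := by
    intro s hs'
    refine le_trans ?_ hμ
    have h1 : 0 ≤ ∫ r in s..C, |V r - 2 * xq f g r| :=
      intervalIntegral.integral_nonneg hs'.2 fun r _ => abs_nonneg _
    have h2 := intervalIntegral.integral_add_adjacent_intervals (hGa.intervalIntegrable 0 s)
      (hGa.intervalIntegrable (μ := volume) s C)
    simp only [hm]
    linarith
  have hμ1 : μ ≤ 1 := by
    have : Real.exp (-(6 * C + 1)) ≤ 1 := Real.exp_le_one_iff.2 (by linarith)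
    linarith
  set Y : ℝ → ℝ := fun s => g s + Real.tanh s * f s with hYdef
  have hYc : Continuous Y := hgc.add (continuous_tanh.mul hfc)
  have hYd : ∀ s, HasDerivAt Y ((1 - V s) * f s + (1 - Real.tanh s ^ 2) * f s + Real.tanh s * g s) s := by
    intro s
    have := (hs.d2 s).add ((hasDerivAt_tanh s).mul (hs.d1 s))
    refine this.congr_deriv ?_
    ring
  have hY0 : Y 0 = g 0 := by simp [hYdef]
  set P : Set ℝ := {s | f 0 / 2 * Real.exp (-s) ≤ f s ∧ g 0 / 4 * Real.exp (-(3 * s)) ≤ Y s} with hP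
  have c1 : Continuous fun s => f 0 / 2 * Real.exp (-s) :=
    continuous_const.mul (Real.continuous_exp.comp (by fun_prop))
  have c2 : Continuous fun s => g 0 / 4 * Real.exp (-(3 * s)) :=
    continuous_const.mul (Real.continuous_exp.comp (by fun_prop))
  have hPc : IsClosed P := (isClosed_le c1 hfc).inter (isClosed_le c2 hYc)
  have key : ∀ t, 0 ≤ t → t ≤ C → (∀ s ∈ Icc 0 t, s ∈ P) → ∀ s ∈ Icc 0 t,
      f 0 * Real.exp (-s) ≤ f s ∧ f s ≤ 3 * Real.exp (3 * C + 1) * g 0 ∧
        g 0 / 2 * Real.exp (-(3 * s)) ≤ Y s := by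
    intro t ht htC hPt s hs'
    have hfpos : ∀ r ∈ Icc 0 t, 0 < f r := fun r hr =>
      lt_of_lt_of_le (by positivity) (hPt r hr).1
    have hYpos : ∀ r ∈ Icc 0 t, 0 < Y r := fun r hr =>
      lt_of_lt_of_le (by positivity) (hPt r hr).2
    have hτ0 : ∀ r ∈ Icc 0 t, 0 ≤ Real.tanh r := by
      intro r hr
      rw [Real.tanh_eq_sinh_div_cosh]
      exact div_nonneg (Real.sinh_nonneg_iff.2 hr.1) (Real.cosh_pos r).le
    have hτ1 : ∀ r, Real.tanh r ≤ 1 := fun r => (Real.tanh_lt_one r).le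
    have halg := fun r hr => win_alg (V := V) (hfpos r hr) (hτ0 r hr) (hτ1 r) (hYpos r hr).le
    -- first bound
    have b1 : f 0 * Real.exp (-s) ≤ f s := by
      have h1 := mono_of_deriv (c := 0) (d := t) (F := fun r => f r * Real.exp r)
        (F' := fun r => (g r + f r) * Real.exp r)
        (fun r _ => by
          have := (hs.d1 r).mul (Real.hasDerivAt_exp r)
          refine this.congr_deriv ?_
          ring)
        (fun r hr => by
          have hr' : r ∈ Icc 0 t := ⟨hr.1.le, hr.2.le⟩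
          have h2 := hYpos r hr'
          have h3 : Real.tanh r * f r ≤ f r := mul_le_of_le_one_left (hfpos r hr').le (hτ1 r)
          have h4 : 0 ≤ g r + f r := by
            simp only [hYdef] at h2
            linarith
          exact mul_nonneg h4 (Real.exp_pos r).le) le_rfl hs'.1 hs'.2
      simp only [Real.exp_zero, mul_one] at h1
      calc f 0 * Real.exp (-s) ≤ f s * Real.exp s * Real.exp (-s) :=
            mul_le_mul_of_nonneg_right h1 (Real.exp_pos _).le
        _ = f s := by rw [mul_assoc, ← Real.exp_add, add_neg_cancel, Real.exp_zero, mul_one]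
    -- second bound
    have b2 : ∀ u ∈ Icc 0 t, f u ≤ 3 * Real.exp (3 * C + 1) * g 0 := by
      intro u hu
      have h1 := mono_of_deriv (c := 0) (d := t)
        (F := fun r => -((Y r + f r) * Real.exp (-(3 * r + m r))))
        (F' := fun r => ((3 + |V r - 2 * xq f g r|) * (Y r + f r) -
          ((1 - V r) * f r + (1 - Real.tanh r ^ 2) * f r + Real.tanh r * g r + g r)) *
            Real.exp (-(3 * r + m r)))
        (fun r _ => by
          have h2 := ((hYd r).add (hs.d1 r)).mul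
            ((((hasDerivAt_id r).const_mul 3).add (hmd r)).neg.exp)
          refine h2.neg.congr_deriv ?_
          simp only [id, Pi.add_apply, Pi.neg_apply]
          ring)
        (fun r hr => by
          have h2 := (halg r ⟨hr.1.le, hr.2.le⟩).2
          have h3 : 0 ≤ (3 + |V r - 2 * xq f g r|) * (Y r + f r) -
            ((1 - V r) * f r + (1 - Real.tanh r ^ 2) * f r + Real.tanh r * g r + g r) := by
            simp only [hYdef]
            linarith
          exact mul_nonneg h3 (Real.exp_pos _).le) le_rfl hu.1 hu.2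
      simp only [mul_zero, hm0, add_zero, neg_zero, Real.exp_zero, mul_one, hY0, neg_le_neg_iff] at h1
      have h4 : Y u + f u ≤ (g 0 + f 0) * Real.exp (3 * u + m u) := by
        calc Y u + f u = (Y u + f u) * Real.exp (-(3 * u + m u)) * Real.exp (3 * u + m u) := by
              rw [mul_assoc, ← Real.exp_add, neg_add_cancel, Real.exp_zero, mul_one]
          _ ≤ (g 0 + f 0) * Real.exp (3 * u + m u) :=
              mul_le_mul_of_nonneg_right h1 (Real.exp_pos _).le
      have h5 : Real.exp (3 * u + m u) ≤ Real.exp (3 * C + 1) := by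
        refine Real.exp_le_exp.2 ?_
        have := hmle u ⟨hu.1, hu.2.trans htC⟩
        linarith [hu.2]
      have h6 := hYpos u hu
      have h7 : g 0 + f 0 ≤ 3 * g 0 := by linarith
      calc f u ≤ Y u + f u := by linarith
        _ ≤ (g 0 + f 0) * Real.exp (3 * u + m u) := h4
        _ ≤ (3 * g 0) * Real.exp (3 * C + 1) :=
            mul_le_mul h7 h5 (Real.exp_pos _).le (by positivity)
        _ = 3 * Real.exp (3 * C + 1) * g 0 := by ring
    refine ⟨b1, b2 s hs', ?_⟩
    -- third bound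
    have h1 := mono_of_deriv (c := 0) (d := t)
      (F := fun r => Real.exp (3 * r) * Y r + 3 * Real.exp (6 * C + 1) * g 0 * m r)
      (F' := fun r => Real.exp (3 * r) * (((1 - V r) * f r + (1 - Real.tanh r ^ 2) * f r +
        Real.tanh r * g r) + 3 * Y r) + 3 * Real.exp (6 * C + 1) * g 0 * |V r - 2 * xq f g r|)
      (fun r _ => by
        have h2 := (((hasDerivAt_id r).const_mul 3).exp.mul (hYd r)).add
          ((hmd r).const_mul (3 * Real.exp (6 * C + 1) * g 0))
        refine h2.congr_deriv ?_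
        simp only [id]
        ring)
      (fun r hr => by
        have hr' : r ∈ Icc 0 t := ⟨hr.1.le, hr.2.le⟩
        have h2 := (halg r hr').1
        have h3 := b2 r hr'
        have h4 := abs_nonneg (V r - 2 * xq f g r)
        have h5 : Real.exp (3 * r) ≤ Real.exp (3 * C) :=
          Real.exp_le_exp.2 (by linarith [hr'.2])
        have h6 : -(|V r - 2 * xq f g r| * f r) ≤ ((1 - V r) * f r + (1 - Real.tanh r ^ 2) * f r +
          Real.tanh r * g r) + 3 * Y r := by
          simp only [hYdef]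
          linarith
        have h7 : Real.exp (3 * r) * -(|V r - 2 * xq f g r| * f r) ≤
          Real.exp (3 * r) * (((1 - V r) * f r + (1 - Real.tanh r ^ 2) * f r +
            Real.tanh r * g r) + 3 * Y r) := mul_le_mul_of_nonneg_left h6 (Real.exp_pos _).le
        have h8 : Real.exp (3 * r) * f r ≤ Real.exp (3 * C) * (3 * Real.exp (3 * C + 1) * g 0) :=
          mul_le_mul h5 h3 (hfpos r hr').le (Real.exp_pos _).le
        have h9 : Real.exp (3 * C) * (3 * Real.exp (3 * C + 1) * g 0) =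
          3 * Real.exp (6 * C + 1) * g 0 := by
          have : Real.exp (6 * C + 1) = Real.exp (3 * C) * Real.exp (3 * C + 1) := by
            rw [← Real.exp_add]; congr 1; ring
          rw [this]; ring
        rw [h9] at h8
        have h10 := mul_le_mul_of_nonneg_left h8 h4
        nlinarith) le_rfl hs'.1 hs'.2
    simp only [mul_zero, Real.exp_zero, one_mul, hY0, hm0, add_zero] at h1
    have h2 := hmle s ⟨hs'.1, hs'.2.trans htC⟩
    have h3 : 3 * Real.exp (6 * C + 1) * g 0 * m s ≤ g 0 / 2 := by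
      have h4 : m s ≤ Real.exp (-(6 * C + 1)) / 6 := h2.trans hμ'
      have h5 : Real.exp (6 * C + 1) * Real.exp (-(6 * C + 1)) = 1 := by
        rw [← Real.exp_add, add_neg_cancel, Real.exp_zero]
      calc 3 * Real.exp (6 * C + 1) * g 0 * m s
          ≤ 3 * Real.exp (6 * C + 1) * g 0 * (Real.exp (-(6 * C + 1)) / 6) :=
            mul_le_mul_of_nonneg_left h4 (by positivity)
        _ = (Real.exp (6 * C + 1) * Real.exp (-(6 * C + 1))) * g 0 / 2 := by ring
        _ = g 0 / 2 := by rw [h5, one_mul]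
    have h6 : g 0 / 2 ≤ Real.exp (3 * s) * Y s := by linarith
    calc g 0 / 2 * Real.exp (-(3 * s)) ≤ Real.exp (3 * s) * Y s * Real.exp (-(3 * s)) :=
          mul_le_mul_of_nonneg_right h6 (Real.exp_pos _).le
      _ = Y s * (Real.exp (3 * s) * Real.exp (-(3 * s))) := by ring
      _ = Y s := by rw [← Real.exp_add, add_neg_cancel, Real.exp_zero, mul_one]
  have h0P : (0 : ℝ) ∈ P := by
    refine ⟨?_, ?_⟩
    · simp only [neg_zero, Real.exp_zero, mul_one]
      linarith
    · simp only [mul_zero, neg_zero, Real.exp_zero, mul_one, hY0]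
      linarith
  have hall : Icc 0 C ⊆ P := by
    refine IsClosed.Icc_subset_of_forall_mem_nhdsGT_of_Icc_subset (hPc.inter isClosed_Icc) h0P ?_
    intro t ht hsub
    have h1 := key t ht.1 ht.2.le (fun s hs => hsub hs) t ⟨ht.1, le_rfl⟩
    have h2 : f 0 / 2 * Real.exp (-t) < f t := by
      have : 0 < f 0 / 2 * Real.exp (-t) := by positivity
      linarith [h1.1]
    have h3 : g 0 / 4 * Real.exp (-(3 * t)) < Y t := by
      have : 0 < g 0 / 4 * Real.exp (-(3 * t)) := by positivity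
      linarith [h1.2.2]
    have e1 : ∀ᶠ s in 𝓝 t, f 0 / 2 * Real.exp (-s) < f s :=
      c1.continuousAt.eventually_lt hfc.continuousAt h2
    have e2 : ∀ᶠ s in 𝓝 t, g 0 / 4 * Real.exp (-(3 * s)) < Y s :=
      c2.continuousAt.eventually_lt hYc.continuousAt h3
    refine mem_nhdsWithin_of_mem_nhds ?_
    filter_upwards [e1, e2] with s hs1 hs2
    exact ⟨hs1.le, hs2.le⟩
  have fin := key C hC le_rfl fun s hs => hall hs
  have hfpos : ∀ s ∈ Icc 0 C, 0 < f s := fun s hs => lt_of_lt_of_le (by positivity) (fin s hs).1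
  refine ⟨fun s hs => ⟨hfpos s hs, (fin s hs).2.1⟩, ?_⟩
  have h1 := mono_of_deriv (c := 0) (d := C)
    (F := fun r => f r * Real.exp r - g 0 / 2 * Real.exp (-(2 * C)) * r)
    (F' := fun r => (g r + f r) * Real.exp r - g 0 / 2 * Real.exp (-(2 * C)))
    (fun r _ => by
      have := ((hs.d1 r).mul (Real.hasDerivAt_exp r)).sub
        ((hasDerivAt_id r).const_mul (g 0 / 2 * Real.exp (-(2 * C))))
      refine this.congr_deriv ?_
      ring)
    (fun r hr => by
      have hr' : r ∈ Icc 0 C := ⟨hr.1.le, hr.2.le⟩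
      have h2 := (fin r hr').2.2
      have h3 : Real.tanh r * f r ≤ f r := mul_le_of_le_one_left (hfpos r hr').le (Real.tanh_lt_one r).le
      have h4 : Y r ≤ g r + f r := by
        simp only [hYdef]
        linarith
      have h5 : g 0 / 2 * Real.exp (-(3 * r)) * Real.exp r ≤ (g r + f r) * Real.exp r :=
        mul_le_mul_of_nonneg_right (h2.trans h4) (Real.exp_pos r).le
      have h6 : Real.exp (-(3 * r)) * Real.exp r = Real.exp (-(2 * r)) := by
        rw [← Real.exp_add]; congr 1; ring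
      have h7 : Real.exp (-(2 * C)) ≤ Real.exp (-(2 * r)) := Real.exp_le_exp.2 (by linarith [hr'.2])
      have h8 : g 0 / 2 * Real.exp (-(2 * C)) ≤ g 0 / 2 * Real.exp (-(2 * r)) :=
        mul_le_mul_of_nonneg_left h7 (by positivity)
      rw [mul_assoc, h6] at h5
      linarith) le_rfl hC le_rfl
  simp only [Real.exp_zero, mul_one, mul_zero, sub_zero] at h1
  have h2 : g 0 / 2 * Real.exp (-(2 * C)) * C ≤ f C * Real.exp C := by linarith
  calc C / 2 * Real.exp (-(3 * C)) * g 0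
      = g 0 / 2 * Real.exp (-(2 * C)) * C * Real.exp (-C) := by
        have : Real.exp (-(3 * C)) = Real.exp (-(2 * C)) * Real.exp (-C) := by
          rw [← Real.exp_add]; congr 1; ring
        rw [this]; ring
    _ ≤ f C * Real.exp C * Real.exp (-C) := mul_le_mul_of_nonneg_right h2 (Real.exp_pos _).le
    _ = f C := by rw [mul_assoc, ← Real.exp_add, add_neg_cancel, Real.exp_zero, mul_one]

/-- growth from the left end of the window -/
lemma grow {p c : ℝ} (hpc : p + 1 ≤ c) {V f g : ℝ → ℝ}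
    (hG : Continuous fun s => V s - 2 * xq f g s) (hs : Sol (fun x => 1 - V x) f g)
    (hfp : f p = 0) (hgp : 0 < g p) (hpos : ∀ x ∈ Ioc p c, 0 < f x ∧ 9 / 10 * f x ≤ g x)
    (hint : (∫ s in p..(p + 1), |V s - 2 * xq f g s|) ≤ 2) :
    g p * Real.exp (-3) * Real.exp (9 / 10 * (c - p - 1)) ≤ f c := by
  have hGa : Continuous fun s => |V s - 2 * xq f g s| := hG.abs
  set m : ℝ → ℝ := fun s => ∫ r in p..s, |V r - 2 * xq f g r| with hm
  have hmd : ∀ s, HasDerivAt m (|V s - 2 * xq f g s|) s := fun s =>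
    intervalIntegral.integral_hasDerivAt_right (hGa.intervalIntegrable _ _)
      (hGa.stronglyMeasurableAtFilter _ _) hGa.continuousAt
  have hm0 : m p = 0 := intervalIntegral.integral_same
  have hmle : ∀ s ∈ Icc p (p + 1), m s ≤ 2 := by
    intro s hs'
    refine le_trans ?_ hint
    have h1 : 0 ≤ ∫ r in s..(p + 1), |V r - 2 * xq f g r| :=
      intervalIntegral.integral_nonneg hs'.2 fun r _ => abs_nonneg _
    have h2 := intervalIntegral.integral_add_adjacent_intervals (hGa.intervalIntegrable p s)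
      (hGa.intervalIntegrable (μ := volume) s (p + 1))
    simp only [hm]
    linarith
  have hg' : ∀ r ∈ Ioo p (p + 1), -(|V r - 2 * xq f g r| * f r) ≤ (1 - V r) * f r := by
    intro r hr
    obtain ⟨h1, h2⟩ := hpos r ⟨hr.1, hr.2.le.trans hpc⟩
    have hG2 := le_abs_self (V r - 2 * xq f g r)
    have h3 : (V r - 2 * xq f g r) * f r ≤ |V r - 2 * xq f g r| * f r :=
      mul_le_mul_of_nonneg_right hG2 h1.le
    by_cases hc : g r ^ 2 ≤ f r ^ 2
    · have hx := xq_of_le h1 hc
      have h4 : 0 ≤ (1 - 2 * xq f g r) * f r := by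
        rw [hx]
        refine mul_nonneg ?_ h1.le
        have h5 : 9 / 10 ≤ g r / f r := by rw [le_div_iff₀ h1]; exact h2
        nlinarith
      linarith
    · rw [not_le] at hc
      have hx := xq_of_ge hc.le
      have h4 : 0 ≤ (1 - 2 * xq f g r) * f r := by
        rw [hx]
        simpa using h1.le
      linarith
  have b1 : ∀ s ∈ Icc p (p + 1), g p * Real.exp (-3) ≤ g s := by
    intro s hs'
    have h1 := mono_of_deriv (c := p) (d := p + 1) (F := fun r => g r * Real.exp (10 / 9 * m r))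
      (F' := fun r => ((1 - V r) * f r + 10 / 9 * |V r - 2 * xq f g r| * g r) *
        Real.exp (10 / 9 * m r))
      (fun r _ => by
        have := (hs.d2 r).mul (((hmd r).const_mul (10 / 9)).exp)
        refine this.congr_deriv ?_
        ring)
      (fun r hr => by
        have h2 := hg' r hr
        obtain ⟨h3, h4⟩ := hpos r ⟨hr.1, hr.2.le.trans hpc⟩
        have h5 := abs_nonneg (V r - 2 * xq f g r)
        have h6 := mul_le_mul_of_nonneg_left h4 h5
        refine mul_nonneg ?_ (Real.exp_pos _).le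
        nlinarith) le_rfl hs'.1 hs'.2
    simp only [hm0, mul_zero, Real.exp_zero, mul_one] at h1
    have h2 := hmle s hs'
    have h3 : g p * Real.exp (-(10 / 9 * m s)) ≤ g s := by
      calc g p * Real.exp (-(10 / 9 * m s))
          ≤ g s * Real.exp (10 / 9 * m s) * Real.exp (-(10 / 9 * m s)) :=
            mul_le_mul_of_nonneg_right h1 (Real.exp_pos _).le
        _ = g s := by rw [mul_assoc, ← Real.exp_add, add_neg_cancel, Real.exp_zero, mul_one]
    refine le_trans ?_ h3
    refine mul_le_mul_of_nonneg_left (Real.exp_le_exp.2 ?_) hgp.le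
    linarith
  have b2 : g p * Real.exp (-3) ≤ f (p + 1) := by
    have h1 := mono_of_deriv (c := p) (d := p + 1) (F := fun r => f r - g p * Real.exp (-3) * r)
      (F' := fun r => g r - g p * Real.exp (-3))
      (fun r _ => by
        have := (hs.d1 r).sub ((hasDerivAt_id r).const_mul (g p * Real.exp (-3)))
        refine this.congr_deriv ?_
        ring)
      (fun r hr => by
        have := b1 r ⟨hr.1.le, hr.2.le⟩
        linarith) le_rfl (by linarith) le_rfl
    simp only [hfp] at h1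
    linarith
  have h1 := mono_of_deriv (c := p + 1) (d := c) (F := fun r => f r * Real.exp (-(9 / 10 * r)))
    (F' := fun r => (g r - 9 / 10 * f r) * Real.exp (-(9 / 10 * r)))
    (fun r _ => by
      have := (hs.d1 r).mul ((((hasDerivAt_id r).const_mul (9 / 10)).neg).exp)
      refine this.congr_deriv ?_
      simp only [id, Pi.neg_apply]
      ring)
    (fun r hr => by
      have := (hpos r ⟨by linarith [hr.1], hr.2.le⟩).2
      exact mul_nonneg (by linarith) (Real.exp_pos _).le) le_rfl hpc le_rfl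
  calc g p * Real.exp (-3) * Real.exp (9 / 10 * (c - p - 1))
      ≤ f (p + 1) * Real.exp (9 / 10 * (c - p - 1)) :=
        mul_le_mul_of_nonneg_right b2 (Real.exp_pos _).le
    _ = f (p + 1) * Real.exp (-(9 / 10 * (p + 1))) * Real.exp (9 / 10 * c) := by
        rw [mul_assoc, ← Real.exp_add]; congr 2; ring
    _ ≤ f c * Real.exp (-(9 / 10 * c)) * Real.exp (9 / 10 * c) :=
        mul_le_mul_of_nonneg_right h1 (Real.exp_pos _).le
    _ = f c := by rw [mul_assoc, ← Real.exp_add, neg_add_cancel, Real.exp_zero, mul_one]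


lemma xq_near {f g : ℝ → ℝ} {s : ℝ} (hf : 0 < f s) (hq : |g s / f s| ≤ 2) :
    |xq f g s - (1 - Real.tanh s ^ 2)| ≤ 3 * |g s / f s + Real.tanh s| := by
  set q := g s / f s with hqd
  set τ := Real.tanh s with hτd
  have h1 : τ < 1 := Real.tanh_lt_one s
  have h2 : -1 < τ := Real.neg_one_lt_tanh s
  have h3 := abs_le.1 hq
  have h4 : |q - τ| ≤ 3 := by rw [abs_le]; constructor <;> linarith
  have h5 : |q ^ 2 - τ ^ 2| ≤ 3 * |q + τ| := by
    have : q ^ 2 - τ ^ 2 = (q - τ) * (q + τ) := by ring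
    rw [this, abs_mul]
    exact mul_le_mul_of_nonneg_right h4 (abs_nonneg _)
  have h6 : τ ^ 2 ≤ 1 := by nlinarith
  by_cases hc : g s ^ 2 ≤ f s ^ 2
  · rw [xq_of_le hf hc, ← hqd]
    have e : 1 - q ^ 2 - (1 - τ ^ 2) = -(q ^ 2 - τ ^ 2) := by ring
    rw [e, abs_neg]
    exact h5
  · rw [not_le] at hc
    rw [xq_of_ge hc.le]
    have hq1 : 1 < q ^ 2 := by
      rw [hqd, div_pow, lt_div_iff₀ (by positivity), one_mul]
      exact hc
    refine le_trans ?_ h5
    rw [abs_of_pos (by linarith : 0 < q ^ 2 - τ ^ 2), abs_le]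
    constructor <;> linarith

lemma xq_smul {f g : ℝ → ℝ} {c : ℝ} (hc : c ≠ 0) (s : ℝ) :
    xq (fun x => c * f x) (fun x => c * g x) s = xq f g s := by
  unfold xq
  have h1 : 0 ≤ c ^ 2 := sq_nonneg c
  have e1 : (c * f s) ^ 2 - (c * g s) ^ 2 = c ^ 2 * (f s ^ 2 - g s ^ 2) := by ring
  have e2 : max 0 (c ^ 2 * (f s ^ 2 - g s ^ 2)) = c ^ 2 * max 0 (f s ^ 2 - g s ^ 2) := by
    rw [mul_max_of_nonneg _ _ h1, mul_zero]
  rw [e1, e2, mul_pow, mul_div_mul_left _ _ (pow_ne_zero 2 hc)]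

lemma int_sub_le {F : ℝ → ℝ} (hF : Continuous F) (h0 : ∀ x, 0 ≤ F x) {a b c d : ℝ} (hac : a ≤ c)
    (hcd : c ≤ d) (hdb : d ≤ b) : (∫ x in c..d, F x) ≤ ∫ x in a..b, F x :=
  intervalIntegral.integral_mono_interval hac hcd hdb (Eventually.of_forall h0)
    (hF.intervalIntegrable _ _)

lemma abs_int_le {G : ℝ → ℝ} (hG : Continuous G) {c d l : ℝ} (hcd : c ≤ d) (hl : 0 < l) :
    (∫ x in c..d, |G x|) ≤ l * (d - c) + (∫ x in c..d, G x ^ 2) / (4 * l) := by
  have hG2 : Continuous fun x => G x ^ 2 := hG.pow 2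
  have hc2 : Continuous fun x => G x ^ 2 / (4 * l) := hG2.div_const _
  have hc1 : Continuous fun _ : ℝ => l := continuous_const
  have h1 : (∫ x in c..d, |G x|) ≤ ∫ x in c..d, (l + G x ^ 2 / (4 * l)) := by
    refine intervalIntegral.integral_mono_on hcd (hG.abs.intervalIntegrable _ _)
      ((hc1.add hc2).intervalIntegrable _ _) fun x _ => ?_
    have h2 : 0 ≤ (|G x| - 2 * l) ^ 2 := sq_nonneg _
    have h3 : |G x| * (4 * l) ≤ l * (4 * l) + G x ^ 2 := by
      rw [← sq_abs (G x)]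
      nlinarith
    calc |G x| = |G x| * (4 * l) / (4 * l) := by field_simp
      _ ≤ (l * (4 * l) + G x ^ 2) / (4 * l) := by
        exact div_le_div_of_nonneg_right h3 (by positivity)
      _ = l + G x ^ 2 / (4 * l) := by field_simp
  refine h1.trans (le_of_eq ?_)
  rw [intervalIntegral.integral_add (hc1.intervalIntegrable _ _)
    (hc2.intervalIntegrable _ _), intervalIntegral.integral_const,
    intervalIntegral.integral_div, smul_eq_mul]
  ring

lemma WinCmp.mono {ε ε' a a' b' : ℝ} {U Vm f₀ g₀ fm gm : ℝ → ℝ}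
    (w : WinCmp ε a a' b' U Vm f₀ g₀ fm gm) (h : ε ≤ ε') : WinCmp ε' a a' b' U Vm f₀ g₀ fm gm :=
  { w with d1 := w.d1.trans h, d2 := w.d2.trans h }

section

variable {ε a a' b' : ℝ} {U Vm f₀ g₀ fm gm : ℝ → ℝ}

lemma w_ne (w : WinCmp ε a a' b' U Vm f₀ g₀ fm gm) : ∃ x, fm x ≠ 0 := by
  by_contra hcon
  push Not at hcon
  have h1 : fm = fun _ => (0 : ℝ) := funext hcon
  have h2 := w.sm.d1 a'
  rw [h1] at h2
  have h3 := h2.unique (hasDerivAt_const a' (0 : ℝ))
  have := w.gma
  rw [h3] at this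
  exact lt_irrefl _ this

lemma w_cont (w : WinCmp ε a a' b' U Vm f₀ g₀ fm gm) : Continuous fun s => Vm s - 2 * xq fm gm s :=
  w.cV.sub (continuous_const.mul (xq_cont (continuous_const.sub w.cV) w.sm (w_ne w)))

lemma w_mono (w : WinCmp ε a a' b' U Vm f₀ g₀ fm gm) {x y : ℝ} (hx : a ≤ x) (hxy : x ≤ y)
    (hy : y ≤ 0) : f₀ x ≤ f₀ y :=
  mono_of_deriv (c := a) (d := 0) (fun r _ => w.s0.d1 r) (fun r hr => (w.pos r hr).2.le) hx hxy hy

lemma w_f0 (w : WinCmp ε a a' b' U Vm f₀ g₀ fm gm) : 0 < f₀ 0 := by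
  have ha := w.ha0
  have h1 := (w.pos (a / 2) ⟨by linarith, by linarith⟩).1
  exact h1.trans_le (w_mono w (by linarith) (by linarith) le_rfl)

lemma w_X (w : WinCmp ε a a' b' U Vm f₀ g₀ fm gm) (x : ℝ) :
    HasDerivAt (fun t => g₀ t * fm t - f₀ t * gm t) ((Vm x - U x) * (f₀ x * fm x)) x := by
  have h1 := ((w.s0.d2 x).mul (w.sm.d1 x)).sub ((w.s0.d1 x).mul (w.sm.d2 x))
  refine h1.congr_deriv ?_
  ring

/-- a window starting at `a > -R'` is impossible -/
lemma w_far {R' : ℝ} (w : WinCmp ε a a' b' U Vm f₀ g₀ fm gm) (hε : ε ≤ Real.exp (-(8 * R')) / 4)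
    (haa : a = a') (hb : R' ≤ b') (hV : ∀ x ∈ Icc (-R') R', Vm x = U x) :
    a' ≤ -R' := by
  by_contra hcon
  rw [not_le] at hcon
  subst haa
  have ha0 := w.ha0
  have hX0 : g₀ 0 * fm 0 - f₀ 0 * gm 0 = 0 := by
    have hz : ∀ r ∈ Ioo a 0, (Vm r - U r) * (f₀ r * fm r) = 0 := by
      intro r hr
      rw [hV r ⟨by linarith [hr.1], by linarith [hr.2]⟩, sub_self, zero_mul]
    have h1 := mono_of_deriv (c := a) (d := 0) (fun r _ => w_X w r) (fun r hr => (hz r hr).ge)
      le_rfl ha0.le le_rfl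
    have h2 := mono_of_deriv (c := a) (d := 0) (fun r _ => (w_X w r).neg)
      (fun r hr => by rw [hz r hr, neg_zero]) le_rfl ha0.le le_rfl
    simp only [w.f₀a, w.fma, Pi.neg_apply] at h1 h2
    linarith
  rw [w.g0, zero_mul, zero_sub, neg_eq_zero, mul_eq_zero] at hX0
  have hg : gm 0 = 0 := hX0.resolve_left (w_f0 w).ne'
  have hf : fm 0 ≠ 0 := fun h =>
    w.sm.deriv_ne_zero (continuous_const.sub w.cV) (w_ne w) h hg
  have hG := w_cont w
  have hG2 : Continuous fun s => (Vm s - 2 * xq fm gm s) ^ 2 := hG.pow 2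
  have key := core_left (T := -a) (δ := Real.exp (-(8 * R')) / 4) (by linarith) (by positivity)
    (by
      have h1 : Real.exp (8 * -a) ≤ Real.exp (8 * R') := Real.exp_le_exp.2 (by linarith)
      have h2 : Real.exp (-(8 * R')) * Real.exp (8 * R') = 1 := by
        rw [← Real.exp_add, neg_add_cancel, Real.exp_zero]
      have h3 := mul_le_mul_of_nonneg_left h1 (Real.exp_pos (-(8 * R'))).le
      rw [h2] at h3
      linarith) (w.sm.smul (fm 0)) hG (mul_self_pos.2 hf) (by
      rw [hg, mul_zero, zero_div, zero_pow two_ne_zero]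
      positivity) (by
      rw [neg_neg]
      refine (int_sub_le hG2 (fun _ => sq_nonneg _) le_rfl ha0.le (by linarith)).trans
        (w.d2.trans hε)) (fun s _ h1 h2 => by
        have := der_window (V := Vm) (f := fun x => fm 0 * fm x) (g := fun x => fm 0 * gm x) h1 h2
        rw [xq_smul hf] at this
        exact this) a ⟨by linarith, ha0.le⟩
  have := key.1
  rw [w.fma, mul_zero] at this
  exact lt_irrefl _ this

/-- bounds on the window solution up to the time `0` -/
lemma w_bounds {C : ℝ} (w : WinCmp ε a a' b' U Vm f₀ g₀ fm gm) (hC : 1 ≤ C) (ha' : a' + 1 ≤ -C)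
    (hb : 0 ≤ b') (hε1 : ε ≤ 1) (hε2 : ε ≤ (Real.exp (-(6 * C + 1)) / 6) ^ 2 / C)
    (hpos : ∀ x ∈ Ioc a' (-C), 0 < fm x ∧ 9 / 10 * fm x ≤ gm x) :
    (∀ x ∈ Ioc a' 0, 0 < fm x ∧ fm x ≤ 3 * Real.exp (3 * C + 1) * gm (-C)) ∧
      C / 2 * Real.exp (-(3 * C)) * gm (-C) ≤ fm 0 ∧
      gm a' * Real.exp (-3) * Real.exp (9 / 10 * (-C - a' - 1)) ≤ 10 / 9 * gm (-C) := by
  have hG := w_cont w
  have hG2 : Continuous fun s => (Vm s - 2 * xq fm gm s) ^ 2 := hG.pow 2
  set μ := Real.exp (-(6 * C + 1)) / 6 with hμ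
  have hμ0 : 0 < μ := by positivity
  have hC0 : 0 < C := by linarith
  obtain ⟨hfC, hgC⟩ := hpos (-C) ⟨by linarith, le_rfl⟩
  -- the bridge
  have hsh : Sol (fun x => 1 - Vm (x - C)) (fun x => fm (x - C)) (fun x => gm (x - C)) := by
    refine ⟨fun x => ?_, fun x => ?_⟩
    · exact (w.sm.d1 (x - C)).comp_sub_const x C
    · exact (w.sm.d2 (x - C)).comp_sub_const x C
  have hxs : ∀ s, xq (fun x => fm (x - C)) (fun x => gm (x - C)) s = xq fm gm (s - C) := fun s => rfl
  have hbr := bridge (C := C) (μ := μ) hC0.le (V := fun x => Vm (x - C))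
    (f := fun x => fm (x - C)) (g := fun x => gm (x - C))
    (by
      simp only [hxs]
      exact hG.comp (continuous_id.sub continuous_const)) hsh
    (by simpa using hfC) (by simpa using hgC)
    (by
      simp only [hxs]
      rw [intervalIntegral.integral_comp_sub_right (fun s => |Vm s - 2 * xq fm gm s|) C, zero_sub,
        sub_self]
      refine (abs_int_le hG (l := μ / (2 * C)) (by linarith) (by positivity)).trans ?_
      have h1 : (∫ x in (-C)..0, (Vm x - 2 * xq fm gm x) ^ 2) ≤ ε :=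
        (int_sub_le hG2 (fun _ => sq_nonneg _) (by linarith) (by linarith) hb).trans w.d2
      have h2 := h1.trans hε2
      have h3 : (∫ x in (-C)..0, (Vm x - 2 * xq fm gm x) ^ 2) / (4 * (μ / (2 * C))) ≤
          μ ^ 2 / C / (4 * (μ / (2 * C))) := div_le_div_of_nonneg_right h2 (by positivity)
      have h4 : μ ^ 2 / C / (4 * (μ / (2 * C))) = μ / 2 := by field_simp; ring
      have h5 : μ / (2 * C) * (0 - -C) = μ / 2 := by field_simp; ring
      rw [h4] at h3
      rw [h5]
      linarith) le_rfl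
  obtain ⟨hb1, hb2⟩ := hbr
  simp only [zero_sub, sub_self] at hb1 hb2
  have hmono : ∀ x ∈ Ioc a' (-C), fm x ≤ fm (-C) := by
    intro x hx
    refine mono_of_deriv (c := x) (d := -C) (fun r _ => w.sm.d1 r) (fun r hr => ?_) le_rfl hx.2 le_rfl
    have := hpos r ⟨by linarith [hx.1, hr.1], hr.2.le⟩
    linarith [this.1, this.2]
  have hbC := hb1 0 ⟨le_rfl, hC0.le⟩
  rw [zero_sub] at hbC
  refine ⟨fun x hx => ?_, hb2, ?_⟩
  · rcases le_total x (-C) with h | h
    · exact ⟨(hpos x ⟨hx.1, h⟩).1, (hmono x ⟨hx.1, h⟩).trans hbC.2⟩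
    · have := hb1 (x + C) ⟨by linarith, by linarith [hx.2]⟩
      rw [add_sub_cancel_right] at this
      exact this
  · refine (grow (c := -C) (by linarith) hG w.sm w.fma w.gma hpos ?_).trans (by linarith)
    refine (abs_int_le hG (l := 1) (by linarith) one_pos).trans ?_
    have h1 : (∫ x in a'..(a' + 1), (Vm x - 2 * xq fm gm x) ^ 2) ≤ ε :=
      (int_sub_le hG2 (fun _ => sq_nonneg _) le_rfl (by linarith) (by linarith)).trans w.d2
    have h2 := h1.trans hε1
    have h3 : (∫ x in a'..(a' + 1), (Vm x - 2 * xq fm gm x) ^ 2) / (4 * 1) ≤ 1 := by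
      rw [div_le_one (by norm_num)]
      linarith
    linarith

/-- bounds for `gm 0` -/
lemma w_gm (w : WinCmp ε a a' b' U Vm f₀ g₀ fm gm) (hb : 0 ≤ b') (ha' : a' < 0) {M : ℝ}
    (hM : 0 ≤ M) (hpos : ∀ x ∈ Ioc a' 0, 0 < fm x ∧ fm x ≤ M) :
    gm 0 ≤ gm a' ∧ -gm 0 ≤ M * ε := by
  have hf0 := w_f0 w
  have hsub : ∀ r ∈ Ioo a' 0, r ∈ Ioo a 0 := fun r hr => ⟨lt_of_le_of_lt w.haa hr.1, hr.2⟩
  constructor
  · have h1 := mono_of_deriv (c := a') (d := 0) (fun r _ => w_X w r) (fun r hr => by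
      have h2 := w.pos r (hsub r hr)
      have h3 := hpos r ⟨hr.1, hr.2.le⟩
      have h4 := w.le r
      exact mul_nonneg (by linarith) (mul_nonneg h2.1.le h3.1.le)) le_rfl ha'.le le_rfl
    simp only [w.fma, w.g0, mul_zero, zero_mul, zero_sub] at h1
    have h5 := w_mono w w.haa ha'.le le_rfl
    have h6 : f₀ a' * gm a' ≤ f₀ 0 * gm a' := mul_le_mul_of_nonneg_right h5 w.gma.le
    have h7 : f₀ 0 * gm 0 ≤ f₀ 0 * gm a' := by linarith
    exact le_of_mul_le_mul_left h7 hf0
  · have hc : Continuous fun s => Vm s - U s := w.cV.sub w.cU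
    have hmd : ∀ s, HasDerivAt (fun s => ∫ r in a'..s, (Vm r - U r)) (Vm s - U s) s := fun s =>
      intervalIntegral.integral_hasDerivAt_right (hc.intervalIntegrable _ _)
        (hc.stronglyMeasurableAtFilter _ _) hc.continuousAt
    have h1 := mono_of_deriv (c := a') (d := 0)
      (F := fun t => f₀ 0 * M * (∫ r in a'..t, (Vm r - U r)) - (g₀ t * fm t - f₀ t * gm t))
      (F' := fun t => f₀ 0 * M * (Vm t - U t) - (Vm t - U t) * (f₀ t * fm t))
      (fun r _ => ((hmd r).const_mul (f₀ 0 * M)).sub (w_X w r)) (fun r hr => by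
        have h2 := w.pos r (hsub r hr)
        have h3 := hpos r ⟨hr.1, hr.2.le⟩
        have h4 := w.le r
        have h5 := w_mono w (hsub r hr).1.le hr.2.le le_rfl
        have h6 : f₀ r * fm r ≤ f₀ 0 * M := mul_le_mul h5 h3.2 h3.1.le hf0.le
        have h7 : 0 ≤ (Vm r - U r) * (f₀ 0 * M - f₀ r * fm r) :=
          mul_nonneg (by linarith) (by linarith)
        linarith) le_rfl ha'.le le_rfl
    simp only [w.fma, w.g0, mul_zero, zero_mul, zero_sub, intervalIntegral.integral_same] at h1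
    have h8 : (∫ r in a'..0, (Vm r - U r)) ≤ ε :=
      (int_sub_le hc (fun x => by linarith [w.le x]) le_rfl ha'.le hb).trans w.d1
    have h9 : f₀ 0 * M * (∫ r in a'..0, (Vm r - U r)) ≤ f₀ 0 * M * ε :=
      mul_le_mul_of_nonneg_left h8 (mul_nonneg hf0.le hM)
    have h10 : 0 ≤ f₀ a' * gm a' := by
      refine mul_nonneg ?_ w.gma.le
      have := w_mono w le_rfl w.haa ha'.le
      rw [w.f₀a] at this
      exact this
    have h11 : f₀ 0 * -gm 0 ≤ f₀ 0 * (M * ε) := by linarith
    exact le_of_mul_le_mul_left h11 hf0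

/-- the conclusion, from the smallness of `gm 0 / fm 0` -/
lemma w_final {R R' δ δ₃ : ℝ} (hR : 0 < R) (hRR : R ≤ R') (hδ : 0 < δ) (hδ₃ : 0 < δ₃)
    (h1 : 2 * δ * Real.exp (8 * R) < 1) (h2 : 288 * R * δ * Real.exp (8 * R) ≤ δ₃ / 2)
    (h3 : 2 * δ₃ * Real.exp (8 * R) < 1) (h4 : 2 * δ₃ * Real.exp (8 * R) ≤ 1 / R ^ 2)
    (hε1 : ε ≤ δ) (hε2 : ε ≤ δ₃ / 4)
    (w : WinCmp ε a a' b' U Vm f₀ g₀ fm gm) (ha' : a' ≤ -R') (hb : R' ≤ b')
    (hV : ∀ x ∈ Icc (-R') R', Vm x = U x) (hf : 0 < fm 0) (hq : (gm 0 / fm 0) ^ 2 ≤ δ) :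
    (∀ x ∈ Icc (-R) R, 0 < f₀ x ∧ |g₀ x / f₀ x + Real.tanh x| ≤ 1 / R) ∧
      (∫ x in (-R)..R, (U x - 2 / Real.cosh x ^ 2) ^ 2) ≤ δ₃ := by
  have hG := w_cont w
  have hG2 : Continuous fun s => (Vm s - 2 * xq fm gm s) ^ 2 := hG.pow 2
  have hint : (∫ x in (-R)..R, (Vm x - 2 * xq fm gm x) ^ 2) ≤ ε :=
    (int_sub_le hG2 (fun _ => sq_nonneg _) (by linarith) (by linarith) (by linarith)).trans w.d2
  have k1 := core_two hR.le hδ h1 w.sm hG hf hq (hint.trans hε1)
    (fun s _ h5 h6 => der_window h5 h6)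
  have hcosh : Continuous fun x => 2 / Real.cosh x ^ 2 :=
    continuous_const.div (Real.continuous_cosh.pow 2) fun x => by
      have := Real.cosh_pos x
      positivity
  have hU2 : Continuous fun x => (U x - 2 / Real.cosh x ^ 2) ^ 2 := (w.cU.sub hcosh).pow 2
  have hpt : ∀ x ∈ Icc (-R) R, (U x - 2 / Real.cosh x ^ 2) ^ 2 ≤
      2 * (Vm x - 2 * xq fm gm x) ^ 2 + 72 * (2 * δ * Real.exp (8 * R)) := by
    intro x hx
    obtain ⟨hfx, hd⟩ := k1 x hx
    rw [← hV x ⟨by linarith [hx.1], by linarith [hx.2]⟩, two_div_cosh_sq]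
    have hd1 : |gm x / fm x + Real.tanh x| < 1 := (sq_lt_one_iff_abs_lt_one _).1 (hd.trans_lt h1)
    have hq2 : |gm x / fm x| ≤ 2 := by
      have h5 := abs_lt.1 hd1
      have h6 := Real.tanh_lt_one x
      have h7 := Real.neg_one_lt_tanh x
      rw [abs_le]
      constructor <;> linarith
    have h5 := xq_near hfx hq2
    set d := gm x / fm x + Real.tanh x with hdd
    set y := xq fm gm x - (1 - Real.tanh x ^ 2) with hy
    have e : Vm x - 2 * (1 - Real.tanh x ^ 2) = (Vm x - 2 * xq fm gm x) + 2 * y := by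
      rw [hy]; ring
    rw [e]
    have h6 : y ^ 2 ≤ 9 * d ^ 2 := by
      rw [← sq_abs y, ← sq_abs d]
      nlinarith [abs_nonneg y, abs_nonneg d]
    nlinarith [sq_nonneg ((Vm x - 2 * xq fm gm x) - 2 * y)]
  have hc1 : Continuous fun x => 2 * (Vm x - 2 * xq fm gm x) ^ 2 := continuous_const.mul hG2
  have hc2 : Continuous fun _ : ℝ => 72 * (2 * δ * Real.exp (8 * R)) := continuous_const
  have hI : (∫ x in (-R)..R, (U x - 2 / Real.cosh x ^ 2) ^ 2) ≤ δ₃ := by
    have h5 : (∫ x in (-R)..R, (U x - 2 / Real.cosh x ^ 2) ^ 2) ≤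
        ∫ x in (-R)..R, (2 * (Vm x - 2 * xq fm gm x) ^ 2 + 72 * (2 * δ * Real.exp (8 * R))) :=
      intervalIntegral.integral_mono_on (by linarith) (hU2.intervalIntegrable _ _)
        ((hc1.add hc2).intervalIntegrable _ _) hpt
    rw [intervalIntegral.integral_add (hc1.intervalIntegrable _ _)
      (hc2.intervalIntegrable _ _), intervalIntegral.integral_const_mul,
      intervalIntegral.integral_const, smul_eq_mul] at h5
    have e : (R - -R) * (72 * (2 * δ * Real.exp (8 * R))) = 288 * R * δ * Real.exp (8 * R) := by ring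
    rw [e] at h5
    linarith
  refine ⟨?_, hI⟩
  have k2 := core_two hR.le hδ₃ h3 w.s0 (w.cU.sub hcosh) (w_f0 w) (by
    rw [w.g0, zero_div, zero_pow two_ne_zero]
    exact hδ₃.le) hI (fun s _ _ h6 => der_global h6)
  intro x hx
  obtain ⟨h5, h6⟩ := k2 x hx
  refine ⟨h5, ?_⟩
  refine abs_le_of_sq_le_sq ?_ (by positivity)
  rw [div_pow, one_pow]
  exact h6.trans h4

end

end FirstBX

open FirstBX in
/-- FIRSTB: the window reaches far to the left and right of `0` and `Vm = U` near `0`. -/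
theorem first_core {R : ℝ} (hR : 0 < R) :
    ∃ R' > R, ∃ ε > 0, ∀ (a a' b' : ℝ) (U Vm f₀ g₀ fm gm : ℝ → ℝ), WinCmp ε a a' b' U Vm f₀ g₀ fm gm →
      (a = a' ∨ a' ≤ -R') → R' ≤ b' → (∀ x ∈ Icc (-R') R', Vm x = U x) →
        a ≤ -R ∧ (∀ x ∈ Icc (-R) R, 0 < f₀ x ∧ |g₀ x / f₀ x + Real.tanh x| ≤ 1 / R) ∧
          (∫ x in (-R)..R, (U x - 2 / Real.cosh x ^ 2) ^ 2) ≤ 1 / R := by
  obtain ⟨C₀, hC₀, ε₀, hε₀, hA⟩ := first_left (η := 1 / 10) (by norm_num)
  obtain ⟨C, hC⟩ : ∃ C, C = max C₀ 1 := ⟨_, rfl⟩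
  have hC1 : 1 ≤ C := by rw [hC]; exact le_max_right _ _
  have hCC : C₀ ≤ C := by rw [hC]; exact le_max_left _ _
  have hCp : 0 < C := by linarith
  obtain ⟨E, hE⟩ : ∃ E, E = Real.exp (8 * R) := ⟨_, rfl⟩
  have hE0 : 0 < E := by rw [hE]; exact Real.exp_pos _
  obtain ⟨δ₃, hδ₃⟩ : ∃ δ₃, δ₃ = min (1 / R) (min (1 / (4 * E)) (1 / (2 * R ^ 2 * E))) := ⟨_, rfl⟩
  have hδ₃p : 0 < δ₃ := by rw [hδ₃]; positivity
  have d31 : δ₃ ≤ 1 / R := by rw [hδ₃]; exact min_le_left _ _
  have d32 : δ₃ ≤ 1 / (4 * E) := by rw [hδ₃]; exact (min_le_right _ _).trans (min_le_left _ _)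
  have d33 : δ₃ ≤ 1 / (2 * R ^ 2 * E) := by
    rw [hδ₃]; exact (min_le_right _ _).trans (min_le_right _ _)
  obtain ⟨δ, hδ⟩ : ∃ δ, δ = min (δ₃ / (576 * R * E)) (1 / (4 * E)) := ⟨_, rfl⟩
  have hδp : 0 < δ := by rw [hδ]; positivity
  have d1 : δ ≤ δ₃ / (576 * R * E) := by rw [hδ]; exact min_le_left _ _
  have d2 : δ ≤ 1 / (4 * E) := by rw [hδ]; exact min_le_right _ _
  obtain ⟨K, hK⟩ : ∃ K, K = 3 * Real.exp (3 * C + 1) := ⟨_, rfl⟩
  have hKp : 0 < K := by rw [hK]; positivity
  obtain ⟨c, hc⟩ : ∃ c, c = C / 2 * Real.exp (-(3 * C)) := ⟨_, rfl⟩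
  have hcp : 0 < c := by rw [hc]; positivity
  obtain ⟨C₃, hC₃⟩ : ∃ C₃, C₃ = 10 / 9 / c * Real.exp 3 * Real.exp (9 / 10 * (C + 1)) := ⟨_, rfl⟩
  have hC₃p : 0 < C₃ := by rw [hC₃]; positivity
  obtain ⟨R', hR'⟩ : ∃ R', R' = max R (C + 1) + 1 + C₃ ^ 2 / δ := ⟨_, rfl⟩
  have hq0 : 0 < C₃ ^ 2 / δ := by positivity
  have hR1 : R + 1 ≤ R' := by
    rw [hR']; linarith [le_max_left R (C + 1)]
  have hR2 : C + 2 ≤ R' := by
    rw [hR']; linarith [le_max_right R (C + 1)]
  have hR3 : C₃ ^ 2 / δ ≤ R' := by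
    rw [hR']; linarith [le_max_left R (C + 1)]
  have hR'p : 0 < R' := by linarith
  obtain ⟨μ, hμ⟩ : ∃ μ, μ = Real.exp (-(6 * C + 1)) / 6 := ⟨_, rfl⟩
  have hμp : 0 < μ := by rw [hμ]; positivity
  obtain ⟨ε, hε⟩ : ∃ ε, ε = min ε₀ (min (δ₃ / 4) (min δ (min (δ / (K / c) ^ 2) (min (μ ^ 2 / C)
    (min (Real.exp (-(8 * R')) / 4) 1))))) := ⟨_, rfl⟩
  have hεp : 0 < ε := by rw [hε]; positivity
  have e1 : ε ≤ ε₀ := by rw [hε]; exact min_le_left _ _
  have e2 : ε ≤ δ₃ / 4 := by rw [hε]; exact (min_le_right _ _).trans (min_le_left _ _)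
  have e3 : ε ≤ δ := by
    rw [hε]; exact (min_le_right _ _).trans ((min_le_right _ _).trans (min_le_left _ _))
  have e4 : ε ≤ δ / (K / c) ^ 2 := by
    rw [hε]
    exact (min_le_right _ _).trans ((min_le_right _ _).trans ((min_le_right _ _).trans
      (min_le_left _ _)))
  have e5 : ε ≤ μ ^ 2 / C := by
    rw [hε]
    exact (min_le_right _ _).trans ((min_le_right _ _).trans ((min_le_right _ _).trans
      ((min_le_right _ _).trans (min_le_left _ _))))
  have e6 : ε ≤ Real.exp (-(8 * R')) / 4 := by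
    rw [hε]
    exact (min_le_right _ _).trans ((min_le_right _ _).trans ((min_le_right _ _).trans
      ((min_le_right _ _).trans ((min_le_right _ _).trans (min_le_left _ _)))))
  have e7 : ε ≤ 1 := by
    rw [hε]
    exact (min_le_right _ _).trans ((min_le_right _ _).trans ((min_le_right _ _).trans
      ((min_le_right _ _).trans ((min_le_right _ _).trans (min_le_right _ _)))))
  refine ⟨R', by linarith, ε, hεp, ?_⟩
  intro a a' b' U Vm f₀ g₀ fm gm w hor hb hV
  have ha' : a' ≤ -R' := by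
    rcases hor with h | h
    · exact w_far w e6 h hb hV
    · exact h
  have hb0 : 0 < b' := by linarith
  have hposA := (hA a a' b' U Vm f₀ g₀ fm gm (WinCmp.mono w e1)).1
  have hpos : ∀ x ∈ Ioc a' (-C), 0 < fm x ∧ 9 / 10 * fm x ≤ gm x := by
    intro x hx
    have h1 := hposA x ⟨hx.1, by rw [min_eq_right hb0.le]; linarith [hx.2]⟩
    refine ⟨h1.1, ?_⟩
    have := h1.2
    norm_num at this
    linarith
  obtain ⟨p1, p2, p3⟩ := w_bounds w hC1 (by linarith) hb0.le e7 (by rw [← hμ]; exact e5) hpos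
  rw [← hK] at p1
  rw [← hc] at p2
  have hgC : 0 < gm (-C) := by
    have := hpos (-C) ⟨by linarith, le_rfl⟩
    linarith [this.1, this.2]
  have hfm0 : 0 < fm 0 := (p1 0 ⟨by linarith, le_rfl⟩).1
  obtain ⟨g1, g2⟩ := w_gm w hb0.le (by linarith) (by positivity : 0 ≤ K * gm (-C)) p1
  have hgCf : gm (-C) ≤ fm 0 / c := by
    rw [le_div_iff₀ hcp]
    linarith
  have hq : (gm 0 / fm 0) ^ 2 ≤ δ := by
    rcases le_total 0 (gm 0) with h | h
    · -- upper bound
      have h1 : gm a' ≤ C₃ * Real.exp (-(9 / 10 * R')) * fm 0 := by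
        have h2 : gm a' = gm a' * Real.exp (-3) * Real.exp (9 / 10 * (-C - a' - 1)) *
            (Real.exp 3 * Real.exp (-(9 / 10 * (-C - a' - 1)))) := by
          have : Real.exp (-3) * Real.exp (9 / 10 * (-C - a' - 1)) *
            (Real.exp 3 * Real.exp (-(9 / 10 * (-C - a' - 1)))) = 1 := by
            rw [← Real.exp_add, ← Real.exp_add, ← Real.exp_add]
            rw [show -3 + 9 / 10 * (-C - a' - 1) + (3 + -(9 / 10 * (-C - a' - 1))) = 0 by ring,
              Real.exp_zero]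
          calc gm a' = gm a' * 1 := (mul_one _).symm
            _ = gm a' * (Real.exp (-3) * Real.exp (9 / 10 * (-C - a' - 1)) *
                (Real.exp 3 * Real.exp (-(9 / 10 * (-C - a' - 1))))) := by rw [this]
            _ = _ := by ring
        have h3 : Real.exp (-(9 / 10 * (-C - a' - 1))) ≤
            Real.exp (9 / 10 * (C + 1)) * Real.exp (-(9 / 10 * R')) := by
          rw [← Real.exp_add]
          exact Real.exp_le_exp.2 (by linarith)
        rw [h2]
        calc gm a' * Real.exp (-3) * Real.exp (9 / 10 * (-C - a' - 1)) *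
              (Real.exp 3 * Real.exp (-(9 / 10 * (-C - a' - 1))))
            ≤ (10 / 9 * (fm 0 / c)) *
              (Real.exp 3 * (Real.exp (9 / 10 * (C + 1)) * Real.exp (-(9 / 10 * R')))) := by
              refine mul_le_mul (p3.trans ?_) (mul_le_mul_of_nonneg_left h3 (Real.exp_pos _).le)
                (by positivity) (by positivity)
              linarith
          _ = C₃ * Real.exp (-(9 / 10 * R')) * fm 0 := by
              rw [hC₃]; field_simp
      have h2 : gm 0 / fm 0 ≤ C₃ * Real.exp (-(9 / 10 * R')) := by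
        rw [div_le_iff₀ hfm0]
        exact g1.trans h1
      have h3 : 0 ≤ gm 0 / fm 0 := div_nonneg h hfm0.le
      have h4 : (gm 0 / fm 0) ^ 2 ≤ (C₃ * Real.exp (-(9 / 10 * R'))) ^ 2 :=
        pow_le_pow_left₀ h3 h2 2
      refine h4.trans ?_
      have h5 : (C₃ * Real.exp (-(9 / 10 * R'))) ^ 2 = C₃ ^ 2 * Real.exp (-(9 / 5 * R')) := by
        rw [mul_pow, ← Real.exp_nat_mul]
        congr 2
        push_cast
        ring
      rw [h5]
      have h6 : R' ≤ Real.exp (9 / 5 * R') := by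
        have := Real.add_one_le_exp (9 / 5 * R')
        linarith
      have h7 : C₃ ^ 2 ≤ R' * δ := by
        rw [div_le_iff₀ hδp] at hR3
        exact hR3
      have h8 : C₃ ^ 2 ≤ Real.exp (9 / 5 * R') * δ :=
        h7.trans (mul_le_mul_of_nonneg_right h6 hδp.le)
      calc C₃ ^ 2 * Real.exp (-(9 / 5 * R')) ≤ Real.exp (9 / 5 * R') * δ * Real.exp (-(9 / 5 * R')) :=
            mul_le_mul_of_nonneg_right h8 (Real.exp_pos _).le
        _ = δ * (Real.exp (9 / 5 * R') * Real.exp (-(9 / 5 * R'))) := by ring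
        _ = δ := by rw [← Real.exp_add, add_neg_cancel, Real.exp_zero, mul_one]
    · -- lower bound
      have h1 : -gm 0 ≤ K / c * ε * fm 0 := by
        refine g2.trans ?_
        calc K * gm (-C) * ε ≤ K * (fm 0 / c) * ε :=
              mul_le_mul_of_nonneg_right (mul_le_mul_of_nonneg_left hgCf hKp.le) hεp.le
          _ = K / c * ε * fm 0 := by ring
      have h2 : -(gm 0 / fm 0) ≤ K / c * ε := by
        rw [← neg_div, div_le_iff₀ hfm0]
        exact h1
      have h3 : 0 ≤ -(gm 0 / fm 0) := by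
        rw [← neg_div]
        exact div_nonneg (by linarith) hfm0.le
      have h4 : (gm 0 / fm 0) ^ 2 ≤ (K / c * ε) ^ 2 := by
        rw [← neg_sq]
        exact pow_le_pow_left₀ h3 h2 2
      refine h4.trans ?_
      have h5 : (K / c) ^ 2 * ε ≤ δ := by
        rw [le_div_iff₀ (by positivity)] at e4
        linarith
      calc (K / c * ε) ^ 2 = (K / c) ^ 2 * ε * ε := by ring
        _ ≤ δ * 1 := mul_le_mul h5 e7 hεp.le hδp.le
        _ = δ := mul_one _
  have hEne := hE0.ne'
  obtain ⟨r1, r2⟩ := w_final (R' := R') hR (by linarith) hδp hδ₃p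
    (by
      rw [← hE]
      have := mul_le_mul_of_nonneg_right d2 hE0.le
      have h2 : 1 / (4 * E) * E = 1 / 4 := by field_simp
      linarith)
    (by
      rw [← hE]
      have h1 := mul_le_mul_of_nonneg_right d1 (by positivity : 0 ≤ 288 * R * E)
      have h2 : δ₃ / (576 * R * E) * (288 * R * E) = δ₃ / 2 := by
        field_simp
        ring
      linarith)
    (by
      rw [← hE]
      have := mul_le_mul_of_nonneg_right d32 hE0.le
      have h2 : 1 / (4 * E) * E = 1 / 4 := by field_simp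
      linarith)
    (by
      rw [← hE]
      have := mul_le_mul_of_nonneg_right d33 hE0.le
      have h2 : 1 / (2 * R ^ 2 * E) * E = 1 / R ^ 2 / 2 := by field_simp
      linarith)
    e3 e2 w ha' hb hV hfm0 hq
  exact ⟨by linarith [w.haa], r1, r2.trans d31⟩

end Pool.Agent.RLT40
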