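import Pool.Agent.RLT40.OneD

/-!
# Modules FIRSTA, FIRSTB (paper 4.8): comparison of the global zero energy solution with window solutions.  Pure ODE statements.

Setting: `f₀ > 0, g₀ > 0` on `(a, 0)` (`0` = first zero of `g₀/f₀`); window solution `fm` for `1 - Vm`, `fm a' = 0`, `gm a' > 0`, `a ≤ a'`; `U ≤ Vm`, `∫_{a'}^{b'} (Vm - U) ≤ ε`,
`∫_{a'}^{b'} (Vm - 2 xq)² ≤ ε`.
FIRSTA proof: `X = g₀ fm - f₀ gm`, `X' = (Vm - U) f₀ fm`, `X(a') ≤ 0`.  Let `t'` be the first time with `qm = gm/fm < 1-κ`, suppose `t' ≤ min(b',0) - T_κ`.  Riccati with error `G = Vm - 2xq`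
(`∫|G| ≤ sqrt(ε T)` on intervals of length `T`): `qm` reaches `-1/2` at some `t'' ≤ t' + log(2/κ) + 3 < 0`, `fm` increases up to the zero of `qm` and loses at most a factor `2`
until `t''`; `f₀` increasing; so `q₀(t'') ≤ qm(t'') + 2 ∫(Vm-U) ≤ -1/2 + 2ε < 0`: contradiction.  So `qm ≥ 1-κ` on `(a', min(b',0) - T_κ]`, `Vm ≤ 4κ + |G|`.
FIRSTB proof: on `t ≤ -C₀`, `qm ≥ 0.9` (FIRSTA), so `fm(0) ≥ c gm(a') e^{0.9(-a'-C₀-1)}`; `X(0) ≥ X(a') = -f₀(a') gm(a')` gives `qm(0) ≤ C e^{-0.9 R'}`; `X(0) ≤ ε·max(f₀ fm)` gives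
`qm(0) ≥ -2ε`.  Then Gronwall for `d = qm + tanh` (`(-tanh)' = -(1 - tanh²)`): `|d'| ≤ 3|d| + |G|` while `|qm| ≤ 2`; similarly for `q₀ + tanh`:
`d₀' = -(q₀ - tanh) d₀ - (U - 2/cosh²)`.
-/

open MeasureTheory Set
open scoped ENNReal NNReal

namespace Pool.Agent.RLT40

/-- common hypotheses of the two comparison lemmas -/
structure WinCmp (ε a a' b' : ℝ) (U Vm f₀ g₀ fm gm : ℝ → ℝ) : Prop where
  haa : a ≤ a'
  hab : a' < b'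
  ha0 : a < 0
  cU : Continuous U
  cV : Continuous Vm
  U0 : ∀ x, 0 ≤ U x
  le : ∀ x, U x ≤ Vm x
  s0 : Sol (fun x => 1 - U x) f₀ g₀
  f₀a : f₀ a = 0
  pos : ∀ x ∈ Ioo a 0, 0 < f₀ x ∧ 0 < g₀ x
  g0 : g₀ 0 = 0
  sm : Sol (fun x => 1 - Vm x) fm gm
  fma : fm a' = 0
  gma : 0 < gm a'
  d1 : (∫ x in a'..b', (Vm x - U x)) ≤ ε
  d2 : (∫ x in a'..b', (Vm x - 2 * xq fm gm x) ^ 2) ≤ ε

end Pool.Agent.RLT40
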