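import Pool.Agent.RLT40.GNaTools

/-!
# Tools for the module GN1 (`gn_exists`), see `GNa.lean`: the functional `Xi`.
-/

open MeasureTheory Set Filter
open scoped ENNReal NNReal Topology

namespace Pool.Agent.RLT40

theorem gna_s {γ : ℝ} (hγ : 0 < γ) : 2 ≤ 2 * (2 + γ) / (1 + γ) := by
  rw [le_div_iff₀ (by linarith)]
  nlinarith

theorem gna_beta {γ : ℝ} (_ : 0 < γ) (x : ℝ) : 2 * γ * x / (1 + γ) = 2 * γ / (1 + γ) * x := by
  ring

theorem gna_beta0 {γ : ℝ} (hγ : 0 < γ) : 0 < 2 * γ / (1 + γ) := by positivity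

theorem gna_beta1 {γ : ℝ} (hγ : 0 < γ) (hγ1 : γ ≤ 1) : 2 * γ / (1 + γ) ≤ 1 := by
  rw [div_le_iff₀ (by linarith)]
  linarith

/-- the integrand of `Xi` -/
noncomputable def gna_xi (γ : ℝ) (f : ℝ → ℝ) (x : ℝ) : ℝ :=
  |f x| ^ (2 * (2 + γ) / (1 + γ)) * Real.exp (2 * γ * x / (1 + γ))

theorem gna_xi_nonneg (γ : ℝ) (f : ℝ → ℝ) (x : ℝ) : 0 ≤ gna_xi γ f x :=
  mul_nonneg (Real.rpow_nonneg (abs_nonneg _) _) (Real.exp_pos _).le

theorem gna_xi_cont {γ : ℝ} (hγ : 0 < γ) {f : ℝ → ℝ} (hf : Continuous f) : Continuous (gna_xi γ f) := by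
  have hs := gna_s hγ
  unfold gna_xi
  refine (hf.abs.rpow_const fun x => Or.inr (by linarith)).mul ?_
  fun_prop

theorem gna_exp_le {β x : ℝ} (hβ0 : 0 ≤ β) (hβ : β ≤ 2) : Real.exp (β * x) ≤ 1 + om x := by
  unfold om
  rcases le_total x 0 with hx | hx
  · have : Real.exp (β * x) ≤ 1 := Real.exp_le_one_iff.2 (mul_nonpos_of_nonneg_of_nonpos hβ0 hx)
    have := Real.exp_pos (2 * x)
    linarith
  · have : Real.exp (β * x) ≤ Real.exp (2 * x) := Real.exp_le_exp.2 (by nlinarith)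
    linarith

theorem gna_rpow_le {y A s : ℝ} (hs : 2 ≤ s) (hA : |y| ≤ A) : |y| ^ s ≤ A ^ (s - 2) * y ^ 2 := by
  have e : |y| ^ s = |y| ^ (s - 2) * y ^ 2 := by
    rcases eq_or_ne y 0 with rfl | hy
    · rw [abs_zero, Real.zero_rpow (by linarith)]
      simp
    · rw [← sq_abs, ← Real.rpow_natCast, ← Real.rpow_add (abs_pos.2 hy)]
      norm_num
  rw [e]
  exact mul_le_mul_of_nonneg_right (Real.rpow_le_rpow (abs_nonneg _) hA (by linarith)) (sq_nonneg _)

theorem gna_xi_int {γ : ℝ} (hγ : 0 < γ) (hγ1 : γ ≤ 1) {f : ℝ → ℝ} (hf : H1om f) :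
    Integrable (gna_xi γ f) := by
  have hc := gna_cont (gna_deriv hf).1 (gna_deriv hf).2
  have hs := gna_s hγ
  set A := √(EnF f)
  have hA : ∀ x, |f x| ≤ A := fun x => Real.abs_le_sqrt (gna_sup hf x)
  have hi : Integrable (fun x => A ^ (2 * (2 + γ) / (1 + γ) - 2) * (f x ^ 2 + om x * f x ^ 2)) :=
    ((gna_sq_int hf.1).add hf.2.1).const_mul _
  refine hi.mono (gna_xi_cont hγ hc).aestronglyMeasurable (Eventually.of_forall fun x => ?_)
  have hA0 : 0 ≤ A ^ (2 * (2 + γ) / (1 + γ) - 2) := Real.rpow_nonneg (Real.sqrt_nonneg _) _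
  have hom0 : 0 ≤ om x := (Real.exp_pos _).le
  rw [Real.norm_of_nonneg (gna_xi_nonneg _ _ _),
    Real.norm_of_nonneg (mul_nonneg hA0 (add_nonneg (sq_nonneg _) (mul_nonneg hom0 (sq_nonneg _))))]
  unfold gna_xi
  rw [gna_beta hγ]
  have h1 := gna_rpow_le hs (hA x)
  have h2 := gna_exp_le (x := x) (gna_beta0 hγ).le ((gna_beta1 hγ hγ1).trans one_le_two)
  calc |f x| ^ (2 * (2 + γ) / (1 + γ)) * Real.exp (2 * γ / (1 + γ) * x)
      ≤ (A ^ (2 * (2 + γ) / (1 + γ) - 2) * f x ^ 2) * (1 + om x) :=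
        mul_le_mul h1 h2 (Real.exp_pos _).le (mul_nonneg hA0 (sq_nonneg _))
    _ = _ := by ring

/-- tails -/
theorem gna_tail {γ : ℝ} (hγ : 0 < γ) (hγ1 : γ ≤ 1) {f : ℝ → ℝ} (hf : H1om f) (h1 : EnF f ≤ 1)
    (h2 : OmF f ≤ 1) {T : ℝ} (hT : 0 ≤ T) :
    XiF γ f ≤ (∫ x in Icc (-T) T, gna_xi γ f x) +
      (Real.exp (-(2 * γ / (1 + γ) * T)) + Real.exp (-T)) := by
  have hs := gna_s hγ
  have hβ0 := gna_beta0 hγ
  have hβ1 := gna_beta1 hγ hγ1
  have hx := gna_xi_int hγ hγ1 hf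
  have hi1 : Integrable (fun x => Real.exp (-(2 * γ / (1 + γ) * T)) * f x ^ 2) :=
    (gna_sq_int hf.1).const_mul _
  have hi2 : Integrable (fun x => Real.exp (-T) * (om x * f x ^ 2)) := hf.2.1.const_mul _
  have hind : Integrable ((Icc (-T) T).indicator (gna_xi γ f)) := hx.indicator measurableSet_Icc
  have key : XiF γ f ≤ ∫ x, ((Icc (-T) T).indicator (gna_xi γ f) x +
      (Real.exp (-(2 * γ / (1 + γ) * T)) * f x ^ 2 + Real.exp (-T) * (om x * f x ^ 2))) := by
    refine integral_mono hx (hind.add (hi1.add hi2)) fun x => ?_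
    have hf2 : 0 ≤ f x ^ 2 := sq_nonneg _
    have hom0 : 0 ≤ om x := (Real.exp_pos _).le
    have hA := gna_abs_le hf h1 x
    have h3 : |f x| ^ (2 * (2 + γ) / (1 + γ)) ≤ f x ^ 2 := by
      have := gna_rpow_le hs hA
      rwa [Real.one_rpow, one_mul] at this
    show gna_xi γ f x ≤ (Icc (-T) T).indicator (gna_xi γ f) x +
      (Real.exp (-(2 * γ / (1 + γ) * T)) * f x ^ 2 + Real.exp (-T) * (om x * f x ^ 2))
    have p1 : 0 ≤ Real.exp (-(2 * γ / (1 + γ) * T)) * f x ^ 2 := by positivity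
    have p2 : 0 ≤ Real.exp (-T) * (om x * f x ^ 2) := by positivity
    by_cases hxT : x ∈ Icc (-T) T
    · rw [indicator_of_mem hxT]
      linarith
    · rw [indicator_of_notMem hxT, zero_add]
      unfold gna_xi
      rw [gna_beta hγ]
      rw [mem_Icc, not_and_or, not_le, not_le] at hxT
      rcases hxT with hxT | hxT
      · have h4 : Real.exp (2 * γ / (1 + γ) * x) ≤ Real.exp (-(2 * γ / (1 + γ) * T)) :=
          Real.exp_le_exp.2 (by nlinarith)
        have h5 := mul_le_mul h3 h4 (Real.exp_pos _).le hf2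
        linarith
      · have h4 : Real.exp (2 * γ / (1 + γ) * x) ≤ Real.exp (-T) * om x := by
          unfold om
          rw [← Real.exp_add]
          exact Real.exp_le_exp.2 (by nlinarith)
        have h5 := mul_le_mul h3 h4 (Real.exp_pos _).le hf2
        nlinarith
  refine key.trans ?_
  have hi3 : Integrable (fun x => Real.exp (-(2 * γ / (1 + γ) * T)) * f x ^ 2 + Real.exp (-T) * (om x * f x ^ 2)) :=
    hi1.add hi2
  rw [integral_add hind hi3, integral_indicator measurableSet_Icc, integral_add hi1 hi2,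
    integral_const_mul, integral_const_mul]
  have h3 : Real.exp (-(2 * γ / (1 + γ) * T)) * (∫ x, f x ^ 2) ≤ Real.exp (-(2 * γ / (1 + γ) * T)) * 1 :=
    mul_le_mul_of_nonneg_left ((gna_sq_le hf).trans h1) (Real.exp_pos _).le
  have h4 : Real.exp (-T) * (∫ x, om x * f x ^ 2) ≤ Real.exp (-T) * 1 :=
    mul_le_mul_of_nonneg_left h2 (Real.exp_pos _).le
  linarith

/-- `Xi` is upper semicontinuous along the sequence -/
theorem gna_usc {γ : ℝ} (hγ : 0 < γ) (hγ1 : γ ≤ 1) {u : ℕ → ℝ → ℝ} (hu : ∀ n, H1om (u n))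
    (h1 : ∀ n, EnF (u n) ≤ 1) (h2 : ∀ n, OmF (u n) ≤ 1) {f : ℝ → ℝ} (hf : H1om f)
    (hlim : ∀ x, Tendsto (fun n => |u n x|) atTop (𝓝 (f x))) (hf0 : ∀ x, 0 ≤ f x) {S : ℝ}
    (hS : Tendsto (fun n => XiF γ (u n)) atTop (𝓝 S)) : S ≤ XiF γ f := by
  have hs := gna_s hγ
  have hβ0 := gna_beta0 hγ
  have key : ∀ T : ℝ, 0 ≤ T →
      S ≤ XiF γ f + (Real.exp (-(2 * γ / (1 + γ) * T)) + Real.exp (-T)) := by
    intro T hT
    have hdc : Tendsto (fun n => ∫ x in Icc (-T) T, gna_xi γ (u n) x) atTop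
        (𝓝 (∫ x in Icc (-T) T, gna_xi γ f x)) := by
      refine tendsto_integral_of_dominated_convergence
        (fun _ => Real.exp (2 * γ / (1 + γ) * T)) (fun n => ?_) ?_ (fun n => ?_) ?_
      · exact (gna_xi_cont hγ (gna_cont (gna_deriv (hu n)).1 (gna_deriv (hu n)).2)).aestronglyMeasurable
      · exact integrableOn_const (by rw [Real.volume_Icc]; exact ENNReal.ofReal_ne_top)
      · refine (ae_restrict_iff' measurableSet_Icc).2 (Eventually.of_forall fun x hx => ?_)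
        rw [Real.norm_of_nonneg (gna_xi_nonneg _ _ _)]
        unfold gna_xi
        rw [gna_beta hγ]
        have h3 : |u n x| ^ (2 * (2 + γ) / (1 + γ)) ≤ 1 :=
          Real.rpow_le_one (abs_nonneg _) (gna_abs_le (hu n) (h1 n) x) (by linarith)
        have h4 : Real.exp (2 * γ / (1 + γ) * x) ≤ Real.exp (2 * γ / (1 + γ) * T) :=
          Real.exp_le_exp.2 (mul_le_mul_of_nonneg_left hx.2 hβ0.le)
        have := mul_le_mul h3 h4 (Real.exp_pos _).le zero_le_one
        linarith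
      · refine Eventually.of_forall fun x => ?_
        unfold gna_xi
        refine Tendsto.mul_const _ ?_
        rw [abs_of_nonneg (hf0 x)]
        exact ((hlim x).rpow_const (Or.inr (by linarith)))
    have h3 : S ≤ (∫ x in Icc (-T) T, gna_xi γ f x) +
        (Real.exp (-(2 * γ / (1 + γ) * T)) + Real.exp (-T)) :=
      le_of_tendsto_of_tendsto' hS (hdc.add_const _) fun n => gna_tail hγ hγ1 (hu n) (h1 n) (h2 n) hT
    have h4 : (∫ x in Icc (-T) T, gna_xi γ f x) ≤ XiF γ f :=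
      setIntegral_le_integral (gna_xi_int hγ hγ1 hf) (Eventually.of_forall fun x => gna_xi_nonneg γ f x)
    linarith
  have ht : Tendsto (fun T : ℝ => XiF γ f + (Real.exp (-(2 * γ / (1 + γ) * T)) + Real.exp (-T))) atTop
      (𝓝 (XiF γ f + (0 + 0))) := by
    refine tendsto_const_nhds.add (Tendsto.add ?_ ?_)
    · exact Real.tendsto_exp_neg_atTop_nhds_zero.comp (tendsto_id.const_mul_atTop hβ0)
    · exact Real.tendsto_exp_neg_atTop_nhds_zero
  have := ge_of_tendsto ht ((eventually_ge_atTop 0).mono key)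
  simpa using this

/-! ### scaling and translation -/

theorem gna_scale {h : ℝ → ℝ} (hh : H1om h) (c a γ : ℝ) :
    H1om (fun x => c * h (x - a)) ∧ EnF (fun x => c * h (x - a)) = c ^ 2 * EnF h ∧
      OmF (fun x => c * h (x - a)) = c ^ 2 * Real.exp (2 * a) * OmF h ∧
      XiF γ (fun x => c * h (x - a)) =
        |c| ^ (2 * (2 + γ) / (1 + γ)) * Real.exp (2 * γ * a / (1 + γ)) * XiF γ h := by
  have hd : deriv (fun x => c * h (x - a)) = fun x => c * deriv h (x - a) := by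
    ext x
    rw [deriv_const_mul_field, deriv_comp_sub_const]
  refine ⟨⟨?_, ?_, ?_⟩, ?_, ?_, ?_⟩
  · exact (hh.1.comp_measurePreserving (measurePreserving_sub_right volume a)).const_mul c
  · have h1 : Integrable (fun x => om (x - a) * h (x - a) ^ 2) := hh.2.1.comp_sub_right a
    refine (h1.const_mul (c ^ 2 * Real.exp (2 * a))).congr (Eventually.of_forall fun x => ?_)
    simp only [om]
    rw [show 2 * x = 2 * a + 2 * (x - a) by ring, Real.exp_add]
    ring
  · refine ⟨fun x => c * deriv h (x - a), ?_, fun x y => ?_⟩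
    · exact ((gna_deriv hh).1.comp_measurePreserving (measurePreserving_sub_right volume a)).const_mul c
    · rw [intervalIntegral.integral_const_mul, intervalIntegral.integral_comp_sub_right (fun t => deriv h t) a,
        ← (gna_deriv hh).2]
      ring
  · unfold EnF
    rw [hd]
    have : ∀ x, (c * deriv h (x - a)) ^ 2 + (c * h (x - a)) ^ 2 =
        c ^ 2 * ((fun y => deriv h y ^ 2 + h y ^ 2) (x - a)) := fun x => by ring
    simp_rw [this]
    rw [integral_const_mul, integral_sub_right_eq_self (fun y => deriv h y ^ 2 + h y ^ 2) a]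
  · unfold OmF
    have : ∀ x, om x * (c * h (x - a)) ^ 2 =
        c ^ 2 * Real.exp (2 * a) * ((fun y => om y * h y ^ 2) (x - a)) := fun x => by
      simp only [om]
      rw [show 2 * x = 2 * a + 2 * (x - a) by ring, Real.exp_add]
      ring
    simp_rw [this]
    rw [integral_const_mul, integral_sub_right_eq_self (fun y => om y * h y ^ 2) a]
  · unfold XiF
    have : ∀ x, |c * h (x - a)| ^ (2 * (2 + γ) / (1 + γ)) * Real.exp (2 * γ * x / (1 + γ)) =
        |c| ^ (2 * (2 + γ) / (1 + γ)) * Real.exp (2 * γ * a / (1 + γ)) *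
          ((fun y => |h y| ^ (2 * (2 + γ) / (1 + γ)) * Real.exp (2 * γ * y / (1 + γ))) (x - a)) := fun x => by
      simp only []
      rw [abs_mul, Real.mul_rpow (abs_nonneg _) (abs_nonneg _),
        show 2 * γ * x / (1 + γ) = 2 * γ * a / (1 + γ) + 2 * γ * (x - a) / (1 + γ) by ring, Real.exp_add]
      ring
    simp_rw [this]
    rw [integral_const_mul, integral_sub_right_eq_self
      (fun y => |h y| ^ (2 * (2 + γ) / (1 + γ)) * Real.exp (2 * γ * y / (1 + γ))) a]

/-! ### positivity -/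

theorem gna_integral_pos {G : ℝ → ℝ} (hc : Continuous G) (h0 : ∀ x, 0 ≤ G x) (hi : Integrable G)
    {x : ℝ} (hx : G x ≠ 0) : 0 < ∫ x, G x := by
  rw [integral_pos_iff_support_of_nonneg h0 hi]
  exact hc.isOpen_support.measure_pos volume ⟨x, hx⟩

theorem gna_Om_pos {f : ℝ → ℝ} (hf : H1om f) {x : ℝ} (hx : f x ≠ 0) : 0 < OmF f := by
  have hc := gna_cont (gna_deriv hf).1 (gna_deriv hf).2
  have hom : Continuous om := by unfold om; fun_prop
  refine gna_integral_pos (hom.mul (hc.pow 2)) (fun x => mul_nonneg (Real.exp_pos _).le (sq_nonneg _))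
    hf.2.1 (x := x) ?_
  exact mul_ne_zero (Real.exp_pos _).ne' (pow_ne_zero 2 hx)

theorem gna_En_pos {f : ℝ → ℝ} (hf : H1om f) {x : ℝ} (hx : f x ≠ 0) : 0 < EnF f :=
  lt_of_lt_of_le (by positivity) (gna_sup hf x)

theorem gna_Xi_pos {γ : ℝ} (hγ : 0 < γ) (hγ1 : γ ≤ 1) {f : ℝ → ℝ} (hf : H1om f) {x : ℝ} (hx : f x ≠ 0) :
    0 < XiF γ f := by
  have hc := gna_cont (gna_deriv hf).1 (gna_deriv hf).2
  refine gna_integral_pos (gna_xi_cont hγ hc) (gna_xi_nonneg γ f) (gna_xi_int hγ hγ1 hf) (x := x) ?_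
  exact (mul_pos (Real.rpow_pos_of_pos (abs_pos.2 hx) _) (Real.exp_pos _)).ne'

/-- a nonzero function in the space -/
theorem gna_exists_bump : ∃ f : ℝ → ℝ, H1om f ∧ f 0 ≠ 0 := by
  let b : ContDiffBump (0:ℝ) := ⟨1, 2, by norm_num, by norm_num⟩
  have hc : ContDiff ℝ 1 (b : ℝ → ℝ) := b.contDiff
  have hcs : HasCompactSupport (b : ℝ → ℝ) := b.hasCompactSupport
  have hcd : Continuous (deriv (b : ℝ → ℝ)) := hc.continuous_deriv le_rfl
  have hom : Continuous om := by unfold om; fun_prop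
  refine ⟨b, ⟨hc.continuous.memLp_of_hasCompactSupport hcs, ?_, deriv b,
    hcd.memLp_of_hasCompactSupport hcs.deriv, fun x y => ?_⟩, ?_⟩
  · refine (hom.mul (hc.continuous.pow 2)).integrable_of_hasCompactSupport ?_
    have h1 : HasCompactSupport (fun x => (b : ℝ → ℝ) x ^ 2) := by
      refine hcs.comp_left (g := fun y : ℝ => y ^ 2) ?_
      norm_num
    exact h1.mul_left
  · rw [intervalIntegral.integral_deriv_eq_sub' _ rfl]
    · exact fun t _ => (hc.differentiable (by norm_num)) t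
    · exact hcd.continuousOn
  · rw [b.one_of_mem_closedBall (by simp [b.rIn_pos.le])]
    exact one_ne_zero

end Pool.Agent.RLT40
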