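import Pool.Agent.RLT40.GNaLimit
import Pool.Agent.RLT40.GNaXi

/-!
# Modules GN1, GN2, GN3 (paper 2.A5): the one-state problem.

GN1 `gn_exists`: maximise `Xi` on `{En ≤ 1, Om ≤ 1}` (scale `f → f/sqrt En`, shift `f(·-a)`: `Om → e^{2a}Om`, `Xi → e^{2γa/(1+γ)}Xi`; the quotient `Xi^{1+γ}/(Om^γ En²)` is invariant).
`f(x)² ≤ En`, Hölder 1/2: Arzela-Ascoli on compacts (diagonal sequence), derivative: weak `L²` limit (WeakDual.isSeqCompact_closedBall in `L²(ℝ)`, or ultrafilter), lower semicontinuity of `En`, `Om` (Fatou);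
tails: `x < -T`: `∫|f|^{2p'} e^{2γx/(1+γ)} ≤ e^{-2γT/(1+γ)}∫f²`; `x > T`: `≤ ∫ f² e^{2γx/(1+γ)} ≤ e^{-T}∫ωf²` (`|f| ≤ 1`).  Replace `f` by `|f|`.
GN2 `gn_bubble`: first variation in direction `η` (H1om): `(1+γ)2p' ∫f^{2p'-1}e^{..}η/Xi = 2γ∫ωfη/Om + 2·2∫(f'η'+fη)/En`, i.e. weakly `-f'' + f + e ω f = λ (f² e^{2γx})^{1/(1+γ)} f`, `e = γEn/(2Om)`, `λ = (2+γ)En/(2Xi)`;
shift so that `e = 1`, scale so that `Om = 1/(2π²)`; `C₁ = K(γ/2)^γ(2/(2+γ))^{2+γ}`, `K` the optimal constant.  `C²` regularity (du Bois-Reymond), positivity by ODE uniqueness.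
one-state: Hölder `∫Uf² ≤ J^{1/p}Xi^{1/p'}`; `(eOm + En)^p ≤ J K Om^γ En²`; `x = eOm/En`: `e^γ ≤ JK x^γ/(1+x)^p`, maximum at `x = γ/2`.  Members of `H10 a b` are in H1om.
GN3 asymptotics: `t → +∞`: `q = g/f`, `q' = 1+ω-U-q²`, `f ∈ L²(ω)` positive: `q → -∞`, `q/e^t → -1` (barriers `-(1±ε)e^t`), `U → 0`.  `t → -∞`: `q → 1` (`q' = 1+ω-U-q²`, `f ∈ L²` excludes `q ≤ -1+`), `f ≤ Ce^t`
(`∫(U+|1-q|) < ∞`), `A = ½e^t(f-g)`, `A' = ½e^t(U-ω)f`, `|A| ≤ Ce^{4t}` with `U ≤ C e^{2t}`.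
-/

open MeasureTheory Set Filter
open scoped ENNReal NNReal Topology

namespace Pool.Agent.RLT40

/-- existence of a maximiser under the constraints `En ≤ 1`, `Om ≤ 1` -/
theorem gna_max {γ : ℝ} (hγ : 0 < γ) (hγ1 : γ ≤ 1) :
    ∃ f : ℝ → ℝ, H1om f ∧ (∀ x, 0 ≤ f x) ∧ EnF f ≤ 1 ∧ OmF f ≤ 1 ∧ 0 < XiF γ f ∧
      ∀ k, H1om k → EnF k ≤ 1 → OmF k ≤ 1 → XiF γ k ≤ XiF γ f := by
  set K : Set (ℝ → ℝ) := {f | H1om f ∧ EnF f ≤ 1 ∧ OmF f ≤ 1} with hK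
  -- an element with positive value
  obtain ⟨b, hb, hb0⟩ := gna_exists_bump
  obtain ⟨k₀, hk₀, hk₀p⟩ : ∃ k ∈ K, 0 < XiF γ k := by
    set c : ℝ := 1 / (1 + EnF b + OmF b) with hc
    have hE := gna_En_nonneg b
    have hO := gna_Om_nonneg b
    have hc0 : 0 < c := by positivity
    have hc1 : c ≤ 1 := by
      rw [hc, div_le_one (by positivity)]
      linarith
    have hcE : c * (EnF b + OmF b) ≤ 1 := by
      rw [hc, one_div, inv_mul_le_iff₀ (by positivity)]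
      linarith
    obtain ⟨h1, h2, h3, h4⟩ := gna_scale hb c 0 γ
    have h5 : c ^ 2 ≤ c := by nlinarith
    refine ⟨_, ⟨h1, ?_, ?_⟩, ?_⟩
    · rw [h2]
      nlinarith
    · rw [h3]
      simp only [mul_zero, Real.exp_zero, mul_one]
      nlinarith
    · refine gna_Xi_pos hγ hγ1 h1 (x := 0) ?_
      simpa using ⟨hc0.ne', hb0⟩
  have hbd : BddAbove (XiF γ '' K) := by
    refine ⟨(∫ x in Icc (-(0:ℝ)) 0, (1:ℝ)) + (Real.exp (-(2 * γ / (1 + γ) * 0)) + Real.exp (-0)), ?_⟩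
    rintro _ ⟨f, hf, rfl⟩
    have h1 := gna_tail hγ hγ1 hf.1 hf.2.1 hf.2.2 le_rfl
    simpa using h1
  have hne : (XiF γ '' K).Nonempty := ⟨_, k₀, hk₀, rfl⟩
  obtain ⟨w, -, hw, hwK⟩ := exists_seq_tendsto_sSup hne hbd
  choose u hu huw using hwK
  obtain ⟨φ, hφ, f, hf⟩ := gna_subseq (fun n => (hu n).1) (fun n => (hu n).2.1)
  obtain ⟨hf1, hf0, hfE, hfO⟩ := gna_limit (fun n => (hu (φ n)).1) (fun n => (hu (φ n)).2.1)
    (fun n => (hu (φ n)).2.2) hf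
  have hS : Tendsto (fun n => XiF γ (u (φ n))) atTop (𝓝 (sSup (XiF γ '' K))) := by
    simp_rw [huw]
    exact hw.comp hφ.tendsto_atTop
  have hle := gna_usc hγ hγ1 (fun n => (hu (φ n)).1) (fun n => (hu (φ n)).2.1)
    (fun n => (hu (φ n)).2.2) hf1 hf hf0 hS
  refine ⟨f, hf1, hf0, hfE, hfO, ?_, fun k hk hkE hkO => ?_⟩
  · exact hk₀p.trans_le ((le_csSup hbd ⟨k₀, hk₀, rfl⟩).trans hle)
  · exact (le_csSup hbd ⟨k, ⟨hk, hkE, hkO⟩, rfl⟩).trans hle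

theorem gn_exists {γ : ℝ} (hγ : 0 < γ) (hγ1 : γ ≤ 1) :
    ∃ f : ℝ → ℝ, H1om f ∧ (∀ x, 0 ≤ f x) ∧ 0 < XiF γ f ∧ 0 < OmF f ∧ 0 < EnF f ∧
      ∀ h : ℝ → ℝ, H1om h → XiF γ h ^ (1 + γ) * (OmF f ^ γ * EnF f ^ 2) ≤ XiF γ f ^ (1 + γ) * (OmF h ^ γ * EnF h ^ 2) := by
  obtain ⟨f, hf, hf0, hfE, hfO, hfX, hmax⟩ := gna_max hγ hγ1
  have hx : ∃ x, f x ≠ 0 := by
    by_contra hc
    push Not at hc
    have : XiF γ f = 0 := by
      unfold XiF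
      have hs := gna_s hγ
      have e : ∀ x, |f x| ^ (2 * (2 + γ) / (1 + γ)) * Real.exp (2 * γ * x / (1 + γ)) = 0 := fun x => by
        rw [hc x, abs_zero, Real.zero_rpow (by linarith), zero_mul]
      simp_rw [e]
      simp
    linarith
  obtain ⟨x₀, hx₀⟩ := hx
  refine ⟨f, hf, hf0, hfX, gna_Om_pos hf hx₀, gna_En_pos hf hx₀, fun h hh => ?_⟩
  have hEh := gna_En_nonneg h
  have hOh := gna_Om_nonneg h
  have hXh : 0 ≤ XiF γ h := integral_nonneg (gna_xi_nonneg γ h)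
  have hR : 0 ≤ XiF γ f ^ (1 + γ) * (OmF h ^ γ * EnF h ^ 2) := by positivity
  by_cases hz : ∀ x, h x = 0
  · have : XiF γ h = 0 := by
      unfold XiF
      have hs := gna_s hγ
      have e : ∀ x, |h x| ^ (2 * (2 + γ) / (1 + γ)) * Real.exp (2 * γ * x / (1 + γ)) = 0 := fun x => by
        rw [hz x, abs_zero, Real.zero_rpow (by linarith), zero_mul]
      simp_rw [e]
      simp
    rw [this, Real.zero_rpow (by linarith), zero_mul]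
    exact hR
  push Not at hz
  obtain ⟨x₁, hx₁⟩ := hz
  have hE : 0 < EnF h := gna_En_pos hh hx₁
  have hO : 0 < OmF h := gna_Om_pos hh hx₁
  set E := EnF h
  set O := OmF h
  set c : ℝ := E ^ (-(1/2) : ℝ) with hc
  set a : ℝ := (1/2) * (Real.log E - Real.log O) with ha
  have hc0 : 0 < c := Real.rpow_pos_of_pos hE _
  have hc2 : c ^ 2 = E⁻¹ := by
    rw [hc, ← Real.rpow_natCast, ← Real.rpow_mul hE.le]
    norm_num
    exact Real.rpow_neg_one E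
  have ha2 : Real.exp (2 * a) = E / O := by
    rw [ha, show 2 * (1 / 2 * (Real.log E - Real.log O)) = Real.log E - Real.log O by ring,
      Real.exp_sub, Real.exp_log hE, Real.exp_log hO]
  obtain ⟨h1, h2, h3, h4⟩ := gna_scale hh c a γ
  have h5 := hmax _ h1 (by rw [h2, hc2, inv_mul_cancel₀ hE.ne']) (by
    rw [h3, hc2, ha2]
    show E⁻¹ * (E / O) * O ≤ 1
    refine le_of_eq ?_
    field_simp)
  rw [h4] at h5
  -- the power
  have h6 : (|c| ^ (2 * (2 + γ) / (1 + γ)) * Real.exp (2 * γ * a / (1 + γ)) * XiF γ h) ^ (1 + γ) =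
      (E ^ 2 * O ^ γ)⁻¹ * XiF γ h ^ (1 + γ) := by
    rw [Real.mul_rpow (by positivity) hXh, Real.mul_rpow (by positivity) (Real.exp_pos _).le,
      ← Real.rpow_mul (abs_nonneg _), ← Real.exp_mul, abs_of_pos hc0]
    congr 1
    have e1 : 2 * (2 + γ) / (1 + γ) * (1 + γ) = 2 * (2 + γ) := by field_simp
    have e2 : 2 * γ * a / (1 + γ) * (1 + γ) = (2 * a) * γ := by field_simp
    rw [e1, e2, Real.exp_mul, ha2, Real.div_rpow hE.le hO.le, hc, ← Real.rpow_mul hE.le,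
      show -(1 / 2) * (2 * (2 + γ)) = -2 - γ by ring, Real.rpow_sub hE, mul_inv,
      Real.rpow_neg hE.le]
    have hEγ : E ^ γ ≠ 0 := (Real.rpow_pos_of_pos hE _).ne'
    have hOγ : O ^ γ ≠ 0 := (Real.rpow_pos_of_pos hO _).ne'
    rw [Real.rpow_ofNat]
    field_simp
  have h7 := Real.rpow_le_rpow (by positivity) h5 (show (0:ℝ) ≤ 1 + γ by linarith)
  rw [h6] at h7
  have h8 : OmF f ^ γ * EnF f ^ 2 ≤ 1 := by
    have a1 : OmF f ^ γ ≤ 1 := Real.rpow_le_one (gna_Om_nonneg f) hfO hγ.le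
    have a2 : EnF f ^ 2 ≤ 1 := pow_le_one₀ (gna_En_nonneg f) hfE
    have a3 : 0 ≤ OmF f ^ γ := Real.rpow_nonneg (gna_Om_nonneg f) _
    nlinarith [sq_nonneg (EnF f)]
  have h9 : XiF γ h ^ (1 + γ) ≤ XiF γ f ^ (1 + γ) * (O ^ γ * E ^ 2) := by
    rw [inv_mul_le_iff₀ (by positivity)] at h7
    calc XiF γ h ^ (1 + γ) ≤ E ^ 2 * O ^ γ * XiF γ f ^ (1 + γ) := h7
      _ = _ := by ring
  calc XiF γ h ^ (1 + γ) * (OmF f ^ γ * EnF f ^ 2) ≤ XiF γ h ^ (1 + γ) * 1 :=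
        mul_le_mul_of_nonneg_left h8 (Real.rpow_nonneg hXh _)
    _ ≤ _ := by rw [mul_one]; exact h9

end Pool.Agent.RLT40
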