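import Pool.Agent.RLT40.GNaTools

/-!
# Tools for the module GN1 (`gn_exists`), see `GNa.lean`: subsequences and limits.
-/

open MeasureTheory Set Filter
open scoped ENNReal NNReal Topology

namespace Pool.Agent.RLT40

/-- Fatou -/
theorem gna_fatou {F : ℕ → ℝ → ℝ≥0∞} {G : ℝ → ℝ≥0∞} (hF : ∀ n, Measurable (F n))
    (hG : ∀ᵐ x, Tendsto (fun n => F n x) atTop (𝓝 (G x))) {c : ℝ≥0∞} (hc : ∀ n, ∫⁻ x, F n x ≤ c) :
    ∫⁻ x, G x ≤ c := by
  calc ∫⁻ x, G x = ∫⁻ x, liminf (fun n => F n x) atTop := by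
        refine lintegral_congr_ae ?_
        filter_upwards [hG] with x hx using hx.liminf_eq.symm
    _ ≤ liminf (fun n => ∫⁻ x, F n x) atTop := lintegral_liminf_le hF
    _ ≤ c := by
        refine (liminf_le_liminf (v := fun _ => c) (Eventually.of_forall hc)).trans ?_
        simp

theorem gna_int_le {G : ℝ → ℝ} (hG : AEStronglyMeasurable G volume) (h0 : ∀ x, 0 ≤ G x)
    (h : ∫⁻ x, ENNReal.ofReal (G x) ≤ 1) : Integrable G ∧ ∫ x, G x ≤ 1 := by
  have hi : Integrable G := by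
    refine ⟨hG, ?_⟩
    rw [hasFiniteIntegral_iff_ofReal (Eventually.of_forall h0)]
    exact h.trans_lt ENNReal.one_lt_top
  refine ⟨hi, ?_⟩
  rw [integral_eq_lintegral_of_nonneg_ae (Eventually.of_forall h0) hG]
  exact ENNReal.toReal_le_of_le_ofReal zero_le_one (by simpa using h)

theorem gna_lint {G : ℝ → ℝ} (hi : Integrable G) (h0 : ∀ x, 0 ≤ G x) (h : ∫ x, G x ≤ 1) :
    ∫⁻ x, ENNReal.ofReal (G x) ≤ 1 := by
  rw [← ofReal_integral_eq_lintegral_ofReal hi (Eventually.of_forall h0)]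
  exact ENNReal.ofReal_le_one.2 h

theorem gna_subseq {u : ℕ → ℝ → ℝ} (hu : ∀ n, H1om (u n)) (h1 : ∀ n, EnF (u n) ≤ 1) :
    ∃ φ : ℕ → ℕ, StrictMono φ ∧ ∃ f : ℝ → ℝ, ∀ x, Tendsto (fun n => |u (φ n) x|) atTop (𝓝 (f x)) := by
  have hK : IsCompact (Set.pi univ (fun _ : ℚ => Icc (0:ℝ) 1)) :=
    isCompact_univ_pi fun _ => isCompact_Icc
  obtain ⟨a, -, φ, hφ, ha⟩ := hK.tendsto_subseq (x := fun n (q : ℚ) => |u n q|)
    (fun n q _ => ⟨abs_nonneg _, gna_abs_le (hu n) (h1 n) _⟩)
  refine ⟨φ, hφ, ?_⟩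
  have hq : ∀ q : ℚ, CauchySeq (fun n => |u (φ n) q|) := by
    intro q
    have := (continuous_apply q).continuousAt.tendsto.comp ha
    exact this.cauchySeq
  have hx : ∀ x, ∃ l, Tendsto (fun n => |u (φ n) x|) atTop (𝓝 l) := by
    intro x
    refine cauchySeq_tendsto_of_complete ?_
    rw [Metric.cauchySeq_iff]
    intro ε hε
    obtain ⟨q, hq1, hq2⟩ := exists_rat_btwn (show x < x + (ε / 3) ^ 2 by
      have : 0 < (ε / 3) ^ 2 := by positivity
      linarith)
    have hs : ∀ n, |(|u n x| - |u n q|)| ≤ ε / 3 := by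
      intro n
      refine (abs_abs_sub_abs_le _ _).trans ((gna_holder (hu n) (h1 n) q x).trans ?_)
      rw [Real.sqrt_le_left (by positivity), abs_le]
      constructor <;> nlinarith [sq_nonneg (ε / 3)]
    obtain ⟨N, hN⟩ := Metric.cauchySeq_iff.1 (hq q) (ε / 3) (by positivity)
    refine ⟨N, fun m hm n hn => ?_⟩
    have h1 := hN m hm n hn
    have h2 := hs (φ m)
    have h3 := hs (φ n)
    rw [Real.dist_eq] at h1 ⊢
    rw [abs_le] at h2 h3
    rw [abs_lt] at h1 ⊢
    constructor <;> linarith [h1.1, h1.2, h2.1, h2.2, h3.1, h3.2]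
  choose f hf using hx
  exact ⟨f, hf⟩

theorem gna_limit {u : ℕ → ℝ → ℝ} (hu : ∀ n, H1om (u n)) (h1 : ∀ n, EnF (u n) ≤ 1)
    (h2 : ∀ n, OmF (u n) ≤ 1) {f : ℝ → ℝ} (hf : ∀ x, Tendsto (fun n => |u n x|) atTop (𝓝 (f x))) :
    H1om f ∧ (∀ x, 0 ≤ f x) ∧ EnF f ≤ 1 ∧ OmF f ≤ 1 := by
  have hf0 : ∀ x, 0 ≤ f x := fun x => ge_of_tendsto' (hf x) fun n => abs_nonneg _
  have hcu : ∀ n, Continuous (u n) := fun n => gna_cont (gna_deriv (hu n)).1 (gna_deriv (hu n)).2
  -- Hölder bound and continuity of the limit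
  have hH : ∀ x y, |f y - f x| ≤ √|y - x| := by
    intro x y
    refine le_of_tendsto' (((hf y).sub (hf x)).abs) fun n => ?_
    exact (abs_abs_sub_abs_le _ _).trans (gna_holder (hu n) (h1 n) x y)
  have hc : Continuous f := by
    rw [Metric.continuous_iff]
    intro x ε hε
    refine ⟨ε ^ 2, by positivity, fun y hy => ?_⟩
    rw [Real.dist_eq] at hy ⊢
    exact (hH x y).trans_lt ((Real.sqrt_lt_sqrt (abs_nonneg _) hy).trans_eq (Real.sqrt_sq hε.le))
  have hac : ∀ a b, AbsolutelyContinuousOnInterval f a b := by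
    intro a b
    rw [absolutelyContinuousOnInterval_iff]
    intro ε hε
    refine ⟨ε ^ 2, by positivity, fun E hE hE' => ?_⟩
    have h3 : ∑ i ∈ Finset.range E.1, dist (f (E.2 i).1) (f (E.2 i).2) ≤
        ε / 2 + (∑ i ∈ Finset.range E.1, dist (E.2 i).1 (E.2 i).2) / (2 * ε) := by
      refine le_of_tendsto' (f := fun n => ∑ i ∈ Finset.range E.1, |(|u n (E.2 i).2| - |u n (E.2 i).1|)|)
        (x := atTop) ?_ fun n => ?_
      · refine tendsto_finsetSum _ fun i _ => ?_
        rw [dist_comm, Real.dist_eq]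
        exact ((hf _).sub (hf _)).abs
      · refine le_trans (Finset.sum_le_sum fun i _ => abs_abs_sub_abs_le _ _) ?_
        exact gna_sum_incr (hu n) (h1 n) hε hE
    refine h3.trans_lt ?_
    have h4 : (∑ i ∈ Finset.range E.1, dist (E.2 i).1 (E.2 i).2) / (2 * ε) < ε / 2 := by
      rw [div_lt_iff₀ (by positivity)]
      nlinarith
    linarith
  -- the energy
  have hdq : ∀ h : ℝ, 0 < h → ∫⁻ x, ENNReal.ofReal (((f (x + h) - f x) / h) ^ 2 + f x ^ 2) ≤ 1 := by
    intro h hh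
    refine gna_fatou (F := fun n x => ENNReal.ofReal (((|u n (x + h)| - |u n x|) / h) ^ 2 + |u n x| ^ 2))
      (fun n => ?_) (Eventually.of_forall fun x => ?_) fun n => gna_dq_abs (hu n) (h1 n) hh
    · refine (Continuous.measurable ?_).ennreal_ofReal
      have c1 : Continuous fun x => |u n (x + h)| := ((hcu n).comp (continuous_id.add continuous_const)).abs
      have c2 : Continuous fun x => |u n x| := (hcu n).abs
      exact (((c1.sub c2).div_const h).pow 2).add (c2.pow 2)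
    · exact ENNReal.tendsto_ofReal (((((hf (x + h)).sub (hf x)).div_const h).pow 2).add ((hf x).pow 2))
  have hdiff : ∀ᵐ x, DifferentiableAt ℝ f x := by
    have : ∀ n : ℕ, ∀ᵐ x : ℝ, x ∈ uIcc (-(n:ℝ)) n → DifferentiableAt ℝ f x := fun n =>
      (hac _ _).ae_differentiableAt
    filter_upwards [ae_all_iff.2 this] with x hx
    obtain ⟨n, hn⟩ := exists_nat_ge |x|
    refine hx n ?_
    rw [uIcc_of_le (by linarith [(abs_nonneg x).trans hn])]
    exact ⟨by linarith [(abs_le.1 hn).1], (abs_le.1 hn).2⟩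
  have hE : ∫⁻ x, ENNReal.ofReal (deriv f x ^ 2 + f x ^ 2) ≤ 1 := by
    refine gna_fatou (F := fun n x => ENNReal.ofReal (((f (x + 1 / ((n:ℝ) + 1)) - f x) / (1 / ((n:ℝ) + 1))) ^ 2 + f x ^ 2))
      (fun n => ?_) ?_ fun n => hdq _ (by positivity)
    · refine (Continuous.measurable ?_).ennreal_ofReal
      have c1 : Continuous fun x => f (x + 1 / ((n:ℝ) + 1)) := hc.comp (continuous_id.add continuous_const)
      exact (((c1.sub hc).div_const _).pow 2).add (hc.pow 2)
    · filter_upwards [hdiff] with x hx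
      have hd := hx.hasDerivAt.tendsto_slope_zero_right
      have ht : Tendsto (fun n : ℕ => 1 / ((n:ℝ) + 1)) atTop (𝓝[>] 0) := by
        refine tendsto_nhdsWithin_iff.2 ⟨tendsto_one_div_add_atTop_nhds_zero_nat, ?_⟩
        exact Eventually.of_forall fun n => by simp only [mem_Ioi]; positivity
      have h5 := hd.comp ht
      have h6 : Tendsto (fun n : ℕ => (f (x + 1 / ((n:ℝ) + 1)) - f x) / (1 / ((n:ℝ) + 1))) atTop (𝓝 (deriv f x)) := by
        refine h5.congr fun n => ?_
        simp only [Function.comp_apply, smul_eq_mul]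
        exact (div_eq_inv_mul _ _).symm
      exact ENNReal.tendsto_ofReal ((h6.pow 2).add_const _)
  have hmd : Measurable (deriv f) := measurable_deriv f
  obtain ⟨hiE, hE1⟩ := gna_int_le (G := fun x => deriv f x ^ 2 + f x ^ 2) ((hmd.pow_const 2).add (hc.measurable.pow_const 2)).aestronglyMeasurable
    (fun x => add_nonneg (sq_nonneg _) (sq_nonneg _)) hE
  have hi1 : Integrable (fun x => deriv f x ^ 2) := by
    refine hiE.mono (hmd.pow_const 2).aestronglyMeasurable (Eventually.of_forall fun x => ?_)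
    rw [Real.norm_of_nonneg (sq_nonneg _), Real.norm_of_nonneg (add_nonneg (sq_nonneg _) (sq_nonneg _))]
    linarith [sq_nonneg (f x)]
  have hi2 : Integrable (fun x => f x ^ 2) := by
    refine hiE.mono (hc.measurable.pow_const 2).aestronglyMeasurable (Eventually.of_forall fun x => ?_)
    rw [Real.norm_of_nonneg (sq_nonneg _), Real.norm_of_nonneg (add_nonneg (sq_nonneg _) (sq_nonneg _))]
    linarith [sq_nonneg (deriv f x)]
  have hO : ∫⁻ x, ENNReal.ofReal (om x * f x ^ 2) ≤ 1 := by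
    have hom : Continuous om := by unfold om; fun_prop
    refine gna_fatou (F := fun n x => ENNReal.ofReal (om x * |u n x| ^ 2)) (fun n => ?_)
      (Eventually.of_forall fun x => ?_) fun n => ?_
    · exact (hom.mul ((hcu n).abs.pow 2)).measurable.ennreal_ofReal
    · exact ENNReal.tendsto_ofReal (((hf x).pow 2).const_mul _)
    · simp only [sq_abs]
      exact gna_lint (hu n).2.1 (fun x => mul_nonneg (Real.exp_pos _).le (sq_nonneg _)) (h2 n)
  have hom : Continuous om := by unfold om; fun_prop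
  obtain ⟨hiO, hO1⟩ := gna_int_le (G := fun x => om x * f x ^ 2) (hom.mul (hc.pow 2)).aestronglyMeasurable
    (fun x => mul_nonneg (Real.exp_pos _).le (sq_nonneg _)) hO
  refine ⟨⟨(memLp_two_iff_integrable_sq hc.aestronglyMeasurable).2 hi2, hiO, deriv f,
    (memLp_two_iff_integrable_sq hmd.aestronglyMeasurable).2 hi1, fun x y => ?_⟩, hf0, hE1, hO1⟩
  exact (hac x y).integral_deriv_eq_sub.symm

end Pool.Agent.RLT40
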