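import Pool.Agent.RLT40.GNDef

/-!
# Tools for the module GN1 (`gn_exists`), see `GNa.lean`.

GN1 `gn_exists`: maximise `Xi` on `{En ≤ 1, Om ≤ 1}` (scale `f → f/sqrt En`, shift `f(·-a)`: `Om → e^{2a}Om`, `Xi → e^{2γa/(1+γ)}Xi`; the quotient `Xi^{1+γ}/(Om^γ En²)` is invariant).
`f(x)² ≤ En`, Hölder 1/2: pointwise limits on rationals (diagonal sequence); absolute continuity of the limit, Fatou for
difference quotients; lower semicontinuity of `En`, `Om` (Fatou);
tails: `x < -T`: `∫|f|^{2p'} e^{2γx/(1+γ)} ≤ e^{-2γT/(1+γ)}∫f²`; `x > T`: `≤ ∫ f² e^{2γx/(1+γ)} ≤ e^{-T}∫ωf²` (`|f| ≤ 1`).  The limit is taken of `|f_n|`.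
-/

open MeasureTheory Set Filter
open scoped ENNReal NNReal Topology

namespace Pool.Agent.RLT40

/-! ### Facts on a single function -/

theorem gna_int {g : ℝ → ℝ} (hg : MemLp g 2 volume) (a b : ℝ) : IntervalIntegrable g volume a b :=
  ((hg.locallyIntegrable (by norm_num)).integrableOn_isCompact isCompact_uIcc).intervalIntegrable

theorem gna_ae_deriv {f g : ℝ → ℝ} (hg : MemLp g 2 volume)
    (hfg : ∀ x y, f y - f x = ∫ t in x..y, g t) : ∀ᵐ x, HasDerivAt f (g x) x := by
  filter_upwards [LocallyIntegrable.ae_hasDerivAt_integral (hg.locallyIntegrable (by norm_num))] with x hx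
  have h0 := (hx 0).const_add (f 0)
  have e : f = fun y => f 0 + ∫ t in (0:ℝ)..y, g t := by
    ext y
    have := hfg 0 y
    linarith
  rw [e]
  exact h0

/-- the derivative as the density -/
theorem gna_deriv {f : ℝ → ℝ} (hf : H1om f) :
    MemLp (deriv f) 2 volume ∧ ∀ x y, f y - f x = ∫ t in x..y, deriv f t := by
  obtain ⟨_, _, g, hg, hfg⟩ := hf
  have h := gna_ae_deriv hg hfg
  have he : deriv f =ᵐ[volume] g := by
    filter_upwards [h] with x hx using hx.deriv
  refine ⟨hg.ae_eq he.symm, fun x y => ?_⟩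
  rw [hfg x y]
  refine intervalIntegral.integral_congr_ae ?_
  filter_upwards [he] with t ht _ using ht.symm

theorem gna_cont {f g : ℝ → ℝ} (hg : MemLp g 2 volume)
    (hfg : ∀ x y, f y - f x = ∫ t in x..y, g t) : Continuous f := by
  have e : f = fun y => f 0 + ∫ t in (0:ℝ)..y, g t := by
    ext y
    have := hfg 0 y
    linarith
  rw [e]
  exact continuous_const.add (intervalIntegral.continuous_primitive (gna_int hg) 0)

theorem gna_ac {f g : ℝ → ℝ} (hg : MemLp g 2 volume)
    (hfg : ∀ x y, f y - f x = ∫ t in x..y, g t) (a b : ℝ) : AbsolutelyContinuousOnInterval f a b := by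
  have h := (gna_int hg a b).absolutelyContinuousOnInterval_intervalIntegral (c := a) (by simp)
  have e : f = fun y => f a + ∫ t in a..y, g t := by
    ext y
    have := hfg a y
    linarith
  rw [absolutelyContinuousOnInterval_iff] at h ⊢
  intro ε hε
  obtain ⟨δ, hδ, h⟩ := h ε hε
  refine ⟨δ, hδ, fun E hE hE' => ?_⟩
  have h1 := h E hE hE'
  rw [e]
  simpa only [dist_add_left] using h1

theorem gna_sq_int {f : ℝ → ℝ} (hf : MemLp f 2 volume) : Integrable (fun x => f x ^ 2) :=
  (memLp_two_iff_integrable_sq hf.1).1 hf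

/-- `En` splits -/
theorem gna_En {f : ℝ → ℝ} (hf : H1om f) : EnF f = (∫ x, deriv f x ^ 2) + ∫ x, f x ^ 2 := by
  unfold EnF
  exact integral_add (gna_sq_int (gna_deriv hf).1) (gna_sq_int hf.1)

theorem gna_dsq_le {f : ℝ → ℝ} (hf : H1om f) : (∫ x, deriv f x ^ 2) ≤ EnF f := by
  rw [gna_En hf]
  have : 0 ≤ ∫ x, f x ^ 2 := integral_nonneg fun _ => sq_nonneg _
  linarith

theorem gna_sq_le {f : ℝ → ℝ} (hf : H1om f) : (∫ x, f x ^ 2) ≤ EnF f := by
  rw [gna_En hf]
  have : 0 ≤ ∫ x, deriv f x ^ 2 := integral_nonneg fun _ => sq_nonneg _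
  linarith

theorem gna_En_nonneg (f : ℝ → ℝ) : 0 ≤ EnF f :=
  integral_nonneg fun _ => add_nonneg (sq_nonneg _) (sq_nonneg _)

theorem gna_Om_nonneg (f : ℝ → ℝ) : 0 ≤ OmF f :=
  integral_nonneg fun _ => mul_nonneg (Real.exp_pos _).le (sq_nonneg _)

/-- `f(x)² ≤ En f` -/
theorem gna_sup {f : ℝ → ℝ} (hf : H1om f) (x : ℝ) : f x ^ 2 ≤ EnF f := by
  obtain ⟨hg, hfg⟩ := gna_deriv hf
  have hi : Integrable (fun x => deriv f x ^ 2 + f x ^ 2) :=
    (gna_sq_int hg).add (gna_sq_int hf.1)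
  have key : ∀ y, f x ^ 2 ≤ f y ^ 2 + EnF f := by
    intro y
    have h1 := (gna_ac hg hfg y x).integral_deriv_mul_eq_sub (gna_ac hg hfg y x)
    have h2 : |∫ t in y..x, (deriv f t * f t + f t * deriv f t)| ≤ EnF f := by
      have h3 : |∫ t in y..x, (deriv f t * f t + f t * deriv f t)| ≤
          ∫ t in uIoc y x, |deriv f t * f t + f t * deriv f t| := by
        have := intervalIntegral.norm_integral_le_integral_norm_uIoc
          (f := fun t => deriv f t * f t + f t * deriv f t) (a := y) (b := x) (μ := volume)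
        simpa only [Real.norm_eq_abs] using this
      refine h3.trans ?_
      refine le_trans ?_ (setIntegral_le_integral (s := uIoc y x) hi
        (Eventually.of_forall fun _ => add_nonneg (sq_nonneg _) (sq_nonneg _)))
      refine integral_mono_of_nonneg (Eventually.of_forall fun t => abs_nonneg _) hi.integrableOn ?_
      refine Eventually.of_forall fun t => ?_
      show |deriv f t * f t + f t * deriv f t| ≤ deriv f t ^ 2 + f t ^ 2
      rw [abs_le]
      constructor <;> nlinarith [sq_nonneg (deriv f t + f t), sq_nonneg (deriv f t - f t)]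
    have h4 := (abs_le.1 h2).2
    rw [h1] at h4
    nlinarith
  by_contra hc
  push Not at hc
  set δ := f x ^ 2 - EnF f with hδ
  have hδ0 : 0 < δ := by linarith
  have hall : ∀ y, δ ≤ ‖f y ^ 2‖ := by
    intro y
    rw [Real.norm_of_nonneg (sq_nonneg _)]
    have := key y
    linarith
  have h5 := (gna_sq_int hf.1).measure_norm_ge_lt_top hδ0
  have h6 : {y | δ ≤ ‖f y ^ 2‖} = univ := by
    ext y
    simp only [mem_ofPred_eq, mem_univ, iff_true]
    exact hall y
  rw [h6, Real.volume_univ] at h5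
  exact lt_irrefl _ h5

theorem gna_abs_le {f : ℝ → ℝ} (hf : H1om f) (h1 : EnF f ≤ 1) (x : ℝ) : |f x| ≤ 1 := by
  have := (gna_sup hf x).trans h1
  exact (sq_le_one_iff_abs_le_one _).1 this

/-- local bound of the increments -/
theorem gna_incr {f : ℝ → ℝ} (hf : H1om f) {η : ℝ} (hη : 0 < η) (x y : ℝ) :
    |f y - f x| ≤ η / 2 * (∫ t in uIoc x y, deriv f t ^ 2) + |y - x| / (2 * η) := by
  obtain ⟨hg, hfg⟩ := gna_deriv hf
  have hi := (gna_sq_int hg).integrableOn (s := uIoc x y)
  have hc : IntegrableOn (fun _ : ℝ => 1 / (2 * η)) (uIoc x y) := by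
    refine integrableOn_const ?_
    rw [uIoc, Real.volume_Ioc]
    exact ENNReal.ofReal_ne_top
  rw [hfg x y]
  have h3 : |∫ t in x..y, deriv f t| ≤ ∫ t in uIoc x y, |deriv f t| := by
    have := intervalIntegral.norm_integral_le_integral_norm_uIoc
      (f := fun t => deriv f t) (a := x) (b := y) (μ := volume)
    simpa only [Real.norm_eq_abs] using this
  refine h3.trans ?_
  have h4 : ∫ t in uIoc x y, |deriv f t| ≤ ∫ t in uIoc x y, (η / 2 * deriv f t ^ 2 + 1 / (2 * η)) := by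
    refine integral_mono_of_nonneg (Eventually.of_forall fun t => abs_nonneg _)
      ((hi.const_mul _).add hc) ?_
    refine Eventually.of_forall fun t => ?_
    show |deriv f t| ≤ η / 2 * deriv f t ^ 2 + 1 / (2 * η)
    have h5 : 0 ≤ (η * |deriv f t| - 1) ^ 2 / (2 * η) := by positivity
    have h6 : (η * |deriv f t| - 1) ^ 2 / (2 * η) =
        η / 2 * deriv f t ^ 2 + 1 / (2 * η) - |deriv f t| := by
      rw [← sq_abs (deriv f t)]
      field_simp
      ring
    linarith
  refine h4.trans (le_of_eq ?_)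
  rw [integral_add (hi.const_mul _) hc, integral_const_mul, setIntegral_const]
  congr 1
  rw [uIoc, Real.volume_real_Ioc, max_sub_min_eq_abs', abs_sub_comm, smul_eq_mul,
    max_eq_left (abs_nonneg _)]
  field_simp

/-- Hölder bound -/
theorem gna_holder {f : ℝ → ℝ} (hf : H1om f) (h1 : EnF f ≤ 1) (x y : ℝ) :
    |f y - f x| ≤ √|y - x| := by
  rcases eq_or_ne x y with rfl | hxy
  · simp
  have hp : 0 < |y - x| := abs_pos.2 (sub_ne_zero.2 hxy.symm)
  have hs : 0 < √|y - x| := Real.sqrt_pos.2 hp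
  refine (gna_incr hf hs x y).trans ?_
  have hi := gna_sq_int (gna_deriv hf).1
  have h2 : (∫ t in uIoc x y, deriv f t ^ 2) ≤ 1 :=
    (setIntegral_le_integral hi (Eventually.of_forall fun t => sq_nonneg _)).trans
      ((gna_dsq_le hf).trans h1)
  have h3 : |y - x| / (2 * √|y - x|) = √|y - x| / 2 := by
    have := Real.mul_self_sqrt hp.le
    field_simp
    nlinarith
  rw [h3]
  nlinarith

/-! ### Sums of increments, difference quotients -/

theorem gna_sum_incr {f : ℝ → ℝ} (hf : H1om f) (h1 : EnF f ≤ 1) {η : ℝ} (hη : 0 < η) {a b : ℝ}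
    {E : ℕ × (ℕ → ℝ × ℝ)} (hE : E ∈ AbsolutelyContinuousOnInterval.disjWithin a b) :
    ∑ i ∈ Finset.range E.1, |f (E.2 i).2 - f (E.2 i).1| ≤
      η / 2 + (∑ i ∈ Finset.range E.1, dist (E.2 i).1 (E.2 i).2) / (2 * η) := by
  have hi := gna_sq_int (gna_deriv hf).1
  have hd : (∫ t, deriv f t ^ 2) ≤ 1 := (gna_dsq_le hf).trans h1
  obtain ⟨_, hE2⟩ := hE
  have h3 : ∑ i ∈ Finset.range E.1, ∫ t in uIoc (E.2 i).1 (E.2 i).2, deriv f t ^ 2 ≤ 1 := by
    rw [← integral_biUnion_finset _ (fun i _ => measurableSet_uIoc) hE2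
      (fun i _ => hi.integrableOn)]
    exact (setIntegral_le_integral hi (Eventually.of_forall fun _ => sq_nonneg _)).trans hd
  calc ∑ i ∈ Finset.range E.1, |f (E.2 i).2 - f (E.2 i).1|
      ≤ ∑ i ∈ Finset.range E.1, (η / 2 * (∫ t in uIoc (E.2 i).1 (E.2 i).2, deriv f t ^ 2) +
          dist (E.2 i).1 (E.2 i).2 / (2 * η)) := by
        refine Finset.sum_le_sum fun i _ => ?_
        have := gna_incr hf hη (E.2 i).1 (E.2 i).2
        rwa [Real.dist_eq, abs_sub_comm (E.2 i).1 (E.2 i).2]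
    _ = η / 2 * (∑ i ∈ Finset.range E.1, ∫ t in uIoc (E.2 i).1 (E.2 i).2, deriv f t ^ 2) +
          (∑ i ∈ Finset.range E.1, dist (E.2 i).1 (E.2 i).2) / (2 * η) := by
        rw [Finset.sum_add_distrib, Finset.mul_sum, Finset.sum_div]
    _ ≤ η / 2 + (∑ i ∈ Finset.range E.1, dist (E.2 i).1 (E.2 i).2) / (2 * η) := by
        have : η / 2 * (∑ i ∈ Finset.range E.1, ∫ t in uIoc (E.2 i).1 (E.2 i).2, deriv f t ^ 2) ≤
          η / 2 * 1 := mul_le_mul_of_nonneg_left h3 (by positivity)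
        linarith

theorem gna_dq_pt {f : ℝ → ℝ} (hf : H1om f) {h : ℝ} (hh : 0 < h) (x : ℝ) :
    ((f (x + h) - f x) / h) ^ 2 ≤ 1 / h * ∫ t in (0:ℝ)..h, deriv f (x + t) ^ 2 := by
  obtain ⟨hg, hfg⟩ := gna_deriv hf
  have hsq : ∀ a b, IntervalIntegrable (fun t => deriv f t ^ 2) volume a b := fun a b =>
    (gna_sq_int hg).intervalIntegrable
  have e1 : ∫ t in (0:ℝ)..h, deriv f (x + t) ^ 2 = ∫ t in x..(x + h), deriv f t ^ 2 := by
    have := intervalIntegral.integral_comp_add_left (a := 0) (b := h) (fun t => deriv f t ^ 2) x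
    rw [this, add_zero]
  rw [e1, hfg x (x + h)]
  set A := ∫ t in x..(x + h), deriv f t with hA
  have h0 : 0 ≤ ∫ t in x..(x + h), (deriv f t - A / h) ^ 2 :=
    intervalIntegral.integral_nonneg (by linarith) fun t _ => sq_nonneg _
  have e2 : ∫ t in x..(x + h), (deriv f t - A / h) ^ 2 =
      (∫ t in x..(x + h), deriv f t ^ 2) - A ^ 2 / h := by
    have e3 : ∀ t, (deriv f t - A / h) ^ 2 =
        deriv f t ^ 2 - (2 * (A / h)) * deriv f t + (A / h) ^ 2 := fun t => by ring
    simp_rw [e3]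
    rw [intervalIntegral.integral_add ((hsq _ _).sub ((gna_int hg _ _).const_mul _))
      intervalIntegrable_const, intervalIntegral.integral_sub (hsq _ _)
      ((gna_int hg _ _).const_mul _), intervalIntegral.integral_const_mul,
      intervalIntegral.integral_const, ← hA, smul_eq_mul]
    field_simp
    ring
  rw [e2] at h0
  have h4 : A ^ 2 / h ≤ ∫ t in x..(x + h), deriv f t ^ 2 := by linarith
  calc (A / h) ^ 2 = 1 / h * (A ^ 2 / h) := by field_simp
    _ ≤ 1 / h * ∫ t in x..(x + h), deriv f t ^ 2 :=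
        mul_le_mul_of_nonneg_left h4 (by positivity)

theorem gna_dq {f : ℝ → ℝ} (hf : H1om f) {h : ℝ} (hh : 0 < h) :
    ∫⁻ x, ENNReal.ofReal (((f (x + h) - f x) / h) ^ 2) ≤
      ∫⁻ x, ENNReal.ofReal (deriv f x ^ 2) := by
  obtain ⟨hg, hfg⟩ := gna_deriv hf
  have hm : Measurable (fun x => ENNReal.ofReal (deriv f x ^ 2)) :=
    ((measurable_deriv f).pow_const 2).ennreal_ofReal
  have hpt : ∀ x, ENNReal.ofReal (((f (x + h) - f x) / h) ^ 2) ≤
      ENNReal.ofReal (1 / h) * ∫⁻ t in Ioc 0 h, ENNReal.ofReal (deriv f (x + t) ^ 2) := by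
    intro x
    have hi : IntegrableOn (fun t => deriv f (x + t) ^ 2) (Ioc 0 h) :=
      ((gna_sq_int hg).comp_add_left x).integrableOn
    refine (ENNReal.ofReal_le_ofReal (gna_dq_pt hf hh x)).trans ?_
    rw [ENNReal.ofReal_mul (by positivity), intervalIntegral.integral_of_le hh.le,
      ofReal_integral_eq_lintegral_ofReal hi (Eventually.of_forall fun _ => sq_nonneg _)]
  calc ∫⁻ x, ENNReal.ofReal (((f (x + h) - f x) / h) ^ 2)
      ≤ ∫⁻ x, ENNReal.ofReal (1 / h) * ∫⁻ t in Ioc 0 h, ENNReal.ofReal (deriv f (x + t) ^ 2) :=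
        lintegral_mono hpt
    _ = ENNReal.ofReal (1 / h) *
          ∫⁻ x, ∫⁻ t in Ioc 0 h, ENNReal.ofReal (deriv f (x + t) ^ 2) := by
        rw [lintegral_const_mul' _ _ ENNReal.ofReal_ne_top]
    _ = ENNReal.ofReal (1 / h) *
          ∫⁻ t in Ioc 0 h, ∫⁻ x, ENNReal.ofReal (deriv f (x + t) ^ 2) := by
        congr 1
        refine lintegral_lintegral_swap ?_
        refine Measurable.aemeasurable ?_
        have : Measurable (fun z : ℝ × ℝ => z.1 + z.2) := measurable_fst.add measurable_snd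
        exact hm.comp this
    _ = ENNReal.ofReal (1 / h) *
          ∫⁻ _ in Ioc 0 h, ∫⁻ x, ENNReal.ofReal (deriv f x ^ 2) := by
        congr 1
        refine lintegral_congr fun t => ?_
        exact lintegral_add_right_eq_self (fun x => ENNReal.ofReal (deriv f x ^ 2)) t
    _ = ∫⁻ x, ENNReal.ofReal (deriv f x ^ 2) := by
        rw [setLIntegral_const, Real.volume_Ioc, sub_zero, mul_comm (∫⁻ x, _), ← mul_assoc,
          ← ENNReal.ofReal_mul (by positivity)]
        have : 1 / h * h = 1 := by field_simp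
        rw [this, ENNReal.ofReal_one, one_mul]

theorem gna_dq_abs {f : ℝ → ℝ} (hf : H1om f) (h1 : EnF f ≤ 1) {h : ℝ} (hh : 0 < h) :
    ∫⁻ x, ENNReal.ofReal (((|f (x + h)| - |f x|) / h) ^ 2 + |f x| ^ 2) ≤ 1 := by
  obtain ⟨hg, hfg⟩ := gna_deriv hf
  have hc := gna_cont hg hfg
  have hm : Measurable (fun x => ENNReal.ofReal (((f (x + h) - f x) / h) ^ 2)) :=
    ((((hc.comp (continuous_id.add continuous_const)).sub hc).div_const h).pow 2).measurable.ennreal_ofReal
  calc ∫⁻ x, ENNReal.ofReal (((|f (x + h)| - |f x|) / h) ^ 2 + |f x| ^ 2)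
      ≤ ∫⁻ x, (ENNReal.ofReal (((f (x + h) - f x) / h) ^ 2) + ENNReal.ofReal (f x ^ 2)) := by
        refine lintegral_mono fun x => ?_
        rw [← ENNReal.ofReal_add (sq_nonneg _) (sq_nonneg _), sq_abs]
        refine ENNReal.ofReal_le_ofReal ?_
        have h2 : |(|f (x + h)| - |f x|)| ≤ |f (x + h) - f x| := abs_abs_sub_abs_le _ _
        have h3 : ((|f (x + h)| - |f x|) / h) ^ 2 ≤ ((f (x + h) - f x) / h) ^ 2 := by
          rw [div_pow, div_pow]
          exact div_le_div_of_nonneg_right (sq_le_sq.2 h2) (sq_nonneg _)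
        linarith
    _ = (∫⁻ x, ENNReal.ofReal (((f (x + h) - f x) / h) ^ 2)) +
          ∫⁻ x, ENNReal.ofReal (f x ^ 2) := lintegral_add_left hm _
    _ ≤ (∫⁻ x, ENNReal.ofReal (deriv f x ^ 2)) + ∫⁻ x, ENNReal.ofReal (f x ^ 2) := by
        exact add_le_add (gna_dq hf hh) le_rfl
    _ = ENNReal.ofReal (EnF f) := by
        rw [gna_En hf, ENNReal.ofReal_add (integral_nonneg fun _ => sq_nonneg _)
          (integral_nonneg fun _ => sq_nonneg _),
          ofReal_integral_eq_lintegral_ofReal (gna_sq_int hg)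
            (Eventually.of_forall fun _ => sq_nonneg _),
          ofReal_integral_eq_lintegral_ofReal (gna_sq_int hf.1)
            (Eventually.of_forall fun _ => sq_nonneg _)]
    _ ≤ 1 := by
        rw [← ENNReal.ofReal_one]
        exact ENNReal.ofReal_le_ofReal h1

end Pool.Agent.RLT40
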