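import Pool.Agent.RLT40.SpaceA

/-!
# Module SPACE: the space `H¹₀(a,b)` and the counting function `nneg`.

`deriv f = g` a.e. for `f x = ∫_a^x g` (Lebesgue differentiation; see `IntervalIntegrable...ae_hasDerivAt` /
`AbsolutelyContinuousOnInterval` in Mathlib).
-/

open MeasureTheory Set
open scoped ENNReal NNReal

namespace Pool.Agent.RLT40

theorem spB_sq_integrable {a b : ℝ} {f : ℝ → ℝ} (hf : f ∈ H10 a b) :
    Integrable (fun x => deriv f x ^ 2) := (H10_deriv_memLp hf).integrable_sq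

theorem spB_ii {a b : ℝ} {f : ℝ → ℝ} (hf : f ∈ H10 a b) (x y : ℝ) :
    IntervalIntegrable (deriv f) volume x y :=
  (((H10_deriv_memLp hf).locallyIntegrable (by norm_num)).integrableOn_isCompact
    isCompact_uIcc).intervalIntegrable

theorem spB_holder_le {a b : ℝ} {f : ℝ → ℝ} (hf : f ∈ H10 a b) {x y : ℝ} (hxy : x < y) :
    (f y - f x) ^ 2 ≤ (y - x) * ∫ t, deriv f t ^ 2 := by
  have hsq := spB_sq_integrable hf
  have hii := spB_ii hf x y
  have hI := H10_integral hf x y
  set m := f y - f x with hm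
  set c := m / (y - x) with hc
  have hpos : 0 < y - x := by linarith
  have h0 : 0 ≤ ∫ t in x..y, (deriv f t - c) ^ 2 :=
    intervalIntegral.integral_nonneg hxy.le fun t _ => sq_nonneg _
  have h1 : ∫ t in x..y, (deriv f t - c) ^ 2 =
      (∫ t in x..y, deriv f t ^ 2) - 2 * c * m + c ^ 2 * (y - x) := by
    have e1 : ∀ t, (deriv f t - c) ^ 2 = (deriv f t ^ 2 - 2 * c * deriv f t) + c ^ 2 := by
      intro t; ring
    simp_rw [e1]
    have i1 : IntervalIntegrable (fun t => deriv f t ^ 2) volume x y := hsq.intervalIntegrable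
    have i2 : IntervalIntegrable (fun t => 2 * c * deriv f t) volume x y := hii.const_mul _
    rw [intervalIntegral.integral_add (i1.sub i2) intervalIntegrable_const,
      intervalIntegral.integral_sub i1 i2, intervalIntegral.integral_const_mul, hI,
      intervalIntegral.integral_const, smul_eq_mul]
    ring
  have h2 : ∫ t in x..y, deriv f t ^ 2 ≤ ∫ t, deriv f t ^ 2 := by
    rw [intervalIntegral.integral_of_le hxy.le]
    exact setIntegral_le_integral hsq (ae_of_all _ fun t => sq_nonneg _)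
  have h3 : c * (y - x) = m := by rw [hc]; field_simp
  have h4 : c ^ 2 * (y - x) = c * m := by rw [sq, mul_assoc, h3]
  have h5 : c * m ≤ ∫ t, deriv f t ^ 2 := by linarith
  calc m ^ 2 = (y - x) * (c * m) := by rw [← mul_assoc, mul_comm (y - x) c, h3]; ring
    _ ≤ _ := mul_le_mul_of_nonneg_left h5 hpos.le

/-- Hölder continuity: `(f(y)-f(x))² ≤ |y-x| ∫ f'²` -/
theorem H10_holder {a b : ℝ} {f : ℝ → ℝ} (hf : f ∈ H10 a b) (x y : ℝ) :
    (f y - f x) ^ 2 ≤ |y - x| * ∫ t, deriv f t ^ 2 := by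
  rcases lt_trichotomy x y with h | h | h
  · rw [abs_of_pos (by linarith)]
    exact spB_holder_le hf h
  · subst h
    simp
  · rw [abs_of_neg (by linarith)]
    have := spB_holder_le hf h
    rw [show -(y - x) = x - y by ring]
    calc (f y - f x) ^ 2 = (f x - f y) ^ 2 := by ring
      _ ≤ _ := this

/-- `f(x)² ≤ (b-a) ∫ f'²` -/
theorem H10_sup_sq {a b : ℝ} (hab : a ≤ b) {f : ℝ → ℝ} (hf : f ∈ H10 a b) (x : ℝ) :
    f x ^ 2 ≤ (b - a) * ∫ t, deriv f t ^ 2 := by
  have hI : 0 ≤ ∫ t, deriv f t ^ 2 := integral_nonneg fun t => sq_nonneg _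
  by_cases hx : x ∈ Ioo a b
  · have h := H10_holder hf a x
    rw [H10_zero hf (x := a) (by simp), sub_zero, abs_of_pos (by linarith [hx.1])] at h
    refine h.trans (mul_le_mul_of_nonneg_right (by linarith [hx.2]) hI)
  · rw [H10_zero hf hx]
    have : 0 ≤ (b - a) * ∫ t, deriv f t ^ 2 := mul_nonneg (by linarith) hI
    simpa using this

theorem spB_hasCompactSupport {a b : ℝ} {f : ℝ → ℝ} (hf : f ∈ H10 a b) : HasCompactSupport f :=
  HasCompactSupport.intro (isCompact_Icc (a := a) (b := b)) fun x hx =>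
    H10_zero hf fun h => hx (Ioo_subset_Icc_self h)

theorem spB_f_sq_integrable {a b : ℝ} {f : ℝ → ℝ} (hf : f ∈ H10 a b) :
    Integrable (fun x => f x ^ 2) := by
  refine Continuous.integrable_of_hasCompactSupport ((H10_continuous hf).pow 2) ?_
  refine HasCompactSupport.intro (isCompact_Icc (a := a) (b := b)) fun x hx => ?_
  rw [H10_zero hf fun h => hx (Ioo_subset_Icc_self h)]
  norm_num

/-- `f(x)² ≤ δ ∫ f'² + δ⁻¹ ∫ f²` -/
theorem H10_sup_young {a b : ℝ} {f : ℝ → ℝ} (hf : f ∈ H10 a b) {δ : ℝ} (hδ : 0 < δ) (x : ℝ) :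
    f x ^ 2 ≤ δ * (∫ t, deriv f t ^ 2) + δ⁻¹ * ∫ t, f t ^ 2 := by
  set D := ∫ t, deriv f t ^ 2 with hD
  have hc := H10_continuous hf
  have hpt : ∀ y, f x ^ 2 ≤ 2 * f y ^ 2 + 2 * D * |y - x| := by
    intro y
    have h := H10_holder hf x y
    nlinarith [sq_nonneg (2 * f y - f x), sq_nonneg (f x - 2 * f y)]
  have hle : x - δ ≤ x + δ := by linarith
  have h1 : ∫ _y in (x - δ)..(x + δ), f x ^ 2 ≤
      ∫ y in (x - δ)..(x + δ), (2 * f y ^ 2 + 2 * D * |y - x|) := by
    refine intervalIntegral.integral_mono_on hle intervalIntegrable_const ?_ fun y _ => hpt y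
    exact Continuous.intervalIntegrable (by fun_prop) _ _
  rw [intervalIntegral.integral_const, smul_eq_mul] at h1
  have h2 : ∫ y in (x - δ)..(x + δ), (2 * f y ^ 2 + 2 * D * |y - x|) =
      2 * (∫ y in (x - δ)..(x + δ), f y ^ 2) + 2 * D * ∫ y in (x - δ)..(x + δ), |y - x| := by
    rw [intervalIntegral.integral_add, intervalIntegral.integral_const_mul,
      intervalIntegral.integral_const_mul]
    · exact Continuous.intervalIntegrable (by fun_prop) _ _
    · exact Continuous.intervalIntegrable (by fun_prop) _ _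
  have h3 : ∫ y in (x - δ)..(x + δ), f y ^ 2 ≤ ∫ t, f t ^ 2 := by
    rw [intervalIntegral.integral_of_le hle]
    exact setIntegral_le_integral (spB_f_sq_integrable hf) (ae_of_all _ fun t => sq_nonneg _)
  have h4 : ∫ y in (x - δ)..(x + δ), |y - x| = δ ^ 2 := by
    rw [intervalIntegral.integral_comp_sub_right (fun y => |y|) x]
    have e1 : x - δ - x = -δ := by ring
    have e2 : x + δ - x = δ := by ring
    rw [e1, e2]
    have s : ∫ y in (-δ)..δ, |y| = (∫ y in (-δ)..0, |y|) + ∫ y in (0 : ℝ)..δ, |y| := by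
      rw [intervalIntegral.integral_add_adjacent_intervals] <;>
        exact Continuous.intervalIntegrable (by fun_prop) _ _
    have s1 : ∫ y in (-δ)..0, |y| = ∫ y in (-δ)..0, -y := by
      refine intervalIntegral.integral_congr fun y hy => ?_
      rw [uIcc_of_le (by linarith)] at hy
      exact abs_of_nonpos hy.2
    have s2 : ∫ y in (0 : ℝ)..δ, |y| = ∫ y in (0 : ℝ)..δ, y := by
      refine intervalIntegral.integral_congr fun y hy => ?_
      rw [uIcc_of_le hδ.le] at hy
      exact abs_of_nonneg hy.1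
    rw [s, s1, s2, intervalIntegral.integral_neg, integral_id, integral_id]
    ring
  rw [h2, h4] at h1
  have h5 : (x + δ - (x - δ)) = 2 * δ := by ring
  rw [h5] at h1
  have h6 : δ * f x ^ 2 ≤ (∫ t, f t ^ 2) + D * δ ^ 2 := by nlinarith
  have h7 : f x ^ 2 = δ⁻¹ * (δ * f x ^ 2) := by field_simp
  rw [h7]
  calc δ⁻¹ * (δ * f x ^ 2) ≤ δ⁻¹ * ((∫ t, f t ^ 2) + D * δ ^ 2) :=
        mul_le_mul_of_nonneg_left h6 (by positivity)
    _ = δ * D + δ⁻¹ * ∫ t, f t ^ 2 := by field_simp; ring

theorem q_integrable {a b : ℝ} {V f : ℝ → ℝ} (hV : IntegrableOn V (Ioo a b)) (hf : f ∈ H10 a b) :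
    Integrable (fun x => V x * f x ^ 2) ∧ Integrable (fun x => deriv f x ^ 2 + V x * f x ^ 2) := by
  have h1 : Integrable (fun x => V x * f x ^ 2) := by
    rw [← integrableOn_iff_integrable_of_support_subset (s := Ioo a b)]
    · have hc := H10_continuous hf
      obtain ⟨C, hC⟩ := (spB_hasCompactSupport hf).exists_bound_of_continuous hc
      refine Integrable.mul_bdd (c := C ^ 2) hV (hc.pow 2).aestronglyMeasurable (ae_of_all _ fun x => ?_)
      rw [norm_pow]
      exact pow_le_pow_left₀ (norm_nonneg _) (hC x) 2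
    · intro x hx
      by_contra h
      rw [Function.mem_support, H10_zero hf h] at hx
      exact hx (by ring)
  exact ⟨h1, (spB_sq_integrable hf).add h1⟩

theorem q_eq {a b : ℝ} {V f : ℝ → ℝ} (hV : IntegrableOn V (Ioo a b)) (hf : f ∈ H10 a b) :
    q V f = (∫ x, deriv f x ^ 2) + ∫ x, V x * f x ^ 2 := by
  rw [q, integral_add (spB_sq_integrable hf) (q_integrable hV hf).1]

end Pool.Agent.RLT40
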