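import Pool.Agent.RLT40.GNDef
import Pool.Agent.RLT40.SpaceB

/-!
# Modules GN1, GN2, GN3 (paper 2.A5): the one-state problem.

one-state: Hölder `∫Uf² ≤ J^{1/p}Xi^{1/p'}`; `(eOm + En)^p ≤ J K Om^γ En²`; `x = eOm/En`: `e^γ ≤ JK x^γ/(1+x)^p`, maximum at `x = γ/2`.  Members of `H10 a b` are in H1om.
-/

open MeasureTheory Set
open scoped ENNReal NNReal

namespace Pool.Agent.RLT40

/-- members of `H10` vanish outside a compact interval -/
theorem gnb_compact {a b : ℝ} {f : ℝ → ℝ} (hf : f ∈ H10 a b) : HasCompactSupport f :=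
  HasCompactSupport.intro (isCompact_Icc (a := a) (b := b)) fun _ hx =>
    H10_zero hf fun h => hx (Ioo_subset_Icc_self h)

theorem gnb_H1om {a b : ℝ} {f : ℝ → ℝ} (hf : f ∈ H10 a b) : H1om f := by
  have hc := H10_continuous hf
  have hk := gnb_compact hf
  refine ⟨hc.memLp_of_hasCompactSupport hk, ?_, deriv f, H10_deriv_memLp hf, fun x y => ?_⟩
  · have h1 : Continuous fun x => om x * f x ^ 2 := by
      have : Continuous om := by
        unfold om
        fun_prop
      fun_prop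
    refine h1.integrable_of_hasCompactSupport ?_
    refine HasCompactSupport.intro (isCompact_Icc (a := a) (b := b)) fun x hx => ?_
    rw [H10_zero hf fun h => hx (Ioo_subset_Icc_self h)]
    simp
  · exact (H10_integral hf x y).symm

/-- the maximum of `x^γ/(1+x)^{2+γ}` -/
theorem gnb_max {γ x : ℝ} (hγ : 0 < γ) (hx : 0 ≤ x) :
    x ^ γ ≤ (γ / 2) ^ γ * (2 / (2 + γ)) ^ (2 + γ) * (1 + x) ^ (2 + γ) := by
  have h2γ : 0 < 2 + γ := by linarith
  have h1 := Real.geom_mean_le_arith_mean2_weighted (w₁ := γ / (2 + γ)) (w₂ := 2 / (2 + γ))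
    (p₁ := x * ((2 + γ) / γ)) (p₂ := (2 + γ) / 2) (by positivity) (by positivity) (by positivity)
    (by positivity) (by field_simp; ring)
  have e1 : γ / (2 + γ) * (x * ((2 + γ) / γ)) + 2 / (2 + γ) * ((2 + γ) / 2) = 1 + x := by
    field_simp
    ring
  rw [e1] at h1
  have h3 := Real.rpow_le_rpow (by positivity) h1 h2γ.le
  rw [Real.mul_rpow (by positivity) (by positivity), ← Real.rpow_mul (by positivity),
    ← Real.rpow_mul (by positivity), div_mul_cancel₀ _ h2γ.ne', div_mul_cancel₀ _ h2γ.ne',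
    Real.mul_rpow hx (by positivity)] at h3
  have h4 := mul_le_mul_of_nonneg_left h3
    (by positivity : 0 ≤ (γ / 2) ^ γ * (2 / (2 + γ)) ^ (2 + γ))
  refine le_trans (le_of_eq ?_) h4
  have e2 : (γ / 2) ^ γ * (2 / (2 + γ)) ^ γ * ((2 + γ) / γ) ^ γ = 1 := by
    rw [← Real.mul_rpow (by positivity) (by positivity), ← Real.mul_rpow (by positivity)
      (by positivity)]
    have : γ / 2 * (2 / (2 + γ)) * ((2 + γ) / γ) = 1 := by field_simp
    rw [this, Real.one_rpow]
  have e3 : (2 / (2 + γ)) ^ (2 : ℝ) * ((2 + γ) / 2) ^ (2 : ℝ) = 1 := by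
    rw [← Real.mul_rpow (by positivity) (by positivity)]
    have : 2 / (2 + γ) * ((2 + γ) / 2) = 1 := by field_simp
    rw [this, Real.one_rpow]
  rw [Real.rpow_add (by positivity) 2 γ]
  calc x ^ γ = x ^ γ * ((γ / 2) ^ γ * (2 / (2 + γ)) ^ γ * ((2 + γ) / γ) ^ γ) *
        ((2 / (2 + γ)) ^ (2 : ℝ) * ((2 + γ) / 2) ^ (2 : ℝ)) := by rw [e2, e3]; ring
    _ = _ := by ring

/-- Hölder's inequality for `∫ U f²` -/
theorem gnb_holder {γ a b : ℝ} (hγ : 0 < γ) {U f : ℝ → ℝ} (hU : Adm1 γ a b U) (hf : f ∈ H10 a b) :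
    ∫ x in Ioo a b, U x * f x ^ 2 ≤
      (∫ x in Ioo a b, U x ^ (2 + γ) * Real.exp (-(2 * γ * x))) ^ (1 / (2 + γ)) *
        (XiF γ f) ^ (1 / ((2 + γ) / (1 + γ))) := by
  have h2γ : 0 < 2 + γ := by linarith
  have h1γ : 0 < 1 + γ := by linarith
  have hpq : (2 + γ).HolderConjugate ((2 + γ) / (1 + γ)) := by
    rw [Real.holderConjugate_iff]
    refine ⟨by linarith, ?_⟩
    field_simp
    ring
  have hc := H10_continuous hf
  have hk := gnb_compact hf
  have hE : ∀ c : ℝ, Continuous fun x => Real.exp (c * x) := fun c => by fun_prop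
  have hF : MemLp (fun x => U x * Real.exp (-(2 * γ) / (2 + γ) * x)) (ENNReal.ofReal (2 + γ))
      (volume.restrict (Ioo a b)) := by
    obtain ⟨C, hC⟩ := (isCompact_Icc (a := a) (b := b)).exists_bound_of_continuousOn
      (hE (-(2 * γ) / (2 + γ))).continuousOn
    refine hU.2.of_le_mul (c := C) ?_ ?_
    · exact hU.2.aestronglyMeasurable.mul (hE _).aestronglyMeasurable
    · refine (ae_restrict_iff' measurableSet_Ioo).2 (ae_of_all _ fun x hx => ?_)
      rw [norm_mul, mul_comm]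
      exact mul_le_mul_of_nonneg_right (hC x (Ioo_subset_Icc_self hx)) (norm_nonneg _)
  have hG : MemLp (fun x => f x ^ 2 * Real.exp (2 * γ / (2 + γ) * x))
      (ENNReal.ofReal ((2 + γ) / (1 + γ))) (volume.restrict (Ioo a b)) := by
    refine MemLp.restrict _ ?_
    refine Continuous.memLp_of_hasCompactSupport ((hc.pow 2).mul (hE _)) ?_
    refine HasCompactSupport.intro (isCompact_Icc (a := a) (b := b)) fun x hx => ?_
    rw [H10_zero hf fun h => hx (Ioo_subset_Icc_self h)]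
    simp
  have key := integral_mul_le_Lp_mul_Lq_of_nonneg hpq
    (ae_of_all _ fun x => mul_nonneg (hU.1 x) (Real.exp_pos _).le)
    (ae_of_all _ fun x => mul_nonneg (sq_nonneg (f x)) (Real.exp_pos _).le) hF hG
  have e1 : ∀ x, U x * Real.exp (-(2 * γ) / (2 + γ) * x) *
      (f x ^ 2 * Real.exp (2 * γ / (2 + γ) * x)) = U x * f x ^ 2 := by
    intro x
    have : Real.exp (-(2 * γ) / (2 + γ) * x) * Real.exp (2 * γ / (2 + γ) * x) = 1 := by
      rw [← Real.exp_add, neg_div, neg_mul, neg_add_cancel, Real.exp_zero]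
    calc _ = U x * f x ^ 2 * (Real.exp (-(2 * γ) / (2 + γ) * x) *
          Real.exp (2 * γ / (2 + γ) * x)) := by ring
      _ = _ := by rw [this, mul_one]
  have e2 : ∀ x, (U x * Real.exp (-(2 * γ) / (2 + γ) * x)) ^ (2 + γ) =
      U x ^ (2 + γ) * Real.exp (-(2 * γ * x)) := by
    intro x
    rw [Real.mul_rpow (hU.1 x) (Real.exp_pos _).le, ← Real.exp_mul]
    have : -(2 * γ) / (2 + γ) * x * (2 + γ) = -(2 * γ * x) := by field_simp
    rw [this]
  have e3 : ∀ x, (f x ^ 2 * Real.exp (2 * γ / (2 + γ) * x)) ^ ((2 + γ) / (1 + γ)) =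
      |f x| ^ (2 * (2 + γ) / (1 + γ)) * Real.exp (2 * γ * x / (1 + γ)) := by
    intro x
    rw [Real.mul_rpow (sq_nonneg _) (Real.exp_pos _).le, ← Real.exp_mul, ← sq_abs,
      ← Real.rpow_natCast, ← Real.rpow_mul (abs_nonneg _)]
    have h1 : ((2 : ℕ) : ℝ) * ((2 + γ) / (1 + γ)) = 2 * (2 + γ) / (1 + γ) := by
      push_cast
      ring
    have h2 : 2 * γ / (2 + γ) * x * ((2 + γ) / (1 + γ)) = 2 * γ * x / (1 + γ) := by
      field_simp
    rw [h1, h2]
  simp only [e1, e2, e3] at key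
  have e4 : ∫ x in Ioo a b, |f x| ^ (2 * (2 + γ) / (1 + γ)) * Real.exp (2 * γ * x / (1 + γ)) =
      XiF γ f := by
    unfold XiF
    refine setIntegral_eq_integral_of_forall_compl_eq_zero fun x hx => ?_
    rw [H10_zero hf hx, abs_zero, Real.zero_rpow (by positivity), zero_mul]
  rwa [e4] at key

/-- GN2a: the one-state bound from the optimal constant `K` -/
theorem oneState_of_gn {γ K : ℝ} (hγ : 0 < γ) (hγ1 : γ ≤ 1) (hK : 0 < K)
    (h : ∀ f : ℝ → ℝ, H1om f → XiF γ f ^ (1 + γ) ≤ K * (OmF f ^ γ * EnF f ^ 2)) :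
    OneState γ (K * (γ / 2) ^ γ * (2 / (2 + γ)) ^ (2 + γ)) := by
  intro a b U hU f hf hne e he hq
  have h2γ : 0 < 2 + γ := by linarith
  have h1γ : 0 < 1 + γ := by linarith
  have hc := H10_continuous hf
  have hk := gnb_compact hf
  have hdL := H10_deriv_memLp hf
  obtain ⟨hf2, hfo, -⟩ := gnb_H1om hf
  have i1 : Integrable fun x => f x ^ 2 := hf2.integrable_sq
  have i2 : Integrable fun x => deriv f x ^ 2 := hdL.integrable_sq
  -- positivity
  obtain ⟨x₀, hx₀⟩ : ∃ x, f x ≠ 0 := by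
    by_contra h0
    push Not at h0
    exact hne (funext h0)
  have hpos : ∀ w : ℝ → ℝ, Continuous w → (∀ x, 0 < w x) →
      Integrable (fun x => w x * f x ^ 2) → 0 < ∫ x, w x * f x ^ 2 := by
    intro w hw hw0 hi
    refine (integral_pos_iff_support_of_nonneg (fun x => mul_nonneg (hw0 x).le (sq_nonneg _))
      hi).2 ?_
    have ho : IsOpen (Function.support fun x => w x * f x ^ 2) := by
      have : Continuous fun x => w x * f x ^ 2 := by fun_prop
      exact this.isOpen_support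
    refine ho.measure_pos _ ⟨x₀, ?_⟩
    rw [Function.mem_support]
    exact mul_ne_zero (hw0 x₀).ne' (pow_ne_zero 2 hx₀)
  have hOm : 0 < OmF f := by
    refine hpos om ?_ (fun x => Real.exp_pos _) hfo
    unfold om
    fun_prop
  have hEn1 : EnF f = (∫ x, deriv f x ^ 2) + ∫ x, f x ^ 2 := integral_add i2 i1
  have hf2pos : 0 < ∫ x, f x ^ 2 := by
    have := hpos (fun _ => 1) continuous_const (fun _ => one_pos) (by simpa using i1)
    simpa using this
  have hEn : 0 < EnF f := by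
    rw [hEn1]
    have : 0 ≤ ∫ x, deriv f x ^ 2 := integral_nonneg fun x => sq_nonneg _
    linarith
  -- integrability of `U`
  have iU : IntegrableOn U (Ioo a b) := by
    have : MemLp U 1 (volume.restrict (Ioo a b)) := by
      refine hU.2.mono_exponent ?_
      rw [← ENNReal.ofReal_one]
      exact ENNReal.ofReal_le_ofReal (by linarith)
    exact memLp_one_iff_integrable.1 this
  have iUf := (q_integrable iU hf).1
  have hUf : EnF f + e * OmF f ≤ ∫ x in Ioo a b, U x * f x ^ 2 := by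
    have e0 : ∫ x in Ioo a b, U x * f x ^ 2 = ∫ x, U x * f x ^ 2 := by
      refine setIntegral_eq_integral_of_forall_compl_eq_zero fun x hx => ?_
      rw [H10_zero hf hx]
      ring
    have e1 : q (pot 1 e U) f = EnF f + e * OmF f - ∫ x, U x * f x ^ 2 := by
      have i3 : Integrable fun x => deriv f x ^ 2 + f x ^ 2 := i2.add i1
      have i4 : Integrable fun x => e * (om x * f x ^ 2) := hfo.const_mul e
      have i5 : Integrable fun x => deriv f x ^ 2 + f x ^ 2 + e * (om x * f x ^ 2) := i3.add i4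
      unfold q EnF OmF pot
      rw [← integral_const_mul, ← integral_add i3 i4, ← integral_sub i5 iUf]
      refine integral_congr_ae (ae_of_all _ fun x => ?_)
      simp only
      ring
    rw [e0]
    linarith
  -- the mass
  set J := ∫ x in Ioo a b, U x ^ (2 + γ) * Real.exp (-(2 * γ * x)) with hJ
  have iJ : IntegrableOn (fun x => U x ^ (2 + γ) * Real.exp (-(2 * γ * x))) (Ioo a b) := by
    have hi : IntegrableOn (fun x => U x ^ (2 + γ)) (Ioo a b) := by
      have := hU.2.integrable_norm_rpow (by simp [h2γ]) (by simp)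
      rw [ENNReal.toReal_ofReal h2γ.le] at this
      refine this.congr (ae_of_all _ fun x => ?_)
      simp only [Real.norm_eq_abs, abs_of_nonneg (hU.1 x)]
    obtain ⟨C, hC⟩ := (isCompact_Icc (a := a) (b := b)).exists_bound_of_continuousOn
      (f := fun x => Real.exp (-(2 * γ * x))) (by fun_prop)
    refine Integrable.mul_bdd (c := C) hi (by fun_prop) ?_
    exact (ae_restrict_iff' measurableSet_Ioo).2 (ae_of_all _ fun x hx =>
      hC x (Ioo_subset_Icc_self hx))
  have hJ0 : 0 ≤ J := setIntegral_nonneg measurableSet_Ioo fun x _ =>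
    mul_nonneg (Real.rpow_nonneg (hU.1 x) _) (Real.exp_pos _).le
  have hJf : Jf γ a b U = ENNReal.ofReal J := by
    unfold Jf
    rw [hJ, ofReal_integral_eq_lintegral_ofReal iJ]
    exact ae_of_all _ fun x => mul_nonneg (Real.rpow_nonneg (hU.1 x) _) (Real.exp_pos _).le
  have hXi0 : 0 ≤ XiF γ f := integral_nonneg fun x => by positivity
  -- the main inequality
  have h1 : (EnF f + e * OmF f) ^ (2 + γ) ≤ J * (K * (OmF f ^ γ * EnF f ^ 2)) := by
    have h2 : EnF f + e * OmF f ≤ J ^ (1 / (2 + γ)) * (XiF γ f) ^ (1 / ((2 + γ) / (1 + γ))) :=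
      hUf.trans (gnb_holder hγ hU hf)
    have h3 := Real.rpow_le_rpow (by positivity) h2 h2γ.le
    rw [Real.mul_rpow (by positivity) (by positivity), ← Real.rpow_mul hJ0,
      ← Real.rpow_mul hXi0, one_div_mul_cancel h2γ.ne', Real.rpow_one] at h3
    have e1 : 1 / ((2 + γ) / (1 + γ)) * (2 + γ) = 1 + γ := by field_simp
    rw [e1] at h3
    exact h3.trans (mul_le_mul_of_nonneg_left (h f (gnb_H1om hf)) hJ0)
  -- divide
  have h4 := gnb_max hγ (x := e * OmF f / EnF f) (by positivity)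
  have h5 : e ^ γ ≤ K * (γ / 2) ^ γ * (2 / (2 + γ)) ^ (2 + γ) * J := by
    have e1 : 1 + e * OmF f / EnF f = (EnF f + e * OmF f) / EnF f := by field_simp
    rw [e1, Real.div_rpow (by positivity) hEn.le, Real.div_rpow (by positivity) hEn.le,
      Real.mul_rpow he.le hOm.le, Real.rpow_add hEn 2 γ, Real.rpow_two] at h4
    have hA : 0 < EnF f ^ γ := Real.rpow_pos_of_pos hEn _
    have hB : 0 < OmF f ^ γ := Real.rpow_pos_of_pos hOm _
    have hD : 0 ≤ (γ / 2) ^ γ * (2 / (2 + γ)) ^ (2 + γ) := by positivity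
    have h6 : (γ / 2) ^ γ * (2 / (2 + γ)) ^ (2 + γ) *
        ((EnF f + e * OmF f) ^ (2 + γ) / (EnF f ^ 2 * EnF f ^ γ)) ≤
        (γ / 2) ^ γ * (2 / (2 + γ)) ^ (2 + γ) *
        (J * (K * (OmF f ^ γ * EnF f ^ 2)) / (EnF f ^ 2 * EnF f ^ γ)) :=
      mul_le_mul_of_nonneg_left (div_le_div_of_nonneg_right h1 (by positivity)) hD
    have h7 := h4.trans h6
    have e2 : (γ / 2) ^ γ * (2 / (2 + γ)) ^ (2 + γ) *
        (J * (K * (OmF f ^ γ * EnF f ^ 2)) / (EnF f ^ 2 * EnF f ^ γ)) =
        (K * (γ / 2) ^ γ * (2 / (2 + γ)) ^ (2 + γ) * J) * OmF f ^ γ / EnF f ^ γ := by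
      field_simp
    rw [e2, div_le_div_iff_of_pos_right hA] at h7
    exact le_of_mul_le_mul_right h7 hB
  rw [hJf, ← ENNReal.ofReal_mul (by positivity)]
  exact ENNReal.ofReal_le_ofReal h5

end Pool.Agent.RLT40
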