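import Pool.Agent.RLT40.GNc1

/-!
# Auxiliary lemmas for module GNc: du Bois-Reymond lemma on the line
-/

open MeasureTheory Set
open scoped ENNReal NNReal

namespace Pool.Agent.RLT40

theorem GNc_full_integral {a b : ℝ} (hab : a < b) {η : ℝ → ℝ} (hη : η ∈ H10 a b) : ∫ x, deriv η x = 0 := by
  have h1 : ∫ x in a..b, deriv η x = 0 := by
    rw [H10_integral hη, H10_zero hη fun h => lt_irrefl _ h.1, H10_zero hη fun h => lt_irrefl _ h.2, sub_zero]
  rw [intervalIntegral.integral_of_le hab.le, ← integral_Icc_eq_integral_Ioc] at h1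
  rw [← h1]
  symm
  exact setIntegral_eq_integral_of_forall_compl_eq_zero fun x hx => H10_deriv_zero hη hx

theorem GNc_orth {g Φ : ℝ → ℝ} (hg : MemLp g 2 volume) (hΦ : Continuous Φ)
    (h : ∀ a b : ℝ, a < b → ∀ η ∈ H10 a b, ∫ x, (g x * deriv η x + Φ x * η x) = 0) {a b : ℝ} (hab : a < b)
    {η : ℝ → ℝ} (hη : η ∈ H10 a b) : ∫ x, (g x - ∫ t in (0:ℝ)..x, Φ t) * deriv η x = 0 := by
  set Ψ : ℝ → ℝ := fun x => ∫ t in (0:ℝ)..x, Φ t with hΨ
  have hΨd : ∀ x, HasDerivAt Ψ (Φ x) x := fun x => (hΦ.integral_hasStrictDerivAt 0 x).hasDerivAt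
  have hΨc : Continuous Ψ := continuous_iff_continuousAt.2 fun x => (hΨd x).continuousAt
  obtain ⟨h1, h2⟩ := H10_mul hη hΨd hΦ
  have h3 := GNc_full_integral hab h1
  have hdη := H10_deriv_memLp hη
  have i1 : Integrable (fun x => g x * deriv η x) := hg.integrable_mul hdη
  have i2 : Integrable (fun x => Φ x * η x) := GNc_int hη hΦ
  have hk : MemLp ((Icc a b).indicator Ψ) 2 volume := by
    rw [memLp_indicator_iff_restrict measurableSet_Icc]
    obtain ⟨C, hC⟩ := isCompact_Icc.exists_bound_of_continuousOn (hΨc.continuousOn (s := Icc a b))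
    refine MemLp.of_bound hΨc.aestronglyMeasurable C ?_
    exact (ae_restrict_iff' measurableSet_Icc).2 (Filter.Eventually.of_forall hC)
  have i3 : Integrable (fun x => Ψ x * deriv η x) := by
    refine (hk.integrable_mul hdη).congr (Filter.Eventually.of_forall fun x => ?_)
    simp only [Pi.mul_apply]
    by_cases hx : x ∈ Icc a b
    · rw [indicator_of_mem hx]
    · rw [H10_deriv_zero hη hx, mul_zero, mul_zero]
  have h4 : ∫ x, (Φ x * η x + Ψ x * deriv η x) = 0 := by
    rw [← h3]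
    exact integral_congr_ae (h2.mono fun x hx => hx.symm)
  have h5 := h a b hab η hη
  rw [integral_add i1 i2] at h5
  rw [integral_add i2 i3] at h4
  have h6 : ∫ x, (g x - Ψ x) * deriv η x = (∫ x, g x * deriv η x) - ∫ x, Ψ x * deriv η x := by
    rw [← integral_sub i1 i3]
    congr 1; funext x; ring
  rw [h6]; linarith

theorem GNc_local {f g Φ : ℝ → ℝ} (hg : MemLp g 2 volume) (hfg : ∀ x y, f y - f x = ∫ t in x..y, g t) (hΦ : Continuous Φ)
    (h : ∀ a b : ℝ, a < b → ∀ η ∈ H10 a b, ∫ x, (g x * deriv η x + Φ x * η x) = 0) {a b : ℝ} (hab : a < b) :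
    ∃ m : ℝ, (∀ᵐ t, t ∈ Ioo a b → g t = (∫ s in (0:ℝ)..t, Φ s) + m) ∧
      ∀ x ∈ Ioo a b, ∀ y ∈ Ioo a b, f y - f x = ∫ t in x..y, ((∫ s in (0:ℝ)..t, Φ s) + m) := by
  set Ψ : ℝ → ℝ := fun x => ∫ t in (0:ℝ)..x, Φ t with hΨ
  have hΨd : ∀ x, HasDerivAt Ψ (Φ x) x := fun x => (hΦ.integral_hasStrictDerivAt 0 x).hasDerivAt
  have hΨc : Continuous Ψ := continuous_iff_continuousAt.2 fun x => (hΨd x).continuousAt
  obtain ⟨C, hC⟩ := isCompact_Icc.exists_bound_of_continuousOn (hΨc.continuousOn (s := Icc a b))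
  have hkΨ : MemLp Ψ 2 (volume.restrict (Ioo a b)) := by
    refine MemLp.of_bound hΨc.aestronglyMeasurable C ?_
    exact (ae_restrict_iff' measurableSet_Ioo).2 (Filter.Eventually.of_forall fun x hx => hC x (Ioo_subset_Icc_self hx))
  have hG : MemLp (fun x => g x - Ψ x) 2 (volume.restrict (Ioo a b)) := (hg.restrict _).sub hkΨ
  have hGi : IntegrableOn (fun x => g x - Ψ x) (Ioo a b) := hG.integrable (by norm_num)
  set m : ℝ := (∫ x in Ioo a b, (g x - Ψ x)) / (b - a) with hm
  set k : ℝ → ℝ := (Ioo a b).indicator (fun x => g x - Ψ x - m) with hk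
  have hkm : MemLp k 2 volume := by
    rw [hk, memLp_indicator_iff_restrict measurableSet_Ioo]
    exact hG.sub (memLp_const m)
  have hk0 : ∀ x, x ∉ Ioo a b → k x = 0 := fun x hx => indicator_of_notMem hx _
  have hkint : ∫ x, k x = 0 := by
    rw [hk, integral_indicator measurableSet_Ioo, integral_sub hGi (by simp)]
    rw [setIntegral_const, smul_eq_mul, Measure.real, Real.volume_Ioo, ENNReal.toReal_ofReal (by linarith), hm]
    rw [mul_div_cancel₀ _ (sub_ne_zero.2 hab.ne'), sub_self]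
  have hki : Integrable k := by
    rw [hk, integrable_indicator_iff measurableSet_Ioo]
    exact hGi.sub (by simp)
  set η : ℝ → ℝ := fun x => ∫ t in a..x, k t with hη
  have hηa : ∀ x, x ≤ a → η x = 0 := by
    intro x hx
    rw [hη]
    simp only
    rw [intervalIntegral.integral_symm, intervalIntegral.integral_of_le hx, neg_eq_zero]
    refine setIntegral_eq_zero_of_forall_eq_zero fun t ht => hk0 t fun h' => ?_
    linarith [ht.2, h'.1]
  have hηb : ∀ x, b ≤ x → η x = 0 := by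
    intro x hx
    rw [hη]
    simp only
    rw [intervalIntegral.integral_of_le (hab.le.trans hx), ← hkint]
    refine setIntegral_eq_integral_of_forall_compl_eq_zero fun t ht => hk0 t fun h' => ht ⟨h'.1, h'.2.le.trans hx⟩
  have hηm : η ∈ H10 a b := by
    refine ⟨fun x hx => ?_, k, hkm, hk0, fun x => rfl⟩
    rcases le_or_gt x a with h1 | h1
    · exact hηa x h1
    · exact hηb x (by by_contra h2; exact hx ⟨h1, not_le.1 h2⟩)
  have hdη : deriv η =ᵐ[volume] k := by
    have h1 := LocallyIntegrable.ae_hasDerivAt_integral (hkm.locallyIntegrable (by norm_num))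
    filter_upwards [h1] with x hx
    exact (hx a).deriv
  have h1 := GNc_orth hg hΦ h hab hηm
  have h2 : ∫ x, (g x - Ψ x) * k x = 0 := by
    rw [← h1]
    refine integral_congr_ae (hdη.mono fun x hx => ?_)
    simp only [hx]
    rfl
  have h3 : ∫ x, k x ^ 2 = 0 := by
    have e : ∀ x, k x ^ 2 = (g x - Ψ x) * k x - m * k x := by
      intro x
      by_cases hx : x ∈ Ioo a b
      · have : k x = g x - Ψ x - m := indicator_of_mem hx _
        rw [this]; ring
      · rw [hk0 x hx]; ring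
    have i1 : Integrable (fun x => (g x - Ψ x) * k x) := by
      refine (hkm.integrable_sq.add (hki.const_mul m)).congr (Filter.Eventually.of_forall fun x => ?_)
      simp only [Pi.add_apply]
      rw [e x]; ring
    calc ∫ x, k x ^ 2 = ∫ x, ((g x - Ψ x) * k x - m * k x) := by congr 1; funext x; exact e x
      _ = 0 := by rw [integral_sub i1 (hki.const_mul m), h2, integral_const_mul, hkint]; ring
  have h4 : (fun x => k x ^ 2) =ᵐ[volume] 0 :=
    (integral_eq_zero_iff_of_nonneg (fun x => sq_nonneg _) hkm.integrable_sq).1 h3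
  have h5 : ∀ᵐ t, t ∈ Ioo a b → g t = Ψ t + m := by
    filter_upwards [h4] with t ht htm
    have h6 : k t = 0 := by simpa using ht
    have h7 : k t = g t - Ψ t - m := indicator_of_mem htm _
    linarith
  refine ⟨m, h5, fun x hx y hy => ?_⟩
  rw [hfg x y]
  refine intervalIntegral.integral_congr_ae ?_
  filter_upwards [h5] with t ht ht2
  apply ht
  rw [uIoc, mem_Ioc] at ht2
  exact ⟨lt_of_le_of_lt (le_min hx.1.le hy.1.le) ht2.1, lt_of_le_of_lt ht2.2 (max_lt hx.2 hy.2)⟩

/-- du Bois-Reymond lemma -/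
theorem GNc_regular {f g Φ : ℝ → ℝ} (hg : MemLp g 2 volume) (hfg : ∀ x y, f y - f x = ∫ t in x..y, g t) (hΦ : Continuous Φ)
    (h : ∀ a b : ℝ, a < b → ∀ η ∈ H10 a b, ∫ x, (g x * deriv η x + Φ x * η x) = 0) :
    ∃ G : ℝ → ℝ, (∀ x, HasDerivAt f (G x) x) ∧ (∀ x, HasDerivAt G (Φ x) x) ∧ g =ᵐ[volume] G := by
  set Ψ : ℝ → ℝ := fun x => ∫ t in (0:ℝ)..x, Φ t with hΨ
  have hΨd : ∀ x, HasDerivAt Ψ (Φ x) x := fun x => (hΦ.integral_hasStrictDerivAt 0 x).hasDerivAt
  have hΨc : Continuous Ψ := continuous_iff_continuousAt.2 fun x => (hΨd x).continuousAt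
  set c : ℝ := f 1 - f 0 - ∫ t in (0:ℝ)..1, Ψ t with hc
  have key : ∀ N : ℝ, 1 < N → (∀ᵐ t, t ∈ Ioo (-N) N → g t = Ψ t + c) ∧
      ∀ x ∈ Ioo (-N) N, ∀ y ∈ Ioo (-N) N, f y - f x = ∫ t in x..y, (Ψ t + c) := by
    intro N hN
    obtain ⟨m, h1, h2⟩ := GNc_local hg hfg hΦ h (a := -N) (b := N) (by linarith)
    have h3 := h2 0 ⟨by linarith, by linarith⟩ 1 ⟨by linarith, by linarith⟩
    rw [intervalIntegral.integral_add (hΨc.intervalIntegrable 0 1) (by simp)] at h3
    simp only [intervalIntegral.integral_const, sub_zero, smul_eq_mul, one_mul] at h3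
    have h4 : m = c := by rw [hc]; linarith
    rw [h4] at h1 h2
    exact ⟨h1, h2⟩
  have hGc : Continuous fun t => Ψ t + c := by fun_prop
  refine ⟨fun x => Ψ x + c, fun x => ?_, fun x => (hΨd x).add_const c, ?_⟩
  · have e : f = fun y => f 0 + ∫ t in (0:ℝ)..y, (Ψ t + c) := by
      funext y
      have := (key (|y| + 2) (by linarith [abs_nonneg y])).2 0 ⟨by linarith [abs_nonneg y], by positivity⟩ y
        ⟨by linarith [neg_abs_le y], by linarith [le_abs_self y]⟩
      linarith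
    rw [e]
    exact ((hGc.integral_hasStrictDerivAt 0 x).hasDerivAt).const_add _
  · have h1 : ∀ᵐ t, ∀ n : ℕ, t ∈ Ioo (-((n:ℝ) + 2)) ((n:ℝ) + 2) → g t = Ψ t + c := by
      rw [ae_all_iff]
      intro n
      exact (key ((n:ℝ) + 2) (by linarith [(Nat.cast_nonneg n : (0:ℝ) ≤ n)])).1
    filter_upwards [h1] with t ht
    obtain ⟨n, hn⟩ := exists_nat_gt |t|
    exact ht n ⟨by linarith [neg_abs_le t], by linarith [le_abs_self t]⟩

end Pool.Agent.RLT40
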