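import Pool.Agent.RLT40.GNa
import Pool.Agent.RLT40.GNb
import Pool.Agent.RLT40.GNc2
import Pool.Agent.RLT40.OdeA

/-!
# Modules GN1, GN2, GN3 (paper 2.A5): the one-state problem.

GN1 `gn_exists`: maximise `Xi` on `{En ≤ 1, Om ≤ 1}` (scale `f → f/sqrt En`, shift `f(·-a)`: `Om → e^{2a}Om`, `Xi → e^{2γa/(1+γ)}Xi`; the quotient `Xi^{1+γ}/(Om^γ En²)` is invariant).
`f(x)² ≤ En`, Hölder 1/2: Arzela-Ascoli on compacts (diagonal sequence), derivative: weak `L²` limit (WeakDual.isSeqCompact_closedBall in `L²(ℝ)`, or ultrafilter), lower semicontinuity of `En`, `Om` (Fatou);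
tails: `x < -T`: `∫|f|^{2p'} e^{2γx/(1+γ)} ≤ e^{-2γT/(1+γ)}∫f²`; `x > T`: `≤ ∫ f² e^{2γx/(1+γ)} ≤ e^{-T}∫ωf²` (`|f| ≤ 1`).  Replace `f` by `|f|`.
GN2 `gn_bubble`: first variation in direction `η` (H1om): `(1+γ)2p' ∫f^{2p'-1}e^{..}η/Xi = 2γ∫ωfη/Om + 2·2∫(f'η'+fη)/En`, i.e. weakly `-f'' + f + e ω f = λ (f² e^{2γx})^{1/(1+γ)} f`, `e = γEn/(2Om)`, `λ = (2+γ)En/(2Xi)`;
shift so that `e = 1`, scale so that `Om = 1/(2π²)`; `C₁ = K(γ/2)^γ(2/(2+γ))^{2+γ}`, `K` the optimal constant.  `C²` regularity (du Bois-Reymond), positivity by ODE uniqueness.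
one-state: Hölder `∫Uf² ≤ J^{1/p}Xi^{1/p'}`; `(eOm + En)^p ≤ J K Om^γ En²`; `x = eOm/En`: `e^γ ≤ JK x^γ/(1+x)^p`, maximum at `x = γ/2`.  Members of `H10 a b` are in H1om.
GN3 asymptotics: `t → +∞`: `q = g/f`, `q' = 1+ω-U-q²`, `f ∈ L²(ω)` positive: `q → -∞`, `q/e^t → -1` (barriers `-(1±ε)e^t`), `U → 0`.  `t → -∞`: `q → 1` (`q' = 1+ω-U-q²`, `f ∈ L²` excludes `q ≤ -1+`), `f ≤ Ce^t`
(`∫(U+|1-q|) < ∞`), `A = ½e^t(f-g)`, `A' = ½e^t(U-ω)f`, `|A| ≤ Ce^{4t}` with `U ≤ C e^{2t}`.
-/

open MeasureTheory Set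
open scoped ENNReal NNReal

namespace Pool.Agent.RLT40

/-- the weak Euler-Lagrange equation -/
theorem GNc_weak {γ : ℝ} (hγ : 0 < γ) {f g : ℝ → ℝ} (hf : H1om f) (h0 : ∀ x, 0 ≤ f x) (hX : 0 < XiF γ f)
    (hO : 0 < OmF f) (hE : 0 < EnF f)
    (hmax : ∀ h : ℝ → ℝ, H1om h → XiF γ h ^ (1 + γ) * (OmF f ^ γ * EnF f ^ 2) ≤ XiF γ f ^ (1 + γ) * (OmF h ^ γ * EnF h ^ 2))
    (hg : MemLp g 2 volume) (had : ∀ᵐ x, HasDerivAt f (g x) x) (hc : Continuous f) {a b : ℝ} {η : ℝ → ℝ} (hη : η ∈ H10 a b) :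
    ∫ x, (g x * deriv η x + (1 + γ * EnF f / (2 * OmF f) * om x -
      (2 + γ) * EnF f / (2 * XiF γ f) * (f x ^ (2 / (1 + γ)) * Real.exp (2 * γ * x / (1 + γ)))) * f x * η x) = 0 := by
  set X := XiF γ f with hXd
  set O := OmF f with hOd
  set E := EnF f with hEd
  set P := 2 * (2 + γ) / (1 + γ) with hP
  have hg1 : (1 + γ) ≠ 0 := by linarith
  have hP1 : P - 1 = 2 / (1 + γ) + 1 := by rw [hP]; field_simp; ring
  set X1 := ∫ x, f x ^ (P - 1) * Real.exp (2 * γ * x / (1 + γ)) * η x with hX1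
  set O1 := ∫ x, om x * f x * η x with hO1
  set E1 := ∫ x, (deriv f x * deriv η x + f x * η x) with hE1
  have key := GNc_calc (γ := γ) (X := X) (Om := O) (En := E) (X1 := P * X1) (O1 := O1) (E1 := E1) (O2 := OmF η) (E2 := EnF η)
    hX hO hE (by
      intro s hs1 hs2 hs3
      have h1 := hmax _ (GNc_H1om hf hη s)
      rw [GNc_Om hf hη s, GNc_En hf hη s] at h1
      refine le_trans ?_ h1
      refine mul_le_mul_of_nonneg_right ?_ (by positivity)
      exact Real.rpow_le_rpow hs1.le (GNc_Xi hγ hf h0 hX hη s) (by linarith))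
  have h2 : E1 + γ * E / (2 * O) * O1 - (2 + γ) * E / (2 * X) * X1 = 0 := by
    have h3 : (1 + γ) * (P * X1) / X = 2 * (2 + γ) * X1 / X := by rw [hP]; field_simp
    rw [h3] at key
    have hX' := hX.ne'
    have hO' := hO.ne'
    have hE' := hE.ne'
    field_simp at key ⊢
    linear_combination (-1/2 : ℝ) * key
  have hcη := H10_continuous hη
  have ho := GNc_om_cont
  have c1 : Continuous fun x => f x ^ (P - 1) := hc.rpow_const fun x => Or.inr (by rw [hP1]; positivity)
  have i1 : Integrable (fun x => deriv f x * deriv η x + f x * η x) := by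
    have hdf : MemLp (deriv f) 2 volume := hg.ae_eq (had.mono fun x hx => hx.deriv.symm)
    exact (hdf.integrable_mul (H10_deriv_memLp hη)).add (hf.1.integrable_mul (GNc_memLp_H10 hη))
  have i2 : Integrable (fun x => om x * f x * η x) := GNc_int hη (by fun_prop)
  have i3 : Integrable (fun x => f x ^ (P - 1) * Real.exp (2 * γ * x / (1 + γ)) * η x) := GNc_int hη (c1.mul (by fun_prop))
  rw [← h2, hE1, hO1, hX1, ← integral_const_mul, ← integral_const_mul, ← integral_add i1 (i2.const_mul _)]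
  have i12 : Integrable (fun x => deriv f x * deriv η x + f x * η x + γ * E / (2 * O) * (om x * f x * η x)) :=
    i1.add (i2.const_mul _)
  rw [← integral_sub i12 (i3.const_mul _)]
  refine integral_congr_ae ?_
  filter_upwards [had] with x hx
  have h4 : f x ^ (P - 1) = f x ^ (2 / (1 + γ)) * f x := by
    rw [hP1]
    exact Real.rpow_add_one' (h0 x) (by positivity)
  simp only [hx.deriv, h4]
  ring

/-- GN2b: Euler-Lagrange equation, regularity, normalisation (everything in `Bubble` except the asymptotics) -/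
theorem gn_euler {γ : ℝ} (hγ : 0 < γ) (hγ1 : γ ≤ 1) :
    ∃ (C₁ : ℝ) (f g U : ℝ → ℝ), 0 < C₁ ∧ OneState γ C₁ ∧ Sol (fun x => 1 - U x + om x) f g ∧ (∀ x, 0 < f x) ∧ (∀ x, 0 < U x) ∧ Continuous U ∧
      (∀ x, (2 + γ) * C₁ * U x ^ (1 + γ) = 2 * Real.pi ^ 2 * γ * f x ^ 2 * Real.exp (2 * γ * x)) ∧
      MemLp f 2 volume ∧ MemLp g 2 volume ∧ Integrable (fun x => om x * f x ^ 2) ∧ (∫ x, om x * f x ^ 2 = 1 / (2 * Real.pi ^ 2)) ∧
      Integrable (fun x => U x ^ (2 + γ) * Real.exp (-(2 * γ * x))) ∧ (C₁ * ∫ x, U x ^ (2 + γ) * Real.exp (-(2 * γ * x)) = 1) := by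
  obtain ⟨f, hf, h0, hX, hO, hE, hmax⟩ := gn_exists hγ hγ1
  obtain ⟨g, hg, hfg, had, hc⟩ := GNc_data hf
  have hg1 : 0 < 1 + γ := by linarith
  have hweak : ∀ a b : ℝ, a < b → ∀ η ∈ H10 a b, ∫ x, (g x * deriv η x + (1 + γ * EnF f / (2 * OmF f) * om x -
      (2 + γ) * EnF f / (2 * XiF γ f) * (f x ^ (2 / (1 + γ)) * Real.exp (2 * γ * x / (1 + γ)))) * f x * η x) = 0 :=
    fun a b _ η hη => GNc_weak hγ hf h0 hX hO hE hmax hg had hc hη
  -- the one-state constant
  set X := XiF γ f with hXd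
  set O := OmF f with hOd
  set E := EnF f with hEd
  set K := X ^ (1 + γ) / (O ^ γ * E ^ 2) with hK
  have hK0 : 0 < K := by positivity
  have hone := oneState_of_gn hγ hγ1 hK0 (by
    intro h hh
    have h1 := hmax h hh
    rw [hK, div_mul_eq_mul_div, le_div_iff₀ (by positivity)]
    exact h1)
  set C₁ := K * (γ / 2) ^ γ * (2 / (2 + γ)) ^ (2 + γ) with hC₁
  have hC0 : 0 < C₁ := by positivity
  set e := γ * E / (2 * O) with he
  set lam := (2 + γ) * E / (2 * X) with hlam
  have he0 : 0 < e := by positivity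
  have hlam0 : 0 < lam := by positivity
  set w : ℝ → ℝ := fun x => Real.exp (2 * γ * x / (1 + γ)) with hw
  have hw0 : ∀ x, 0 < w x := fun x => Real.exp_pos _
  have hwc : Continuous w := by rw [hw]; fun_prop
  set V : ℝ → ℝ := fun x => 1 + e * om x - lam * (f x ^ (2 / (1 + γ)) * w x) with hV
  have cfp : Continuous fun x => f x ^ (2 / (1 + γ)) := hc.rpow_const fun x => Or.inr (by positivity)
  have hVc : Continuous V := by
    have := GNc_om_cont
    rw [hV]; fun_prop
  obtain ⟨G, hfd, hGd, hgG⟩ := GNc_regular (f := f) (g := g) (Φ := fun x => V x * f x) hg hfg (hVc.mul hc) hweak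
  have hsol : Sol V f G := ⟨hfd, hGd⟩
  have hne : ∃ x, f x ≠ 0 := by
    by_contra hcon
    push Not at hcon
    have : OmF f = 0 := by
      unfold OmF
      simp [hcon]
    exact hO.ne' this
  have hpos : ∀ x, 0 < f x := by
    intro x
    rcases (h0 x).eq_or_lt with h1 | h1
    · exfalso
      refine hsol.deriv_ne_zero hVc hne h1.symm ?_
      have hmin : IsLocalMin f x := Filter.Eventually.of_forall fun y => by rw [← h1]; exact h0 y
      exact hmin.hasDerivAt_eq_zero (hfd x)
    · exact h1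
  -- scaling
  set a : ℝ := -(Real.log e / 2) with ha
  have hexp : Real.exp (2 * a) = 1 / e := by
    rw [ha, show 2 * -(Real.log e / 2) = -Real.log e by ring, Real.exp_neg, Real.exp_log he0, one_div]
  have hom : ∀ x, om (x + a) = om x / e := by
    intro x
    unfold om
    rw [show 2 * (x + a) = 2 * x + 2 * a by ring, Real.exp_add, hexp]
    ring
  set κ : ℝ := Real.sqrt (1 / (Real.pi ^ 2 * γ * E)) with hκ
  have hκ2 : κ ^ 2 = 1 / (Real.pi ^ 2 * γ * E) := Real.sq_sqrt (by positivity)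
  have hκ0 : 0 < κ := Real.sqrt_pos.2 (by positivity)
  set F : ℝ → ℝ := fun x => κ * f (x + a) with hF
  set G' : ℝ → ℝ := fun x => κ * G (x + a) with hG'
  set U : ℝ → ℝ := fun x => lam * (f (x + a) ^ (2 / (1 + γ)) * w (x + a)) with hU
  -- the constant identity
  have hconst : C₁ * lam ^ (1 + γ) * Real.exp (2 * γ * a) = 2 / ((2 + γ) * E) := by
    have h2a : Real.exp (2 * γ * a) = (1 / e) ^ γ := by
      rw [← hexp, ← Real.exp_mul]; congr 1; ring
    rw [h2a]
    have l1 : 0 < C₁ * lam ^ (1 + γ) * (1 / e) ^ γ := by positivity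
    have l2 : 0 < 2 / ((2 + γ) * E) := by positivity
    refine Real.log_injOn_pos (mem_Ioi.2 l1) (mem_Ioi.2 l2) ?_
    have hX' := hX.ne'
    have hO' := hO.ne'
    have hE' := hE.ne'
    have h2g : (2 + γ) ≠ 0 := by linarith
    have hlogC : Real.log C₁ = (1 + γ) * Real.log X - γ * Real.log O - 2 * Real.log E + γ * (Real.log γ - Real.log 2)
        + (2 + γ) * (Real.log 2 - Real.log (2 + γ)) := by
      rw [hC₁, hK, Real.log_mul (by positivity) (by positivity), Real.log_mul (by positivity) (by positivity),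
        Real.log_div (by positivity) (by positivity), Real.log_mul (by positivity) (by positivity), Real.log_rpow hX,
        Real.log_rpow hO, Real.log_pow, Real.log_rpow (by positivity), Real.log_rpow (by positivity),
        Real.log_div hγ.ne' (by norm_num), Real.log_div (by norm_num) h2g]
      push_cast
      ring
    have hloglam : Real.log lam = Real.log (2 + γ) + Real.log E - Real.log 2 - Real.log X := by
      rw [hlam, Real.log_div (by positivity) (by positivity), Real.log_mul h2g hE', Real.log_mul (by norm_num) hX']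
      ring
    have hloge : Real.log e = Real.log γ + Real.log E - Real.log 2 - Real.log O := by
      rw [he, Real.log_div (by positivity) (by positivity), Real.log_mul hγ.ne' hE', Real.log_mul (by norm_num) hO']
      ring
    have hR : Real.log (2 / ((2 + γ) * E)) = Real.log 2 - (Real.log (2 + γ) + Real.log E) := by
      rw [Real.log_div (by norm_num) (by positivity), Real.log_mul h2g hE']
    rw [hR, Real.log_mul (by positivity) (by positivity), Real.log_mul (by positivity) (by positivity), Real.log_rpow hlam0,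
      Real.log_rpow (by positivity), one_div, Real.log_inv, hlogC, hloglam, hloge]
    ring
  have hw1 : ∀ x, w (x + a) ^ (1 + γ) = Real.exp (2 * γ * x) * Real.exp (2 * γ * a) := by
    intro x
    rw [hw]
    simp only
    rw [← Real.exp_mul, ← Real.exp_add]
    congr 1
    field_simp
  have hUp : ∀ x, U x ^ (1 + γ) = lam ^ (1 + γ) * (f (x + a) ^ 2 * (Real.exp (2 * γ * x) * Real.exp (2 * γ * a))) := by
    intro x
    have hp := hpos (x + a)
    rw [hU]
    simp only
    rw [Real.mul_rpow hlam0.le (by positivity), Real.mul_rpow (by positivity) (hw0 _).le, hw1, ← Real.rpow_mul hp.le,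
      div_mul_cancel₀ _ hg1.ne', Real.rpow_two]
  have hUpos : ∀ x, 0 < U x := fun x => by
    have hp := hpos (x + a)
    have := hw0 (x + a)
    rw [hU]; positivity
  have hmp := measurePreserving_add_right (volume : Measure ℝ) a
  have hFm : MemLp F 2 volume := (hf.1.comp_measurePreserving hmp).const_mul κ
  have hGm : MemLp G' 2 volume := ((hg.ae_eq hgG).comp_measurePreserving hmp).const_mul κ
  have homF : ∀ x, om x * F x ^ 2 = κ ^ 2 * e * (om (x + a) * f (x + a) ^ 2) := by
    intro x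
    rw [hom, hF]
    field_simp
  have i1 : Integrable (fun x => om x * F x ^ 2) := by
    have := (hf.2.1.comp_add_right a).const_mul (κ ^ 2 * e)
    refine this.congr (Filter.Eventually.of_forall fun x => ?_)
    simp only [homF x]
  have i0 : Integrable (fun x => |f x| ^ (2 * (2 + γ) / (1 + γ)) * Real.exp (2 * γ * x / (1 + γ))) := by
    by_contra h
    have : XiF γ f = 0 := by rw [XiF, integral_undef h]
    exact hX.ne' this
  have hUJ : ∀ x, U x ^ (2 + γ) * Real.exp (-(2 * γ * x)) =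
      lam ^ (2 + γ) * Real.exp (2 * γ * a) * (|f (x + a)| ^ (2 * (2 + γ) / (1 + γ)) * Real.exp (2 * γ * (x + a) / (1 + γ))) := by
    intro x
    have hp := hpos (x + a)
    rw [abs_of_pos hp, hU]
    simp only
    rw [Real.mul_rpow hlam0.le (by positivity), Real.mul_rpow (by positivity) (hw0 _).le, ← Real.rpow_mul hp.le,
      show 2 / (1 + γ) * (2 + γ) = 2 * (2 + γ) / (1 + γ) by ring]
    have h5 : w (x + a) ^ (2 + γ) * Real.exp (-(2 * γ * x)) = Real.exp (2 * γ * a) * Real.exp (2 * γ * (x + a) / (1 + γ)) := by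
      rw [hw]
      simp only
      rw [← Real.exp_mul, ← Real.exp_add, ← Real.exp_add]
      congr 1
      field_simp
      ring
    calc _ = lam ^ (2 + γ) * f (x + a) ^ (2 * (2 + γ) / (1 + γ)) * (w (x + a) ^ (2 + γ) * Real.exp (-(2 * γ * x))) := by ring
      _ = _ := by rw [h5]; ring
  refine ⟨C₁, F, G', U, hC0, hone, ⟨fun x => ?_, fun x => ?_⟩, fun x => ?_, hUpos, ?_, fun x => ?_, hFm, hGm, i1, ?_, ?_, ?_⟩
  · have := (hfd (x + a)).comp_add_const x a
    exact this.const_mul κ
  · have := ((hGd (x + a)).comp_add_const x a).const_mul κ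
    refine this.congr_deriv ?_
    simp only [hV, hU, hF]
    rw [hom]
    field_simp
    ring
  · have hp := hpos (x + a)
    rw [hF]; positivity
  · rw [hU]
    have c1 : Continuous fun x : ℝ => x + a := by fun_prop
    exact continuous_const.mul ((cfp.comp c1).mul (hwc.comp c1))
  · rw [hUp, hF]
    simp only
    rw [mul_pow, hκ2]
    have h6 : (2 + γ) * C₁ * (lam ^ (1 + γ) * (f (x + a) ^ 2 * (Real.exp (2 * γ * x) * Real.exp (2 * γ * a)))) =
        (2 + γ) * (C₁ * lam ^ (1 + γ) * Real.exp (2 * γ * a)) * (f (x + a) ^ 2 * Real.exp (2 * γ * x)) := by ring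
    rw [h6, hconst]
    have hE' := hE.ne'
    field_simp
  · have h7 : ∫ x, om x * F x ^ 2 = κ ^ 2 * e * O := by
      rw [integral_congr_ae (Filter.Eventually.of_forall homF), integral_const_mul,
        integral_add_right_eq_self (fun x => om x * f x ^ 2) a]
      rfl
    rw [h7, hκ2, he]
    have hE' := hE.ne'
    have hO' := hO.ne'
    field_simp
  · have := (i0.comp_add_right a).const_mul (lam ^ (2 + γ) * Real.exp (2 * γ * a))
    refine this.congr (Filter.Eventually.of_forall fun x => ?_)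
    simp only [hUJ x]
  · have h8 : ∫ x, U x ^ (2 + γ) * Real.exp (-(2 * γ * x)) = lam ^ (2 + γ) * Real.exp (2 * γ * a) * X := by
      rw [integral_congr_ae (Filter.Eventually.of_forall hUJ), integral_const_mul,
        integral_add_right_eq_self (fun x => |f x| ^ (2 * (2 + γ) / (1 + γ)) * Real.exp (2 * γ * x / (1 + γ))) a]
      rfl
    rw [h8]
    have h9 : lam ^ (2 + γ) = lam ^ (1 + γ) * lam := by
      rw [← Real.rpow_add_one hlam0.ne']; congr 1; ring
    rw [h9]
    have h10 : C₁ * (lam ^ (1 + γ) * lam * Real.exp (2 * γ * a) * X) = (C₁ * lam ^ (1 + γ) * Real.exp (2 * γ * a)) * (lam * X) := by ring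
    rw [h10, hconst, hlam]
    have hX' := hX.ne'
    have hE' := hE.ne'
    field_simp

end Pool.Agent.RLT40
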