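import Pool.Agent.RLT40.GNDef
import Pool.Agent.RLT40.SpaceA

/-!
# Auxiliary lemmas for module GNc (Euler-Lagrange equation of the one-state problem)
-/

open MeasureTheory Set
open scoped ENNReal NNReal

namespace Pool.Agent.RLT40

theorem GNc_data {f : ℝ → ℝ} (hf : H1om f) :
    ∃ g : ℝ → ℝ, MemLp g 2 volume ∧ (∀ x y, f y - f x = ∫ t in x..y, g t) ∧ (∀ᵐ x, HasDerivAt f (g x) x) ∧
      Continuous f := by
  obtain ⟨_, _, g, hg, hfg⟩ := hf
  have e : f = fun x => f 0 + ∫ t in (0:ℝ)..x, g t := funext fun x => by rw [← hfg 0 x]; ring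
  refine ⟨g, hg, hfg, ?_, ?_⟩
  · have h := LocallyIntegrable.ae_hasDerivAt_integral (hg.locallyIntegrable (by norm_num))
    filter_upwards [h] with x hx
    rw [e]
    exact (hx 0).const_add _
  · rw [e]
    exact continuous_const.add (intervalIntegral.continuous_primitive (fun x y => SpaceA_ii hg x y) 0)

theorem GNc_memLp_H10 {a b : ℝ} {η : ℝ → ℝ} (hη : η ∈ H10 a b) : MemLp η 2 volume := by
  have hc := H10_continuous hη
  have hs : HasCompactSupport η := HasCompactSupport.intro (isCompact_Icc (a := a) (b := b))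
    (fun x hx => H10_zero hη fun h => hx (Ioo_subset_Icc_self h))
  exact hc.memLp_of_hasCompactSupport hs

/-- products of continuous functions with a member of `H10` are integrable -/
theorem GNc_int {a b : ℝ} {η h : ℝ → ℝ} (hη : η ∈ H10 a b) (hh : Continuous h) : Integrable (fun x => h x * η x) := by
  have hc := H10_continuous hη
  refine (hh.mul hc).integrable_of_hasCompactSupport ?_
  refine HasCompactSupport.intro (isCompact_Icc (a := a) (b := b)) fun x hx => ?_
  change h x * η x = 0
  rw [H10_zero hη fun h => hx (Ioo_subset_Icc_self h), mul_zero]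

theorem GNc_om_cont : Continuous om := by unfold om; fun_prop

theorem GNc_H1om {a b : ℝ} {f η : ℝ → ℝ} (hf : H1om f) (hη : η ∈ H10 a b) (s : ℝ) : H1om (fun x => f x + s * η x) := by
  obtain ⟨g, hg, hfg, had, hc⟩ := GNc_data hf
  have hcη := H10_continuous hη
  refine ⟨hf.1.add ((GNc_memLp_H10 hη).const_mul s), ?_, fun x => g x + s * deriv η x, hg.add ((H10_deriv_memLp hη).const_mul s), ?_⟩
  · have i1 := hf.2.1
    have i2 : Integrable (fun x => (2 * s * om x * f x + s ^ 2 * om x * η x) * η x) :=
      GNc_int hη (by have := GNc_om_cont; fun_prop)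
    refine (i1.add i2).congr (Filter.Eventually.of_forall fun x => ?_)
    simp only [Pi.add_apply]; ring
  · intro x y
    rw [intervalIntegral.integral_add (SpaceA_ii hg x y) ((SpaceA_ii (H10_deriv_memLp hη) x y).const_mul s),
      intervalIntegral.integral_const_mul, H10_integral hη, ← hfg x y]
    ring

theorem GNc_Om {a b : ℝ} {f η : ℝ → ℝ} (hf : H1om f) (hη : η ∈ H10 a b) (s : ℝ) :
    OmF (fun x => f x + s * η x) = OmF f + 2 * s * (∫ x, om x * f x * η x) + s ^ 2 * OmF η := by
  obtain ⟨g, hg, hfg, had, hc⟩ := GNc_data hf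
  have ho := GNc_om_cont
  have hcη := H10_continuous hη
  have i1 := hf.2.1
  have i2 : Integrable (fun x => om x * f x * η x) := GNc_int hη (by fun_prop)
  have i3 : Integrable (fun x => om x * η x ^ 2) := by
    refine (GNc_int hη (h := fun x => om x * η x) (by fun_prop)).congr (Filter.Eventually.of_forall fun x => ?_)
    simp only; ring
  have i12 : Integrable (fun x => om x * f x ^ 2 + 2 * s * (om x * f x * η x)) := i1.add (i2.const_mul _)
  unfold OmF
  rw [← integral_const_mul, ← integral_const_mul, ← integral_add i1 (i2.const_mul _),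
    ← integral_add i12 (i3.const_mul _)]
  congr 1
  funext x
  ring

theorem GNc_En {a b : ℝ} {f η : ℝ → ℝ} (hf : H1om f) (hη : η ∈ H10 a b) (s : ℝ) :
    EnF (fun x => f x + s * η x) = EnF f + 2 * s * (∫ x, (deriv f x * deriv η x + f x * η x)) + s ^ 2 * EnF η := by
  obtain ⟨g, hg, hfg, had, hc⟩ := GNc_data hf
  have hcη := H10_continuous hη
  have hdf : MemLp (deriv f) 2 volume := hg.ae_eq (had.mono fun x hx => hx.deriv.symm)
  have hdη := H10_deriv_memLp hη
  have hfm := hf.1
  have hηm := GNc_memLp_H10 hη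
  have i1 : Integrable (fun x => deriv f x ^ 2 + f x ^ 2) := hdf.integrable_sq.add hfm.integrable_sq
  have i2 : Integrable (fun x => deriv f x * deriv η x + f x * η x) := (hdf.integrable_mul hdη).add (hfm.integrable_mul hηm)
  have i3 : Integrable (fun x => deriv η x ^ 2 + η x ^ 2) := hdη.integrable_sq.add hηm.integrable_sq
  have i12 : Integrable (fun x => deriv f x ^ 2 + f x ^ 2 + 2 * s * (deriv f x * deriv η x + f x * η x)) :=
    i1.add (i2.const_mul _)
  unfold EnF
  rw [← integral_const_mul, ← integral_const_mul, ← integral_add i1 (i2.const_mul _),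
    ← integral_add i12 (i3.const_mul _)]
  refine integral_congr_ae ?_
  filter_upwards [had, H10_ae_deriv hη] with x h1 h2
  have h3 : deriv (fun x => f x + s * η x) x = deriv f x + s * deriv η x := by
    rw [h1.deriv]
    exact (h1.add (h2.const_mul s)).deriv
  simp only [h3]
  ring

/-- convexity inequality for `|a+b|^P` -/
theorem GNc_convex {P a b : ℝ} (hP : 1 < P) (ha : 0 ≤ a) : a ^ P + P * a ^ (P - 1) * b ≤ |a + b| ^ P := by
  rcases ha.eq_or_lt with h0 | h0
  · rw [← h0, Real.zero_rpow (by linarith), Real.zero_rpow (by linarith)]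
    simp only [mul_zero, zero_mul, zero_add, add_zero]
    positivity
  · have h1 : a ^ P = a ^ (P - 1) * a := by
      rw [← Real.rpow_add_one h0.ne']; congr 1; ring
    rcases le_or_gt 0 (a + b) with h | h
    · have h2 := one_add_mul_self_le_rpow_one_add (s := b / a) (by rw [le_div_iff₀ h0]; linarith) hP.le
      have h3 : (a + b) ^ P = a ^ P * (1 + b / a) ^ P := by
        rw [← Real.mul_rpow h0.le]
        · congr 1; field_simp
        · have : 1 + b / a = (a + b) / a := by field_simp
          rw [this]; positivity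
      rw [abs_of_nonneg h, h3]
      have h4 : a ^ P + P * a ^ (P - 1) * b = a ^ P * (1 + P * (b / a)) := by
        rw [h1]; field_simp
      rw [h4]
      exact mul_le_mul_of_nonneg_left h2 (by positivity)
    · have h5 : a ^ P + P * a ^ (P - 1) * b ≤ 0 := by
        rw [h1]
        have : P * b ≤ - a := by nlinarith
        nlinarith [Real.rpow_pos_of_pos h0 (P - 1)]
      exact h5.trans (by positivity)

theorem GNc_Xi {γ : ℝ} (hγ : 0 < γ) {a b : ℝ} {f η : ℝ → ℝ} (hf : H1om f) (h0 : ∀ x, 0 ≤ f x) (hXi : 0 < XiF γ f)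
    (hη : η ∈ H10 a b) (s : ℝ) :
    XiF γ f + s * (2 * (2 + γ) / (1 + γ) * ∫ x, f x ^ (2 * (2 + γ) / (1 + γ) - 1) * Real.exp (2 * γ * x / (1 + γ)) * η x) ≤
      XiF γ (fun x => f x + s * η x) := by
  obtain ⟨g, hg, hfg, had, hc⟩ := GNc_data hf
  have hcη := H10_continuous hη
  set P := 2 * (2 + γ) / (1 + γ) with hP
  have hP1 : 1 < P := by rw [hP, lt_div_iff₀ (by linarith)]; linarith
  set w : ℝ → ℝ := fun x => Real.exp (2 * γ * x / (1 + γ)) with hw
  have hwc : Continuous w := by rw [hw]; fun_prop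
  have hw0 : ∀ x, 0 < w x := fun x => Real.exp_pos _
  have i1 : Integrable (fun x => |f x| ^ P * w x) := by
    by_contra h
    rw [XiF, integral_undef h] at hXi
    exact lt_irrefl _ hXi
  have c1 : Continuous fun x => f x ^ (P - 1) := hc.rpow_const fun x => Or.inr (by linarith)
  have i2 : Integrable (fun x => f x ^ (P - 1) * w x * η x) := GNc_int hη (c1.mul hwc)
  have c2 : Continuous fun x => |f x + s * η x| ^ P * w x - |f x| ^ P * w x := by
    refine Continuous.sub (Continuous.mul ?_ hwc) (Continuous.mul ?_ hwc)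
    · exact (by fun_prop : Continuous fun x => |f x + s * η x|).rpow_const fun x => Or.inr (by linarith)
    · exact (by fun_prop : Continuous fun x => |f x|).rpow_const fun x => Or.inr (by linarith)
  have i3 : Integrable (fun x => |f x + s * η x| ^ P * w x - |f x| ^ P * w x) := by
    refine c2.integrable_of_hasCompactSupport (HasCompactSupport.intro (isCompact_Icc (a := a) (b := b)) fun x hx => ?_)
    rw [H10_zero hη fun h => hx (Ioo_subset_Icc_self h)]
    simp
  have i4 : Integrable (fun x => |f x + s * η x| ^ P * w x) := by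
    refine (i3.add i1).congr (Filter.Eventually.of_forall fun x => ?_)
    simp only [Pi.add_apply]; ring
  unfold XiF
  rw [← mul_assoc, ← integral_const_mul, ← integral_add i1 (i2.const_mul _)]
  refine integral_mono (i1.add (i2.const_mul _)) i4 fun x => ?_
  simp only
  have h1 := GNc_convex (b := s * η x) hP1 (h0 x)
  rw [abs_of_nonneg (h0 x)]
  have h2 := mul_le_mul_of_nonneg_right h1 (hw0 x).le
  calc _ = (f x ^ P + P * f x ^ (P - 1) * (s * η x)) * w x := by ring
    _ ≤ _ := h2

/-- calculus: a maximum of a quotient -/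
theorem GNc_calc {γ X Om En X1 O1 E1 O2 E2 : ℝ} (hX : 0 < X) (hO : 0 < Om) (hE : 0 < En)
    (h : ∀ s : ℝ, 0 < X + s * X1 → 0 < Om + 2 * s * O1 + s ^ 2 * O2 → 0 < En + 2 * s * E1 + s ^ 2 * E2 →
      (X + s * X1) ^ (1 + γ) * (Om ^ γ * En ^ 2) ≤
        X ^ (1 + γ) * ((Om + 2 * s * O1 + s ^ 2 * O2) ^ γ * (En + 2 * s * E1 + s ^ 2 * E2) ^ 2)) :
    (1 + γ) * X1 / X = 2 * γ * O1 / Om + 4 * E1 / En := by
  set φ : ℝ → ℝ := fun s => (1 + γ) * Real.log (X + s * X1) - γ * Real.log (Om + 2 * s * O1 + s ^ 2 * O2)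
    - 2 * Real.log (En + 2 * s * E1 + s ^ 2 * E2) with hφ
  have d1 : HasDerivAt (fun s : ℝ => X + s * X1) X1 0 := by
    simpa using ((hasDerivAt_id (0:ℝ)).mul_const X1).const_add X
  have d2 : ∀ A B C : ℝ, HasDerivAt (fun s : ℝ => A + 2 * s * B + s ^ 2 * C) (2 * B) 0 := by
    intro A B C
    have e1 := (((hasDerivAt_id (0:ℝ)).const_mul 2).mul_const B).const_add A
    have e2 := ((hasDerivAt_id (0:ℝ)).pow 2).mul_const C
    have := e1.add e2
    refine this.congr_deriv ?_
    simp
  have hd : HasDerivAt φ ((1 + γ) * (X1 / X) - γ * (2 * O1 / Om) - 2 * (2 * E1 / En)) 0 := by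
    have e1 := (d1.log (by simpa using hX.ne')).const_mul (1 + γ)
    have e2 := ((d2 Om O1 O2).log (by simpa using hO.ne')).const_mul γ
    have e3 := ((d2 En E1 E2).log (by simpa using hE.ne')).const_mul 2
    have := (e1.sub e2).sub e3
    refine this.congr_deriv ?_
    simp
  have c1 : ∀ᶠ s in nhds (0:ℝ), 0 < X + s * X1 :=
    d1.continuousAt.eventually (lt_mem_nhds (by simpa using hX))
  have c2 : ∀ᶠ s in nhds (0:ℝ), 0 < Om + 2 * s * O1 + s ^ 2 * O2 :=
    (d2 Om O1 O2).continuousAt.eventually (lt_mem_nhds (by simpa using hO))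
  have c3 : ∀ᶠ s in nhds (0:ℝ), 0 < En + 2 * s * E1 + s ^ 2 * E2 :=
    (d2 En E1 E2).continuousAt.eventually (lt_mem_nhds (by simpa using hE))
  have hmax : IsLocalMax φ 0 := by
    filter_upwards [c1, c2, c3] with s h1 h2 h3
    have h4 := h s h1 h2 h3
    have h5 := Real.log_le_log (by positivity) h4
    rw [Real.log_mul (by positivity) (by positivity), Real.log_mul (by positivity) (by positivity),
      Real.log_mul (by positivity) (by positivity), Real.log_mul (by positivity) (by positivity),
      Real.log_rpow h1, Real.log_rpow hO, Real.log_rpow hX, Real.log_rpow h2, Real.log_pow, Real.log_pow] at h5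
    push_cast at h5
    simp only [hφ, zero_mul, mul_zero, add_zero]
    have h6 : (0:ℝ) ^ 2 * O2 = 0 := by ring
    have h7 : (0:ℝ) ^ 2 * E2 = 0 := by ring
    rw [h6, h7]
    simp only [add_zero]
    linarith
  have := hmax.hasDerivAt_eq_zero hd
  have e1 : (1 + γ) * X1 / X = (1 + γ) * (X1 / X) := by ring
  have e2 : 2 * γ * O1 / Om = γ * (2 * O1 / Om) := by ring
  have e3 : 4 * E1 / En = 2 * (2 * E1 / En) := by ring
  rw [e1, e2, e3]
  linarith

end Pool.Agent.RLT40
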