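import Pool.Agent.RLT40.HarmDefs

/-!
# Modules HARM1, HARM2 (paper 2.A3): spherical harmonics on `S³`.

`HarmPoly l` : real harmonic homogeneous polynomial functions of degree `l` on `ℝ⁴`.
HARM1 `finrank_harm_le`: `dim ≤ (l+1)²`: a harmonic homogeneous polynomial is determined by its restriction and the restriction of its `x₃`-derivative to `{x₃ = 0}`
(`C(l+2,2) + C(l+1,2) = (l+1)²`).
`harm_orth`: for `l ≠ m`: `∫_S p q = 0` (Green on the ball, or: `∫ (p Δq - q Δp) g(|x|) dx = 0` and Euler `x·∇p = l p`: with `g` a radial test function,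
`0 = ∫ g (pΔq - qΔp) = -∫ g'(|x|)/|x| (p x·∇q - q x·∇p) = -(m-l)∫ g'/|x| p q`, polar coordinates).
HARM2 `harm_dense`: finite sums of harmonic polynomials restricted to the sphere are dense in `C(S³)`: Stone-Weierstrass for polynomials, and every homogeneous polynomial `p` of degree `l` is on the
sphere a sum of harmonic ones: `T q = Δ(|x|²q)` on degree `l-2` is injective (if `Δ(|x|²q) = 0`, then `h = |x|²q` is harmonic of degree `l`, and by induction `h = q` on the sphere is a sum of harmonics of
degree `≤ l-2`, orthogonal to `h`, so `h = 0`), hence onto: `Δp = Δ(|x|²q)`, `p = (p - |x|²q) + |x|²q`.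
-/

open MeasureTheory Set
open scoped ENNReal NNReal

namespace Pool.Agent.RLT40

theorem sph_univ : sph univ = ENNReal.ofReal (2 * Real.pi ^ 2) := by
  unfold sph
  rw [Measure.toSphere_apply_univ, EuclideanSpace.volume_ball]
  have hfr : Module.finrank ℝ (En 4) = 4 := by simp [En]
  have hcard : Fintype.card (Fin 4) = 4 := by simp
  rw [hfr, hcard]
  have hG : Real.Gamma (((4 : ℕ) : ℝ) / 2 + 1) = 2 := by
    have : (((4 : ℕ) : ℝ) / 2 + 1) = ((2 : ℕ) : ℝ) + 1 := by norm_num
    rw [this, Real.Gamma_nat_eq_factorial]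
    norm_num
  rw [hG]
  have hpi : Real.sqrt Real.pi ^ 4 = Real.pi ^ 2 := by
    have : Real.sqrt Real.pi ^ 4 = (Real.sqrt Real.pi ^ 2) ^ 2 := by ring
    rw [this, Real.sq_sqrt Real.pi_pos.le]
  rw [hpi, ENNReal.ofReal_one, one_pow, one_mul]
  have h4 : ((4 : ℕ) : ℝ≥0∞) = ENNReal.ofReal 4 := by simp
  rw [h4, ← ENNReal.ofReal_mul (by norm_num)]
  congr 1
  ring

namespace HarmAux

open MvPolynomial Finsupp

/-- the exponents of degree `l` with last exponent at most one -/
noncomputable def expo (l : ℕ) : Finset (Fin 4 →₀ ℕ) :=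
  (Finset.univ.finsuppAntidiag l).filter fun d => d 3 ≤ 1

theorem degree_eq (d : Fin 4 →₀ ℕ) : d.degree = d 0 + d 1 + d 2 + d 3 := by
  rw [Finsupp.degree_eq_sum, Fin.sum_univ_four]

theorem mem_expo {l : ℕ} {d : Fin 4 →₀ ℕ} : d ∈ expo l ↔ d.degree = l ∧ d 3 ≤ 1 := by
  unfold expo
  rw [Finset.mem_filter, Finset.mem_finsuppAntidiag, degree_eq, Fin.sum_univ_four]
  constructor
  · rintro ⟨⟨h, _⟩, h'⟩
    exact ⟨h, h'⟩
  · rintro ⟨h, h'⟩
    exact ⟨⟨h, Finset.subset_univ _⟩, h'⟩

theorem card_expo (l : ℕ) : (expo l).card ≤ (l + 1) ^ 2 := by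
  have hc : (Finset.range (l + 1) ×ˢ Finset.range (l + 1)).card = (l + 1) ^ 2 := by
    rw [Finset.card_product, Finset.card_range]
    ring
  rw [← hc]
  refine Finset.card_le_card_of_injOn
    (fun d => if d 3 = 0 then (d 0, d 1) else (l - d 0, l - d 1)) ?_ ?_
  · intro d hd
    rw [Finset.mem_coe, mem_expo, degree_eq] at hd
    simp only [Finset.coe_product, Finset.coe_range, Set.mem_prod, Set.mem_Iio]
    split_ifs <;> simp only <;> omega
  · intro d hd d' hd' h
    rw [Finset.mem_coe, mem_expo, degree_eq] at hd hd'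
    have key : d 0 = d' 0 ∧ d 1 = d' 1 ∧ d 3 = d' 3 := by
      simp only at h
      split_ifs at h with h1 h2 h2
      · rw [Prod.mk.injEq] at h; omega
      · rw [Prod.mk.injEq] at h; omega
      · rw [Prod.mk.injEq] at h; omega
      · rw [Prod.mk.injEq] at h; omega
    ext i
    fin_cases i
    · exact key.1
    · exact key.2.1
    · show d 2 = d' 2
      omega
    · exact key.2.2

theorem coeff_plap (p : MvPolynomial (Fin 4) ℝ) (m : Fin 4 →₀ ℕ) :
    coeff m (plap p) = ∑ i, coeff (m + single i 1 + single i 1) p * ((m i : ℝ) + 1 + 1) *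
      ((m i : ℝ) + 1) := by
  unfold plap
  rw [LinearMap.sum_apply, coeff_sum]
  refine Finset.sum_congr rfl fun i _ => ?_
  simp only [LinearMap.comp_apply, Derivation.coeFn_coe, coeff_pderiv]
  simp

/-- a harmonic homogeneous polynomial is determined by its coefficients with last exponent `≤ 1` -/
theorem coeff_vanish {l : ℕ} {p : MvPolynomial (Fin 4) ℝ} (hp : p ∈ HarmPoly l)
    (h : ∀ d ∈ expo l, coeff d p = 0) : ∀ (k : ℕ) (d : Fin 4 →₀ ℕ), d 3 = k → coeff d p = 0 := by
  have hhom : p.IsHomogeneous l := hp.1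
  have hlap : plap p = 0 := hp.2
  intro k
  induction k using Nat.strong_induction_on with
  | _ k ih =>
  intro d hd
  by_cases hdeg : d.degree = l
  · rcases Nat.lt_or_ge k 2 with hk | hk
    · exact h d (mem_expo.2 ⟨hdeg, by omega⟩)
    · set m : Fin 4 →₀ ℕ := d - single 3 2 with hm
      have hdm : d = m + single 3 1 + single 3 1 := by
        ext i
        simp only [hm, Finsupp.add_apply, Finsupp.tsub_apply, Finsupp.single_apply]
        split_ifs with h1
        · subst h1; omega
        · omega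
      have hm3 : m 3 = k - 2 := by
        simp only [hm, Finsupp.tsub_apply, Finsupp.single_apply, if_true, hd]
      have hc := coeff_plap p m
      rw [hlap, MvPolynomial.coeff_zero] at hc
      rw [Fin.sum_univ_four] at hc
      have e0 : coeff (m + single 0 1 + single 0 1) p = 0 :=
        ih (k - 2) (by omega) _ (by simp [hm3])
      have e1 : coeff (m + single 1 1 + single 1 1) p = 0 :=
        ih (k - 2) (by omega) _ (by simp [hm3])
      have e2 : coeff (m + single 2 1 + single 2 1) p = 0 :=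
        ih (k - 2) (by omega) _ (by simp [hm3])
      rw [e0, e1, e2, ← hdm] at hc
      simp only [zero_mul, zero_add] at hc
      have hpos : ((m 3 : ℝ) + 1 + 1) ≠ 0 := by positivity
      have hpos' : ((m 3 : ℝ) + 1) ≠ 0 := by positivity
      rcases mul_eq_zero.1 hc.symm with h1 | h1
      · rcases mul_eq_zero.1 h1 with h2 | h2
        · exact h2
        · exact absurd h2 hpos
      · exact absurd h1 hpos'
  · exact hhom.coeff_eq_zero hdeg

/-- the coefficients with last exponent `≤ 1` -/
noncomputable def coeffMap (l : ℕ) : HarmPoly l →ₗ[ℝ] (expo l → ℝ) :=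
  LinearMap.pi fun d => (lcoeff ℝ d.1) ∘ₗ (HarmPoly l).subtype

theorem coeffMap_injective (l : ℕ) : Function.Injective (coeffMap l) := by
  rw [← LinearMap.ker_eq_bot, LinearMap.ker_eq_bot']
  rintro ⟨p, hp⟩ h
  have h1 : ∀ d ∈ expo l, coeff d p = 0 := by
    intro d hd
    exact congrFun h ⟨d, hd⟩
  have h2 : p = 0 := by
    ext d
    rw [MvPolynomial.coeff_zero]
    exact coeff_vanish hp h1 (d 3) d rfl
  exact Subtype.ext h2

end HarmAux

theorem finrank_harm_le (l : ℕ) : FiniteDimensional ℝ (HarmPoly l) ∧ Module.finrank ℝ (HarmPoly l) ≤ (l + 1) ^ 2 := by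
  have hinj := HarmAux.coeffMap_injective l
  have hfd : FiniteDimensional ℝ (HarmPoly l) := FiniteDimensional.of_injective _ hinj
  refine ⟨hfd, ?_⟩
  have h1 := LinearMap.finrank_le_finrank_of_injective hinj
  rw [Module.finrank_fintype_fun_eq_card, Fintype.card_coe] at h1
  exact h1.trans (HarmAux.card_expo l)

end Pool.Agent.RLT40
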