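import Pool.Agent.RLT40.HarmDefs

/-!
# Modules HARM1, HARM2 (paper 2.A3): spherical harmonics on `S³`.

`HarmPoly l` : real harmonic homogeneous polynomial functions of degree `l` on `ℝ⁴`.
HARM1 `finrank_harm_le`: `dim ≤ (l+1)²`: a harmonic homogeneous polynomial is determined by its restriction and the restriction of its `x₃`-derivative to `{x₃ = 0}`
(`C(l+2,2) + C(l+1,2) = (l+1)²`).
`harm_orth`: for `l ≠ m`: `∫_S p q = 0` (Green on the ball, or: `∫ (p Δq - q Δp) g(|x|) dx = 0` and Euler `x·∇p = l p`: with `g` a radial test function,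
`0 = ∫ g (pΔq - qΔp) = -∫ g'(|x|)/|x| (p x·∇q - q x·∇p) = -(m-l)∫ g'/|x| p q`, polar coordinates).
HARM2 `harm_dense`: finite sums of harmonic polynomials restricted to the sphere are dense in `C(S³)`: Stone-Weierstrass for polynomials, and every homogeneous polynomial `p` of degree `l` is on the
sphere a sum of harmonic ones: `T q = Δ(|x|²q)` on degree `l-2` is injective (if `Δ(|x|²q) = 0`, then `h = |x|²q` is harmonic of degree `l`, and by induction `h = q` on the sphere is a sum of harmonics of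
degree `≤ l-2`, orthogonal to `h`, so `h = 0`), hence onto: `Δp = Δ(|x|²q)`, `p = (p - |x|²q) + |x|²q`.
-/

open MeasureTheory Set
open scoped ENNReal NNReal

namespace Pool.Agent.RLT40

open MvPolynomial

theorem HarmB_ev_add (p q : MvPolynomial (Fin 4) ℝ) (x : En 4) :
    ev (p + q) x = ev p x + ev q x := by simp [ev]

theorem HarmB_ev_sub (p q : MvPolynomial (Fin 4) ℝ) (x : En 4) :
    ev (p - q) x = ev p x - ev q x := by simp [ev]

theorem HarmB_ev_mul (p q : MvPolynomial (Fin 4) ℝ) (x : En 4) :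
    ev (p * q) x = ev p x * ev q x := by simp [ev]

theorem HarmB_ev_X (i : Fin 4) (x : En 4) : ev (X i) x = x i := by simp [ev]

theorem HarmB_ev_C (a : ℝ) (x : En 4) : ev (C a) x = a := by simp [ev]

theorem HarmB_ev_zero (x : En 4) : ev 0 x = 0 := by simp [ev]

theorem HarmB_ev_sum {ι : Type} (s : Finset ι) (p : ι → MvPolynomial (Fin 4) ℝ) (x : En 4) :
    ev (∑ i ∈ s, p i) x = ∑ i ∈ s, ev (p i) x := by simp [ev]

/-- the derivative of a polynomial function -/
noncomputable def HarmB_dev (p : MvPolynomial (Fin 4) ℝ) (x : En 4) : En 4 →L[ℝ] ℝ :=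
  ∑ i, ev (pderiv i p) x • (EuclideanSpace.proj i : En 4 →L[ℝ] ℝ)

theorem HarmB_hasFDerivAt (p : MvPolynomial (Fin 4) ℝ) (x : En 4) :
    HasFDerivAt (ev p) (HarmB_dev p x) x := by
  induction p using MvPolynomial.induction_on with
  | C a =>
    have h1 : ev (C a) = fun _ => a := by ext y; simp [ev]
    have h2 : HarmB_dev (C a) x = 0 := by simp [HarmB_dev, ev]
    rw [h1, h2]
    exact hasFDerivAt_const a x
  | add p q hp hq =>
    have h1 : ev (p + q) = fun y => ev p y + ev q y := by ext y; simp [ev]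
    have h2 : HarmB_dev (p + q) x = HarmB_dev p x + HarmB_dev q x := by
      simp only [HarmB_dev, map_add, HarmB_ev_add, add_smul, Finset.sum_add_distrib]
    rw [h1, h2]
    exact hp.add hq
  | mul_X p i hp =>
    have h1 : ev (p * X i) = fun y => ev p y * (EuclideanSpace.proj i : En 4 →L[ℝ] ℝ) y := by
      ext y; simp [ev]
    have h2 : HarmB_dev (p * X i) x = ev p x • (EuclideanSpace.proj i : En 4 →L[ℝ] ℝ) +
        ((EuclideanSpace.proj i : En 4 →L[ℝ] ℝ) x) • HarmB_dev p x := by
      simp only [HarmB_dev, Derivation.leibniz, smul_eq_mul, HarmB_ev_add, HarmB_ev_mul, HarmB_ev_X,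
        add_smul, Finset.sum_add_distrib, Finset.smul_sum, smul_smul]
      congr 1
      rw [Finset.sum_eq_single i]
      · simp [ev]
      · intro j _ hj
        rw [pderiv_X_of_ne (Ne.symm hj), HarmB_ev_zero, mul_zero, zero_smul]
      · intro h; exact absurd (Finset.mem_univ i) h
    rw [h1, h2]
    exact hp.mul (EuclideanSpace.proj i : En 4 →L[ℝ] ℝ).hasFDerivAt

theorem HarmB_fderiv (p : MvPolynomial (Fin 4) ℝ) (x : En 4) (i : Fin 4) :
    fderiv ℝ (ev p) x (EuclideanSpace.single i 1) = ev (pderiv i p) x := by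
  rw [(HarmB_hasFDerivAt p x).fderiv, HarmB_dev]
  simp only [_root_.sum_apply, _root_.smul_apply, PiLp.proj_apply,
    smul_eq_mul, PiLp.single_apply]
  simp

theorem HarmB_continuous (p : MvPolynomial (Fin 4) ℝ) : Continuous (ev p) :=
  continuous_iff_continuousAt.mpr fun x => (HarmB_hasFDerivAt p x).continuousAt

/-- the Gaussian -/
noncomputable def HarmB_g (x : En 4) : ℝ := Real.exp (-(‖x‖ ^ 2) / 2)

theorem HarmB_g_hasFDerivAt (x : En 4) :
    HasFDerivAt HarmB_g (HarmB_g x • (-(1 / 2 : ℝ)) • ((2 : ℝ) • innerSL ℝ x)) x := by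
  have h1 : HasFDerivAt (fun y : En 4 => ‖y‖ ^ 2) ((2 : ℝ) • innerSL ℝ x) x := by
    have h0 := (hasStrictFDerivAt_norm_sq x).hasFDerivAt
    have e : (2 : ℝ) • innerSL ℝ x = (2 : ℕ) • innerSL ℝ x := by
      rw [← Nat.cast_smul_eq_nsmul ℝ]; norm_num
    rw [e]
    exact h0
  have h2 : HasFDerivAt (fun y : En 4 => -(1 / 2 : ℝ) • ‖y‖ ^ 2)
      ((-(1 / 2 : ℝ)) • ((2 : ℝ) • innerSL ℝ x)) x := h1.const_smul (-(1 / 2 : ℝ))
  have h3 := h2.exp
  have h4 : HarmB_g = fun y : En 4 => Real.exp (-(1 / 2 : ℝ) • ‖y‖ ^ 2) := by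
    ext y
    unfold HarmB_g
    congr 1
    simp only [smul_eq_mul]
    ring
  rw [h4]
  exact h3

theorem HarmB_g_fderiv (x : En 4) (i : Fin 4) :
    fderiv ℝ HarmB_g x (EuclideanSpace.single i 1) = -(x i * HarmB_g x) := by
  rw [(HarmB_g_hasFDerivAt x).fderiv]
  simp only [_root_.smul_apply, innerSL_apply_apply, smul_eq_mul]
  have : inner ℝ x (EuclideanSpace.single i (1 : ℝ)) = x i := by
    rw [EuclideanSpace.inner_single_right]
    simp
  rw [this]
  ring

theorem HarmB_g_pos (x : En 4) : 0 < HarmB_g x := Real.exp_pos _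

theorem HarmB_g_continuous : Continuous HarmB_g :=
  continuous_iff_continuousAt.mpr fun x => (HarmB_g_hasFDerivAt x).continuousAt

theorem HarmB_int_norm (k : ℕ) : Integrable (fun x : En 4 => ‖x‖ ^ k * HarmB_g x) := by
  have h1 := (integrable_fun_norm_addHaar (E := En 4) (volume : Measure (En 4))
    (f := fun r : ℝ => r ^ k * Real.exp (-(r ^ 2) / 2))).mpr
  apply h1
  have h2 := (integrable_rpow_mul_exp_neg_mul_sq (b := 1 / 2) (by norm_num)
    (s := ((k + 3 : ℕ) : ℝ)) (by push_cast; linarith [(Nat.cast_nonneg k : (0 : ℝ) ≤ k)])).integrableOn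
    (s := Ioi 0)
  refine h2.congr_fun ?_ measurableSet_Ioi
  intro y _
  have hd : Module.finrank ℝ (En 4) - 1 = 3 := by simp
  simp only [hd, smul_eq_mul, Real.rpow_natCast]
  rw [← mul_assoc, ← pow_add, add_comm 3 k]
  congr 2
  ring

theorem HarmB_integrable (p : MvPolynomial (Fin 4) ℝ) :
    Integrable (fun x : En 4 => ev p x * HarmB_g x) := by
  induction p using MvPolynomial.induction_on' with
  | monomial u a =>
    refine ((HarmB_int_norm (∑ i, u i)).const_mul |a|).mono'
      ((HarmB_continuous _).mul HarmB_g_continuous).aestronglyMeasurable ?_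
    filter_upwards with x
    rw [norm_mul, Real.norm_eq_abs, Real.norm_eq_abs, abs_of_pos (HarmB_g_pos x), ← mul_assoc]
    apply mul_le_mul_of_nonneg_right _ (HarmB_g_pos x).le
    unfold ev
    rw [eval_monomial, abs_mul]
    apply mul_le_mul_of_nonneg_left _ (abs_nonneg a)
    rw [Finsupp.prod_fintype _ _ (by simp), Finset.abs_prod, ← Finset.prod_pow_eq_pow_sum]
    apply Finset.prod_le_prod
    · intro i _; positivity
    · intro i _
      rw [abs_pow]
      have h1 : |x i| ≤ ‖x‖ := by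
        have := PiLp.norm_apply_le x i
        simpa using this
      exact pow_le_pow_left₀ (abs_nonneg _) h1 _
  | add p q hp hq =>
    have : (fun x : En 4 => ev (p + q) x * HarmB_g x) =
        fun x => ev p x * HarmB_g x + ev q x * HarmB_g x := by
      ext x; rw [HarmB_ev_add, add_mul]
    rw [this]
    exact hp.add hq

/-- Gaussian integral of a polynomial -/
noncomputable def HarmB_G (p : MvPolynomial (Fin 4) ℝ) : ℝ := ∫ x : En 4, ev p x * HarmB_g x

theorem HarmB_G_add (p q : MvPolynomial (Fin 4) ℝ) : HarmB_G (p + q) = HarmB_G p + HarmB_G q := by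
  unfold HarmB_G
  rw [← integral_add (HarmB_integrable p) (HarmB_integrable q)]
  congr 1
  ext x
  rw [HarmB_ev_add, add_mul]

theorem HarmB_G_sub (p q : MvPolynomial (Fin 4) ℝ) : HarmB_G (p - q) = HarmB_G p - HarmB_G q := by
  unfold HarmB_G
  rw [← integral_sub (HarmB_integrable p) (HarmB_integrable q)]
  congr 1
  ext x
  rw [HarmB_ev_sub, sub_mul]

theorem HarmB_G_sum {ι : Type} (s : Finset ι) (p : ι → MvPolynomial (Fin 4) ℝ) :
    HarmB_G (∑ i ∈ s, p i) = ∑ i ∈ s, HarmB_G (p i) := by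
  unfold HarmB_G
  rw [← integral_finsetSum _ (fun i _ => HarmB_integrable (p i))]
  congr 1
  ext x
  rw [HarmB_ev_sum, Finset.sum_mul]

theorem HarmB_G_smul (a : ℝ) (p : MvPolynomial (Fin 4) ℝ) : HarmB_G (C a * p) = a * HarmB_G p := by
  unfold HarmB_G
  rw [← integral_const_mul]
  congr 1
  ext x
  rw [HarmB_ev_mul, HarmB_ev_C, mul_assoc]

theorem HarmB_G_zero : HarmB_G 0 = 0 := by
  unfold HarmB_G
  simp [HarmB_ev_zero]

theorem HarmB_G_X (i : Fin 4) (p : MvPolynomial (Fin 4) ℝ) :
    HarmB_G (X i * p) = HarmB_G (pderiv i p) := by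
  have h1 := integral_mul_fderiv_eq_neg_fderiv_mul_of_integrable (μ := (volume : Measure (En 4)))
    (f := ev p) (g := HarmB_g) (v := EuclideanSpace.single i 1)
    (by
      have := HarmB_integrable (pderiv i p)
      simpa only [HarmB_fderiv] using this)
    (by
      have := (HarmB_integrable (X i * p)).neg
      refine this.congr (Filter.Eventually.of_forall fun x => ?_)
      simp only [HarmB_g_fderiv, HarmB_ev_mul, HarmB_ev_X, Pi.neg_apply]
      ring)
    (HarmB_integrable p)
    (fun x _ => (HarmB_hasFDerivAt p x).differentiableAt)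
    (fun x _ => (HarmB_g_hasFDerivAt x).differentiableAt)
  simp only [HarmB_fderiv, HarmB_g_fderiv] at h1
  unfold HarmB_G
  have h2 : ∫ x : En 4, ev p x * -(x i * HarmB_g x) = -∫ x : En 4, ev (X i * p) x * HarmB_g x := by
    rw [← integral_neg]
    congr 1
    ext x
    rw [HarmB_ev_mul, HarmB_ev_X]
    ring
  rw [h2] at h1
  linarith

theorem HarmB_G_orth {l m : ℕ} (hlm : l ≠ m) {p q : MvPolynomial (Fin 4) ℝ} (hp : p ∈ HarmPoly l)
    (hq : q ∈ HarmPoly m) : HarmB_G (p * q) = 0 := by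
  obtain ⟨hp1, hp2⟩ := Submodule.mem_inf.mp hp
  obtain ⟨hq1, hq2⟩ := Submodule.mem_inf.mp hq
  rw [mem_homogeneousSubmodule] at hp1 hq1
  rw [LinearMap.mem_ker] at hp2 hq2
  have lap : ∀ r : MvPolynomial (Fin 4) ℝ, plap r = ∑ i, pderiv i (pderiv i r) := by
    intro r
    simp [plap]
  have h1 : ∑ i : Fin 4, HarmB_G (X i * (p * pderiv i q - q * pderiv i p)) = 0 := by
    simp only [HarmB_G_X]
    rw [← HarmB_G_sum]
    have : ∑ i : Fin 4, pderiv i (p * pderiv i q - q * pderiv i p) = p * plap q - q * plap p := by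
      rw [lap, lap, Finset.mul_sum, Finset.mul_sum, ← Finset.sum_sub_distrib]
      apply Finset.sum_congr rfl
      intro i _
      simp only [map_sub, Derivation.leibniz, smul_eq_mul]
      ring
    rw [this, hp2, hq2]
    simp [HarmB_G_zero]
  have h2 : ∑ i : Fin 4, HarmB_G (X i * (p * pderiv i q - q * pderiv i p)) =
      ((m : ℝ) - l) * HarmB_G (p * q) := by
    rw [← HarmB_G_sum]
    have : ∑ i : Fin 4, X i * (p * pderiv i q - q * pderiv i p) =
        p * ∑ i : Fin 4, X i * pderiv i q - q * ∑ i : Fin 4, X i * pderiv i p := by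
      rw [Finset.mul_sum, Finset.mul_sum, ← Finset.sum_sub_distrib]
      apply Finset.sum_congr rfl
      intro i _
      ring
    rw [this, hp1.sum_X_mul_pderiv, hq1.sum_X_mul_pderiv]
    have e : p * m • q - q * l • p = C ((m : ℝ) - l) * (p * q) := by
      rw [C_sub, map_natCast, map_natCast, nsmul_eq_mul, nsmul_eq_mul]
      ring
    rw [e, HarmB_G_smul]
  rw [h1] at h2
  have h3 : (m : ℝ) - l ≠ 0 := by
    intro h
    apply hlm
    have : (m : ℝ) = l := by linarith
    exact_mod_cast this.symm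
  rcases mul_eq_zero.mp h2.symm with h | h
  · exact absurd h h3
  · exact h

/-- polar coordinates for separated functions -/
theorem HarmB_polar (F : En 4 → ℝ) (a : Metric.sphere (0 : En 4) 1 → ℝ) (b : ℝ → ℝ)
    (hF : ∀ (s : Metric.sphere (0 : En 4) 1) (r : ℝ), 0 < r → F (r • (s : En 4)) = a s * b r) :
    ∫ x, F x = (∫ s, a s ∂sph) * ∫ r : Ioi (0 : ℝ), b r ∂(Measure.volumeIoiPow 3) := by
  have hd : Module.finrank ℝ (En 4) - 1 = 3 := by simp
  calc ∫ x, F x = ∫ x : ({(0)}ᶜ : Set (En 4)), F x ∂((volume : Measure (En 4)).comap (↑)) := by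
        rw [integral_subtype_comap (measurableSet_singleton _).compl F, restrict_compl_singleton]
    _ = ∫ x : ({(0)}ᶜ : Set (En 4)), (fun y : Metric.sphere (0 : En 4) 1 × Ioi (0 : ℝ) =>
          a y.1 * b y.2) (homeomorphUnitSphereProd (En 4) x) ∂((volume : Measure (En 4)).comap (↑)) := by
        congr 1
        ext x
        have hx : (x : En 4) ≠ 0 := x.2
        have h1 := hF (homeomorphUnitSphereProd (En 4) x).1 (homeomorphUnitSphereProd (En 4) x).2
          (homeomorphUnitSphereProd (En 4) x).2.2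
        change F ↑x = a (homeomorphUnitSphereProd (En 4) x).1 *
          b ↑(homeomorphUnitSphereProd (En 4) x).2
        rw [← h1]
        congr 1
        have hn : ‖(x : En 4)‖ ≠ 0 := norm_ne_zero_iff.mpr hx
        simp [smul_smul, hn]
    _ = ∫ y : Metric.sphere (0 : En 4) 1 × Ioi (0 : ℝ), a y.1 * b y.2
          ∂((volume : Measure (En 4)).toSphere.prod (Measure.volumeIoiPow 3)) := by
        have := (volume : Measure (En 4)).measurePreserving_homeomorphUnitSphereProd
        rw [hd] at this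
        exact this.integral_comp (Homeomorph.measurableEmbedding _)
          (fun y : Metric.sphere (0 : En 4) 1 × Ioi (0 : ℝ) => a y.1 * b y.2)
    _ = _ := integral_prod_mul a (fun r : Ioi (0 : ℝ) => b r)

/-- the radial factor -/
noncomputable def HarmB_c (k : ℕ) : ℝ :=
  ∫ r : Ioi (0 : ℝ), ((r : ℝ) ^ k * Real.exp (-((r : ℝ) ^ 2) / 2)) ∂(Measure.volumeIoiPow 3)

theorem HarmB_norm_smul (s : Metric.sphere (0 : En 4) 1) (r : ℝ) (hr : 0 < r) :
    ‖r • (s : En 4)‖ = r := by
  rw [norm_smul, norm_eq_of_mem_sphere, mul_one, Real.norm_eq_abs, abs_of_pos hr]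

theorem HarmB_c_ne (k : ℕ) : HarmB_c k ≠ 0 := by
  intro h
  have h1 := HarmB_polar (fun x : En 4 => ‖x‖ ^ k * HarmB_g x) (fun _ => 1)
    (fun r => r ^ k * Real.exp (-(r ^ 2) / 2)) (by
      intro s r hr
      simp only [HarmB_g, HarmB_norm_smul s r hr, one_mul])
  have h2 : ∫ r : Ioi (0 : ℝ), ((r : ℝ) ^ k * Real.exp (-((r : ℝ) ^ 2) / 2))
      ∂(Measure.volumeIoiPow 3) = 0 := h
  rw [h2, mul_zero] at h1
  have h3 : 0 < ∫ x : En 4, ‖x‖ ^ k * HarmB_g x := by
    rw [integral_pos_iff_support_of_nonneg _ (HarmB_int_norm k)]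
    · have hsub : Metric.ball (EuclideanSpace.single (0 : Fin 4) (1 : ℝ)) 1 ⊆
          Function.support (fun x : En 4 => ‖x‖ ^ k * HarmB_g x) := by
        intro x hx
        rw [Function.mem_support]
        apply ne_of_gt
        apply mul_pos _ (HarmB_g_pos x)
        apply pow_pos
        rw [norm_pos_iff]
        rintro rfl
        rw [Metric.mem_ball, dist_zero_left] at hx
        simp at hx
      exact lt_of_lt_of_le (Metric.measure_ball_pos _ _ one_pos) (measure_mono hsub)
    · intro x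
      exact mul_nonneg (pow_nonneg (norm_nonneg _) _) (HarmB_g_pos x).le
  rw [h1] at h3
  exact lt_irrefl _ h3

theorem HarmB_ev_smul {k : ℕ} {p : MvPolynomial (Fin 4) ℝ} (hp : p.IsHomogeneous k) (r : ℝ)
    (x : En 4) : ev p (r • x) = r ^ k * ev p x := by
  unfold ev
  rw [eval_eq', eval_eq', Finset.mul_sum]
  apply Finset.sum_congr rfl
  intro d hd
  have hdeg : ∑ i, d i = k := by
    have := hp (mem_support_iff.mp hd)
    rw [← this]
    simp [Finsupp.weight_apply, Finsupp.sum_fintype]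
  simp only [PiLp.smul_apply, smul_eq_mul, mul_pow, Finset.prod_mul_distrib]
  rw [Finset.prod_pow_eq_pow_sum, hdeg]
  ring

theorem HarmB_G_polar {k : ℕ} {p : MvPolynomial (Fin 4) ℝ} (hp : p.IsHomogeneous k) :
    HarmB_G p = (∫ s, ev p s ∂sph) * HarmB_c k := by
  unfold HarmB_G
  rw [HarmB_polar (fun x => ev p x * HarmB_g x) (fun s => ev p s)
    (fun r => r ^ k * Real.exp (-(r ^ 2) / 2))]
  · rfl
  · intro s r hr
    simp only [HarmB_g, HarmB_norm_smul s r hr, HarmB_ev_smul hp]
    ring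

theorem harm_orth {l m : ℕ} (hlm : l ≠ m) {p q : MvPolynomial (Fin 4) ℝ} (hp : p ∈ HarmPoly l) (hq : q ∈ HarmPoly m) :
    ∫ s, ev p s * ev q s ∂sph = 0 := by
  have h1 := HarmB_G_orth hlm hp hq
  have hp1 := (Submodule.mem_inf.mp hp).1
  have hq1 := (Submodule.mem_inf.mp hq).1
  rw [mem_homogeneousSubmodule] at hp1 hq1
  rw [HarmB_G_polar (hp1.mul hq1)] at h1
  rcases mul_eq_zero.mp h1 with h | h
  · simpa only [HarmB_ev_mul] using h
  · exact absurd h (HarmB_c_ne _)

theorem harm_inj {l : ℕ} {p : MvPolynomial (Fin 4) ℝ} (hp : p ∈ HarmPoly l) (h : ∫ s, ev p s ^ 2 ∂sph = 0) : p = 0 := by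
  have hp1 := (Submodule.mem_inf.mp hp).1
  rw [mem_homogeneousSubmodule] at hp1
  have hc : Continuous (fun s : Metric.sphere (0 : En 4) 1 => ev p s ^ 2) :=
    ((HarmB_continuous p).comp continuous_subtype_val).pow 2
  have hi : Integrable (fun s : Metric.sphere (0 : En 4) 1 => ev p s ^ 2) sph :=
    hc.integrable_of_hasCompactSupport (HasCompactSupport.of_compactSpace _)
  have h1 := (integral_eq_zero_iff_of_nonneg (fun s => sq_nonneg _) hi).mp h
  have h2 : (fun s : Metric.sphere (0 : En 4) 1 => ev p s ^ 2) = fun _ => 0 :=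
    (Continuous.ae_eq_iff_eq sph hc continuous_const).mp h1
  have h3 : ∀ s : Metric.sphere (0 : En 4) 1, ev p s = 0 := fun s =>
    pow_eq_zero_iff (two_ne_zero) |>.mp (congrFun h2 s)
  have h4 : ∀ x : En 4, x ≠ 0 → ev p x = 0 := by
    intro x hx
    have hn : ‖x‖ ≠ 0 := norm_ne_zero_iff.mpr hx
    have h5 := h3 ⟨(‖x‖)⁻¹ • x, by simp [norm_smul, hn]⟩
    have h6 : x = ‖x‖ • ((‖x‖)⁻¹ • x) := by rw [smul_smul, mul_inv_cancel₀ hn, one_smul]
    rw [h6, HarmB_ev_smul hp1]
    simp only at h5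
    rw [h5, mul_zero]
  have h5 : ev p = fun _ => 0 := by
    have hd : Dense ({(0 : En 4)}ᶜ : Set (En 4)) := dense_compl_singleton 0
    exact Continuous.ext_on hd (HarmB_continuous p) continuous_const (fun x hx => h4 x hx)
  apply MvPolynomial.funext
  intro v
  have h6 := congrFun h5 (WithLp.toLp 2 v)
  unfold ev at h6
  simpa using h6

end Pool.Agent.RLT40
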