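import Pool.Agent.RLT40.HarmA
import Pool.Agent.RLT40.HarmB

/-!
# Modules HARM1, HARM2 (paper 2.A3): spherical harmonics on `S³`.

`HarmPoly l` : real harmonic homogeneous polynomial functions of degree `l` on `ℝ⁴`.
HARM1 `finrank_harm_le`: `dim ≤ (l+1)²`: a harmonic homogeneous polynomial is determined by its restriction and the restriction of its `x₃`-derivative to `{x₃ = 0}`
(`C(l+2,2) + C(l+1,2) = (l+1)²`).
`harm_orth`: for `l ≠ m`: `∫_S p q = 0` (Green on the ball, or: `∫ (p Δq - q Δp) g(|x|) dx = 0` and Euler `x·∇p = l p`: with `g` a radial test function,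
`0 = ∫ g (pΔq - qΔp) = -∫ g'(|x|)/|x| (p x·∇q - q x·∇p) = -(m-l)∫ g'/|x| p q`, polar coordinates).
HARM2 `harm_dense`: finite sums of harmonic polynomials restricted to the sphere are dense in `C(S³)`: Stone-Weierstrass for polynomials, and every homogeneous polynomial `p` of degree `l` is on the
sphere a sum of harmonic ones: `T q = Δ(|x|²q)` on degree `l-2` is injective (if `Δ(|x|²q) = 0`, then `h = |x|²q` is harmonic of degree `l`, and by induction `h = q` on the sphere is a sum of harmonics of
degree `≤ l-2`, orthogonal to `h`, so `h = 0`), hence onto: `Δp = Δ(|x|²q)`, `p = (p - |x|²q) + |x|²q`.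
-/

open MeasureTheory Set
open scoped ENNReal NNReal

namespace Pool.Agent.RLT40

namespace HarmAux

open MvPolynomial Finsupp

/-- `p` is, on the sphere, a sum of harmonic polynomials of degrees `< n` -/
def SphSum (n : ℕ) (p : MvPolynomial (Fin 4) ℝ) : Prop :=
  ∃ h : ℕ → MvPolynomial (Fin 4) ℝ, (∀ j, h j ∈ HarmPoly j) ∧
    ∀ s : Metric.sphere (0 : En 4) 1, ev p s = ∑ j ∈ Finset.range n, ev (h j) s

theorem ev_add (p q : MvPolynomial (Fin 4) ℝ) (x : En 4) : ev (p + q) x = ev p x + ev q x := by
  simp [ev]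

theorem ev_mul (p q : MvPolynomial (Fin 4) ℝ) (x : En 4) : ev (p * q) x = ev p x * ev q x := by
  simp [ev]

theorem ev_sub (p q : MvPolynomial (Fin 4) ℝ) (x : En 4) : ev (p - q) x = ev p x - ev q x := by
  simp [ev]

theorem ev_zero (x : En 4) : ev 0 x = 0 := by
  simp [ev]

theorem continuous_ev (p : MvPolynomial (Fin 4) ℝ) : Continuous (ev p) := by
  unfold ev
  have h1 : Continuous fun x : Fin 4 → ℝ => MvPolynomial.eval x p := MvPolynomial.continuous_eval p
  exact h1.comp (by fun_prop)

theorem SphSum.mono {n m : ℕ} {p : MvPolynomial (Fin 4) ℝ} (h : SphSum n p) (hnm : n ≤ m) :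
    SphSum m p := by
  obtain ⟨f, hf, hs⟩ := h
  refine ⟨fun j => if j < n then f j else 0, fun j => ?_, fun s => ?_⟩
  · simp only
    split_ifs
    · exact hf j
    · exact Submodule.zero_mem _
  · rw [hs s]
    have h1 : ∑ j ∈ Finset.range n, ev (f j) s
        = ∑ j ∈ Finset.range n, ev (if j < n then f j else 0) s := by
      refine Finset.sum_congr rfl fun j hj => ?_
      rw [if_pos (Finset.mem_range.1 hj)]
    rw [h1]
    refine Finset.sum_subset (Finset.range_mono hnm) fun j _ hj => ?_
    rw [Finset.mem_range] at hj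
    rw [if_neg hj, ev_zero]

theorem SphSum.add {n : ℕ} {p q : MvPolynomial (Fin 4) ℝ} (h : SphSum n p) (h' : SphSum n q) :
    SphSum n (p + q) := by
  obtain ⟨f, hf, hs⟩ := h
  obtain ⟨f', hf', hs'⟩ := h'
  refine ⟨fun j => f j + f' j, fun j => Submodule.add_mem _ (hf j) (hf' j), fun s => ?_⟩
  rw [ev_add, hs s, hs' s, ← Finset.sum_add_distrib]
  refine Finset.sum_congr rfl fun j _ => ?_
  rw [ev_add]

theorem sphSum_zero (n : ℕ) : SphSum n 0 :=
  ⟨fun _ => 0, fun _ => Submodule.zero_mem _, fun s => by simp [ev_zero]⟩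

theorem sphSum_of_harm {l : ℕ} {p : MvPolynomial (Fin 4) ℝ} (h : p ∈ HarmPoly l) :
    SphSum (l + 1) p := by
  refine ⟨fun j => if j = l then p else 0, fun j => ?_, fun s => ?_⟩
  · simp only
    split_ifs with hj
    · rw [hj]; exact h
    · exact Submodule.zero_mem _
  · rw [Finset.sum_range_succ, Finset.sum_eq_zero, zero_add]
    · simp only [if_true]
    · intro j hj
      rw [Finset.mem_range] at hj
      simp only
      rw [if_neg (by omega), ev_zero]

/-- the polynomial `|x|²` -/
noncomputable def r2 : MvPolynomial (Fin 4) ℝ := ∑ i, X i ^ 2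

theorem r2_hom : r2.IsHomogeneous 2 := by
  unfold r2
  exact IsHomogeneous.sum _ _ _ fun i _ => by
    have := (isHomogeneous_X ℝ i).pow 2
    rwa [one_mul] at this

theorem ev_r2 (s : Metric.sphere (0 : En 4) 1) : ev r2 s = 1 := by
  have h1 : ‖(s : En 4)‖ = 1 := by simpa using s.2
  have h2 := EuclideanSpace.real_norm_sq_eq (s : En 4)
  rw [h1] at h2
  unfold ev r2
  rw [map_sum]
  simp only [map_pow, eval_X]
  rw [← h2]
  norm_num

theorem r2_ne : r2 ≠ 0 := by
  intro h
  have hs : (EuclideanSpace.single 0 1 : En 4) ∈ Metric.sphere (0 : En 4) 1 := by simp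
  have h1 := ev_r2 ⟨_, hs⟩
  rw [h, ev_zero] at h1
  exact zero_ne_one h1

theorem plap_hom {l : ℕ} {p : MvPolynomial (Fin 4) ℝ} (h : p.IsHomogeneous l) :
    (plap p).IsHomogeneous (l - 2) := by
  unfold plap
  rw [LinearMap.sum_apply]
  refine IsHomogeneous.sum _ _ _ fun i _ => ?_
  have h1 := (h.pderiv (i := i)).pderiv (i := i)
  exact h1

instance finite_hom (n : ℕ) : FiniteDimensional ℝ (homogeneousSubmodule (Fin 4) ℝ n) := by
  let f : homogeneousSubmodule (Fin 4) ℝ n →ₗ[ℝ]
      (((Finset.finsuppAntidiag Finset.univ n : Finset (Fin 4 →₀ ℕ))) → ℝ) :=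
    LinearMap.pi fun d => (lcoeff ℝ d.1) ∘ₗ (homogeneousSubmodule (Fin 4) ℝ n).subtype
  refine FiniteDimensional.of_injective f ?_
  rw [← LinearMap.ker_eq_bot, LinearMap.ker_eq_bot']
  rintro ⟨p, hp⟩ h
  have h2 : p = 0 := by
    ext d
    rw [MvPolynomial.coeff_zero]
    by_cases hd : d.degree = n
    · have hmem : d ∈ (Finset.univ.finsuppAntidiag n : Finset (Fin 4 →₀ ℕ)) := by
        rw [Finset.mem_finsuppAntidiag]
        refine ⟨?_, Finset.subset_univ _⟩
        rw [← hd, Finsupp.degree_eq_sum]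
      exact congrFun h ⟨d, hmem⟩
    · exact IsHomogeneous.coeff_eq_zero hp hd
  exact Subtype.ext h2

theorem sphSum_of_hom (l : ℕ) : ∀ p : MvPolynomial (Fin 4) ℝ, p.IsHomogeneous l →
    SphSum (l + 1) p := by
  induction l using Nat.strong_induction_on with
  | _ l ih =>
  intro p hp
  rcases Nat.lt_or_ge l 2 with hl | hl
  · -- degree at most one: harmonic
    apply sphSum_of_harm
    refine ⟨hp, ?_⟩
    show plap p = 0
    ext m
    rw [coeff_plap, MvPolynomial.coeff_zero]
    refine Finset.sum_eq_zero fun i _ => ?_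
    rw [hp.coeff_eq_zero, zero_mul, zero_mul]
    rw [map_add, map_add, Finsupp.degree_single]
    omega
  · -- the operator `q ↦ Δ(|x|² q)`
    have hmem : ∀ q ∈ homogeneousSubmodule (Fin 4) ℝ (l - 2), r2 * q ∈
        homogeneousSubmodule (Fin 4) ℝ l := by
      intro q hq
      have h1 : (r2 * q).IsHomogeneous (2 + (l - 2)) := r2_hom.mul hq
      have e : 2 + (l - 2) = l := by omega
      rwa [e] at h1
    let T : homogeneousSubmodule (Fin 4) ℝ (l - 2) →ₗ[ℝ] homogeneousSubmodule (Fin 4) ℝ (l - 2) :=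
      { toFun := fun q => ⟨plap (r2 * q.1), plap_hom (hmem q.1 q.2)⟩
        map_add' := fun q q' => by
          apply Subtype.ext
          simp [mul_add]
        map_smul' := fun a q => by
          apply Subtype.ext
          simp }
    have hT : Function.Injective T := by
      rw [← LinearMap.ker_eq_bot, LinearMap.ker_eq_bot']
      rintro ⟨q, hq⟩ h0
      have hlap : plap (r2 * q) = 0 := congrArg Subtype.val h0
      have hh : r2 * q ∈ HarmPoly l := ⟨hmem q hq, hlap⟩
      obtain ⟨f, hf, hs⟩ := ih (l - 2) (by omega) q hq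
      have hz : r2 * q = 0 := by
        refine harm_inj hh ?_
        have e1 : ∀ s : Metric.sphere (0 : En 4) 1, ev (r2 * q) s ^ 2 =
            ∑ j ∈ Finset.range (l - 2 + 1), ev (r2 * q) s * ev (f j) s := by
          intro s
          rw [← Finset.mul_sum, ← hs s, sq]
          congr 1
          rw [ev_mul, ev_r2, one_mul]
        simp only [e1]
        rw [integral_finsetSum]
        · refine Finset.sum_eq_zero fun j hj => ?_
          rw [Finset.mem_range] at hj
          exact harm_orth (by omega) hh (hf j)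
        · intro j _
          have hc : Continuous fun s : Metric.sphere (0 : En 4) 1 =>
              ev (r2 * q) s * ev (f j) s :=
            ((continuous_ev _).comp continuous_subtype_val).mul
              ((continuous_ev _).comp continuous_subtype_val)
          exact hc.integrable_of_hasCompactSupport (HasCompactSupport.of_compactSpace _)
      have hq0 : q = 0 := by
        rcases mul_eq_zero.1 hz with h1 | h1
        · exact absurd h1 r2_ne
        · exact h1
      exact Subtype.ext hq0
    have hsurj : Function.Surjective T := LinearMap.surjective_of_injective hT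
    obtain ⟨⟨q, hq⟩, hTq⟩ := hsurj ⟨plap p, plap_hom hp⟩
    have hTq' : plap (r2 * q) = plap p := congrArg Subtype.val hTq
    have hharm : p - r2 * q ∈ HarmPoly l := by
      refine ⟨Submodule.sub_mem _ hp (hmem q hq), ?_⟩
      show plap (p - r2 * q) = 0
      rw [map_sub, hTq', sub_self]
    obtain ⟨f, hf, hs⟩ := ((sphSum_of_harm hharm).add
      ((ih (l - 2) (by omega) q hq).mono (by omega : l - 2 + 1 ≤ l + 1)))
    refine ⟨f, hf, fun s => ?_⟩
    rw [← hs s, ev_add, ev_sub, ev_mul, ev_r2]
    ring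

theorem sphSum_sum {ι : Type} (n : ℕ) (t : Finset ι) (p : ι → MvPolynomial (Fin 4) ℝ)
    (h : ∀ i ∈ t, SphSum n (p i)) : SphSum n (∑ i ∈ t, p i) := by
  classical
  induction t using Finset.induction_on with
  | empty => simpa using sphSum_zero n
  | insert a t ha ih =>
    rw [Finset.sum_insert ha]
    exact (h a (Finset.mem_insert_self _ _)).add (ih fun i hi => h i (Finset.mem_insert_of_mem hi))

theorem sphSum_all (p : MvPolynomial (Fin 4) ℝ) : SphSum (p.totalDegree + 1) p := by
  conv => arg 2; rw [← sum_homogeneousComponent p]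
  refine sphSum_sum _ _ _ fun i hi => ?_
  rw [Finset.mem_range] at hi
  exact (sphSum_of_hom i _ (homogeneousComponent_isHomogeneous i p)).mono (by omega)

/-- the coordinate functions on the sphere -/
noncomputable def coord (i : Fin 4) : C(Metric.sphere (0 : En 4) 1, ℝ) :=
  ⟨fun s => (s : En 4) i, by fun_prop⟩

theorem aeval_coord (p : MvPolynomial (Fin 4) ℝ) (s : Metric.sphere (0 : En 4) 1) :
    (aeval coord p : C(Metric.sphere (0 : En 4) 1, ℝ)) s = ev p s := by
  induction p using MvPolynomial.induction_on with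
  | C a => simp [ev]
  | add p q hp hq => rw [map_add, ContinuousMap.add_apply, hp, hq, ev_add]
  | mul_X p i hp =>
    rw [map_mul, ContinuousMap.mul_apply, hp, ev_mul]
    simp [ev, coord]

end HarmAux

open HarmAux in
/-- HARM2: density in `C(S³)` -/
theorem harm_dense (f : C(Metric.sphere (0 : En 4) 1, ℝ)) {ε : ℝ} (hε : 0 < ε) :
    ∃ (n : ℕ) (p : ℕ → MvPolynomial (Fin 4) ℝ), (∀ l, p l ∈ HarmPoly l) ∧ ∀ s, |f s - ∑ l ∈ Finset.range n, ev (p l) s| ≤ ε := by
  let A : Subalgebra ℝ C(Metric.sphere (0 : En 4) 1, ℝ) := (MvPolynomial.aeval coord).range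
  have hA : A.SeparatesPoints := by
    intro s t hst
    have h1 : ∃ i, (s : En 4) i ≠ (t : En 4) i := by
      by_contra hcon
      push Not at hcon
      apply hst
      apply Subtype.ext
      ext i
      exact hcon i
    obtain ⟨i, hi⟩ := h1
    refine ⟨coord i, ⟨coord i, ?_, rfl⟩, hi⟩
    exact ⟨MvPolynomial.X i, by simp⟩
  obtain ⟨⟨g, hg⟩, hgf⟩ :=
    ContinuousMap.exists_mem_subalgebra_near_continuousMap_of_separatesPoints A hA f ε hε
  obtain ⟨p, hp⟩ := hg
  obtain ⟨h, hh, hs⟩ := sphSum_all p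
  refine ⟨p.totalDegree + 1, h, hh, fun s => ?_⟩
  rw [← hs s, ← aeval_coord]
  have h1 := (ContinuousMap.norm_coe_le_norm (g - f) s).trans hgf.le
  rw [ContinuousMap.sub_apply, Real.norm_eq_abs] at h1
  have h2 : (MvPolynomial.aeval coord p : C(Metric.sphere (0 : En 4) 1, ℝ)) = g := hp
  rw [h2, abs_sub_comm]
  exact h1

end Pool.Agent.RLT40
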