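import Pool.Agent.RLT40.Defs

/-!
# Modules HARM1, HARM2 (paper 2.A3): spherical harmonics on `S³`.

`HarmPoly l` : real harmonic homogeneous polynomial functions of degree `l` on `ℝ⁴`.
HARM1 `finrank_harm_le`: `dim ≤ (l+1)²`: a harmonic homogeneous polynomial is determined by its restriction and the restriction of its `x₃`-derivative to `{x₃ = 0}`
(`C(l+2,2) + C(l+1,2) = (l+1)²`).
`harm_orth`: for `l ≠ m`: `∫_S p q = 0` (Green on the ball, or: `∫ (p Δq - q Δp) g(|x|) dx = 0` and Euler `x·∇p = l p`: with `g` a radial test function,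
`0 = ∫ g (pΔq - qΔp) = -∫ g'(|x|)/|x| (p x·∇q - q x·∇p) = -(m-l)∫ g'/|x| p q`, polar coordinates).
HARM2 `harm_dense`: finite sums of harmonic polynomials restricted to the sphere are dense in `C(S³)`: Stone-Weierstrass for polynomials, and every homogeneous polynomial `p` of degree `l` is on the
sphere a sum of harmonic ones: `T q = Δ(|x|²q)` on degree `l-2` is injective (if `Δ(|x|²q) = 0`, then `h = |x|²q` is harmonic of degree `l`, and by induction `h = q` on the sphere is a sum of harmonics of
degree `≤ l-2`, orthogonal to `h`, so `h = 0`), hence onto: `Δp = Δ(|x|²q)`, `p = (p - |x|²q) + |x|²q`.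
-/

open MeasureTheory Set
open scoped ENNReal NNReal

namespace Pool.Agent.RLT40

/-- evaluation of a polynomial in 4 variables -/
noncomputable def ev (p : MvPolynomial (Fin 4) ℝ) (x : En 4) : ℝ := MvPolynomial.eval (fun i => x i) p

/-- the Laplacian of a polynomial -/
noncomputable def plap : MvPolynomial (Fin 4) ℝ →ₗ[ℝ] MvPolynomial (Fin 4) ℝ :=
  ∑ i, (MvPolynomial.pderiv i).toLinearMap ∘ₗ (MvPolynomial.pderiv i).toLinearMap

/-- harmonic homogeneous polynomials of degree `l` -/
noncomputable def HarmPoly (l : ℕ) : Submodule ℝ (MvPolynomial (Fin 4) ℝ) :=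
  MvPolynomial.homogeneousSubmodule (Fin 4) ℝ l ⊓ LinearMap.ker plap

/-- surface measure of the unit sphere of `ℝ⁴` -/
noncomputable abbrev sph : Measure (Metric.sphere (0 : En 4) 1) := (volume : Measure (En 4)).toSphere

end Pool.Agent.RLT40
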