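import Pool.Agent.RLT40.SpaceC

/-!
# Module IMS (paper 1.6): cutting profile and localisation.
-/

open MeasureTheory Set
open scoped ENNReal NNReal

namespace Pool.Agent.RLT40

theorem ims_sstepd_eq (t : ℝ) : sstepd t = 1 - Real.cos (2 * Real.pi * max 0 (min 1 t)) := by
  unfold sstepd
  split_ifs with h
  · rcases h with h | h
    · rw [max_eq_left ((min_le_right _ _).trans h)]
      simp
    · rw [min_eq_left h, max_eq_right zero_le_one, mul_one, Real.cos_two_pi]
      simp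
  · rw [not_or, not_le, not_le] at h
    rw [min_eq_right h.2.le, max_eq_right h.1.le]

theorem ims_sstep_zero {t : ℝ} (h : t ≤ 0) : sstep t = 0 := by rw [sstep, if_pos h]

theorem ims_sstep_one {t : ℝ} (h : 1 ≤ t) : sstep t = 1 := by
  rw [sstep, if_neg (by linarith), if_pos h]

theorem ims_sstep_mid {t : ℝ} (h0 : 0 ≤ t) (h1 : t ≤ 1) :
    sstep t = t - Real.sin (2 * Real.pi * t) / (2 * Real.pi) := by
  rcases h0.eq_or_lt with h | h
  · subst h; rw [ims_sstep_zero le_rfl]; simp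
  rcases h1.eq_or_lt with h' | h'
  · subst h'; rw [ims_sstep_one le_rfl, mul_one, Real.sin_two_pi]; simp
  · rw [sstep, if_neg (by linarith), if_neg (by linarith)]

theorem ims_sstepd_zero {t : ℝ} (h : t ≤ 0 ∨ 1 ≤ t) : sstepd t = 0 := by rw [sstepd, if_pos h]

theorem ims_sstepd_mid {t : ℝ} (h0 : 0 ≤ t) (h1 : t ≤ 1) :
    sstepd t = 1 - Real.cos (2 * Real.pi * t) := by
  rw [ims_sstepd_eq, min_eq_right h1, max_eq_right h0]

theorem ims_mid_deriv (t : ℝ) :
    HasDerivAt (fun t => t - Real.sin (2 * Real.pi * t) / (2 * Real.pi))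
      (1 - Real.cos (2 * Real.pi * t)) t := by
  have h1 : HasDerivAt (fun t : ℝ => 2 * Real.pi * t) (2 * Real.pi) t := by
    simpa using (hasDerivAt_id t).const_mul (2 * Real.pi)
  have h2 := (hasDerivAt_id t).sub (h1.sin.div_const (2 * Real.pi))
  have h3 : 1 - Real.cos (2 * Real.pi * t) =
      1 - Real.cos (2 * Real.pi * t) * (2 * Real.pi) / (2 * Real.pi) := by
    field_simp
  rw [h3]
  exact h2

theorem sstep_hasDerivAt (t : ℝ) : HasDerivAt sstep (sstepd t) t := by
  have hmid : ∀ {t : ℝ}, 0 ≤ t → t ≤ 1 → HasDerivWithinAt sstep (sstepd t) (Icc 0 1) t := by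
    intro t h0 h1
    rw [ims_sstepd_mid h0 h1]
    refine (ims_mid_deriv t).hasDerivWithinAt.congr (fun x hx => ims_sstep_mid hx.1 hx.2)
      (ims_sstep_mid h0 h1)
  have hlow : ∀ {t : ℝ}, t ≤ 0 → HasDerivWithinAt sstep (sstepd t) (Iic 0) t := by
    intro t h
    rw [ims_sstepd_zero (Or.inl h)]
    exact (hasDerivWithinAt_const t (Iic 0) (0 : ℝ)).congr (fun x hx => ims_sstep_zero hx)
      (ims_sstep_zero h)
  have hhigh : ∀ {t : ℝ}, 1 ≤ t → HasDerivWithinAt sstep (sstepd t) (Ici 1) t := by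
    intro t h
    rw [ims_sstepd_zero (Or.inr h)]
    exact (hasDerivWithinAt_const t (Ici 1) (1 : ℝ)).congr (fun x hx => ims_sstep_one hx)
      (ims_sstep_one h)
  rcases lt_trichotomy t 0 with h | h | h
  · exact (hlow h.le).hasDerivAt (Iic_mem_nhds h)
  · subst h
    have h1 := (hlow (le_refl (0 : ℝ))).union (hmid (le_refl (0 : ℝ)) zero_le_one)
    refine h1.hasDerivAt ?_
    rw [Iic_union_Icc_eq_Iic zero_le_one]
    exact Iic_mem_nhds one_pos
  rcases lt_trichotomy t 1 with h' | h' | h'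
  · exact (hmid h.le h'.le).hasDerivAt (Icc_mem_nhds h h')
  · subst h'
    have h1 := (hmid (zero_le_one (α := ℝ)) le_rfl).union (hhigh (le_refl (1 : ℝ)))
    refine h1.hasDerivAt ?_
    rw [Icc_union_Ici_eq_Ici zero_le_one]
    exact Ici_mem_nhds one_pos
  · exact (hhigh h'.le).hasDerivAt (Ici_mem_nhds h')

theorem sstepd_continuous : Continuous sstepd := by
  have h : sstepd = fun t => 1 - Real.cos (2 * Real.pi * max 0 (min 1 t)) := funext ims_sstepd_eq
  rw [h]
  fun_prop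

theorem sstepd_mem (t : ℝ) : sstepd t ∈ Icc (0 : ℝ) 2 := by
  rw [ims_sstepd_eq]
  have h1 := Real.cos_le_one (2 * Real.pi * max 0 (min 1 t))
  have h2 := Real.neg_one_le_cos (2 * Real.pi * max 0 (min 1 t))
  constructor <;> linarith

theorem th_hasDerivAt {α β ℓ : ℝ} (hℓ : 0 < ℓ) (x : ℝ) : HasDerivAt (th α β ℓ) (thd α β ℓ x) x := by
  have h1 : HasDerivAt (fun x : ℝ => (x - α) / ℓ) (1 / ℓ) x :=
    ((hasDerivAt_id x).sub_const α).div_const ℓ
  have h2 : HasDerivAt (fun x : ℝ => (x - β + ℓ) / ℓ) (1 / ℓ) x :=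
    (((hasDerivAt_id x).sub_const β).add_const ℓ).div_const ℓ
  have h3 := (sstep_hasDerivAt ((x - α) / ℓ)).comp x h1
  have h4 := (sstep_hasDerivAt ((x - β + ℓ) / ℓ)).comp x h2
  have h5 := (h3.sub h4).const_mul (Real.pi / 2)
  have e : thd α β ℓ x = Real.pi / 2 * (sstepd ((x - α) / ℓ) * (1 / ℓ) -
      sstepd ((x - β + ℓ) / ℓ) * (1 / ℓ)) := by
    unfold thd
    field_simp
  rw [e]
  exact h5

theorem thd_continuous {α β ℓ : ℝ} : Continuous (thd α β ℓ) := by
  unfold thd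
  have := sstepd_continuous
  fun_prop

/-- bounds and supports; `O = (α, α+ℓ) ∪ (β-ℓ, β)` are the end zones -/
theorem thd_sq_le {α β ℓ : ℝ} (hℓ : 0 < ℓ) (h : α + 2 * ℓ ≤ β) (x : ℝ) :
    thd α β ℓ x ^ 2 ≤ (Ioo α (α + ℓ) ∪ Ioo (β - ℓ) β).indicator (fun _ => Real.pi ^ 2 / ℓ ^ 2) x := by
  have hz1 : x ∉ Ioo α (α + ℓ) → sstepd ((x - α) / ℓ) = 0 := by
    intro hx
    apply ims_sstepd_zero
    rw [mem_Ioo, not_and_or, not_lt, not_lt] at hx
    rcases hx with hx | hx
    · left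
      exact div_nonpos_of_nonpos_of_nonneg (by linarith) hℓ.le
    · right
      rw [le_div_iff₀ hℓ]; linarith
  have hz2 : x ∉ Ioo (β - ℓ) β → sstepd ((x - β + ℓ) / ℓ) = 0 := by
    intro hx
    apply ims_sstepd_zero
    rw [mem_Ioo, not_and_or, not_lt, not_lt] at hx
    rcases hx with hx | hx
    · left
      exact div_nonpos_of_nonpos_of_nonneg (by linarith) hℓ.le
    · right
      rw [le_div_iff₀ hℓ]; linarith
  have key : ∀ s ∈ Icc (-2 : ℝ) 2, (Real.pi / (2 * ℓ) * s) ^ 2 ≤ Real.pi ^ 2 / ℓ ^ 2 := by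
    intro s hs
    have e : (Real.pi / (2 * ℓ) * s) ^ 2 = Real.pi ^ 2 / ℓ ^ 2 * (s ^ 2 / 4) := by
      field_simp; ring
    rw [e]
    have hs2 : s ^ 2 / 4 ≤ 1 := by
      have := hs.1; have := hs.2; nlinarith
    have hp : 0 ≤ Real.pi ^ 2 / ℓ ^ 2 := by positivity
    nlinarith
  unfold thd
  by_cases h1 : x ∈ Ioo α (α + ℓ)
  · have h2 : x ∉ Ioo (β - ℓ) β := fun h2 => by linarith [h1.2, h2.1]
    rw [indicator_of_mem (show x ∈ Ioo α (α + ℓ) ∪ Ioo (β - ℓ) β from Or.inl h1), hz2 h2, sub_zero]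
    have := sstepd_mem ((x - α) / ℓ)
    exact key _ ⟨by linarith [this.1], this.2⟩
  · by_cases h2 : x ∈ Ioo (β - ℓ) β
    · rw [indicator_of_mem (show x ∈ Ioo α (α + ℓ) ∪ Ioo (β - ℓ) β from Or.inr h2), hz1 h1, zero_sub]
      have := sstepd_mem ((x - β + ℓ) / ℓ)
      exact key _ ⟨by linarith [this.2], by linarith [this.1]⟩
    · rw [indicator_of_notMem (fun h => h.elim h1 h2), hz1 h1, hz2 h2]
      simp

theorem th_outside {α β ℓ : ℝ} (hℓ : 0 < ℓ) (h : α + 2 * ℓ ≤ β) {x : ℝ} (hx : x ≤ α ∨ β ≤ x) : th α β ℓ x = 0 := by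
  unfold th
  rcases hx with hx | hx
  · rw [ims_sstep_zero (div_nonpos_of_nonpos_of_nonneg (by linarith) hℓ.le),
      ims_sstep_zero (div_nonpos_of_nonpos_of_nonneg (by linarith) hℓ.le)]
    simp
  · rw [ims_sstep_one (by rw [le_div_iff₀ hℓ]; linarith), ims_sstep_one (by rw [le_div_iff₀ hℓ]; linarith)]
    simp

theorem th_core {α β ℓ : ℝ} (hℓ : 0 < ℓ) (h : α + 2 * ℓ ≤ β) {x : ℝ} (hx : x ∈ Icc (α + ℓ) (β - ℓ)) :
    th α β ℓ x = Real.pi / 2 := by
  have _ := h
  unfold th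
  rw [ims_sstep_one (by rw [le_div_iff₀ hℓ]; linarith [hx.1]),
    ims_sstep_zero (div_nonpos_of_nonpos_of_nonneg (by linarith [hx.2]) hℓ.le)]
  ring

theorem ims_cont_integrableOn {a b : ℝ} {g : ℝ → ℝ} (hg : Continuous g) : IntegrableOn g (Ioo a b) :=
  (hg.integrableOn_Icc (a := a) (b := b)).mono_set Ioo_subset_Icc_self

/-- IMS formula for an angle function `θ` of class `C¹` -/
theorem ims_formula {a b : ℝ} {V f θ θ' : ℝ → ℝ} (hV : IntegrableOn V (Ioo a b)) (hf : f ∈ H10 a b)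
    (hθ : ∀ x, HasDerivAt θ (θ' x) x) (hθ' : Continuous θ') :
    q V f = q (fun x => V x - θ' x ^ 2) (fun x => Real.sin (θ x) * f x) +
      q (fun x => V x - θ' x ^ 2) (fun x => Real.cos (θ x) * f x) := by
  have hθc : Continuous θ := continuous_iff_continuousAt.2 fun x => (hθ x).continuousAt
  have hs := H10_mul hf (χ := fun x => Real.sin (θ x)) (χ' := fun x => Real.cos (θ x) * θ' x)
    (fun x => (hθ x).sin) (by fun_prop)
  have hc := H10_mul hf (χ := fun x => Real.cos (θ x)) (χ' := fun x => -Real.sin (θ x) * θ' x)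
    (fun x => (hθ x).cos) (by fun_prop)
  have hV' : IntegrableOn (fun x => V x - θ' x ^ 2) (Ioo a b) :=
    hV.sub (ims_cont_integrableOn (hθ'.pow 2))
  unfold q
  rw [← integral_add (q_integrable hV' hs.1).2 (q_integrable hV' hc.1).2]
  refine integral_congr_ae ?_
  filter_upwards [hs.2, hc.2] with x h1 h2
  rw [h1, h2]
  have h3 := Real.sin_sq_add_cos_sq (θ x)
  have h4 : Real.sin (θ x) ^ 2 = 1 - Real.cos (θ x) ^ 2 := by linarith
  ring_nf
  rw [h4]
  ring

/-- the outer potential of a window: `U + θ'²` off the core, `0` on the core -/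
noncomputable def Uo (U : ℝ → ℝ) (α β ℓ : ℝ) : ℝ → ℝ := (Icc (α + ℓ) (β - ℓ))ᶜ.indicator (Um U α β ℓ)

/-- localisation of the counting functions: window `(α,β)` and outer part -/
theorem nneg_window {a b : ℝ} {U : ℝ → ℝ} (hU : IntegrableOn U (Ioo a b)) {α β ℓ : ℝ} (hℓ : 0 < ℓ) (h : α + 2 * ℓ ≤ β) (k τ : ℝ) :
    nneg a b (pot k τ U) ≤ nneg (max a α) (min b β) (pot k τ (Um U α β ℓ)) + nneg a b (pot k τ (Uo U α β ℓ)) := by
  have hth := th_hasDerivAt (α := α) (β := β) hℓ
  have hthc : Continuous (th α β ℓ) := continuous_iff_continuousAt.2 fun x => (hth x).continuousAt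
  have hthd := thd_continuous (α := α) (β := β) (ℓ := ℓ)
  have hom : Continuous om := by unfold om; fun_prop
  have hUm : IntegrableOn (Um U α β ℓ) (Ioo a b) := by
    unfold Um
    exact hU.add (ims_cont_integrableOn (hthd.pow 2))
  have hpot : ∀ {W : ℝ → ℝ} {s : Set ℝ}, s ⊆ Ioo a b → IntegrableOn W s →
      IntegrableOn (pot k τ W) s := by
    intro W s hs hW
    unfold pot
    have h1 : IntegrableOn (fun _ : ℝ => k ^ 2) s :=
      (ims_cont_integrableOn (a := a) (b := b) continuous_const).mono_set hs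
    have h2 : IntegrableOn (fun x : ℝ => τ * om x) s :=
      (ims_cont_integrableOn (a := a) (b := b) (continuous_const.mul hom)).mono_set hs
    exact (h1.sub hW).add h2
  have hsub : Ioo (max a α) (min b β) ⊆ Ioo a b := by
    intro x hx
    exact ⟨(le_max_left _ _).trans_lt hx.1, hx.2.trans_le (min_le_left _ _)⟩
  have hs : ∀ f ∈ H10 a b, (fun x => Real.sin (th α β ℓ x) * f x) ∈ H10 a b := fun f hf =>
    (H10_mul hf (χ := fun x => Real.sin (th α β ℓ x))
      (χ' := fun x => Real.cos (th α β ℓ x) * thd α β ℓ x)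
      (fun x => (hth x).sin) (by fun_prop)).1
  have hc : ∀ f ∈ H10 a b, (fun x => Real.cos (th α β ℓ x) * f x) ∈ H10 a b := fun f hf =>
    (H10_mul hf (χ := fun x => Real.cos (th α β ℓ x))
      (χ' := fun x => -Real.sin (th α β ℓ x) * thd α β ℓ x)
      (fun x => (hth x).cos) (by fun_prop)).1
  refine nneg_split (LinearMap.mulLeft ℝ (fun x => Real.sin (th α β ℓ x)))
    (LinearMap.mulLeft ℝ (fun x => Real.cos (th α β ℓ x))) ?_ ?_ ?_ ?_ ?_
  · intro f hf
    refine H10_shrink (hs f hf) fun x hx => ?_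
    change Real.sin (th α β ℓ x) * f x = 0
    by_cases hx' : x ∈ Ioo a b
    · have : x ≤ α ∨ β ≤ x := by
        by_contra hcon
        rw [not_or, not_le, not_le] at hcon
        exact hx ⟨max_lt hx'.1 hcon.1, lt_min hx'.2 hcon.2⟩
      rw [th_outside hℓ h this]
      simp
    · rw [H10_zero hf hx', mul_zero]
  · intro f hf
    exact hc f hf
  · exact hpot hsub (hUm.mono_set hsub)
  · refine hpot subset_rfl ?_
    exact hUm.indicator measurableSet_Icc.compl
  · intro f hf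
    have hV : IntegrableOn (pot k τ U) (Ioo a b) := hpot subset_rfl hU
    rw [ims_formula hV hf hth hthd]
    refine add_le_add (le_of_eq ?_) (le_of_eq ?_)
    · congr 1
      ext x
      simp only [pot, Um]
      ring
    · unfold q
      congr 1
      ext x
      change deriv (fun x => Real.cos (th α β ℓ x) * f x) x ^ 2 +
        pot k τ (Uo U α β ℓ) x * (Real.cos (th α β ℓ x) * f x) ^ 2 = _
      congr 1
      by_cases hx : x ∈ Icc (α + ℓ) (β - ℓ)
      · have hz : Real.cos (th α β ℓ x) = 0 := by rw [th_core hℓ h hx, Real.cos_pi_div_two]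
        simp only [hz]
        ring
      · have : Uo U α β ℓ x = Um U α β ℓ x := indicator_of_mem hx _
        simp only [pot, this, Um]
        ring

end Pool.Agent.RLT40
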