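import Pool.Agent.RLT40.OdeA
import Pool.Agent.RLT40.SpaceB

/-!
# Module JAC (paper 1.1): the number of negative directions is at most the number of zeros of any solution.

Proof.  Let `F` be a negative subspace of dimension > Z.card.  Some nonzero `f` in `F` vanishes on `Z`.  Between consecutive zeros of
the solution `φ` (also before the first and after the last, where `f` vanishes at the end `a` or `b`),
`f'² + V f² = (φ φ' h²)' + φ² h'²` a.e. with `h = f/φ`, and the boundary terms `f² φ'/φ` tend to `0` at the ends of the nodal interval: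
at a zero `z` of `φ` (simple zero) `f(x)² ≤ |x - z| ∫_z^x f'² = o(|x-z|)`; at an end `a` with `φ(a) ≠ 0`, `f(a) = 0`.
So `q V f ≥ 0`, contradiction.
-/

open MeasureTheory Set Filter Topology
open scoped ENNReal NNReal

namespace Pool.Agent.RLT40

theorem jac_ac {a b : ℝ} {f : ℝ → ℝ} (hf : f ∈ H10 a b) (x y : ℝ) :
    AbsolutelyContinuousOnInterval f x y := by
  have h1 : ∀ t, f t = f x + ∫ s in x..t, deriv f s := by
    intro t
    rw [H10_integral hf x t]
    ring
  have hint : ∀ u v : ℝ, IntervalIntegrable (deriv f) volume u v := fun u v =>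
    (((H10_deriv_memLp hf).locallyIntegrable (by norm_num)).integrableOn_isCompact
      isCompact_uIcc).intervalIntegrable
  have h2 : AbsolutelyContinuousOnInterval (fun t => ∫ s in x..t, deriv f s) x y :=
    (hint x y).absolutelyContinuousOnInterval_intervalIntegral (by simp)
  have h3 : AbsolutelyContinuousOnInterval (fun _ : ℝ => f x) x y := by
    apply LipschitzOnWith.absolutelyContinuousOnInterval (K := 0)
    exact (LipschitzWith.const (f x)).lipschitzOnWith
  have h4 := h3.add h2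
  have e : ((fun _ : ℝ => f x) + fun t => ∫ s in x..t, deriv f s) = f := by
    funext t
    exact (h1 t).symm
  rw [e] at h4
  exact h4

theorem jac_sq_int {a b : ℝ} {f : ℝ → ℝ} (hf : f ∈ H10 a b) (x y : ℝ) :
    IntervalIntegrable (fun t => deriv f t ^ 2) volume x y :=
  ((H10_deriv_memLp hf).integrable_sq).intervalIntegrable

theorem jac_form_int {a b : ℝ} {V f : ℝ → ℝ} (hV : Continuous V) (hf : f ∈ H10 a b) (x y : ℝ) :
    IntervalIntegrable (fun t => deriv f t ^ 2 + V t * f t ^ 2) volume x y :=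
  (jac_sq_int hf x y).add ((hV.mul ((H10_continuous hf).pow 2)).intervalIntegrable x y)

/-- local Cauchy-Schwarz -/
theorem jac_cs {a b : ℝ} {f : ℝ → ℝ} (hf : f ∈ H10 a b) (c x : ℝ) :
    (f x - f c) ^ 2 ≤ |x - c| * |∫ t in c..x, deriv f t ^ 2| := by
  have key : ∀ c x : ℝ, c < x → (f x - f c) ^ 2 ≤ (x - c) * ∫ t in c..x, deriv f t ^ 2 := by
    intro c x hcx
    have h1 := H10_integral hf c x
    set m := (f x - f c) / (x - c) with hm
    have hint : IntervalIntegrable (deriv f) volume c x :=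
      (((H10_deriv_memLp hf).locallyIntegrable (by norm_num)).integrableOn_isCompact
        isCompact_uIcc).intervalIntegrable
    have h2 : 0 ≤ ∫ t in c..x, (deriv f t - m) ^ 2 :=
      intervalIntegral.integral_nonneg hcx.le fun t _ => sq_nonneg _
    have h3 : ∫ t in c..x, (deriv f t - m) ^ 2
        = (∫ t in c..x, deriv f t ^ 2) - 2 * m * (f x - f c) + m ^ 2 * (x - c) := by
      have e : (fun t => (deriv f t - m) ^ 2)
          = fun t => (deriv f t ^ 2 - 2 * m * deriv f t) + m ^ 2 := by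
        funext t
        ring
      rw [e, intervalIntegral.integral_add ((jac_sq_int hf c x).sub (hint.const_mul _))
        intervalIntegrable_const, intervalIntegral.integral_sub (jac_sq_int hf c x)
        (hint.const_mul _), intervalIntegral.integral_const_mul, h1,
        intervalIntegral.integral_const]
      simp only [smul_eq_mul]
      ring
    rw [h3] at h2
    have hpos : 0 < x - c := by linarith
    have h4 : m * (x - c) = f x - f c := by
      rw [hm]
      field_simp
    have h5 : 0 ≤ (x - c) * ((∫ t in c..x, deriv f t ^ 2) - 2 * m * (f x - f c) + m ^ 2 * (x - c)) :=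
      mul_nonneg hpos.le h2
    nlinarith [h5, h4]
  rcases lt_trichotomy c x with hcx | hcx | hcx
  · rw [abs_of_pos (by linarith), abs_of_nonneg]
    · exact key c x hcx
    · exact intervalIntegral.integral_nonneg hcx.le fun t _ => sq_nonneg _
  · subst hcx
    simp
  · have h1 := key x c hcx
    rw [intervalIntegral.integral_symm, abs_neg, abs_of_neg (by linarith : x - c < 0),
      abs_of_nonneg (intervalIntegral.integral_nonneg hcx.le fun t _ => sq_nonneg _)]
    nlinarith [h1]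

/-- the boundary terms vanish -/
theorem jac_lim {V φ ψ : ℝ → ℝ} (hV : Continuous V) (h : Sol V φ ψ) (hne : ∃ x, φ x ≠ 0) {a b : ℝ}
    {f : ℝ → ℝ} (hf : f ∈ H10 a b) {c : ℝ} (hc : f c = 0) :
    Tendsto (fun x => f x ^ 2 * (ψ x / φ x)) (𝓝[≠] c) (𝓝 0) := by
  by_cases hφ : φ c = 0
  · have hψ : ψ c ≠ 0 := h.deriv_ne_zero hV hne hφ
    -- slope
    have h1 : Tendsto (fun x => (x - c)⁻¹ * φ x) (𝓝[≠] c) (𝓝 (ψ c)) := by
      have := (hasDerivAt_iff_tendsto_slope.1 (h.d1 c))
      refine this.congr' ?_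
      filter_upwards with x
      simp [slope_def_field, hφ, div_eq_inv_mul]
    have h2 : Tendsto (fun x => ((x - c)⁻¹ * φ x)⁻¹) (𝓝[≠] c) (𝓝 (ψ c)⁻¹) := h1.inv₀ hψ
    have h3 : Tendsto (fun x => |∫ t in c..x, deriv f t ^ 2|) (𝓝[≠] c) (𝓝 0) := by
      have hcont : Continuous (fun x => ∫ t in c..x, deriv f t ^ 2) :=
        intervalIntegral.continuous_primitive (fun u v => jac_sq_int hf u v) c
      have h4 : Tendsto (fun x => |∫ t in c..x, deriv f t ^ 2|) (𝓝 c)
          (𝓝 |∫ t in c..c, deriv f t ^ 2|) := (hcont.abs).tendsto c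
      simp only [intervalIntegral.integral_same, abs_zero] at h4
      exact h4.mono_left nhdsWithin_le_nhds
    have h5 : Tendsto (fun x => |ψ x|) (𝓝[≠] c) (𝓝 |ψ c|) :=
      ((h.continuous_right.abs).tendsto c).mono_left nhdsWithin_le_nhds
    have h6 : Tendsto (fun x => |∫ t in c..x, deriv f t ^ 2| * |ψ x| * |((x - c)⁻¹ * φ x)⁻¹|)
        (𝓝[≠] c) (𝓝 (0 * |ψ c| * |(ψ c)⁻¹|)) := (h3.mul h5).mul h2.abs
    rw [zero_mul, zero_mul] at h6
    refine squeeze_zero_norm' ?_ h6
    filter_upwards [self_mem_nhdsWithin] with x hx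
    have hx' : x - c ≠ 0 := sub_ne_zero.2 hx
    rw [Real.norm_eq_abs, abs_mul, abs_div, mul_inv, inv_inv, abs_mul, abs_inv]
    have hcs := jac_cs hf c x
    rw [hc, sub_zero] at hcs
    rw [abs_of_nonneg (sq_nonneg (f x))]
    have h7 : 0 ≤ |ψ x| * |φ x|⁻¹ := mul_nonneg (abs_nonneg _) (inv_nonneg.2 (abs_nonneg _))
    calc f x ^ 2 * (|ψ x| / |φ x|) = f x ^ 2 * (|ψ x| * |φ x|⁻¹) := by rw [div_eq_mul_inv]
      _ ≤ (|x - c| * |∫ t in c..x, deriv f t ^ 2|) * (|ψ x| * |φ x|⁻¹) :=
        mul_le_mul_of_nonneg_right hcs h7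
      _ = |∫ t in c..x, deriv f t ^ 2| * |ψ x| * (|x - c| * |φ x|⁻¹) := by ring
  · have h1 : ContinuousAt (fun x => f x ^ 2 * (ψ x / φ x)) c := by
      apply ContinuousAt.mul
      · exact ((H10_continuous hf).pow 2).continuousAt
      · exact (h.continuous_right.continuousAt).div (h.continuous_left.continuousAt) hφ
    have h2 : Tendsto (fun x => f x ^ 2 * (ψ x / φ x)) (𝓝 c) (𝓝 (f c ^ 2 * (ψ c / φ c))) := h1
    rw [hc] at h2
    simp only [ne_eq, OfNat.ofNat_ne_zero, not_false_eq_true, zero_pow, zero_mul] at h2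
    exact h2.mono_left nhdsWithin_le_nhds

/-- the core identity on an interval without zeros -/
theorem jac_core {V φ ψ : ℝ → ℝ} (hV : Continuous V) (h : Sol V φ ψ) {a b : ℝ}
    {f : ℝ → ℝ} (hf : f ∈ H10 a b) {x y : ℝ} (hxy : x ≤ y) (hnz : ∀ t ∈ Icc x y, φ t ≠ 0) :
    f y ^ 2 * (ψ y / φ y) - f x ^ 2 * (ψ x / φ x) ≤ ∫ t in x..y, (deriv f t ^ 2 + V t * f t ^ 2) := by
  set w : ℝ → ℝ := fun t => ψ t / φ t with hw
  have hwd : ∀ t ∈ Icc x y, HasDerivAt w (V t - w t ^ 2) t := by
    intro t ht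
    have hn := hnz t ht
    have := (h.d2 t).div (h.d1 t) hn
    refine this.congr_deriv ?_
    simp only [hw]
    field_simp
  have hwc : ContinuousOn w (Icc x y) := fun t ht => (hwd t ht).continuousAt.continuousWithinAt
  have hw'c : ContinuousOn (fun t => V t - w t ^ 2) (Icc x y) := hV.continuousOn.sub (hwc.pow 2)
  have hwac : AbsolutelyContinuousOnInterval w x y := by
    obtain ⟨K, hK⟩ := isCompact_Icc.exists_bound_of_continuousOn hw'c
    have hK0 : 0 ≤ K := (norm_nonneg _).trans (hK x (left_mem_Icc.2 hxy))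
    apply LipschitzOnWith.absolutelyContinuousOnInterval (K := ⟨K, hK0⟩)
    rw [uIcc_of_le hxy]
    apply Convex.lipschitzOnWith_of_nnnorm_hasDerivWithin_le (convex_Icc x y)
      (f' := fun t => V t - w t ^ 2)
    · intro t ht
      exact (hwd t ht).hasDerivWithinAt
    · intro t ht
      exact hK t ht
  have hFac : AbsolutelyContinuousOnInterval (fun t => f t * f t * w t) x y :=
    ((jac_ac hf x y).mul (jac_ac hf x y)).mul hwac
  have hF := hFac.integral_deriv_eq_sub
  have hae : ∀ᵐ t, t ∈ uIoc x y → deriv (fun t => f t * f t * w t) t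
      = 2 * f t * deriv f t * w t + f t ^ 2 * (V t - w t ^ 2) := by
    filter_upwards [H10_ae_deriv hf] with t ht htI
    rw [uIoc_of_le hxy] at htI
    have := ((ht.mul ht).mul (hwd t ⟨htI.1.le, htI.2⟩)).deriv
    refine this.trans ?_
    simp only [Pi.mul_apply]
    ring
  have hfc := H10_continuous hf
  have hint' : IntervalIntegrable (deriv f) volume x y :=
    (((H10_deriv_memLp hf).locallyIntegrable (by norm_num)).integrableOn_isCompact
      isCompact_uIcc).intervalIntegrable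
  have hi1 : IntervalIntegrable
      (fun t => 2 * f t * deriv f t * w t + f t ^ 2 * (V t - w t ^ 2)) volume x y := by
    apply IntervalIntegrable.add
    · have : (fun t => 2 * f t * deriv f t * w t) = fun t => (2 * f t * w t) * deriv f t := by
        funext t
        ring
      rw [this]
      apply hint'.continuousOn_mul
      rw [uIcc_of_le hxy]
      exact ((continuous_const.mul hfc).continuousOn).mul hwc
    · apply ContinuousOn.intervalIntegrable
      rw [uIcc_of_le hxy]
      exact ((hfc.pow 2).continuousOn).mul hw'c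
  have hFe : f y ^ 2 * (ψ y / φ y) - f x ^ 2 * (ψ x / φ x)
      = ∫ t in x..y, (2 * f t * deriv f t * w t + f t ^ 2 * (V t - w t ^ 2)) := by
    rw [← intervalIntegral.integral_congr_ae hae, hF]
    simp only [hw]
    ring
  rw [hFe]
  apply intervalIntegral.integral_mono_on hxy hi1 (jac_form_int hV hf x y)
  intro t ht
  nlinarith [sq_nonneg (deriv f t - f t * w t)]

/-- an interval whose interior has no zero of `φ` -/
theorem jac_nodal {V φ ψ : ℝ → ℝ} (hV : Continuous V) (h : Sol V φ ψ) (hne : ∃ x, φ x ≠ 0) {a b : ℝ}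
    {f : ℝ → ℝ} (hf : f ∈ H10 a b) {c d : ℝ} (hcd : c < d) (hc : f c = 0) (hd : f d = 0)
    (hnz : ∀ t ∈ Ioo c d, φ t ≠ 0) :
    0 ≤ ∫ t in c..d, (deriv f t ^ 2 + V t * f t ^ 2) := by
  set G : ℝ → ℝ := fun t => deriv f t ^ 2 + V t * f t ^ 2 with hG
  set Fb : ℝ → ℝ := fun x => f x ^ 2 * (ψ x / φ x) with hFb
  have hGi : ∀ u v : ℝ, IntervalIntegrable G volume u v := fun u v => jac_form_int hV hf u v
  set m := (c + d) / 2 with hm
  have hcm : c < m := by rw [hm]; linarith
  have hmd : m < d := by rw [hm]; linarith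
  -- left part
  have hleft : Fb m ≤ ∫ t in c..m, G t := by
    have h1 : Tendsto (fun x => ∫ t in x..m, G t) (𝓝[>] c) (𝓝 (∫ t in c..m, G t)) := by
      have hcont : Continuous (fun x => ∫ t in m..x, G t) :=
        intervalIntegral.continuous_primitive hGi m
      have h2 : Tendsto (fun x => -∫ t in m..x, G t) (𝓝 c) (𝓝 (-∫ t in m..c, G t)) :=
        (hcont.neg).tendsto c
      have h3 : (fun x => ∫ t in x..m, G t) = fun x => -∫ t in m..x, G t := by
        funext x
        rw [intervalIntegral.integral_symm]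
      rw [h3, intervalIntegral.integral_symm m c]
      exact h2.mono_left nhdsWithin_le_nhds
    have h4 : Tendsto (fun x => Fb m - Fb x) (𝓝[>] c) (𝓝 (Fb m - 0)) :=
      tendsto_const_nhds.sub ((jac_lim hV h hne hf hc).mono_left
        (nhdsWithin_mono _ fun t ht => ne_of_gt ht))
    have h5 : Fb m - 0 ≤ ∫ t in c..m, G t := by
      refine le_of_tendsto_of_tendsto h4 h1 ?_
      have : ∀ᶠ x in 𝓝[>] c, x ∈ Ioo c m := Ioo_mem_nhdsGT hcm
      filter_upwards [this] with x hx
      exact jac_core hV h hf hx.2.le fun t ht => hnz t ⟨lt_of_lt_of_le hx.1 ht.1, lt_of_le_of_lt ht.2 hmd⟩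
    linarith
  have hright : -Fb m ≤ ∫ t in m..d, G t := by
    have h1 : Tendsto (fun x => ∫ t in m..x, G t) (𝓝[<] d) (𝓝 (∫ t in m..d, G t)) :=
      ((intervalIntegral.continuous_primitive hGi m).tendsto d).mono_left nhdsWithin_le_nhds
    have h4 : Tendsto (fun x => Fb x - Fb m) (𝓝[<] d) (𝓝 (0 - Fb m)) :=
      ((jac_lim hV h hne hf hd).mono_left
        (nhdsWithin_mono _ fun t ht => ne_of_lt ht)).sub tendsto_const_nhds
    have h5 : 0 - Fb m ≤ ∫ t in m..d, G t := by
      refine le_of_tendsto_of_tendsto h4 h1 ?_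
      have : ∀ᶠ x in 𝓝[<] d, x ∈ Ioo m d := Ioo_mem_nhdsLT hmd
      filter_upwards [this] with x hx
      exact jac_core hV h hf hx.1.le fun t ht => hnz t ⟨lt_of_lt_of_le hcm ht.1, lt_of_le_of_lt ht.2 hx.2⟩
    linarith
  rw [← intervalIntegral.integral_add_adjacent_intervals (hGi c m) (hGi m d)]
  linarith

theorem jac_ind {V φ ψ : ℝ → ℝ} (hV : Continuous V) (h : Sol V φ ψ) (hne : ∃ x, φ x ≠ 0) {a b : ℝ}
    {f : ℝ → ℝ} (hf : f ∈ H10 a b) (hz : ∀ x ∈ Ioo a b, φ x = 0 → f x = 0) (n : ℕ) :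
    ∀ c d : ℝ, a ≤ c → d ≤ b → c < d → f c = 0 → f d = 0 →
      {x | x ∈ Ioo c d ∧ φ x = 0}.ncard = n → {x | x ∈ Ioo c d ∧ φ x = 0}.Finite →
      0 ≤ ∫ t in c..d, (deriv f t ^ 2 + V t * f t ^ 2) := by
  induction n using Nat.strong_induction_on with
  | _ n ih =>
    intro c d hac hdb hcd hc hd hn hfin
    by_cases hex : ∃ z, z ∈ Ioo c d ∧ φ z = 0
    · obtain ⟨z, hzI, hz0⟩ := hex
      have hfz : f z = 0 := hz z ⟨lt_of_le_of_lt hac hzI.1, lt_of_lt_of_le hzI.2 hdb⟩ hz0
      have hs1 : {x | x ∈ Ioo c z ∧ φ x = 0} ⊂ {x | x ∈ Ioo c d ∧ φ x = 0} := by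
        refine ⟨fun x hx => ⟨⟨hx.1.1, hx.1.2.trans hzI.2⟩, hx.2⟩, fun hsub => ?_⟩
        have := hsub (show z ∈ {x | x ∈ Ioo c d ∧ φ x = 0} from ⟨hzI, hz0⟩)
        exact lt_irrefl _ this.1.2
      have hs2 : {x | x ∈ Ioo z d ∧ φ x = 0} ⊂ {x | x ∈ Ioo c d ∧ φ x = 0} := by
        refine ⟨fun x hx => ⟨⟨hzI.1.trans hx.1.1, hx.1.2⟩, hx.2⟩, fun hsub => ?_⟩
        have := hsub (show z ∈ {x | x ∈ Ioo c d ∧ φ x = 0} from ⟨hzI, hz0⟩)
        exact lt_irrefl _ this.1.1
      have h1 := ih _ (by rw [← hn]; exact Set.ncard_lt_ncard hs1 hfin) c z hac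
        (hzI.2.le.trans hdb) hzI.1 hc hfz rfl (hfin.subset hs1.1)
      have h2 := ih _ (by rw [← hn]; exact Set.ncard_lt_ncard hs2 hfin) z d (hac.trans hzI.1.le)
        hdb hzI.2 hfz hd rfl (hfin.subset hs2.1)
      rw [← intervalIntegral.integral_add_adjacent_intervals (jac_form_int hV hf c z)
        (jac_form_int hV hf z d)]
      linarith
    · exact jac_nodal hV h hne hf hcd hc hd fun t ht h0 => hex ⟨t, ht, h0⟩

theorem jac_q_eq {V : ℝ → ℝ} {a b : ℝ} (hab : a < b) {f : ℝ → ℝ} (hf : f ∈ H10 a b) :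
    q V f = ∫ t in a..b, (deriv f t ^ 2 + V t * f t ^ 2) := by
  rw [q, intervalIntegral.integral_of_le hab.le, ← integral_Icc_eq_integral_Ioc]
  symm
  apply setIntegral_eq_integral_of_forall_compl_eq_zero
  intro x hx
  have h1 : f x = 0 := H10_zero hf fun h' => hx ⟨h'.1.le, h'.2.le⟩
  rw [H10_deriv_zero hf hx, h1]
  ring

/-- positivity of the form on functions vanishing at the zeros of a solution -/
theorem q_nonneg_of_vanish {V φ ψ : ℝ → ℝ} (hV : Continuous V) (h : Sol V φ ψ) (hne : ∃ x, φ x ≠ 0) {a b : ℝ}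
    {f : ℝ → ℝ} (hf : f ∈ H10 a b) (hz : ∀ x ∈ Ioo a b, φ x = 0 → f x = 0) : 0 ≤ q V f := by
  by_cases hab : a < b
  · rw [jac_q_eq hab hf]
    refine jac_ind hV h hne hf hz _ a b le_rfl le_rfl hab (H10_zero hf fun h' => lt_irrefl _ h'.1)
      (H10_zero hf fun h' => lt_irrefl _ h'.2) rfl ?_
    exact (h.zeros_finite hV hne a b).subset fun x hx => ⟨Ioo_subset_Icc_self hx.1, hx.2⟩
  · have h0 : f = fun _ => 0 := by
      funext x
      exact H10_zero hf fun h' => hab (h'.1.trans h'.2)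
    rw [q, h0]
    simp

theorem nneg_le_card {V φ ψ : ℝ → ℝ} (hV : Continuous V) (h : Sol V φ ψ) (hne : ∃ x, φ x ≠ 0) {a b : ℝ}
    (Z : Finset ℝ) (hZ : ∀ x ∈ Ioo a b, φ x = 0 → x ∈ Z) : nneg a b V ≤ Z.card := by
  rw [nneg]
  refine iSup₂_le ?_
  rintro F ⟨hF, hfd, hneg⟩
  by_contra hlt
  rw [not_le] at hlt
  have hlt' : Z.card < Module.finrank ℝ F := by exact_mod_cast hlt
  -- evaluation map
  let ev : F →ₗ[ℝ] (Z → ℝ) :=
    { toFun := fun f z => (f : ℝ → ℝ) z
      map_add' := fun f g => rfl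
      map_smul' := fun c f => rfl }
  have hker : ∃ f : F, f ≠ 0 ∧ ev f = 0 := by
    by_contra hcon
    push Not at hcon
    have hinj : Function.Injective ev := by
      rw [← LinearMap.ker_eq_bot, LinearMap.ker_eq_bot']
      intro f hf
      by_contra hf0
      exact hcon f hf0 hf
    have := LinearMap.finrank_le_finrank_of_injective hinj
    rw [Module.finrank_fintype_fun_eq_card, Fintype.card_coe] at this
    omega
  obtain ⟨f, hf0, hev⟩ := hker
  have hfz : ∀ z ∈ Z, (f : ℝ → ℝ) z = 0 := fun z hz => congrFun hev ⟨z, hz⟩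
  have h1 := hneg f f.2 (by simpa using hf0)
  have h2 := q_nonneg_of_vanish hV h hne (hF f.2) fun x hx h0 => hfz x (hZ x hx h0)
  linarith

end Pool.Agent.RLT40
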