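import Pool.Agent.RLT40.Window

/-!
# Module LD (paper 4.3): the zero-energy deficit of a window.

With `w' = (max a α, min b β)`, `D(τ) = Atau(τ) - Ntot(τ) ≥ 0` for `Um` on `w'` (Ntot_le), `(3/16)κ J(Um) - G(Um) = ∫ γτ^{γ-1} D(τ) dτ`; window_ineq and
`C ≥ (3/16)(1-δ)κ`: `∫_0^{τ₁} γτ^{γ-1} D(τ) ≤ (3/16)κδ J(Um) + 2C∫_O (U+π²/ℓ²)^{2+γ} w`.  `D(0) ≤ D(τ) + Atau(0) - Atau(τ) ≤ D(τ) + C(R,K) τ₁` (Ntot_anti).
`τ₁^γ ≥ 1/1.1`, weights `≤ 1.1` on `[-R,R]`, `(U+d)^{2+γ} ≤ 1.1 (U+d)² ≤ 2.2 (U²+d²)` (`U ≤ K`, `d ≤ π²`), `C ≤ 3/16`:  total factor `1.1³ · 2 · (3/16) · 2 ≤ 1`.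
Order of the constants: first `τ₁ = τ₁(ε,R,K)`, then `γ₁, δ₁`.
-/

open MeasureTheory Set
open scoped ENNReal NNReal

namespace Pool.Agent.RLT40

/-! ### elementary lemmas -/

theorem LD_exists_gamma {K R ε : ℝ} (t M : ℝ) (ht : 0 < t) (hM : 0 < M) :
    ∃ γ₁ > 0, ∀ γ : ℝ, 0 < γ → γ < γ₁ → γ < 1 ∧ t ^ (-γ) ≤ 11 / 10 ∧ M ^ γ ≤ 11 / 10 ∧
      Real.exp (2 * γ * R) ≤ 11 / 10 := by
  have c1 : ContinuousAt (fun γ : ℝ => t ^ (-γ)) 0 :=
    (continuousAt_const.rpow continuousAt_id.neg (Or.inl ht.ne'))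
  have c2 : ContinuousAt (fun γ : ℝ => M ^ γ) 0 :=
    (continuousAt_const.rpow continuousAt_id (Or.inl hM.ne'))
  have c3 : ContinuousAt (fun γ : ℝ => Real.exp (2 * γ * R)) 0 := by fun_prop
  have e1 : ∀ᶠ γ : ℝ in nhds 0, t ^ (-γ) < 11 / 10 := by
    apply c1.eventually_lt continuousAt_const
    simp; norm_num
  have e2 : ∀ᶠ γ : ℝ in nhds 0, M ^ γ < 11 / 10 := by
    apply c2.eventually_lt continuousAt_const
    simp; norm_num
  have e3 : ∀ᶠ γ : ℝ in nhds 0, Real.exp (2 * γ * R) < 11 / 10 := by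
    apply c3.eventually_lt continuousAt_const
    simp; norm_num
  have e4 : ∀ᶠ γ : ℝ in nhds 0, γ < 1 := eventually_lt_nhds one_pos
  obtain ⟨δ, hδ, h⟩ := Metric.eventually_nhds_iff.1 (e1.and (e2.and (e3.and e4)))
  refine ⟨δ, hδ, fun γ h0 h1 => ?_⟩
  have h2 := h (y := γ) (by rw [Real.dist_eq, sub_zero, abs_of_pos h0]; exact h1)
  exact ⟨h2.2.2.2, h2.1.le, h2.2.1.le, h2.2.2.1.le⟩

theorem LD_kap_le {γ : ℝ} (hγ : 0 < γ) : kap γ ≤ 1 := by
  unfold kap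
  rw [div_le_one (by positivity)]
  nlinarith

theorem LD_kap_pos {γ : ℝ} (hγ : 0 < γ) : 0 < kap γ := by
  unfold kap; positivity

theorem LD_weight {γ t : ℝ} (hγ : 0 < γ) (ht : 0 < t) :
    ∫⁻ τ in Ioc (0 : ℝ) t, ENNReal.ofReal (γ * τ ^ (γ - 1)) = ENNReal.ofReal (t ^ γ) := by
  have h1 : IntegrableOn (fun τ : ℝ => γ * τ ^ (γ - 1)) (Ioc 0 t) := by
    have h := (intervalIntegral.intervalIntegrable_rpow' (a := 0) (b := t) (r := γ - 1)
      (by linarith)).const_mul γ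
    rwa [intervalIntegrable_iff_integrableOn_Ioc_of_le ht.le] at h
  rw [← ofReal_integral_eq_lintegral_ofReal h1]
  · congr 1
    rw [← intervalIntegral.integral_of_le ht.le, intervalIntegral.integral_const_mul,
      integral_rpow (Or.inl (by linarith))]
    rw [sub_add_cancel, Real.zero_rpow hγ.ne', sub_zero]
    field_simp
  · refine (ae_restrict_iff' measurableSet_Ioc).2 (Filter.Eventually.of_forall fun τ hτ => ?_)
    have : 0 ≤ τ := hτ.1.le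
    show 0 ≤ γ * τ ^ (γ - 1)
    positivity

/-- the cancellation argument -/
theorem LD_core {γ t : ℝ} (hγ : 0 < γ) (ht : 0 < t) {A N : ℝ → ℝ≥0∞} {E k : ℝ≥0∞}
    (hNA : ∀ τ, 0 ≤ τ → N τ ≤ A τ) (hanti : ∀ τ, 0 ≤ τ → N τ ≤ N 0)
    (hA : ∀ τ, 0 < τ → τ ≤ t → A 0 ≤ A τ + k)
    (hfin : ∫⁻ τ in Ioi (0 : ℝ), ENNReal.ofReal (γ * τ ^ (γ - 1)) * N τ ≠ ⊤)
    (h : ∫⁻ τ in Ioi (0 : ℝ), ENNReal.ofReal (γ * τ ^ (γ - 1)) * A τ ≤
      (∫⁻ τ in Ioi (0 : ℝ), ENNReal.ofReal (γ * τ ^ (γ - 1)) * N τ) + E) :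
    A 0 ≤ N 0 + E * ENNReal.ofReal (t ^ (-γ)) + k := by
  set μ : ℝ → ℝ≥0∞ := fun τ => ENNReal.ofReal (γ * τ ^ (γ - 1)) with hμ
  have hsplit : ∀ f : ℝ → ℝ≥0∞, ∫⁻ τ in Ioi (0 : ℝ), f τ =
      (∫⁻ τ in Ioc (0 : ℝ) t, f τ) + ∫⁻ τ in Ioi t, f τ := by
    intro f
    rw [← lintegral_union measurableSet_Ioi, Ioc_union_Ioi_eq_Ioi ht.le]
    rw [Set.disjoint_left]
    intro x hx hx'
    exact absurd hx.2 (not_le.2 hx')
  have hX : ∫⁻ τ in Ioi t, μ τ * N τ ≠ ⊤ := by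
    refine ne_top_of_le_ne_top hfin ?_
    exact lintegral_mono_set (Ioi_subset_Ioi ht.le)
  have h1 : (∫⁻ τ in Ioc (0 : ℝ) t, μ τ * A τ) + ∫⁻ τ in Ioi t, μ τ * N τ ≤
      ((∫⁻ τ in Ioc (0 : ℝ) t, μ τ * N τ) + E) + ∫⁻ τ in Ioi t, μ τ * N τ := by
    calc (∫⁻ τ in Ioc (0 : ℝ) t, μ τ * A τ) + ∫⁻ τ in Ioi t, μ τ * N τ
        ≤ (∫⁻ τ in Ioc (0 : ℝ) t, μ τ * A τ) + ∫⁻ τ in Ioi t, μ τ * A τ := by
          refine add_le_add le_rfl ?_
          refine setLIntegral_mono' measurableSet_Ioi fun τ hτ => ?_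
          exact mul_le_mul_right (hNA τ (ht.trans hτ).le) _
      _ = ∫⁻ τ in Ioi (0 : ℝ), μ τ * A τ := (hsplit _).symm
      _ ≤ (∫⁻ τ in Ioi (0 : ℝ), μ τ * N τ) + E := h
      _ = _ := by rw [hsplit (fun τ => μ τ * N τ)]; ring
  have h2 : ∫⁻ τ in Ioc (0 : ℝ) t, μ τ * A τ ≤ (∫⁻ τ in Ioc (0 : ℝ) t, μ τ * N τ) + E :=
    (ENNReal.add_le_add_iff_right hX).1 h1
  have hw : ∫⁻ τ in Ioc (0 : ℝ) t, μ τ = ENNReal.ofReal (t ^ γ) := LD_weight hγ ht
  have hμm : Measurable μ := by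
    refine ENNReal.measurable_ofReal.comp ?_
    exact (measurable_id.pow_const (γ - 1)).const_mul γ
  have h3 : ∫⁻ τ in Ioc (0 : ℝ) t, μ τ * N τ ≤ ENNReal.ofReal (t ^ γ) * N 0 := by
    rw [← hw, ← lintegral_mul_const _ hμm]
    refine setLIntegral_mono' measurableSet_Ioc fun τ hτ => ?_
    exact mul_le_mul_right (hanti τ hτ.1.le) _
  have h4 : ENNReal.ofReal (t ^ γ) * A 0 ≤
      (∫⁻ τ in Ioc (0 : ℝ) t, μ τ * A τ) + ENNReal.ofReal (t ^ γ) * k := by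
    rw [← hw, ← lintegral_mul_const _ hμm, ← lintegral_mul_const _ hμm,
      ← lintegral_add_right _ (hμm.mul_const _)]
    refine setLIntegral_mono' measurableSet_Ioc fun τ hτ => ?_
    rw [← mul_add]
    exact mul_le_mul_right (hA τ hτ.1 hτ.2) _
  have hs : 0 < t ^ γ := Real.rpow_pos_of_pos ht _
  have hst : ENNReal.ofReal (t ^ (-γ)) * ENNReal.ofReal (t ^ γ) = 1 := by
    rw [← ENNReal.ofReal_mul (Real.rpow_nonneg ht.le _), ← Real.rpow_add ht]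
    simp
  calc A 0 = ENNReal.ofReal (t ^ (-γ)) * (ENNReal.ofReal (t ^ γ) * A 0) := by
        rw [← mul_assoc, hst, one_mul]
    _ ≤ ENNReal.ofReal (t ^ (-γ)) * (ENNReal.ofReal (t ^ γ) * N 0 + E +
          ENNReal.ofReal (t ^ γ) * k) := by
        refine mul_le_mul_right ?_ _
        exact h4.trans (add_le_add_left (h2.trans (add_le_add_left h3 _)) _)
    _ = (ENNReal.ofReal (t ^ (-γ)) * ENNReal.ofReal (t ^ γ)) * N 0 +
          E * ENNReal.ofReal (t ^ (-γ)) +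
          (ENNReal.ofReal (t ^ (-γ)) * ENNReal.ofReal (t ^ γ)) * k := by ring
    _ = N 0 + E * ENNReal.ofReal (t ^ (-γ)) + k := by rw [hst, one_mul, one_mul]

/-- pointwise: `V² ≤ (V - τω)_+² + 2 V τ ω` -/
theorem LD_pt {v s : ℝ} (hv : 0 ≤ v) (hs : 0 ≤ s) : v ^ 2 ≤ max (v - s) 0 ^ 2 + 2 * v * s := by
  rcases le_total s v with h | h
  · rw [max_eq_left (by linarith)]
    nlinarith
  · rw [max_eq_right (by linarith)]
    nlinarith

section win

variable {K R : ℝ} {γ a b C : ℝ} {U : ℝ → ℝ} {α β ℓ : ℝ}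

theorem LD_U_nonneg (O : Opt γ a b C U) (x : ℝ) : 0 ≤ U x := by
  by_cases hx : x ∈ Ioo a b
  · exact (O.pos x hx).le
  · rw [O.zero x hx]

theorem LD_Um_nonneg (O : Opt γ a b C U) (x : ℝ) : 0 ≤ Um U α β ℓ x := by
  unfold Um
  have := LD_U_nonneg O x
  positivity

theorem LD_Um_cont (O : Opt γ a b C U) : Continuous (Um U α β ℓ) := by
  unfold Um
  exact O.cont.add (thd_continuous.pow 2)

theorem LD_Um_le (hU : ∀ x, U x ≤ K) (hℓ : 1 ≤ ℓ) (h : α + 2 * ℓ ≤ β)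
    (x : ℝ) : Um U α β ℓ x ≤ K + Real.pi ^ 2 := by
  unfold Um
  have h0 : 0 < ℓ := by linarith
  have h1 := thd_sq_le h0 h x
  have h2 : (Ioo α (α + ℓ) ∪ Ioo (β - ℓ) β).indicator (fun _ => Real.pi ^ 2 / ℓ ^ 2) x ≤
      Real.pi ^ 2 := by
    have h3 : Real.pi ^ 2 / ℓ ^ 2 ≤ Real.pi ^ 2 := by
      apply div_le_self (by positivity)
      nlinarith
    by_cases hx : x ∈ Ioo α (α + ℓ) ∪ Ioo (β - ℓ) β
    · rw [Set.indicator_of_mem hx]; exact h3
    · rw [Set.indicator_of_notMem hx]; positivity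
  have := hU x
  linarith

theorem LD_vol (hα : -R ≤ α) (hβ : β ≤ R) (hR : 0 < R) :
    volume (Ioo (max a α) (min b β)) ≤ ENNReal.ofReal (2 * R) := by
  rw [Real.volume_Ioo]
  apply ENNReal.ofReal_le_ofReal
  have h1 : α ≤ max a α := le_max_right _ _
  have h2 : min b β ≤ β := min_le_right _ _
  linarith

theorem LD_mem (hα : -R ≤ α) (hβ : β ≤ R) {x : ℝ} (hx : x ∈ Ioo (max a α) (min b β)) :
    -R ≤ x ∧ x ≤ R := by
  have h1 : α ≤ max a α := le_max_right _ _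
  have h2 : min b β ≤ β := min_le_right _ _
  exact ⟨by linarith [hx.1], by linarith [hx.2]⟩

theorem LD_adm (O : Opt γ a b C U) (hγ : 0 < γ) (hU : ∀ x, U x ≤ K) (hℓ : 1 ≤ ℓ)
    (h : α + 2 * ℓ ≤ β) :
    Adm1 γ (max a α) (min b β) (Um U α β ℓ) := by
  refine ⟨LD_Um_nonneg O, ?_⟩
  have hfin : IsFiniteMeasure (volume.restrict (Ioo (max a α) (min b β))) :=
    ⟨by rw [Measure.restrict_apply_univ]; exact measure_Ioo_lt_top⟩
  refine MemLp.of_bound (LD_Um_cont O).aestronglyMeasurable (K + Real.pi ^ 2) ?_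
  refine Filter.Eventually.of_forall fun x => ?_
  rw [Real.norm_eq_abs, abs_of_nonneg (LD_Um_nonneg O x)]
  exact LD_Um_le hU hℓ h x

theorem LD_J_le (O : Opt γ a b C U) (hγ : 0 < γ) (hγ1 : γ < 1) (hR : 0 < R) (hK : 0 < K)
    (hU : ∀ x, U x ≤ K)
    (hα : -R ≤ α) (hβ : β ≤ R) (hℓ : 1 ≤ ℓ) (h : α + 2 * ℓ ≤ β) :
    Jf γ (max a α) (min b β) (Um U α β ℓ) ≤
      ENNReal.ofReal ((K + Real.pi ^ 2) ^ 3 * Real.exp (2 * R) * (2 * R)) := by
  have hM : 1 ≤ K + Real.pi ^ 2 := by nlinarith [Real.pi_gt_three]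
  have h1 : Jf γ (max a α) (min b β) (Um U α β ℓ) ≤
      ∫⁻ _ in Ioo (max a α) (min b β),
        ENNReal.ofReal ((K + Real.pi ^ 2) ^ 3 * Real.exp (2 * R)) := by
    refine setLIntegral_mono' measurableSet_Ioo fun x hx => ?_
    apply ENNReal.ofReal_le_ofReal
    have hx' := LD_mem hα hβ hx
    have h2 : Um U α β ℓ x ^ (2 + γ) ≤ (K + Real.pi ^ 2) ^ 3 := by
      calc Um U α β ℓ x ^ (2 + γ) ≤ (K + Real.pi ^ 2) ^ (2 + γ) :=
            Real.rpow_le_rpow (LD_Um_nonneg O x) (LD_Um_le hU hℓ h x) (by linarith)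
        _ ≤ (K + Real.pi ^ 2) ^ (3 : ℝ) :=
            Real.rpow_le_rpow_of_exponent_le hM (by linarith)
        _ = (K + Real.pi ^ 2) ^ 3 := by
            rw [show (3 : ℝ) = ((3 : ℕ) : ℝ) by norm_num, Real.rpow_natCast]
    have h3 : Real.exp (-(2 * γ * x)) ≤ Real.exp (2 * R) := by
      apply Real.exp_le_exp.2
      nlinarith
    exact mul_le_mul h2 h3 (Real.exp_pos _).le (by positivity)
  refine h1.trans ?_
  rw [setLIntegral_const, ENNReal.ofReal_mul (p := (K + Real.pi ^ 2) ^ 3 * Real.exp (2 * R))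
    (by positivity)]
  exact mul_le_mul_right (LD_vol hα hβ hR) _

theorem LD_Atau_zero (O : Opt γ a b C U) (hU : ∀ x, U x ≤ K) (hℓ : 1 ≤ ℓ)
    (h : α + 2 * ℓ ≤ β) :
    ENNReal.ofReal (3 / 16 * ∫ x in Ioo (max a α) (min b β), Um U α β ℓ x ^ 2) =
      Atau (max a α) (min b β) (Um U α β ℓ) 0 := by
  unfold Atau
  rw [← integral_const_mul, ofReal_integral_eq_lintegral_ofReal]
  · refine lintegral_congr fun x => ?_
    rw [zero_mul, sub_zero, max_eq_left (LD_Um_nonneg O x)]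
  · have h1 : Continuous fun x => 3 / 16 * Um U α β ℓ x ^ 2 :=
      continuous_const.mul ((LD_Um_cont O).pow 2)
    exact (h1.integrableOn_Icc (a := max a α) (b := min b β)).mono_set Ioo_subset_Icc_self
  · exact Filter.Eventually.of_forall fun x => by
      show 0 ≤ 3 / 16 * Um U α β ℓ x ^ 2
      positivity

theorem LD_Atau_diff (O : Opt γ a b C U) (hR : 0 < R) (hK : 0 < K) (hU : ∀ x, U x ≤ K)
    (hα : -R ≤ α) (hβ : β ≤ R) (hℓ : 1 ≤ ℓ) (h : α + 2 * ℓ ≤ β) {τ t : ℝ} (hτ : 0 < τ)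
    (hτt : τ ≤ t) :
    Atau (max a α) (min b β) (Um U α β ℓ) 0 ≤ Atau (max a α) (min b β) (Um U α β ℓ) τ +
      ENNReal.ofReal (3 / 8 * (K + Real.pi ^ 2) * Real.exp (2 * R) * (2 * R) * t) := by
  have hM : 0 < K + Real.pi ^ 2 := by positivity
  have ht0 : 0 < t := lt_of_lt_of_le hτ hτt
  have h1 : Atau (max a α) (min b β) (Um U α β ℓ) 0 ≤
      ∫⁻ x in Ioo (max a α) (min b β),
        (ENNReal.ofReal (3 / 16 * max (Um U α β ℓ x - τ * om x) 0 ^ 2) +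
          ENNReal.ofReal (3 / 8 * (K + Real.pi ^ 2) * Real.exp (2 * R) * t)) := by
    refine setLIntegral_mono' measurableSet_Ioo fun x hx => ?_
    rw [← ENNReal.ofReal_add (by positivity) (by positivity)]
    apply ENNReal.ofReal_le_ofReal
    have hx' := LD_mem hα hβ hx
    have hv := LD_Um_nonneg (α := α) (β := β) (ℓ := ℓ) O x
    have hv2 := LD_Um_le hU hℓ h x
    have hom : 0 < om x := Real.exp_pos _
    have hom2 : om x ≤ Real.exp (2 * R) := by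
      unfold om
      apply Real.exp_le_exp.2
      linarith
    have h2 := LD_pt hv (s := τ * om x) (by positivity)
    rw [zero_mul, sub_zero, max_eq_left hv]
    have h3 : Um U α β ℓ x * (τ * om x) ≤ (K + Real.pi ^ 2) * (t * Real.exp (2 * R)) := by
      apply mul_le_mul hv2 _ (by positivity) hM.le
      exact mul_le_mul hτt hom2 hom.le (by linarith)
    nlinarith [h2, h3]
  refine h1.trans ?_
  rw [lintegral_add_right _ measurable_const, setLIntegral_const]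
  unfold Atau
  refine add_le_add_right ?_ _
  rw [show 3 / 8 * (K + Real.pi ^ 2) * Real.exp (2 * R) * (2 * R) * t =
    (3 / 8 * (K + Real.pi ^ 2) * Real.exp (2 * R) * t) * (2 * R) by ring,
    ENNReal.ofReal_mul (p := 3 / 8 * (K + Real.pi ^ 2) * Real.exp (2 * R) * t)
      (by have : 0 < t := lt_of_lt_of_le hτ hτt
          positivity)]
  exact mul_le_mul_right (LD_vol hα hβ hR) _

theorem LD_zone (O : Opt γ a b C U) (hγ : 0 < γ) (hK : 0 < K) (hU : ∀ x, U x ≤ K)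
    (hα : -R ≤ α) (hβ : β ≤ R) (hℓ : 1 ≤ ℓ) (h : α + 2 * ℓ ≤ β)
    (hM : (K + Real.pi ^ 2) ^ γ ≤ 11 / 10) (hR : Real.exp (2 * γ * R) ≤ 11 / 10) :
    ∫⁻ x in Ioo a b ∩ Oz α β ℓ,
        ENNReal.ofReal ((U x + Real.pi ^ 2 / ℓ ^ 2) ^ (2 + γ) * Real.exp (-(2 * γ * x))) ≤
      ENNReal.ofReal (121 / 50 * ((∫ x in Ioo a b ∩ Oz α β ℓ, U x ^ 2) +
        2 * Real.pi ^ 4 / ℓ ^ 3)) := by
  have hOm : MeasurableSet (Oz α β ℓ) := measurableSet_Ioo.union measurableSet_Ioo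
  have hm : MeasurableSet (Ioo a b ∩ Oz α β ℓ) := measurableSet_Ioo.inter hOm
  have h0 : 0 < ℓ := by linarith
  set d : ℝ := Real.pi ^ 2 / ℓ ^ 2 with hd
  have hdpos : 0 < d := by rw [hd]; positivity
  have hdle : d ≤ Real.pi ^ 2 := by
    rw [hd]
    apply div_le_self (by positivity)
    nlinarith
  have h1 : ∫⁻ x in Ioo a b ∩ Oz α β ℓ,
        ENNReal.ofReal ((U x + d) ^ (2 + γ) * Real.exp (-(2 * γ * x))) ≤
      ∫⁻ x in Ioo a b ∩ Oz α β ℓ, (ENNReal.ofReal (121 / 50 * U x ^ 2) +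
        ENNReal.ofReal (121 / 50 * d ^ 2)) := by
    refine setLIntegral_mono' hm fun x hx => ?_
    rw [← ENNReal.ofReal_add (by positivity) (by positivity)]
    apply ENNReal.ofReal_le_ofReal
    have hx2 : -R ≤ x := by
      rcases hx.2 with k | k
      · linarith [k.1]
      · linarith [k.1]
    have hU0 := LD_U_nonneg O x
    have hpos : 0 < U x + d := by linarith
    have e1 : (U x + d) ^ (2 + γ) = (U x + d) ^ 2 * (U x + d) ^ γ := by
      rw [Real.rpow_add hpos, show (2 : ℝ) = ((2 : ℕ) : ℝ) by norm_num, Real.rpow_natCast]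
    have e2 : (U x + d) ^ γ ≤ 11 / 10 :=
      (Real.rpow_le_rpow hpos.le (by linarith [hU x]) hγ.le).trans hM
    have e3 : Real.exp (-(2 * γ * x)) ≤ 11 / 10 := by
      refine le_trans (Real.exp_le_exp.2 ?_) hR
      nlinarith
    rw [e1]
    have e4 : (U x + d) ^ 2 * (U x + d) ^ γ * Real.exp (-(2 * γ * x)) ≤
        (U x + d) ^ 2 * (11 / 10) * (11 / 10) := by
      apply mul_le_mul _ e3 (Real.exp_pos _).le (by positivity)
      exact mul_le_mul_of_nonneg_left e2 (by positivity)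
    nlinarith [e4, sq_nonneg (U x - d)]
  refine h1.trans ?_
  rw [lintegral_add_right _ measurable_const, setLIntegral_const]
  have hint : IntegrableOn (fun x => 121 / 50 * U x ^ 2) (Ioo a b ∩ Oz α β ℓ) := by
    have hc : Continuous fun x => 121 / 50 * U x ^ 2 := continuous_const.mul (O.cont.pow 2)
    exact (hc.integrableOn_Icc (a := a) (b := b)).mono_set
      (inter_subset_left.trans Ioo_subset_Icc_self)
  rw [← ofReal_integral_eq_lintegral_ofReal hint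
    (Filter.Eventually.of_forall fun x => by
      show 0 ≤ 121 / 50 * U x ^ 2
      positivity), integral_const_mul, mul_add, ENNReal.ofReal_add
      (mul_nonneg (by norm_num) (integral_nonneg fun x => sq_nonneg _)) (by positivity)]
  refine add_le_add_right ?_ _
  have hvol : volume (Ioo a b ∩ Oz α β ℓ) ≤ ENNReal.ofReal (2 * ℓ) := by
    calc volume (Ioo a b ∩ Oz α β ℓ) ≤ volume (Oz α β ℓ) := measure_mono inter_subset_right
      _ ≤ volume (Ioo α (α + ℓ)) + volume (Ioo (β - ℓ) β) := measure_union_le _ _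
      _ = ENNReal.ofReal (2 * ℓ) := by
        rw [Real.volume_Ioo, Real.volume_Ioo, ← ENNReal.ofReal_add (by linarith) (by linarith)]
        congr 1; ring
  calc ENNReal.ofReal (121 / 50 * d ^ 2) * volume (Ioo a b ∩ Oz α β ℓ)
      ≤ ENNReal.ofReal (121 / 50 * d ^ 2) * ENNReal.ofReal (2 * ℓ) := mul_le_mul_right hvol _
    _ = ENNReal.ofReal (121 / 50 * (2 * Real.pi ^ 4 / ℓ ^ 3)) := by
      rw [← ENNReal.ofReal_mul (by positivity)]
      congr 1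
      rw [hd]
      field_simp

end win

theorem deficit {K R ε : ℝ} (hK : 0 < K) (hR : 0 < R) (hε : 0 < ε) :
    ∃ γ₁ > 0, ∃ δ₁ > 0, ∀ γ a b C : ℝ, ∀ U : ℝ → ℝ, 0 < γ → γ < γ₁ → Opt γ a b C U → 3 / 16 * (1 - δ₁) * kap γ ≤ C →
      C ≤ 3 / 16 * kap γ → (∀ x, U x ≤ K) → ∀ α β ℓ : ℝ, -R ≤ α → β ≤ R → 1 ≤ ℓ → α + 2 * ℓ ≤ β →
        ENNReal.ofReal (3 / 16 * ∫ x in Ioo (max a α) (min b β), Um U α β ℓ x ^ 2) ≤
          Ntot (max a α) (min b β) (Um U α β ℓ) 0 +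
            ENNReal.ofReal (ε + (∫ x in Ioo a b ∩ Oz α β ℓ, U x ^ 2) + 2 * Real.pi ^ 4 / ℓ ^ 3) := by
  have hM1 : 1 ≤ K + Real.pi ^ 2 := by nlinarith [Real.pi_gt_three]
  have hM : 0 < K + Real.pi ^ 2 := by linarith
  set c1 : ℝ := (K + Real.pi ^ 2) ^ 3 * Real.exp (2 * R) * (2 * R) with hc1
  set c2 : ℝ := 3 / 8 * (K + Real.pi ^ 2) * Real.exp (2 * R) * (2 * R) with hc2
  have hc1p : 0 < c1 := by positivity
  have hc2p : 0 < c2 := by positivity
  set t : ℝ := min 1 (ε / (4 * c2)) with ht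
  have htp : 0 < t := lt_min one_pos (by positivity)
  have ht2 : c2 * t ≤ ε / 4 := by
    have : t ≤ ε / (4 * c2) := min_le_right _ _
    calc c2 * t ≤ c2 * (ε / (4 * c2)) := mul_le_mul_of_nonneg_left this hc2p.le
      _ = ε / 4 := by field_simp
  obtain ⟨γ₁, hγ₁, hγ⟩ := LD_exists_gamma (K := K) (R := R) (ε := ε) t (K + Real.pi ^ 2) htp hM
  refine ⟨γ₁, hγ₁, ε / (4 * c1), by positivity, ?_⟩
  intro γ a b C U h0 h1 O hC1 hC2 hU α β ℓ hα hβ hℓ h
  obtain ⟨g1, g2, g3, g4⟩ := hγ γ h0 h1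
  have hadm := LD_adm (K := K) O h0 hU hℓ h
  rw [LD_Atau_zero O hU hℓ h]
  have hJ := LD_J_le O h0 g1 hR hK hU hα hβ hℓ h
  have hGfin : Gf γ (max a α) (min b β) (Um U α β ℓ) ≠ ⊤ := by
    refine ne_top_of_le_ne_top ?_ (G_le h0 hadm)
    exact ENNReal.mul_ne_top ENNReal.ofReal_ne_top (ne_top_of_le_ne_top ENNReal.ofReal_ne_top hJ)
  have hk1 := LD_kap_le h0
  have hk0 := LD_kap_pos h0
  set Q : ℝ := ∫ x in Ioo a b ∩ Oz α β ℓ, U x ^ 2 with hQ
  have hQ0 : 0 ≤ Q := integral_nonneg fun x => sq_nonneg _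
  set E : ℝ≥0∞ := ENNReal.ofReal (3 / 16 * (ε / (4 * c1)) * c1) +
    ENNReal.ofReal (363 / 400 * (Q + 2 * Real.pi ^ 4 / ℓ ^ 3)) with hE
  have hmain : ∫⁻ τ in Ioi (0 : ℝ), ENNReal.ofReal (γ * τ ^ (γ - 1)) *
      Atau (max a α) (min b β) (Um U α β ℓ) τ ≤
      (∫⁻ τ in Ioi (0 : ℝ), ENNReal.ofReal (γ * τ ^ (γ - 1)) *
        Ntot (max a α) (min b β) (Um U α β ℓ) τ) + E := by
    rw [lintegral_Atau h0 hadm]
    have hw := window_ineq h0 O (α := α) (β := β) (ℓ := ℓ) (by linarith) h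
    have hz := LD_zone O h0 hK hU hα hβ hℓ h g3 g4
    have e1 : ENNReal.ofReal (3 / 16 * kap γ) ≤ ENNReal.ofReal C +
        ENNReal.ofReal (3 / 16 * (ε / (4 * c1))) := by
      rw [← ENNReal.ofReal_add O.hC.le (by positivity)]
      apply ENNReal.ofReal_le_ofReal
      have e2 : 3 / 16 * (ε / (4 * c1)) * kap γ ≤ 3 / 16 * (ε / (4 * c1)) := by
        have : 0 ≤ 3 / 16 * (ε / (4 * c1)) := by positivity
        nlinarith
      nlinarith
    calc ENNReal.ofReal (3 / 16 * kap γ) * Jf γ (max a α) (min b β) (Um U α β ℓ)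
        ≤ (ENNReal.ofReal C + ENNReal.ofReal (3 / 16 * (ε / (4 * c1)))) *
          Jf γ (max a α) (min b β) (Um U α β ℓ) := mul_le_mul_left e1 _
      _ = ENNReal.ofReal C * Jf γ (max a α) (min b β) (Um U α β ℓ) +
          ENNReal.ofReal (3 / 16 * (ε / (4 * c1))) *
            Jf γ (max a α) (min b β) (Um U α β ℓ) := by rw [add_mul]
      _ ≤ (Gf γ (max a α) (min b β) (Um U α β ℓ) + 2 * ENNReal.ofReal C *
            ENNReal.ofReal (121 / 50 * (Q + 2 * Real.pi ^ 4 / ℓ ^ 3))) +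
          ENNReal.ofReal (3 / 16 * (ε / (4 * c1))) * ENNReal.ofReal c1 := by
        refine add_le_add ?_ (mul_le_mul_right hJ _)
        exact hw.trans (add_le_add_right (mul_le_mul_right hz _) _)
      _ ≤ Gf γ (max a α) (min b β) (Um U α β ℓ) + E := by
        rw [add_assoc]
        refine add_le_add_right ?_ _
        rw [hE, add_comm]
        refine add_le_add ?_ ?_
        · rw [← ENNReal.ofReal_mul (by positivity)]
        · rw [show (2 : ℝ≥0∞) = ENNReal.ofReal 2 by simp, ← ENNReal.ofReal_mul (by norm_num),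
            ← ENNReal.ofReal_mul (by have := O.hC; positivity)]
          apply ENNReal.ofReal_le_ofReal
          have hC3 : C ≤ 3 / 16 := by nlinarith
          have hX : 0 ≤ Q + 2 * Real.pi ^ 4 / ℓ ^ 3 := by
            have : 0 < ℓ := by linarith
            positivity
          have := mul_le_mul_of_nonneg_right hC3 hX
          nlinarith
  have hcore := LD_core h0 htp (E := E) (k := ENNReal.ofReal (c2 * t))
    (A := Atau (max a α) (min b β) (Um U α β ℓ)) (N := Ntot (max a α) (min b β) (Um U α β ℓ))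
    (fun τ hτ => Ntot_le h0 hadm hτ)
    (fun τ hτ => Ntot_anti (((LD_Um_cont O).integrableOn_Icc).mono_set Ioo_subset_Icc_self) hτ)
    (fun τ hτ hτt => LD_Atau_diff O hR hK hU hα hβ hℓ h hτ hτt) hGfin hmain
  refine hcore.trans ?_
  rw [add_assoc]
  refine add_le_add_right ?_ _
  rw [hE, add_mul, ← ENNReal.ofReal_mul (by positivity), ← ENNReal.ofReal_mul (by
    have : 0 < ℓ := by linarith
    positivity)]
  have hX : 0 ≤ Q + 2 * Real.pi ^ 4 / ℓ ^ 3 := by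
    have : 0 < ℓ := by linarith
    positivity
  have htg : 0 < t ^ (-γ) := Real.rpow_pos_of_pos htp _
  rw [← ENNReal.ofReal_add (by positivity) (by positivity),
    ← ENNReal.ofReal_add (by positivity) (by positivity)]
  apply ENNReal.ofReal_le_ofReal
  have f1 : 3 / 16 * (ε / (4 * c1)) * c1 = 3 / 64 * ε := by
    field_simp
    ring
  rw [f1]
  have f2 : 3 / 64 * ε * t ^ (-γ) ≤ 3 / 64 * ε * (11 / 10) :=
    mul_le_mul_of_nonneg_left g2 (by positivity)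
  have f3 : 363 / 400 * (Q + 2 * Real.pi ^ 4 / ℓ ^ 3) * t ^ (-γ) ≤
      363 / 400 * (Q + 2 * Real.pi ^ 4 / ℓ ^ 3) * (11 / 10) :=
    mul_le_mul_of_nonneg_left g2 (by positivity)
  nlinarith

end Pool.Agent.RLT40
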