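import Pool.Agent.RLT40.LTTop

/-!
# Modules LTC1, LTC2 (paper 1.3): commutation (Darboux transformation) for `V` continuous with compact support on `ℝ`.

`LeftSol V M κ f g`: `f'' = (κ² - V) f`, `f = e^{κ x}` for `x ≤ -M`.
-/

open MeasureTheory Set
open scoped ENNReal NNReal Topology

namespace Pool.Agent.RLT40

section Dar

variable {V φ ψ f g : ℝ → ℝ} {M κ κ₁ : ℝ}

/-- `F = ψ / φ` -/
theorem ltd_F (h : LeftSol V M κ₁ φ ψ) (hpos : ∀ x, 0 < φ x) (x : ℝ) :
    HasDerivAt (fun x => ψ x / φ x) (κ₁ ^ 2 - V x - (ψ x / φ x) ^ 2) x := by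
  refine ((h.sol.d2 x).div (h.sol.d1 x) (hpos x).ne').congr_deriv ?_
  have := (hpos x).ne'
  field_simp

theorem ltd_left (h : LeftSol V M κ₁ φ ψ) : ∀ x ≤ -M, ψ x / φ x = κ₁ := by
  intro x hx
  rw [h.left_g x hx, h.left x hx]
  exact mul_div_cancel_right₀ _ (Real.exp_pos _).ne'

theorem ltd_right (hpos : ∀ x, 0 < φ x) (hr : ∀ x, M ≤ x → ψ x = -κ₁ * φ x) : ∀ x, M ≤ x → ψ x / φ x = -κ₁ := by
  intro x hx
  rw [hr x hx]
  exact mul_div_cancel_right₀ _ (hpos x).ne'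

end Dar

theorem darboux_props {V : ℝ → ℝ} (hV : Continuous V) {M : ℝ} (hM : 0 < M) (hs : ∀ x, M ≤ |x| → V x = 0) {κ₁ : ℝ} (hκ₁ : 0 < κ₁)
    {φ ψ : ℝ → ℝ} (h : LeftSol V M κ₁ φ ψ) (hpos : ∀ x, 0 < φ x) (hr : ∀ x, M ≤ x → ψ x = -κ₁ * φ x) :
    Continuous (darboux V φ ψ κ₁) ∧ (∀ x, M ≤ |x| → darboux V φ ψ κ₁ x = 0) ∧
      ∫ x, darboux V φ ψ κ₁ x ^ 2 = (∫ x, V x ^ 2) - 16 / 3 * κ₁ ^ 3 := by
  have hFc : Continuous (fun x => ψ x / φ x) :=
    h.sol.continuous_right.div h.sol.continuous_left fun x => (hpos x).ne'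
  have hc : Continuous (darboux V φ ψ κ₁) := by
    unfold darboux
    exact (continuous_const.sub ((hFc.pow 2).const_smul (2 : ℝ))).sub hV
  have hz : ∀ x, M ≤ |x| → darboux V φ ψ κ₁ x = 0 := by
    intro x hx
    unfold darboux
    rw [hs x hx]
    rcases le_abs.1 hx with h1 | h1
    · rw [ltd_right hpos hr x h1]; ring
    · rw [ltd_left h x (by linarith)]; ring
  refine ⟨hc, hz, ?_⟩
  have hsupp : ∀ (U : ℝ → ℝ), (∀ x, M ≤ |x| → U x = 0) → ∫ x, U x ^ 2 = ∫ x in (-M)..M, U x ^ 2 := by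
    intro U hU
    symm
    apply intervalIntegral.integral_eq_integral_of_support_subset
    intro x hx
    rw [Function.mem_support] at hx
    have h1 : |x| < M := by
      by_contra hcon
      push Not at hcon
      exact hx (by rw [hU x hcon]; ring)
    exact ⟨(abs_lt.1 h1).1, (abs_lt.1 h1).2.le⟩
  rw [hsupp _ hz, hsupp _ hs, eq_sub_iff_add_eq, ← eq_sub_iff_add_eq']
  have hi1 : IntervalIntegrable (fun x => V x ^ 2) volume (-M) M := (hV.pow 2).intervalIntegrable _ _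
  have hi2 : IntervalIntegrable (fun x => darboux V φ ψ κ₁ x ^ 2) volume (-M) M :=
    (hc.pow 2).intervalIntegrable _ _
  rw [← intervalIntegral.integral_sub hi1 hi2]
  have hd : ∀ x ∈ uIcc (-M) M, HasDerivAt (fun x => -4 * (κ₁ ^ 2 * (ψ x / φ x) - (ψ x / φ x) ^ 3 / 3))
      (V x ^ 2 - darboux V φ ψ κ₁ x ^ 2) x := by
    intro x _
    have h1 := ltd_F h hpos x
    have h2 := ((h1.const_mul (κ₁ ^ 2)).sub ((h1.pow 3).div_const 3)).const_mul (-4)
    refine h2.congr_deriv ?_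
    unfold darboux
    simp only [Nat.cast_ofNat, Nat.add_one_sub_one]
    ring
  rw [intervalIntegral.integral_eq_sub_of_hasDerivAt hd (hi1.sub hi2), ltd_right hpos hr M le_rfl, ltd_left h (-M) le_rfl]
  ring

section DarZ

variable {V φ ψ f g : ℝ → ℝ} {M κ κ₁ : ℝ}

/-- the Wronskian -/
theorem ltd_W (h : LeftSol V M κ₁ φ ψ) (hf : LeftSol V M κ f g) (x : ℝ) :
    HasDerivAt (fun x => φ x * g x - ψ x * f x) ((κ ^ 2 - κ₁ ^ 2) * (φ x * f x)) x := by
  refine (wronskian_hasDerivAt h.sol hf.sol x).congr_deriv ?_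
  ring

theorem ltd_W_cont (h : LeftSol V M κ₁ φ ψ) (hf : LeftSol V M κ f g) :
    Continuous (fun x => φ x * g x - ψ x * f x) :=
  continuous_iff_continuousAt.2 fun x => (ltd_W h hf x).continuousAt

theorem ltd_W_left (h : LeftSol V M κ₁ φ ψ) (hf : LeftSol V M κ f g) (hκ' : κ < κ₁) :
    ∀ x ≤ -M, φ x * g x - ψ x * f x < 0 := by
  intro x hx
  rw [h.left x hx, hf.left x hx, h.left_g x hx, hf.left_g x hx]
  have h1 : 0 < (κ₁ - κ) * (Real.exp (κ₁ * x) * Real.exp (κ * x)) := by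
    have := sub_pos.2 hκ'
    positivity
  linarith

/-- the Wronskian tends to zero at `+∞` -/
theorem ltd_W_tendsto (hs : ∀ x, M ≤ |x| → V x = 0) (h : LeftSol V M κ₁ φ ψ)
    (hr : ∀ x, M ≤ x → ψ x = -κ₁ * φ x) (hκ : 0 < κ) (hκ' : κ < κ₁) (hf : LeftSol V M κ f g) :
    Filter.Tendsto (fun x => φ x * g x - ψ x * f x) Filter.atTop (𝓝 0) := by
  have hκ₁ : 0 < κ₁ := hκ.trans hκ'
  have hφ : ∀ x ∈ Ici M, φ x = φ M * Real.exp (-κ₁ * (x - M)) :=
    lt_exp_on (convex_Ici M) (mem_Ici.2 le_rfl) fun x hx => by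
      rw [← hr x hx]; exact h.sol.d1 x
  set A := φ M * ((κ + κ₁) / (2 * κ) * (g M + κ * f M)) with hA
  set B := φ M * ((κ - κ₁) / (2 * κ) * (g M - κ * f M)) with hB
  have hW : ∀ x, M ≤ x → φ x * g x - ψ x * f x =
      A * Real.exp (-((κ₁ - κ) * (x - M))) + B * Real.exp (-((κ₁ + κ) * (x - M))) := by
    intro x hx
    obtain ⟨h1, h2⟩ := lt_right_rep hs hf.sol x hx
    have e1 : g x = ((g M + κ * f M) * Real.exp (κ * (x - M)) + (g M - κ * f M) * Real.exp (-κ * (x - M))) / 2 := by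
      linarith
    have e2 : f x = ((g M + κ * f M) * Real.exp (κ * (x - M)) - (g M - κ * f M) * Real.exp (-κ * (x - M))) / (2 * κ) := by
      rw [eq_div_iff (by positivity)]
      linarith
    rw [hr x hx, hφ x hx, e1, e2, hA, hB]
    have e3 : Real.exp (-((κ₁ - κ) * (x - M))) = Real.exp (-κ₁ * (x - M)) * Real.exp (κ * (x - M)) := by
      rw [← Real.exp_add]; ring_nf
    have e4 : Real.exp (-((κ₁ + κ) * (x - M))) = Real.exp (-κ₁ * (x - M)) * Real.exp (-κ * (x - M)) := by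
      rw [← Real.exp_add]; ring_nf
    rw [e3, e4]
    field_simp
    ring
  have hlim : ∀ c : ℝ, 0 < c → Filter.Tendsto (fun x => Real.exp (-(c * (x - M)))) Filter.atTop (𝓝 0) := by
    intro c hc
    refine Real.tendsto_exp_neg_atTop_nhds_zero.comp ?_
    exact (Filter.tendsto_atTop_add_const_right _ (-M) Filter.tendsto_id).const_mul_atTop hc
  have h3 : Filter.Tendsto (fun x => A * Real.exp (-((κ₁ - κ) * (x - M))) + B * Real.exp (-((κ₁ + κ) * (x - M))))
      Filter.atTop (𝓝 0) := by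
    have := ((hlim (κ₁ - κ) (sub_pos.2 hκ')).const_mul A).add ((hlim (κ₁ + κ) (by positivity)).const_mul B)
    simpa using this
  refine h3.congr' ?_
  filter_upwards [Filter.eventually_ge_atTop M] with x hx
  exact (hW x hx).symm

/-- constant sign on an interval without zeros -/
theorem ltd_sign {f : ℝ → ℝ} (hc : Continuous f) {s : Set ℝ} (hsc : Convex ℝ s) (hne : ∀ x ∈ s, f x ≠ 0) :
    (∀ x ∈ s, 0 < f x) ∨ (∀ x ∈ s, f x < 0) := by
  by_contra hcon
  push Not at hcon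
  obtain ⟨⟨x, hx, h1⟩, ⟨y, hy, h2⟩⟩ := hcon
  obtain ⟨z, hz, hz0⟩ := hsc.isPreconnected.intermediate_value hx hy hc.continuousOn (mem_Icc.2 ⟨h1, h2⟩)
  exact hne z hz hz0

/-- on an interval without zeros of `f` the Wronskian is strictly monotone -/
theorem ltd_inj (h : LeftSol V M κ₁ φ ψ) (hpos : ∀ x, 0 < φ x) (hκ : 0 < κ) (hκ' : κ < κ₁)
    (hf : LeftSol V M κ f g) {s : Set ℝ} (hsc : Convex ℝ s) (hne : ∀ x ∈ interior s, f x ≠ 0) :
    StrictMonoOn (fun x => φ x * g x - ψ x * f x) s ∨ StrictAntiOn (fun x => φ x * g x - ψ x * f x) s := by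
  have hneg : κ ^ 2 - κ₁ ^ 2 < 0 := by nlinarith
  rcases ltd_sign hf.sol.continuous_left hsc.interior hne with h1 | h1
  · right
    refine strictAntiOn_of_deriv_neg hsc (ltd_W_cont h hf).continuousOn fun x hx => ?_
    rw [(ltd_W h hf x).deriv]
    exact mul_neg_of_neg_of_pos hneg (mul_pos (hpos x) (h1 x hx))
  · left
    refine strictMonoOn_of_deriv_pos hsc (ltd_W_cont h hf).continuousOn fun x hx => ?_
    rw [(ltd_W h hf x).deriv]
    exact mul_pos_of_neg_of_neg hneg (mul_neg_of_pos_of_neg (hpos x) (h1 x hx))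

/-- a zero of `W` has a zero of `f` on its left -/
theorem ltd_exists_left (h : LeftSol V M κ₁ φ ψ) (hpos : ∀ x, 0 < φ x) (hκ : 0 < κ) (hκ' : κ < κ₁)
    (hf : LeftSol V M κ f g) {x : ℝ} (hx : φ x * g x - ψ x * f x = 0) : ∃ z < x, f z = 0 := by
  by_contra hcon
  push Not at hcon
  have hxM : -M < x := by
    by_contra hle
    push Not at hle
    exact (ltd_W_left h hf hκ' x hle).ne hx
  have hfp : ∀ y ∈ interior (Iic x), 0 < f y := by
    intro y hy
    rw [interior_Iic] at hy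
    rcases ltd_sign hf.sol.continuous_left (convex_Iio x) (fun z hz => hcon z hz) with h1 | h1
    · exact h1 y hy
    · exact absurd (h1 (-M) hxM) (not_lt.2 (hf.pos_left _ le_rfl).le)
  have hneg : κ ^ 2 - κ₁ ^ 2 < 0 := by nlinarith
  have hanti : StrictAntiOn (fun x => φ x * g x - ψ x * f x) (Iic x) := by
    refine strictAntiOn_of_deriv_neg (convex_Iic x) (ltd_W_cont h hf).continuousOn fun y hy => ?_
    rw [(ltd_W h hf y).deriv]
    exact mul_neg_of_neg_of_pos hneg (mul_pos (hpos y) (hfp y hy))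
  have h1 := hanti (mem_Iic.2 hxM.le) (mem_Iic.2 le_rfl) hxM
  simp only [hx] at h1
  exact absurd h1 (not_lt.2 (ltd_W_left h hf hκ' (-M) le_rfl).le)

/-- a zero of `W` has a zero of `f` on its right -/
theorem ltd_exists_right (hs : ∀ x, M ≤ |x| → V x = 0) (h : LeftSol V M κ₁ φ ψ) (hpos : ∀ x, 0 < φ x)
    (hr : ∀ x, M ≤ x → ψ x = -κ₁ * φ x) (hκ : 0 < κ) (hκ' : κ < κ₁)
    (hf : LeftSol V M κ f g) {x : ℝ} (hx : φ x * g x - ψ x * f x = 0) : ∃ z, x < z ∧ f z = 0 := by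
  by_contra hcon
  push Not at hcon
  have hlim := ltd_W_tendsto hs h hr hκ hκ' hf
  rcases ltd_inj h hpos hκ hκ' hf (convex_Ici x) (fun z hz => by
    rw [interior_Ici] at hz; exact hcon z hz) with hm | hm
  · have h1 := hm (mem_Ici.2 le_rfl) (mem_Ici.2 (by linarith : x ≤ x + 1)) (by linarith)
    simp only [hx] at h1
    have h2 : φ (x + 1) * g (x + 1) - ψ (x + 1) * f (x + 1) ≤ 0 := by
      refine ge_of_tendsto hlim ?_
      filter_upwards [Filter.eventually_ge_atTop (x + 1)] with y hy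
      exact hm.monotoneOn (mem_Ici.2 (by linarith)) (mem_Ici.2 (by linarith)) hy
    linarith
  · have h1 := hm (mem_Ici.2 le_rfl) (mem_Ici.2 (by linarith : x ≤ x + 1)) (by linarith)
    simp only [hx] at h1
    have h2 : 0 ≤ φ (x + 1) * g (x + 1) - ψ (x + 1) * f (x + 1) := by
      refine le_of_tendsto hlim ?_
      filter_upwards [Filter.eventually_ge_atTop (x + 1)] with y hy
      exact hm.antitoneOn (mem_Ici.2 (by linarith)) (mem_Ici.2 (by linarith)) hy
    linarith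

/-- `f` has a zero -/
theorem ltd_exists_zero (hs : ∀ x, M ≤ |x| → V x = 0) (h : LeftSol V M κ₁ φ ψ) (hpos : ∀ x, 0 < φ x)
    (hr : ∀ x, M ≤ x → ψ x = -κ₁ * φ x) (hκ : 0 < κ) (hκ' : κ < κ₁)
    (hf : LeftSol V M κ f g) : ∃ z, f z = 0 := by
  by_contra hcon
  push Not at hcon
  have hlim := ltd_W_tendsto hs h hr hκ hκ' hf
  have hfp := hf.pos_of_ne hcon
  have hneg : κ ^ 2 - κ₁ ^ 2 < 0 := by nlinarith
  have hanti : StrictAnti (fun x => φ x * g x - ψ x * f x) := by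
    refine strictAnti_of_deriv_neg fun y => ?_
    rw [(ltd_W h hf y).deriv]
    exact mul_neg_of_neg_of_pos hneg (mul_pos (hpos y) (hfp y))
  have h1 := ltd_W_left h hf hκ' (-M) le_rfl
  have h2 : 0 ≤ φ (-M) * g (-M) - ψ (-M) * f (-M) := by
    refine le_of_tendsto hlim ?_
    filter_upwards [Filter.eventually_ge_atTop (-M)] with y hy
    exact hanti.antitone hy
  linarith

/-- between two consecutive zeros of `f` there is a zero of `W` -/
theorem ltd_between (hV : Continuous V) (h : LeftSol V M κ₁ φ ψ) (hpos : ∀ x, 0 < φ x)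
    (hf : LeftSol V M κ f g) {a b : ℝ} (hab : a < b) (ha : f a = 0) (hb : f b = 0) (hne : ∀ x ∈ Ioo a b, f x ≠ 0) :
    ∃ z ∈ Ioo a b, φ z * g z - ψ z * f z = 0 := by
  have hga := hf.sol.deriv_ne_zero (lt_cont_pot hV κ) hf.nz ha
  have hgb := hf.sol.deriv_ne_zero (lt_cont_pot hV κ) hf.nz hb
  have hWa : φ a * g a - ψ a * f a = φ a * g a := by rw [ha]; ring
  have hWb : φ b * g b - ψ b * f b = φ b * g b := by rw [hb]; ring
  -- the signs of `g` at `a` and `b`
  have hsgn : ∀ s : ℝ, s ≠ 0 → (∀ x ∈ Ioo a b, 0 < s * f x) → 0 ≤ s * g a ∧ s * g b ≤ 0 := by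
    intro s _ hsp
    have hd : ∀ x, HasDerivAt (fun x => s * f x) (s * g x) x := fun x => (hf.sol.d1 x).const_mul s
    constructor
    · refine ge_of_tendsto (x := 𝓝[>] a) ((hasDerivAt_iff_tendsto_slope.1 (hd a)).mono_left
        (nhdsWithin_mono _ fun x (hx : a < x) => hx.ne')) ?_
      filter_upwards [Ioo_mem_nhdsGT hab] with x hx
      rw [slope_def_field, ha, mul_zero, sub_zero]
      exact div_nonneg (hsp x hx).le (by linarith [hx.1])
    · refine le_of_tendsto (x := 𝓝[<] b) ((hasDerivAt_iff_tendsto_slope.1 (hd b)).mono_left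
        (nhdsWithin_mono _ fun x (hx : x < b) => hx.ne)) ?_
      filter_upwards [Ioo_mem_nhdsLT hab] with x hx
      rw [slope_def_field, hb, mul_zero, sub_zero]
      exact div_nonpos_of_nonneg_of_nonpos (hsp x hx).le (by linarith [hx.2])
  have hcW := ltd_W_cont h hf
  rcases ltd_sign hf.sol.continuous_left (convex_Ioo a b) hne with h1 | h1
  · obtain ⟨h2, h3⟩ := hsgn 1 one_ne_zero (fun x hx => by rw [one_mul]; exact h1 x hx)
    rw [one_mul] at h2 h3
    have h2' : 0 < g a := lt_of_le_of_ne h2 hga.symm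
    have h3' : g b < 0 := lt_of_le_of_ne h3 hgb
    obtain ⟨z, hz, hz0⟩ := intermediate_value_Ioo' hab.le hcW.continuousOn (show (0 : ℝ) ∈ Ioo _ _ from by
      constructor
      · simp only [hWb]; exact mul_neg_of_pos_of_neg (hpos b) h3'
      · simp only [hWa]; exact mul_pos (hpos a) h2')
    exact ⟨z, hz, hz0⟩
  · obtain ⟨h2, h3⟩ := hsgn (-1) (by norm_num) (fun x hx => by linarith [h1 x hx])
    have h2' : g a < 0 := lt_of_le_of_ne (by linarith) hga
    have h3' : 0 < g b := lt_of_le_of_ne (by linarith) hgb.symm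
    obtain ⟨z, hz, hz0⟩ := intermediate_value_Ioo hab.le hcW.continuousOn (show (0 : ℝ) ∈ Ioo _ _ from by
      constructor
      · simp only [hWa]; exact mul_neg_of_pos_of_neg (hpos a) h2'
      · simp only [hWb]; exact mul_pos (hpos b) h3')
    exact ⟨z, hz, hz0⟩

/-- two finite sets of reals, the second one interlacing the first one -/
theorem ltd_interlace {Z Z' : Set ℝ} (hZ : Z.Finite) (hne : Z.Nonempty) (hdisj : ∀ x ∈ Z', x ∉ Z)
    (hl : ∀ x ∈ Z', ∃ z ∈ Z, z < x) (hr : ∀ x ∈ Z', ∃ z ∈ Z, x < z)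
    (hex : ∀ a ∈ Z, ∀ b ∈ Z, a < b → (∀ x ∈ Ioo a b, x ∉ Z) → ∃ z ∈ Ioo a b, z ∈ Z')
    (huniq : ∀ x ∈ Z', ∀ y ∈ Z', x < y → ∃ z ∈ Z, x < z ∧ z < y) : Z'.ncard + 1 = Z.ncard := by
  have hmax : sSup Z ∈ Z := hne.csSup_mem hZ
  have hbd : BddAbove Z := hZ.bddAbove
  rw [← Set.ncard_sdiff_singleton_add_one hmax hZ]
  congr 1
  have hp : ∀ x ∈ Z', sSup (Z ∩ Iio x) ∈ Z ∩ Iio x := by
    intro x hx
    obtain ⟨z, hz, hzx⟩ := hl x hx
    exact Set.Nonempty.csSup_mem ⟨z, hz, hzx⟩ (hZ.subset inter_subset_left)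
  have hpb : ∀ x, BddAbove (Z ∩ Iio x) := fun x => hbd.mono inter_subset_left
  refine Set.ncard_congr (fun x _ => sSup (Z ∩ Iio x)) ?_ ?_ ?_
  · intro x hx
    refine ⟨(hp x hx).1, ?_⟩
    intro heq
    obtain ⟨z, hz, hxz⟩ := hr x hx
    have h1 : z ≤ sSup Z := le_csSup hbd hz
    have h2 : sSup (Z ∩ Iio x) < x := (hp x hx).2
    rw [mem_singleton_iff] at heq
    rw [heq] at h2
    linarith
  · intro x y hx hy hxy
    by_contra hne'
    rcases lt_or_gt_of_ne hne' with hlt | hlt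
    · obtain ⟨z, hz, h1, h2⟩ := huniq x hx y hy hlt
      have h3 : z ≤ sSup (Z ∩ Iio y) := le_csSup (hpb y) ⟨hz, h2⟩
      have h4 : sSup (Z ∩ Iio x) < x := (hp x hx).2
      rw [hxy] at h4
      linarith
    · obtain ⟨z, hz, h1, h2⟩ := huniq y hy x hx hlt
      have h3 : z ≤ sSup (Z ∩ Iio x) := le_csSup (hpb x) ⟨hz, h2⟩
      have h4 : sSup (Z ∩ Iio y) < y := (hp y hy).2
      rw [← hxy] at h4
      linarith
  · intro a ha
    have haZ : a ∈ Z := ha.1
    have hane : a ≠ sSup Z := ha.2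
    have halt : a < sSup Z := lt_of_le_of_ne (le_csSup hbd haZ) hane
    have hfin : (Z ∩ Ioi a).Finite := hZ.subset inter_subset_left
    have hb : sInf (Z ∩ Ioi a) ∈ Z ∩ Ioi a := Set.Nonempty.csInf_mem ⟨_, hmax, halt⟩ hfin
    set b := sInf (Z ∩ Ioi a) with hbd'
    have hno : ∀ x ∈ Ioo a b, x ∉ Z := by
      intro x hx hxZ
      have : b ≤ x := csInf_le hfin.bddBelow ⟨hxZ, hx.1⟩
      linarith [hx.2]
    obtain ⟨z, hz, hzZ⟩ := hex a haZ b hb.1 hb.2 hno
    refine ⟨z, hzZ, ?_⟩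
    apply le_antisymm
    · refine csSup_le ⟨a, haZ, hz.1⟩ ?_
      rintro y ⟨hyZ, hyz⟩
      by_contra hcon
      push Not at hcon
      exact hno y ⟨hcon, lt_trans hyz hz.2⟩ hyZ
    · exact le_csSup (hpb z) ⟨haZ, hz.1⟩

end DarZ

/-- The transformation removes exactly one zero: `χ = (g - F f)/(κ - κ₁)` is the left solution for `V₁`. With `W = φ g - ψ f = φ (g - F f)`,
`W' = (κ² - κ₁²) φ f`, `W(-∞) = W(+∞) = 0`: `W` has no zero before the first and after the last zero of `f`, exactly one between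
consecutive zeros of `f`. -/
theorem darboux_zeros {V : ℝ → ℝ} (hV : Continuous V) {M : ℝ} (hM : 0 < M) (hs : ∀ x, M ≤ |x| → V x = 0) {κ₁ : ℝ} (hκ₁ : 0 < κ₁)
    {φ ψ : ℝ → ℝ} (h : LeftSol V M κ₁ φ ψ) (hpos : ∀ x, 0 < φ x) (hr : ∀ x, M ≤ x → ψ x = -κ₁ * φ x)
    {κ : ℝ} (hκ : 0 < κ) (hκ' : κ < κ₁) {f g : ℝ → ℝ} (hf : LeftSol V M κ f g) :
    ∃ f₁ g₁ : ℝ → ℝ, LeftSol (darboux V φ ψ κ₁) M κ f₁ g₁ ∧ {x | f₁ x = 0}.ncard + 1 = {x | f x = 0}.ncard := by
  have hk : κ - κ₁ ≠ 0 := (sub_neg.2 hκ').ne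
  refine ⟨fun x => (g x - ψ x / φ x * f x) / (κ - κ₁),
    fun x => ((κ ^ 2 - κ₁ ^ 2 + (ψ x / φ x) ^ 2) * f x - ψ x / φ x * g x) / (κ - κ₁), ⟨⟨?_, ?_⟩, ?_⟩, ?_⟩
  · intro x
    have h1 := ltd_F h hpos x
    refine (((hf.sol.d2 x).sub (h1.mul (hf.sol.d1 x))).div_const (κ - κ₁)).congr_deriv ?_
    ring
  · intro x
    have h1 := ltd_F h hpos x
    have h2 := (((((h1.pow 2).const_add (κ ^ 2 - κ₁ ^ 2)).mul (hf.sol.d1 x)).sub
      (h1.mul (hf.sol.d2 x))).div_const (κ - κ₁))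
    refine h2.congr_deriv ?_
    unfold darboux
    simp only [Nat.cast_ofNat, Nat.add_one_sub_one, pow_one, Pi.pow_apply]
    field_simp
    ring
  · intro x hx
    rw [ltd_left h x hx, hf.left x hx, hf.left_g x hx]
    field_simp
  · have hset : {x | (g x - ψ x / φ x * f x) / (κ - κ₁) = 0} = {x | φ x * g x - ψ x * f x = 0} := by
      ext x
      have hφ := (hpos x).ne'
      simp only [mem_ofPred_eq]
      rw [div_eq_zero_iff, or_iff_left hk]
      have h1 : g x - ψ x / φ x * f x = (φ x * g x - ψ x * f x) / φ x := by field_simp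
      rw [h1, div_eq_zero_iff, or_iff_left hφ]
    rw [hset]
    have hfin := leftSol_zeros_finite hV hs hκ hf
    refine ltd_interlace hfin (ltd_exists_zero hs h hpos hr hκ hκ' hf) ?_ ?_ ?_ ?_ ?_
    · intro x hx hfx
      have hfx' : f x = 0 := hfx
      have hx' : φ x * g x - ψ x * f x = 0 := hx
      rw [hfx', mul_zero, sub_zero] at hx'
      rcases mul_eq_zero.1 hx' with h1 | h1
      · exact (hpos x).ne' h1
      · exact hf.sol.deriv_ne_zero (lt_cont_pot hV κ) hf.nz hfx' h1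
    · intro x hx
      obtain ⟨z, hz, hz0⟩ := ltd_exists_left h hpos hκ hκ' hf hx
      exact ⟨z, hz0, hz⟩
    · intro x hx
      obtain ⟨z, hz, hz0⟩ := ltd_exists_right hs h hpos hr hκ hκ' hf hx
      exact ⟨z, hz0, hz⟩
    · intro a ha b hb hab hno
      exact ltd_between hV h hpos hf hab ha hb hno
    · intro x hx y hy hxy
      by_contra hcon
      push Not at hcon
      have h1 := ltd_inj h hpos hκ hκ' hf (convex_Icc x y) (fun z hz hz0 => by
        rw [interior_Icc] at hz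
        exact absurd hz.2 (not_lt.2 (hcon z hz0 hz.1)))
      have hx' : φ x * g x - ψ x * f x = 0 := hx
      have hy' : φ y * g y - ψ y * f y = 0 := hy
      rcases h1 with h2 | h2
      · have := h2 (left_mem_Icc.2 hxy.le) (right_mem_Icc.2 hxy.le) hxy
        simp only [hx', hy', lt_irrefl] at this
      · have := h2 (left_mem_Icc.2 hxy.le) (right_mem_Icc.2 hxy.le) hxy
        simp only [hx', hy', lt_irrefl] at this

end Pool.Agent.RLT40
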