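import Pool.Agent.RLT40.OneD

/-!
# Modules LTC1, LTC2 (paper 1.3): commutation (Darboux transformation) for `V` continuous with compact support on `ℝ`.

`LeftSol V M κ f g`: `f'' = (κ² - V) f`, `f = e^{κ x}` for `x ≤ -M`.
-/

open MeasureTheory Set
open scoped ENNReal NNReal

namespace Pool.Agent.RLT40

structure LeftSol (V : ℝ → ℝ) (M κ : ℝ) (f g : ℝ → ℝ) : Prop where
  sol : Sol (fun x => κ ^ 2 - V x) f g
  left : ∀ x ≤ -M, f x = Real.exp (κ * x)

/-- The transformed potential `V₁ = V + 2F'`, `F = ψ/φ`, `F' = κ₁² - V - F²`. -/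
noncomputable def darboux (V φ ψ : ℝ → ℝ) (κ₁ : ℝ) (x : ℝ) : ℝ := 2 * κ₁ ^ 2 - 2 * (ψ x / φ x) ^ 2 - V x

end Pool.Agent.RLT40
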