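import Pool.Agent.RLT40.LTDar

/-!
# Modules LTC1, LTC2 (paper 1.3): commutation (Darboux transformation) for `V` continuous with compact support on `ℝ`.

`LeftSol V M κ f g`: `f'' = (κ² - V) f`, `f = e^{κ x}` for `x ≤ -M`.
-/

open MeasureTheory Set
open scoped ENNReal NNReal

namespace Pool.Agent.RLT40

theorem LTZeros_num (n : ℕ) :
    1 + 8 / 5 * ∑ k ∈ Finset.Icc 2 (n + 1), (k : ℝ) ^ 2 ≤ ((n + 1 : ℕ) : ℝ) ^ 3 := by
  induction n with
  | zero => simp
  | succ n ih =>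
    rw [Finset.sum_Icc_succ_top (by omega)]
    push_cast at ih ⊢
    have hn : (0 : ℝ) ≤ n := Nat.cast_nonneg n
    nlinarith

/-- LT for zeros, by induction on the number of zeros of `f 1` (paper 1.3). -/
theorem LTZeros_aux (K n : ℕ) : ∀ {V : ℝ → ℝ} (_ : Continuous V) {M : ℝ} (_ : 0 < M)
    (_ : ∀ x, M ≤ |x| → V x = 0) (f g : ℕ → ℝ → ℝ)
    (_ : ∀ k : ℕ, LeftSol V M k (f k) (g k)), {x | f 1 x = 0}.ncard = n →
    (({x | f 1 x = 0}.ncard : ℕ) : ℝ) + 8 / 5 * ∑ k ∈ Finset.Icc 2 K, (k : ℝ) ^ 2 * (({x | f k x = 0}.ncard : ℕ) : ℝ)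
      ≤ 3 / 16 * ∫ x, V x ^ 2 := by
  induction n with
  | zero =>
    intro V hV M hM hs f g hf hn
    have h1 : ∀ x, f 1 x ≠ 0 := by
      intro x hx
      have hfin := leftSol_zeros_finite hV hs (κ := ((1 : ℕ) : ℝ)) (by norm_num) (hf 1)
      have := (Set.ncard_eq_zero hfin).1 hn
      have hmem : x ∈ {x | f 1 x = 0} := hx
      rw [this] at hmem
      exact hmem
    have hk : ∀ k ∈ Finset.Icc 2 K, (k : ℝ) ^ 2 * (({x | f k x = 0}.ncard : ℕ) : ℝ) = 0 := by
      intro k hk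
      have hk2 : 2 ≤ k := (Finset.mem_Icc.1 hk).1
      have hkpos : (0 : ℝ) < k := by
        have : (2 : ℝ) ≤ k := by exact_mod_cast hk2
        linarith
      have hemp : {x | f k x = 0} = ∅ := by
        rw [Set.eq_empty_iff_forall_notMem]
        intro x hx
        obtain ⟨κ₁, hκ, φ, ψ, -, -, -, -, h5⟩ := top_state hV hM hs hkpos (hf k) ⟨x, hx⟩
        have hk1 : ((1 : ℕ) : ℝ) < κ₁ := by
          have : (2 : ℝ) ≤ k := by exact_mod_cast hk2
          push_cast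
          linarith
        obtain ⟨z, hz⟩ := h5 ((1 : ℕ) : ℝ) (by norm_num) hk1 (f 1) (g 1) (hf 1)
        exact h1 z hz
      rw [hemp, Set.ncard_empty]
      simp
    rw [hn, Finset.sum_eq_zero hk]
    have : 0 ≤ ∫ x, V x ^ 2 := integral_nonneg fun x => sq_nonneg _
    simp only [Nat.cast_zero, mul_zero, add_zero]
    positivity
  | succ n ih =>
    intro V hV M hM hs f g hf hn
    have hz : ∃ x, f 1 x = 0 := by
      by_contra hcon
      push Not at hcon
      have : {x | f 1 x = 0} = ∅ := by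
        rw [Set.eq_empty_iff_forall_notMem]
        exact hcon
      rw [this, Set.ncard_empty] at hn
      omega
    obtain ⟨κ₁, hκ, φ, ψ, h1, h2, h3, h4, h5⟩ :=
      top_state hV hM hs (κ₀ := ((1 : ℕ) : ℝ)) (by norm_num) (hf 1) hz
    have hκ1 : (1 : ℝ) < κ₁ := by
      have : ((1 : ℕ) : ℝ) < κ₁ := hκ
      push_cast at this
      exact this
    have hκ0 : 0 < κ₁ := by linarith
    obtain ⟨d1, d2, d3⟩ := darboux_props hV hM hs hκ0 h1 h2 h3
    have hex : ∀ k : ℕ, ∃ f' g' : ℝ → ℝ, LeftSol (darboux V φ ψ κ₁) M k f' g' ∧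
        (0 < k → (k : ℝ) < κ₁ → {x | f' x = 0}.ncard + 1 = {x | f k x = 0}.ncard) := by
      intro k
      by_cases hk : 0 < k ∧ (k : ℝ) < κ₁
      · obtain ⟨f', g', e1, e2⟩ := darboux_zeros hV hM hs hκ0 h1 h2 h3
          (κ := (k : ℝ)) (by exact_mod_cast hk.1) hk.2 (hf k)
        exact ⟨f', g', e1, fun _ _ => e2⟩
      · obtain ⟨f', g', e1⟩ := exists_leftSol d1 d2 (k : ℝ)
        exact ⟨f', g', e1, fun a b => absurd ⟨a, b⟩ hk⟩
    choose f' g' hf' hcard using hex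
    have hc1 := hcard 1 one_pos (by push_cast; exact hκ1)
    have hIH := ih d1 hM d2 f' g' hf' (by omega)
    rw [d3] at hIH
    -- compare the sums
    set N := ⌈κ₁⌉₊ - 1 with hN
    have hceil : 1 < ⌈κ₁⌉₊ := Nat.lt_ceil.2 (by push_cast; exact hκ1)
    have hNlt : ((N : ℕ) : ℝ) < κ₁ := Nat.lt_ceil.1 (by omega)
    have hterm : ∀ k ∈ Finset.Icc 2 K, (k : ℝ) ^ 2 * (({x | f k x = 0}.ncard : ℕ) : ℝ) ≤
        (k : ℝ) ^ 2 * (({x | f' k x = 0}.ncard : ℕ) : ℝ) + (if k ≤ N then (k : ℝ) ^ 2 else 0) := by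
      intro k hk
      have hk2 : 2 ≤ k := (Finset.mem_Icc.1 hk).1
      by_cases hkN : k ≤ N
      · rw [if_pos hkN]
        have hlt : (k : ℝ) < κ₁ := Nat.lt_ceil.1 (by omega)
        have hc := hcard k (by omega) hlt
        rw [← hc]
        push_cast
        linarith
      · rw [if_neg hkN, add_zero]
        have hge : κ₁ ≤ (k : ℝ) := by
          by_contra hcon
          push Not at hcon
          have := Nat.lt_ceil.2 hcon
          omega
        have hemp : {x | f k x = 0} = ∅ := by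
          rw [Set.eq_empty_iff_forall_notMem]
          intro x hx
          exact h4 (k : ℝ) hge (f k) (g k) (hf k) x hx
        rw [hemp, Set.ncard_empty]
        simp only [Nat.cast_zero, mul_zero]
        positivity
    have hsum := Finset.sum_le_sum hterm
    rw [Finset.sum_add_distrib] at hsum
    have hsum2 : ∑ k ∈ Finset.Icc 2 K, (if k ≤ N then (k : ℝ) ^ 2 else 0) ≤
        ∑ k ∈ Finset.Icc 2 N, (k : ℝ) ^ 2 := by
      rw [← Finset.sum_filter]
      apply Finset.sum_le_sum_of_subset_of_nonneg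
      · intro k hk
        rw [Finset.mem_filter, Finset.mem_Icc] at hk
        rw [Finset.mem_Icc]
        exact ⟨hk.1.1, hk.2⟩
      · intro k _ _
        positivity
    obtain ⟨m, hm⟩ : ∃ m, N = m + 1 := ⟨N - 1, by omega⟩
    have hnum := LTZeros_num m
    rw [← hm] at hnum
    have hcube : ((N : ℕ) : ℝ) ^ 3 ≤ κ₁ ^ 3 := pow_le_pow_left₀ (Nat.cast_nonneg _) hNlt.le 3
    have hc1' : (({x | f 1 x = 0}.ncard : ℕ) : ℝ) = (({x | f' 1 x = 0}.ncard : ℕ) : ℝ) + 1 := by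
      rw [← hc1]; push_cast; ring
    rw [hc1']
    linarith

/-- LT for zeros, by induction on the number of zeros of `f 1` (paper 1.3). -/
theorem lt_zeros {V : ℝ → ℝ} (hV : Continuous V) {M : ℝ} (hM : 0 < M) (hs : ∀ x, M ≤ |x| → V x = 0) (f g : ℕ → ℝ → ℝ)
    (hf : ∀ k : ℕ, LeftSol V M k (f k) (g k)) (K : ℕ) :
    (({x | f 1 x = 0}.ncard : ℕ) : ℝ) + 8 / 5 * ∑ k ∈ Finset.Icc 2 K, (k : ℝ) ^ 2 * (({x | f k x = 0}.ncard : ℕ) : ℝ)
      ≤ 3 / 16 * ∫ x, V x ^ 2 :=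
  LTZeros_aux K _ hV hM hs f g hf rfl

end Pool.Agent.RLT40
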