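import Pool.Agent.RLT40.Jacobi
import Pool.Agent.RLT40.LTZeros
import Pool.Agent.RLT40.SpaceC

/-!
# Module LTM (paper 1.3): the inequality for `nneg` and potentials in `L²(a,b)`.

Proof.  (1) `V` continuous on `ℝ`, `V ≥ 0`, compact support: `nneg a b (k² - V) ≤ #zeros` of the left solution (JAC; the zeros of the left
solution on `ℝ`), then `lt_zeros`.  (2) `V ∈ L²(a,b)`: replace `V` by `V_+` (nneg_mono_pot), fix `K` and finite lower bounds `n_k ≤ nneg`, approximate
`V_+ 1_{(a,b)}` in `L²` (hence `L¹` on the bounded interval) by nonnegative continuous compactly supported functions, use nneg_approx.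
-/

open MeasureTheory Set
open scoped ENNReal NNReal

namespace Pool.Agent.RLT40

theorem LTMain_cont {V : ℝ → ℝ} (hV : Continuous V) (hc : HasCompactSupport V) {a b : ℝ} (K : ℕ)
    (m : ℕ → ℕ) (hm1 : (m 1 : ℕ∞) ≤ nneg a b (fun x => ((1 : ℕ) : ℝ) ^ 2 - V x))
    (hm : ∀ k ∈ Finset.Icc 2 K, (m k : ℕ∞) ≤ nneg a b (fun x => (k : ℝ) ^ 2 - V x)) :
    (m 1 : ℝ) + 8 / 5 * ∑ k ∈ Finset.Icc 2 K, (k : ℝ) ^ 2 * (m k : ℝ) ≤ 3 / 16 * ∫ x, V x ^ 2 := by
  obtain ⟨M, hM, hs⟩ : ∃ M : ℝ, 0 < M ∧ ∀ x, M ≤ |x| → V x = 0 := by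
    obtain ⟨R, hR⟩ := hc.isCompact.isBounded.subset_closedBall 0
    refine ⟨max R 0 + 1, by positivity, fun x hx => ?_⟩
    by_contra hne
    have h1 : x ∈ tsupport V := subset_tsupport _ hne
    have h2 := hR h1
    rw [Metric.mem_closedBall, dist_zero_right, Real.norm_eq_abs] at h2
    have := le_max_left R 0
    linarith
  choose f g hf using fun k : ℕ => exists_leftSol hV hs (k : ℝ)
  have key : ∀ k : ℕ, 1 ≤ k → (m k : ℕ∞) ≤ nneg a b (fun x => (k : ℝ) ^ 2 - V x) →
      m k ≤ {x | f k x = 0}.ncard := by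
    intro k hk hmk
    have hkpos : (0 : ℝ) < k := by exact_mod_cast hk
    have hfin := leftSol_zeros_finite hV hs hkpos (hf k)
    have hne : ∃ x, f k x ≠ 0 := ⟨-M, by rw [(hf k).left (-M) le_rfl]; exact (Real.exp_pos _).ne'⟩
    have h1 := nneg_le_card (V := fun x => (k : ℝ) ^ 2 - V x) (continuous_const.sub hV) (hf k).sol
      hne (a := a) (b := b) hfin.toFinset (fun x _ hx => by simpa using hx)
    have h2 := hmk.trans h1
    rw [← Set.ncard_eq_toFinset_card _ hfin] at h2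
    exact_mod_cast h2
  refine le_trans ?_ (lt_zeros hV hM hs f g hf K)
  refine add_le_add ?_ (mul_le_mul_of_nonneg_left (Finset.sum_le_sum fun k hk => ?_) (by norm_num))
  · exact_mod_cast key 1 le_rfl hm1
  · refine mul_le_mul_of_nonneg_left ?_ (by positivity)
    exact_mod_cast key k (by have := (Finset.mem_Icc.1 hk).1; omega) (hm k hk)

theorem LTMain_l2 {a b : ℝ} (hab : a < b) {W : ℝ → ℝ} (hW : MemLp W 2 volume)
    (K : ℕ) (m : ℕ → ℕ) (hm1 : (m 1 : ℕ∞) ≤ nneg a b (fun x => ((1 : ℕ) : ℝ) ^ 2 - W x))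
    (hm : ∀ k ∈ Finset.Icc 2 K, (m k : ℕ∞) ≤ nneg a b (fun x => (k : ℝ) ^ 2 - W x)) :
    (m 1 : ℝ) + 8 / 5 * ∑ k ∈ Finset.Icc 2 K, (k : ℝ) ^ 2 * (m k : ℝ) ≤ 3 / 16 * ∫ x, W x ^ 2 := by
  have hWint : IntegrableOn W (Ioo a b) := by
    have : MemLp W 2 (volume.restrict (Ioo a b)) := hW.restrict _
    exact this.integrable (by norm_num)
  have hpot : ∀ c : ℝ, IntegrableOn (fun x => c - W x) (Ioo a b) := fun c =>
    (integrableOn_const (by simp)).sub hWint
  -- one `δ` for all the finitely many potentials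
  have hδk : ∀ k : ℕ, ∃ δ > 0, (k = 1 ∨ k ∈ Finset.Icc 2 K) → ∀ V' : ℝ → ℝ, IntegrableOn V' (Ioo a b) →
      (∫ x in Ioo a b, |V' x - ((k : ℝ) ^ 2 - W x)|) < δ → (m k : ℕ∞) ≤ nneg a b V' := by
    intro k
    by_cases hk : k = 1 ∨ k ∈ Finset.Icc 2 K
    · have h1 : (m k : ℕ∞) ≤ nneg a b (fun x => (k : ℝ) ^ 2 - W x) := by
        rcases hk with rfl | hk
        · exact hm1
        · exact hm k hk
      obtain ⟨δ, hδ, h2⟩ := nneg_approx (hpot _) h1
      exact ⟨δ, hδ, fun _ => h2⟩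
    · exact ⟨1, one_pos, fun h => absurd h hk⟩
  choose δk hδk0 hδk1 using hδk
  obtain ⟨δ, hδ, hδle⟩ : ∃ δ > 0, ∀ k ≤ K + 1, δ ≤ δk k := by
    obtain ⟨k0, _, hk0⟩ := Finset.exists_min_image (Finset.range (K + 2)) δk ⟨0, by simp⟩
    exact ⟨δk k0, hδk0 k0, fun k hk => hk0 k (by rw [Finset.mem_range]; omega)⟩
  refine le_of_forall_pos_le_add fun ρ hρ => ?_
  set I := ∫ x, W x ^ 2 with hI
  have hI0 : 0 ≤ I := integral_nonneg fun x => sq_nonneg _
  set θ := ρ / (2 * (I + 1)) with hθ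
  have hθ0 : 0 < θ := by positivity
  obtain ⟨ε, hε, hε1, hε2⟩ : ∃ ε > 0, ε < δ ^ 2 / (b - a) ∧ (1 + 1 / θ) * ε ≤ ρ / 2 := by
    have hba : 0 < b - a := sub_pos.2 hab
    refine ⟨min (δ ^ 2 / (b - a) / 2) (ρ / 2 / (1 + 1 / θ)), by positivity, ?_, ?_⟩
    · exact lt_of_le_of_lt (min_le_left _ _) (half_lt_self (by positivity))
    · calc (1 + 1 / θ) * min (δ ^ 2 / (b - a) / 2) (ρ / 2 / (1 + 1 / θ))
          ≤ (1 + 1 / θ) * (ρ / 2 / (1 + 1 / θ)) :=
            mul_le_mul_of_nonneg_left (min_le_right _ _) (by positivity)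
        _ = ρ / 2 := by field_simp
  have hW' : MemLp W (ENNReal.ofReal 2) volume := by
    rwa [show ENNReal.ofReal 2 = 2 by norm_num]
  obtain ⟨g, hgc, hgε, hgcont, hgmem⟩ :=
    hW'.exists_hasCompactSupport_integral_rpow_sub_le (by norm_num : (0 : ℝ) < 2) hε
  have hgmem' : MemLp g 2 volume := by
    rwa [show ENNReal.ofReal 2 = 2 by norm_num] at hgmem
  have hsub : MemLp (fun x => W x - g x) 2 volume := hW.sub hgmem'
  have hgε' : ∫ x, (W x - g x) ^ 2 ≤ ε := by
    refine le_trans (le_of_eq ?_) hgε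
    refine integral_congr_ae (Filter.Eventually.of_forall fun x => ?_)
    change (W x - g x) ^ 2 = ‖W x - g x‖ ^ (2 : ℝ)
    rw [Real.rpow_two, Real.norm_eq_abs, sq_abs]
  have hgint : IntegrableOn g (Ioo a b) := by
    have : MemLp g 2 (volume.restrict (Ioo a b)) := hgmem'.restrict _
    exact this.integrable (by norm_num)
  have hba : 0 < b - a := sub_pos.2 hab
  -- `L¹` closeness on `(a,b)`
  have hL1 : ∫ x in Ioo a b, |W x - g x| < δ := by
    have hη : 0 < δ / (b - a) := by positivity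
    have hpt : ∀ x, |W x - g x| ≤ (δ / (b - a)) / 2 + 1 / (2 * (δ / (b - a))) * (W x - g x) ^ 2 := by
      intro x
      generalize δ / (b - a) = η at hη
      have h1 : 0 ≤ (|W x - g x| - η) ^ 2 := sq_nonneg _
      have h2 : |W x - g x| ^ 2 = (W x - g x) ^ 2 := sq_abs _
      have h3 : 2 * η * |W x - g x| ≤ η ^ 2 + (W x - g x) ^ 2 := by nlinarith
      have h4 : |W x - g x| = (2 * η * |W x - g x|) / (2 * η) := by field_simp
      rw [h4]
      calc (2 * η * |W x - g x|) / (2 * η) ≤ (η ^ 2 + (W x - g x) ^ 2) / (2 * η) :=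
            div_le_div_of_nonneg_right h3 (by positivity)
        _ = η / 2 + 1 / (2 * η) * (W x - g x) ^ 2 := by field_simp
    have hsq : IntegrableOn (fun x => (W x - g x) ^ 2) (Ioo a b) := hsub.integrable_sq.integrableOn
    have hle : ∫ x in Ioo a b, |W x - g x| ≤
        ∫ x in Ioo a b, ((δ / (b - a)) / 2 + 1 / (2 * (δ / (b - a))) * (W x - g x) ^ 2) :=
      integral_mono (hWint.sub hgint).abs ((integrableOn_const (by simp)).add (hsq.const_mul _)) hpt
    have hcst : IntegrableOn (fun _ : ℝ => δ / (b - a) / 2) (Ioo a b) := integrableOn_const (by simp)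
    rw [integral_add hcst (hsq.const_mul _), integral_const_mul, setIntegral_const] at hle
    have hle2 : ∫ x in Ioo a b, (W x - g x) ^ 2 ≤ ε :=
      (setIntegral_le_integral hsub.integrable_sq
        (Filter.Eventually.of_forall fun x => sq_nonneg _)).trans hgε'
    have hvol : (volume : Measure ℝ).real (Ioo a b) = b - a := by
      rw [measureReal_def, Real.volume_Ioo, ENNReal.toReal_ofReal hba.le]
    rw [hvol, smul_eq_mul] at hle
    calc _ ≤ (b - a) * (δ / (b - a) / 2) + 1 / (2 * (δ / (b - a))) * ∫ x in Ioo a b, (W x - g x) ^ 2 := hle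
      _ ≤ (b - a) * (δ / (b - a) / 2) + 1 / (2 * (δ / (b - a))) * ε := by
          have : 0 ≤ 1 / (2 * (δ / (b - a))) := by positivity
          have := mul_le_mul_of_nonneg_left hle2 this
          linarith
      _ < (b - a) * (δ / (b - a) / 2) + 1 / (2 * (δ / (b - a))) * (δ ^ 2 / (b - a)) := by
          have : 0 < 1 / (2 * (δ / (b - a))) := by positivity
          have := mul_lt_mul_of_pos_left hε1 this
          linarith
      _ = δ := by field_simp; ring
  have hclose : ∀ k : ℕ, (k = 1 ∨ k ∈ Finset.Icc 2 K) →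
      (m k : ℕ∞) ≤ nneg a b (fun x => (k : ℝ) ^ 2 - g x) := by
    intro k hk
    refine hδk1 k hk _ ((integrableOn_const (by simp)).sub hgint) (lt_of_lt_of_le ?_ (hδle k ?_))
    · refine lt_of_le_of_lt (le_of_eq ?_) hL1
      refine integral_congr_ae (Filter.Eventually.of_forall fun x => ?_)
      change |(k : ℝ) ^ 2 - g x - ((k : ℝ) ^ 2 - W x)| = |W x - g x|
      congr 1
      ring
    · rcases hk with rfl | hk
      · omega
      · have := (Finset.mem_Icc.1 hk).2
        omega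
  have hmain := LTMain_cont hgcont hgc (a := a) (b := b) K m (hclose 1 (Or.inl rfl))
    (fun k hk => hclose k (Or.inr hk))
  -- `∫ g² ≤ ∫ W² + ρ`
  have hg2 : ∫ x, g x ^ 2 ≤ I + ρ := by
    have hpt : ∀ x, g x ^ 2 ≤ (1 + θ) * W x ^ 2 + (1 + 1 / θ) * (W x - g x) ^ 2 := by
      intro x
      have h1 : 0 ≤ (θ * W x + (W x - g x)) ^ 2 := sq_nonneg _
      have h2 : (1 + θ) * W x ^ 2 + (1 + 1 / θ) * (W x - g x) ^ 2 - g x ^ 2 =
          (θ * W x + (W x - g x)) ^ 2 / θ := by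
        field_simp
        ring
      have h3 : 0 ≤ (θ * W x + (W x - g x)) ^ 2 / θ := by positivity
      linarith
    have h4 : ∫ x, g x ^ 2 ≤ ∫ x, ((1 + θ) * W x ^ 2 + (1 + 1 / θ) * (W x - g x) ^ 2) :=
      integral_mono hgmem'.integrable_sq
        ((hW.integrable_sq.const_mul _).add (hsub.integrable_sq.const_mul _)) hpt
    rw [integral_add (hW.integrable_sq.const_mul _) (hsub.integrable_sq.const_mul _),
      integral_const_mul, integral_const_mul, ← hI] at h4
    have h5 : (1 + 1 / θ) * ∫ x, (W x - g x) ^ 2 ≤ ρ / 2 :=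
      (mul_le_mul_of_nonneg_left hgε' (by positivity)).trans hε2
    have h6 : θ * I ≤ ρ / 2 := by
      rw [hθ, div_mul_eq_mul_div, div_le_div_iff₀ (by positivity) (by norm_num)]
      nlinarith
    linarith
  linarith

theorem lt_nneg {a b : ℝ} {V : ℝ → ℝ} (hV : MemLp V 2 (volume.restrict (Ioo a b))) :
    ((nneg a b (fun x => 1 - V x) : ℕ∞) : ℝ≥0∞) +
        8 / 5 * ∑' k : ℕ, ((k : ℝ≥0∞) + 2) ^ 2 * ((nneg a b (fun x => ((k : ℝ) + 2) ^ 2 - V x) : ℕ∞) : ℝ≥0∞)
      ≤ ENNReal.ofReal (3 / 16 * ∫ x in Ioo a b, max (V x) 0 ^ 2) := by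
  rcases le_or_gt b a with hab | hab
  · rw [nneg_empty hab]
    simp [nneg_empty hab]
  set W : ℝ → ℝ := (Ioo a b).indicator fun x => max (V x) 0 with hWdef
  have hVp : MemLp (fun x => max (V x) 0) 2 (volume.restrict (Ioo a b)) := by
    have := hV.sup (MemLp.zero' (ε := ℝ) (p := 2) (μ := volume.restrict (Ioo a b)))
    exact this
  have hW : MemLp W 2 volume := (memLp_indicator_iff_restrict measurableSet_Ioo).2 hVp
  have hWI : ∫ x, W x ^ 2 = ∫ x in Ioo a b, max (V x) 0 ^ 2 := by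
    rw [← integral_indicator measurableSet_Ioo]
    refine integral_congr_ae (Filter.Eventually.of_forall fun x => ?_)
    by_cases hx : x ∈ Ioo a b
    · simp [hWdef, hx]
    · simp [hWdef, hx]
  have hVint : IntegrableOn V (Ioo a b) := hV.integrable (by norm_num)
  have hWint : IntegrableOn W (Ioo a b) := (hW.restrict (Ioo a b)).integrable (by norm_num)
  have hle : ∀ c : ℝ, nneg a b (fun x => c - V x) ≤ nneg a b (fun x => c - W x) := by
    intro c
    refine nneg_mono_pot ((integrableOn_const (by simp)).sub hWint)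
      ((integrableOn_const (by simp)).sub hVint) fun x hx => ?_
    have : W x = max (V x) 0 := by simp [hWdef, hx]
    rw [this]
    linarith [le_max_left (V x) 0]
  set C := 3 / 16 * ∫ x in Ioo a b, max (V x) 0 ^ 2 with hC
  -- the numbers `nneg` for `k ≥ 1` are finite
  set N : ℕ → ℕ∞ := fun k => nneg a b (fun x => (k : ℝ) ^ 2 - V x) with hN
  have hreal : ∀ (K : ℕ) (m : ℕ → ℕ), (m 1 : ℕ∞) ≤ N 1 → (∀ k ∈ Finset.Icc 2 K, (m k : ℕ∞) ≤ N k) →
      (m 1 : ℝ) + 8 / 5 * ∑ k ∈ Finset.Icc 2 K, (k : ℝ) ^ 2 * (m k : ℝ) ≤ C := by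
    intro K m h1 h2
    have := LTMain_l2 hab hW K m (h1.trans (hle _)) (fun k hk => (h2 k hk).trans (hle _))
    rwa [hWI] at this
  have hfin : ∀ k : ℕ, 1 ≤ k → N k ≠ ⊤ := by
    intro k hk htop
    obtain ⟨L, hL⟩ := exists_nat_gt C
    have := hreal k (fun j => if j = k then L else 0)
      (by by_cases h : 1 = k
          · subst h; rw [htop]; exact le_top
          · simp [h])
      (by intro j _
          by_cases h : j = k
          · subst h; rw [htop]; exact le_top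
          · simp [h])
    have hterm : (L : ℝ) ≤ ((if 1 = k then L else 0 : ℕ) : ℝ) +
        8 / 5 * ∑ j ∈ Finset.Icc 2 k, (j : ℝ) ^ 2 * ((if j = k then L else 0 : ℕ) : ℝ) := by
      by_cases h : 1 = k
      · subst h
        simp
      · have hmem : k ∈ Finset.Icc 2 k := Finset.mem_Icc.2 ⟨by omega, le_rfl⟩
        have hs := Finset.single_le_sum (f := fun j : ℕ => (j : ℝ) ^ 2 * ((if j = k then L else 0 : ℕ) : ℝ))
          (s := Finset.Icc 2 k) (fun j _ => by positivity) hmem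
        simp only [if_true] at hs
        have hk2 : (1 : ℝ) ≤ (k : ℝ) ^ 2 := by
          have : (1 : ℝ) ≤ k := by exact_mod_cast hk
          nlinarith
        have hL0 : (0 : ℝ) ≤ L := Nat.cast_nonneg L
        have : (L : ℝ) ≤ (k : ℝ) ^ 2 * L := le_mul_of_one_le_left hL0 hk2
        rw [if_neg h]
        push_cast at hs ⊢
        nlinarith
    linarith
  have hm : ∀ k : ℕ, ∃ m : ℕ, 1 ≤ k → N k = m := by
    intro k
    by_cases hk : 1 ≤ k
    · obtain ⟨m, hm⟩ := ENat.ne_top_iff_exists.1 (hfin k hk)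
      exact ⟨m, fun _ => hm.symm⟩
    · exact ⟨0, fun h => absurd h hk⟩
  choose m hm using hm
  have hA : nneg a b (fun x => 1 - V x) = m 1 := by
    have := hm 1 le_rfl
    simpa [hN] using this
  have hB : ∀ k : ℕ, nneg a b (fun x => ((k : ℝ) + 2) ^ 2 - V x) = m (k + 2) := by
    intro k
    have := hm (k + 2) (by omega)
    simpa [hN] using this
  rw [hA]
  simp only [hB]
  have hpart : ∀ n : ℕ, ((m 1 : ℕ) : ℝ≥0∞) + 8 / 5 * ∑ k ∈ Finset.range n, ((k : ℝ≥0∞) + 2) ^ 2 * ((m (k + 2) : ℕ) : ℝ≥0∞)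
      ≤ ENNReal.ofReal C := by
    intro n
    have h1 := hreal (n + 1) m (hm 1 le_rfl).ge
      (fun k hk => (hm k (by have := (Finset.mem_Icc.1 hk).1; omega)).ge)
    have h2 : ∑ k ∈ Finset.Icc 2 (n + 1), (k : ℝ) ^ 2 * (m k : ℝ) =
        ∑ k ∈ Finset.range n, ((k : ℝ) + 2) ^ 2 * (m (k + 2) : ℝ) := by
      clear h1
      induction n with
      | zero => simp
      | succ n ih =>
        rw [Finset.sum_Icc_succ_top (by omega), ih, Finset.sum_range_succ]
        push_cast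
        ring_nf
    rw [h2] at h1
    have h3 : ((m 1 : ℕ) : ℝ≥0∞) + 8 / 5 * ∑ k ∈ Finset.range n, ((k : ℝ≥0∞) + 2) ^ 2 * ((m (k + 2) : ℕ) : ℝ≥0∞)
        = ENNReal.ofReal ((m 1 : ℝ) + 8 / 5 * ∑ k ∈ Finset.range n, ((k : ℝ) + 2) ^ 2 * (m (k + 2) : ℝ)) := by
      rw [ENNReal.ofReal_add (Nat.cast_nonneg _) (by positivity), ENNReal.ofReal_natCast,
        ENNReal.ofReal_mul (by norm_num), ENNReal.ofReal_sum_of_nonneg (fun _ _ => by positivity)]
      congr 2
      · rw [ENNReal.ofReal_div_of_pos (by norm_num)]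
        norm_num
      · refine Finset.sum_congr rfl fun k _ => ?_
        rw [ENNReal.ofReal_mul (by positivity), ENNReal.ofReal_pow (by positivity),
          ENNReal.ofReal_add (by positivity) (by norm_num), ENNReal.ofReal_natCast,
          ENNReal.ofReal_natCast]
        norm_num
    rw [h3]
    exact ENNReal.ofReal_le_ofReal h1
  simp only [ENat.toENNReal_coe]
  rw [← ENNReal.tsum_mul_left]
  have hm1le : ((m 1 : ℕ) : ℝ≥0∞) ≤ ENNReal.ofReal C := by
    have := hpart 0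
    simpa using this
  calc ((m 1 : ℕ) : ℝ≥0∞) + ∑' k : ℕ, 8 / 5 * (((k : ℝ≥0∞) + 2) ^ 2 * ((m (k + 2) : ℕ) : ℝ≥0∞))
      ≤ ((m 1 : ℕ) : ℝ≥0∞) + (ENNReal.ofReal C - ((m 1 : ℕ) : ℝ≥0∞)) := by
        refine add_le_add le_rfl (ENNReal.tsum_le_of_sum_range_le fun n => ?_)
        refine ENNReal.le_sub_of_add_le_left (ENNReal.natCast_ne_top _) ?_
        rw [← Finset.mul_sum]
        exact hpart n
    _ = ENNReal.ofReal C := add_tsub_cancel_of_le hm1le

end Pool.Agent.RLT40
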