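import Pool.Agent.RLT40.LTDefs
import Pool.Agent.RLT40.OdeA
import Pool.Agent.RLT40.OdeB

/-!
# Modules LTC1, LTC2 (paper 1.3): commutation (Darboux transformation) for `V` continuous with compact support on `ℝ`.

`LeftSol V M κ f g`: `f'' = (κ² - V) f`, `f = e^{κ x}` for `x ≤ -M`.
-/

open MeasureTheory Set
open scoped ENNReal NNReal Topology

namespace Pool.Agent.RLT40

/-- `h' = c h` on a convex set. -/
theorem lt_exp_on {s : Set ℝ} (hs : Convex ℝ s) {h : ℝ → ℝ} {c x₀ : ℝ} (hx₀ : x₀ ∈ s)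
    (hd : ∀ x ∈ s, HasDerivAt h (c * h x) x) : ∀ x ∈ s, h x = h x₀ * Real.exp (c * (x - x₀)) := by
  intro x hx
  have h1 : ∀ y ∈ s, HasDerivWithinAt (fun y => h y * Real.exp (-(c * (y - x₀)))) 0 s y := by
    intro y hy
    have h2 : HasDerivAt (fun y => Real.exp (-(c * (y - x₀)))) (Real.exp (-(c * (y - x₀))) * (-(c * 1))) y :=
      ((((hasDerivAt_id y).sub_const x₀).const_mul c).neg).exp
    have h3 := ((hd y hy).mul h2).hasDerivWithinAt (s := s)
    refine h3.congr_deriv ?_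
    ring
  have h2 := hs.norm_image_sub_le_of_norm_hasDerivWithin_le (C := 0) h1 (fun y _ => by simp) hx₀ hx
  rw [zero_mul, norm_le_zero_iff, sub_eq_zero] at h2
  simp only [sub_self, mul_zero, neg_zero, Real.exp_zero, mul_one] at h2
  rw [← h2, mul_assoc, ← Real.exp_add]
  simp

/-- the first zero of a function which is positive at the left end -/
theorem lt_first_zero {h : ℝ → ℝ} (hc : Continuous h) {a x₁ : ℝ} (ha : 0 < h a) (hx₁ : a ≤ x₁) (h1 : h x₁ ≤ 0) :
    ∃ z, a < z ∧ h z = 0 ∧ ∀ x, a ≤ x → x < z → 0 < h x := by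
  set A : Set ℝ := {x | a ≤ x ∧ h x ≤ 0} with hA
  have hAc : IsClosed A := (isClosed_le continuous_const continuous_id).inter (isClosed_le hc continuous_const)
  have hne : A.Nonempty := ⟨x₁, hx₁, h1⟩
  have hbd : BddBelow A := ⟨a, fun x hx => hx.1⟩
  have hz := hAc.csInf_mem hne hbd
  set z := sInf A with hzd
  have hlt : ∀ x, a ≤ x → x < z → 0 < h x := by
    intro x hx hxz
    by_contra hcon
    push Not at hcon
    exact absurd (csInf_le hbd ⟨hx, hcon⟩) (not_le.2 hxz)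
  have haz : a < z := by
    rcases lt_or_eq_of_le hz.1 with h2 | h2
    · exact h2
    · exfalso
      have := hz.2
      rw [← h2] at this
      linarith
  refine ⟨z, haz, ?_, hlt⟩
  refine le_antisymm hz.2 ?_
  refine ge_of_tendsto (x := 𝓝[<] z) ((hc.tendsto z).mono_left nhdsWithin_le_nhds) ?_
  filter_upwards [Ioo_mem_nhdsLT haz] with x hx
  exact (hlt x hx.1.le hx.2).le

theorem lt_cont_pot {V : ℝ → ℝ} (hV : Continuous V) (κ : ℝ) : Continuous (fun x => κ ^ 2 - V x) :=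
  continuous_const.sub hV

theorem exists_leftSol {V : ℝ → ℝ} (hV : Continuous V) {M : ℝ} (hs : ∀ x, M ≤ |x| → V x = 0) (κ : ℝ) :
    ∃ f g, LeftSol V M κ f g := by
  obtain ⟨f, g, hsol, h0, h1⟩ := exists_sol (lt_cont_pot hV κ) (-M) (Real.exp (κ * (-M))) (κ * Real.exp (κ * (-M)))
  refine ⟨f, g, hsol, ?_⟩
  have hV0 : ∀ x ∈ Iic (-M), V x = 0 := fun x hx => hs x (by
    have := neg_abs_le x
    have h2 : x ≤ -M := hx
    linarith)
  have he : ∀ x, HasDerivAt (fun x => Real.exp (κ * x)) (κ * Real.exp (κ * x)) x := by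
    intro x
    have := ((hasDerivAt_id x).const_mul κ).exp
    refine this.congr_deriv ?_
    simp
    ring
  -- `v = (g - κ e) + κ (f - e)`
  have hv : ∀ x ∈ Iic (-M), HasDerivAt (fun x => (g x - κ * Real.exp (κ * x)) + κ * (f x - Real.exp (κ * x)))
      (κ * ((g x - κ * Real.exp (κ * x)) + κ * (f x - Real.exp (κ * x)))) x := by
    intro x hx
    have h2 := ((hsol.d2 x).sub ((he x).const_mul κ)).add (((hsol.d1 x).sub (he x)).const_mul κ)
    refine h2.congr_deriv ?_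
    simp only [hV0 x hx]
    ring
  have hv0 := lt_exp_on (convex_Iic (-M)) (mem_Iic.2 le_rfl) hv
  have hv1 : ∀ x ∈ Iic (-M), g x - κ * Real.exp (κ * x) = -κ * (f x - Real.exp (κ * x)) := by
    intro x hx
    have h2 := hv0 x hx
    rw [h0, h1, sub_self, sub_self, mul_zero, add_zero, zero_mul] at h2
    linarith
  have hw : ∀ x ∈ Iic (-M), HasDerivAt (fun x => f x - Real.exp (κ * x)) (-κ * (f x - Real.exp (κ * x))) x := by
    intro x hx
    rw [← hv1 x hx]
    exact (hsol.d1 x).sub (he x)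
  have hw0 := lt_exp_on (convex_Iic (-M)) (mem_Iic.2 le_rfl) hw
  intro x hx
  have h2 := hw0 x hx
  simp only [h0, sub_self, zero_mul] at h2
  linarith

section Left

variable {V f g : ℝ → ℝ} {M κ : ℝ}

theorem LeftSol.left_g (h : LeftSol V M κ f g) : ∀ x ≤ -M, g x = κ * Real.exp (κ * x) := by
  intro x hx
  have h1 : HasDerivWithinAt f (g x) (Iic (-M)) x := (h.sol.d1 x).hasDerivWithinAt
  have h2 : HasDerivWithinAt (fun x => Real.exp (κ * x)) (κ * Real.exp (κ * x)) (Iic (-M)) x := by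
    have := ((hasDerivAt_id x).const_mul κ).exp
    refine (this.congr_deriv ?_).hasDerivWithinAt
    simp
    ring
  have h3 : HasDerivWithinAt f (κ * Real.exp (κ * x)) (Iic (-M)) x :=
    h2.congr (fun y hy => h.left y hy) (h.left x hx)
  exact (uniqueDiffOn_Iic (-M) x hx).eq_deriv _ h1 h3

theorem LeftSol.unique (hV : Continuous V) (h : LeftSol V M κ f g) {f' g' : ℝ → ℝ} (h' : LeftSol V M κ f' g') :
    f = f' ∧ g = g' :=
  Sol.unique (lt_cont_pot hV κ) h.sol h'.sol (x0 := -M) (by rw [h.left _ le_rfl, h'.left _ le_rfl])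
    (by rw [h.left_g _ le_rfl, h'.left_g _ le_rfl])

theorem LeftSol.pos_left (h : LeftSol V M κ f g) : ∀ x ≤ -M, 0 < f x := by
  intro x hx
  rw [h.left x hx]
  exact Real.exp_pos _

theorem LeftSol.nz (h : LeftSol V M κ f g) : ∃ x, f x ≠ 0 := ⟨-M, (h.pos_left _ le_rfl).ne'⟩

/-- a left solution without zeros is positive -/
theorem LeftSol.pos_of_ne (h : LeftSol V M κ f g) (hne : ∀ x, f x ≠ 0) : ∀ x, 0 < f x := by
  intro x
  by_contra hcon
  push Not at hcon
  rcases le_total x (-M) with hx | hx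
  · exact absurd (h.pos_left x hx) (not_lt.2 hcon)
  · obtain ⟨z, _, hz, _⟩ := lt_first_zero h.sol.continuous_left (h.pos_left _ le_rfl) hx hcon
    exact hne z hz

/-- the solution to the right of the support -/
theorem lt_right_rep (hs : ∀ x, M ≤ |x| → V x = 0) (h : Sol (fun x => κ ^ 2 - V x) f g) :
    ∀ x, M ≤ x → g x + κ * f x = (g M + κ * f M) * Real.exp (κ * (x - M)) ∧
      g x - κ * f x = (g M - κ * f M) * Real.exp (-κ * (x - M)) := by
  have hV0 : ∀ x ∈ Ici M, V x = 0 := fun x hx => hs x (le_trans hx (le_abs_self x))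
  have hu : ∀ x ∈ Ici M, HasDerivAt (fun x => g x + κ * f x) (κ * (g x + κ * f x)) x := by
    intro x hx
    have := (h.d2 x).add ((h.d1 x).const_mul κ)
    refine this.congr_deriv ?_
    simp only [hV0 x hx]
    ring
  have hv : ∀ x ∈ Ici M, HasDerivAt (fun x => g x - κ * f x) (-κ * (g x - κ * f x)) x := by
    intro x hx
    have := (h.d2 x).sub ((h.d1 x).const_mul κ)
    refine this.congr_deriv ?_
    simp only [hV0 x hx]
    ring
  intro x hx
  exact ⟨lt_exp_on (convex_Ici M) (mem_Ici.2 le_rfl) hu x hx, lt_exp_on (convex_Ici M) (mem_Ici.2 le_rfl) hv x hx⟩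

theorem lt_right_pos (hs : ∀ x, M ≤ |x| → V x = 0) (h : Sol (fun x => κ ^ 2 - V x) f g) (hκ : 0 < κ)
    (h0 : 0 < f M) (h1 : 0 ≤ g M + κ * f M) : ∀ x, M ≤ x → 0 < f x := by
  intro x hx
  obtain ⟨h2, h3⟩ := lt_right_rep hs h x hx
  have h4 : Real.exp (-κ * (x - M)) ≤ Real.exp (κ * (x - M)) := by
    apply Real.exp_le_exp.2
    nlinarith [sub_nonneg.2 hx]
  have h5 : 0 < Real.exp (-κ * (x - M)) := Real.exp_pos _
  have h6 : 2 * κ * f x = (g M + κ * f M) * (Real.exp (κ * (x - M)) - Real.exp (-κ * (x - M))) +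
      2 * κ * f M * Real.exp (-κ * (x - M)) := by
    linear_combination h2 - h3
  have h7 : 0 < 2 * κ * f x := by
    rw [h6]
    have := mul_nonneg h1 (sub_nonneg.2 h4)
    positivity
  by_contra hcon
  push Not at hcon
  nlinarith

theorem lt_right_nonneg (hs : ∀ x, M ≤ |x| → V x = 0) (h : Sol (fun x => κ ^ 2 - V x) f g) (hκ : 0 < κ)
    (h0 : ∀ x, M ≤ x → 0 < f x) : 0 ≤ g M + κ * f M := by
  by_contra hcon
  push Not at hcon
  set u := g M + κ * f M with hu
  set v := g M - κ * f M with hv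
  set s := |v| / (-u * κ) with hs'
  have hu' : 0 < -u := by linarith
  have hs0 : 0 ≤ s := by positivity
  obtain ⟨h2, h3⟩ := lt_right_rep hs h (M + s) (by linarith)
  have hx := h0 (M + s) (by linarith)
  rw [add_sub_cancel_left] at h2 h3
  have h4 : 1 + κ * s ≤ Real.exp (κ * s) := by
    have := Real.add_one_le_exp (κ * s)
    linarith
  have h5 : Real.exp (-κ * s) ≤ 1 := by
    apply Real.exp_le_one_iff.2
    nlinarith
  have h6 : 2 * κ * f (M + s) = u * Real.exp (κ * s) - v * Real.exp (-κ * s) := by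
    linear_combination h2 - h3
  have h7 : -v * Real.exp (-κ * s) ≤ |v| := by
    calc -v * Real.exp (-κ * s) ≤ |v| * Real.exp (-κ * s) :=
          mul_le_mul_of_nonneg_right (neg_le_abs v) (Real.exp_pos _).le
      _ ≤ |v| * 1 := mul_le_mul_of_nonneg_left h5 (abs_nonneg _)
      _ = |v| := mul_one _
  have hu0 : u ≠ 0 := hcon.ne
  have h8 : (-u) * (κ * s) = |v| := by
    rw [hs']
    field_simp
  have h9 : 0 < 2 * κ * f (M + s) := by positivity
  nlinarith

theorem lt_right_finite (hs : ∀ x, M ≤ |x| → V x = 0) (h : Sol (fun x => κ ^ 2 - V x) f g) (hκ : 0 < κ)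
    (hne : ∀ x, f x = 0 → g x ≠ 0) : {x | M ≤ x ∧ f x = 0}.Subsingleton := by
  rintro x ⟨hx, hfx⟩ y ⟨hy, hfy⟩
  obtain ⟨h1, h2⟩ := lt_right_rep hs h x hx
  obtain ⟨h3, h4⟩ := lt_right_rep hs h y hy
  rw [hfx, mul_zero, add_zero] at h1
  rw [hfx, mul_zero, sub_zero] at h2
  rw [hfy, mul_zero, add_zero] at h3
  rw [hfy, mul_zero, sub_zero] at h4
  set u := g M + κ * f M with hu
  set v := g M - κ * f M with hv
  have hgx := hne x hfx
  have hu0 : u ≠ 0 := by
    intro h0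
    rw [h0, zero_mul] at h1
    exact hgx h1
  have hv0 : v ≠ 0 := by
    intro h0
    rw [h0, zero_mul] at h2
    exact hgx h2
  have e1 : u * Real.exp (κ * (x - M)) = v * Real.exp (-κ * (x - M)) := by rw [← h1, ← h2]
  have e2 : u * Real.exp (κ * (y - M)) = v * Real.exp (-κ * (y - M)) := by rw [← h3, ← h4]
  have key : ∀ z, u * Real.exp (κ * (z - M)) = v * Real.exp (-κ * (z - M)) → Real.exp (2 * κ * (z - M)) = v / u := by
    intro z hz
    rw [eq_div_iff hu0]
    have h5 : Real.exp (2 * κ * (z - M)) = Real.exp (κ * (z - M)) * Real.exp (κ * (z - M)) := by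
      rw [← Real.exp_add]; ring_nf
    have h6 : Real.exp (-κ * (z - M)) * Real.exp (κ * (z - M)) = 1 := by
      rw [← Real.exp_add]; ring_nf; exact Real.exp_zero
    rw [h5]
    calc Real.exp (κ * (z - M)) * Real.exp (κ * (z - M)) * u =
        (u * Real.exp (κ * (z - M))) * Real.exp (κ * (z - M)) := by ring
      _ = v * (Real.exp (-κ * (z - M)) * Real.exp (κ * (z - M))) := by rw [hz]; ring
      _ = v := by rw [h6, mul_one]
  have h5 : Real.exp (2 * κ * (x - M)) = Real.exp (2 * κ * (y - M)) := by rw [key x e1, key y e2]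
  have h6 := Real.exp_injective h5
  have h7 : x - M = y - M := mul_left_cancel₀ (by positivity : (2 * κ) ≠ 0) h6
  linarith

end Left

/-- a left solution has finitely many zeros on the whole line (`κ > 0`): none for `x ≤ -M`, at most one for `x ≥ M`. -/
theorem leftSol_zeros_finite {V : ℝ → ℝ} (hV : Continuous V) {M : ℝ} (hs : ∀ x, M ≤ |x| → V x = 0) {κ : ℝ} (hκ : 0 < κ)
    {f g : ℝ → ℝ} (h : LeftSol V M κ f g) : {x | f x = 0}.Finite := by
  have h1 := h.sol.zeros_finite (lt_cont_pot hV κ) h.nz (-M) M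
  have h2 : {x | M ≤ x ∧ f x = 0}.Finite :=
    (lt_right_finite hs h.sol hκ (fun x hx => h.sol.deriv_ne_zero (lt_cont_pot hV κ) h.nz hx)).finite
  refine (h1.union h2).subset ?_
  intro x hx
  have hx0 : f x = 0 := hx
  rcases le_total x (-M) with hl | hl
  · exact absurd hx0 (h.pos_left x hl).ne'
  · rcases le_total x M with hr | hr
    · exact Or.inl ⟨⟨hl, hr⟩, hx0⟩
    · exact Or.inr ⟨hr, hx0⟩

/-- monotonicity in `κ`: no zero at `κ` implies no zero at `κ' > κ` -/
theorem lt_up {V : ℝ → ℝ} {M κ κ' : ℝ} {f g f' g' : ℝ → ℝ} (hκ : 0 < κ) (hκκ : κ ≤ κ') (h : LeftSol V M κ f g)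
    (h' : LeftSol V M κ' f' g') (hpos : ∀ x, 0 < f x) : ∀ x, 0 < f' x := by
  intro x
  by_contra hcon
  push Not at hcon
  rcases le_total x (-M) with hx | hx
  · exact absurd (h'.pos_left x hx) (not_lt.2 hcon)
  obtain ⟨z, hz, hz0, hzp⟩ := lt_first_zero h'.sol.continuous_left (h'.pos_left _ le_rfl) hx hcon
  have hW : ∀ y, HasDerivAt (fun y => f y * g' y - g y * f' y) ((κ' ^ 2 - κ ^ 2) * (f y * f' y)) y := by
    intro y
    refine (wronskian_hasDerivAt h.sol h'.sol y).congr_deriv ?_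
    ring
  have hc : ContinuousOn (fun y => f y * g' y - g y * f' y) (Icc (-M) z) :=
    fun y _ => (hW y).continuousAt.continuousWithinAt
  have hmono : MonotoneOn (fun y => f y * g' y - g y * f' y) (Icc (-M) z) := by
    refine monotoneOn_of_deriv_nonneg (convex_Icc _ _) hc
      (fun y _ => (hW y).differentiableAt.differentiableWithinAt) ?_
    intro y hy
    rw [interior_Icc] at hy
    rw [(hW y).deriv]
    have h1 : 0 ≤ κ' ^ 2 - κ ^ 2 := by nlinarith
    exact mul_nonneg h1 (mul_nonneg (hpos y).le (hzp y hy.1.le hy.2).le)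
  have hW0 : ∀ y ∈ Icc (-M) z, 0 ≤ f y * g' y - g y * f' y := by
    intro y hy
    refine le_trans ?_ (hmono (left_mem_Icc.2 hz.le) hy hy.1)
    simp only
    rw [h.left _ le_rfl, h'.left _ le_rfl, h.left_g _ le_rfl, h'.left_g _ le_rfl]
    have h1 : 0 ≤ (κ' - κ) * (Real.exp (κ * (-M)) * Real.exp (κ' * (-M))) := by
      have := sub_nonneg.2 hκκ
      positivity
    linarith
  have hr : ∀ y, HasDerivAt (fun y => f' y / f y) ((g' y * f y - f' y * g y) / f y ^ 2) y := fun y =>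
    (h'.sol.d1 y).div (h.sol.d1 y) (hpos y).ne'
  have hmono2 : MonotoneOn (fun y => f' y / f y) (Icc (-M) z) := by
    refine monotoneOn_of_deriv_nonneg (convex_Icc _ _) (fun y _ => (hr y).continuousAt.continuousWithinAt)
      (fun y _ => (hr y).differentiableAt.differentiableWithinAt) ?_
    intro y hy
    rw [interior_Icc] at hy
    rw [(hr y).deriv]
    refine div_nonneg ?_ (sq_nonneg _)
    have := hW0 y ⟨hy.1.le, hy.2.le⟩
    linarith
  have h1 := hmono2 (left_mem_Icc.2 hz.le) (right_mem_Icc.2 hz.le) hz.le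
  simp only [hz0, zero_div] at h1
  have h2 : 0 < f' (-M) / f (-M) := div_pos (h'.pos_left _ le_rfl) (hpos _)
  linarith

/-- large `κ`: no zeros -/
theorem lt_large {V : ℝ → ℝ} {M κ : ℝ} {f g : ℝ → ℝ} (hκ : 0 < κ) (hb : ∀ x, V x ≤ κ ^ 2) (h : LeftSol V M κ f g) :
    ∀ x, 0 < f x := by
  intro x
  by_contra hcon
  push Not at hcon
  rcases le_total x (-M) with hx | hx
  · exact absurd (h.pos_left x hx) (not_lt.2 hcon)
  obtain ⟨z, hz, hz0, hzp⟩ := lt_first_zero h.sol.continuous_left (h.pos_left _ le_rfl) hx hcon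
  have hg : MonotoneOn g (Icc (-M) z) := by
    refine monotoneOn_of_deriv_nonneg (convex_Icc _ _) h.sol.continuous_right.continuousOn
      (fun y _ => (h.sol.d2 y).differentiableAt.differentiableWithinAt) ?_
    intro y hy
    rw [interior_Icc] at hy
    rw [(h.sol.d2 y).deriv]
    exact mul_nonneg (sub_nonneg.2 (hb y)) (hzp y hy.1.le hy.2).le
  have hf : MonotoneOn f (Icc (-M) z) := by
    refine monotoneOn_of_deriv_nonneg (convex_Icc _ _) h.sol.continuous_left.continuousOn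
      (fun y _ => (h.sol.d1 y).differentiableAt.differentiableWithinAt) ?_
    intro y hy
    rw [interior_Icc] at hy
    rw [(h.sol.d1 y).deriv]
    refine le_trans ?_ (hg (left_mem_Icc.2 hz.le) ⟨hy.1.le, hy.2.le⟩ hy.1.le)
    rw [h.left_g _ le_rfl]
    positivity
  have h1 := hf (left_mem_Icc.2 hz.le) (right_mem_Icc.2 hz.le) hz.le
  rw [hz0] at h1
  exact absurd (h.pos_left _ le_rfl) (not_lt.2 h1)

/-- The top bound state: if the left solution at `κ = κ₀ > 0` has a zero there is `κ₁ > κ₀` whose left solution `φ` is positive and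
satisfies `φ' = -κ₁ φ` for `x ≥ M`; left solutions at `κ ≥ κ₁` have no zero, at `0 < κ < κ₁` at least one.
Proof: `S = {κ > 0 : f_κ > 0 on ℝ}` is an up-set (`lt_up`), contains all large `κ` (`κ² ≥ sup V`), does not contain `κ₀`; `κ₁ = inf S`.
At `κ₁` the limit is `≥ 0`, has no double zero, so positive; if `(g + κ₁ f)(M) > 0` then slightly smaller `κ` are in `S`. -/
theorem top_state {V : ℝ → ℝ} (hV : Continuous V) {M : ℝ} (hM : 0 < M) (hs : ∀ x, M ≤ |x| → V x = 0) {κ₀ : ℝ} (hκ₀ : 0 < κ₀)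
    {f₀ g₀ : ℝ → ℝ} (h₀ : LeftSol V M κ₀ f₀ g₀) (hz : ∃ x, f₀ x = 0) :
    ∃ κ₁ > κ₀, ∃ φ ψ : ℝ → ℝ, LeftSol V M κ₁ φ ψ ∧ (∀ x, 0 < φ x) ∧ (∀ x, M ≤ x → ψ x = -κ₁ * φ x) ∧
      (∀ κ, κ₁ ≤ κ → ∀ f g, LeftSol V M κ f g → ∀ x, f x ≠ 0) ∧
      (∀ κ, 0 < κ → κ < κ₁ → ∀ f g, LeftSol V M κ f g → ∃ x, f x = 0) := by
  choose F G hFG using fun κ => exists_leftSol hV hs κ
  -- continuity in the parameter
  have hcont := sol_param (V := fun κ x => κ ^ 2 - V x) (by
    unfold Function.uncurry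
    exact (continuous_fst.pow 2).sub (hV.comp continuous_snd)) (f := F) (g := G) (fun κ => (hFG κ).sol) (-M)
    (by
      have : (fun κ => F κ (-M)) = fun κ => Real.exp (κ * (-M)) := funext fun κ => (hFG κ).left _ le_rfl
      rw [this]
      fun_prop)
    (by
      have : (fun κ => G κ (-M)) = fun κ => κ * Real.exp (κ * (-M)) := funext fun κ => (hFG κ).left_g _ le_rfl
      rw [this]
      fun_prop)
  obtain ⟨hF, hG⟩ := hcont
  have hFx : ∀ x, Continuous fun κ => F κ x := fun x =>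
    hF.comp (continuous_id.prodMk continuous_const)
  have hGx : ∀ x, Continuous fun κ => G κ x := fun x =>
    hG.comp (continuous_id.prodMk continuous_const)
  set S : Set ℝ := {κ | 0 < κ ∧ ∀ x, 0 < F κ x} with hS
  have hup : ∀ κ ∈ S, ∀ κ', κ ≤ κ' → κ' ∈ S := fun κ hκ κ' hκκ =>
    ⟨lt_of_lt_of_le hκ.1 hκκ, lt_up hκ.1 hκκ (hFG κ) (hFG κ') hκ.2⟩
  have hκ₀S : κ₀ ∉ S := by
    rintro ⟨_, h⟩
    obtain ⟨x, hx⟩ := hz
    have h1 := ((hFG κ₀).unique hV h₀).1
    have h2 := h x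
    rw [h1, hx] at h2
    exact lt_irrefl _ h2
  have hlow : ∀ κ ∈ S, κ₀ < κ := by
    intro κ hκ
    by_contra hcon
    push Not at hcon
    exact hκ₀S (hup κ hκ κ₀ hcon)
  have hSne : S.Nonempty := by
    obtain ⟨B, hB⟩ := (isCompact_Icc (a := -M) (b := M)).bddAbove_image hV.continuousOn
    have hB' : ∀ x, V x ≤ max B 1 := by
      intro x
      by_cases hx : x ∈ Icc (-M) M
      · exact (hB (mem_image_of_mem V hx)).trans (le_max_left _ _)
      · have : V x = 0 := hs x (by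
          by_contra hcon
          push Not at hcon
          exact hx ⟨(abs_lt.1 hcon).1.le, (abs_lt.1 hcon).2.le⟩)
        rw [this]
        exact le_trans zero_le_one (le_max_right _ _)
    have h1 : 1 ≤ max B 1 := le_max_right _ _
    refine ⟨max B 1, lt_of_lt_of_le one_pos h1, lt_large (lt_of_lt_of_le one_pos h1) (fun x => ?_) (hFG _)⟩
    refine (hB' x).trans ?_
    nlinarith
  have hbd : BddBelow S := ⟨κ₀, fun κ hκ => (hlow κ hκ).le⟩
  set κ₁ := sInf S with hκ₁d
  have hκ₁0 : κ₀ ≤ κ₁ := le_csInf hSne fun κ hκ => (hlow κ hκ).le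
  have hκ₁pos : 0 < κ₁ := lt_of_lt_of_le hκ₀ hκ₁0
  have hgt : ∀ κ, κ₁ < κ → κ ∈ S := by
    intro κ hκ
    obtain ⟨κ', hκ', hlt⟩ := exists_lt_of_csInf_lt hSne hκ
    exact hup κ' hκ' κ hlt.le
  have hnn : ∀ x, 0 ≤ F κ₁ x := by
    intro x
    refine ge_of_tendsto (x := 𝓝[>] κ₁) (((hFx x).tendsto κ₁).mono_left nhdsWithin_le_nhds) ?_
    filter_upwards [self_mem_nhdsWithin] with κ hκ
    exact ((hgt κ hκ).2 x).le
  have hpos : ∀ x, 0 < F κ₁ x := by
    intro x
    refine lt_of_le_of_ne (hnn x) fun h0 => ?_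
    have hmin : IsLocalMin (F κ₁) x := Filter.Eventually.of_forall fun y => by rw [← h0]; exact hnn y
    have h1 := hmin.hasDerivAt_eq_zero ((hFG κ₁).sol.d1 x)
    exact (hFG κ₁).sol.deriv_ne_zero (lt_cont_pot hV κ₁) (hFG κ₁).nz h0.symm h1
  have hκ₁S : κ₁ ∈ S := ⟨hκ₁pos, hpos⟩
  have hu0 : 0 ≤ G κ₁ M + κ₁ * F κ₁ M := lt_right_nonneg hs (hFG κ₁).sol hκ₁pos fun x _ => hpos x
  have hu : G κ₁ M + κ₁ * F κ₁ M = 0 := by
    by_contra hne
    have hupos : 0 < G κ₁ M + κ₁ * F κ₁ M := lt_of_le_of_ne hu0 (Ne.symm hne)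
    have e1 : ∀ᶠ κ in 𝓝 κ₁, ∀ x ∈ Icc (-M) M, 0 < F κ x := by
      refine isCompact_Icc.eventually_forall_of_forall_eventually ?_
      intro x _
      exact (hF.tendsto (κ₁, x)).eventually (lt_mem_nhds (hpos x))
    have e2 : ∀ᶠ κ in 𝓝 κ₁, 0 < G κ M + κ * F κ M :=
      (((hGx M).add (continuous_id.mul (hFx M))).tendsto κ₁).eventually (lt_mem_nhds hupos)
    have e3 : ∀ᶠ κ in 𝓝 κ₁, 0 < κ := lt_mem_nhds hκ₁pos
    have e4 : ∀ᶠ κ in 𝓝[<] κ₁, κ ∈ S := by
      filter_upwards [nhdsWithin_le_nhds e1, nhdsWithin_le_nhds e2, nhdsWithin_le_nhds e3] with κ h1 h2 h3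
      refine ⟨h3, fun x => ?_⟩
      rcases le_total x (-M) with hx | hx
      · exact (hFG κ).pos_left x hx
      · rcases le_total x M with hx' | hx'
        · exact h1 x ⟨hx, hx'⟩
        · exact lt_right_pos hs (hFG κ).sol h3 (h1 M ⟨by linarith, le_rfl⟩) h2.le x hx'
    obtain ⟨κ, hκS, hκlt⟩ := (e4.and self_mem_nhdsWithin).exists
    exact absurd (csInf_le hbd hκS) (not_le.2 hκlt)
  refine ⟨κ₁, hlow κ₁ hκ₁S, F κ₁, G κ₁, hFG κ₁, hpos, ?_, ?_, ?_⟩
  · intro x hx
    have h1 := (lt_right_rep hs (hFG κ₁).sol x hx).1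
    rw [hu, zero_mul] at h1
    linarith
  · intro κ hκ f g hfg x
    have h1 := (hup κ₁ hκ₁S κ hκ).2 x
    rw [((hFG κ).unique hV hfg).1] at h1
    exact h1.ne'
  · intro κ hκ hκlt f g hfg
    by_contra hcon
    push Not at hcon
    have h1 : κ ∈ S := by
      refine ⟨hκ, ?_⟩
      rw [((hFG κ).unique hV hfg).1]
      exact hfg.pos_of_ne hcon
    exact absurd (csInf_le hbd h1) (not_le.2 hκlt)

end Pool.Agent.RLT40
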