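import Pool.Agent.RLT40.LTMain
import Pool.Agent.RLT40.Calib

/-!
# Module LAY (paper 1.5): layer cake.

`∫_0^∞ γ τ^{γ-1} (u - τ w)_+² dτ = κ_γ u^{2+γ} w^{-γ}`, `∫_0^∞ γ τ^{γ-1} (u - τ w)_+ dτ = u^{1+γ} w^{-γ}/(1+γ)` (`u ≥ 0`, `w > 0`).
`G_le`, `G_le2`: Tonelli and the pointwise bounds `N_τ ≤ A_τ`, `N_τ ≤ (5/8) A_τ + (3/8) N_1(τ)` (from lt_nneg with `V = U - τ ω`; bargmann).
-/

open MeasureTheory Set
open scoped ENNReal NNReal

namespace Pool.Agent.RLT40

/-- reduction of the layer integral to a finite interval -/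
theorem lay_aux {γ u w : ℝ} (hγ : 0 < γ) (hu : 0 ≤ u) (hw : 0 < w) {h : ℝ → ℝ} (hc : Continuous h)
    (h0 : h 0 = 0) (hnn : ∀ t, 0 ≤ t → 0 ≤ h t) :
    ∫⁻ τ in Ioi (0 : ℝ), ENNReal.ofReal (γ * τ ^ (γ - 1)) * ENNReal.ofReal (h (max (u - τ * w) 0)) =
      ENNReal.ofReal (∫ τ in (0 : ℝ)..(u / w), γ * τ ^ (γ - 1) * h (u - τ * w)) := by
  have hT : 0 ≤ u / w := div_nonneg hu hw.le
  have hsplit : Ioi (0 : ℝ) = Ioc 0 (u / w) ∪ Ioi (u / w) := (Ioc_union_Ioi_eq_Ioi hT).symm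
  have hd : Disjoint (Ioc 0 (u / w)) (Ioi (u / w)) := Set.disjoint_left.2 fun x hx hx' => not_lt.2 hx.2 hx'
  rw [hsplit, lintegral_union measurableSet_Ioi hd]
  have z : ∫⁻ τ in Ioi (u / w), ENNReal.ofReal (γ * τ ^ (γ - 1)) * ENNReal.ofReal (h (max (u - τ * w) 0)) = 0 := by
    rw [setLIntegral_congr_fun (g := fun _ => 0) measurableSet_Ioi, lintegral_zero]
    intro τ hτ
    have h1 : u - τ * w ≤ 0 := by
      have := (div_lt_iff₀ hw).1 (mem_Ioi.1 hτ)
      linarith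
    simp only [max_eq_right h1, h0, ENNReal.ofReal_zero, mul_zero]
  rw [z, add_zero, intervalIntegral.integral_of_le hT]
  have hint : IntegrableOn (fun τ : ℝ => γ * τ ^ (γ - 1) * h (u - τ * w)) (Ioc 0 (u / w)) := by
    rw [← intervalIntegrable_iff_integrableOn_Ioc_of_le hT]
    refine IntervalIntegrable.mul_continuousOn ?_ ?_
    · exact (intervalIntegral.intervalIntegrable_rpow' (by linarith)).const_mul _
    · exact (hc.comp (by fun_prop)).continuousOn
  rw [ofReal_integral_eq_lintegral_ofReal hint]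
  · refine setLIntegral_congr_fun measurableSet_Ioc fun τ hτ => ?_
    have h1 : 0 ≤ u - τ * w := by
      have := (le_div_iff₀ hw).1 hτ.2
      linarith
    have h2 : 0 ≤ γ * τ ^ (γ - 1) := mul_nonneg hγ.le (Real.rpow_nonneg hτ.1.le _)
    simp only [max_eq_left h1]
    rw [← ENNReal.ofReal_mul h2]
  · refine (ae_restrict_mem measurableSet_Ioc).mono fun τ hτ => ?_
    have h1 : 0 ≤ u - τ * w := by
      have := (le_div_iff₀ hw).1 hτ.2
      linarith
    exact mul_nonneg (mul_nonneg hγ.le (Real.rpow_nonneg hτ.1.le _)) (hnn _ h1)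

theorem lay_pow {γ T : ℝ} (hγ : 0 < γ) (hT : 0 ≤ T) (p : ℕ) :
    ∫ τ in (0 : ℝ)..T, γ * τ ^ (γ - 1) * τ ^ p = γ / (γ + p) * T ^ (γ + p) ∧
      IntervalIntegrable (fun τ : ℝ => γ * τ ^ (γ - 1) * τ ^ p) volume 0 T := by
  have hp : (0 : ℝ) < γ + p := by positivity
  have e : EqOn (fun τ : ℝ => γ * τ ^ (γ - 1) * τ ^ p) (fun τ => γ * τ ^ (γ + p - 1)) (uIoc 0 T) := by
    intro τ hτ
    rw [uIoc_of_le hT] at hτ
    simp only
    rw [mul_assoc, ← Real.rpow_natCast τ p, ← Real.rpow_add hτ.1]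
    congr 2
    ring
  constructor
  · rw [intervalIntegral.integral_congr_ae (Filter.Eventually.of_forall e), intervalIntegral.integral_const_mul,
      integral_rpow (Or.inl (by linarith)), sub_add_cancel, Real.zero_rpow hp.ne', sub_zero]
    ring
  · refine ((intervalIntegral.intervalIntegrable_rpow' (r := γ + p - 1) (by linarith)).const_mul γ).congr ?_
    intro τ hτ
    exact (e hτ).symm

theorem lay_scale {γ u w : ℝ} (hu : 0 < u) (hw : 0 < w) (p : ℕ) (r : ℕ) (hpr : p ≤ r) :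
    u ^ (r - p) * w ^ p * (u / w) ^ (γ + p) = u ^ (r + γ) * w ^ (-γ) := by
  rw [Real.div_rpow hu.le hw.le, Real.rpow_neg hw.le, Real.rpow_add hw, Real.rpow_natCast, Real.rpow_add hu,
    Real.rpow_add hu, Real.rpow_natCast, Real.rpow_natCast]
  have h1 : w ^ γ ≠ 0 := (Real.rpow_pos_of_pos hw γ).ne'
  have h2 : u ^ r = u ^ (r - p) * u ^ p := by rw [← pow_add]; congr 1; omega
  rw [h2]
  field_simp

theorem layer2 {γ u w : ℝ} (hγ : 0 < γ) (hu : 0 ≤ u) (hw : 0 < w) :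
    ∫⁻ τ in Ioi (0 : ℝ), ENNReal.ofReal (γ * τ ^ (γ - 1)) * ENNReal.ofReal (max (u - τ * w) 0 ^ 2) =
      ENNReal.ofReal (kap γ * u ^ (2 + γ) * w ^ (-γ)) := by
  rw [lay_aux hγ hu hw (h := fun t => t ^ 2) (by fun_prop) (by norm_num) (fun t _ => sq_nonneg t)]
  congr 1
  rcases hu.eq_or_lt with h0 | h0
  · subst h0
    rw [zero_div, intervalIntegral.integral_same, Real.zero_rpow (by linarith)]
    ring
  have hT : 0 ≤ u / w := div_nonneg hu hw.le
  obtain ⟨i0, j0⟩ := lay_pow hγ hT 0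
  obtain ⟨i1, j1⟩ := lay_pow hγ hT 1
  obtain ⟨i2, j2⟩ := lay_pow hγ hT 2
  have e : ∀ τ : ℝ, γ * τ ^ (γ - 1) * (u - τ * w) ^ 2 =
      (u ^ 2 * (γ * τ ^ (γ - 1) * τ ^ 0) - 2 * u * w * (γ * τ ^ (γ - 1) * τ ^ 1)) +
        w ^ 2 * (γ * τ ^ (γ - 1) * τ ^ 2) := by
    intro τ; ring
  simp_rw [e]
  rw [intervalIntegral.integral_add ((j0.const_mul _).sub (j1.const_mul _)) (j2.const_mul _),
    intervalIntegral.integral_sub (j0.const_mul _) (j1.const_mul _), intervalIntegral.integral_const_mul,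
    intervalIntegral.integral_const_mul, intervalIntegral.integral_const_mul, i0, i1, i2]
  have s0 := lay_scale (γ := γ) h0 hw 0 2 (by norm_num)
  have s1 := lay_scale (γ := γ) h0 hw 1 2 (by norm_num)
  have s2 := lay_scale (γ := γ) h0 hw 2 2 (by norm_num)
  norm_num at s0 s1 s2 ⊢
  have g1 : γ + 1 ≠ 0 := by linarith
  have g2 : γ + 2 ≠ 0 := by linarith
  have k : kap γ = 1 - 2 * (γ / (γ + 1)) + γ / (γ + 2) := by
    unfold kap
    field_simp
    ring
  rw [k]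
  linear_combination (γ / γ) * s0 - 2 * (γ / (γ + 1)) * s1 + (γ / (γ + 2)) * s2 +
    (u ^ (2 + γ) * w ^ (-γ)) * (div_self hγ.ne')

theorem layer1 {γ u w : ℝ} (hγ : 0 < γ) (hu : 0 ≤ u) (hw : 0 < w) :
    ∫⁻ τ in Ioi (0 : ℝ), ENNReal.ofReal (γ * τ ^ (γ - 1)) * ENNReal.ofReal (max (u - τ * w) 0) =
      ENNReal.ofReal (1 / (1 + γ) * u ^ (1 + γ) * w ^ (-γ)) := by
  rw [lay_aux hγ hu hw (h := fun t => t) (by fun_prop) (by norm_num) (fun t ht => ht)]
  congr 1
  rcases hu.eq_or_lt with h0 | h0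
  · subst h0
    rw [zero_div, intervalIntegral.integral_same, Real.zero_rpow (by linarith)]
    ring
  have hT : 0 ≤ u / w := div_nonneg hu hw.le
  obtain ⟨i0, j0⟩ := lay_pow hγ hT 0
  obtain ⟨i1, j1⟩ := lay_pow hγ hT 1
  have e : ∀ τ : ℝ, γ * τ ^ (γ - 1) * (u - τ * w) =
      u * (γ * τ ^ (γ - 1) * τ ^ 0) - w * (γ * τ ^ (γ - 1) * τ ^ 1) := by
    intro τ; ring
  simp_rw [e]
  rw [intervalIntegral.integral_sub (j0.const_mul _) (j1.const_mul _), intervalIntegral.integral_const_mul,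
    intervalIntegral.integral_const_mul, i0, i1]
  have s0 := lay_scale (γ := γ) h0 hw 0 1 (by norm_num)
  have s1 := lay_scale (γ := γ) h0 hw 1 1 (by norm_num)
  norm_num at s0 s1 ⊢
  have g1 : γ + 1 ≠ 0 := by linarith
  have k : (1 + γ)⁻¹ = 1 - γ / (γ + 1) := by
    rw [add_comm 1 γ]
    field_simp
    ring
  rw [k]
  linear_combination (γ / γ) * s0 - (γ / (γ + 1)) * s1 + (u ^ (1 + γ) * w ^ (-γ)) * (div_self hγ.ne')

/-- `A_τ = (3/16) ∫ (U - τω)_+²` as a lower integral -/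
noncomputable def Atau (a b : ℝ) (U : ℝ → ℝ) (τ : ℝ) : ℝ≥0∞ :=
  ∫⁻ x in Ioo a b, ENNReal.ofReal (3 / 16 * max (U x - τ * om x) 0 ^ 2)

theorem lay_om_pos (x : ℝ) : 0 < om x := Real.exp_pos _

theorem lay_om_cont : Continuous om := by unfold om; fun_prop

theorem lay_om_rpow (γ x : ℝ) : om x ^ (-γ) = Real.exp (-(2 * γ * x)) := by
  rw [om, ← Real.exp_mul]
  congr 1
  ring

/-- Tonelli for the layer cake -/
theorem lay_swap {γ a b : ℝ} {U : ℝ → ℝ} (hU : AEMeasurable U (volume.restrict (Ioo a b)))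
    {h : ℝ → ℝ} (hc : Continuous h) :
    ∫⁻ τ in Ioi (0 : ℝ), ENNReal.ofReal (γ * τ ^ (γ - 1)) *
        (∫⁻ x in Ioo a b, ENNReal.ofReal (h (max (U x - τ * om x) 0))) =
      ∫⁻ x in Ioo a b, ∫⁻ τ in Ioi (0 : ℝ), ENNReal.ofReal (γ * τ ^ (γ - 1)) *
        ENNReal.ofReal (h (max (U x - τ * om x) 0)) := by
  have m1 : ∀ τ : ℝ, AEMeasurable (fun x => ENNReal.ofReal (h (max (U x - τ * om x) 0)))
      (volume.restrict (Ioo a b)) := by
    intro τ
    refine ENNReal.measurable_ofReal.comp_aemeasurable (hc.measurable.comp_aemeasurable ?_)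
    exact (hU.sub (lay_om_cont.measurable.const_mul τ).aemeasurable).max aemeasurable_const
  have e1 : ∀ τ : ℝ, ENNReal.ofReal (γ * τ ^ (γ - 1)) *
        (∫⁻ x in Ioo a b, ENNReal.ofReal (h (max (U x - τ * om x) 0))) =
      ∫⁻ x in Ioo a b, ENNReal.ofReal (γ * τ ^ (γ - 1)) * ENNReal.ofReal (h (max (U x - τ * om x) 0)) := by
    intro τ
    rw [lintegral_const_mul'' _ (m1 τ)]
  simp_rw [e1]
  refine lintegral_lintegral_swap ?_
  have hU2 : AEMeasurable (fun p : ℝ × ℝ => U p.2)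
      ((volume.restrict (Ioi (0 : ℝ))).prod (volume.restrict (Ioo a b))) :=
    hU.comp_quasiMeasurePreserving Measure.quasiMeasurePreserving_snd
  have m2 : AEMeasurable (fun p : ℝ × ℝ => ENNReal.ofReal (γ * p.1 ^ (γ - 1)))
      ((volume.restrict (Ioi (0 : ℝ))).prod (volume.restrict (Ioo a b))) := by
    refine Measurable.aemeasurable ?_
    fun_prop
  have m3 : AEMeasurable (fun p : ℝ × ℝ => ENNReal.ofReal (h (max (U p.2 - p.1 * om p.2) 0)))
      ((volume.restrict (Ioi (0 : ℝ))).prod (volume.restrict (Ioo a b))) := by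
    refine ENNReal.measurable_ofReal.comp_aemeasurable (hc.measurable.comp_aemeasurable ?_)
    refine (hU2.sub ?_).max aemeasurable_const
    exact (measurable_fst.mul (lay_om_cont.measurable.comp measurable_snd)).aemeasurable
  exact m2.mul m3

theorem lintegral_Atau {γ a b : ℝ} (hγ : 0 < γ) {U : ℝ → ℝ} (hU : Adm1 γ a b U) :
    ∫⁻ τ in Ioi (0 : ℝ), ENNReal.ofReal (γ * τ ^ (γ - 1)) * Atau a b U τ = ENNReal.ofReal (3 / 16 * kap γ) * Jf γ a b U := by
  have hk : 0 < kap γ := by unfold kap; positivity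
  have hm : AEMeasurable U (volume.restrict (Ioo a b)) := hU.2.1.aemeasurable
  have h1 := lay_swap (γ := γ) hm (h := fun t => 3 / 16 * t ^ 2) (by fun_prop)
  unfold Atau
  rw [h1]
  unfold Jf
  have hm2 : AEMeasurable (fun x => ENNReal.ofReal (U x ^ (2 + γ) * Real.exp (-(2 * γ * x))))
      (volume.restrict (Ioo a b)) := by
    refine ENNReal.measurable_ofReal.comp_aemeasurable ((hm.pow_const _).mul ?_)
    exact (by fun_prop : Continuous fun x : ℝ => Real.exp (-(2 * γ * x))).measurable.aemeasurable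
  rw [← lintegral_const_mul'' _ hm2]
  refine lintegral_congr fun x => ?_
  have h2 := layer2 hγ (hU.1 x) (lay_om_pos x)
  have e : ∀ τ : ℝ, ENNReal.ofReal (γ * τ ^ (γ - 1)) * ENNReal.ofReal (3 / 16 * max (U x - τ * om x) 0 ^ 2) =
      ENNReal.ofReal (3 / 16) * (ENNReal.ofReal (γ * τ ^ (γ - 1)) * ENNReal.ofReal (max (U x - τ * om x) 0 ^ 2)) := by
    intro τ
    rw [ENNReal.ofReal_mul (by norm_num : (0 : ℝ) ≤ 3 / 16)]
    ring
  simp_rw [e]
  rw [lintegral_const_mul' _ _ ENNReal.ofReal_ne_top, h2, lay_om_rpow, ← ENNReal.ofReal_mul (by norm_num),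
    ← ENNReal.ofReal_mul (by positivity)]
  congr 1
  ring

/-- the potential is in `L²` -/
theorem lay_memLp_two {γ a b : ℝ} (hγ : 0 < γ) {U : ℝ → ℝ} (hU : Adm1 γ a b U) :
    MemLp U 2 (volume.restrict (Ioo a b)) := by
  refine hU.2.mono_exponent ?_
  rw [show (2 : ℝ≥0∞) = ENNReal.ofReal 2 by norm_num]
  exact ENNReal.ofReal_le_ofReal (by linarith)

theorem lay_om_memLp (a b : ℝ) (p : ℝ≥0∞) (τ : ℝ) : MemLp (fun x => τ * om x) p (volume.restrict (Ioo a b)) := by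
  obtain ⟨C, hC⟩ := isCompact_Icc.exists_bound_of_continuousOn (s := Icc a b)
    (continuous_const.mul lay_om_cont : Continuous fun x => τ * om x).continuousOn
  refine MemLp.of_bound (continuous_const.mul lay_om_cont).aestronglyMeasurable C ?_
  exact (ae_restrict_mem measurableSet_Ioo).mono fun x hx => hC x (Ioo_subset_Icc_self hx)

/-- `N_1 + (8/5) Σ_{k≥2} k² N_k ≤ A_τ` for the potential `U - τ ω` -/
theorem lt_tau {γ a b : ℝ} (hγ : 0 < γ) {U : ℝ → ℝ} (hU : Adm1 γ a b U) {τ : ℝ} (hτ : 0 ≤ τ) :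
    ((nneg a b (pot 1 τ U) : ℕ∞) : ℝ≥0∞) +
        8 / 5 * ∑' k : ℕ, ((k : ℝ≥0∞) + 2) ^ 2 * ((nneg a b (pot (k + 2) τ U) : ℕ∞) : ℝ≥0∞) ≤ Atau a b U τ := by
  have hV : MemLp (fun x => U x - τ * om x) 2 (volume.restrict (Ioo a b)) :=
    (lay_memLp_two hγ hU).sub (lay_om_memLp a b 2 τ)
  have h := lt_nneg hV
  have e1 : pot 1 τ U = fun x => 1 - (U x - τ * om x) := by
    funext x; unfold pot; ring
  have e2 : ∀ k : ℕ, pot ((k : ℝ) + 2) τ U = fun x => ((k : ℝ) + 2) ^ 2 - (U x - τ * om x) := by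
    intro k; funext x; unfold pot; ring
  rw [e1]
  simp_rw [e2]
  refine h.trans (le_of_eq ?_)
  unfold Atau
  rw [← integral_const_mul, ofReal_integral_eq_lintegral_ofReal]
  · have h1 : MemLp (fun x => max (U x - τ * om x) 0) 2 (volume.restrict (Ioo a b)) := by
      refine hV.of_le (hV.1.aemeasurable.max aemeasurable_const).aestronglyMeasurable ?_
      refine Filter.Eventually.of_forall fun x => ?_
      rw [Real.norm_eq_abs, Real.norm_eq_abs, abs_of_nonneg (le_max_right _ _)]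
      exact max_le (le_abs_self _) (abs_nonneg _)
    exact h1.integrable_sq.const_mul _
  · exact Filter.Eventually.of_forall fun x => by positivity

theorem lay_Ntot_eq (a b : ℝ) (U : ℝ → ℝ) (τ : ℝ) : Ntot a b U τ = ((nneg a b (pot 1 τ U) : ℕ∞) : ℝ≥0∞) +
    ∑' k : ℕ, ((k : ℝ≥0∞) + 2) ^ 2 * ((nneg a b (pot (k + 2) τ U) : ℕ∞) : ℝ≥0∞) := by
  unfold Ntot
  rw [tsum_eq_zero_add' (ENNReal.summable)]
  congr 1
  · simp
  · refine tsum_congr fun k => ?_
    have e1 : ((k + 1 : ℕ) : ℝ≥0∞) + 1 = (k : ℝ≥0∞) + 2 := by push_cast; ring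
    have e2 : ((k + 1 : ℕ) : ℝ) + 1 = (k : ℝ) + 2 := by push_cast; ring
    rw [e1, e2]

theorem Ntot_le {γ a b : ℝ} (hγ : 0 < γ) {U : ℝ → ℝ} (hU : Adm1 γ a b U) {τ : ℝ} (hτ : 0 ≤ τ) :
    Ntot a b U τ ≤ Atau a b U τ := by
  refine le_trans ?_ (lt_tau hγ hU hτ)
  rw [lay_Ntot_eq]
  gcongr
  have h85 : (1 : ℝ≥0∞) ≤ 8 / 5 := by
    rw [ENNReal.le_div_iff_mul_le (by norm_num) (by norm_num)]
    norm_num
  calc ∑' k : ℕ, ((k : ℝ≥0∞) + 2) ^ 2 * ((nneg a b (pot (k + 2) τ U) : ℕ∞) : ℝ≥0∞)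
      = 1 * ∑' k : ℕ, ((k : ℝ≥0∞) + 2) ^ 2 * ((nneg a b (pot (k + 2) τ U) : ℕ∞) : ℝ≥0∞) := (one_mul _).symm
    _ ≤ _ := mul_le_mul_left h85 _

theorem lay_pot_int {a b : ℝ} {U : ℝ → ℝ} (hU : IntegrableOn U (Ioo a b)) (k τ : ℝ) :
    IntegrableOn (pot k τ U) (Ioo a b) := by
  unfold pot
  refine Integrable.add (Integrable.sub ?_ hU) ?_
  · exact integrableOn_const (by simp)
  · exact memLp_one_iff_integrable.1 (lay_om_memLp a b 1 τ)

theorem Ntot_anti {a b : ℝ} {U : ℝ → ℝ} (hU : IntegrableOn U (Ioo a b)) {τ τ' : ℝ} (h : τ ≤ τ') : Ntot a b U τ' ≤ Ntot a b U τ := by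
  unfold Ntot
  refine ENNReal.tsum_le_tsum fun k => ?_
  gcongr
  refine nneg_mono_pot (lay_pot_int hU _ _) (lay_pot_int hU _ _) fun x _ => ?_
  unfold pot
  have := mul_le_mul_of_nonneg_right h (lay_om_pos x).le
  linarith

theorem G_le {γ a b : ℝ} (hγ : 0 < γ) {U : ℝ → ℝ} (hU : Adm1 γ a b U) :
    Gf γ a b U ≤ ENNReal.ofReal (3 / 16 * kap γ) * Jf γ a b U := by
  rw [← lintegral_Atau hγ hU]
  unfold Gf
  refine setLIntegral_mono' measurableSet_Ioi fun τ hτ => ?_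
  gcongr
  exact Ntot_le hγ hU (le_of_lt hτ)

theorem G_le2 {γ a b : ℝ} (hγ : 0 < γ) {U : ℝ → ℝ} (hU : Adm1 γ a b U) :
    Gf γ a b U ≤ ENNReal.ofReal (5 / 8 * (3 / 16) * kap γ) * Jf γ a b U +
      ENNReal.ofReal (3 / 16 / (1 + γ)) * ∫⁻ x in Ioo a b, ENNReal.ofReal (U x ^ (1 + γ) * Real.exp (-(2 * γ * x))) := by
  have hk : 0 < kap γ := by unfold kap; positivity
  have hm : AEMeasurable U (volume.restrict (Ioo a b)) := hU.2.1.aemeasurable
  -- pointwise bound
  have hpt : ∀ τ ∈ Ioi (0 : ℝ), Ntot a b U τ ≤ ENNReal.ofReal (5 / 8) * Atau a b U τ +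
      ∫⁻ x in Ioo a b, ENNReal.ofReal (3 / 16 * max (U x - τ * om x) 0) := by
    intro τ hτ
    have h1 := lt_tau hγ hU (le_of_lt (mem_Ioi.1 hτ))
    have hV : MemLp (fun x => U x - τ * om x) 2 (volume.restrict (Ioo a b)) :=
      (lay_memLp_two hγ hU).sub (lay_om_memLp a b 2 τ)
    have hV1 : IntegrableOn (fun x => U x - τ * om x) (Ioo a b) := hV.integrable (by norm_num)
    have h2 := bargmann hV1
    have e1 : pot 1 τ U = fun x => 1 - (U x - τ * om x) := by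
      funext x; unfold pot; ring
    rw [← e1] at h2
    rw [lay_Ntot_eq]
    set N := ((nneg a b (pot 1 τ U) : ℕ∞) : ℝ≥0∞)
    set S := ∑' k : ℕ, ((k : ℝ≥0∞) + 2) ^ 2 * ((nneg a b (pot (k + 2) τ U) : ℕ∞) : ℝ≥0∞)
    have h3 : ENNReal.ofReal (3 / 8) * N ≤ ∫⁻ x in Ioo a b, ENNReal.ofReal (3 / 16 * max (U x - τ * om x) 0) := by
      have h4 : ∫⁻ x in Ioo a b, ENNReal.ofReal (3 / 16 * max (U x - τ * om x) 0) =
          ENNReal.ofReal (3 / 16 * ∫ x in Ioo a b, max (U x - τ * om x) 0) := by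
        rw [← integral_const_mul, ofReal_integral_eq_lintegral_ofReal]
        · exact hV1.pos_part.const_mul _
        · exact Filter.Eventually.of_forall fun x => by positivity
      rw [h4]
      calc ENNReal.ofReal (3 / 8) * N ≤ ENNReal.ofReal (3 / 8) *
            ENNReal.ofReal (1 / 2 * ∫ x in Ioo a b, max (U x - τ * om x) 0) := by gcongr
        _ = _ := by
          rw [← ENNReal.ofReal_mul (by norm_num)]
          congr 1
          ring
    have h5 : N + S = ENNReal.ofReal (5 / 8) * (N + 8 / 5 * S) + ENNReal.ofReal (3 / 8) * N := by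
      have e2 : ENNReal.ofReal (5 / 8) * (8 / 5) = 1 := by
        rw [show (8 / 5 : ℝ≥0∞) = ENNReal.ofReal (8 / 5) by
          rw [ENNReal.ofReal_div_of_pos (by norm_num)]; norm_num, ← ENNReal.ofReal_mul (by norm_num)]
        norm_num
      have e3 : ENNReal.ofReal (5 / 8) + ENNReal.ofReal (3 / 8) = 1 := by
        rw [← ENNReal.ofReal_add (by norm_num) (by norm_num)]
        norm_num
      calc N + S = 1 * N + 1 * S := by rw [one_mul, one_mul]
        _ = (ENNReal.ofReal (5 / 8) + ENNReal.ofReal (3 / 8)) * N + (ENNReal.ofReal (5 / 8) * (8 / 5)) * S := by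
          rw [e2, e3]
        _ = _ := by ring
    rw [h5]
    gcongr
  -- integrate
  have mA : AEMeasurable (fun τ : ℝ => ENNReal.ofReal (γ * τ ^ (γ - 1)) *
      ∫⁻ x in Ioo a b, ENNReal.ofReal (3 / 16 * max (U x - τ * om x) 0)) (volume.restrict (Ioi 0)) := by
    have hU2 : AEMeasurable (fun p : ℝ × ℝ => U p.2)
        ((volume.restrict (Ioi (0 : ℝ))).prod (volume.restrict (Ioo a b))) :=
      hU.2.1.aemeasurable.comp_quasiMeasurePreserving Measure.quasiMeasurePreserving_snd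
    have m3 : AEMeasurable (fun p : ℝ × ℝ => ENNReal.ofReal (3 / 16 * max (U p.2 - p.1 * om p.2) 0))
        ((volume.restrict (Ioi (0 : ℝ))).prod (volume.restrict (Ioo a b))) := by
      refine ENNReal.measurable_ofReal.comp_aemeasurable (AEMeasurable.const_mul ?_ _)
      refine (hU2.sub ?_).max aemeasurable_const
      exact (measurable_fst.mul (lay_om_cont.measurable.comp measurable_snd)).aemeasurable
    have m4 := m3.lintegral_prod_right'
    refine AEMeasurable.mul ?_ m4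
    exact (by fun_prop : Measurable fun τ : ℝ => ENNReal.ofReal (γ * τ ^ (γ - 1))).aemeasurable
  calc Gf γ a b U ≤ ∫⁻ τ in Ioi (0 : ℝ), (ENNReal.ofReal (5 / 8) * (ENNReal.ofReal (γ * τ ^ (γ - 1)) * Atau a b U τ) +
        ENNReal.ofReal (γ * τ ^ (γ - 1)) *
          ∫⁻ x in Ioo a b, ENNReal.ofReal (3 / 16 * max (U x - τ * om x) 0)) := by
        unfold Gf
        refine setLIntegral_mono' measurableSet_Ioi fun τ hτ => ?_
        calc ENNReal.ofReal (γ * τ ^ (γ - 1)) * Ntot a b U τ ≤ ENNReal.ofReal (γ * τ ^ (γ - 1)) *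
              (ENNReal.ofReal (5 / 8) * Atau a b U τ +
                ∫⁻ x in Ioo a b, ENNReal.ofReal (3 / 16 * max (U x - τ * om x) 0)) := by
              gcongr
              exact hpt τ hτ
          _ = _ := by ring
    _ = ENNReal.ofReal (5 / 8) * (∫⁻ τ in Ioi (0 : ℝ), ENNReal.ofReal (γ * τ ^ (γ - 1)) * Atau a b U τ) +
        ∫⁻ τ in Ioi (0 : ℝ), ENNReal.ofReal (γ * τ ^ (γ - 1)) *
          ∫⁻ x in Ioo a b, ENNReal.ofReal (3 / 16 * max (U x - τ * om x) 0) := by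
        rw [lintegral_add_right' _ mA, lintegral_const_mul' _ _ ENNReal.ofReal_ne_top]
    _ = _ := by
        rw [lintegral_Atau hγ hU]
        congr 1
        · rw [← mul_assoc, ← ENNReal.ofReal_mul (by norm_num)]
          congr 2
          ring
        · have h1 := lay_swap (γ := γ) hm (h := fun t => 3 / 16 * t) (by fun_prop)
          rw [h1]
          have hm2 : AEMeasurable (fun x => ENNReal.ofReal (U x ^ (1 + γ) * Real.exp (-(2 * γ * x))))
              (volume.restrict (Ioo a b)) := by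
            refine ENNReal.measurable_ofReal.comp_aemeasurable ((hm.pow_const _).mul ?_)
            exact (by fun_prop : Continuous fun x : ℝ => Real.exp (-(2 * γ * x))).measurable.aemeasurable
          rw [← lintegral_const_mul'' _ hm2]
          refine lintegral_congr fun x => ?_
          have h2 := layer1 hγ (hU.1 x) (lay_om_pos x)
          have e : ∀ τ : ℝ, ENNReal.ofReal (γ * τ ^ (γ - 1)) * ENNReal.ofReal (3 / 16 * max (U x - τ * om x) 0) =
              ENNReal.ofReal (3 / 16) * (ENNReal.ofReal (γ * τ ^ (γ - 1)) * ENNReal.ofReal (max (U x - τ * om x) 0)) := by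
            intro τ
            rw [ENNReal.ofReal_mul (by norm_num : (0 : ℝ) ≤ 3 / 16)]
            ring
          simp_rw [e]
          rw [lintegral_const_mul' _ _ ENNReal.ofReal_ne_top, h2, lay_om_rpow, ← ENNReal.ofReal_mul (by norm_num),
            ← ENNReal.ofReal_mul (by positivity)]
          congr 1
          field_simp

theorem Jf_lt_top {γ a b : ℝ} (hγ : 0 < γ) {U : ℝ → ℝ} (hU : Adm1 γ a b U) : Jf γ a b U < ⊤ := by
  obtain ⟨C, hC⟩ := isCompact_Icc.exists_bound_of_continuousOn (s := Icc a b)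
    (by fun_prop : Continuous fun x : ℝ => Real.exp (-(2 * γ * x))).continuousOn
  have h1 := hU.2.integrable_norm_rpow (by simp; linarith) ENNReal.ofReal_ne_top
  rw [ENNReal.toReal_ofReal (by linarith)] at h1
  have h2 : ∫⁻ x in Ioo a b, ENNReal.ofReal (‖U x‖ ^ (2 + γ)) < ⊤ := by
    have := h1.lintegral_lt_top
    exact this
  unfold Jf
  calc ∫⁻ x in Ioo a b, ENNReal.ofReal (U x ^ (2 + γ) * Real.exp (-(2 * γ * x)))
      ≤ ∫⁻ x in Ioo a b, ENNReal.ofReal C * ENNReal.ofReal (‖U x‖ ^ (2 + γ)) := by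
        refine setLIntegral_mono' measurableSet_Ioo fun x hx => ?_
        have h3 : Real.exp (-(2 * γ * x)) ≤ C := (le_abs_self _).trans (hC x (Ioo_subset_Icc_self hx))
        rw [mul_comm, ENNReal.ofReal_mul (Real.exp_pos _).le, Real.norm_eq_abs, abs_of_nonneg (hU.1 x)]
        gcongr
    _ = ENNReal.ofReal C * ∫⁻ x in Ioo a b, ENNReal.ofReal (‖U x‖ ^ (2 + γ)) :=
        lintegral_const_mul' _ _ ENNReal.ofReal_ne_top
    _ < ⊤ := ENNReal.mul_lt_top ENNReal.ofReal_lt_top h2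

end Pool.Agent.RLT40
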