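import Pool.Agent.RLT40.OneD

/-!
# Module SHIFT: shift covariance.

For `c : ℝ`: `nneg (a-c) (b-c) (V (· + c)) = nneg a b V`; `pot k τ (U(·+c)) x = pot k (τ e^{-2c}) U (x + c)`; hence
`Gf γ (a-c) (b-c) (U(·+c)) = e^{2γc} Gf γ a b U`, `Jf γ (a-c) (b-c) (U(·+c)) = e^{2γc} Jf γ a b U`; EL data: `φ_i(·+c)`, `e_i e^{2c}`, `α_i e^{2γc}`... (check `norm`, `el`).
-/

open MeasureTheory Set
open scoped ENNReal NNReal

namespace Pool.Agent.RLT40

/-- the translation `f ↦ f(· - c)` as a linear equivalence -/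
noncomputable def shiftEquiv (c : ℝ) : (ℝ → ℝ) ≃ₗ[ℝ] (ℝ → ℝ) where
  toFun f := fun x => f (x - c)
  map_add' _ _ := rfl
  map_smul' _ _ := rfl
  invFun f := fun x => f (x + c)
  left_inv f := by funext x; simp
  right_inv f := by funext x; simp

theorem shiftEquiv_apply (c : ℝ) (f : ℝ → ℝ) (x : ℝ) : shiftEquiv c f x = f (x - c) := rfl

theorem shift_H10 {a b : ℝ} {f : ℝ → ℝ} (c : ℝ) (hf : f ∈ H10 (a - c) (b - c)) :
    shiftEquiv c f ∈ H10 a b := by
  obtain ⟨h0, g, hg, hg0, hfg⟩ := hf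
  have hmem : ∀ x, x ∉ Ioo a b → x - c ∉ Ioo (a - c) (b - c) := by
    intro x hx h
    exact hx ⟨by linarith [h.1], by linarith [h.2]⟩
  refine ⟨fun x hx => h0 _ (hmem x hx), fun x => g (x - c), ?_, fun x hx => hg0 _ (hmem x hx), ?_⟩
  · exact hg.comp_measurePreserving (measurePreserving_sub_right volume c)
  · intro x
    rw [shiftEquiv_apply, hfg (x - c), intervalIntegral.integral_comp_sub_right]

theorem shift_q (V f : ℝ → ℝ) (c : ℝ) : q V (shiftEquiv c f) = q (fun x => V (x + c)) f := by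
  unfold q
  have h : ∀ x, deriv (shiftEquiv c f) x ^ 2 + V x * shiftEquiv c f x ^ 2 =
      (fun y => deriv f y ^ 2 + V (y + c) * f y ^ 2) (x - c) := by
    intro x
    have h1 : deriv (shiftEquiv c f) x = deriv f (x - c) := by
      have : shiftEquiv c f = fun x => f (x - c) := rfl
      rw [this, deriv_comp_sub_const]
    rw [h1]
    simp [shiftEquiv_apply]
  simp_rw [h]
  exact integral_sub_right_eq_self (fun y => deriv f y ^ 2 + V (y + c) * f y ^ 2) c

theorem nneg_shift_le {a b : ℝ} (V : ℝ → ℝ) (c : ℝ) : nneg (a - c) (b - c) (fun x => V (x + c)) ≤ nneg a b V := by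
  unfold nneg
  refine iSup₂_le fun F hF => ?_
  obtain ⟨h1, h2, h3⟩ := hF
  have e : Module.finrank ℝ (F.map (shiftEquiv c : (ℝ → ℝ) →ₗ[ℝ] (ℝ → ℝ))) = Module.finrank ℝ F :=
    LinearEquiv.finrank_map_eq (shiftEquiv c) F
  rw [← e]
  refine le_iSup₂_of_le (F.map (shiftEquiv c : (ℝ → ℝ) →ₗ[ℝ] (ℝ → ℝ))) ⟨?_, inferInstance, ?_⟩ le_rfl
  · rintro _ ⟨f, hf, rfl⟩
    exact shift_H10 c (h1 hf)
  · rintro _ ⟨f, hf, rfl⟩ hne
    have hf0 : f ≠ 0 := by
      rintro rfl
      exact hne (by simp)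
    have := h3 f hf hf0
    show q V (shiftEquiv c f) < 0
    rw [shift_q]
    exact this

theorem nneg_shift {a b : ℝ} (V : ℝ → ℝ) (c : ℝ) : nneg (a - c) (b - c) (fun x => V (x + c)) = nneg a b V := by
  refine le_antisymm (nneg_shift_le V c) ?_
  have h := nneg_shift_le (a := a - c) (b := b - c) (fun x => V (x + c)) (-c)
  have e1 : a - c - -c = a := by ring
  have e2 : b - c - -c = b := by ring
  have e3 : (fun x => (fun x => V (x + c)) (x + -c)) = V := by
    funext x
    simp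
  rw [e1, e2, e3] at h
  exact h

theorem pot_shift (k τ : ℝ) (U : ℝ → ℝ) (c : ℝ) :
    pot k τ (fun x => U (x + c)) = fun x => pot k (τ * Real.exp (-(2 * c))) U (x + c) := by
  funext x
  unfold pot om
  have : τ * Real.exp (2 * x) = τ * Real.exp (-(2 * c)) * Real.exp (2 * (x + c)) := by
    rw [mul_assoc, ← Real.exp_add]
    congr 2
    ring
  rw [this]

theorem nneg_pot_shift {a b : ℝ} (k τ : ℝ) (U : ℝ → ℝ) (c : ℝ) :
    nneg (a - c) (b - c) (pot k τ (fun x => U (x + c))) = nneg a b (pot k (τ * Real.exp (-(2 * c))) U) := by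
  rw [pot_shift]
  exact nneg_shift (pot k (τ * Real.exp (-(2 * c))) U) c

theorem Ntot_shift {a b : ℝ} (U : ℝ → ℝ) (τ c : ℝ) :
    Ntot (a - c) (b - c) (fun x => U (x + c)) τ = Ntot a b U (τ * Real.exp (-(2 * c))) := by
  unfold Ntot
  refine tsum_congr fun k => ?_
  rw [nneg_pot_shift]

theorem Gf_shift {γ a b : ℝ} (hγ : 0 < γ) (U : ℝ → ℝ) (c : ℝ) :
    Gf γ (a - c) (b - c) (fun x => U (x + c)) = ENNReal.ofReal (Real.exp (2 * γ * c)) * Gf γ a b U := by
  unfold Gf
  have hE : 0 < Real.exp (2 * c) := Real.exp_pos _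
  have himg : (fun s : ℝ => Real.exp (2 * c) * s) '' Ioi 0 = Ioi 0 := by
    ext x
    constructor
    · rintro ⟨s, hs, rfl⟩
      exact mul_pos hE hs
    · intro hx
      exact ⟨(Real.exp (2 * c))⁻¹ * x, mul_pos (inv_pos.2 hE) hx, by field_simp⟩
  have hcv := lintegral_image_eq_lintegral_abs_deriv_mul (s := Ioi (0 : ℝ)) (f := fun s => Real.exp (2 * c) * s)
    (f' := fun _ => Real.exp (2 * c)) measurableSet_Ioi
    (fun x _ => by simpa using ((hasDerivAt_id x).const_mul (Real.exp (2 * c))).hasDerivWithinAt)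
    (fun x _ y _ h => mul_left_cancel₀ hE.ne' h)
    (fun τ => ENNReal.ofReal (γ * τ ^ (γ - 1)) * Ntot (a - c) (b - c) (fun x => U (x + c)) τ)
  rw [himg] at hcv
  rw [hcv, ← lintegral_const_mul' _ _ ENNReal.ofReal_ne_top]
  refine setLIntegral_congr_fun measurableSet_Ioi fun s hs => ?_
  have hs0 : (0 : ℝ) < s := hs
  rw [Ntot_shift, abs_of_pos hE]
  have e1 : Real.exp (2 * c) * s * Real.exp (-(2 * c)) = s := by
    rw [mul_comm (Real.exp (2 * c)) s, mul_assoc, ← Real.exp_add]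
    simp
  rw [e1, ← mul_assoc, ← mul_assoc, ← ENNReal.ofReal_mul hE.le, ← ENNReal.ofReal_mul (Real.exp_pos _).le]
  congr 2
  rw [Real.mul_rpow hE.le hs0.le, ← Real.exp_mul]
  have : Real.exp (2 * γ * c) = Real.exp (2 * c) * Real.exp (2 * c * (γ - 1)) := by
    rw [← Real.exp_add]
    congr 1
    ring
  rw [this]
  ring

theorem Jf_shift {γ a b : ℝ} (U : ℝ → ℝ) (c : ℝ) :
    Jf γ (a - c) (b - c) (fun x => U (x + c)) = ENNReal.ofReal (Real.exp (2 * γ * c)) * Jf γ a b U := by
  unfold Jf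
  rw [← lintegral_const_mul' _ _ ENNReal.ofReal_ne_top, ← lintegral_indicator measurableSet_Ioo,
    ← lintegral_indicator measurableSet_Ioo]
  rw [← lintegral_add_right_eq_self (μ := volume) (fun x => (Ioo a b).indicator
    (fun x => ENNReal.ofReal (Real.exp (2 * γ * c)) * ENNReal.ofReal (U x ^ (2 + γ) * Real.exp (-(2 * γ * x)))) x) c]
  refine lintegral_congr fun x => ?_
  by_cases hx : x ∈ Ioo (a - c) (b - c)
  · have hx' : x + c ∈ Ioo a b := ⟨by linarith [hx.1], by linarith [hx.2]⟩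
    rw [indicator_of_mem hx, indicator_of_mem hx', ← ENNReal.ofReal_mul (Real.exp_pos _).le]
    congr 1
    have : Real.exp (-(2 * γ * x)) = Real.exp (2 * γ * c) * Real.exp (-(2 * γ * (x + c))) := by
      rw [← Real.exp_add]
      congr 1
      ring
    rw [this]
    ring
  · have hx' : x + c ∉ Ioo a b := fun h => hx ⟨by linarith [h.1], by linarith [h.2]⟩
    rw [indicator_of_notMem hx, indicator_of_notMem hx']

theorem EL.shift {γ a b C : ℝ} {U : ℝ → ℝ} {n : ℕ} {k : Fin n → ℕ} {e α : Fin n → ℝ} {φ ψ : Fin n → ℝ → ℝ}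
    (E : EL γ a b C U n k e α φ ψ) (c : ℝ) :
    EL γ (a - c) (b - c) C (fun x => U (x + c)) n k (fun i => e i * Real.exp (2 * c)) (fun i => α i * Real.exp (2 * c * γ))
      (fun i x => φ i (x + c)) (fun i x => ψ i (x + c)) := by
  have hE : 0 < Real.exp (2 * c) := Real.exp_pos _
  have hcancel : ∀ t : ℝ, t * Real.exp (2 * c) * Real.exp (-(2 * c)) = t := by
    intro t
    rw [mul_assoc, ← Real.exp_add]
    simp
  refine ⟨E.hk, fun i => mul_pos (E.he i) hE, fun i => mul_pos (E.hα i) (Real.exp_pos _), ?_, ?_, ?_, ?_, ?_, ?_, ?_, ?_⟩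
  · intro i
    rw [pot_shift, hcancel]
    refine ⟨fun x => ?_, fun x => ?_⟩
    · exact ((E.sol i).d1 (x + c)).comp_add_const x c
    · exact ((E.sol i).d2 (x + c)).comp_add_const x c
  · intro i
    show φ i (a - c + c) = 0
    rw [sub_add_cancel]
    exact E.bda i
  · intro i
    show φ i (b - c + c) = 0
    rw [sub_add_cancel]
    exact E.bdb i
  · intro i
    show ψ i (a - c + c) ≠ 0
    rw [sub_add_cancel]
    exact E.nz i
  · intro i j hij he
    exact E.inj i j hij (mul_right_cancel₀ hE.ne' he)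
  · intro i
    have h1 : ∫ x in (a - c)..(b - c), om x * φ i (x + c) ^ 2 = Real.exp (-(2 * c)) * ∫ x in a..b, om x * φ i x ^ 2 := by
      have h2 : ∀ x, om x * φ i (x + c) ^ 2 = (fun y => Real.exp (-(2 * c)) * (om y * φ i y ^ 2)) (x + c) := by
        intro x
        simp only [om]
        rw [← mul_assoc, ← Real.exp_add]
        congr 2
        ring
      simp_rw [h2]
      rw [intervalIntegral.integral_comp_add_right (fun y => Real.exp (-(2 * c)) * (om y * φ i y ^ 2)) c,
        sub_add_cancel, sub_add_cancel, intervalIntegral.integral_const_mul]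
    rw [h1, Real.mul_rpow (E.he i).le hE.le, ← mul_assoc, ← Real.exp_mul]
    have h3 : α i * Real.exp (2 * c * γ) * Real.exp (-(2 * c)) = Real.exp (2 * c * (γ - 1)) * α i := by
      rw [mul_assoc, ← Real.exp_add, mul_comm]
      congr 2
      ring
    rw [← mul_assoc, h3, mul_assoc, E.norm i]
    ring
  · intro x hx
    have hx' : x + c ∈ Icc a b := ⟨by linarith [hx.1], by linarith [hx.2]⟩
    have h1 := E.el (x + c) hx'
    have h2 : γ * ∑ i, α i * Real.exp (2 * c * γ) * φ i (x + c) ^ 2 =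
        Real.exp (2 * c * γ) * (γ * ∑ i, α i * φ i (x + c) ^ 2) := by
      rw [Finset.mul_sum, Finset.mul_sum, Finset.mul_sum]
      refine Finset.sum_congr rfl fun i _ => ?_
      ring
    rw [h2, h1]
    have h3 : Real.exp (-(2 * γ * x)) = Real.exp (2 * c * γ) * Real.exp (-(2 * γ * (x + c))) := by
      rw [← Real.exp_add]
      congr 1
      ring
    rw [h3]
    ring
  · intro κ hκ τ hτ
    rw [nneg_pot_shift, E.cnt κ hκ (τ * Real.exp (-(2 * c))) (mul_nonneg hτ (Real.exp_pos _).le)]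
    congr 2
    ext i
    simp only [Finset.mem_filter, Finset.mem_univ, true_and]
    refine and_congr_right fun _ => ?_
    rw [Real.exp_neg, ← div_eq_mul_inv, div_lt_iff₀ hE]

theorem Adm1.shift {γ a b c : ℝ} {U : ℝ → ℝ} (h : Adm1 γ (a - c) (b - c) U) : Adm1 γ a b (fun x => U (x - c)) := by
  refine ⟨fun x => h.1 _, ?_⟩
  have h2 := h.2
  have hmp : MeasurePreserving (fun x : ℝ => x - c) (volume.restrict (Ioo a b)) (volume.restrict (Ioo (a - c) (b - c))) := by
    have h3 := (measurePreserving_sub_right (volume : Measure ℝ) c).restrict_preimage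
      (s := Ioo (a - c) (b - c)) measurableSet_Ioo
    have h4 : (fun x : ℝ => x - c) ⁻¹' Ioo (a - c) (b - c) = Ioo a b := by
      ext x
      simp
    rw [h4] at h3
    exact h3
  exact h2.comp_measurePreserving hmp

theorem Opt.shift {γ a b C : ℝ} (hγ : 0 < γ) {U : ℝ → ℝ} (O : Opt γ a b C U) (c : ℝ) :
    Opt γ (a - c) (b - c) C (fun x => U (x + c)) := by
  refine ⟨by linarith [O.hab], O.hC, O.cont.comp (continuous_id.add continuous_const), ?_, ?_, ?_, ?_, ?_⟩
  · intro x hx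
    exact O.zero _ fun h => hx ⟨by linarith [h.1], by linarith [h.2]⟩
  · intro x hx
    exact O.pos _ ⟨by linarith [hx.1], by linarith [hx.2]⟩
  · intro U' hU'
    have h1 := O.max _ hU'.shift
    have h2 : (fun x => (fun y => U' (y - c)) (x + c)) = U' := by
      funext x
      simp
    have h3 := Gf_shift (a := a) (b := b) hγ (fun y => U' (y - c)) c
    have h4 := Jf_shift (γ := γ) (a := a) (b := b) (fun y => U' (y - c)) c
    rw [h2] at h3 h4
    rw [h3, h4]
    calc _ ≤ ENNReal.ofReal (Real.exp (2 * γ * c)) * (ENNReal.ofReal C * Jf γ a b fun x => U' (x - c)) :=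
          mul_le_mul_right h1 _
      _ = _ := by ring
  · rw [Gf_shift hγ, Jf_shift, O.eq]
    ring
  · obtain ⟨n, k, e, α, φ, ψ, hn, E⟩ := O.el
    exact ⟨n, k, _, _, _, _, hn, E.shift c⟩

end Pool.Agent.RLT40
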