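import Pool.Agent.RLT40.Window
import Pool.Agent.RLT40.Shift

/-!
# Module MASS (paper 4.1): uniform local mass bound.

Cells `[j, j+1]`, `j : ℤ` (shifted by `c`: it suffices to treat cells `[c + j, c + j + 1]`; by Opt.shift and maximality choose the origin at the left end of a maximal cell).
Let `M = sup_c ∫_c^{c+1} U^{2+γ}` (attained or nearly: take `c` with mass `≥ M/2`; then all cells have mass `≤ 2 M₀`, `M₀` the mass of cell 0).
`w_n = [-n, n+1]`, `m_n = ∫_{w_n} U^{2+γ}`.  If `m_{n+1} - m_n > θ m_{n+1}` for all `n < n₁` then `m_{n₁} ≥ (1-θ)^{-n₁} M₀ > (2n₁+1) 2 M₀` for `n₁ = n₁(θ)`: impossible.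
So for some `n < n₁` the window `α = -n-1, β = n+2, ℓ = 1` has end masses `≤ θ m_{n+1}`.  window_ineq and G_le2 for `Um` on the window (weights `e^{-2γx}` in `[1/2,2]` for
`γ ≤ γ₁(n₁)`), `C ≥ (3/4)(3/16)κ`, `C ≤ 3/16`: `(1/8)(3/16)κ J(Um) ≤ (3/16) ∫ Um^{1+γ} w + 2C ∫_O (U+π²)^{2+γ} w`, `(U+π²)^{2+γ} ≤ 8 (U^{2+γ} + π^{6})`,
`u^{1+γ} ≤ ε u^{2+γ} + C_ε`.  So `J(Um) ≤ K'`, hence `M ≤ K`.
-/

open MeasureTheory Set
open scoped ENNReal NNReal

namespace Pool.Agent.RLT40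

theorem Mass_exists_n : ∃ n₁ : ℕ, (1 - 1 / 2048 : ℝ) ^ n₁ * (2 * n₁ + 1) < 1 := by
  have h1 : Filter.Tendsto (fun n : ℕ => (n : ℝ) ^ 1 * (1 - 1 / 2048 : ℝ) ^ n) Filter.atTop (nhds 0) :=
    tendsto_pow_const_mul_const_pow_of_abs_lt_one 1 (by rw [abs_of_nonneg] <;> norm_num)
  have h2 : Filter.Tendsto (fun n : ℕ => (1 - 1 / 2048 : ℝ) ^ n) Filter.atTop (nhds 0) :=
    tendsto_pow_atTop_nhds_zero_of_lt_one (by norm_num) (by norm_num)
  have h3 := (h1.const_mul 2).add h2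
  rw [mul_zero, add_zero] at h3
  have h4 : ∀ᶠ n : ℕ in Filter.atTop, 2 * ((n : ℝ) ^ 1 * (1 - 1 / 2048 : ℝ) ^ n) + (1 - 1 / 2048 : ℝ) ^ n < 1 :=
    h3.eventually_lt_const (by norm_num)
  obtain ⟨n, hn⟩ := h4.exists
  refine ⟨n, ?_⟩
  calc (1 - 1 / 2048 : ℝ) ^ n * (2 * n + 1) = 2 * ((n : ℝ) ^ 1 * (1 - 1 / 2048 : ℝ) ^ n) + (1 - 1 / 2048 : ℝ) ^ n := by ring
    _ < 1 := hn

/-- pigeonhole: one of the windows has small end masses -/
theorem Mass_pigeon {n₁ : ℕ} (hn : (1 - 1 / 2048 : ℝ) ^ n₁ * (2 * n₁ + 1) < 1) {m : ℕ → ℝ} {M : ℝ} (hM : 0 < M)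
    (h0 : m 0 = M) (hm : ∀ n : ℕ, m n ≤ (2 * n + 1) * M) : ∃ n < n₁, m (n + 1) - m n ≤ 1 / 2048 * m (n + 1) := by
  by_contra hcon
  push Not at hcon
  have key : ∀ n ≤ n₁, M ≤ (1 - 1 / 2048 : ℝ) ^ n * m n := by
    intro n
    induction n with
    | zero => intro _; simp [h0]
    | succ n ih =>
      intro hle
      have h1 := ih (by omega)
      have h2 := hcon n (by omega)
      have h3 : m n ≤ (1 - 1 / 2048) * m (n + 1) := by linarith
      calc M ≤ (1 - 1 / 2048 : ℝ) ^ n * m n := h1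
        _ ≤ (1 - 1 / 2048 : ℝ) ^ n * ((1 - 1 / 2048) * m (n + 1)) := by
            apply mul_le_mul_of_nonneg_left h3
            exact pow_nonneg (by norm_num) _
        _ = _ := by ring
  have h1 := key n₁ le_rfl
  have h2 : (1 - 1 / 2048 : ℝ) ^ n₁ * m n₁ ≤ (1 - 1 / 2048 : ℝ) ^ n₁ * ((2 * n₁ + 1) * M) := by
    apply mul_le_mul_of_nonneg_left (hm n₁)
    exact pow_nonneg (by norm_num) _
  nlinarith

theorem Mass_exp {t : ℝ} (ht : |t| ≤ 1 / 2) : 1 / 2 ≤ Real.exp t ∧ Real.exp t ≤ 2 := by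
  obtain ⟨h1, h2⟩ := abs_le.1 ht
  have h3 : Real.exp (1 / 2) ≤ 2 := by
    have h4 : Real.exp (1 / 2) ^ 2 ≤ 2 ^ 2 := by
      rw [← Real.exp_nat_mul]
      have := Real.exp_one_lt_d9
      norm_num
      linarith
    exact (sq_le_sq₀ (Real.exp_pos _).le (by norm_num)).1 h4
  refine ⟨?_, (Real.exp_le_exp.2 h2).trans h3⟩
  have h5 : Real.exp t * Real.exp (-t) = 1 := by rw [← Real.exp_add]; simp
  have h6 : Real.exp (-t) ≤ 2 := (Real.exp_le_exp.2 (by linarith)).trans h3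
  have h7 := Real.exp_pos t
  nlinarith

theorem Mass_kap {γ : ℝ} (h0 : 0 < γ) (h1 : γ < 1 / 20) : 8 / 9 ≤ kap γ ∧ kap γ ≤ 1 := by
  unfold kap
  constructor
  · rw [div_le_div_iff₀ (by norm_num) (by positivity)]
    nlinarith
  · rw [div_le_one (by positivity)]
    nlinarith

/-- `u^{1+γ} ≤ u^{2+γ}/32 + 1024` -/
theorem Mass_young {γ u : ℝ} (h0 : 0 < γ) (h1 : γ < 1 / 20) (hu : 0 ≤ u) :
    u ^ (1 + γ) ≤ 1 / 32 * u ^ (2 + γ) + 1024 := by
  rcases le_or_gt u 32 with h | h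
  · have h2 : u ^ (1 + γ) ≤ 32 ^ (1 + γ) := Real.rpow_le_rpow hu h (by linarith)
    have h3 : (32 : ℝ) ^ (1 + γ) ≤ 32 ^ (2 : ℝ) := Real.rpow_le_rpow_of_exponent_le (by norm_num) (by linarith)
    have h4 : (32 : ℝ) ^ (2 : ℝ) = 1024 := by
      rw [show (2 : ℝ) = ((2 : ℕ) : ℝ) by norm_num, Real.rpow_natCast]; norm_num
    have h5 : 0 ≤ u ^ (2 + γ) := Real.rpow_nonneg hu _
    linarith
  · have hu' : 0 < u := by linarith
    have h2 : u ^ (2 + γ) = u * u ^ (1 + γ) := by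
      rw [show 2 + γ = 1 + (1 + γ) by ring, Real.rpow_add hu', Real.rpow_one]
    have h3 : 0 ≤ u ^ (1 + γ) := Real.rpow_nonneg hu _
    rw [h2]
    nlinarith

/-- `(u + π²)^{2+γ} ≤ 8 (u^{2+γ} + π^6)` -/
theorem Mass_conv {γ u : ℝ} (h0 : 0 < γ) (h1 : γ < 1 / 20) (hu : 0 ≤ u) :
    (u + Real.pi ^ 2 / 1 ^ 2) ^ (2 + γ) ≤ 8 * (u ^ (2 + γ) + Real.pi ^ 6) := by
  have hpi := Real.pi_gt_three
  have hp2 : (1 : ℝ) ≤ Real.pi ^ 2 := by nlinarith
  set v := Real.pi ^ 2 with hv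
  have hvp : v ^ (2 + γ) ≤ Real.pi ^ 6 := by
    have h3 : v ^ (2 + γ) ≤ v ^ (3 : ℝ) := Real.rpow_le_rpow_of_exponent_le hp2 (by linarith)
    have h4 : v ^ (3 : ℝ) = Real.pi ^ 6 := by
      rw [show (3 : ℝ) = ((3 : ℕ) : ℝ) by norm_num, Real.rpow_natCast, hv]; ring
    exact h3.trans_eq h4
  have h8 : (2 : ℝ) ^ (2 + γ) ≤ 8 := by
    have h3 : (2 : ℝ) ^ (2 + γ) ≤ 2 ^ (3 : ℝ) := Real.rpow_le_rpow_of_exponent_le (by norm_num) (by linarith)
    have h4 : (2 : ℝ) ^ (3 : ℝ) = 8 := by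
      rw [show (3 : ℝ) = ((3 : ℕ) : ℝ) by norm_num, Real.rpow_natCast]; norm_num
    linarith
  have hup : 0 ≤ u ^ (2 + γ) := Real.rpow_nonneg hu _
  have hvp0 : 0 ≤ v ^ (2 + γ) := Real.rpow_nonneg (by linarith) _
  have hm : u + v / 1 ^ 2 ≤ 2 * max u v := by
    have := le_max_left u v
    have := le_max_right u v
    norm_num
    linarith
  have hm0 : 0 ≤ max u v := le_max_of_le_left hu
  calc (u + v / 1 ^ 2) ^ (2 + γ) ≤ (2 * max u v) ^ (2 + γ) := Real.rpow_le_rpow (by positivity) hm (by linarith)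
    _ = 2 ^ (2 + γ) * max u v ^ (2 + γ) := Real.mul_rpow (by norm_num) hm0
    _ ≤ 8 * max u v ^ (2 + γ) := mul_le_mul_of_nonneg_right h8 (Real.rpow_nonneg hm0 _)
    _ ≤ 8 * (u ^ (2 + γ) + Real.pi ^ 6) := by
        apply mul_le_mul_of_nonneg_left _ (by norm_num)
        rcases max_cases u v with h | h
        · rw [h.1]; nlinarith [pow_pos Real.pi_pos 6]
        · rw [h.1]; linarith

/-- window estimate on one window -/
theorem Mass_window {γ a b C : ℝ} {U : ℝ → ℝ} (hγ : 0 < γ) (hγ1 : γ < 1 / 20) (O : Opt γ a b C U)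
    (hC1 : 3 / 4 * (3 / 16) * kap γ ≤ C) (hC2 : C ≤ 3 / 16 * kap γ) {α β : ℝ} (hαβ : α + 2 * 1 ≤ β)
    (hw : ∀ x ∈ Ioo α β, |-(2 * γ * x)| ≤ 1 / 2)
    (hend : (∫ x in α..(α + 1), U x ^ (2 + γ)) + (∫ x in (β - 1)..β, U x ^ (2 + γ)) ≤
      1 / 2048 * ∫ x in α..β, U x ^ (2 + γ)) :
    ∫ x in α..β, U x ^ (2 + γ) ≤ 288 / 7 * (2048 * (β - α) + 64 * Real.pi ^ 6) := by
  have hU0 : ∀ x, 0 ≤ U x := fun x => by
    by_cases h : x ∈ Ioo a b
    · exact (O.pos x h).le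
    · exact (O.zero x h).ge
  have hp : (0 : ℝ) < 2 + γ := by linarith
  have hp1 : (0 : ℝ) < 1 + γ := by linarith
  have hfc : Continuous fun x => U x ^ (2 + γ) := O.cont.rpow_const fun x => Or.inr hp.le
  have hUm : Continuous (Um U α β 1) := O.cont.add (thd_continuous.pow 2)
  have hUm0 : ∀ x, U x ≤ Um U α β 1 x := fun x => by
    have : 0 ≤ thd α β 1 x ^ 2 := sq_nonneg _
    unfold Um; linarith
  have hUm0' : ∀ x, 0 ≤ Um U α β 1 x := fun x => (hU0 x).trans (hUm0 x)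
  have hwc : Continuous fun x => Real.exp (-(2 * γ * x)) := by fun_prop
  set a' := max a α with ha'
  set b' := min b β with hb'
  have hS : Ioo a' b' = Ioo a b ∩ Ioo α β := by
    rw [ha', hb', Ioo_inter_Ioo]
  have hSsub : Ioo a' b' ⊆ Ioo α β := by rw [hS]; exact inter_subset_right
  have hi : ∀ g : ℝ → ℝ, Continuous g → ∀ c d : ℝ, IntegrableOn g (Ioo c d) := fun g hg c d =>
    (hg.integrableOn_Icc).mono_set Ioo_subset_Icc_self
  -- the three functions
  have c1 : Continuous fun x => Um U α β 1 x ^ (2 + γ) * Real.exp (-(2 * γ * x)) :=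
    (hUm.rpow_const fun x => Or.inr hp.le).mul hwc
  have c2 : Continuous fun x => Um U α β 1 x ^ (1 + γ) * Real.exp (-(2 * γ * x)) :=
    (hUm.rpow_const fun x => Or.inr hp1.le).mul hwc
  have c3 : Continuous fun x => (U x + Real.pi ^ 2 / 1 ^ 2) ^ (2 + γ) * Real.exp (-(2 * γ * x)) :=
    ((O.cont.add continuous_const).rpow_const fun x => Or.inr hp.le).mul hwc
  have hAdm : Adm1 γ a' b' (Um U α β 1) := by
    refine ⟨hUm0', ?_⟩
    obtain ⟨B, hB⟩ := (isCompact_Icc (a := a') (b := b')).exists_bound_of_continuousOn hUm.continuousOn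
    refine MemLp.of_bound hUm.aestronglyMeasurable.restrict B ?_
    refine (ae_restrict_iff' measurableSet_Ioo).2 (Filter.Eventually.of_forall fun x hx => hB x (Ioo_subset_Icc_self hx))
  set J := ∫ x in Ioo a' b', Um U α β 1 x ^ (2 + γ) * Real.exp (-(2 * γ * x)) with hJ
  set I1 := ∫ x in Ioo a' b', Um U α β 1 x ^ (1 + γ) * Real.exp (-(2 * γ * x)) with hI1
  set Z := Ioo a b ∩ Oz α β 1 with hZ
  have hZm : MeasurableSet Z := measurableSet_Ioo.inter (measurableSet_Ioo.union measurableSet_Ioo)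
  have hZsub : Z ⊆ Ioo α β := by
    rintro x ⟨_, hx⟩
    rcases hx with hx | hx
    · exact ⟨hx.1, by linarith [hx.2]⟩
    · exact ⟨by linarith [hx.1], hx.2⟩
  have hZi : ∀ g : ℝ → ℝ, Continuous g → IntegrableOn g Z := fun g hg => (hi g hg α β).mono_set hZsub
  set E := ∫ x in Z, (U x + Real.pi ^ 2 / 1 ^ 2) ^ (2 + γ) * Real.exp (-(2 * γ * x)) with hE
  have hJ0 : 0 ≤ J := integral_nonneg fun x => mul_nonneg (Real.rpow_nonneg (hUm0' x) _) (Real.exp_pos _).le
  have hI0 : 0 ≤ I1 := integral_nonneg fun x => mul_nonneg (Real.rpow_nonneg (hUm0' x) _) (Real.exp_pos _).le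
  have hE0 : 0 ≤ E := integral_nonneg fun x =>
    mul_nonneg (Real.rpow_nonneg (by have := hU0 x; positivity) _) (Real.exp_pos _).le
  have eJ : Jf γ a' b' (Um U α β 1) = ENNReal.ofReal J := by
    rw [hJ, ofReal_integral_eq_lintegral_ofReal (hi _ c1 _ _)
      (Filter.Eventually.of_forall fun x => mul_nonneg (Real.rpow_nonneg (hUm0' x) _) (Real.exp_pos _).le)]
    rfl
  have eI : ∫⁻ x in Ioo a' b', ENNReal.ofReal (Um U α β 1 x ^ (1 + γ) * Real.exp (-(2 * γ * x))) = ENNReal.ofReal I1 := by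
    rw [hI1, ofReal_integral_eq_lintegral_ofReal (hi _ c2 _ _)
      (Filter.Eventually.of_forall fun x => mul_nonneg (Real.rpow_nonneg (hUm0' x) _) (Real.exp_pos _).le)]
  have eE : ∫⁻ x in Z, ENNReal.ofReal ((U x + Real.pi ^ 2 / 1 ^ 2) ^ (2 + γ) * Real.exp (-(2 * γ * x))) =
      ENNReal.ofReal E := by
    rw [hE, ofReal_integral_eq_lintegral_ofReal (hZi _ c3)
      (Filter.Eventually.of_forall fun x =>
        mul_nonneg (Real.rpow_nonneg (by have := hU0 x; positivity) _) (Real.exp_pos _).le)]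
  have hW := window_ineq hγ O (one_pos) hαβ
  have hG := G_le2 hγ hAdm
  rw [← ha', ← hb', eJ, eE] at hW
  rw [eJ, eI] at hG
  have hk := Mass_kap hγ hγ1
  have hC0 : 0 < C := O.hC
  have main : C * J ≤ 5 / 8 * (3 / 16) * kap γ * J + 3 / 16 / (1 + γ) * I1 + 2 * C * E := by
    have h1 := hW.trans (add_le_add_left hG _)
    have hk0 : 0 ≤ kap γ := by linarith
    rw [← ENNReal.ofReal_mul hC0.le, ← ENNReal.ofReal_mul (by positivity), ← ENNReal.ofReal_mul (by positivity),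
      show (2 : ℝ≥0∞) = ENNReal.ofReal 2 by simp, ← ENNReal.ofReal_mul (by norm_num),
      ← ENNReal.ofReal_mul (by positivity), ← ENNReal.ofReal_add (by positivity) (by positivity),
      ← ENNReal.ofReal_add (by positivity) (by positivity)] at h1
    exact (ENNReal.ofReal_le_ofReal_iff (by positivity)).1 h1
  -- mass of the window
  have hmS : ∫ x in α..β, U x ^ (2 + γ) = ∫ x in Ioo a' b', U x ^ (2 + γ) := by
    rw [intervalIntegral.integral_of_le (by linarith), integral_Ioc_eq_integral_Ioo]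
    refine setIntegral_eq_of_subset_of_forall_sdiff_eq_zero measurableSet_Ioo hSsub fun x hx => ?_
    have : x ∉ Ioo a b := fun h => hx.2 (by rw [hS]; exact ⟨h, hx.1⟩)
    rw [O.zero x this, Real.zero_rpow hp.ne']
  set m := ∫ x in α..β, U x ^ (2 + γ) with hm
  have hmJ : m ≤ 2 * J := by
    rw [hmS, hJ, ← integral_const_mul]
    refine setIntegral_mono_on (hi _ hfc _ _) ((hi _ c1 _ _).const_mul 2) measurableSet_Ioo fun x hx => ?_
    have h1 := (Mass_exp (hw x (hSsub hx))).1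
    have h2 : U x ^ (2 + γ) ≤ Um U α β 1 x ^ (2 + γ) := Real.rpow_le_rpow (hU0 x) (hUm0 x) hp.le
    have h3 : 0 ≤ Um U α β 1 x ^ (2 + γ) := Real.rpow_nonneg (hUm0' x) _
    nlinarith
  have hI1J : I1 ≤ 1 / 32 * J + 2048 * (β - α) := by
    have h1 : I1 ≤ ∫ x in Ioo a' b', (1 / 32 * (Um U α β 1 x ^ (2 + γ) * Real.exp (-(2 * γ * x))) + 2048) := by
      rw [hI1]
      refine setIntegral_mono_on (hi _ c2 _ _) (((hi _ c1 _ _).const_mul _).add (hi _ continuous_const _ _))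
        measurableSet_Ioo fun x hx => ?_
      have h1 := (Mass_exp (hw x (hSsub hx))).2
      have h2 := Mass_young hγ hγ1 (hUm0' x)
      have h3 := Real.exp_pos (-(2 * γ * x))
      calc Um U α β 1 x ^ (1 + γ) * Real.exp (-(2 * γ * x))
          ≤ (1 / 32 * Um U α β 1 x ^ (2 + γ) + 1024) * Real.exp (-(2 * γ * x)) :=
            mul_le_mul_of_nonneg_right h2 h3.le
        _ = 1 / 32 * (Um U α β 1 x ^ (2 + γ) * Real.exp (-(2 * γ * x))) + 1024 * Real.exp (-(2 * γ * x)) := by ring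
        _ ≤ _ := by linarith
    rw [integral_add ((hi _ c1 _ _).const_mul _) (hi _ continuous_const _ _), integral_const_mul] at h1
    have h2 : ∫ x in Ioo a' b', (2048 : ℝ) ≤ 2048 * (β - α) := by
      have h3 : ∫ x in Ioo a' b', (2048 : ℝ) ≤ ∫ x in Ioo α β, (2048 : ℝ) :=
        setIntegral_mono_set (hi _ continuous_const _ _) (Filter.Eventually.of_forall fun x => by norm_num)
          (Filter.Eventually.of_forall hSsub)
      have h4 : ∫ x in Ioo α β, (2048 : ℝ) = 2048 * (β - α) := by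
        rw [setIntegral_const, Measure.real, Real.volume_Ioo, ENNReal.toReal_ofReal (by linarith), smul_eq_mul]
        ring
      linarith
    linarith
  have hEm : E ≤ 16 * (1 / 2048 * m) + 32 * Real.pi ^ 6 := by
    have hOzi : ∀ g : ℝ → ℝ, Continuous g → IntegrableOn g (Oz α β 1) := fun g hg =>
      (hi g hg _ _).union (hi g hg _ _)
    have h1 : E ≤ ∫ x in Z, 16 * (U x ^ (2 + γ) + Real.pi ^ 6) := by
      rw [hE]
      refine setIntegral_mono_on (hZi _ c3) ((hZi _ (hfc.add continuous_const)).const_mul _) hZm fun x hx => ?_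
      have h1 := (Mass_exp (hw x (hZsub hx))).2
      have h2 := Mass_conv hγ hγ1 (hU0 x)
      have h3 := Real.exp_pos (-(2 * γ * x))
      have h4 : 0 ≤ U x ^ (2 + γ) + Real.pi ^ 6 := by
        have := Real.rpow_nonneg (hU0 x) (2 + γ)
        positivity
      calc _ ≤ 8 * (U x ^ (2 + γ) + Real.pi ^ 6) * Real.exp (-(2 * γ * x)) := mul_le_mul_of_nonneg_right h2 h3.le
        _ ≤ 8 * (U x ^ (2 + γ) + Real.pi ^ 6) * 2 := mul_le_mul_of_nonneg_left h1 (by positivity)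
        _ = _ := by ring
    have h2 : ∫ x in Z, 16 * (U x ^ (2 + γ) + Real.pi ^ 6) ≤ ∫ x in Oz α β 1, 16 * (U x ^ (2 + γ) + Real.pi ^ 6) :=
      setIntegral_mono_set ((hOzi _ (hfc.add continuous_const)).const_mul _)
        (Filter.Eventually.of_forall fun x => by
          have := Real.rpow_nonneg (hU0 x) (2 + γ)
          simp only [Pi.zero_apply]
          positivity)
        (Filter.Eventually.of_forall fun x hx => hx.2)
    have h3 : ∫ x in Oz α β 1, 16 * (U x ^ (2 + γ) + Real.pi ^ 6) =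
        16 * ((∫ x in α..(α + 1), U x ^ (2 + γ)) + (∫ x in (β - 1)..β, U x ^ (2 + γ))) + 32 * Real.pi ^ 6 := by
      have hd : Disjoint (Ioo α (α + 1)) (Ioo (β - 1) β) := by
        rw [Set.disjoint_left]
        intro x hx hx'
        linarith [hx.2, hx'.1]
      have h16 : Continuous fun x => U x ^ (2 + γ) + Real.pi ^ 6 := hfc.add continuous_const
      rw [integral_const_mul, Oz, setIntegral_union hd measurableSet_Ioo (hi _ h16 _ _)
        (hi _ h16 _ _), integral_add (hi _ hfc _ _) (hi _ continuous_const _ _),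
        integral_add (hi _ hfc _ _) (hi _ continuous_const _ _), intervalIntegral.integral_of_le (by linarith),
        intervalIntegral.integral_of_le (by linarith), integral_Ioc_eq_integral_Ioo, integral_Ioc_eq_integral_Ioo]
      simp only [integral_const, Measure.real, smul_eq_mul, Measure.restrict_apply_univ, Real.volume_Ioo]
      rw [show α + 1 - α = 1 by ring, show β - (β - 1) = 1 by ring, ENNReal.toReal_ofReal (by norm_num)]
      ring
    linarith
  -- final arithmetic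
  have hm0 : 0 ≤ m := by
    rw [hmS]
    exact integral_nonneg fun x => Real.rpow_nonneg (hU0 x) _
  have h1 : 3 / 4 * (3 / 16) * kap γ * J ≤ C * J := mul_le_mul_of_nonneg_right hC1 hJ0
  have h2 : 3 / 16 / (1 + γ) * I1 ≤ 3 / 16 * I1 := by
    apply mul_le_mul_of_nonneg_right _ hI0
    rw [div_le_iff₀ hp1]
    nlinarith
  have h3 : 2 * C * E ≤ 2 * (3 / 16) * E := by
    apply mul_le_mul_of_nonneg_right _ hE0
    nlinarith
  have h4 : 1 / 8 * (3 / 16) * kap γ * J ≤ 3 / 16 * I1 + 2 * (3 / 16) * E := by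
    have e : 3 / 4 * (3 / 16) * kap γ * J = 1 / 8 * (3 / 16) * kap γ * J + 5 / 8 * (3 / 16) * kap γ * J := by ring
    linarith
  have h5 : 8 / 9 * J ≤ kap γ * J := mul_le_mul_of_nonneg_right hk.1 hJ0
  have h6 : 1 / 9 * J ≤ I1 + 2 * E := by linarith
  linarith

theorem Mass_core {n₁ : ℕ} (hn : (1 - 1 / 2048 : ℝ) ^ n₁ * (2 * n₁ + 1) < 1) {γ a b C : ℝ} {U : ℝ → ℝ} (hγ : 0 < γ)
    (hγ1 : γ < 1 / 20) (hγ2 : γ * (4 * (n₁ + 2)) ≤ 1) (O : Opt γ a b C U) (hC1 : 3 / 4 * (3 / 16) * kap γ ≤ C)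
    (hC2 : C ≤ 3 / 16 * kap γ)
    (hmax : ∀ c : ℝ, ∫ x in c..(c + 1), U x ^ (2 + γ) ≤ ∫ x in (0 : ℝ)..1, U x ^ (2 + γ)) :
    ∫ x in (0 : ℝ)..1, U x ^ (2 + γ) ≤ 288 / 7 * (2048 * (2 * n₁ + 3) + 64 * Real.pi ^ 6) := by
  have hU0 : ∀ x, 0 ≤ U x := fun x => by
    by_cases h : x ∈ Ioo a b
    · exact (O.pos x h).le
    · exact (O.zero x h).ge
  have hp : (0 : ℝ) < 2 + γ := by linarith
  have hfc : Continuous fun x => U x ^ (2 + γ) := O.cont.rpow_const fun x => Or.inr hp.le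
  have hii : ∀ c d : ℝ, IntervalIntegrable (fun x => U x ^ (2 + γ)) volume c d := fun c d => hfc.intervalIntegrable c d
  set M := ∫ x in (0 : ℝ)..1, U x ^ (2 + γ) with hM
  rcases le_or_gt M 0 with hM0 | hM0
  · have : 0 < 288 / 7 * (2048 * (2 * (n₁ : ℝ) + 3) + 64 * Real.pi ^ 6) := by positivity
    linarith
  set m : ℕ → ℝ := fun n => ∫ x in (-(n : ℝ))..(n + 1), U x ^ (2 + γ) with hm
  have hsplit : ∀ n : ℕ, m (n + 1) = (∫ x in (-((n : ℝ) + 1))..(-(n : ℝ)), U x ^ (2 + γ)) + m n +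
      ∫ x in ((n : ℝ) + 1)..((n : ℝ) + 1 + 1), U x ^ (2 + γ) := by
    intro n
    simp only [hm]
    rw [intervalIntegral.integral_add_adjacent_intervals (hii _ _) (hii _ _),
      intervalIntegral.integral_add_adjacent_intervals (hii _ _) (hii _ _)]
    push_cast
    rfl
  have h0 : m 0 = M := by simp [hm, hM]
  have hleft : ∀ n : ℕ, (∫ x in (-((n : ℝ) + 1))..(-(n : ℝ)), U x ^ (2 + γ)) ≤ M := by
    intro n
    have := hmax (-((n : ℝ) + 1))
    rwa [show -((n : ℝ) + 1) + 1 = -(n : ℝ) by ring] at this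
  have hmn : ∀ n : ℕ, m n ≤ (2 * n + 1) * M := by
    intro n
    induction n with
    | zero => rw [h0]; simp
    | succ n ih =>
      rw [hsplit]
      have := hmax ((n : ℝ) + 1)
      have := hleft n
      push_cast
      linarith
  have hmono : ∀ n : ℕ, M ≤ m n := by
    intro n
    induction n with
    | zero => rw [h0]
    | succ n ih =>
      rw [hsplit]
      have h1 : 0 ≤ ∫ x in (-((n : ℝ) + 1))..(-(n : ℝ)), U x ^ (2 + γ) :=
        intervalIntegral.integral_nonneg (by linarith) fun x _ => Real.rpow_nonneg (hU0 x) _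
      have h2 : 0 ≤ ∫ x in ((n : ℝ) + 1)..((n : ℝ) + 1 + 1), U x ^ (2 + γ) :=
        intervalIntegral.integral_nonneg (by linarith) fun x _ => Real.rpow_nonneg (hU0 x) _
      linarith
  obtain ⟨n, hnn, hsm⟩ := Mass_pigeon hn hM0 h0 hmn
  have hnr : (n : ℝ) + 1 ≤ n₁ := by exact_mod_cast hnn
  have key := Mass_window (α := -((n : ℝ) + 1)) (β := (n : ℝ) + 1 + 1) hγ hγ1 O hC1 hC2
    (by have : (0 : ℝ) ≤ n := Nat.cast_nonneg n; linarith) (fun x hx => by
      rw [abs_neg, abs_mul, abs_of_pos (by positivity)]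
      have h1 : |x| ≤ n + 2 := abs_le.2 ⟨by linarith [hx.1], by linarith [hx.2]⟩
      have h2 : 2 * γ * |x| ≤ 2 * γ * (n₁ + 2) := mul_le_mul_of_nonneg_left (by linarith) (by positivity)
      linarith) (by
      have e1 : -((n : ℝ) + 1) + 1 = -(n : ℝ) := by ring
      have e2 : (n : ℝ) + 1 + 1 - 1 = n + 1 := by ring
      have e3 : (∫ x in (-((n : ℝ) + 1))..((n : ℝ) + 1 + 1), U x ^ (2 + γ)) = m (n + 1) := by
        simp only [hm]; push_cast; rfl
      rw [e1, e2, e3]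
      have := hsplit n
      linarith)
  have e3 : (∫ x in (-((n : ℝ) + 1))..((n : ℝ) + 1 + 1), U x ^ (2 + γ)) = m (n + 1) := by
    simp only [hm]; push_cast; rfl
  rw [e3] at key
  have h1 := hmono (n + 1)
  refine (h1.trans key).trans ?_
  have : (n : ℝ) + 1 + 1 - -((n : ℝ) + 1) ≤ 2 * n₁ + 3 := by linarith
  nlinarith

theorem mass_bound : ∃ K > 0, ∃ γ₁ > 0, γ₁ ≤ 1 / 20 ∧ ∀ γ a b C : ℝ, ∀ U : ℝ → ℝ, 0 < γ → γ < γ₁ → Opt γ a b C U →
    3 / 4 * (3 / 16) * kap γ ≤ C → C ≤ 3 / 16 * kap γ → ∀ c : ℝ, ∫ x in c..(c + 1), U x ^ (2 + γ) ≤ K := by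
  obtain ⟨n₁, hn⟩ := Mass_exists_n
  refine ⟨288 / 7 * (2048 * (2 * n₁ + 3) + 64 * Real.pi ^ 6), by positivity, min (1 / 20) (1 / (4 * ((n₁ : ℝ) + 2))),
    by positivity, min_le_left _ _, ?_⟩
  intro γ a b C U hγ hγ1 O hC1 hC2 c
  have hγa : γ < 1 / 20 := lt_of_lt_of_le hγ1 (min_le_left _ _)
  have hγb : γ * (4 * ((n₁ : ℝ) + 2)) ≤ 1 := by
    have h := (lt_of_lt_of_le hγ1 (min_le_right _ _)).le
    rwa [le_div_iff₀ (by positivity)] at h
  have hU0 : ∀ x, 0 ≤ U x := fun x => by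
    by_cases h : x ∈ Ioo a b
    · exact (O.pos x h).le
    · exact (O.zero x h).ge
  have hp : (0 : ℝ) < 2 + γ := by linarith
  have hfc : Continuous fun x => U x ^ (2 + γ) := O.cont.rpow_const fun x => Or.inr hp.le
  have hii : ∀ c d : ℝ, IntervalIntegrable (fun x => U x ^ (2 + γ)) volume c d := fun c d => hfc.intervalIntegrable c d
  set F : ℝ → ℝ := fun c => ∫ x in c..(c + 1), U x ^ (2 + γ) with hF
  have hFc : Continuous F := by
    have h1 : Continuous fun b => ∫ x in (0 : ℝ)..b, U x ^ (2 + γ) := intervalIntegral.continuous_primitive hii 0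
    have h2 : F = fun c => (∫ x in (0 : ℝ)..(c + 1), U x ^ (2 + γ)) - ∫ x in (0 : ℝ)..c, U x ^ (2 + γ) := by
      funext c
      rw [hF]
      exact (intervalIntegral.integral_interval_sub_left (hii _ _) (hii _ _)).symm
    rw [h2]
    exact (h1.comp (continuous_id.add continuous_const)).sub h1
  have hFs : HasCompactSupport F := by
    refine HasCompactSupport.intro (isCompact_Icc (a := a - 1) (b := b)) fun c hc => ?_
    rw [hF]
    refine (intervalIntegral.integral_congr (g := fun _ => (0 : ℝ)) fun x hx => ?_).trans (by simp)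
    rw [uIcc_of_le (by linarith)] at hx
    have : x ∉ Ioo a b := by
      intro h
      apply hc
      exact ⟨by linarith [h.1, hx.2], by linarith [h.2, hx.1]⟩
    simp only [O.zero x this, Real.zero_rpow hp.ne']
  obtain ⟨c₀, hc₀⟩ := hFc.exists_forall_ge_of_hasCompactSupport hFs
  have hsh : ∀ d : ℝ, (∫ x in d..(d + 1), U (x + c₀) ^ (2 + γ)) = F (d + c₀) := by
    intro d
    rw [hF, intervalIntegral.integral_comp_add_right (fun x => U x ^ (2 + γ)) c₀]
    congr 1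
    ring
  have h01 : (∫ x in (0 : ℝ)..1, U (x + c₀) ^ (2 + γ)) = F c₀ := by
    have := hsh 0
    rwa [zero_add, zero_add] at this
  have key := Mass_core hn hγ hγa hγb (O.shift hγ c₀) hC1 hC2 (fun d => by
    have h1 := hsh d
    rw [h1, h01]
    exact hc₀ _)
  rw [h01] at key
  exact (hc₀ c).trans key

end Pool.Agent.RLT40
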