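import Pool.Agent.RLT40.OneD

/-!
# Modules USC, MAXEX (paper 3.2): weak upper semicontinuity and existence of a maximiser on a box.

USC: `U_n` bounded in `L²(a,b)` (hence in `L¹`), `U_n → U` weakly in `L²(a,b)` (tested against continuous functions / `L²` functions).  The set
`{f ∈ H10 : ∫ f'² ≤ 1}` is totally bounded in the sup norm (H10_holder, Arzela-Ascoli), so
`η_n = sup_{∫f'²≤1} |∫ (U_n - U) f²| → 0`.  If `F` is negative for `pot k τ U_n` then for `f ∈ F`: `∫ f'² ≤ C_* ∫ ω f²` (coercive), so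
`q (pot k (τ - C_* η_n) U) f < 0`: `N_τ(U_n) ≤ N_{τ - δ_n}(U)` for `τ > δ_n := C_* η_n`.  Then (`γ ≤ 1`)
`G(U_n) ≤ δ_n^γ N_max + ∫_{τ>δ_n} γ (τ-δ_n)^{γ-1} N_{τ-δ_n}(U) dτ ≤ δ_n^γ N_max + G(U)`, `N_max` from Ntot_le (`N_τ ≤ (3/16)∫U_n²`).
-/

open MeasureTheory Set
open scoped ENNReal NNReal

namespace Pool.Agent.RLT40

/-- weak sequential compactness of bounded sequences in `L²` -/
theorem uscb_weak {μ : Measure ℝ} [IsFiniteMeasure μ] {F : ℕ → ℝ → ℝ} (hF : ∀ n, MemLp (F n) 2 μ) {R : ℝ}
    (hR : ∀ n, (∫ x, F n x ^ 2 ∂μ) ≤ R) :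
    ∃ (s : ℕ → ℕ) (f : ℝ → ℝ), StrictMono s ∧ Measurable f ∧ MemLp f 2 μ ∧
      ∀ h : ℝ → ℝ, MemLp h 2 μ → Filter.Tendsto (fun n => ∫ x, F (s n) x * h x ∂μ) Filter.atTop
        (nhds (∫ x, f x * h x ∂μ)) := by
  have _h2 : Fact ((2 : ℝ≥0∞) ≠ ⊤) := ⟨by norm_num⟩
  have _hsc : SecondCountableTopology (Lp ℝ 2 μ) := inferInstance
  have _hsep : TopologicalSpace.SeparableSpace (Lp ℝ 2 μ) := inferInstance
  set x : ℕ → Lp ℝ 2 μ := fun n => (hF n).toLp with hx
  have hinner : ∀ (f h : ℝ → ℝ) (hf : MemLp f 2 μ) (hh : MemLp h 2 μ),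
      inner ℝ hf.toLp hh.toLp = ∫ x, f x * h x ∂μ := by
    intro f h hf hh
    rw [L2.inner_def]
    apply integral_congr_ae
    filter_upwards [hf.coeFn_toLp, hh.coeFn_toLp] with t h1 h2
    rw [h1, h2]
    simp [mul_comm]
  have hnorm : ∀ n, ‖x n‖ ≤ Real.sqrt R := by
    intro n
    apply Real.le_sqrt_of_sq_le
    rw [← real_inner_self_eq_norm_sq, hinner]
    calc _ = ∫ t, F n t ^ 2 ∂μ := by simp only [sq]
      _ ≤ R := hR n
  have hmem : ∀ n, (InnerProductSpace.toDual ℝ (Lp ℝ 2 μ) (x n)).toWeakDual ∈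
      WeakDual.toStrongDual ⁻¹' Metric.closedBall (0 : StrongDual ℝ (Lp ℝ 2 μ)) (Real.sqrt R) := by
    intro n
    rw [mem_preimage, mem_closedBall_zero_iff]
    have : ‖InnerProductSpace.toDual ℝ (Lp ℝ 2 μ) (x n)‖ = ‖x n‖ := LinearIsometryEquiv.norm_map _ _
    exact this.le.trans (hnorm n)
  obtain ⟨ℓ, -, s, hs, hlim⟩ := WeakDual.isSeqCompact_closedBall ℝ (Lp ℝ 2 μ) 0 (Real.sqrt R) hmem
  set y : Lp ℝ 2 μ := (InnerProductSpace.toDual ℝ (Lp ℝ 2 μ)).symm (WeakDual.toStrongDual ℓ) with hy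
  refine ⟨s, y, hs, (Lp.stronglyMeasurable y).measurable, Lp.memLp y, ?_⟩
  intro h hh
  have h1 := (tendsto_iff_forall_eval_tendsto_topDualPairing.1 hlim) hh.toLp
  have e1 : ∀ n, (topDualPairing ℝ (Lp ℝ 2 μ) ((((fun n =>
      (InnerProductSpace.toDual ℝ (Lp ℝ 2 μ) (x n)).toWeakDual) ∘ s) n) : WeakDual ℝ (Lp ℝ 2 μ))) hh.toLp =
      ∫ x, F (s n) x * h x ∂μ := by
    intro n
    rw [← hinner _ _ (hF (s n)) hh]
    rfl
  have e2 : (topDualPairing ℝ (Lp ℝ 2 μ) ℓ) hh.toLp = ∫ x, y x * h x ∂μ := by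
    rw [← hinner _ _ (Lp.memLp y) hh, Lp.toLp_coeFn]
    have : (InnerProductSpace.toDual ℝ (Lp ℝ 2 μ)) y = WeakDual.toStrongDual ℓ := by
      rw [hy]; simp
    calc (topDualPairing ℝ (Lp ℝ 2 μ) ℓ) hh.toLp = (WeakDual.toStrongDual ℓ) hh.toLp := rfl
      _ = _ := by rw [← this]; rfl
  rw [e2] at h1
  refine h1.congr e1

/-- tangent line inequality for `t ^ p` -/
theorem uscb_tangent {p t T : ℝ} (hp : 1 < p) (ht : 0 ≤ t) (hT : 0 ≤ T) :
    p * T ^ (p - 1) * t - (p - 1) * T ^ p ≤ t ^ p := by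
  have hp0 : 0 < p := by linarith
  have hpq : p.HolderConjugate (p / (p - 1)) := Real.HolderConjugate.conjExponent hp
  have h := Real.young_inequality_of_nonneg ht (Real.rpow_nonneg hT (p - 1)) hpq
  have e : (T ^ (p - 1)) ^ (p / (p - 1)) = T ^ p := by
    rw [← Real.rpow_mul hT]
    congr 1
    field_simp [(by linarith : p - 1 ≠ 0)]
  rw [e] at h
  have h2 := mul_le_mul_of_nonneg_left h hp0.le
  have e2 : p * (t ^ p / p + T ^ p / (p / (p - 1))) = t ^ p + (p - 1) * T ^ p := by
    have : p - 1 ≠ 0 := by linarith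
    field_simp
  rw [e2] at h2
  nlinarith

/-- bounded measurable functions are in `L²` -/
theorem uscb_memLp_bdd {μ : Measure ℝ} [IsFiniteMeasure μ] {g : ℝ → ℝ} (hg : Measurable g) {C : ℝ}
    (hC : ∀ᵐ x ∂μ, |g x| ≤ C) : MemLp g 2 μ :=
  MemLp.of_bound hg.aestronglyMeasurable C (by simpa using hC)

/-- weak compactness: a sequence with bounded `J` has a subsequence converging weakly (against continuous functions) to an admissible limit, and `J` is
lower semicontinuous.  (Banach-Alaoglu in `L²(a,b)`: WeakDual.isSeqCompact_closedBall; nonnegativity passes to the limit;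
`t^p ≥ p T^{p-1} t - (p-1) T^p` with `T = min(U, m)` gives `J(min(U,m)) ≤ liminf J(U_n)`, `m → ∞`.) -/
theorem weak_compact {γ a b : ℝ} (hab : a < b) (hγ : 0 < γ) (hγ1 : γ ≤ 1) {Un : ℕ → ℝ → ℝ} (hUn : ∀ n, Adm1 γ a b (Un n))
    {M : ℝ} (hM : ∀ n, Jf γ a b (Un n) ≤ ENNReal.ofReal M) :
    ∃ (s : ℕ → ℕ) (U : ℝ → ℝ), StrictMono s ∧ Adm1 γ a b U ∧
      (∀ h : ℝ → ℝ, Continuous h → Filter.Tendsto (fun n => ∫ x in Ioo a b, Un (s n) x * h x) Filter.atTop
        (nhds (∫ x in Ioo a b, U x * h x))) ∧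
      Jf γ a b U ≤ Filter.liminf (fun n => Jf γ a b (Un (s n))) Filter.atTop := by
  set μ : Measure ℝ := volume.restrict (Ioo a b) with hμ
  have hfin : IsFiniteMeasure μ := ⟨by rw [hμ, Measure.restrict_apply_univ]; exact measure_Ioo_lt_top⟩
  have hIoo : ∀ᵐ x ∂μ, x ∈ Ioo a b := ae_restrict_mem measurableSet_Ioo
  set p : ℝ := 2 + γ with hp
  have hp1 : 1 < p := by linarith
  have hp0 : 0 < p := by linarith
  have hp1' : 0 < p - 1 := by linarith
  set B : ℝ := max |a| |b| with hB
  have hBx : ∀ x ∈ Ioo a b, |x| ≤ B := by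
    intro x hx
    rw [abs_le]
    constructor
    · have := neg_abs_le a
      have := le_max_left |a| |b|
      linarith [hx.1]
    · have := le_abs_self b
      have := le_max_right |a| |b|
      linarith [hx.2]
  set w : ℝ → ℝ := fun x => Real.exp (-(2 * γ * x)) with hw
  have hwm : Measurable w := by fun_prop
  have hw0 : ∀ x, 0 < w x := fun x => Real.exp_pos _
  set c1 : ℝ := Real.exp (2 * γ * B) with hc1
  have hc1p : 0 < c1 := Real.exp_pos _
  have hwle : ∀ x ∈ Ioo a b, w x ≤ c1 := by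
    intro x hx
    apply Real.exp_le_exp.2
    have := abs_le.1 (hBx x hx)
    nlinarith [this.1]
  have hwge : ∀ x ∈ Ioo a b, 1 ≤ c1 * w x := by
    intro x hx
    rw [hc1, hw, ← Real.exp_add]
    apply Real.one_le_exp
    have := abs_le.1 (hBx x hx)
    nlinarith [this.2]
  have hJ : ∀ V : ℝ → ℝ, Jf γ a b V = ∫⁻ x, ENNReal.ofReal (V x ^ p * w x) ∂μ := fun V => rfl
  -- L² bound
  have h2p : (2 : ℝ≥0∞) ≤ ENNReal.ofReal p := by
    rw [show (2 : ℝ≥0∞) = ENNReal.ofReal 2 by simp]
    exact ENNReal.ofReal_le_ofReal (by linarith)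
  have hU2 : ∀ n, MemLp (Un n) 2 μ := fun n => (hUn n).2.mono_exponent h2p
  set Rr : ℝ≥0∞ := μ univ + ENNReal.ofReal c1 * ENNReal.ofReal M with hRr
  have hRr' : Rr ≠ ⊤ := by
    rw [hRr]
    exact ENNReal.add_ne_top.2 ⟨measure_ne_top _ _, ENNReal.mul_ne_top ENNReal.ofReal_ne_top ENNReal.ofReal_ne_top⟩
  have hsq : ∀ t : ℝ, 0 ≤ t → t ^ 2 ≤ 1 + t ^ p := by
    intro t ht
    rcases le_total t 1 with h | h
    · have h1 : t ^ 2 ≤ 1 := by nlinarith
      have h2 : 0 ≤ t ^ p := Real.rpow_nonneg ht _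
      linarith
    · have h1 : t ^ (2 : ℝ) ≤ t ^ p := Real.rpow_le_rpow_of_exponent_le h (by linarith)
      rw [Real.rpow_two] at h1
      linarith
  have hR : ∀ n, (∫ x, Un n x ^ 2 ∂μ) ≤ Rr.toReal := by
    intro n
    rw [integral_eq_lintegral_of_nonneg_ae (Filter.Eventually.of_forall fun x => sq_nonneg _)
      ((hU2 n).1.pow 2)]
    apply ENNReal.toReal_mono hRr'
    calc ∫⁻ x, ENNReal.ofReal (Un n x ^ 2) ∂μ
        ≤ ∫⁻ x, (1 + ENNReal.ofReal c1 * ENNReal.ofReal (Un n x ^ p * w x)) ∂μ := by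
          apply lintegral_mono_ae
          filter_upwards [hIoo] with x hx
          have h0 := (hUn n).1 x
          rw [← ENNReal.ofReal_mul hc1p.le, ← ENNReal.ofReal_one, ← ENNReal.ofReal_add zero_le_one (by
            have := Real.rpow_nonneg h0 p
            have := (hw0 x).le
            positivity)]
          apply ENNReal.ofReal_le_ofReal
          have h1 := hsq _ h0
          have h2 := hwge x hx
          have h3 := Real.rpow_nonneg h0 p
          nlinarith
      _ = μ univ + ENNReal.ofReal c1 * Jf γ a b (Un n) := by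
          rw [lintegral_add_left measurable_const, lintegral_const, one_mul,
            lintegral_const_mul' _ _ ENNReal.ofReal_ne_top, hJ]
      _ ≤ Rr := by
          rw [hRr]
          gcongr
          exact hM n
  obtain ⟨s, f, hs, hfm, hf2, hlim⟩ := uscb_weak hU2 hR
  -- nonnegativity
  have hfnn : ∀ᵐ x ∂μ, 0 ≤ f x := by
    set N : Set ℝ := {x | f x < 0} with hN
    have hNm : MeasurableSet N := measurableSet_lt hfm measurable_const
    have hh : MemLp (N.indicator (fun _ => (1 : ℝ))) 2 μ := by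
      apply uscb_memLp_bdd (C := 1) (measurable_const.indicator hNm)
      refine Filter.Eventually.of_forall fun x => ?_
      by_cases hx : x ∈ N <;> simp [hx]
    have h1 := hlim _ hh
    have h2 : 0 ≤ ∫ x, f x * N.indicator (fun _ => (1 : ℝ)) x ∂μ := by
      apply ge_of_tendsto' h1
      intro n
      apply integral_nonneg
      intro x
      apply mul_nonneg ((hUn (s n)).1 x)
      by_cases hx : x ∈ N <;> simp [hx]
    have hint : Integrable (fun x => f x * N.indicator (fun _ => (1 : ℝ)) x) μ := by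
      have := hf2.integrable_mul hh
      exact this
    have h3 : ∀ x, f x * N.indicator (fun _ => (1 : ℝ)) x ≤ 0 := by
      intro x
      by_cases hx : x ∈ N
      · simp only [hx, indicator_of_mem, mul_one]
        exact le_of_lt hx
      · simp [hx]
    have h4 : ∫ x, -(f x * N.indicator (fun _ => (1 : ℝ)) x) ∂μ = 0 := by
      apply le_antisymm
      · rw [integral_neg]; linarith
      · apply integral_nonneg
        intro x
        have := h3 x
        simp only [Pi.zero_apply]
        linarith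
    have hint' : Integrable (fun x => -(f x * N.indicator (fun _ => (1 : ℝ)) x)) μ := hint.neg
    have hnn' : 0 ≤ fun x => -(f x * N.indicator (fun _ => (1 : ℝ)) x) := by
      intro x
      have := h3 x
      simp only [Pi.zero_apply]
      linarith
    rw [integral_eq_zero_iff_of_nonneg hnn' hint'] at h4
    filter_upwards [h4] with x hx
    by_contra hneg
    have hxN : x ∈ N := by
      exact not_le.1 hneg
    simp only [hxN, indicator_of_mem, mul_one, Pi.zero_apply] at hx
    have : f x < 0 := hxN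
    linarith
  set U : ℝ → ℝ := fun x => max (f x) 0 with hU
  have hUm : Measurable U := hfm.max measurable_const
  have hU0 : ∀ x, 0 ≤ U x := fun x => le_max_right _ _
  have hUf : U =ᵐ[μ] f := by
    filter_upwards [hfnn] with x hx
    exact max_eq_left hx
  have hlim' : ∀ h : ℝ → ℝ, MemLp h 2 μ → Filter.Tendsto (fun n => ∫ x, Un (s n) x * h x ∂μ) Filter.atTop
      (nhds (∫ x, U x * h x ∂μ)) := by
    intro h hh
    have e : ∫ x, U x * h x ∂μ = ∫ x, f x * h x ∂μ := by
      apply integral_congr_ae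
      filter_upwards [hUf] with x hx
      rw [hx]
    rw [e]
    exact hlim h hh
  have hUmem2 : MemLp U 2 μ := hf2.ae_eq hUf.symm
  set L : ℝ≥0∞ := Filter.liminf (fun n => Jf γ a b (Un (s n))) Filter.atTop with hL
  -- truncations
  have htr : ∀ m : ℕ, ∫⁻ x, ENNReal.ofReal ((min (U x) m) ^ p * w x) ∂μ ≤ L := by
    intro m
    set T : ℝ → ℝ := fun x => min (U x) m with hT
    have hTm : Measurable T := hUm.min measurable_const
    have hT0 : ∀ x, 0 ≤ T x := fun x => le_min (hU0 x) (Nat.cast_nonneg m)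
    have hTU : ∀ x, T x ≤ U x := fun x => min_le_left _ _
    have hTm' : ∀ x, T x ≤ m := fun x => min_le_right _ _
    set g : ℝ → ℝ := fun x => T x ^ (p - 1) * w x with hg
    have hgm : Measurable g := (hTm.pow_const _).mul hwm
    have hgb : ∀ᵐ x ∂μ, |g x| ≤ (m : ℝ) ^ (p - 1) * c1 := by
      filter_upwards [hIoo] with x hx
      rw [abs_of_nonneg (mul_nonneg (Real.rpow_nonneg (hT0 x) _) (hw0 x).le)]
      exact mul_le_mul (Real.rpow_le_rpow (hT0 x) (hTm' x) hp1'.le) (hwle x hx) (hw0 x).le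
        (Real.rpow_nonneg (Nat.cast_nonneg m) _)
    have hg2 : MemLp g 2 μ := uscb_memLp_bdd hgm hgb
    set k : ℝ → ℝ := fun x => T x ^ p * w x with hk
    have hkm : Measurable k := (hTm.pow_const _).mul hwm
    have hk0 : ∀ x, 0 ≤ k x := fun x => mul_nonneg (Real.rpow_nonneg (hT0 x) _) (hw0 x).le
    have hkb : ∀ᵐ x ∂μ, |k x| ≤ (m : ℝ) ^ p * c1 := by
      filter_upwards [hIoo] with x hx
      rw [abs_of_nonneg (hk0 x)]
      exact mul_le_mul (Real.rpow_le_rpow (hT0 x) (hTm' x) hp0.le) (hwle x hx) (hw0 x).le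
        (Real.rpow_nonneg (Nat.cast_nonneg m) _)
    have hkint : Integrable k μ := (uscb_memLp_bdd hkm hkb).integrable (by norm_num)
    have hUg : ∀ n, Integrable (fun x => Un n x * g x) μ := fun n => (hU2 n).integrable_mul hg2
    have hUg' : Integrable (fun x => U x * g x) μ := hUmem2.integrable_mul hg2
    have hn : ∀ n, ENNReal.ofReal (p * (∫ x, Un n x * g x ∂μ) - (p - 1) * ∫ x, k x ∂μ) ≤ Jf γ a b (Un n) := by
      intro n
      set F : ℝ → ℝ := fun x => p * (Un n x * g x) - (p - 1) * k x with hF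
      have hFint : Integrable F μ := ((hUg n).const_mul p).sub (hkint.const_mul (p - 1))
      have e1 : p * (∫ x, Un n x * g x ∂μ) - (p - 1) * ∫ x, k x ∂μ = ∫ x, F x ∂μ := by
        rw [hF, integral_sub ((hUg n).const_mul p) (hkint.const_mul (p - 1)), integral_const_mul,
          integral_const_mul]
      rw [e1, hJ]
      calc ENNReal.ofReal (∫ x, F x ∂μ) ≤ ENNReal.ofReal (∫ x, max (F x) 0 ∂μ) := by
            apply ENNReal.ofReal_le_ofReal
            exact integral_mono hFint hFint.pos_part (fun x => le_max_left _ _)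
        _ = ∫⁻ x, ENNReal.ofReal (max (F x) 0) ∂μ :=
            ofReal_integral_eq_lintegral_ofReal hFint.pos_part (Filter.Eventually.of_forall fun x => le_max_right _ _)
        _ ≤ ∫⁻ x, ENNReal.ofReal (Un n x ^ p * w x) ∂μ := by
            apply lintegral_mono
            intro x
            apply ENNReal.ofReal_le_ofReal
            have h0 := (hUn n).1 x
            have h1 := uscb_tangent hp1 h0 (hT0 x)
            have h2 := mul_le_mul_of_nonneg_right h1 (hw0 x).le
            apply max_le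
            · calc F x = (p * T x ^ (p - 1) * Un n x - (p - 1) * T x ^ p) * w x := by
                    simp only [hF, hg, hk]; ring
                _ ≤ _ := h2
            · exact mul_nonneg (Real.rpow_nonneg h0 _) (hw0 x).le
    have hlimr : Filter.Tendsto (fun n => ENNReal.ofReal (p * (∫ x, Un (s n) x * g x ∂μ) - (p - 1) * ∫ x, k x ∂μ))
        Filter.atTop (nhds (ENNReal.ofReal (p * (∫ x, U x * g x ∂μ) - (p - 1) * ∫ x, k x ∂μ))) := by
      apply ENNReal.tendsto_ofReal
      exact ((hlim' g hg2).const_mul p).sub_const _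
    have hfinal : ∫⁻ x, ENNReal.ofReal (k x) ∂μ ≤
        ENNReal.ofReal (p * (∫ x, U x * g x ∂μ) - (p - 1) * ∫ x, k x ∂μ) := by
      rw [← ofReal_integral_eq_lintegral_ofReal hkint (Filter.Eventually.of_forall hk0)]
      apply ENNReal.ofReal_le_ofReal
      have : ∫ x, k x ∂μ ≤ ∫ x, U x * g x ∂μ := by
        apply integral_mono hkint hUg'
        intro x
        have e : k x = T x * g x := by
          simp only [hk, hg]
          rw [← mul_assoc]
          congr 1
          rcases (hT0 x).eq_or_lt with h | h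
          · rw [← h, Real.zero_rpow (by linarith), zero_mul]
          · rw [← Real.rpow_one_add' (hT0 x) (by linarith)]
            congr 1
            ring
        rw [e]
        exact mul_le_mul_of_nonneg_right (hTU x) (mul_nonneg (Real.rpow_nonneg (hT0 x) _) (hw0 x).le)
      nlinarith
    calc ∫⁻ x, ENNReal.ofReal (k x) ∂μ ≤ _ := hfinal
      _ = Filter.liminf (fun n => ENNReal.ofReal (p * (∫ x, Un (s n) x * g x ∂μ) - (p - 1) * ∫ x, k x ∂μ)) Filter.atTop :=
          hlimr.liminf_eq.symm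
      _ ≤ L := Filter.liminf_le_liminf (Filter.Eventually.of_forall fun n => hn (s n))
  have hJU : Jf γ a b U ≤ L := by
    rw [hJ]
    calc ∫⁻ x, ENNReal.ofReal (U x ^ p * w x) ∂μ
        = ∫⁻ x, Filter.liminf (fun m : ℕ => ENNReal.ofReal ((min (U x) m) ^ p * w x)) Filter.atTop ∂μ := by
          apply lintegral_congr
          intro x
          symm
          apply Filter.Tendsto.liminf_eq
          apply tendsto_const_nhds.congr'
          obtain ⟨m0, hm0⟩ := exists_nat_ge (U x)
          filter_upwards [Filter.eventually_ge_atTop m0] with m hm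
          have : U x ≤ m := hm0.trans (by exact_mod_cast hm)
          rw [min_eq_left this]
      _ ≤ Filter.liminf (fun m : ℕ => ∫⁻ x, ENNReal.ofReal ((min (U x) m) ^ p * w x) ∂μ) Filter.atTop := by
          apply lintegral_liminf_le
          intro m
          exact (((hUm.min measurable_const).pow_const _).mul hwm).ennreal_ofReal
      _ ≤ L := by
          refine (Filter.liminf_le_liminf (Filter.Eventually.of_forall htr)).trans ?_
          simp
  refine ⟨s, U, hs, ⟨hU0, hUm.aestronglyMeasurable, ?_⟩, ?_, hJU⟩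
  · have hL' : L < ⊤ := by
      have : L ≤ ENNReal.ofReal M := by
        rw [hL]
        calc _ ≤ Filter.liminf (fun _ : ℕ => ENNReal.ofReal M) Filter.atTop :=
              Filter.liminf_le_liminf (Filter.Eventually.of_forall fun n => hM (s n))
          _ = _ := by simp
      exact this.trans_lt ENNReal.ofReal_lt_top
    rw [eLpNorm_lt_top_iff_lintegral_rpow_enorm_lt_top (ENNReal.ofReal_pos.2 hp0).ne'
      ENNReal.ofReal_ne_top, ENNReal.toReal_ofReal hp0.le]
    calc ∫⁻ x, ‖U x‖ₑ ^ p ∂μ ≤ ∫⁻ x, ENNReal.ofReal c1 * ENNReal.ofReal (U x ^ p * w x) ∂μ := by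
          apply lintegral_mono_ae
          filter_upwards [hIoo] with x hx
          rw [Real.enorm_of_nonneg (hU0 x), ENNReal.ofReal_rpow_of_nonneg (hU0 x) hp0.le,
            ← ENNReal.ofReal_mul hc1p.le]
          apply ENNReal.ofReal_le_ofReal
          have h2 := hwge x hx
          have h3 := Real.rpow_nonneg (hU0 x) p
          nlinarith
      _ = ENNReal.ofReal c1 * Jf γ a b U := by
          rw [lintegral_const_mul' _ _ ENNReal.ofReal_ne_top, hJ]
      _ < ⊤ := ENNReal.mul_lt_top ENNReal.ofReal_lt_top (hJU.trans_lt hL')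
  · intro h hh
    obtain ⟨C, hC⟩ := isCompact_Icc.exists_bound_of_continuousOn (s := Icc a b) hh.continuousOn
    apply hlim'
    apply uscb_memLp_bdd hh.measurable (C := C)
    filter_upwards [hIoo] with x hx
    exact hC x (Ioo_subset_Icc_self hx)

end Pool.Agent.RLT40
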