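import Pool.Agent.RLT40.UscA
import Pool.Agent.RLT40.UscB

/-!
# Module MAXEX (paper 3.2)

Let `Cs = sup G/J`.  Maximising sequence `G(U_n) ≥ (Cs - 1/n) J(U_n)`, `Cs ≥ (3/4)(3/16)κ`.  (i) `J(U_n)` bounded: G_le2 and
`∫ U^{1+γ} w ≤ J^{(1+γ)/(2+γ)} (∫ w)^{1/(2+γ)}` give `(3/4 - 5/8 - 1/n..)(3/16) κ J ≤ C J^{(1+γ)/(2+γ)}`.  (ii) `J(U_n) ≥ j₀ > 0`: `G(U_n) > 0` so some channel has a
negative direction `f`: `∫ f'² ≤ ∫ U f² ≤ ‖U‖₁ (b-a) ∫ f'²`, so `‖U_n‖₁ ≥ 1/(b-a)`.  (iii) weak_compact + usc: the limit `U` has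
`G(U) ≥ limsup G(U_n) ≥ Cs liminf J(U_n) ≥ Cs J(U)` and `G(U) ≥ Cs j₀ > 0`.  `Cs ≤ (3/16) κ` by G_le.
-/

open MeasureTheory Set
open scoped ENNReal NNReal

namespace Pool.Agent.RLT40

lemma mx_kap_pos {γ : ℝ} (hγ : 0 < γ) : 0 < kap γ := by
  unfold kap; positivity

lemma mx_int {γ a b : ℝ} (hγ : 0 < γ) {U : ℝ → ℝ} (hU : Adm1 γ a b U) : IntegrableOn U (Ioo a b) := by
  refine hU.2.integrable ?_
  rw [← ENNReal.ofReal_one]
  exact ENNReal.ofReal_le_ofReal (by linarith)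

lemma mx_pow_le {γ t : ℝ} (hγ : 0 < γ) (ht : 0 ≤ t) : t ^ 2 ≤ 1 + t ^ (2 + γ) := by
  have h0 : 0 ≤ t ^ (2 + γ) := Real.rpow_nonneg ht _
  rcases le_total t 1 with h | h
  · have : t ^ 2 ≤ 1 := pow_le_one₀ ht h
    linarith
  · have h1 : t ^ (2 : ℝ) ≤ t ^ (2 + γ) := Real.rpow_le_rpow_of_exponent_le h (by linarith)
    rw [Real.rpow_two] at h1
    linarith

/-- `∫ U² ≤ (b - a) + e^{2γb} J`. -/
lemma mx_sq {γ a b : ℝ} (hab : a < b) (hγ : 0 < γ) {U : ℝ → ℝ} (hU : Adm1 γ a b U) {M : ℝ} (hM0 : 0 ≤ M)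
    (hM : Jf γ a b U ≤ ENNReal.ofReal M) :
    (∫ x in Ioo a b, U x ^ 2) ≤ (b - a) + Real.exp (2 * γ * b) * M := by
  have hm : AEStronglyMeasurable (fun x => U x ^ 2) (volume.restrict (Ioo a b)) := hU.2.1.pow 2
  rw [integral_eq_lintegral_of_nonneg_ae (Filter.Eventually.of_forall fun x => sq_nonneg _) hm]
  have hR : 0 ≤ (b - a) + Real.exp (2 * γ * b) * M := by
    have := Real.exp_pos (2 * γ * b)
    have : 0 ≤ b - a := by linarith
    positivity
  refine ENNReal.toReal_le_of_le_ofReal hR ?_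
  calc ∫⁻ x in Ioo a b, ENNReal.ofReal (U x ^ 2)
      ≤ ∫⁻ x in Ioo a b, (1 + ENNReal.ofReal (Real.exp (2 * γ * b)) *
          ENNReal.ofReal (U x ^ (2 + γ) * Real.exp (-(2 * γ * x)))) := by
        refine setLIntegral_mono' measurableSet_Ioo fun x hx => ?_
        rw [← ENNReal.ofReal_mul (Real.exp_pos _).le, ← ENNReal.ofReal_one, ← ENNReal.ofReal_add zero_le_one
          (mul_nonneg (Real.exp_pos _).le (mul_nonneg (Real.rpow_nonneg (hU.1 x) _) (Real.exp_pos _).le))]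
        refine ENNReal.ofReal_le_ofReal ((mx_pow_le hγ (hU.1 x)).trans ?_)
        have h1 : 1 ≤ Real.exp (2 * γ * b) * Real.exp (-(2 * γ * x)) := by
          rw [← Real.exp_add]
          apply Real.one_le_exp
          have := mul_lt_mul_of_pos_left hx.2 hγ
          linarith
        have h2 : 0 ≤ U x ^ (2 + γ) := Real.rpow_nonneg (hU.1 x) _
        nlinarith
    _ = ENNReal.ofReal (b - a) + ENNReal.ofReal (Real.exp (2 * γ * b)) * Jf γ a b U := by
        rw [lintegral_add_left measurable_const, lintegral_const_mul' _ _ ENNReal.ofReal_ne_top]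
        simp [Jf]
    _ ≤ ENNReal.ofReal (b - a) + ENNReal.ofReal (Real.exp (2 * γ * b)) * ENNReal.ofReal M := by gcongr
    _ = _ := by
        rw [← ENNReal.ofReal_mul (Real.exp_pos _).le, ← ENNReal.ofReal_add (by linarith)
          (mul_nonneg (Real.exp_pos _).le hM0)]

/-- Young: `t^{1+γ} ≤ δ t^{2+γ} + δ^{-(1+γ)}`. -/
lemma mx_young {γ δ t : ℝ} (hγ : 0 < γ) (hδ : 0 < δ) (ht : 0 ≤ t) :
    t ^ (1 + γ) ≤ δ * t ^ (2 + γ) + (δ⁻¹) ^ (1 + γ) := by
  have hd : 0 ≤ (δ⁻¹) ^ (1 + γ) := Real.rpow_nonneg (inv_nonneg.2 hδ.le) _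
  rcases le_total t δ⁻¹ with h | h
  · have h1 := Real.rpow_le_rpow ht h (show 0 ≤ 1 + γ by linarith)
    have h2 : 0 ≤ δ * t ^ (2 + γ) := mul_nonneg hδ.le (Real.rpow_nonneg ht _)
    linarith
  · have htpos : 0 < t := lt_of_lt_of_le (inv_pos.2 hδ) h
    have h1 : t ^ (2 + γ) = t * t ^ (1 + γ) := by
      rw [show 2 + γ = 1 + (1 + γ) by ring, Real.rpow_add htpos, Real.rpow_one]
    have h2 : 1 ≤ δ * t := by
      calc (1 : ℝ) = δ * δ⁻¹ := (mul_inv_cancel₀ hδ.ne').symm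
        _ ≤ δ * t := mul_le_mul_of_nonneg_left h hδ.le
    have h3 : 0 ≤ t ^ (1 + γ) := Real.rpow_nonneg ht _
    rw [h1]
    nlinarith

/-- the real form of `G_le2` -/
lemma mx_G_le2 {γ a b : ℝ} (hab : a < b) (hγ : 0 < γ) :
    ∃ B : ℝ, 0 ≤ B ∧ ∀ U : ℝ → ℝ, Adm1 γ a b U →
      Gf γ a b U ≤ ENNReal.ofReal (41 / 64 * (3 / 16) * kap γ) * Jf γ a b U + ENNReal.ofReal B := by
  have hκ := mx_kap_pos hγ
  set δ : ℝ := kap γ * (1 + γ) / 64 with hδ
  have hδ0 : 0 < δ := by positivity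
  set c1 : ℝ := 3 / 16 / (1 + γ) with hc1
  have hc10 : 0 < c1 := by positivity
  set B0 : ℝ := (δ⁻¹) ^ (1 + γ) * Real.exp (-(2 * γ * a)) with hB0
  have hB00 : 0 ≤ B0 := mul_nonneg (Real.rpow_nonneg (inv_nonneg.2 hδ0.le) _) (Real.exp_pos _).le
  have hba : 0 ≤ b - a := by linarith
  refine ⟨c1 * (B0 * (b - a)), by positivity, fun U hU => ?_⟩
  have h1 : ∫⁻ x in Ioo a b, ENNReal.ofReal (U x ^ (1 + γ) * Real.exp (-(2 * γ * x))) ≤
      ENNReal.ofReal δ * Jf γ a b U + ENNReal.ofReal (B0 * (b - a)) := by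
    calc ∫⁻ x in Ioo a b, ENNReal.ofReal (U x ^ (1 + γ) * Real.exp (-(2 * γ * x)))
        ≤ ∫⁻ x in Ioo a b, (ENNReal.ofReal B0 + ENNReal.ofReal δ *
          ENNReal.ofReal (U x ^ (2 + γ) * Real.exp (-(2 * γ * x)))) := by
          refine setLIntegral_mono' measurableSet_Ioo fun x hx => ?_
          rw [← ENNReal.ofReal_mul hδ0.le, ← ENNReal.ofReal_add hB00
            (mul_nonneg hδ0.le (mul_nonneg (Real.rpow_nonneg (hU.1 x) _) (Real.exp_pos _).le))]
          refine ENNReal.ofReal_le_ofReal ?_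
          have h2 := mx_young hγ hδ0 (hU.1 x)
          have h3 : Real.exp (-(2 * γ * x)) ≤ Real.exp (-(2 * γ * a)) := by
            apply Real.exp_le_exp.2
            have := mul_lt_mul_of_pos_left hx.1 hγ
            linarith
          have h4 := Real.exp_pos (-(2 * γ * x))
          have h5 : 0 ≤ (δ⁻¹) ^ (1 + γ) := Real.rpow_nonneg (inv_nonneg.2 hδ0.le) _
          calc U x ^ (1 + γ) * Real.exp (-(2 * γ * x))
              ≤ (δ * U x ^ (2 + γ) + (δ⁻¹) ^ (1 + γ)) * Real.exp (-(2 * γ * x)) :=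
                mul_le_mul_of_nonneg_right h2 h4.le
            _ = δ * (U x ^ (2 + γ) * Real.exp (-(2 * γ * x))) + (δ⁻¹) ^ (1 + γ) * Real.exp (-(2 * γ * x)) := by ring
            _ ≤ δ * (U x ^ (2 + γ) * Real.exp (-(2 * γ * x))) + B0 := by
                rw [hB0]
                have := mul_le_mul_of_nonneg_left h3 h5
                linarith
            _ = B0 + δ * (U x ^ (2 + γ) * Real.exp (-(2 * γ * x))) := by ring
      _ = ENNReal.ofReal (B0 * (b - a)) + ENNReal.ofReal δ * Jf γ a b U := by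
          rw [lintegral_add_left measurable_const, lintegral_const_mul' _ _ ENNReal.ofReal_ne_top,
            ENNReal.ofReal_mul hB00]
          simp [Jf]
      _ = _ := add_comm _ _
  calc Gf γ a b U ≤ ENNReal.ofReal (5 / 8 * (3 / 16) * kap γ) * Jf γ a b U +
      ENNReal.ofReal (3 / 16 / (1 + γ)) * ∫⁻ x in Ioo a b, ENNReal.ofReal (U x ^ (1 + γ) * Real.exp (-(2 * γ * x))) :=
        G_le2 hγ hU
    _ ≤ ENNReal.ofReal (5 / 8 * (3 / 16) * kap γ) * Jf γ a b U +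
      ENNReal.ofReal c1 * (ENNReal.ofReal δ * Jf γ a b U + ENNReal.ofReal (B0 * (b - a))) := by gcongr
    _ = (ENNReal.ofReal (5 / 8 * (3 / 16) * kap γ) + ENNReal.ofReal c1 * ENNReal.ofReal δ) * Jf γ a b U +
      ENNReal.ofReal c1 * ENNReal.ofReal (B0 * (b - a)) := by ring
    _ = _ := by
        rw [← ENNReal.ofReal_mul hc10.le, ← ENNReal.ofReal_mul hc10.le, ← ENNReal.ofReal_add (by positivity) (by positivity)]
        congr 3
        rw [hc1, hδ]
        have : 1 + γ ≠ 0 := by positivity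
        field_simp
        ring

/-- if `G(U) > 0` then `‖U‖₁ ≥ 1/(b-a)` -/
lemma mx_mass {γ a b : ℝ} (hab : a < b) (hγ : 0 < γ) {U : ℝ → ℝ} (hU : Adm1 γ a b U) (hG : 0 < Gf γ a b U) :
    1 ≤ (b - a) * ∫ x in Ioo a b, U x := by
  have hUi := mx_int hγ hU
  -- a positive `N_τ`
  obtain ⟨τ, hτ, hN⟩ : ∃ τ : ℝ, 0 < τ ∧ Ntot a b U τ ≠ 0 := by
    by_contra hcon
    push Not at hcon
    have : Gf γ a b U = 0 := by
      unfold Gf
      rw [show (0 : ℝ≥0∞) = ∫⁻ τ in Ioi (0 : ℝ), 0 by simp]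
      refine setLIntegral_congr_fun measurableSet_Ioi fun τ hτ => ?_
      simp only [hcon τ hτ, mul_zero]
    rw [this] at hG
    exact lt_irrefl _ hG
  obtain ⟨k, hk⟩ : ∃ k : ℕ, nneg a b (pot (k + 1) τ U) ≠ 0 := by
    by_contra hcon
    push Not at hcon
    apply hN
    unfold Ntot
    simp [hcon]
  have hk1 : ((1 : ℕ) : ℕ∞) ≤ nneg a b (pot (k + 1) τ U) := by
    rw [Nat.cast_one]
    exact Order.one_le_iff_ne_zero.2 hk
  obtain ⟨F, hF1, hF2, hF3, hF4⟩ := exists_of_le_nneg hk1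
  obtain ⟨f, hfF, hf0⟩ : ∃ f ∈ F, f ≠ 0 := by
    by_contra hcon
    push Not at hcon
    have : F = ⊥ := by
      rw [Submodule.eq_bot_iff]
      exact hcon
    rw [this, finrank_bot] at hF4
    exact absurd hF4 (by norm_num)
  have hf := hF1 hfF
  have hq := hF3 f hfF hf0
  have hpot : IntegrableOn (pot (k + 1) τ U) (Ioo a b) := by
    have h1 : IntegrableOn (fun _ : ℝ => ((k : ℝ) + 1) ^ 2) (Ioo a b) := integrableOn_const (by simp)
    have h2 : IntegrableOn (fun x : ℝ => τ * om x) (Ioo a b) := by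
      have hc : Continuous (fun x : ℝ => τ * om x) := by unfold om; fun_prop
      exact (hc.continuousOn.integrableOn_compact isCompact_Icc).mono_set Ioo_subset_Icc_self
    exact (h1.sub hUi).add h2
  rw [q_eq hpot hf] at hq
  set D := ∫ x, deriv f x ^ 2 with hD
  have hD0 : 0 ≤ D := integral_nonneg fun x => sq_nonneg _
  have hUf : Integrable (fun x => U x * f x ^ 2) := (q_integrable hUi hf).1
  have hpf := (q_integrable hpot hf).1
  have h1 : -(∫ x, U x * f x ^ 2) ≤ ∫ x, pot (k + 1) τ U x * f x ^ 2 := by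
    rw [← integral_neg]
    refine integral_mono hUf.neg hpf fun x => ?_
    have h2 : 0 ≤ (((k : ℝ) + 1) ^ 2 + τ * om x) * f x ^ 2 := by
      have : 0 < om x := Real.exp_pos _
      positivity
    simp only [pot]
    nlinarith
  have h2 : ∫ x, U x * f x ^ 2 ≤ (∫ x in Ioo a b, U x) * ((b - a) * D) := by
    have h3 : ∫ x, U x * f x ^ 2 = ∫ x in Ioo a b, U x * f x ^ 2 := by
      rw [setIntegral_eq_integral_of_forall_compl_eq_zero]
      intro x hx
      rw [H10_zero hf hx]; simp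
    rw [h3, ← integral_mul_const]
    refine integral_mono hUf.restrict (hUi.mul_const _) fun x => ?_
    exact mul_le_mul_of_nonneg_left (H10_sup_sq hab.le hf x) (hU.1 x)
  have hDpos : 0 < D := by
    rcases hD0.eq_or_lt with h | h
    · exfalso
      have h3 : ∀ x, f x = 0 := by
        intro x
        have h4 := H10_sup_sq hab.le hf x
        rw [← hD, ← h, mul_zero] at h4
        nlinarith [sq_nonneg (f x)]
      exact hf0 (funext h3)
    · exact h
  have h5 : D < ((b - a) * ∫ x in Ioo a b, U x) * D := by nlinarith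
  by_contra hcon
  push Not at hcon
  nlinarith

lemma mx_J_pos {γ a b : ℝ} {U : ℝ → ℝ} (hU : Adm1 γ a b U)
    (h : 1 ≤ (b - a) * ∫ x in Ioo a b, U x) : 0 < Jf γ a b U := by
  rw [pos_iff_ne_zero]
  intro h0
  have hm : AEMeasurable (fun x => ENNReal.ofReal (U x ^ (2 + γ) * Real.exp (-(2 * γ * x))))
      (volume.restrict (Ioo a b)) := by
    have h1 : AEMeasurable U (volume.restrict (Ioo a b)) := hU.2.1.aemeasurable
    exact ((h1.pow_const _).mul (by fun_prop)).ennreal_ofReal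
  have h1 := (lintegral_eq_zero_iff' hm).1 h0
  have h2 : ∫ x in Ioo a b, U x = 0 := by
    have h3 : ∀ᵐ x ∂(volume.restrict (Ioo a b)), U x = 0 := by
      filter_upwards [h1] with x hx
      simp only [Pi.zero_apply, ENNReal.ofReal_eq_zero] at hx
      by_contra hne
      have hpos : 0 < U x := lt_of_le_of_ne (hU.1 x) (Ne.symm hne)
      have : 0 < U x ^ (2 + γ) * Real.exp (-(2 * γ * x)) := mul_pos (Real.rpow_pos_of_pos hpos _) (Real.exp_pos _)
      linarith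
    rw [integral_congr_ae h3]
    simp
  rw [h2] at h
  linarith

theorem exists_max {γ a b : ℝ} (hab : a < b) (hγ : 0 < γ) (hγ1 : γ ≤ 1) {C₀ : ℝ} (hC₀ : 3 / 4 * (3 / 16) * kap γ ≤ C₀)
    (hex : ∃ U : ℝ → ℝ, Adm1 γ a b U ∧ 0 < Jf γ a b U ∧ ENNReal.ofReal C₀ * Jf γ a b U ≤ Gf γ a b U) :
    ∃ (C : ℝ) (U : ℝ → ℝ), C₀ ≤ C ∧ C ≤ 3 / 16 * kap γ ∧ Adm1 γ a b U ∧ 0 < Jf γ a b U ∧ Jf γ a b U < ⊤ ∧
      Gf γ a b U = ENNReal.ofReal C * Jf γ a b U ∧
      ∀ U' : ℝ → ℝ, Adm1 γ a b U' → Gf γ a b U' ≤ ENNReal.ofReal C * Jf γ a b U' := by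
  have hκ := mx_kap_pos hγ
  have hC₀pos : 0 < C₀ := lt_of_lt_of_le (by positivity) hC₀
  set S : Set ℝ := {C | 0 ≤ C ∧ ∀ U' : ℝ → ℝ, Adm1 γ a b U' → Gf γ a b U' ≤ ENNReal.ofReal C * Jf γ a b U'} with hS
  have hSmem : 3 / 16 * kap γ ∈ S := ⟨by positivity, fun U' hU' => G_le hγ hU'⟩
  have hSbdd : BddBelow S := ⟨0, fun C hC => hC.1⟩
  set Cs := sInf S with hCs
  have hCs_le : Cs ≤ 3 / 16 * kap γ := csInf_le hSbdd hSmem
  have hJtop : ∀ U' : ℝ → ℝ, Adm1 γ a b U' → Jf γ a b U' ≠ ⊤ := fun U' hU' => (Jf_lt_top hγ hU').ne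
  have hC₀Cs : C₀ ≤ Cs := by
    obtain ⟨U, hU, hJ, hGJ⟩ := hex
    refine le_csInf ⟨_, hSmem⟩ fun C hC => ?_
    have h1 := hGJ.trans (hC.2 U hU)
    rw [ENNReal.mul_le_mul_iff_left hJ.ne' (hJtop U hU)] at h1
    exact (ENNReal.ofReal_le_ofReal_iff hC.1).1 h1
  have hCspos : 0 < Cs := hC₀pos.trans_le hC₀Cs
  -- `Cs ∈ S`
  have hmax : ∀ U' : ℝ → ℝ, Adm1 γ a b U' → Gf γ a b U' ≤ ENNReal.ofReal Cs * Jf γ a b U' := by
    intro U' hU'
    have hG1 : Gf γ a b U' ≠ ⊤ :=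
      ((G_le hγ hU').trans_lt (ENNReal.mul_lt_top ENNReal.ofReal_lt_top (Jf_lt_top hγ hU'))).ne
    rw [← ENNReal.toReal_le_toReal hG1 (ENNReal.mul_ne_top ENNReal.ofReal_ne_top (hJtop U' hU')), ENNReal.toReal_mul,
      ENNReal.toReal_ofReal hCspos.le]
    apply le_of_forall_pos_le_add
    intro ε hε
    have hj : 0 ≤ (Jf γ a b U').toReal := ENNReal.toReal_nonneg
    obtain ⟨C, hC, hC1⟩ := exists_lt_of_csInf_lt ⟨_, hSmem⟩
      (show sInf S < Cs + ε / ((Jf γ a b U').toReal + 1) by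
        have : 0 < ε / ((Jf γ a b U').toReal + 1) := by positivity
        linarith)
    have h1 := hC.2 U' hU'
    rw [← ENNReal.toReal_le_toReal hG1 (ENNReal.mul_ne_top ENNReal.ofReal_ne_top (hJtop U' hU')), ENNReal.toReal_mul,
      ENNReal.toReal_ofReal hC.1] at h1
    refine h1.trans ?_
    have h2 : C * (Jf γ a b U').toReal ≤ (Cs + ε / ((Jf γ a b U').toReal + 1)) * (Jf γ a b U').toReal :=
      mul_le_mul_of_nonneg_right hC1.le hj
    have h3 : ε / ((Jf γ a b U').toReal + 1) * (Jf γ a b U').toReal ≤ ε := by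
      rw [div_mul_eq_mul_div, div_le_iff₀ (by linarith)]
      nlinarith
    nlinarith
  -- maximising sequence
  have hseq : ∀ n : ℕ, ∃ U : ℝ → ℝ, Adm1 γ a b U ∧
      ENNReal.ofReal (Cs * (1 - 1 / ((n : ℝ) + 8))) * Jf γ a b U < Gf γ a b U := by
    intro n
    have h1 : (0 : ℝ) < 1 / ((n : ℝ) + 8) := by positivity
    have h2 : 1 / ((n : ℝ) + 8) ≤ 1 / 8 := by
      apply one_div_le_one_div_of_le (by norm_num)
      have : (0 : ℝ) ≤ n := Nat.cast_nonneg n
      linarith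
    by_contra hcon
    push Not at hcon
    have h3 : Cs * (1 - 1 / ((n : ℝ) + 8)) ∈ S :=
      ⟨mul_nonneg hCspos.le (by linarith), fun U' hU' => hcon U' hU'⟩
    have h4 := csInf_le hSbdd h3
    nlinarith
  choose Un hUn hUnG using hseq
  obtain ⟨B, hB0, hB⟩ := mx_G_le2 hab hγ
  set M : ℝ := B / (1 / 64 * (3 / 16) * kap γ) with hM
  have hM0 : 0 ≤ M := by positivity
  have hJM : ∀ n, Jf γ a b (Un n) ≤ ENNReal.ofReal M := by
    intro n
    have h2 : 1 / ((n : ℝ) + 8) ≤ 1 / 8 := by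
      apply one_div_le_one_div_of_le (by norm_num)
      have : (0 : ℝ) ≤ n := Nat.cast_nonneg n
      linarith
    have h1 := (hUnG n).le.trans (hB _ (hUn n))
    have hjt := hJtop _ (hUn n)
    rw [← ENNReal.toReal_le_toReal (ENNReal.mul_ne_top ENNReal.ofReal_ne_top hjt)
      (ENNReal.add_ne_top.2 ⟨ENNReal.mul_ne_top ENNReal.ofReal_ne_top hjt, ENNReal.ofReal_ne_top⟩),
      ENNReal.toReal_add (ENNReal.mul_ne_top ENNReal.ofReal_ne_top hjt) ENNReal.ofReal_ne_top, ENNReal.toReal_mul,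
      ENNReal.toReal_mul, ENNReal.toReal_ofReal (mul_nonneg hCspos.le (by linarith)),
      ENNReal.toReal_ofReal (by positivity), ENNReal.toReal_ofReal hB0] at h1
    have hj : 0 ≤ (Jf γ a b (Un n)).toReal := ENNReal.toReal_nonneg
    have h3 : 42 / 64 * (3 / 16) * kap γ ≤ Cs * (1 - 1 / ((n : ℝ) + 8)) := by
      have h5 : 3 / 4 * (3 / 16) * kap γ * (7 / 8) ≤ Cs * (1 - 1 / ((n : ℝ) + 8)) :=
        mul_le_mul (hC₀.trans hC₀Cs) (by linarith) (by norm_num) hCspos.le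
      linarith
    have h4 : (1 / 64 * (3 / 16) * kap γ) * (Jf γ a b (Un n)).toReal ≤ B := by
      nlinarith [mul_le_mul_of_nonneg_right h3 hj]
    rw [← ENNReal.ofReal_toReal hjt]
    apply ENNReal.ofReal_le_ofReal
    rw [hM, le_div_iff₀ (by positivity)]
    linarith
  obtain ⟨s, U, hs, hU, hweak, hlsc⟩ := weak_compact hab hγ hγ1 hUn hJM
  have husc := usc hab hγ hγ1 (fun n => hUn (s n)) hU (fun n => mx_sq hab hγ (hUn (s n)) hM0 (hJM (s n))) hweak
  -- positivity of the limit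
  have hmass : 1 ≤ (b - a) * ∫ x in Ioo a b, U x := by
    have h1 := (hweak (fun _ => 1) continuous_const).const_mul (b - a)
    simp only [mul_one] at h1
    refine ge_of_tendsto h1 (Filter.Eventually.of_forall fun n => ?_)
    exact mx_mass hab hγ (hUn (s n)) (pos_of_gt (hUnG (s n)))
  have hJpos := mx_J_pos hU hmass
  have hJt := hJtop U hU
  have hGt : Gf γ a b U ≠ ⊤ :=
    ((hmax U hU).trans_lt (ENNReal.mul_lt_top ENNReal.ofReal_lt_top (Jf_lt_top hγ hU))).ne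
  refine ⟨Cs, U, hC₀Cs, hCs_le, hU, hJpos, Jf_lt_top hγ hU, le_antisymm (hmax U hU) ?_, hmax⟩
  rw [← ENNReal.toReal_le_toReal (ENNReal.mul_ne_top ENNReal.ofReal_ne_top hJt) hGt, ENNReal.toReal_mul,
    ENNReal.toReal_ofReal hCspos.le]
  set j := (Jf γ a b U).toReal with hj
  set g := (Gf γ a b U).toReal with hg
  have hj0 : 0 < j := ENNReal.toReal_pos hJpos.ne' hJt
  have key : ∀ ε : ℝ, 0 < ε → ε < Cs → ε < j → (Cs - ε) * (j - ε) ≤ g + ε := by
    intro ε hε hε1 hε2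
    -- eventually in n
    have e1 : ∀ᶠ n in Filter.atTop, ENNReal.ofReal (j - ε) < Jf γ a b (Un (s n)) := by
      refine Filter.eventually_lt_of_lt_liminf (lt_of_lt_of_le ?_ hlsc)
      rw [← ENNReal.ofReal_toReal hJt]
      exact (ENNReal.ofReal_lt_ofReal_iff hj0).2 (by linarith)
    have e2 : ∀ᶠ n in Filter.atTop, Gf γ a b (Un (s n)) < ENNReal.ofReal (g + ε) := by
      refine Filter.eventually_lt_of_limsup_lt (lt_of_le_of_lt husc ?_)
      rw [← ENNReal.ofReal_toReal hGt]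
      exact (ENNReal.ofReal_lt_ofReal_iff (by have : 0 ≤ g := ENNReal.toReal_nonneg
                                              linarith)).2 (by linarith)
    have e3 : ∀ᶠ n : ℕ in Filter.atTop, Cs - ε < Cs * (1 - 1 / (((s n : ℕ) : ℝ) + 8)) := by
      have t1 : Filter.Tendsto (fun n : ℕ => Cs * (1 - 1 / (((s n : ℕ) : ℝ) + 8))) Filter.atTop (nhds (Cs * (1 - 0))) := by
        refine Filter.Tendsto.const_mul _ (Filter.Tendsto.const_sub _ ?_)
        have t2 : Filter.Tendsto (fun n : ℕ => ((s n : ℕ) : ℝ) + 8) Filter.atTop Filter.atTop :=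
          Filter.tendsto_atTop_add_const_right _ _ (tendsto_natCast_atTop_atTop.comp hs.tendsto_atTop)
        simpa [one_div, Function.comp_def] using tendsto_inv_atTop_zero.comp t2
      rw [sub_zero, mul_one] at t1
      exact t1.eventually_const_lt (by linarith)
    obtain ⟨n, h1, h2, h3⟩ := (e1.and (e2.and e3)).exists
    have hjn := hJtop _ (hUn (s n))
    have h4 := (hUnG (s n)).le.trans h2.le
    have h5 : ENNReal.ofReal (Cs - ε) * ENNReal.ofReal (j - ε) ≤ ENNReal.ofReal (g + ε) := by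
      refine le_trans ?_ h4
      exact mul_le_mul' (ENNReal.ofReal_le_ofReal h3.le) h1.le
    rw [← ENNReal.ofReal_mul (by linarith)] at h5
    exact (ENNReal.ofReal_le_ofReal_iff (by have : 0 ≤ g := ENNReal.toReal_nonneg
                                            linarith)).1 h5
  have t : Filter.Tendsto (fun ε : ℝ => g + ε - (Cs - ε) * (j - ε)) (nhdsWithin 0 (Ioi 0))
      (nhds (g + 0 - (Cs - 0) * (j - 0))) := by
    refine Filter.Tendsto.mono_left ?_ nhdsWithin_le_nhds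
    have hc : Continuous (fun ε : ℝ => g + ε - (Cs - ε) * (j - ε)) := by fun_prop
    exact hc.tendsto 0
  have t2 : 0 ≤ g + 0 - (Cs - 0) * (j - 0) := by
    refine ge_of_tendsto t ?_
    filter_upwards [Ioo_mem_nhdsGT (show (0 : ℝ) < min Cs j by positivity)] with ε hε
    have h1 := key ε hε.1 (hε.2.trans_le (min_le_left _ _)) (hε.2.trans_le (min_le_right _ _))
    linarith
  linarith

end Pool.Agent.RLT40
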