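import Pool.Agent.RLT40.Calib
import Pool.Agent.RLT40.LTMain

/-!
# Module QUIET (paper 4.5, 4.6): quiet zones and good windows.

`calib_window`: on a window `w' = (a', b')` (Dirichlet ends), `V = Um`, `f` the zero energy solution with `f a' = 0`: if `A ≤ Ntot(0) + ε` then (lt_nneg) `(3/5) Σ_{k≥2} k² N_k ≤ ε`,
so `(3/16)∫(V-2xq)² ≤ A - N_1 ≤ (8/3) ε` (calib_nneg).
`quiet_zone`: window of length `B` starting at `c`, `ℓ = 1`, deficit bound `ε = 1` (after a shift to the origin): `∫_{w'}(Um-2xq)² ≤ C₈(K)`; inside the core (length `B-2`) there are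
`≥ (B-2)/(3b) - 1` disjoint intervals of length `3b` (those not inside `(a,b)`: if an interval of length `b` lies outside `(a,b)`, `U = 0` there and we are done; else apply quiet_third);
one has `∫ ≤ c₄`.
-/

open MeasureTheory Set
open scoped ENNReal NNReal

namespace Pool.Agent.RLT40

theorem QuietA_pot (k : ℕ) (V : ℝ → ℝ) :
    pot k 0 V = fun x => (k : ℝ) ^ 2 - V x := by
  funext x
  unfold pot
  ring

/-- `Ntot` at zero energy, first channel split off -/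
theorem QuietA_Ntot (a b : ℝ) (V : ℝ → ℝ) :
    Ntot a b V 0 = ((nneg a b (fun x => 1 - V x) : ℕ∞) : ℝ≥0∞) +
      ∑' k : ℕ, ((k : ℝ≥0∞) + 2) ^ 2 *
        ((nneg a b (fun x => ((k : ℝ) + 2) ^ 2 - V x) : ℕ∞) : ℝ≥0∞) := by
  unfold Ntot
  rw [tsum_eq_zero_add' ENNReal.summable]
  congr 1
  · have : pot (((0 : ℕ) : ℝ) + 1) 0 V = fun x => 1 - V x := by
      funext x; unfold pot; push_cast; ring
    rw [this]
    push_cast
    ring
  · refine tsum_congr fun k => ?_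
    have : pot (((k + 1 : ℕ) : ℝ) + 1) 0 V = fun x => ((k : ℝ) + 2) ^ 2 - V x := by
      funext x; unfold pot; push_cast; ring
    rw [this]
    congr 2
    push_cast
    ring

theorem calib_window {a b ε : ℝ} (hab : a < b) {V f g : ℝ → ℝ} (hV : Continuous V) (hV0 : ∀ x, 0 ≤ V x)
    (h : Sol (fun x => 1 - V x) f g) (ha : f a = 0) (hga : g a ≠ 0) (hε : 0 ≤ ε)
    (hD : ENNReal.ofReal (3 / 16 * ∫ x in Ioo a b, V x ^ 2) ≤ Ntot a b V 0 + ENNReal.ofReal ε) :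
    (∫ x in a..b, (V x - 2 * xq f g x) ^ 2) ≤ 16 * ε ∧ (ε < 2 → ∀ k : ℕ, 2 ≤ k → nneg a b (pot k 0 V) = 0) := by
  set A : ℝ≥0∞ := ENNReal.ofReal (3 / 16 * ∫ x in Ioo a b, V x ^ 2) with hA
  set n₁ : ℝ≥0∞ := ((nneg a b (fun x => 1 - V x) : ℕ∞) : ℝ≥0∞) with hn₁
  set S : ℝ≥0∞ := ∑' k : ℕ, ((k : ℝ≥0∞) + 2) ^ 2 *
        ((nneg a b (fun x => ((k : ℝ) + 2) ^ 2 - V x) : ℕ∞) : ℝ≥0∞) with hS
  rw [QuietA_Ntot] at hD
  have hV2 : MemLp V 2 (volume.restrict (Ioo a b)) := by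
    have h1 : IsCompact (Icc a b) := isCompact_Icc
    have h2 : MemLp V 2 (volume.restrict (Icc a b)) := by
      haveI : IsFiniteMeasure (volume.restrict (Icc a b)) :=
        ⟨by rw [Measure.restrict_apply_univ]; exact h1.measure_lt_top⟩
      obtain ⟨c, hc⟩ := h1.exists_bound_of_continuousOn hV.continuousOn
      refine MemLp.of_bound hV.aestronglyMeasurable c ?_
      rw [ae_restrict_iff' measurableSet_Icc]
      exact Filter.Eventually.of_forall hc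
    exact h2.mono_measure (Measure.restrict_mono Ioo_subset_Icc_self le_rfl)
  have hlt := lt_nneg hV2
  have hmax : ∀ x, max (V x) 0 = V x := fun x => max_eq_left (hV0 x)
  simp only [hmax] at hlt
  have hcal := calib_nneg hV h hab.le ha hga
  have hint : ∫ x in a..b, V x ^ 2 = ∫ x in Ioo a b, V x ^ 2 := by
    rw [intervalIntegral.integral_of_le hab.le, integral_Ioc_eq_integral_Ioo]
  rw [hint] at hcal
  have hAtop : A ≠ ⊤ := ENNReal.ofReal_ne_top
  have hn₁top : n₁ ≠ ⊤ := ne_top_of_le_ne_top hAtop (le_self_add.trans hlt)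
  have h85 : 8 / 5 * S ≠ ⊤ := ne_top_of_le_ne_top hAtop (le_add_self.trans hlt)
  have hStop : S ≠ ⊤ := by
    intro hs
    apply h85
    rw [hs]
    apply ENNReal.mul_top
    simp
  have hεtop : ENNReal.ofReal ε ≠ ⊤ := ENNReal.ofReal_ne_top
  -- pass to real numbers
  have r1 : n₁.toReal + 8 / 5 * S.toReal ≤ A.toReal := by
    have := ENNReal.toReal_mono hAtop hlt
    rw [ENNReal.toReal_add hn₁top h85, ENNReal.toReal_mul] at this
    simpa using this
  have r2 : A.toReal ≤ n₁.toReal + S.toReal + ε := by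
    have h1 : n₁ + S + ENNReal.ofReal ε ≠ ⊤ :=
      ENNReal.add_ne_top.2 ⟨ENNReal.add_ne_top.2 ⟨hn₁top, hStop⟩, hεtop⟩
    have := ENNReal.toReal_mono h1 hD
    rw [ENNReal.toReal_add (ENNReal.add_ne_top.2 ⟨hn₁top, hStop⟩) hεtop,
      ENNReal.toReal_add hn₁top hStop, ENNReal.toReal_ofReal hε] at this
    exact this
  have hI0 : 0 ≤ ∫ x in a..b, (V x - 2 * xq f g x) ^ 2 :=
    intervalIntegral.integral_nonneg hab.le fun _ _ => sq_nonneg _
  have r3 : 3 / 16 * (∫ x in a..b, (V x - 2 * xq f g x) ^ 2) + n₁.toReal ≤ A.toReal := by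
    have := ENNReal.toReal_mono hAtop hcal
    rw [ENNReal.toReal_add ENNReal.ofReal_ne_top hn₁top,
      ENNReal.toReal_ofReal (by positivity)] at this
    exact this
  refine ⟨by linarith, fun hε2 k hk => ?_⟩
  have hterm : ((k : ℝ≥0∞)) ^ 2 * ((nneg a b (pot k 0 V) : ℕ∞) : ℝ≥0∞) ≤ S := by
    obtain ⟨m, rfl⟩ : ∃ m, k = m + 2 := ⟨k - 2, by omega⟩
    have h1 := ENNReal.le_tsum (f := fun k : ℕ => ((k : ℝ≥0∞) + 2) ^ 2 *
        ((nneg a b (fun x => ((k : ℝ) + 2) ^ 2 - V x) : ℕ∞) : ℝ≥0∞)) m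
    refine le_trans (le_of_eq ?_) h1
    rw [QuietA_pot]
    push_cast
    rfl
  by_contra hne
  have h1 : (1 : ℕ∞) ≤ nneg a b (pot k 0 V) := Order.one_le_iff_pos.2 (pos_iff_ne_zero.2 hne)
  have h2 : (1 : ℝ≥0∞) ≤ ((nneg a b (pot k 0 V) : ℕ∞) : ℝ≥0∞) := by
    exact_mod_cast h1
  have h3 : (4 : ℝ≥0∞) ≤ S := by
    refine le_trans ?_ hterm
    have hk' : (2 : ℝ≥0∞) ≤ k := by exact_mod_cast hk
    calc (4 : ℝ≥0∞) = 2 ^ 2 * 1 := by norm_num
      _ ≤ (k : ℝ≥0∞) ^ 2 * ((nneg a b (pot k 0 V) : ℕ∞) : ℝ≥0∞) := by gcongr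
  have h4 : (4 : ℝ) ≤ S.toReal := by
    have := ENNReal.toReal_mono hStop h3
    simpa using this
  linarith

end Pool.Agent.RLT40
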