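import Pool.Agent.RLT40.OdeA

/-!
# Module RD (paper 4.4): Riccati dynamics with small `L²` error gives a quiet third.

`κ² = η/(512 b)`.  Put `x = xq f g`, `G = U - 2x`.  If `|g| ≥ (1-2κ)|f|` on a third then `2x ≤ 8κ` there and `∫U² ≤ 2·64κ²b + 2c₄ ≤ η`.
Otherwise there are `t₁` in the first and `t₃` in the last third with `|q| < 1-2κ` (`q = g/f`), `t₃ - t₁ ≥ b`.
For `|q| < 1`: `q' = -(1-q²) - G`; for `|q| > 1`: `q' = 1 - q² - G`.
(i) From `t₁`: `y = (1-q)/(1+q) ≥ κ` satisfies `y' = 2y + 2G/(1+q)²`; as long as `q > -1+κ`: `|2G/(1+q)²| ≤ 2|G|/κ²`; so `q` reaches `-1+κ` before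
`t₁ + log(2/κ) + 1 < t₁ + b` (needs `b ≥ b₀(η)`, and `∫|G| ≤ sqrt(3 b c₄)` tiny).
(ii) afterwards, as long as `f ≠ 0`, `q` increases by at most `∫|G| ≤ κ/2`: so `f` has a zero in `(t₁,t₃)`; let `t_z` be the last one.
(iii) after `t_z`, `y₂ = (q-1)/(q+1)` starts at `1` and `y₂' ≥ -2|y₂| - 2|G|` while `q ≥ 0`, so `y₂ ≥ -2 e^{6b} ∫|G| > -κ/2` and `q > 1-2κ` up to `t₃`: contradiction.
-/

open MeasureTheory Set Filter Topology
open scoped ENNReal NNReal

namespace Pool.Agent.RLT40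

theorem RD_xq_continuous {V f g : ℝ → ℝ} (hV : Continuous V) (h : Sol V f g) (hne : ∃ x, f x ≠ 0) :
    Continuous (xq f g) := by
  have hf := h.continuous_left
  have hg := h.continuous_right
  rw [continuous_iff_continuousAt]
  intro x
  by_cases hx : f x = 0
  · have hgx := h.deriv_ne_zero hV hne hx
    have hlt : f x ^ 2 - g x ^ 2 < 0 := by
      rw [hx]
      have : 0 < g x ^ 2 := by positivity
      linarith
    have hc : Continuous fun t => f t ^ 2 - g t ^ 2 := by fun_prop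
    have hev : ∀ᶠ t in 𝓝 x, f t ^ 2 - g t ^ 2 < 0 := hc.continuousAt.eventually_lt_const hlt
    have heq : xq f g =ᶠ[𝓝 x] fun _ => 0 := by
      filter_upwards [hev] with t ht
      unfold xq
      rw [max_eq_left ht.le, zero_div]
    exact continuousAt_const.congr heq.symm
  · unfold xq
    exact ContinuousAt.div (by fun_prop) (by fun_prop) (pow_ne_zero 2 hx)

theorem RD_xq_eq {f g : ℝ → ℝ} {x : ℝ} (hx : f x ≠ 0) : xq f g x = max 0 (1 - (g x / f x) ^ 2) := by
  have h2 : 0 < f x ^ 2 := by positivity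
  unfold xq
  rw [eq_comm]
  have e : 1 - (g x / f x) ^ 2 = (f x ^ 2 - g x ^ 2) / f x ^ 2 := by field_simp
  rw [e]
  rcases le_total (f x ^ 2 - g x ^ 2) 0 with h | h
  · rw [max_eq_left h, max_eq_left (div_nonpos_of_nonpos_of_nonneg h h2.le), zero_div]
  · rw [max_eq_right h, max_eq_right (div_nonneg h h2.le)]

/-- the Riccati equation in the form `q' = -|1 - q²| - G` -/
theorem RD_deriv {U f g : ℝ → ℝ} (h : Sol (fun x => 1 - U x) f g) {x : ℝ} (hx : f x ≠ 0) :
    HasDerivAt (fun t => g t / f t) (-|1 - (g x / f x) ^ 2| - (U x - 2 * xq f g x)) x := by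
  have h1 := (h.d2 x).div (h.d1 x) hx
  refine h1.congr_deriv ?_
  rw [RD_xq_eq hx]
  have e : ((1 - U x) * f x * f x - g x * g x) / f x ^ 2 = 1 - U x - (g x / f x) ^ 2 := by
    field_simp
  rw [e]
  rcases le_total (1 - (g x / f x) ^ 2) 0 with h2 | h2
  · rw [max_eq_left h2, abs_of_nonpos h2]; ring
  · rw [max_eq_right h2, abs_of_nonneg h2]; ring

theorem RD_prim {G : ℝ → ℝ} (hG : Continuous G) (a t : ℝ) :
    HasDerivAt (fun t => ∫ s in a..t, |G s|) |G t| t :=
  intervalIntegral.integral_hasDerivAt_right (hG.abs.intervalIntegrable _ _)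
    (hG.abs.stronglyMeasurableAtFilter _ _) hG.abs.continuousAt

theorem RD_prim_mono {G : ℝ → ℝ} (hG : Continuous G) {a b c d : ℝ} (hac : a ≤ c) (hcd : c ≤ d)
    (hdb : d ≤ b) : ∫ s in c..d, |G s| ≤ ∫ s in a..b, |G s| :=
  intervalIntegral.integral_mono_interval hac hcd hdb (Filter.Eventually.of_forall fun _ => abs_nonneg _)
    (hG.abs.intervalIntegrable _ _)

theorem RD_no_zero {U f g : ℝ → ℝ} (hU : Continuous U) (h : Sol (fun x => 1 - U x) f g)
    (hne : ∃ x, f x ≠ 0) {t1 t3 κ : ℝ} (ht : t1 ≤ t3) (hκ0 : 0 < κ) (hκ : κ ≤ 1 / 2)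
    (hf : ∀ t ∈ Icc t1 t3, f t ≠ 0) (h1 : |g t1| < (1 - 2 * κ) * |f t1|)
    (h3 : |g t3| < (1 - 2 * κ) * |f t3|)
    (hG : ∫ t in t1..t3, |U t - 2 * xq f g t| ≤ κ) (hlen : 3 ≤ κ * (t3 - t1)) : False := by
  have hxc := RD_xq_continuous (continuous_const.sub hU) h hne
  have hGc : Continuous fun t => U t - 2 * xq f g t := by fun_prop
  set Γ : ℝ → ℝ := fun t => ∫ s in t1..t, |U s - 2 * xq f g s| with hΓ
  have hΓd : ∀ t, HasDerivAt Γ |U t - 2 * xq f g t| t := fun t => RD_prim hGc t1 t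
  have hΓ1 : Γ t1 = 0 := by rw [hΓ]; simp
  have hΓ3 : Γ t3 ≤ κ := hG
  have habs : ∀ t ∈ Icc t1 t3, |g t| < (1 - 2 * κ) * |f t| → |g t / f t| < 1 - 2 * κ := by
    intro t htt hh
    rw [abs_div, div_lt_iff₀ (abs_pos.2 (hf t htt))]
    exact hh
  have q1 := abs_lt.1 (habs t1 ⟨le_rfl, ht⟩ h1)
  have q3 := abs_lt.1 (habs t3 ⟨ht, le_rfl⟩ h3)
  have hcont : ContinuousOn (fun t => g t / f t) (Icc t1 t3) := fun t htt =>
    (RD_deriv h (hf t htt)).continuousAt.continuousWithinAt
  have hΓc : Continuous Γ := continuous_iff_continuousAt.2 fun t => (hΓd t).continuousAt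
  have anti : ∀ m : ℝ, (∀ t ∈ Icc t1 t3, m ≤ |1 - (g t / f t) ^ 2|) →
      AntitoneOn (fun t => g t / f t - Γ t + m * t) (Icc t1 t3) := by
    intro m hm
    have hd : ∀ t ∈ Icc t1 t3, HasDerivAt (fun t => g t / f t - Γ t + m * t)
        (-|1 - (g t / f t) ^ 2| - (U t - 2 * xq f g t) - |U t - 2 * xq f g t| + m) t := by
      intro t htt
      refine (((RD_deriv h (hf t htt)).sub (hΓd t)).add
        ((hasDerivAt_id t).const_mul m)).congr_deriv ?_
      rw [mul_one]
    apply antitoneOn_of_deriv_nonpos (convex_Icc t1 t3)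
    · exact fun t htt => (hd t htt).continuousAt.continuousWithinAt
    · exact fun t htt => (hd t (interior_subset htt)).differentiableAt.differentiableWithinAt
    · intro t htt
      rw [(hd t (interior_subset htt)).deriv]
      have e1 := hm t (interior_subset htt)
      have e2 := neg_abs_le (U t - 2 * xq f g t)
      linarith
  have a0 := anti 0 (fun t _ => abs_nonneg _)
  have hq : ∀ t ∈ Icc t1 t3, |g t / f t| ≤ 1 - κ := by
    intro t htt
    have e1 := a0 ⟨le_rfl, ht⟩ htt htt.1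
    have e2 := a0 htt ⟨ht, le_rfl⟩ htt.2
    have e3 : Γ t ≤ κ := by
      refine le_trans ?_ hΓ3
      exact RD_prim_mono hGc le_rfl htt.1 htt.2
    have e4 : 0 ≤ Γ t := intervalIntegral.integral_nonneg htt.1 fun _ _ => abs_nonneg _
    simp only [zero_mul, add_zero] at e1 e2
    rw [hΓ1] at e1
    rw [abs_le]
    constructor <;> linarith [q1.2, q3.1]
  have a1 := anti κ (by
    intro t htt
    have e1 := hq t htt
    have e2 : (g t / f t) ^ 2 ≤ (1 - κ) ^ 2 := by
      rw [← sq_abs]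
      exact pow_le_pow_left₀ (abs_nonneg _) e1 2
    refine le_trans ?_ (le_abs_self _)
    nlinarith)
  have e := a1 ⟨le_rfl, ht⟩ ⟨ht, le_rfl⟩ ht
  simp only at e
  rw [hΓ1] at e
  have : κ * (t3 - t1) = κ * t3 - κ * t1 := by ring
  linarith [q1.2, q3.1]

theorem RD_zero {U f g : ℝ → ℝ} (hU : Continuous U) (h : Sol (fun x => 1 - U x) f g)
    (hne : ∃ x, f x ≠ 0) {tz t3 κ : ℝ} (ht : tz < t3) (hκ0 : 0 < κ) (hκ : κ ≤ 1 / 2)
    (hz : f tz = 0) (hf : ∀ t ∈ Ioc tz t3, 0 < f t) (hgz : 0 < g tz)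
    (h3 : g t3 ≤ (1 - 2 * κ) * f t3)
    (hG : Real.exp (2 * (t3 - tz)) * ∫ t in tz..t3, |U t - 2 * xq f g t| ≤ κ) : False := by
  have hxc := RD_xq_continuous (continuous_const.sub hU) h hne
  have hGc : Continuous fun t => U t - 2 * xq f g t := by fun_prop
  have hfc := h.continuous_left
  have hgc := h.continuous_right
  have huc : Continuous fun t => f t - g t := by fun_prop
  have hf3 := hf t3 ⟨ht, le_rfl⟩
  -- the last point with `f ≤ g`
  have hS : IsCompact (Icc tz t3 ∩ {t | f t - g t ≤ 0}) :=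
    isCompact_Icc.inter_right (isClosed_le huc continuous_const)
  obtain ⟨s, hs⟩ := hS.exists_isGreatest ⟨tz, ⟨le_rfl, ht.le⟩, by
    show f tz - g tz ≤ 0
    rw [hz]; linarith⟩
  have hs1 : s ∈ Icc tz t3 := hs.1.1
  have hs2 : f s - g s ≤ 0 := hs.1.2
  have hs3 : ∀ t, s < t → t ≤ t3 → 0 < f t - g t := by
    intro t h1 h2
    by_contra hcon
    have := hs.2 ⟨⟨hs1.1.trans h1.le, h2⟩, not_lt.1 hcon⟩
    linarith
  have hst : s < t3 := by
    rcases lt_or_eq_of_le hs1.2 with h' | h'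
    · exact h'
    · exfalso
      rw [h'] at hs2
      nlinarith
  have hs4 : 0 ≤ f s - g s := by
    have h1 : Tendsto (fun t => f t - g t) (𝓝[>] s) (𝓝 (f s - g s)) :=
      (huc.tendsto s).mono_left nhdsWithin_le_nhds
    refine ge_of_tendsto h1 ?_
    filter_upwards [Ioc_mem_nhdsGT hst] with t ht'
    exact (hs3 t ht'.1 ht'.2).le
  have hs0 : tz < s := by
    rcases lt_or_eq_of_le hs1.1 with h' | h'
    · exact h'
    · exfalso
      rw [← h', hz] at hs4
      linarith
  have hfs := hf s ⟨hs0, hs1.2⟩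
  have hys : 1 - g s / f s = 0 := by
    have : g s = f s := by linarith
    rw [this, div_self hfs.ne', sub_self]
  have hyc : ContinuousOn (fun t => 1 - g t / f t) (Icc s t3) := fun t htt =>
    (continuousAt_const.sub (RD_deriv h
      (hf t ⟨lt_of_lt_of_le hs0 htt.1, htt.2⟩).ne').continuousAt).continuousWithinAt
  have hy3 : 2 * κ ≤ 1 - g t3 / f t3 := by
    have : g t3 / f t3 ≤ 1 - 2 * κ := by
      rw [div_le_iff₀ hf3]; exact h3
    linarith
  -- the first point with `y ≥ 2κ`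
  have hS2 : IsCompact (Icc s t3 ∩ (fun t => 1 - g t / f t) ⁻¹' Ici (2 * κ)) :=
    isCompact_Icc.of_isClosed_subset (hyc.preimage_isClosed_of_isClosed isClosed_Icc isClosed_Ici)
      inter_subset_left
  obtain ⟨r, hr⟩ := hS2.exists_isLeast ⟨t3, ⟨hst.le, le_rfl⟩, hy3⟩
  have hr1 : r ∈ Icc s t3 := hr.1.1
  have hr2 : 2 * κ ≤ 1 - g r / f r := hr.1.2
  have hr3 : ∀ t, s ≤ t → t < r → 1 - g t / f t < 2 * κ := by
    intro t h1 h2
    by_contra hcon
    have := hr.2 ⟨⟨h1, h2.le.trans hr1.2⟩, not_lt.1 hcon⟩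
    linarith
  have hy0 : ∀ t ∈ Icc s t3, 0 ≤ 1 - g t / f t := by
    intro t htt
    have hft := hf t ⟨lt_of_lt_of_le hs0 htt.1, htt.2⟩
    rw [sub_nonneg, div_le_one hft]
    rcases lt_or_eq_of_le htt.1 with h' | h'
    · linarith [hs3 t h' htt.2]
    · rw [← h']; linarith
  set Γ : ℝ → ℝ := fun t => ∫ u in s..t, |U u - 2 * xq f g u| with hΓ
  have hΓd : ∀ t, HasDerivAt Γ |U t - 2 * xq f g t| t := fun t => RD_prim hGc s t
  have hΓs : Γ s = 0 := by rw [hΓ]; simp
  have hd : ∀ t ∈ Icc s r, HasDerivAt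
      (fun t => Real.exp (-(2 * t)) * (1 - g t / f t) - Real.exp (-(2 * s)) * Γ t)
      (Real.exp (-(2 * t)) * (-2) * (1 - g t / f t) + Real.exp (-(2 * t)) *
        (|1 - (g t / f t) ^ 2| + (U t - 2 * xq f g t)) -
        Real.exp (-(2 * s)) * |U t - 2 * xq f g t|) t := by
    intro t htt
    have hft := hf t ⟨lt_of_lt_of_le hs0 htt.1, htt.2.trans hr1.2⟩
    have d1 : HasDerivAt (fun t => 1 - g t / f t)
        (|1 - (g t / f t) ^ 2| + (U t - 2 * xq f g t)) t := by
      refine ((hasDerivAt_const t (1 : ℝ)).sub (RD_deriv h hft.ne')).congr_deriv ?_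
      ring
    have d2 : HasDerivAt (fun t : ℝ => Real.exp (-(2 * t))) (Real.exp (-(2 * t)) * (-2)) t := by
      have := (((hasDerivAt_id t).const_mul (2 : ℝ)).neg).exp
      simpa using this
    exact (d2.mul d1).sub ((hΓd t).const_mul _)
  have hanti : AntitoneOn
      (fun t => Real.exp (-(2 * t)) * (1 - g t / f t) - Real.exp (-(2 * s)) * Γ t)
      (Icc s r) := by
    apply antitoneOn_of_deriv_nonpos (convex_Icc s r)
    · exact fun t htt => (hd t htt).continuousAt.continuousWithinAt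
    · exact fun t htt => (hd t (interior_subset htt)).differentiableAt.differentiableWithinAt
    · intro t htt
      rw [(hd t (interior_subset htt)).deriv]
      rw [interior_Icc] at htt
      have hft := hf t ⟨hs0.trans htt.1, htt.2.le.trans hr1.2⟩
      have e1 := hr3 t htt.1.le htt.2
      have e2 := hy0 t ⟨htt.1.le, htt.2.le.trans hr1.2⟩
      have e3 : |1 - (g t / f t) ^ 2| ≤ 2 * (1 - g t / f t) := by
        rw [abs_of_nonneg (by nlinarith)]
        nlinarith
      have e4 : Real.exp (-(2 * t)) ≤ Real.exp (-(2 * s)) :=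
        Real.exp_le_exp.2 (by linarith [htt.1])
      have e5 : 0 < Real.exp (-(2 * t)) := Real.exp_pos _
      have e6 := le_abs_self (U t - 2 * xq f g t)
      have e7 := abs_nonneg (U t - 2 * xq f g t)
      have e8 : Real.exp (-(2 * t)) * (-2) * (1 - g t / f t) + Real.exp (-(2 * t)) *
          (|1 - (g t / f t) ^ 2| + (U t - 2 * xq f g t)) ≤
          Real.exp (-(2 * t)) * |U t - 2 * xq f g t| := by
        have : Real.exp (-(2 * t)) * (-2) * (1 - g t / f t) + Real.exp (-(2 * t)) *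
          (|1 - (g t / f t) ^ 2| + (U t - 2 * xq f g t)) = Real.exp (-(2 * t)) *
          ((|1 - (g t / f t) ^ 2| - 2 * (1 - g t / f t)) + (U t - 2 * xq f g t)) := by ring
        rw [this]
        apply mul_le_mul_of_nonneg_left _ e5.le
        linarith
      have e9 : Real.exp (-(2 * t)) * |U t - 2 * xq f g t| ≤
          Real.exp (-(2 * s)) * |U t - 2 * xq f g t| := mul_le_mul_of_nonneg_right e4 e7
      linarith
  have e := hanti ⟨le_rfl, hr1.1⟩ ⟨hr1.1, le_rfl⟩ hr1.1
  simp only at e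
  rw [hys, hΓs, mul_zero, sub_zero] at e
  have e1 : 1 - g r / f r ≤ Real.exp (2 * (r - s)) * Γ r := by
    have : Real.exp (2 * (r - s)) = Real.exp (2 * r) * Real.exp (-(2 * s)) := by
      rw [← Real.exp_add]; ring_nf
    rw [this]
    have h4 : Real.exp (-(2 * r)) * (1 - g r / f r) ≤ Real.exp (-(2 * s)) * Γ r := by linarith
    have h5 := mul_le_mul_of_nonneg_left h4 (Real.exp_pos (2 * r)).le
    rw [← mul_assoc, ← Real.exp_add] at h5
    have h6 : 2 * r + -(2 * r) = 0 := by ring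
    rw [h6, Real.exp_zero, one_mul, ← mul_assoc] at h5
    exact h5
  have e2 : Γ r ≤ ∫ t in tz..t3, |U t - 2 * xq f g t| := RD_prim_mono hGc hs1.1 hr1.1 hr1.2
  have e3 : Real.exp (2 * (r - s)) ≤ Real.exp (2 * (t3 - tz)) :=
    Real.exp_le_exp.2 (by linarith [hs1.1, hr1.2])
  have e4 : 0 ≤ Γ r := intervalIntegral.integral_nonneg hr1.1 fun _ _ => abs_nonneg _
  have e5 : Real.exp (2 * (r - s)) * Γ r ≤
      Real.exp (2 * (t3 - tz)) * ∫ t in tz..t3, |U t - 2 * xq f g t| := by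
    gcongr
  linarith

theorem RD_quiet {U f g : ℝ → ℝ} (hU : Continuous U) (h : Sol (fun x => 1 - U x) f g)
    (hne : ∃ x, f x ≠ 0) {a b κ c : ℝ} (hab : a ≤ b) (hκ0 : 0 < κ) (hκ : κ ≤ 1 / 2)
    (h1 : ∀ t ∈ Icc a b, (1 - 2 * κ) * |f t| ≤ |g t|)
    (hG : ∫ t in a..b, (U t - 2 * xq f g t) ^ 2 ≤ c) :
    ∫ t in a..b, U t ^ 2 ≤ 2 * c + 128 * κ ^ 2 * (b - a) := by
  have hxc := RD_xq_continuous (continuous_const.sub hU) h hne
  have hx : ∀ t ∈ Icc a b, 0 ≤ xq f g t ∧ xq f g t ≤ 4 * κ := by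
    intro t ht
    by_cases hft : f t = 0
    · unfold xq
      rw [hft]
      norm_num
      exact hκ0.le
    · rw [RD_xq_eq hft]
      refine ⟨le_max_left _ _, max_le (by linarith) ?_⟩
      have e1 : 1 - 2 * κ ≤ |g t / f t| := by
        rw [abs_div, le_div_iff₀ (abs_pos.2 hft)]
        exact h1 t ht
      have e2 : (1 - 2 * κ) ^ 2 ≤ (g t / f t) ^ 2 := by
        rw [← sq_abs (g t / f t)]
        exact pow_le_pow_left₀ (by linarith) e1 2
      nlinarith
  have hle : ∫ t in a..b, U t ^ 2 ≤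
      ∫ t in a..b, (2 * (U t - 2 * xq f g t) ^ 2 + 128 * κ ^ 2) := by
    apply intervalIntegral.integral_mono_on hab
    · exact (by fun_prop : Continuous fun t => U t ^ 2).intervalIntegrable _ _
    · exact (by fun_prop :
        Continuous fun t => 2 * (U t - 2 * xq f g t) ^ 2 + 128 * κ ^ 2).intervalIntegrable _ _
    · intro t ht
      obtain ⟨x0, x1⟩ := hx t ht
      have e1 : (2 * xq f g t) ^ 2 ≤ 64 * κ ^ 2 := by nlinarith
      nlinarith [sq_nonneg (U t - 4 * xq f g t)]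
  refine hle.trans ?_
  rw [intervalIntegral.integral_add, intervalIntegral.integral_const_mul,
    intervalIntegral.integral_const, smul_eq_mul]
  · nlinarith
  · exact (by fun_prop : Continuous fun t => 2 * (U t - 2 * xq f g t) ^ 2).intervalIntegrable _ _
  · exact intervalIntegrable_const

theorem quiet_third {η : ℝ} (hη : 0 < η) :
    ∃ b₀ > 0, ∀ b ≥ b₀, ∃ c₄ > 0, ∀ U f g : ℝ → ℝ, Continuous U → (∀ x, 0 ≤ U x) → Sol (fun x => 1 - U x) f g → (∃ x, f x ≠ 0) →
      ∀ x₀ : ℝ, (∫ x in x₀..(x₀ + 3 * b), (U x - 2 * xq f g x) ^ 2) ≤ c₄ →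
        (∫ x in x₀..(x₀ + b), U x ^ 2) ≤ η ∨ (∫ x in (x₀ + b)..(x₀ + 2 * b), U x ^ 2) ≤ η ∨
          (∫ x in (x₀ + 2 * b)..(x₀ + 3 * b), U x ^ 2) ≤ η := by
  refine ⟨5000 / η + η, by positivity, fun b hb => ?_⟩
  have hb0 : 0 < b := lt_of_lt_of_le (by positivity) hb
  have hb1 : 5000 ≤ η * b := by
    have : 5000 / η ≤ b := by linarith
    rw [div_le_iff₀ hη] at this
    linarith
  have hb2 : η ≤ b := by
    have : 0 < 5000 / η := by positivity
    linarith
  set κ : ℝ := Real.sqrt (η / (512 * b)) with hκdef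
  have hκ2 : κ ^ 2 = η / (512 * b) := Real.sq_sqrt (by positivity)
  have hκ0 : 0 < κ := Real.sqrt_pos.2 (by positivity)
  have hκb : κ ^ 2 * (512 * b) = η := by
    rw [hκ2]; field_simp
  have hκ : κ ≤ 1 / 2 := by
    by_contra hcon
    push Not at hcon
    have h4 : 1 / 4 < κ ^ 2 := by nlinarith
    nlinarith
  have hκ3 : 3 ≤ κ * b := by
    by_contra hcon
    push Not at hcon
    have : (κ * b) ^ 2 < 3 ^ 2 := by
      apply pow_lt_pow_left₀ hcon (by positivity) (by norm_num)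
    nlinarith
  set δ : ℝ := κ * Real.exp (-(6 * b)) with hδdef
  have hδ0 : 0 < δ := by positivity
  have hδκ : δ ≤ κ := by
    have : Real.exp (-(6 * b)) ≤ 1 := Real.exp_le_one_iff.2 (by linarith)
    nlinarith
  refine ⟨min (η / 4) (δ ^ 2 / (3 * b)), lt_min (by positivity) (by positivity), ?_⟩
  intro U f g hU hU0 h hne x₀ hint
  have hxc := RD_xq_continuous (continuous_const.sub hU) h hne
  have hGc : Continuous fun t => U t - 2 * xq f g t := by fun_prop
  have hG2c : Continuous fun t => (U t - 2 * xq f g t) ^ 2 := by fun_prop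
  have hc1 := hint.trans (min_le_left _ _)
  have hc2 := hint.trans (min_le_right _ _)
  -- the `L¹` bound
  have hL1 : ∫ t in x₀..(x₀ + 3 * b), |U t - 2 * xq f g t| ≤ δ := by
    have h1 : ∫ t in x₀..(x₀ + 3 * b), |U t - 2 * xq f g t| ≤
        ∫ t in x₀..(x₀ + 3 * b), (δ / (6 * b) + 3 * b / (2 * δ) * (U t - 2 * xq f g t) ^ 2) := by
      apply intervalIntegral.integral_mono_on (by linarith)
      · exact hGc.abs.intervalIntegrable _ _
      · exact (by fun_prop : Continuous fun t =>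
          δ / (6 * b) + 3 * b / (2 * δ) * (U t - 2 * xq f g t) ^ 2).intervalIntegrable _ _
      · intro t _
        have h2 := sq_abs (U t - 2 * xq f g t)
        have h3 := sq_nonneg (|U t - 2 * xq f g t| - δ / (3 * b))
        have h4 : δ / (6 * b) + 3 * b / (2 * δ) * (U t - 2 * xq f g t) ^ 2 -
            |U t - 2 * xq f g t| = 3 * b / (2 * δ) * (|U t - 2 * xq f g t| - δ / (3 * b)) ^ 2 := by
          rw [← h2]; field_simp; ring
        have h5 : 0 ≤ 3 * b / (2 * δ) * (|U t - 2 * xq f g t| - δ / (3 * b)) ^ 2 := by positivity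
        linarith
    refine h1.trans ?_
    rw [intervalIntegral.integral_add intervalIntegrable_const
      ((by fun_prop : Continuous fun t =>
        3 * b / (2 * δ) * (U t - 2 * xq f g t) ^ 2).intervalIntegrable _ _),
      intervalIntegral.integral_const_mul, intervalIntegral.integral_const, smul_eq_mul]
    have h2 : 3 * b / (2 * δ) * ∫ t in x₀..(x₀ + 3 * b), (U t - 2 * xq f g t) ^ 2 ≤
        3 * b / (2 * δ) * (δ ^ 2 / (3 * b)) := mul_le_mul_of_nonneg_left hc2 (by positivity)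
    have h3 : 3 * b / (2 * δ) * (δ ^ 2 / (3 * b)) = δ / 2 := by field_simp
    have h4 : (x₀ + 3 * b - x₀) * (δ / (6 * b)) = δ / 2 := by field_simp; ring
    linarith
  by_contra hcon
  push Not at hcon
  obtain ⟨hn1, -, hn3⟩ := hcon
  have hsub : ∀ a d : ℝ, x₀ ≤ a → a ≤ d → d ≤ x₀ + 3 * b →
      ∫ t in a..d, (U t - 2 * xq f g t) ^ 2 ≤ η / 4 := by
    intro a d h1 h2 h3
    refine le_trans ?_ hc1
    exact intervalIntegral.integral_mono_interval h1 h2 h3
      (Filter.Eventually.of_forall fun _ => sq_nonneg _) (hG2c.intervalIntegrable _ _)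
  have hpt : ∀ a : ℝ, x₀ ≤ a → a + b ≤ x₀ + 3 * b → η < ∫ x in a..(a + b), U x ^ 2 →
      ∃ t ∈ Icc a (a + b), |g t| < (1 - 2 * κ) * |f t| := by
    intro a h1 h2 h3
    by_contra hcon
    push Not at hcon
    have h4 := RD_quiet hU h hne (by linarith : a ≤ a + b) hκ0 hκ hcon
      (hsub a (a + b) h1 (by linarith) h2)
    have h5 : 128 * κ ^ 2 * (a + b - a) = η / 4 := by
      have : a + b - a = b := by ring
      rw [this, hκ2]; field_simp; ring
    linarith
  obtain ⟨t1, ht1, ht1'⟩ := hpt x₀ le_rfl (by linarith) hn1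
  have e3 : x₀ + 3 * b = x₀ + 2 * b + b := by ring
  rw [e3] at hn3
  obtain ⟨t3, ht3, ht3'⟩ := hpt (x₀ + 2 * b) (by linarith) (by linarith) hn3
  have ht13 : t1 + b ≤ t3 := by linarith [ht1.2, ht3.1]
  have ht13' : t1 ≤ t3 := by linarith
  have ht3b : t3 ≤ x₀ + 3 * b := by linarith [ht3.2]
  have hf3 : f t3 ≠ 0 := by
    intro h0
    rw [h0, abs_zero, mul_zero] at ht3'
    exact absurd ht3' (not_lt.2 (abs_nonneg _))
  -- the last zero
  by_cases hz : ∃ t ∈ Icc t1 t3, f t = 0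
  · have hS : IsCompact (Icc t1 t3 ∩ {t | f t = 0}) :=
      isCompact_Icc.inter_right (isClosed_eq h.continuous_left continuous_const)
    obtain ⟨tz, htz⟩ := hS.exists_isGreatest (by
      obtain ⟨t, h1, h2⟩ := hz
      exact ⟨t, h1, h2⟩)
    have htz1 : tz ∈ Icc t1 t3 := htz.1.1
    have htz2 : f tz = 0 := htz.1.2
    have htz3 : ∀ t, tz < t → t ≤ t3 → f t ≠ 0 := by
      intro t h1 h2 h3
      have := htz.2 ⟨⟨htz1.1.trans h1.le, h2⟩, h3⟩
      linarith
    have hlt : tz < t3 := by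
      rcases lt_or_eq_of_le htz1.2 with h' | h'
      · exact h'
      · exact absurd (h' ▸ htz2) hf3
    have hexp : Real.exp (2 * (t3 - tz)) * ∫ t in tz..t3, |U t - 2 * xq f g t| ≤ κ := by
      have h1 : ∫ t in tz..t3, |U t - 2 * xq f g t| ≤ δ :=
        (RD_prim_mono hGc (ht1.1.trans htz1.1) htz1.2 ht3b).trans hL1
      have h2 : Real.exp (2 * (t3 - tz)) ≤ Real.exp (6 * b) :=
        Real.exp_le_exp.2 (by linarith [ht1.1, htz1.1])
      have h3 : 0 ≤ ∫ t in tz..t3, |U t - 2 * xq f g t| :=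
        intervalIntegral.integral_nonneg hlt.le fun _ _ => abs_nonneg _
      calc Real.exp (2 * (t3 - tz)) * ∫ t in tz..t3, |U t - 2 * xq f g t|
          ≤ Real.exp (6 * b) * δ := by gcongr
        _ = κ := by
          rw [hδdef, mul_left_comm, ← Real.exp_add]
          have : 6 * b + -(6 * b) = 0 := by ring
          rw [this, Real.exp_zero, mul_one]
    have hgz := h.deriv_ne_zero (continuous_const.sub hU) hne htz2
    -- constant sign on `(tz, t3]`
    have hsign : ∀ σ : ℝ, σ = 1 ∨ σ = -1 → 0 < σ * f t3 → ∀ t ∈ Ioc tz t3, 0 < σ * f t := by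
      intro σ hσ h3 t ht
      by_contra hcon
      push Not at hcon
      have hfc : ContinuousOn (fun t => σ * f t) (Icc t t3) :=
        (continuous_const.mul h.continuous_left).continuousOn
      obtain ⟨u, hu, hu0⟩ := intermediate_value_Icc ht.2 hfc ⟨hcon, h3.le⟩
      have hu0' : σ * f u = 0 := hu0
      have hσ0 : σ ≠ 0 := by rcases hσ with h' | h' <;> rw [h'] <;> norm_num
      exact htz3 u (lt_of_lt_of_le ht.1 hu.1) hu.2 ((mul_eq_zero.1 hu0').resolve_left hσ0)
    obtain ⟨σ, hσ, hσ3⟩ : ∃ σ : ℝ, (σ = 1 ∨ σ = -1) ∧ 0 < σ * f t3 := by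
      rcases lt_or_gt_of_ne hf3 with h' | h'
      · exact ⟨-1, Or.inr rfl, by linarith⟩
      · exact ⟨1, Or.inl rfl, by linarith⟩
    have hpos := hsign σ hσ hσ3
    have hsol : Sol (fun x => 1 - U x) (fun x => σ * f x) (fun x => σ * g x) := h.smul σ
    have hσ2 : σ ^ 2 = 1 := by rcases hσ with h' | h' <;> rw [h'] <;> norm_num
    have hσa : |σ| = 1 := by rcases hσ with h' | h' <;> rw [h'] <;> norm_num
    have hxq : xq (fun x => σ * f x) (fun x => σ * g x) = xq f g := by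
      funext t
      unfold xq
      rw [mul_pow, mul_pow, hσ2, one_mul, one_mul]
    have hne' : ∃ x, σ * f x ≠ 0 := ⟨t3, hσ3.ne'⟩
    have hgz' : 0 < σ * g tz := by
      by_contra hcon
      push Not at hcon
      have hgz2 : σ * g tz < 0 := by
        rcases lt_or_eq_of_le hcon with h' | h'
        · exact h'
        · exfalso
          have hσ0 : σ ≠ 0 := by rcases hσ with h' | h' <;> rw [h'] <;> norm_num
          exact hgz ((mul_eq_zero.1 h').resolve_left hσ0)
      -- negative slope at `tz` contradicts positivity on the right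
      have hd := (hsol.d1 tz)
      have h1 : Tendsto (slope (fun x => σ * f x) tz) (𝓝[>] tz) (𝓝 (σ * g tz)) :=
        (hasDerivAt_iff_tendsto_slope.1 hd).mono_left
          (nhdsWithin_mono _ fun t ht => ne_of_gt ht)
      have h2 : 0 ≤ σ * g tz := by
        refine ge_of_tendsto h1 ?_
        filter_upwards [Ioc_mem_nhdsGT hlt] with t ht
        rw [slope_def_field, htz2, mul_zero, sub_zero]
        exact div_nonneg (hpos t ht).le (by linarith [ht.1])
      linarith
    have h3' : σ * g t3 ≤ (1 - 2 * κ) * (σ * f t3) := by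
      have e1 : |σ * g t3| < (1 - 2 * κ) * |σ * f t3| := by
        rw [abs_mul, abs_mul, hσa, one_mul, one_mul]
        exact ht3'
      rw [abs_of_pos hσ3] at e1
      exact (le_abs_self _).trans e1.le
    have hz' : σ * f tz = 0 := by rw [htz2, mul_zero]
    have hexp' : Real.exp (2 * (t3 - tz)) * ∫ t in tz..t3,
        |U t - 2 * xq (fun x => σ * f x) (fun x => σ * g x) t| ≤ κ := by
      rw [hxq]; exact hexp
    exact RD_zero hU hsol hne' hlt hκ0 hκ hz' hpos hgz' h3' hexp'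
  · push Not at hz
    have hG1 : ∫ t in t1..t3, |U t - 2 * xq f g t| ≤ κ :=
      ((RD_prim_mono hGc ht1.1 ht13' ht3b).trans hL1).trans hδκ
    have hlen : 3 ≤ κ * (t3 - t1) := by nlinarith
    exact RD_no_zero hU h hne ht13' hκ0 hκ hz ht1' ht3' hG1 hlen

end Pool.Agent.RLT40
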