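import Pool.Agent.RLT40.LD
import Pool.Agent.RLT40.QuietA
import Pool.Agent.RLT40.RD
import Pool.Agent.RLT40.Shift

/-!
# Module QUIET (paper 4.5, 4.6): quiet zones and good windows.

`calib_window`: on a window `w' = (a', b')` (Dirichlet ends), `V = Um`, `f` the zero energy solution with `f a' = 0`: if `A ≤ Ntot(0) + ε` then (lt_nneg) `(3/5) Σ_{k≥2} k² N_k ≤ ε`,
so `(3/16)∫(V-2xq)² ≤ A - N_1 ≤ (8/3) ε` (calib_nneg).
`quiet_zone`: window of length `B` starting at `c`, `ℓ = 1`, deficit bound `ε = 1` (after a shift to the origin): `∫_{w'}(Um-2xq)² ≤ C₈(K)`; inside the core (length `B-2`) there are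
`≥ (B-2)/(3b) - 1` disjoint intervals of length `3b` (those not inside `(a,b)`: if an interval of length `b` lies outside `(a,b)`, `U = 0` there and we are done; else apply quiet_third);
one has `∫ ≤ c₄`.
-/

open MeasureTheory Set
open scoped ENNReal NNReal

namespace Pool.Agent.RLT40

theorem QuietB_nonneg {γ a b C : ℝ} {U : ℝ → ℝ} (O : Opt γ a b C U) (x : ℝ) : 0 ≤ U x := by
  by_cases hx : x ∈ Ioo a b
  · exact (O.pos x hx).le
  · rw [O.zero x hx]

theorem QuietB_Um_cont {U : ℝ → ℝ} (hU : Continuous U) (α β ℓ : ℝ) : Continuous (Um U α β ℓ) :=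
  hU.add (thd_continuous.pow 2)

theorem QuietB_Um_core {U : ℝ → ℝ} {α β ℓ : ℝ} (hℓ : 0 < ℓ) (h : α + 2 * ℓ ≤ β) {x : ℝ}
    (hx : x ∈ Icc (α + ℓ) (β - ℓ)) : Um U α β ℓ x = U x := by
  have h1 := thd_sq_le hℓ h x
  rw [indicator_of_notMem] at h1
  · have h2 : thd α β ℓ x ^ 2 = 0 := le_antisymm h1 (sq_nonneg _)
    simp only [Um, h2, add_zero]
  · rintro (h2 | h2)
    · exact absurd h2.2 (not_lt.2 hx.1)
    · exact absurd h2.1 (not_lt.2 hx.2)

/-- pigeonhole on consecutive intervals -/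
theorem QuietB_pigeon {G : ℝ → ℝ} (hG : Continuous G) (hG0 : ∀ x, 0 ≤ G x) {s L M c₄ : ℝ} (hL : 0 < L) (n : ℕ)
    (hM : (∫ x in s..(s + L * n), G x) ≤ M) (hn : M < c₄ * n) :
    ∃ j : ℕ, j < n ∧ (∫ x in (s + L * j)..(s + L * j + L), G x) ≤ c₄ := by
  by_contra hcon
  push Not at hcon
  have key : ∀ m : ℕ, m ≤ n → c₄ * m ≤ ∫ x in s..(s + L * m), G x := by
    intro m
    induction m with
    | zero => intro _; simp
    | succ m ih =>
      intro hm
      have h1 := ih (by omega)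
      have h2 := hcon m (by omega)
      have e : s + L * ((m + 1 : ℕ) : ℝ) = s + L * m + L := by push_cast; ring
      rw [e, ← intervalIntegral.integral_add_adjacent_intervals (b := s + L * m)
        (hG.intervalIntegrable _ _) (hG.intervalIntegrable _ _)]
      push_cast
      linarith
  have := key n le_rfl
  linarith

theorem quiet_zone {K η : ℝ} (hK : 0 < K) (hη : 0 < η) :
    ∃ b₀ > 0, ∀ ℓ ≥ b₀, ∃ B > 0, ∃ γ₁ > 0, ∃ δ₁ > 0, ∀ γ a b C : ℝ, ∀ U : ℝ → ℝ, 0 < γ → γ < γ₁ → Opt γ a b C U →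
      3 / 16 * (1 - δ₁) * kap γ ≤ C → C ≤ 3 / 16 * kap γ → (∀ x, U x ≤ K) →
        ∀ c : ℝ, ∃ x ∈ Icc c (c + B), (∫ t in x..(x + ℓ), U t ^ 2) ≤ η := by
  obtain ⟨b₀, hb₀, hq⟩ := quiet_third hη
  refine ⟨b₀, hb₀, fun ℓ hℓ => ?_⟩
  have hℓ0 : 0 < ℓ := lt_of_lt_of_le hb₀ hℓ
  obtain ⟨c₄, hc₄, hq⟩ := hq ℓ hℓ
  set E : ℝ := 1 + 2 * K ^ 2 + 2 * Real.pi ^ 4 with hE
  have hE0 : 0 < E := by positivity
  obtain ⟨n, hn⟩ := exists_nat_gt (16 * E / c₄)
  have hn1 : 16 * E < c₄ * n := by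
    rw [div_lt_iff₀ hc₄] at hn
    linarith
  set B : ℝ := ℓ + 1 + 3 * ℓ * n + 1 with hB
  have hB0 : 0 < B := by positivity
  obtain ⟨γ₁, hγ₁, δ₁, hδ₁, hdef⟩ := deficit (K := K) (R := B) (ε := 1) hK hB0 one_pos
  refine ⟨B, hB0, γ₁, hγ₁, δ₁, hδ₁, ?_⟩
  intro γ a b C U hγ hγ1 O hC1 hC2 hUK c
  have O' := O.shift hγ c
  set U' : ℝ → ℝ := fun x => U (x + c) with hU'
  suffices h : ∃ x ∈ Icc 0 B, (∫ t in x..(x + ℓ), U' t ^ 2) ≤ η by
    obtain ⟨x, hx, hxi⟩ := h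
    refine ⟨x + c, ⟨by linarith [hx.1], by linarith [hx.2]⟩, ?_⟩
    have e := intervalIntegral.integral_comp_add_right (a := x) (b := x + ℓ) (fun t => U t ^ 2) c
    rw [show x + c + ℓ = x + ℓ + c by ring, ← e]
    exact hxi
  by_cases h1 : ℓ ≤ a - c
  · refine ⟨0, ⟨le_rfl, hB0.le⟩, ?_⟩
    have : ∫ t in (0 : ℝ)..(0 + ℓ), U' t ^ 2 = ∫ t in (0 : ℝ)..(0 + ℓ), (0 : ℝ) := by
      apply intervalIntegral.integral_congr
      intro t ht
      rw [uIcc_of_le (by linarith)] at ht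
      have : U' t = 0 := O'.zero t fun h' => by linarith [h'.1, ht.2]
      simp only [this]
      norm_num
    rw [this]
    simpa using hη.le
  by_cases h2 : b - c ≤ B
  · refine ⟨B, ⟨hB0.le, le_rfl⟩, ?_⟩
    have : ∫ t in B..(B + ℓ), U' t ^ 2 = ∫ t in B..(B + ℓ), (0 : ℝ) := by
      apply intervalIntegral.integral_congr
      intro t ht
      rw [uIcc_of_le (by linarith)] at ht
      have : U' t = 0 := O'.zero t fun h' => by linarith [h'.2, ht.1]
      simp only [this]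
      norm_num
    rw [this]
    simpa using hη.le
  rw [not_le] at h1 h2
  have hwin : (0 : ℝ) + 2 * 1 ≤ B := by
    have : 0 ≤ 3 * ℓ * (n : ℝ) := by positivity
    rw [hB]
    linarith
  have hdf := hdef γ (a - c) (b - c) C U' hγ hγ1 O' hC1 hC2 (fun x => hUK _) 0 B 1 (by linarith) le_rfl le_rfl hwin
  set V : ℝ → ℝ := Um U' 0 B 1 with hV
  have hVc : Continuous V := QuietB_Um_cont O'.cont 0 B 1
  have hV0 : ∀ x, 0 ≤ V x := fun x => add_nonneg (QuietB_nonneg O' x) (sq_nonneg _)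
  have hmin : min (b - c) B = B := min_eq_right h2.le
  rw [hmin] at hdf
  set a' : ℝ := max (a - c) 0 with ha'
  have ha'0 : 0 ≤ a' := le_max_right _ _
  have ha'ℓ : a' < ℓ + 1 := max_lt (by linarith) (by linarith)
  have ha'B : a' < B := by
    have : 0 ≤ 3 * ℓ * (n : ℝ) := by positivity
    rw [hB]
    linarith
  -- the error term
  have herr : 1 + (∫ x in Ioo (a - c) (b - c) ∩ Oz 0 B 1, U' x ^ 2) + 2 * Real.pi ^ 4 / 1 ^ 3 ≤ E := by
    have hvol : volume (Ioo (a - c) (b - c) ∩ Oz 0 B 1) ≤ 2 := by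
      calc volume (Ioo (a - c) (b - c) ∩ Oz 0 B 1) ≤ volume (Oz 0 B 1) := measure_mono inter_subset_right
        _ ≤ volume (Ioo 0 (0 + 1 : ℝ)) + volume (Ioo (B - 1) B) := measure_union_le _ _
        _ = 2 := by
          rw [Real.volume_Ioo, Real.volume_Ioo]
          simp only [zero_add, sub_zero, sub_sub_cancel, ENNReal.ofReal_one]
          norm_num
    have hb : ‖∫ x in Ioo (a - c) (b - c) ∩ Oz 0 B 1, U' x ^ 2‖
        ≤ K ^ 2 * volume.real (Ioo (a - c) (b - c) ∩ Oz 0 B 1) := by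
      apply norm_setIntegral_le_of_norm_le_const (lt_of_le_of_lt hvol (by norm_num))
      intro x _
      rw [Real.norm_eq_abs, abs_of_nonneg (sq_nonneg _)]
      exact pow_le_pow_left₀ (QuietB_nonneg O' x) (hUK _) 2
    have hreal : volume.real (Ioo (a - c) (b - c) ∩ Oz 0 B 1) ≤ 2 := by
      rw [Measure.real]
      exact ENNReal.toReal_le_of_le_ofReal (by norm_num) (by simpa using hvol)
    have h3 : (∫ x in Ioo (a - c) (b - c) ∩ Oz 0 B 1, U' x ^ 2) ≤ K ^ 2 * 2 := by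
      refine (le_abs_self _).trans (hb.trans ?_)
      exact mul_le_mul_of_nonneg_left hreal (sq_nonneg _)
    rw [hE]
    simp only [one_pow, div_one]
    linarith
  have hdf2 : ENNReal.ofReal (3 / 16 * ∫ x in Ioo a' B, V x ^ 2) ≤ Ntot a' B V 0 + ENNReal.ofReal E := by
    refine hdf.trans ?_
    gcongr
  obtain ⟨f, g, hs, hf0, hg0⟩ := exists_sol (V := fun x => 1 - V x) (by fun_prop) a' 0 1
  have hga : g a' ≠ 0 := by rw [hg0]; norm_num
  have hcal := (calib_window ha'B hVc hV0 hs hf0 hga hE0.le hdf2).1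
  have hne : ∃ x, f x ≠ 0 := cal_nontriv hs hga
  have hxc := xq_continuous (V := fun x => 1 - V x) (by fun_prop) hs hne
  have hGc : Continuous (fun x => (V x - 2 * xq f g x) ^ 2) := by fun_prop
  have hsum : (∫ x in (ℓ + 1)..(ℓ + 1 + 3 * ℓ * n), (V x - 2 * xq f g x) ^ 2) ≤ 16 * E := by
    refine le_trans ?_ hcal
    apply intervalIntegral.integral_mono_interval ha'ℓ.le
    · have : 0 ≤ 3 * ℓ * (n : ℝ) := by positivity
      linarith
    · rw [hB]; linarith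
    · exact Filter.Eventually.of_forall fun _ => sq_nonneg _
    · exact hGc.intervalIntegrable _ _
  obtain ⟨j, hj, hji⟩ := QuietB_pigeon hGc (fun _ => sq_nonneg _) (by positivity : 0 < 3 * ℓ) n hsum hn1
  set x₀ : ℝ := ℓ + 1 + 3 * ℓ * j with hx₀
  have hj0 : 0 ≤ 3 * ℓ * (j : ℝ) := by positivity
  have hjn : 3 * ℓ * (j : ℝ) + 3 * ℓ ≤ 3 * ℓ * n := by
    have : (j : ℝ) + 1 ≤ n := by exact_mod_cast hj
    nlinarith
  have hcore : ∀ x y : ℝ, x₀ ≤ x → x ≤ y → y ≤ x₀ + 3 * ℓ → ∫ t in x..y, V t ^ 2 = ∫ t in x..y, U' t ^ 2 := by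
    intro x y hx hxy hy
    apply intervalIntegral.integral_congr
    intro t ht
    rw [uIcc_of_le hxy] at ht
    have : V t = U' t := by
      apply QuietB_Um_core one_pos hwin
      constructor
      · linarith [ht.1]
      · rw [hB]; linarith [ht.2]
    simp only [this]
  rcases hq V f g hVc hV0 hs hne x₀ hji with h3 | h3 | h3
  · refine ⟨x₀, ⟨by linarith, by rw [hB]; linarith⟩, ?_⟩
    rw [← hcore x₀ (x₀ + ℓ) le_rfl (by linarith) (by linarith)]
    exact h3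
  · refine ⟨x₀ + ℓ, ⟨by linarith, by rw [hB]; linarith⟩, ?_⟩
    rw [← hcore (x₀ + ℓ) (x₀ + ℓ + ℓ) (by linarith) (by linarith) (by linarith),
      show x₀ + ℓ + ℓ = x₀ + 2 * ℓ by ring]
    exact h3
  · refine ⟨x₀ + 2 * ℓ, ⟨by linarith, by rw [hB]; linarith⟩, ?_⟩
    rw [← hcore (x₀ + 2 * ℓ) (x₀ + 2 * ℓ + ℓ) (by linarith) (by linarith) (by linarith),
      show x₀ + 2 * ℓ + ℓ = x₀ + 3 * ℓ by ring]
    exact h3

end Pool.Agent.RLT40
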