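import Pool.Agent.RLT40.OdeB
import Pool.Agent.RLT40.SDef

/-!
# Module SA (paper 5.1): exponential decay of `U` before the bubble and in the gap.

`ρ = Σ α_j φ_j²`, `σ = sqrt ρ` (`ρ > 0` inside since `φ 0 > 0`): `σ'' ≥ (1 - U) σ ≥ 0.99 σ` where `U ≤ 1/100` (Cauchy-Schwarz: `ρ'²  ≤ 4 ρ Σ α φ'²`,
`φ_j'' = (1 + e_j ω - U) φ_j`).  max_principle with `ν² = 0.99`, and `U^{1+γ} = c σ² e^{2γt}` (field `el`), `(x+y)^{1/(1+γ)} ≤ x^{1/(1+γ)} + y^{1/(1+γ)}`,
`(2ν - 2γ)/(1+γ) ≥ 1.9`.  On the left `σ(-Lm) = 0`.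
-/

open MeasureTheory Set
open scoped ENNReal NNReal

namespace Pool.Agent.RLT40

variable {K₁ C₀ R : ℝ}

/-! ### auxiliary facts -/

noncomputable def SA_rho (S : SD K₁ C₀ R) (t : ℝ) : ℝ :=
  ∑ j ∈ Finset.range S.N, S.α j * S.φ j t ^ 2

noncomputable def SA_M (S : SD K₁ C₀ R) (t : ℝ) : ℝ :=
  ∑ j ∈ Finset.range S.N, S.α j * (S.φ j t * S.dφ j t)

noncomputable def SA_D (S : SD K₁ C₀ R) (t : ℝ) : ℝ :=
  ∑ j ∈ Finset.range S.N, S.α j * S.dφ j t ^ 2

noncomputable def SA_M1 (S : SD K₁ C₀ R) (t : ℝ) : ℝ :=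
  ∑ j ∈ Finset.range S.N, S.α j * (S.dφ j t * S.dφ j t + S.φ j t * (pot 1 (S.e j) S.U t * S.φ j t))

theorem SA_rho_deriv (S : SD K₁ C₀ R) (t : ℝ) : HasDerivAt (SA_rho S) (2 * SA_M S t) t := by
  have h : HasDerivAt (SA_rho S) (∑ j ∈ Finset.range S.N, S.α j * (2 * S.φ j t * S.dφ j t)) t := by
    unfold SA_rho
    refine HasDerivAt.fun_sum fun j hj => ?_
    have := ((S.sol j (Finset.mem_range.1 hj)).d1 t).pow 2
    simpa using this.const_mul (S.α j)
  convert h using 1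
  rw [SA_M, Finset.mul_sum]
  refine Finset.sum_congr rfl fun j _ => ?_
  ring

theorem SA_M_deriv (S : SD K₁ C₀ R) (t : ℝ) : HasDerivAt (SA_M S) (SA_M1 S t) t := by
  unfold SA_M SA_M1
  refine HasDerivAt.fun_sum fun j hj => ?_
  have h := S.sol j (Finset.mem_range.1 hj)
  exact ((h.d1 t).mul (h.d2 t)).const_mul (S.α j)

theorem SA_rho_continuous (S : SD K₁ C₀ R) : Continuous (SA_rho S) :=
  continuous_iff_continuousAt.2 fun t => (SA_rho_deriv S t).continuousAt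

theorem SA_rho_nonneg (S : SD K₁ C₀ R) (t : ℝ) : 0 ≤ SA_rho S t :=
  Finset.sum_nonneg fun j hj => mul_nonneg (S.α_pos j (Finset.mem_range.1 hj)).le (sq_nonneg _)

theorem SA_rho_pos (S : SD K₁ C₀ R) {t : ℝ} (ht : t ∈ Ioo (-S.Lm) S.Lp) : 0 < SA_rho S t := by
  have h0 : (0 : ℕ) ∈ Finset.range S.N := Finset.mem_range.2 S.hN
  have h1 : 0 < S.α 0 * S.φ 0 t ^ 2 := mul_pos (S.α_pos 0 S.hN) (pow_pos (S.φ_pos t ht) 2)
  exact h1.trans_le (Finset.single_le_sum (f := fun j => S.α j * S.φ j t ^ 2)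
    (fun j hj => mul_nonneg (S.α_pos j (Finset.mem_range.1 hj)).le (sq_nonneg _)) h0)

theorem SA_M_sq (S : SD K₁ C₀ R) (t : ℝ) : SA_M S t ^ 2 ≤ SA_rho S t * SA_D S t := by
  refine Finset.sum_sq_le_sum_mul_sum_of_sq_le_mul _ (fun j hj => ?_) (fun j hj => ?_) (fun j _ => ?_)
  · exact mul_nonneg (S.α_pos j (Finset.mem_range.1 hj)).le (sq_nonneg _)
  · exact mul_nonneg (S.α_pos j (Finset.mem_range.1 hj)).le (sq_nonneg _)
  · exact le_of_eq (by ring)

theorem SA_M1_ge (S : SD K₁ C₀ R) (t : ℝ) : SA_D S t + (1 - S.U t) * SA_rho S t ≤ SA_M1 S t := by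
  rw [SA_D, SA_rho, SA_M1, Finset.mul_sum, ← Finset.sum_add_distrib]
  refine Finset.sum_le_sum fun j hj => ?_
  have hα := S.α_pos j (Finset.mem_range.1 hj)
  have he := S.e_pos j (Finset.mem_range.1 hj)
  have hom : 0 < om t := Real.exp_pos _
  have : S.α j * (S.dφ j t * S.dφ j t + S.φ j t * (pot 1 (S.e j) S.U t * S.φ j t)) =
      S.α j * S.dφ j t ^ 2 + (1 - S.U t) * (S.α j * S.φ j t ^ 2) +
        S.α j * S.e j * om t * S.φ j t ^ 2 := by
    simp only [pot]; ring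
  rw [this]
  have h2 : 0 ≤ S.α j * S.e j * om t * S.φ j t ^ 2 := by positivity
  linarith

/-- the maximum principle for `σ = sqrt ρ` -/
theorem SA_max (S : SD K₁ C₀ R) {x y : ℝ} (hxy : x ≤ y) (hx : -S.Lm ≤ x) (hy : y ≤ S.Lp)
    (hU : ∀ t ∈ Icc x y, S.U t ≤ 1 / 100) :
    ∀ t ∈ Icc x y, √(SA_rho S t) ≤ √(SA_rho S x) * Real.exp (-(0.99 * (t - x))) +
      √(SA_rho S y) * Real.exp (-(0.99 * (y - t))) := by
  have hin : ∀ t ∈ Ioo x y, t ∈ Ioo (-S.Lm) S.Lp := fun t ht =>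
    ⟨hx.trans_lt ht.1, ht.2.trans_le hy⟩
  have hpos : ∀ t ∈ Ioo x y, 0 < √(SA_rho S t) := fun t ht =>
    Real.sqrt_pos.2 (SA_rho_pos S (hin t ht))
  have hs : ∀ t ∈ Ioo x y, HasDerivAt (fun t => √(SA_rho S t)) (SA_M S t / √(SA_rho S t)) t := by
    intro t ht
    have h := (SA_rho_deriv S t).sqrt (SA_rho_pos S (hin t ht)).ne'
    have hp := hpos t ht
    convert h using 1
    field_simp
  refine max_principle (ν := 0.99) hxy (by norm_num)
    (f := fun t => √(SA_rho S t)) (f1 := fun t => SA_M S t / √(SA_rho S t))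
    (f2 := fun t => (SA_M1 S t * √(SA_rho S t) - SA_M S t * (SA_M S t / √(SA_rho S t))) /
      √(SA_rho S t) ^ 2) ?_ hs ?_ ?_ (Real.sqrt_nonneg _) (Real.sqrt_nonneg _)
  · exact (SA_rho_continuous S).sqrt.continuousOn
  · intro t ht
    exact (SA_M_deriv S t).div (hs t ht) (hpos t ht).ne'
  · intro t ht
    have hp := hpos t ht
    have hρ := SA_rho_pos S (hin t ht)
    have hsq : √(SA_rho S t) ^ 2 = SA_rho S t := Real.sq_sqrt hρ.le
    set s := √(SA_rho S t) with hsdef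
    have hM := SA_M_sq S t
    have hM1 := SA_M1_ge S t
    have hUt := hU t ⟨ht.1.le, ht.2.le⟩
    rw [← hsq] at hM hM1
    have e1 : (SA_M1 S t * s - SA_M S t * (SA_M S t / s)) / s ^ 2 =
        (SA_M1 S t * s ^ 2 - SA_M S t ^ 2) / s ^ 3 := by
      field_simp
    rw [e1, le_div_iff₀ (by positivity)]
    have h3 : SA_D S t * s ^ 2 + (1 - S.U t) * s ^ 4 ≤ SA_M1 S t * s ^ 2 := by
      have := mul_le_mul_of_nonneg_right hM1 (sq_nonneg s)
      nlinarith
    have h4 : (0.99 : ℝ) ^ 2 * s ^ 4 ≤ (1 - S.U t) * s ^ 4 := by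
      refine mul_le_mul_of_nonneg_right ?_ (by positivity)
      norm_num
      linarith
    nlinarith

theorem SA_zero_left (S : SD K₁ C₀ R) : SA_rho S (-S.Lm) = 0 := by
  rw [SA_rho]
  refine Finset.sum_eq_zero fun j hj => ?_
  rw [S.φ_left j (Finset.mem_range.1 hj)]
  ring

/-- `U^{1+γ}` in terms of `ρ` -/
theorem SA_U_eq (S : SD K₁ C₀ R) {t : ℝ} (ht : t ∈ Icc (-S.Lm) S.Lp) :
    S.U t ^ (1 + S.γ) = S.γ / (S.C * (2 + S.γ)) * (SA_rho S t * Real.exp (2 * S.γ * t)) := by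
  have h := S.el t ht
  have hC : 0 < S.C := by linarith [S.hC]
  have hγ := S.hγ
  rw [SA_rho]
  have h2 : S.U t ^ (1 + S.γ) = (S.C * (2 + S.γ) * S.U t ^ (1 + S.γ) *
      Real.exp (-(2 * S.γ * t))) * Real.exp (2 * S.γ * t) / (S.C * (2 + S.γ)) := by
    rw [mul_assoc (S.C * (2 + S.γ) * S.U t ^ (1 + S.γ)), ← Real.exp_add]
    simp only [neg_add_cancel, Real.exp_zero, mul_one]
    field_simp
  rw [h2, ← h]
  field_simp

theorem SA_U_nonneg (S : SD K₁ C₀ R) (t : ℝ) : 0 ≤ S.U t := by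
  by_cases ht : t ∈ Ioo (-S.Lm) S.Lp
  · exact (S.U_pos t ht).le
  · rw [S.U_zero t ht]

/-- transport of a bound `ρ(t) ≤ m ρ(s)` -/
theorem SA_U_le (S : SD K₁ C₀ R) {s t m : ℝ} (hs : s ∈ Icc (-S.Lm) S.Lp) (hUs : S.U s ≤ 1 / 100)
    (hm : 0 ≤ m) :
    S.γ / (S.C * (2 + S.γ)) * (m * SA_rho S s * Real.exp (2 * S.γ * t)) ≤
      (1 / 100) ^ (1 + S.γ) * (m * Real.exp (2 * S.γ * (t - s))) := by
  have h := SA_U_eq S hs
  have e1 : Real.exp (2 * S.γ * t) = Real.exp (2 * S.γ * s) * Real.exp (2 * S.γ * (t - s)) := by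
    rw [← Real.exp_add]; congr 1; ring
  have e2 : S.γ / (S.C * (2 + S.γ)) * (m * SA_rho S s * Real.exp (2 * S.γ * t)) =
      S.U s ^ (1 + S.γ) * (m * Real.exp (2 * S.γ * (t - s))) := by
    rw [h, e1]; ring
  rw [e2]
  refine mul_le_mul_of_nonneg_right ?_ (by positivity)
  exact Real.rpow_le_rpow (SA_U_nonneg S s) hUs (by linarith [S.hγ])

theorem SA_left (S : SD K₁ C₀ R) {y : ℝ} (hy : y ≤ S.Lp) (hU : ∀ x ∈ Icc (-S.Lm) y, S.U x ≤ 1 / 100) :
    ∀ t ∈ Icc (-S.Lm) y, S.U t ≤ 1 / 100 * Real.exp (-(1.8 * (y - t))) := by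
  intro t ht
  have hγ := S.hγ
  have hγ' := S.hγ'
  have hC : 0 < S.C := by linarith [S.hC]
  have hle : -S.Lm ≤ y := ht.1.trans ht.2
  have hmem : y ∈ Icc (-S.Lm) S.Lp := ⟨hle, hy⟩
  have htm : t ∈ Icc (-S.Lm) S.Lp := ⟨ht.1, ht.2.trans hy⟩
  have h1 := SA_max S (x := -S.Lm) (y := y) hle le_rfl hy hU t ht
  rw [SA_zero_left, Real.sqrt_zero, zero_mul, zero_add] at h1
  have h2 : SA_rho S t ≤ Real.exp (-(1.98 * (y - t))) * SA_rho S y := by
    have e1 : SA_rho S t = √(SA_rho S t) ^ 2 := (Real.sq_sqrt (SA_rho_nonneg S t)).symm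
    have e2 : (√(SA_rho S y) * Real.exp (-(0.99 * (y - t)))) ^ 2 =
        Real.exp (-(1.98 * (y - t))) * SA_rho S y := by
      rw [mul_pow, Real.sq_sqrt (SA_rho_nonneg S _), ← Real.exp_nat_mul, mul_comm]
      congr 2
      push_cast; ring
    rw [e1, ← e2]
    exact pow_le_pow_left₀ (Real.sqrt_nonneg _) h1 2
  have h3 : S.U t ^ (1 + S.γ) ≤ (1 / 100 * Real.exp (-(1.8 * (y - t)))) ^ (1 + S.γ) := by
    rw [SA_U_eq S htm]
    calc S.γ / (S.C * (2 + S.γ)) * (SA_rho S t * Real.exp (2 * S.γ * t))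
        ≤ S.γ / (S.C * (2 + S.γ)) * (Real.exp (-(1.98 * (y - t))) * SA_rho S y *
          Real.exp (2 * S.γ * t)) := by gcongr
      _ ≤ (1 / 100) ^ (1 + S.γ) * (Real.exp (-(1.98 * (y - t))) *
          Real.exp (2 * S.γ * (t - y))) := SA_U_le S hmem (hU _ ⟨hle, le_rfl⟩) (Real.exp_pos _).le
      _ ≤ (1 / 100) ^ (1 + S.γ) * Real.exp (-(1.8 * (y - t)) * (1 + S.γ)) := by
          refine mul_le_mul_of_nonneg_left ?_ (by positivity)
          rw [← Real.exp_add]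
          refine Real.exp_le_exp.2 ?_
          have hd : 0 ≤ y - t := by linarith [ht.2]
          have : S.γ * (y - t) ≤ 1 / 100 * (y - t) := mul_le_mul_of_nonneg_right hγ' hd
          have h0 : 0 ≤ S.γ * (y - t) := mul_nonneg hγ.le hd
          nlinarith
      _ = (1 / 100 * Real.exp (-(1.8 * (y - t)))) ^ (1 + S.γ) := by
          rw [Real.mul_rpow (by norm_num) (Real.exp_pos _).le, Real.exp_mul]
  exact (Real.rpow_le_rpow_iff (SA_U_nonneg S t) (by positivity) (by linarith)).1 h3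

theorem SD.decay_left (S : SD K₁ C₀ R) (hC₀ : 0 < C₀) (hR : C₀ ≤ R) :
    ∀ t ∈ Icc (-S.Lm) (-C₀), S.U t ≤ 1 / 100 * Real.exp (-(1.8 * (-C₀ - t))) := by
  have hLp := S.hLp
  exact SA_left S (by linarith) fun x hx => S.U_left x hx.2

theorem SD.decay_gap (S : SD K₁ C₀ R) (hC₀ : 0 < C₀) {T : ℝ} (hT : C₀ ≤ T) (hTL : T ≤ S.Lp)
    (h : ∀ x ∈ Icc C₀ T, S.U x ≤ 1 / 100) :
    ∀ t ∈ Icc C₀ T, S.U t ≤ 1 / 50 * (Real.exp (-(1.8 * (t - C₀))) + Real.exp (-(1.8 * (T - t)))) := by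
  intro t ht
  have hγ := S.hγ
  have hγ' := S.hγ'
  have hC : 0 < S.C := by linarith [S.hC]
  rcases lt_or_ge C₀ (-S.Lm) with hcase | hLmpos
  · by_cases htL : t ∈ Ioo (-S.Lm) S.Lp
    · have h1 := SA_left S hTL (fun x hx => h x ⟨hcase.le.trans hx.1, hx.2⟩) t ⟨htL.1.le, ht.2⟩
      have h2 := Real.exp_pos (-(1.8 * (t - C₀)))
      have h3 := Real.exp_pos (-(1.8 * (T - t)))
      linarith
    · rw [S.U_zero t htL]
      positivity
  have hm1 : C₀ ∈ Icc (-S.Lm) S.Lp := ⟨hLmpos, hT.trans hTL⟩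
  have hm2 : T ∈ Icc (-S.Lm) S.Lp := ⟨hLmpos.trans hT, hTL⟩
  have htm : t ∈ Icc (-S.Lm) S.Lp := ⟨hLmpos.trans ht.1, ht.2.trans hTL⟩
  have h1 := SA_max S hT hLmpos hTL h t ht
  have h2 : SA_rho S t ≤ 2 * Real.exp (-(1.98 * (t - C₀))) * SA_rho S C₀ +
      2 * Real.exp (-(1.98 * (T - t))) * SA_rho S T := by
    have e1 : SA_rho S t = √(SA_rho S t) ^ 2 := (Real.sq_sqrt (SA_rho_nonneg S t)).symm
    have e2 : ∀ s d : ℝ, (√(SA_rho S s) * Real.exp (-(0.99 * d))) ^ 2 =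
        Real.exp (-(1.98 * d)) * SA_rho S s := by
      intro s d
      rw [mul_pow, Real.sq_sqrt (SA_rho_nonneg S _), ← Real.exp_nat_mul, mul_comm]
      congr 2
      push_cast; ring
    have e3 := pow_le_pow_left₀ (Real.sqrt_nonneg _) h1 2
    rw [← e1] at e3
    have e4 := e2 C₀ (t - C₀)
    have e5 := e2 T (T - t)
    set A := √(SA_rho S C₀) * Real.exp (-(0.99 * (t - C₀)))
    set B := √(SA_rho S T) * Real.exp (-(0.99 * (T - t)))
    have e6 : (A + B) ^ 2 ≤ 2 * A ^ 2 + 2 * B ^ 2 := by nlinarith [sq_nonneg (A - B)]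
    rw [e4, e5] at e6
    linarith
  have hdX : 0 ≤ t - C₀ := by linarith [ht.1]
  have hdY : 0 ≤ T - t := by linarith [ht.2]
  have h3 : S.U t ^ (1 + S.γ) ≤ (1 / 50 * (Real.exp (-(1.8 * (t - C₀))) +
      Real.exp (-(1.8 * (T - t))))) ^ (1 + S.γ) := by
    rw [SA_U_eq S htm]
    calc S.γ / (S.C * (2 + S.γ)) * (SA_rho S t * Real.exp (2 * S.γ * t))
        ≤ S.γ / (S.C * (2 + S.γ)) * ((2 * Real.exp (-(1.98 * (t - C₀))) * SA_rho S C₀ +
      2 * Real.exp (-(1.98 * (T - t))) * SA_rho S T) *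
          Real.exp (2 * S.γ * t)) := by gcongr
      _ = S.γ / (S.C * (2 + S.γ)) * (2 * Real.exp (-(1.98 * (t - C₀))) * SA_rho S C₀ *
          Real.exp (2 * S.γ * t)) + S.γ / (S.C * (2 + S.γ)) * (2 * Real.exp (-(1.98 * (T - t))) *
          SA_rho S T * Real.exp (2 * S.γ * t)) := by ring
      _ ≤ (1 / 100) ^ (1 + S.γ) * (2 * Real.exp (-(1.98 * (t - C₀))) *
          Real.exp (2 * S.γ * (t - C₀))) + (1 / 100) ^ (1 + S.γ) *
          (2 * Real.exp (-(1.98 * (T - t))) * Real.exp (2 * S.γ * (t - T))) :=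
          add_le_add (SA_U_le S hm1 (h _ ⟨le_rfl, hT⟩) (by positivity))
            (SA_U_le S hm2 (h _ ⟨hT, le_rfl⟩) (by positivity))
      _ ≤ (1 / 100) ^ (1 + S.γ) * (2 * Real.exp (-(1.8 * (t - C₀)) * (1 + S.γ))) +
          (1 / 100) ^ (1 + S.γ) * (2 * Real.exp (-(1.8 * (T - t)) * (1 + S.γ))) := by
          refine add_le_add (mul_le_mul_of_nonneg_left ?_ (by positivity))
            (mul_le_mul_of_nonneg_left ?_ (by positivity))
          · rw [mul_assoc, ← Real.exp_add]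
            refine mul_le_mul_of_nonneg_left (Real.exp_le_exp.2 ?_) (by norm_num)
            have h5 : S.γ * (t - C₀) ≤ 1 / 100 * (t - C₀) := mul_le_mul_of_nonneg_right hγ' hdX
            nlinarith
          · rw [mul_assoc, ← Real.exp_add]
            refine mul_le_mul_of_nonneg_left (Real.exp_le_exp.2 ?_) (by norm_num)
            have h5 : S.γ * (T - t) ≤ 1 / 100 * (T - t) := mul_le_mul_of_nonneg_right hγ' hdY
            have h6 : 0 ≤ S.γ * (T - t) := mul_nonneg hγ.le hdY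
            nlinarith
      _ = (1 / 100) ^ (1 + S.γ) * (2 * (Real.exp (-(1.8 * (t - C₀))) ^ (1 + S.γ) +
          Real.exp (-(1.8 * (T - t))) ^ (1 + S.γ))) := by
          rw [Real.exp_mul, Real.exp_mul]; ring
      _ ≤ (1 / 100) ^ (1 + S.γ) * (2 ^ (1 + S.γ) * (Real.exp (-(1.8 * (t - C₀))) +
          Real.exp (-(1.8 * (T - t)))) ^ (1 + S.γ)) := by
          refine mul_le_mul_of_nonneg_left ?_ (by positivity)
          refine mul_le_mul ?_ ?_ (by positivity) (by positivity)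
          · have := Real.rpow_le_rpow_of_exponent_le (x := 2) (by norm_num)
              (show (1 : ℝ) ≤ 1 + S.γ by linarith)
            rwa [Real.rpow_one] at this
          · exact Real.add_rpow_le_rpow_add (Real.exp_pos _).le (Real.exp_pos _).le (by linarith)
      _ = (1 / 50 * (Real.exp (-(1.8 * (t - C₀))) +
      Real.exp (-(1.8 * (T - t))))) ^ (1 + S.γ) := by
          rw [← mul_assoc, ← Real.mul_rpow (by norm_num) (by norm_num),
            ← Real.mul_rpow (by norm_num) (by positivity)]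
          norm_num
  exact (Real.rpow_le_rpow_iff (SA_U_nonneg S t) (by positivity) (by linarith)).1 h3

theorem SA_int_exp_right (x y : ℝ) :
    ∫ t in x..y, Real.exp (-(1.8 * (y - t))) ≤ 1 := by
  have h : ∀ t ∈ uIcc x y, HasDerivAt (fun t => Real.exp (-(1.8 * (y - t))) / 1.8)
      (Real.exp (-(1.8 * (y - t)))) t := by
    intro t _
    have h1 : HasDerivAt (fun t : ℝ => -(1.8 * (y - t))) (-(1.8 * (-1))) t :=
      (((hasDerivAt_id' t).const_sub y).const_mul (1.8 : ℝ)).fun_neg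
    have h2 := h1.exp.div_const 1.8
    have e : Real.exp (-(1.8 * (y - t))) = Real.exp (-(1.8 * (y - t))) * (-(1.8 * (-1))) / 1.8 := by
      norm_num
    rw [e]
    exact h2
  rw [intervalIntegral.integral_eq_sub_of_hasDerivAt h
    (Continuous.intervalIntegrable (by fun_prop) _ _)]
  have h1 : (0 : ℝ) < Real.exp (-(1.8 * (y - x))) / 1.8 := by positivity
  have h2 : Real.exp (-(1.8 * (y - y))) / 1.8 ≤ 1 := by
    rw [sub_self, mul_zero, neg_zero, Real.exp_zero]; norm_num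
  linarith

theorem SA_int_exp_left (x y : ℝ) :
    ∫ t in x..y, Real.exp (-(1.8 * (t - x))) ≤ 1 := by
  have h : ∀ t ∈ uIcc x y, HasDerivAt (fun t => -(Real.exp (-(1.8 * (t - x))) / 1.8))
      (Real.exp (-(1.8 * (t - x)))) t := by
    intro t _
    have h1 : HasDerivAt (fun t : ℝ => -(1.8 * (t - x))) (-(1.8 * 1)) t :=
      (((hasDerivAt_id' t).sub_const x).const_mul (1.8 : ℝ)).fun_neg
    have h2 := (h1.exp.div_const 1.8).fun_neg
    have e : Real.exp (-(1.8 * (t - x))) = -(Real.exp (-(1.8 * (t - x))) * (-(1.8 * 1)) / 1.8) := by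
      generalize Real.exp (-(1.8 * (t - x))) = z
      ring
    rw [e]
    exact h2
  rw [intervalIntegral.integral_eq_sub_of_hasDerivAt h
    (Continuous.intervalIntegrable (by fun_prop) _ _)]
  have h1 : (0 : ℝ) < Real.exp (-(1.8 * (y - x))) / 1.8 := by positivity
  have h2 : Real.exp (-(1.8 * (x - x))) / 1.8 ≤ 1 := by
    rw [sub_self, mul_zero, neg_zero, Real.exp_zero]; norm_num
  linarith

theorem int_U (hK : 0 < K₁) (hC₀ : 0 < C₀) : ∃ Cu > 0, ∀ R ≥ C₀, ∀ S : SD K₁ C₀ R, ∀ T, C₀ ≤ T → T ≤ S.Lp →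
    (∀ x ∈ Icc C₀ T, S.U x ≤ 1 / 100) → (∫ x in (-S.Lm)..T, S.U x) ≤ Cu := by
  refine ⟨1 + 2 * C₀ * K₁, by positivity, fun R hR S T hT hTL h => ?_⟩
  have hLm := S.hLm
  have hc := S.cU
  have i : ∀ x y : ℝ, IntervalIntegrable S.U volume x y := fun x y => hc.intervalIntegrable x y
  rw [← intervalIntegral.integral_add_adjacent_intervals (i (-S.Lm) (-C₀)) (i (-C₀) T),
    ← intervalIntegral.integral_add_adjacent_intervals (i (-C₀) C₀) (i C₀ T)]
  have h1 : ∫ x in (-S.Lm)..(-C₀), S.U x ≤ 1 / 100 := by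
    have hle : -S.Lm ≤ -C₀ := by linarith
    calc ∫ x in (-S.Lm)..(-C₀), S.U x
        ≤ ∫ x in (-S.Lm)..(-C₀), 1 / 100 * Real.exp (-(1.8 * (-C₀ - x))) :=
          intervalIntegral.integral_mono_on hle (i _ _)
            (Continuous.intervalIntegrable (by fun_prop) _ _) (S.decay_left hC₀ hR)
      _ = 1 / 100 * ∫ x in (-S.Lm)..(-C₀), Real.exp (-(1.8 * (-C₀ - x))) :=
          intervalIntegral.integral_const_mul _ _
      _ ≤ 1 / 100 * 1 := mul_le_mul_of_nonneg_left (SA_int_exp_right _ _) (by norm_num)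
      _ = 1 / 100 := by norm_num
  have h2 : ∫ x in (-C₀)..C₀, S.U x ≤ 2 * C₀ * K₁ := by
    have hle : -C₀ ≤ C₀ := by linarith
    calc ∫ x in (-C₀)..C₀, S.U x ≤ ∫ _x in (-C₀)..C₀, K₁ :=
          intervalIntegral.integral_mono_on hle (i _ _) intervalIntegrable_const
            fun x _ => S.U_le x
      _ = 2 * C₀ * K₁ := by rw [intervalIntegral.integral_const, smul_eq_mul]; ring
  have h3 : ∫ x in C₀..T, S.U x ≤ 1 / 25 := by
    have c1 : Continuous fun x : ℝ => Real.exp (-(1.8 * (x - C₀))) := by fun_prop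
    have c2 : Continuous fun x : ℝ => Real.exp (-(1.8 * (T - x))) := by fun_prop
    calc ∫ x in C₀..T, S.U x
        ≤ ∫ x in C₀..T, 1 / 50 * (Real.exp (-(1.8 * (x - C₀))) + Real.exp (-(1.8 * (T - x)))) :=
          intervalIntegral.integral_mono_on hT (i _ _)
            (Continuous.intervalIntegrable (by fun_prop) _ _) (S.decay_gap hC₀ hT hTL h)
      _ = 1 / 50 * ((∫ x in C₀..T, Real.exp (-(1.8 * (x - C₀)))) +
            ∫ x in C₀..T, Real.exp (-(1.8 * (T - x)))) := by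
          rw [intervalIntegral.integral_const_mul, intervalIntegral.integral_add
            (c1.intervalIntegrable _ _) (c2.intervalIntegrable _ _)]
      _ ≤ 1 / 50 * (1 + 1) := mul_le_mul_of_nonneg_left
          (add_le_add (SA_int_exp_left _ _) (SA_int_exp_right _ _)) (by norm_num)
      _ = 1 / 25 := by norm_num
  linarith

end Pool.Agent.RLT40
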