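import Pool.Agent.RLT40.OdeA
import Pool.Agent.RLT40.SA

/-!
# Module SB (paper 5.2): solutions on the left of the bubble; the weights.

`f₀ ≤ C e^t` on `(-Lm, 0]`: `y = 1 - g₀/f₀` satisfies `y' = -(1+q₀) y + U`, so `∫ y_+ ≤ ∫ U ≤ C`, `f₀(t) = exp(-∫_t^0 q₀)`.
For `e ≥ 0`: Wronskian `W = g f₀ - f g₀`, `W' = e ω f f₀`, `W(-Lm) = 0`: `f > 0`, `q = g/f ≥ q₀ ≥ 0` on `(-Lm, 0]` (first zero argument), so `f ≤ f₀` there (both `1` at `0`) and
`g(0) = W(0) = e ∫ ω f f₀ ≤ C e`.  `B = Bco f g`: `B' = ½ e^{-t}(e ω - U) f`, `B(0) = ½(1+g(0))`, `g(-Lm) = 2 e^{-Lm} B(-Lm)`.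
weights: EL at `0` (upper bound); and at a point of `[-1,0]` with `U ≥ 1/2` (exists by `core2`, `∫_{-1}^0 2/cosh² = 2 tanh 1 > 1.5`), where `0 < φ_j ≤ f₀ ≤ C` (no bound on `e_j` needed).
-/

open MeasureTheory Set
open scoped ENNReal NNReal Topology

namespace Pool.Agent.RLT40

variable {K₁ C₀ : ℝ}

/-! ### general comparison -/

theorem sb_expneg (s : ℝ) : HasDerivAt (fun s => Real.exp (-s)) (-Real.exp (-s)) s := by
  refine (hasDerivAt_neg s).exp.congr_deriv ?_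
  ring

theorem sb_start {f g : ℝ → ℝ} {a : ℝ} (hf : HasDerivAt f (g a) a) (ha : f a = 0) (hg : 0 < g a) {b : ℝ} (hab : a < b) :
    ∃ s ∈ Ioo a b, ∀ t ∈ Ioc a s, 0 < f t := by
  have h1 : Filter.Tendsto (slope f a) (𝓝[>] a) (𝓝 (g a)) :=
    (hasDerivAt_iff_tendsto_slope.1 hf).mono_left (nhdsWithin_mono _ fun x (hx : a < x) => hx.ne')
  have h2 : ∀ᶠ t in 𝓝[>] a, 0 < slope f a t := h1.eventually (lt_mem_nhds hg)
  obtain ⟨u, hu, hu'⟩ := (mem_nhdsGT_iff_exists_Ioo_subset' hab).1 h2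
  have hua : a < u := hu
  refine ⟨min ((a + u) / 2) ((a + b) / 2), ⟨lt_min (by linarith) (by linarith), ?_⟩, ?_⟩
  · exact lt_of_le_of_lt (min_le_right _ _) (by linarith)
  · intro t ht
    have h3 : t ∈ Ioo a u := ⟨ht.1, lt_of_le_of_lt (ht.2.trans (min_le_left _ _)) (by linarith)⟩
    have h4 : 0 < slope f a t := hu' h3
    rw [slope_def_field, ha, sub_zero] at h4
    have h5 : 0 < t - a := sub_pos.2 ht.1
    exact (div_pos_iff_of_pos_right h5).1 h4

/-- comparison of two solutions vanishing at `a` -/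
theorem sb_comp {V V' f g f' g' : ℝ → ℝ} {a x : ℝ} (h : Sol V f g) (h' : Sol V' f' g')
    (hVV : ∀ t ∈ Ioo a x, V' t ≤ V t) (ha : f a = 0) (ha' : f' a = 0) (hga : 0 < g a)
    (hpos : ∀ t ∈ Ioo a x, 0 < f' t) :
    (∀ t ∈ Ioo a x, 0 < f t) ∧ (∀ t ∈ Icc a x, 0 ≤ g t * f' t - f t * g' t) := by
  have hW : ∀ t, HasDerivAt (fun t => g t * f' t - f t * g' t) ((V t - V' t) * (f t * f' t)) t := by
    intro t
    refine ((((h.d2 t).mul (h'.d1 t))).sub ((h.d1 t).mul (h'.d2 t))).congr_deriv ?_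
    ring
  have hWc : Continuous (fun t => g t * f' t - f t * g' t) :=
    continuous_iff_continuousAt.2 fun t => (hW t).continuousAt
  have key : ∀ z, (∀ t ∈ Ioo a z, 0 < f t) → z ≤ x → ∀ t ∈ Icc a z, 0 ≤ g t * f' t - f t * g' t := by
    intro z hz hzx t ht
    have hm : MonotoneOn (fun t => g t * f' t - f t * g' t) (Icc a z) := by
      refine monotoneOn_of_deriv_nonneg (convex_Icc _ _) hWc.continuousOn
        (fun y _ => (hW y).differentiableAt.differentiableWithinAt) ?_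
      intro y hy
      rw [interior_Icc] at hy
      rw [(hW y).deriv]
      have hy' : y ∈ Ioo a x := ⟨hy.1, lt_of_lt_of_le hy.2 hzx⟩
      exact mul_nonneg (sub_nonneg.2 (hVV y hy')) (mul_pos (hz y hy) (hpos y hy')).le
    have h1 := hm (left_mem_Icc.2 (ht.1.trans ht.2)) ht ht.1
    simp only [ha, ha', mul_zero, zero_mul, sub_zero] at h1
    exact h1
  have hfp : ∀ t ∈ Ioo a x, 0 < f t := by
    intro t ht
    by_contra hcon
    push Not at hcon
    obtain ⟨s, hs, hsp⟩ := sb_start (h.d1 a) ha hga ht.1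
    -- first zero after `s`
    set A : Set ℝ := {y | s ≤ y ∧ f y ≤ 0} with hA
    have hfc := h.continuous_left
    have hAc : IsClosed A := (isClosed_le continuous_const continuous_id).inter (isClosed_le hfc continuous_const)
    have hbd : BddBelow A := ⟨s, fun y hy => hy.1⟩
    have htA : t ∈ A := ⟨hs.2.le, hcon⟩
    have hz := hAc.csInf_mem ⟨t, htA⟩ hbd
    set z := sInf A with hzd
    have hzt : z ≤ t := csInf_le hbd htA
    have hfz : ∀ y ∈ Ioo a z, 0 < f y := by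
      intro y hy
      rcases le_or_gt y s with h1 | h1
      · exact hsp y ⟨hy.1, h1⟩
      · by_contra h2
        push Not at h2
        exact absurd (csInf_le hbd ⟨h1.le, h2⟩) (not_le.2 hy.2)
    have hsz : s < z := by
      rcases lt_or_eq_of_le hz.1 with h1 | h1
      · exact h1
      · have h2 := hz.2
        rw [← h1] at h2
        exact absurd (hsp s ⟨hs.1, le_rfl⟩) (not_lt.2 h2)
    have hWz := key z hfz (hzt.trans ht.2.le)
    have hsub : ∀ y ∈ Icc s z, y ∈ Ioo a x := fun y hy =>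
      ⟨lt_of_lt_of_le hs.1 hy.1, lt_of_le_of_lt (hy.2.trans hzt) ht.2⟩
    have hr : ∀ y ∈ Icc s z, HasDerivAt (fun y => f y / f' y) ((g y * f' y - f y * g' y) / f' y ^ 2) y :=
      fun y hy => (h.d1 y).div (h'.d1 y) (hpos y (hsub y hy)).ne'
    have hm : MonotoneOn (fun y => f y / f' y) (Icc s z) := by
      refine monotoneOn_of_deriv_nonneg (convex_Icc _ _) (fun y hy => (hr y hy).continuousAt.continuousWithinAt)
        (fun y hy => ?_) ?_
      · rw [interior_Icc] at hy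
        exact (hr y ⟨hy.1.le, hy.2.le⟩).differentiableAt.differentiableWithinAt
      · intro y hy
        rw [interior_Icc] at hy
        rw [(hr y ⟨hy.1.le, hy.2.le⟩).deriv]
        exact div_nonneg (hWz y ⟨(hs.1.trans hy.1).le, hy.2.le⟩) (sq_nonneg _)
    have h1 := hm (left_mem_Icc.2 hsz.le) (right_mem_Icc.2 hsz.le) hsz.le
    have h2 : 0 < f s / f' s := div_pos (hsp s ⟨hs.1, le_rfl⟩) (hpos s ⟨hs.1, hs.2.trans ht.2⟩)
    have h3 : f z / f' z ≤ 0 := div_nonpos_of_nonpos_of_nonneg hz.2 (hpos z (hsub z ⟨hsz.le, le_rfl⟩)).le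
    simp only at h1
    linarith
  exact ⟨hfp, key x hfp le_rfl⟩

/-- monotonicity of the ratio -/
theorem sb_ratio {V V' f g f' g' : ℝ → ℝ} {s t : ℝ} (h : Sol V f g) (h' : Sol V' f' g') (hst : s ≤ t)
    (hpos : ∀ y ∈ Icc s t, 0 < f' y) (hW : ∀ y ∈ Icc s t, 0 ≤ g y * f' y - f y * g' y) :
    f s / f' s ≤ f t / f' t := by
  have hr : ∀ y ∈ Icc s t, HasDerivAt (fun y => f y / f' y) ((g y * f' y - f y * g' y) / f' y ^ 2) y :=
    fun y hy => (h.d1 y).div (h'.d1 y) (hpos y hy).ne'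
  have hm : MonotoneOn (fun y => f y / f' y) (Icc s t) := by
    refine monotoneOn_of_deriv_nonneg (convex_Icc _ _) (fun y hy => (hr y hy).continuousAt.continuousWithinAt)
      (fun y hy => ?_) ?_
    · rw [interior_Icc] at hy
      exact (hr y ⟨hy.1.le, hy.2.le⟩).differentiableAt.differentiableWithinAt
    · intro y hy
      rw [interior_Icc] at hy
      rw [(hr y ⟨hy.1.le, hy.2.le⟩).deriv]
      exact div_nonneg (hW y ⟨hy.1.le, hy.2.le⟩) (sq_nonneg _)
  exact hm (left_mem_Icc.2 hst) (right_mem_Icc.2 hst) hst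

section General

variable {R : ℝ}

theorem sb_pot_cont {U : ℝ → ℝ} (hU : Continuous U) (k e : ℝ) : Continuous (pot k e U) := by
  unfold pot om
  fun_prop

theorem SD.sb_U_nonneg (S : SD K₁ C₀ R) (x : ℝ) : 0 ≤ S.U x := by
  by_cases hx : x ∈ Ioo (-S.Lm) S.Lp
  · exact (S.U_pos x hx).le
  · rw [S.U_zero x hx]

/-- the bubble at `0` is inside the box -/
theorem SD.sb_Lm_pos (S : SD K₁ C₀ R) : 0 < S.Lm := by
  by_contra hcon
  push Not at hcon
  have hd : ∀ x ∈ Iic (-S.Lm), HasDerivWithinAt (fun x => S.f₀ x ^ 2 - S.g₀ x ^ 2) 0 (Iic (-S.Lm)) x := by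
    intro x hx
    have h1 := ((S.sol₀.d1 x).pow 2).sub ((S.sol₀.d2 x).pow 2)
    have hU : S.U x = 0 := S.U_zero x (fun h => absurd h.1 (not_lt.2 hx))
    refine (h1.congr_deriv ?_).hasDerivWithinAt
    simp only [hU]
    push_cast
    ring
  have h0 : (0 : ℝ) ∈ Iic (-S.Lm) := by
    rw [mem_Iic]; linarith
  have h2 := (convex_Iic (-S.Lm)).norm_image_sub_le_of_norm_hasDerivWithin_le (C := 0) hd (fun y _ => by simp)
    h0 (mem_Iic.2 le_rfl)
  rw [zero_mul, norm_le_zero_iff, sub_eq_zero] at h2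
  simp only [S.f₀_left, S.f₀_zero, S.g₀_zero] at h2
  nlinarith [sq_nonneg (S.g₀ (-S.Lm))]

theorem SD.sb_pos (S : SD K₁ C₀ R) {e : ℝ} (he : 0 ≤ e) {f g : ℝ → ℝ} (h : Sol (pot 1 e S.U) f g)
    (hl : f (-S.Lm) = 0) (h0 : f 0 = 1) : 0 < g (-S.Lm) ∧ (∀ t ∈ Ioc (-S.Lm) 0, 0 < f t) ∧
      (∀ t ∈ Icc (-S.Lm) 0, 0 ≤ g t * S.f₀ t - f t * S.g₀ t) := by
  have hLm := S.sb_Lm_pos
  have hVV : ∀ t ∈ Ioo (-S.Lm) 0, (fun x => 1 - S.U x) t ≤ pot 1 e S.U t := by
    intro t _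
    unfold pot
    have : 0 ≤ e * om t := mul_nonneg he (Real.exp_pos _).le
    simp only
    linarith
  have hg : 0 < g (-S.Lm) := by
    have hne : g (-S.Lm) ≠ 0 := h.deriv_ne_zero (sb_pot_cont S.cU 1 e) ⟨0, by rw [h0]; exact one_ne_zero⟩ hl
    rcases lt_or_gt_of_ne hne with hlt | hgt
    · exfalso
      have h1 := (sb_comp (h.smul (-1)) S.sol₀ hVV (by simp [hl]) S.f₀_left (by simpa using hlt)
        (fun t ht => (S.f₀_pos t ht).1)).1
      have h2 : (0 : ℝ) ≤ -1 * f 0 := by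
        refine ge_of_tendsto (x := 𝓝[<] (0 : ℝ)) (((h.smul (-1)).continuous_left.tendsto 0).mono_left
          nhdsWithin_le_nhds) ?_
        filter_upwards [Ioo_mem_nhdsLT (by linarith : -S.Lm < 0)] with t ht
        exact (h1 t ht).le
      rw [h0] at h2
      linarith
    · exact hgt
  obtain ⟨h1, h2⟩ := sb_comp h S.sol₀ hVV hl S.f₀_left hg (fun t ht => (S.f₀_pos t ht).1)
  refine ⟨hg, fun t ht => ?_, h2⟩
  rcases lt_or_eq_of_le ht.2 with h3 | h3
  · exact h1 t ⟨ht.1, h3⟩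
  · rw [h3, h0]; exact one_pos

theorem SD.sb_f₀_pos (S : SD K₁ C₀ R) {t : ℝ} (ht : t ∈ Ioc (-S.Lm) 0) : 0 < S.f₀ t ∧ 0 ≤ S.g₀ t := by
  rcases lt_or_eq_of_le ht.2 with h3 | h3
  · exact ⟨(S.f₀_pos t ⟨ht.1, h3⟩).1, (S.f₀_pos t ⟨ht.1, h3⟩).2.le⟩
  · rw [h3, S.f₀_zero, S.g₀_zero]; exact ⟨one_pos, le_rfl⟩

theorem SD.sb_left (S : SD K₁ C₀ R) {e : ℝ} (he : 0 ≤ e) {f g : ℝ → ℝ} (h : Sol (pot 1 e S.U) f g)
    (hl : f (-S.Lm) = 0) (h0 : f 0 = 1) : ∀ t ∈ Ioc (-S.Lm) 0, 0 < f t ∧ 0 ≤ g t ∧ f t ≤ S.f₀ t := by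
  obtain ⟨_, hp, hW⟩ := S.sb_pos he h hl h0
  intro t ht
  have hf₀ := S.sb_f₀_pos ht
  refine ⟨hp t ht, ?_, ?_⟩
  · have h1 := hW t ⟨ht.1.le, ht.2⟩
    by_contra hcon
    push Not at hcon
    have h2 := mul_neg_of_neg_of_pos hcon hf₀.1
    have h3 := mul_nonneg (hp t ht).le hf₀.2
    linarith
  · have h1 := sb_ratio h S.sol₀ ht.2
      (fun y hy => (S.sb_f₀_pos ⟨lt_of_lt_of_le ht.1 hy.1, hy.2⟩).1)
      (fun y hy => hW y ⟨(lt_of_lt_of_le ht.1 hy.1).le, hy.2⟩)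
    rw [h0, S.f₀_zero, div_one, div_le_one hf₀.1] at h1
    exact h1

/-- the integral of `U` on the left of the bubble -/
theorem SD.sb_int (S : SD K₁ C₀ R) (hC₀ : 0 < C₀) (hR : C₀ ≤ R) {Cu : ℝ}
    (hCu : (∫ x in (-S.Lm)..C₀, S.U x) ≤ Cu) {t : ℝ} (ht : t ∈ Icc (-S.Lm) 0) : -(∫ x in (0 : ℝ)..t, S.U x) ≤ Cu := by
  have _ := hR
  rw [← intervalIntegral.integral_symm]
  refine le_trans ?_ hCu
  have hi : ∀ a b, IntervalIntegrable S.U volume a b := fun a b => S.cU.intervalIntegrable a b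
  have h1 : (∫ x in (-S.Lm)..C₀, S.U x) = (∫ x in (-S.Lm)..t, S.U x) + (∫ x in t..0, S.U x) + ∫ x in (0 : ℝ)..C₀, S.U x := by
    rw [intervalIntegral.integral_add_adjacent_intervals (hi _ _) (hi _ _),
      intervalIntegral.integral_add_adjacent_intervals (hi _ _) (hi _ _)]
  have h2 : 0 ≤ ∫ x in (-S.Lm)..t, S.U x :=
    intervalIntegral.integral_nonneg ht.1 fun x _ => S.sb_U_nonneg x
  have h3 : 0 ≤ ∫ x in (0 : ℝ)..C₀, S.U x :=
    intervalIntegral.integral_nonneg hC₀.le fun x _ => S.sb_U_nonneg x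
  rw [h1]
  linarith

/-- `f₀ ≤ e^{Cu} e^t` on `(-Lm, 0]` -/
theorem SD.sb_f₀_le (S : SD K₁ C₀ R) (hC₀ : 0 < C₀) (hR : C₀ ≤ R) {Cu : ℝ}
    (hCu : (∫ x in (-S.Lm)..C₀, S.U x) ≤ Cu) : ∀ t ∈ Ioc (-S.Lm) 0, S.f₀ t ≤ Real.exp Cu * Real.exp t := by
  have hLm := S.sb_Lm_pos
  -- `A = e^s (f₀ - g₀)` is monotone
  have hA : ∀ s, HasDerivAt (fun s => Real.exp s * (S.f₀ s - S.g₀ s)) (Real.exp s * (S.U s * S.f₀ s)) s := by
    intro s
    refine ((Real.hasDerivAt_exp s).mul ((S.sol₀.d1 s).sub (S.sol₀.d2 s))).congr_deriv ?_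
    simp only [Pi.sub_apply]
    ring
  have hAm : MonotoneOn (fun s => Real.exp s * (S.f₀ s - S.g₀ s)) (Icc (-S.Lm) 0) := by
    refine monotoneOn_of_deriv_nonneg (convex_Icc _ _) (fun y _ => (hA y).continuousAt.continuousWithinAt)
      (fun y _ => (hA y).differentiableAt.differentiableWithinAt) ?_
    intro y hy
    rw [interior_Icc] at hy
    rw [(hA y).deriv]
    exact mul_nonneg (Real.exp_pos _).le (mul_nonneg (S.sb_U_nonneg y) (S.sb_f₀_pos ⟨hy.1, hy.2.le⟩).1.le)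
  -- case `A t ≥ 0`
  have case1 : ∀ t ∈ Ioc (-S.Lm) 0, 0 ≤ Real.exp t * (S.f₀ t - S.g₀ t) → S.f₀ t ≤ Real.exp Cu * Real.exp t := by
    intro t ht hAt
    have hge : ∀ s ∈ Icc t 0, S.g₀ s ≤ S.f₀ s := by
      intro s hs
      have h1 := hAm ⟨ht.1.le, ht.2⟩ ⟨(lt_of_lt_of_le ht.1 hs.1).le, hs.2⟩ hs.1
      simp only at h1
      have h2 := hAt.trans h1
      have h3 := nonneg_of_mul_nonneg_right h2 (Real.exp_pos s)
      linarith
    have hΨ : ∀ s ∈ Icc t 0, HasDerivAt (fun s => Real.log (S.f₀ s) - s + S.g₀ s / S.f₀ s + ∫ x in (0 : ℝ)..s, S.U x)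
        (S.g₀ s / S.f₀ s * (1 - S.g₀ s / S.f₀ s)) s := by
      intro s hs
      have hp := (S.sb_f₀_pos ⟨lt_of_lt_of_le ht.1 hs.1, hs.2⟩).1
      have h1 := (((S.sol₀.d1 s).log hp.ne').sub (hasDerivAt_id s)).add ((S.sol₀.d2 s).div (S.sol₀.d1 s) hp.ne')
      have h2 := h1.add (S.cU.integral_hasStrictDerivAt 0 s).hasDerivAt
      refine h2.congr_deriv ?_
      field_simp
      ring
    have hm : MonotoneOn (fun s => Real.log (S.f₀ s) - s + S.g₀ s / S.f₀ s + ∫ x in (0 : ℝ)..s, S.U x) (Icc t 0) := by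
      refine monotoneOn_of_deriv_nonneg (convex_Icc _ _) (fun y hy => (hΨ y hy).continuousAt.continuousWithinAt)
        (fun y hy => ?_) ?_
      · rw [interior_Icc] at hy
        exact (hΨ y ⟨hy.1.le, hy.2.le⟩).differentiableAt.differentiableWithinAt
      · intro y hy
        rw [interior_Icc] at hy
        have hp := S.sb_f₀_pos ⟨ht.1.trans hy.1, hy.2.le⟩
        rw [(hΨ y ⟨hy.1.le, hy.2.le⟩).deriv]
        refine mul_nonneg (div_nonneg hp.2 hp.1.le) (sub_nonneg.2 ?_)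
        rw [div_le_one hp.1]
        exact hge y ⟨hy.1.le, hy.2.le⟩
    have h1 := hm (left_mem_Icc.2 ht.2) (right_mem_Icc.2 ht.2) ht.2
    simp only [S.f₀_zero, S.g₀_zero, Real.log_one, zero_div, intervalIntegral.integral_same, sub_zero, add_zero] at h1
    have h2 := S.sb_int hC₀ hR hCu ⟨ht.1.le, ht.2⟩
    have hp := S.sb_f₀_pos ht
    have h3 : 0 ≤ S.g₀ t / S.f₀ t := div_nonneg hp.2 hp.1.le
    have h4 : Real.log (S.f₀ t) ≤ Cu + t := by linarith
    rw [← Real.exp_add, ← Real.exp_log hp.1]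
    exact Real.exp_le_exp.2 h4
  intro t ht
  rcases le_or_gt 0 (Real.exp t * (S.f₀ t - S.g₀ t)) with hAt | hAt
  · exact case1 t ht hAt
  -- case `A t < 0`
  have hAc : Continuous (fun s => Real.exp s * (S.f₀ s - S.g₀ s)) :=
    continuous_iff_continuousAt.2 fun s => (hA s).continuousAt
  have h01 : (0 : ℝ) ≤ Real.exp 0 * (S.f₀ 0 - S.g₀ 0) := by
    rw [S.f₀_zero, S.g₀_zero, Real.exp_zero]; norm_num
  obtain ⟨r, hr, hr0⟩ := intermediate_value_Icc ht.2 hAc.continuousOn (mem_Icc.2 ⟨hAt.le, h01⟩)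
  have hr' : r ∈ Ioc (-S.Lm) 0 := ⟨lt_of_lt_of_le ht.1 hr.1, hr.2⟩
  simp only at hr0
  have h1 := case1 r hr' hr0.ge
  -- `e^{-s} f₀` is monotone on `[t, r]`
  have hh : ∀ s, HasDerivAt (fun s => Real.exp (-s) * S.f₀ s) (Real.exp (-s) * (S.g₀ s - S.f₀ s)) s := by
    intro s
    refine ((sb_expneg s).mul (S.sol₀.d1 s)).congr_deriv ?_
    ring
  have hm : MonotoneOn (fun s => Real.exp (-s) * S.f₀ s) (Icc t r) := by
    refine monotoneOn_of_deriv_nonneg (convex_Icc _ _) (fun y _ => (hh y).continuousAt.continuousWithinAt)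
      (fun y _ => (hh y).differentiableAt.differentiableWithinAt) ?_
    intro y hy
    rw [interior_Icc] at hy
    rw [(hh y).deriv]
    have h2 := hAm ⟨(ht.1.trans hy.1).le, (hy.2.trans_le hr.2).le⟩ ⟨hr'.1.le, hr'.2⟩ hy.2.le
    simp only [hr0] at h2
    have h3 : S.f₀ y - S.g₀ y ≤ 0 := by
      by_contra hc
      push Not at hc
      exact absurd (mul_pos (Real.exp_pos y) hc) (not_lt.2 h2)
    exact mul_nonneg (Real.exp_pos _).le (by linarith)
  have h2 := hm (left_mem_Icc.2 hr.1) (right_mem_Icc.2 hr.1) hr.1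
  simp only at h2
  have h3 : Real.exp (-r) * S.f₀ r ≤ Real.exp Cu := by
    calc Real.exp (-r) * S.f₀ r ≤ Real.exp (-r) * (Real.exp Cu * Real.exp r) :=
          mul_le_mul_of_nonneg_left h1 (Real.exp_pos _).le
      _ = Real.exp Cu * (Real.exp (-r) * Real.exp r) := by ring
      _ = Real.exp Cu := by rw [← Real.exp_add, neg_add_cancel, Real.exp_zero, mul_one]
  have h4 := h2.trans h3
  calc S.f₀ t = Real.exp t * (Real.exp (-t) * S.f₀ t) := by
        rw [← mul_assoc, ← Real.exp_add, add_neg_cancel, Real.exp_zero, one_mul]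
    _ ≤ Real.exp t * Real.exp Cu := mul_le_mul_of_nonneg_left h4 (Real.exp_pos _).le
    _ = Real.exp Cu * Real.exp t := mul_comm _ _

end General

theorem left_bounds (hK : 0 < K₁) (hC₀ : 0 < C₀) : ∃ Cl ≥ 1, ∃ cl > 0, cl ≤ 1 ∧ ∃ R₀ ≥ C₀, ∀ R ≥ R₀, ∀ S : SD K₁ C₀ R,
    ∀ e : ℝ, 0 ≤ e → ∀ f g : ℝ → ℝ, Sol (pot 1 e S.U) f g → f (-S.Lm) = 0 → f 0 = 1 →
      (∀ t ∈ Ioc (-S.Lm) 0, 0 < f t ∧ 0 ≤ g t ∧ f t ≤ Cl * Real.exp t) ∧ 0 ≤ g 0 ∧ g 0 ≤ Cl * e ∧
        (e ≤ cl → 1 / 2 * Real.exp (-S.Lm) ≤ g (-S.Lm) ∧ g (-S.Lm) ≤ Cl * Real.exp (-S.Lm)) := by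
  obtain ⟨Cu, hCu0, hCu⟩ := int_U hK hC₀
  set C := Real.exp Cu with hCd
  have hC1 : 1 ≤ C := Real.one_le_exp hCu0.le
  have hCpos : 0 < C := Real.exp_pos _
  refine ⟨1 + C + C ^ 2 + C * Cu, by nlinarith [mul_pos hCpos hCu0], 1 / C, by positivity, (div_le_one hCpos).2 hC1, C₀,
    le_rfl, ?_⟩
  intro R hR S e he f g hs hl h0
  have hLm := S.sb_Lm_pos
  have hint : (∫ x in (-S.Lm)..C₀, S.U x) ≤ Cu := hCu R hR S C₀ le_rfl
    (hR.le.trans S.hLp.le) (fun x hx => S.U_mid x hx.1 (hx.2.trans hR))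
  have hf₀ := S.sb_f₀_le hC₀ hR hint
  have hle := S.sb_left he hs hl h0
  have hfC : ∀ t ∈ Ioc (-S.Lm) 0, f t ≤ C * Real.exp t := fun t ht => (hle t ht).2.2.trans (hf₀ t ht)
  obtain ⟨hg, hp, hW⟩ := S.sb_pos he hs hl h0
  have hg0 : 0 ≤ g 0 := (hle 0 ⟨by linarith, le_rfl⟩).2.1
  have hC2 : 0 ≤ C * Cu := by positivity
  have hg0' : g 0 ≤ e * C ^ 2 / 4 := by
    have hd : ∀ t, HasDerivAt (fun t => g t * S.f₀ t - f t * S.g₀ t - e * C ^ 2 / 4 * Real.exp (4 * t))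
        (e * om t * (f t * S.f₀ t) - e * C ^ 2 * Real.exp (4 * t)) t := by
      intro t
      have h1 := ((hs.d2 t).mul (S.sol₀.d1 t)).sub ((hs.d1 t).mul (S.sol₀.d2 t))
      have h2 : HasDerivAt (fun t : ℝ => Real.exp (4 * t)) (Real.exp (4 * t) * (4 * 1)) t :=
        ((hasDerivAt_id t).const_mul 4).exp
      refine (h1.sub (h2.const_mul (e * C ^ 2 / 4))).congr_deriv ?_
      unfold pot
      ring
    have hm : AntitoneOn (fun t => g t * S.f₀ t - f t * S.g₀ t - e * C ^ 2 / 4 * Real.exp (4 * t)) (Icc (-S.Lm) 0) := by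
      refine antitoneOn_of_deriv_nonpos (convex_Icc _ _) (fun y _ => (hd y).continuousAt.continuousWithinAt)
        (fun y _ => (hd y).differentiableAt.differentiableWithinAt) ?_
      intro t ht
      rw [interior_Icc] at ht
      have ht' : t ∈ Ioc (-S.Lm) 0 := ⟨ht.1, ht.2.le⟩
      rw [(hd t).deriv, sub_nonpos]
      have h1 : f t * S.f₀ t ≤ (C * Real.exp t) * (C * Real.exp t) :=
        mul_le_mul (hfC t ht') (hf₀ t ht') (S.sb_f₀_pos ht').1.le (by positivity)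
      have h2 : Real.exp (4 * t) = om t * (Real.exp t * Real.exp t) := by
        unfold om
        rw [← Real.exp_add, ← Real.exp_add]
        congr 1
        ring
      have h3 : 0 ≤ e * om t := mul_nonneg he (Real.exp_pos _).le
      calc e * om t * (f t * S.f₀ t) ≤ e * om t * ((C * Real.exp t) * (C * Real.exp t)) :=
            mul_le_mul_of_nonneg_left h1 h3
        _ = e * C ^ 2 * Real.exp (4 * t) := by rw [h2]; ring
    have h1 := hm (left_mem_Icc.2 (by linarith)) (right_mem_Icc.2 (by linarith)) (by linarith : -S.Lm ≤ 0)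
    simp only [hl, h0, S.f₀_zero, S.g₀_zero, S.f₀_left, mul_zero, Real.exp_zero, mul_one, zero_mul, sub_zero,
      zero_sub] at h1
    have h2 : 0 ≤ e * C ^ 2 / 4 * Real.exp (4 * -S.Lm) := by positivity
    linarith
  refine ⟨fun t ht => ⟨(hle t ht).1, (hle t ht).2.1, (hfC t ht).trans ?_⟩, hg0, hg0'.trans ?_, ?_⟩
  · refine mul_le_mul_of_nonneg_right ?_ (Real.exp_pos _).le
    nlinarith [sq_nonneg C]
  · nlinarith [mul_nonneg he (sq_nonneg C), mul_nonneg he hC2, mul_nonneg he hCpos.le]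
  · intro hecl
    have heC : e * C ≤ 1 := by
      have := mul_le_mul_of_nonneg_right hecl hCpos.le
      rwa [one_div, inv_mul_cancel₀ hCpos.ne'] at this
    have he1 : e ≤ 1 := hecl.trans ((div_le_one hCpos).2 hC1)
    -- `B = e^{-t} (f + g)`
    have hB : ∀ t, HasDerivAt (fun t => Real.exp (-t) * (f t + g t)) (Real.exp (-t) * ((e * om t - S.U t) * f t)) t := by
      intro t
      refine ((sb_expneg t).mul ((hs.d1 t).add (hs.d2 t))).congr_deriv ?_
      unfold pot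
      simp only [Pi.add_apply]
      ring
    have hfe : ∀ t ∈ Ioc (-S.Lm) 0, Real.exp (-t) * f t ≤ C := by
      intro t ht
      calc Real.exp (-t) * f t ≤ Real.exp (-t) * (C * Real.exp t) :=
            mul_le_mul_of_nonneg_left (hfC t ht) (Real.exp_pos _).le
        _ = C * (Real.exp (-t) * Real.exp t) := by ring
        _ = C := by rw [← Real.exp_add, neg_add_cancel, Real.exp_zero, mul_one]
    have hfe0 : ∀ t ∈ Ioc (-S.Lm) 0, 0 ≤ Real.exp (-t) * f t := fun t ht =>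
      mul_nonneg (Real.exp_pos _).le (hp t ht).le
    -- lower bound
    have hd1 : ∀ t, HasDerivAt (fun t => Real.exp (-t) * (f t + g t) - e * C / 2 * Real.exp (2 * t))
        (Real.exp (-t) * ((e * om t - S.U t) * f t) - e * C * om t) t := by
      intro t
      have h2 : HasDerivAt (fun t : ℝ => Real.exp (2 * t)) (Real.exp (2 * t) * (2 * 1)) t :=
        ((hasDerivAt_id t).const_mul 2).exp
      refine ((hB t).sub (h2.const_mul (e * C / 2))).congr_deriv ?_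
      unfold om
      ring
    have hm1 : AntitoneOn (fun t => Real.exp (-t) * (f t + g t) - e * C / 2 * Real.exp (2 * t)) (Icc (-S.Lm) 0) := by
      refine antitoneOn_of_deriv_nonpos (convex_Icc _ _) (fun y _ => (hd1 y).continuousAt.continuousWithinAt)
        (fun y _ => (hd1 y).differentiableAt.differentiableWithinAt) ?_
      intro t ht
      rw [interior_Icc] at ht
      have ht' : t ∈ Ioc (-S.Lm) 0 := ⟨ht.1, ht.2.le⟩
      rw [(hd1 t).deriv]
      have h3 : 0 ≤ e * om t := mul_nonneg he (Real.exp_pos _).le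
      have h4 := mul_le_mul_of_nonneg_left (hfe t ht') h3
      have h5 := mul_nonneg (S.sb_U_nonneg t) (hfe0 t ht')
      linarith
    have h1 := hm1 (left_mem_Icc.2 (by linarith)) (right_mem_Icc.2 (by linarith)) (by linarith : -S.Lm ≤ 0)
    simp only [hl, h0, neg_zero, Real.exp_zero, one_mul, mul_zero, mul_one, zero_add, neg_neg] at h1
    have h2 : 0 ≤ e * C / 2 * Real.exp (2 * -S.Lm) := by positivity
    -- upper bound
    have hd2 : ∀ t, HasDerivAt (fun t => Real.exp (-t) * (f t + g t) + C * ∫ x in (0 : ℝ)..t, S.U x)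
        (Real.exp (-t) * ((e * om t - S.U t) * f t) + C * S.U t) t := by
      intro t
      exact (hB t).add ((S.cU.integral_hasStrictDerivAt 0 t).hasDerivAt.const_mul C)
    have hm2 : MonotoneOn (fun t => Real.exp (-t) * (f t + g t) + C * ∫ x in (0 : ℝ)..t, S.U x) (Icc (-S.Lm) 0) := by
      refine monotoneOn_of_deriv_nonneg (convex_Icc _ _) (fun y _ => (hd2 y).continuousAt.continuousWithinAt)
        (fun y _ => (hd2 y).differentiableAt.differentiableWithinAt) ?_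
      intro t ht
      rw [interior_Icc] at ht
      have ht' : t ∈ Ioc (-S.Lm) 0 := ⟨ht.1, ht.2.le⟩
      rw [(hd2 t).deriv]
      have h3 : 0 ≤ e * om t := mul_nonneg he (Real.exp_pos _).le
      have h4 := mul_nonneg h3 (hfe0 t ht')
      have h5 := mul_le_mul_of_nonneg_left (hfe t ht') (S.sb_U_nonneg t)
      linarith
    have h3 := hm2 (left_mem_Icc.2 (by linarith)) (right_mem_Icc.2 (by linarith)) (by linarith : -S.Lm ≤ 0)
    simp only [hl, h0, neg_zero, Real.exp_zero, one_mul, zero_add, neg_neg,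
      intervalIntegral.integral_same, mul_zero, add_zero] at h3
    have h4 := S.sb_int hC₀ hR hint (t := -S.Lm) ⟨le_rfl, by linarith⟩
    have h5 : -(C * ∫ x in (0 : ℝ)..(-S.Lm), S.U x) ≤ C * Cu := by
      have := mul_le_mul_of_nonneg_left h4 hCpos.le
      linarith
    have hinv : Real.exp (-S.Lm) * (Real.exp S.Lm * g (-S.Lm)) = g (-S.Lm) := by
      rw [← mul_assoc, ← Real.exp_add, neg_add_cancel, Real.exp_zero, one_mul]
    constructor
    · have h6 : 1 / 2 ≤ Real.exp S.Lm * g (-S.Lm) := by linarith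
      calc 1 / 2 * Real.exp (-S.Lm) = Real.exp (-S.Lm) * (1 / 2) := mul_comm _ _
        _ ≤ Real.exp (-S.Lm) * (Real.exp S.Lm * g (-S.Lm)) := mul_le_mul_of_nonneg_left h6 (Real.exp_pos _).le
        _ = g (-S.Lm) := hinv
    · have h6 : Real.exp S.Lm * g (-S.Lm) ≤ 1 + C + C ^ 2 + C * Cu := by
        have h7 : e * C ^ 2 / 4 ≤ C := by nlinarith [mul_le_mul_of_nonneg_right heC hCpos.le]
        nlinarith [sq_nonneg C]
      calc g (-S.Lm) = Real.exp (-S.Lm) * (Real.exp S.Lm * g (-S.Lm)) := hinv.symm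
        _ ≤ Real.exp (-S.Lm) * (1 + C + C ^ 2 + C * Cu) := mul_le_mul_of_nonneg_left h6 (Real.exp_pos _).le
        _ = (1 + C + C ^ 2 + C * Cu) * Real.exp (-S.Lm) := mul_comm _ _

/-- monotonicity in the energy: `0 ≤ e' ≤ e`, both normalised at `0`: as long as the less positive solution `f'` is positive, `f ≥ f'` to the right of `0` and `g/f ≥ g'/f'` -/
theorem ratio_mono {R : ℝ} (S : SD K₁ C₀ R) {e e' : ℝ} (he : 0 ≤ e') (hee : e' ≤ e) {f g f' g' : ℝ → ℝ}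
    (h : Sol (pot 1 e S.U) f g) (h' : Sol (pot 1 e' S.U) f' g') (hl : f (-S.Lm) = 0) (hl' : f' (-S.Lm) = 0) (h0 : f 0 = 1) (h0' : f' 0 = 1)
    {x : ℝ} (hx : -S.Lm < x) (hpos : ∀ t ∈ Ioo (-S.Lm) x, 0 < f' t) :
    (∀ t ∈ Ioo (-S.Lm) x, 0 < f t ∧ g' t * f t ≤ g t * f' t) ∧ (∀ t ∈ Ico 0 x, f' t ≤ f t) ∧
      (0 < x → e' < e → 0 < f x) := by
  have hLm := S.sb_Lm_pos
  obtain ⟨hg, _, _⟩ := S.sb_pos (he.trans hee) h hl h0
  obtain ⟨hp, hW⟩ := sb_comp h h' (fun t _ => by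
    unfold pot
    have := mul_le_mul_of_nonneg_right hee (Real.exp_pos (2 * t)).le
    unfold om
    linarith) hl hl' hg hpos
  have h2 : ∀ t ∈ Ico 0 x, f' t ≤ f t := by
    intro t ht
    have hsub : ∀ y ∈ Icc 0 t, y ∈ Ioo (-S.Lm) x := fun y hy =>
      ⟨by linarith [hy.1], lt_of_le_of_lt hy.2 ht.2⟩
    have h1 := sb_ratio h h' ht.1 (fun y hy => hpos y (hsub y hy))
      (fun y hy => hW y ⟨(hsub y hy).1.le, (hsub y hy).2.le⟩)
    rw [h0, h0', div_one, le_div_iff₀ (hpos t (hsub t ⟨ht.1, le_rfl⟩)), one_mul] at h1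
    exact h1
  refine ⟨fun t ht => ⟨hp t ht, ?_⟩, h2, ?_⟩
  · have := hW t ⟨ht.1.le, ht.2.le⟩
    linarith
  · intro hx0 hlt
    have hlim : ∀ {k : ℝ → ℝ}, Continuous k → (∀ t ∈ Ioo 0 x, 0 ≤ k t) → 0 ≤ k x := by
      intro k hk hk0
      refine ge_of_tendsto (x := 𝓝[<] x) ((hk.tendsto x).mono_left nhdsWithin_le_nhds) ?_
      filter_upwards [Ioo_mem_nhdsLT hx0] with t ht
      exact hk0 t ht
    have hfx : 0 ≤ f x := hlim h.continuous_left fun t ht => (hp t ⟨by linarith [ht.1], ht.2⟩).le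
    refine lt_of_le_of_ne hfx fun hfx0 => ?_
    have hf'x : 0 ≤ f' x := hlim h'.continuous_left fun t ht => (hpos t ⟨by linarith [ht.1], ht.2⟩).le
    have hff' : 0 ≤ f x - f' x := hlim (k := fun t => f t - f' t) (h.continuous_left.sub h'.continuous_left)
      fun t ht => sub_nonneg.2 (h2 t ⟨ht.1.le, ht.2⟩)
    have hf'x0 : f' x = 0 := by linarith
    have hWd : ∀ t, HasDerivAt (fun t => g t * f' t - f t * g' t) ((e - e') * om t * (f t * f' t)) t := by
      intro t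
      refine ((((h.d2 t).mul (h'.d1 t))).sub ((h.d1 t).mul (h'.d2 t))).congr_deriv ?_
      unfold pot
      ring
    have hm : StrictMonoOn (fun t => g t * f' t - f t * g' t) (Icc (-S.Lm) x) := by
      refine strictMonoOn_of_deriv_pos (convex_Icc _ _) (fun y _ => (hWd y).continuousAt.continuousWithinAt) ?_
      intro t ht
      rw [interior_Icc] at ht
      rw [(hWd t).deriv]
      exact mul_pos (mul_pos (sub_pos.2 hlt) (Real.exp_pos _)) (mul_pos (hp t ht) (hpos t ht))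
    have h1 := hm (left_mem_Icc.2 hx.le) (right_mem_Icc.2 hx.le) hx
    simp only [hl, hl', ← hfx0, hf'x0, mul_zero, zero_mul, sub_zero, lt_irrefl] at h1

end Pool.Agent.RLT40
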