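import Pool.Agent.RLT40.SBa

/-!
# Module SB (paper 5.2): solutions on the left of the bubble; the weights.

`f₀ ≤ C e^t` on `(-Lm, 0]`: `y = 1 - g₀/f₀` satisfies `y' = -(1+q₀) y + U`, so `∫ y_+ ≤ ∫ U ≤ C`, `f₀(t) = exp(-∫_t^0 q₀)`.
For `e ≥ 0`: Wronskian `W = g f₀ - f g₀`, `W' = e ω f f₀`, `W(-Lm) = 0`: `f > 0`, `q = g/f ≥ q₀ ≥ 0` on `(-Lm, 0]` (first zero argument), so `f ≤ f₀` there (both `1` at `0`) and
`g(0) = W(0) = e ∫ ω f f₀ ≤ C e`.  `B = Bco f g`: `B' = ½ e^{-t}(e ω - U) f`, `B(0) = ½(1+g(0))`, `g(-Lm) = 2 e^{-Lm} B(-Lm)`.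
weights: EL at `0` (upper bound); and at a point of `[-1,0]` with `U ≥ 1/2` (exists by `core2`, `∫_{-1}^0 2/cosh² = 2 tanh 1 > 1.5`), where `0 < φ_j ≤ f₀ ≤ C` (no bound on `e_j` needed).
-/

open MeasureTheory Set
open scoped ENNReal NNReal

namespace Pool.Agent.RLT40

variable {K₁ C₀ : ℝ}

theorem sbb_cosh {x : ℝ} (hx : x ∈ Icc (-1 : ℝ) 0) : 4 / 5 ≤ 2 / Real.cosh x ^ 2 := by
  have h1 : Real.cosh x ≤ Real.cosh 1 := by
    rw [Real.cosh_le_cosh, abs_one, abs_le]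
    exact ⟨hx.1, by linarith [hx.2]⟩
  have h2 : Real.cosh 1 < 1.58 := by
    rw [Real.cosh_eq, Real.exp_neg]
    have h3 := Real.exp_one_lt_d9
    have h4 := Real.exp_one_gt_d9
    have h5 : (Real.exp 1)⁻¹ < 0.4 := by
      rw [inv_lt_comm₀ (Real.exp_pos 1) (by norm_num)]
      norm_num
      linarith
    linarith
  have h3 : 0 < Real.cosh x := Real.cosh_pos x
  rw [le_div_iff₀ (by positivity)]
  nlinarith

/-- there is a point of `[-1, 0]` with `U ≥ 1/2` -/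
theorem SD.sbb_point {R : ℝ} (S : SD K₁ C₀ R) (hR : 12 ≤ R) : ∃ x ∈ Icc (-1 : ℝ) 0, 1 / 2 ≤ S.U x := by
  by_contra hcon
  push Not at hcon
  have hc : Continuous (fun x => (S.U x - 2 / Real.cosh x ^ 2) ^ 2) := by
    refine (S.cU.sub (continuous_const.div (Real.continuous_cosh.pow 2) fun x => ?_)).pow 2
    exact pow_ne_zero _ (Real.cosh_pos x).ne'
  have h1 : ∫ x in (-1 : ℝ)..0, (9 / 100 : ℝ) ≤ ∫ x in (-1 : ℝ)..0, (S.U x - 2 / Real.cosh x ^ 2) ^ 2 := by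
    refine intervalIntegral.integral_mono_on (by norm_num) (by simp) (hc.intervalIntegrable _ _) ?_
    intro x hx
    have h2 := sbb_cosh hx
    have h3 := hcon x hx
    nlinarith
  have h2 : ∫ x in (-1 : ℝ)..0, (S.U x - 2 / Real.cosh x ^ 2) ^ 2 ≤
      ∫ x in (-R)..R, (S.U x - 2 / Real.cosh x ^ 2) ^ 2 :=
    intervalIntegral.integral_mono_interval (by linarith) (by norm_num) (by linarith)
      (Filter.Eventually.of_forall fun x => sq_nonneg _) (hc.intervalIntegrable _ _)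
  have h3 := S.core2
  have h4 : 1 / R ≤ 1 / 12 := one_div_le_one_div_of_le (by norm_num) hR
  simp only [intervalIntegral.integral_const, smul_eq_mul] at h1
  norm_num at h1
  linarith

theorem weights (hK : 0 < K₁) (hC₀ : 0 < C₀) : ∃ c > 0, ∃ C > 0, ∃ R₀ ≥ C₀, ∀ R ≥ R₀, ∀ S : SD K₁ C₀ R,
    c ≤ S.γ * ∑ j ∈ Finset.range S.N, S.α j ∧ S.γ * ∑ j ∈ Finset.range S.N, S.α j ≤ C := by
  obtain ⟨Cl, hCl, cl, _, _, R₁, hR₁, hl⟩ := left_bounds hK hC₀
  have hCl0 : 0 < Cl := lt_of_lt_of_le one_pos hCl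
  refine ⟨1 / (16 * Cl ^ 2), by positivity, 3 / 16 * 3 * max 1 K₁ ^ 2, by positivity, max R₁ 12,
    hR₁.le.trans (le_max_left _ _), ?_⟩
  intro R hR S
  have hRR₁ : R₁ ≤ R := (le_max_left _ _).trans hR
  have hR12 : 12 ≤ R := (le_max_right _ _).trans hR
  have hLm := S.hLm
  have hLp := S.hLp
  have hγ := S.hγ
  have hγ' := S.hγ'
  have hC := S.hC
  have hC' := S.hC'
  constructor
  · obtain ⟨x, hx, hxU⟩ := S.sbb_point hR12
    have hxI : x ∈ Icc (-S.Lm) S.Lp := ⟨by linarith [hx.1], by linarith [hx.2]⟩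
    have hxI' : x ∈ Ioc (-S.Lm) 0 := ⟨by linarith [hx.1], hx.2⟩
    have hel := S.el x hxI
    have h1 : ∑ j ∈ Finset.range S.N, S.α j * S.φ j x ^ 2 ≤ ∑ j ∈ Finset.range S.N, S.α j * Cl ^ 2 := by
      refine Finset.sum_le_sum fun j hj => ?_
      have hj' := Finset.mem_range.1 hj
      have h2 := (hl R hRR₁ S (S.e j) (S.e_pos j hj').le (S.φ j) (S.dφ j) (S.sol j hj') (S.φ_left j hj')
        (S.φ_zero j hj')).1 x hxI'
      refine mul_le_mul_of_nonneg_left ?_ (S.α_pos j hj').le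
      have h3 : S.φ j x ≤ Cl := by
        refine h2.2.2.trans ?_
        have : Real.exp x ≤ 1 := Real.exp_le_one_iff.2 hx.2
        nlinarith
      exact pow_le_pow_left₀ h2.1.le h3 2
    rw [← Finset.sum_mul] at h1
    have h2 : 1 / 16 ≤ S.γ * ∑ j ∈ Finset.range S.N, S.α j * S.φ j x ^ 2 := by
      rw [hel]
      have h3 : (1 / 4 : ℝ) ≤ S.U x ^ (1 + S.γ) := by
        calc (1 / 4 : ℝ) = (1 / 2) ^ (2 : ℝ) := by norm_num
          _ ≤ (1 / 2) ^ (1 + S.γ) :=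
              Real.rpow_le_rpow_of_exponent_ge (by norm_num) (by norm_num) (by linarith)
          _ ≤ S.U x ^ (1 + S.γ) := Real.rpow_le_rpow (by norm_num) hxU (by linarith)
      have h4 : 1 ≤ Real.exp (-(2 * S.γ * x)) := by
        apply Real.one_le_exp
        have := mul_nonneg (mul_nonneg zero_le_two hγ.le) (neg_nonneg.2 hx.2)
        linarith
      have h5 : 1 / 4 ≤ S.C * (2 + S.γ) := by nlinarith
      calc (1 / 16 : ℝ) = 1 / 4 * (1 / 4) * 1 := by norm_num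
        _ ≤ S.C * (2 + S.γ) * S.U x ^ (1 + S.γ) * Real.exp (-(2 * S.γ * x)) := by
            refine mul_le_mul (mul_le_mul h5 h3 (by norm_num) (by nlinarith)) h4 (by norm_num) ?_
            have : 0 ≤ S.U x ^ (1 + S.γ) := le_trans (by norm_num) h3
            have h6 : 0 ≤ S.C * (2 + S.γ) := le_trans (by norm_num) h5
            exact mul_nonneg h6 this
    have h3 := mul_le_mul_of_nonneg_left h1 hγ.le
    rw [div_le_iff₀ (by positivity)]
    have h4 := h2.trans h3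
    linarith
  · have h0I : (0 : ℝ) ∈ Icc (-S.Lm) S.Lp := ⟨by linarith, by linarith⟩
    have hel := S.el 0 h0I
    have h1 : ∑ j ∈ Finset.range S.N, S.α j * S.φ j 0 ^ 2 = ∑ j ∈ Finset.range S.N, S.α j :=
      Finset.sum_congr rfl fun j hj => by rw [S.φ_zero j (Finset.mem_range.1 hj)]; ring
    rw [h1, mul_zero, neg_zero, Real.exp_zero, mul_one] at hel
    rw [hel]
    have hm1 : 1 ≤ max 1 K₁ := le_max_left _ _
    have h2 : S.U 0 ^ (1 + S.γ) ≤ max 1 K₁ ^ 2 := by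
      calc S.U 0 ^ (1 + S.γ) ≤ max 1 K₁ ^ (1 + S.γ) :=
            Real.rpow_le_rpow (S.sb_U_nonneg 0) ((S.U_le 0).trans (le_max_right _ _)) (by linarith)
        _ ≤ max 1 K₁ ^ (2 : ℝ) := Real.rpow_le_rpow_of_exponent_le hm1 (by linarith)
        _ = max 1 K₁ ^ 2 := by norm_cast
    have h3 : 0 ≤ S.U 0 ^ (1 + S.γ) := Real.rpow_nonneg (S.sb_U_nonneg 0) _
    have h4 : S.C * (2 + S.γ) ≤ 3 / 16 * 3 := by nlinarith
    exact mul_le_mul h4 h2 h3 (by norm_num)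

end Pool.Agent.RLT40
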