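import Pool.Agent.RLT40.SDef

/-!
# Module SC (paper 5.3): the pressure identity.

`P_j' = -2 U φ_j φ_j' - 2 e_j ω φ_j²`; on `(-Lm, Lp)` `U = (γ ρ e^{2γt}/(C(2+γ)))^{1/(1+γ)}` is differentiable and
`(1+γ) C (U^{2+γ} e^{-2γt})' = γ U ρ' + 2γ C U^{2+γ} e^{-2γt}`; so `Z' = 2γ C U^{2+γ} e^{-2γt} - 2γ ω Σ α_j e_j φ_j²`.  `Z(-Lm) = Wl`, `Z(Lp) = Wr`, and `sum_eq`, `norm` give `Wl = Wr`.
`U1`: the same computation for `ρ_1 = α_0 φ_0²` (used in SN).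
-/

open MeasureTheory Set
open scoped ENNReal NNReal

namespace Pool.Agent.RLT40

variable {K₁ C₀ R : ℝ}

/-- the potential generated by a density: `h_t(r) = (γ r e^{2γt}/(C(2+γ)))^{1/(1+γ)}` -/
noncomputable def SD.h (S : SD K₁ C₀ R) (t r : ℝ) : ℝ :=
  (S.γ * r * Real.exp (2 * S.γ * t) / (S.C * (2 + S.γ))) ^ (1 / (1 + S.γ))

/-- potential of the ground state density -/
noncomputable def SD.U1 (S : SD K₁ C₀ R) (t : ℝ) : ℝ := S.h t (S.α 0 * S.φ 0 t ^ 2)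

/-- density of the excited states -/
noncomputable def SD.rhog (S : SD K₁ C₀ R) (t : ℝ) : ℝ := ∑ j ∈ Finset.Ico 1 S.N, S.α j * S.φ j t ^ 2

/-- derivative of the density of the excited states -/
noncomputable def SD.drhog (S : SD K₁ C₀ R) (t : ℝ) : ℝ := ∑ j ∈ Finset.Ico 1 S.N, 2 * S.α j * (S.φ j t * S.dφ j t)

end Pool.Agent.RLT40
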