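import Pool.Agent.RLT40.SCa
import Pool.Agent.RLT40.SCdefs

/-!
# Module SC (paper 5.3): the pressure identity.

`P_j' = -2 U φ_j φ_j' - 2 e_j ω φ_j²`; on `(-Lm, Lp)` `U = (γ ρ e^{2γt}/(C(2+γ)))^{1/(1+γ)}` is differentiable and
`(1+γ) C (U^{2+γ} e^{-2γt})' = γ U ρ' + 2γ C U^{2+γ} e^{-2γt}`; so `Z' = 2γ C U^{2+γ} e^{-2γt} - 2γ ω Σ α_j e_j φ_j²`.  `Z(-Lm) = Wl`, `Z(Lp) = Wr`, and `sum_eq`, `norm` give `Wl = Wr`.
`U1`: the same computation for `ρ_1 = α_0 φ_0²` (used in SN).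
-/

open MeasureTheory Set
open scoped ENNReal NNReal

namespace Pool.Agent.RLT40

variable {K₁ C₀ R : ℝ}

theorem SD.U_eq_h (S : SD K₁ C₀ R) {t : ℝ} (ht : t ∈ Icc (-S.Lm) S.Lp) :
    S.U t = S.h t (∑ j ∈ Finset.range S.N, S.α j * S.φ j t ^ 2) := by
  have hC := SCa_Cpos S
  have hγ := S.hγ
  have h := S.el t ht
  have hE : Real.exp (-(2 * S.γ * t)) * Real.exp (2 * S.γ * t) = 1 := by
    rw [← Real.exp_add]; simp
  have hU := SCa_U_nonneg S t
  have e1 : S.γ * (∑ j ∈ Finset.range S.N, S.α j * S.φ j t ^ 2) * Real.exp (2 * S.γ * t) /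
      (S.C * (2 + S.γ)) = S.U t ^ (1 + S.γ) := by
    rw [h, div_eq_iff (by positivity)]
    linear_combination (S.C * (2 + S.γ) * S.U t ^ (1 + S.γ)) * hE
  rw [SD.h, e1, ← Real.rpow_mul hU, mul_one_div_cancel (by linarith), Real.rpow_one]

theorem SCb_h_eq (S : SD K₁ C₀ R) (t r : ℝ) : S.h t r =
    (S.γ * Real.exp (2 * S.γ * t) / (S.C * (2 + S.γ)) * r) ^ (1 / (1 + S.γ)) := by
  rw [SD.h]
  congr 1
  ring

theorem SD.h_props (S : SD K₁ C₀ R) (t : ℝ) {r r' : ℝ} (hr : 0 ≤ r) (hr' : 0 ≤ r') :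
    0 ≤ S.h t r ∧ (r ≤ r' → S.h t r ≤ S.h t r') ∧ S.h t (r + r') ≤ S.h t r + S.h t r' ∧
      S.h t r ^ (2 + S.γ) + S.h t r' ^ (2 + S.γ) ≤ S.h t (r + r') ^ (2 + S.γ) ∧
      (0 < r → S.h t (r + r') - S.h t r ≤ S.h t r / ((1 + S.γ) * r) * r') := by
  have hC := SCa_Cpos S
  have hγ := S.hγ
  set K : ℝ := S.γ * Real.exp (2 * S.γ * t) / (S.C * (2 + S.γ)) with hK
  have hK0 : 0 < K := by positivity
  set θ : ℝ := 1 / (1 + S.γ) with hθ
  have hθ0 : 0 < θ := by positivity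
  have hθ1 : θ ≤ 1 := by
    rw [hθ, div_le_one (by linarith)]; linarith
  have hh : ∀ r, S.h t r = (K * r) ^ θ := fun r => SCb_h_eq S t r
  have hKr : 0 ≤ K * r := by positivity
  have hKr' : 0 ≤ K * r' := by positivity
  simp only [hh]
  refine ⟨by positivity, fun h => ?_, ?_, ?_, fun h0 => ?_⟩
  · exact Real.rpow_le_rpow hKr (by gcongr) hθ0.le
  · rw [mul_add]
    exact Real.rpow_add_le_add_rpow hKr hKr' hθ0.le hθ1
  · rw [← Real.rpow_mul hKr, ← Real.rpow_mul hKr', ← Real.rpow_mul (by positivity), mul_add K]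
    refine Real.add_rpow_le_rpow_add hKr hKr' ?_
    rw [hθ, div_mul_eq_mul_div, one_mul, le_div_iff₀ (by linarith)]
    linarith
  · have h1 : K * (r + r') = K * r * (1 + r' / r) := by
      field_simp
    have h2 : 0 ≤ 1 + r' / r := by positivity
    have h3 : (1 + r' / r) ^ θ ≤ 1 + θ * (r' / r) :=
      rpow_one_add_le_one_add_mul_self (by
        have : 0 ≤ r' / r := by positivity
        linarith) hθ0.le hθ1
    rw [h1, Real.mul_rpow hKr h2]
    have h4 : 0 ≤ (K * r) ^ θ := by positivity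
    have h5 : (K * r) ^ θ * (1 + r' / r) ^ θ ≤ (K * r) ^ θ * (1 + θ * (r' / r)) := by gcongr
    have h6 : (K * r) ^ θ * (1 + θ * (r' / r)) - (K * r) ^ θ =
        (K * r) ^ θ / ((1 + S.γ) * r) * r' := by
      rw [hθ]
      field_simp
      ring
    linarith

/-- derivative of the local pressure of a density -/
theorem SCb_F {γ C : ℝ} (hγ : 0 < γ) (hC : 0 < C) {V ρ : ℝ → ℝ} {ρ' x : ℝ}
    (hρ : HasDerivAt ρ ρ' x)
    (hev : ∀ᶠ t in nhds x, 0 < V t ∧ γ * ρ t * Real.exp (2 * γ * t) / (C * (2 + γ)) =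
      V t ^ (1 + γ)) :
    HasDerivAt (fun t => (1 + γ) * C * V t ^ (2 + γ) * Real.exp (-(2 * γ * t)))
      (γ * V x * ρ' + 2 * γ * (C * (V x ^ (2 + γ) * Real.exp (-(2 * γ * x))))) x := by
  set Q : ℝ → ℝ := fun t => γ * ρ t * Real.exp (2 * γ * t) / (C * (2 + γ)) with hQ
  obtain ⟨hUx, hQx'⟩ := hev.self_of_nhds
  have hQx0 : Q x = V x ^ (1 + γ) := hQx'
  have hQx : 0 < Q x := by rw [hQx0]; positivity
  have hQd : HasDerivAt Q (γ * Real.exp (2 * γ * x) * (ρ' + 2 * γ * ρ x) /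
      (C * (2 + γ))) x := by
    have h2 : HasDerivAt (fun t : ℝ => Real.exp (2 * γ * t))
        (Real.exp (2 * γ * x) * (2 * γ)) x := by
      have h : HasDerivAt (fun t : ℝ => 2 * γ * t) (2 * γ) x := by
        simpa using (hasDerivAt_id x).const_mul (2 * γ)
      exact h.exp
    have h3 := ((hρ.const_mul γ).mul h2).div_const (C * (2 + γ))
    refine h3.congr_deriv ?_
    ring
  have hpow : HasDerivAt (fun t => Q t ^ ((2 + γ) / (1 + γ)))
      (γ * Real.exp (2 * γ * x) * (ρ' + 2 * γ * ρ x) / (C * (2 + γ)) *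
        ((2 + γ) / (1 + γ)) * Q x ^ ((2 + γ) / (1 + γ) - 1)) x :=
    hQd.rpow_const (Or.inl hQx.ne')
  have hU1 : Q x ^ ((2 + γ) / (1 + γ) - 1) = V x := by
    rw [hQx0, ← Real.rpow_mul hUx.le]
    have : (1 + γ) * ((2 + γ) / (1 + γ) - 1) = 1 := by
      field_simp; ring
    rw [this, Real.rpow_one]
  have hd : HasDerivAt (fun t => V t ^ (2 + γ))
      (γ * Real.exp (2 * γ * x) * (ρ' + 2 * γ * ρ x) / (C * (2 + γ)) *
        ((2 + γ) / (1 + γ)) * V x) x := by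
    rw [hU1] at hpow
    refine hpow.congr_of_eventuallyEq ?_
    filter_upwards [hev] with t ht
    have h1 : Q t = V t ^ (1 + γ) := ht.2
    rw [h1, ← Real.rpow_mul ht.1.le, mul_div_cancel₀]
    linarith
  have hw : HasDerivAt (fun t : ℝ => Real.exp (-(2 * γ * t)))
      (Real.exp (-(2 * γ * x)) * (-(2 * γ))) x := by
    have h0 : HasDerivAt (fun t : ℝ => -(2 * γ) * t) (-(2 * γ)) x := by
      simpa using (hasDerivAt_id x).const_mul (-(2 * γ))
    have h : HasDerivAt (fun t : ℝ => -(2 * γ * t)) (-(2 * γ)) x := by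
      simpa only [neg_mul] using h0
    exact h.exp
  have hfin := (hd.const_mul ((1 + γ) * C)).mul hw
  refine hfin.congr_deriv ?_
  have hE : Real.exp (-(2 * γ * x)) * Real.exp (2 * γ * x) = 1 := by
    rw [← Real.exp_add]; simp
  have hel : γ * ρ x = C * (2 + γ) * V x ^ (1 + γ) * Real.exp (-(2 * γ * x)) := by
    have h1 : γ * ρ x * Real.exp (2 * γ * x) = V x ^ (1 + γ) * (C * (2 + γ)) := by
      rw [← hQx', div_mul_cancel₀]
      positivity
    linear_combination Real.exp (-(2 * γ * x)) * h1 - γ * ρ x * hE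
  have hUU : V x ^ (2 + γ) = V x * V x ^ (1 + γ) := by
    rw [show (2 : ℝ) + γ = 1 + (1 + γ) by ring, Real.rpow_add hUx, Real.rpow_one]
  have h1γ : (1 + γ) ≠ 0 := by linarith
  have h2γ : (2 + γ) ≠ 0 := by linarith
  have e1 : (1 + γ) * C * (γ * Real.exp (2 * γ * x) * (ρ' + 2 * γ * ρ x) /
      (C * (2 + γ)) * ((2 + γ) / (1 + γ)) * V x) * Real.exp (-(2 * γ * x)) =
      γ * V x * (ρ' + 2 * γ * ρ x) *
        (Real.exp (-(2 * γ * x)) * Real.exp (2 * γ * x)) := by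
    field_simp
  rw [hE, mul_one] at e1
  rw [e1, hUU]
  linear_combination (2 * γ * V x) * hel

theorem SCb_U1_nonneg (S : SD K₁ C₀ R) (t : ℝ) : 0 ≤ S.U1 t :=
  (S.h_props t (mul_nonneg (S.α_pos 0 S.hN).le (sq_nonneg (S.φ 0 t))) le_rfl).1

theorem SCb_cU1 (S : SD K₁ C₀ R) : Continuous S.U1 := by
  have hγ := S.hγ
  unfold SD.U1 SD.h
  have h1 := SCa_cφ S S.hN
  have h2 : Continuous fun t => S.γ * (S.α 0 * S.φ 0 t ^ 2) * Real.exp (2 * S.γ * t) /
      (S.C * (2 + S.γ)) := by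
    refine Continuous.div_const ?_ _
    exact (continuous_const.mul (continuous_const.mul (h1.pow 2))).mul (by fun_prop)
  exact h2.rpow_const fun x => Or.inr (by positivity)

theorem SCb_U1_ev (S : SD K₁ C₀ R) {x : ℝ} (hx : x ∈ Ioo (-S.Lm) S.Lp) :
    ∀ᶠ t in nhds x, 0 < S.U1 t ∧ S.γ * (S.α 0 * S.φ 0 t ^ 2) * Real.exp (2 * S.γ * t) /
      (S.C * (2 + S.γ)) = S.U1 t ^ (1 + S.γ) := by
  have hC := SCa_Cpos S
  have hγ := S.hγ
  have hα := S.α_pos 0 S.hN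
  filter_upwards [Ioo_mem_nhds hx.1 hx.2] with t ht
  have hφ := S.φ_pos t ht
  have hQ : 0 < S.γ * (S.α 0 * S.φ 0 t ^ 2) * Real.exp (2 * S.γ * t) / (S.C * (2 + S.γ)) := by
    positivity
  refine ⟨Real.rpow_pos_of_pos hQ _, ?_⟩
  rw [SD.U1, SD.h, ← Real.rpow_mul hQ.le, one_div_mul_cancel (by linarith), Real.rpow_one]

theorem SCb_rho1 (S : SD K₁ C₀ R) (x : ℝ) :
    HasDerivAt (fun t => S.α 0 * S.φ 0 t ^ 2) (2 * S.α 0 * (S.φ 0 x * S.dφ 0 x)) x := by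
  have h1 := (S.sol 0 S.hN).d1 x
  refine ((h1.pow 2).const_mul (S.α 0)).congr_deriv ?_
  push_cast
  ring

/-- partial pressure identity for the ground state density on `(s, Lp)`:
`Z₁(s) = γ α₀ φ₀'(Lp)² + γ ∫ (U - U1) ρ₁' + 2γ (α₀ e₀ ∫_{>s} ω φ₀² - C ∫_{>s} U1^{2+γ} w)`. -/
theorem SD.Z1_right (S : SD K₁ C₀ R) {s : ℝ} (hs : s ∈ Ioo (-S.Lm) S.Lp) :
    S.γ * (S.α 0 * S.P 0 s) + (1 + S.γ) * S.C * S.U1 s ^ (2 + S.γ) * Real.exp (-(2 * S.γ * s)) =
      S.γ * (S.α 0 * S.dφ 0 S.Lp ^ 2) +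
        S.γ * (∫ t in s..S.Lp, (S.U t - S.U1 t) * (2 * S.α 0 * (S.φ 0 t * S.dφ 0 t))) +
        2 * S.γ * (S.gm {0} s S.Lp - S.C * ∫ t in s..S.Lp, S.U1 t ^ (2 + S.γ) * Real.exp (-(2 * S.γ * t))) := by
  have hC := SCa_Cpos S
  have hγ := S.hγ
  set Z1 : ℝ → ℝ := fun t => S.γ * (S.α 0 * S.P 0 t) +
    (1 + S.γ) * S.C * S.U1 t ^ (2 + S.γ) * Real.exp (-(2 * S.γ * t)) with hZ1
  set dZ1 : ℝ → ℝ := fun t => -(S.γ * ((S.U t - S.U1 t) * (2 * S.α 0 * (S.φ 0 t * S.dφ 0 t)))) -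
    2 * S.γ * (S.α 0 * S.e 0 * (om t * S.φ 0 t ^ 2) -
      S.C * (S.U1 t ^ (2 + S.γ) * Real.exp (-(2 * S.γ * t)))) with hdZ1
  have cφ := SCa_cφ S S.hN
  have cdφ := SCa_cdφ S S.hN
  have cU1 := SCb_cU1 S
  have cU1p : Continuous fun t => S.U1 t ^ (2 + S.γ) :=
    cU1.rpow_const fun x => Or.inr (by linarith)
  have cw : Continuous fun t : ℝ => Real.exp (-(2 * S.γ * t)) := by fun_prop
  have c1 : Continuous fun t => (S.U t - S.U1 t) * (2 * S.α 0 * (S.φ 0 t * S.dφ 0 t)) :=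
    (S.cU.sub cU1).mul (continuous_const.mul (cφ.mul cdφ))
  have c2 : Continuous fun t => om t * S.φ 0 t ^ 2 := SCa_cterm S S.hN
  have c3 : Continuous fun t => S.U1 t ^ (2 + S.γ) * Real.exp (-(2 * S.γ * t)) := cU1p.mul cw
  have cP : Continuous (S.P 0) := (cdφ.pow 2).sub
    ((continuous_const.add (continuous_const.mul SCa_om_cont)).mul (cφ.pow 2))
  have cZ1 : Continuous Z1 := (continuous_const.mul (continuous_const.mul cP)).add
    ((continuous_const.mul cU1p).mul cw)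
  have cdZ1 : Continuous dZ1 := (continuous_const.mul c1).neg.sub
    (continuous_const.mul ((continuous_const.mul c2).sub (continuous_const.mul c3)))
  have hd : ∀ x ∈ Ioo s S.Lp, HasDerivAt Z1 (dZ1 x) x := by
    intro x hx
    have hx' : x ∈ Ioo (-S.Lm) S.Lp := ⟨hs.1.trans hx.1, hx.2⟩
    have h1 := ((SCa_P S S.hN x).const_mul (S.α 0)).const_mul S.γ
    have h2 := SCb_F hγ hC (SCb_rho1 S x) (SCb_U1_ev S hx')
    refine (h1.add h2).congr_deriv ?_
    rw [hdZ1]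
    ring
  have key := intervalIntegral.integral_eq_sub_of_hasDerivAt_of_le hs.2.le cZ1.continuousOn hd
    (cdZ1.intervalIntegrable _ _)
  have hLp : Z1 S.Lp = S.γ * (S.α 0 * S.dφ 0 S.Lp ^ 2) := by
    have h0 : S.φ 0 S.Lp = 0 := S.φ_right 0 S.hN
    have h1 : S.U1 S.Lp = 0 := by
      rw [SD.U1, h0, SD.h]
      norm_num
      rw [Real.zero_rpow]
      positivity
    rw [hZ1]
    simp only
    rw [h1, Real.zero_rpow (by linarith), SD.P, h0]
    ring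
  have hint : (∫ t in s..S.Lp, dZ1 t) =
      -(S.γ * ∫ t in s..S.Lp, (S.U t - S.U1 t) * (2 * S.α 0 * (S.φ 0 t * S.dφ 0 t))) -
      2 * S.γ * (S.α 0 * S.e 0 * (∫ t in s..S.Lp, om t * S.φ 0 t ^ 2) -
        S.C * ∫ t in s..S.Lp, S.U1 t ^ (2 + S.γ) * Real.exp (-(2 * S.γ * t))) := by
    rw [hdZ1, intervalIntegral.integral_sub, intervalIntegral.integral_neg,
      intervalIntegral.integral_const_mul, intervalIntegral.integral_const_mul,
      intervalIntegral.integral_sub, intervalIntegral.integral_const_mul,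
      intervalIntegral.integral_const_mul]
    · exact (continuous_const.mul c2).intervalIntegrable _ _
    · exact (continuous_const.mul c3).intervalIntegrable _ _
    · exact (continuous_const.mul c1).neg.intervalIntegrable _ _
    · exact (continuous_const.mul ((continuous_const.mul c2).sub
        (continuous_const.mul c3))).intervalIntegrable _ _
  have hgm : S.gm {0} s S.Lp = S.α 0 * S.e 0 * ∫ t in s..S.Lp, om t * S.φ 0 t ^ 2 := by
    rw [SD.gm, Finset.sum_singleton]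
  rw [hint, hLp] at key
  have hs' : Z1 s = S.γ * (S.α 0 * S.P 0 s) +
    (1 + S.γ) * S.C * S.U1 s ^ (2 + S.γ) * Real.exp (-(2 * S.γ * s)) := rfl
  rw [← hs', hgm]
  linarith

end Pool.Agent.RLT40
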