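import Pool.Agent.RLT40.SDef

/-!
# Module SG (paper 5.4): the point `T`, first zeros, ground state, supporter.
-/

open MeasureTheory Set
open scoped ENNReal NNReal

namespace Pool.Agent.RLT40

variable {K₁ C₀ R : ℝ}

/-- `z` is the first zero of the zero energy solution -/
structure SD.IsZ (S : SD K₁ C₀ R) (z : ℝ) : Prop where
  lt : z < S.Lp
  zero : S.f₀ z = 0
  pos : ∀ x ∈ Ioo (-S.Lm) z, 0 < S.f₀ x
  hR : R < z

/-- `z` is the first zero of `φ j` in the interior -/
structure SD.IsFirst (S : SD K₁ C₀ R) (j : ℕ) (z : ℝ) : Prop where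
  lt : z < S.Lp
  zero : S.φ j z = 0
  pos : ∀ x ∈ Ioo (-S.Lm) z, 0 < S.φ j x

end Pool.Agent.RLT40
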