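import Pool.Agent.RLT40.SBa
import Pool.Agent.RLT40.SGdefs

/-!
# Module SG (paper 5.4): the point `T`, first zeros, ground state, supporter.
-/

open MeasureTheory Set
open scoped ENNReal NNReal

namespace Pool.Agent.RLT40

variable {K₁ C₀ R : ℝ}

/-- convexity: after a zero with negative slope, where the coefficient is nonnegative, there is no second zero -/
theorem SGa_conv {V f g : ℝ → ℝ} (h : Sol V f g) {z T : ℝ} (hV : ∀ x ∈ Icc z T, 0 ≤ V x) (h0 : f z ≤ 0)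
    (h1 : g z < 0) :
    (∀ x ∈ Ioc z T, f x < 0 ∧ g x < 0) ∧ ∀ x ∈ Icc z T, ∀ y ∈ Icc x T, g y ≤ g x := by
  have hfc := h.continuous_left
  have hgc := h.continuous_right
  -- a general step: if `g < 0` on `[z, x)` then everything holds up to `x`
  have step : ∀ x, z ≤ x → x ≤ T → (∀ t, z ≤ t → t < x → g t < 0) →
      (∀ t ∈ Ioc z x, f t < 0) ∧ AntitoneOn g (Icc z x) := by
    intro x hzx hxT hg
    have hfa : StrictAntiOn f (Icc z x) := by
      apply strictAntiOn_of_deriv_neg (convex_Icc z x) hfc.continuousOn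
      intro t ht
      rw [interior_Icc] at ht
      rw [(h.d1 t).deriv]
      exact hg t ht.1.le ht.2
    have hf : ∀ t ∈ Ioc z x, f t < 0 := by
      intro t ht
      exact (hfa ⟨le_rfl, hzx⟩ ⟨ht.1.le, ht.2⟩ ht.1).trans_le h0
    refine ⟨hf, ?_⟩
    apply antitoneOn_of_deriv_nonpos (convex_Icc z x) hgc.continuousOn
    · exact fun t _ => (h.d2 t).differentiableAt.differentiableWithinAt
    · intro t ht
      rw [interior_Icc] at ht
      rw [(h.d2 t).deriv]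
      exact mul_nonpos_of_nonneg_of_nonpos (hV t ⟨ht.1.le, ht.2.le.trans hxT⟩)
        (hf t ⟨ht.1, ht.2.le⟩).le
  have hgneg : ∀ t ∈ Icc z T, g t < 0 := by
    by_contra hcon
    push Not at hcon
    obtain ⟨t, ht, hgt⟩ := hcon
    have hS : IsCompact (Icc z T ∩ {t | 0 ≤ g t}) :=
      isCompact_Icc.inter_right (isClosed_le continuous_const hgc)
    obtain ⟨x, hx⟩ := hS.exists_isLeast ⟨t, ht, hgt⟩
    have hx1 : x ∈ Icc z T := hx.1.1
    have hx2 : 0 ≤ g x := hx.1.2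
    have hx3 : ∀ t, z ≤ t → t < x → g t < 0 := by
      intro t h1 h2
      by_contra hcon
      have := hx.2 ⟨⟨h1, h2.le.trans hx1.2⟩, not_lt.1 hcon⟩
      linarith
    have := (step x hx1.1 hx1.2 hx3).2 ⟨le_rfl, hx1.1⟩ ⟨hx1.1, le_rfl⟩ hx1.1
    linarith
  rcases le_or_gt z T with hzT | hzT
  · obtain ⟨s1, s2⟩ := step T hzT le_rfl fun t h1 h2 => hgneg t ⟨h1, h2.le⟩
    refine ⟨fun x hx => ⟨s1 x hx, hgneg x ⟨hx.1.le, hx.2⟩⟩, ?_⟩
    intro x hx y hy
    exact s2 hx ⟨hx.1.trans hy.1, hy.2⟩ hy.1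
  · refine ⟨fun x hx => ?_, fun x hx => ?_⟩
    · exfalso; linarith [hx.1, hx.2]
    · exfalso; linarith [hx.1, hx.2]

/-- the first zero of a continuous function which is positive at the left end -/
theorem SGa_first {f : ℝ → ℝ} (hf : Continuous f) {a y : ℝ} (hay : a ≤ y) (ha : 0 < f a) (hy : f y = 0) :
    ∃ z, a < z ∧ z ≤ y ∧ f z = 0 ∧ ∀ t, a ≤ t → t < z → 0 < f t := by
  have hS : IsCompact (Icc a y ∩ {t | f t = 0}) :=
    isCompact_Icc.inter_right (isClosed_eq hf continuous_const)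
  obtain ⟨z, hz⟩ := hS.exists_isLeast ⟨y, ⟨hay, le_rfl⟩, hy⟩
  have hz1 : z ∈ Icc a y := hz.1.1
  have hz2 : f z = 0 := hz.1.2
  refine ⟨z, ?_, hz1.2, hz2, ?_⟩
  · rcases lt_or_eq_of_le hz1.1 with h | h
    · exact h
    · rw [← h] at hz2; linarith
  · intro t h1 h2
    by_contra hcon
    push Not at hcon
    obtain ⟨u, hu, hu0⟩ := intermediate_value_Icc' h1 hf.continuousOn ⟨hcon, ha.le⟩
    have := hz.2 ⟨⟨hu.1, (hu.2.trans h2.le).trans hz1.2⟩, hu0⟩
    linarith [hu.2]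

/-- a function positive before a zero has nonpositive slope there -/
theorem SGa_slope {V f g : ℝ → ℝ} (hV : Continuous V) (h : Sol V f g) {a z : ℝ} (haz : a < z)
    (hz : f z = 0) (hpos : ∀ t ∈ Ioo a z, 0 < f t) : g z < 0 := by
  have hne : ∃ x, f x ≠ 0 := ⟨(a + z) / 2, (hpos _ ⟨by linarith, by linarith⟩).ne'⟩
  have h0 := h.deriv_ne_zero hV hne hz
  refine lt_of_le_of_ne ?_ h0
  have h1 : Filter.Tendsto (slope f z) (nhdsWithin z (Iio z)) (nhds (g z)) :=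
    (hasDerivAt_iff_tendsto_slope.1 (h.d1 z)).mono_left
      (nhdsWithin_mono _ fun t ht => ne_of_lt ht)
  refine le_of_tendsto h1 ?_
  filter_upwards [Ioo_mem_nhdsLT haz] with t ht
  rw [slope_def_field, hz, sub_zero]
  exact div_nonpos_of_nonneg_of_nonpos (hpos t ht).le (by linarith [ht.2])

theorem SGa_cont_pot {e : ℝ} {U : ℝ → ℝ} (hU : Continuous U) : Continuous (pot 1 e U) := by
  unfold pot om
  fun_prop

theorem SD.SGa_sol₀ (S : SD K₁ C₀ R) : Sol (pot 1 0 S.U) S.f₀ S.g₀ := by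
  have : pot 1 0 S.U = fun x => 1 - S.U x := by
    funext x; unfold pot; ring
  rw [this]; exact S.sol₀

/-- the left end is negative, without any condition on `R` -/
theorem SD.SGa_Lm_pos (S : SD K₁ C₀ R) : -S.Lm < 0 := by
  by_contra hcon
  push Not at hcon
  have h1 := constant_of_has_deriv_right_zero (f := fun t => S.f₀ t ^ 2 - S.g₀ t ^ 2)
    (a := 0) (b := -S.Lm)
    (((S.sol₀.continuous_left.pow 2).sub (S.sol₀.continuous_right.pow 2)).continuousOn) (by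
      intro t ht
      have hU : S.U t = 0 := S.U_zero t fun h => by linarith [h.1, ht.2]
      have h2 := (((S.sol₀.d1 t).pow 2).sub ((S.sol₀.d2 t).pow 2)).congr_deriv
        (g' := 0) (by rw [hU]; push_cast; ring)
      exact h2.hasDerivWithinAt) (-S.Lm) ⟨hcon, le_rfl⟩
  rw [S.f₀_left, S.f₀_zero, S.g₀_zero] at h1
  nlinarith [sq_nonneg (S.g₀ (-S.Lm))]

theorem SD.exists_Z (S : SD K₁ C₀ R) (hR : 0 < R) : ∃ z, S.IsZ z := by
  obtain ⟨x, hx, hx0⟩ := S.f₀_node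
  obtain ⟨z, h1, h2, h3, h4⟩ := SGa_first S.sol₀.continuous_left hx.1.le
    (by rw [S.f₀_zero]; norm_num) hx0
  refine ⟨z, ⟨lt_of_le_of_lt h2 hx.2, h3, ?_, ?_⟩⟩
  · intro t ht
    rcases lt_or_ge t 0 with h | h
    · exact (S.f₀_pos t ⟨ht.1, h⟩).1
    · exact h4 t h ht.2
  · by_contra hcon
    push Not at hcon
    have := (S.core z ⟨by linarith, hcon⟩).1
    linarith

/-- first point beyond `R` with `U = 1/100` -/
theorem SD.exists_T (S : SD K₁ C₀ R) (hC₀ : 0 < C₀) (hR : C₀ ≤ R) (h : ¬ ∀ x ∈ Icc C₀ S.Lp, S.U x ≤ 1 / 100) : ∃ T, S.IsT T := by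
  push Not at h
  obtain ⟨x, hx, hUx⟩ := h
  have hRx : R < x := by
    by_contra hcon
    have := S.U_mid x hx.1 (not_lt.1 hcon)
    linarith
  have hS : IsCompact (Icc R x ∩ {t | 1 / 100 ≤ S.U t}) :=
    isCompact_Icc.inter_right (isClosed_le continuous_const S.cU)
  obtain ⟨T, hT⟩ := hS.exists_isLeast ⟨x, ⟨hRx.le, le_rfl⟩, hUx.le⟩
  have hT1 : T ∈ Icc R x := hT.1.1
  have hT2 : 1 / 100 ≤ S.U T := hT.1.2
  have hT3 : ∀ t, R ≤ t → t < T → S.U t < 1 / 100 := by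
    intro t h1 h2
    by_contra hcon
    have := hT.2 ⟨⟨h1, h2.le.trans hT1.2⟩, not_lt.1 hcon⟩
    linarith
  have hT4 : S.U T ≤ 1 / 100 := by
    rcases lt_or_eq_of_le hT1.1 with h' | h'
    · have h1 : Filter.Tendsto S.U (nhdsWithin T (Iio T)) (nhds (S.U T)) :=
        (S.cU.tendsto T).mono_left nhdsWithin_le_nhds
      refine le_of_tendsto h1 ?_
      filter_upwards [Ioo_mem_nhdsLT h'] with t ht
      exact (hT3 t ht.1.le ht.2).le
    · rw [← h']; exact S.U_mid R hR le_rfl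
  have heq : S.U T = 1 / 100 := le_antisymm hT4 hT2
  refine ⟨T, ⟨hT1.1, ?_, ?_, heq⟩⟩
  · rcases lt_or_eq_of_le (hT1.2.trans hx.2) with h' | h'
    · exact h'
    · exfalso
      have := S.U_zero T (by rw [h']; simp)
      rw [this] at heq
      norm_num at heq
  · intro t ht
    rcases le_or_gt t R with h' | h'
    · exact S.U_mid t ht.1 h'
    · rcases lt_or_eq_of_le ht.2 with h'' | h''
      · exact (hT3 t h'.le h'').le
      · rw [h'']; exact hT4

/-- 5.4 (a): excited states -/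
theorem SD.exists_first (S : SD K₁ C₀ R) (hR : 0 < R) {z : ℝ} (hz : S.IsZ z) {j : ℕ} (hj : 1 ≤ j) (hjN : j < S.N) :
    ∃ zj, S.IsFirst j zj ∧ z < zj := by
  have hz0 : 0 < z := hR.trans hz.hR
  have hLm : 0 < S.Lm := lt_of_lt_of_le hR S.hLm
  obtain ⟨Z, hZ, hZ'⟩ := S.nodes j hjN
  obtain ⟨y, hy⟩ : Z.Nonempty := by
    rw [← Finset.card_pos]; omega
  obtain ⟨hy1, hy2⟩ := hZ' y hy
  obtain ⟨r1, -, r3⟩ := ratio_mono S le_rfl (S.e_pos j hjN).le (S.sol j hjN) S.SGa_sol₀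
    (S.φ_left j hjN) S.f₀_left (S.φ_zero j hjN) S.f₀_zero (by linarith : -S.Lm < z) hz.pos
  have hpz := r3 hz0 (S.e_pos j hjN)
  have hzy : z < y := by
    by_contra hcon
    push Not at hcon
    rcases lt_or_eq_of_le hcon with h | h
    · have := (r1 y ⟨hy1.1, h⟩).1
      linarith
    · rw [h] at hy2; linarith
  obtain ⟨w, h1, h2, h3, h4⟩ := SGa_first (S.sol j hjN).continuous_left hzy.le hpz hy2
  refine ⟨w, ⟨lt_of_le_of_lt h2 hy1.2, h3, ?_⟩, h1⟩
  intro t ht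
  rcases lt_or_ge t z with h | h
  · exact (r1 t ⟨ht.1, h⟩).1
  · exact h4 t h ht.2

/-- if the coefficient is nonnegative beyond a point below the first zero of an excited state, contradiction -/
theorem SD.SGa_contra (S : SD K₁ C₀ R) (hR : 0 < R) {z : ℝ} (hz : S.IsZ z) {j : ℕ} (hj : 1 ≤ j) (hjN : j < S.N)
    (hV : ∀ x, R ≤ x → x ≤ S.Lp → 0 ≤ pot 1 (S.e j) S.U x) : False := by
  have hLm : 0 < S.Lm := lt_of_lt_of_le hR S.hLm
  obtain ⟨w, hw, hzw⟩ := S.exists_first hR hz hj hjN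
  have hw0 : R < w := hz.hR.trans hzw
  have hs := SGa_slope (SGa_cont_pot S.cU) (S.sol j hjN) (by linarith : -S.Lm < w) hw.zero hw.pos
  have hc := SGa_conv (S.sol j hjN) (z := w) (T := S.Lp)
    (fun x hx => hV x (hw0.le.trans hx.1) hx.2) hw.zero.le hs
  have := (hc.1 S.Lp ⟨hw.lt, le_rfl⟩).1
  rw [S.φ_right j hjN] at this
  exact lt_irrefl _ this

/-- 5.4: convexity beyond `C₀`: no excited states -/
theorem SD.N_eq_one (S : SD K₁ C₀ R) (hC₀ : 0 < C₀) (hR : C₀ ≤ R) (h : ∀ x ∈ Icc C₀ S.Lp, S.U x ≤ 1 / 100) : S.N = 1 := by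
  by_contra hcon
  have hN : 1 < S.N := by
    have := S.hN; omega
  have hR0 : 0 < R := hC₀.trans_le hR
  obtain ⟨z, hz⟩ := S.exists_Z hR0
  refine S.SGa_contra hR0 hz le_rfl hN fun x hx hxL => ?_
  have h1 := h x ⟨hR.trans hx, hxL⟩
  have h2 : 0 ≤ S.e 1 * om x := mul_nonneg (S.e_pos 1 hN).le (Real.exp_pos _).le
  unfold pot
  linarith

theorem SD.first_mono (S : SD K₁ C₀ R) {i j : ℕ} (hij : i < j) (hj : j < S.N) {zi zj : ℝ} (hi : S.IsFirst i zi) (hjz : S.IsFirst j zj)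
    (h0 : 0 < zi) (h0' : 0 < zj) : zj ≤ zi := by
  have hiN : i < S.N := hij.trans hj
  have hLm := S.SGa_Lm_pos
  obtain ⟨r1, -, r3⟩ := ratio_mono S (S.e_pos j hj).le (S.e_anti i j hij hj).le (S.sol i hiN) (S.sol j hj)
    (S.φ_left i hiN) (S.φ_left j hj) (S.φ_zero i hiN) (S.φ_zero j hj) (by linarith : -S.Lm < zj) hjz.pos
  by_contra hcon
  push Not at hcon
  have := (r1 zi ⟨by linarith, hcon⟩).1
  rw [hi.zero] at this
  exact lt_irrefl _ this

theorem SD.e_le (S : SD K₁ C₀ R) (hK : 0 < K₁) (hC₀ : 0 < C₀) (hR : C₀ ≤ R) {T z : ℝ} (hT : S.IsT T) (hz : S.IsZ z) {j : ℕ} (hj : 1 ≤ j)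
    (hjN : j < S.N) : S.e j * om T ≤ K₁ := by
  by_contra hcon
  push Not at hcon
  have hR0 : 0 < R := hC₀.trans_le hR
  refine S.SGa_contra hR0 hz hj hjN fun x hx hxL => ?_
  have he := S.e_pos j hjN
  have h2 : 0 ≤ S.e j * om x := mul_nonneg he.le (Real.exp_pos _).le
  unfold pot
  rcases le_or_gt x T with h | h
  · have := hT.le x ⟨hR.trans hx, h⟩
    linarith
  · have h3 : om T ≤ om x := Real.exp_le_exp.2 (by linarith)
    have h4 := mul_le_mul_of_nonneg_left h3 he.le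
    have h5 := S.U_le x
    linarith

/-- no second zero before `T` (convexity in the gap), for any solution with `e ≥ 0` -/
theorem SD.no_second (S : SD K₁ C₀ R) (hC₀ : 0 < C₀) (hR : C₀ ≤ R) {T : ℝ} (hT : S.IsT T) {e : ℝ} (he : 0 ≤ e) {f g : ℝ → ℝ}
    (h : Sol (pot 1 e S.U) f g) {z : ℝ} (hz : C₀ ≤ z) (hzT : z ≤ T) (h0 : f z = 0) (h1 : g z < 0) :
    (∀ x ∈ Ioc z T, f x < 0 ∧ g x < 0) ∧ ∀ x ∈ Icc z T, ∀ y ∈ Icc x T, g y ≤ g x := by
  refine SGa_conv h (fun x hx => ?_) h0.le h1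
  have h2 := hT.le x ⟨hz.trans hx.1, hx.2⟩
  have h3 : 0 ≤ e * om x := mul_nonneg he (Real.exp_pos _).le
  unfold pot
  linarith

end Pool.Agent.RLT40
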