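import Pool.Agent.RLT40.SBb

/-!
# Module SG (paper 5.4): the point `T`, first zeros, ground state, supporter.
-/

open MeasureTheory Set
open scoped ENNReal NNReal

namespace Pool.Agent.RLT40

variable {K₁ C₀ R : ℝ}

theorem SGb_U_nonneg (S : SD K₁ C₀ R) (x : ℝ) : 0 ≤ S.U x := by
  by_cases hx : x ∈ Ioo (-S.Lm) S.Lp
  · exact (S.U_pos x hx).le
  · exact (S.U_zero x hx).ge

theorem SGb_om_pos (x : ℝ) : 0 < om x := Real.exp_pos _

theorem SGb_om_mono {x y : ℝ} (h : x ≤ y) : om x ≤ om y := by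
  unfold om
  exact Real.exp_le_exp.2 (by linarith)

theorem SGb_mem (S : SD K₁ C₀ R) (hC₀ : 0 < C₀) (hR : C₀ ≤ R) {x : ℝ} (hx : x ∈ Ico C₀ S.Lp) : x ∈ Ioo (-S.Lm) S.Lp := by
  have := S.hLm
  exact ⟨by linarith [hx.1], hx.2⟩

theorem SGb_ground (S : SD K₁ C₀ R) (hC₀ : 0 < C₀) (hR : C₀ ≤ R) {T : ℝ} (hT : S.IsT T) (h : K₁ + 1 ≤ S.e 0 * om T) :
    ∀ x ∈ Ico C₀ S.Lp, S.dφ 0 x < 0 ∧ S.dφ 0 x ≤ -(99 / 100 * S.φ 0 x) := by
  have hs := S.sol 0 S.hN
  have he := S.e_pos 0 S.hN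
  have cφ : Continuous (S.φ 0) := continuous_iff_continuousAt.2 fun x => (hs.d1 x).continuousAt
  have cd : Continuous (S.dφ 0) := continuous_iff_continuousAt.2 fun x => (hs.d2 x).continuousAt
  have hV : ∀ t, C₀ ≤ t → 99 / 100 ≤ pot 1 (S.e 0) S.U t := by
    intro t ht
    unfold pot
    rcases le_total t T with h1 | h1
    · have h2 := hT.le t ⟨ht, h1⟩
      have h3 := mul_pos he (SGb_om_pos t)
      linarith
    · have h2 := S.U_le t
      have h3 := mul_le_mul_of_nonneg_left (SGb_om_mono h1) he.le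
      linarith
  have hpos : ∀ t ∈ Ico C₀ S.Lp, 0 < S.φ 0 t := fun t ht => S.φ_pos t (SGb_mem S hC₀ hR ht)
  have hneg : ∀ x ∈ Ico C₀ S.Lp, S.dφ 0 x < 0 := by
    intro x hx
    by_contra hcon
    rw [not_lt] at hcon
    have h1 : MonotoneOn (S.dφ 0) (Icc x S.Lp) := by
      refine monotoneOn_of_deriv_nonneg (convex_Icc _ _) cd.continuousOn (fun t _ => (hs.d2 t).differentiableAt.differentiableWithinAt) ?_
      intro t ht
      rw [interior_Icc] at ht
      rw [(hs.d2 t).deriv]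
      have h2 := hV t (hx.1.trans ht.1.le)
      exact mul_nonneg (by linarith) (hpos t ⟨hx.1.trans ht.1.le, ht.2⟩).le
    have h2 : MonotoneOn (S.φ 0) (Icc x S.Lp) := by
      refine monotoneOn_of_deriv_nonneg (convex_Icc _ _) cφ.continuousOn (fun t _ => (hs.d1 t).differentiableAt.differentiableWithinAt) ?_
      intro t ht
      rw [interior_Icc] at ht
      rw [(hs.d1 t).deriv]
      exact hcon.trans (h1 (left_mem_Icc.2 hx.2.le) ⟨ht.1.le, ht.2.le⟩ ht.1.le)
    have h3 := h2 (left_mem_Icc.2 hx.2.le) (right_mem_Icc.2 hx.2.le) hx.2.le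
    rw [S.φ_right 0 S.hN] at h3
    linarith [hpos x hx]
  intro x hx
  refine ⟨hneg x hx, ?_⟩
  have h1 : AntitoneOn (fun t => S.dφ 0 t ^ 2 - (99 / 100) ^ 2 * S.φ 0 t ^ 2) (Icc x S.Lp) := by
    have hd : ∀ t, HasDerivAt (fun t => S.dφ 0 t ^ 2 - (99 / 100) ^ 2 * S.φ 0 t ^ 2)
        (2 * (S.dφ 0 t * S.φ 0 t) * (pot 1 (S.e 0) S.U t - (99 / 100) ^ 2)) t := by
      intro t
      have h2 := ((hs.d2 t).pow 2).sub (((hs.d1 t).pow 2).const_mul ((99 / 100 : ℝ) ^ 2))
      refine h2.congr_deriv ?_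
      push_cast
      ring
    refine antitoneOn_of_deriv_nonpos (convex_Icc _ _) (by fun_prop) (fun t _ => (hd t).differentiableAt.differentiableWithinAt) ?_
    intro t ht
    rw [interior_Icc] at ht
    rw [(hd t).deriv]
    have hmem : t ∈ Ico C₀ S.Lp := ⟨hx.1.trans ht.1.le, ht.2⟩
    have h2 := hV t hmem.1
    have h3 : S.dφ 0 t * S.φ 0 t ≤ 0 := mul_nonpos_of_nonpos_of_nonneg (hneg t hmem).le (hpos t hmem).le
    exact mul_nonpos_of_nonpos_of_nonneg (by linarith) (by linarith)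
  have h2 := h1 (left_mem_Icc.2 hx.2.le) (right_mem_Icc.2 hx.2.le) hx.2.le
  simp only [S.φ_right 0 S.hN] at h2
  have h3 : (99 / 100 * S.φ 0 x) ^ 2 ≤ (-S.dφ 0 x) ^ 2 := by nlinarith [sq_nonneg (S.dφ 0 S.Lp)]
  have h4 := abs_le_of_sq_le_sq' h3 (by linarith [hneg x hx])
  linarith [h4.2]

/-- exponential decay -/
theorem SGb_exp {f g : ℝ → ℝ} (hf : ∀ x, HasDerivAt f (g x) x) {a b ν : ℝ} (h : ∀ x ∈ Icc a b, g x ≤ -(ν * f x)) :
    ∀ t ∈ Icc a b, f t ≤ f a * Real.exp (-(ν * (t - a))) := by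
  intro t ht
  have cf : Continuous f := continuous_iff_continuousAt.2 fun x => (hf x).continuousAt
  have hd : ∀ x, HasDerivAt (fun x => f x * Real.exp (ν * (x - a))) ((g x + ν * f x) * Real.exp (ν * (x - a))) x := by
    intro x
    have h1 : HasDerivAt (fun x => ν * (x - a)) ν x := by
      simpa using ((hasDerivAt_id x).sub_const a).const_mul ν
    have h2 := (hf x).mul h1.exp
    refine h2.congr_deriv ?_
    ring
  have h1 : AntitoneOn (fun x => f x * Real.exp (ν * (x - a))) (Icc a t) := by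
    refine antitoneOn_of_deriv_nonpos (convex_Icc _ _) (by fun_prop) (fun x _ => (hd x).differentiableAt.differentiableWithinAt) ?_
    intro x hx
    rw [interior_Icc] at hx
    rw [(hd x).deriv]
    have h2 := h x ⟨hx.1.le, hx.2.le.trans ht.2⟩
    exact mul_nonpos_of_nonpos_of_nonneg (by linarith) (Real.exp_pos _).le
  have h2 := h1 (left_mem_Icc.2 ht.1) (right_mem_Icc.2 ht.1) ht.1
  simp only [sub_self, mul_zero, Real.exp_zero, mul_one] at h2
  have h3 : f t = (f t * Real.exp (ν * (t - a))) * Real.exp (-(ν * (t - a))) := by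
    rw [mul_assoc, ← Real.exp_add, add_neg_cancel, Real.exp_zero, mul_one]
  rw [h3]
  exact mul_le_mul_of_nonneg_right h2 (Real.exp_pos _).le

/-- 5.4 (b): if `e₀ ω(T) ≥ K₁ + 1`, the ground state decays in the gap; this transfers to every positive solution with smaller energy -/
theorem SD.ground_ratio (S : SD K₁ C₀ R) (hK : 0 < K₁) (hC₀ : 0 < C₀) (hR : C₀ ≤ R) {T : ℝ} (hT : S.IsT T) (h : K₁ + 1 ≤ S.e 0 * om T) :
    (∀ x ∈ Ico C₀ S.Lp, S.dφ 0 x < 0) ∧ ∀ x ∈ Icc C₀ T, S.dφ 0 x ≤ -(99 / 100 * S.φ 0 x) :=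
  ⟨fun x hx => (SGb_ground S hC₀ hR hT h x hx).1, fun x hx => (SGb_ground S hC₀ hR hT h x ⟨hx.1, hx.2.trans_lt hT.hLp⟩).2⟩

/-- bounds for the ground state -/
theorem SGb_phi0 (hK : 0 < K₁) (hC₀ : 0 < C₀) : ∃ C > 0, ∃ R₀ ≥ C₀, ∀ R ≥ R₀, ∀ S : SD K₁ C₀ R, ∀ T, S.IsT T →
    K₁ + 1 ≤ S.e 0 * om T → ∀ t ∈ Icc 0 T, S.φ 0 t ≤ C * Real.exp (-(0.99 * t)) := by
  obtain ⟨Cl, hCl, cl, hcl, hcl1, R₁, hR₁, hlb⟩ := left_bounds hK hC₀
  set A : ℝ := (1 + Cl * K₁) * Real.exp (C₀ * (1 + K₁ + K₁ * om C₀)) with hA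
  have hA0 : 0 < A := by positivity
  refine ⟨A * Real.exp (0.99 * C₀), by positivity, R₁, hR₁, ?_⟩
  intro R hR S T hT h
  have hCR : C₀ ≤ R := hR₁.trans hR
  have hs := S.sol 0 S.hN
  have he := S.e_pos 0 S.hN
  have hg := SGb_ground S hC₀ hCR hT h
  have hTR := hT.hR
  have hTL := hT.hLp
  obtain ⟨-, hg0, hg1, -⟩ := hlb R hR S (S.e 0) he.le (S.φ 0) (S.dφ 0) hs (S.φ_left 0 S.hN) (S.φ_zero 0 S.hN)
  have cd : Continuous (S.dφ 0) := continuous_iff_continuousAt.2 fun x => (hs.d2 x).continuousAt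
  have heK : S.e 0 ≤ K₁ := by
    by_contra hcon
    rw [not_le] at hcon
    have h1 : MonotoneOn (S.dφ 0) (Icc 0 C₀) := by
      refine monotoneOn_of_deriv_nonneg (convex_Icc _ _) cd.continuousOn (fun t _ => (hs.d2 t).differentiableAt.differentiableWithinAt) ?_
      intro t ht
      rw [interior_Icc] at ht
      rw [(hs.d2 t).deriv]
      have h2 : 1 ≤ om t := by
        unfold om
        exact Real.one_le_exp (by linarith [ht.1])
      have h3 := S.U_le t
      have h4 := S.hLm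
      have h5 : K₁ ≤ S.e 0 * om t := by nlinarith
      refine mul_nonneg ?_ (S.φ_pos t ⟨by linarith [ht.1], by linarith [ht.2]⟩).le
      unfold pot
      linarith
    have h2 := h1 (left_mem_Icc.2 hC₀.le) (right_mem_Icc.2 hC₀.le) hC₀.le
    have h3 := (hg C₀ ⟨le_rfl, by linarith⟩).1
    linarith
  have hgr : ∀ t ∈ Icc 0 C₀, S.φ 0 t ≤ A := by
    intro t ht
    have cm : Continuous fun x => 1 + K₁ + K₁ * om x := by unfold om; fun_prop
    have h1 := growth hs (s := 0) (m := fun x => 1 + K₁ + K₁ * om x) cm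
      (fun t _ => by nlinarith [SGb_om_pos t]) (fun t _ => by
        unfold pot
        have h2 := SGb_U_nonneg S t
        have h3 := S.U_le t
        have h4 := mul_le_mul_of_nonneg_right heK (SGb_om_pos t).le
        have h5 := mul_pos he (SGb_om_pos t)
        rw [abs_le]
        constructor <;> nlinarith) t ht.1
    have h2 : (∫ u in (0 : ℝ)..t, (1 + K₁ + K₁ * om u)) ≤ C₀ * (1 + K₁ + K₁ * om C₀) := by
      have h3 : (∫ u in (0 : ℝ)..t, (1 + K₁ + K₁ * om u)) ≤ ∫ u in (0 : ℝ)..t, (1 + K₁ + K₁ * om C₀) := by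
        refine intervalIntegral.integral_mono_on ht.1 (cm.intervalIntegrable _ _) (intervalIntegrable_const) ?_
        intro u hu
        have := SGb_om_mono (hu.2.trans ht.2)
        nlinarith
      rw [intervalIntegral.integral_const, smul_eq_mul] at h3
      have h4 : (t - 0) * (1 + K₁ + K₁ * om C₀) ≤ C₀ * (1 + K₁ + K₁ * om C₀) :=
        mul_le_mul_of_nonneg_right (by linarith [ht.2]) (by nlinarith [SGb_om_pos C₀])
      exact h3.trans h4
    have h3 : |S.φ 0 0| + |S.dφ 0 0| ≤ 1 + Cl * K₁ := by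
      rw [S.φ_zero 0 S.hN, abs_one, abs_of_nonneg hg0]
      have : Cl * S.e 0 ≤ Cl * K₁ := mul_le_mul_of_nonneg_left heK (by linarith)
      linarith
    calc S.φ 0 t ≤ |S.φ 0 t| + |S.dφ 0 t| := by linarith [le_abs_self (S.φ 0 t), abs_nonneg (S.dφ 0 t)]
      _ ≤ _ := h1
      _ ≤ A := mul_le_mul h3 (Real.exp_le_exp.2 h2) (Real.exp_pos _).le (by positivity)
  intro t ht
  rcases le_total t C₀ with h1 | h1
  · refine (hgr t ⟨ht.1, h1⟩).trans ?_
    rw [mul_assoc, ← Real.exp_add]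
    have : (1 : ℝ) ≤ Real.exp (0.99 * C₀ + -(0.99 * t)) := Real.one_le_exp (by linarith)
    nlinarith
  · have h2 := SGb_exp hs.d1 (a := C₀) (b := T) (ν := 0.99) (fun x hx => by
      have := (hg x ⟨hx.1, hx.2.trans_lt hTL⟩).2
      norm_num at this ⊢
      linarith) t ⟨h1, ht.2⟩
    refine h2.trans ?_
    rw [mul_assoc, ← Real.exp_add]
    have h3 : Real.exp (-(0.99 * (t - C₀))) = Real.exp (0.99 * C₀ + -(0.99 * t)) := by
      congr 1
      ring
    rw [h3]
    exact mul_le_mul_of_nonneg_right (hgr C₀ ⟨hC₀.le, le_rfl⟩) (Real.exp_pos _).le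

theorem SGb_sol0 (S : SD K₁ C₀ R) : Sol (pot 1 0 S.U) S.f₀ S.g₀ := by
  have : pot 1 0 S.U = fun x => 1 - S.U x := by
    funext x
    unfold pot
    ring
  rw [this]
  exact S.sol₀

theorem SGb_f0_pos (S : SD K₁ C₀ R) : ∀ x ∈ Ioc (-S.Lm) R, 0 < S.f₀ x := by
  intro x hx
  rcases lt_or_ge x 0 with h | h
  · exact (S.f₀_pos x ⟨hx.1, h⟩).1
  · exact (S.core x ⟨by linarith [hx.2], hx.2⟩).1

theorem e0_small (hK : 0 < K₁) (hC₀ : 0 < C₀) : ∃ C > 0, ∃ R₀ ≥ C₀, ∀ R ≥ R₀, ∀ S : SD K₁ C₀ R, ∀ T, S.IsT T →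
    S.e 0 ≤ C * Real.exp (-(1.9 * R)) := by
  obtain ⟨C₁, hC₁, R₁, hR₁, hφ⟩ := SGb_phi0 hK hC₀
  refine ⟨(K₁ + 1) + Real.exp 4 * (4 * Real.exp 1 * C₁), by positivity, max R₁ 2, le_max_of_le_left hR₁, ?_⟩
  intro R hR S T hT
  have hR1 : R₁ ≤ R := (le_max_left _ _).trans hR
  have hR2 : 2 ≤ R := (le_max_right _ _).trans hR
  have hCR : C₀ ≤ R := hR₁.trans hR1
  have hTR := hT.hR
  have hTL := hT.hLp
  have he := S.e_pos 0 S.hN
  have hx0 := Real.exp_pos (-(1.9 * R))
  rcases lt_or_ge (S.e 0 * om T) (K₁ + 1) with h | h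
  · have h1 : S.e 0 ≤ (K₁ + 1) * Real.exp (-(2 * T)) := by
      have h2 : S.e 0 = (S.e 0 * om T) * Real.exp (-(2 * T)) := by
        unfold om
        rw [mul_assoc, ← Real.exp_add, add_neg_cancel, Real.exp_zero, mul_one]
      rw [h2]
      exact mul_le_mul_of_nonneg_right h.le (Real.exp_pos _).le
    have h2 : Real.exp (-(2 * T)) ≤ Real.exp (-(1.9 * R)) := Real.exp_le_exp.2 (by norm_num; linarith)
    have h3 : 0 < Real.exp 4 * (4 * Real.exp 1 * C₁) := by positivity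
    calc S.e 0 ≤ (K₁ + 1) * Real.exp (-(2 * T)) := h1
      _ ≤ (K₁ + 1) * Real.exp (-(1.9 * R)) := mul_le_mul_of_nonneg_left h2 (by linarith)
      _ ≤ _ := mul_le_mul_of_nonneg_right (by linarith) hx0.le
  · have hs := S.sol 0 S.hN
    have hs0 := SGb_sol0 S
    have hg := SGb_ground S hC₀ hCR hT h
    have hφR := hφ R hR1 S T hT h R ⟨by linarith, hTR⟩
    have hLm := S.hLm
    have hLp := S.hLp
    -- the Wronskian
    set W : ℝ → ℝ := fun x => S.f₀ x * S.dφ 0 x - S.g₀ x * S.φ 0 x with hW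
    have hWd : ∀ x, HasDerivAt W (S.e 0 * om x * (S.f₀ x * S.φ 0 x)) x := by
      intro x
      refine (wronskian_hasDerivAt hs0 hs x).congr_deriv ?_
      unfold pot
      ring
    have cW : Continuous W := continuous_iff_continuousAt.2 fun x => (hWd x).continuousAt
    have hWmono : MonotoneOn W (Icc (-S.Lm) R) := by
      refine monotoneOn_of_deriv_nonneg (convex_Icc _ _) cW.continuousOn (fun t _ => (hWd t).differentiableAt.differentiableWithinAt) ?_
      intro t ht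
      rw [interior_Icc] at ht
      rw [(hWd t).deriv]
      have h1 := SGb_f0_pos S t ⟨ht.1, ht.2.le⟩
      have h2 := S.φ_pos t ⟨ht.1, ht.2.trans hLp⟩
      have h3 := SGb_om_pos t
      positivity
    have hW0 : 0 ≤ W 0 := by
      have h1 := hWmono (a := -S.Lm) (b := 0) ⟨le_rfl, by linarith⟩ ⟨by linarith, by linarith⟩ (by linarith)
      have h2 : W (-S.Lm) = 0 := by
        simp only [hW, S.f₀_left, S.φ_left 0 S.hN, zero_mul, mul_zero, sub_self]
      linarith
    -- lower bound of f₀ on [0,1]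
    have hcore := S.core
    have hR0 : (0 : ℝ) < R := by linarith
    have hRinv : 1 / R ≤ 1 / 2 := by
      rw [div_le_div_iff₀ hR0 (by norm_num)]
      linarith
    have hlow : ∀ x ∈ Icc (0 : ℝ) 1, Real.exp (-2) ≤ S.f₀ x := by
      intro x hx
      have h1 := SGb_exp (f := fun x => -S.f₀ x) (g := fun x => -S.g₀ x) (fun x => (S.sol₀.d1 x).neg) (a := 0) (b := 1) (ν := 2) (by
        intro t ht
        obtain ⟨h2, h3⟩ := hcore t ⟨by linarith [ht.1], by linarith [ht.2]⟩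
        have h4 := (abs_le.1 h3).1
        have h5 := Real.tanh_lt_one t
        have h6 : -2 ≤ S.g₀ t / S.f₀ t := by linarith
        rw [le_div_iff₀ h2] at h6
        linarith) x hx
      simp only [S.f₀_zero, sub_zero] at h1
      have h2 : Real.exp (-2) ≤ Real.exp (-(2 * x)) := Real.exp_le_exp.2 (by linarith [hx.2])
      linarith
    have hratio := (ratio_mono S le_rfl he.le hs hs0 (S.φ_left 0 S.hN) S.f₀_left (S.φ_zero 0 S.hN) S.f₀_zero (x := R)
      (by linarith) (fun t ht => SGb_f0_pos S t ⟨ht.1, ht.2.le⟩)).2.1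
    have hW1 : S.e 0 * Real.exp (-4) ≤ W 1 := by
      have h1 : MonotoneOn (fun x => W x - S.e 0 * Real.exp (-4) * x) (Icc 0 1) := by
        have hd : ∀ x, HasDerivAt (fun x => W x - S.e 0 * Real.exp (-4) * x) (S.e 0 * om x * (S.f₀ x * S.φ 0 x) - S.e 0 * Real.exp (-4) * 1) x :=
          fun x => (hWd x).sub ((hasDerivAt_id x).const_mul _)
        refine monotoneOn_of_deriv_nonneg (convex_Icc _ _) (by fun_prop) (fun t _ => (hd t).differentiableAt.differentiableWithinAt) ?_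
        intro t ht
        rw [interior_Icc] at ht
        rw [(hd t).deriv]
        have h2 := hlow t ⟨ht.1.le, ht.2.le⟩
        have h3 := hratio t ⟨ht.1.le, by linarith [ht.2]⟩
        have h4 : 1 ≤ om t := by
          unfold om
          exact Real.one_le_exp (by linarith [ht.1])
        have h5 : Real.exp (-4) ≤ S.f₀ t * S.φ 0 t := by
          rw [show (-4 : ℝ) = -2 + -2 by norm_num, Real.exp_add]
          exact mul_le_mul h2 (h2.trans h3) (Real.exp_pos _).le ((Real.exp_pos _).le.trans h2)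
        have h6 : Real.exp (-4) ≤ om t * (S.f₀ t * S.φ 0 t) := by
          have := Real.exp_pos (-4)
          nlinarith
        have h7 := mul_le_mul_of_nonneg_left h6 he.le
        nlinarith
      have h2 := h1 (left_mem_Icc.2 zero_le_one) (right_mem_Icc.2 zero_le_one) zero_le_one
      simp only [mul_zero, mul_one, sub_zero] at h2
      linarith
    have hWR : W 1 ≤ W R := hWmono ⟨by linarith, by linarith⟩ ⟨by linarith, le_rfl⟩ (by linarith)
    -- upper bound at R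
    have hup : S.f₀ R ≤ 2 * Real.exp 1 * Real.exp (-R) := by
      have hd : ∀ x, HasDerivAt (fun x => S.f₀ x * Real.cosh x * Real.exp (-(x / R)))
          ((S.g₀ x * Real.cosh x + S.f₀ x * Real.sinh x - S.f₀ x * Real.cosh x / R) * Real.exp (-(x / R))) x := by
        intro x
        have h1 : HasDerivAt (fun x => -(x / R)) (-(1 / R)) x := ((hasDerivAt_id x).div_const R).neg
        have h2 := ((S.sol₀.d1 x).mul (Real.hasDerivAt_cosh x)).mul h1.exp
        refine h2.congr_deriv ?_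
        simp only [Pi.mul_apply]
        ring
      have h1 : AntitoneOn (fun x => S.f₀ x * Real.cosh x * Real.exp (-(x / R))) (Icc 0 R) := by
        refine antitoneOn_of_deriv_nonpos (convex_Icc _ _) ?_ (fun t _ => (hd t).differentiableAt.differentiableWithinAt) ?_
        · exact fun x _ => (hd x).continuousAt.continuousWithinAt
        · intro t ht
          rw [interior_Icc] at ht
          rw [(hd t).deriv]
          refine mul_nonpos_of_nonpos_of_nonneg ?_ (Real.exp_pos _).le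
          obtain ⟨h2, h3⟩ := hcore t ⟨by linarith [ht.1], ht.2.le⟩
          have h4 := (abs_le.1 h3).2
          have h5 : S.g₀ t / S.f₀ t ≤ 1 / R - Real.tanh t := by linarith
          rw [div_le_iff₀ h2, Real.tanh_eq_sinh_div_cosh] at h5
          have h6 := Real.cosh_pos t
          have h7 := mul_le_mul_of_nonneg_right h5 h6.le
          have h8 : (1 / R - Real.sinh t / Real.cosh t) * S.f₀ t * Real.cosh t = S.f₀ t * Real.cosh t / R - S.f₀ t * Real.sinh t := by
            field_simp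
          linarith
      have h2 := h1 (left_mem_Icc.2 hR0.le) (right_mem_Icc.2 hR0.le) hR0.le
      simp only [S.f₀_zero, Real.cosh_zero, zero_div, neg_zero, Real.exp_zero, mul_one, div_self hR0.ne'] at h2
      have h3 : Real.exp R / 2 ≤ Real.cosh R := by
        rw [Real.cosh_eq]
        linarith [Real.exp_pos (-R)]
      have h4 : 0 < S.f₀ R := (hcore R ⟨by linarith, le_rfl⟩).1
      have h5 : S.f₀ R * (Real.exp R / 2) * Real.exp (-1) ≤ 1 := by
        refine le_trans ?_ h2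
        have := Real.exp_pos (-1)
        gcongr
      have h6 : S.f₀ R = (S.f₀ R * (Real.exp R / 2) * Real.exp (-1)) * (2 * Real.exp 1 * Real.exp (-R)) := by
        have h7 : Real.exp R * Real.exp (-R) = 1 := by rw [← Real.exp_add, add_neg_cancel, Real.exp_zero]
        have h8 : Real.exp (-1) * Real.exp 1 = 1 := by rw [← Real.exp_add, neg_add_cancel, Real.exp_zero]
        calc S.f₀ R = S.f₀ R * (Real.exp R * Real.exp (-R)) * (Real.exp (-1) * Real.exp 1) := by rw [h7, h8]; ring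
          _ = _ := by ring
      rw [h6]
      have h7 : 0 < 2 * Real.exp 1 * Real.exp (-R) := by positivity
      nlinarith
    have hWup : W R ≤ 2 * (S.f₀ R * S.φ 0 R) := by
      obtain ⟨h2, h3⟩ := hcore R ⟨by linarith, le_rfl⟩
      have h4 := (abs_le.1 h3).1
      have h5 := Real.tanh_lt_one R
      have h6 : -2 ≤ S.g₀ R / S.f₀ R := by linarith
      rw [le_div_iff₀ h2] at h6
      have h7 := (hg R ⟨hCR, hLp⟩).1
      have h8 := S.φ_pos R ⟨by linarith, hLp⟩
      have h9 : S.f₀ R * S.dφ 0 R ≤ 0 := mul_nonpos_of_nonneg_of_nonpos h2.le h7.le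
      have h10 := mul_le_mul_of_nonneg_right h6 h8.le
      simp only [hW]
      linarith
    have hfin : S.e 0 * Real.exp (-4) ≤ 4 * Real.exp 1 * C₁ * Real.exp (-(1.9 * R)) := by
      have h1 : S.f₀ R * S.φ 0 R ≤ (2 * Real.exp 1 * Real.exp (-R)) * (C₁ * Real.exp (-(0.99 * R))) :=
        mul_le_mul hup hφR (S.φ_pos R ⟨by linarith, hLp⟩).le (by positivity)
      have h2 : (2 * Real.exp 1 * Real.exp (-R)) * (C₁ * Real.exp (-(0.99 * R))) = 2 * Real.exp 1 * C₁ * Real.exp (-(1.99 * R)) := by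
        have h3 : Real.exp (-(1.99 * R)) = Real.exp (-R) * Real.exp (-(0.99 * R)) := by
          rw [← Real.exp_add]
          congr 1
          norm_num
          ring
        rw [h3]
        ring
      have h4 : Real.exp (-(1.99 * R)) ≤ Real.exp (-(1.9 * R)) := Real.exp_le_exp.2 (by norm_num; linarith)
      have h5 : 0 < 2 * Real.exp 1 * C₁ := by positivity
      have h6 := mul_le_mul_of_nonneg_left h4 h5.le
      linarith
    have h1 : S.e 0 = (S.e 0 * Real.exp (-4)) * Real.exp 4 := by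
      rw [mul_assoc, ← Real.exp_add, neg_add_cancel, Real.exp_zero, mul_one]
    rw [h1]
    have h2 := mul_le_mul_of_nonneg_right hfin (Real.exp_pos 4).le
    have h3 : 0 < (K₁ + 1) * Real.exp (-(1.9 * R)) := by positivity
    nlinarith

/-- bound on `[0,T]` of a positive solution whose log-derivative is below the one of a decaying ground state -/
theorem ground_bound (hK : 0 < K₁) (hC₀ : 0 < C₀) : ∃ C > 0, ∃ R₀ ≥ C₀, ∀ R ≥ R₀, ∀ S : SD K₁ C₀ R, ∀ T, S.IsT T →
    K₁ + 1 ≤ S.e 0 * om T → (∀ t ∈ Icc 0 T, S.φ 0 t ≤ C * Real.exp (-(0.99 * t))) ∧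
      ∀ j < S.N, (∀ x ∈ Ioo (-S.Lm) T, 0 < S.φ j x) → ∀ t ∈ Icc 0 T, S.φ j t ≤ C * Real.exp (-(0.99 * t)) := by
  obtain ⟨C₁, hC₁, R₁, hR₁, hφ⟩ := SGb_phi0 hK hC₀
  refine ⟨C₁, hC₁, R₁, hR₁, ?_⟩
  intro R hR S T hT h
  have hb := hφ R hR S T hT h
  refine ⟨hb, ?_⟩
  intro j hj hpos t ht
  refine le_trans ?_ (hb t ht)
  rcases Nat.eq_zero_or_pos j with rfl | hj0
  · exact le_rfl
  have hTR := hT.hR
  have hCR : C₀ ≤ R := hR₁.trans hR
  have hLm := S.hLm
  have hr := (ratio_mono S (S.e_pos j hj).le (S.e_anti 0 j hj0 hj).le (S.sol 0 S.hN) (S.sol j hj) (S.φ_left 0 S.hN) (S.φ_left j hj)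
    (S.φ_zero 0 S.hN) (S.φ_zero j hj) (x := T) (by linarith) hpos).2.1
  have c1 : Continuous (S.φ j) := continuous_iff_continuousAt.2 fun x => ((S.sol j hj).d1 x).continuousAt
  have c0 : Continuous (S.φ 0) := continuous_iff_continuousAt.2 fun x => ((S.sol 0 S.hN).d1 x).continuousAt
  have hcl : IsClosed {t | S.φ j t ≤ S.φ 0 t} := isClosed_le c1 c0
  have hsub : closure (Ico 0 T) ⊆ {t | S.φ j t ≤ S.φ 0 t} := hcl.closure_subset_iff.2 (fun t ht => hr t ht)
  rw [closure_Ico (ne_of_lt (show (0 : ℝ) < T by linarith))] at hsub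
  exact hsub ht

/-- 5.4 (c) -/
theorem supporter (hK : 0 < K₁) (hC₀ : 0 < C₀) : ∃ c > 0, ∃ R₀ ≥ C₀, ∀ R ≥ R₀, ∀ S : SD K₁ C₀ R, ∀ T, S.IsT T →
    ∃ j < S.N, c * Real.exp (-(S.γ * T)) ≤ |S.φ j T| := by
  obtain ⟨cw, hcw, Cw, hCw, R₁, hR₁, hw⟩ := weights hK hC₀
  refine ⟨Real.sqrt (1 / (100000 * Cw)), by positivity, R₁, hR₁, ?_⟩
  intro R hR S T hT
  by_contra hcon
  push Not at hcon
  obtain ⟨-, hw2⟩ := hw R hR S
  have hTR := hT.hR
  have hTL := hT.hLp
  have hCR : C₀ ≤ R := hR₁.trans hR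
  have hLm := S.hLm
  have hel := S.el T ⟨by linarith, hTL.le⟩
  rw [hT.eq] at hel
  set E := Real.exp (-(2 * S.γ * T)) with hE
  have hE0 : 0 < E := Real.exp_pos _
  have hsq : ∀ j < S.N, S.φ j T ^ 2 ≤ 1 / (100000 * Cw) * E := by
    intro j hj
    have h1 := (hcon j hj).le
    have h2 := pow_le_pow_left₀ (abs_nonneg _) h1 2
    rw [sq_abs, mul_pow, Real.sq_sqrt (by positivity), ← Real.exp_nat_mul] at h2
    have h3 : ((2 : ℕ) : ℝ) * (-(S.γ * T)) = -(2 * S.γ * T) := by push_cast; ring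
    rw [h3] at h2
    exact h2
  have h1 : S.γ * ∑ j ∈ Finset.range S.N, S.α j * S.φ j T ^ 2 ≤ (S.γ * ∑ j ∈ Finset.range S.N, S.α j) * (1 / (100000 * Cw) * E) := by
    rw [mul_assoc]
    refine mul_le_mul_of_nonneg_left ?_ S.hγ.le
    rw [Finset.sum_mul]
    refine Finset.sum_le_sum fun j hj => ?_
    exact mul_le_mul_of_nonneg_left (hsq j (Finset.mem_range.1 hj)) (S.α_pos j (Finset.mem_range.1 hj)).le
  have h2 : (S.γ * ∑ j ∈ Finset.range S.N, S.α j) * (1 / (100000 * Cw) * E) ≤ Cw * (1 / (100000 * Cw) * E) :=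
    mul_le_mul_of_nonneg_right hw2 (by positivity)
  have h3 : Cw * (1 / (100000 * Cw) * E) = 1 / 100000 * E := by field_simp
  have h4 : (1 / 10000 : ℝ) ≤ (1 / 100 : ℝ) ^ (1 + S.γ) := by
    have h5 : (1 / 100 : ℝ) ^ (2 : ℝ) ≤ (1 / 100 : ℝ) ^ (1 + S.γ) :=
      Real.rpow_le_rpow_of_exponent_ge (by norm_num) (by norm_num) (by linarith [S.hγ'])
    have h6 : (1 / 100 : ℝ) ^ (2 : ℝ) = 1 / 10000 := by norm_num
    linarith
  have h5 : (1 / 8) * 2 ≤ S.C * (2 + S.γ) := mul_le_mul S.hC (by linarith [S.hγ]) (by norm_num) (by linarith [S.hC])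
  have h6 : (1 / 8) * 2 * (1 / 10000) ≤ S.C * (2 + S.γ) * (1 / 100 : ℝ) ^ (1 + S.γ) :=
    mul_le_mul h5 h4 (by norm_num) (by linarith)
  have h7 := mul_le_mul_of_nonneg_right h6 hE0.le
  rw [← hel] at h7
  nlinarith

end Pool.Agent.RLT40
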