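import Pool.Agent.RLT40.SBa

/-!
# Module SH (paper 5.5): crude bounds and the positive supporter lemma.

crude: `growth` with `m = 1 + e ω + U` (`∫_0^T e ω ≤ (K₁+1)/2`, `∫ U ≤ Cu`), `g 0 ≤ Cl e ≤ 1`.
diff: `d = f - f'`: `d 0 = 0`, `|d'(0)| ≤ Cl (e+e')`, `d'' = (1+eω-U) d + (e-e') ω f'`, Duhamel / Gronwall: `|d|+|d'| ≤ C e^t ((e+e') + ∫_0^t e^{-s}|e-e'|e^{2s} e^s ds)`, at `t = T/3`, `e,e' ≤ (K₁+1)e^{-2T}`:
`≤ C e^{T/3} e^{-2T} e^{2T/3}`; `Bco ≤ ½ e^{-T/3}(|d|+|d'|)`.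
positive supporter: `T' = T - C₉`, `(K₁+1) e^{-2C₉} ≤ 1/10`.  Log-derivative `≤ sqrt(K₁+2)+1` on `[0,T]` so `φ_j(T') ≥ c' e^{-γT}`.  max_principle on `[C₀,T']` (`ν = 0.99`):
`φ_j(T'-1) ≤ C e^{-0.99 T'} + 0.38 φ_j(T') ≤ 0.4 φ_j(T')`; convexity: `φ_j'(T') ≥ 0.6 φ_j(T')`, `B(T') ≥ 0.8 e^{-T'} φ_j(T')`;
`B(T/3) = B(T') - ∫_{T/3}^{T'} ½e^{-s}(e ω - U)φ_j ≥ B(T') - ½ e ∫ e^s φ_j`, `φ_j(s) ≤ C e^{-0.99s} + φ_j(T')e^{-0.99(T'-s)}`.
-/

open MeasureTheory Set
open scoped ENNReal NNReal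

namespace Pool.Agent.RLT40

variable {K₁ C₀ : ℝ}

/-- growth bound for a linear equation with a source -/
theorem SHa_growth {V F f g : ℝ → ℝ} (hf : ∀ x, HasDerivAt f (g x) x)
    (hg : ∀ x, HasDerivAt g (V x * f x + F x) x) {s : ℝ} {m : ℝ → ℝ} (hm : Continuous m) (hF : Continuous F)
    (h1 : ∀ t, s ≤ t → 1 ≤ m t) (h2 : ∀ t, s ≤ t → |V t| ≤ m t) :
    ∀ t, s ≤ t → |f t| + |g t| ≤
      (|f s| + |g s| + ∫ u in s..t, |F u| * Real.exp (-∫ v in s..u, m v)) * Real.exp (∫ u in s..t, m u) := by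
  have cf : Continuous f := continuous_iff_continuousAt.2 fun x => (hf x).continuousAt
  have cg : Continuous g := continuous_iff_continuousAt.2 fun x => (hg x).continuousAt
  set D : ℝ → ℝ := fun t => |f t| + |g t| with hD
  have cD : Continuous D := by fun_prop
  have cmD : Continuous fun t => m t * D t + |F t| := (hm.mul cD).add hF.abs
  set Φ : ℝ → ℝ := fun t => D s + ∫ u in s..t, (m u * D u + |F u|) with hΦ
  have dΦ : ∀ t, HasDerivAt Φ (m t * D t + |F t|) t := fun t =>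
    ((cmD.integral_hasStrictDerivAt s t).hasDerivAt).const_add _
  -- D ≤ Φ
  have hDΦ : ∀ t, s ≤ t → D t ≤ Φ t := by
    intro t ht
    have cmf : Continuous fun t => m t * |f t| + |F t| := by fun_prop
    have b1 := image_norm_le_of_norm_deriv_right_le_deriv_boundary' (f := f) (f' := g) (a := s) (b := t)
      (B := fun x => |f s| + ∫ u in s..x, |g u|) (B' := fun x => |g x|) cf.continuousOn
      (fun x _ => (hf x).hasDerivWithinAt) (by simp)
      (fun x _ => (((cg.abs.integral_hasStrictDerivAt s x).hasDerivAt).const_add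
        |f s|).continuousAt.continuousWithinAt)
      (fun x _ => (((cg.abs.integral_hasStrictDerivAt s x).hasDerivAt).const_add |f s|).hasDerivWithinAt)
      (fun x _ => le_rfl) (right_mem_Icc.2 ht)
    have b2 := image_norm_le_of_norm_deriv_right_le_deriv_boundary' (f := g) (f' := fun x => V x * f x + F x)
      (a := s) (b := t) (B := fun x => |g s| + ∫ u in s..x, (m u * |f u| + |F u|))
      (B' := fun x => m x * |f x| + |F x|)
      cg.continuousOn (fun x _ => (hg x).hasDerivWithinAt) (by simp)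
      (fun x _ => (((cmf.integral_hasStrictDerivAt s x).hasDerivAt).const_add
        |g s|).continuousAt.continuousWithinAt)
      (fun x _ => (((cmf.integral_hasStrictDerivAt s x).hasDerivAt).const_add |g s|).hasDerivWithinAt)
      (fun x hx => by
        rw [Real.norm_eq_abs]
        refine (abs_add_le _ _).trans ?_
        rw [abs_mul]
        exact add_le_add_left (mul_le_mul_of_nonneg_right (h2 x hx.1) (abs_nonneg _)) _) (right_mem_Icc.2 ht)
    have b3 : (∫ u in s..t, |g u|) + ∫ u in s..t, (m u * |f u| + |F u|) ≤ ∫ u in s..t, (m u * D u + |F u|) := by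
      rw [← intervalIntegral.integral_add (cg.abs.intervalIntegrable _ _) (cmf.intervalIntegrable _ _)]
      refine intervalIntegral.integral_mono_on ht ((cg.abs.add cmf).intervalIntegrable _ _)
        (cmD.intervalIntegrable _ _) fun x hx => ?_
      have := h1 x hx.1
      have h3 := abs_nonneg (g x)
      simp only [hD]
      nlinarith
    simp only [Real.norm_eq_abs] at b1 b2
    simp only [hD, hΦ] at *
    linarith
  have dM : ∀ t, HasDerivAt (fun t => ∫ u in s..t, m u) (m t) t := fun t =>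
    (hm.integral_hasStrictDerivAt s t).hasDerivAt
  have cM : Continuous (fun t => ∫ u in s..t, m u) :=
    continuous_iff_continuousAt.2 fun x => (dM x).continuousAt
  have dE : ∀ t, HasDerivAt (fun t => Real.exp (-∫ u in s..t, m u))
      (Real.exp (-∫ u in s..t, m u) * (-m t)) t := fun t => (dM t).neg.exp
  have cFE : Continuous fun t => |F t| * Real.exp (-∫ u in s..t, m u) := by fun_prop
  have dI : ∀ t, HasDerivAt (fun t => ∫ u in s..t, |F u| * Real.exp (-∫ v in s..u, m v))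
      (|F t| * Real.exp (-∫ u in s..t, m u)) t := fun t =>
    (cFE.integral_hasStrictDerivAt s t).hasDerivAt
  have dP : ∀ t, HasDerivAt (fun t => Φ t * Real.exp (-∫ u in s..t, m u) -
        ∫ u in s..t, |F u| * Real.exp (-∫ v in s..u, m v))
      ((m t * D t + |F t|) * Real.exp (-∫ u in s..t, m u) +
        Φ t * (Real.exp (-∫ u in s..t, m u) * (-m t)) - |F t| * Real.exp (-∫ u in s..t, m u)) t :=
    fun t => ((dΦ t).mul (dE t)).sub (dI t)
  have anti : AntitoneOn (fun t => Φ t * Real.exp (-∫ u in s..t, m u) -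
        ∫ u in s..t, |F u| * Real.exp (-∫ v in s..u, m v)) (Ici s) := by
    refine antitoneOn_of_deriv_nonpos (convex_Ici s)
      (fun x _ => (dP x).continuousAt.continuousWithinAt)
      (fun x _ => (dP x).differentiableAt.differentiableWithinAt) fun x hx => ?_
    rw [interior_Ici] at hx
    rw [(dP x).deriv]
    have e1 := hDΦ x (le_of_lt hx)
    have e2 : 0 < Real.exp (-∫ u in s..x, m u) := Real.exp_pos _
    have e3 : 1 ≤ m x := h1 x (le_of_lt hx)
    have : (m x * D x + |F x|) * Real.exp (-∫ u in s..x, m u) +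
        Φ x * (Real.exp (-∫ u in s..x, m u) * (-m x)) - |F x| * Real.exp (-∫ u in s..x, m u) =
        -(m x * (Φ x - D x) * Real.exp (-∫ u in s..x, m u)) := by ring
    rw [this, neg_nonpos]
    have e4 : 0 ≤ Φ x - D x := by linarith
    positivity
  intro t ht
  have a1 := anti (mem_Ici.2 le_rfl) (mem_Ici.2 ht) ht
  simp only [intervalIntegral.integral_same, neg_zero, Real.exp_zero, mul_one, sub_zero] at a1
  have a2 : Φ s = D s := by simp [hΦ]
  rw [a2] at a1
  have a3 := hDΦ t ht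
  have a4 : 0 < Real.exp (∫ u in s..t, m u) := Real.exp_pos _
  have a5 : Φ t * Real.exp (-∫ u in s..t, m u) ≤
      D s + ∫ u in s..t, |F u| * Real.exp (-∫ v in s..u, m v) := by linarith
  calc |f t| + |g t| ≤ Φ t := a3
    _ = (Φ t * Real.exp (-∫ u in s..t, m u)) * Real.exp (∫ u in s..t, m u) := by
      rw [mul_assoc, ← Real.exp_add, neg_add_cancel, Real.exp_zero, mul_one]
    _ ≤ (D s + ∫ u in s..t, |F u| * Real.exp (-∫ v in s..u, m v)) * Real.exp (∫ u in s..t, m u) := by gcongr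

theorem SHa_U_nonneg {R : ℝ} (S : SD K₁ C₀ R) (x : ℝ) : 0 ≤ S.U x := by
  by_cases hx : x ∈ Ioo (-S.Lm) S.Lp
  · exact (S.U_pos x hx).le
  · exact (S.U_zero x hx).ge

theorem SHa_om_mono {x y : ℝ} (h : x ≤ y) : om x ≤ om y := by
  unfold om
  exact Real.exp_le_exp.2 (by linarith)

theorem SHa_om_cont : Continuous om := by
  unfold om
  fun_prop

/-- `e ≤ (K₁ + 1) e^{-2T}` -/
theorem SHa_e_le {e T : ℝ} (h : e * om T ≤ K₁ + 1) : e ≤ (K₁ + 1) * Real.exp (-(2 * T)) := by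
  unfold om at h
  have h1 : e = e * Real.exp (2 * T) * Real.exp (-(2 * T)) := by
    rw [mul_assoc, ← Real.exp_add, add_neg_cancel, Real.exp_zero, mul_one]
  rw [h1]
  exact mul_le_mul_of_nonneg_right h (Real.exp_pos _).le

theorem SHa_int_om (e t : ℝ) : ∫ u in (0 : ℝ)..t, e * om u = e * (om t - 1) / 2 := by
  have h1 : ∀ x ∈ uIcc (0 : ℝ) t, HasDerivAt (fun x => e * om x / 2) (e * om x) x := by
    intro x _
    have h2 : HasDerivAt (fun x : ℝ => 2 * x) 2 x := by
      simpa using (hasDerivAt_id x).const_mul 2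
    have h3 := ((h2.exp).const_mul e).div_const 2
    refine h3.congr_deriv ?_
    unfold om
    ring
  rw [intervalIntegral.integral_eq_sub_of_hasDerivAt h1
    ((continuous_const.mul SHa_om_cont).intervalIntegrable _ _)]
  unfold om
  simp
  ring

/-- the exponent of the growth bound -/
theorem SHa_int_m {R Cu : ℝ} (hC₀ : 0 < C₀) (hR : C₀ ≤ R) (S : SD K₁ C₀ R) {T : ℝ} (hT : S.IsT T)
    (hU : (∫ x in (-S.Lm)..T, S.U x) ≤ Cu) {e : ℝ} (he : 0 ≤ e) (heT : e * om T ≤ K₁ + 1) {t : ℝ}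
    (ht : t ∈ Icc 0 T) :
    t ≤ (∫ u in (0 : ℝ)..t, (1 + e * om u + S.U u)) ∧
      (∫ u in (0 : ℝ)..t, (1 + e * om u + S.U u)) ≤ t + ((K₁ + 1) / 2 + Cu) := by
  have c0 : Continuous fun u => e * om u := continuous_const.mul SHa_om_cont
  have c1 : Continuous fun u => 1 + e * om u := continuous_const.add c0
  have h1 : (∫ u in (0 : ℝ)..t, (1 + e * om u + S.U u)) = t + e * (om t - 1) / 2 + ∫ u in (0 : ℝ)..t, S.U u := by
    rw [intervalIntegral.integral_add (c1.intervalIntegrable _ _) (S.cU.intervalIntegrable _ _),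
      intervalIntegral.integral_add (continuous_const.intervalIntegrable _ _)
        (c0.intervalIntegrable _ _), SHa_int_om]
    simp
  have h2 : 0 ≤ ∫ u in (0 : ℝ)..t, S.U u :=
    intervalIntegral.integral_nonneg ht.1 fun x _ => SHa_U_nonneg S x
  have h3 : (∫ u in (0 : ℝ)..t, S.U u) ≤ ∫ x in (-S.Lm)..T, S.U x := by
    have hL := S.hLm
    refine intervalIntegral.integral_mono_interval (by linarith) ht.1 ht.2
      (Filter.Eventually.of_forall fun x => SHa_U_nonneg S x) (S.cU.intervalIntegrable _ _)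
  have h4 : (1 : ℝ) ≤ om t := by
    unfold om
    exact Real.one_le_exp (by linarith [ht.1])
  have h5 : e * om t ≤ e * om T := mul_le_mul_of_nonneg_left (SHa_om_mono ht.2) he
  have h6 : 0 ≤ e * (om t - 1) := mul_nonneg he (by linarith)
  rw [h1]
  constructor
  · linarith
  · have : e * (om t - 1) = e * om t - e := by ring
    linarith

theorem SHa_pot_abs {R : ℝ} (S : SD K₁ C₀ R) {e : ℝ} (he : 0 ≤ e) (t : ℝ) :
    |pot 1 e S.U t| ≤ 1 + e * om t + S.U t := by
  have h1 := SHa_U_nonneg S t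
  have h2 : 0 ≤ e * om t := mul_nonneg he (Real.exp_pos _).le
  unfold pot
  rw [abs_le]
  constructor <;> linarith

theorem crude (hK : 0 < K₁) (hC₀ : 0 < C₀) : ∃ C > 0, ∃ R₀ ≥ C₀, ∀ R ≥ R₀, ∀ S : SD K₁ C₀ R, ∀ T, S.IsT T →
    ∀ e : ℝ, 0 ≤ e → e * om T ≤ K₁ + 1 → ∀ f g : ℝ → ℝ, Sol (pot 1 e S.U) f g → f (-S.Lm) = 0 → f 0 = 1 →
      ∀ t ∈ Icc 0 T, |f t| + |g t| ≤ C * Real.exp t := by
  obtain ⟨Cl, hCl, cl, hcl, hcl1, R₁, hR₁, hleft⟩ := left_bounds (K₁ := K₁) (C₀ := C₀) hK hC₀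
  obtain ⟨Cu, hCu, hint⟩ := int_U (K₁ := K₁) (C₀ := C₀) hK hC₀
  refine ⟨(1 + Cl * (K₁ + 1)) * Real.exp ((K₁ + 1) / 2 + Cu), by positivity, R₁, hR₁, ?_⟩
  intro R hR S T hT e he heT f g hfg hf1 hf0 t ht
  have hRC : C₀ ≤ R := le_trans hR₁ hR
  have hTR := hT.hR
  have hU := hint R hRC S T (by linarith) hT.hLp.le hT.le
  obtain ⟨-, g0, g1, -⟩ := hleft R hR S e he f g hfg hf1 hf0
  have hm : Continuous fun u => 1 + e * om u + S.U u :=
    (continuous_const.add (continuous_const.mul SHa_om_cont)).add S.cU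
  have h1 := growth hfg (s := 0) hm
    (fun t _ => by
      have h1 := SHa_U_nonneg S t
      have h2 : 0 ≤ e * om t := mul_nonneg he (Real.exp_pos _).le
      linarith)
    (fun t _ => SHa_pot_abs S he t) t ht.1
  have h2 := (SHa_int_m hC₀ hRC S hT hU he heT ht).2
  have h3 : e ≤ K₁ + 1 := by
    have h4 := SHa_e_le heT
    have h5 : Real.exp (-(2 * T)) ≤ 1 := Real.exp_le_one_iff.2 (by linarith)
    nlinarith
  rw [hf0, abs_one, abs_of_nonneg g0] at h1
  refine h1.trans ?_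
  have h6 : 1 + g 0 ≤ 1 + Cl * (K₁ + 1) := by nlinarith
  have h7 : Real.exp (∫ u in (0 : ℝ)..t, (1 + e * om u + S.U u)) ≤ Real.exp (t + ((K₁ + 1) / 2 + Cu)) :=
    Real.exp_le_exp.2 h2
  calc (1 + g 0) * Real.exp (∫ u in (0 : ℝ)..t, (1 + e * om u + S.U u))
      ≤ (1 + Cl * (K₁ + 1)) * Real.exp (t + ((K₁ + 1) / 2 + Cu)) :=
        mul_le_mul h6 h7 (Real.exp_pos _).le (by positivity)
    _ = _ := by rw [Real.exp_add]; ring

theorem diff_third (hK : 0 < K₁) (hC₀ : 0 < C₀) : ∃ C > 0, ∃ R₀ ≥ C₀, ∀ R ≥ R₀, ∀ S : SD K₁ C₀ R, ∀ T, S.IsT T →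
    ∀ e e' : ℝ, 0 ≤ e → e * om T ≤ K₁ + 1 → 0 ≤ e' → e' * om T ≤ K₁ + 1 → ∀ f g f' g' : ℝ → ℝ,
      Sol (pot 1 e S.U) f g → f (-S.Lm) = 0 → f 0 = 1 → Sol (pot 1 e' S.U) f' g' → f' (-S.Lm) = 0 → f' 0 = 1 →
        |Bco f g (T / 3) - Bco f' g' (T / 3)| ≤ C * Real.exp (-(4 / 3 * T)) := by
  obtain ⟨Cl, hCl, cl, hcl, hcl1, R₁, hR₁, hleft⟩ := left_bounds (K₁ := K₁) (C₀ := C₀) hK hC₀
  obtain ⟨Cu, hCu, hint⟩ := int_U (K₁ := K₁) (C₀ := C₀) hK hC₀
  obtain ⟨Cc, hCc, R₂, hR₂, hcr⟩ := crude (K₁ := K₁) (C₀ := C₀) hK hC₀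
  refine ⟨(Cl * (K₁ + 1) + Cc * (K₁ + 1) / 2) * Real.exp ((K₁ + 1) / 2 + Cu), by positivity, max R₁ R₂,
    le_trans hR₁ (le_max_left _ _), ?_⟩
  intro R hR S T hT e e' he heT he' heT' f g f' g' hfg hf1 hf0 hfg' hf1' hf0'
  have hR1 : R₁ ≤ R := le_trans (le_max_left _ _) hR
  have hR2 : R₂ ≤ R := le_trans (le_max_right _ _) hR
  have hRC : C₀ ≤ R := le_trans hR₁ hR1
  have hTR := hT.hR
  have hT0 : 0 < T := by linarith
  have hU := hint R hRC S T (by linarith) hT.hLp.le hT.le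
  obtain ⟨-, g0, g1, -⟩ := hleft R hR1 S e he f g hfg hf1 hf0
  obtain ⟨-, g0', g1', -⟩ := hleft R hR1 S e' he' f' g' hfg' hf1' hf0'
  have hc := hcr R hR2 S T hT e' he' heT' f' g' hfg' hf1' hf0'
  have hm : Continuous fun u => 1 + e * om u + S.U u :=
    (continuous_const.add (continuous_const.mul SHa_om_cont)).add S.cU
  have cf' := hfg'.continuous_left
  have hF : Continuous fun u => (e - e') * om u * f' u := (continuous_const.mul SHa_om_cont).mul cf'
  have h1 := SHa_growth (V := pot 1 e S.U) (F := fun u => (e - e') * om u * f' u)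
    (f := fun t => f t - f' t) (g := fun t => g t - g' t)
    (fun x => (hfg.d1 x).sub (hfg'.d1 x))
    (fun x => ((hfg.d2 x).sub (hfg'.d2 x)).congr_deriv (by unfold pot; ring)) (s := 0) hm hF
    (fun t _ => by
      have h1 := SHa_U_nonneg S t
      have h2 : 0 ≤ e * om t := mul_nonneg he (Real.exp_pos _).le
      linarith)
    (fun t _ => SHa_pot_abs S he t) (T / 3) (by positivity)
  have hT3 : T / 3 ∈ Icc 0 T := ⟨by positivity, by linarith⟩
  have h2 := (SHa_int_m hC₀ hRC S hT hU he heT hT3).2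
  have e1 := SHa_e_le heT
  have e2 := SHa_e_le heT'
  set E := Real.exp (-(2 * T)) with hE
  have hE0 : 0 < E := Real.exp_pos _
  have h3 : |e - e'| ≤ (K₁ + 1) * E := by
    rw [abs_le]
    constructor <;> nlinarith
  have h4 : |g 0 - g' 0| ≤ Cl * ((K₁ + 1) * E) := by
    have a1 : Cl * e ≤ Cl * ((K₁ + 1) * E) := mul_le_mul_of_nonneg_left e1 (by linarith)
    have a2 : Cl * e' ≤ Cl * ((K₁ + 1) * E) := mul_le_mul_of_nonneg_left e2 (by linarith)
    rw [abs_le]
    constructor <;> linarith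
  -- the source term
  have h5 : (∫ u in (0 : ℝ)..(T / 3), |(e - e') * om u * f' u| *
      Real.exp (-∫ v in (0 : ℝ)..u, (1 + e * om v + S.U v))) ≤
      (K₁ + 1) * E * Cc * (Real.exp (2 * T / 3) / 2) := by
    have b1 : (∫ u in (0 : ℝ)..(T / 3), |(e - e') * om u * f' u| *
      Real.exp (-∫ v in (0 : ℝ)..u, (1 + e * om v + S.U v))) ≤
        ∫ u in (0 : ℝ)..(T / 3), ((K₁ + 1) * E * Cc) * om u := by
      have cM : Continuous (fun t => ∫ u in (0 : ℝ)..t, (1 + e * om u + S.U u)) :=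
        continuous_iff_continuousAt.2 fun x => ((hm.integral_hasStrictDerivAt 0 x).hasDerivAt).continuousAt
      refine intervalIntegral.integral_mono_on (by positivity)
        ((hF.abs.mul (Real.continuous_exp.comp cM.neg)).intervalIntegrable _ _)
        ((continuous_const.mul SHa_om_cont).intervalIntegrable _ _) fun u hu => ?_
      have hu' : u ∈ Icc 0 T := ⟨hu.1, by linarith [hu.2]⟩
      have b2 := (SHa_int_m hC₀ hRC S hT hU he heT hu').1
      have b3 : Real.exp (-∫ v in (0 : ℝ)..u, (1 + e * om v + S.U v)) ≤ Real.exp (-u) :=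
        Real.exp_le_exp.2 (by linarith)
      have b4 := hc u hu'
      have b5 : |f' u| ≤ Cc * Real.exp u := by
        have := abs_nonneg (g' u)
        linarith
      have b6 : (0 : ℝ) < om u := Real.exp_pos _
      rw [abs_mul, abs_mul, abs_of_pos b6]
      calc |e - e'| * om u * |f' u| * Real.exp (-∫ v in (0 : ℝ)..u, (1 + e * om v + S.U v))
          ≤ ((K₁ + 1) * E) * om u * (Cc * Real.exp u) * Real.exp (-u) := by
            gcongr
        _ = ((K₁ + 1) * E * Cc) * om u * (Real.exp u * Real.exp (-u)) := by ring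
        _ = ((K₁ + 1) * E * Cc) * om u := by
            rw [← Real.exp_add, add_neg_cancel, Real.exp_zero, mul_one]
    refine b1.trans ?_
    rw [SHa_int_om]
    have b7 : om (T / 3) = Real.exp (2 * T / 3) := by
      unfold om
      congr 1
      ring
    rw [b7]
    have b8 : 0 ≤ (K₁ + 1) * E * Cc := by positivity
    have b9 : (K₁ + 1) * E * Cc * (Real.exp (2 * T / 3) - 1) / 2 =
      (K₁ + 1) * E * Cc * (Real.exp (2 * T / 3) / 2) - (K₁ + 1) * E * Cc / 2 := by ring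
    rw [b9]
    linarith
  simp only [hf0, hf0', sub_self, abs_zero, zero_add] at h1
  have h6 : |f (T / 3) - f' (T / 3)| + |g (T / 3) - g' (T / 3)| ≤
      (Cl * ((K₁ + 1) * E) + (K₁ + 1) * E * Cc * (Real.exp (2 * T / 3) / 2)) *
        Real.exp (T / 3 + ((K₁ + 1) / 2 + Cu)) := by
    refine h1.trans ?_
    exact mul_le_mul (by linarith) (Real.exp_le_exp.2 h2) (Real.exp_pos _).le (by positivity)
  have h7 : Bco f g (T / 3) - Bco f' g' (T / 3) =
      1 / 2 * Real.exp (-(T / 3)) * ((f (T / 3) - f' (T / 3)) + (g (T / 3) - g' (T / 3))) := by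
    unfold Bco
    ring
  rw [h7, abs_mul, abs_of_pos (by positivity)]
  have h8 : |(f (T / 3) - f' (T / 3)) + (g (T / 3) - g' (T / 3))| ≤
      (Cl * ((K₁ + 1) * E) + (K₁ + 1) * E * Cc * (Real.exp (2 * T / 3) / 2)) *
        Real.exp (T / 3 + ((K₁ + 1) / 2 + Cu)) := (abs_add_le _ _).trans h6
  have h9 : (1 : ℝ) ≤ Real.exp (2 * T / 3) := Real.one_le_exp (by positivity)
  have h10 : E * Real.exp (2 * T / 3) = Real.exp (-(4 / 3 * T)) := by
    rw [hE, ← Real.exp_add]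
    congr 1
    ring
  have h11 : Real.exp (-(T / 3)) * Real.exp (T / 3 + ((K₁ + 1) / 2 + Cu)) = Real.exp ((K₁ + 1) / 2 + Cu) := by
    rw [← Real.exp_add]
    congr 1
    ring
  calc 1 / 2 * Real.exp (-(T / 3)) * |(f (T / 3) - f' (T / 3)) + (g (T / 3) - g' (T / 3))|
      ≤ 1 / 2 * Real.exp (-(T / 3)) *
        ((Cl * ((K₁ + 1) * E) + (K₁ + 1) * E * Cc * (Real.exp (2 * T / 3) / 2)) *
        Real.exp (T / 3 + ((K₁ + 1) / 2 + Cu))) := mul_le_mul_of_nonneg_left h8 (by positivity)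
    _ = 1 / 2 * (Cl * ((K₁ + 1) * E) + (K₁ + 1) * E * Cc * (Real.exp (2 * T / 3) / 2)) *
        (Real.exp (-(T / 3)) * Real.exp (T / 3 + ((K₁ + 1) / 2 + Cu))) := by ring
    _ = 1 / 2 * (Cl * (K₁ + 1) * E + (K₁ + 1) * Cc / 2 * (E * Real.exp (2 * T / 3))) *
        Real.exp ((K₁ + 1) / 2 + Cu) := by rw [h11]; ring
    _ ≤ (Cl * (K₁ + 1) * (E * Real.exp (2 * T / 3)) + (K₁ + 1) * Cc / 2 * (E * Real.exp (2 * T / 3))) *
        Real.exp ((K₁ + 1) / 2 + Cu) := by
        refine mul_le_mul_of_nonneg_right ?_ (Real.exp_pos _).le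
        have a1 : E ≤ E * Real.exp (2 * T / 3) := le_mul_of_one_le_right hE0.le h9
        have a2 : Cl * (K₁ + 1) * E ≤ Cl * (K₁ + 1) * (E * Real.exp (2 * T / 3)) :=
          mul_le_mul_of_nonneg_left a1 (by positivity)
        have a3 : 0 ≤ (K₁ + 1) * Cc / 2 * (E * Real.exp (2 * T / 3)) := by positivity
        have a4 : 0 ≤ Cl * (K₁ + 1) * E := by positivity
        linarith
    _ = (Cl * (K₁ + 1) + Cc * (K₁ + 1) / 2) * Real.exp ((K₁ + 1) / 2 + Cu) * Real.exp (-(4 / 3 * T)) := by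
        rw [h10]; ring

end Pool.Agent.RLT40
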