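import Pool.Agent.RLT40.SHa

/-!
# Module SH (paper 5.5): crude bounds and the positive supporter lemma.

crude: `growth` with `m = 1 + e ω + U` (`∫_0^T e ω ≤ (K₁+1)/2`, `∫ U ≤ Cu`), `g 0 ≤ Cl e ≤ 1`.
diff: `d = f - f'`: `d 0 = 0`, `|d'(0)| ≤ Cl (e+e')`, `d'' = (1+eω-U) d + (e-e') ω f'`, Duhamel / Gronwall: `|d|+|d'| ≤ C e^t ((e+e') + ∫_0^t e^{-s}|e-e'|e^{2s} e^s ds)`, at `t = T/3`, `e,e' ≤ (K₁+1)e^{-2T}`:
`≤ C e^{T/3} e^{-2T} e^{2T/3}`; `Bco ≤ ½ e^{-T/3}(|d|+|d'|)`.
positive supporter: `T' = T - C₉`, `(K₁+1) e^{-2C₉} ≤ 1/10`.  Log-derivative `≤ sqrt(K₁+2)+1` on `[0,T]` so `φ_j(T') ≥ c' e^{-γT}`.  max_principle on `[C₀,T']` (`ν = 0.99`):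
`φ_j(T'-1) ≤ C e^{-0.99 T'} + 0.38 φ_j(T') ≤ 0.4 φ_j(T')`; convexity: `φ_j'(T') ≥ 0.6 φ_j(T')`, `B(T') ≥ 0.8 e^{-T'} φ_j(T')`;
`B(T/3) = B(T') - ∫_{T/3}^{T'} ½e^{-s}(e ω - U)φ_j ≥ B(T') - ½ e ∫ e^s φ_j`, `φ_j(s) ≤ C e^{-0.99s} + φ_j(T')e^{-0.99(T'-s)}`.
-/

open MeasureTheory Set
open scoped ENNReal NNReal

namespace Pool.Agent.RLT40

variable {K₁ C₀ : ℝ}

theorem SHb_deriv_exp (a t : ℝ) : HasDerivAt (fun t => Real.exp (a * t)) (a * Real.exp (a * t)) t := by
  have h1 : HasDerivAt (fun t => a * t) a t := by simpa using (hasDerivAt_id t).const_mul a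
  simpa [mul_comm] using h1.exp

/-- bound of the logarithmic derivative of a positive solution -/
theorem SHb_log {V f g : ℝ → ℝ} (h : Sol V f g) {Q T : ℝ} (hT : 0 ≤ T)
    (hV : ∀ t ∈ Ioo 0 T, V t ≤ Q ^ 2) (hf : ∀ t ∈ Ioo 0 T, 0 < f t) (h0 : g 0 ≤ Q * f 0) :
    ∀ t ∈ Icc 0 T, g t ≤ Q * f t := by
  have d : ∀ t, HasDerivAt (fun t => (Q * f t - g t) * Real.exp (Q * t))
      ((Q * g t - V t * f t) * Real.exp (Q * t) + (Q * f t - g t) * (Q * Real.exp (Q * t))) t := fun t =>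
    ((((h.d1 t).const_mul Q)).sub (h.d2 t)).mul (SHb_deriv_exp Q t)
  have mono : MonotoneOn (fun t => (Q * f t - g t) * Real.exp (Q * t)) (Icc 0 T) := by
    refine monotoneOn_of_deriv_nonneg (convex_Icc 0 T)
      (fun x _ => (d x).continuousAt.continuousWithinAt)
      (fun x _ => (d x).differentiableAt.differentiableWithinAt) fun x hx => ?_
    rw [interior_Icc] at hx
    rw [(d x).deriv]
    have : (Q * g x - V x * f x) * Real.exp (Q * x) + (Q * f x - g x) * (Q * Real.exp (Q * x)) =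
        (Q ^ 2 - V x) * f x * Real.exp (Q * x) := by ring
    rw [this]
    have h1 := hV x hx
    have h2 := hf x hx
    have h3 := Real.exp_pos (Q * x)
    have h4 : 0 ≤ Q ^ 2 - V x := by linarith
    positivity
  intro t ht
  have h1 := mono ⟨le_rfl, hT⟩ ht ht.1
  simp only [mul_zero, Real.exp_zero, mul_one] at h1
  have h2 : 0 ≤ (Q * f t - g t) * Real.exp (Q * t) := by linarith
  have h3 := Real.exp_pos (Q * t)
  by_contra hcon
  push Not at hcon
  have : (Q * f t - g t) * Real.exp (Q * t) < 0 := mul_neg_of_neg_of_pos (by linarith) h3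
  linarith

theorem SHb_back {V f g : ℝ → ℝ} (h : Sol V f g) {Q s T : ℝ} (hsT : s ≤ T)
    (hg : ∀ t ∈ Icc s T, g t ≤ Q * f t) : f T ≤ f s * Real.exp (Q * (T - s)) := by
  have d : ∀ t, HasDerivAt (fun t => f t * Real.exp (-Q * t))
      (g t * Real.exp (-Q * t) + f t * (-Q * Real.exp (-Q * t))) t := fun t =>
    (h.d1 t).mul (SHb_deriv_exp (-Q) t)
  have anti : AntitoneOn (fun t => f t * Real.exp (-Q * t)) (Icc s T) := by
    refine antitoneOn_of_deriv_nonpos (convex_Icc s T)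
      (fun x _ => (d x).continuousAt.continuousWithinAt)
      (fun x _ => (d x).differentiableAt.differentiableWithinAt) fun x hx => ?_
    rw [interior_Icc] at hx
    rw [(d x).deriv]
    have : g x * Real.exp (-Q * x) + f x * (-Q * Real.exp (-Q * x)) =
        -((Q * f x - g x) * Real.exp (-Q * x)) := by ring
    rw [this, neg_nonpos]
    have h1 := hg x ⟨hx.1.le, hx.2.le⟩
    exact mul_nonneg (by linarith) (Real.exp_pos _).le
  have h1 := anti ⟨le_rfl, hsT⟩ ⟨hsT, le_rfl⟩ hsT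
  simp only at h1
  have h2 : f T = f T * Real.exp (-Q * T) * Real.exp (Q * T) := by
    rw [mul_assoc, ← Real.exp_add]
    simp
  have h3 : f s * Real.exp (Q * (T - s)) = f s * Real.exp (-Q * s) * Real.exp (Q * T) := by
    rw [mul_assoc, ← Real.exp_add]
    congr 2
    ring
  rw [h2, h3]
  exact mul_le_mul_of_nonneg_right h1 (Real.exp_pos _).le

/-- large `R` beats constants -/
theorem SHb_large (a b : ℝ) (hb : 0 < b) {δ : ℝ} (hδ : 0 < δ) :
    ∃ R₀ : ℝ, ∀ T ≥ R₀, a ≤ b * Real.exp (δ * T) := by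
  refine ⟨|a| / (b * δ), fun T hT => ?_⟩
  have h1 : δ * T + 1 ≤ Real.exp (δ * T) := Real.add_one_le_exp _
  have h2 : |a| / (b * δ) * (b * δ) = |a| := by field_simp
  have h3 : |a| ≤ T * (b * δ) := by
    rw [← h2]
    exact mul_le_mul_of_nonneg_right hT (by positivity)
  have h4 := le_abs_self a
  nlinarith

/-- the function `B` grows slowly -/
theorem SHb_B_step {R : ℝ} (S : SD K₁ C₀ R) {e : ℝ} (he : 0 ≤ e) {f g : ℝ → ℝ} (h : Sol (pot 1 e S.U) f g)
    {x y a b : ℝ} (hxy : x ≤ y)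
    (hf0 : ∀ t ∈ Ioo x y, 0 ≤ f t)
    (hf : ∀ t ∈ Ioo x y, f t ≤ a * Real.exp (-(0.99 * t)) + b * Real.exp (-(0.99 * (y - t)))) :
    Bco f g y - 1 / 2 * e * (100 * a * Real.exp (0.01 * y) + b * Real.exp y / 1.99) ≤
      Bco f g x - 1 / 2 * e * (100 * a * Real.exp (0.01 * x) + b * Real.exp (1.99 * x - 0.99 * y) / 1.99) := by
  have d1 : ∀ t, HasDerivAt (Bco f g) (1 / 2 * Real.exp (-t) * (e * om t - S.U t) * f t) t := by
    intro t
    have a1 : HasDerivAt (fun t => 1 / 2 * Real.exp (-t)) (1 / 2 * (-Real.exp (-t))) t := by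
      have := (SHb_deriv_exp (-1) t).const_mul (1 / 2)
      simpa using this
    have a2 := a1.mul ((h.d1 t).add (h.d2 t))
    refine a2.congr_deriv ?_
    unfold pot
    simp only [Pi.add_apply]
    ring
  have d2 : ∀ t, HasDerivAt (fun t => 1 / 2 * e * (100 * a * Real.exp (0.01 * t) +
      b * (Real.exp (1.99 * t) * Real.exp (-(0.99 * y))) / 1.99))
      (1 / 2 * e * (a * Real.exp (0.01 * t) + b * (Real.exp (1.99 * t) * Real.exp (-(0.99 * y))))) t := by
    intro t
    have a1 := (SHb_deriv_exp 0.01 t).const_mul (100 * a)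
    have a2 := (((SHb_deriv_exp 1.99 t).mul_const (Real.exp (-(0.99 * y)))).const_mul b).div_const 1.99
    have a3 := (a1.fun_add a2).const_mul (1 / 2 * e)
    refine a3.congr_deriv ?_
    ring
  have anti : AntitoneOn (fun t => Bco f g t - 1 / 2 * e * (100 * a * Real.exp (0.01 * t) +
      b * (Real.exp (1.99 * t) * Real.exp (-(0.99 * y))) / 1.99)) (Icc x y) := by
    refine antitoneOn_of_deriv_nonpos (convex_Icc x y)
      (fun t _ => ((d1 t).fun_sub (d2 t)).continuousAt.continuousWithinAt)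
      (fun t _ => ((d1 t).fun_sub (d2 t)).differentiableAt.differentiableWithinAt) fun t ht => ?_
    rw [interior_Icc] at ht
    rw [((d1 t).fun_sub (d2 t)).deriv]
    have h1 := hf t ht
    have h2 := hf0 t ht
    have h3 := SHa_U_nonneg S t
    have h4 : 1 / 2 * Real.exp (-t) * (e * om t - S.U t) * f t ≤ 1 / 2 * e * (Real.exp t * f t) := by
      have b1 : Real.exp (-t) * om t = Real.exp t := by
        unfold om
        rw [← Real.exp_add]
        congr 1
        ring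
      have b2 : 1 / 2 * Real.exp (-t) * (e * om t - S.U t) * f t =
          1 / 2 * e * ((Real.exp (-t) * om t) * f t) - 1 / 2 * Real.exp (-t) * (S.U t * f t) := by ring
      rw [b2, b1]
      have b3 : 0 ≤ 1 / 2 * Real.exp (-t) * (S.U t * f t) := by positivity
      linarith
    have h5 : Real.exp t * f t ≤ a * Real.exp (0.01 * t) + b * (Real.exp (1.99 * t) * Real.exp (-(0.99 * y))) := by
      have b1 := mul_le_mul_of_nonneg_left h1 (Real.exp_pos t).le
      have b2 : Real.exp t * Real.exp (-(0.99 * t)) = Real.exp (0.01 * t) := by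
        rw [← Real.exp_add]
        congr 1
        ring
      have b3 : Real.exp t * Real.exp (-(0.99 * (y - t))) = Real.exp (1.99 * t) * Real.exp (-(0.99 * y)) := by
        rw [← Real.exp_add, ← Real.exp_add]
        congr 1
        ring
      calc Real.exp t * f t ≤ _ := b1
        _ = a * (Real.exp t * Real.exp (-(0.99 * t))) + b * (Real.exp t * Real.exp (-(0.99 * (y - t)))) := by ring
        _ = _ := by rw [b2, b3]
    have h6 : 1 / 2 * e * (Real.exp t * f t) ≤
        1 / 2 * e * (a * Real.exp (0.01 * t) + b * (Real.exp (1.99 * t) * Real.exp (-(0.99 * y)))) :=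
      mul_le_mul_of_nonneg_left h5 (by positivity)
    linarith
  have h1 := anti ⟨le_rfl, hxy⟩ ⟨hxy, le_rfl⟩ hxy
  simp only at h1
  have e1 : Real.exp (1.99 * y) * Real.exp (-(0.99 * y)) = Real.exp y := by
    rw [← Real.exp_add]
    congr 1
    ring
  have e2 : Real.exp (1.99 * x) * Real.exp (-(0.99 * y)) = Real.exp (1.99 * x - 0.99 * y) := by
    rw [← Real.exp_add]
    congr 1
  rw [e1, e2] at h1
  exact h1

theorem SHb_exp_num : Real.exp (-(0.99 : ℝ)) ≤ 0.38 := by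
  have h1 := Real.exp_one_gt_d9
  have h2 : (1 : ℝ) - 0.01 ≤ Real.exp (-0.01) := by
    have := Real.add_one_le_exp (-0.01 : ℝ)
    linarith
  have h3 : Real.exp (0.99 : ℝ) = Real.exp 1 * Real.exp (-0.01) := by
    rw [← Real.exp_add]
    norm_num
  have h4 : (2.69 : ℝ) ≤ Real.exp 0.99 := by
    rw [h3]
    nlinarith
  rw [Real.exp_neg]
  rw [inv_le_comm₀ (Real.exp_pos _) (by norm_num)]
  refine le_trans ?_ h4
  norm_num

theorem pos_supporter (hK : 0 < K₁) (hC₀ : 0 < C₀) {c : ℝ} (hc : 0 < c) : ∃ c' > 0, ∃ R₀ ≥ C₀, ∀ R ≥ R₀, ∀ S : SD K₁ C₀ R, ∀ T, S.IsT T →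
    ∀ j < S.N, S.e j * om T ≤ K₁ + 1 → (∀ x ∈ Ioo (-S.Lm) T, 0 < S.φ j x) → c * Real.exp (-(S.γ * T)) ≤ S.φ j T →
      c' * Real.exp (-((1 + S.γ) * T)) ≤ Bco (S.φ j) (S.dφ j) (T / 3) := by
  obtain ⟨Cl, hCl, cl, hcl, hcl1, R₁, hR₁, hleft⟩ := left_bounds (K₁ := K₁) (C₀ := C₀) hK hC₀
  obtain ⟨Cc, hCc, R₂, hR₂, hcr⟩ := crude (K₁ := K₁) (C₀ := C₀) hK hC₀
  obtain ⟨Q, hQ⟩ : ∃ Q : ℝ, Q = K₁ + 3 := ⟨_, rfl⟩
  obtain ⟨C₉, hC₉⟩ : ∃ C₉ : ℝ, C₉ = 5 * (K₁ + 1) := ⟨_, rfl⟩
  obtain ⟨c₂, hc₂⟩ : ∃ c₂ : ℝ, c₂ = c * Real.exp (-(Q * C₉)) := ⟨_, rfl⟩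
  obtain ⟨C₂, hC₂⟩ : ∃ C₂ : ℝ, C₂ = Cc * Real.exp (1.99 * C₀) := ⟨_, rfl⟩
  have hc₂0 : 0 < c₂ := by rw [hc₂]; positivity
  have hC₂0 : 0 < C₂ := by rw [hC₂]; positivity
  obtain ⟨R₃, hR₃⟩ := SHb_large (50 * C₂ * Real.exp (0.99 * (C₉ + 1))) c₂ hc₂0 (δ := 0.98) (by norm_num)
  obtain ⟨R₄, hR₄⟩ := SHb_large (500 * (K₁ + 1) * C₂) c₂ hc₂0 (δ := 0.98) (by norm_num)
  obtain ⟨R₅, hR₅⟩ := SHb_large (Cl * (K₁ + 1)) 1 one_pos (δ := 2) (by norm_num)
  refine ⟨c₂ / 2, by positivity, max (max (max R₁ R₂) (max R₃ R₄)) (max R₅ (3 * C₀ + 2 * C₉ + 1)), ?_, ?_⟩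
  · exact le_trans hR₁ (le_trans (le_max_left _ _) (le_trans (le_max_left _ _) (le_max_left _ _)))
  intro R hR S T hT j hj heT hpos hsup
  have hR1 : R₁ ≤ R := le_trans (le_trans (le_max_left _ _) (le_trans (le_max_left _ _) (le_max_left _ _))) hR
  have hR2 : R₂ ≤ R := le_trans (le_trans (le_max_right _ _) (le_trans (le_max_left _ _) (le_max_left _ _))) hR
  have hR3 : R₃ ≤ R := le_trans (le_trans (le_max_left _ _) (le_trans (le_max_right _ _) (le_max_left _ _))) hR
  have hR4 : R₄ ≤ R := le_trans (le_trans (le_max_right _ _) (le_trans (le_max_right _ _) (le_max_left _ _))) hR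
  have hR5 : R₅ ≤ R := le_trans (le_trans (le_max_left _ _) (le_max_right _ _)) hR
  have hR6 : 3 * C₀ + 2 * C₉ + 1 ≤ R := le_trans (le_trans (le_max_right _ _) (le_max_right _ _)) hR
  have hTR := hT.hR
  have hLm := S.hLm
  have hC₉0 : 0 < C₉ := by rw [hC₉]; positivity
  have hT0 : 0 < T := by linarith
  have he := (S.e_pos j hj).le
  have hsol := S.sol j hj
  have e1 := SHa_e_le heT
  set e := S.e j with hedef
  set f := S.φ j with hfdef
  set g := S.dφ j with hgdef
  have hf1 : f (-S.Lm) = 0 := S.φ_left j hj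
  have hf0 : f 0 = 1 := S.φ_zero j hj
  obtain ⟨-, g0, g1, -⟩ := hleft R hR1 S e he f g hsol hf1 hf0
  have hcru := hcr R hR2 S T hT e he heT f g hsol hf1 hf0
  have hposT : 0 < f T := lt_of_lt_of_le (by positivity) hsup
  -- V bound
  have hV : ∀ t ∈ Ioo 0 T, pot 1 e S.U t ≤ Q ^ 2 := by
    intro t ht
    have a1 := SHa_U_nonneg S t
    have a2 : e * om t ≤ K₁ + 1 := le_trans (mul_le_mul_of_nonneg_left (SHa_om_mono ht.2.le) he) heT
    unfold pot
    rw [hQ]
    nlinarith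
  have hg0 : g 0 ≤ Q * f 0 := by
    have a1 := hR₅ T (by linarith)
    have a2 : Cl * e ≤ Cl * ((K₁ + 1) * Real.exp (-(2 * T))) := mul_le_mul_of_nonneg_left e1 (by linarith)
    have a3 : Cl * ((K₁ + 1) * Real.exp (-(2 * T))) ≤ 1 := by
      have a4 := mul_le_mul_of_nonneg_right a1 (Real.exp_pos (-(2 * T))).le
      have a5 : 1 * Real.exp (2 * T) * Real.exp (-(2 * T)) = 1 := by
        rw [one_mul, ← Real.exp_add, add_neg_cancel, Real.exp_zero]
      linarith
    rw [hf0, hQ]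
    linarith
  have hlog := SHb_log hsol (Q := Q) hT0.le hV (fun t ht => hpos t ⟨by linarith [ht.1], ht.2⟩) hg0
  -- the point `T' = T - C₉`
  obtain ⟨T', hT'⟩ : ∃ T' : ℝ, T' = T - C₉ := ⟨_, rfl⟩
  have hfT' : c₂ * Real.exp (-(S.γ * T)) ≤ f T' := by
    have a1 := SHb_back hsol (s := T') (T := T) (Q := Q) (by linarith)
      (fun t ht => hlog t ⟨by linarith [ht.1], ht.2⟩)
    have a2 : T - T' = C₉ := by linarith
    rw [a2] at a1
    have a3 : c * Real.exp (-(S.γ * T)) ≤ f T' * Real.exp (Q * C₉) := hsup.trans a1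
    have a4 := mul_le_mul_of_nonneg_right a3 (Real.exp_pos (-(Q * C₉))).le
    have a5 : f T' * Real.exp (Q * C₉) * Real.exp (-(Q * C₉)) = f T' := by
      rw [mul_assoc, ← Real.exp_add, add_neg_cancel, Real.exp_zero, mul_one]
    rw [a5] at a4
    rw [hc₂]
    linarith
  have hγT : c₂ * Real.exp (-(0.01 * T)) ≤ f T' := by
    refine le_trans (mul_le_mul_of_nonneg_left (Real.exp_le_exp.2 ?_) hc₂0.le) hfT'
    have := S.hγ'
    nlinarith
  have hfT'0 : 0 < f T' := lt_of_lt_of_le (by positivity) hγT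
  -- potential lower bound in the gap
  have hVl : ∀ t ∈ Icc C₀ T, 0.99 ≤ pot 1 e S.U t := by
    intro t ht
    have a1 := hT.le t ht
    have a2 : 0 ≤ e * om t := mul_nonneg he (Real.exp_pos _).le
    unfold pot
    linarith
  have hfpos : ∀ t ∈ Icc C₀ T, 0 < f t := by
    intro t ht
    rcases eq_or_lt_of_le ht.2 with h1 | h1
    · rw [h1]; exact hposT
    · exact hpos t ⟨by linarith [ht.1], h1⟩
  have hmax : ∀ t ∈ Icc C₀ T', f t ≤ C₂ * Real.exp (-(0.99 * t)) + f T' * Real.exp (-(0.99 * (T' - t))) := by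
    intro t ht
    have a1 := max_principle (x := C₀) (y := T') (ν := 0.99) (f := f) (f1 := g)
      (f2 := fun t => pot 1 e S.U t * f t) (by linarith) (by norm_num)
      hsol.continuous_left.continuousOn (fun t _ => hsol.d1 t) (fun t _ => hsol.d2 t)
      (fun t ht => by
        have b1 := hVl t ⟨ht.1.le, by linarith [ht.2]⟩
        have b2 := (hfpos t ⟨ht.1.le, by linarith [ht.2]⟩).le
        exact mul_le_mul_of_nonneg_right (by linarith) b2)
      (hfpos C₀ ⟨le_rfl, by linarith⟩).le hfT'0.le t ht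
    have a2 : f C₀ ≤ Cc * Real.exp C₀ := by
      have b1 := hcru C₀ ⟨hC₀.le, by linarith⟩
      have b2 := le_abs_self (f C₀)
      have b3 := abs_nonneg (g C₀)
      linarith
    have a3 : f C₀ * Real.exp (-(0.99 * (t - C₀))) ≤ C₂ * Real.exp (-(0.99 * t)) := by
      refine (mul_le_mul_of_nonneg_right a2 (Real.exp_pos _).le).trans (le_of_eq ?_)
      rw [hC₂, mul_assoc, mul_assoc, ← Real.exp_add, ← Real.exp_add]
      congr 2
      ring
    linarith
  -- value at T' - 1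
  have hm1 : f (T' - 1) ≤ 0.4 * f T' := by
    have a1 := hmax (T' - 1) ⟨by linarith, by linarith⟩
    have a2 : T' - (T' - 1) = 1 := by ring
    rw [a2, mul_one] at a1
    have a3 := SHb_exp_num
    have a4 : C₂ * Real.exp (-(0.99 * (T' - 1))) ≤ 0.02 * f T' := by
      have b1 := hR₃ T (by linarith)
      have b2 : Real.exp (-(0.99 * (T' - 1))) = Real.exp (0.99 * (C₉ + 1)) * Real.exp (-(0.99 * T)) := by
        rw [← Real.exp_add, hT']
        congr 1
        ring
      have b3 := mul_le_mul_of_nonneg_right b1 (Real.exp_pos (-(0.99 * T))).le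
      have b4 : c₂ * Real.exp (0.98 * T) * Real.exp (-(0.99 * T)) = c₂ * Real.exp (-(0.01 * T)) := by
        rw [mul_assoc, ← Real.exp_add]
        congr 2
        ring
      rw [b4] at b3
      rw [b2]
      have b5 := b3.trans hγT
      linarith
    have a5 : f T' * Real.exp (-0.99) ≤ f T' * 0.38 := mul_le_mul_of_nonneg_left a3 hfT'0.le
    linarith
  -- convexity
  have hgT' : 0.6 * f T' ≤ g T' := by
    obtain ⟨ξ, hξ, hξ2⟩ := exists_hasDerivAt_eq_slope f g (a := T' - 1) (b := T') (by linarith)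
      hsol.continuous_left.continuousOn (fun t _ => hsol.d1 t)
    have a1 : g ξ = f T' - f (T' - 1) := by rw [hξ2]; ring
    have mono : MonotoneOn g (Icc (T' - 1) T') := by
      refine monotoneOn_of_deriv_nonneg (convex_Icc _ _) hsol.continuous_right.continuousOn
        (fun t _ => (hsol.d2 t).differentiableAt.differentiableWithinAt) fun t ht => ?_
      rw [interior_Icc] at ht
      rw [(hsol.d2 t).deriv]
      have b1 := hVl t ⟨by linarith [ht.1], by linarith [ht.2]⟩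
      have b2 := (hfpos t ⟨by linarith [ht.1], by linarith [ht.2]⟩).le
      exact mul_nonneg (by linarith) b2
    have a2 := mono ⟨hξ.1.le, hξ.2.le⟩ ⟨by linarith, le_rfl⟩ hξ.2.le
    linarith
  have hBT' : 0.8 * (Real.exp (-T') * f T') ≤ Bco f g T' := by
    unfold Bco
    have := Real.exp_pos (-T')
    nlinarith
  -- from T' to T/3
  have hB := SHb_B_step S he hsol (x := T / 3) (y := T') (a := C₂) (b := f T') (by linarith)
    (fun t ht => (hfpos t ⟨by linarith [ht.1], by linarith [ht.2]⟩).le)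
    (fun t ht => hmax t ⟨by linarith [ht.1], ht.2.le⟩)
  have k0 : 0 ≤ 1 / 2 * e * (100 * C₂ * Real.exp (0.01 * (T / 3)) +
      f T' * Real.exp (1.99 * (T / 3) - 0.99 * T') / 1.99) := by positivity
  have k1 : 1 / 2 * e * (100 * C₂ * Real.exp (0.01 * T')) ≤ 0.1 * (Real.exp (-T') * f T') := by
    have b1 := hR₄ T (by linarith)
    have b2 : 1 / 2 * e * (100 * C₂ * Real.exp (0.01 * T')) ≤
        1 / 2 * ((K₁ + 1) * Real.exp (-(2 * T))) * (100 * C₂ * Real.exp (0.01 * T)) := by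
      have : Real.exp (0.01 * T') ≤ Real.exp (0.01 * T) := Real.exp_le_exp.2 (by linarith)
      gcongr
    have b3 : 1 / 2 * ((K₁ + 1) * Real.exp (-(2 * T))) * (100 * C₂ * Real.exp (0.01 * T)) =
        0.1 * (500 * (K₁ + 1) * C₂ * Real.exp (-(1.99 * T))) := by
      have : Real.exp (-(1.99 * T)) = Real.exp (-(2 * T)) * Real.exp (0.01 * T) := by
        rw [← Real.exp_add]
        congr 1
        ring
      rw [this]
      ring
    have b4 := mul_le_mul_of_nonneg_right b1 (Real.exp_pos (-(1.99 * T))).le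
    have b5 : c₂ * Real.exp (0.98 * T) * Real.exp (-(1.99 * T)) = Real.exp (-T) * (c₂ * Real.exp (-(0.01 * T))) := by
      have : Real.exp (0.98 * T) * Real.exp (-(1.99 * T)) = Real.exp (-T) * Real.exp (-(0.01 * T)) := by
        rw [← Real.exp_add, ← Real.exp_add]
        congr 1
        ring
      calc c₂ * Real.exp (0.98 * T) * Real.exp (-(1.99 * T)) =
          c₂ * (Real.exp (0.98 * T) * Real.exp (-(1.99 * T))) := by ring
        _ = _ := by rw [this]; ring
    rw [b5] at b4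
    have b6 : Real.exp (-T) * (c₂ * Real.exp (-(0.01 * T))) ≤ Real.exp (-T') * f T' := by
      have : Real.exp (-T) ≤ Real.exp (-T') := Real.exp_le_exp.2 (by linarith)
      exact mul_le_mul this hγT (by positivity) (Real.exp_pos _).le
    linarith
  have k2 : 1 / 2 * e * (f T' * Real.exp T' / 1.99) ≤ 0.05 * (Real.exp (-T') * f T') := by
    have b1 : e * Real.exp (2 * T') ≤ 0.1 := by
      have c1 : e * Real.exp (2 * T') ≤ (K₁ + 1) * Real.exp (-(2 * T)) * Real.exp (2 * T') :=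
        mul_le_mul_of_nonneg_right e1 (Real.exp_pos _).le
      have c2 : Real.exp (-(2 * T)) * Real.exp (2 * T') = Real.exp (-(10 * (K₁ + 1))) := by
        rw [← Real.exp_add, hT', hC₉]
        congr 1
        ring
      rw [mul_assoc, c2] at c1
      have c3 : 10 * (K₁ + 1) ≤ Real.exp (10 * (K₁ + 1)) := by
        have := Real.add_one_le_exp (10 * (K₁ + 1))
        linarith
      have c4 : 10 * (K₁ + 1) * Real.exp (-(10 * (K₁ + 1))) ≤ 1 := by
        have := mul_le_mul_of_nonneg_right c3 (Real.exp_pos (-(10 * (K₁ + 1)))).le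
        rwa [← Real.exp_add, add_neg_cancel, Real.exp_zero] at this
      linarith
    have b2 : Real.exp T' = Real.exp (2 * T') * Real.exp (-T') := by
      rw [← Real.exp_add]
      congr 1
      ring
    have b3 : 1 / 2 * e * (f T' * Real.exp T' / 1.99) =
        (e * Real.exp (2 * T')) * (Real.exp (-T') * f T') / 3.98 := by
      rw [b2]
      ring
    rw [b3]
    have b4 : 0 < Real.exp (-T') * f T' := by positivity
    clear_value f
    generalize Real.exp (-T') * f T' = X at b4 ⊢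
    generalize e * Real.exp (2 * T') = Y at b1 ⊢
    have b5 : Y * X ≤ 0.1 * X := mul_le_mul_of_nonneg_right b1 b4.le
    rw [div_le_iff₀ (by norm_num)]
    nlinarith
  have k3 : c₂ * Real.exp (-((1 + S.γ) * T)) ≤ Real.exp (-T') * f T' := by
    have a1 : Real.exp (-((1 + S.γ) * T)) = Real.exp (-T) * Real.exp (-(S.γ * T)) := by
      rw [← Real.exp_add]
      congr 1
      ring
    have a2 : Real.exp (-T) ≤ Real.exp (-T') := Real.exp_le_exp.2 (by linarith)
    have a3 := mul_le_mul a2 hfT' (by positivity) (Real.exp_pos _).le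
    rw [a1]
    linarith
  have k4 : 0 < Real.exp (-T') * f T' := by positivity
  have k5 : 1 / 2 * e * (100 * C₂ * Real.exp (0.01 * T') + f T' * Real.exp T' / 1.99) =
    1 / 2 * e * (100 * C₂ * Real.exp (0.01 * T')) + 1 / 2 * e * (f T' * Real.exp T' / 1.99) := by ring
  rw [k5] at hB
  linarith

end Pool.Agent.RLT40
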