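import Pool.Agent.RLT40.SCa
import Pool.Agent.RLT40.SGa
import Pool.Agent.RLT40.SGb
import Pool.Agent.RLT40.SHb

/-!
# Module SI (paper 5.6): Case I, `T ≤ z`, is impossible.

All `e_i ω(T) ≤ K₁ + 1`: `i ≥ 1` by e_le; `i = 0`: otherwise every `φ_j` is positive on `(-Lm,T)` (ratio_mono with `f₀`), so by ground_bound no supporter (for `R` large, `γ ≤ 1/100`).
pos_supporter + diff_third: `B_i(T/3) ≥ c e^{-(1+γ)T}` for ALL `i < N`.  `A_i(T/3) ≥ 0.4`: `A' = ½e^t(U - eω)f ≥ -½ e e^{3t} f`, crude.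
`P_i = -4 A_i B_i - e_i ω φ_i² ≤ -1.6 B_i`.  decay_gap: `U(T/3)^{2+γ} ≤ C e^{-1.2T}` .  So `Z(T/3) ≤ -1.6 γΣα_iB_i + C e^{-1.2T}`.
Z_left with `Wl ≥ 0`, `C m ≥ 0`: `Z(T/3) ≥ -2γ Σ α_i e_i ∫_{-Lm}^{T/3} ω φ_i²`.  max_principle on `[C₀,T/3]` (ν = 0.99): `φ_i(t) ≤ C e^{-0.99t} + φ_i(T/3) e^{-0.99(T/3-t)}`, so
`∫ ω φ_i² ≤ C e^{0.03T} + C φ_i(T/3)² e^{2T/3}`, and `A_i(T/3) ≤ C + C e^{-0.2T} φ_i(T/3)` (`A' ≤ ½e^tUφ_i`, decay_gap), `φ_i(T/3) = A_i e^{-T/3} + B_i e^{T/3} ≤ C e^{-T/3} + 2B_ie^{T/3}`,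
`B_i(T/3) ≤ C`.  Hence `1.6 γΣα_iB_i ≤ C e^{-1.2T} + C γΣα_i (e^{-1.9T} + e^{-0.6T} B_i)`: contradiction with `γΣα_iB_i ≥ c e^{-(1+γ)T}` (weights, e0_small) for `T ≥ R₀`.
-/

open MeasureTheory Set
open scoped ENNReal NNReal

namespace Pool.Agent.RLT40

/-! ### Helpers -/

lemma si_mono {F F' : ℝ → ℝ} {a b : ℝ} (hab : a ≤ b) (h : ∀ x ∈ Icc a b, HasDerivAt F (F' x) x)
    (h0 : ∀ x ∈ Icc a b, 0 ≤ F' x) : F a ≤ F b := by
  have hm : MonotoneOn F (Icc a b) := by
    apply monotoneOn_of_deriv_nonneg (convex_Icc a b)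
    · exact fun x hx => (h x hx).continuousAt.continuousWithinAt
    · intro x hx
      rw [interior_Icc] at hx
      exact (h x (Ioo_subset_Icc_self hx)).differentiableAt.differentiableWithinAt
    · intro x hx
      rw [interior_Icc] at hx
      rw [(h x (Ioo_subset_Icc_self hx)).deriv]
      exact h0 x (Ioo_subset_Icc_self hx)
  exact hm (left_mem_Icc.2 hab) (right_mem_Icc.2 hab) hab

lemma si_int_le {a b : ℝ} (hab : a ≤ b) {u Φ φ' : ℝ → ℝ} (hu : Continuous u)
    (hΦ : ∀ x ∈ Icc a b, HasDerivAt Φ (φ' x) x) (h : ∀ x ∈ Icc a b, u x ≤ φ' x) :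
    ∫ x in a..b, u x ≤ Φ b - Φ a := by
  have key := si_mono (F := fun x => Φ x - ∫ t in a..x, u t) (F' := fun x => φ' x - u x) hab
    (fun x hx => (hΦ x hx).sub (hu.integral_hasStrictDerivAt a x).hasDerivAt)
    (fun x hx => sub_nonneg.2 (h x hx))
  simp only [intervalIntegral.integral_same, sub_zero] at key
  linarith

lemma si_exp_small {a : ℝ} (ha : 0 < a) (C : ℝ) {δ : ℝ} (hδ : 0 < δ) :
    ∃ R₀ : ℝ, ∀ T ≥ R₀, C * Real.exp (-(a * T)) < δ := by
  have h1 : Filter.Tendsto (fun T : ℝ => C * Real.exp (-(a * T))) Filter.atTop (nhds (C * 0)) := by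
    apply Filter.Tendsto.const_mul
    exact Real.tendsto_exp_neg_atTop_nhds_zero.comp (Filter.tendsto_id.const_mul_atTop ha)
  rw [mul_zero] at h1
  obtain ⟨R₀, h⟩ := Filter.eventually_atTop.1 (h1.eventually (gt_mem_nhds hδ))
  exact ⟨R₀, h⟩

variable {K₁ C₀ R : ℝ}

lemma SD.U_nonneg' (S : SD K₁ C₀ R) (x : ℝ) : 0 ≤ S.U x := by
  by_cases h : x ∈ Ioo (-S.Lm) S.Lp
  · exact (S.U_pos x h).le
  · rw [S.U_zero x h]

lemma si_aco_deriv {U : ℝ → ℝ} {e : ℝ} {f g : ℝ → ℝ} (h : Sol (pot 1 e U) f g) (t : ℝ) :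
    HasDerivAt (Aco f g) (1 / 2 * Real.exp t * ((U t - e * om t) * f t)) t := by
  have h1 : HasDerivAt (fun t => 1 / 2 * Real.exp t * (f t - g t))
      (1 / 2 * Real.exp t * (f t - g t) + 1 / 2 * Real.exp t * (g t - pot 1 e U t * f t)) t :=
    ((Real.hasDerivAt_exp t).const_mul (1 / 2)).mul ((h.d1 t).sub (h.d2 t))
  refine h1.congr_deriv ?_
  simp only [pot]
  ring

lemma si_f_eq (f g : ℝ → ℝ) (t : ℝ) :
    f t = Aco f g t * Real.exp (-t) + Bco f g t * Real.exp t := by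
  have h : Real.exp t * Real.exp (-t) = 1 := by rw [← Real.exp_add]; simp
  unfold Aco Bco
  linear_combination (-(1 / 2) * (f t - g t) - (1 / 2) * (f t + g t)) * h

lemma si_P_eq (f g : ℝ → ℝ) (t : ℝ) : g t ^ 2 - f t ^ 2 = -4 * Aco f g t * Bco f g t := by
  have h : Real.exp t * Real.exp (-t) = 1 := by rw [← Real.exp_add]; simp
  unfold Aco Bco
  linear_combination ((f t - g t) * (f t + g t)) * h

lemma si_sq_le {f a b : ℝ} (h0 : 0 ≤ f) (h : f ≤ a + b) : f ^ 2 ≤ 2 * a ^ 2 + 2 * b ^ 2 := by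
  have : f ^ 2 ≤ (a + b) ^ 2 := pow_le_pow_left₀ h0 h 2
  nlinarith [sq_nonneg (a - b)]

lemma si_om_cont : Continuous om := by
  unfold om
  fun_prop

/-- The pointwise bound in the gap. -/
lemma si_gap_aux {T t fC F : ℝ} (hC₀ : 0 < C₀) (ht : C₀ ≤ t) (ht' : t ≤ T / 3) (hfC : 0 ≤ fC)
    (hF : 0 ≤ F) {u v : ℝ} (hu : u ≤ 1 / 50 * (Real.exp (-(1.8 * (t - C₀))) +
      Real.exp (-(1.8 * (T - t))))) (hv0 : 0 ≤ v)
    (hv : v ≤ fC * Real.exp (-(0.99 * (t - C₀))) + F * Real.exp (-(0.99 * (T / 3 - t)))) :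
    1 / 2 * Real.exp t * (u * v) ≤ Real.exp (2.79 * C₀) *
      (fC * Real.exp (-t) + F * Real.exp (-(0.2 * T) - 0.2 * t)) := by
  have hexp : ∀ x y : ℝ, Real.exp x * Real.exp y = Real.exp (x + y) := fun x y =>
    (Real.exp_add x y).symm
  have e1 : Real.exp t * Real.exp (-(1.8 * (t - C₀))) * Real.exp (-(0.99 * (t - C₀))) ≤
      Real.exp (2.79 * C₀) * Real.exp (-t) := by
    rw [hexp, hexp, hexp]
    apply Real.exp_le_exp.2
    linarith
  have e2 : Real.exp t * Real.exp (-(1.8 * (T - t))) * Real.exp (-(0.99 * (t - C₀))) ≤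
      Real.exp (2.79 * C₀) * Real.exp (-t) := by
    rw [hexp, hexp, hexp]
    apply Real.exp_le_exp.2
    linarith
  have e3 : Real.exp t * Real.exp (-(1.8 * (t - C₀))) * Real.exp (-(0.99 * (T / 3 - t))) ≤
      Real.exp (2.79 * C₀) * Real.exp (-(0.2 * T) - 0.2 * t) := by
    rw [hexp, hexp, hexp]
    apply Real.exp_le_exp.2
    linarith
  have e4 : Real.exp t * Real.exp (-(1.8 * (T - t))) * Real.exp (-(0.99 * (T / 3 - t))) ≤
      Real.exp (2.79 * C₀) * Real.exp (-(0.2 * T) - 0.2 * t) := by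
    rw [hexp, hexp, hexp]
    apply Real.exp_le_exp.2
    linarith
  set X0 := Real.exp t
  set X1 := Real.exp (-(1.8 * (t - C₀)))
  set X2 := Real.exp (-(1.8 * (T - t)))
  set Y1 := Real.exp (-(0.99 * (t - C₀)))
  set Y2 := Real.exp (-(0.99 * (T / 3 - t)))
  set M := Real.exp (2.79 * C₀)
  have p0 : 0 < X0 := Real.exp_pos _
  have p1 : 0 < X1 := Real.exp_pos _
  have p2 : 0 < X2 := Real.exp_pos _
  have h1 : u * v ≤ 1 / 50 * (X1 + X2) * (fC * Y1 + F * Y2) := by
    calc u * v ≤ (1 / 50 * (X1 + X2)) * v := mul_le_mul_of_nonneg_right hu hv0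
      _ ≤ 1 / 50 * (X1 + X2) * (fC * Y1 + F * Y2) :=
        mul_le_mul_of_nonneg_left hv (by positivity)
  have h2 : 1 / 2 * X0 * (u * v) ≤ 1 / 2 * X0 * (1 / 50 * (X1 + X2) * (fC * Y1 + F * Y2)) :=
    mul_le_mul_of_nonneg_left h1 (by positivity)
  have h3 : 1 / 2 * X0 * (1 / 50 * (X1 + X2) * (fC * Y1 + F * Y2)) =
      1 / 100 * (fC * (X0 * X1 * Y1) + fC * (X0 * X2 * Y1) + F * (X0 * X1 * Y2) +
        F * (X0 * X2 * Y2)) := by ring
  have g1 := mul_le_mul_of_nonneg_left e1 hfC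
  have g2 := mul_le_mul_of_nonneg_left e2 hfC
  have g3 := mul_le_mul_of_nonneg_left e3 hF
  have g4 := mul_le_mul_of_nonneg_left e4 hF
  have q1 : 0 ≤ fC * (M * Real.exp (-t)) := by positivity
  have q2 : 0 ≤ F * (M * Real.exp (-(0.2 * T) - 0.2 * t)) := by positivity
  have h4 : M * (fC * Real.exp (-t) + F * Real.exp (-(0.2 * T) - 0.2 * t)) =
      fC * (M * Real.exp (-t)) + F * (M * Real.exp (-(0.2 * T) - 0.2 * t)) := by ring
  rw [h4]
  rw [h3] at h2
  linarith

lemma si_om_sq (t x : ℝ) : om t * (x * Real.exp (-(0.99 * t))) ^ 2 = x ^ 2 * Real.exp (0.02 * t) := by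
  have : om t * Real.exp (-(0.99 * t)) ^ 2 = Real.exp (0.02 * t) := by
    unfold om
    rw [← Real.exp_nat_mul, ← Real.exp_add]
    congr 1
    push_cast
    ring
  calc om t * (x * Real.exp (-(0.99 * t))) ^ 2 = x ^ 2 * (om t * Real.exp (-(0.99 * t)) ^ 2) := by
        ring
    _ = _ := by rw [this]

lemma si_om_sq' (t T x : ℝ) : om t * (x * Real.exp (-(0.99 * (T / 3 - t)))) ^ 2 =
    x ^ 2 * Real.exp (3.98 * t - 0.66 * T) := by
  have : om t * Real.exp (-(0.99 * (T / 3 - t))) ^ 2 = Real.exp (3.98 * t - 0.66 * T) := by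
    unfold om
    rw [← Real.exp_nat_mul, ← Real.exp_add]
    congr 1
    push_cast
    ring
  calc om t * (x * Real.exp (-(0.99 * (T / 3 - t)))) ^ 2 =
      x ^ 2 * (om t * Real.exp (-(0.99 * (T / 3 - t))) ^ 2) := by ring
    _ = _ := by rw [this]

/-- Bounds at `T/3` for a solution which is positive on `(-Lm, T)`. -/
lemma si_state (hK : 0 < K₁) (hC₀ : 0 < C₀) : ∃ C > 0, ∃ R₀ ≥ C₀, ∀ R ≥ R₀, ∀ S : SD K₁ C₀ R,
    ∀ T, S.IsT T → ∀ e : ℝ, 0 ≤ e → e * om T ≤ K₁ + 1 → ∀ f g : ℝ → ℝ, Sol (pot 1 e S.U) f g →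
      f (-S.Lm) = 0 → f 0 = 1 → (∀ x ∈ Ioo (-S.Lm) T, 0 < f x) →
      2 / 5 ≤ Aco f g (T / 3) ∧ Bco f g (T / 3) ≤ C ∧
      (0 ≤ Bco f g (T / 3) → e * (∫ x in (-S.Lm)..(T / 3), om x * f x ^ 2) ≤
        C * (Real.exp (-(1.9 * T)) + Real.exp (-(0.6 * T)) * Bco f g (T / 3))) := by
  obtain ⟨Cl, hCl, cl, hcl, _, R₁, hR₁, HL⟩ := left_bounds hK hC₀
  obtain ⟨Cc, hCc, R₂, hR₂, HC⟩ := crude hK hC₀
  obtain ⟨R₃, HR₃⟩ := si_exp_small (a := 2 / 3) (by norm_num) ((Cl / 2 + Cc / 8) * (K₁ + 1))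
    (δ := 1 / 10) (by norm_num)
  obtain ⟨R₄, HR₄⟩ := si_exp_small (a := 0.2) (by norm_num) (5 * Real.exp (2.79 * C₀))
    (δ := 1 / 2) (by norm_num)
  set M := Real.exp (2.79 * C₀) with hM
  have hM0 : 0 < M := Real.exp_pos _
  set E := 1 / 2 * Cc * Real.exp (2 * C₀) + M * (Cc * Real.exp C₀) with hE
  have hE0 : 0 < E := by positivity
  set C1 := Cl ^ 2 + Cc ^ 2 * Real.exp (4 * C₀) + 2 * (Cc * Real.exp (1.99 * C₀)) ^ 2 with hC1
  have hC10 : 0 < C1 := by positivity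
  refine ⟨(K₁ + 1) * (50 * C1 + 8 * E ^ 2 + 4 * Cc) + Cc, by positivity,
    max (max (3 * C₀) (max R₁ R₂)) (max R₃ R₄), ?_, ?_⟩
  · exact le_trans (by linarith) (le_trans (le_max_left _ _) (le_max_left _ _))
  intro R hR S T hT e he heT f g hs hl h0 hpos
  have r0 : 3 * C₀ ≤ R := le_trans (le_trans (le_max_left _ _) (le_max_left _ _)) hR
  have r1 : R₁ ≤ R := le_trans (le_trans (le_trans (le_max_left _ _) (le_max_right _ _))
    (le_max_left _ _)) hR
  have r2 : R₂ ≤ R := le_trans (le_trans (le_trans (le_max_right _ _) (le_max_right _ _))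
    (le_max_left _ _)) hR
  have r3 : R₃ ≤ T := le_trans (le_trans (le_trans (le_max_left _ _) (le_max_right _ _)) hR) hT.hR
  have r4 : R₄ ≤ T := le_trans (le_trans (le_trans (le_max_right _ _) (le_max_right _ _)) hR) hT.hR
  have hRT := hT.hR
  have hLm := S.hLm
  have hTp : 0 < T := by linarith
  have hT3 : C₀ ≤ T / 3 := by linarith
  have cr := HC R r2 S T hT e he heT f g hs hl h0
  obtain ⟨hL1, hL2, hL3, _⟩ := HL R r1 S e he f g hs hl h0
  have hf0 : ∀ t ∈ Icc 0 (T / 3), 0 ≤ f t := fun t ht =>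
    (hpos t ⟨by linarith [ht.1], by linarith [ht.2]⟩).le
  have hfc : ∀ t ∈ Icc 0 T, f t ≤ Cc * Real.exp t := fun t ht =>
    le_trans (le_abs_self _) (by linarith [cr t ht, abs_nonneg (g t)])
  have he2 : e ≤ (K₁ + 1) * Real.exp (-(2 * T)) := by
    have h1 : om T * Real.exp (-(2 * T)) = 1 := by
      unfold om; rw [← Real.exp_add]; simp
    calc e = e * om T * Real.exp (-(2 * T)) := by rw [mul_assoc, h1, mul_one]
      _ ≤ _ := mul_le_mul_of_nonneg_right heT (Real.exp_pos _).le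
  -- the lower bound of `A`
  have hA : 2 / 5 ≤ Aco f g (T / 3) := by
    have key := si_mono (F := fun t => Aco f g t + e * Cc / 8 * Real.exp (4 * t))
      (F' := fun t => 1 / 2 * Real.exp t * ((S.U t - e * om t) * f t) +
        e * Cc / 8 * (Real.exp (4 * t) * 4)) (a := 0) (b := T / 3) (by linarith)
      (fun t _ => (si_aco_deriv hs t).add
        ((((hasDerivAt_id t).const_mul 4).exp.congr_deriv (by simp)).const_mul _))
      (fun t ht => by
        have h1 := S.U_nonneg' t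
        have h2 := hf0 t ht
        have h3 := hfc t ⟨ht.1, by linarith [ht.2]⟩
        have h4 : Real.exp (4 * t) = Real.exp t * om t * Real.exp t := by
          unfold om; rw [← Real.exp_add, ← Real.exp_add]; congr 1; ring
        rw [h4]
        have h5 : 0 ≤ e * om t * Real.exp t := by
          have : 0 < om t := Real.exp_pos _
          positivity
        have h6 : e * om t * Real.exp t * f t ≤ e * om t * Real.exp t * (Cc * Real.exp t) :=
          mul_le_mul_of_nonneg_left h3 h5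
        have h7 : 0 ≤ Real.exp t * (S.U t * f t) := by positivity
        linarith)
    simp only [mul_zero, Real.exp_zero, mul_one] at key
    have h1 : Aco f g 0 = 1 / 2 * (1 - g 0) := by
      unfold Aco; rw [h0]; simp
    rw [h1] at key
    have h2 : Real.exp (-(2 * T)) ≤ Real.exp (-(2 / 3 * T)) := Real.exp_le_exp.2 (by linarith)
    have h3 : Real.exp (-(2 * T)) * Real.exp (4 * (T / 3)) = Real.exp (-(2 / 3 * T)) := by
      rw [← Real.exp_add]; congr 1; ring
    have h4 : e * Cc / 8 * Real.exp (4 * (T / 3)) ≤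
        Cc / 8 * (K₁ + 1) * Real.exp (-(2 / 3 * T)) := by
      have : e * Real.exp (4 * (T / 3)) ≤ (K₁ + 1) * Real.exp (-(2 / 3 * T)) := by
        calc e * Real.exp (4 * (T / 3)) ≤ (K₁ + 1) * Real.exp (-(2 * T)) *
              Real.exp (4 * (T / 3)) := mul_le_mul_of_nonneg_right he2 (Real.exp_pos _).le
          _ = _ := by rw [mul_assoc, h3]
      have h4' := mul_le_mul_of_nonneg_left this (show (0 : ℝ) ≤ Cc / 8 by positivity)
      linarith
    have h5 : g 0 ≤ Cl * ((K₁ + 1) * Real.exp (-(2 / 3 * T))) := by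
      refine le_trans hL3 (mul_le_mul_of_nonneg_left ?_ (by linarith))
      exact le_trans he2 (mul_le_mul_of_nonneg_left h2 (by linarith))
    have h6 := HR₃ T r3
    have h7 : 0 ≤ e * Cc / 8 := by positivity
    linarith
  -- the upper bound of `B`
  have hB : Bco f g (T / 3) ≤ Cc / 2 := by
    have h1 := cr (T / 3) ⟨by linarith, by linarith⟩
    have h2 : f (T / 3) + g (T / 3) ≤ Cc * Real.exp (T / 3) :=
      le_trans (add_le_add (le_abs_self _) (le_abs_self _)) h1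
    have h3 : Real.exp (-(T / 3)) * Real.exp (T / 3) = 1 := by rw [← Real.exp_add]; simp
    unfold Bco
    calc 1 / 2 * Real.exp (-(T / 3)) * (f (T / 3) + g (T / 3)) ≤
          1 / 2 * Real.exp (-(T / 3)) * (Cc * Real.exp (T / 3)) :=
          mul_le_mul_of_nonneg_left h2 (by positivity)
      _ = Cc / 2 * (Real.exp (-(T / 3)) * Real.exp (T / 3)) := by ring
      _ = Cc / 2 := by rw [h3, mul_one]
  refine ⟨hA, ?_, ?_⟩
  · have : 0 ≤ (K₁ + 1) * (50 * C1 + 8 * E ^ 2 + 4 * Cc) := by positivity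
    linarith
  intro hB0
  -- decay in the gap
  set F := f (T / 3) with hFdef
  have hF0 : 0 ≤ F := hf0 _ ⟨by linarith, le_rfl⟩
  have hfC0 : 0 ≤ f C₀ := hf0 _ ⟨hC₀.le, hT3⟩
  have hfC1 : f C₀ ≤ Cc * Real.exp C₀ := hfc _ ⟨hC₀.le, by linarith⟩
  have hdec : ∀ t ∈ Icc C₀ (T / 3), f t ≤ f C₀ * Real.exp (-(0.99 * (t - C₀))) +
      F * Real.exp (-(0.99 * (T / 3 - t))) := by
    apply max_principle (f1 := g) (f2 := fun t => pot 1 e S.U t * f t) hT3 (by norm_num)
      (fun t _ => (hs.d1 t).continuousAt.continuousWithinAt) (fun t _ => hs.d1 t)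
      (fun t _ => hs.d2 t) ?_ hfC0 hF0
    intro t ht
    have h1 := hT.le t ⟨ht.1.le, by linarith [ht.2]⟩
    have h2 := hf0 t ⟨by linarith [ht.1], ht.2.le⟩
    have h3 : 0 ≤ e * om t := by
      have : 0 < om t := Real.exp_pos _
      positivity
    have h4 : (0.99 : ℝ) ^ 2 ≤ pot 1 e S.U t := by
      unfold pot; norm_num; linarith
    exact mul_le_mul_of_nonneg_right h4 h2
  have hgap := S.decay_gap hC₀ (T := T) (by linarith) hT.hLp.le hT.le
  -- the upper bound of `A`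
  have hA2 : Aco f g (T / 3) ≤ E + 5 * M * F * Real.exp (-(0.2 * T)) := by
    have key := si_mono (a := C₀) (b := T / 3)
      (F := fun t => M * (-(f C₀ * Real.exp (-t)) + -(5 * F * Real.exp (-(0.2 * T) - 0.2 * t))) -
        Aco f g t)
      (F' := fun t => M * (f C₀ * Real.exp (-t) + F * Real.exp (-(0.2 * T) - 0.2 * t)) -
        1 / 2 * Real.exp t * ((S.U t - e * om t) * f t)) hT3
      (fun t _ => by
        refine HasDerivAt.sub ?_ (si_aco_deriv hs t)
        have d1 : HasDerivAt (fun t : ℝ => Real.exp (-t)) (-Real.exp (-t)) t := by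
          simpa using (hasDerivAt_neg t).exp
        have d2 : HasDerivAt (fun t : ℝ => Real.exp (-(0.2 * T) - 0.2 * t))
            (Real.exp (-(0.2 * T) - 0.2 * t) * (-0.2)) t := by
          have : HasDerivAt (fun t : ℝ => -(0.2 * T) - 0.2 * t) (-0.2) t := by
            simpa using ((hasDerivAt_id t).const_mul (0.2 : ℝ)).const_sub (-(0.2 * T))
          exact this.exp
        have d3 := (((d1.const_mul (f C₀)).neg).add ((d2.const_mul (5 * F)).neg)).const_mul M
        refine d3.congr_deriv ?_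
        ring)
      (fun t ht => by
        have h1 := hf0 t ⟨by linarith [ht.1], ht.2⟩
        have h2 := si_gap_aux hC₀ ht.1 ht.2 hfC0 hF0
          (hgap t ⟨ht.1, by linarith [ht.2]⟩) h1 (hdec t ht)
        rw [← hM] at h2
        have h3 : 0 ≤ 1 / 2 * Real.exp t * (e * om t * f t) := by
          have : 0 < om t := Real.exp_pos _
          positivity
        have h4 : 1 / 2 * Real.exp t * ((S.U t - e * om t) * f t) =
          1 / 2 * Real.exp t * (S.U t * f t) - 1 / 2 * Real.exp t * (e * om t * f t) := by ring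
        rw [h4]
        linarith)
    have h1 : Aco f g C₀ ≤ 1 / 2 * Cc * Real.exp (2 * C₀) := by
      have h2 := cr C₀ ⟨hC₀.le, by linarith⟩
      have h3 : f C₀ - g C₀ ≤ Cc * Real.exp C₀ := by
        have := le_abs_self (f C₀)
        have := neg_abs_le (g C₀)
        linarith
      have h4 : Real.exp C₀ * Real.exp C₀ = Real.exp (2 * C₀) := by
        rw [← Real.exp_add]; congr 1; ring
      unfold Aco
      calc 1 / 2 * Real.exp C₀ * (f C₀ - g C₀) ≤ 1 / 2 * Real.exp C₀ * (Cc * Real.exp C₀) :=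
            mul_le_mul_of_nonneg_left h3 (by positivity)
        _ = 1 / 2 * Cc * (Real.exp C₀ * Real.exp C₀) := by ring
        _ = _ := by rw [h4]
    have h5 : f C₀ * Real.exp (-C₀) ≤ Cc * Real.exp C₀ := by
      have : Real.exp (-C₀) ≤ 1 := Real.exp_le_one_iff.2 (by linarith)
      calc f C₀ * Real.exp (-C₀) ≤ f C₀ * 1 := mul_le_mul_of_nonneg_left this hfC0
        _ ≤ _ := by linarith
    have h6 : Real.exp (-(0.2 * T) - 0.2 * C₀) ≤ Real.exp (-(0.2 * T)) :=
      Real.exp_le_exp.2 (by linarith)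
    have h7 : 0 ≤ f C₀ * Real.exp (-(T / 3)) := by positivity
    have h8 : 0 ≤ F * Real.exp (-(0.2 * T) - 0.2 * (T / 3)) := by positivity
    have h9 : F * Real.exp (-(0.2 * T) - 0.2 * C₀) ≤ F * Real.exp (-(0.2 * T)) :=
      mul_le_mul_of_nonneg_left h6 hF0
    have h10 : M * (-(f C₀ * Real.exp (-(T / 3))) +
        -(5 * F * Real.exp (-(0.2 * T) - 0.2 * (T / 3)))) ≤ 0 := by
      have : -(f C₀ * Real.exp (-(T / 3))) +
        -(5 * F * Real.exp (-(0.2 * T) - 0.2 * (T / 3))) ≤ 0 := by linarith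
      exact mul_nonpos_of_nonneg_of_nonpos hM0.le this
    have h11 : M * (f C₀ * Real.exp (-C₀) + 5 * F * Real.exp (-(0.2 * T) - 0.2 * C₀)) ≤
        M * (Cc * Real.exp C₀ + 5 * (F * Real.exp (-(0.2 * T)))) :=
      mul_le_mul_of_nonneg_left (by linarith) hM0.le
    rw [hE]
    linarith
  -- the bound of `F`
  have hFb : F ≤ 2 * E * Real.exp (-(T / 3)) + 2 * Bco f g (T / 3) * Real.exp (T / 3) := by
    have h1 := si_f_eq f g (T / 3)
    have h2 : Real.exp (-(T / 3)) ≤ 1 := Real.exp_le_one_iff.2 (by linarith)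
    have h3 := HR₄ T r4
    have h4 : Aco f g (T / 3) * Real.exp (-(T / 3)) ≤
        (E + 5 * M * F * Real.exp (-(0.2 * T))) * Real.exp (-(T / 3)) :=
      mul_le_mul_of_nonneg_right hA2 (Real.exp_pos _).le
    have h5 : 5 * M * F * Real.exp (-(0.2 * T)) * Real.exp (-(T / 3)) ≤ 1 / 2 * F := by
      have h6 : 5 * M * Real.exp (-(0.2 * T)) * Real.exp (-(T / 3)) ≤ 1 / 2 * 1 :=
        mul_le_mul h3.le h2 (Real.exp_pos _).le (by norm_num)
      have h6' := mul_le_mul_of_nonneg_right h6 hF0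
      linarith
    rw [← hFdef] at h1
    linarith
  -- the integral
  have hint : (∫ x in (-S.Lm)..(T / 3), om x * f x ^ 2) ≤
      50 * C1 * Real.exp (0.02 * (T / 3)) + F ^ 2 * Real.exp (2 / 3 * T) := by
    have hcont : Continuous fun x => om x * f x ^ 2 :=
      si_om_cont.mul (hs.continuous_left.pow 2)
    have key := si_int_le (a := -S.Lm) (b := T / 3) (by linarith) hcont
      (Φ := fun t => 50 * C1 * Real.exp (0.02 * t) +
        2 / 3.98 * F ^ 2 * Real.exp (3.98 * t - 0.66 * T))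
      (φ' := fun t => C1 * Real.exp (0.02 * t) + 2 * F ^ 2 * Real.exp (3.98 * t - 0.66 * T))
      (fun t _ => by
        have d1 : HasDerivAt (fun t : ℝ => Real.exp (0.02 * t)) (Real.exp (0.02 * t) * 0.02) t := by
          have : HasDerivAt (fun t : ℝ => 0.02 * t) 0.02 t := by
            simpa using (hasDerivAt_id t).const_mul (0.02 : ℝ)
          exact this.exp
        have d2 : HasDerivAt (fun t : ℝ => Real.exp (3.98 * t - 0.66 * T))
            (Real.exp (3.98 * t - 0.66 * T) * 3.98) t := by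
          have : HasDerivAt (fun t : ℝ => 3.98 * t - 0.66 * T) 3.98 t := by
            simpa using ((hasDerivAt_id t).const_mul (3.98 : ℝ)).sub_const (0.66 * T)
          exact this.exp
        refine ((d1.const_mul (50 * C1)).add (d2.const_mul (2 / 3.98 * F ^ 2))).congr_deriv ?_
        ring)
      (fun t ht => by
        have q1 : 0 ≤ 2 * F ^ 2 * Real.exp (3.98 * t - 0.66 * T) := by positivity
        have hom : om t = Real.exp (2 * t) := rfl
        rcases le_total t 0 with h1 | h1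
        · have h2 : om t * f t ^ 2 ≤ Cl ^ 2 * Real.exp (0.02 * t) := by
            rcases eq_or_lt_of_le ht.1 with h3 | h3
            · rw [← h3, hl]
              simp only [ne_eq, OfNat.ofNat_ne_zero, not_false_eq_true, zero_pow, mul_zero]
              positivity
            · obtain ⟨h4, _, h5⟩ := hL1 t ⟨h3, h1⟩
              have h6 : f t ^ 2 ≤ (Cl * Real.exp t) ^ 2 := pow_le_pow_left₀ h4.le h5 2
              have h7 : om t * (Cl * Real.exp t) ^ 2 = Cl ^ 2 * Real.exp (4 * t) := by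
                rw [hom, mul_pow, ← Real.exp_nat_mul,
                  show Real.exp (2 * t) * (Cl ^ 2 * Real.exp (((2 : ℕ) : ℝ) * t)) =
                    Cl ^ 2 * (Real.exp (2 * t) * Real.exp (((2 : ℕ) : ℝ) * t)) by ring,
                  ← Real.exp_add]
                congr 2
                push_cast
                ring
              have h8 : Real.exp (4 * t) ≤ Real.exp (0.02 * t) := Real.exp_le_exp.2 (by linarith)
              calc om t * f t ^ 2 ≤ om t * (Cl * Real.exp t) ^ 2 :=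
                    mul_le_mul_of_nonneg_left h6 (Real.exp_pos _).le
                _ = Cl ^ 2 * Real.exp (4 * t) := h7
                _ ≤ _ := mul_le_mul_of_nonneg_left h8 (by positivity)
          have h9 : Cl ^ 2 * Real.exp (0.02 * t) ≤ C1 * Real.exp (0.02 * t) := by
            apply mul_le_mul_of_nonneg_right _ (Real.exp_pos _).le
            rw [hC1]
            have : 0 ≤ Cc ^ 2 * Real.exp (4 * C₀) + 2 * (Cc * Real.exp (1.99 * C₀)) ^ 2 := by
              positivity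
            linarith
          linarith
        rcases le_total t C₀ with h2 | h2
        · have h3 := hf0 t ⟨h1, ht.2⟩
          have h4 := hfc t ⟨h1, by linarith [ht.2]⟩
          have h6 : f t ^ 2 ≤ (Cc * Real.exp t) ^ 2 := pow_le_pow_left₀ h3 h4 2
          have h7 : om t * (Cc * Real.exp t) ^ 2 = Cc ^ 2 * Real.exp (4 * t) := by
            rw [hom, mul_pow, ← Real.exp_nat_mul,
              show Real.exp (2 * t) * (Cc ^ 2 * Real.exp (((2 : ℕ) : ℝ) * t)) =
                Cc ^ 2 * (Real.exp (2 * t) * Real.exp (((2 : ℕ) : ℝ) * t)) by ring,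
              ← Real.exp_add]
            congr 2
            push_cast
            ring
          have h8 : Real.exp (4 * t) ≤ Real.exp (4 * C₀) := Real.exp_le_exp.2 (by linarith)
          have h9 : 1 ≤ Real.exp (0.02 * t) := Real.one_le_exp (by linarith)
          have h10 : om t * f t ^ 2 ≤ Cc ^ 2 * Real.exp (4 * C₀) := by
            calc om t * f t ^ 2 ≤ om t * (Cc * Real.exp t) ^ 2 :=
                  mul_le_mul_of_nonneg_left h6 (Real.exp_pos _).le
              _ = Cc ^ 2 * Real.exp (4 * t) := h7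
              _ ≤ _ := mul_le_mul_of_nonneg_left h8 (by positivity)
          have h11 : Cc ^ 2 * Real.exp (4 * C₀) ≤ C1 * 1 := by
            rw [hC1]
            have : 0 ≤ Cl ^ 2 + 2 * (Cc * Real.exp (1.99 * C₀)) ^ 2 := by positivity
            linarith
          have h12 : C1 * 1 ≤ C1 * Real.exp (0.02 * t) :=
            mul_le_mul_of_nonneg_left h9 hC10.le
          linarith
        · have h3 := hf0 t ⟨h1, ht.2⟩
          have h4 := hdec t ⟨h2, ht.2⟩
          have h5 : f C₀ * Real.exp (-(0.99 * (t - C₀))) ≤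
              Cc * Real.exp (1.99 * C₀) * Real.exp (-(0.99 * t)) := by
            have h6 : Real.exp C₀ * Real.exp (-(0.99 * (t - C₀))) =
                Real.exp (1.99 * C₀) * Real.exp (-(0.99 * t)) := by
              rw [← Real.exp_add, ← Real.exp_add]; congr 1; ring
            calc f C₀ * Real.exp (-(0.99 * (t - C₀))) ≤
                  Cc * Real.exp C₀ * Real.exp (-(0.99 * (t - C₀))) :=
                  mul_le_mul_of_nonneg_right hfC1 (Real.exp_pos _).le
              _ = Cc * (Real.exp C₀ * Real.exp (-(0.99 * (t - C₀)))) := by ring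
              _ = _ := by rw [h6]; ring
          set a := Cc * Real.exp (1.99 * C₀) * Real.exp (-(0.99 * t)) with ha
          set b := F * Real.exp (-(0.99 * (T / 3 - t))) with hb
          have h7 : f t ≤ a + b := by linarith
          have h8 : f t ^ 2 ≤ 2 * a ^ 2 + 2 * b ^ 2 := si_sq_le h3 h7
          have h9 := si_om_sq t (Cc * Real.exp (1.99 * C₀))
          have h10 := si_om_sq' t T F
          rw [← ha] at h9
          rw [← hb] at h10
          have h11 : om t * f t ^ 2 ≤ om t * (2 * a ^ 2 + 2 * b ^ 2) :=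
            mul_le_mul_of_nonneg_left h8 (Real.exp_pos _).le
          have h12 : om t * (2 * a ^ 2 + 2 * b ^ 2) = 2 * (om t * a ^ 2) + 2 * (om t * b ^ 2) := by
            ring
          rw [h12, h9, h10] at h11
          have h13 : 2 * (Cc * Real.exp (1.99 * C₀)) ^ 2 * Real.exp (0.02 * t) ≤
              C1 * Real.exp (0.02 * t) := by
            apply mul_le_mul_of_nonneg_right _ (Real.exp_pos _).le
            rw [hC1]
            have : 0 ≤ Cl ^ 2 + Cc ^ 2 * Real.exp (4 * C₀) := by positivity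
            linarith
          linarith)
    refine le_trans key ?_
    have h1 : 0 ≤ 50 * C1 * Real.exp (0.02 * -S.Lm) +
        2 / 3.98 * F ^ 2 * Real.exp (3.98 * -S.Lm - 0.66 * T) := by positivity
    have h2 : Real.exp (3.98 * (T / 3) - 0.66 * T) = Real.exp (2 / 3 * T) := by
      congr 1; ring
    rw [h2]
    have h3 : 2 / 3.98 * F ^ 2 * Real.exp (2 / 3 * T) ≤ 1 * F ^ 2 * Real.exp (2 / 3 * T) := by
      apply mul_le_mul_of_nonneg_right _ (Real.exp_pos _).le
      apply mul_le_mul_of_nonneg_right _ (by positivity)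
      norm_num
    linarith
  -- conclusion
  set B := Bco f g (T / 3) with hBdef
  have h1 : F ^ 2 ≤ 8 * E ^ 2 * Real.exp (-(2 / 3 * T)) + 8 * B ^ 2 * Real.exp (2 / 3 * T) := by
    have h2 := si_sq_le hF0 hFb
    have h3 : Real.exp (-(T / 3)) ^ 2 = Real.exp (-(2 / 3 * T)) := by
      rw [← Real.exp_nat_mul]; congr 1; push_cast; ring
    have h4 : Real.exp (T / 3) ^ 2 = Real.exp (2 / 3 * T) := by
      rw [← Real.exp_nat_mul]; congr 1; push_cast; ring
    rw [← h3, ← h4]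
    linarith
  have h5 : F ^ 2 * Real.exp (2 / 3 * T) ≤ 8 * E ^ 2 + 4 * Cc * B * Real.exp (4 / 3 * T) := by
    have h6 : Real.exp (-(2 / 3 * T)) * Real.exp (2 / 3 * T) = 1 := by
      rw [← Real.exp_add]; simp
    have h7 : Real.exp (2 / 3 * T) * Real.exp (2 / 3 * T) = Real.exp (4 / 3 * T) := by
      rw [← Real.exp_add]; congr 1; ring
    have h8 : B ^ 2 ≤ Cc / 2 * B := by
      rw [sq]; exact mul_le_mul_of_nonneg_right hB hB0
    calc F ^ 2 * Real.exp (2 / 3 * T) ≤ (8 * E ^ 2 * Real.exp (-(2 / 3 * T)) +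
          8 * B ^ 2 * Real.exp (2 / 3 * T)) * Real.exp (2 / 3 * T) :=
          mul_le_mul_of_nonneg_right h1 (Real.exp_pos _).le
      _ = 8 * E ^ 2 * (Real.exp (-(2 / 3 * T)) * Real.exp (2 / 3 * T)) +
          8 * B ^ 2 * (Real.exp (2 / 3 * T) * Real.exp (2 / 3 * T)) := by ring
      _ = 8 * E ^ 2 + 8 * B ^ 2 * Real.exp (4 / 3 * T) := by rw [h6, h7, mul_one]
      _ ≤ 8 * E ^ 2 + 8 * (Cc / 2 * B) * Real.exp (4 / 3 * T) := by
          have := mul_le_mul_of_nonneg_right h8 (Real.exp_pos (4 / 3 * T)).le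
          linarith
      _ = _ := by ring
  have hI0 : 0 ≤ ∫ x in (-S.Lm)..(T / 3), om x * f x ^ 2 := by
    apply intervalIntegral.integral_nonneg (by linarith)
    intro t _
    have : 0 < om t := Real.exp_pos _
    positivity
  have h9 : Real.exp (0.02 * (T / 3)) ≤ Real.exp (0.1 * T) := Real.exp_le_exp.2 (by linarith)
  have h10 : Real.exp (-(2 * T)) * Real.exp (0.1 * T) = Real.exp (-(1.9 * T)) := by
    rw [← Real.exp_add]; congr 1; ring
  have h11 : Real.exp (-(2 * T)) * Real.exp (4 / 3 * T) ≤ Real.exp (-(0.6 * T)) := by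
    rw [← Real.exp_add]; apply Real.exp_le_exp.2; linarith
  have h12 : Real.exp (-(2 * T)) ≤ Real.exp (-(1.9 * T)) := Real.exp_le_exp.2 (by linarith)
  have h13 : e * (∫ x in (-S.Lm)..(T / 3), om x * f x ^ 2) ≤ (K₁ + 1) * Real.exp (-(2 * T)) *
      (50 * C1 * Real.exp (0.1 * T) + (8 * E ^ 2 + 4 * Cc * B * Real.exp (4 / 3 * T))) := by
    apply mul_le_mul he2 _ hI0 (by positivity)
    have : 50 * C1 * Real.exp (0.02 * (T / 3)) ≤ 50 * C1 * Real.exp (0.1 * T) :=
      mul_le_mul_of_nonneg_left h9 (by positivity)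
    linarith
  have h14 : (K₁ + 1) * Real.exp (-(2 * T)) *
      (50 * C1 * Real.exp (0.1 * T) + (8 * E ^ 2 + 4 * Cc * B * Real.exp (4 / 3 * T))) =
      (K₁ + 1) * (50 * C1 * (Real.exp (-(2 * T)) * Real.exp (0.1 * T)) +
        8 * E ^ 2 * Real.exp (-(2 * T)) +
        4 * Cc * B * (Real.exp (-(2 * T)) * Real.exp (4 / 3 * T))) := by ring
  rw [h14, h10] at h13
  have h15 : 8 * E ^ 2 * Real.exp (-(2 * T)) ≤ 8 * E ^ 2 * Real.exp (-(1.9 * T)) :=
    mul_le_mul_of_nonneg_left h12 (by positivity)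
  have h16 : 4 * Cc * B * (Real.exp (-(2 * T)) * Real.exp (4 / 3 * T)) ≤
      4 * Cc * B * Real.exp (-(0.6 * T)) :=
    mul_le_mul_of_nonneg_left h11 (by positivity)
  have p1 : 0 < Real.exp (-(1.9 * T)) := Real.exp_pos _
  have p2 : 0 < Real.exp (-(0.6 * T)) := Real.exp_pos _
  have h17 : (K₁ + 1) * (50 * C1 * Real.exp (-(1.9 * T)) + 8 * E ^ 2 * Real.exp (-(2 * T)) +
      4 * Cc * B * (Real.exp (-(2 * T)) * Real.exp (4 / 3 * T))) ≤
      (K₁ + 1) * ((50 * C1 + 8 * E ^ 2 + 4 * Cc) *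
        (Real.exp (-(1.9 * T)) + Real.exp (-(0.6 * T)) * B)) := by
    apply mul_le_mul_of_nonneg_left _ (by linarith)
    have a1 : 0 ≤ 4 * Cc * Real.exp (-(1.9 * T)) := by positivity
    have a2 : 0 ≤ (50 * C1 + 8 * E ^ 2) * (Real.exp (-(0.6 * T)) * B) := by positivity
    linarith
  have h18 : 0 ≤ Cc * (Real.exp (-(1.9 * T)) + Real.exp (-(0.6 * T)) * B) := by positivity
  linarith

theorem caseI (hK : 0 < K₁) (hC₀ : 0 < C₀) : ∃ R₀ ≥ C₀, ∀ R ≥ R₀, ∀ S : SD K₁ C₀ R, ∀ T z, S.IsT T → S.IsZ z → z < T := by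
  obtain ⟨cw, hcw, Cw, hCw, R₁, hR₁, HW⟩ := weights hK hC₀
  obtain ⟨Cg, hCg, R₂, hR₂, HG⟩ := ground_bound hK hC₀
  obtain ⟨cs, hcs, R₃, hR₃, HS⟩ := supporter hK hC₀
  obtain ⟨Cd, hCd, R₄, hR₄, HD⟩ := diff_third hK hC₀
  obtain ⟨cp, hcp, R₅, hR₅, HP⟩ := pos_supporter hK hC₀ hcs
  obtain ⟨Cs, hCs, R₆, hR₆, HSt⟩ := si_state hK hC₀
  set D2 : ℝ := 1 / 50 * (Real.exp (1.8 * C₀) + 1) with hD2
  have hD20 : 0 < D2 := by positivity
  obtain ⟨T₁, HT₁⟩ := si_exp_small (a := 0.98) (by norm_num) Cg (δ := cs) hcs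
  obtain ⟨T₂, HT₂⟩ := si_exp_small (a := 0.3) (by norm_num) Cd (δ := cp / 2) (by linarith)
  obtain ⟨T₃, HT₃⟩ := si_exp_small (a := 0.6) (by norm_num) (2 * Cs) (δ := 0.6) (by norm_num)
  obtain ⟨T₄, HT₄⟩ := si_exp_small (a := 0.19) (by norm_num) (D2 ^ 2 + 2 * Cs * Cw)
    (δ := cp * cw / 2) (by positivity)
  obtain ⟨R₀, h0⟩ : ∃ R₀ : ℝ, C₀ ≤ R₀ ∧ 3 * C₀ ≤ R₀ ∧ R₁ ≤ R₀ ∧ R₂ ≤ R₀ ∧ R₃ ≤ R₀ ∧ R₄ ≤ R₀ ∧
      R₅ ≤ R₀ ∧ R₆ ≤ R₀ ∧ T₁ ≤ R₀ ∧ T₂ ≤ R₀ ∧ T₃ ≤ R₀ ∧ T₄ ≤ R₀ := by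
    obtain ⟨M, hM⟩ := ({C₀, 3 * C₀, R₁, R₂, R₃, R₄, R₅, R₆, T₁, T₂, T₃, T₄} : Finset ℝ).bddAbove
    refine ⟨M, ?_⟩
    refine ⟨?_, ?_, ?_, ?_, ?_, ?_, ?_, ?_, ?_, ?_, ?_, ?_⟩ <;> exact hM (by simp)
  obtain ⟨a0, a1, a2, a3, a4, a5, a6, a7, b1, b2, b3, b4⟩ := h0
  refine ⟨R₀, a0, ?_⟩
  intro R hR S T z hT hz
  by_contra hcon
  have hTz : T ≤ z := not_lt.1 hcon
  have hRT := hT.hR
  have hLm := S.hLm
  have hTp : 0 < T := by linarith
  have hγ := S.hγ
  have hγ' := S.hγ'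
  -- positivity
  have hpot : pot 1 0 S.U = fun x => 1 - S.U x := by
    funext x; simp [pot]
  have hs0 : Sol (pot 1 0 S.U) S.f₀ S.g₀ := by rw [hpot]; exact S.sol₀
  have hpos : ∀ j < S.N, (∀ t ∈ Ioo (-S.Lm) T, 0 < S.φ j t) ∧ 0 < S.φ j T := by
    intro j hj
    have h := ratio_mono S le_rfl (S.e_pos j hj).le (S.sol j hj) hs0 (S.φ_left j hj) S.f₀_left
      (S.φ_zero j hj) S.f₀_zero (x := T) (by linarith)
      (fun t ht => hz.pos t ⟨ht.1, lt_of_lt_of_le ht.2 hTz⟩)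
    exact ⟨fun t ht => (h.1 t ht).1, h.2.2 hTp (S.e_pos j hj)⟩
  obtain ⟨j, hj, hsup⟩ := HS R (by linarith) S T hT
  rw [abs_of_pos (hpos j hj).2] at hsup
  -- all energies are small
  have hall : ∀ i < S.N, S.e i * om T ≤ K₁ + 1 := by
    intro i hi
    rcases Nat.eq_zero_or_pos i with rfl | hi0
    · by_contra hc
      have h1 := (HG R (by linarith) S T hT (not_le.1 hc).le).2 j hj (hpos j hj).1 T
        ⟨hTp.le, le_rfl⟩
      have h2 := HT₁ T (by linarith)
      have h3 : Real.exp (-(0.98 * T)) * Real.exp (-(S.γ * T)) ≥ Real.exp (-(0.99 * T)) := by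
        rw [← Real.exp_add]
        apply Real.exp_le_exp.2
        nlinarith
      have h4 : Cg * Real.exp (-(0.99 * T)) ≤
          Cg * Real.exp (-(0.98 * T)) * Real.exp (-(S.γ * T)) := by
        rw [mul_assoc]
        exact mul_le_mul_of_nonneg_left h3 hCg.le
      have h5 : Cg * Real.exp (-(0.98 * T)) * Real.exp (-(S.γ * T)) <
          cs * Real.exp (-(S.γ * T)) := mul_lt_mul_of_pos_right h2 (Real.exp_pos _)
      linarith
    · have := S.e_le hK hC₀ (by linarith) hT hz (j := i) hi0 hi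
      linarith
  -- lower bound of `B`
  have hBj := HP R (by linarith) S T hT j hj (hall j hj) (hpos j hj).1 hsup
  have hexp1 : Real.exp (-(1.01 * T)) ≤ Real.exp (-((1 + S.γ) * T)) := by
    apply Real.exp_le_exp.2
    nlinarith
  have hB : ∀ i < S.N, cp / 2 * Real.exp (-(1.01 * T)) ≤ Bco (S.φ i) (S.dφ i) (T / 3) := by
    intro i hi
    have h1 := HD R (by linarith) S T hT (S.e i) (S.e j) (S.e_pos i hi).le (hall i hi)
      (S.e_pos j hj).le (hall j hj) _ _ _ _ (S.sol i hi) (S.φ_left i hi) (S.φ_zero i hi)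
      (S.sol j hj) (S.φ_left j hj) (S.φ_zero j hj)
    have h2 := (abs_le.1 h1).1
    have h3 := HT₂ T (by linarith)
    have h4 : Real.exp (-(4 / 3 * T)) ≤ Real.exp (-(0.3 * T)) * Real.exp (-(1.01 * T)) := by
      rw [← Real.exp_add]
      apply Real.exp_le_exp.2
      linarith
    have h5 : Cd * Real.exp (-(4 / 3 * T)) ≤
        Cd * Real.exp (-(0.3 * T)) * Real.exp (-(1.01 * T)) := by
      rw [mul_assoc]
      exact mul_le_mul_of_nonneg_left h4 hCd.le
    have h6 : Cd * Real.exp (-(0.3 * T)) * Real.exp (-(1.01 * T)) ≤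
        cp / 2 * Real.exp (-(1.01 * T)) := mul_le_mul_of_nonneg_right h3.le (Real.exp_pos _).le
    have h7 : cp * Real.exp (-(1.01 * T)) ≤ cp * Real.exp (-((1 + S.γ) * T)) :=
      mul_le_mul_of_nonneg_left hexp1 hcp.le
    linarith
  have hB0 : ∀ i < S.N, 0 < Bco (S.φ i) (S.dφ i) (T / 3) := fun i hi =>
    lt_of_lt_of_le (by positivity) (hB i hi)
  have hst : ∀ i < S.N, 2 / 5 ≤ Aco (S.φ i) (S.dφ i) (T / 3) ∧
      S.e i * (∫ x in (-S.Lm)..(T / 3), om x * S.φ i x ^ 2) ≤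
        Cs * (Real.exp (-(1.9 * T)) + Real.exp (-(0.6 * T)) *
          Bco (S.φ i) (S.dφ i) (T / 3)) := by
    intro i hi
    have h := HSt R (by linarith) S T hT (S.e i) (S.e_pos i hi).le (hall i hi) _ _ (S.sol i hi)
      (S.φ_left i hi) (S.φ_zero i hi) (hpos i hi).1
    exact ⟨h.1, h.2.2 (hB0 i hi).le⟩
  set SA := S.γ * ∑ i ∈ Finset.range S.N, S.α i with hSA
  set SB := S.γ * ∑ i ∈ Finset.range S.N, S.α i * Bco (S.φ i) (S.dφ i) (T / 3) with hSB
  obtain ⟨w1, w2⟩ := HW R (by linarith) S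
  -- lower bound of `SB`
  have hSB1 : cp / 2 * Real.exp (-(1.01 * T)) * SA ≤ SB := by
    rw [hSA, hSB, mul_left_comm, Finset.mul_sum]
    apply mul_le_mul_of_nonneg_left _ hγ.le
    apply Finset.sum_le_sum
    intro i hi
    have hi' := Finset.mem_range.1 hi
    have := mul_le_mul_of_nonneg_left (hB i hi') (S.α_pos i hi').le
    linarith
  have hSB0 : 0 ≤ SB := by
    have : 0 ≤ SA := by linarith
    exact le_trans (by positivity) hSB1
  -- the upper bound of `Z`
  have hT3m : T / 3 ∈ Ioo (-S.Lm) S.Lp := ⟨by linarith, by linarith [hT.hLp]⟩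
  have hU0 := S.U_pos _ hT3m
  have hU1 := hT.le (T / 3) ⟨by linarith, by linarith⟩
  have hU2 : S.U (T / 3) ≤ D2 * Real.exp (-(0.6 * T)) := by
    have h1 := S.decay_gap hC₀ (T := T) (by linarith) hT.hLp.le hT.le (T / 3)
      ⟨by linarith, by linarith⟩
    have h2 : Real.exp (-(1.8 * (T / 3 - C₀))) = Real.exp (1.8 * C₀) * Real.exp (-(0.6 * T)) := by
      rw [← Real.exp_add]; congr 1; ring
    have h3 : Real.exp (-(1.8 * (T - T / 3))) ≤ Real.exp (-(0.6 * T)) :=
      Real.exp_le_exp.2 (by linarith)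
    rw [h2] at h1
    rw [hD2]
    linarith
  have hterm : (1 + S.γ) * S.C * S.U (T / 3) ^ (2 + S.γ) * Real.exp (-(2 * S.γ * (T / 3))) ≤
      D2 ^ 2 * Real.exp (-(1.2 * T)) := by
    have h1 : S.U (T / 3) ^ (2 + S.γ) ≤ S.U (T / 3) ^ 2 := by
      rw [← Real.rpow_two]
      exact Real.rpow_le_rpow_of_exponent_ge hU0 (by linarith) (by linarith)
    have h2 : S.U (T / 3) ^ 2 ≤ D2 ^ 2 * Real.exp (-(1.2 * T)) := by
      have h3 := pow_le_pow_left₀ hU0.le hU2 2
      have h4 : (D2 * Real.exp (-(0.6 * T))) ^ 2 = D2 ^ 2 * Real.exp (-(1.2 * T)) := by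
        rw [mul_pow, ← Real.exp_nat_mul]; congr 2; push_cast; ring
      rwa [h4] at h3
    have h5 : (1 + S.γ) * S.C ≤ 1 := by
      have h6 : (1 + S.γ) * S.C ≤ (1 + 1 / 100) * (3 / 16) :=
        mul_le_mul (by linarith) S.hC' (by linarith [S.hC]) (by norm_num)
      linarith
    have h7 : Real.exp (-(2 * S.γ * (T / 3))) ≤ 1 := Real.exp_le_one_iff.2 (by
      have : 0 ≤ 2 * S.γ * (T / 3) := by positivity
      linarith)
    have h8 : 0 ≤ S.U (T / 3) ^ (2 + S.γ) := Real.rpow_nonneg hU0.le _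
    have h9 : 0 ≤ (1 + S.γ) * S.C := mul_nonneg (by linarith) (by linarith [S.hC])
    calc (1 + S.γ) * S.C * S.U (T / 3) ^ (2 + S.γ) * Real.exp (-(2 * S.γ * (T / 3))) ≤
          (1 + S.γ) * S.C * S.U (T / 3) ^ (2 + S.γ) * 1 :=
          mul_le_mul_of_nonneg_left h7 (mul_nonneg h9 h8)
      _ ≤ 1 * S.U (T / 3) ^ (2 + S.γ) * 1 := by
          rw [mul_one, mul_one]
          exact mul_le_mul_of_nonneg_right h5 h8
      _ ≤ _ := by rw [one_mul, mul_one]; exact le_trans h1 h2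
  have hZ1 : S.Z (T / 3) ≤ -(1.6 * SB) + D2 ^ 2 * Real.exp (-(1.2 * T)) := by
    unfold SD.Z
    have h1 : S.γ * ∑ i ∈ Finset.range S.N, S.α i * S.P i (T / 3) ≤ -(1.6 * SB) := by
      have h2 : -(1.6 * SB) = S.γ * ∑ i ∈ Finset.range S.N,
          S.α i * (-(1.6 * Bco (S.φ i) (S.dφ i) (T / 3))) := by
        rw [hSB, show -(1.6 * (S.γ * ∑ i ∈ Finset.range S.N,
          S.α i * Bco (S.φ i) (S.dφ i) (T / 3))) = S.γ * (-1.6 * ∑ i ∈ Finset.range S.N,
          S.α i * Bco (S.φ i) (S.dφ i) (T / 3)) by ring, Finset.mul_sum]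
        congr 1
        apply Finset.sum_congr rfl
        intro i _
        ring
      rw [h2]
      apply mul_le_mul_of_nonneg_left _ hγ.le
      apply Finset.sum_le_sum
      intro i hi
      have hi' := Finset.mem_range.1 hi
      apply mul_le_mul_of_nonneg_left _ (S.α_pos i hi').le
      have h3 := si_P_eq (S.φ i) (S.dφ i) (T / 3)
      have h4 := (hst i hi').1
      have h5 := hB0 i hi'
      have h6 : 0 ≤ S.e i * om (T / 3) * S.φ i (T / 3) ^ 2 := by
        have : 0 < om (T / 3) := Real.exp_pos _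
        have := S.e_pos i hi'
        positivity
      have h7 : 2 / 5 * Bco (S.φ i) (S.dφ i) (T / 3) ≤
          Aco (S.φ i) (S.dφ i) (T / 3) * Bco (S.φ i) (S.dφ i) (T / 3) :=
        mul_le_mul_of_nonneg_right h4 h5.le
      unfold SD.P
      linarith
    linarith
  -- the lower bound of `Z`
  have hZ2 : -(2 * Cs * Real.exp (-(1.9 * T)) * Cw + 2 * Cs * Real.exp (-(0.6 * T)) * SB) ≤
      S.Z (T / 3) := by
    rw [S.Z_left ⟨hT3m.1.le, hT3m.2.le⟩]
    have h1 : 0 ≤ S.Wl := by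
      unfold SD.Wl
      apply mul_nonneg hγ.le
      apply Finset.sum_nonneg
      intro i hi
      have := S.α_pos i (Finset.mem_range.1 hi)
      positivity
    have h2 : 0 ≤ S.m (-S.Lm) (T / 3) := by
      unfold SD.m
      apply intervalIntegral.integral_nonneg (by linarith)
      intro t _
      exact mul_nonneg (Real.rpow_nonneg (S.U_nonneg' t) _) (Real.exp_pos _).le
    have h3 : S.γ * S.gm (Finset.range S.N) (-S.Lm) (T / 3) ≤
        Cs * Real.exp (-(1.9 * T)) * SA + Cs * Real.exp (-(0.6 * T)) * SB := by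
      have h4 : S.gm (Finset.range S.N) (-S.Lm) (T / 3) ≤
          ∑ i ∈ Finset.range S.N, (Cs * Real.exp (-(1.9 * T)) * S.α i +
            Cs * Real.exp (-(0.6 * T)) * (S.α i * Bco (S.φ i) (S.dφ i) (T / 3))) := by
        unfold SD.gm
        apply Finset.sum_le_sum
        intro i hi
        have hi' := Finset.mem_range.1 hi
        have := mul_le_mul_of_nonneg_left (hst i hi').2 (S.α_pos i hi').le
        linarith
      rw [Finset.sum_add_distrib, ← Finset.mul_sum, ← Finset.mul_sum] at h4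
      have h5 := mul_le_mul_of_nonneg_left h4 hγ.le
      rw [hSA, hSB]
      linarith
    have h6 : Cs * Real.exp (-(1.9 * T)) * SA ≤ Cs * Real.exp (-(1.9 * T)) * Cw :=
      mul_le_mul_of_nonneg_left w2 (by positivity)
    have h7 : 0 ≤ S.γ * (S.C * S.m (-S.Lm) (T / 3)) :=
      mul_nonneg hγ.le (mul_nonneg (by linarith [S.hC]) h2)
    linarith
  -- conclusion
  have h1 := HT₃ T (by linarith)
  have h2 : 2 * Cs * Real.exp (-(0.6 * T)) * SB ≤ 0.6 * SB :=
    mul_le_mul_of_nonneg_right h1.le hSB0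
  have h3 : Real.exp (-(1.9 * T)) ≤ Real.exp (-(1.2 * T)) := Real.exp_le_exp.2 (by linarith)
  have h4 : 2 * Cs * Real.exp (-(1.9 * T)) * Cw ≤ 2 * Cs * Cw * Real.exp (-(1.2 * T)) := by
    have := mul_le_mul_of_nonneg_left h3 (show 0 ≤ 2 * Cs * Cw by positivity)
    linarith
  have h5 : SB ≤ (D2 ^ 2 + 2 * Cs * Cw) * Real.exp (-(1.2 * T)) := by linarith
  have h6 : cp / 2 * Real.exp (-(1.01 * T)) * cw ≤ cp / 2 * Real.exp (-(1.01 * T)) * SA :=
    mul_le_mul_of_nonneg_left w1 (by positivity)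
  have h7 : Real.exp (-(1.2 * T)) = Real.exp (-(0.19 * T)) * Real.exp (-(1.01 * T)) := by
    rw [← Real.exp_add]; congr 1; ring
  have h8 := mul_lt_mul_of_pos_right (HT₄ T (by linarith)) (Real.exp_pos (-(1.01 * T)))
  rw [h7] at h5
  linarith

end Pool.Agent.RLT40
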