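import Pool.Agent.RLT40.SI

/-!
# Module SJ (paper 5.7 (i), (ii)): `z < 0.9 T`, lower bound of `e 0`.

(i) Suppose `0.9T ≤ z < T`.  `f₀` is convex, decreasing on `[C₀,z]`, `f₀(t) ≤ C e^{-0.99t}` (max_principle), `|g₀(z)| ≤ f₀(z-1)`, so `B₀ = Bco f₀ g₀` satisfies `|B₀(z)| ≤ C e^{-1.99z}`; `B₀' = -½e^{-t}Uf₀ ≤ 0` and
`B₀(T/3) - B₀(z) = ∫ ½e^{-s}Uf₀ ≤ C e^{-1.2T}` (decay_gap): `|B₀(T/3)| ≤ C e^{-1.2T}`.  Supporter `j`: if `φ_j > 0` on `(-Lm,T)`: (`e₀ω(T) ≥ K₁+1` and ground_bound exclude it or) `e_jω(T) ≤ K₁+1`,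
pos_supporter and diff_third contradict.  Otherwise `φ_j` has a first zero `z_j ∈ (z,T)`, `j ≥ 1`, `|φ_j'(z_j)| ≤ φ_j(z_j-1) ≤ C e^{-0.99 z_j}`, and (growth) `|φ_j(T)| ≤ C e^{T-z_j}|φ_j'(z_j)| ≤ C e^{T - 1.99 z_j} ≤ C e^{-0.7T}`: contradiction.
(ii) `W = φ_0' f₀ - φ_0 g₀`, `W(z) = φ_0(z)|g₀(z)| = e_0 ∫_{-Lm}^z ω φ_0 f₀`.  `|g₀(z)| ≥ e^{-z}`: `A₀' = ½e^tUf₀ ≥ 0`, `A₀(0) = ½`, `A₀(z) = ½e^z|g₀(z)|`.  `φ_0 ≥ f₀`, `f₀(z-1) ≥ |g₀(z)|`.  If `e_0 ≤ e^{-2z}` the log-derivative of `φ_0` is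
`≥ -C` on `[z-1,z]` (else `φ_0` vanishes before `z+1 < T < Lp`), so `φ_0(z) ≥ c e^{-z}`.  `∫ ω φ_0 f₀ ≤ C e^{0.03z} + C φ_0(z) e^{1.01z}`.  Hence `e_0 ≥ c e^{-2.05z}`, and `z ≤ 0.9T` gives `e_0ω(T) ≥ K₁+1`.
-/

open MeasureTheory Set
open scoped ENNReal NNReal

namespace Pool.Agent.RLT40

variable {K₁ C₀ : ℝ}

theorem SJa_sol0 {R : ℝ} (S : SD K₁ C₀ R) : Sol (pot 1 0 S.U) S.f₀ S.g₀ := by
  have : pot 1 0 S.U = fun x => 1 - S.U x := by funext x; simp [pot]
  rw [this]; exact S.sol₀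

theorem SJa_U_nonneg {R : ℝ} (S : SD K₁ C₀ R) (x : ℝ) : 0 ≤ S.U x := by
  by_cases h : x ∈ Ioo (-S.Lm) S.Lp
  · exact (S.U_pos x h).le
  · rw [S.U_zero x h]

theorem SJa_om_pos (x : ℝ) : 0 < om x := Real.exp_pos _

/-- exponential decay of a solution that is positive up to its zero `z` in the gap -/
theorem SJa_decay {R : ℝ} (S : SD K₁ C₀ R) (hC₀ : 0 < C₀) (hR : C₀ ≤ R) {T : ℝ} (hT : S.IsT T)
    {e : ℝ} (he : 0 ≤ e) {f g : ℝ → ℝ} (h : Sol (pot 1 e S.U) f g) {z : ℝ} (hz : C₀ + 1 ≤ z) (hzT : z ≤ T)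
    (hpos : ∀ x ∈ Ioo (-S.Lm) z, 0 < f x) (h0 : f z = 0) :
    (∀ t ∈ Icc C₀ z, f t ≤ f C₀ * Real.exp (-(0.99 * (t - C₀)))) ∧ g z ≤ 0 ∧ |g z| ≤ f (z - 1) := by
  have hLm : 0 < S.Lm := lt_of_lt_of_le (by linarith) S.hLm
  have hfc : Continuous f := h.continuous_left
  have hgc : Continuous g := h.continuous_right
  have hV : ∀ t ∈ Ioo C₀ z, 0.99 * f t ≤ pot 1 e S.U t * f t ∧ 0 < f t := by
    intro t ht
    have hft : 0 < f t := hpos t ⟨by linarith [ht.1], ht.2⟩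
    have hU : S.U t ≤ 1 / 100 := hT.le t ⟨ht.1.le, ht.2.le.trans hzT⟩
    have hom : 0 ≤ e * om t := mul_nonneg he (SJa_om_pos t).le
    refine ⟨mul_le_mul_of_nonneg_right ?_ hft.le, hft⟩
    unfold pot
    norm_num
    linarith
  have hfC : 0 < f C₀ := hpos C₀ ⟨by linarith, by linarith⟩
  -- g is monotone on [C₀, z]
  have hmono : MonotoneOn g (Icc C₀ z) := by
    refine monotoneOn_of_deriv_nonneg (convex_Icc _ _) hgc.continuousOn ?_ ?_
    · intro x hx
      exact (h.d2 x).differentiableAt.differentiableWithinAt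
    · intro x hx
      rw [interior_Icc] at hx
      rw [(h.d2 x).deriv]
      have := hV x hx
      nlinarith
  refine ⟨?_, ?_, ?_⟩
  · intro t ht
    have := max_principle (x := C₀) (y := z) (ν := 0.99) (by linarith) (by norm_num) (f := f) (f1 := g)
      (f2 := fun t => pot 1 e S.U t * f t) hfc.continuousOn (fun t _ => h.d1 t) (fun t _ => h.d2 t)
      (fun t ht => by
        have := hV t ht
        have h2 : (0.99 : ℝ) ^ 2 * f t ≤ 0.99 * f t := by
          apply mul_le_mul_of_nonneg_right _ this.2.le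
          norm_num
        linarith [this.1]) hfC.le h0.ge t ht
    rw [h0, zero_mul, add_zero] at this
    exact this
  · by_contra hcon
    push Not at hcon
    have hev : ∀ᶠ x in nhds z, 0 < g x := hgc.continuousAt.eventually (lt_mem_nhds hcon)
    obtain ⟨ε, hε, hball⟩ := Metric.eventually_nhds_iff.1 hev
    set δ := min (ε / 2) 1 with hδ
    have hδ0 : 0 < δ := lt_min (by linarith) one_pos
    have hδ1 : δ ≤ 1 := min_le_right _ _
    have hδε : δ < ε := lt_of_le_of_lt (min_le_left _ _) (by linarith)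
    obtain ⟨ξ, hξ, hξe⟩ := exists_hasDerivAt_eq_slope f g (a := z - δ) (b := z) (by linarith)
      hfc.continuousOn (fun x _ => h.d1 x)
    have h1 : 0 < g ξ := by
      apply hball
      rw [Real.dist_eq, abs_lt]
      constructor <;> linarith [hξ.1, hξ.2]
    have h2 : 0 < f (z - δ) := hpos _ ⟨by linarith, by linarith⟩
    rw [hξe, h0] at h1
    have h3 : (0 - f (z - δ)) / (z - (z - δ)) < 0 := by
      apply div_neg_of_neg_of_pos <;> linarith
    linarith
  · have hg : g z ≤ 0 := by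
      by_contra hcon
      push Not at hcon
      have hev : ∀ᶠ x in nhds z, 0 < g x := hgc.continuousAt.eventually (lt_mem_nhds hcon)
      obtain ⟨ε, hε, hball⟩ := Metric.eventually_nhds_iff.1 hev
      set δ := min (ε / 2) 1 with hδ
      have hδ0 : 0 < δ := lt_min (by linarith) one_pos
      have hδ1 : δ ≤ 1 := min_le_right _ _
      have hδε : δ < ε := lt_of_le_of_lt (min_le_left _ _) (by linarith)
      obtain ⟨ξ, hξ, hξe⟩ := exists_hasDerivAt_eq_slope f g (a := z - δ) (b := z) (by linarith)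
        hfc.continuousOn (fun x _ => h.d1 x)
      have h1 : 0 < g ξ := by
        apply hball
        rw [Real.dist_eq, abs_lt]
        constructor <;> linarith [hξ.1, hξ.2]
      have h2 : 0 < f (z - δ) := hpos _ ⟨by linarith, by linarith⟩
      rw [hξe, h0] at h1
      have h3 : (0 - f (z - δ)) / (z - (z - δ)) < 0 := by
        apply div_neg_of_neg_of_pos <;> linarith
      linarith
    rw [abs_of_nonpos hg]
    obtain ⟨ξ, hξ, hξe⟩ := exists_hasDerivAt_eq_slope f g (a := z - 1) (b := z) (by linarith)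
      hfc.continuousOn (fun x _ => h.d1 x)
    have h1 : g ξ ≤ g z := hmono ⟨by linarith [hξ.1], hξ.2.le⟩ ⟨by linarith, le_refl _⟩ hξ.2.le
    have h2 : (f z - f (z - 1)) / (z - (z - 1)) = - f (z - 1) := by
      rw [h0]; norm_num
    rw [h2] at hξe
    linarith

/-- upper bound of `Bco f₀ g₀` at `T/3` if `f₀` vanishes at `z ≤ T` -/
theorem SJa_B0 {R : ℝ} (S : SD K₁ C₀ R) (hC₀ : 0 < C₀) (hR : C₀ ≤ R) {T : ℝ} (hT : S.IsT T)
    {z : ℝ} (hz : C₀ + 1 ≤ z) (hzT : z ≤ T) (hTz : T / 3 ≤ z) (hCT : C₀ ≤ T / 3)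
    (hpos : ∀ x ∈ Ioo (-S.Lm) z, 0 < S.f₀ x) (h0 : S.f₀ z = 0) :
    Bco S.f₀ S.g₀ (T / 3) ≤ S.f₀ C₀ * Real.exp (2.79 * C₀) * Real.exp (-(1.2 * T)) := by
  obtain ⟨hdec, hg0, -⟩ := SJa_decay S hC₀ hR hT le_rfl (SJa_sol0 S) hz hzT hpos h0
  have hLm : 0 < S.Lm := lt_of_lt_of_le (by linarith) S.hLm
  have hfC : 0 < S.f₀ C₀ := hpos C₀ ⟨by linarith, by linarith⟩
  set M := S.f₀ C₀ with hM
  set a := M * Real.exp (0.99 * C₀) / 100 with ha
  have ha0 : 0 < a := by positivity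
  -- majorant
  set Ψ : ℝ → ℝ := fun s => Bco S.f₀ S.g₀ s - a * (Real.exp (1.8 * C₀) * Real.exp (-(3.79 * s)) / 3.79 +
    Real.exp (-(1.8 * T)) * Real.exp (-(0.19 * s)) / 0.19) with hΨ
  have hd : ∀ s, HasDerivAt Ψ (-(1 / 2 * Real.exp (-s) * (S.U s * S.f₀ s)) +
      a * (Real.exp (1.8 * C₀) * Real.exp (-(3.79 * s)) + Real.exp (-(1.8 * T)) * Real.exp (-(0.19 * s)))) s := by
    intro s
    have e0 : HasDerivAt (fun s : ℝ => Real.exp (-s)) (-Real.exp (-s)) s := by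
      have := (hasDerivAt_neg s).exp
      simpa using this
    have e1 : HasDerivAt (fun s : ℝ => Real.exp (-(3.79 * s))) (-3.79 * Real.exp (-(3.79 * s))) s := by
      have := (((hasDerivAt_id' s).const_mul (3.79 : ℝ)).fun_neg).exp
      convert this using 1
      ring
    have e2 : HasDerivAt (fun s : ℝ => Real.exp (-(0.19 * s))) (-0.19 * Real.exp (-(0.19 * s))) s := by
      have := (((hasDerivAt_id' s).const_mul (0.19 : ℝ)).fun_neg).exp
      convert this using 1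
      ring
    have b1 := ((e0.const_mul (1 / 2)).mul ((S.sol₀.d1 s).add (S.sol₀.d2 s)))
    have b2 := ((e1.const_mul (Real.exp (1.8 * C₀))).div_const 3.79).add
      ((e2.const_mul (Real.exp (-(1.8 * T)))).div_const 0.19)
    have b3 := b1.sub (b2.const_mul a)
    have : HasDerivAt Ψ _ s := b3
    convert this using 1
    simp only [Pi.add_apply]
    ring
  have hmono : MonotoneOn Ψ (Icc (T / 3) z) := by
    refine monotoneOn_of_deriv_nonneg (convex_Icc _ _)
      (fun x _ => (hd x).continuousAt.continuousWithinAt)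
      (fun x _ => (hd x).differentiableAt.differentiableWithinAt) ?_
    intro s hs
    rw [interior_Icc] at hs
    rw [(hd s).deriv]
    have hsI : s ∈ Icc C₀ z := ⟨by linarith [hs.1], hs.2.le⟩
    have hf : S.f₀ s ≤ M * Real.exp (-(0.99 * (s - C₀))) := hdec s hsI
    have hU := S.decay_gap hC₀ (hR.trans hT.hR) hT.hLp.le hT.le s ⟨hsI.1, hsI.2.trans hzT⟩
    have hf0 : 0 ≤ S.f₀ s := (hpos s ⟨by linarith [hsI.1], hs.2⟩).le
    have hU0 := SJa_U_nonneg S s
    have h1 : S.U s * S.f₀ s ≤ 1 / 50 * (Real.exp (-(1.8 * (s - C₀))) + Real.exp (-(1.8 * (T - s)))) *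
        (M * Real.exp (-(0.99 * (s - C₀)))) := mul_le_mul hU hf hf0 (by positivity)
    have h2 : 1 / 2 * Real.exp (-s) * (S.U s * S.f₀ s) ≤ 1 / 2 * Real.exp (-s) *
        (1 / 50 * (Real.exp (-(1.8 * (s - C₀))) + Real.exp (-(1.8 * (T - s)))) *
        (M * Real.exp (-(0.99 * (s - C₀))))) := mul_le_mul_of_nonneg_left h1 (by positivity)
    have h3 : 1 / 2 * Real.exp (-s) *
        (1 / 50 * (Real.exp (-(1.8 * (s - C₀))) + Real.exp (-(1.8 * (T - s)))) *
        (M * Real.exp (-(0.99 * (s - C₀))))) =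
        a * (Real.exp (1.8 * C₀) * Real.exp (-(3.79 * s)) + Real.exp (-(1.8 * T)) * Real.exp (-(0.19 * s))) := by
      have x1 : Real.exp (-(1.8 * (s - C₀))) = Real.exp (1.8 * C₀) * Real.exp (-(1.8 * s)) := by
        rw [← Real.exp_add]; congr 1; ring
      have x2 : Real.exp (-(1.8 * (T - s))) = Real.exp (-(1.8 * T)) * Real.exp (1.8 * s) := by
        rw [← Real.exp_add]; congr 1; ring
      have x3 : Real.exp (-(0.99 * (s - C₀))) = Real.exp (0.99 * C₀) * Real.exp (-(0.99 * s)) := by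
        rw [← Real.exp_add]; congr 1; ring
      have x4 : Real.exp (-(3.79 * s)) = Real.exp (-s) * Real.exp (-(1.8 * s)) * Real.exp (-(0.99 * s)) := by
        rw [← Real.exp_add, ← Real.exp_add]; congr 1; ring
      have x5 : Real.exp (-(0.19 * s)) = Real.exp (-s) * Real.exp (1.8 * s) * Real.exp (-(0.99 * s)) := by
        rw [← Real.exp_add, ← Real.exp_add]; congr 1; ring
      rw [x1, x2, x3, x4, x5, ha]
      ring
    linarith
  have hle : Ψ (T / 3) ≤ Ψ z := hmono ⟨le_refl _, hTz⟩ ⟨hTz, le_refl _⟩ hTz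
  have hΨz : Ψ z ≤ 0 := by
    have h1 : Bco S.f₀ S.g₀ z ≤ 0 := by
      unfold Bco
      rw [h0]
      have : 0 ≤ 1 / 2 * Real.exp (-z) := by positivity
      nlinarith
    have h2 : 0 ≤ a * (Real.exp (1.8 * C₀) * Real.exp (-(3.79 * z)) / 3.79 +
      Real.exp (-(1.8 * T)) * Real.exp (-(0.19 * z)) / 0.19) := by positivity
    simp only [hΨ]
    linarith
  have hB : Bco S.f₀ S.g₀ (T / 3) ≤ a * (Real.exp (1.8 * C₀) * Real.exp (-(3.79 * (T / 3))) / 3.79 +
    Real.exp (-(1.8 * T)) * Real.exp (-(0.19 * (T / 3))) / 0.19) := by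
    simp only [hΨ] at hle hΨz
    linarith
  refine hB.trans ?_
  have hTpos : 0 < T := by linarith
  have y1 : Real.exp (-(3.79 * (T / 3))) ≤ Real.exp (-(1.2 * T)) := Real.exp_le_exp.2 (by linarith)
  have y2 : Real.exp (-(1.8 * T)) * Real.exp (-(0.19 * (T / 3))) ≤ Real.exp (-(1.2 * T)) := by
    rw [← Real.exp_add]; exact Real.exp_le_exp.2 (by linarith)
  have y3 : (1 : ℝ) ≤ Real.exp (1.8 * C₀) := Real.one_le_exp (by positivity)
  have y4 : Real.exp (2.79 * C₀) = Real.exp (0.99 * C₀) * Real.exp (1.8 * C₀) := by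
    rw [← Real.exp_add]; congr 1; ring
  have z1 : Real.exp (1.8 * C₀) * Real.exp (-(3.79 * (T / 3))) / 3.79 ≤
      Real.exp (1.8 * C₀) * Real.exp (-(1.2 * T)) := by
    have : Real.exp (1.8 * C₀) * Real.exp (-(3.79 * (T / 3))) ≤ Real.exp (1.8 * C₀) * Real.exp (-(1.2 * T)) :=
      mul_le_mul_of_nonneg_left y1 (Real.exp_pos _).le
    have h0 : 0 ≤ Real.exp (1.8 * C₀) * Real.exp (-(3.79 * (T / 3))) := by positivity
    have : Real.exp (1.8 * C₀) * Real.exp (-(3.79 * (T / 3))) / 3.79 ≤ Real.exp (1.8 * C₀) * Real.exp (-(3.79 * (T / 3))) :=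
      div_le_self h0 (by norm_num)
    linarith
  have z2 : Real.exp (-(1.8 * T)) * Real.exp (-(0.19 * (T / 3))) / 0.19 ≤
      6 * (Real.exp (1.8 * C₀) * Real.exp (-(1.2 * T))) := by
    rw [div_le_iff₀ (by norm_num)]
    have : Real.exp (-(1.2 * T)) ≤ Real.exp (1.8 * C₀) * Real.exp (-(1.2 * T)) :=
      le_mul_of_one_le_left (Real.exp_pos _).le y3
    linarith [Real.exp_pos (-(1.2 * T))]
  calc a * (Real.exp (1.8 * C₀) * Real.exp (-(3.79 * (T / 3))) / 3.79 +
        Real.exp (-(1.8 * T)) * Real.exp (-(0.19 * (T / 3))) / 0.19)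
      ≤ a * (7 * (Real.exp (1.8 * C₀) * Real.exp (-(1.2 * T)))) :=
        mul_le_mul_of_nonneg_left (by linarith) ha0.le
    _ = 7 / 100 * (M * Real.exp (2.79 * C₀) * Real.exp (-(1.2 * T))) := by
        rw [y4, ha]; ring
    _ ≤ M * Real.exp (2.79 * C₀) * Real.exp (-(1.2 * T)) := by
        have : 0 ≤ M * Real.exp (2.79 * C₀) * Real.exp (-(1.2 * T)) := by positivity
        linarith

/-- growth from a zero in the gap up to `T` -/
theorem SJa_growth {R : ℝ} (S : SD K₁ C₀ R) {T : ℝ} (hT : S.IsT T)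
    {e : ℝ} (he : 0 ≤ e) (heT : e * om T ≤ K₁) {f g : ℝ → ℝ} (h : Sol (pot 1 e S.U) f g) {z : ℝ} (hz : C₀ ≤ z)
    (hzT : z ≤ T) (h0 : f z = 0) : |f T| ≤ |g z| * Real.exp (1.01 * (T - z) + K₁ / 2) := by
  have hm : Continuous (fun t => 1 + S.U t + e * om t) :=
    (continuous_const.add S.cU).add (continuous_const.mul (by unfold om; fun_prop))
  have hg := growth h (s := z) (m := fun t => 1 + S.U t + e * om t) hm
    (fun t _ => by
      have h1 := SJa_U_nonneg S t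
      have h2 := mul_nonneg he (SJa_om_pos t).le
      linarith)
    (fun t _ => by
      have h1 := SJa_U_nonneg S t
      have h2 := mul_nonneg he (SJa_om_pos t).le
      unfold pot
      rw [abs_le]
      constructor <;> linarith) T hzT
  rw [h0, abs_zero, zero_add] at hg
  have h1 : |f T| ≤ |f T| + |g T| := by linarith [abs_nonneg (g T)]
  refine (h1.trans hg).trans ?_
  refine mul_le_mul_of_nonneg_left (Real.exp_le_exp.2 ?_) (abs_nonneg _)
  have i1 : IntervalIntegrable (fun t => 1 + S.U t) volume z T := (continuous_const.add S.cU).intervalIntegrable _ _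
  have i2 : IntervalIntegrable (fun t => e * om t) volume z T :=
    (continuous_const.mul (by unfold om; fun_prop : Continuous om)).intervalIntegrable _ _
  have s1 : ∫ u in z..T, (1 + S.U u + e * om u) = (∫ u in z..T, (1 + S.U u)) + ∫ u in z..T, e * om u := by
    rw [← intervalIntegral.integral_add i1 i2]
  have s2 : ∫ u in z..T, (1 + S.U u) ≤ ∫ u in z..T, (1.01 : ℝ) := by
    refine intervalIntegral.integral_mono_on hzT i1 (by simp) ?_
    intro x hx
    have := hT.le x ⟨hz.trans hx.1, hx.2⟩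
    linarith
  have s3 : ∫ u in z..T, (1.01 : ℝ) = 1.01 * (T - z) := by simp; ring
  have s4 : ∫ u in z..T, e * om u = e * (om T / 2 - om z / 2) := by
    rw [intervalIntegral.integral_const_mul]
    congr 1
    have : ∀ x ∈ uIcc z T, HasDerivAt (fun x => om x / 2) (om x) x := by
      intro x _
      have h1 : HasDerivAt (fun y : ℝ => Real.exp (2 * y)) (Real.exp (2 * x) * (2 * 1)) x :=
        ((hasDerivAt_id' x).const_mul (2 : ℝ)).exp
      have h2 := h1.div_const 2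
      have e : Real.exp (2 * x) * (2 * 1) / 2 = om x := by unfold om; ring
      rw [e] at h2
      exact h2
    rw [intervalIntegral.integral_eq_sub_of_hasDerivAt this
      ((by unfold om; fun_prop : Continuous om).intervalIntegrable _ _)]
  have s5 : e * (om T / 2 - om z / 2) ≤ K₁ / 2 := by
    have := mul_nonneg he (SJa_om_pos z).le
    linarith
  rw [s1, s4]
  rw [s3] at s2
  linarith

/-- for large `T`, `A e^{-κ T}` is small -/
theorem SJa_large (A κ ε : ℝ) (hκ : 0 < κ) (hε : 0 < ε) : ∃ R₀ : ℝ, ∀ T ≥ R₀, A * Real.exp (-(κ * T)) < ε := by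
  have h1 : Filter.Tendsto (fun T : ℝ => A * Real.exp (-(κ * T))) Filter.atTop (nhds (A * 0)) := by
    refine Filter.Tendsto.const_mul A ?_
    refine Real.tendsto_exp_atBot.comp ?_
    exact Filter.tendsto_neg_atTop_atBot.comp (Filter.tendsto_id.const_mul_atTop hκ)
  rw [mul_zero] at h1
  have h2 := h1.eventually (gt_mem_nhds hε)
  obtain ⟨R₀, hR₀⟩ := Filter.eventually_atTop.1 h2
  exact ⟨R₀, hR₀⟩

theorem z_lt (hK : 0 < K₁) (hC₀ : 0 < C₀) : ∃ R₀ ≥ C₀, ∀ R ≥ R₀, ∀ S : SD K₁ C₀ R, ∀ T z, S.IsT T → S.IsZ z → z < 0.9 * T := by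
  obtain ⟨R1, hR1, h1⟩ := caseI hK hC₀
  obtain ⟨c₁, hc₁, R2, hR2, h2⟩ := supporter hK hC₀
  obtain ⟨C₂, hC₂, R3, hR3, h3⟩ := crude hK hC₀
  obtain ⟨C₃, hC₃, R4, hR4, h4⟩ := ground_bound hK hC₀
  obtain ⟨c', hc', R5, hR5, h5⟩ := pos_supporter hK hC₀ hc₁
  obtain ⟨C₄, hC₄, R6, hR6, h6⟩ := diff_third hK hC₀
  obtain ⟨R7, h7⟩ := SJa_large C₃ 0.98 c₁ (by norm_num) hc₁
  obtain ⟨R8, h8⟩ := SJa_large (C₂ * Real.exp C₀ * Real.exp (2.79 * C₀) + C₄) 0.19 c' (by norm_num) hc'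
  obtain ⟨R9, h9⟩ := SJa_large (C₂ * Real.exp C₀ * Real.exp (0.99 * (1 + C₀)) * Real.exp (K₁ / 2)) 0.77 c₁ (by norm_num) hc₁
  refine ⟨max (max (max R1 R2) (max R3 R4)) (max (max R5 R6) (max (max R7 R8) (max R9 (3 * C₀ + 2)))), ?_, ?_⟩
  · exact le_trans hR1 (le_trans (le_max_left _ _) (le_trans (le_max_left _ _) (le_max_left _ _)))
  intro R hR S T z hT hz
  simp only [ge_iff_le, max_le_iff] at hR
  obtain ⟨⟨⟨g1, g2⟩, g3, g4⟩, ⟨g5, g6⟩, ⟨g7, g8⟩, g9, g10⟩ := hR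
  by_contra hcon
  push Not at hcon
  have hRT : R ≤ T := hT.hR
  have hCR : C₀ ≤ R := by linarith
  have hTpos : 0 < T := by linarith
  have hLm : 0 < S.Lm := lt_of_lt_of_le (by linarith) S.hLm
  have hzT : z < T := h1 R g1 S T z hT hz
  have hzR : R < z := hz.hR
  have hγ := S.hγ
  have hγ' := S.hγ'
  have hTγ : S.γ * T ≤ 0.01 * T := by
    have : S.γ ≤ 0.01 := by norm_num; linarith
    exact mul_le_mul_of_nonneg_right this hTpos.le
  obtain ⟨j, hjN, hsup⟩ := h2 R g2 S T hT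
  have hLpT := hT.hLp
  -- crude bound at C₀
  have hcr : ∀ e : ℝ, 0 ≤ e → e * om T ≤ K₁ + 1 → ∀ f g : ℝ → ℝ, Sol (pot 1 e S.U) f g → f (-S.Lm) = 0 → f 0 = 1 →
      f C₀ ≤ C₂ * Real.exp C₀ := by
    intro e he heT f g hs hl h0
    have := h3 R g3 S T hT e he heT f g hs hl h0 C₀ ⟨hC₀.le, by linarith⟩
    linarith [le_abs_self (f C₀), abs_nonneg (g C₀)]
  by_cases hp : ∀ x ∈ Ioo (-S.Lm) T, 0 < S.φ j x
  · -- positive supporter
    have hφT : 0 ≤ S.φ j T := by
      have hc : Continuous (S.φ j) := (S.sol j hjN).continuous_left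
      have hcl : T ∈ closure (Ioo (-S.Lm) T) := by
        rw [closure_Ioo (by linarith : -S.Lm ≠ T)]
        exact ⟨by linarith, le_refl _⟩
      have : closure (Ioo (-S.Lm) T) ⊆ {x | 0 ≤ S.φ j x} :=
        closure_minimal (fun x hx => (hp x hx).le) (isClosed_le continuous_const hc)
      exact this hcl
    rw [abs_of_nonneg hφT] at hsup
    by_cases hbig : S.e j * om T ≤ K₁ + 1
    · have hB := h5 R g5 S T hT j hjN hbig hp hsup
      have hd := h6 R g6 S T hT (S.e j) 0 (S.e_pos j hjN).le hbig le_rfl (by simp; linarith) (S.φ j) (S.dφ j) S.f₀ S.g₀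
        (S.sol j hjN) (S.φ_left j hjN) (S.φ_zero j hjN) (SJa_sol0 S) S.f₀_left S.f₀_zero
      have hB0 := SJa_B0 S hC₀ hCR hT (z := z) (by linarith) hzT.le (by linarith) (by linarith) hz.pos hz.zero
      have hf0C : S.f₀ C₀ ≤ C₂ * Real.exp C₀ :=
        hcr 0 le_rfl (by simp; linarith) S.f₀ S.g₀ (SJa_sol0 S) S.f₀_left S.f₀_zero
      have hB0' : Bco S.f₀ S.g₀ (T / 3) ≤ C₂ * Real.exp C₀ * Real.exp (2.79 * C₀) * Real.exp (-(1.2 * T)) := by
        refine hB0.trans ?_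
        gcongr
      have hd' := (abs_le.1 hd).2
      have k1 : Real.exp (-((1 + S.γ) * T)) ≥ Real.exp (-(1.01 * T)) := Real.exp_le_exp.2 (by nlinarith)
      have k2 : Real.exp (-(4 / 3 * T)) ≤ Real.exp (-(1.2 * T)) := Real.exp_le_exp.2 (by linarith)
      have k3 : Real.exp (-(1.2 * T)) = Real.exp (-(1.01 * T)) * Real.exp (-(0.19 * T)) := by
        rw [← Real.exp_add]; congr 1; ring
      have k4 := h8 T (by linarith)
      have k5 : c' * Real.exp (-(1.01 * T)) ≤ (C₂ * Real.exp C₀ * Real.exp (2.79 * C₀) + C₄) * Real.exp (-(1.2 * T)) := by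
        calc c' * Real.exp (-(1.01 * T)) ≤ c' * Real.exp (-((1 + S.γ) * T)) := by gcongr
          _ ≤ Bco (S.φ j) (S.dφ j) (T / 3) := hB
          _ ≤ Bco S.f₀ S.g₀ (T / 3) + C₄ * Real.exp (-(4 / 3 * T)) := by linarith
          _ ≤ C₂ * Real.exp C₀ * Real.exp (2.79 * C₀) * Real.exp (-(1.2 * T)) + C₄ * Real.exp (-(1.2 * T)) := by
              gcongr
          _ = _ := by ring
      rw [k3] at k5
      have k6 : (C₂ * Real.exp C₀ * Real.exp (2.79 * C₀) + C₄) * Real.exp (-(0.19 * T)) * Real.exp (-(1.01 * T)) <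
          c' * Real.exp (-(1.01 * T)) := mul_lt_mul_of_pos_right k4 (Real.exp_pos _)
      have k7 : (C₂ * Real.exp C₀ * Real.exp (2.79 * C₀) + C₄) * (Real.exp (-(1.01 * T)) * Real.exp (-(0.19 * T))) =
          (C₂ * Real.exp C₀ * Real.exp (2.79 * C₀) + C₄) * Real.exp (-(0.19 * T)) * Real.exp (-(1.01 * T)) := by ring
      linarith
    · push Not at hbig
      have hj0 : j = 0 := by
        by_contra hj
        have := S.e_le hK hC₀ hCR hT hz (Nat.one_le_iff_ne_zero.2 hj) hjN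
        linarith
      subst hj0
      have := (h4 R g4 S T hT hbig.le).1 T ⟨hTpos.le, le_refl _⟩
      have k4 := h7 T (by linarith)
      have k1 : Real.exp (-(0.99 * T)) = Real.exp (-(0.01 * T)) * Real.exp (-(0.98 * T)) := by
        rw [← Real.exp_add]; congr 1; ring
      have k2 : Real.exp (-(0.01 * T)) ≤ Real.exp (-(S.γ * T)) := Real.exp_le_exp.2 (by linarith)
      have k3 : c₁ * Real.exp (-(0.01 * T)) ≤ C₃ * Real.exp (-(0.99 * T)) := by
        calc c₁ * Real.exp (-(0.01 * T)) ≤ c₁ * Real.exp (-(S.γ * T)) := by gcongr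
          _ ≤ _ := hsup.trans this
      rw [k1] at k3
      have k6 : C₃ * Real.exp (-(0.98 * T)) * Real.exp (-(0.01 * T)) < c₁ * Real.exp (-(0.01 * T)) :=
        mul_lt_mul_of_pos_right k4 (Real.exp_pos _)
      have k7 : C₃ * (Real.exp (-(0.01 * T)) * Real.exp (-(0.98 * T))) =
        C₃ * Real.exp (-(0.98 * T)) * Real.exp (-(0.01 * T)) := by ring
      linarith
  · -- the supporter has a zero before `T`
    have hj : 1 ≤ j := by
      by_contra hj
      have hj0 : j = 0 := by omega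
      subst hj0
      exact hp fun x hx => S.φ_pos x ⟨hx.1, hx.2.trans hLpT⟩
    obtain ⟨zj, hzj, hzzj⟩ := S.exists_first (by linarith) hz hj hjN
    have hzjT : zj < T := by
      by_contra hge
      push Not at hge
      exact hp fun x hx => hzj.pos x ⟨hx.1, lt_of_lt_of_le hx.2 hge⟩
    have hej : S.e j * om T ≤ K₁ := S.e_le hK hC₀ hCR hT hz hj hjN
    have hej0 := (S.e_pos j hjN).le
    obtain ⟨hdec, hgz, hgz'⟩ := SJa_decay S hC₀ hCR hT hej0 (S.sol j hjN) (z := zj) (by linarith) hzjT.le hzj.pos hzj.zero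
    have hgr := SJa_growth S hT hej0 hej (S.sol j hjN) (z := zj) (by linarith) hzjT.le hzj.zero
    have hφC : S.φ j C₀ ≤ C₂ * Real.exp C₀ :=
      hcr (S.e j) hej0 (by linarith) (S.φ j) (S.dφ j) (S.sol j hjN) (S.φ_left j hjN) (S.φ_zero j hjN)
    have hdz : S.φ j (zj - 1) ≤ C₂ * Real.exp C₀ * Real.exp (-(0.99 * (zj - 1 - C₀))) := by
      refine (hdec (zj - 1) ⟨by linarith, by linarith⟩).trans ?_
      gcongr
    have k1 : |S.φ j T| ≤ C₂ * Real.exp C₀ * Real.exp (-(0.99 * (zj - 1 - C₀))) * Real.exp (1.01 * (T - zj) + K₁ / 2) := by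
      refine hgr.trans ?_
      gcongr
      exact hgz'.trans hdz
    have k2 : C₂ * Real.exp C₀ * Real.exp (-(0.99 * (zj - 1 - C₀))) * Real.exp (1.01 * (T - zj) + K₁ / 2) ≤
        (C₂ * Real.exp C₀ * Real.exp (0.99 * (1 + C₀)) * Real.exp (K₁ / 2)) * Real.exp (-(0.78 * T)) := by
      have : C₂ * Real.exp C₀ * Real.exp (-(0.99 * (zj - 1 - C₀))) * Real.exp (1.01 * (T - zj) + K₁ / 2) =
        (C₂ * Real.exp C₀ * Real.exp (0.99 * (1 + C₀)) * Real.exp (K₁ / 2)) * Real.exp (1.01 * T - 2 * zj) := by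
        have x1 : Real.exp (-(0.99 * (zj - 1 - C₀))) = Real.exp (0.99 * (1 + C₀)) * Real.exp (-(0.99 * zj)) := by
          rw [← Real.exp_add]; congr 1; ring
        have x2 : Real.exp (1.01 * (T - zj) + K₁ / 2) = Real.exp (1.01 * T - 1.01 * zj) * Real.exp (K₁ / 2) := by
          rw [← Real.exp_add]; congr 1; ring
        have x3 : Real.exp (1.01 * T - 2 * zj) = Real.exp (-(0.99 * zj)) * Real.exp (1.01 * T - 1.01 * zj) := by
          rw [← Real.exp_add]; congr 1; ring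
        rw [x1, x2, x3]
        ring
      rw [this]
      gcongr
      linarith
    have k3 : Real.exp (-(0.01 * T)) ≤ Real.exp (-(S.γ * T)) := Real.exp_le_exp.2 (by linarith)
    have k4 := h9 T (by linarith)
    have k5 : c₁ * Real.exp (-(0.01 * T)) ≤
        (C₂ * Real.exp C₀ * Real.exp (0.99 * (1 + C₀)) * Real.exp (K₁ / 2)) * Real.exp (-(0.78 * T)) := by
      calc c₁ * Real.exp (-(0.01 * T)) ≤ c₁ * Real.exp (-(S.γ * T)) := by gcongr
        _ ≤ |S.φ j T| := hsup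
        _ ≤ _ := k1.trans k2
    have k6 : Real.exp (-(0.78 * T)) = Real.exp (-(0.77 * T)) * Real.exp (-(0.01 * T)) := by
      rw [← Real.exp_add]; congr 1; ring
    rw [k6, ← mul_assoc] at k5
    have k7 := mul_lt_mul_of_pos_right k4 (Real.exp_pos (-(0.01 * T)))
    linarith

end Pool.Agent.RLT40
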