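import Pool.Agent.RLT40.SJa

/-!
# Module SJ (paper 5.7 (i), (ii)): `z < 0.9 T`, lower bound of `e 0`.

(i) Suppose `0.9T ≤ z < T`.  `f₀` is convex, decreasing on `[C₀,z]`, `f₀(t) ≤ C e^{-0.99t}` (max_principle), `|g₀(z)| ≤ f₀(z-1)`, so `B₀ = Bco f₀ g₀` satisfies `|B₀(z)| ≤ C e^{-1.99z}`; `B₀' = -½e^{-t}Uf₀ ≤ 0` and
`B₀(T/3) - B₀(z) = ∫ ½e^{-s}Uf₀ ≤ C e^{-1.2T}` (decay_gap): `|B₀(T/3)| ≤ C e^{-1.2T}`.  Supporter `j`: if `φ_j > 0` on `(-Lm,T)`: (`e₀ω(T) ≥ K₁+1` and ground_bound exclude it or) `e_jω(T) ≤ K₁+1`,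
pos_supporter and diff_third contradict.  Otherwise `φ_j` has a first zero `z_j ∈ (z,T)`, `j ≥ 1`, `|φ_j'(z_j)| ≤ φ_j(z_j-1) ≤ C e^{-0.99 z_j}`, and (growth) `|φ_j(T)| ≤ C e^{T-z_j}|φ_j'(z_j)| ≤ C e^{T - 1.99 z_j} ≤ C e^{-0.7T}`: contradiction.
(ii) `W = φ_0' f₀ - φ_0 g₀`, `W(z) = φ_0(z)|g₀(z)| = e_0 ∫_{-Lm}^z ω φ_0 f₀`.  `|g₀(z)| ≥ e^{-z}`: `A₀' = ½e^tUf₀ ≥ 0`, `A₀(0) = ½`, `A₀(z) = ½e^z|g₀(z)|`.  `φ_0 ≥ f₀`, `f₀(z-1) ≥ |g₀(z)|`.  If `e_0 ≤ e^{-2z}` the log-derivative of `φ_0` is
`≥ -C` on `[z-1,z]` (else `φ_0` vanishes before `z+1 < T < Lp`), so `φ_0(z) ≥ c e^{-z}`.  `∫ ω φ_0 f₀ ≤ C e^{0.03z} + C φ_0(z) e^{1.01z}`.  Hence `e_0 ≥ c e^{-2.05z}`, and `z ≤ 0.9T` gives `e_0ω(T) ≥ K₁+1`.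
-/

open MeasureTheory Set
open scoped ENNReal NNReal

namespace Pool.Agent.RLT40

variable {K₁ C₀ : ℝ}

theorem SJb_mono {F F' : ℝ → ℝ} {a b : ℝ} (hab : a ≤ b) (hF : ∀ s ∈ Icc a b, HasDerivAt F (F' s) s)
    (h : ∀ s ∈ Ioo a b, 0 ≤ F' s) : F a ≤ F b := by
  have hm : MonotoneOn F (Icc a b) := by
    refine monotoneOn_of_deriv_nonneg (convex_Icc a b) (fun s hs => (hF s hs).continuousAt.continuousWithinAt)
      ?_ ?_
    · rw [interior_Icc]
      exact fun s hs => (hF s (Ioo_subset_Icc_self hs)).differentiableAt.differentiableWithinAt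
    · rw [interior_Icc]
      intro s hs
      rw [(hF s (Ioo_subset_Icc_self hs)).deriv]
      exact h s hs
  exact hm (left_mem_Icc.2 hab) (right_mem_Icc.2 hab) hab

/-- Riccati bound: a positive solution with `V ≤ M` on `[t, t+1]` does not decrease too fast at `t` -/
theorem SJb_log {V f g : ℝ → ℝ} (h : Sol V f g) {M t : ℝ} (hM : 1 ≤ M)
    (hV : ∀ s ∈ Icc t (t + 1), V s ≤ M) (hpos : ∀ s ∈ Icc t (t + 1), 0 < f s) :
    -((1 + M) * f t) ≤ g t := by
  by_contra hcon
  push Not at hcon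
  have htt : t ∈ Icc t (t + 1) := ⟨le_rfl, by linarith⟩
  set r : ℝ → ℝ := fun s => g s / f s with hr0
  have hr : ∀ s ∈ Icc t (t + 1), HasDerivAt r (V s - r s ^ 2) s := by
    intro s hs
    have hf := hpos s hs
    refine ((h.d2 s).div (h.d1 s) hf.ne').congr_deriv ?_
    simp only [r]
    field_simp
  have hrt : r t < -(1 + M) := by
    simp only [r]
    rw [div_lt_iff₀ (hpos t htt)]
    linarith
  have hle : ∀ s ∈ Icc t (t + 1), r s ≤ -(1 + M) := by
    intro s hs
    refine image_le_of_deriv_right_lt_deriv_boundary (f := r) (f' := fun s => V s - r s ^ 2) (a := t)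
      (b := t + 1) (fun s hs => (hr s hs).continuousAt.continuousWithinAt)
      (fun s hs => (hr s (Ico_subset_Icc_self hs)).hasDerivWithinAt) (B := fun _ => -(1 + M))
      (B' := fun _ => 0) hrt.le (fun s => hasDerivAt_const s _) (fun s hs heq => ?_) hs
    have h1 := hV s (Ico_subset_Icc_self hs)
    rw [heq]
    nlinarith
  -- the function `-1/r`
  have hu : ∀ s ∈ Icc t (t + 1), HasDerivAt (fun s => (r s)⁻¹ - 3 / 4 * s)
      (-(V s - r s ^ 2) / r s ^ 2 - 3 / 4) s := by
    intro s hs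
    have hrs : r s ≠ 0 := by
      have := hle s hs
      linarith
    have h1 := (hr s hs).inv hrs
    have h2 : HasDerivAt (fun s : ℝ => 3 / 4 * s) (3 / 4) s := by
      simpa using (hasDerivAt_id s).const_mul (3 / 4 : ℝ)
    exact h1.sub h2
  have hmono := SJb_mono (by linarith) hu (fun s hs => by
    have hs' := Ioo_subset_Icc_self hs
    have h1 := hle s hs'
    have h2 := hV s hs'
    have h3 : 0 < r s ^ 2 := by
      have : r s ≠ 0 := by linarith
      positivity
    have h4 : (1 + M) ^ 2 ≤ r s ^ 2 := by nlinarith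
    rw [sub_nonneg, le_div_iff₀ h3]
    nlinarith [sq_nonneg (M - 1)])
  have h5 : (r (t + 1))⁻¹ < 0 := inv_lt_zero.2 (by
    have := hle (t + 1) ⟨by linarith, le_rfl⟩
    linarith)
  have h6 : -(1 / 2) ≤ (r t)⁻¹ := by
    have h7 : (r t)⁻¹ = -((-r t)⁻¹) := by rw [inv_neg, neg_neg]
    rw [h7]
    have h8 : (-r t)⁻¹ ≤ 1 / 2 := by
      rw [inv_le_comm₀ (by linarith) (by norm_num)]
      norm_num
      linarith
    linarith
  linarith

theorem SJb_om_mono {x y : ℝ} (h : x ≤ y) : om x ≤ om y := Real.exp_le_exp.2 (by linarith)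

theorem SJb_om_cont : Continuous om := by
  unfold om
  fun_prop

theorem e0_lower (hK : 0 < K₁) (hC₀ : 0 < C₀) : ∃ c > 0, ∃ R₀ ≥ C₀, ∀ R ≥ R₀, ∀ S : SD K₁ C₀ R, ∀ T z, S.IsT T → S.IsZ z →
    c * Real.exp (-(2.05 * z)) ≤ S.e 0 ∧ K₁ + 1 ≤ S.e 0 * om T ∧ Real.exp (-z) ≤ -S.g₀ z := by
  obtain ⟨Cl, hCl, cl, hcl, hcl1, R₁, hR₁, hleft⟩ := left_bounds (C₀ := C₀) hK hC₀
  obtain ⟨R₂, hR₂, hzlt⟩ := z_lt (C₀ := C₀) hK hC₀
  obtain ⟨B, hB⟩ : ∃ B, B = (1 + Cl) * Real.exp (C₀ * (1 + K₁ + om C₀)) := ⟨_, rfl⟩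
  have hB0 : 0 < B := by rw [hB]; positivity
  obtain ⟨C₁, hC₁⟩ : ∃ C₁, C₁ = B * Real.exp (0.99 * C₀) := ⟨_, rfl⟩
  have hC₁0 : 0 < C₁ := by rw [hC₁]; positivity
  obtain ⟨D, hD⟩ : ∃ D, D = Cl + 50 * C₁ * C₁ := ⟨_, rfl⟩
  have hD0 : 0 < D := by rw [hD]; positivity
  obtain ⟨M, hM⟩ : ∃ M, M = 1 + Real.exp 2 := ⟨_, rfl⟩
  have hM1 : 1 ≤ M := by rw [hM]; linarith [Real.exp_pos 2]
  obtain ⟨c', hc'⟩ : ∃ c', c' = Real.exp (-(1 + M)) := ⟨_, rfl⟩
  have hc'0 : 0 < c' := by rw [hc']; positivity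
  obtain ⟨c, hc⟩ : ∃ c, c = min 1 (min (1 / C₁) (c' / (2 * D))) := ⟨_, rfl⟩
  have hc0 : 0 < c := by
    rw [hc]
    exact lt_min one_pos (lt_min (by positivity) (by positivity))
  have hc1 : c ≤ 1 := by rw [hc]; exact min_le_left _ _
  have hc2 : c ≤ 1 / C₁ := by rw [hc]; exact (min_le_right _ _).trans (min_le_left _ _)
  have hc3 : c ≤ c' / (2 * D) := by rw [hc]; exact (min_le_right _ _).trans (min_le_right _ _)
  refine ⟨c, hc0, max (max R₁ R₂) (max (max (Real.log ((K₁ + 1) / c) / 0.155) (C₀ + 1)) 10), ?_, ?_⟩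
  · exact hR₁.trans ((le_max_left _ _).trans (le_max_left _ _))
  intro R hR S T z hT hz
  have hRR₁ : R₁ ≤ R := ((le_max_left _ _).trans (le_max_left _ _)).trans hR
  have hRR₂ : R₂ ≤ R := ((le_max_right _ _).trans (le_max_left _ _)).trans hR
  have hRR₃ : Real.log ((K₁ + 1) / c) / 0.155 ≤ R :=
    (((le_max_left _ _).trans (le_max_left _ _)).trans (le_max_right _ _)).trans hR
  have hRC₀ : C₀ + 1 ≤ R :=
    (((le_max_right _ _).trans (le_max_left _ _)).trans (le_max_right _ _)).trans hR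
  have hR10 : 10 ≤ R := ((le_max_right _ _).trans (le_max_right _ _)).trans hR
  have hz9 : z < 0.9 * T := hzlt R hRR₂ S T z hT hz
  have hRz : R < z := hz.hR
  have hRT : R ≤ T := hT.hR
  have hz1T : z + 1 < T := by norm_num at hz9; linarith
  have hTLp : T < S.Lp := hT.hLp
  have hLm : R ≤ S.Lm := S.hLm
  have hU0 : ∀ x, 0 ≤ S.U x := SCa_U_nonneg S
  have hUgap : ∀ x ∈ Icc C₀ T, S.U x ≤ 1 / 100 := hT.le
  have hsol0 : Sol (pot 1 0 S.U) S.f₀ S.g₀ :=
    ⟨S.sol₀.d1, fun x => by simpa [pot] using S.sol₀.d2 x⟩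
  have hφs := S.sol 0 S.hN
  have he0 : 0 < S.e 0 := S.e_pos 0 S.hN
  have hφpos : ∀ x ∈ Ioo (-S.Lm) S.Lp, 0 < S.φ 0 x := S.φ_pos
  have hφ0 : S.φ 0 0 = 1 := S.φ_zero 0 S.hN
  have hφl : S.φ 0 (-S.Lm) = 0 := S.φ_left 0 S.hN
  -- third claim
  have hA : Real.exp (-z) ≤ -S.g₀ z := by
    have h1 := SJb_mono (F := Aco S.f₀ S.g₀) (F' := fun t => 1 / 2 * Real.exp t * (S.U t * S.f₀ t)) (a := 0) (b := z)
      (by linarith) (fun t _ => by
        have h2 := ((Real.hasDerivAt_exp t).const_mul (1 / 2)).mul ((S.sol₀.d1 t).sub (S.sol₀.d2 t))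
        refine h2.congr_deriv ?_
        simp only [Pi.sub_apply]
        ring) (fun t ht => by
        have := (hz.pos t ⟨by linarith [ht.1], ht.2⟩).le
        have := hU0 t
        positivity)
    rw [Aco, Aco, S.f₀_zero, S.g₀_zero, hz.zero] at h1
    have h2 : Real.exp (-z) * Real.exp z = 1 := by rw [← Real.exp_add]; simp
    have h3 := Real.exp_pos z
    rw [Real.exp_zero] at h1
    have h4 : (Real.exp (-z)) * Real.exp z ≤ (-S.g₀ z) * Real.exp z := by
      rw [h2]; linarith
    exact le_of_mul_le_mul_right h4 h3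
  have hlow : c * Real.exp (-(2.05 * z)) ≤ S.e 0 := by
    rcases le_or_gt (S.e 0) (Real.exp (-(2 * z))) with hsmall | hbig
    swap
    · refine le_trans ?_ hbig.le
      calc c * Real.exp (-(2.05 * z)) ≤ 1 * Real.exp (-(2 * z)) := by
            refine mul_le_mul hc1 (Real.exp_le_exp.2 ?_) (Real.exp_pos _).le zero_le_one
            norm_num; linarith
        _ = _ := one_mul _
    have he1 : S.e 0 ≤ 1 := hsmall.trans (Real.exp_le_one_iff.2 (by linarith))
    -- comparison with the zero energy solution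
    obtain ⟨_, hcmp, _⟩ := ratio_mono S le_rfl he0.le hφs hsol0 hφl S.f₀_left hφ0 S.f₀_zero
      (x := z) (by linarith) hz.pos
    -- bound on `[0, C₀]`
    obtain ⟨_, hg0n, hg0, _⟩ := hleft R hRR₁ S (S.e 0) he0.le (S.φ 0) (S.dφ 0) hφs hφl hφ0
    have hBφ : ∀ t ∈ Icc 0 C₀, S.φ 0 t ≤ B := by
      intro t ht
      have h1 := growth hφs (s := 0) (m := fun t => 1 + K₁ + om t) (continuous_const.add SJb_om_cont)
        (fun t _ => by
          have : 0 < om t := Real.exp_pos _
          linarith) (fun t _ => by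
          have h2 : 0 < om t := Real.exp_pos _
          have h3 := hU0 t
          have h4 := S.U_le t
          have h5 : S.e 0 * om t ≤ om t := by nlinarith
          have h6 : 0 ≤ S.e 0 * om t := by positivity
          simp only [pot]
          rw [abs_le]
          constructor <;> linarith) t ht.1
      have h7 : (∫ u in (0 : ℝ)..t, (1 + K₁ + om u)) ≤ C₀ * (1 + K₁ + om C₀) := by
        calc (∫ u in (0 : ℝ)..t, (1 + K₁ + om u)) ≤ ∫ _ in (0 : ℝ)..t, (1 + K₁ + om C₀) := by
              refine intervalIntegral.integral_mono_on ht.1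
                ((continuous_const.add SJb_om_cont).intervalIntegrable _ _) (by simp) ?_
              intro u hu
              have := SJb_om_mono (hu.2.trans ht.2)
              linarith
          _ = t * (1 + K₁ + om C₀) := by
              rw [intervalIntegral.integral_const, smul_eq_mul, sub_zero]
          _ ≤ C₀ * (1 + K₁ + om C₀) := by
              have : 0 < om C₀ := Real.exp_pos _
              exact mul_le_mul_of_nonneg_right ht.2 (by linarith)
      have h8 : |S.φ 0 0| + |S.dφ 0 0| ≤ 1 + Cl := by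
        rw [hφ0, abs_one, abs_of_nonneg hg0n]
        nlinarith
      calc S.φ 0 t ≤ |S.φ 0 t| := le_abs_self _
        _ ≤ |S.φ 0 t| + |S.dφ 0 t| := by linarith [abs_nonneg (S.dφ 0 t)]
        _ ≤ (|S.φ 0 0| + |S.dφ 0 0|) * Real.exp (∫ u in (0 : ℝ)..t, (1 + K₁ + om u)) := h1
        _ ≤ (1 + Cl) * Real.exp (C₀ * (1 + K₁ + om C₀)) :=
            mul_le_mul h8 (Real.exp_le_exp.2 h7) (Real.exp_pos _).le (by linarith)
        _ = B := hB.symm
    have hfφ : ∀ t ∈ Ico 0 z, S.f₀ t ≤ S.φ 0 t := hcmp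
    have hBf : ∀ t ∈ Icc 0 C₀, S.f₀ t ≤ B := fun t ht =>
      (hfφ t ⟨ht.1, by linarith [ht.2]⟩).trans (hBφ t ht)
    obtain ⟨p, hp⟩ : ∃ p, p = S.φ 0 z := ⟨_, rfl⟩
    have hp0 : 0 < p := by rw [hp]; exact hφpos z ⟨by linarith, by linarith⟩
    have hzC : C₀ ≤ z := by linarith
    have hfn : ∀ t ∈ Icc 0 z, 0 ≤ S.f₀ t := by
      intro t ht
      rcases ht.2.lt_or_eq with h | h
      · exact (hz.pos t ⟨by linarith [ht.1], h⟩).le
      · rw [h, hz.zero]
    have hφn : ∀ t ∈ Icc 0 z, 0 < S.φ 0 t := fun t ht => hφpos t ⟨by linarith [ht.1], by linarith [ht.2]⟩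
    -- decay of `f₀`
    have hfdec : ∀ t ∈ Icc 0 z, S.f₀ t ≤ C₁ * Real.exp (-(0.99 * t)) := by
      intro t ht
      rcases le_total t C₀ with h | h
      · refine (hBf t ⟨ht.1, h⟩).trans ?_
        rw [hC₁, mul_assoc, ← Real.exp_add]
        refine le_mul_of_one_le_right hB0.le (Real.one_le_exp ?_)
        linarith
      · have h1 := max_principle (x := C₀) (y := z) (ν := 0.99) hzC (by norm_num)
          (hsol0.continuous_left.continuousOn) (f1 := S.g₀) (f2 := fun x => (1 - S.U x) * S.f₀ x)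
          (fun s _ => S.sol₀.d1 s) (fun s _ => S.sol₀.d2 s) (fun s hs => by
            have h2 := hUgap s ⟨hs.1.le, by linarith [hs.2]⟩
            have h3 := hfn s ⟨by linarith [hs.1], hs.2.le⟩
            refine mul_le_mul_of_nonneg_right ?_ h3
            norm_num at h2 ⊢; linarith)
          (hfn C₀ ⟨hC₀.le, hzC⟩) (hfn z ⟨by linarith, le_rfl⟩) t ⟨h, ht.2⟩
        rw [hz.zero, zero_mul, add_zero] at h1
        refine h1.trans ?_
        have h2 := hBf C₀ ⟨hC₀.le, le_rfl⟩
        rw [hC₁, mul_assoc, ← Real.exp_add]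
        have h3 : -(0.99 * (t - C₀)) = 0.99 * C₀ + -(0.99 * t) := by ring
        rw [h3]
        exact mul_le_mul_of_nonneg_right h2 (Real.exp_pos _).le
    have hφdec : ∀ t ∈ Icc 0 z, S.φ 0 t ≤ C₁ * Real.exp (-(0.99 * t)) + p * Real.exp (-(0.99 * (z - t))) := by
      intro t ht
      rcases le_total t C₀ with h | h
      · have h0 : S.φ 0 t ≤ C₁ * Real.exp (-(0.99 * t)) := by
          refine (hBφ t ⟨ht.1, h⟩).trans ?_
          rw [hC₁, mul_assoc, ← Real.exp_add]
          refine le_mul_of_one_le_right hB0.le (Real.one_le_exp ?_)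
          linarith
        have : 0 < p * Real.exp (-(0.99 * (z - t))) := by positivity
        linarith
      · have h1 := max_principle (x := C₀) (y := z) (ν := 0.99) hzC (by norm_num)
          (hφs.continuous_left.continuousOn) (f1 := S.dφ 0) (f2 := fun x => pot 1 (S.e 0) S.U x * S.φ 0 x)
          (fun s _ => hφs.d1 s) (fun s _ => hφs.d2 s) (fun s hs => by
            have h2 := hUgap s ⟨hs.1.le, by linarith [hs.2]⟩
            have h3 := hφn s ⟨by linarith [hs.1], hs.2.le⟩
            have h4 : 0 < S.e 0 * om s := mul_pos he0 (Real.exp_pos _)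
            refine mul_le_mul_of_nonneg_right ?_ h3.le
            simp only [pot]
            norm_num at h2 ⊢; linarith)
          (hφn C₀ ⟨hC₀.le, hzC⟩).le (hφn z ⟨by linarith, le_rfl⟩).le t ⟨h, ht.2⟩
        rw [← hp] at h1
        refine h1.trans ?_
        have h2 := hBφ C₀ ⟨hC₀.le, le_rfl⟩
        have h4 : S.φ 0 C₀ * Real.exp (-(0.99 * (t - C₀))) ≤ C₁ * Real.exp (-(0.99 * t)) := by
          rw [hC₁, mul_assoc, ← Real.exp_add]
          have h3 : -(0.99 * (t - C₀)) = 0.99 * C₀ + -(0.99 * t) := by ring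
          rw [h3]
          exact mul_le_mul_of_nonneg_right h2 (Real.exp_pos _).le
        linarith
    -- lower bound of `φ 0 z`
    have hconv : Real.exp (-z) ≤ S.φ 0 (z - 1) := by
      have h1 : S.f₀ (z - 1) ≤ S.φ 0 (z - 1) := hfφ (z - 1) ⟨by linarith, by linarith⟩
      have h2 : -S.g₀ z ≤ S.f₀ (z - 1) := by
        have hgm : ∀ s ∈ Icc (z - 1) z, S.g₀ s ≤ S.g₀ z := by
          intro s hs
          refine SJb_mono hs.2 (fun u _ => S.sol₀.d2 u) (fun u hu => ?_)
          have h3 := hUgap u ⟨by linarith [hu.1, hs.1], by linarith [hu.2]⟩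
          have h4 := hfn u ⟨by linarith [hu.1, hs.1], hu.2.le⟩
          exact mul_nonneg (by linarith) h4
        have h5 := SJb_mono (F := fun s => S.g₀ z * s - S.f₀ s) (F' := fun s => S.g₀ z - S.g₀ s)
          (a := z - 1) (b := z) (by linarith) (fun s _ => by
            have h6 : HasDerivAt (fun s : ℝ => S.g₀ z * s) (S.g₀ z) s := by
              simpa using (hasDerivAt_id s).const_mul (S.g₀ z)
            exact h6.sub (S.sol₀.d1 s)) (fun s hs => sub_nonneg.2 (hgm s (Ioo_subset_Icc_self hs)))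
        rw [hz.zero] at h5
        linarith
      linarith
    have hplow : c' * Real.exp (-z) ≤ p := by
      have h1 := SJb_mono (F := fun s => S.φ 0 s * Real.exp ((1 + M) * s))
        (F' := fun s => (S.dφ 0 s + (1 + M) * S.φ 0 s) * Real.exp ((1 + M) * s)) (a := z - 1) (b := z)
        (by linarith) (fun s _ => by
          have h2 : HasDerivAt (fun s : ℝ => (1 + M) * s) (1 + M) s := by
            simpa using (hasDerivAt_id s).const_mul (1 + M)
          refine ((hφs.d1 s).mul h2.exp).congr_deriv ?_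
          ring) (fun s hs => by
          have h2 := SJb_log hφs (M := M) (t := s) hM1 (fun u hu => by
            have h3 := hU0 u
            have h4 : S.e 0 * om u ≤ Real.exp 2 := by
              calc S.e 0 * om u ≤ Real.exp (-(2 * z)) * om (z + 1) :=
                    mul_le_mul hsmall (SJb_om_mono (by linarith [hu.2, hs.2])) (Real.exp_pos _).le
                      (Real.exp_pos _).le
                _ = Real.exp 2 := by
                    rw [om, ← Real.exp_add]
                    congr 1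
                    ring
            simp only [pot]
            rw [hM]
            linarith) (fun u hu => hφpos u ⟨by linarith [hu.1, hs.1], by linarith [hu.2, hs.2]⟩)
          refine mul_nonneg ?_ (Real.exp_pos _).le
          linarith)
      have h2 : S.φ 0 (z - 1) * Real.exp ((1 + M) * (z - 1)) = S.φ 0 (z - 1) * c' * Real.exp ((1 + M) * z) := by
        rw [hc', mul_assoc, ← Real.exp_add]
        congr 2
        ring
      rw [h2, ← hp] at h1
      have h3 := le_of_mul_le_mul_right h1 (Real.exp_pos _)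
      calc c' * Real.exp (-z) ≤ c' * S.φ 0 (z - 1) := mul_le_mul_of_nonneg_left hconv hc'0.le
        _ = S.φ 0 (z - 1) * c' := mul_comm _ _
        _ ≤ p := h3
    -- the Wronskian
    have hW := SJb_mono (a := 0) (b := z)
      (F := fun t => S.e 0 * (50 * C₁ * C₁ * Real.exp (0.02 * t) + 1 / 2 * C₁ * p * Real.exp (-(0.99 * z)) * Real.exp (2 * t)) -
        (S.f₀ t * S.dφ 0 t - S.g₀ t * S.φ 0 t))
      (F' := fun t => S.e 0 * (C₁ * C₁ * Real.exp (0.02 * t) + C₁ * p * Real.exp (-(0.99 * z)) * Real.exp (2 * t)) -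
        (pot 1 (S.e 0) S.U t - pot 1 0 S.U t) * (S.f₀ t * S.φ 0 t)) (by linarith)
      (fun t _ => by
        have h1 := wronskian_hasDerivAt hsol0 hφs t
        have h2 : HasDerivAt (fun t : ℝ => Real.exp (0.02 * t)) (Real.exp (0.02 * t) * 0.02) t := by
          have h3 : HasDerivAt (fun s : ℝ => (0.02 : ℝ) * s) 0.02 t := by
            simpa using (hasDerivAt_id t).const_mul (0.02 : ℝ)
          exact h3.exp
        have h4 : HasDerivAt (fun t : ℝ => Real.exp (2 * t)) (Real.exp (2 * t) * 2) t := by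
          have h3 : HasDerivAt (fun s : ℝ => (2 : ℝ) * s) 2 t := by
            simpa using (hasDerivAt_id t).const_mul (2 : ℝ)
          exact h3.exp
        refine ((((h2.const_mul (50 * C₁ * C₁)).add
          (h4.const_mul (1 / 2 * C₁ * p * Real.exp (-(0.99 * z))))).const_mul (S.e 0)).sub h1).congr_deriv ?_
        ring)
      (fun t ht => by
        have ht' : t ∈ Icc 0 z := Ioo_subset_Icc_self ht
        have h1 := hfdec t ht'
        have h2 := hφdec t ht'
        have h3 := hfn t ht'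
        have h4 := hφn t ht'
        have h5 : pot 1 (S.e 0) S.U t - pot 1 0 S.U t = S.e 0 * om t := by
          simp only [pot]; ring
        rw [h5, sub_nonneg, mul_assoc]
        refine mul_le_mul_of_nonneg_left ?_ he0.le
        calc om t * (S.f₀ t * S.φ 0 t) ≤ om t * ((C₁ * Real.exp (-(0.99 * t))) *
              (C₁ * Real.exp (-(0.99 * t)) + p * Real.exp (-(0.99 * (z - t))))) :=
              mul_le_mul_of_nonneg_left (mul_le_mul h1 h2 h4.le (by positivity)) (Real.exp_pos _).le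
          _ = C₁ * C₁ * (om t * (Real.exp (-(0.99 * t)) * Real.exp (-(0.99 * t)))) +
              C₁ * p * (om t * (Real.exp (-(0.99 * t)) * Real.exp (-(0.99 * (z - t))))) := by ring
          _ = C₁ * C₁ * Real.exp (0.02 * t) + C₁ * p * Real.exp (-(0.99 * z)) * Real.exp (2 * t) := by
              have e1 : om t * (Real.exp (-(0.99 * t)) * Real.exp (-(0.99 * t))) = Real.exp (0.02 * t) := by
                rw [om, ← Real.exp_add, ← Real.exp_add]
                congr 1
                ring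
              have e2 : om t * (Real.exp (-(0.99 * t)) * Real.exp (-(0.99 * (z - t)))) =
                  Real.exp (-(0.99 * z)) * Real.exp (2 * t) := by
                rw [om, ← Real.exp_add, ← Real.exp_add, ← Real.exp_add]
                congr 1
                ring
              rw [e1, e2]
              ring)
    rw [hz.zero, S.f₀_zero, S.g₀_zero, hφ0, ← hp] at hW
    -- `p e^{-z} ≤ e₀ (D e^{0.02 z} + C₁ p e^{1.01 z} / 2)`
    have hkey : p * Real.exp (-z) ≤ S.e 0 * (D * Real.exp (0.02 * z)) +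
        1 / 2 * (C₁ * S.e 0 * Real.exp (1.01 * z)) * p := by
      have e1 : Real.exp (-(0.99 * z)) * Real.exp (2 * z) = Real.exp (1.01 * z) := by
        rw [← Real.exp_add]
        congr 1
        ring
      have e2 : (1 : ℝ) ≤ Real.exp (0.02 * z) := Real.one_le_exp (by linarith)
      have e3 : p * Real.exp (-z) ≤ -(S.g₀ z * p) := by nlinarith
      have e4 : 0 ≤ S.e 0 * (50 * C₁ * C₁ * Real.exp (0.02 * 0) + 1 / 2 * C₁ * p * Real.exp (-(0.99 * z)) * Real.exp (2 * 0)) := by
        positivity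
      have e5 : Cl ≤ Cl * Real.exp (0.02 * z) := le_mul_of_one_le_right (by linarith) e2
      have e6 : S.dφ 0 0 ≤ S.e 0 * (Cl * Real.exp (0.02 * z)) := by
        calc S.dφ 0 0 ≤ Cl * S.e 0 := hg0
          _ ≤ (Cl * Real.exp (0.02 * z)) * S.e 0 := mul_le_mul_of_nonneg_right e5 he0.le
          _ = _ := mul_comm _ _
      have e7 : S.e 0 * (50 * C₁ * C₁ * Real.exp (0.02 * z) + 1 / 2 * C₁ * p * Real.exp (-(0.99 * z)) * Real.exp (2 * z))
          = S.e 0 * (50 * C₁ * C₁ * Real.exp (0.02 * z)) + 1 / 2 * (C₁ * S.e 0 * Real.exp (1.01 * z)) * p := by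
        rw [← e1]; ring
      rw [e7] at hW
      rw [hD]
      have e8 : S.e 0 * ((Cl + 50 * C₁ * C₁) * Real.exp (0.02 * z)) =
        S.e 0 * (Cl * Real.exp (0.02 * z)) + S.e 0 * (50 * C₁ * C₁ * Real.exp (0.02 * z)) := by ring
      rw [e8]
      linarith
    rcases le_or_gt 1 (C₁ * S.e 0 * Real.exp (2.01 * z)) with hcase | hcase
    · have h1 : Real.exp (-(2.01 * z)) ≤ C₁ * S.e 0 := by
        have h2 : Real.exp (-(2.01 * z)) * Real.exp (2.01 * z) = 1 := by rw [← Real.exp_add]; simp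
        refine le_of_mul_le_mul_right (a := Real.exp (2.01 * z)) ?_ (Real.exp_pos _)
        rw [h2]
        exact hcase
      calc c * Real.exp (-(2.05 * z)) ≤ 1 / C₁ * Real.exp (-(2.01 * z)) := by
            refine mul_le_mul hc2 (Real.exp_le_exp.2 ?_) (Real.exp_pos _).le (by positivity)
            norm_num; linarith
        _ ≤ 1 / C₁ * (C₁ * S.e 0) := mul_le_mul_of_nonneg_left h1 (by positivity)
        _ = S.e 0 := by field_simp
    · -- `p ≤ 2 D e₀ e^{1.02 z}`
      have h1 : p * Real.exp (-z) ≤ 2 * (S.e 0 * (D * Real.exp (0.02 * z))) := by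
        have h2 : C₁ * S.e 0 * Real.exp (1.01 * z) * p ≤ p * Real.exp (-z) := by
          have h3 : C₁ * S.e 0 * Real.exp (1.01 * z) ≤ Real.exp (-z) := by
            have h4 : C₁ * S.e 0 * Real.exp (1.01 * z) = C₁ * S.e 0 * Real.exp (2.01 * z) * Real.exp (-z) := by
              have h5 : Real.exp (1.01 * z) = Real.exp (2.01 * z) * Real.exp (-z) := by
                rw [← Real.exp_add]
                congr 1
                ring
              rw [h5]
              ring
            rw [h4]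
            exact mul_le_of_le_one_left (Real.exp_pos _).le hcase.le
          rw [mul_comm p]
          exact mul_le_mul_of_nonneg_right h3 hp0.le
        linarith
      have h2 : c' * Real.exp (-z) * Real.exp (-z) ≤ 2 * (S.e 0 * (D * Real.exp (0.02 * z))) :=
        (mul_le_mul_of_nonneg_right hplow (Real.exp_pos _).le).trans h1
      have h3 : c' * Real.exp (-(2.02 * z)) ≤ 2 * D * S.e 0 := by
        refine le_of_mul_le_mul_right (a := Real.exp (0.02 * z)) ?_ (Real.exp_pos _)
        have h4 : c' * Real.exp (-(2.02 * z)) * Real.exp (0.02 * z) = c' * Real.exp (-z) * Real.exp (-z) := by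
          rw [mul_assoc, mul_assoc, ← Real.exp_add, ← Real.exp_add]
          congr 2
          ring
        rw [h4]
        linarith
      calc c * Real.exp (-(2.05 * z)) ≤ c' / (2 * D) * Real.exp (-(2.02 * z)) := by
            refine mul_le_mul hc3 (Real.exp_le_exp.2 ?_) (Real.exp_pos _).le (by positivity)
            norm_num; linarith
        _ = (c' * Real.exp (-(2.02 * z))) / (2 * D) := by ring
        _ ≤ (2 * D * S.e 0) / (2 * D) := div_le_div_of_nonneg_right h3 (by positivity)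
        _ = S.e 0 := by field_simp
  refine ⟨hlow, ?_, hA⟩
  -- second claim
  have h1 : K₁ + 1 ≤ c * Real.exp (0.155 * T) := by
    have h2 : Real.log ((K₁ + 1) / c) ≤ 0.155 * T := by
      rw [div_le_iff₀ (by norm_num)] at hRR₃
      have : R * 0.155 ≤ 0.155 * T := by
        rw [mul_comm]
        exact mul_le_mul_of_nonneg_left hRT (by norm_num)
      linarith
    have h3 : (K₁ + 1) / c ≤ Real.exp (0.155 * T) := by
      rw [← Real.exp_log (show 0 < (K₁ + 1) / c by positivity)]
      exact Real.exp_le_exp.2 h2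
    rw [div_le_iff₀ hc0] at h3
    linarith
  refine h1.trans ?_
  calc c * Real.exp (0.155 * T) ≤ c * (Real.exp (-(2.05 * z)) * om T) := by
        refine mul_le_mul_of_nonneg_left ?_ hc0.le
        rw [om, ← Real.exp_add]
        refine Real.exp_le_exp.2 ?_
        norm_num at hz9 ⊢
        linarith
    _ = c * Real.exp (-(2.05 * z)) * om T := by ring
    _ ≤ S.e 0 * om T := mul_le_mul_of_nonneg_right hlow (Real.exp_pos _).le

end Pool.Agent.RLT40
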