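import Pool.Agent.RLT40.SJb
import Pool.Agent.RLT40.SKdefs

/-!
# Module SK (paper 5.7 (iii)): the first zeros of the excited states.

`j ≥ 1`: `φ_j(z)|g₀(z)| = e_j ∫_{-Lm}^z ω φ_j f₀ ≤ C e_j e^{0.03z}` (`φ_j ≤ C e^{-0.99t}` on `[0,z_j]`, max_principle), so `φ_j(z) ≤ C e_j e^{1.03z}`; `A_j(z) ≥ 0.45`, so `φ_j'(z) ≤ -0.8e^{-z}`; hence
`z_j - z ≤ C e_j e^{2.03z} ≤ C K₁ e^{-2T+1.83T} ≤ η`, and `φ_j'(z_j) ≤ -0.7 e^{-z}`.  A supporter is some `j ≥ 1` (ground_bound), `c e^{-γT} ≤ |φ_j(T)| ≤ C e^{T-1.99z_j}`: `z_j ≤ 0.6T`; so `N ≥ 2`.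
`s` = first zero of `φ 1` (`≥ z_j` for all `j ≥ 1` by first_mono).  For `j ≥ 1`: on `[z_j,s]` `φ_j ≤ 0`, `|φ_j'|` nondecreasing, so `|φ_j(s)| ≤ (s - z_j)|φ_j'(s)|`.
-/

open MeasureTheory Set
open scoped ENNReal NNReal

namespace Pool.Agent.RLT40

variable {K₁ C₀ R : ℝ}

/-- comparison of increments -/
theorem SKa_cmp {F F' G G' : ℝ → ℝ} {a b : ℝ} (hab : a ≤ b) (hF : ∀ x, HasDerivAt F (F' x) x)
    (hG : ∀ x, HasDerivAt G (G' x) x) (h : ∀ x ∈ Ioo a b, F' x ≤ G' x) : F b - F a ≤ G b - G a := by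
  have hH : ∀ x, HasDerivAt (fun x => G x - F x) (G' x - F' x) x := fun x => (hG x).sub (hF x)
  have hc : ContinuousOn (fun x => G x - F x) (Icc a b) := fun x _ =>
    (hH x).continuousAt.continuousWithinAt
  have hm : MonotoneOn (fun x => G x - F x) (Icc a b) := by
    refine monotoneOn_of_deriv_nonneg (convex_Icc a b) hc
      (fun x _ => (hH x).differentiableAt.differentiableWithinAt) ?_
    intro x hx
    rw [interior_Icc] at hx
    rw [(hH x).deriv]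
    have := h x hx
    linarith
  have := hm (left_mem_Icc.2 hab) (right_mem_Icc.2 hab) hab
  simp only at this
  linarith

/-- `C e^{-a x} ≤ b` for large `x` -/
theorem SKa_small (C : ℝ) {a b : ℝ} (ha : 0 < a) (hb : 0 < b) :
    ∃ R₁ : ℝ, ∀ x ≥ R₁, C * Real.exp (-(a * x)) ≤ b := by
  have h1 : Filter.Tendsto (fun x : ℝ => C * Real.exp (-(a * x))) Filter.atTop (nhds (C * 0)) := by
    refine Filter.Tendsto.const_mul C ?_
    refine Real.tendsto_exp_atBot.comp ?_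
    exact Filter.tendsto_neg_atTop_atBot.comp (Filter.tendsto_id.const_mul_atTop ha)
  rw [mul_zero] at h1
  have h2 := h1.eventually (gt_mem_nhds hb)
  obtain ⟨R₁, hR₁⟩ := Filter.eventually_atTop.1 h2
  exact ⟨R₁, fun x hx => (hR₁ x hx).le⟩

theorem SKa_exp (c : ℝ) (x : ℝ) : HasDerivAt (fun x : ℝ => Real.exp (c * x)) (c * Real.exp (c * x)) x := by
  have h := ((hasDerivAt_id x).const_mul c).exp
  refine h.congr_deriv ?_
  simp only [id]
  ring

/-- decay of a solution which is positive up to its first zero -/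
theorem SKa_decay (S : SD K₁ C₀ R) (hC₀ : 0 < C₀) {T : ℝ} (hT : S.IsT T) {Cc : ℝ} (hCc : 0 < Cc)
    {e : ℝ} (he : 0 ≤ e) {f g : ℝ → ℝ} (h : Sol (pot 1 e S.U) f g)
    (hcr : ∀ t ∈ Icc 0 T, |f t| + |g t| ≤ Cc * Real.exp t) {z : ℝ} (hz : C₀ ≤ z) (hzT : z ≤ T)
    (hz0 : f z = 0) (hpos : ∀ x ∈ Ico 0 z, 0 < f x) :
    ∀ t ∈ Icc 0 z, f t ≤ Cc * Real.exp (2 * C₀) * Real.exp (-(0.99 * t)) := by
  intro t ht
  have hfle : ∀ t ∈ Icc 0 T, f t ≤ Cc * Real.exp t := by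
    intro t ht
    have := hcr t ht
    have h1 := le_abs_self (f t)
    have h2 := abs_nonneg (g t)
    linarith
  rcases le_total t C₀ with htC | htC
  · refine (hfle t ⟨ht.1, htC.trans (hz.trans hzT)⟩).trans ?_
    rw [mul_assoc, ← Real.exp_add]
    refine mul_le_mul_of_nonneg_left (Real.exp_le_exp.2 ?_) hCc.le
    nlinarith [ht.1]
  · have hm := max_principle (x := C₀) (y := z) (ν := 0.99) hz (by norm_num)
      (h.continuous_left.continuousOn) (fun t _ => h.d1 t) (fun t _ => h.d2 t) (by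
        intro t ht
        have h1 := hpos t ⟨hC₀.le.trans ht.1.le, ht.2⟩
        have h2 := hT.le t ⟨ht.1.le, ht.2.le.trans hzT⟩
        have h3 : (0 : ℝ) < om t := Real.exp_pos _
        refine mul_le_mul_of_nonneg_right ?_ h1.le
        unfold pot
        nlinarith [mul_nonneg he h3.le]) (by
        rcases hz.lt_or_eq with h1 | h1
        · exact (hpos C₀ ⟨hC₀.le, h1⟩).le
        · rw [h1, hz0]) (by rw [hz0]) t ⟨htC, ht.2⟩
    rw [hz0, zero_mul, add_zero] at hm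
    refine hm.trans ?_
    have h4 := hfle C₀ ⟨hC₀.le, hz.trans hzT⟩
    calc f C₀ * Real.exp (-(0.99 * (t - C₀)))
        ≤ Cc * Real.exp C₀ * Real.exp (-(0.99 * (t - C₀))) :=
          mul_le_mul_of_nonneg_right h4 (Real.exp_pos _).le
      _ ≤ Cc * Real.exp (2 * C₀) * Real.exp (-(0.99 * t)) := by
          rw [mul_assoc, mul_assoc, ← Real.exp_add, ← Real.exp_add]
          refine mul_le_mul_of_nonneg_left (Real.exp_le_exp.2 ?_) hCc.le
          nlinarith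

theorem SKa_sol₀ (S : SD K₁ C₀ R) : Sol (pot 1 0 S.U) S.f₀ S.g₀ := by
  have : pot 1 0 S.U = fun x => 1 - S.U x := by
    funext x
    simp [pot]
  rw [this]
  exact S.sol₀

/-- value at `z` of an excited state, by the Wronskian with the zero energy solution -/
theorem SKa_val (S : SD K₁ C₀ R) {z e Cl C₁ : ℝ} (he : 0 ≤ e) (hCl : 0 < Cl) (hC₁ : 0 < C₁)
    {f g : ℝ → ℝ} (h : Sol (pot 1 e S.U) f g) (hz : S.IsZ z) (hR : 0 < R)
    (hfL : f (-S.Lm) = 0)
    (hl : ∀ t ∈ Ioc (-S.Lm) 0, 0 < f t ∧ f t ≤ Cl * Real.exp t)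
    (hl₀ : ∀ t ∈ Ioc (-S.Lm) 0, 0 < S.f₀ t ∧ S.f₀ t ≤ Cl * Real.exp t)
    (hr : ∀ t ∈ Icc 0 z, f t ≤ C₁ * Real.exp (-(0.99 * t)))
    (hr₀ : ∀ t ∈ Icc 0 z, S.f₀ t ≤ C₁ * Real.exp (-(0.99 * t)))
    (hpos : ∀ t ∈ Icc 0 z, 0 < f t)
    (hg : Real.exp (-z) ≤ -S.g₀ z) :
    f z ≤ (Cl ^ 2 + 50 * C₁ ^ 2) * e * Real.exp (1.02 * z) := by
  have hz0 : 0 < z := hR.trans hz.hR
  have hLm : 0 < S.Lm := hR.trans_le S.hLm
  set W : ℝ → ℝ := fun x => S.f₀ x * g x - S.g₀ x * f x with hW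
  have hWd : ∀ x, HasDerivAt W ((pot 1 e S.U x - pot 1 0 S.U x) * (S.f₀ x * f x)) x := fun x =>
    wronskian_hasDerivAt (SKa_sol₀ S) h x
  have hWd' : ∀ x, HasDerivAt W (e * om x * (S.f₀ x * f x)) x := by
    intro x
    refine (hWd x).congr_deriv ?_
    simp only [pot]
    ring
  have hf₀pos : ∀ t ∈ Ioo (-S.Lm) z, 0 < S.f₀ t := hz.pos
  -- left part
  have h1 : W 0 - W (-S.Lm) ≤ e * Cl ^ 2 / 4 * Real.exp (4 * 0) -
      e * Cl ^ 2 / 4 * Real.exp (4 * (-S.Lm)) := by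
    refine SKa_cmp (F := W) (G := fun x => e * Cl ^ 2 / 4 * Real.exp (4 * x)) (by linarith) hWd'
      (fun x => (SKa_exp 4 x).const_mul (e * Cl ^ 2 / 4)) ?_
    intro x hx
    obtain ⟨a1, a2⟩ := hl x ⟨hx.1, hx.2.le⟩
    obtain ⟨b1, b2⟩ := hl₀ x ⟨hx.1, hx.2.le⟩
    have c1 : S.f₀ x * f x ≤ (Cl * Real.exp x) * (Cl * Real.exp x) :=
      mul_le_mul b2 a2 a1.le (by positivity)
    have c2 : Real.exp (4 * x) = om x * (Real.exp x * Real.exp x) := by
      rw [om, ← Real.exp_add, ← Real.exp_add]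
      congr 1
      ring
    have c3 : 0 ≤ e * om x := mul_nonneg he (Real.exp_pos _).le
    have c4 := mul_le_mul_of_nonneg_left c1 c3
    rw [c2]
    linarith
  -- right part
  have h2 : W z - W 0 ≤ 50 * e * C₁ ^ 2 * Real.exp (0.02 * z) - 50 * e * C₁ ^ 2 * Real.exp (0.02 * 0) := by
    refine SKa_cmp (F := W) (G := fun x => 50 * e * C₁ ^ 2 * Real.exp (0.02 * x)) hz0.le hWd'
      (fun x => (SKa_exp 0.02 x).const_mul (50 * e * C₁ ^ 2)) ?_
    intro x hx
    have a1 := hpos x ⟨hx.1.le, hx.2.le⟩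
    have a2 := hr x ⟨hx.1.le, hx.2.le⟩
    have b1 := hf₀pos x ⟨by linarith [hx.1], hx.2⟩
    have b2 := hr₀ x ⟨hx.1.le, hx.2.le⟩
    have c1 : S.f₀ x * f x ≤ (C₁ * Real.exp (-(0.99 * x))) * (C₁ * Real.exp (-(0.99 * x))) :=
      mul_le_mul b2 a2 a1.le (by positivity)
    have c2 : Real.exp (0.02 * x) = om x * (Real.exp (-(0.99 * x)) * Real.exp (-(0.99 * x))) := by
      rw [om, ← Real.exp_add, ← Real.exp_add]
      congr 1
      ring
    have c3 : 0 ≤ e * om x := mul_nonneg he (Real.exp_pos _).le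
    have c4 := mul_le_mul_of_nonneg_left c1 c3
    rw [c2]
    linarith
  have h3 : W (-S.Lm) = 0 := by simp [hW, S.f₀_left, hfL]
  have h4 : W z = -S.g₀ z * f z := by simp [hW, hz.zero]
  have h5 : 1 ≤ Real.exp (0.02 * z) := Real.one_le_exp (by positivity)
  have h6 : W z ≤ (Cl ^ 2 + 50 * C₁ ^ 2) * e * Real.exp (0.02 * z) := by
    rw [mul_zero, Real.exp_zero] at h1 h2
    have a1 : 0 ≤ e * Cl ^ 2 / 4 * Real.exp (4 * (-S.Lm)) := by positivity
    have a2 : 0 ≤ 50 * e * C₁ ^ 2 := by positivity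
    have a3 : e * Cl ^ 2 / 4 ≤ e * Cl ^ 2 * Real.exp (0.02 * z) := by
      have : 0 ≤ e * Cl ^ 2 := by positivity
      nlinarith
    linarith
  rw [h4] at h6
  have h7 : Real.exp (-z) * f z ≤ (Cl ^ 2 + 50 * C₁ ^ 2) * e * Real.exp (0.02 * z) :=
    (mul_le_mul_of_nonneg_right hg (hpos z ⟨hz0.le, le_rfl⟩).le).trans h6
  have h8 : f z = Real.exp z * (Real.exp (-z) * f z) := by
    rw [← mul_assoc, ← Real.exp_add]
    simp
  rw [h8]
  calc Real.exp z * (Real.exp (-z) * f z)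
      ≤ Real.exp z * ((Cl ^ 2 + 50 * C₁ ^ 2) * e * Real.exp (0.02 * z)) :=
        mul_le_mul_of_nonneg_left h7 (Real.exp_pos _).le
    _ = (Cl ^ 2 + 50 * C₁ ^ 2) * e * Real.exp (1.02 * z) := by
        have : Real.exp (1.02 * z) = Real.exp z * Real.exp (0.02 * z) := by
          rw [← Real.exp_add]
          congr 1
          ring
        rw [this]
        ring

/-- slope at `z` of an excited state -/
theorem SKa_slope (S : SD K₁ C₀ R) {z e Cl C₁ : ℝ} (he : 0 ≤ e) (hC₁ : 0 < C₁)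
    {f g : ℝ → ℝ} (h : Sol (pot 1 e S.U) f g) (hz0 : 0 < z)
    (hf0 : f 0 = 1) (hg0 : g 0 ≤ Cl * e)
    (hU : ∀ x, 0 ≤ S.U x)
    (hr : ∀ t ∈ Icc 0 z, f t ≤ C₁ * Real.exp (-(0.99 * t)))
    (hpos : ∀ t ∈ Icc 0 z, 0 < f t) :
    1 - Cl * e - C₁ * e * Real.exp (2.01 * z) ≤ Real.exp z * (f z - g z) := by
  set A : ℝ → ℝ := fun x => -(Real.exp x * (f x - g x)) with hA
  have hAd : ∀ x, HasDerivAt A (Real.exp x * ((e * om x - S.U x) * f x)) x := by
    intro x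
    have h1 := (h.d1 x).sub (h.d2 x)
    have h2 := ((Real.hasDerivAt_exp x).mul h1).neg
    refine h2.congr_deriv ?_
    simp only [pot, Pi.sub_apply]
    ring
  have h1 : A z - A 0 ≤ C₁ * e / 2.01 * Real.exp (2.01 * z) - C₁ * e / 2.01 * Real.exp (2.01 * 0) := by
    refine SKa_cmp (F := A) (G := fun x => C₁ * e / 2.01 * Real.exp (2.01 * x)) hz0.le hAd
      (fun x => (SKa_exp 2.01 x).const_mul (C₁ * e / 2.01)) ?_
    intro x hx
    have a1 := hpos x ⟨hx.1.le, hx.2.le⟩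
    have a2 := hr x ⟨hx.1.le, hx.2.le⟩
    have c2 : Real.exp (2.01 * x) = Real.exp x * (om x * Real.exp (-(0.99 * x))) := by
      rw [om, ← Real.exp_add, ← Real.exp_add]
      congr 1
      ring
    have c5 : (e * om x - S.U x) * f x ≤ e * om x * (C₁ * Real.exp (-(0.99 * x))) := by
      have d1 : 0 ≤ S.U x * f x := mul_nonneg (hU x) a1.le
      have d2 : 0 ≤ e * om x := mul_nonneg he (Real.exp_pos _).le
      have d3 := mul_le_mul_of_nonneg_left a2 d2
      linarith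
    have c6 := mul_le_mul_of_nonneg_left c5 (Real.exp_pos x).le
    rw [c2]
    refine c6.trans (le_of_eq ?_)
    field_simp
  have h2 : A 0 = -(1 - g 0) := by simp [hA, hf0]
  have h3 : A z = -(Real.exp z * (f z - g z)) := rfl
  rw [h2, h3, mul_zero, Real.exp_zero] at h1
  have h4 : 0 ≤ C₁ * e / 2.01 := by positivity
  have h5 : C₁ * e / 2.01 * Real.exp (2.01 * z) ≤ C₁ * e * Real.exp (2.01 * z) := by
    refine mul_le_mul_of_nonneg_right ?_ (Real.exp_pos _).le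
    have : 0 ≤ C₁ * e := by positivity
    rw [div_le_iff₀ (by norm_num)]
    linarith
  linarith

/-- the first zero is close to `z` -/
theorem SKa_close {V f g : ℝ → ℝ} (h : Sol V f g) {z zj c : ℝ} (hc : 0 < c)
    (hV : ∀ x ∈ Icc z (z + 1 / 100), 0 ≤ V x ∧ V x ≤ 2) (hpos : ∀ x ∈ Ico z zj, 0 < f x)
    (hfz : f z ≤ 1 / 1000 * c) (hgz : g z ≤ -(8 / 10 * c)) : zj ≤ z + 1 / 100 := by
  by_contra hcon
  push Not at hcon
  obtain ⟨t₀, ht₀, hmax⟩ := isCompact_Icc.exists_isMaxOn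
    (⟨z, left_mem_Icc.2 (by linarith)⟩ : (Icc z (z + 1 / 100)).Nonempty)
    h.continuous_left.continuousOn
  have hM : ∀ x ∈ Icc z (z + 1 / 100), f x ≤ f t₀ := fun x hx => hmax hx
  have hM0 : 0 < f t₀ := hpos t₀ ⟨ht₀.1, lt_of_le_of_lt ht₀.2 hcon⟩
  -- bound of the derivative
  have hg : ∀ x ∈ Icc z (z + 1 / 100), g x ≤ g z + 1 / 50 * f t₀ := by
    intro x hx
    have h1 := SKa_cmp (F := g) (F' := fun x => V x * f x) (G := fun y => 2 * f t₀ * y)
      (G' := fun _ => 2 * f t₀) hx.1 h.d2 (fun y => by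
        simpa using (hasDerivAt_id y).const_mul (2 * f t₀)) (by
        intro y hy
        have hy' : y ∈ Icc z (z + 1 / 100) := ⟨hy.1.le, hy.2.le.trans hx.2⟩
        have a1 := hV y hy'
        have a2 := hM y hy'
        have a3 := hpos y ⟨hy'.1, lt_of_le_of_lt hy'.2 hcon⟩
        exact mul_le_mul a1.2 a2 a3.le (by norm_num))
    have h2 : 2 * f t₀ * x - 2 * f t₀ * z ≤ 1 / 50 * f t₀ := by nlinarith [hx.2]
    linarith
  have hM1 : f t₀ ≤ 1001 / 1000 * f z := by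
    have h1 := SKa_cmp (F := f) (F' := g) (G := fun y => 1 / 50 * f t₀ * y)
      (G' := fun _ => 1 / 50 * f t₀) ht₀.1 h.d1 (fun y => by
        simpa using (hasDerivAt_id y).const_mul (1 / 50 * f t₀)) (by
        intro y hy
        have := hg y ⟨hy.1.le, hy.2.le.trans ht₀.2⟩
        linarith)
    have h2 : 1 / 50 * f t₀ * t₀ - 1 / 50 * f t₀ * z ≤ 1 / 5000 * f t₀ := by nlinarith [ht₀.2]
    linarith
  have h3 := SKa_cmp (F := f) (F' := g) (G := fun y => (g z + 1 / 50 * f t₀) * y)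
      (G' := fun _ => g z + 1 / 50 * f t₀) (a := z) (b := z + 1 / 100) (by linarith) h.d1
      (fun y => by simpa using (hasDerivAt_id y).const_mul (g z + 1 / 50 * f t₀)) (by
        intro y hy
        exact hg y ⟨hy.1.le, hy.2.le⟩)
  have h4 := hpos (z + 1 / 100) ⟨by linarith, hcon⟩
  nlinarith

/-- growth from the first zero to `T` -/
theorem SKa_growth (S : SD K₁ C₀ R) (hC₀ : 0 < C₀) {T : ℝ} (hT : S.IsT T) {Cu : ℝ}
    (hCu : (∫ x in (-S.Lm)..T, S.U x) ≤ Cu) (hU : ∀ x, 0 ≤ S.U x) (hL : 0 < S.Lm)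
    {e : ℝ} (he : 0 ≤ e) (heT : e * om T ≤ K₁) {f g : ℝ → ℝ} (h : Sol (pot 1 e S.U) f g)
    {zj C₁ : ℝ} (hz : C₀ + 1 ≤ zj) (hzT : zj ≤ T) (hf : f zj = 0) (hg : g zj ≤ 0)
    (hpos : ∀ x ∈ Ico 0 zj, 0 < f x)
    (hr : ∀ t ∈ Icc 0 zj, f t ≤ C₁ * Real.exp (-(0.99 * t))) :
    |f T| ≤ C₁ * Real.exp (1 + Cu + K₁ / 2) * Real.exp (T - 1.99 * zj) := by
  -- the derivative at the zero
  have hconv : ∀ x ∈ Icc (zj - 1) zj, g x ≤ g zj := by
    intro x hx
    have h1 := SKa_cmp (F := fun _ => (0 : ℝ)) (F' := fun _ => 0) (G := g)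
      (G' := fun x => pot 1 e S.U x * f x) hx.2 (fun y => hasDerivAt_const y _) h.d2 (by
        intro y hy
        have a1 := hpos y ⟨by linarith [hx.1, hy.1], hy.2⟩
        have a2 := hT.le y ⟨by linarith [hx.1, hy.1], hy.2.le.trans hzT⟩
        have a3 : 0 ≤ pot 1 e S.U y := by
          have : 0 ≤ e * om y := mul_nonneg he (Real.exp_pos _).le
          unfold pot
          linarith
        exact mul_nonneg a3 a1.le)
    linarith
  have hd : |g zj| ≤ f (zj - 1) := by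
    have h1 := SKa_cmp (F := f) (F' := g) (G := fun y => g zj * y)
      (G' := fun _ => g zj) (a := zj - 1) (b := zj) (by linarith) h.d1
      (fun y => by simpa using (hasDerivAt_id y).const_mul (g zj)) (by
        intro y hy
        exact hconv y ⟨hy.1.le, hy.2.le⟩)
    rw [hf] at h1
    rw [abs_of_nonpos hg]
    linarith
  have hd2 : |g zj| ≤ C₁ * Real.exp (-(0.99 * (zj - 1))) :=
    hd.trans (hr (zj - 1) ⟨by linarith, by linarith⟩)
  -- growth
  set m : ℝ → ℝ := fun t => 1 + S.U t + e * om t with hm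
  have hmc : Continuous m := by
    have h1 := S.cU
    have h2 : Continuous om := by unfold om; fun_prop
    fun_prop
  have hgr := growth h hmc (s := zj) (fun t _ => by
      have : 0 ≤ e * om t := mul_nonneg he (Real.exp_pos _).le
      have := hU t
      simp only [hm]
      linarith) (fun t _ => by
      have h1 : 0 ≤ e * om t := mul_nonneg he (Real.exp_pos _).le
      have h2 := hU t
      simp only [hm, pot]
      rw [abs_le]
      constructor <;> linarith) T hzT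
  have hint : (∫ u in zj..T, m u) ≤ (T - zj) + Cu + K₁ / 2 := by
    have hcU := S.cU
    have hprim : ∀ x, HasDerivAt (fun x => x + (∫ y in (-S.Lm)..x, S.U y) + e / 2 * Real.exp (2 * x))
        (m x) x := by
      intro x
      have h1 : HasDerivAt (fun x => ∫ y in (-S.Lm)..x, S.U y) (S.U x) x :=
        (hcU.integral_hasStrictDerivAt _ _).hasDerivAt
      have h2 := (SKa_exp 2 x).const_mul (e / 2)
      refine (((hasDerivAt_id x).add h1).add h2).congr_deriv ?_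
      simp only [hm, om]
      ring
    rw [intervalIntegral.integral_eq_sub_of_hasDerivAt (fun x _ => hprim x)
      (hmc.intervalIntegrable _ _)]
    have h3 : 0 ≤ ∫ y in (-S.Lm)..zj, S.U y :=
      intervalIntegral.integral_nonneg (by linarith) (fun u _ => hU u)
    have h4 : 0 ≤ e / 2 * Real.exp (2 * zj) := by positivity
    have h5 : e / 2 * Real.exp (2 * T) ≤ K₁ / 2 := by
      unfold om at heT
      linarith
    linarith
  have h6 : |f T| ≤ |g zj| * Real.exp (∫ u in zj..T, m u) := by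
    rw [hf, abs_zero, zero_add] at hgr
    have := abs_nonneg (g T)
    linarith
  have hC₁ : 0 ≤ C₁ * Real.exp (-(0.99 * (zj - 1))) := (abs_nonneg _).trans hd2
  calc |f T| ≤ |g zj| * Real.exp (∫ u in zj..T, m u) := h6
    _ ≤ C₁ * Real.exp (-(0.99 * (zj - 1))) * Real.exp ((T - zj) + Cu + K₁ / 2) :=
        mul_le_mul hd2 (Real.exp_le_exp.2 hint) (Real.exp_pos _).le hC₁
    _ ≤ C₁ * Real.exp (1 + Cu + K₁ / 2) * Real.exp (T - 1.99 * zj) := by
        have hC₁' : 0 ≤ C₁ := by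
          by_contra hneg
          push Not at hneg
          have := mul_neg_of_neg_of_pos hneg (Real.exp_pos (-(0.99 * (zj - 1))))
          linarith
        rw [mul_assoc, mul_assoc, ← Real.exp_add, ← Real.exp_add]
        refine mul_le_mul_of_nonneg_left (Real.exp_le_exp.2 ?_) hC₁'
        linarith

/-- sign of the derivative at a first zero -/
theorem SKa_deriv {V f g : ℝ → ℝ} (hV : Continuous V) (h : Sol V f g) {a z : ℝ} (haz : a < z)
    (hz : f z = 0) (hpos : ∀ x ∈ Ioo a z, 0 < f x) : g z < 0 := by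
  have h1 : g z ≠ 0 := h.deriv_ne_zero hV ⟨(a + z) / 2, (hpos _ ⟨by linarith, by linarith⟩).ne'⟩ hz
  have h2 : g z ≤ 0 := by
    have h3 := (hasDerivWithinAt_iff_tendsto_slope' (s := Iio z) (by simp)).1
      ((h.d1 z).hasDerivWithinAt (s := Iio z))
    refine le_of_tendsto h3 ?_
    have h4 : Ioo a z ∈ nhdsWithin z (Iio z) := Ioo_mem_nhdsLT haz
    filter_upwards [h4] with x hx
    rw [slope_def_field, hz, sub_zero]
    exact div_nonpos_of_nonneg_of_nonpos (hpos x hx).le (by linarith [hx.2])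
  exact lt_of_le_of_ne h2 h1

theorem SKa_U_nonneg (S : SD K₁ C₀ R) (x : ℝ) : 0 ≤ S.U x := by
  by_cases hx : x ∈ Ioo (-S.Lm) S.Lp
  · exact (S.U_pos x hx).le
  · rw [S.U_zero x hx]

theorem exists_S (hK : 0 < K₁) (hC₀ : 0 < C₀) : ∃ R₀ ≥ C₀, ∀ R ≥ R₀, ∀ S : SD K₁ C₀ R, ∀ T z, S.IsT T → S.IsZ z → ∃ s, S.IsS T z s := by
  obtain ⟨Cl, hCl1, cl, hcl, hcl1, Ra, hRa, hleft⟩ := left_bounds hK hC₀
  obtain ⟨Cc, hCc, Rb, hRb, hcrude⟩ := crude hK hC₀
  obtain ⟨Cg, hCg, Rc, hRc, hground⟩ := ground_bound hK hC₀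
  obtain ⟨cs, hcs, Rd, hRd, hsupp⟩ := supporter hK hC₀
  obtain ⟨Re, hRe, hzlt⟩ := z_lt hK hC₀
  obtain ⟨ce, hce, Rf, hRf, he0⟩ := e0_lower hK hC₀
  obtain ⟨Cu, hCu, hint⟩ := int_U hK hC₀
  set C₁ := max (Cc * Real.exp (2 * C₀)) Cg with hC₁
  have hC₁0 : 0 < C₁ := lt_of_lt_of_le hCg (le_max_right _ _)
  set C₂ := Cl ^ 2 + 50 * C₁ ^ 2 with hC₂
  have hC₂0 : 0 < C₂ := by positivity
  set C₃ := C₁ * Real.exp (1 + Cu + K₁ / 2) with hC₃
  obtain ⟨r1, hr1⟩ := SKa_small (Cl * K₁) (a := 0.18) (b := 1 / 100) (by norm_num) (by norm_num)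
  obtain ⟨r2, hr2⟩ := SKa_small (C₁ * K₁) (a := 0.18) (b := 1 / 100) (by norm_num) (by norm_num)
  obtain ⟨r3, hr3⟩ := SKa_small (C₂ * K₁) (a := 0.18) (b := 1 / 1000) (by norm_num) (by norm_num)
  obtain ⟨r4, hr4⟩ := SKa_small C₃ (a := 0.18) (b := cs / 2) (by norm_num) (by positivity)
  obtain ⟨r5, hr5⟩ := SKa_small Cg (a := 0.9) (b := cs / 2) (by norm_num) (by positivity)
  obtain ⟨r6, hr6⟩ := SKa_small 1 (a := 0.01) (b := ce) (by norm_num) hce
  obtain ⟨r7, hr7⟩ := SKa_small K₁ (a := 0.18) (b := 1 / 10) (by norm_num) (by norm_num)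
  set R₀ := max (max (max (max Ra Rb) (max Rc Rd)) (max (max Re Rf) (max r1 r2)))
    (max (max (max r3 r4) (max r5 r6)) (max r7 (C₀ + 10))) with hR₀
  have hRle : ∀ x, R₀ ≤ x → Ra ≤ x ∧ Rb ≤ x ∧ Rc ≤ x ∧ Rd ≤ x ∧ Re ≤ x ∧ Rf ≤ x ∧ r1 ≤ x ∧ r2 ≤ x ∧
      r3 ≤ x ∧ r4 ≤ x ∧ r5 ≤ x ∧ r6 ≤ x ∧ r7 ≤ x ∧ C₀ + 10 ≤ x := by
    intro x hx
    simp only [hR₀, max_le_iff] at hx
    obtain ⟨⟨⟨⟨a1, a2⟩, a3, a4⟩, ⟨a5, a6⟩, a7, a8⟩, ⟨⟨a9, a10⟩, a11, a12⟩, a13, a14⟩ := hx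
    exact ⟨a1, a2, a3, a4, a5, a6, a7, a8, a9, a10, a11, a12, a13, a14⟩
  refine ⟨R₀, by have := (hRle R₀ le_rfl).2.2.2.2.2.2.2.2.2.2.2.2.2; linarith, ?_⟩
  intro R hR S T z hT hz
  obtain ⟨q1, q2, q3, q4, q5, q6, q7, q8, q9, q10, q11, q12, q13, q14⟩ := hRle R hR
  have hR0 : 0 < R := by linarith
  have hRC : C₀ ≤ R := by linarith
  have hTR : R ≤ T := hT.hR
  have hzR : R < z := hz.hR
  have hz9 : z < 0.9 * T := hzlt R q5 S T z hT hz
  have hzT : z ≤ T := by linarith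
  have hLm : 0 < S.Lm := hR0.trans_le S.hLm
  obtain ⟨he0a, he0b, he0c⟩ := he0 R q6 S T z hT hz
  obtain ⟨hgr0, hgrj⟩ := hground R q3 S T hT he0b
  have hUn := SKa_U_nonneg S
  have hTmax : ∀ t ∈ Icc C₀ T, S.U t ≤ 1 / 100 := hT.le
  have hsmall : ∀ e : ℝ, e * om T ≤ K₁ → ∀ a : ℝ, a ≤ 2 * T - 0.18 * R →
      e * Real.exp a ≤ K₁ * Real.exp (-(0.18 * R)) := by
    intro e he a ha
    have h1 : e * Real.exp a = e * om T * Real.exp (a - 2 * T) := by
      rw [om, mul_assoc, ← Real.exp_add]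
      congr 2
      ring
    rw [h1]
    refine (mul_le_mul_of_nonneg_right he (Real.exp_pos _).le).trans ?_
    refine mul_le_mul_of_nonneg_left (Real.exp_le_exp.2 (by linarith)) hK.le
  -- the zero energy solution
  have hf₀pos : ∀ x ∈ Ico 0 z, 0 < S.f₀ x := fun x hx => hz.pos x ⟨by linarith [hx.1], hx.2⟩
  have hdec₀ : ∀ t ∈ Icc 0 z, S.f₀ t ≤ C₁ * Real.exp (-(0.99 * t)) := by
    intro t ht
    refine (SKa_decay S hC₀ hT hCc le_rfl (SKa_sol₀ S) (hcrude R q2 S T hT 0 le_rfl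
      (by rw [zero_mul]; linarith) _ _ (SKa_sol₀ S) S.f₀_left S.f₀_zero) (by linarith) hzT hz.zero
      hf₀pos t ht).trans ?_
    exact mul_le_mul_of_nonneg_right (le_max_left _ _) (Real.exp_pos _).le
  have hl₀ := (hleft R q1 S 0 le_rfl _ _ (SKa_sol₀ S) S.f₀_left S.f₀_zero).1
  -- the excited states
  have hexc : ∀ j, 1 ≤ j → j < S.N → ∃ zj, S.IsFirst j zj ∧ z < zj ∧ zj ≤ z + 1 / 100 ∧
      S.dφ j zj < 0 ∧ (∀ t ∈ Icc 0 zj, S.φ j t ≤ C₁ * Real.exp (-(0.99 * t))) ∧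
      (∀ x ∈ Ico 0 zj, 0 < S.φ j x) := by
    intro j hj1 hjN
    obtain ⟨zj, hzj, hzzj⟩ := S.exists_first hR0 hz hj1 hjN
    have he : 0 ≤ S.e j := (S.e_pos j hjN).le
    have heT : S.e j * om T ≤ K₁ := S.e_le hK hC₀ hRC hT hz hj1 hjN
    have hsol := S.sol j hjN
    have hpos : ∀ x ∈ Ico 0 zj, 0 < S.φ j x := fun x hx => hzj.pos x ⟨by linarith [hx.1], hx.2⟩
    have hcr := hcrude R q2 S T hT (S.e j) he (by linarith) _ _ hsol (S.φ_left j hjN)
      (S.φ_zero j hjN)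
    have hdecT : zj ≤ T → ∀ t ∈ Icc 0 zj, S.φ j t ≤ C₁ * Real.exp (-(0.99 * t)) := by
      intro hle t ht
      refine (SKa_decay S hC₀ hT hCc he hsol hcr (by linarith) hle hzj.zero hpos t ht).trans ?_
      exact mul_le_mul_of_nonneg_right (le_max_left _ _) (Real.exp_pos _).le
    have hdec : ∀ t ∈ Icc 0 z, S.φ j t ≤ C₁ * Real.exp (-(0.99 * t)) := by
      intro t ht
      rcases le_or_gt zj T with hle | hlt
      · exact hdecT hle t ⟨ht.1, ht.2.trans hzzj.le⟩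
      · refine (hgrj j hjN (fun x hx => hzj.pos x ⟨hx.1, hx.2.trans hlt⟩) t
          ⟨ht.1, ht.2.trans hzT⟩).trans ?_
        exact mul_le_mul_of_nonneg_right (le_max_right _ _) (Real.exp_pos _).le
    obtain ⟨hl, hg0, hg0', -⟩ := hleft R q1 S (S.e j) he _ _ hsol (S.φ_left j hjN) (S.φ_zero j hjN)
    have hposz : ∀ t ∈ Icc 0 z, 0 < S.φ j t := fun t ht => hpos t ⟨ht.1, lt_of_le_of_lt ht.2 hzzj⟩
    have hval := SKa_val S he (by linarith) hC₁0 hsol hz hR0 (S.φ_left j hjN)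
      (fun t ht => ⟨(hl t ht).1, (hl t ht).2.2⟩) (fun t ht => ⟨(hl₀ t ht).1, (hl₀ t ht).2.2⟩)
      hdec hdec₀ hposz he0c
    have hslope := SKa_slope S (Cl := Cl) he hC₁0 hsol (by linarith) (S.φ_zero j hjN) hg0' hUn
      hdec hposz
    have s0 := hsmall (S.e j) heT 0 (by linarith)
    rw [Real.exp_zero, mul_one] at s0
    have s1 := hsmall (S.e j) heT (2.01 * z) (by linarith)
    have s2 := hsmall (S.e j) heT (2.02 * z) (by linarith)
    have t1 : Cl * S.e j ≤ 1 / 100 := by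
      have := hr1 R q7
      have h1 := mul_le_mul_of_nonneg_left s0 (by linarith : (0 : ℝ) ≤ Cl)
      linarith
    have t2 : C₁ * S.e j * Real.exp (2.01 * z) ≤ 1 / 100 := by
      have := hr2 R q8
      have h1 := mul_le_mul_of_nonneg_left s1 hC₁0.le
      linarith
    have t3 : C₂ * S.e j * Real.exp (2.02 * z) ≤ 1 / 1000 := by
      have := hr3 R q9
      have h1 := mul_le_mul_of_nonneg_left s2 hC₂0.le
      linarith
    have hez : Real.exp (-z) * Real.exp z = 1 := by rw [← Real.exp_add]; simp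
    have t4 : S.φ j z ≤ 1 / 1000 * Real.exp (-z) := by
      refine hval.trans ?_
      have h1 : Real.exp (1.02 * z) = Real.exp (2.02 * z) * Real.exp (-z) := by
        rw [← Real.exp_add]
        congr 1
        ring
      rw [h1, ← mul_assoc]
      exact mul_le_mul_of_nonneg_right t3 (Real.exp_pos _).le
    have t5 : S.dφ j z ≤ -(8 / 10 * Real.exp (-z)) := by
      have h1 : 98 / 100 ≤ Real.exp z * (S.φ j z - S.dφ j z) := by linarith
      have h2 := mul_le_mul_of_nonneg_left h1 (Real.exp_pos (-z)).le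
      rw [← mul_assoc, hez, one_mul] at h2
      have h3 := Real.exp_pos (-z)
      linarith
    have hclose : zj ≤ z + 1 / 100 := by
      refine SKa_close hsol (Real.exp_pos (-z)) ?_ (fun x hx => hpos x ⟨by linarith [hx.1], hx.2⟩)
        t4 t5
      intro x hx
      have h1 := hTmax x ⟨by linarith [hx.1], by linarith [hx.2]⟩
      have h2 := hUn x
      have h3 : 0 ≤ S.e j * om x := mul_nonneg he (Real.exp_pos _).le
      have h4 : S.e j * om x ≤ 1 / 10 := by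
        have h5 := hsmall (S.e j) heT (2 * x) (by linarith [hx.2])
        have h6 := hr7 R q13
        unfold om
        linarith
      unfold pot
      constructor <;> linarith
    have hVc : Continuous (pot 1 (S.e j) S.U) := by
      have h1 := S.cU
      have h2 : Continuous om := by unfold om; fun_prop
      unfold pot
      fun_prop
    exact ⟨zj, hzj, hzzj, hclose, SKa_deriv hVc hsol (by linarith : (-S.Lm) < zj) hzj.zero hzj.pos,
      hdecT (by linarith), hpos⟩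
  -- the supporter
  obtain ⟨j₀, hj₀N, hj₀⟩ := hsupp R q4 S T hT
  have hT0 : 0 < T := by linarith
  have hγT : Real.exp (-(0.01 * T)) ≤ Real.exp (-(S.γ * T)) := by
    apply Real.exp_le_exp.2
    have := S.hγ'
    nlinarith
  have hj₀' : cs * Real.exp (-(0.01 * T)) ≤ |S.φ j₀ T| :=
    (mul_le_mul_of_nonneg_left hγT hcs.le).trans hj₀
  have hj₀1 : 1 ≤ j₀ := by
    by_contra hcon
    have h0 : j₀ = 0 := by omega
    rw [h0] at hj₀'
    have h1 : 0 < S.φ 0 T := S.φ_pos T ⟨by linarith, hT.hLp⟩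
    rw [abs_of_pos h1] at hj₀'
    have h2 := hgr0 T ⟨hT0.le, le_rfl⟩
    have h3 := hj₀'.trans h2
    have h4 : cs ≤ Cg * Real.exp (-(0.98 * T)) := by
      have h5 := mul_le_mul_of_nonneg_right h3 (Real.exp_pos (0.01 * T)).le
      rw [mul_assoc, mul_assoc, ← Real.exp_add, ← Real.exp_add] at h5
      have e1 : -(0.01 * T) + 0.01 * T = 0 := by ring
      have e2 : -(0.99 * T) + 0.01 * T = -(0.98 * T) := by ring
      rw [e1, e2, Real.exp_zero, mul_one] at h5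
      exact h5
    have h6 : Cg * Real.exp (-(0.98 * T)) ≤ Cg * Real.exp (-(0.9 * R)) :=
      mul_le_mul_of_nonneg_left (Real.exp_le_exp.2 (by linarith)) hCg.le
    have h7 := hr5 R q11
    linarith
  have hN2 : 2 ≤ S.N := by omega
  obtain ⟨zs, hzs, hzzs, hzsc, hzsd, hzsr, hzsp⟩ := hexc j₀ hj₀1 hj₀N
  have hUint : (∫ x in (-S.Lm)..T, S.U x) ≤ Cu :=
    hint R hRC S T (by linarith) hT.hLp.le hTmax
  have hzs6 : zs ≤ 0.6 * T := by
    by_contra hcon
    push Not at hcon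
    have h1 := SKa_growth S hC₀ hT hUint hUn hLm (S.e_pos j₀ hj₀N).le
      (S.e_le hK hC₀ hRC hT hz hj₀1 hj₀N) (S.sol j₀ hj₀N) (by linarith) (by linarith) hzs.zero
      hzsd.le hzsp hzsr
    have h2 := hj₀'.trans h1
    have hC₃0 : 0 < C₃ := by positivity
    have h3 : C₃ * Real.exp (T - 1.99 * zs) ≤ C₃ * Real.exp (-(0.19 * T)) :=
      mul_le_mul_of_nonneg_left (Real.exp_le_exp.2 (by linarith)) hC₃0.le
    have h4 := h2.trans h3
    have h5 := mul_le_mul_of_nonneg_right h4 (Real.exp_pos (0.01 * T)).le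
    rw [mul_assoc, mul_assoc, ← Real.exp_add, ← Real.exp_add] at h5
    have e1 : -(0.01 * T) + 0.01 * T = 0 := by ring
    have e2 : -(0.19 * T) + 0.01 * T = -(0.18 * T) := by ring
    rw [e1, e2, Real.exp_zero, mul_one] at h5
    have h6 : C₃ * Real.exp (-(0.18 * T)) ≤ C₃ * Real.exp (-(0.18 * R)) :=
      mul_le_mul_of_nonneg_left (Real.exp_le_exp.2 (by linarith)) hC₃0.le
    have h7 := hr4 R q10
    linarith
  -- the point `s`
  obtain ⟨s, hs, hzs', hsc, hsd, -, -⟩ := hexc 1 le_rfl (by omega)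
  have hsT : s ≤ T := by linarith
  have hall : ∀ j, 1 ≤ j → j < S.N → ∃ zj, S.IsFirst j zj ∧ zj ≤ s ∧
      (∀ x ∈ Ioc zj T, S.φ j x < 0 ∧ S.dφ j x < 0) ∧
      (∀ x ∈ Icc zj T, ∀ y ∈ Icc x T, S.dφ j y ≤ S.dφ j x) ∧ S.dφ j zj < 0 ∧ z < zj ∧
      zj ≤ z + 1 / 100 := by
    intro j hj1 hjN
    obtain ⟨zj, hzj, hzzj, hzjc, hzjd, -, -⟩ := hexc j hj1 hjN
    have hle : zj ≤ s := by
      rcases hj1.lt_or_eq with h1 | h1
      · exact S.first_mono h1 hjN hs hzj (by linarith) (by linarith)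
      · subst h1
        by_contra hcon
        push Not at hcon
        have := hzj.pos s ⟨by linarith, hcon⟩
        rw [hs.zero] at this
        exact lt_irrefl _ this
    obtain ⟨n1, n2⟩ := S.no_second hC₀ hRC hT (S.e_pos j hjN).le (S.sol j hjN)
      (by linarith) (by linarith) hzj.zero hzjd
    exact ⟨zj, hzj, hle, n1, n2, hzjd, hzzj, hzjc⟩
  refine ⟨s, ?_⟩
  constructor
  · exact hN2
  · exact hs
  · exact hzs'
  · exact hsc
  · have : s ≤ zs + 1 / 100 := by linarith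
    linarith
  · intro j hj1 hjN
    obtain ⟨zj, hzj, hle, n1, n2, hd, hz1, hz2⟩ := hall j hj1 hjN
    have hds : S.dφ j s < 0 := by
      rcases hle.lt_or_eq with h1 | h1
      · exact (n1 s ⟨h1, hsT⟩).2
      · rw [← h1]; exact hd
    have hfs : S.φ j s ≤ 0 := by
      rcases hle.lt_or_eq with h1 | h1
      · exact (n1 s ⟨h1, hsT⟩).1.le
      · rw [← h1, hzj.zero]
    refine ⟨hds, hfs, ?_, ?_⟩
    · have h1 := SKa_cmp (F := fun y => S.dφ j s * y) (F' := fun _ => S.dφ j s) (G := S.φ j)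
        (G' := S.dφ j) hle (fun y => by simpa using (hasDerivAt_id y).const_mul (S.dφ j s))
        (S.sol j hjN).d1 (by
          intro y hy
          exact n2 y ⟨hy.1.le, hy.2.le.trans hsT⟩ s ⟨hy.2.le, hsT⟩)
      rw [hzj.zero] at h1
      rw [abs_of_nonpos hfs, abs_of_neg hds]
      nlinarith
    · intro x hx
      exact (n1 x ⟨lt_of_le_of_lt hle hx.1, hx.2⟩).1
  · intro j hj1 hjN
    obtain ⟨zj, hzj, hle, n1, n2, hd, hz1, hz2⟩ := hall j hj1 hjN
    exact ⟨zj, hzj, hle, fun x hx => (n1 x ⟨hx.1, hx.2.le.trans hsT⟩).1.ne⟩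
  · refine le_trans ?_ he0a
    have h1 : Real.exp (-(2.06 * s)) ≤ Real.exp (-(0.01 * R)) * Real.exp (-(2.05 * z)) := by
      rw [← Real.exp_add]
      apply Real.exp_le_exp.2
      linarith
    have h2 := hr6 R q12
    rw [one_mul] at h2
    exact h1.trans (mul_le_mul_of_nonneg_right h2 (Real.exp_pos _).le)
  · intro j hj1 hjN
    exact S.e_le hK hC₀ hRC hT hz hj1 hjN
  · exact he0b

end Pool.Agent.RLT40
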