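import Pool.Agent.RLT40.SKa

/-!
# Module SK (paper 5.7 (iii)): the first zeros of the excited states.

`j ≥ 1`: `φ_j(z)|g₀(z)| = e_j ∫_{-Lm}^z ω φ_j f₀ ≤ C e_j e^{0.03z}` (`φ_j ≤ C e^{-0.99t}` on `[0,z_j]`, max_principle), so `φ_j(z) ≤ C e_j e^{1.03z}`; `A_j(z) ≥ 0.45`, so `φ_j'(z) ≤ -0.8e^{-z}`; hence
`z_j - z ≤ C e_j e^{2.03z} ≤ C K₁ e^{-2T+1.83T} ≤ η`, and `φ_j'(z_j) ≤ -0.7 e^{-z}`.  A supporter is some `j ≥ 1` (ground_bound), `c e^{-γT} ≤ |φ_j(T)| ≤ C e^{T-1.99z_j}`: `z_j ≤ 0.6T`; so `N ≥ 2`.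
`s` = first zero of `φ 1` (`≥ z_j` for all `j ≥ 1` by first_mono).  For `j ≥ 1`: on `[z_j,s]` `φ_j ≤ 0`, `|φ_j'|` nondecreasing, so `|φ_j(s)| ≤ (s - z_j)|φ_j'(s)|`.
-/

open MeasureTheory Set
open scoped ENNReal NNReal

namespace Pool.Agent.RLT40

variable {K₁ C₀ R : ℝ}

/-- excited states carry the density at `T` -/
theorem excited_T (hK : 0 < K₁) (hC₀ : 0 < C₀) : ∃ c > 0, ∃ R₀ ≥ C₀, ∀ R ≥ R₀, ∀ S : SD K₁ C₀ R, ∀ T z s, S.IsT T → S.IsZ z → S.IsS T z s →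
    c * Real.exp (-(2 * S.γ * T)) ≤ S.γ * ∑ j ∈ Finset.Ico 1 S.N, S.α j * S.φ j T ^ 2 := by
  obtain ⟨cw, hcw, Cw, hCw, Ra, hRa, hwei⟩ := weights hK hC₀
  obtain ⟨Cg, hCg, Rb, hRb, hground⟩ := ground_bound hK hC₀
  obtain ⟨r1, hr1⟩ := SKa_small (Cw * Cg ^ 2) (a := 1.9) (b := 1 / 80000) (by norm_num) (by norm_num)
  refine ⟨1 / 80000, by norm_num, max (max Ra Rb) r1, hRa.le.trans ((le_max_left _ _).trans
    (le_max_left _ _)), ?_⟩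
  intro R hR S T z s hT hz hs
  simp only [ge_iff_le, max_le_iff] at hR
  obtain ⟨⟨q1, q2⟩, q3⟩ := hR
  have hR0 : 0 < R := hC₀.trans_le (hRa.le.trans q1)
  have hT0 : 0 < T := hR0.trans_le hT.hR
  have hTR := hT.hR
  have hLm : 0 < S.Lm := hR0.trans_le S.hLm
  have hγ := S.hγ
  have hγ' := S.hγ'
  have hsum : ∑ j ∈ Finset.range S.N, S.α j * S.φ j T ^ 2 =
      S.α 0 * S.φ 0 T ^ 2 + ∑ j ∈ Finset.Ico 1 S.N, S.α j * S.φ j T ^ 2 := by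
    rw [Finset.range_eq_Ico, Finset.sum_eq_sum_Ico_succ_bot S.hN]
  have hel := S.el T ⟨by linarith, hT.hLp.le⟩
  rw [hsum, hT.eq] at hel
  have hU : (1 / 10000 : ℝ) ≤ (1 / 100 : ℝ) ^ (1 + S.γ) := by
    have h1 : (1 / 100 : ℝ) ^ (2 : ℝ) ≤ (1 / 100 : ℝ) ^ (1 + S.γ) :=
      Real.rpow_le_rpow_of_exponent_ge (by norm_num) (by norm_num) (by linarith)
    refine le_trans (le_of_eq ?_) h1
    norm_num
  have h1 : 1 / 40000 * Real.exp (-(2 * S.γ * T)) ≤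
      S.C * (2 + S.γ) * (1 / 100 : ℝ) ^ (1 + S.γ) * Real.exp (-(2 * S.γ * T)) := by
    refine mul_le_mul_of_nonneg_right ?_ (Real.exp_pos _).le
    have h2 : 1 / 4 ≤ S.C * (2 + S.γ) := by nlinarith [S.hC]
    have h3 := mul_le_mul h2 hU (by norm_num) (by linarith : (0 : ℝ) ≤ S.C * (2 + S.γ))
    linarith
  have hα : S.γ * S.α 0 ≤ Cw := by
    refine le_trans ?_ (hwei R q1 S).2
    refine mul_le_mul_of_nonneg_left ?_ hγ.le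
    exact Finset.single_le_sum (f := fun j => S.α j)
      (fun j hj => (S.α_pos j (Finset.mem_range.1 hj)).le) (Finset.mem_range.2 S.hN)
  have hφ : S.φ 0 T ^ 2 ≤ Cg ^ 2 * Real.exp (-(1.98 * T)) := by
    have h2 := (hground R q2 S T hT hs.eT).1 T ⟨hT0.le, le_rfl⟩
    have h3 : 0 < S.φ 0 T := S.φ_pos T ⟨by linarith, hT.hLp⟩
    have h4 : S.φ 0 T ^ 2 ≤ (Cg * Real.exp (-(0.99 * T))) ^ 2 := pow_le_pow_left₀ h3.le h2 2
    refine h4.trans (le_of_eq ?_)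
    rw [mul_pow, ← Real.exp_nat_mul]
    congr 2
    push_cast
    ring
  have h5 : S.γ * (S.α 0 * S.φ 0 T ^ 2) ≤ 1 / 80000 * Real.exp (-(2 * S.γ * T)) := by
    have h6 : S.γ * (S.α 0 * S.φ 0 T ^ 2) ≤ Cw * (Cg ^ 2 * Real.exp (-(1.98 * T))) := by
      rw [← mul_assoc]
      exact mul_le_mul hα hφ (sq_nonneg _) hCw.le
    have h7 : Cw * (Cg ^ 2 * Real.exp (-(1.98 * T))) =
        Cw * Cg ^ 2 * Real.exp (-(1.9 * T)) * Real.exp (-(0.08 * T)) := by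
      rw [← mul_assoc, mul_assoc (Cw * Cg ^ 2), ← Real.exp_add]
      congr 2
      ring
    have h8 : Real.exp (-(0.08 * T)) ≤ Real.exp (-(2 * S.γ * T)) := by
      apply Real.exp_le_exp.2
      nlinarith
    rw [h7] at h6
    exact h6.trans (mul_le_mul (hr1 T (q3.trans hTR)) h8 (Real.exp_pos _).le (by norm_num))
  rw [mul_add] at hel
  linarith

end Pool.Agent.RLT40
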