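import Pool.Agent.RLT40.OdeA
import Pool.Agent.RLT40.SCa

/-!
# Module SL (paper 5.7 (iv)): growth beyond `s`, decay of the ground state, the small integral.

growth_s: on `[s,T]` `|1 + eω - V| ≤ 1 + eω` (`V ≤ U ≤ 1/100`), `∫_s^T eω ≤ K₁/2`; on `[T,Lp]`: `λ = sqrt(1+K₁+eω)`, `|1+eω-V| ≤ λ²`, `(λ|f|+|g|)' ≤ (λ + λ'/λ)(λ|f|+|g|)`, `λ'/λ ≤ 1`,
`∫_T^t λ ≤ sqrt(1+K₁)(t-T) + sqrt K₁ e^{t-T}`; all absorbed in `exp(C₁ e^{t-T})`.
decay0: supersolution `Y = exp(-0.9(t-s) - ½ sqrt(e₀)(e^t - e^s))`: `Y'' = (0.81 + 0.8μe^t + μ²e^{2t})Y`, `μ = ½sqrt e₀`; on `[s,T]` compare with `0.99 + e₀ω` (`0.4x ≤ 0.18 + 0.75x²` always), on `[T,Lp]` with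
`1 - K₁ + e₀ω` (`e₀ω(T) ≥ e^{0.7T}` is huge).  `comparison` lemma.  `φ_0(s) ≤ C e^{-0.99s}` by ground_bound.
int_small: `U1 ≤ C e^{2γt} φ_0^{2/(1+γ)}` (weights), `2C₁e^{t-T} ≤ 0.05 sqrt(e₀)(e^t - e^s) + 2C₁`; `∫ e^{0.39x} exp(-0.9 m(e^x-1)) dx ≤ C/m`, `m = sqrt(e₀)e^s ≥ e^{-0.03 s}`.
-/

open MeasureTheory Set
open scoped ENNReal NNReal

namespace Pool.Agent.RLT40

variable {K₁ C₀ : ℝ}

/-- growth with the weight `L t = A + B e^{t-T}` -/
theorem SLa_growth {V f g : ℝ → ℝ} (h : Sol V f g) {T b A B : ℝ} (hA : 1 ≤ A) (hB : 0 ≤ B)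
    (hV : ∀ t ∈ Icc T b, |V t| ≤ A ^ 2 + (B * Real.exp (t - T)) ^ 2) :
    ∀ t ∈ Icc T b, |f t| + |g t| ≤
      2 * (A + B) * (|f T| + |g T|) * Real.exp ((A + 1) * (t - T) + B * Real.exp (t - T)) := by
  set L : ℝ → ℝ := fun t => A + B * Real.exp (t - T) with hL
  set Λ : ℝ → ℝ := fun t => (A + 1) * (t - T) + B * Real.exp (t - T) with hΛ
  set E : ℝ → ℝ := fun t => L t ^ 2 * f t ^ 2 + g t ^ 2 with hE
  have dT : ∀ t, HasDerivAt (fun t : ℝ => t - T) 1 t := fun t => (hasDerivAt_id' t).sub_const T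
  have dx : ∀ t, HasDerivAt (fun t : ℝ => Real.exp (t - T)) (Real.exp (t - T)) t := fun t => by
    have := (dT t).exp
    rwa [mul_one] at this
  have dL : ∀ t, HasDerivAt L (B * Real.exp (t - T)) t := fun t => ((dx t).const_mul B).const_add A
  have dΛ : ∀ t, HasDerivAt Λ (L t + 1) t := fun t =>
    (((dT t).const_mul (A + 1)).add ((dx t).const_mul B)).congr_deriv (by simp only [hL]; ring)
  have dE : ∀ t, HasDerivAt E (2 * L t * (B * Real.exp (t - T)) * f t ^ 2 + L t ^ 2 * (2 * f t * g t) +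
      2 * g t * (V t * f t)) t := fun t =>
    ((((dL t).fun_pow 2).fun_mul ((h.d1 t).fun_pow 2)).fun_add ((h.d2 t).fun_pow 2)).congr_deriv
      (by push_cast; ring)
  have dF : ∀ t, HasDerivAt (fun t => E t * Real.exp (-(2 * Λ t)))
      ((2 * L t * (B * Real.exp (t - T)) * f t ^ 2 + L t ^ 2 * (2 * f t * g t) +
        2 * g t * (V t * f t)) * Real.exp (-(2 * Λ t)) +
        E t * (Real.exp (-(2 * Λ t)) * (-(2 * (L t + 1))))) t := fun t =>
    (dE t).mul (((dΛ t).const_mul 2).neg.exp)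
  have anti : AntitoneOn (fun t => E t * Real.exp (-(2 * Λ t))) (Icc T b) := by
    refine antitoneOn_of_deriv_nonpos (convex_Icc T b)
      (fun x _ => (dF x).continuousAt.continuousWithinAt)
      (fun x _ => (dF x).differentiableAt.differentiableWithinAt) fun x hx => ?_
    rw [interior_Icc] at hx
    rw [(dF x).deriv]
    have e0 : 0 < Real.exp (-(2 * Λ x)) := Real.exp_pos _
    have e1 : 0 < Real.exp (x - T) := Real.exp_pos _
    have hVx := hV x (Ioo_subset_Icc_self hx)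
    set y := B * Real.exp (x - T) with hy
    have hy0 : 0 ≤ y := by positivity
    have hLx : L x = A + y := rfl
    have hVL : |V x| ≤ L x ^ 2 := by
      rw [hLx]; nlinarith
    have hL1 : 1 ≤ L x := by rw [hLx]; linarith
    have k1 : 2 * L x * y * f x ^ 2 ≤ 2 * (L x ^ 2 * f x ^ 2) := by
      have : y ≤ L x := by rw [hLx]; linarith
      nlinarith [mul_nonneg (mul_nonneg (zero_le_one.trans hL1) (sub_nonneg.2 this)) (sq_nonneg (f x))]
    have k2 : 2 * (L x * (|f x| * |g x|)) ≤ L x ^ 2 * f x ^ 2 + g x ^ 2 := by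
      have := sq_nonneg (L x * |f x| - |g x|)
      have a1 := sq_abs (f x)
      have a2 := sq_abs (g x)
      nlinarith
    have k3 : f x * g x ≤ |f x| * |g x| := by rw [← abs_mul]; exact le_abs_self _
    have k4 : g x * (V x * f x) ≤ L x ^ 2 * (|f x| * |g x|) := by
      calc g x * (V x * f x) ≤ |g x * (V x * f x)| := le_abs_self _
        _ = |V x| * (|f x| * |g x|) := by rw [abs_mul, abs_mul]; ring
        _ ≤ L x ^ 2 * (|f x| * |g x|) := mul_le_mul_of_nonneg_right hVL (by positivity)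
    have k5 : L x ^ 2 * (f x * g x) ≤ L x ^ 2 * (|f x| * |g x|) :=
      mul_le_mul_of_nonneg_left k3 (sq_nonneg _)
    have k6 : L x * (2 * (L x * (|f x| * |g x|))) ≤ L x * (L x ^ 2 * f x ^ 2 + g x ^ 2) :=
      mul_le_mul_of_nonneg_left k2 (by linarith)
    have hEx : E x = L x ^ 2 * f x ^ 2 + g x ^ 2 := rfl
    have key : (2 * L x * y * f x ^ 2 + L x ^ 2 * (2 * f x * g x) + 2 * g x * (V x * f x)) -
        2 * (L x + 1) * E x ≤ 0 := by
      rw [hEx]
      nlinarith [sq_nonneg (g x)]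
    have : (2 * L x * y * f x ^ 2 + L x ^ 2 * (2 * f x * g x) + 2 * g x * (V x * f x)) *
        Real.exp (-(2 * Λ x)) + E x * (Real.exp (-(2 * Λ x)) * (-(2 * (L x + 1)))) =
        ((2 * L x * y * f x ^ 2 + L x ^ 2 * (2 * f x * g x) + 2 * g x * (V x * f x)) -
        2 * (L x + 1) * E x) * Real.exp (-(2 * Λ x)) := by ring
    rw [this]
    exact mul_nonpos_of_nonpos_of_nonneg key e0.le
  intro t ht
  have a1 := anti (left_mem_Icc.2 (ht.1.trans ht.2)) ht ht.1
  simp only at a1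
  have hΛT : Λ T = B := by simp [hΛ]
  have hLT : L T = A + B := by simp [hL]
  have a2 : E t ≤ E T * Real.exp (2 * Λ t) := by
    have e1 : Real.exp (-(2 * Λ T)) ≤ 1 := by
      rw [Real.exp_le_one_iff, hΛT]; linarith
    have e2 : 0 ≤ E T := by simp only [hE]; positivity
    calc E t = (E t * Real.exp (-(2 * Λ t))) * Real.exp (2 * Λ t) := by
          rw [mul_assoc, ← Real.exp_add, neg_add_cancel, Real.exp_zero, mul_one]
      _ ≤ (E T * Real.exp (-(2 * Λ T))) * Real.exp (2 * Λ t) :=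
          mul_le_mul_of_nonneg_right a1 (Real.exp_pos _).le
      _ ≤ (E T * 1) * Real.exp (2 * Λ t) := by gcongr
      _ = E T * Real.exp (2 * Λ t) := by rw [mul_one]
  have hLt : 1 ≤ L t := by
    simp only [hL]
    have : 0 ≤ B * Real.exp (t - T) := by positivity
    linarith
  have a3 : (|f t| + |g t|) ^ 2 ≤ 2 * E t := by
    have b1 := sq_nonneg (|f t| - |g t|)
    have b2 := sq_abs (f t)
    have b3 := sq_abs (g t)
    have b4 : f t ^ 2 ≤ L t ^ 2 * f t ^ 2 := by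
      have b5 : 1 ≤ L t ^ 2 := one_le_pow₀ hLt
      nlinarith [sq_nonneg (f t)]
    simp only [hE]
    nlinarith
  have a4 : E T ≤ ((A + B) * (|f T| + |g T|)) ^ 2 := by
    simp only [hE, hLT]
    have b2 := sq_abs (f T)
    have b3 := sq_abs (g T)
    have b4 : g T ^ 2 ≤ (A + B) ^ 2 * g T ^ 2 := by
      have : 1 ≤ (A + B) ^ 2 := by nlinarith
      nlinarith [sq_nonneg (g T)]
    have b5 : 0 ≤ |f T| * |g T| := by positivity
    have b6 : 0 ≤ (A + B) ^ 2 := sq_nonneg _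
    have b7 : ((A + B) * (|f T| + |g T|)) ^ 2 = (A + B) ^ 2 * f T ^ 2 + (A + B) ^ 2 * g T ^ 2 +
        2 * ((A + B) ^ 2 * (|f T| * |g T|)) := by
      rw [← b2, ← b3]; ring
    rw [b7]
    have b8 := mul_nonneg b6 b5
    linarith
  have a5 : (|f t| + |g t|) ^ 2 ≤ (2 * (A + B) * (|f T| + |g T|) * Real.exp (Λ t)) ^ 2 := by
    have e1 : Real.exp (2 * Λ t) = Real.exp (Λ t) ^ 2 := by
      rw [← Real.exp_nat_mul]; norm_num
    rw [e1] at a2
    have e2 : 0 ≤ Real.exp (Λ t) ^ 2 := sq_nonneg _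
    have e3 := mul_le_mul_of_nonneg_right a4 e2
    have e4 := mul_nonneg (sq_nonneg ((A + B) * (|f T| + |g T|))) e2
    nlinarith
  exact le_of_sq_le_sq a5 (by positivity)

theorem growth_s (hK : 0 < K₁) (hC₀ : 0 < C₀) : ∃ C₁ > 0, ∃ R₀ ≥ C₀, ∀ R ≥ R₀, ∀ S : SD K₁ C₀ R, ∀ T, S.IsT T → ∀ s, C₀ ≤ s → s ≤ T →
    ∀ e : ℝ, 0 ≤ e → e * om T ≤ K₁ → ∀ V : ℝ → ℝ, Continuous V → (∀ x ∈ Icc s S.Lp, 0 ≤ V x ∧ V x ≤ S.U x) → ∀ f g : ℝ → ℝ,
      Sol (pot 1 e V) f g → ∀ t ∈ Icc s S.Lp, |f t| + |g t| ≤ C₁ * (|f s| + |g s|) * Real.exp (t - s + C₁ * Real.exp (t - T)) := by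
  have hA0 : 1 ≤ Real.sqrt (1 + K₁) := by
    rw [Real.one_le_sqrt]; linarith
  have hB0 : 0 ≤ Real.sqrt K₁ := Real.sqrt_nonneg _
  set A := Real.sqrt (1 + K₁) with hA
  set B := Real.sqrt K₁ with hB
  have hA2 : A ^ 2 = 1 + K₁ := Real.sq_sqrt (by linarith)
  have hB2 : B ^ 2 = K₁ := Real.sq_sqrt hK.le
  have hex : 1 ≤ Real.exp (K₁ / 2) := Real.one_le_exp (by linarith)
  refine ⟨2 * (A + B) * Real.exp (K₁ / 2) + (A + 1) + B, by positivity, C₀, le_rfl, ?_⟩
  intro R hR S T hT s hs hsT e he heT V hVc hV f g hsol t ht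
  set C₁ := 2 * (A + B) * Real.exp (K₁ / 2) + (A + 1) + B with hC₁
  have hC₁1 : Real.exp (K₁ / 2) ≤ C₁ := by
    rw [hC₁]; nlinarith
  have hC₁2 : 2 * (A + B) * Real.exp (K₁ / 2) ≤ C₁ := by rw [hC₁]; linarith
  have hC₁3 : (A + 1) + B ≤ C₁ := by
    have : 0 ≤ 2 * (A + B) * Real.exp (K₁ / 2) := by positivity
    rw [hC₁]; linarith
  have hC₁0 : 0 < C₁ := lt_of_lt_of_le (Real.exp_pos _) hC₁1
  have omd : ∀ x, HasDerivAt om (2 * om x) x := SCa_om
  have omc : Continuous om := continuous_iff_continuousAt.2 fun x => (omd x).continuousAt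
  have om0 : ∀ x, 0 < om x := fun x => Real.exp_pos _
  have hTLp := hT.hLp
  -- on `[s, T]`
  have part1 : ∀ t ∈ Icc s T, |f t| + |g t| ≤ Real.exp (K₁ / 2) * (|f s| + |g s|) * Real.exp (t - s) := by
    intro t ht
    set m : ℝ → ℝ := fun t => max (1 + e * om t) |pot 1 e V t| with hm
    have mc : Continuous m := by
      have : Continuous (pot 1 e V) := by unfold pot; fun_prop
      fun_prop
    have h1 := growth hsol (s := s) mc (fun t _ => le_max_of_le_left (by have := om0 t; nlinarith [mul_nonneg he this.le]))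
      (fun t _ => le_max_right _ _) t ht.1
    have hmle : ∀ u ∈ Icc s T, m u = 1 + e * om u := by
      intro u hu
      refine max_eq_left ?_
      have b1 := hV u ⟨hu.1, hu.2.trans hTLp.le⟩
      have b2 := hT.le u ⟨hs.trans hu.1, hu.2⟩
      have b3 : 0 ≤ e * om u := mul_nonneg he (om0 u).le
      unfold pot
      rw [abs_of_nonneg (by linarith)]
      linarith
    have hint : (∫ u in s..t, m u) = (t - s) + e * (om t - om s) / 2 := by
      have c1 : (∫ u in s..t, m u) = ∫ u in s..t, (1 + e * om u) := by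
        refine intervalIntegral.integral_congr fun u hu => ?_
        rw [uIcc_of_le ht.1] at hu
        exact hmle u ⟨hu.1, hu.2.trans ht.2⟩
      have c2 : ∀ u ∈ uIcc s t, HasDerivAt (fun u => u + e * om u / 2) (1 + e * om u) u := by
        intro u _
        exact ((hasDerivAt_id' u).add (((omd u).const_mul e).div_const 2)).congr_deriv (by ring)
      rw [c1, intervalIntegral.integral_eq_sub_of_hasDerivAt c2 ((by fun_prop : Continuous fun u => 1 + e * om u).intervalIntegrable _ _)]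
      ring
    have hle : (∫ u in s..t, m u) ≤ (t - s) + K₁ / 2 := by
      rw [hint]
      have c3 : om t ≤ om T := by
        unfold om; exact Real.exp_le_exp.2 (by linarith [ht.2])
      have c4 : e * om t ≤ e * om T := mul_le_mul_of_nonneg_left c3 he
      have c5 : 0 ≤ e * om s := mul_nonneg he (om0 s).le
      linarith
    calc |f t| + |g t| ≤ (|f s| + |g s|) * Real.exp (∫ u in s..t, m u) := h1
      _ ≤ (|f s| + |g s|) * Real.exp ((t - s) + K₁ / 2) := by gcongr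
      _ = Real.exp (K₁ / 2) * (|f s| + |g s|) * Real.exp (t - s) := by rw [Real.exp_add]; ring
  have hD0 : 0 ≤ |f s| + |g s| := by positivity
  rcases le_total t T with htT | htT
  · have h1 := part1 t ⟨ht.1, htT⟩
    refine h1.trans ?_
    have h2 : Real.exp (t - s) ≤ Real.exp (t - s + C₁ * Real.exp (t - T)) := by
      refine Real.exp_le_exp.2 ?_
      have : 0 ≤ C₁ * Real.exp (t - T) := by positivity
      linarith
    gcongr
  · have h1 := part1 T ⟨hsT, le_rfl⟩
    have hV' : ∀ u ∈ Icc T S.Lp, |pot 1 e V u| ≤ A ^ 2 + (B * Real.exp (u - T)) ^ 2 := by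
      intro u hu
      have b1 := hV u ⟨hsT.trans hu.1, hu.2⟩
      have b2 := S.U_le u
      have b3 : 0 ≤ e * om u := mul_nonneg he (om0 u).le
      have b4 : e * om u ≤ K₁ * Real.exp (u - T) ^ 2 := by
        have : om u = om T * Real.exp (u - T) ^ 2 := by
          unfold om; rw [← Real.exp_nat_mul, ← Real.exp_add]; congr 1; push_cast; ring
        rw [this, ← mul_assoc]
        exact mul_le_mul_of_nonneg_right heT (sq_nonneg _)
      rw [mul_pow, hA2, hB2, abs_le]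
      unfold pot
      constructor
      · nlinarith
      · nlinarith
    have h2 := SLa_growth hsol hA0 hB0 hV' t ⟨htT, ht.2⟩
    refine h2.trans ?_
    have h3 : (A + 1) * (t - T) + B * Real.exp (t - T) ≤ C₁ * Real.exp (t - T) := by
      have c1 : t - T ≤ Real.exp (t - T) := by
        have := Real.add_one_le_exp (t - T); linarith
      have c2 : (A + 1) * (t - T) ≤ (A + 1) * Real.exp (t - T) := by gcongr
      have c3 : ((A + 1) + B) * Real.exp (t - T) ≤ C₁ * Real.exp (t - T) := by gcongr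
      linarith
    have h4 : T - s + C₁ * Real.exp (t - T) ≤ t - s + C₁ * Real.exp (t - T) := by linarith
    calc 2 * (A + B) * (|f T| + |g T|) * Real.exp ((A + 1) * (t - T) + B * Real.exp (t - T))
        ≤ 2 * (A + B) * (Real.exp (K₁ / 2) * (|f s| + |g s|) * Real.exp (T - s)) * Real.exp (C₁ * Real.exp (t - T)) := by
          gcongr
      _ = 2 * (A + B) * Real.exp (K₁ / 2) * (|f s| + |g s|) * Real.exp (T - s + C₁ * Real.exp (t - T)) := by
          rw [Real.exp_add]; ring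
      _ ≤ C₁ * (|f s| + |g s|) * Real.exp (t - s + C₁ * Real.exp (t - T)) := by gcongr

end Pool.Agent.RLT40
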