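import Pool.Agent.RLT40.SCa
import Pool.Agent.RLT40.SCdefs
import Pool.Agent.RLT40.SGb
import Pool.Agent.RLT40.SKdefs

/-!
# Module SL (paper 5.7 (iv)): growth beyond `s`, decay of the ground state, the small integral.

growth_s: on `[s,T]` `|1 + eω - V| ≤ 1 + eω` (`V ≤ U ≤ 1/100`), `∫_s^T eω ≤ K₁/2`; on `[T,Lp]`: `λ = sqrt(1+K₁+eω)`, `|1+eω-V| ≤ λ²`, `(λ|f|+|g|)' ≤ (λ + λ'/λ)(λ|f|+|g|)`, `λ'/λ ≤ 1`,
`∫_T^t λ ≤ sqrt(1+K₁)(t-T) + sqrt K₁ e^{t-T}`; all absorbed in `exp(C₁ e^{t-T})`.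
decay0: supersolution `Y = exp(-0.9(t-s) - ½ sqrt(e₀)(e^t - e^s))`: `Y'' = (0.81 + 0.8μe^t + μ²e^{2t})Y`, `μ = ½sqrt e₀`; on `[s,T]` compare with `0.99 + e₀ω` (`0.4x ≤ 0.18 + 0.75x²` always), on `[T,Lp]` with
`1 - K₁ + e₀ω` (`e₀ω(T) ≥ e^{0.7T}` is huge).  `comparison` lemma.  `φ_0(s) ≤ C e^{-0.99s}` by ground_bound.
int_small: `U1 ≤ C e^{2γt} φ_0^{2/(1+γ)}` (weights), `2C₁e^{t-T} ≤ 0.05 sqrt(e₀)(e^t - e^s) + 2C₁`; `∫ e^{0.39x} exp(-0.9 m(e^x-1)) dx ≤ C/m`, `m = sqrt(e₀)e^s ≥ e^{-0.03 s}`.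
-/

open MeasureTheory Set
open scoped ENNReal NNReal

namespace Pool.Agent.RLT40

variable {K₁ C₀ : ℝ}

/-- decay of the ground state beyond `s` -/
theorem SLb_decay (hK : 0 < K₁) (hC₀ : 0 < C₀) {R : ℝ} (hR : C₀ ≤ R) (S : SD K₁ C₀ R) {T z s : ℝ} (hT : S.IsT T)
    (hs0 : C₀ ≤ s) (hS : S.IsS T z s) (hbig : 3 * K₁ + 1 ≤ Real.exp (0.74 * T)) :
    ∀ t ∈ Icc s S.Lp, S.φ 0 t ≤
      S.φ 0 s * Real.exp (-(0.9 * (t - s) + 1 / 2 * Real.sqrt (S.e 0) * (Real.exp t - Real.exp s))) := by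
  have he0 : 0 < S.e 0 := S.e_pos 0 S.hN
  have hTpos : 0 < T := by
    have := hS.sT
    linarith
  have hsT : s ≤ T := by
    have := hS.sT
    linarith
  have hsLp : s ≤ S.Lp := hsT.trans hT.hLp.le
  set r := Real.sqrt (S.e 0) with hr
  have hr0 : 0 < r := Real.sqrt_pos.2 he0
  have hr2 : r ^ 2 = S.e 0 := Real.sq_sqrt he0.le
  have hφs : 0 < S.φ 0 s := S.φ_pos s ⟨by linarith [S.hLm], lt_of_le_of_lt hsT hT.hLp⟩
  have om_eq : ∀ t, S.e 0 * om t = (r * Real.exp t) ^ 2 := by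
    intro t
    rw [mul_pow, hr2, om, ← Real.exp_nat_mul]
    push_cast
    rfl
  have dq : ∀ t, HasDerivAt (fun t => -(0.9 * (t - s) + 1 / 2 * r * (Real.exp t - Real.exp s)))
      (-(0.9 + 1 / 2 * r * Real.exp t)) t := by
    intro t
    have a1 : HasDerivAt (fun t : ℝ => t - s) 1 t := (hasDerivAt_id' t).sub_const s
    have a2 : HasDerivAt (fun t : ℝ => Real.exp t - Real.exp s) (Real.exp t) t :=
      (Real.hasDerivAt_exp t).sub_const _
    refine ((a1.const_mul 0.9).fun_add (a2.const_mul (1 / 2 * r))).fun_neg.congr_deriv ?_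
    ring
  set w : ℝ → ℝ := fun t => S.φ 0 s * Real.exp (-(0.9 * (t - s) + 1 / 2 * r * (Real.exp t - Real.exp s))) with hw
  have dw : ∀ t, HasDerivAt w (-(0.9 + 1 / 2 * r * Real.exp t) * w t) t := by
    intro t
    refine ((dq t).exp.const_mul (S.φ 0 s)).congr_deriv ?_
    simp only [hw]
    ring
  have dw2 : ∀ t, HasDerivAt (fun t => -(0.9 + 1 / 2 * r * Real.exp t) * w t)
      ((0.81 + 0.8 * (1 / 2 * r * Real.exp t) + (1 / 2 * r * Real.exp t) ^ 2) * w t) t := by
    intro t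
    have a1 : HasDerivAt (fun t : ℝ => -(0.9 + 1 / 2 * r * Real.exp t)) (-(1 / 2 * r * Real.exp t)) t :=
      (((Real.hasDerivAt_exp t).const_mul (1 / 2 * r)).const_add 0.9).fun_neg
    refine (a1.fun_mul (dw t)).congr_deriv ?_
    ring
  have hsol := S.sol 0 S.hN
  have hw0 : ∀ t, 0 < w t := fun t => by
    simp only [hw]; positivity
  have hcase : ∀ t ∈ Ioo s S.Lp, (S.U t ≤ 1 / 100) ∨ (S.U t ≤ K₁ ∧ 3 * K₁ + 1 ≤ S.e 0 * om t) := by
    intro t ht
    rcases le_total t T with h | h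
    · exact Or.inl (hT.le t ⟨hs0.trans ht.1.le, h⟩)
    · refine Or.inr ⟨S.U_le t, ?_⟩
      have h1 : Real.exp (-(2.06 * s)) * om t ≤ S.e 0 * om t :=
        mul_le_mul_of_nonneg_right hS.e0 (Real.exp_pos _).le
      refine hbig.trans (le_trans ?_ h1)
      rw [om, ← Real.exp_add]
      refine Real.exp_le_exp.2 ?_
      have := hS.sT
      linarith
  refine comparison hsLp (c := pot 1 (S.e 0) S.U) hsol.continuous_left.continuousOn
    (fun t _ => (dw t).continuousAt.continuousWithinAt) (fun t _ => hsol.d1 t) (fun t _ => hsol.d2 t)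
    (fun t _ => dw t) (fun t _ => dw2 t) ?_ (fun t _ => le_rfl) ?_ ?_ ?_
  · intro t ht
    unfold pot
    have := mul_pos he0 (Real.exp_pos (2 * t))
    rcases hcase t ht with h | ⟨h, h'⟩
    · have : 0 < S.e 0 * om t := this
      norm_num
      linarith
    · norm_num
      linarith
  · intro t ht
    refine mul_le_mul_of_nonneg_right ?_ (hw0 t).le
    unfold pot
    rw [om_eq t]
    have hx0 : 0 < r * Real.exp t := by positivity
    set x := r * Real.exp t with hx
    have e1 : 1 / 2 * r * Real.exp t = 1 / 2 * x := by rw [hx]; ring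
    rw [e1]
    rcases hcase t ht with h | ⟨h, h'⟩
    · nlinarith [sq_nonneg (x - 0.3)]
    · rw [om_eq t, ← hx] at h'
      nlinarith [sq_nonneg (x - 1)]
  · simp
  · rw [S.φ_right 0 S.hN]
    exact (hw0 _).le

theorem int_small (hK : 0 < K₁) (hC₀ : 0 < C₀) {C₁ : ℝ} (hC₁ : 0 < C₁) : ∃ C > 0, ∃ R₀ ≥ C₀, ∀ R ≥ R₀, ∀ S : SD K₁ C₀ R, ∀ T z s,
    S.IsT T → S.IsZ z → S.IsS T z s →
      (∫ t in s..S.Lp, S.U1 t * Real.exp (2 * (t - s) + 2 * C₁ * Real.exp (t - T))) ≤ C * Real.exp (-(1.7 * s)) ∧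
        S.U1 s ≤ C * Real.exp (-(1.7 * s)) := by
  obtain ⟨cw, hcw, Cw, hCw, R₁, hR₁, hwt⟩ := weights hK hC₀
  obtain ⟨Cg, hCg, R₂, hR₂, hgr⟩ := ground_bound hK hC₀
  set K' : ℝ := max 1 (4 * Cw * Cg ^ 2) with hK'
  have hK'1 : 1 ≤ K' := le_max_left _ _
  have hK'2 : 4 * Cw * Cg ^ 2 ≤ K' := le_max_right _ _
  refine ⟨K' * Real.exp (2 * C₁) * 2, by positivity, max (max R₁ R₂) (5 * K₁ + 2 + 120 * C₁), ?_, ?_⟩
  · exact (hR₁.trans (le_max_left _ _)).trans (le_max_left _ _)
  intro R hR S T z s hT hZ hS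
  have hRR₁ : R₁ ≤ R := ((le_max_left _ _).trans (le_max_left _ _)).trans hR
  have hRR₂ : R₂ ≤ R := ((le_max_right _ _).trans (le_max_left _ _)).trans hR
  have hRbig : 5 * K₁ + 2 + 120 * C₁ ≤ R := (le_max_right _ _).trans hR
  have hRC₀ : C₀ ≤ R := hR₁.trans hRR₁
  have hRs : R < s := hZ.hR.trans hS.zs
  have hs0 : 0 < s := by linarith
  have hTR : R ≤ T := hT.hR
  have hTpos : 0 < T := by linarith
  have hsT : s ≤ T := by
    have := hS.sT
    linarith
  have hsLp : s ≤ S.Lp := hsT.trans hT.hLp.le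
  have hbig : 3 * K₁ + 1 ≤ Real.exp (0.74 * T) := by
    have h1 := Real.add_one_le_exp (0.74 * T)
    have h2 : T ≤ 0.74 * T + 1 + 0.26 * T := by linarith
    have h3 : 3 * K₁ + 1 ≤ 0.74 * T + 1 := by
      linarith
    linarith
  have hdec := SLb_decay hK hC₀ hRC₀ S hT (hRC₀.trans hRs.le) hS hbig
  have he0 : 0 < S.e 0 := S.e_pos 0 S.hN
  set r := Real.sqrt (S.e 0) with hr
  have hr0 : 0 < r := Real.sqrt_pos.2 he0
  have hr2 : r ^ 2 = S.e 0 := Real.sq_sqrt he0.le
  have hrs : Real.exp (-(1.03 * s)) ≤ r := by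
    rw [hr]
    refine Real.le_sqrt_of_sq_le ?_
    rw [← Real.exp_nat_mul]
    refine le_trans (le_of_eq ?_) hS.e0
    congr 1
    push_cast
    ring
  have hγ := S.hγ
  have hγ' := S.hγ'
  have hC := S.hC
  have hCpos : 0 < S.C := SCa_Cpos S
  have hφs0 : ∀ t ∈ Icc s S.Lp, 0 ≤ S.φ 0 t := by
    intro t ht
    rcases eq_or_lt_of_le ht.2 with h | h
    · rw [h, S.φ_right 0 S.hN]
    · exact (S.φ_pos t ⟨by linarith [S.hLm, ht.1], h⟩).le
  have hα0 : 0 < S.α 0 := S.α_pos 0 S.hN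
  have hγα : S.γ * S.α 0 ≤ Cw := by
    have h1 := (hwt R hRR₁ S).2
    have h2 : S.α 0 ≤ ∑ j ∈ Finset.range S.N, S.α j :=
      Finset.single_le_sum (f := S.α) (fun j hj => (S.α_pos j (Finset.mem_range.1 hj)).le)
        (Finset.mem_range.2 S.hN)
    exact (mul_le_mul_of_nonneg_left h2 hγ.le).trans h1
  have hφs : S.φ 0 s ≤ Cg * Real.exp (-(0.99 * s)) :=
    (hgr R hRR₂ S T hT hS.eT).1 s ⟨hs0.le, hsT⟩
  -- bound of `U1`
  have hU1 : ∀ t ∈ Icc s S.Lp, S.U1 t ≤
      K' * Real.exp (-(1.94 * s) - 1.76 * (t - s) - 0.99 * r * (Real.exp t - Real.exp s)) := by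
    intro t ht
    have ht0 : 0 ≤ t - s := by linarith [ht.1]
    have hee : 0 ≤ Real.exp t - Real.exp s := by
      have := Real.exp_le_exp.2 ht.1
      linarith
    have hre : 0 ≤ r * (Real.exp t - Real.exp s) := mul_nonneg hr0.le hee
    have h1 := hdec t ht
    set D := 0.9 * (t - s) + 1 / 2 * r * (Real.exp t - Real.exp s) with hD
    have h2 : S.φ 0 t ≤ Cg * Real.exp (-(0.99 * s)) * Real.exp (-D) :=
      h1.trans (mul_le_mul_of_nonneg_right hφs (Real.exp_pos _).le)
    have h3 : S.φ 0 t ^ 2 ≤ (Cg * Real.exp (-(0.99 * s)) * Real.exp (-D)) ^ 2 :=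
      pow_le_pow_left₀ (hφs0 t ht) h2 2
    have h4 : (Cg * Real.exp (-(0.99 * s)) * Real.exp (-D)) ^ 2 =
        Cg ^ 2 * Real.exp (-(1.98 * s) - 2 * D) := by
      rw [mul_assoc, ← Real.exp_add, mul_pow, ← Real.exp_nat_mul]
      congr 2
      push_cast
      ring
    rw [h4] at h3
    set Q := -(1.98 * s) - 2 * D + 2 * S.γ * t with hQ
    have hQle : Q ≤ -(1.96 * s) - 1.78 * (t - s) - r * (Real.exp t - Real.exp s) := by
      have : 2 * S.γ * t ≤ 0.02 * t := by
        have : 0 ≤ t := by linarith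
        nlinarith
      rw [hQ, hD]
      linarith
    have hQ0 : Q ≤ 0 := by linarith
    have hbase : S.γ * (S.α 0 * S.φ 0 t ^ 2) * Real.exp (2 * S.γ * t) / (S.C * (2 + S.γ)) ≤ K' * Real.exp Q := by
      have e1 : S.γ * (S.α 0 * S.φ 0 t ^ 2) * Real.exp (2 * S.γ * t) ≤
          Cw * (Cg ^ 2 * Real.exp (-(1.98 * s) - 2 * D)) * Real.exp (2 * S.γ * t) := by
        have : S.γ * (S.α 0 * S.φ 0 t ^ 2) = (S.γ * S.α 0) * S.φ 0 t ^ 2 := by ring
        rw [this]
        gcongr
      have e2 : Cw * (Cg ^ 2 * Real.exp (-(1.98 * s) - 2 * D)) * Real.exp (2 * S.γ * t) =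
          Cw * Cg ^ 2 * Real.exp Q := by
        rw [hQ, Real.exp_add]; ring
      rw [e2] at e1
      rw [div_le_iff₀ (by positivity)]
      have e3 : 1 / 4 ≤ S.C * (2 + S.γ) := by nlinarith
      have e4 : 0 < Real.exp Q := Real.exp_pos _
      calc _ ≤ Cw * Cg ^ 2 * Real.exp Q := e1
        _ = (4 * Cw * Cg ^ 2) * Real.exp Q * (1 / 4) := by ring
        _ ≤ K' * Real.exp Q * (S.C * (2 + S.γ)) := by gcongr
    have hbase0 : 0 ≤ S.γ * (S.α 0 * S.φ 0 t ^ 2) * Real.exp (2 * S.γ * t) / (S.C * (2 + S.γ)) := by positivity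
    have hp0 : 0 < 1 / (1 + S.γ) := by positivity
    have hp1 : 1 / (1 + S.γ) ≤ 1 := by
      rw [div_le_one (by linarith)]; linarith
    have hp2 : 0.99 ≤ 1 / (1 + S.γ) := by
      rw [le_div_iff₀ (by linarith)]; nlinarith
    calc S.U1 t = (S.γ * (S.α 0 * S.φ 0 t ^ 2) * Real.exp (2 * S.γ * t) / (S.C * (2 + S.γ))) ^ (1 / (1 + S.γ)) := rfl
      _ ≤ (K' * Real.exp Q) ^ (1 / (1 + S.γ)) := Real.rpow_le_rpow hbase0 hbase hp0.le
      _ = K' ^ (1 / (1 + S.γ)) * Real.exp (Q * (1 / (1 + S.γ))) := by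
          rw [Real.mul_rpow (by linarith) (Real.exp_pos _).le, ← Real.exp_mul]
      _ ≤ K' * Real.exp (-(1.94 * s) - 1.76 * (t - s) - 0.99 * r * (Real.exp t - Real.exp s)) := by
          have f1 : K' ^ (1 / (1 + S.γ)) ≤ K' := by
            have := Real.rpow_le_rpow_of_exponent_le hK'1 hp1
            rwa [Real.rpow_one] at this
          have f2 : Q * (1 / (1 + S.γ)) ≤ -(1.94 * s) - 1.76 * (t - s) - 0.99 * r * (Real.exp t - Real.exp s) := by
            have g1 : Q * (1 / (1 + S.γ)) ≤ Q * 0.99 := mul_le_mul_of_nonpos_left hp2 hQ0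
            have g2 : 0.99 * r * (Real.exp t - Real.exp s) = 0.99 * (r * (Real.exp t - Real.exp s)) := by ring
            rw [g2]
            linarith
          have f3 := Real.exp_le_exp.2 f2
          gcongr
  have hU1c : Continuous S.U1 := by
    have hsol := (S.sol 0 S.hN).continuous_left
    unfold SD.U1 SD.h
    refine Continuous.rpow_const (by fun_prop) fun x => Or.inr (by positivity)
  constructor
  · -- the integral
    set c := 0.94 * r with hc
    have hc0 : 0 < c := by positivity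
    set G : ℝ → ℝ := fun t => Real.exp (t - s) * Real.exp (-(c * (Real.exp t - Real.exp s))) with hG
    have hGc : Continuous G := by simp only [hG]; fun_prop
    have dF : ∀ t, HasDerivAt (fun t => -(1 / (c * Real.exp s)) * Real.exp (-(c * (Real.exp t - Real.exp s)))) (G t) t := by
      intro t
      have a2 : HasDerivAt (fun t : ℝ => Real.exp t - Real.exp s) (Real.exp t) t :=
        (Real.hasDerivAt_exp t).sub_const _
      refine ((a2.const_mul c).fun_neg.exp.const_mul (-(1 / (c * Real.exp s)))).congr_deriv ?_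
      simp only [hG]
      rw [Real.exp_sub]
      have := Real.exp_pos s
      field_simp
    have hGint : (∫ t in s..S.Lp, G t) ≤ 1 / (c * Real.exp s) := by
      rw [intervalIntegral.integral_eq_sub_of_hasDerivAt (fun t _ => dF t) (hGc.intervalIntegrable _ _)]
      have e1 : 0 ≤ 1 / (c * Real.exp s) * Real.exp (-(c * (Real.exp S.Lp - Real.exp s))) := by positivity
      have e2 : Real.exp (-(c * (Real.exp s - Real.exp s))) = 1 := by simp
      rw [e2]
      linarith
    have hpt : ∀ t ∈ Icc s S.Lp, S.U1 t * Real.exp (2 * (t - s) + 2 * C₁ * Real.exp (t - T)) ≤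
        K' * Real.exp (2 * C₁) * Real.exp (-(1.94 * s)) * G t := by
      intro t ht
      have h1 := hU1 t ht
      have ht0 : 0 ≤ t - s := by linarith [ht.1]
      have hee : 0 ≤ Real.exp t - Real.exp s := by
        have := Real.exp_le_exp.2 ht.1
        linarith
      have hkey : 2 * C₁ * Real.exp (t - T) ≤ 0.05 * r * (Real.exp t - Real.exp s) + 2 * C₁ := by
        have k1 : Real.exp (t - T) = Real.exp (-T) * Real.exp t := by rw [← Real.exp_add]; ring_nf
        have k2 : Real.exp (-T) * Real.exp s ≤ 1 := by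
          rw [← Real.exp_add, Real.exp_le_one_iff]; linarith
        have k3 : 2 * C₁ * Real.exp (-T) ≤ 0.05 * r := by
          have q1 : Real.exp (-(1.03 * s)) ≥ Real.exp (-(0.63 * T)) := by
            refine Real.exp_le_exp.2 ?_
            have := hS.sT
            linarith
          have q2 : 40 * C₁ ≤ Real.exp (0.37 * T) := by
            have h1 := Real.add_one_le_exp (0.37 * T)
            linarith
          have q3 : Real.exp (-(0.63 * T)) = Real.exp (0.37 * T) * Real.exp (-T) := by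
            rw [← Real.exp_add]; ring_nf
          have q4 : 40 * C₁ * Real.exp (-T) ≤ r := by
            calc 40 * C₁ * Real.exp (-T) ≤ Real.exp (0.37 * T) * Real.exp (-T) :=
                  mul_le_mul_of_nonneg_right q2 (Real.exp_pos _).le
              _ = Real.exp (-(0.63 * T)) := q3.symm
              _ ≤ r := q1.trans hrs
          linarith
        have k4 : 2 * C₁ * Real.exp (-T) * (Real.exp t - Real.exp s) ≤ 0.05 * r * (Real.exp t - Real.exp s) :=
          mul_le_mul_of_nonneg_right k3 hee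
        have k5 : 2 * C₁ * (Real.exp (-T) * Real.exp s) ≤ 2 * C₁ * 1 :=
          mul_le_mul_of_nonneg_left k2 (by linarith)
        rw [k1]
        linarith
      have hG' : G t = Real.exp ((t - s) - c * (Real.exp t - Real.exp s)) := by
        simp only [hG]
        rw [← Real.exp_add]
        congr 1
      calc S.U1 t * Real.exp (2 * (t - s) + 2 * C₁ * Real.exp (t - T))
          ≤ (K' * Real.exp (-(1.94 * s) - 1.76 * (t - s) - 0.99 * r * (Real.exp t - Real.exp s))) *
              Real.exp (2 * (t - s) + 2 * C₁ * Real.exp (t - T)) :=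
            mul_le_mul_of_nonneg_right h1 (Real.exp_pos _).le
        _ = K' * Real.exp ((-(1.94 * s) - 1.76 * (t - s) - 0.99 * r * (Real.exp t - Real.exp s)) +
              (2 * (t - s) + 2 * C₁ * Real.exp (t - T))) := by rw [mul_assoc, ← Real.exp_add]
        _ ≤ K' * Real.exp (2 * C₁ + -(1.94 * s) + ((t - s) - c * (Real.exp t - Real.exp s))) := by
            have : (-(1.94 * s) - 1.76 * (t - s) - 0.99 * r * (Real.exp t - Real.exp s)) +
              (2 * (t - s) + 2 * C₁ * Real.exp (t - T)) ≤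
              2 * C₁ + -(1.94 * s) + ((t - s) - c * (Real.exp t - Real.exp s)) := by
              rw [hc]; linarith
            have := Real.exp_le_exp.2 this
            gcongr
        _ = K' * Real.exp (2 * C₁) * Real.exp (-(1.94 * s)) * G t := by
            rw [hG', Real.exp_add, Real.exp_add]; ring
    have hmono : (∫ t in s..S.Lp, S.U1 t * Real.exp (2 * (t - s) + 2 * C₁ * Real.exp (t - T))) ≤
        ∫ t in s..S.Lp, K' * Real.exp (2 * C₁) * Real.exp (-(1.94 * s)) * G t := by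
      refine intervalIntegral.integral_mono_on hsLp (Continuous.intervalIntegrable ?_ _ _)
        (Continuous.intervalIntegrable ?_ _ _) hpt
      · fun_prop
      · fun_prop
    rw [intervalIntegral.integral_const_mul] at hmono
    refine hmono.trans ?_
    have e1 : K' * Real.exp (2 * C₁) * Real.exp (-(1.94 * s)) * (∫ t in s..S.Lp, G t) ≤
        K' * Real.exp (2 * C₁) * Real.exp (-(1.94 * s)) * (1 / (c * Real.exp s)) :=
      mul_le_mul_of_nonneg_left hGint (by positivity)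
    refine e1.trans ?_
    have e2 : 1 / (c * Real.exp s) ≤ 2 * Real.exp (0.03 * s) := by
      rw [div_le_iff₀ (by positivity)]
      have q1 : Real.exp (0.03 * s) * (Real.exp (-(1.03 * s)) * Real.exp s) = 1 := by
        rw [← Real.exp_add, ← Real.exp_add]
        ring_nf
        simp
      have q2 : Real.exp (0.03 * s) * (Real.exp (-(1.03 * s)) * Real.exp s) ≤
          Real.exp (0.03 * s) * (r * Real.exp s) := by gcongr
      rw [hc]
      nlinarith
    calc K' * Real.exp (2 * C₁) * Real.exp (-(1.94 * s)) * (1 / (c * Real.exp s))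
        ≤ K' * Real.exp (2 * C₁) * Real.exp (-(1.94 * s)) * (2 * Real.exp (0.03 * s)) := by gcongr
      _ = K' * Real.exp (2 * C₁) * 2 * Real.exp (-(1.94 * s) + 0.03 * s) := by rw [Real.exp_add]; ring
      _ ≤ K' * Real.exp (2 * C₁) * 2 * Real.exp (-(1.7 * s)) := by
          have : Real.exp (-(1.94 * s) + 0.03 * s) ≤ Real.exp (-(1.7 * s)) := Real.exp_le_exp.2 (by linarith)
          gcongr
  · have h1 := hU1 s ⟨le_rfl, hsLp⟩
    have h2 : Real.exp (-(1.94 * s) - 1.76 * (s - s) - 0.99 * r * (Real.exp s - Real.exp s)) ≤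
        Real.exp (-(1.7 * s)) := Real.exp_le_exp.2 (by simp only [sub_self, mul_zero, sub_zero]; linarith)
    have h3 : 1 ≤ Real.exp (2 * C₁) := Real.one_le_exp (by linarith)
    have h4 : 0 < Real.exp (-(1.7 * s)) := Real.exp_pos _
    have h5 : K' * 1 ≤ K' * (Real.exp (2 * C₁) * 2) := by
      refine mul_le_mul_of_nonneg_left ?_ (by linarith)
      linarith
    calc S.U1 s ≤ K' * Real.exp (-(1.94 * s) - 1.76 * (s - s) - 0.99 * r * (Real.exp s - Real.exp s)) := h1
      _ ≤ K' * Real.exp (-(1.7 * s)) := by gcongr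
      _ ≤ K' * Real.exp (2 * C₁) * 2 * Real.exp (-(1.7 * s)) := by
          refine mul_le_mul_of_nonneg_right ?_ h4.le
          rw [mul_assoc]
          linarith

end Pool.Agent.RLT40
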