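import Pool.Agent.RLT40.SCdefs

/-!
# Module SM (paper 5.8 (J1)): the competitor beyond `s` has at least the excited energies.

`Ut x = h_x(ρ_>(x))` on `(s, Lp)`, `0` elsewhere.  Fix `1 ≤ j < N`.  Let `V` be continuous on `ℝ` with `V = h(ρ_>)` on `[s,Lp]` (constant extension).  `ph` solves `pot 1 (e j) V`, `ph(s) = 1`, `ph'(s) = 2`.
`W = ph·(-φ_j)' - ph'·(-φ_j)`, `W(s) ≥ 0.8|φ_j'(s)|`, `W' = (V - U) ph·(-φ_j)`... with `|U - V| ≤ U1` (subadditivity of `h`), growth_s for both and int_small: `∫_s^{Lp} |W'| ≤ C e^{-1.7s}|φ_j'(s)| < 0.8|φ_j'(s)|`: `W > 0` on `[s,Lp]`.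
`φ_j` has `≥ j - 1` zeros in `(s, Lp)` (nodes: `≥ j` interior zeros, exactly one is `≤ s` by IsS.zeros and IsFirst), plus `Lp`: `y_1 < ... < y_j = Lp` consecutive zeros; at each `ph(y_i)(-φ_j)'(y_i) > 0`, so the sign of `ph` alternates, starting with `ph(s) = 1 > 0`,
`(-φ_j)'(y_1) < 0`: `ph` has `≥ j` zeros in `(s, Lp]`.  le_nneg_glued (potential `pot 1 τ Ut < pot 1 (e j) V` on `(s,Lp)` for `τ < e j`, `≤ 2` on `(s-1,s)`).
G_excited: `Gf ≥ ∫ γτ^{γ-1} nneg(pot 1 τ Ut) ≥ Σ_{1≤j<N} e_j^γ`.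
-/

open MeasureTheory Set
open scoped ENNReal NNReal

namespace Pool.Agent.RLT40

variable {K₁ C₀ : ℝ}

/-- the competitor -/
noncomputable def SD.Ut {R : ℝ} (S : SD K₁ C₀ R) (s : ℝ) : ℝ → ℝ := (Ioo s S.Lp).indicator fun x => S.h x (S.rhog x)

end Pool.Agent.RLT40
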