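import Pool.Agent.RLT40.Nodal
import Pool.Agent.RLT40.SCb
import Pool.Agent.RLT40.SLa
import Pool.Agent.RLT40.SLb
import Pool.Agent.RLT40.SMdefs

/-!
# Module SM (paper 5.8 (J1)): the competitor beyond `s` has at least the excited energies.

`Ut x = h_x(ρ_>(x))` on `(s, Lp)`, `0` elsewhere.  Fix `1 ≤ j < N`.  Let `V` be continuous on `ℝ` with `V = h(ρ_>)` on `[s,Lp]` (constant extension).  `ph` solves `pot 1 (e j) V`, `ph(s) = 1`, `ph'(s) = 2`.
`W = ph·(-φ_j)' - ph'·(-φ_j)`, `W(s) ≥ 0.8|φ_j'(s)|`, `W' = (V - U) ph·(-φ_j)`... with `|U - V| ≤ U1` (subadditivity of `h`), growth_s for both and int_small: `∫_s^{Lp} |W'| ≤ C e^{-1.7s}|φ_j'(s)| < 0.8|φ_j'(s)|`: `W > 0` on `[s,Lp]`.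
`φ_j` has `≥ j - 1` zeros in `(s, Lp)` (nodes: `≥ j` interior zeros, exactly one is `≤ s` by IsS.zeros and IsFirst), plus `Lp`: `y_1 < ... < y_j = Lp` consecutive zeros; at each `ph(y_i)(-φ_j)'(y_i) > 0`, so the sign of `ph` alternates, starting with `ph(s) = 1 > 0`,
`(-φ_j)'(y_1) < 0`: `ph` has `≥ j` zeros in `(s, Lp]`.  le_nneg_glued (potential `pot 1 τ Ut < pot 1 (e j) V` on `(s,Lp)` for `τ < e j`, `≤ 2` on `(s-1,s)`).
G_excited: `Gf ≥ ∫ γτ^{γ-1} nneg(pot 1 τ Ut) ≥ Σ_{1≤j<N} e_j^γ`.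
-/

open MeasureTheory Set
open scoped ENNReal NNReal

namespace Pool.Agent.RLT40

variable {K₁ C₀ : ℝ}

theorem SMa_h_cont {R : ℝ} (S : SD K₁ C₀ R) {ρ : ℝ → ℝ} (hρ : Continuous ρ) : Continuous fun x => S.h x (ρ x) := by
  unfold SD.h
  have h1 : (0 : ℝ) ≤ 1 / (1 + S.γ) := by
    have := S.hγ
    positivity
  apply Continuous.rpow_const _ (fun x => Or.inr h1)
  fun_prop

theorem SMa_rhog_cont {R : ℝ} (S : SD K₁ C₀ R) : Continuous S.rhog := by
  unfold SD.rhog
  apply continuous_finsetSum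
  intro j hj
  have hjN : j < S.N := (Finset.mem_Ico.1 hj).2
  have := (S.sol j hjN).continuous_left
  fun_prop

theorem SMa_rho0_cont {R : ℝ} (S : SD K₁ C₀ R) : Continuous fun t => S.α 0 * S.φ 0 t ^ 2 := by
  have := (S.sol 0 S.hN).continuous_left
  fun_prop

theorem SMa_rhog_nonneg {R : ℝ} (S : SD K₁ C₀ R) (x : ℝ) : 0 ≤ S.rhog x := by
  unfold SD.rhog
  apply Finset.sum_nonneg
  intro j hj
  have hjN : j < S.N := (Finset.mem_Ico.1 hj).2
  have := S.α_pos j hjN
  positivity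

theorem SMa_rho0_nonneg {R : ℝ} (S : SD K₁ C₀ R) (x : ℝ) : 0 ≤ S.α 0 * S.φ 0 x ^ 2 := by
  have := S.α_pos 0 S.hN
  positivity

theorem SMa_rho_split {R : ℝ} (S : SD K₁ C₀ R) (x : ℝ) :
    ∑ j ∈ Finset.range S.N, S.α j * S.φ j x ^ 2 = S.α 0 * S.φ 0 x ^ 2 + S.rhog x := by
  unfold SD.rhog
  rw [Finset.range_eq_Ico, Finset.sum_eq_sum_Ico_succ_bot S.hN]

theorem Ut_adm {R : ℝ} (S : SD K₁ C₀ R) (hR : 0 < R) {s : ℝ} (hs : s ∈ Ioo (-S.Lm) S.Lp) : Adm1 S.γ (-S.Lm) S.Lp (S.Ut s) := by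
  have hc := SMa_h_cont S (SMa_rhog_cont S)
  constructor
  · intro x
    unfold SD.Ut
    apply Set.indicator_nonneg
    intro y _
    exact (S.h_props y (SMa_rhog_nonneg S y) le_rfl).1
  · obtain ⟨M, hM⟩ := (isCompact_Icc (a := s) (b := S.Lp)).exists_bound_of_continuousOn hc.continuousOn
    have hMm : Measurable (S.Ut s) := by
      unfold SD.Ut
      exact hc.measurable.indicator measurableSet_Ioo
    apply MemLp.of_bound hMm.aestronglyMeasurable (max M 0)
    apply Filter.Eventually.of_forall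
    intro x
    unfold SD.Ut
    by_cases hx : x ∈ Ioo s S.Lp
    · rw [Set.indicator_of_mem hx]
      exact (hM x ⟨hx.1.le, hx.2.le⟩).trans (le_max_left _ _)
    · rw [Set.indicator_of_notMem hx]
      simp

/-- a Sturm type lemma: first zero -/
theorem SMa_first {F G : ℝ → ℝ} {a b : ℝ} (hab : a < b) (hF : ∀ x, HasDerivAt F (G x) x)
    (hFa : 0 ≤ F a) (hGa : 0 < G a) (hFb : F b = 0) :
    ∃ c₁ ∈ Ioc a b, F c₁ = 0 ∧ G c₁ ≤ 0 := by
  have hFc : Continuous F := continuous_iff_continuousAt.2 fun x => (hF x).continuousAt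
  -- F is positive right after a
  have hpos : ∃ δ > 0, ∀ x, a < x → x < a + δ → 0 < F x := by
    have h1 : ∀ᶠ x in nhdsWithin a (Ioi a), 0 < slope F a x := by
      have := (hasDerivWithinAt_iff_tendsto_slope' (s := Ioi a) (by simp)).1 (hF a).hasDerivWithinAt
      exact this.eventually (lt_mem_nhds hGa)
    obtain ⟨δ, hδ, h2⟩ := (mem_nhdsGT_iff_exists_Ioo_subset' (lt_add_one a)).1 h1
    have hδ' : a < δ := hδ
    refine ⟨δ - a, by linarith, fun x hx hx' => ?_⟩
    have h3 : 0 < slope F a x := h2 ⟨hx, by linarith⟩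
    rw [slope_def_field] at h3
    have h4 : 0 < x - a := by linarith
    have h5 : 0 < F x - F a := by
      by_contra hcon
      have : (F x - F a) / (x - a) ≤ 0 := div_nonpos_of_nonpos_of_nonneg (not_lt.1 hcon) h4.le
      linarith
    linarith
  obtain ⟨δ, hδ, hpos⟩ := hpos
  -- the first zero c₁ of F in (a, b]
  set Z : Set ℝ := {x | x ∈ Icc (a + δ / 2) b ∧ F x = 0} with hZ
  have haδ : a + δ / 2 ≤ b := by
    by_contra hcon
    push Not at hcon
    have := hpos b hab (by linarith)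
    linarith
  have hZne : Z.Nonempty := ⟨b, ⟨haδ, le_rfl⟩, hFb⟩
  have hZc : IsCompact Z := by
    have : Z = Icc (a + δ / 2) b ∩ F ⁻¹' {0} := by
      ext x; simp [hZ]
    rw [this]
    exact isCompact_Icc.inter_right (isClosed_singleton.preimage hFc)
  obtain ⟨c₁, hc₁⟩ := hZc.exists_isLeast hZne
  have hc₁Z : c₁ ∈ Z := hc₁.1
  have hac : a < c₁ := by linarith [hc₁Z.1.1]
  have hcb : c₁ ≤ b := hc₁Z.1.2
  have hne : ∀ x, a < x → x < c₁ → F x ≠ 0 := by
    intro x hx hx' h0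
    rcases lt_or_ge x (a + δ / 2) with h | h
    · have := hpos x hx (by linarith)
      linarith
    · have := hc₁.2 (show x ∈ Z from ⟨⟨h, by linarith⟩, h0⟩)
      linarith
  have hposc : ∀ x, a < x → x < c₁ → 0 < F x := by
    intro x hx hx'
    by_contra hcon
    push Not at hcon
    -- a point x0 close to a with F x0 > 0, x0 < x
    set x0 := min ((a + x) / 2) (a + δ / 2) with hx0
    have h1 : a < x0 := by
      rw [hx0]
      apply lt_min <;> linarith
    have h2 : x0 < x := lt_of_le_of_lt (min_le_left _ _) (by linarith)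
    have h3 : 0 < F x0 := hpos x0 h1 (lt_of_le_of_lt (min_le_right _ _) (by linarith))
    obtain ⟨y, hy, hy0⟩ := intermediate_value_Icc' h2.le hFc.continuousOn (show (0 : ℝ) ∈ Icc (F x) (F x0) from ⟨hcon, h3.le⟩)
    exact hne y (lt_of_lt_of_le h1 hy.1) (lt_of_le_of_lt hy.2 hx') hy0
  -- G c₁ ≤ 0
  have hG : G c₁ ≤ 0 := by
    have h1 := (hasDerivWithinAt_iff_tendsto_slope' (s := Iio c₁) (by simp)).1 (hF c₁).hasDerivWithinAt
    apply le_of_tendsto h1
    have h2 : Ioo a c₁ ∈ nhdsWithin c₁ (Iio c₁) := Ioo_mem_nhdsLT hac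
    filter_upwards [h2] with x hx
    rw [slope_def_field, hc₁Z.2]
    apply div_nonpos_of_nonneg_of_nonpos
    · have := hposc x hx.1 hx.2
      linarith
    · linarith [hx.2]
  exact ⟨c₁, ⟨hac, hcb⟩, hc₁Z.2, hG⟩

theorem SMa_zero {F G ph dph : ℝ → ℝ} {a b : ℝ} (hab : a < b) (hF : ∀ x, HasDerivAt F (G x) x)
    (hph : Continuous ph) (hFa : 0 ≤ F a) (hGa : 0 < G a) (hpa : 0 < ph a) (hFb : F b = 0)
    (hW : ∀ x ∈ Icc a b, 0 < ph x * G x - dph x * F x) : ∃ c ∈ Ioo a b, ph c = 0 := by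
  obtain ⟨c₁, ⟨hac, hcb⟩, hc₁Z, hG⟩ := SMa_first hab hF hFa hGa hFb
  have hWc := hW c₁ ⟨hac.le, hcb⟩
  rw [hc₁Z, mul_zero, sub_zero] at hWc
  have hp : ph c₁ < 0 := by
    by_contra hcon
    push Not at hcon
    have := mul_nonpos_of_nonneg_of_nonpos hcon hG
    linarith
  obtain ⟨c, hc, hc0⟩ := intermediate_value_Icc' hac.le hph.continuousOn (show (0 : ℝ) ∈ Icc (ph c₁) (ph a) from ⟨hp.le, hpa.le⟩)
  refine ⟨c, ⟨?_, ?_⟩, hc0⟩
  · rcases eq_or_lt_of_le hc.1 with h | h
    · rw [← h] at hc0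
      linarith
    · exact h
  · rcases eq_or_lt_of_le hc.2 with h | h
    · rw [h] at hc0
      linarith
    · exact lt_of_lt_of_le h hcb

/-- between two zeros of `F` -/
theorem SMa_zero' {F G ph dph : ℝ → ℝ} {a b : ℝ} (hab : a < b) (hF : ∀ x, HasDerivAt F (G x) x)
    (hph : Continuous ph) (hFa : F a = 0) (hFb : F b = 0)
    (hW : ∀ x ∈ Icc a b, 0 < ph x * G x - dph x * F x) : ∃ c ∈ Ioo a b, ph c = 0 := by
  have h0 := hW a ⟨le_rfl, hab.le⟩
  rw [hFa, mul_zero, sub_zero] at h0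
  rcases lt_or_ge 0 (G a) with hG | hG
  · have hp : 0 < ph a := by
      by_contra hcon
      push Not at hcon
      have := mul_nonpos_of_nonpos_of_nonneg hcon hG.le
      linarith
    exact SMa_zero hab hF hph hFa.ge hG hp hFb hW
  · have hG' : G a < 0 := by
      rcases eq_or_lt_of_le hG with h | h
      · rw [h] at h0
        simp at h0
      · exact h
    have hp : ph a < 0 := by
      by_contra hcon
      push Not at hcon
      have := mul_nonpos_of_nonneg_of_nonpos hcon hG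
      linarith
    obtain ⟨c, hc, hc0⟩ := SMa_zero (F := fun x => -F x) (G := fun x => -G x) (ph := fun x => -ph x) (dph := fun x => -dph x)
      hab (fun x => (hF x).neg) hph.neg (by simp [hFa]) (by simpa using hG') (by simpa using hp) (by simp [hFb])
      (fun x hx => by have := hW x hx; simpa using this)
    exact ⟨c, hc, by simpa using hc0⟩

theorem SMa_exp_small {A c x : ℝ} (hA : 0 < A) (hc : 1 / 2 ≤ c) (hx : 4 * A ≤ x) : A * Real.exp (-(c * x)) ≤ 1 / 2 := by
  have hx0 : 0 < x := by linarith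
  have h1 : c * x + 1 ≤ Real.exp (c * x) := Real.add_one_le_exp _
  have h2 : 2 * A ≤ c * x := by nlinarith
  have h3 : 2 * A ≤ Real.exp (c * x) := by linarith
  rw [Real.exp_neg]
  have h4 : 0 < Real.exp (c * x) := Real.exp_pos _
  rw [← div_eq_mul_inv, div_le_iff₀ h4]
  linarith

theorem J1 (hK : 0 < K₁) (hC₀ : 0 < C₀) : ∃ R₀ ≥ C₀, ∀ R ≥ R₀, ∀ S : SD K₁ C₀ R, ∀ T z s, S.IsT T → S.IsZ z → S.IsS T z s →
    ∀ j, 1 ≤ j → j < S.N → ∀ τ, 0 ≤ τ → τ < S.e j → (j : ℕ∞) ≤ nneg (-S.Lm) S.Lp (pot 1 τ (S.Ut s)) := by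
  obtain ⟨C₁, hC₁, R₁, hR₁, hgr⟩ := growth_s (K₁ := K₁) (C₀ := C₀) hK hC₀
  obtain ⟨C, hC, R₂, hR₂, hint⟩ := int_small (K₁ := K₁) (C₀ := C₀) hK hC₀ hC₁
  set A : ℝ := 4 * C₁ ^ 2 * C with hA
  have hApos : 0 < A := by positivity
  refine ⟨max (max R₁ R₂) (max 1 (4 * A + 4 * K₁)), le_max_of_le_left (le_max_of_le_left hR₁), ?_⟩
  intro R hR S T z s hT hz hs j hj hjN τ hτ hτe
  have hRR₁ : R₁ ≤ R := le_trans (le_trans (le_max_left _ _) (le_max_left _ _)) hR
  have hRR₂ : R₂ ≤ R := le_trans (le_trans (le_max_right _ _) (le_max_left _ _)) hR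
  have hR1 : 1 ≤ R := le_trans (le_trans (le_max_left _ _) (le_max_right _ _)) hR
  have hRA : 4 * A + 4 * K₁ ≤ R := le_trans (le_trans (le_max_right _ _) (le_max_right _ _)) hR
  have hC₀R : C₀ ≤ R := le_trans hR₁ hRR₁
  have hRs : R < s := lt_trans hz.hR hs.zs
  have hRT : R ≤ T := hT.hR
  have hT0 : 0 < T := by linarith
  have hsT : s ≤ T := by
    have := hs.sT
    linarith
  have hsLp : s < S.Lp := lt_of_le_of_lt hsT hT.hLp
  have hLm : R ≤ S.Lm := S.hLm
  have hejT : S.e j * om T ≤ K₁ := hs.ej j hj hjN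
  have he : 0 < S.e j := S.e_pos j hjN
  -- the potential V
  set cl : ℝ → ℝ := fun x => max s (min x S.Lp) with hcl
  have hclc : Continuous cl := by fun_prop
  have hcl_mem : ∀ x ∈ Icc s S.Lp, cl x = x := by
    intro x hx
    simp only [hcl]
    rw [min_eq_left hx.2, max_eq_right hx.1]
  set V : ℝ → ℝ := fun x => S.h (cl x) (S.rhog (cl x)) with hV
  have hVc : Continuous V := (SMa_h_cont S (SMa_rhog_cont S)).comp hclc
  have hVeq : ∀ x ∈ Icc s S.Lp, V x = S.h x (S.rhog x) := by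
    intro x hx
    simp only [hV]
    rw [hcl_mem x hx]
  have hUeq : ∀ x ∈ Icc s S.Lp, S.U x = S.h x (S.α 0 * S.φ 0 x ^ 2 + S.rhog x) := by
    intro x hx
    rw [S.U_eq_h (t := x) ⟨by linarith [hx.1], hx.2⟩, SMa_rho_split]
  have hV0 : ∀ x ∈ Icc s S.Lp, 0 ≤ V x ∧ V x ≤ S.U x := by
    intro x hx
    rw [hVeq x hx, hUeq x hx]
    have h1 := S.h_props x (SMa_rhog_nonneg S x) (add_nonneg (SMa_rho0_nonneg S x) (SMa_rhog_nonneg S x))
    exact ⟨h1.1, h1.2.1 (by linarith [SMa_rho0_nonneg S x])⟩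
  have hVU : ∀ x ∈ Icc s S.Lp, S.U x - V x ≤ S.U1 x := by
    intro x hx
    rw [hVeq x hx, hUeq x hx]
    have h1 := (S.h_props x (SMa_rho0_nonneg S x) (SMa_rhog_nonneg S x)).2.2.1
    unfold SD.U1
    linarith
  -- the solutions
  have hpotc : Continuous (pot 1 (S.e j) V) := by
    unfold pot om
    fun_prop
  obtain ⟨ph, dph, hsol, hph0, hph1⟩ := exists_sol hpotc s 1 2
  set F : ℝ → ℝ := fun x => -S.φ j x with hF
  set G : ℝ → ℝ := fun x => -S.dφ j x with hG
  have hsolj := S.sol j hjN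
  have hsolF : Sol (pot 1 (S.e j) S.U) F G := by
    refine ⟨fun x => (hsolj.d1 x).neg, fun x => ?_⟩
    have := (hsolj.d2 x).neg
    simp only [hF, hG]
    rw [mul_neg]
    exact this
  obtain ⟨hsl1, hsl2, hsl3, hsl4⟩ := hs.slope j hj hjN
  have hGs : 0 < G s := by simp only [hG]; linarith
  have hFs : 0 ≤ F s := by simp only [hF]; linarith
  have hFs' : F s ≤ 1 / 10 * G s := by
    simp only [hF, hG]
    rw [abs_of_nonpos hsl2, abs_of_neg hsl1] at hsl3
    exact hsl3
  set g : ℝ → ℝ := fun t => S.U1 t * Real.exp (2 * (t - s) + 2 * C₁ * Real.exp (t - T)) with hg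
  have hU1c : Continuous S.U1 := by
    unfold SD.U1
    exact SMa_h_cont S (SMa_rho0_cont S)
  have hU1n : ∀ t, 0 ≤ S.U1 t := fun t => (S.h_props t (SMa_rho0_nonneg S t) le_rfl).1
  have hgc : Continuous g := by fun_prop
  have hg0 : ∀ t, 0 ≤ g t := fun t => mul_nonneg (hU1n t) (Real.exp_pos _).le
  have hgr1 := hgr R hRR₁ S T hT s (by linarith) hsT (S.e j) he.le hejT V hVc hV0 ph dph hsol
  have hgr2 := hgr R hRR₁ S T hT s (by linarith) hsT (S.e j) he.le hejT S.U S.cU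
    (fun x hx => ⟨?_, le_rfl⟩) F G hsolF
  swap
  · rw [hUeq x hx]
    exact (S.h_props x (add_nonneg (SMa_rho0_nonneg S x) (SMa_rhog_nonneg S x)) le_rfl).1
  have hWd : ∀ x, HasDerivAt (fun x => ph x * G x - dph x * F x)
      ((pot 1 (S.e j) S.U x - pot 1 (S.e j) V x) * (ph x * F x)) x := fun x => wronskian_hasDerivAt hsol hsolF x
  have hphc := hsol.continuous_left
  have hFc := hsolF.continuous_left
  have hpotUc : Continuous (pot 1 (S.e j) S.U) := by
    have := S.cU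
    unfold pot om
    fun_prop
  have hWpos : ∀ x ∈ Icc s S.Lp, 0 < ph x * G x - dph x * F x := by
    intro x hx
    have h1 : ∫ t in s..x, (pot 1 (S.e j) S.U t - pot 1 (S.e j) V t) * (ph t * F t)
        = (ph x * G x - dph x * F x) - (ph s * G s - dph s * F s) := by
      apply intervalIntegral.integral_eq_sub_of_hasDerivAt (fun t _ => hWd t)
      apply Continuous.intervalIntegrable
      fun_prop
    have h2 : |∫ t in s..x, (pot 1 (S.e j) S.U t - pot 1 (S.e j) V t) * (ph t * F t)|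
        ≤ ∫ t in s..x, 4 * C₁ ^ 2 * G s * g t := by
      rw [← Real.norm_eq_abs]
      apply intervalIntegral.norm_integral_le_of_norm_le hx.1
      · apply Filter.Eventually.of_forall
        intro t ht
        have htI : t ∈ Icc s S.Lp := ⟨ht.1.le, le_trans ht.2 hx.2⟩
        have e1 : pot 1 (S.e j) S.U t - pot 1 (S.e j) V t = -(S.U t - V t) := by
          unfold pot; ring
        rw [e1, Real.norm_eq_abs, abs_mul, abs_neg, abs_mul,
          abs_of_nonneg (show 0 ≤ S.U t - V t by linarith [(hV0 t htI).2])]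
        have b1 := hgr1 t htI
        have b2 := hgr2 t htI
        rw [hph0, hph1] at b1
        have b1' : |ph t| ≤ 3 * C₁ * Real.exp (t - s + C₁ * Real.exp (t - T)) := by
          have := abs_nonneg (dph t)
          norm_num at b1
          linarith
        have b2' : |F t| ≤ 11 / 10 * C₁ * G s * Real.exp (t - s + C₁ * Real.exp (t - T)) := by
          have h3 := abs_nonneg (G t)
          rw [abs_of_nonneg hFs, abs_of_pos hGs] at b2
          have h4 : C₁ * (F s + G s) * Real.exp (t - s + C₁ * Real.exp (t - T))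
              ≤ C₁ * (11 / 10 * G s) * Real.exp (t - s + C₁ * Real.exp (t - T)) := by
            apply mul_le_mul_of_nonneg_right _ (Real.exp_pos _).le
            apply mul_le_mul_of_nonneg_left _ hC₁.le
            linarith
          nlinarith
        have b3 : (S.U t - V t) ≤ S.U1 t := hVU t htI
        have e2 : Real.exp (2 * (t - s) + 2 * C₁ * Real.exp (t - T))
            = Real.exp (t - s + C₁ * Real.exp (t - T)) * Real.exp (t - s + C₁ * Real.exp (t - T)) := by
          rw [← Real.exp_add]; congr 1; ring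
        simp only [hg]
        rw [e2]
        set X := Real.exp (t - s + C₁ * Real.exp (t - T)) with hX
        have hX0 : 0 < X := Real.exp_pos _
        have b4 : |ph t| * |F t| ≤ (3 * C₁ * X) * (11 / 10 * C₁ * G s * X) :=
          mul_le_mul b1' b2' (abs_nonneg _) (by positivity)
        have b5 : (S.U t - V t) * (|ph t| * |F t|) ≤ S.U1 t * ((3 * C₁ * X) * (11 / 10 * C₁ * G s * X)) :=
          mul_le_mul b3 b4 (by positivity) (hU1n t)
        refine b5.trans ?_
        have b6 : 0 ≤ S.U1 t * (C₁ ^ 2 * G s * (X * X)) := by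
          have := hU1n t
          positivity
        nlinarith
      · apply Continuous.intervalIntegrable
        fun_prop
    have h3 : ∫ t in s..x, 4 * C₁ ^ 2 * G s * g t ≤ 4 * C₁ ^ 2 * G s * (C * Real.exp (-(1.7 * s))) := by
      rw [intervalIntegral.integral_const_mul]
      apply mul_le_mul_of_nonneg_left _ (by positivity)
      have h4 := (hint R hRR₂ S T z s hT hz hs).1
      refine le_trans ?_ h4
      apply intervalIntegral.integral_mono_interval le_rfl hx.1 hx.2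
      · exact Filter.Eventually.of_forall hg0
      · exact hgc.intervalIntegrable _ _
    have h5 : 4 * C₁ ^ 2 * G s * (C * Real.exp (-(1.7 * s))) ≤ 1 / 2 * G s := by
      have h6 : A * Real.exp (-(1.7 * s)) ≤ 1 / 2 := SMa_exp_small hApos (by norm_num) (by linarith)
      have e3 : 4 * C₁ ^ 2 * G s * (C * Real.exp (-(1.7 * s))) = A * Real.exp (-(1.7 * s)) * G s := by
        rw [hA]; ring
      rw [e3]
      exact mul_le_mul_of_nonneg_right h6 hGs.le
    have h7 := abs_le.1 (h2.trans (h3.trans h5))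
    rw [h1] at h7
    have h8 := h7.1
    rw [hph0, hph1] at h8
    linarith
  -- zeros of φ j
  have hne : ∃ x, S.φ j x ≠ 0 := ⟨0, by rw [S.φ_zero j hjN]; norm_num⟩
  have hUpotc : Continuous (pot 1 (S.e j) S.U) := hpotUc
  obtain ⟨zj, hzj, hzjs, hzjne⟩ := hs.zeros j hj hjN
  have honly : ∀ x ∈ Ioc (-S.Lm) s, ∀ y ∈ Ioc (-S.Lm) s, S.φ j x = 0 → S.φ j y = 0 → ¬ x < y := by
    intro x hx y hy hx0 hy0 hxy
    have hxs : x < s := lt_of_lt_of_le hxy hy.2
    have hxz : x = zj := by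
      rcases lt_trichotomy x zj with h | h | h
      · have := hzj.pos x ⟨hx.1, h⟩
        linarith
      · exact h
      · exact absurd hx0 (hzjne x ⟨h, hxs⟩)
    have hys : y = s := by
      rcases lt_or_eq_of_le hy.2 with h | h
      · exact absurd hy0 (hzjne y ⟨by linarith, h⟩)
      · exact h
    rw [hxz] at hx hx0 hxs
    rw [hys] at hy0
    have hd : S.dφ j zj ≠ 0 := hsolj.deriv_ne_zero hUpotc hne hx0
    have hd1 : S.dφ j zj ≤ 0 := by
      have h1 := (hasDerivWithinAt_iff_tendsto_slope' (s := Iio zj) (by simp)).1 (hsolj.d1 zj).hasDerivWithinAt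
      apply le_of_tendsto h1
      have h2 : Ioo (-S.Lm) zj ∈ nhdsWithin zj (Iio zj) := Ioo_mem_nhdsLT hx.1
      filter_upwards [h2] with w hw
      rw [slope_def_field, hx0]
      apply div_nonpos_of_nonneg_of_nonpos
      · have := hzj.pos w hw
        linarith
      · linarith [hw.2]
    have hd2 : S.dφ j zj < 0 := lt_of_le_of_ne hd1 hd
    obtain ⟨c₁, hc₁, hc₁0, hc₁G⟩ := SMa_first (F := F) (G := G) hxs hsolF.d1 (by simp only [hF]; linarith)
      (by simp only [hG]; linarith) (by simp only [hF]; linarith)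
    rcases lt_or_eq_of_le hc₁.2 with h | h
    · exact hzjne c₁ ⟨hc₁.1, h⟩ (by simp only [hF] at hc₁0; linarith)
    · rw [h] at hc₁G
      linarith
  obtain ⟨Z, hZcard, hZ⟩ := S.nodes j hjN
  set Z₁ := Z.filter (fun x => s < x) with hZ₁
  set Z₂ := Z.filter (fun x => ¬ s < x) with hZ₂
  have hcard : Z₁.card + Z₂.card = j := by
    rw [← hZcard]
    exact Finset.card_filter_add_card_filter_not _
  have hZ₂1 : Z₂.card ≤ 1 := by
    rw [Finset.card_le_one]
    intro x hx y hy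
    rw [hZ₂, Finset.mem_filter] at hx hy
    obtain ⟨hx1, hx2⟩ := hZ x hx.1
    obtain ⟨hy1, hy2⟩ := hZ y hy.1
    have hxm : x ∈ Ioc (-S.Lm) s := ⟨hx1.1, not_lt.1 hx.2⟩
    have hym : y ∈ Ioc (-S.Lm) s := ⟨hy1.1, not_lt.1 hy.2⟩
    rcases lt_trichotomy x y with h | h | h
    · exact absurd h (honly x hxm y hym hx2 hy2)
    · exact h
    · exact absurd h (honly y hym x hxm hy2 hx2)
  have hLpn : S.Lp ∉ Z₁ := by
    intro h
    rw [hZ₁, Finset.mem_filter] at h
    have := (hZ _ h.1).1.2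
    linarith
  set Z₃ := insert S.Lp Z₁ with hZ₃
  have hZ₃card : j ≤ Z₃.card := by
    rw [hZ₃, Finset.card_insert_of_notMem hLpn]
    omega
  have hZ₃m : ∀ x ∈ Z₃, x ∈ Ioc s S.Lp ∧ F x = 0 := by
    intro x hx
    rw [hZ₃, Finset.mem_insert] at hx
    rcases hx with h | h
    · rw [h]
      refine ⟨⟨hsLp, le_rfl⟩, ?_⟩
      simp only [hF]
      rw [S.φ_right j hjN, neg_zero]
    · rw [hZ₁, Finset.mem_filter] at h
      obtain ⟨h1, h2⟩ := hZ x h.1
      refine ⟨⟨h.2, h1.2.le⟩, ?_⟩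
      simp only [hF]
      rw [h2, neg_zero]
  obtain ⟨Z₄, hZ₄sub, hZ₄card⟩ := Finset.exists_subset_card_eq hZ₃card
  set y : Fin j → ℝ := fun i => Z₄.orderEmbOfFin hZ₄card i with hy
  have hymono : StrictMono y := (Z₄.orderEmbOfFin hZ₄card).strictMono
  have hym : ∀ i, y i ∈ Ioc s S.Lp ∧ F (y i) = 0 := fun i =>
    hZ₃m _ (hZ₄sub (Finset.orderEmbOfFin_mem _ _ i))
  -- zeros of ph
  have hzer : ∀ i : ℕ, ∃ c : ℝ, i < j → (∀ h : i < j, c < y ⟨i, h⟩) ∧ s < c ∧ ph c = 0 ∧
      ∀ h : i < j, ∀ i' : Fin j, (i' : ℕ) < i → y i' < c := by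
    intro i
    by_cases hi : i < j
    swap
    · exact ⟨0, fun h => absurd h hi⟩
    rcases Nat.eq_zero_or_pos i with h0 | h0
    · subst h0
      obtain ⟨c, hc, hc0⟩ := SMa_zero (F := F) (G := G) (ph := ph) (dph := dph) (hym ⟨0, hi⟩).1.1 hsolF.d1 hphc hFs hGs
        (by rw [hph0]; norm_num) (hym ⟨0, hi⟩).2 (fun x hx => hWpos x ⟨hx.1, hx.2.trans (hym ⟨0, hi⟩).1.2⟩)
      exact ⟨c, fun _ => ⟨fun _ => hc.2, hc.1, hc0, fun _ i' h => absurd h (Nat.not_lt_zero _)⟩⟩
    · have hi' : i - 1 < j := by omega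
      have hlt : y ⟨i - 1, hi'⟩ < y ⟨i, hi⟩ := hymono (by
        rw [Fin.lt_def]
        simp only
        omega)
      obtain ⟨c, hc, hc0⟩ := SMa_zero' (F := F) (G := G) (ph := ph) (dph := dph) hlt hsolF.d1 hphc (hym _).2 (hym _).2
        (fun x hx => hWpos x ⟨(hym ⟨i - 1, hi'⟩).1.1.le.trans hx.1, hx.2.trans (hym ⟨i, hi⟩).1.2⟩)
      refine ⟨c, fun _ => ⟨fun _ => hc.2, (hym ⟨i - 1, hi'⟩).1.1.trans hc.1, hc0, fun _ i' h => ?_⟩⟩
      refine lt_of_le_of_lt (hymono.monotone ?_) hc.1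
      rw [Fin.le_def]
      simp only
      omega
  choose zz hzz using hzer
  apply le_nneg_glued (V := pot 1 (S.e j) V) (s := s) hpotc hsol (by linarith) hsLp hph0 hph1 zz
  · intro i hi
    obtain ⟨h1, h2, h3, _⟩ := hzz i hi
    exact ⟨⟨h2, ((h1 hi).trans_le (hym ⟨i, hi⟩).1.2).le⟩, h3⟩
  · intro i hi
    obtain ⟨h1, h2, h3, _⟩ := hzz i (by omega)
    obtain ⟨_, _, _, h4⟩ := hzz (i + 1) hi
    exact (h1 (by omega)).trans (h4 hi ⟨i, by omega⟩ (Nat.lt_succ_self i))
  · -- integrability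
    have hUt := Ut_adm S (by linarith) (s := s) ⟨by linarith, hsLp⟩
    have h1 : IntegrableOn (S.Ut s) (Ioo (-S.Lm) S.Lp) := by
      apply hUt.2.integrable
      rw [ENNReal.one_le_ofReal]
      linarith [S.hγ]
    have h2 : IntegrableOn (fun x => (1 : ℝ) ^ 2 + τ * om x) (Ioo (-S.Lm) S.Lp) := by
      have : Continuous fun x => (1 : ℝ) ^ 2 + τ * om x := by
        unfold om; fun_prop
      exact (this.integrableOn_Icc (a := -S.Lm) (b := S.Lp)).mono_set Ioo_subset_Icc_self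
    have h3 := h2.sub h1
    apply h3.congr_fun _ measurableSet_Ioo
    intro x _
    simp only [pot, Pi.sub_apply]
    ring
  · intro x hx
    have h1 : S.Ut s x = V x := by
      unfold SD.Ut
      rw [Set.indicator_of_mem hx, hVeq x ⟨hx.1.le, hx.2.le⟩]
    unfold pot
    rw [h1]
    have h2 : 0 < om x := Real.exp_pos _
    have h3 := mul_lt_mul_of_pos_right hτe h2
    linarith
  · intro x hx
    have h1 : S.Ut s x = 0 := by
      unfold SD.Ut
      apply Set.indicator_of_notMem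
      intro h
      linarith [h.1, hx.2]
    unfold pot
    rw [h1]
    have h2 : 0 < om x := Real.exp_pos _
    have h3 : τ * om x ≤ S.e j * om x := mul_le_mul_of_nonneg_right hτe.le h2.le
    have h4 : om x ≤ om T * Real.exp (-(0.78 * T)) := by
      unfold om
      rw [← Real.exp_add]
      apply Real.exp_le_exp.2
      have := hs.sT
      linarith [hx.2]
    have h5 : S.e j * om x ≤ K₁ * Real.exp (-(0.78 * T)) := by
      calc S.e j * om x ≤ S.e j * (om T * Real.exp (-(0.78 * T))) := mul_le_mul_of_nonneg_left h4 he.le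
        _ = (S.e j * om T) * Real.exp (-(0.78 * T)) := by ring
        _ ≤ K₁ * Real.exp (-(0.78 * T)) := mul_le_mul_of_nonneg_right hejT (Real.exp_pos _).le
    have h6 : K₁ * Real.exp (-(0.78 * T)) ≤ 1 / 2 := SMa_exp_small hK (by norm_num) (by linarith)
    linarith

end Pool.Agent.RLT40
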