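import Pool.Agent.RLT40.SMa

/-!
# Module SM (paper 5.8 (J1)): the competitor beyond `s` has at least the excited energies.

`Ut x = h_x(ρ_>(x))` on `(s, Lp)`, `0` elsewhere.  Fix `1 ≤ j < N`.  Let `V` be continuous on `ℝ` with `V = h(ρ_>)` on `[s,Lp]` (constant extension).  `ph` solves `pot 1 (e j) V`, `ph(s) = 1`, `ph'(s) = 2`.
`W = ph·(-φ_j)' - ph'·(-φ_j)`, `W(s) ≥ 0.8|φ_j'(s)|`, `W' = (V - U) ph·(-φ_j)`... with `|U - V| ≤ U1` (subadditivity of `h`), growth_s for both and int_small: `∫_s^{Lp} |W'| ≤ C e^{-1.7s}|φ_j'(s)| < 0.8|φ_j'(s)|`: `W > 0` on `[s,Lp]`.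
`φ_j` has `≥ j - 1` zeros in `(s, Lp)` (nodes: `≥ j` interior zeros, exactly one is `≤ s` by IsS.zeros and IsFirst), plus `Lp`: `y_1 < ... < y_j = Lp` consecutive zeros; at each `ph(y_i)(-φ_j)'(y_i) > 0`, so the sign of `ph` alternates, starting with `ph(s) = 1 > 0`,
`(-φ_j)'(y_1) < 0`: `ph` has `≥ j` zeros in `(s, Lp]`.  le_nneg_glued (potential `pot 1 τ Ut < pot 1 (e j) V` on `(s,Lp)` for `τ < e j`, `≤ 2` on `(s-1,s)`).
G_excited: `Gf ≥ ∫ γτ^{γ-1} nneg(pot 1 τ Ut) ≥ Σ_{1≤j<N} e_j^γ`.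
-/

open MeasureTheory Set
open scoped ENNReal NNReal

namespace Pool.Agent.RLT40

variable {K₁ C₀ : ℝ}

theorem SMb_layer {γ e : ℝ} (hγ : 0 < γ) (he : 0 < e) :
    ENNReal.ofReal (e ^ γ) ≤ ∫⁻ τ in Ioi (0 : ℝ), ENNReal.ofReal (γ * τ ^ (γ - 1)) * (if τ < e then 1 else 0) := by
  have h1 : ∫ τ in (0 : ℝ)..e, γ * τ ^ (γ - 1) = e ^ γ := by
    rw [intervalIntegral.integral_const_mul, integral_rpow (Or.inl (by linarith))]
    rw [sub_add_cancel, Real.zero_rpow hγ.ne']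
    field_simp
    ring
  have h2 : IntegrableOn (fun τ : ℝ => γ * τ ^ (γ - 1)) (Ioo 0 e) := by
    have h3 : IntervalIntegrable (fun τ : ℝ => γ * τ ^ (γ - 1)) volume 0 e :=
      (intervalIntegral.intervalIntegrable_rpow' (by linarith)).const_mul γ
    exact ((intervalIntegrable_iff_integrableOn_Ioo_of_le he.le).1 h3)
  have h4 : ENNReal.ofReal (e ^ γ) = ∫⁻ τ in Ioo (0 : ℝ) e, ENNReal.ofReal (γ * τ ^ (γ - 1)) := by
    rw [← h1, intervalIntegral.integral_of_le he.le, integral_Ioc_eq_integral_Ioo]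
    apply ofReal_integral_eq_lintegral_ofReal h2
    rw [Filter.EventuallyLE, ae_restrict_iff' measurableSet_Ioo]
    apply Filter.Eventually.of_forall
    intro τ hτ
    have := Real.rpow_nonneg hτ.1.le (γ - 1)
    simp only [Pi.zero_apply]
    positivity
  rw [h4, ← lintegral_indicator measurableSet_Ioo, ← lintegral_indicator measurableSet_Ioi]
  apply lintegral_mono
  intro τ
  simp only
  by_cases hτ : τ ∈ Ioo 0 e
  · rw [Set.indicator_of_mem hτ, Set.indicator_of_mem (show τ ∈ Ioi 0 from hτ.1), if_pos hτ.2, mul_one]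
  · rw [Set.indicator_of_notMem hτ]
    exact bot_le

theorem G_excited (hK : 0 < K₁) (hC₀ : 0 < C₀) : ∃ R₀ ≥ C₀, ∀ R ≥ R₀, ∀ S : SD K₁ C₀ R, ∀ T z s, S.IsT T → S.IsZ z → S.IsS T z s →
    ENNReal.ofReal (∑ j ∈ Finset.Ico 1 S.N, S.e j ^ S.γ) ≤ Gf S.γ (-S.Lm) S.Lp (S.Ut s) := by
  obtain ⟨R₀, hR₀, h⟩ := J1 (K₁ := K₁) (C₀ := C₀) hK hC₀
  refine ⟨R₀, hR₀, ?_⟩
  intro R hR S T z s hT hz hs
  have hJ := h R hR S T z s hT hz hs
  have hepos : ∀ j ∈ Finset.Ico 1 S.N, 0 < S.e j := fun j hj => S.e_pos j (Finset.mem_Ico.1 hj).2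
  rw [ENNReal.ofReal_sum_of_nonneg (fun j hj => (Real.rpow_nonneg (hepos j hj).le _))]
  calc ∑ j ∈ Finset.Ico 1 S.N, ENNReal.ofReal (S.e j ^ S.γ)
      ≤ ∑ j ∈ Finset.Ico 1 S.N, ∫⁻ τ in Ioi (0 : ℝ), ENNReal.ofReal (S.γ * τ ^ (S.γ - 1)) * (if τ < S.e j then 1 else 0) :=
        Finset.sum_le_sum fun j hj => SMb_layer S.hγ (hepos j hj)
    _ = ∫⁻ τ in Ioi (0 : ℝ), ∑ j ∈ Finset.Ico 1 S.N, ENNReal.ofReal (S.γ * τ ^ (S.γ - 1)) * (if τ < S.e j then 1 else 0) := by
        rw [lintegral_finsetSum]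
        intro j _
        apply Measurable.mul
        · fun_prop
        · exact Measurable.ite measurableSet_Iio measurable_const measurable_const
    _ ≤ Gf S.γ (-S.Lm) S.Lp (S.Ut s) := by
        unfold Gf
        apply setLIntegral_mono' measurableSet_Ioi
        intro τ hτ
        have hτ0 : 0 < τ := hτ
        rw [← Finset.mul_sum]
        gcongr
        have h1 : ((nneg (-S.Lm) S.Lp (pot 1 τ (S.Ut s)) : ℕ∞) : ℝ≥0∞) ≤ Ntot (-S.Lm) S.Lp (S.Ut s) τ := by
          unfold Ntot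
          refine le_trans ?_ (ENNReal.le_tsum 0)
          simp
        refine le_trans ?_ h1
        set J := (Finset.Ico 1 S.N).filter (fun j => τ < S.e j) with hJdef
        have h2 : ∑ j ∈ Finset.Ico 1 S.N, (if τ < S.e j then (1 : ℝ≥0∞) else 0) = (J.card : ℝ≥0∞) := by
          rw [Finset.sum_ite, Finset.sum_const_zero, add_zero, Finset.sum_const, nsmul_eq_mul, mul_one]
        rw [h2]
        rcases J.eq_empty_or_nonempty with h0 | h0
        · rw [h0]
          simp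
        · have hM := J.max'_mem h0
          set M := J.max' h0 with hMdef
          rw [hJdef, Finset.mem_filter, Finset.mem_Ico] at hM
          have h3 : J.card ≤ M := by
            have h4 : J ⊆ Finset.Ico 1 (M + 1) := by
              intro j hj
              have h5 := J.le_max' j hj
              have h6 : j ∈ Finset.Ico 1 S.N := (Finset.mem_filter.1 hj).1
              rw [Finset.mem_Ico] at h6 ⊢
              exact ⟨h6.1, by omega⟩
            have h7 := Finset.card_le_card h4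
            rw [Nat.card_Ico] at h7
            omega
          have h8 := hJ M hM.1.1 hM.1.2 τ hτ0.le hM.2
          have h9 : ((M : ℕ∞) : ℝ≥0∞) ≤ ((nneg (-S.Lm) S.Lp (pot 1 τ (S.Ut s)) : ℕ∞) : ℝ≥0∞) := ENat.toENNReal_le.2 h8
          refine le_trans ?_ h9
          rw [ENat.toENNReal_coe]
          exact_mod_cast h3

end Pool.Agent.RLT40
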