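import Pool.Agent.RLT40.SMa

/-!
# Module SN (paper 5.8 (**), (J2)): lower bound for the wall pressure.

`Σ_{1≤j<N} e_j^γ ≤ G(Ut) ≤ C J(Ut) = C ∫_s^{Lp} h(ρ_>)^{2+γ} w`, superadditivity: `m(s,Lp) ≥ ∫ U1^{2+γ}w + ∫ h(ρ_>)^{2+γ}w`.  Subtract Z1_right from Z_right:
`γΣ_{j≥1}α_jP_j(s) + (1+γ)C[U^{2+γ} - U1^{2+γ}](s)w(s) + 2γ[Σ_{j≥1}e_j^γ - gm(Ico 1 N)(s,Lp)] ≤ Wr - γα_0φ_0'(Lp)² + γ∫(U-U1)|ρ_1'|`;  `gm(Ico 1 N)(s,Lp) ≤ Σ e_j^γ` (norm).
J2: `U - U1 ≤ h'(ρ_1)ρ_>` (h_props), `h'(ρ_1)|ρ_1'| = (2γ/(1+γ))U1 - U1'` on `(s,Lp)`; integrate by parts: `∫(U-U1)|ρ_1'| ≤ ρ_>(s)U1(s) + ∫U1(ρ_> + |ρ_>'|) ≤ C e^{-1.7s}Σ_{j≥1}α_jφ_j'(s)²` (growth_s, int_small).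
`P_j(s) ≥ 0.98φ_j'(s)²` (`e_jω(s) ≤ 1`).  So `Wr ≥ 0.9γΣ_{j≥1}α_jφ_j'(s)²`, and `|φ_j(T)| ≤ C e^{T-s}|φ_j'(s)|` with excited_T.
-/

open MeasureTheory Set
open scoped ENNReal NNReal

namespace Pool.Agent.RLT40

variable {K₁ C₀ : ℝ}

theorem SNa_drhog_cont {R : ℝ} (S : SD K₁ C₀ R) : Continuous S.drhog := by
  unfold SD.drhog
  apply continuous_finsetSum
  intro j hj
  have hjN : j < S.N := (Finset.mem_Ico.1 hj).2
  have h1 := (S.sol j hjN).continuous_left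
  have h2 := (S.sol j hjN).continuous_right
  fun_prop

theorem SNa_rhog_deriv {R : ℝ} (S : SD K₁ C₀ R) (t : ℝ) : HasDerivAt S.rhog (S.drhog t) t := by
  unfold SD.rhog SD.drhog
  have h : ∀ j ∈ Finset.Ico 1 S.N, HasDerivAt (fun t => S.α j * S.φ j t ^ 2) (2 * S.α j * (S.φ j t * S.dφ j t)) t := by
    intro j hj
    have hjN : j < S.N := (Finset.mem_Ico.1 hj).2
    have h1 := (((S.sol j hjN).d1 t).fun_pow 2).const_mul (S.α j)
    have e1 : S.α j * (((2 : ℕ) : ℝ) * S.φ j t ^ (2 - 1) * S.dφ j t) = 2 * S.α j * (S.φ j t * S.dφ j t) := by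
      norm_num
      ring
    rwa [e1] at h1
  exact HasDerivAt.fun_sum h

theorem SNa_U1_deriv {R : ℝ} (S : SD K₁ C₀ R) {t : ℝ} (hpos : 0 < S.φ 0 t) :
    ∃ U' : ℝ, HasDerivAt S.U1 U' t ∧
      U' = 2 * S.γ / (1 + S.γ) * S.U1 t
        + S.U1 t / ((1 + S.γ) * (S.α 0 * S.φ 0 t ^ 2)) * (2 * S.α 0 * (S.φ 0 t * S.dφ 0 t)) := by
  have hα := S.α_pos 0 S.hN
  have hγ := S.hγ
  have hC : 0 < S.C := by linarith [S.hC]
  have hD : 0 < S.C * (2 + S.γ) := by positivity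
  set B : ℝ → ℝ := fun t => S.γ * (S.α 0 * S.φ 0 t ^ 2) * Real.exp (2 * S.γ * t) / (S.C * (2 + S.γ)) with hB
  have hBt : 0 < B t := by
    simp only [hB]
    positivity
  have hd : HasDerivAt B (B t * (2 * S.dφ 0 t / S.φ 0 t + 2 * S.γ)) t := by
    have h1 := (((S.sol 0 S.hN).d1 t).fun_pow 2).const_mul (S.α 0)
    have h2 := (h1.const_mul S.γ)
    have h3 : HasDerivAt (fun t => Real.exp (2 * S.γ * t)) (Real.exp (2 * S.γ * t) * (2 * S.γ)) t := by
      have := ((hasDerivAt_id t).const_mul (2 * S.γ)).exp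
      simpa using this
    have h4 := (h2.fun_mul h3).div_const (S.C * (2 + S.γ))
    have e1 : (S.γ * (S.α 0 * (((2 : ℕ) : ℝ) * S.φ 0 t ^ (2 - 1) * S.dφ 0 t)) * Real.exp (2 * S.γ * t) +
        S.γ * (S.α 0 * S.φ 0 t ^ 2) * (Real.exp (2 * S.γ * t) * (2 * S.γ))) / (S.C * (2 + S.γ))
        = B t * (2 * S.dφ 0 t / S.φ 0 t + 2 * S.γ) := by
      simp only [hB]
      norm_num
      field_simp
    rw [← e1]
    exact h4
  set p : ℝ := 1 / (1 + S.γ) with hp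
  have hU1 : S.U1 = fun t => B t ^ p := by
    funext x
    unfold SD.U1 SD.h
    simp only [hB, hp]
  refine ⟨_, ?_, rfl⟩
  have h5 := hd.rpow_const (p := p) (Or.inl hBt.ne')
  rw [hU1]
  convert h5 using 1
  have h6 : B t ^ (p - 1) = B t ^ p / B t := Real.rpow_sub_one hBt.ne' p
  rw [h6]
  have h7 : (1 + S.γ) ≠ 0 := by positivity
  rw [hp]
  field_simp
  ring

theorem J2 (hK : 0 < K₁) (hC₀ : 0 < C₀) : ∃ C > 0, ∃ R₀ ≥ C₀, ∀ R ≥ R₀, ∀ S : SD K₁ C₀ R, ∀ T z s, S.IsT T → S.IsZ z → S.IsS T z s →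
    -(∫ t in s..S.Lp, (S.U t - S.U1 t) * (2 * S.α 0 * (S.φ 0 t * S.dφ 0 t))) ≤
      C * Real.exp (-(1.7 * s)) * ∑ j ∈ Finset.Ico 1 S.N, S.α j * S.dφ j s ^ 2 := by
  obtain ⟨C₁, hC₁, R₁, hR₁, hgr⟩ := growth_s (K₁ := K₁) (C₀ := C₀) hK hC₀
  obtain ⟨C, hC, R₂, hR₂, hint⟩ := int_small (K₁ := K₁) (C₀ := C₀) hK hC₀ hC₁
  refine ⟨C + 2 * C₁ ^ 2 * C, by positivity, max (max R₁ R₂) 1, le_max_of_le_left (le_max_of_le_left hR₁), ?_⟩
  intro R hR S T z s hT hz hs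
  have hRR₁ : R₁ ≤ R := le_trans (le_trans (le_max_left _ _) (le_max_left _ _)) hR
  have hRR₂ : R₂ ≤ R := le_trans (le_trans (le_max_right _ _) (le_max_left _ _)) hR
  have hR1 : 1 ≤ R := le_trans (le_max_right _ _) hR
  have hC₀R : C₀ ≤ R := le_trans hR₁ hRR₁
  have hRs : R < s := lt_trans hz.hR hs.zs
  have hRT : R ≤ T := hT.hR
  have hT0 : 0 < T := by linarith
  have hsT : s ≤ T := by
    have := hs.sT
    linarith
  have hsLp : s < S.Lp := lt_of_le_of_lt hsT hT.hLp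
  have hLm : R ≤ S.Lm := S.hLm
  have hα0 := S.α_pos 0 S.hN
  have hγ := S.hγ
  have hγ' := S.hγ'
  have hdφ := (S.ground_ratio hK hC₀ hC₀R hT hs.eT).1
  have hφ0c := (S.sol 0 S.hN).continuous_left
  have hdφ0c := (S.sol 0 S.hN).continuous_right
  have hU1c : Continuous S.U1 := by
    unfold SD.U1
    exact SMa_h_cont S (SMa_rho0_cont S)
  have hrc := SMa_rhog_cont S
  have hdrc := SNa_drhog_cont S
  have hUc := S.cU
  have hU1n : ∀ t, 0 ≤ S.U1 t := fun t => (S.h_props t (SMa_rho0_nonneg S t) le_rfl).1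
  have hrn := SMa_rhog_nonneg S
  set I₁ : ℝ → ℝ := fun t => (S.U t - S.U1 t) * (2 * S.α 0 * (S.φ 0 t * S.dφ 0 t)) with hI₁
  set I₂ : ℝ → ℝ := fun t => 2 * S.γ / (1 + S.γ) * (S.U1 t * S.rhog t) + S.U1 t * S.drhog t with hI₂
  have hI₁c : Continuous I₁ := by fun_prop
  have hI₂c : Continuous I₂ := by fun_prop
  set D : ℝ → ℝ := fun b => -(∫ t in s..b, I₁ t) - (∫ t in s..b, I₂ t) + S.U1 b * S.rhog b with hD
  have hDc : Continuous D := by
    have h1 : Continuous fun b => ∫ t in s..b, I₁ t := intervalIntegral.continuous_primitive (fun _ _ => hI₁c.intervalIntegrable _ _) s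
    have h2 : Continuous fun b => ∫ t in s..b, I₂ t := intervalIntegral.continuous_primitive (fun _ _ => hI₂c.intervalIntegrable _ _) s
    fun_prop
  have hDanti : AntitoneOn D (Icc s S.Lp) := by
    apply antitoneOn_of_deriv_nonpos (convex_Icc _ _) hDc.continuousOn
    · intro t ht
      rw [interior_Icc] at ht
      have hφ0 : 0 < S.φ 0 t := S.φ_pos t ⟨by linarith [ht.1], ht.2⟩
      obtain ⟨U', hU', _⟩ := SNa_U1_deriv S hφ0
      have h1 : HasDerivAt (fun b => ∫ t in s..b, I₁ t) (I₁ t) t := intervalIntegral.integral_hasDerivAt_right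
        (hI₁c.intervalIntegrable _ _) hI₁c.stronglyMeasurable.stronglyMeasurableAtFilter hI₁c.continuousAt
      have h2 : HasDerivAt (fun b => ∫ t in s..b, I₂ t) (I₂ t) t := intervalIntegral.integral_hasDerivAt_right
        (hI₂c.intervalIntegrable _ _) hI₂c.stronglyMeasurable.stronglyMeasurableAtFilter hI₂c.continuousAt
      exact ((h1.neg.sub h2).add (hU'.mul (SNa_rhog_deriv S t))).differentiableAt.differentiableWithinAt
    · intro t ht
      rw [interior_Icc] at ht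
      have hφ0 : 0 < S.φ 0 t := S.φ_pos t ⟨by linarith [ht.1], ht.2⟩
      have hdφ0 : S.dφ 0 t < 0 := hdφ t ⟨by linarith [ht.1], ht.2⟩
      obtain ⟨U', hU', hU'e⟩ := SNa_U1_deriv S hφ0
      have h1 : HasDerivAt (fun b => ∫ t in s..b, I₁ t) (I₁ t) t := intervalIntegral.integral_hasDerivAt_right
        (hI₁c.intervalIntegrable _ _) hI₁c.stronglyMeasurable.stronglyMeasurableAtFilter hI₁c.continuousAt
      have h2 : HasDerivAt (fun b => ∫ t in s..b, I₂ t) (I₂ t) t := intervalIntegral.integral_hasDerivAt_right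
        (hI₂c.intervalIntegrable _ _) hI₂c.stronglyMeasurable.stronglyMeasurableAtFilter hI₂c.continuousAt
      have h3 := (h1.neg.sub h2).add (hU'.mul (SNa_rhog_deriv S t))
      have h3' : HasDerivAt D (-I₁ t - I₂ t + (U' * S.rhog t + S.U1 t * S.drhog t)) t := h3
      rw [h3'.deriv]
      have hρ : 0 < S.α 0 * S.φ 0 t ^ 2 := by positivity
      have hUt : S.U t = S.h t (S.α 0 * S.φ 0 t ^ 2 + S.rhog t) := by
        rw [S.U_eq_h (t := t) ⟨by linarith [ht.1], ht.2.le⟩, SMa_rho_split]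
      have h4 := (S.h_props t hρ.le (hrn t)).2.2.2.2 hρ
      have h5 : S.U t - S.U1 t ≤ S.U1 t / ((1 + S.γ) * (S.α 0 * S.φ 0 t ^ 2)) * S.rhog t := by
        rw [hUt]
        exact h4
      have h6 : 2 * S.α 0 * (S.φ 0 t * S.dφ 0 t) ≤ 0 := by
        have : S.φ 0 t * S.dφ 0 t ≤ 0 := mul_nonpos_of_nonneg_of_nonpos hφ0.le hdφ0.le
        nlinarith
      set X := 2 * S.α 0 * (S.φ 0 t * S.dφ 0 t) with hX
      set Y := S.U1 t / ((1 + S.γ) * (S.α 0 * S.φ 0 t ^ 2)) with hY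
      have h7 : Y * S.rhog t * X ≤ (S.U t - S.U1 t) * X := mul_le_mul_of_nonpos_right h5 h6
      have h8 : -I₁ t - I₂ t + (U' * S.rhog t + S.U1 t * S.drhog t)
          = -((S.U t - S.U1 t) * X) + Y * S.rhog t * X := by
        rw [hU'e]
        simp only [hI₁, hI₂]
        ring
      rw [h8]
      linarith
  have hDle := hDanti (left_mem_Icc.2 hsLp.le) (right_mem_Icc.2 hsLp.le) hsLp.le
  have hDs : D s = S.U1 s * S.rhog s := by
    simp only [hD, intervalIntegral.integral_same]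
    ring
  have hrLp : S.rhog S.Lp = 0 := by
    unfold SD.rhog
    apply Finset.sum_eq_zero
    intro j hj
    rw [S.φ_right j (Finset.mem_Ico.1 hj).2]
    ring
  have hDL : D S.Lp = -(∫ t in s..S.Lp, I₁ t) - ∫ t in s..S.Lp, I₂ t := by
    simp only [hD]
    rw [hrLp]
    ring
  rw [hDs, hDL] at hDle
  set Ss : ℝ := ∑ j ∈ Finset.Ico 1 S.N, S.α j * S.dφ j s ^ 2 with hSs
  have hSs0 : 0 ≤ Ss := by
    apply Finset.sum_nonneg
    intro j hj
    have := S.α_pos j (Finset.mem_Ico.1 hj).2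
    positivity
  -- bound of rhog s
  have hrs : S.rhog s ≤ Ss := by
    unfold SD.rhog
    rw [hSs]
    apply Finset.sum_le_sum
    intro j hj
    have hj' := Finset.mem_Ico.1 hj
    have h1 := S.α_pos j hj'.2
    obtain ⟨_, _, h2, _⟩ := hs.slope j hj'.1 hj'.2
    apply mul_le_mul_of_nonneg_left _ h1.le
    rw [← sq_abs (S.φ j s), ← sq_abs (S.dφ j s)]
    have h3 := abs_nonneg (S.dφ j s)
    have h4 := abs_nonneg (S.φ j s)
    nlinarith
  -- bound of I₂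
  set g : ℝ → ℝ := fun t => S.U1 t * Real.exp (2 * (t - s) + 2 * C₁ * Real.exp (t - T)) with hg
  have hgc : Continuous g := by fun_prop
  have hI₂le : ∀ t ∈ Icc s S.Lp, I₂ t ≤ 2 * C₁ ^ 2 * Ss * g t := by
    intro t ht
    have h1 : S.rhog t + |S.drhog t| ≤ 2 * C₁ ^ 2 * Ss * Real.exp (2 * (t - s) + 2 * C₁ * Real.exp (t - T)) := by
      unfold SD.rhog SD.drhog
      rw [hSs, Finset.mul_sum, Finset.sum_mul]
      refine le_trans (add_le_add le_rfl (Finset.abs_sum_le_sum_abs _ _)) ?_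
      rw [← Finset.sum_add_distrib]
      apply Finset.sum_le_sum
      intro j hj
      have hj' := Finset.mem_Ico.1 hj
      have h1 := S.α_pos j hj'.2
      obtain ⟨_, _, h2, _⟩ := hs.slope j hj'.1 hj'.2
      have h3 := hgr R hRR₁ S T hT s (by linarith) hsT (S.e j) (S.e_pos j hj'.2).le (hs.ej j hj'.1 hj'.2) S.U S.cU
        (fun x hx => ⟨by
          rw [S.U_eq_h (t := x) ⟨by linarith [hx.1], hx.2⟩, SMa_rho_split]
          exact (S.h_props x (add_nonneg (SMa_rho0_nonneg S x) (SMa_rhog_nonneg S x)) le_rfl).1, le_rfl⟩)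
        (S.φ j) (S.dφ j) (S.sol j hj'.2) t ht
      have e2 : Real.exp (2 * (t - s) + 2 * C₁ * Real.exp (t - T))
          = Real.exp (t - s + C₁ * Real.exp (t - T)) ^ 2 := by
        rw [← Real.exp_nat_mul]
        congr 1
        push_cast
        ring
      rw [e2]
      set X := Real.exp (t - s + C₁ * Real.exp (t - T)) with hX
      have hX0 : 0 < X := Real.exp_pos _
      have h4 : |S.φ j t| + |S.dφ j t| ≤ C₁ * (11 / 10 * |S.dφ j s|) * X := by
        refine h3.trans ?_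
        apply mul_le_mul_of_nonneg_right _ hX0.le
        apply mul_le_mul_of_nonneg_left _ hC₁.le
        linarith
      have h5 := abs_nonneg (S.φ j t)
      have h6 := abs_nonneg (S.dφ j t)
      have h7 := abs_nonneg (S.dφ j s)
      have h8 : S.φ j t ^ 2 + 2 * |S.φ j t * S.dφ j t| ≤ (|S.φ j t| + |S.dφ j t|) ^ 2 := by
        rw [abs_mul, ← sq_abs (S.φ j t)]
        nlinarith
      have h9 : (|S.φ j t| + |S.dφ j t|) ^ 2 ≤ (C₁ * (11 / 10 * |S.dφ j s|) * X) ^ 2 := by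
        apply pow_le_pow_left₀ (by positivity) h4
      have h10 : (C₁ * (11 / 10 * |S.dφ j s|) * X) ^ 2 ≤ 2 * C₁ ^ 2 * S.dφ j s ^ 2 * X ^ 2 := by
        rw [← sq_abs (S.dφ j s)]
        have : 0 ≤ (C₁ * |S.dφ j s| * X) ^ 2 := by positivity
        nlinarith
      have h11 : |2 * S.α j * (S.φ j t * S.dφ j t)| = S.α j * (2 * |S.φ j t * S.dφ j t|) := by
        rw [abs_mul, abs_mul, abs_of_pos h1, abs_two]
        ring
      rw [h11]
      calc S.α j * S.φ j t ^ 2 + S.α j * (2 * |S.φ j t * S.dφ j t|)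
          = S.α j * (S.φ j t ^ 2 + 2 * |S.φ j t * S.dφ j t|) := by ring
        _ ≤ S.α j * (2 * C₁ ^ 2 * S.dφ j s ^ 2 * X ^ 2) :=
            mul_le_mul_of_nonneg_left (h8.trans (h9.trans h10)) h1.le
        _ = 2 * C₁ ^ 2 * (S.α j * S.dφ j s ^ 2) * X ^ 2 := by ring
    have h2 : 2 * S.γ / (1 + S.γ) ≤ 1 := by
      rw [div_le_one (by positivity)]
      linarith
    have h3 : 0 ≤ 2 * S.γ / (1 + S.γ) := by positivity
    have h4 : S.drhog t ≤ |S.drhog t| := le_abs_self _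
    have h5 := hrn t
    have h6 := hU1n t
    calc I₂ t = S.U1 t * (2 * S.γ / (1 + S.γ) * S.rhog t + S.drhog t) := by simp only [hI₂]; ring
      _ ≤ S.U1 t * (S.rhog t + |S.drhog t|) := by
          apply mul_le_mul_of_nonneg_left _ h6
          nlinarith
      _ ≤ S.U1 t * (2 * C₁ ^ 2 * Ss * Real.exp (2 * (t - s) + 2 * C₁ * Real.exp (t - T))) :=
          mul_le_mul_of_nonneg_left h1 h6
      _ = 2 * C₁ ^ 2 * Ss * g t := by simp only [hg]; ring
  obtain ⟨hint1, hint2⟩ := hint R hRR₂ S T z s hT hz hs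
  have h1 : ∫ t in s..S.Lp, I₂ t ≤ 2 * C₁ ^ 2 * Ss * (C * Real.exp (-(1.7 * s))) := by
    calc ∫ t in s..S.Lp, I₂ t ≤ ∫ t in s..S.Lp, 2 * C₁ ^ 2 * Ss * g t := by
          apply intervalIntegral.integral_mono_on hsLp.le (hI₂c.intervalIntegrable _ _)
            ((continuous_const.mul hgc).intervalIntegrable _ _) hI₂le
      _ = 2 * C₁ ^ 2 * Ss * ∫ t in s..S.Lp, g t := intervalIntegral.integral_const_mul _ _
      _ ≤ _ := mul_le_mul_of_nonneg_left hint1 (by positivity)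
  have h2 : S.U1 s * S.rhog s ≤ C * Real.exp (-(1.7 * s)) * Ss := by
    apply mul_le_mul hint2 hrs (hrn s) (by positivity)
  calc -(∫ t in s..S.Lp, I₁ t) ≤ S.U1 s * S.rhog s + ∫ t in s..S.Lp, I₂ t := by linarith
    _ ≤ C * Real.exp (-(1.7 * s)) * Ss + 2 * C₁ ^ 2 * Ss * (C * Real.exp (-(1.7 * s))) := add_le_add h2 h1
    _ = (C + 2 * C₁ ^ 2 * C) * Real.exp (-(1.7 * s)) * Ss := by ring

end Pool.Agent.RLT40
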