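import Pool.Agent.RLT40.SKb
import Pool.Agent.RLT40.SMb
import Pool.Agent.RLT40.SNa

/-!
# Module SN (paper 5.8 (**), (J2)): lower bound for the wall pressure.

`Σ_{1≤j<N} e_j^γ ≤ G(Ut) ≤ C J(Ut) = C ∫_s^{Lp} h(ρ_>)^{2+γ} w`, superadditivity: `m(s,Lp) ≥ ∫ U1^{2+γ}w + ∫ h(ρ_>)^{2+γ}w`.  Subtract Z1_right from Z_right:
`γΣ_{j≥1}α_jP_j(s) + (1+γ)C[U^{2+γ} - U1^{2+γ}](s)w(s) + 2γ[Σ_{j≥1}e_j^γ - gm(Ico 1 N)(s,Lp)] ≤ Wr - γα_0φ_0'(Lp)² + γ∫(U-U1)|ρ_1'|`;  `gm(Ico 1 N)(s,Lp) ≤ Σ e_j^γ` (norm).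
J2: `U - U1 ≤ h'(ρ_1)ρ_>` (h_props), `h'(ρ_1)|ρ_1'| = (2γ/(1+γ))U1 - U1'` on `(s,Lp)`; integrate by parts: `∫(U-U1)|ρ_1'| ≤ ρ_>(s)U1(s) + ∫U1(ρ_> + |ρ_>'|) ≤ C e^{-1.7s}Σ_{j≥1}α_jφ_j'(s)²` (growth_s, int_small).
`P_j(s) ≥ 0.98φ_j'(s)²` (`e_jω(s) ≤ 1`).  So `Wr ≥ 0.9γΣ_{j≥1}α_jφ_j'(s)²`, and `|φ_j(T)| ≤ C e^{T-s}|φ_j'(s)|` with excited_T.
-/

open MeasureTheory Set
open scoped ENNReal NNReal

namespace Pool.Agent.RLT40

variable {K₁ C₀ : ℝ}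

/-- `J` of the competitor -/
theorem SNb_J {R : ℝ} (S : SD K₁ C₀ R) {s : ℝ} (hs : s ∈ Ioo (-S.Lm) S.Lp) :
    Jf S.γ (-S.Lm) S.Lp (S.Ut s) =
      ENNReal.ofReal (∫ t in s..S.Lp, S.h t (S.rhog t) ^ (2 + S.γ) * Real.exp (-(2 * S.γ * t))) := by
  have hγ := S.hγ
  have hc := SMa_h_cont S (SMa_rhog_cont S)
  have hcF : Continuous fun t => S.h t (S.rhog t) ^ (2 + S.γ) * Real.exp (-(2 * S.γ * t)) :=
    (hc.rpow_const fun x => Or.inr (by linarith)).mul (by fun_prop)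
  have hnn : ∀ t, 0 ≤ S.h t (S.rhog t) ^ (2 + S.γ) * Real.exp (-(2 * S.γ * t)) := fun t =>
    mul_nonneg (Real.rpow_nonneg (S.h_props t (SMa_rhog_nonneg S t) le_rfl).1 _) (Real.exp_pos _).le
  rw [intervalIntegral.integral_of_le hs.2.le, integral_Ioc_eq_integral_Ioo,
    ofReal_integral_eq_lintegral_ofReal ((hcF.integrableOn_Icc (a := s) (b := S.Lp)).mono_set Ioo_subset_Icc_self)
      (Filter.Eventually.of_forall hnn)]
  unfold Jf
  rw [← lintegral_indicator measurableSet_Ioo, ← lintegral_indicator measurableSet_Ioo]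
  congr 1
  funext x
  by_cases hx : x ∈ Ioo s S.Lp
  · have hx' : x ∈ Ioo (-S.Lm) S.Lp := ⟨hs.1.trans hx.1, hx.2⟩
    rw [Set.indicator_of_mem hx', Set.indicator_of_mem hx, SD.Ut, Set.indicator_of_mem hx]
  · rw [Set.indicator_of_notMem hx]
    by_cases hx' : x ∈ Ioo (-S.Lm) S.Lp
    · rw [Set.indicator_of_mem hx', SD.Ut, Set.indicator_of_notMem hx, Real.zero_rpow (by linarith)]
      simp
    · rw [Set.indicator_of_notMem hx']

/-- the mass beyond `s` which is not due to the ground state pays for the excited states -/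
theorem SNb_key {R : ℝ} (S : SD K₁ C₀ R) (hR : 0 < R) {s : ℝ} (hs : s ∈ Ioo (-S.Lm) S.Lp)
    (hG : ENNReal.ofReal (∑ j ∈ Finset.Ico 1 S.N, S.e j ^ S.γ) ≤ Gf S.γ (-S.Lm) S.Lp (S.Ut s)) :
    S.gm (Finset.Ico 1 S.N) s S.Lp ≤
      S.C * (S.m s S.Lp - ∫ t in s..S.Lp, S.U1 t ^ (2 + S.γ) * Real.exp (-(2 * S.γ * t))) := by
  have hC : 0 < S.C := lt_of_lt_of_le (by norm_num) S.hC
  have hγ := S.hγ
  have h1 := hG.trans (S.max _ (Ut_adm S hR hs))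
  have hc := SMa_h_cont S (SMa_rhog_cont S)
  have hcF : Continuous fun t => S.h t (S.rhog t) ^ (2 + S.γ) * Real.exp (-(2 * S.γ * t)) :=
    (hc.rpow_const fun x => Or.inr (by linarith)).mul (by fun_prop)
  have hcU : Continuous fun t => S.U1 t ^ (2 + S.γ) * Real.exp (-(2 * S.γ * t)) :=
    ((SCb_cU1 S).rpow_const fun x => Or.inr (by linarith)).mul (by fun_prop)
  have hint0 : 0 ≤ ∫ t in s..S.Lp, S.h t (S.rhog t) ^ (2 + S.γ) * Real.exp (-(2 * S.γ * t)) :=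
    intervalIntegral.integral_nonneg hs.2.le fun t _ =>
      mul_nonneg (Real.rpow_nonneg (S.h_props t (SMa_rhog_nonneg S t) le_rfl).1 _) (Real.exp_pos _).le
  rw [SNb_J S hs, ← ENNReal.ofReal_mul hC.le] at h1
  have h2 := (ENNReal.ofReal_le_ofReal_iff (mul_nonneg hC.le hint0)).1 h1
  have h3 : S.gm (Finset.Ico 1 S.N) s S.Lp ≤ ∑ j ∈ Finset.Ico 1 S.N, S.e j ^ S.γ := by
    unfold SD.gm
    apply Finset.sum_le_sum
    intro j hj
    have hjN := (Finset.mem_Ico.1 hj).2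
    have hn := S.norm j hjN
    have he := S.e_pos j hjN
    have hα := S.α_pos j hjN
    have hmono : ∫ x in s..S.Lp, om x * S.φ j x ^ 2 ≤ ∫ x in (-S.Lm)..S.Lp, om x * S.φ j x ^ 2 := by
      apply intervalIntegral.integral_mono_interval hs.1.le hs.2.le le_rfl
      · exact Filter.Eventually.of_forall fun x => mul_nonneg (Real.exp_pos _).le (sq_nonneg _)
      · exact (SCa_cterm S hjN).intervalIntegrable _ _
    calc S.α j * S.e j * ∫ x in s..S.Lp, om x * S.φ j x ^ 2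
        ≤ S.α j * S.e j * ∫ x in (-S.Lm)..S.Lp, om x * S.φ j x ^ 2 :=
          mul_le_mul_of_nonneg_left hmono (mul_pos hα he).le
      _ = S.e j ^ (S.γ - 1) * S.e j := by rw [← hn]; ring
      _ = S.e j ^ S.γ := by rw [← Real.rpow_add_one he.ne']; congr 1; ring
  have h4 : (∫ t in s..S.Lp, S.U1 t ^ (2 + S.γ) * Real.exp (-(2 * S.γ * t))) +
      (∫ t in s..S.Lp, S.h t (S.rhog t) ^ (2 + S.γ) * Real.exp (-(2 * S.γ * t))) ≤ S.m s S.Lp := by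
    unfold SD.m
    rw [← intervalIntegral.integral_add (hcU.intervalIntegrable _ _) (hcF.intervalIntegrable _ _)]
    apply intervalIntegral.integral_mono_on hs.2.le ((hcU.add hcF).intervalIntegrable _ _)
      ((SCa_cmass S).intervalIntegrable _ _)
    intro t ht
    have hUt : S.U t = S.h t (S.α 0 * S.φ 0 t ^ 2 + S.rhog t) := by
      rw [S.U_eq_h (t := t) ⟨hs.1.le.trans ht.1, ht.2⟩, SMa_rho_split]
    have h5 := (S.h_props t (SMa_rho0_nonneg S t) (SMa_rhog_nonneg S t)).2.2.2.1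
    have h6 := mul_le_mul_of_nonneg_right h5 (Real.exp_pos (-(2 * S.γ * t))).le
    rw [add_mul] at h6
    rw [hUt]
    exact h6
  have h6 : S.C * (∫ t in s..S.Lp, S.h t (S.rhog t) ^ (2 + S.γ) * Real.exp (-(2 * S.γ * t))) ≤
      S.C * (S.m s S.Lp - ∫ t in s..S.Lp, S.U1 t ^ (2 + S.γ) * Real.exp (-(2 * S.γ * t))) :=
    mul_le_mul_of_nonneg_left (by linarith) hC.le
  linarith

/-- difference of the two pressure identities at `s` -/
theorem SNb_diff {R : ℝ} (S : SD K₁ C₀ R) (hR : 0 < R) {s : ℝ} (hs : s ∈ Ioo (-S.Lm) S.Lp)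
    (hG : ENNReal.ofReal (∑ j ∈ Finset.Ico 1 S.N, S.e j ^ S.γ) ≤ Gf S.γ (-S.Lm) S.Lp (S.Ut s)) :
    S.γ * (∑ j ∈ Finset.Ico 1 S.N, S.α j * S.P j s) +
      S.γ * (∫ t in s..S.Lp, (S.U t - S.U1 t) * (2 * S.α 0 * (S.φ 0 t * S.dφ 0 t))) ≤ S.Wr := by
  have hC : 0 < S.C := lt_of_lt_of_le (by norm_num) S.hC
  have hγ := S.hγ
  have hZ := S.Z_right (s := s) ⟨hs.1.le, hs.2.le⟩
  have hZ1 := S.Z1_right hs
  have hk := SNb_key S hR hs hG
  have hsplit : ∀ F : ℕ → ℝ, ∑ j ∈ Finset.range S.N, F j = F 0 + ∑ j ∈ Finset.Ico 1 S.N, F j := by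
    intro F
    rw [Finset.range_eq_Ico, Finset.sum_eq_sum_Ico_succ_bot S.hN]
  have hgm : S.gm (Finset.range S.N) s S.Lp = S.gm {0} s S.Lp + S.gm (Finset.Ico 1 S.N) s S.Lp := by
    unfold SD.gm
    rw [hsplit, Finset.sum_singleton]
  have hP := hsplit fun j => S.α j * S.P j s
  have hUU : S.U1 s ^ (2 + S.γ) ≤ S.U s ^ (2 + S.γ) := by
    apply Real.rpow_le_rpow (SCb_U1_nonneg S s) _ (by linarith)
    rw [S.U_eq_h (t := s) ⟨hs.1.le, hs.2.le⟩, SMa_rho_split]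
    exact (S.h_props s (SMa_rho0_nonneg S s)
      (add_nonneg (SMa_rho0_nonneg S s) (SMa_rhog_nonneg S s))).2.1
        (le_add_of_nonneg_right (SMa_rhog_nonneg S s))
  have hUw : (1 + S.γ) * S.C * S.U1 s ^ (2 + S.γ) * Real.exp (-(2 * S.γ * s)) ≤
      (1 + S.γ) * S.C * S.U s ^ (2 + S.γ) * Real.exp (-(2 * S.γ * s)) := by
    gcongr
  have hwall : 0 ≤ S.γ * (S.α 0 * S.dφ 0 S.Lp ^ 2) := by
    have := S.α_pos 0 S.hN
    positivity
  unfold SD.Z at hZ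
  rw [hP, hgm] at hZ
  have h7 : 2 * S.γ * S.gm (Finset.Ico 1 S.N) s S.Lp ≤ 2 * S.γ *
      (S.C * (S.m s S.Lp - ∫ t in s..S.Lp, S.U1 t ^ (2 + S.γ) * Real.exp (-(2 * S.γ * t)))) :=
    mul_le_mul_of_nonneg_left hk (by positivity)
  linarith

/-- elementary: exponentials are small for large arguments -/
theorem SNb_small (A : ℝ) {c δ : ℝ} (hc : 0 < c) (hδ : 0 < δ) : ∃ r : ℝ, ∀ x ≥ r, A * Real.exp (-(c * x)) ≤ δ := by
  refine ⟨|A| / (δ * c), fun x hx => ?_⟩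
  have h1 : |A| ≤ x * (δ * c) := (div_le_iff₀ (by positivity)).1 hx
  have h2 : c * x + 1 ≤ Real.exp (c * x) := Real.add_one_le_exp _
  have h3 : A ≤ δ * Real.exp (c * x) := by
    have h4 := le_abs_self A
    nlinarith
  rw [Real.exp_neg, ← div_eq_mul_inv, div_le_iff₀ (Real.exp_pos _)]
  exact h3

theorem wall_lower (hK : 0 < K₁) (hC₀ : 0 < C₀) : ∃ c > 0, ∃ R₀ ≥ C₀, ∀ R ≥ R₀, ∀ S : SD K₁ C₀ R, ∀ T z s, S.IsT T → S.IsZ z → S.IsS T z s →
    c * Real.exp (-(2 * (1 + S.γ) * T)) ≤ S.Wr := by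
  obtain ⟨C₁, hC₁, R₁, hR₁, hgr⟩ := growth_s (K₁ := K₁) (C₀ := C₀) hK hC₀
  obtain ⟨c₂, hc₂, R₂, hR₂, hex⟩ := excited_T (K₁ := K₁) (C₀ := C₀) hK hC₀
  obtain ⟨C₃, hC₃, R₃, hR₃, hJ2⟩ := J2 (K₁ := K₁) (C₀ := C₀) hK hC₀
  obtain ⟨R₄, hR₄, hGe⟩ := G_excited (K₁ := K₁) (C₀ := C₀) hK hC₀
  obtain ⟨R₅, hR₅⟩ := SNb_small C₃ (c := 1.7) (δ := 1 / 100) (by norm_num) (by norm_num)
  obtain ⟨R₆, hR₆⟩ := SNb_small K₁ (c := 0.78) (δ := 1) (by norm_num) (by norm_num)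
  set B : ℝ := (2 * C₁ * Real.exp C₁) ^ 2 with hB
  have hBpos : 0 < B := by positivity
  refine ⟨c₂ * (9 / 10) / B, by positivity, max (max (max R₁ R₂) (max R₃ R₄)) (max R₅ R₆), ?_, ?_⟩
  · exact (hR₁.trans (le_max_left _ _)).trans ((le_max_left _ _).trans (le_max_left _ _))
  intro R hR S T z s hT hz hs
  simp only [ge_iff_le, max_le_iff] at hR
  obtain ⟨⟨⟨q1, q2⟩, q3, q4⟩, q5, q6⟩ := hR
  have hCR : C₀ ≤ R := hR₁.trans q1
  have hR0 : 0 < R := hC₀.trans_le hCR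
  have hRs : R < s := lt_trans hz.hR hs.zs
  have hRT : R ≤ T := hT.hR
  have hT0 : 0 < T := hR0.trans_le hRT
  have hsT' := hs.sT
  have hsT : s ≤ T := by linarith
  have hsLp : s < S.Lp := lt_of_le_of_lt hsT hT.hLp
  have hLm := S.hLm
  have hsI : s ∈ Ioo (-S.Lm) S.Lp := ⟨by linarith, hsLp⟩
  have hγ := S.hγ
  have hG := hGe R q4 S T z s hT hz hs
  have hdiff := SNb_diff S hR0 hsI hG
  have hj2 := hJ2 R q3 S T z s hT hz hs
  have hexT := hex R q2 S T z s hT hz hs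
  set Sd : ℝ := ∑ j ∈ Finset.Ico 1 S.N, S.α j * S.dφ j s ^ 2 with hSd
  have hSd0 : 0 ≤ Sd := Finset.sum_nonneg fun j hj => by
    have := S.α_pos j (Finset.mem_Ico.1 hj).2
    positivity
  -- the pressures at `s`
  have hP : 98 / 100 * Sd ≤ ∑ j ∈ Finset.Ico 1 S.N, S.α j * S.P j s := by
    rw [hSd, Finset.mul_sum]
    apply Finset.sum_le_sum
    intro j hj
    have hj1 := (Finset.mem_Ico.1 hj).1
    have hjN := (Finset.mem_Ico.1 hj).2
    have hα := S.α_pos j hjN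
    have hej := hs.ej j hj1 hjN
    have hsl := (hs.slope j hj1 hjN).2.2.1
    have hes : S.e j * om s ≤ 1 := by
      have h1 : om s = om T * Real.exp (-(2 * (T - s))) := by
        unfold om
        rw [← Real.exp_add]
        congr 1
        ring
      have h2 : Real.exp (-(2 * (T - s))) ≤ Real.exp (-(0.78 * T)) := by
        apply Real.exp_le_exp.2
        linarith
      have h3 := hR₆ T (q6.trans hRT)
      calc S.e j * om s = S.e j * om T * Real.exp (-(2 * (T - s))) := by rw [h1]; ring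
        _ ≤ K₁ * Real.exp (-(0.78 * T)) := by gcongr
        _ ≤ 1 := h3
    have hsq : S.φ j s ^ 2 ≤ 1 / 100 * S.dφ j s ^ 2 := by
      have h1 : |S.φ j s| ^ 2 ≤ (1 / 10 * |S.dφ j s|) ^ 2 := by
        gcongr
      rw [mul_pow, sq_abs, sq_abs] at h1
      linarith
    have hPj : 98 / 100 * S.dφ j s ^ 2 ≤ S.P j s := by
      unfold SD.P
      nlinarith [sq_nonneg (S.φ j s), sq_nonneg (S.dφ j s)]
    calc 98 / 100 * (S.α j * S.dφ j s ^ 2) = S.α j * (98 / 100 * S.dφ j s ^ 2) := by ring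
      _ ≤ S.α j * S.P j s := mul_le_mul_of_nonneg_left hPj hα.le
  have hWr : 9 / 10 * (S.γ * Sd) ≤ S.Wr := by
    have h1 := hR₅ s (q5.trans hRs.le)
    have h2 : C₃ * Real.exp (-(1.7 * s)) * Sd ≤ 1 / 100 * Sd := mul_le_mul_of_nonneg_right h1 hSd0
    have h3 : S.γ * (98 / 100 * Sd) ≤ S.γ * ∑ j ∈ Finset.Ico 1 S.N, S.α j * S.P j s :=
      mul_le_mul_of_nonneg_left hP hγ.le
    have h4 : S.γ * (-(1 / 100 * Sd)) ≤
        S.γ * (∫ t in s..S.Lp, (S.U t - S.U1 t) * (2 * S.α 0 * (S.φ 0 t * S.dφ 0 t))) :=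
      mul_le_mul_of_nonneg_left (by linarith) hγ.le
    nlinarith [mul_nonneg hγ.le hSd0]
  -- growth from `s` to `T`
  have hgrow : ∑ j ∈ Finset.Ico 1 S.N, S.α j * S.φ j T ^ 2 ≤ B * Real.exp (2 * (T - s)) * Sd := by
    rw [hSd, Finset.mul_sum]
    apply Finset.sum_le_sum
    intro j hj
    have hj1 := (Finset.mem_Ico.1 hj).1
    have hjN := (Finset.mem_Ico.1 hj).2
    have hα := S.α_pos j hjN
    have hej := hs.ej j hj1 hjN
    have hsl := (hs.slope j hj1 hjN).2.2.1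
    have hg := hgr R q1 S T hT s (by linarith) hsT (S.e j) (S.e_pos j hjN).le hej S.U S.cU
      (fun x _ => ⟨S.sb_U_nonneg x, le_rfl⟩) (S.φ j) (S.dφ j) (S.sol j hjN) T ⟨hsT, hT.hLp.le⟩
    rw [sub_self, Real.exp_zero, mul_one] at hg
    have h1 : |S.φ j T| ≤ 2 * C₁ * Real.exp C₁ * Real.exp (T - s) * |S.dφ j s| := by
      have h2 : C₁ * (|S.φ j s| + |S.dφ j s|) * Real.exp (T - s + C₁) ≤
          C₁ * (2 * |S.dφ j s|) * Real.exp (T - s + C₁) := by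
        have := abs_nonneg (S.dφ j s)
        gcongr
        linarith
      have h3 : C₁ * (2 * |S.dφ j s|) * Real.exp (T - s + C₁) =
          2 * C₁ * Real.exp C₁ * Real.exp (T - s) * |S.dφ j s| := by
        rw [Real.exp_add]
        ring
      have h4 := abs_nonneg (S.dφ j T)
      linarith
    have h5 : S.φ j T ^ 2 ≤ B * Real.exp (2 * (T - s)) * S.dφ j s ^ 2 := by
      have h6 : |S.φ j T| ^ 2 ≤ (2 * C₁ * Real.exp C₁ * Real.exp (T - s) * |S.dφ j s|) ^ 2 := by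
        gcongr
      rw [sq_abs, mul_pow, mul_pow, sq_abs, ← hB, ← Real.exp_nat_mul] at h6
      push_cast at h6
      exact h6
    calc S.α j * S.φ j T ^ 2 ≤ S.α j * (B * Real.exp (2 * (T - s)) * S.dφ j s ^ 2) :=
          mul_le_mul_of_nonneg_left h5 hα.le
      _ = B * Real.exp (2 * (T - s)) * (S.α j * S.dφ j s ^ 2) := by ring
  have h8 : c₂ * Real.exp (-(2 * S.γ * T)) ≤ B * Real.exp (2 * T) * (S.γ * Sd) := by
    calc c₂ * Real.exp (-(2 * S.γ * T)) ≤ S.γ * ∑ j ∈ Finset.Ico 1 S.N, S.α j * S.φ j T ^ 2 := hexT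
      _ ≤ S.γ * (B * Real.exp (2 * (T - s)) * Sd) := mul_le_mul_of_nonneg_left hgrow hγ.le
      _ ≤ S.γ * (B * Real.exp (2 * T) * Sd) := by
          have : Real.exp (2 * (T - s)) ≤ Real.exp (2 * T) := Real.exp_le_exp.2 (by linarith)
          gcongr
      _ = B * Real.exp (2 * T) * (S.γ * Sd) := by ring
  have h9 : Real.exp (-(2 * (1 + S.γ) * T)) = Real.exp (-(2 * S.γ * T)) * Real.exp (-(2 * T)) := by
    rw [← Real.exp_add]
    congr 1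
    ring
  have h10 : Real.exp (2 * T) * Real.exp (-(2 * T)) = 1 := by
    rw [← Real.exp_add]
    simp
  calc c₂ * (9 / 10) / B * Real.exp (-(2 * (1 + S.γ) * T))
      = (9 / 10) / B * (c₂ * Real.exp (-(2 * S.γ * T))) * Real.exp (-(2 * T)) := by rw [h9]; ring
    _ ≤ (9 / 10) / B * (B * Real.exp (2 * T) * (S.γ * Sd)) * Real.exp (-(2 * T)) := by gcongr
    _ = 9 / 10 * (S.γ * Sd) * (B / B) * (Real.exp (2 * T) * Real.exp (-(2 * T))) := by ring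
    _ = 9 / 10 * (S.γ * Sd) := by rw [h10, div_self hBpos.ne']; ring
    _ ≤ S.Wr := hWr

end Pool.Agent.RLT40
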