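import Pool.Agent.RLT40.SpaceC

/-!
# Module SPEC (paper 3.3): spectral theory of `-f'' + (k² - U) f = -e ω f` in `H¹₀(a,b)`, `U ∈ L¹(a,b)`.

Direct method, no operators.  Coercivity: by H10_sup_young, `∫ |U| f² ≤ ‖U‖₁ sup f² ≤ ½ ∫ f'² + C_* ∫ ω f²` (`ω ≥ e^{2a}` on the interval).
Suppose `φ_1..φ_m` found.  On `X_m = {f ∈ H10 : ∫ ω f φ_i = 0}` let `e = sup -q(pot k 0 U) f / ∫ ω f²`; if `e > 0`: maximising sequence with `∫ ω f_n² = 1`,
`∫ f_n'²` bounded; by H10_holder and Arzela-Ascoli a subsequence is uniformly Cauchy; `Q(f) = q (pot k 0 U) f + e ∫ ω f² ≥ 0` on `X_m`,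
`Q(f_n) → 0`, so `Q(f_n - f_p) ≤ 2 Q(f_n) + 2 Q(f_p) → 0` and `∫ (f_n' - f_p')² = Q(f_n-f_p) - (lower order, → 0 by uniform convergence)`: Cauchy in
`H10`; the limit is the maximiser `φ_{m+1}`; first variation gives the weak equation on `X_m`, hence on `H10` (test with `φ_i`: weak equation of `φ_i`).
The process stops because `nneg a b (pot k 0 U) < ⊤`: on the span of `φ_1..φ_m` the form is negative.  Simplicity: two weak solutions with the same `e`:
the Wronskian `f g' - f' g` is constant (both derivatives are absolutely continuous), zero at `a`; so the `e_j` are strictly decreasing.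
`cnt`: `≥` by the span of the `φ_j` with `e_j > τ`; `≤`: a negative space of larger dimension contains `f ≠ 0` in `X_m` (`m` = number of `e_j > τ`),
on which `q(pot k τ U) ≥ (τ - e_{m+1}) ∫ ω f² ≥ 0` (or `≥ τ ∫ωf²` if there is no `e_{m+1}`).
-/

open MeasureTheory Set
open scoped ENNReal NNReal

namespace Pool.Agent.RLT40

/-! ### auxiliary lemmas -/

theorem SpecA_int_sq {a b : ℝ} {f : ℝ → ℝ} (hf : f ∈ H10 a b) : Integrable fun x => f x ^ 2 := by
  have h := (q_integrable (V := fun _ => (1 : ℝ)) (a := a) (b := b) (integrableOn_const (by simp)) hf).1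
  simpa using h

theorem SpecA_int_om {a b : ℝ} {f : ℝ → ℝ} (hf : f ∈ H10 a b) : Integrable fun x => om x * f x ^ 2 := by
  have hc : Continuous om := by unfold om; fun_prop
  exact (q_integrable (V := om) (a := a) (b := b)
    ((hc.integrableOn_Icc (a := a) (b := b)).mono_set Ioo_subset_Icc_self) hf).1

theorem SpecA_int_deriv {a b : ℝ} {f : ℝ → ℝ} (hf : f ∈ H10 a b) : Integrable fun x => deriv f x ^ 2 := by
  have h1 := (q_integrable (V := fun _ => (0 : ℝ)) (a := a) (b := b) integrableOn_zero hf).2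
  simpa using h1

theorem SpecA_pot_int {a b : ℝ} {U : ℝ → ℝ} (hU : IntegrableOn U (Ioo a b)) (k τ : ℝ) :
    IntegrableOn (pot k τ U) (Ioo a b) := by
  have hc : Continuous om := by unfold om; fun_prop
  have h1 : IntegrableOn (fun x => k ^ 2 - U x) (Ioo a b) :=
    (integrableOn_const (by simp)).sub hU
  have h2 : IntegrableOn (fun x => τ * om x) (Ioo a b) :=
    ((hc.integrableOn_Icc (a := a) (b := b)).mono_set Ioo_subset_Icc_self).const_mul τ
  exact h1.add h2

/-- the form of `pot k τ U` in terms of its pieces -/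
theorem SpecA_q {a b : ℝ} {U f : ℝ → ℝ} (hU : IntegrableOn U (Ioo a b)) (hf : f ∈ H10 a b) (k τ : ℝ) :
    q (pot k τ U) f = (∫ x, deriv f x ^ 2) + k ^ 2 * (∫ x, f x ^ 2) - (∫ x, U x * f x ^ 2) +
      τ * ∫ x, om x * f x ^ 2 := by
  rw [q_eq (SpecA_pot_int hU k τ) hf]
  have i1 := SpecA_int_sq hf
  have i2 := SpecA_int_om hf
  have i3 := (q_integrable hU hf).1
  have e : (fun x => pot k τ U x * f x ^ 2) = fun x => (k ^ 2 * f x ^ 2 - U x * f x ^ 2) + τ * (om x * f x ^ 2) := by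
    funext x
    unfold pot
    ring
  have i4 : Integrable fun x => k ^ 2 * f x ^ 2 - U x * f x ^ 2 := (i1.const_mul _).sub i3
  rw [e, integral_add i4 (i2.const_mul _), integral_sub (i1.const_mul _) i3,
    integral_const_mul, integral_const_mul]
  ring

theorem SpecA_U_le {a b : ℝ} {U f : ℝ → ℝ} (hU : IntegrableOn U (Ioo a b)) (hf : f ∈ H10 a b) {S : ℝ}
    (hS : ∀ x, f x ^ 2 ≤ S) : ∫ x, U x * f x ^ 2 ≤ S * ∫ x in Ioo a b, |U x| := by
  have e : ∫ x, U x * f x ^ 2 = ∫ x in Ioo a b, U x * f x ^ 2 := by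
    rw [setIntegral_eq_integral_of_forall_compl_eq_zero]
    intro x hx
    rw [H10_zero hf hx]
    ring
  rw [e, ← integral_const_mul]
  refine integral_mono (q_integrable hU hf).1.integrableOn (hU.abs.const_mul S) fun x => ?_
  have h1 : U x * f x ^ 2 ≤ |U x| * f x ^ 2 := by
    gcongr
    exact le_abs_self _
  have h2 : |U x| * f x ^ 2 ≤ |U x| * S := by
    gcongr
    exact hS x
  show U x * f x ^ 2 ≤ S * |U x|
  linarith [mul_comm S |U x|]

theorem SpecA_sq_le_om {a b : ℝ} {f : ℝ → ℝ} (hf : f ∈ H10 a b) :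
    ∫ x, f x ^ 2 ≤ Real.exp (-(2 * a)) * ∫ x, om x * f x ^ 2 := by
  rw [← integral_const_mul]
  refine integral_mono (SpecA_int_sq hf) ((SpecA_int_om hf).const_mul _) fun x => ?_
  show f x ^ 2 ≤ Real.exp (-(2 * a)) * (om x * f x ^ 2)
  by_cases hx : x ∈ Ioo a b
  · have h1 : 1 ≤ Real.exp (-(2 * a)) * om x := by
      unfold om
      rw [← Real.exp_add]
      exact Real.one_le_exp (by linarith [hx.1])
    calc f x ^ 2 = 1 * f x ^ 2 := (one_mul _).symm
      _ ≤ (Real.exp (-(2 * a)) * om x) * f x ^ 2 := by gcongr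
      _ = _ := by ring
  · rw [H10_zero hf hx]
    simp

theorem SpecA_om_le_sq {a b : ℝ} {f : ℝ → ℝ} (hf : f ∈ H10 a b) :
    ∫ x, om x * f x ^ 2 ≤ Real.exp (2 * b) * ∫ x, f x ^ 2 := by
  rw [← integral_const_mul]
  refine integral_mono (SpecA_int_om hf) ((SpecA_int_sq hf).const_mul _) fun x => ?_
  show om x * f x ^ 2 ≤ Real.exp (2 * b) * f x ^ 2
  by_cases hx : x ∈ Ioo a b
  · have h1 : om x ≤ Real.exp (2 * b) := by
      unfold om
      exact Real.exp_le_exp.2 (by linarith [hx.2])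
    gcongr
  · rw [H10_zero hf hx]
    simp

/-- coercivity on functions with negative form -/
theorem coercive {a b : ℝ} (hab : a < b) (M : ℝ) :
    ∃ Cs > 0, ∀ U : ℝ → ℝ, IntegrableOn U (Ioo a b) → (∫ x in Ioo a b, |U x|) ≤ M → ∀ k : ℝ, ∀ f ∈ H10 a b,
      q (pot k 0 U) f ≤ 0 → ∫ x, deriv f x ^ 2 ≤ Cs * ∫ x, om x * f x ^ 2 := by
  set N : ℝ := max M 1 with hN
  have hN0 : 0 < N := lt_of_lt_of_le one_pos (le_max_right _ _)
  refine ⟨4 * N ^ 2 * Real.exp (-(2 * a)), by positivity, ?_⟩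
  intro U hU hUM k f hf hq
  rw [SpecA_q hU hf] at hq
  set D := ∫ x, deriv f x ^ 2 with hD
  set I := ∫ x, f x ^ 2 with hI
  have hI0 : 0 ≤ I := integral_nonneg fun x => sq_nonneg _
  have hD0 : 0 ≤ D := integral_nonneg fun x => sq_nonneg _
  have hk : 0 ≤ k ^ 2 * I := by positivity
  have hsup : ∀ x, f x ^ 2 ≤ (2 * N)⁻¹ * D + (2 * N)⁻¹⁻¹ * I := fun x =>
    H10_sup_young hf (by positivity) x
  have h1 := SpecA_U_le hU hf hsup
  have hS0 : 0 ≤ (2 * N)⁻¹ * D + (2 * N)⁻¹⁻¹ * I := by positivity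
  have h2 : ((2 * N)⁻¹ * D + (2 * N)⁻¹⁻¹ * I) * (∫ x in Ioo a b, |U x|) ≤
      ((2 * N)⁻¹ * D + (2 * N)⁻¹⁻¹ * I) * N := by
    gcongr
    exact hUM.trans (le_max_left _ _)
  have h3 : ((2 * N)⁻¹ * D + (2 * N)⁻¹⁻¹ * I) * N = D / 2 + 2 * N ^ 2 * I := by
    rw [inv_inv]
    field_simp
  have h4 : D ≤ 4 * N ^ 2 * I := by
    rw [zero_mul, add_zero] at hq
    linarith
  have h5 := SpecA_sq_le_om hf
  calc D ≤ 4 * N ^ 2 * I := h4
    _ ≤ 4 * N ^ 2 * (Real.exp (-(2 * a)) * ∫ x, om x * f x ^ 2) := by gcongr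
    _ = _ := by ring

/-- a member of `H¹₀(a,b)` vanishing at the `N` equally spaced points `a + i (b-a)/N` has small `L²` norm -/
theorem SpecA_poincare {a b : ℝ} (hab : a < b) {f : ℝ → ℝ} (hf : f ∈ H10 a b) {N : ℕ} (hN : 0 < N)
    (h0 : ∀ i : Fin N, f (a + (i : ℝ) * ((b - a) / N)) = 0) :
    ∫ x, f x ^ 2 ≤ (b - a) ^ 2 / N * ∫ x, deriv f x ^ 2 := by
  set D := ∫ x, deriv f x ^ 2 with hD
  have hD0 : 0 ≤ D := integral_nonneg fun x => sq_nonneg _
  have hN' : (0 : ℝ) < N := by exact_mod_cast hN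
  set h : ℝ := (b - a) / N with hh
  have hpos : 0 < h := div_pos (by linarith) hN'
  have key : ∀ x, f x ^ 2 ≤ h * D := by
    intro x
    by_cases hx : x ∈ Ioo a b
    · set j : ℕ := ⌊(x - a) / h⌋₊ with hj
      have hx1 : 0 ≤ (x - a) / h := div_nonneg (by linarith [hx.1]) hpos.le
      have hj1 : (j : ℝ) ≤ (x - a) / h := Nat.floor_le hx1
      have hj2 : (x - a) / h < j + 1 := Nat.lt_floor_add_one _
      have hj3 : j < N := by
        have : (x - a) / h < N := by
          rw [div_lt_iff₀ hpos, hh, mul_div_cancel₀ _ hN'.ne']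
          linarith [hx.2]
        exact_mod_cast lt_of_le_of_lt hj1 this
      have e1 := h0 ⟨j, hj3⟩
      have e2 := H10_holder hf (a + (j : ℝ) * h) x
      simp only at e1
      rw [e1, sub_zero] at e2
      refine e2.trans ?_
      have e3 : |x - (a + (j : ℝ) * h)| ≤ h := by
        rw [le_div_iff₀ hpos] at hj1
        rw [div_lt_iff₀ hpos] at hj2
        rw [abs_le]
        constructor <;> linarith
      gcongr
    · rw [H10_zero hf hx]
      simpa using mul_nonneg hpos.le hD0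
  have e : ∫ x, f x ^ 2 = ∫ x in Ioo a b, f x ^ 2 := by
    rw [setIntegral_eq_integral_of_forall_compl_eq_zero]
    intro x hx
    rw [H10_zero hf hx]
    ring
  rw [e]
  have e2 : ∫ x in Ioo a b, f x ^ 2 ≤ ∫ x in Ioo a b, h * D :=
    integral_mono (SpecA_int_sq hf).integrableOn (integrableOn_const (by simp)) fun x => key x
  refine e2.trans (le_of_eq ?_)
  rw [setIntegral_const, smul_eq_mul, Real.volume_real_Ioo_of_le hab.le, hh]
  ring

/-- uniform finiteness (for sequences of potentials): dimension bound depending only on `‖U‖₁` -/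
theorem nneg_pot_lt_top {a b : ℝ} {U : ℝ → ℝ} (hU : IntegrableOn U (Ioo a b)) (k τ : ℝ) (hk : 0 ≤ k) (hτ : 0 ≤ τ) :
    nneg a b (pot k τ U) < ⊤ := by
  rcases le_or_gt b a with hab | hab
  · rw [nneg_empty hab]
    exact WithTop.coe_lt_top 0
  obtain ⟨Cs, hCs, hco⟩ := coercive hab (∫ x in Ioo a b, |U x|)
  set C : ℝ := Cs * Real.exp (2 * b) with hC
  have hC0 : 0 < C := by positivity
  obtain ⟨N, hN⟩ := exists_nat_gt (C * (b - a) ^ 2)
  have hN' : (0 : ℝ) < N := lt_of_le_of_lt (by positivity) hN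
  have hN0 : 0 < N := by exact_mod_cast hN'
  refine lt_of_le_of_lt (nneg_le_iff (n := N).2 ?_) (ENat.natCast_lt_top N)
  intro F hF hFd hneg
  by_contra hlt
  rw [not_le] at hlt
  -- evaluation at the grid points
  let T : F →ₗ[ℝ] (Fin N → ℝ) :=
    { toFun := fun f i => (f : ℝ → ℝ) (a + (i : ℝ) * ((b - a) / N))
      map_add' := fun f g => by funext i; simp
      map_smul' := fun c f => by funext i; simp }
  have hker : LinearMap.ker T ≠ ⊥ := LinearMap.ker_ne_bot_of_finrank_lt (by simpa using hlt)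
  obtain ⟨f, hfk, hf0⟩ := (Submodule.ne_bot_iff _).1 hker
  have hfH : (f : ℝ → ℝ) ∈ H10 a b := hF f.2
  have hz : ∀ i : Fin N, (f : ℝ → ℝ) (a + (i : ℝ) * ((b - a) / N)) = 0 := fun i =>
    congrFun (LinearMap.mem_ker.1 hfk) i
  have hfne : (f : ℝ → ℝ) ≠ 0 := fun h => hf0 (Subtype.ext h)
  have hq := hneg f f.2 hfne
  have hq0 : q (pot k 0 U) f ≤ 0 := by
    rw [SpecA_q hU hfH] at hq ⊢
    have : 0 ≤ τ * ∫ x, om x * (f : ℝ → ℝ) x ^ 2 :=
      mul_nonneg hτ (integral_nonneg fun x => by unfold om; positivity)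
    linarith
  have h1 := hco U hU le_rfl k f hfH hq0
  have h2 := SpecA_om_le_sq hfH
  have h3 := SpecA_poincare hab hfH hN0 hz
  set D := ∫ x, deriv (f : ℝ → ℝ) x ^ 2 with hD
  set I := ∫ x, (f : ℝ → ℝ) x ^ 2 with hI
  have hD0 : 0 ≤ D := integral_nonneg fun x => sq_nonneg _
  have hI0 : 0 ≤ I := integral_nonneg fun x => sq_nonneg _
  have h4 : D ≤ C * I := by
    calc D ≤ Cs * ∫ x, om x * (f : ℝ → ℝ) x ^ 2 := h1
      _ ≤ Cs * (Real.exp (2 * b) * I) := by gcongr
      _ = C * I := by ring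
  have h5 : D ≤ C * ((b - a) ^ 2 / N * D) := h4.trans (by gcongr)
  have h6 : C * ((b - a) ^ 2 / N * D) = (C * (b - a) ^ 2 / N) * D := by ring
  have h7 : C * (b - a) ^ 2 / N < 1 := by rw [div_lt_one hN']; exact hN
  have h8 : D = 0 := by
    rw [h6] at h5
    by_contra hne
    have : 0 < D := lt_of_le_of_ne hD0 (Ne.symm hne)
    nlinarith
  apply hfne
  funext x
  have h9 := H10_sup_sq hab.le hfH x
  rw [← hD, h8, mul_zero] at h9
  have : (f : ℝ → ℝ) x ^ 2 = 0 := le_antisymm h9 (sq_nonneg _)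
  simpa using this

end Pool.Agent.RLT40
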