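import Mathlib

/-!
# Module SPEC: the abstract part of the spectral theorem

Two symmetric bilinear forms `B`, `W` on a real vector space, `W` positive definite.  `ASpec B W m e φ`: the first `m`
eigenfunctions of `B f = - e W f` (in decreasing order of `e`), obtained by maximising `- B f f / W f f`.
-/

namespace Pool.Agent.RLT40.SpB

variable {E : Type*} [AddCommGroup E] [Module ℝ E]

/-- data of the direct method after `m` steps -/
structure ASpec (B W : E →ₗ[ℝ] E →ₗ[ℝ] ℝ) (m : ℕ) (e : ℕ → ℝ) (φ : ℕ → E) : Prop where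
  ne : ∀ j < m, φ j ≠ 0
  pos : ∀ j < m, 0 < e j
  anti : ∀ i j, i < j → j < m → e j < e i
  weak : ∀ j < m, ∀ f, B (φ j) f + e j * W (φ j) f = 0
  orth : ∀ i < m, ∀ j < m, i ≠ j → W (φ i) (φ j) = 0
  max : ∀ j < m, ∀ f, (∀ i < j, W f (φ i) = 0) → 0 ≤ B f f + e j * W f f

variable {B W : E →ₗ[ℝ] E →ₗ[ℝ] ℝ}

lemma quad_zero {x y : ℝ} (h : ∀ t : ℝ, 0 ≤ 2 * t * x + t ^ 2 * y) : x = 0 := by
  by_contra hx
  have h1 := h (-x / (|y| + 1))
  have hy : 0 < |y| + 1 := by positivity
  have h2 : 2 * (-x / (|y| + 1)) * x + (-x / (|y| + 1)) ^ 2 * y =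
      x ^ 2 * (y - 2 * (|y| + 1)) / (|y| + 1) ^ 2 := by
    field_simp
    ring
  rw [h2] at h1
  have h3 : x ^ 2 * (y - 2 * (|y| + 1)) < 0 := by
    apply mul_neg_of_pos_of_neg (by positivity)
    have := le_abs_self y
    have := abs_nonneg y
    linarith
  have h4 : x ^ 2 * (y - 2 * (|y| + 1)) / (|y| + 1) ^ 2 < 0 := div_neg_of_neg_of_pos h3 (by positivity)
  linarith

/-- the extension step -/
theorem ASpec.extend (hB : ∀ f g, B f g = B g f) (hW : ∀ f g, W f g = W g f)
    (hWp : ∀ f, f ≠ 0 → 0 < W f f)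
    (hatt : ∀ (m : ℕ) (φ : ℕ → E), (∃ f, (∀ i < m, W f (φ i) = 0) ∧ B f f < 0) →
      ∃ e > 0, ∃ ψ, ψ ≠ 0 ∧ (∀ i < m, W ψ (φ i) = 0) ∧ B ψ ψ + e * W ψ ψ = 0 ∧
        ∀ f, (∀ i < m, W f (φ i) = 0) → 0 ≤ B f f + e * W f f)
    (hsimple : ∀ e φ ψ, φ ≠ 0 → ψ ≠ 0 → (∀ f, B φ f + e * W φ f = 0) →
      (∀ f, B ψ f + e * W ψ f = 0) → W φ ψ ≠ 0)
    {m : ℕ} {e : ℕ → ℝ} {φ : ℕ → E} (h : ASpec B W m e φ)
    (hf : ∃ f, (∀ i < m, W f (φ i) = 0) ∧ B f f < 0) :
    ∃ e' φ', ASpec B W (m + 1) e' φ' := by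
  classical
  obtain ⟨em, hem, ψ, hψ0, hψX, hψQ, hmax⟩ := hatt m φ hf
  -- weak equation
  have hweakX : ∀ f, (∀ i < m, W f (φ i) = 0) → B ψ f + em * W ψ f = 0 := by
    intro f hfX
    refine quad_zero (y := B f f + em * W f f) fun t => ?_
    have h1 := hmax (ψ + t • f) (fun i hi => by
      rw [map_add, map_smul, LinearMap.add_apply, LinearMap.smul_apply, hψX i hi, hfX i hi]; simp)
    have h2 : B (ψ + t • f) (ψ + t • f) + em * W (ψ + t • f) (ψ + t • f) =
        (B ψ ψ + em * W ψ ψ) + 2 * t * (B ψ f + em * W ψ f) + t ^ 2 * (B f f + em * W f f) := by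
      simp only [map_add, map_smul, LinearMap.add_apply, LinearMap.smul_apply, smul_eq_mul]
      rw [hB f ψ, hW f ψ]
      ring
    rw [h2, hψQ, zero_add] at h1
    exact h1
  have hweak : ∀ f, B ψ f + em * W ψ f = 0 := by
    intro f
    set c : ℕ → ℝ := fun i => W f (φ i) / W (φ i) (φ i) with hc
    set g : E := f - ∑ i ∈ Finset.range m, c i • φ i with hg
    have hgX : ∀ i < m, W g (φ i) = 0 := by
      intro i hi
      rw [hg, map_sub, LinearMap.sub_apply, map_sum, LinearMap.sum_apply,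
        Finset.sum_eq_single i]
      · rw [map_smul, LinearMap.smul_apply, smul_eq_mul, hc]
        have := (hWp _ (h.ne i hi)).ne'
        field_simp
        ring
      · intro j hj hji
        rw [map_smul, LinearMap.smul_apply, h.orth j (Finset.mem_range.1 hj) i hi hji, smul_zero]
      · intro hi'
        exact absurd (Finset.mem_range.2 hi) hi'
    have h1 := hweakX g hgX
    have h2 : ∀ i ∈ Finset.range m, B ψ (c i • φ i) + em * W ψ (c i • φ i) = 0 := by
      intro i hi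
      have hi' := Finset.mem_range.1 hi
      have h3 := h.weak i hi' ψ
      have h4 : W ψ (φ i) = 0 := hψX i hi'
      rw [map_smul, map_smul, smul_eq_mul, smul_eq_mul, h4, mul_zero, mul_zero, add_zero, hB]
      rw [hW, h4, mul_zero, add_zero] at h3
      rw [h3, mul_zero]
    have h3 : f = g + ∑ i ∈ Finset.range m, c i • φ i := by rw [hg]; abel
    rw [h3, map_add, map_add, map_sum, map_sum, mul_add, Finset.mul_sum]
    have h4 := Finset.sum_eq_zero h2
    rw [Finset.sum_add_distrib] at h4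
    linarith
  -- the new data
  refine ⟨Function.update e m em, Function.update φ m ψ, ?_⟩
  have hu1 : ∀ j < m, Function.update e m em j = e j := fun j hj =>
    Function.update_of_ne (ne_of_lt hj) _ _
  have hu2 : ∀ j < m, Function.update φ m ψ j = φ j := fun j hj =>
    Function.update_of_ne (ne_of_lt hj) _ _
  have hum1 : Function.update e m em m = em := Function.update_self _ _ _
  have hum2 : Function.update φ m ψ m = ψ := Function.update_self _ _ _
  have hlt : ∀ i < m, em < e i := by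
    intro i hi
    have h1 := h.max i hi ψ (fun j hj => hψX j (hj.trans hi))
    have h2 : 0 ≤ (e i - em) * W ψ ψ := by linarith
    have h3 : 0 ≤ e i - em := nonneg_of_mul_nonneg_left h2 (hWp ψ hψ0)
    rcases eq_or_lt_of_le h3 with h4 | h4
    · exfalso
      have h5 : em = e i := by linarith
      refine hsimple em ψ (φ i) hψ0 (h.ne i hi) hweak ?_ (hψX i hi)
      rw [h5]
      exact h.weak i hi
    · linarith
  refine ⟨?_, ?_, ?_, ?_, ?_, ?_⟩
  · intro j hj
    rcases Nat.lt_succ_iff_lt_or_eq.1 hj with hj | rfl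
    · rw [hu2 j hj]; exact h.ne j hj
    · rw [hum2]; exact hψ0
  · intro j hj
    rcases Nat.lt_succ_iff_lt_or_eq.1 hj with hj | rfl
    · rw [hu1 j hj]; exact h.pos j hj
    · rw [hum1]; exact hem
  · intro i j hij hj
    rcases Nat.lt_succ_iff_lt_or_eq.1 hj with hj | rfl
    · rw [hu1 j hj, hu1 i (hij.trans hj)]; exact h.anti i j hij hj
    · rw [hum1, hu1 i hij]; exact hlt i hij
  · intro j hj
    rcases Nat.lt_succ_iff_lt_or_eq.1 hj with hj | rfl
    · rw [hu1 j hj, hu2 j hj]; exact h.weak j hj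
    · rw [hum1, hum2]; exact hweak
  · intro i hi j hj hij
    rcases Nat.lt_succ_iff_lt_or_eq.1 hi with hi | rfl
    · rcases Nat.lt_succ_iff_lt_or_eq.1 hj with hj | rfl
      · rw [hu2 i hi, hu2 j hj]; exact h.orth i hi j hj hij
      · rw [hum2, hu2 i hi, hW]; exact hψX i hi
    · rcases Nat.lt_succ_iff_lt_or_eq.1 hj with hj | rfl
      · rw [hum2, hu2 j hj]; exact hψX j hj
      · exact absurd rfl hij
  · intro j hj f hfj
    rcases Nat.lt_succ_iff_lt_or_eq.1 hj with hj | rfl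
    · rw [hu1 j hj]
      refine h.max j hj f fun i hi => ?_
      have := hfj i hi
      rwa [hu2 i (hi.trans hj)] at this
    · rw [hum1]
      refine hmax f fun i hi => ?_
      have := hfj i hi
      rwa [hu2 i hi] at this

/-- the form on a combination of eigenfunctions -/
lemma ASpec.form_sum {m : ℕ} {e : ℕ → ℝ} {φ : ℕ → E} (h : ASpec B W m e φ)
    (τ : ℝ) {J : Finset ℕ} (hJ : ∀ j ∈ J, j < m) (c : ℕ → ℝ) :
    B (∑ j ∈ J, c j • φ j) (∑ j ∈ J, c j • φ j) +
      τ * W (∑ j ∈ J, c j • φ j) (∑ j ∈ J, c j • φ j) =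
    ∑ j ∈ J, c j ^ 2 * ((τ - e j) * W (φ j) (φ j)) := by
  have h1 : ∀ i ∈ J, ∀ j ∈ J, B (φ i) (φ j) + τ * W (φ i) (φ j) =
      if i = j then (τ - e i) * W (φ i) (φ i) else 0 := by
    intro i hi j hj
    have h2 := h.weak i (hJ i hi) (φ j)
    split_ifs with hij
    · subst hij
      linear_combination h2
    · rw [h.orth i (hJ i hi) j (hJ j hj) hij] at h2 ⊢
      linarith
  simp only [map_sum, LinearMap.sum_apply, map_smul, LinearMap.smul_apply, smul_eq_mul]
  rw [Finset.mul_sum, ← Finset.sum_add_distrib]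
  refine Finset.sum_congr rfl fun j hj => ?_
  have h3 : ∑ i ∈ J, c i * B (φ i) (φ j) + τ * ∑ i ∈ J, c i * W (φ i) (φ j) =
      c j * ((τ - e j) * W (φ j) (φ j)) := by
    rw [Finset.mul_sum, ← Finset.sum_add_distrib, Finset.sum_eq_single j]
    · have h2 := h1 j hj j hj
      rw [if_pos rfl] at h2
      linear_combination c j * h2
    · intro i hi hij
      have h2 := h1 i hi j hj
      rw [if_neg hij] at h2
      linear_combination c i * h2
    · intro h4
      exact absurd hj h4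
  linear_combination c j * h3

/-- orthogonality gives linear independence -/
lemma ASpec.linInd (hWp : ∀ f, f ≠ 0 → 0 < W f f) {m : ℕ} {e : ℕ → ℝ}
    {φ : ℕ → E} (h : ASpec B W m e φ) {J : Finset ℕ} (hJ : ∀ j ∈ J, j < m) :
    LinearIndependent ℝ (fun j : J => φ j) := by
  classical
  rw [linearIndependent_iff']
  intro s g hg i hi
  have h1 : W (∑ j ∈ s, g j • φ j) (φ i) = 0 := by rw [hg]; simp
  rw [map_sum, LinearMap.sum_apply, Finset.sum_eq_single i] at h1
  · rw [map_smul, LinearMap.smul_apply, smul_eq_mul] at h1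
    rcases mul_eq_zero.1 h1 with h2 | h2
    · exact h2
    · exact absurd h2 (hWp _ (h.ne i (hJ i i.2))).ne'
  · intro j _ hji
    rw [map_smul, LinearMap.smul_apply, h.orth j (hJ j j.2) i (hJ i i.2)
      (fun e => hji (Subtype.ext e)), smul_zero]
  · intro h2
    exact absurd hi h2

/-- the space spanned by the eigenfunctions with `e_j > τ` -/
theorem ASpec.neg_space (hWp : ∀ f, f ≠ 0 → 0 < W f f) {m : ℕ}
    {e : ℕ → ℝ} {φ : ℕ → E} (h : ASpec B W m e φ) (τ : ℝ) :
    ∃ F : Submodule ℝ E, FiniteDimensional ℝ F ∧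
      Module.finrank ℝ F = ((Finset.range m).filter fun j => τ < e j).card ∧
      ∀ f ∈ F, f ≠ 0 → B f f + τ * W f f < 0 := by
  classical
  set J := (Finset.range m).filter fun j => τ < e j with hJdef
  have hJ : ∀ j ∈ J, j < m := fun j hj => Finset.mem_range.1 (Finset.mem_filter.1 hj).1
  have hJ2 : ∀ j ∈ J, τ < e j := fun j hj => (Finset.mem_filter.1 hj).2
  have hli := h.linInd hWp hJ
  refine ⟨Submodule.span ℝ (Set.range fun j : J => φ j), ?_, ?_, ?_⟩
  · exact FiniteDimensional.span_of_finite ℝ (Set.finite_range _)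
  · rw [finrank_span_eq_card hli, Fintype.card_coe]
  · intro f hf hf0
    obtain ⟨c, hc⟩ := (Submodule.mem_span_range_iff_exists_fun ℝ).1 hf
    set c' : ℕ → ℝ := fun j => if hj : j ∈ J then c ⟨j, hj⟩ else 0 with hc'
    have h1 : f = ∑ j ∈ J, c' j • φ j := by
      rw [← hc, ← Finset.sum_coe_sort J (fun j => c' j • φ j)]
      refine Finset.sum_congr rfl fun j _ => ?_
      rw [hc']
      simp only [Finset.coe_mem, dif_pos, Subtype.coe_eta]
    rw [h1, h.form_sum τ hJ c']
    have h2 : ∀ j ∈ J, c' j ^ 2 * ((τ - e j) * W (φ j) (φ j)) ≤ 0 := by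
      intro j hj
      have h3 := hWp _ (h.ne j (hJ j hj))
      have h4 := hJ2 j hj
      apply mul_nonpos_of_nonneg_of_nonpos (sq_nonneg _)
      exact mul_nonpos_of_nonpos_of_nonneg (by linarith) h3.le
    refine Finset.sum_neg' h2 ?_
    by_contra hcon
    push Not at hcon
    apply hf0
    rw [h1]
    refine Finset.sum_eq_zero fun j hj => ?_
    have h3 := hcon j hj
    have h4 := hWp _ (h.ne j (hJ j hj))
    have h5 := hJ2 j hj
    have h6 : (τ - e j) * W (φ j) (φ j) < 0 := mul_neg_of_neg_of_pos (by linarith) h4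
    have h7 : c' j ^ 2 = 0 := by
      by_contra h8
      have h9 : 0 < c' j ^ 2 := lt_of_le_of_ne (sq_nonneg _) (Ne.symm h8)
      have := mul_neg_of_pos_of_neg h9 h6
      linarith
    rw [pow_eq_zero_iff (two_ne_zero)] at h7
    rw [h7, zero_smul]

/-- upper bound of the dimension of negative spaces -/
theorem ASpec.neg_bound (hWp : ∀ f, f ≠ 0 → 0 < W f f) {m : ℕ}
    {e : ℕ → ℝ} {φ : ℕ → E} (h : ASpec B W m e φ)
    (hstop : ∀ f, (∀ i < m, W f (φ i) = 0) → 0 ≤ B f f) {τ : ℝ} (hτ : 0 ≤ τ)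
    (F : Submodule ℝ E) [FiniteDimensional ℝ F] (hF : ∀ f ∈ F, f ≠ 0 → B f f + τ * W f f < 0) :
    Module.finrank ℝ F ≤ ((Finset.range m).filter fun j => τ < e j).card := by
  classical
  set J := (Finset.range m).filter fun j => τ < e j with hJdef
  by_contra hcon
  push Not at hcon
  set T : F →ₗ[ℝ] (J → ℝ) := LinearMap.pi fun j =>
    (W.flip (φ j)).comp F.subtype with hT
  have h1 : LinearMap.ker T ≠ ⊥ := LinearMap.ker_ne_bot_of_finrank_lt (by
    rw [Module.finrank_fintype_fun_eq_card, Fintype.card_coe]; exact hcon)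
  obtain ⟨⟨f, hfF⟩, hfT, hf0⟩ := (Submodule.ne_bot_iff _).1 h1
  have hf0' : f ≠ 0 := fun e => hf0 (Subtype.ext e)
  have hfW : ∀ j ∈ J, W f (φ j) = 0 := by
    intro j hj
    have h2 : T ⟨f, hfF⟩ ⟨j, hj⟩ = 0 := by
      rw [LinearMap.mem_ker.1 hfT]; rfl
    exact h2
  have h2 := hF f hfF hf0'
  have hWf := hWp f hf0'
  -- the first index with `e_j ≤ τ`
  by_cases hall : ∀ j < m, τ < e j
  · have h3 := hstop f fun i hi => hfW i (Finset.mem_filter.2 ⟨Finset.mem_range.2 hi, hall i hi⟩)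
    have h4 : 0 ≤ τ * W f f := by positivity
    linarith
  · have hex : ∃ j, j < m ∧ e j ≤ τ := by push Not at hall; exact hall
    have hn1 := (Nat.find_spec hex).1
    have hn2 := (Nat.find_spec hex).2
    set n := Nat.find hex with hn
    have h3 := h.max n hn1 f (fun i hi => hfW i (by
      rw [Finset.mem_filter, Finset.mem_range]
      refine ⟨hi.trans hn1, ?_⟩
      by_contra hcon'
      exact Nat.find_min hex hi ⟨hi.trans hn1, not_lt.1 hcon'⟩))
    have h4 : 0 ≤ (τ - e n) * W f f := mul_nonneg (by linarith) hWf.le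
    linarith

/-- the process stops -/
theorem exists_ASpec (hB : ∀ f g, B f g = B g f) (hW : ∀ f g, W f g = W g f)
    (hWp : ∀ f, f ≠ 0 → 0 < W f f)
    (hatt : ∀ (m : ℕ) (φ : ℕ → E), (∃ f, (∀ i < m, W f (φ i) = 0) ∧ B f f < 0) →
      ∃ e > 0, ∃ ψ, ψ ≠ 0 ∧ (∀ i < m, W ψ (φ i) = 0) ∧ B ψ ψ + e * W ψ ψ = 0 ∧
        ∀ f, (∀ i < m, W f (φ i) = 0) → 0 ≤ B f f + e * W f f)
    (hsimple : ∀ e φ ψ, φ ≠ 0 → ψ ≠ 0 → (∀ f, B φ f + e * W φ f = 0) →
      (∀ f, B ψ f + e * W ψ f = 0) → W φ ψ ≠ 0)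
    {N : ℕ} (hfin : ∀ F : Submodule ℝ E, FiniteDimensional ℝ F → (∀ f ∈ F, f ≠ 0 → B f f < 0) →
      Module.finrank ℝ F ≤ N) :
    ∃ m e φ, ASpec B W m e φ ∧ ∀ f, (∀ i < m, W f (φ i) = 0) → 0 ≤ B f f := by
  classical
  by_contra hcon
  push Not at hcon
  have h1 : ∀ m, ∃ e φ, ASpec B W m e φ := by
    intro m
    induction m with
    | zero =>
      exact ⟨fun _ => 0, fun _ => 0, ⟨fun j hj => absurd hj (Nat.not_lt_zero _),
        fun j hj => absurd hj (Nat.not_lt_zero _), fun i j _ hj => absurd hj (Nat.not_lt_zero _),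
        fun j hj => absurd hj (Nat.not_lt_zero _), fun j hj => absurd hj (Nat.not_lt_zero _),
        fun j hj => absurd hj (Nat.not_lt_zero _)⟩⟩
    | succ m ih =>
      obtain ⟨e, φ, h⟩ := ih
      obtain ⟨f, hf1, hf2⟩ := hcon m e φ h
      exact h.extend hB hW hWp hatt hsimple ⟨f, hf1, hf2⟩
  obtain ⟨e, φ, h⟩ := h1 (N + 1)
  obtain ⟨F, hF1, hF2, hF3⟩ := h.neg_space hWp 0
  have h2 := hfin F hF1 (fun f hf hf0 => by
    have := hF3 f hf hf0
    rwa [zero_mul, add_zero] at this)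
  rw [hF2, Finset.filter_true_of_mem (fun j hj => h.pos j (Finset.mem_range.1 hj)),
    Finset.card_range] at h2
  omega

end Pool.Agent.RLT40.SpB
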