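import Pool.Agent.RLT40.Layer
import Pool.Agent.RLT40.SpecA

/-!
# Modules USC, MAXEX (paper 3.2): weak upper semicontinuity and existence of a maximiser on a box.

USC: `U_n` bounded in `L²(a,b)` (hence in `L¹`), `U_n → U` weakly in `L²(a,b)` (tested against continuous functions / `L²` functions).  The set
`{f ∈ H10 : ∫ f'² ≤ 1}` is totally bounded in the sup norm (H10_holder, Arzela-Ascoli), so
`η_n = sup_{∫f'²≤1} |∫ (U_n - U) f²| → 0`.  If `F` is negative for `pot k τ U_n` then for `f ∈ F`: `∫ f'² ≤ C_* ∫ ω f²` (coercive), so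
`q (pot k (τ - C_* η_n) U) f < 0`: `N_τ(U_n) ≤ N_{τ - δ_n}(U)` for `τ > δ_n := C_* η_n`.  Then (`γ ≤ 1`)
`G(U_n) ≤ δ_n^γ N_max + ∫_{τ>δ_n} γ (τ-δ_n)^{γ-1} N_{τ-δ_n}(U) dτ ≤ δ_n^γ N_max + G(U)`, `N_max` from Ntot_le (`N_τ ≤ (3/16)∫U_n²`).
-/

open MeasureTheory Set
open scoped ENNReal NNReal

namespace Pool.Agent.RLT40

theorem usca_inner {μ : Measure ℝ} {f h : ℝ → ℝ} (hf : MemLp f 2 μ) (hh : MemLp h 2 μ) :
    inner ℝ hf.toLp hh.toLp = ∫ x, f x * h x ∂μ := by
  rw [L2.inner_def]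
  apply integral_congr_ae
  filter_upwards [hf.coeFn_toLp, hh.coeFn_toLp] with t h1 h2
  rw [h1, h2]
  simp [mul_comm]

theorem usca_norm {μ : Measure ℝ} {f : ℝ → ℝ} (hf : MemLp f 2 μ) : ‖hf.toLp‖ = Real.sqrt (∫ x, f x ^ 2 ∂μ) := by
  rw [← Real.sqrt_sq (norm_nonneg _), ← real_inner_self_eq_norm_sq, usca_inner hf hf]
  simp only [sq]

theorem usca_cs {μ : Measure ℝ} {f h : ℝ → ℝ} (hf : MemLp f 2 μ) (hh : MemLp h 2 μ) :
    |∫ x, f x * h x ∂μ| ≤ Real.sqrt (∫ x, f x ^ 2 ∂μ) * Real.sqrt (∫ x, h x ^ 2 ∂μ) := by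
  rw [← usca_inner hf hh, ← usca_norm hf, ← usca_norm hh]
  exact abs_real_inner_le_norm _ _

/-- integration by parts bound -/
theorem usca_ibp {a b : ℝ} (hab : a < b) {D : ℝ → ℝ} (hD : IntegrableOn D (Ioo a b)) {f : ℝ → ℝ} (hf : f ∈ H10 a b) :
    |∫ x in Ioo a b, D x * f x ^ 2| ≤
      2 * Real.sqrt ((b - a) * ∫ x in Ioo a b, (∫ t in a..x, D t) ^ 2) * ∫ x, deriv f x ^ 2 := by
  set W : ℝ → ℝ := fun x => ∫ t in a..x, D t with hW
  have hDi : IntervalIntegrable D volume a b := by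
    rw [intervalIntegrable_iff_integrableOn_Ioo_of_le hab.le]
    exact hD
  have hWac : AbsolutelyContinuousOnInterval W a b :=
    hDi.absolutelyContinuousOnInterval_intervalIntegral (c := a) (by simp)
  have hfac := SpaceA_ac hf a b
  have hF : AbsolutelyContinuousOnInterval (fun x => f x ^ 2) a b := by
    have := hfac.fun_mul hfac
    simpa only [sq] using this
  have hib := hF.integral_mul_deriv_eq_deriv_mul hWac
  have hfa : f a = 0 := H10_zero hf (by simp)
  have hfb : f b = 0 := H10_zero hf (by simp)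
  simp only [hfa, hfb] at hib
  have e1 : ∫ x in Ioo a b, D x * f x ^ 2 = ∫ x in a..b, f x ^ 2 * deriv W x := by
    rw [intervalIntegral.integral_of_le hab.le, integral_Ioc_eq_integral_Ioo]
    apply setIntegral_congr_ae measurableSet_Ioo
    filter_upwards [hDi.ae_hasDerivAt_integral] with x hx hx2
    have h1 := hx (by rw [uIcc_of_le hab.le]; exact Ioo_subset_Icc_self hx2) a (by simp)
    rw [h1.deriv, mul_comm]
  have e2 : ∫ x in a..b, deriv (fun x => f x ^ 2) x * W x = ∫ x in Ioo a b, deriv f x * (2 * f x * W x) := by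
    rw [intervalIntegral.integral_of_le hab.le, integral_Ioc_eq_integral_Ioo]
    apply setIntegral_congr_ae measurableSet_Ioo
    filter_upwards [H10_ae_deriv hf] with x hx _
    rw [(hx.fun_pow 2).deriv]
    simp only [Nat.cast_ofNat, Nat.add_one_sub_one, pow_one]
    ring
  rw [e1, hib, e2]
  have hWc : ContinuousOn W (Icc a b) := by
    have := hWac.continuousOn
    rwa [uIcc_of_le hab.le] at this
  have hfc := H10_continuous hf
  obtain ⟨CW, hCW⟩ := isCompact_Icc.exists_bound_of_continuousOn hWc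
  set A : ℝ := ∫ x, deriv f x ^ 2 with hA
  have hA0 : 0 ≤ A := integral_nonneg fun x => sq_nonneg _
  set μ : Measure ℝ := volume.restrict (Ioo a b) with hμ
  have hfin : IsFiniteMeasure μ := ⟨by rw [hμ, Measure.restrict_apply_univ]; exact measure_Ioo_lt_top⟩
  have hIoo : ∀ᵐ x ∂μ, x ∈ Ioo a b := ae_restrict_mem measurableSet_Ioo
  have hg2 : MemLp (deriv f) 2 μ := (H10_deriv_memLp hf).restrict _
  have hfb' : ∀ x, |f x| ≤ Real.sqrt ((b - a) * A) := fun x => Real.abs_le_sqrt (H10_sup_sq hab.le hf x)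
  have hh2 : MemLp (fun x => 2 * f x * W x) 2 μ := by
    apply MemLp.of_bound (C := 2 * Real.sqrt ((b - a) * A) * CW)
    · apply AEStronglyMeasurable.mul (by fun_prop)
      exact (hWc.mono Ioo_subset_Icc_self).aestronglyMeasurable measurableSet_Ioo
    · filter_upwards [hIoo] with x hx
      rw [Real.norm_eq_abs, abs_mul, abs_mul, abs_two]
      have h1 := hfb' x
      have h2 := hCW x (Ioo_subset_Icc_self hx)
      rw [Real.norm_eq_abs] at h2
      have := abs_nonneg (f x)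
      have := abs_nonneg (W x)
      have := Real.sqrt_nonneg ((b - a) * A)
      gcongr
  have hcs := usca_cs hg2 hh2
  have hWint : Integrable (fun x => W x ^ 2) μ := by
    have hWm : AEStronglyMeasurable W μ := (hWc.mono Ioo_subset_Icc_self).aestronglyMeasurable measurableSet_Ioo
    have : MemLp W 2 μ := by
      apply MemLp.of_bound hWm CW
      filter_upwards [hIoo] with x hx
      exact hCW x (Ioo_subset_Icc_self hx)
    exact this.integrable_sq
  have hi1 : (∫ x, deriv f x ^ 2 ∂μ) ≤ A := by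
    apply setIntegral_le_integral (H10_deriv_memLp hf).integrable_sq (Filter.Eventually.of_forall fun x => sq_nonneg _)
  have hi2 : (∫ x, (2 * f x * W x) ^ 2 ∂μ) ≤ 4 * ((b - a) * A) * ∫ x, W x ^ 2 ∂μ := by
    rw [← integral_const_mul]
    apply integral_mono_ae hh2.integrable_sq (hWint.const_mul _)
    filter_upwards with x
    have h1 := H10_sup_sq hab.le hf x
    have h2 := sq_nonneg (W x)
    nlinarith
  have hW0 : 0 ≤ ∫ x, W x ^ 2 ∂μ := integral_nonneg fun x => sq_nonneg _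
  calc |0 ^ 2 * W b - 0 ^ 2 * W a - ∫ x in Ioo a b, deriv f x * (2 * f x * W x)|
      = |∫ x in Ioo a b, deriv f x * (2 * f x * W x)| := by
        rw [← abs_neg]; congr 1; ring
    _ ≤ Real.sqrt (∫ x, deriv f x ^ 2 ∂μ) * Real.sqrt (∫ x, (2 * f x * W x) ^ 2 ∂μ) := hcs
    _ ≤ Real.sqrt A * Real.sqrt (4 * ((b - a) * A) * ∫ x, W x ^ 2 ∂μ) := by
        gcongr
    _ = 2 * Real.sqrt ((b - a) * ∫ x, W x ^ 2 ∂μ) * A := by
        have hba : 0 ≤ b - a := by linarith
        rw [← Real.sqrt_mul hA0]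
        have : A * (4 * ((b - a) * A) * ∫ x, W x ^ 2 ∂μ) = (2 * A) ^ 2 * ((b - a) * ∫ x, W x ^ 2 ∂μ) := by ring
        rw [this, Real.sqrt_mul (sq_nonneg _), Real.sqrt_sq (by positivity)]
        ring

theorem usca_approx {a b : ℝ} (x : ℝ) {δ : ℝ} (hδ : 0 < δ) :
    ∃ h : ℝ → ℝ, Continuous h ∧ MemLp h 2 (volume.restrict (Ioo a b)) ∧
      Real.sqrt (∫ t in Ioo a b, ((Ioc a x).indicator (fun _ => (1 : ℝ)) t - h t) ^ 2) ≤ δ := by
  set μ : Measure ℝ := volume.restrict (Ioo a b) with hμ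
  have hfin : IsFiniteMeasure μ := ⟨by rw [hμ, Measure.restrict_apply_univ]; exact measure_Ioo_lt_top⟩
  have hI : MemLp ((Ioc a x).indicator (fun _ => (1 : ℝ))) 2 μ := by
    apply MemLp.of_bound (C := 1) (measurable_const.indicator measurableSet_Ioc).aestronglyMeasurable
    refine Filter.Eventually.of_forall fun t => ?_
    by_cases ht : t ∈ Ioc a x <;> simp [ht]
  obtain ⟨g, hg1, hg2⟩ := hI.exists_boundedContinuous_eLpNorm_sub_le (by norm_num)
    (ε := ENNReal.ofReal δ) (by simpa using hδ)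
  refine ⟨g, g.continuous, hg2, ?_⟩
  have hs : MemLp (fun t => (Ioc a x).indicator (fun _ => (1 : ℝ)) t - g t) 2 μ := hI.sub hg2
  rw [← usca_norm hs, Lp.norm_toLp]
  exact ENNReal.toReal_le_of_le_ofReal hδ.le hg1

/-- pointwise convergence of the primitives -/
theorem usca_W {a b : ℝ} {Dn : ℕ → ℝ → ℝ} (hD : ∀ n, MemLp (Dn n) 2 (volume.restrict (Ioo a b))) {K : ℝ}
    (hK : ∀ n, Real.sqrt (∫ x in Ioo a b, Dn n x ^ 2) ≤ K)
    (hweak : ∀ h : ℝ → ℝ, Continuous h → Filter.Tendsto (fun n => ∫ x in Ioo a b, Dn n x * h x) Filter.atTop (nhds 0))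
    {x : ℝ} (hx : x ∈ Icc a b) :
    Filter.Tendsto (fun n => ∫ t in a..x, Dn n t) Filter.atTop (nhds 0) := by
  set μ : Measure ℝ := volume.restrict (Ioo a b) with hμ
  have hfin : IsFiniteMeasure μ := ⟨by rw [hμ, Measure.restrict_apply_univ]; exact measure_Ioo_lt_top⟩
  have hK0 : 0 ≤ K := (Real.sqrt_nonneg _).trans (hK 0)
  have hI : MemLp ((Ioc a x).indicator (fun _ => (1 : ℝ))) 2 μ := by
    apply MemLp.of_bound (C := 1) (measurable_const.indicator measurableSet_Ioc).aestronglyMeasurable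
    refine Filter.Eventually.of_forall fun t => ?_
    by_cases ht : t ∈ Ioc a x <;> simp [ht]
  have e : ∀ n, ∫ t in a..x, Dn n t = ∫ t, Dn n t * (Ioc a x).indicator (fun _ => (1 : ℝ)) t ∂μ := by
    intro n
    rw [intervalIntegral.integral_of_le hx.1]
    have e1 : (fun t => Dn n t * (Ioc a x).indicator (fun _ => (1 : ℝ)) t) = (Ioc a x).indicator (Dn n) := by
      funext t
      by_cases ht : t ∈ Ioc a x <;> simp [ht]
    rw [e1, integral_indicator measurableSet_Ioc, hμ, Measure.restrict_restrict measurableSet_Ioc]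
    apply setIntegral_congr_set
    rcases hx.2.eq_or_lt with h | h
    · rw [h, inter_comm, inter_eq_left.2 Ioo_subset_Ioc_self]
      exact Ioo_ae_eq_Ioc.symm
    · have h7 : Ioc a x ⊆ Ioo a b := fun t ht => ⟨ht.1, ht.2.trans_lt h⟩
      exact Filter.EventuallyEq.of_eq (inter_eq_left.2 h7).symm
  simp only [e]
  rw [Metric.tendsto_atTop]
  intro ε hε
  obtain ⟨h, hc, hm, hh⟩ := usca_approx (a := a) (b := b) x (δ := ε / (2 * (K + 1))) (by positivity)
  obtain ⟨N, hN⟩ := (Metric.tendsto_atTop.1 (hweak h hc)) (ε / 2) (by positivity)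
  refine ⟨N, fun n hn => ?_⟩
  have h1 := hN n hn
  rw [Real.dist_eq, sub_zero] at h1 ⊢
  have hs : MemLp (fun t => (Ioc a x).indicator (fun _ => (1 : ℝ)) t - h t) 2 μ := hI.sub hm
  have h2 := usca_cs (hD n) hs
  have e2 : ∫ t, Dn n t * ((Ioc a x).indicator (fun _ => (1 : ℝ)) t - h t) ∂μ =
      (∫ t, Dn n t * (Ioc a x).indicator (fun _ => (1 : ℝ)) t ∂μ) - ∫ t, Dn n t * h t ∂μ := by
    have i1 : Integrable (fun t => Dn n t * (Ioc a x).indicator (fun _ => (1 : ℝ)) t) μ := (hD n).integrable_mul hI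
    have i2 : Integrable (fun t => Dn n t * h t) μ := (hD n).integrable_mul hm
    rw [← integral_sub i1 i2]
    congr 1
    funext t
    ring
  rw [e2] at h2
  have h3 : Real.sqrt (∫ x, Dn n x ^ 2 ∂μ) * Real.sqrt (∫ t, ((Ioc a x).indicator (fun _ => (1 : ℝ)) t - h t) ^ 2 ∂μ) ≤
      K * (ε / (2 * (K + 1))) := mul_le_mul (hK n) hh (Real.sqrt_nonneg _) hK0
  have h4 : K * (ε / (2 * (K + 1))) < ε / 2 := by
    rw [← mul_div_assoc, div_lt_div_iff₀ (by positivity) (by positivity)]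
    nlinarith
  have h5 := h2.trans h3
  have h6 := abs_sub_abs_le_abs_sub (∫ t, Dn n t * (Ioc a x).indicator (fun _ => (1 : ℝ)) t ∂μ) (∫ t, Dn n t * h t ∂μ)
  linarith

/-- uniform smallness of the form of the difference -/
theorem usca_eta {a b : ℝ} (hab : a < b) {Dn : ℕ → ℝ → ℝ} (hD : ∀ n, MemLp (Dn n) 2 (volume.restrict (Ioo a b))) {K : ℝ}
    (hK : ∀ n, Real.sqrt (∫ x in Ioo a b, Dn n x ^ 2) ≤ K)
    (hweak : ∀ h : ℝ → ℝ, Continuous h → Filter.Tendsto (fun n => ∫ x in Ioo a b, Dn n x * h x) Filter.atTop (nhds 0))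
    {ε : ℝ} (hε : 0 < ε) :
    ∀ᶠ n in Filter.atTop, ∀ f ∈ H10 a b, |∫ x in Ioo a b, Dn n x * f x ^ 2| ≤ ε * ∫ x, deriv f x ^ 2 := by
  set μ : Measure ℝ := volume.restrict (Ioo a b) with hμ
  have hfin : IsFiniteMeasure μ := ⟨by rw [hμ, Measure.restrict_apply_univ]; exact measure_Ioo_lt_top⟩
  have hIoo : ∀ᵐ x ∂μ, x ∈ Ioo a b := ae_restrict_mem measurableSet_Ioo
  have hK0 : 0 ≤ K := (Real.sqrt_nonneg _).trans (hK 0)
  have hDi : ∀ n, IntegrableOn (Dn n) (Ioo a b) := fun n => (hD n).integrable (by norm_num)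
  have hDii : ∀ n, IntervalIntegrable (Dn n) volume a b := by
    intro n
    rw [intervalIntegrable_iff_integrableOn_Ioo_of_le hab.le]
    exact hDi n
  set Wn : ℕ → ℝ → ℝ := fun n x => ∫ t in a..x, Dn n t with hWn
  have hWc : ∀ n, ContinuousOn (Wn n) (Icc a b) := by
    intro n
    have := ((hDii n).absolutelyContinuousOnInterval_intervalIntegral (c := a) (by simp)).continuousOn
    rwa [uIcc_of_le hab.le] at this
  -- uniform bound
  have hone : MemLp (fun _ : ℝ => (1 : ℝ)) 2 μ := memLp_const 1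
  have hWb : ∀ n, ∀ x ∈ Icc a b, |Wn n x| ≤ K * Real.sqrt (b - a) := by
    intro n x hx
    have h1 : |Wn n x| ≤ ∫ t, |Dn n t| ∂μ := by
      have h2 : |Wn n x| ≤ ∫ t in a..x, |Dn n t| := by
        have := intervalIntegral.abs_integral_le_integral_abs (f := Dn n) (μ := volume) hx.1
        exact this
      refine h2.trans ?_
      rw [intervalIntegral.integral_of_le hx.1]
      calc ∫ t in Ioc a x, |Dn n t| ≤ ∫ t in Ioc a b, |Dn n t| := by
            apply setIntegral_mono_set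
            · have := (hDii n).abs
              rwa [intervalIntegrable_iff_integrableOn_Ioc_of_le hab.le] at this
            · exact Filter.Eventually.of_forall fun t => abs_nonneg _
            · exact (Ioc_subset_Ioc_right hx.2).eventuallyLE
        _ = _ := by rw [integral_Ioc_eq_integral_Ioo]
    have h3 : MemLp (fun t => |Dn n t|) 2 μ := (hD n).abs
    have h4 := usca_cs h3 hone
    simp only [mul_one, sq_abs, one_pow] at h4
    rw [abs_of_nonneg (integral_nonneg fun t => abs_nonneg _)] at h4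
    have h5 : ∫ _t, (1 : ℝ) ∂μ = b - a := by
      rw [hμ]
      simp [hab.le]
    rw [h5] at h4
    exact h1.trans (h4.trans (mul_le_mul_of_nonneg_right (hK n) (Real.sqrt_nonneg _)))
  have hlim : Filter.Tendsto (fun n => ∫ x, Wn n x ^ 2 ∂μ) Filter.atTop (nhds 0) := by
    have h0 : (0 : ℝ) = ∫ _x, (0 : ℝ) ∂μ := by simp
    rw [h0]
    apply tendsto_integral_of_dominated_convergence (fun _ => (K * Real.sqrt (b - a)) ^ 2)
    · intro n
      exact (((hWc n).mono Ioo_subset_Icc_self).aestronglyMeasurable measurableSet_Ioo).pow 2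
    · exact integrable_const _
    · intro n
      filter_upwards [hIoo] with x hx
      rw [Real.norm_eq_abs, abs_pow]
      exact pow_le_pow_left₀ (abs_nonneg _) (hWb n x (Ioo_subset_Icc_self hx)) 2
    · filter_upwards [hIoo] with x hx
      have := usca_W hD hK hweak (Ioo_subset_Icc_self hx)
      simpa using this.pow 2
  have hlim2 : Filter.Tendsto (fun n => 2 * Real.sqrt ((b - a) * ∫ x, Wn n x ^ 2 ∂μ)) Filter.atTop (nhds 0) := by
    have h1 := ((hlim.const_mul (b - a)).sqrt).const_mul 2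
    simpa using h1
  filter_upwards [hlim2.eventually (ge_mem_nhds hε)] with n hn f hf
  have h1 := usca_ibp hab (hDi n) hf
  exact h1.trans (mul_le_mul_of_nonneg_right hn (integral_nonneg fun x => sq_nonneg _))

/-- comparison of the forms of two potentials `pot` -/
theorem usca_pot {a b : ℝ} {U V : ℝ → ℝ} (hU : IntegrableOn U (Ioo a b)) (hV : IntegrableOn V (Ioo a b)) (k τ τ' : ℝ)
    {f : ℝ → ℝ} (hf : f ∈ H10 a b) :
    q (pot k τ' U) f = q (pot k τ V) f + (∫ x in Ioo a b, (V x - U x) * f x ^ 2) + (τ' - τ) * ∫ x, om x * f x ^ 2 := by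
  have hc : ∀ g : ℝ → ℝ, Continuous g → IntegrableOn g (Ioo a b) := fun g hg =>
    (hg.continuousOn.integrableOn_Icc (a := a) (b := b)).mono_set Ioo_subset_Icc_self
  have hom : Continuous om := by unfold om; fun_prop
  have hp : ∀ (τ : ℝ) {W : ℝ → ℝ}, IntegrableOn W (Ioo a b) → IntegrableOn (pot k τ W) (Ioo a b) := by
    intro τ W hW
    exact ((hc (fun _ => k ^ 2) continuous_const).sub hW).add ((hc _ hom).const_mul τ)
  rw [q_eq (hp τ' hU) hf, q_eq (hp τ hV) hf]
  have i1 := (q_integrable (hp τ' hU) hf).1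
  have i2 := (q_integrable (hp τ hV) hf).1
  have i3 := (q_integrable (hc _ hom) hf).1
  have i4 : Integrable (fun x => (V x - U x) * f x ^ 2) := (q_integrable (V := fun x => V x - U x) (hV.sub hU) hf).1
  have e : ∫ x in Ioo a b, (V x - U x) * f x ^ 2 = ∫ x, (V x - U x) * f x ^ 2 := by
    apply setIntegral_eq_integral_of_forall_compl_eq_zero
    intro x hx
    rw [H10_zero hf hx]
    ring
  have i5 : Integrable (fun x => (τ' - τ) * (om x * f x ^ 2)) := i3.const_mul _
  have e2 : ∫ x, pot k τ' U x * f x ^ 2 =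
      (∫ x, pot k τ V x * f x ^ 2) + (∫ x, (V x - U x) * f x ^ 2) + ∫ x, (τ' - τ) * (om x * f x ^ 2) := by
    have i6 : Integrable (fun x => pot k τ V x * f x ^ 2 + (V x - U x) * f x ^ 2) := i2.add i4
    rw [← integral_add i2 i4, ← integral_add i6 i5]
    congr 1
    funext x
    simp only [pot]
    ring
  rw [e, e2, integral_const_mul]
  ring

theorem usca_nneg {a b : ℝ} {U V : ℝ → ℝ} (hU : IntegrableOn U (Ioo a b)) (hV : IntegrableOn V (Ioo a b))
    {Cs ε : ℝ} (hε : 0 < ε)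
    (hco : ∀ k : ℝ, ∀ f ∈ H10 a b, q (pot k 0 V) f ≤ 0 → ∫ x, deriv f x ^ 2 ≤ Cs * ∫ x, om x * f x ^ 2)
    (heta : ∀ f ∈ H10 a b, |∫ x in Ioo a b, (V x - U x) * f x ^ 2| ≤ ε * ∫ x, deriv f x ^ 2) (k : ℝ) {τ : ℝ} (hτ : 0 ≤ τ) :
    nneg a b (pot k τ V) ≤ nneg a b (pot k (τ - Cs * ε) U) := by
  unfold nneg
  apply iSup_mono
  intro F
  apply iSup_mono'
  rintro ⟨h1, h2, h3⟩
  refine ⟨⟨h1, h2, fun f hfF hf0 => ?_⟩, le_rfl⟩
  have hf := h1 hfF
  have hq := h3 f hfF hf0
  have hom0 : 0 ≤ ∫ x, om x * f x ^ 2 := integral_nonneg fun x => mul_nonneg (Real.exp_pos _).le (sq_nonneg _)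
  have e0 := usca_pot hV hV k τ 0 hf
  simp only [sub_self, zero_mul, integral_zero, add_zero, zero_sub] at e0
  have h4 : q (pot k 0 V) f ≤ 0 := by
    rw [e0]
    nlinarith [mul_nonneg hτ hom0]
  have h5 := hco k f hf h4
  have h6 := heta f hf
  rw [usca_pot hU hV k τ (τ - Cs * ε) hf]
  have h7 := (abs_le.1 h6).2
  have h8 : ε * ∫ x, deriv f x ^ 2 ≤ ε * (Cs * ∫ x, om x * f x ^ 2) := mul_le_mul_of_nonneg_left h5 hε.le
  have e9 : (τ - Cs * ε - τ) * ∫ x, om x * f x ^ 2 = -(ε * (Cs * ∫ x, om x * f x ^ 2)) := by ring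
  rw [e9]
  linarith

theorem usca_lint {γ δ : ℝ} (hγ : 0 < γ) (hδ : 0 < δ) :
    ∫⁻ τ in Ioc (0 : ℝ) δ, ENNReal.ofReal (γ * τ ^ (γ - 1)) = ENNReal.ofReal (δ ^ γ) := by
  have hi : IntervalIntegrable (fun τ : ℝ => γ * τ ^ (γ - 1)) volume 0 δ :=
    (intervalIntegral.intervalIntegrable_rpow' (by linarith)).const_mul γ
  rw [← ofReal_integral_eq_lintegral_ofReal ((intervalIntegrable_iff_integrableOn_Ioc_of_le hδ.le).1 hi)]
  · congr 1
    rw [← intervalIntegral.integral_of_le hδ.le, intervalIntegral.integral_const_mul,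
      integral_rpow (Or.inl (by linarith)), sub_add_cancel, Real.zero_rpow hγ.ne']
    field_simp
    ring
  · filter_upwards [ae_restrict_mem measurableSet_Ioc] with τ hτ
    exact mul_nonneg hγ.le (Real.rpow_nonneg hτ.1.le _)

/-- the estimate of `G` -/
theorem usca_G {γ a b : ℝ} (hγ : 0 < γ) (hγ1 : γ ≤ 1) {U V : ℝ → ℝ} {δ : ℝ} (hδ : 0 < δ) {N : ℝ≥0∞}
    (hN : ∀ τ : ℝ, 0 ≤ τ → Ntot a b V τ ≤ N)
    (hle : ∀ τ : ℝ, δ < τ → Ntot a b V τ ≤ Ntot a b U (τ - δ)) :
    Gf γ a b V ≤ N * ENNReal.ofReal (δ ^ γ) + Gf γ a b U := by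
  unfold Gf
  have hunion : Ioi (0 : ℝ) = Ioc 0 δ ∪ Ioi δ := (Ioc_union_Ioi_eq_Ioi hδ.le).symm
  have hdisj : Disjoint (Ioc (0 : ℝ) δ) (Ioi δ) := Ioc_disjoint_Ioi le_rfl
  nth_rw 1 [hunion]
  rw [lintegral_union measurableSet_Ioi hdisj]
  apply add_le_add
  · calc ∫⁻ τ in Ioc 0 δ, ENNReal.ofReal (γ * τ ^ (γ - 1)) * Ntot a b V τ
        ≤ ∫⁻ τ in Ioc 0 δ, N * ENNReal.ofReal (γ * τ ^ (γ - 1)) := by
          apply setLIntegral_mono' measurableSet_Ioc
          intro τ hτ
          rw [mul_comm]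
          exact mul_le_mul' (hN τ hτ.1.le) le_rfl
      _ = N * ENNReal.ofReal (δ ^ γ) := by
          rw [← usca_lint hγ hδ, lintegral_const_mul _ (by fun_prop)]
  · calc ∫⁻ τ in Ioi δ, ENNReal.ofReal (γ * τ ^ (γ - 1)) * Ntot a b V τ
        ≤ ∫⁻ τ in Ioi δ, (fun s => ENNReal.ofReal (γ * s ^ (γ - 1)) * Ntot a b U s) (τ - δ) := by
          apply setLIntegral_mono' measurableSet_Ioi
          intro τ hτ
          have h1 : 0 < τ - δ := sub_pos.2 hτ
          have h2 : τ - δ ≤ τ := by linarith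
          apply mul_le_mul'
          · apply ENNReal.ofReal_le_ofReal
            apply mul_le_mul_of_nonneg_left _ hγ.le
            exact Real.rpow_le_rpow_of_nonpos h1 h2 (by linarith)
          · exact hle τ hτ
      _ = ∫⁻ s in Ioi (0 : ℝ), ENNReal.ofReal (γ * s ^ (γ - 1)) * Ntot a b U s := by
          have h := (measurePreserving_sub_right (volume : Measure ℝ) δ).setLIntegral_comp_preimage_emb
            (MeasurableEquiv.subRight δ).measurableEmbedding
            (fun s => ENNReal.ofReal (γ * s ^ (γ - 1)) * Ntot a b U s) (Ioi 0)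
          rw [← h]
          congr 2
          ext x
          simp

theorem usc {γ a b : ℝ} (hab : a < b) (hγ : 0 < γ) (hγ1 : γ ≤ 1) {Un : ℕ → ℝ → ℝ} {U : ℝ → ℝ}
    (hUn : ∀ n, Adm1 γ a b (Un n)) (hU : Adm1 γ a b U) {M : ℝ} (hM : ∀ n, (∫ x in Ioo a b, Un n x ^ 2) ≤ M)
    (hweak : ∀ h : ℝ → ℝ, Continuous h → Filter.Tendsto (fun n => ∫ x in Ioo a b, Un n x * h x) Filter.atTop
      (nhds (∫ x in Ioo a b, U x * h x))) :
    Filter.limsup (fun n => Gf γ a b (Un n)) Filter.atTop ≤ Gf γ a b U := by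
  set μ : Measure ℝ := volume.restrict (Ioo a b) with hμ
  have hfin : IsFiniteMeasure μ := ⟨by rw [hμ, Measure.restrict_apply_univ]; exact measure_Ioo_lt_top⟩
  have h2p : (2 : ℝ≥0∞) ≤ ENNReal.ofReal (2 + γ) := by
    rw [show (2 : ℝ≥0∞) = ENNReal.ofReal 2 by simp]
    exact ENNReal.ofReal_le_ofReal (by linarith)
  have hUn2 : ∀ n, MemLp (Un n) 2 μ := fun n => (hUn n).2.mono_exponent h2p
  have hU2 : MemLp U 2 μ := hU.2.mono_exponent h2p
  have hUni : ∀ n, IntegrableOn (Un n) (Ioo a b) := fun n => (hUn2 n).integrable (by norm_num)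
  have hUi : IntegrableOn U (Ioo a b) := hU2.integrable (by norm_num)
  set Dn : ℕ → ℝ → ℝ := fun n x => Un n x - U x with hDn
  have hD : ∀ n, MemLp (Dn n) 2 μ := fun n => (hUn2 n).sub hU2
  have hK : ∀ n, Real.sqrt (∫ x in Ioo a b, Dn n x ^ 2) ≤ Real.sqrt M + Real.sqrt (∫ x, U x ^ 2 ∂μ) := by
    intro n
    rw [← usca_norm (hD n), ← usca_norm hU2]
    have e : (hD n).toLp = (hUn2 n).toLp - hU2.toLp := MemLp.toLp_sub (hUn2 n) hU2
    rw [e]
    refine (norm_sub_le _ _).trans ?_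
    gcongr
    rw [usca_norm (hUn2 n)]
    exact Real.sqrt_le_sqrt (hM n)
  have hw : ∀ h : ℝ → ℝ, Continuous h → Filter.Tendsto (fun n => ∫ x in Ioo a b, Dn n x * h x) Filter.atTop (nhds 0) := by
    intro h hh
    have hh2 : MemLp h 2 μ := by
      obtain ⟨C, hC⟩ := isCompact_Icc.exists_bound_of_continuousOn (s := Icc a b) hh.continuousOn
      apply MemLp.of_bound hh.aestronglyMeasurable C
      filter_upwards [ae_restrict_mem measurableSet_Ioo] with x hx
      exact hC x (Ioo_subset_Icc_self hx)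
    have h1 := (hweak h hh).sub_const (∫ x in Ioo a b, U x * h x)
    rw [sub_self] at h1
    refine h1.congr fun n => ?_
    have i1 : Integrable (fun x => Un n x * h x) μ := (hUn2 n).integrable_mul hh2
    have i2 : Integrable (fun x => U x * h x) μ := hU2.integrable_mul hh2
    rw [← integral_sub i1 i2]
    congr 1
    funext x
    simp only [hDn]
    ring
  have hone : MemLp (fun _ : ℝ => (1 : ℝ)) 2 μ := memLp_const 1
  have hL1 : ∀ n, (∫ x in Ioo a b, |Un n x|) ≤ Real.sqrt M * Real.sqrt (b - a) := by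
    intro n
    have h3 : MemLp (fun t => |Un n t|) 2 μ := (hUn2 n).abs
    have h4 := usca_cs h3 hone
    simp only [mul_one, sq_abs, one_pow] at h4
    rw [abs_of_nonneg (integral_nonneg fun t => abs_nonneg _)] at h4
    have h5 : ∫ _t, (1 : ℝ) ∂μ = b - a := by
      rw [hμ]
      simp [hab.le]
    rw [h5] at h4
    refine h4.trans (mul_le_mul_of_nonneg_right (Real.sqrt_le_sqrt (hM n)) (Real.sqrt_nonneg _))
  obtain ⟨Cs, hCs, hco⟩ := coercive hab (Real.sqrt M * Real.sqrt (b - a))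
  set N : ℝ≥0∞ := ENNReal.ofReal (3 / 16 * M) with hN
  have hNle : ∀ n, ∀ τ : ℝ, 0 ≤ τ → Ntot a b (Un n) τ ≤ N := by
    intro n τ hτ
    refine (Ntot_le hγ (hUn n) hτ).trans ?_
    have hi : Integrable (fun x => 3 / 16 * Un n x ^ 2) μ := (hUn2 n).integrable_sq.const_mul _
    calc Atau a b (Un n) τ ≤ ∫⁻ x, ENNReal.ofReal (3 / 16 * Un n x ^ 2) ∂μ := by
          apply lintegral_mono
          intro x
          apply ENNReal.ofReal_le_ofReal
          have h0 := (hUn n).1 x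
          have h1 : max (Un n x - τ * om x) 0 ≤ Un n x := by
            apply max_le _ h0
            have : 0 ≤ τ * om x := mul_nonneg hτ (Real.exp_pos _).le
            linarith
          have h2 : 0 ≤ max (Un n x - τ * om x) 0 := le_max_right _ _
          nlinarith
      _ = ENNReal.ofReal (∫ x, 3 / 16 * Un n x ^ 2 ∂μ) := by
          rw [ofReal_integral_eq_lintegral_ofReal hi]
          exact Filter.Eventually.of_forall fun x => by positivity
      _ ≤ N := by
          apply ENNReal.ofReal_le_ofReal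
          rw [integral_const_mul]
          have := hM n
          gcongr
  have key : ∀ ε : ℝ, 0 < ε → Filter.limsup (fun n => Gf γ a b (Un n)) Filter.atTop ≤
      N * ENNReal.ofReal ((Cs * ε) ^ γ) + Gf γ a b U := by
    intro ε hε
    apply Filter.limsup_le_of_le
    · isBoundedDefault
    filter_upwards [usca_eta hab hD hK hw hε] with n hn
    apply usca_G hγ hγ1 (mul_pos hCs hε) (hNle n)
    intro τ hτ
    have hτ0 : 0 ≤ τ := (mul_pos hCs hε).le.trans hτ.le
    unfold Ntot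
    apply ENNReal.tsum_le_tsum
    intro k
    apply mul_le_mul' le_rfl
    rw [ENat.toENNReal_le]
    exact usca_nneg hUi (hUni n) hε (hco (Un n) (hUni n) (hL1 n)) hn _ hτ0
  have hlim : Filter.Tendsto (fun m : ℕ => N * ENNReal.ofReal ((Cs * (1 / ((m : ℝ) + 1))) ^ γ) + Gf γ a b U) Filter.atTop
      (nhds (N * ENNReal.ofReal ((Cs * 0) ^ γ) + Gf γ a b U)) := by
    apply Filter.Tendsto.add_const
    apply ENNReal.Tendsto.const_mul _ (Or.inr ENNReal.ofReal_ne_top)
    apply ENNReal.tendsto_ofReal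
    have h1 : Filter.Tendsto (fun m : ℕ => Cs * (1 / ((m : ℝ) + 1))) Filter.atTop (nhds (Cs * 0)) :=
      tendsto_one_div_add_atTop_nhds_zero_nat.const_mul Cs
    exact h1.rpow_const (Or.inr hγ.le)
  have h0 : N * ENNReal.ofReal ((Cs * 0) ^ γ) + Gf γ a b U = Gf γ a b U := by
    rw [mul_zero, Real.zero_rpow hγ.ne', ENNReal.ofReal_zero, mul_zero, zero_add]
  rw [h0] at hlim
  exact ge_of_tendsto' hlim fun m => key _ (by positivity)

end Pool.Agent.RLT40
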