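import Pool.Agent.RLT40.IMS
import Pool.Agent.RLT40.Layer

/-!
# Module WINDOW (paper 4, inequalities (W), (W')).

`C J(U) = G(U) ≤ G(Um; window) + G(Uo; (a,b)) ≤ G(Um; window) + C J(Uo)` (nneg_window, maximality; all finite), and
`J(U) - J(Uo) ≥ J(Um; window) - 2 ∫_{O ∩ I} (U + π²/ℓ²)^{2+γ} w`.
-/

open MeasureTheory Set
open scoped ENNReal NNReal

namespace Pool.Agent.RLT40

/-- the two end zones of a window -/
def Oz (α β ℓ : ℝ) : Set ℝ := Ioo α (α + ℓ) ∪ Ioo (β - ℓ) β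

theorem measurableSet_Oz (α β ℓ : ℝ) : MeasurableSet (Oz α β ℓ) := measurableSet_Ioo.union measurableSet_Ioo

theorem win_Um_continuous {U : ℝ → ℝ} (hU : Continuous U) (α β ℓ : ℝ) : Continuous (Um U α β ℓ) :=
  hU.add (thd_continuous.pow 2)

theorem win_Um_le {U : ℝ → ℝ} {α β ℓ : ℝ} (hℓ : 0 < ℓ) (h : α + 2 * ℓ ≤ β) (x : ℝ) :
    Um U α β ℓ x ≤ U x + Real.pi ^ 2 / ℓ ^ 2 := by
  unfold Um
  have h1 := thd_sq_le hℓ h x
  have h2 : (Ioo α (α + ℓ) ∪ Ioo (β - ℓ) β).indicator (fun _ => Real.pi ^ 2 / ℓ ^ 2) x ≤ Real.pi ^ 2 / ℓ ^ 2 :=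
    indicator_le_self' (fun _ _ => by positivity) x
  linarith

theorem win_Um_eq {U : ℝ → ℝ} {α β ℓ : ℝ} (hℓ : 0 < ℓ) (h : α + 2 * ℓ ≤ β) {x : ℝ} (hx : x ∉ Oz α β ℓ) :
    Um U α β ℓ x = U x := by
  unfold Um
  have h1 := thd_sq_le hℓ h x
  have h2 : (Ioo α (α + ℓ) ∪ Ioo (β - ℓ) β).indicator (fun _ => Real.pi ^ 2 / ℓ ^ 2) x = 0 :=
    indicator_of_notMem hx _
  rw [h2] at h1
  have h3 : thd α β ℓ x ^ 2 = 0 := le_antisymm h1 (sq_nonneg _)
  rw [h3, add_zero]

theorem win_Ntot_measurable {a b : ℝ} {U : ℝ → ℝ} (hU : IntegrableOn U (Ioo a b)) : Measurable (Ntot a b U) :=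
  Antitone.measurable fun _ _ h => Ntot_anti hU h

theorem win_integrable {a b : ℝ} {U : ℝ → ℝ} (hU : Continuous U) : IntegrableOn U (Ioo a b) :=
  (hU.continuousOn.integrableOn_compact isCompact_Icc).mono_set Ioo_subset_Icc_self

theorem win_Gf_le {γ a b : ℝ} {U : ℝ → ℝ} (hU : Continuous U) {α β ℓ : ℝ} (hℓ : 0 < ℓ) (h : α + 2 * ℓ ≤ β) :
    Gf γ a b U ≤ Gf γ (max a α) (min b β) (Um U α β ℓ) + Gf γ a b (Uo U α β ℓ) := by
  unfold Gf
  have hm : Measurable fun τ : ℝ => ENNReal.ofReal (γ * τ ^ (γ - 1)) :=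
    ENNReal.measurable_ofReal.comp ((measurable_id.pow_const _).const_mul _)
  have hm2 : Measurable fun τ : ℝ => ENNReal.ofReal (γ * τ ^ (γ - 1)) * Ntot (max a α) (min b β) (Um U α β ℓ) τ :=
    hm.mul (win_Ntot_measurable (win_integrable (win_Um_continuous hU α β ℓ)))
  rw [← lintegral_add_left hm2]
  refine lintegral_mono fun τ => ?_
  rw [← mul_add]
  refine mul_le_mul_right ?_ _
  unfold Ntot
  rw [← ENNReal.tsum_add]
  refine ENNReal.tsum_le_tsum fun k => ?_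
  rw [← mul_add]
  refine mul_le_mul_right ?_ _
  have h1 := nneg_window (win_integrable (a := a) (b := b) hU) hℓ h (k + 1) τ
  calc ((nneg a b (pot (k + 1) τ U) : ℕ∞) : ℝ≥0∞) ≤
      ((nneg (max a α) (min b β) (pot (k + 1) τ (Um U α β ℓ)) + nneg a b (pot (k + 1) τ (Uo U α β ℓ)) : ℕ∞) : ℝ≥0∞) :=
        ENat.toENNReal_le.2 h1
    _ = _ := ENat.toENNReal_add _ _

theorem win_Uo_adm {γ a b : ℝ} (hγ : 0 < γ) {U : ℝ → ℝ} (hU : Continuous U) (hU0 : ∀ x, 0 ≤ U x) (α β ℓ : ℝ) :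
    Adm1 γ a b (Uo U α β ℓ) := by
  have hc := win_Um_continuous hU α β ℓ
  refine ⟨fun x => ?_, ?_⟩
  · unfold Uo
    refine indicator_nonneg (fun y _ => ?_) x
    unfold Um
    have := hU0 y
    positivity
  · obtain ⟨K, hK⟩ := isCompact_Icc.exists_bound_of_continuousOn (s := Icc a b) hc.continuousOn
    refine MemLp.of_bound ?_ K ?_
    · exact (hc.measurable.indicator measurableSet_Icc.compl).aestronglyMeasurable
    · refine (ae_restrict_mem measurableSet_Ioo).mono fun x hx => ?_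
      have h1 := hK x (Ioo_subset_Icc_self hx)
      unfold Uo
      refine (norm_indicator_le_norm_self _ _).trans h1

theorem window_ineq {γ a b C : ℝ} (hγ : 0 < γ) {U : ℝ → ℝ} (O : Opt γ a b C U) {α β ℓ : ℝ} (hℓ : 0 < ℓ) (h : α + 2 * ℓ ≤ β) :
    ENNReal.ofReal C * Jf γ (max a α) (min b β) (Um U α β ℓ) ≤ Gf γ (max a α) (min b β) (Um U α β ℓ) +
      2 * ENNReal.ofReal C * ∫⁻ x in Ioo a b ∩ Oz α β ℓ,
        ENNReal.ofReal ((U x + Real.pi ^ 2 / ℓ ^ 2) ^ (2 + γ) * Real.exp (-(2 * γ * x))) := by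
  have hU := O.cont
  have hU0 : ∀ x, 0 ≤ U x := by
    intro x
    by_cases hx : x ∈ Ioo a b
    · exact (O.pos x hx).le
    · rw [O.zero x hx]
  have hadm := win_Uo_adm (a := a) (b := b) hγ hU hU0 α β ℓ
  have h1 : ENNReal.ofReal C * Jf γ a b U ≤ Gf γ (max a α) (min b β) (Um U α β ℓ) +
      ENNReal.ofReal C * Jf γ a b (Uo U α β ℓ) := by
    rw [← O.eq]
    exact (win_Gf_le hU hℓ h).trans (by gcongr; exact O.max _ hadm)
  -- the pointwise comparison
  set F : (ℝ → ℝ) → ℝ → ℝ≥0∞ := fun u x => ENNReal.ofReal (u x ^ (2 + γ) * Real.exp (-(2 * γ * x))) with hF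
  have hFm : ∀ u : ℝ → ℝ, Measurable u → Measurable (F u) := by
    intro u hu
    exact ENNReal.measurable_ofReal.comp ((hu.pow_const _).mul (by fun_prop))
  have hFmono : ∀ u v : ℝ → ℝ, ∀ x, 0 ≤ u x → u x ≤ v x → F u x ≤ F v x := by
    intro u v x h0 huv
    refine ENNReal.ofReal_le_ofReal (mul_le_mul_of_nonneg_right ?_ (Real.exp_pos _).le)
    exact Real.rpow_le_rpow h0 huv (by linarith)
  have hUm0 : ∀ x, 0 ≤ Um U α β ℓ x := by
    intro x
    unfold Um
    have := hU0 x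
    positivity
  have hUmm : Measurable (Um U α β ℓ) := (win_Um_continuous hU α β ℓ).measurable
  have h2 : Jf γ (max a α) (min b β) (Um U α β ℓ) + Jf γ a b (Uo U α β ℓ) ≤ Jf γ a b U +
      2 * ∫⁻ x in Ioo a b ∩ Oz α β ℓ, F (fun x => U x + Real.pi ^ 2 / ℓ ^ 2) x := by
    have e1 : Jf γ (max a α) (min b β) (Um U α β ℓ) = ∫⁻ x, (Ioo (max a α) (min b β)).indicator (F (Um U α β ℓ)) x := by
      rw [lintegral_indicator measurableSet_Ioo]
      rfl
    have e2 : Jf γ a b (Uo U α β ℓ) = ∫⁻ x, (Ioo a b).indicator (F (Uo U α β ℓ)) x := by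
      rw [lintegral_indicator measurableSet_Ioo]
      rfl
    have e3 : Jf γ a b U = ∫⁻ x, (Ioo a b).indicator (F U) x := by
      rw [lintegral_indicator measurableSet_Ioo]
      rfl
    have e4 : ∫⁻ x in Ioo a b ∩ Oz α β ℓ, F (fun x => U x + Real.pi ^ 2 / ℓ ^ 2) x =
        ∫⁻ x, (Ioo a b ∩ Oz α β ℓ).indicator (F (fun x => U x + Real.pi ^ 2 / ℓ ^ 2)) x := by
      rw [lintegral_indicator (measurableSet_Ioo.inter (measurableSet_Oz α β ℓ))]
    rw [e1, e2, e3, e4, ← lintegral_const_mul' _ _ (by simp),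
      ← lintegral_add_left ((hFm _ hUmm).indicator measurableSet_Ioo),
      ← lintegral_add_left ((hFm _ hU.measurable).indicator measurableSet_Ioo)]
    refine lintegral_mono fun x => ?_
    by_cases hx : x ∈ Ioo a b
    swap
    · have hx1 : x ∉ Ioo (max a α) (min b β) := fun hh =>
        hx ⟨lt_of_le_of_lt (le_max_left _ _) hh.1, lt_of_lt_of_le hh.2 (min_le_left _ _)⟩
      rw [indicator_of_notMem hx1, indicator_of_notMem hx]
      simp
    rw [indicator_of_mem hx, indicator_of_mem hx]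
    by_cases ho : x ∈ Oz α β ℓ
    · -- in the end zones
      have hx2 : x ∈ Ioo a b ∩ Oz α β ℓ := ⟨hx, ho⟩
      rw [indicator_of_mem hx2]
      have h3 : F (Um U α β ℓ) x ≤ F (fun x => U x + Real.pi ^ 2 / ℓ ^ 2) x :=
        hFmono _ (fun x => U x + Real.pi ^ 2 / ℓ ^ 2) x (hUm0 x) (win_Um_le hℓ h x)
      have h4 : F (Uo U α β ℓ) x ≤ F (fun x => U x + Real.pi ^ 2 / ℓ ^ 2) x := by
        refine hFmono _ (fun x => U x + Real.pi ^ 2 / ℓ ^ 2) x (hadm.1 x) ?_
        refine le_trans ?_ (win_Um_le hℓ h x)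
        unfold Uo
        exact indicator_le_self' (fun y _ => hUm0 y) x
      calc _ ≤ F (fun x => U x + Real.pi ^ 2 / ℓ ^ 2) x + F (fun x => U x + Real.pi ^ 2 / ℓ ^ 2) x :=
            add_le_add ((indicator_le_self _ _ x).trans h3) h4
        _ = 2 * F (fun x => U x + Real.pi ^ 2 / ℓ ^ 2) x := by ring
        _ ≤ _ := le_add_self
    · have hx2 : x ∉ Ioo a b ∩ Oz α β ℓ := fun hh => ho hh.2
      rw [indicator_of_notMem hx2, mul_zero, add_zero]
      have hUe : Um U α β ℓ x = U x := win_Um_eq hℓ h ho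
      by_cases hc : x ∈ Icc (α + ℓ) (β - ℓ)
      · -- core
        have h5 : Uo U α β ℓ x = 0 := by
          unfold Uo
          exact indicator_of_notMem (fun hh : x ∈ (Icc (α + ℓ) (β - ℓ))ᶜ => hh hc) _
        have h6 : F (Uo U α β ℓ) x = 0 := by
          simp only [hF, h5]
          rw [Real.zero_rpow (by linarith)]
          simp
        rw [h6, add_zero]
        refine (indicator_le_self _ _ x).trans ?_
        simp only [hF, hUe]
        exact le_rfl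
      · have h7 : x ∉ Ioo (max a α) (min b β) := by
          intro hh
          have h8 : α < x := lt_of_le_of_lt (le_max_right _ _) hh.1
          have h9 : x < β := lt_of_lt_of_le hh.2 (min_le_right _ _)
          refine ho ?_
          unfold Oz
          by_cases h10 : x < α + ℓ
          · exact Or.inl ⟨h8, h10⟩
          · refine Or.inr ⟨?_, h9⟩
            by_contra h11
            exact hc ⟨not_lt.1 h10, not_lt.1 h11⟩
        rw [indicator_of_notMem h7, zero_add]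
        refine hFmono _ _ x (hadm.1 x) ?_
        rw [← hUe]
        unfold Uo
        exact indicator_le_self' (fun y _ => hUm0 y) x
  have hfin : ENNReal.ofReal C * Jf γ a b (Uo U α β ℓ) ≠ ⊤ :=
    ENNReal.mul_ne_top ENNReal.ofReal_ne_top (Jf_lt_top hγ hadm).ne
  refine (ENNReal.add_le_add_iff_right hfin).1 ?_
  calc ENNReal.ofReal C * Jf γ (max a α) (min b β) (Um U α β ℓ) + ENNReal.ofReal C * Jf γ a b (Uo U α β ℓ)
      = ENNReal.ofReal C * (Jf γ (max a α) (min b β) (Um U α β ℓ) + Jf γ a b (Uo U α β ℓ)) := by ring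
    _ ≤ ENNReal.ofReal C * (Jf γ a b U + 2 * ∫⁻ x in Ioo a b ∩ Oz α β ℓ, F (fun x => U x + Real.pi ^ 2 / ℓ ^ 2) x) :=
        mul_le_mul_right h2 _
    _ = ENNReal.ofReal C * Jf γ a b U + 2 * ENNReal.ofReal C *
        ∫⁻ x in Ioo a b ∩ Oz α β ℓ, F (fun x => U x + Real.pi ^ 2 / ℓ ^ 2) x := by ring
    _ ≤ (Gf γ (max a α) (min b β) (Um U α β ℓ) + ENNReal.ofReal C * Jf γ a b (Uo U α β ℓ)) + 2 * ENNReal.ofReal C *
        ∫⁻ x in Ioo a b ∩ Oz α β ℓ, F (fun x => U x + Real.pi ^ 2 / ℓ ^ 2) x := by gcongr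
    _ = _ := by ring

end Pool.Agent.RLT40
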